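import Mathlib
import Pool.Agent.Q16.SQ.Stm4

/-!
# Project SQ (helper16), job FX: an integer sided triangle with rational angles is equilateral
-/

set_option autoImplicit false

open scoped BigOperators
open Pool.Agent.Helper549.Tri

namespace Q278.SQFX

open Q16.SQ

theorem law (T : Fin 3 → Q16.SQ.E2) (i : Fin 3) :
    side T i ^ 2 = side T (i + 2) ^ 2 + side T (i + 1) ^ 2 -
      2 * side T (i + 2) * side T (i + 1) * Real.cos (angle T i) := by
  have h := EuclideanGeometry.dist_sq_eq_dist_sq_add_dist_sq_sub_two_mul_dist_mul_dist_mul_cos_angle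
    (T (i + 1)) (T i) (T (i + 2))
  have e1 : ∀ i : Fin 3, i + 2 + 1 = i ∧ i + 2 + 2 = i + 1 ∧ i + 1 + 1 = i + 2 ∧ i + 1 + 2 = i := by
    decide
  obtain ⟨a1, a2, a3, a4⟩ := e1 i
  unfold side angle
  rw [a1, a2, a3, a4, dist_comm (T i) (T (i + 1))]
  nlinarith [h]

theorem side_pos {T : Fin 3 → Q16.SQ.E2} (hT : AffineIndependent ℝ T) (i : Fin 3) : 0 < side T i := by
  unfold side
  rw [dist_pos]
  intro h
  have h1 := hT.injective h
  have h2 : ∀ i : Fin 3, i + 1 ≠ i + 2 := by decide
  exact h2 i h1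

theorem t_FX : Q16.SQ.S_FX := by
  intro T hT hsc hrat hF
  obtain ⟨hpos, hsum, hsin⟩ := tri_facts hT
  obtain ⟨i, j, k, hij, hjk, hik, x, y, z, -, r, hr, hx, hy, hz⟩ := hF
  have hall : ∀ l : Fin 3, ∃ n : ℚ, side T l = r * n := by
    intro l
    have : l = i ∨ l = j ∨ l = k := by
      clear hx hy hz
      revert i j k l
      decide
    rcases this with rfl | rfl | rfl
    · exact ⟨x, by rw [hx]; push_cast; ring⟩
    · exact ⟨y, by rw [hy]; push_cast; ring⟩
    · exact ⟨z, by rw [hz]; push_cast; ring⟩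
  have hcos : ∀ l : Fin 3, ∃ q : ℚ, Real.cos (angle T l) = q := by
    intro l
    obtain ⟨a, ha⟩ := hall l
    obtain ⟨b, hb⟩ := hall (l + 2)
    obtain ⟨c, hc⟩ := hall (l + 1)
    have h1 := law T l
    have hb0 := side_pos hT (l + 2)
    have hc0 := side_pos hT (l + 1)
    rw [hb] at hb0
    rw [hc] at hc0
    have hb1 : (b : ℝ) ≠ 0 := by
      rintro h
      rw [h] at hb0
      simp at hb0
    have hc1 : (c : ℝ) ≠ 0 := by
      rintro h
      rw [h] at hc0
      simp at hc0
    refine ⟨(b ^ 2 + c ^ 2 - a ^ 2) / (2 * b * c), ?_⟩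
    rw [ha, hb, hc] at h1
    push_cast
    rw [eq_div_iff (by positivity)]
    have hr2 : r ^ 2 ≠ 0 := by positivity
    apply mul_left_cancel₀ hr2
    nlinarith [h1]
  have hge : ∀ l : Fin 3, Real.pi / 3 ≤ angle T l := by
    intro l
    have h0 := hpos l
    have hle : angle T l ∈ Set.Icc 0 Real.pi :=
      ⟨h0.le, EuclideanGeometry.angle_le_pi _ _ _⟩
    have hpi := Real.pi_pos
    rcases niven_angle_eq (hrat l) (hcos l) hle with h | h | h | h | h
    · rw [h] at h0
      exact absurd h0 (lt_irrefl _)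
    · exact h.ge
    · linarith
    · linarith
    · rw [Set.mem_singleton_iff] at h
      linarith
  have g0 := hge 0
  have g1 := hge 1
  have g2 := hge 2
  have e0 : angle T 0 = Real.pi / 3 := by linarith
  have e1 : angle T 1 = Real.pi / 3 := by linarith
  have h01 := hsin 0 1
  rw [e0, e1] at h01
  have hs : Real.sin (Real.pi / 3) ≠ 0 := by
    rw [Real.sin_pi_div_three]
    positivity
  exact hsc 0 1 (by decide) (mul_right_cancel₀ hs h01)

end Q278.SQFX
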