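import Pool.Agent.Q278.MG

set_option autoImplicit false

/-! Morley's and Wolstenholme's congruences and values of the `p`-adic gamma function modulo
`p ^ 3`. -/

namespace Q278.MG

open Finset Q278.Loc Q278.Unit Q278.EE
open Pool.Agent.H623R3.SW (mg mg_eq)

variable {p h : ℕ} [hp : Fact p.Prime] (hP : p = 2 * h + 1) (h5 : 5 ≤ p)

include hP h5

/-- Morley's congruence modulo `p ^ 3` -/
theorem morley : (h.centralBinom : ℚ) - (-1) ^ h * 16 ^ h ∈ I (PI.O p) (p : ℚ) 3 := by
  set A : ℚ := ∏ i ∈ range h, (1 - ((2 * h + 1 : ℕ) : ℚ) / (2 * ((i + 1 : ℕ) : ℚ))) with hA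
  set B : ℚ := ∏ i ∈ range h, (1 - ((2 * h + 1 : ℕ) : ℚ) / ((i + 1 : ℕ) : ℚ)) with hB
  have eA := Alt.cb_A h
  have eB := Alt.cb_B h
  rw [← hA] at eA
  rw [← hB] at eB
  have two := two_U hP
  have hAB : A ^ 2 - B ∈ I (PI.O p) (p : ℚ) 3 := by
    rw [hA, hB, ← prod_pow]
    have four : U (PI.O p) (4 : ℚ) := by
      have h1 := two.mul two
      norm_num at h1
      exact h1
    apply prod3 hP h5 _ _ (1 / 4)
    · rw [one_div]; exact four.2.1
    · intro i hi
      have u1 := i_U hP hi
      refine (PI.O p).pow_mem ((PI.O p).sub_mem (PI.O p).one_mem ?_) 2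
      rw [div_eq_mul_inv]
      push_cast
      exact (PI.O p).mul_mem (by exact_mod_cast natCast_mem (PI.O p) (2 * h + 1))
        (two.mul u1).2.1
    · intro i hi
      have u1 := i_U hP hi
      refine (PI.O p).sub_mem (PI.O p).one_mem ?_
      rw [div_eq_mul_inv]
      push_cast
      exact (PI.O p).mul_mem (by exact_mod_cast natCast_mem (PI.O p) (2 * h + 1)) u1.2.1
    · intro i hi
      have u1 := i_U hP hi
      have n1 := u1.2.2
      refine ⟨(4 : ℚ)⁻¹ * (((i : ℚ) + 1) ^ 3)⁻¹, (PI.O p).mul_mem four.2.1 (u1.pow 3).2.1, ?_⟩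
      rw [hP]
      push_cast
      field_simp
      ring
  have h0 : (h.centralBinom : ℚ) ≠ 0 := by exact_mod_cast Nat.centralBinom_ne_zero h
  have hcU : U (PI.O p) (h.centralBinom : ℚ) := by
    have h1 : ¬ (p : ℤ) ∣ (h.centralBinom : ℤ) := by
      intro h2
      have h3 : p ∣ h.centralBinom := Int.natCast_dvd_natCast.1 h2
      rw [Nat.centralBinom] at h3
      have h4 : p ∣ (2 * h).factorial :=
        h3.trans (Nat.dvd_of_mul_dvd_mul_right (Nat.factorial_pos 1) (by
          rw [← Nat.choose_mul_factorial_mul_factorial (show h ≤ 2 * h by omega)]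
          simp only [Nat.factorial_one, mul_one]
          exact Dvd.intro _ (by rw [mul_assoc])))
      have := (Nat.Prime.dvd_factorial hp.out).1 h4
      omega
    exact_mod_cast U_int h1
  have h16 : (16 : ℚ) ^ h = ((-4) ^ h) ^ 2 := by rw [← pow_mul, mul_comm, pow_mul]; norm_num
  have h55 : (-1 : ℚ) ^ h * (-1) ^ h = 1 := by rw [← mul_pow]; norm_num
  have hB' : B = (-1) ^ h * (h.centralBinom : ℚ) := by
    rw [eB, ← mul_assoc, h55, one_mul]
  have hA' : A ^ 2 * 16 ^ h = (h.centralBinom : ℚ) ^ 2 := by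
    rw [h16, eA]; ring
  have h2 := mul_O ((PI.O p).mul_mem hcU.2.1 (natCast_mem (PI.O p) (16 ^ h))) hAB
  convert h2 using 1
  push_cast
  rw [hB']
  have e : (h.centralBinom : ℚ)⁻¹ * 16 ^ h * (A ^ 2 - (-1) ^ h * (h.centralBinom : ℚ)) =
      (h.centralBinom : ℚ)⁻¹ * (A ^ 2 * 16 ^ h) -
        (-1) ^ h * 16 ^ h * ((h.centralBinom : ℚ)⁻¹ * (h.centralBinom : ℚ)) := by ring
  rw [e, hA', inv_mul_cancel₀ h0]
  field_simp

/-- Wolstenholme's congruence -/
theorem wol : (p.centralBinom : ℚ) / 2 - 1 ∈ I (PI.O p) (p : ℚ) 3 := by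
  have two := two_U hP
  have e1 : (p.centralBinom : ℚ) / 2 * ∏ i ∈ range h, (((i : ℚ) + 1) * (p - (i + 1))) =
      ∏ i ∈ range h, ((p + ((i : ℚ) + 1)) * (p + (p - (i + 1)))) := by
    have pr : ∀ f : ℕ → ℚ, ∏ i ∈ range (2 * h), f (i + 1) =
        ∏ i ∈ range h, (f (i + 1) * f (p - (i + 1))) := by
      intro f
      rw [two_mul, prod_range_add, prod_mul_distrib]
      congr 1
      rw [← prod_range_reflect]
      apply prod_congr rfl
      intro i hi
      have := mem_range.1 hi
      congr 1
      omega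
    have p1 := pr (fun j => (j : ℚ))
    have p2 := pr (fun j => (p : ℚ) + j)
    have c1 : ∏ i ∈ range h, ((((i + 1 : ℕ)) : ℚ) * ((p - (i + 1) : ℕ) : ℚ)) =
        ∏ i ∈ range h, (((i : ℚ) + 1) * (p - (i + 1))) := by
      apply prod_congr rfl
      intro i hi
      have := mem_range.1 hi
      rw [Nat.cast_sub (by omega)]
      push_cast; ring
    have c2 : ∏ i ∈ range h, ((p + ((i + 1 : ℕ) : ℚ)) * (p + ((p - (i + 1) : ℕ) : ℚ))) =
        ∏ i ∈ range h, ((p + ((i : ℚ) + 1)) * (p + (p - (i + 1)))) := by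
      apply prod_congr rfl
      intro i hi
      have := mem_range.1 hi
      rw [Nat.cast_sub (by omega)]
      push_cast; ring
    rw [c1] at p1
    rw [c2] at p2
    rw [← p1, ← p2]
    -- `C(2p,p) = 2 C(2p-1,p-1)`
    have h1 : (p.centralBinom : ℚ) = 2 * ((p + 2 * h).choose (2 * h) : ℚ) := by
      have h2 : p.centralBinom = 2 * (p + 2 * h).choose (2 * h) := by
        rw [Nat.centralBinom, show 2 * p = (p + 2 * h) + 1 by omega]
        conv_lhs => rw [show p = 2 * h + 1 from hP]
        rw [Nat.choose_succ_succ' (2 * h + 1 + 2 * h) (2 * h)]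
        have : (2 * h + 1 + 2 * h).choose (2 * h + 1) = (2 * h + 1 + 2 * h).choose (2 * h) := by
          rw [← Nat.choose_symm_add]
        rw [this, ← hP]; ring
      exact_mod_cast h2
    have h2 : ((p + 2 * h).choose (2 * h) : ℚ) * ((2 * h).factorial : ℚ) =
        ∏ i ∈ range (2 * h), ((p : ℚ) + ((i + 1 : ℕ) : ℚ)) := by
      have h3 := Nat.descFactorial_eq_factorial_mul_choose (p + 2 * h) (2 * h)
      rw [Nat.descFactorial_eq_prod_range] at h3
      have e : ((∏ i ∈ range (2 * h), (p + 2 * h - i) : ℕ) : ℚ) =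
          (((2 * h).factorial * (p + 2 * h).choose (2 * h) : ℕ) : ℚ) := by
        rw [h3]
      push_cast at e
      rw [mul_comm, ← e, ← prod_range_reflect]
      apply prod_congr rfl
      intro i hi
      have := mem_range.1 hi
      rw [Nat.cast_sub (by omega), Nat.cast_sub (by omega), Nat.cast_sub (by omega)]
      push_cast; ring
    have h3 : (((2 * h).factorial : ℕ) : ℚ) = ∏ i ∈ range (2 * h), ((i + 1 : ℕ) : ℚ) := by
      rw [← Finset.prod_range_add_one_eq_factorial]; push_cast; rfl
    rw [← h2, ← h3, h1]; ring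
  have hU : U (PI.O p) (∏ i ∈ range h, (((i : ℚ) + 1) * (p - (i + 1)))) :=
    U.prod fun i hi => (i_U hP (mem_range.1 hi)).mul (pi_U hP (mem_range.1 hi))
  have h3 : ∏ i ∈ range h, ((p + ((i : ℚ) + 1)) * (p + (p - (i + 1)))) -
      ∏ i ∈ range h, (((i : ℚ) + 1) * (p - (i + 1))) ∈ I (PI.O p) (p : ℚ) 3 := by
    apply prod3 hP h5 _ _ (-2)
    · exact_mod_cast intCast_mem (PI.O p) (-2)
    · intro i hi
      exact_mod_cast intCast_mem (PI.O p) ((p + (i + 1)) * (p + (p - (i + 1))))
    · intro i hi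
      exact ((i_U hP hi).mul (pi_U hP hi)).1
    · intro i hi
      have u1 := i_U hP hi
      have n1 := u1.2.2
      refine ⟨2 * ((i : ℚ) + 1)⁻¹, (PI.O p).mul_mem two.1 u1.2.1, ?_⟩
      field_simp
      ring
  rw [← e1] at h3
  have h4 := mul_O hU.2.1 h3
  convert h4 using 1
  have h0 := hU.2.2
  field_simp

omit h5 hP in
omit hp in
/-- the recurrence of the `p`-adic gamma function -/
theorem mg_succ (n : ℕ) : (mg p (n + 1) : ℚ) = -(if p ∣ n then (1 : ℚ) else (n : ℚ)) * mg p n := by
  rw [mg_eq ℚ (n + 1), mg_eq ℚ n, prod_range_succ, pow_succ]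
  ring

omit h5 hp in
theorem mg_block (n : ℕ) : (mg p (n + p) : ℚ) = -(mg p n : ℚ) *
    ∏ j ∈ range p, (if p ∣ n + j then (1 : ℚ) else ((n + j : ℕ) : ℚ)) := by
  have hodd : Odd p := ⟨h, hP⟩
  rw [mg_eq ℚ (n + p), mg_eq ℚ n, prod_range_add, pow_add, hodd.neg_one_pow]
  ring

/-- the values at the multiples of `p` -/
theorem mg_mul (z : ℕ) : (mg p (p * z) : ℚ) - (-((2 * h).factorial : ℚ)) ^ z ∈
    I (PI.O p) (p : ℚ) 3 := by
  have hfact : (((2 * h).factorial : ℕ) : ℚ) = ∏ i ∈ range h, (((i : ℚ) + 1) * (p - (i + 1))) := by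
    have h3 : (((2 * h).factorial : ℕ) : ℚ) = ∏ i ∈ range (2 * h), ((i + 1 : ℕ) : ℚ) := by
      rw [← Finset.prod_range_add_one_eq_factorial]; push_cast; rfl
    rw [h3, two_mul, prod_range_add, prod_mul_distrib]
    congr 1
    · push_cast; rfl
    · rw [← prod_range_reflect]
      apply prod_congr rfl
      intro i hi
      have := mem_range.1 hi
      rw [show h + (h - 1 - i) + 1 = p - (i + 1) by omega, Nat.cast_sub (by omega)]
      push_cast; ring
  induction z with
  | zero => simp [mg]
  | succ z ih =>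
    have e1 : ∏ j ∈ range p, (if p ∣ p * z + j then (1 : ℚ) else ((p * z + j : ℕ) : ℚ)) =
        ∏ i ∈ range h, (((p : ℚ) * z + (i + 1)) * (p * z + (p - (i + 1)))) := by
      conv_lhs => rw [show p = 2 * h + 1 from hP]
      rw [prod_range_succ']
      rw [if_pos (by simp)]
      rw [mul_one, two_mul, prod_range_add, prod_mul_distrib]
      rw [show h + h + 1 = p by omega]
      congr 1
      · apply prod_congr rfl
        intro i hi
        have := mem_range.1 hi
        rw [if_neg (by
          intro h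
          have h2 := (Nat.dvd_add_right (dvd_mul_right p z)).1 h
          have := Nat.le_of_dvd (by omega) h2
          omega)]
        push_cast; ring
      · rw [← prod_range_reflect]
        apply prod_congr rfl
        intro i hi
        have := mem_range.1 hi
        rw [if_neg (by
          intro h
          have h2 := (Nat.dvd_add_right (dvd_mul_right p z)).1 h
          have := Nat.le_of_dvd (by omega) h2
          omega), show h + (h - 1 - i) + 1 = p - (i + 1) by omega, Nat.cast_add,
          Nat.cast_sub (by omega)]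
        push_cast; ring
    have h1 : ∏ i ∈ range h, (((p : ℚ) * z + (i + 1)) * (p * z + (p - (i + 1)))) -
        ((2 * h).factorial : ℚ) ∈ I (PI.O p) (p : ℚ) 3 := by
      rw [hfact]
      apply prod3 hP h5 _ _ (-(z * (z + 1)))
      · exact_mod_cast intCast_mem (PI.O p) (-(z * (z + 1)))
      · intro i hi
        exact_mod_cast intCast_mem (PI.O p) ((p * z + (i + 1)) * (p * z + (p - (i + 1))))
      · intro i hi
        exact ((i_U hP hi).mul (pi_U hP hi)).1
      · intro i hi
        have u1 := i_U hP hi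
        have n1 := u1.2.2
        refine ⟨(z * (z + 1)) * ((i : ℚ) + 1)⁻¹, (PI.O p).mul_mem
          (by exact_mod_cast natCast_mem (PI.O p) (z * (z + 1))) u1.2.1, ?_⟩
        field_simp
        ring
    rw [show p * (z + 1) = p * z + p by ring, mg_block hP, e1, pow_succ]
    have hmg : (mg p (p * z) : ℚ) ∈ PI.O p := intCast_mem _ _
    have h2 := mul_O ((PI.O p).neg_mem hmg) h1
    have h3 := mul_O ((PI.O p).neg_mem (natCast_mem (PI.O p) (2 * h).factorial)) ih
    have h4 := (I (PI.O p) (p : ℚ) 3).add_mem h2 h3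
    convert h4 using 1
    ring

/-- the values at the numbers congruent to `1 / 2` -/
theorem mg_half (z : ℕ) : (mg p (h + 1 + p * z) : ℚ) - ((-1) ^ (h + 1) * (h.factorial : ℚ)) *
    ((-1) ^ (h + 1) * (h.factorial : ℚ) ^ 2) ^ z ∈ I (PI.O p) (p : ℚ) 3 := by
  induction z with
  | zero =>
    have : (mg p (h + 1) : ℚ) = (-1) ^ (h + 1) * (h.factorial : ℚ) := by
      rw [mg_eq ℚ (h + 1), prod_range_succ']
      have e : (((h.factorial : ℕ) : ℚ)) = ∏ i ∈ range h, ((i + 1 : ℕ) : ℚ) := by
        rw [← Finset.prod_range_add_one_eq_factorial]; push_cast; rfl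
      rw [if_pos (dvd_zero p), mul_one, e]
      congr 1
      apply prod_congr rfl
      intro i hi
      have := mem_range.1 hi
      rw [if_neg (by intro h; have := Nat.le_of_dvd (Nat.succ_pos i) h; omega)]
    rw [mul_zero, add_zero, this]
    simp
  | succ z ih =>
    have e1 : ∏ j ∈ range p, (if p ∣ (h + 1 + p * z) + j then (1 : ℚ) else
        ((h + 1 + p * z + j : ℕ) : ℚ)) =
        ∏ i ∈ range h, (((p : ℚ) * (z + 1) - (i + 1)) * (p * (z + 1) + (i + 1))) := by
      rw [show p = h + (1 + h) by omega, prod_range_add, prod_range_add, prod_range_one]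
      rw [show h + (1 + h) = p by omega]
      rw [if_pos (by
        rw [show h + 1 + p * z + (h + 0) = p * (z + 1) by rw [mul_add]; omega]
        exact dvd_mul_right _ _), one_mul, prod_mul_distrib]
      congr 1
      · rw [← prod_range_reflect]
        apply prod_congr rfl
        intro i hi
        have hi' := mem_range.1 hi
        have e2 : h + 1 + p * z + (h - 1 - i) = p * z + (p - (i + 1)) := by omega
        rw [e2, if_neg (by
          intro h
          have h2 := (Nat.dvd_add_right (dvd_mul_right p z)).1 h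
          have := Nat.le_of_dvd (by omega) h2
          omega), Nat.cast_add, Nat.cast_sub (by omega)]
        push_cast; ring
      · apply prod_congr rfl
        intro i hi
        have hi' := mem_range.1 hi
        have e2 : h + 1 + p * z + (h + (1 + i)) = p * (z + 1) + (i + 1) := by
          rw [mul_add]; omega
        rw [e2, if_neg (by
          intro h
          have h2 := (Nat.dvd_add_right (dvd_mul_right p (z + 1))).1 h
          have := Nat.le_of_dvd (by omega) h2
          omega)]
        push_cast; ring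
    have h1 : ∏ i ∈ range h, (((p : ℚ) * (z + 1) - (i + 1)) * (p * (z + 1) + (i + 1))) -
        (-1) ^ h * (h.factorial : ℚ) ^ 2 ∈ I (PI.O p) (p : ℚ) 3 := by
      have e : (((h.factorial : ℕ) : ℚ)) = ∏ i ∈ range h, ((i : ℚ) + 1) := by
        rw [← Finset.prod_range_add_one_eq_factorial]; push_cast; rfl
      have e' : (-1 : ℚ) ^ h * (h.factorial : ℚ) ^ 2 = ∏ i ∈ range h, (-((i : ℚ) + 1) ^ 2) := by
        rw [e, ← prod_pow]
        have : (-1 : ℚ) ^ h = ∏ _i ∈ range h, (-1 : ℚ) := by rw [prod_const, card_range]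
        rw [this, ← prod_mul_distrib]
        apply prod_congr rfl
        intro i _; ring
      rw [e']
      apply prod3 hP h5 _ _ (-(z + 1) ^ 2)
      · have m1 : ((z : ℚ) + 1) ∈ PI.O p := by exact_mod_cast natCast_mem (PI.O p) (z + 1)
        exact (PI.O p).neg_mem ((PI.O p).pow_mem m1 2)
      · intro i hi
        exact_mod_cast intCast_mem (PI.O p) ((p * (z + 1) - (i + 1)) * (p * (z + 1) + (i + 1)))
      · intro i hi
        exact (PI.O p).neg_mem (((i_U hP hi).pow 2).1)
      · intro i hi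
        have n1 := (i_U hP hi).2.2
        refine ⟨0, (PI.O p).zero_mem, ?_⟩
        field_simp
        ring
    rw [show h + 1 + p * (z + 1) = h + 1 + p * z + p by ring, mg_block hP, e1, pow_succ]
    have hmg : (mg p (h + 1 + p * z) : ℚ) ∈ PI.O p := intCast_mem _ _
    have hc : (-1) ^ (h + 1) * (h.factorial : ℚ) ^ 2 ∈ PI.O p := by
      exact (PI.O p).mul_mem ((PI.O p).pow_mem ((PI.O p).neg_mem (PI.O p).one_mem) _)
        ((PI.O p).pow_mem (natCast_mem _ _) 2)
    have h2 := mul_O ((PI.O p).neg_mem hmg) h1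
    have h3 := mul_O hc ih
    have h4 := (I (PI.O p) (p : ℚ) 3).add_mem h2 h3
    convert h4 using 1
    rw [pow_succ (-1 : ℚ) h]
    ring

end Q278.MG
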