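import Pool.Agent.Q201.AR.Stm3

set_option autoImplicit false

open FirstOrder FirstOrder.Language Pool.Agent.Helper227.EN

namespace Q278.AR

open Q201.AR Filter

/-- the ultrafilter -/
noncomputable abbrev uf : Ultrafilter ℕ := hyperfilter ℕ

/-- the ultrapower -/
abbrev UP : Type := ((uf : Filter ℕ).Product (fun _ : ℕ => ℕ))

/-- the structure on the ultrapower -/
noncomputable def upStr : LA.Structure UP :=
  @Ultraproduct.structure ℕ (fun _ : ℕ => ℕ) uf LA (fun _ => stdStr)

/-- the class of a sequence -/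
noncomputable def cl (x : ℕ → ℕ) : UP := Quotient.mk'' x

theorem cl_surj (e : UP) : ∃ x, cl x = e := Quotient.exists_rep e

theorem los (φ : LA.Formula ℕ) (x : ℕ → ℕ → ℕ) :
    (@Formula.Realize LA UP upStr ℕ φ fun i => cl (x i)) ↔
      ∀ᶠ a : ℕ in (uf : Filter ℕ), @Formula.Realize LA ℕ stdStr ℕ φ fun i => x i a :=
  @Ultraproduct.realize_formula_cast ℕ (fun _ : ℕ => ℕ) uf LA (fun _ => stdStr) _ ℕ φ x

theorem los_sat (hD : S_DECOMP) (c : ℕ) (x : ℕ → ℕ → ℕ) :
    (@Sat UP upStr c fun i => cl (x i)) ↔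
      ∀ᶠ a : ℕ in (uf : Filter ℕ), @Sat ℕ stdStr c fun i => x i a := by
  obtain ⟨φ, hφ⟩ := hD c
  have h1 := @hφ UP upStr fun i => cl (x i)
  rw [← h1, los]
  exact eventually_congr (Eventually.of_forall fun a => @hφ ℕ stdStr _)

theorem t_NS : S_NS := by
  intro hD hN
  refine ⟨UP, upStr, cl (fun a : ℕ => a), ?_, ?_⟩
  · intro c hc e
    choose x hx using fun i => cl_surj (e i)
    have he : e = fun i => cl (x i) := by
      funext i
      exact (hx i).symm
    rw [he, los_sat hD]
    exact Eventually.of_forall fun a => hc _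
  · intro n h
    have h' := (los_sat hD (numc n) (fun _ a => a)).1 h
    have h2 : {a : ℕ | a = n} ∈ uf := by
      filter_upwards [h'] with a ha
      exact (hN n a).1 ha
    exact notMem_hyperfilter_of_finite (Set.finite_singleton n) h2

end Q278.AR
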