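import Pool.Agent.Q278.PI

set_option autoImplicit false

/-! The alternating sum `∑ (-1) ^ k (4 k - 1) (-1/2)_k ^ 3 / k! ^ 3`. -/

namespace Q278.Alt

open Finset Q278.PI

/-- `(-1/2)_k` -/
def a (k : ℕ) : ℚ := ∏ i ∈ range k, (-(1 / 2) + (i : ℚ))

theorem a_succ (k : ℕ) : a (k + 1) = a k * (k - 1 / 2) := by
  unfold a
  rw [prod_range_succ]
  ring

theorem a_ne (k : ℕ) : a k ≠ 0 := by
  unfold a
  rw [prod_ne_zero_iff]
  intro i _ h
  have h1 : (2 * (i : ℤ) - 1 : ℚ) = 0 := by push_cast; linarith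
  have h2 : (2 * (i : ℤ) - 1) = 0 := by exact_mod_cast h1
  omega

theorem a_cb (m : ℕ) : a (m + 1) = -(1 / 2) * (m.centralBinom : ℚ) * (m.factorial : ℚ) / 4 ^ m := by
  induction m with
  | zero => simp [a]
  | succ m ih =>
    rw [a_succ, ih]
    have h1 : ((m : ℚ) + 1) * ((m + 1).centralBinom : ℚ) = 2 * (2 * m + 1) * (m.centralBinom : ℚ) := by
      exact_mod_cast Nat.succ_mul_centralBinom_succ m
    rw [Nat.factorial_succ]
    push_cast
    rw [pow_succ]
    field_simp
    linear_combination 2 * h1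

/-! ### The WZ pair -/

/-- the common factor -/
def X (n k : ℕ) : ℚ := (-1) ^ (n + k) * a n ^ 2 * a (n + k) * ((n.choose k * k.factorial : ℕ) : ℚ) /
  ((n.factorial : ℚ) ^ 3 * a k ^ 2)

def F (n k : ℕ) : ℚ := (4 * n - 1) * X n k

/-- the companion, shifted in `k` -/
def G (n k : ℕ) : ℚ := 2 * (-1) ^ (n + k + 1) * a n ^ 2 * a (n + k) *
  ((n.choose (k + 1) * (k + 1).factorial : ℕ) : ℚ) * n ^ 2 / ((n.factorial : ℚ) ^ 3 * a (k + 1) ^ 2)

theorem ch1 (n k : ℕ) : ((n.choose (k + 1) * (k + 1).factorial : ℕ) : ℚ) =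
    (n - k) * ((n.choose k * k.factorial : ℕ) : ℚ) := by
  rw [Nat.factorial_succ]
  rcases le_or_gt k n with h | h
  · have h1 := Nat.choose_succ_right_eq n k
    have h2 : ((n.choose (k + 1) : ℚ)) * (k + 1) = n.choose k * (n - k) := by
      have : ((n.choose (k + 1) * (k + 1) : ℕ) : ℚ) = ((n.choose k * (n - k) : ℕ) : ℚ) := by
        rw [h1]
      push_cast [Nat.cast_sub h] at this
      exact this
    push_cast
    linear_combination (k.factorial : ℚ) * h2
  · rw [Nat.choose_eq_zero_of_lt h, Nat.choose_eq_zero_of_lt (by omega)]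
    simp

theorem ch2 (n k : ℕ) : (((n + 1).choose (k + 1) * (k + 1).factorial : ℕ) : ℚ) =
    (n + 1) * ((n.choose k * k.factorial : ℕ) : ℚ) := by
  rw [Nat.factorial_succ]
  have h1 := Nat.add_one_mul_choose_eq n k
  have h2 : ((n : ℚ) + 1) * n.choose k = (n + 1).choose (k + 1) * (k + 1) := by
    exact_mod_cast h1
  push_cast
  linear_combination -(k.factorial : ℚ) * h2

theorem wz (n k : ℕ) : F n k - F n (k + 1) = G (n + 1) k - G n k := by
  unfold F X G
  rw [ch1, ch2, ← add_assoc n k 1, show n + 1 + k = n + k + 1 by ring, a_succ n, a_succ k,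
    a_succ (n + k), Nat.factorial_succ]
  have h0 := a_ne k
  have h1 : ((n.factorial : ℕ) : ℚ) ≠ 0 := by exact_mod_cast Nat.factorial_ne_zero n
  have h2 : (k : ℚ) - 1 / 2 ≠ 0 := by
    intro h
    have h1 : (2 * (k : ℤ) - 1 : ℚ) = 0 := by push_cast; linarith
    have h2 : (2 * (k : ℤ) - 1) = 0 := by exact_mod_cast h1
    omega
  have h3 : (n : ℚ) + 1 ≠ 0 := by positivity
  generalize a n = x at *
  generalize a k = y at *
  generalize a (n + k) = z at *
  push_cast
  generalize (n.factorial : ℚ) = f at *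
  generalize (n.choose k : ℚ) = c at *
  generalize (k.factorial : ℚ) = g at *
  rw [pow_succ (-1 : ℚ) (n + k + 1), pow_succ (-1 : ℚ) (n + k)]
  generalize (-1 : ℚ) ^ (n + k) = s
  obtain ⟨w, hw⟩ : ∃ w : ℚ, (k : ℚ) = w + 1 / 2 := ⟨k - 1 / 2, by ring⟩
  rw [hw] at h2 ⊢
  rw [show w + 1 / 2 - 1 / 2 = w by ring] at h2 ⊢
  field_simp
  ring

theorem G_zero (k : ℕ) : G 0 k = 0 := by simp [G]

theorem F_zero (n : ℕ) : F n 0 = (-1) ^ n * (4 * n - 1) * a n ^ 3 / (n.factorial : ℚ) ^ 3 := by
  unfold F X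
  simp [a]
  ring

theorem sum_F (N : ℕ) : ∀ K : ℕ, ∑ n ∈ range N, F n 0 = ∑ n ∈ range N, F n K +
    ∑ k ∈ range K, G N k := by
  intro K
  induction K with
  | zero => simp
  | succ K ih =>
    rw [ih, sum_range_succ _ K]
    have h : ∑ n ∈ range N, F n K - ∑ n ∈ range N, F n (K + 1) = G N K := by
      rw [← sum_sub_distrib, sum_congr rfl (fun n _ => wz n K), sum_range_sub (fun n => G n K),
        G_zero, sub_zero]
    linear_combination h

/-! ### Integrality -/

/-- `[x ^ b] (1 - 4 x) ^ (-a - 1/2)` -/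
def W : ℕ → ℕ → ℕ
  | 0, b => b.centralBinom
  | _ + 1, 0 => 1
  | a + 1, b + 1 => 4 * W (a + 1) b + W a (b + 1)

theorem cb_zero : Nat.centralBinom 0 = 1 := by simp [Nat.centralBinom]

theorem W_zero (a : ℕ) : W a 0 = 1 := by
  cases a <;> simp [W, cb_zero]

theorem W_eq : ∀ a b : ℕ, a.centralBinom * W a b = (a + b).centralBinom * (a + b).choose a := by
  intro a
  induction a with
  | zero => intro b; simp [W, cb_zero]
  | succ a iha =>
    intro b
    induction b with
    | zero => simp [W]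
    | succ b ihb =>
      have e1 := iha (b + 1)
      rw [W, mul_add]
      -- relations
      have c1 : (a + 1) * (a + 1).centralBinom = 2 * (2 * a + 1) * a.centralBinom :=
        Nat.succ_mul_centralBinom_succ a
      have c2 : (a + b + 2) * (a + b + 2).centralBinom = 2 * (2 * (a + b + 1) + 1) *
        (a + b + 1).centralBinom := Nat.succ_mul_centralBinom_succ (a + b + 1)
      have d1 : (a + b + 1 + 1) * (a + b + 1).choose a = (a + b + 2).choose (a + 1) * (a + 1) :=
        Nat.add_one_mul_choose_eq (a + b + 1) a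
      have d2 : (a + b + 1).choose (a + 1) * (a + 1) = (a + b + 1).choose a * (a + b + 1 - a) :=
        Nat.choose_succ_right_eq (a + b + 1) a
      rw [show a + b + 1 - a = b + 1 by omega] at d2
      rw [show a + 1 + b = a + b + 1 by ring] at ihb
      rw [show a + (b + 1) = a + b + 1 by ring] at e1
      rw [show a + 1 + (b + 1) = a + b + 2 by ring]
      have c1' : ((a : ℚ) + 1) * (a + 1).centralBinom = 2 * (2 * a + 1) * a.centralBinom := by
        exact_mod_cast c1
      have c2' : ((a : ℚ) + b + 2) * (a + b + 2).centralBinom = 2 * (2 * (a + b + 1) + 1) *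
        (a + b + 1).centralBinom := by exact_mod_cast c2
      have d1' : ((a : ℚ) + b + 1 + 1) * (a + b + 1).choose a =
        (a + b + 2).choose (a + 1) * (a + 1) := by exact_mod_cast d1
      have d2' : ((a + b + 1).choose (a + 1) : ℚ) * (a + 1) = (a + b + 1).choose a * (b + 1) := by
        exact_mod_cast d2
      have e1' : (a.centralBinom : ℚ) * W a (b + 1) = (a + b + 1).centralBinom *
        (a + b + 1).choose a := by exact_mod_cast e1
      have ihb' : ((a + 1).centralBinom : ℚ) * W (a + 1) b = (a + b + 1).centralBinom *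
        (a + b + 1).choose (a + 1) := by exact_mod_cast ihb
      have goal : ((a + 1).centralBinom : ℚ) * (4 * W (a + 1) b) + (a + 1).centralBinom *
          W a (b + 1) = (a + b + 2).centralBinom * (a + b + 2).choose (a + 1) := by
        have h1 : (a : ℚ) + 1 ≠ 0 := by positivity
        have h2 : (a : ℚ) + b + 2 ≠ 0 := by positivity
        have f1 : ((a + 1).centralBinom : ℚ) = 2 * (2 * a + 1) * a.centralBinom / (a + 1) := by
          rw [eq_div_iff h1]; linear_combination c1'
        have f2 : ((a + b + 2).centralBinom : ℚ) = 2 * (2 * (a + b + 1) + 1) *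
            (a + b + 1).centralBinom / (a + b + 2) := by
          rw [eq_div_iff h2]; linear_combination c2'
        have f3 : ((a + b + 2).choose (a + 1) : ℚ) = (a + b + 2) * (a + b + 1).choose a /
            (a + 1) := by
          rw [eq_div_iff h1]; linear_combination -d1'
        have f4 : ((a + b + 1).choose (a + 1) : ℚ) = (a + b + 1).choose a * (b + 1) / (a + 1) := by
          rw [eq_div_iff h1]; linear_combination d2'
        have f5 : ((a + 1).centralBinom : ℚ) * (4 * W (a + 1) b) = 4 * ((a + b + 1).centralBinom *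
          ((a + b + 1).choose a * (b + 1) / (a + 1))) := by
          rw [← f4, ← ihb']; ring
        have f6 : ((a + 1).centralBinom : ℚ) * W a (b + 1) = 2 * (2 * a + 1) / (a + 1) *
            ((a + b + 1).centralBinom * (a + b + 1).choose a) := by
          rw [← e1', f1]; ring
        rw [f5, f6, f2, f3]
        field_simp
        ring
      exact_mod_cast goal

/-- The companion in terms of integers. -/
theorem G_eq (a' b : ℕ) : G (a' + 1) b = -(-1) ^ (a' + b) * (a'.centralBinom : ℚ) ^ 3 *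
    (a'.choose b) * (W a' b) * 4 ^ b / (64 ^ a' * (b.centralBinom : ℚ) ^ 2) := by
  unfold G
  rw [a_cb a', show a' + 1 + b = a' + b + 1 by ring, a_cb (a' + b), a_cb b, ch2]
  have w := W_eq a' b
  have w' : (a'.centralBinom : ℚ) * W a' b = (a' + b).centralBinom * (a' + b).choose a' := by
    exact_mod_cast w
  have e1 : ((a' + b).choose a' : ℚ) * a'.factorial * b.factorial = (a' + b).factorial := by
    have := Nat.add_choose_mul_factorial_mul_factorial a' b
    rw [← Nat.choose_symm_add] at this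
    exact_mod_cast this
  have e2 : (a'.centralBinom : ℚ) ^ 3 * W a' b = (a'.centralBinom : ℚ) ^ 2 *
      ((a' + b).centralBinom * (a' + b).choose a') := by rw [← w']; ring
  have e3 : -(-1 : ℚ) ^ (a' + b) * (a'.centralBinom : ℚ) ^ 3 * (a'.choose b) * (W a' b) * 4 ^ b =
      -(-1 : ℚ) ^ (a' + b) * (a'.choose b) * 4 ^ b * ((a'.centralBinom : ℚ) ^ 2 *
      ((a' + b).centralBinom * (a' + b).choose a')) := by rw [← e2]; ring
  rw [e3, ← e1, Nat.factorial_succ]
  have h1 : ((a'.factorial : ℕ) : ℚ) ≠ 0 := by exact_mod_cast Nat.factorial_ne_zero a'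
  have h2 : ((b.factorial : ℕ) : ℚ) ≠ 0 := by exact_mod_cast Nat.factorial_ne_zero b
  have h3 : (b.centralBinom : ℚ) ≠ 0 := by exact_mod_cast Nat.centralBinom_ne_zero b
  have h4 : (a' : ℚ) + 1 ≠ 0 := by positivity
  have e4 : (64 : ℚ) ^ a' = (4 ^ a') ^ 3 := by rw [← pow_mul, mul_comm, pow_mul]; norm_num
  rw [e4, pow_add 4, pow_succ (-1 : ℚ) (a' + b + 1), pow_succ (-1 : ℚ) (a' + b)]
  push_cast
  generalize (-1 : ℚ) ^ (a' + b) = s
  field_simp

end Q278.Alt
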