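import Pool.Agent.Q278.Alt

set_option autoImplicit false

/-! The `p`-adic part. -/

namespace Q278.Alt

open Finset Q278.PI

variable {p : ℕ} [hp : Fact p.Prime]

theorem four_pow (hp2 : p ≠ 2) (n : ℕ) : 1 / (4 : ℚ) ^ n ∈ O p := by
  have := inv_mem p (m := 4 ^ n) (by
    intro h
    have h1 := hp.out.dvd_of_dvd_pow h
    have h2 : p ∣ 2 ^ 2 := h1
    have h3 := hp.out.dvd_of_dvd_pow h2
    have := (Nat.prime_dvd_prime_iff_eq hp.out Nat.prime_two).1 h3
    exact hp2 this)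
  push_cast at this
  exact this

/-- Cancelling a central binomial coefficient. -/
theorem cb_inv {r b : ℕ} (hr : 1 ≤ r) (hb : 2 * b < p ^ r) :
    ∃ t ≤ r - 1, ∃ u ∈ O p, (1 : ℚ) / (b.centralBinom : ℚ) = u / (p : ℚ) ^ t := by
  have h0 : b.centralBinom ≠ 0 := Nat.centralBinom_ne_zero b
  obtain ⟨t, m, hm, e⟩ := Nat.exists_eq_pow_mul_and_not_dvd h0 p hp.out.ne_one
  refine ⟨t, ?_, 1 / (m : ℚ), inv_mem p hm, ?_⟩
  · have h1 : t ≤ (b.centralBinom).factorization p := by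
      rw [← Nat.Prime.pow_dvd_iff_le_factorization hp.out h0]
      exact ⟨m, e⟩
    have h2 : (b.centralBinom).factorization p ≤ Nat.log p (2 * b) :=
      Nat.factorization_choose_le_log
    have h3 : Nat.log p (2 * b) < r := by
      rcases Nat.eq_zero_or_pos b with hb0 | hb0
      · subst hb0; simp; omega
      · exact Nat.log_lt_of_lt_pow (by omega) hb
    omega
  · rw [e]
    push_cast
    have h1 : (p : ℚ) ≠ 0 := by exact_mod_cast hp.out.ne_zero
    have h2 : (m : ℚ) ≠ 0 := by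
      intro h
      have : m = 0 := by exact_mod_cast h
      exact hm (this ▸ dvd_zero _)
    field_simp

theorem G_mem (hp2 : p ≠ 2) {r a' b : ℕ} (hr : 1 ≤ r) (ha : p ^ r ∣ a'.centralBinom)
    (hb : 2 * b < p ^ r) : G (a' + 1) b ∈ I p (r + 2) := by
  rw [G_eq]
  obtain ⟨x, hx⟩ := ha
  obtain ⟨t, ht, u, hu, e⟩ := cb_inv hr hb
  have h1 : (p : ℚ) ≠ 0 := by exact_mod_cast hp.out.ne_zero
  have e1 : -(-1 : ℚ) ^ (a' + b) * (a'.centralBinom : ℚ) ^ 3 * (a'.choose b) * (W a' b) * 4 ^ b /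
      (64 ^ a' * (b.centralBinom : ℚ) ^ 2) = (-(-1 : ℚ) ^ (a' + b) * (x : ℚ) ^ 3 * (a'.choose b) *
      (W a' b) * 4 ^ b * (1 / 4 ^ (3 * a')) * u ^ 2) * (p : ℚ) ^ (3 * r - 2 * t) := by
    have e2 : (a'.centralBinom : ℚ) = (p : ℚ) ^ r * x := by rw [hx]; push_cast; ring
    have e3 : (p : ℚ) ^ (3 * r - 2 * t) = (p : ℚ) ^ (3 * r) / (p : ℚ) ^ (2 * t) := by
      rw [eq_div_iff (pow_ne_zero _ h1), ← pow_add]; congr 1; omega
    have e4 : (64 : ℚ) ^ a' = 4 ^ (3 * a') := by rw [pow_mul]; norm_num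
    have e5 : (1 : ℚ) / (64 ^ a' * (b.centralBinom : ℚ) ^ 2) = (1 / 4 ^ (3 * a')) *
        (u / (p : ℚ) ^ t) ^ 2 := by rw [← e, e4]; field_simp
    rw [div_eq_mul_one_div, e5, e2, e3]
    rw [show (p : ℚ) ^ (2 * t) = ((p : ℚ) ^ t) ^ 2 by rw [← pow_mul, mul_comm],
      show (p : ℚ) ^ (3 * r) = ((p : ℚ) ^ r) ^ 3 by rw [← pow_mul, mul_comm]]
    have h2 : (p : ℚ) ^ t ≠ 0 := pow_ne_zero _ h1
    field_simp
  rw [e1]
  apply mono (show r + 2 ≤ 3 * r - 2 * t by omega)
  apply mul_O _ (p_pow _)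
  have m1 : (-1 : ℚ) ∈ O p := (O p).neg_mem (O p).one_mem
  exact (O p).mul_mem ((O p).mul_mem ((O p).mul_mem ((O p).mul_mem ((O p).mul_mem ((O p).mul_mem
    ((O p).neg_mem ((O p).pow_mem m1 _)) ((O p).pow_mem (nat_O _) 3)) (nat_O _)) (nat_O _))
    (by exact_mod_cast nat_O (p := p) (4 ^ b))) (four_pow hp2 _)) ((O p).pow_mem hu 2)

/-- The values on the second line. -/
theorem F_eq (h l : ℕ) : F (h + l + 1) (h + 1) = -(-1) ^ l * (1 / 2) * (4 * (h + l) + 3) *
    (catalan (h + l) : ℚ) ^ 2 * ((2 * h + 1 + l).centralBinom : ℚ) *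
    ((2 * h + 1 + l).choose (2 * h + 1) : ℚ) * (2 * h + 1) * 16 ^ h /
    (16 ^ (h + l) * 4 ^ (2 * h + 1 + l) * (h.centralBinom : ℚ)) := by
  unfold F X
  rw [a_cb (h + l), a_cb h, show h + l + 1 + (h + 1) = (2 * h + 1 + l) + 1 by ring,
    a_cb (2 * h + 1 + l)]
  have e0 : ((h + l : ℕ) + 1 : ℚ) * (catalan (h + l) : ℚ) = ((h + l).centralBinom : ℚ) := by
    exact_mod_cast succ_mul_catalan_eq_centralBinom (h + l)
  have e1 : (((h + l + 1).choose (h + 1) * (h + 1).factorial : ℕ) : ℚ) =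
      ((h + l + 1).factorial : ℚ) / (l.factorial : ℚ) := by
    have h2 : ((l.factorial : ℕ) : ℚ) ≠ 0 := by exact_mod_cast Nat.factorial_ne_zero l
    rw [eq_div_iff h2]
    have := Nat.choose_mul_factorial_mul_factorial (show h + 1 ≤ h + l + 1 by omega)
    rw [show h + l + 1 - (h + 1) = l by omega] at this
    exact_mod_cast this
  have e2 : ((2 * h + 1 + l).factorial : ℚ) = ((2 * h + 1 + l).choose (2 * h + 1) : ℚ) *
      ((2 * h + 1) * ((h.centralBinom : ℚ) * (h.factorial : ℚ) ^ 2)) * (l.factorial : ℚ) := by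
    have h3 := Nat.choose_mul_factorial_mul_factorial (show 2 * h + 1 ≤ 2 * h + 1 + l by omega)
    rw [show 2 * h + 1 + l - (2 * h + 1) = l by omega, Nat.factorial_succ (2 * h)] at h3
    have h4 := Nat.choose_mul_factorial_mul_factorial (show h ≤ 2 * h by omega)
    rw [show 2 * h - h = h by omega] at h4
    change h.centralBinom * h.factorial * h.factorial = _ at h4
    rw [← h4] at h3
    have h5 : ((2 * h + 1 + l).choose (2 * h + 1) : ℚ) * ((2 * h + 1) *
      ((h.centralBinom : ℚ) * (h.factorial : ℚ) * (h.factorial : ℚ))) * (l.factorial : ℚ) =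
      ((2 * h + 1 + l).factorial : ℚ) := by exact_mod_cast h3
    rw [← h5]; ring
  rw [e1, ← e0, e2, Nat.factorial_succ]
  have h1 : (((h + l).factorial : ℕ) : ℚ) ≠ 0 := by exact_mod_cast Nat.factorial_ne_zero (h + l)
  have h2 : ((l.factorial : ℕ) : ℚ) ≠ 0 := by exact_mod_cast Nat.factorial_ne_zero l
  have h3 : ((h.factorial : ℕ) : ℚ) ≠ 0 := by exact_mod_cast Nat.factorial_ne_zero h
  have h4 : (h.centralBinom : ℚ) ≠ 0 := by exact_mod_cast Nat.centralBinom_ne_zero h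
  have h5 : ((h + l : ℕ) : ℚ) + 1 ≠ 0 := by positivity
  have h6 : (-1 : ℚ) ^ ((2 * h + 1 + l) + 1) = (-1) ^ l := by
    rw [show 2 * h + 1 + l + 1 = 2 * (h + 1) + l by ring, pow_add, pow_mul]; norm_num
  have h7 : (16 : ℚ) ^ h = (4 ^ h) ^ 2 := by rw [← pow_mul, mul_comm, pow_mul]; norm_num
  have h8 : (16 : ℚ) ^ (h + l) = (4 ^ (h + l)) ^ 2 := by
    rw [← pow_mul, mul_comm, pow_mul]; norm_num
  rw [h6, h7, h8]
  push_cast at h5 ⊢
  generalize (catalan (h + l) : ℚ) = c0 at *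
  generalize ((2 * h + 1 + l).choose (2 * h + 1) : ℚ) = c1 at *
  generalize ((2 * h + 1 + l).centralBinom : ℚ) = c2 at *
  generalize (h.centralBinom : ℚ) = c3 at *
  generalize ((h + l).factorial : ℚ) = f1 at *
  generalize (l.factorial : ℚ) = f2 at *
  generalize (h.factorial : ℚ) = f3 at *
  field_simp
  ring

theorem dvd_choose_of_carry {r x y : ℕ} (hr : 1 ≤ r) (hx : x < p ^ r) (hy : y < p ^ r)
    (hxy : p ^ r ≤ x + y) : p ∣ (x + y).choose y := by
  have h := padicValNat_choose' (p := p) (n := x) (k := y) (b := Nat.log p (x + y) + 1)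
    (Nat.lt_succ_self _)
  have h1 : r ∈ {i ∈ Finset.Ico 1 (Nat.log p (x + y) + 1) | p ^ i ≤ y % p ^ i + x % p ^ i} := by
    rw [mem_filter, mem_Ico, Nat.mod_eq_of_lt hx, Nat.mod_eq_of_lt hy]
    refine ⟨⟨hr, ?_⟩, by omega⟩
    have := Nat.le_log_of_pow_le hp.out.one_lt hxy
    omega
  have h2 : 0 < padicValNat p ((x + y).choose y) := by
    rw [h]
    exact card_pos.2 ⟨r, h1⟩
  exact dvd_of_one_le_padicValNat h2

theorem catalan_dvd {r j : ℕ} (hr : 1 ≤ r) (hj : j + 1 < p ^ r) (hj2 : p ^ r ≤ 2 * j) :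
    p ∣ catalan j := by
  have hj0 : 0 < j := by have := pow_pos hp.out.pos r; omega
  have h1 := dvd_choose_of_carry (p := p) hr (show j < p ^ r by omega) (show j < p ^ r by omega)
    (show p ^ r ≤ j + j by omega)
  have h2 := dvd_choose_of_carry (p := p) hr (show j - 1 < p ^ r by omega)
    (show j + 1 < p ^ r by omega) (show p ^ r ≤ (j - 1) + (j + 1) by omega)
  rw [show (j - 1) + (j + 1) = j + j by omega] at h2
  have h3 : catalan j + (j + j).choose (j + 1) = (j + j).choose j := by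
    have e1 := Nat.choose_succ_right_eq (j + j) j
    rw [show j + j - j = j by omega] at e1
    have e2 := succ_mul_catalan_eq_centralBinom j
    have e3 : j.centralBinom = (j + j).choose j := by rw [Nat.centralBinom, two_mul]
    rw [e3] at e2
    have e4 : (j + 1) * (catalan j + (j + j).choose (j + 1)) = (j + 1) * (j + j).choose j := by
      rw [mul_add, e2, mul_comm (j + 1) ((j + j).choose (j + 1)), e1]
      ring
    exact Nat.eq_of_mul_eq_mul_left (Nat.succ_pos j) e4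
  have h4 : p ∣ catalan j + (j + j).choose (j + 1) := by rw [h3]; exact h1
  exact (Nat.dvd_add_left h2).1 h4


theorem mem_not {u : ℚ} (hu : u ∈ O p) : ¬ (1 : ℚ) = (p : ℚ) * u := by
  intro h
  have h1 : (p : ℚ) ≠ 0 := by exact_mod_cast hp.out.ne_zero
  have h2 : u = 1 / (p : ℚ) := by field_simp; linear_combination -h
  rw [h2, mem_O] at hu
  apply hu
  have h3 : (1 / (p : ℚ)).den = p := by
    rw [one_div, Rat.inv_natCast_den_of_pos hp.out.pos]
  rw [h3]

theorem prod_O {ι : Type*} {s : Finset ι} {f : ι → ℚ} (h : ∀ i ∈ s, f i ∈ O p) :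
    ∏ i ∈ s, f i ∈ O p := (O p).prod_mem h

/-- Congruences can be multiplied. -/
theorem prod_cong {ι : Type*} {s : Finset ι} {f g : ι → ℚ} {k : ℕ} (hf : ∀ i ∈ s, f i ∈ O p)
    (hg : ∀ i ∈ s, g i ∈ O p) (h : ∀ i ∈ s, f i - g i ∈ I p k) :
    ∏ i ∈ s, f i - ∏ i ∈ s, g i ∈ I p k := by
  classical
  induction s using Finset.induction_on with
  | empty => simp
  | insert i s hi ih =>
    rw [prod_insert hi, prod_insert hi]
    have h1 := ih (fun j hj => hf j (mem_insert_of_mem hj)) (fun j hj => hg j (mem_insert_of_mem hj))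
      (fun j hj => h j (mem_insert_of_mem hj))
    have h2 := mul_O (hf i (mem_insert_self i s)) h1
    have h3 := mul_O (prod_O (fun j hj => hg j (mem_insert_of_mem hj)))
      (h i (mem_insert_self i s))
    have h4 := (I p k).add_mem h2 h3
    convert h4 using 1
    ring

theorem P_div {r j : ℕ} (hj0 : 0 < j) (hj : j < p ^ r) : ((p ^ r : ℕ) : ℚ) / j ∈ I p 1 := by
  obtain ⟨t, m, hm, e⟩ := Nat.exists_eq_pow_mul_and_not_dvd hj0.ne' p hp.out.ne_one
  have hm0 : 0 < m := by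
    rcases Nat.eq_zero_or_pos m with h | h
    · subst h; simp at hm
    · exact h
  have ht : t < r := by
    by_contra h
    have h1 : p ^ r ≤ p ^ t := Nat.pow_le_pow_right hp.out.pos (by omega)
    have h2 : p ^ t ≤ j := by rw [e]; exact Nat.le_mul_of_pos_right _ hm0
    omega
  refine ⟨(p : ℚ) ^ (r - t - 1) * (1 / (m : ℚ)), (O p).mul_mem ((O p).pow_mem (nat_O _) _)
    (inv_mem p hm), ?_⟩
  have h1 : (p : ℚ) ≠ 0 := by exact_mod_cast hp.out.ne_zero
  have h2 : (m : ℚ) ≠ 0 := by exact_mod_cast hm0.ne'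
  rw [e]
  push_cast
  rw [show r = t + ((r - t - 1) + 1) by omega, pow_add, pow_succ (p : ℚ) (r - t - 1),
    show t + (r - t - 1 + 1) - t - 1 = r - t - 1 by omega]
  field_simp

/-- `C(2h, h) = (-1)^h ∏ (1 - P / i)` -/
theorem cb_B (h : ℕ) : (h.centralBinom : ℚ) = (-1) ^ h * ∏ i ∈ range h,
    (1 - ((2 * h + 1 : ℕ) : ℚ) / ((i + 1 : ℕ) : ℚ)) := by
  have h1 : (h.centralBinom : ℚ) * h.factorial = ∏ i ∈ range h, ((2 * h : ℚ) - i) := by
    have := Nat.descFactorial_eq_factorial_mul_choose (2 * h) h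
    rw [Nat.descFactorial_eq_prod_range] at this
    have e : ((∏ i ∈ range h, (2 * h - i) : ℕ) : ℚ) = ((h.factorial * (2 * h).choose h : ℕ) : ℚ) := by
      rw [this]
    push_cast at e
    rw [Nat.centralBinom, mul_comm, ← e]
    apply prod_congr rfl
    intro i hi
    have := mem_range.1 hi
    rw [Nat.cast_sub (by omega)]
    push_cast; ring
  have h2 : ∏ i ∈ range h, ((2 * h : ℚ) - i) = (-1) ^ h * (∏ i ∈ range h,
      (1 - ((2 * h + 1 : ℕ) : ℚ) / ((i + 1 : ℕ) : ℚ))) * h.factorial := by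
    have e : ((h.factorial : ℕ) : ℚ) = ∏ i ∈ range h, ((i + 1 : ℕ) : ℚ) := by
      rw [← Finset.prod_range_add_one_eq_factorial]; push_cast; rfl
    have e' : (-1 : ℚ) ^ h = ∏ _i ∈ range h, (-1 : ℚ) := by rw [prod_const, card_range]
    rw [e, e', ← prod_mul_distrib, ← prod_mul_distrib]
    apply prod_congr rfl
    intro i _
    have : ((i + 1 : ℕ) : ℚ) ≠ 0 := by exact_mod_cast Nat.succ_ne_zero i
    push_cast at this ⊢
    field_simp
    ring
  have h3 : ((h.factorial : ℕ) : ℚ) ≠ 0 := by exact_mod_cast Nat.factorial_ne_zero h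
  apply mul_right_cancel₀ h3
  rw [h1, h2]

/-- `C(2h, h) = (-4)^h ∏ (1 - P / (2 i))` -/
theorem cb_A (h : ℕ) : (h.centralBinom : ℚ) = (-4) ^ h * ∏ i ∈ range h,
    (1 - ((2 * h + 1 : ℕ) : ℚ) / (2 * ((i + 1 : ℕ) : ℚ))) := by
  have h1 : (h.centralBinom : ℚ) = ∏ i ∈ range h, (2 * (2 * (i : ℚ) + 1) / ((i + 1 : ℕ) : ℚ)) := by
    induction h with
    | zero => simp
    | succ h ih =>
      rw [prod_range_succ, ← ih]
      have h1 : ((h : ℚ) + 1) * ((h + 1).centralBinom : ℚ) =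
          2 * (2 * h + 1) * (h.centralBinom : ℚ) := by
        exact_mod_cast Nat.succ_mul_centralBinom_succ h
      have h2 : (h : ℚ) + 1 ≠ 0 := by positivity
      push_cast
      field_simp
      linear_combination h1
  have h2 : ∏ i ∈ range h, (2 * (i : ℚ) + 1) = ∏ i ∈ range h,
      (((2 * h + 1 : ℕ) : ℚ) - 2 * ((i + 1 : ℕ) : ℚ)) := by
    rw [← prod_range_reflect]
    apply prod_congr rfl
    intro i hi
    have := mem_range.1 hi
    rw [show h - 1 - i = h - (i + 1) by omega, Nat.cast_sub (by omega)]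
    push_cast
    ring
  have e' : (-4 : ℚ) ^ h = (∏ _i ∈ range h, (-2 : ℚ)) * (∏ _i ∈ range h, (2 : ℚ)) := by
    rw [prod_const, prod_const, card_range, ← mul_pow]; norm_num
  have h3 : ∏ i ∈ range h, (2 * (2 * (i : ℚ) + 1) / ((i + 1 : ℕ) : ℚ)) =
      (∏ _i ∈ range h, (2 : ℚ)) * (∏ i ∈ range h, (2 * (i : ℚ) + 1)) /
      ∏ i ∈ range h, ((i + 1 : ℕ) : ℚ) := by
    rw [← prod_mul_distrib, ← prod_div_distrib]
  rw [h1, h3, h2, e', mul_comm (∏ _i ∈ range h, (-2 : ℚ)), mul_assoc, mul_div_assoc]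
  congr 1
  rw [← prod_mul_distrib, ← prod_div_distrib]
  apply prod_congr rfl
  intro i _
  have : ((i + 1 : ℕ) : ℚ) ≠ 0 := by exact_mod_cast Nat.succ_ne_zero i
  push_cast at this ⊢
  field_simp
  ring

theorem half_mem (hp2 : p ≠ 2) : (1 : ℚ) / 2 ∈ O p := by
  have := inv_mem p (m := 2) (by
    intro h
    exact hp2 ((Nat.prime_dvd_prime_iff_eq hp.out Nat.prime_two).1 h))
  exact_mod_cast this

/-- `p` does not divide `C(2h, h)` and its inverse is `p`-integral. -/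
theorem cb_unit {r h : ℕ} (hP : p ^ r = 2 * h + 1) :
    (h.centralBinom : ℚ) - (-1) ^ h ∈ I p 1 ∧ 1 / (h.centralBinom : ℚ) ∈ O p := by
  have h1 : (h.centralBinom : ℚ) - (-1) ^ h ∈ I p 1 := by
    rw [cb_B, ← hP]
    have m1 : (-1 : ℚ) ∈ O p := (O p).neg_mem (O p).one_mem
    have h2 : ∏ i ∈ range h, (1 - ((p ^ r : ℕ) : ℚ) / ((i + 1 : ℕ) : ℚ)) - ∏ i ∈ range h, (1 : ℚ) ∈
        I p 1 := by
      apply prod_cong
      · intro i hi
        have := mem_range.1 hi
        exact (O p).sub_mem (O p).one_mem (toO (P_div (Nat.succ_pos i) (by omega)))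
      · intro i _
        exact (O p).one_mem
      · intro i hi
        have := mem_range.1 hi
        have h3 := (I p 1).neg_mem (P_div (p := p) (r := r) (Nat.succ_pos i) (by omega))
        convert h3 using 1
        ring
    rw [prod_const_one] at h2
    have := mul_O ((O p).pow_mem m1 h) h2
    convert this using 1
    ring
  refine ⟨h1, inv_mem p ?_⟩
  rintro ⟨x, hx⟩
  obtain ⟨y, hy, e⟩ := h1
  have m1 : (-1 : ℚ) ∈ O p := (O p).neg_mem (O p).one_mem
  apply mem_not (p := p) (u := (-1) ^ h * (x - y)) ((O p).mul_mem ((O p).pow_mem m1 h)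
    ((O p).sub_mem (nat_O _) hy))
  rw [hx] at e
  push_cast at e
  have h5 : (-1 : ℚ) ^ h * (-1) ^ h = 1 := by rw [← mul_pow]; norm_num
  linear_combination -(-1) ^ h * e - h5

/-- Morley's congruence modulo `p ^ 2` for prime powers. -/
theorem morley (hp2 : p ≠ 2) {r h : ℕ} (hP : p ^ r = 2 * h + 1) :
    (h.centralBinom : ℚ) * (1 / 16 ^ h) - (-1) ^ h ∈ I p 2 := by
  have m1 : (-1 : ℚ) ∈ O p := (O p).neg_mem (O p).one_mem
  set A : ℚ := ∏ i ∈ range h, (1 - ((2 * h + 1 : ℕ) : ℚ) / (2 * ((i + 1 : ℕ) : ℚ))) with hA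
  set B : ℚ := ∏ i ∈ range h, (1 - ((2 * h + 1 : ℕ) : ℚ) / ((i + 1 : ℕ) : ℚ)) with hB
  have hAB : A ^ 2 - B ∈ I p 2 := by
    rw [hA, hB, ← prod_pow]
    have hm : ∀ i ∈ range h, ((2 * h + 1 : ℕ) : ℚ) / ((i + 1 : ℕ) : ℚ) ∈ I p 1 := by
      intro i hi
      have := mem_range.1 hi
      rw [← hP]
      exact P_div (Nat.succ_pos i) (by omega)
    have hm2 : ∀ i ∈ range h, ((2 * h + 1 : ℕ) : ℚ) / (2 * ((i + 1 : ℕ) : ℚ)) ∈ I p 1 := by
      intro i hi
      have := mul_O (half_mem hp2) (hm i hi)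
      convert this using 1
      field_simp
    apply prod_cong
    · intro i hi
      exact (O p).pow_mem ((O p).sub_mem (O p).one_mem (toO (hm2 i hi))) 2
    · intro i hi
      exact (O p).sub_mem (O p).one_mem (toO (hm i hi))
    · intro i hi
      have h3 := pow_I (hm2 i hi) 2
      rw [one_mul] at h3
      convert h3 using 1
      have : ((i + 1 : ℕ) : ℚ) ≠ 0 := by exact_mod_cast Nat.succ_ne_zero i
      field_simp
      ring
  have eA := cb_A h
  have eB := cb_B h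
  rw [← hA] at eA
  rw [← hB] at eB
  obtain ⟨_, hu⟩ := cb_unit hP
  have h0 : (h.centralBinom : ℚ) ≠ 0 := by exact_mod_cast Nat.centralBinom_ne_zero h
  have h2 := mul_O hu (mul_O ((O p).one_mem) hAB)
  have h16 : (16 : ℚ) ^ h = ((-4) ^ h) ^ 2 := by rw [← pow_mul, mul_comm, pow_mul]; norm_num
  have h5 : (-1 : ℚ) ^ h * (-1) ^ h = 1 := by rw [← mul_pow]; norm_num
  have hB' : B = (-1) ^ h * (h.centralBinom : ℚ) := by
    rw [eB, ← mul_assoc, h5, one_mul]
  have hA' : A = (h.centralBinom : ℚ) / (-4) ^ h := by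
    rw [eq_div_iff (by positivity), eA]; ring
  convert h2 using 1
  rw [hB', hA', h16]
  field_simp

/-- Wolstenholme-type congruence modulo `p ^ 2` for prime powers. -/
theorem wol (hp2 : p ≠ 2) {r h : ℕ} (hP : p ^ r = 2 * h + 1) :
    (((2 * h + 1).centralBinom : ℕ) : ℚ) / 2 - 1 ∈ I p 2 := by
  set C : ℚ := ∏ i ∈ range (2 * h), (1 + ((2 * h + 1 : ℕ) : ℚ) / ((i + 1 : ℕ) : ℚ)) with hC
  have e1 : (((2 * h + 1).centralBinom : ℕ) : ℚ) / 2 = C := by
    have h1 : (((2 * h + 1).centralBinom : ℕ) : ℚ) = 2 * ((4 * h + 1).choose (2 * h) : ℚ) := by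
      have : (2 * h + 1).centralBinom = 2 * (4 * h + 1).choose (2 * h) := by
        rw [Nat.centralBinom, show 2 * (2 * h + 1) = (4 * h + 1) + 1 by ring,
          Nat.choose_succ_succ' (4 * h + 1) (2 * h)]
        have : (4 * h + 1).choose (2 * h + 1) = (4 * h + 1).choose (2 * h) := by
          rw [← Nat.choose_symm_of_eq_add (show 4 * h + 1 = (2 * h + 1) + 2 * h by ring)]
        rw [this]; ring
      exact_mod_cast this
    have h2 : ((4 * h + 1).choose (2 * h) : ℚ) * ((2 * h).factorial : ℚ) =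
        ∏ i ∈ range (2 * h), (((2 * h + 1 : ℕ) : ℚ) + ((i + 1 : ℕ) : ℚ)) := by
      have := Nat.descFactorial_eq_factorial_mul_choose (4 * h + 1) (2 * h)
      rw [Nat.descFactorial_eq_prod_range] at this
      have e : ((∏ i ∈ range (2 * h), (4 * h + 1 - i) : ℕ) : ℚ) =
          (((2 * h).factorial * (4 * h + 1).choose (2 * h) : ℕ) : ℚ) := by
        rw [this]
      push_cast at e
      rw [mul_comm, ← e, ← prod_range_reflect]
      apply prod_congr rfl
      intro i hi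
      have := mem_range.1 hi
      rw [Nat.cast_sub (by omega), Nat.cast_sub (by omega), Nat.cast_sub (by omega)]
      push_cast; ring
    have h3 : (((2 * h).factorial : ℕ) : ℚ) = ∏ i ∈ range (2 * h), ((i + 1 : ℕ) : ℚ) := by
      rw [← Finset.prod_range_add_one_eq_factorial]; push_cast; rfl
    have h4 : (((2 * h).factorial : ℕ) : ℚ) ≠ 0 := by
      exact_mod_cast Nat.factorial_ne_zero (2 * h)
    rw [h1, mul_div_cancel_left₀ _ (by norm_num : (2 : ℚ) ≠ 0)]
    apply mul_right_cancel₀ h4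
    rw [h2, h3, hC, ← prod_mul_distrib]
    apply prod_congr rfl
    intro i _
    have : ((i + 1 : ℕ) : ℚ) ≠ 0 := by exact_mod_cast Nat.succ_ne_zero i
    push_cast at this ⊢
    field_simp
    ring
  rw [e1]
  have hm : ∀ i ∈ range (2 * h), ((2 * h + 1 : ℕ) : ℚ) / ((i + 1 : ℕ) : ℚ) ∈ I p 1 := by
    intro i hi
    have := mem_range.1 hi
    rw [← hP]
    exact P_div (Nat.succ_pos i) (by omega)
  have hone : C - 1 ∈ I p 1 := by
    have h2 : ∏ i ∈ range (2 * h), (1 + ((2 * h + 1 : ℕ) : ℚ) / ((i + 1 : ℕ) : ℚ)) -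
        ∏ i ∈ range (2 * h), (1 : ℚ) ∈ I p 1 := by
      apply prod_cong
      · intro i hi
        exact (O p).add_mem (O p).one_mem (toO (hm i hi))
      · intro i _
        exact (O p).one_mem
      · intro i hi
        have := hm i hi
        convert this using 1
        ring
    rwa [prod_const_one] at h2
  have hCO : C ∈ O p := by
    rw [hC]
    exact prod_O (fun i hi => (O p).add_mem (O p).one_mem (toO (hm i hi)))
  have hsq : C ^ 2 - 1 ∈ I p 2 := by
    have e2 : C ^ 2 = ∏ i ∈ range (2 * h), ((1 + ((2 * h + 1 : ℕ) : ℚ) / ((i + 1 : ℕ) : ℚ)) *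
        (1 + ((2 * h + 1 : ℕ) : ℚ) / ((2 * h - 1 - i + 1 : ℕ) : ℚ))) := by
      rw [prod_mul_distrib, prod_range_reflect (fun i => (1 + ((2 * h + 1 : ℕ) : ℚ) /
        ((i + 1 : ℕ) : ℚ))) (2 * h), ← hC]
      ring
    rw [e2]
    have h2 : ∏ i ∈ range (2 * h), ((1 + ((2 * h + 1 : ℕ) : ℚ) / ((i + 1 : ℕ) : ℚ)) *
        (1 + ((2 * h + 1 : ℕ) : ℚ) / ((2 * h - 1 - i + 1 : ℕ) : ℚ))) -
        ∏ i ∈ range (2 * h), (1 : ℚ) ∈ I p 2 := by
      have hm' : ∀ i ∈ range (2 * h), ((2 * h + 1 : ℕ) : ℚ) / ((2 * h - 1 - i + 1 : ℕ) : ℚ) ∈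
          I p 1 := by
        intro i hi
        have := mem_range.1 hi
        exact hm (2 * h - 1 - i) (mem_range.2 (by omega))
      apply prod_cong
      · intro i hi
        exact (O p).mul_mem ((O p).add_mem (O p).one_mem (toO (hm i hi)))
          ((O p).add_mem (O p).one_mem (toO (hm' i hi)))
      · intro i _
        exact (O p).one_mem
      · intro i hi
        have hi' := mem_range.1 hi
        have h3 := mul_I (hm i hi) (hm' i hi)
        have h4 := (I p 2).add_mem h3 h3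
        convert h4 using 1
        have a1 : ((i + 1 : ℕ) : ℚ) ≠ 0 := by exact_mod_cast Nat.succ_ne_zero i
        have a2 : ((2 * h - 1 - i + 1 : ℕ) : ℚ) ≠ 0 := by
          exact_mod_cast Nat.succ_ne_zero (2 * h - 1 - i)
        have a3 : ((i + 1 : ℕ) : ℚ) + ((2 * h - 1 - i + 1 : ℕ) : ℚ) = ((2 * h + 1 : ℕ) : ℚ) := by
          exact_mod_cast (show (i + 1) + (2 * h - 1 - i + 1) = 2 * h + 1 by omega)
        generalize ((i + 1 : ℕ) : ℚ) = x at *
        generalize ((2 * h - 1 - i + 1 : ℕ) : ℚ) = y at *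
        rw [← a3]
        field_simp
        ring
    rwa [prod_const_one] at h2
  -- divide by `C + 1`
  have hd : C - 1 = (1 / 2) * (C ^ 2 - 1) - (1 / 2) * (C - 1) ^ 2 := by ring
  rw [hd]
  have h7 := pow_I hone 2
  rw [one_mul] at h7
  exact (I p 2).sub_mem (mul_O (half_mem hp2) hsq) (mul_O (half_mem hp2) h7)

end Q278.Alt
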