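import Pool.Agent.Q278.Alt2

set_option autoImplicit false

/-! The congruence for the first power of the weight. -/

namespace Q278.Alt

open Finset Q278.PI

variable {p : ℕ} [hp : Fact p.Prime]

theorem cb_dvd_one {r h : ℕ} (hP : p ^ r = 2 * h + 1) : p ^ r ∣ (h + 1).centralBinom := by
  have h1 := Nat.succ_mul_centralBinom_succ h
  have h2 : p ^ r ∣ (h + 1) * (h + 1).centralBinom := by
    rw [h1, hP]
    exact ⟨2 * h.centralBinom, by ring⟩
  have h3 : Nat.Coprime (p ^ r) (h + 1) := by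
    rw [hP]
    have h4 : Nat.Coprime (2 * h + 1) (2 * (h + 1)) := by
      rw [show 2 * (h + 1) = (2 * h + 1) + 1 by ring]
      exact (Nat.coprime_self_add_right.2 (Nat.coprime_one_right _))
    exact Nat.Coprime.coprime_mul_left_right h4
  exact h3.dvd_of_dvd_mul_left h2

theorem cb_dvd_two {r h : ℕ} (hP : p ^ r = 2 * h + 1) : p ^ r ∣ (2 * h).centralBinom := by
  rw [hP]
  exact Nat.succ_dvd_centralBinom (2 * h)

theorem F_mem (hp2 : p ≠ 2) {r h l : ℕ} (hr : 1 ≤ r) (hP : p ^ r = 2 * h + 1) (hl : 1 ≤ l)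
    (hl2 : h + l < 2 * h) : F (h + l + 1) (h + 1) ∈ I p (r + 2) := by
  rw [F_eq]
  obtain ⟨_, hu⟩ := cb_unit hP
  obtain ⟨x, hx⟩ := catalan_dvd (p := p) (r := r) (j := h + l) hr (by omega) (by omega)
  have e : -(-1 : ℚ) ^ l * (1 / 2) * (4 * (h + l) + 3) *
    (catalan (h + l) : ℚ) ^ 2 * ((2 * h + 1 + l).centralBinom : ℚ) *
    ((2 * h + 1 + l).choose (2 * h + 1) : ℚ) * (2 * h + 1) * 16 ^ h /
    (16 ^ (h + l) * 4 ^ (2 * h + 1 + l) * (h.centralBinom : ℚ)) =
    (-(-1 : ℚ) ^ l * (1 / 2) * ((4 * (h + l) + 3 : ℕ) : ℚ) *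
    (x : ℚ) ^ 2 * ((2 * h + 1 + l).centralBinom : ℚ) *
    ((2 * h + 1 + l).choose (2 * h + 1) : ℚ) * (1 / 4 ^ (2 * l + (2 * h + 1 + l))) *
      (1 / (h.centralBinom : ℚ))) * (p : ℚ) ^ (r + 2) := by
    have e1 : (2 * h + 1 : ℚ) = (p : ℚ) ^ r := by exact_mod_cast hP.symm
    have e2 : (16 : ℚ) ^ (h + l) = 16 ^ h * 4 ^ (2 * l) := by rw [pow_add, pow_mul 4]; norm_num
    have h3 : (16 : ℚ) ^ h ≠ 0 := by positivity
    have h4 : (h.centralBinom : ℚ) ≠ 0 := by exact_mod_cast Nat.centralBinom_ne_zero h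
    have e3 : (4 : ℚ) ^ (2 * l + (2 * h + 1 + l)) = 4 ^ (2 * l) * 4 ^ (2 * h + 1 + l) :=
      pow_add _ _ _
    rw [hx, e1, e2, pow_add (p : ℚ) r 2, e3]
    push_cast
    field_simp
  rw [e]
  apply mul_O _ (p_pow _)
  have m1 : (-1 : ℚ) ∈ O p := (O p).neg_mem (O p).one_mem
  exact (O p).mul_mem ((O p).mul_mem ((O p).mul_mem ((O p).mul_mem ((O p).mul_mem ((O p).mul_mem
    ((O p).mul_mem ((O p).neg_mem ((O p).pow_mem m1 _)) (half_mem hp2)) (nat_O _))
    ((O p).pow_mem (nat_O _) 2)) (nat_O _)) (nat_O _)) (four_pow hp2 _)) hu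

theorem F_main (hp2 : p ≠ 2) {r h : ℕ} (hP : p ^ r = 2 * h + 1) (hr : 1 ≤ r) :
    F (h + 1) (h + 1) + (p : ℚ) ^ r * (-1) ^ h ∈ I p (r + 2) := by
  have e0 := F_eq h 0
  simp only [add_zero, Nat.choose_self] at e0
  rw [e0]
  set M : ℚ := (h.centralBinom : ℚ) * (1 / 16 ^ h) with hM
  set V : ℚ := (((2 * h + 1).centralBinom : ℕ) : ℚ) / 2 with hV
  have k1 : M - (-1) ^ h ∈ I p 2 := morley hp2 hP
  have k2 : V - 1 ∈ I p 2 := wol hp2 hP
  have m1 : (-1 : ℚ) ∈ O p := (O p).neg_mem (O p).one_mem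
  have mM : M ∈ O p := by
    have := (O p).add_mem (toO k1) ((O p).pow_mem m1 h)
    convert this using 1; ring
  have e1 : (2 * h + 1 : ℚ) = (p : ℚ) ^ r := by exact_mod_cast hP.symm
  have k3 : (2 * (p : ℚ) ^ r + 1) * (M * V) - ((p : ℚ) ^ r + 1) ^ 2 * (-1) ^ h ∈ I p 2 := by
    have a1 := mul_O mM k2
    have a2 := (I p 2).add_mem a1 k1
    have a3 : (2 * (p : ℚ) ^ r + 1) ∈ O p := by
      exact_mod_cast nat_O (p := p) (2 * p ^ r + 1)
    have a4 := mul_O a3 a2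
    have a5 : (-1 : ℚ) ^ h * ((p : ℚ) ^ r) ^ 2 ∈ I p 2 := by
      apply mul_O ((O p).pow_mem m1 h)
      have := p_pow (p := p) (r * 2)
      rw [← pow_mul]
      exact mono (by omega) this
    have a6 := (I p 2).sub_mem a4 a5
    convert a6 using 1
    ring
  have k4 : ¬ p ∣ (2 * h + 2) ^ 2 := by
    intro h1
    have h2 := hp.out.dvd_of_dvd_pow h1
    have h3 : p ∣ 2 * h + 1 := by rw [← hP]; exact dvd_pow_self p (by omega)
    have h4 := (Nat.dvd_add_right h3).1 (show p ∣ 2 * h + 1 + 1 from h2)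
    exact hp.out.one_lt.ne' (Nat.dvd_one.1 h4)
  have k5 := mul_O (inv_mem p k4) k3
  have k6 := mul_I (p_pow (p := p) r) k5
  have k7 := (I p (r + 2)).neg_mem k6
  convert k7 using 1
  have e2 : ((h : ℕ) + 1 : ℚ) * (catalan h : ℚ) = (h.centralBinom : ℚ) := by
    exact_mod_cast succ_mul_catalan_eq_centralBinom h
  have h4 : (h.centralBinom : ℚ) ≠ 0 := by exact_mod_cast Nat.centralBinom_ne_zero h
  have h5 : ((h : ℕ) : ℚ) + 1 ≠ 0 := by positivity
  have e3 : (catalan h : ℚ) = (h.centralBinom : ℚ) / ((h : ℚ) + 1) := by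
    rw [eq_div_iff h5]; linear_combination e2
  have e4 : (4 : ℚ) ^ (2 * h + 1) = 4 * 16 ^ h := by rw [pow_succ, pow_mul]; norm_num; ring
  rw [e3, e4, ← e1, hM, hV]
  have h6 : (16 : ℚ) ^ h ≠ 0 := by positivity
  generalize (16 : ℚ) ^ h = u at *
  push_cast
  generalize (h.centralBinom : ℚ) = c0 at *
  generalize (((2 * h + 1).centralBinom : ℕ) : ℚ) = c1 at *
  have h7 : (2 * (h : ℚ) + 2) ≠ 0 := by positivity
  field_simp
  ring

/-- The sum of `F` on the line `k = h + 1`. -/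
theorem line (hp2 : p ≠ 2) {r h : ℕ} (hP : p ^ r = 2 * h + 1) (hr : 1 ≤ r) :
    ∀ L : ℕ, h + 1 + L ≤ 2 * h → ∑ n ∈ range (h + 1 + L + 1), F n (h + 1) +
      (p : ℚ) ^ r * (-1) ^ h ∈ I p (r + 2) := by
  intro L
  induction L with
  | zero =>
    intro _
    rw [sum_range_succ, sum_eq_zero]
    · simpa using F_main hp2 hP hr
    · intro n hn
      have := mem_range.1 hn
      unfold F X
      rw [Nat.choose_eq_zero_of_lt (by omega)]
      simp
  | succ L ih =>
    intro hL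
    rw [sum_range_succ]
    have h1 := ih (by omega)
    have h2 := F_mem hp2 hr hP (l := L + 1) (by omega) (by omega)
    rw [show h + (L + 1) + 1 = h + 1 + (L + 1) by ring] at h2
    have := (I p (r + 2)).add_mem h1 h2
    convert this using 1
    ring

theorem base (hp2 : p ≠ 2) {r h a' : ℕ} (hP : p ^ r = 2 * h + 1) (hr : 1 ≤ r)
    (ha : a' = h + 1 ∨ a' = 2 * h) : ∑ n ∈ range (a' + 1), F n 0 + (p : ℚ) ^ r * (-1) ^ h ∈
      I p (r + 2) := by
  have hh : 1 ≤ h := by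
    have h1 : p ≤ p ^ r := Nat.le_self_pow (by omega) p
    have := hp.out.two_le
    rcases Nat.lt_or_ge p 3 with h2 | h2
    · exact absurd (by omega) hp2
    · omega
  -- if `h = 1` and `a' = 2 h` then `a' = h + 1`
  rw [sum_F (a' + 1) (h + 1)]
  have h1 : ∑ k ∈ range (h + 1), G (a' + 1) k ∈ I p (r + 2) := by
    apply AddSubgroup.sum_mem
    intro k hk
    have := mem_range.1 hk
    apply G_mem hp2 hr _ (by omega)
    rcases ha with ha | ha
    · rw [ha]; exact cb_dvd_one hP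
    · rw [ha]; exact cb_dvd_two hP
  rcases Nat.lt_or_ge h 2 with h2 | h2
  · -- `p ^ r = 3`
    have hh1 : h = 1 := by omega
    have ha' : a' = 2 := by omega
    have h3 := F_main hp2 hP hr
    subst hh1 ha'
    have h4 : ∑ n ∈ range (2 + 1), F n (1 + 1) = F 2 2 := by
      rw [sum_range_succ, sum_eq_zero, zero_add]
      intro n hn
      have := mem_range.1 hn
      unfold F X
      rw [Nat.choose_eq_zero_of_lt (by omega)]
      simp
    rw [h4]
    have := (I p (r + 2)).add_mem h1 h3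
    convert this using 1
    ring
  · have h3 := line hp2 hP hr (a' - (h + 1)) (by omega)
    rw [show h + 1 + (a' - (h + 1)) = a' by omega] at h3
    have := (I p (r + 2)).add_mem h1 h3
    convert this using 1
    ring

end Q278.Alt
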