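import Mathlib
set_option autoImplicit false
namespace Q278.Anti
open Finset

section anti

variable {K : Type*} [Field K]

/-- partial products -/
def P (a Q : K) (j : ℕ) : K := ∏ i ∈ range j, (1 - a * Q ^ i) / (1 - Q ^ (i + 1))

theorem g_mul {a Q : K} {N i : ℕ} (ha : a * Q ^ N = 1) (hi : i < N)
    (hne : ∀ i, i < N → 1 - Q ^ (i + 1) ≠ 0) :
    ((1 - a * Q ^ i) / (1 - Q ^ (i + 1))) *
      ((1 - a * Q ^ (N - 1 - i)) / (1 - Q ^ (N - 1 - i + 1))) * Q ^ (N + 1) = 1 := by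
  have h1 := hne i hi
  have h2 := hne (N - 1 - i) (by omega)
  have e1 : (1 - a * Q ^ i) * Q ^ (N - 1 - i + 1) = -(1 - Q ^ (N - 1 - i + 1)) := by
    have : Q ^ i * Q ^ (N - 1 - i + 1) = Q ^ N := by rw [← pow_add]; congr 1; omega
    linear_combination (-a) * this - ha
  have e2 : (1 - a * Q ^ (N - 1 - i)) * Q ^ (i + 1) = -(1 - Q ^ (i + 1)) := by
    have : Q ^ (N - 1 - i) * Q ^ (i + 1) = Q ^ N := by rw [← pow_add]; congr 1; omega
    linear_combination (-a) * this - ha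
  have e3 : Q ^ (N + 1) = Q ^ (N - 1 - i + 1) * Q ^ (i + 1) := by
    rw [← pow_add]; congr 1; omega
  rw [e3]
  have e4 : ((1 - a * Q ^ i) / (1 - Q ^ (i + 1))) *
      ((1 - a * Q ^ (N - 1 - i)) / (1 - Q ^ (N - 1 - i + 1))) *
      (Q ^ (N - 1 - i + 1) * Q ^ (i + 1)) =
      ((1 - a * Q ^ i) * Q ^ (N - 1 - i + 1)) * ((1 - a * Q ^ (N - 1 - i)) * Q ^ (i + 1)) /
        ((1 - Q ^ (i + 1)) * (1 - Q ^ (N - 1 - i + 1))) := by
    field_simp
  rw [e4, e1, e2]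
  field_simp

theorem P_refl {a Q : K} {N j : ℕ} (ha : a * Q ^ N = 1) (hj : j ≤ N)
    (hne : ∀ i, i < N → 1 - Q ^ (i + 1) ≠ 0) :
    P a Q (N - j) = P a Q N * P a Q j * Q ^ ((N + 1) * j) := by
  induction j with
  | zero => simp [P]
  | succ j ih =>
    have ih := ih (by omega)
    have h1 := g_mul ha (show j < N by omega) hne
    have e1 : P a Q (N - j) = P a Q (N - (j + 1)) *
        ((1 - a * Q ^ (N - 1 - j)) / (1 - Q ^ (N - 1 - j + 1))) := by
      unfold P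
      rw [show N - j = (N - (j + 1)) + 1 by omega, prod_range_succ,
        show N - (j + 1) = N - 1 - j by omega]
    have e2 : P a Q (j + 1) = P a Q j * ((1 - a * Q ^ j) / (1 - Q ^ (j + 1))) := by
      unfold P
      rw [prod_range_succ]
    rw [e1] at ih
    have e3 : Q ^ ((N + 1) * (j + 1)) = Q ^ ((N + 1) * j) * Q ^ (N + 1) := by
      rw [← pow_add]; congr 1
    rw [e2, e3]
    generalize ((1 - a * Q ^ j) / (1 - Q ^ (j + 1))) = x at *
    generalize ((1 - a * Q ^ (N - 1 - j)) / (1 - Q ^ (N - 1 - j + 1))) = y at *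
    linear_combination (x * Q ^ (N + 1)) * ih - P a Q (N - (j + 1)) * h1

theorem anti [CharZero K] {a Q : K} {N : ℕ} (ha : a * Q ^ N = 1)
    (hne : ∀ i, i < N → 1 - Q ^ (i + 1) ≠ 0) (hQ : Q ^ ((N + 1) ^ 2) = 1) :
    ∑ j ∈ range (N + 1), (1 - a * Q ^ (2 * j)) * P a Q j ^ (2 * (N + 2)) * (Q ^ N) ^ j = 0 := by
  have hQ0 : Q ≠ 0 := by
    rintro rfl
    rw [zero_pow (by positivity)] at hQ
    exact zero_ne_one hQ
  have hN2 : P a Q N ^ 2 * Q ^ ((N + 1) * N) = 1 := by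
    have h := P_refl ha le_rfl hne
    rw [Nat.sub_self] at h
    have : P a Q 0 = 1 := by simp [P]
    rw [this] at h
    linear_combination -h
  have hNn : (P a Q N ^ 2) ^ (N + 2) * Q ^ ((N + 1) * N) = 1 := by
    have h1 : (P a Q N ^ 2 * Q ^ ((N + 1) * N)) ^ (N + 2) = 1 := by rw [hN2, one_pow]
    rw [mul_pow, ← pow_mul Q] at h1
    have h2 : Q ^ ((N + 1) * N * (N + 2)) = Q ^ ((N + 1) * N) := by
      have : (N + 1) * N * (N + 2) = (N + 1) ^ 2 * N + (N + 1) * N := by ring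
      rw [this, pow_add, pow_mul, hQ, one_pow, one_mul]
    rwa [h2] at h1
  have key : ∀ j, j ≤ N → (1 - a * Q ^ (2 * (N - j))) * P a Q (N - j) ^ (2 * (N + 2)) *
      (Q ^ N) ^ (N - j) = -((1 - a * Q ^ (2 * j)) * P a Q j ^ (2 * (N + 2)) * (Q ^ N) ^ j) := by
    intro j hj
    have h1 : P a Q (N - j) ^ (2 * (N + 2)) * Q ^ ((N + 1) * N) =
        P a Q j ^ (2 * (N + 2)) * Q ^ (2 * (N + 1) * j) := by
      rw [P_refl ha hj hne, mul_pow, mul_pow, pow_mul (P a Q N)]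
      have h2 : (Q ^ ((N + 1) * j)) ^ (2 * (N + 2)) = Q ^ (2 * (N + 1) * j) := by
        rw [← pow_mul]
        have : (N + 1) * j * (2 * (N + 2)) = (N + 1) ^ 2 * (2 * j) + 2 * (N + 1) * j := by ring
        rw [this, pow_add, pow_mul, hQ, one_pow, one_mul]
      rw [h2]
      linear_combination (P a Q j ^ (2 * (N + 2)) * Q ^ (2 * (N + 1) * j)) * hNn
    have h3 : (1 - a * Q ^ (2 * (N - j))) = -(a * Q ^ (2 * (N - j))) * (1 - a * Q ^ (2 * j)) := by
      have h4 : Q ^ (2 * (N - j)) * Q ^ (2 * j) = Q ^ N * Q ^ N := by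
        rw [← pow_add, ← pow_add]; congr 1; omega
      linear_combination (-(a ^ 2)) * h4 - (a * Q ^ N + 1) * ha
    have h5 : a * Q ^ (2 * (N - j)) * Q ^ (2 * (N + 1) * j) * (Q ^ N) ^ (N - j) =
        (Q ^ N) ^ j * Q ^ ((N + 1) * N) := by
      apply mul_left_cancel₀ (pow_ne_zero N hQ0)
      have h6 : Q ^ N * (a * Q ^ (2 * (N - j)) * Q ^ (2 * (N + 1) * j) * (Q ^ N) ^ (N - j)) =
          (a * Q ^ N) * (Q ^ (2 * (N - j)) * Q ^ (2 * (N + 1) * j) * (Q ^ N) ^ (N - j)) := by ring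
      rw [h6, ha, one_mul, ← pow_mul, ← pow_mul, ← pow_add, ← pow_add, ← pow_add, ← pow_add]
      congr 1
      obtain ⟨k, rfl⟩ := Nat.exists_eq_add_of_le hj
      rw [Nat.add_sub_cancel_left]
      ring
    apply mul_right_cancel₀ (pow_ne_zero ((N + 1) * N) hQ0)
    have h7 : (1 - a * Q ^ (2 * (N - j))) * P a Q (N - j) ^ (2 * (N + 2)) * (Q ^ N) ^ (N - j) *
        Q ^ ((N + 1) * N) = (1 - a * Q ^ (2 * (N - j))) *
        (P a Q (N - j) ^ (2 * (N + 2)) * Q ^ ((N + 1) * N)) * (Q ^ N) ^ (N - j) := by ring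
    rw [h7, h1, h3]
    linear_combination (-(1 - a * Q ^ (2 * j)) * P a Q j ^ (2 * (N + 2))) * h5
  have h1 : ∑ j ∈ range (N + 1), (1 - a * Q ^ (2 * j)) * P a Q j ^ (2 * (N + 2)) * (Q ^ N) ^ j =
      -∑ j ∈ range (N + 1), (1 - a * Q ^ (2 * j)) * P a Q j ^ (2 * (N + 2)) * (Q ^ N) ^ j := by
    conv_lhs => rw [← sum_range_reflect]
    rw [← sum_neg_distrib]
    apply sum_congr rfl
    intro j hj
    have hj' := mem_range.1 hj
    rw [show N + 1 - 1 - j = N - j by omega]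
    exact key j (by omega)
  have h2 : (2 : K) * ∑ j ∈ range (N + 1), (1 - a * Q ^ (2 * j)) * P a Q j ^ (2 * (N + 2)) *
      (Q ^ N) ^ j = 0 := by linear_combination h1
  exact (mul_eq_zero.1 h2).resolve_left two_ne_zero

end anti
end Q278.Anti
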