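import Pool.Agent.Q278.Sm

set_option autoImplicit false

/-! Blocks of length `n` of products `(p; p²)_k / (p²; p²)_k` modulo `π²`, where `p ^ n ≡ 1`. -/

namespace Q278.Blk

open Finset Q278.Loc Q278.Unit Q278.Smooth

variable {K : Type*} [Field K] (O : Subring K) (π : K)

/-- The hypotheses on `p`. -/
structure H (n N : ℕ) (p : K) : Prop where
  hn : n = 2 * N + 1
  hπ : π ∈ O
  hp : U O p
  hu : ∀ i : ℕ, ¬ n ∣ i → U O (1 - p ^ i)
  hw : 1 - p ^ n ∈ I O π 1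
  h0 : ∀ m : ℕ, 0 < m → U O (m : K)
  hz : ∀ m : ℕ, 0 < m → 1 - p ^ m ≠ 0
  hloc : ∀ x y : K, U O x → x - y ∈ I O π 1 → U O y

/-- `(p; p²)_k / (p²; p²)_k` -/
def r (p : K) (k : ℕ) : K := ∏ l ∈ range k, ((1 - p ^ (2 * l + 1)) / (1 - p ^ (2 * l + 2)))

/-- the shifted product -/
def rs (n : ℕ) (p : K) (s : ℤ) (k : ℕ) : K :=
  ∏ l ∈ range k, ((1 - (p ^ n) ^ s * p ^ (2 * l + 1)) / (1 - (p ^ n) ^ s * p ^ (2 * l + 2)))

variable {O π} {n N : ℕ} {p : K}

theorem rs_zero (k : ℕ) : rs n p 0 k = r p k := by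
  unfold rs r
  simp only [zpow_zero, one_mul]

theorem H.Uw (h : H O π n N p) : U O (p ^ n) := h.hp.pow n

theorem H.wz (h : H O π n N p) (s : ℤ) : U O ((p ^ n) ^ s) := by
  rcases Int.eq_nat_or_neg s with ⟨m, rfl | rfl⟩
  · rw [zpow_natCast]; exact h.Uw.pow m
  · rw [zpow_neg, zpow_natCast]; exact (h.Uw.pow m).inv

theorem H.wn_mem (h : H O π n N p) (m : ℕ) : 1 - (p ^ n) ^ m ∈ I O π 1 := by
  induction m with
  | zero => simp
  | succ m ih =>
    have e : 1 - (p ^ n) ^ (m + 1) = (1 - (p ^ n) ^ m) + (p ^ n) ^ m * (1 - p ^ n) := by ring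
    rw [e]
    exact (I O π 1).add_mem ih (mul_O (h.Uw.pow m).1 h.hw)

theorem H.wz_mem (h : H O π n N p) (s : ℤ) : 1 - (p ^ n) ^ s ∈ I O π 1 := by
  rcases Int.eq_nat_or_neg s with ⟨m, rfl | rfl⟩
  · rw [zpow_natCast]; exact h.wn_mem m
  · rw [zpow_neg, zpow_natCast]
    have hne := (h.Uw.pow m).2.2
    have e : 1 - ((p ^ n) ^ m)⁻¹ = (-((p ^ n) ^ m)⁻¹) * (1 - (p ^ n) ^ m) := by
      field_simp; ring
    rw [e]
    exact mul_O (O.neg_mem (h.Uw.pow m).2.1) (h.wn_mem m)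

theorem H.Us (h : H O π n N p) (s : ℤ) {i : ℕ} (hi : ¬ n ∣ i) : U O (1 - (p ^ n) ^ s * p ^ i) := by
  apply h.hloc _ _ (h.hu i hi)
  have e : 1 - p ^ i - (1 - (p ^ n) ^ s * p ^ i) = -p ^ i * (1 - (p ^ n) ^ s) := by ring
  rw [e]
  exact mul_O (O.neg_mem (h.hp.pow i).1) (h.wz_mem s)

/-- smoothness of the factors -/
theorem H.sm_fac (h : H O π n N p) (e : ℕ) (c : K) (hc : c ∈ O) :
    Sm O π e 0 (fun s => 1 - (p ^ n) ^ s * c) := by
  have h1 : (p ^ n) - 1 ∈ I O π 1 := by rw [← neg_sub]; exact (I O π 1).neg_mem h.hw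
  have h2 := Sm.mul h.hπ (Sm.zpow (r := e) h.hπ h.Uw h1) (Sm.const (r := e) h.hπ (of_O hc))
  rw [add_zero] at h2
  exact (Sm.const h.hπ (of_O O.one_mem)).sub h2

theorem not_dvd_lt {l : ℕ} (hn : n = 2 * N + 1) (hl : l < N) : ¬ n ∣ 2 * l + 1 ∧ ¬ n ∣ 2 * l + 2 :=
  ⟨Nat.not_dvd_of_pos_of_lt (by omega) (by omega), Nat.not_dvd_of_pos_of_lt (by omega) (by omega)⟩

/-- smoothness of the shifted product -/
theorem H.sm_rs (h : H O π n N p) (e : ℕ) {k : ℕ} (hk : k ≤ N) :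
    Sm O π e 0 (fun s => rs n p s k) := by
  unfold rs
  apply Sm.prod h.hπ
  intro l hl
  have hl' := mem_range.1 hl
  obtain ⟨h1, h2⟩ := not_dvd_lt h.hn (show l < N by omega)
  simp only [div_eq_mul_inv]
  have h3 := Sm.mul h.hπ (h.sm_fac e (p ^ (2 * l + 1)) (h.hp.pow _).1)
    (Sm.inv h.hπ (h.sm_fac e (p ^ (2 * l + 2)) (h.hp.pow _).1) (fun s => h.Us s h2))
  simpa using h3

theorem H.U_rs (h : H O π n N p) (s : ℤ) {k : ℕ} (hk : k ≤ N) : U O (rs n p s k) := by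
  unfold rs
  apply U.prod
  intro l hl
  have hl' := mem_range.1 hl
  obtain ⟨h1, h2⟩ := not_dvd_lt h.hn (show l < N by omega)
  exact (h.Us s h1).div (h.Us s h2)

theorem r_split (j i : ℕ) : r p (n * j + i) = r p (n * j) * rs n p (2 * j) i := by
  unfold r rs
  rw [prod_range_add]
  congr 1
  apply prod_congr rfl
  intro l _
  have e : ((p ^ n) ^ (2 * (j : ℤ))) = p ^ (n * (2 * j)) := by
    rw [show (2 * (j : ℤ)) = ((2 * j : ℕ) : ℤ) by push_cast; rfl, zpow_natCast, ← pow_mul]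
  rw [e, ← pow_add, ← pow_add]
  congr 3 <;> ring

/-- the reversal at `s = -1` -/
theorem H.rev (h : H O π n N p) (i : ℕ) (hi : i ≤ N) :
    rs n p (-1) (N - i) = rs n p (-1) N * (p ^ i * r p i) := by
  have hn := h.hn
  have hp0 := h.hp.2.2
  induction i with
  | zero => simp [r]
  | succ i ih =>
    have h1 := ih (by omega)
    have e0 : N - i = N - (i + 1) + 1 := by omega
    have e1 : rs n p (-1) (N - i) = rs n p (-1) (N - (i + 1)) *
        ((1 - (p ^ n) ^ (-1 : ℤ) * p ^ (2 * (N - (i + 1)) + 1)) /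
          (1 - (p ^ n) ^ (-1 : ℤ) * p ^ (2 * (N - (i + 1)) + 2))) := by
      rw [e0]; unfold rs; rw [prod_range_succ]
    obtain ⟨n1, n2⟩ := not_dvd_lt hn (show i < N by omega)
    have u1 := (h.hu _ n1).2.2
    have u2 := (h.hu _ n2).2.2
    have e2 : 1 - (p ^ n) ^ (-1 : ℤ) * p ^ (2 * (N - (i + 1)) + 1) =
        -(p ^ (2 * i + 2))⁻¹ * (1 - p ^ (2 * i + 2)) := by
      have : p ^ n = p ^ (2 * (N - (i + 1)) + 1) * p ^ (2 * i + 2) := by
        rw [← pow_add]; congr 1; omega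
      rw [this, zpow_neg_one]
      field_simp
      ring
    have e3 : 1 - (p ^ n) ^ (-1 : ℤ) * p ^ (2 * (N - (i + 1)) + 2) =
        -(p ^ (2 * i + 1))⁻¹ * (1 - p ^ (2 * i + 1)) := by
      have : p ^ n = p ^ (2 * (N - (i + 1)) + 2) * p ^ (2 * i + 1) := by
        rw [← pow_add]; congr 1; omega
      rw [this, zpow_neg_one]
      field_simp
      ring
    rw [e1, e2, e3] at h1
    have e4 : (-(p ^ (2 * i + 2))⁻¹ * (1 - p ^ (2 * i + 2))) /
        (-(p ^ (2 * i + 1))⁻¹ * (1 - p ^ (2 * i + 1))) =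
        p⁻¹ * ((1 - p ^ (2 * i + 2)) / (1 - p ^ (2 * i + 1))) := by
      have : p ^ (2 * i + 2) = p ^ (2 * i + 1) * p := by rw [← pow_succ]
      generalize hx : 1 - p ^ (2 * i + 1) = x at *
      generalize hy : 1 - p ^ (2 * i + 2) = y at *
      rw [this]
      field_simp
    rw [e4] at h1
    have e5 : r p (i + 1) = r p i * ((1 - p ^ (2 * i + 1)) / (1 - p ^ (2 * i + 2))) := by
      unfold r; rw [prod_range_succ]
    rw [e5, pow_succ]
    generalize 1 - p ^ (2 * i + 1) = x at *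
    generalize 1 - p ^ (2 * i + 2) = y at *
    have e6 : rs n p (-1) (N - (i + 1)) = (rs n p (-1) (N - (i + 1)) * (p⁻¹ * (y / x))) *
        (p * (x / y)) := by
      field_simp
    rw [e6, h1]
    ring

theorem H.rev_N (h : H O π n N p) : rs n p (-1) N * (p ^ N * r p N) = 1 := by
  have := h.rev N le_rfl
  rw [Nat.sub_self] at this
  rw [← this]
  simp [rs]

/-- The pair congruence. -/
theorem pair {A y : K} (hA : U O A) (h1 : U O (1 - A * y)) (h2 : U O (1 - A / y))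
    (h3 : U O (1 - y)) (hy : U O y) (hA1 : 1 - A ∈ I O π 1) :
    Cg O π 2 ((1 - A * y) * (1 - A / y)) (A * (-(1 - y) ^ 2 / y)) := by
  have hy0 := hy.2.2
  refine ⟨h1.mul h2, hA.mul ?_, ?_⟩
  · have h4 := (h3.pow 2).div hy
    rw [neg_div]
    refine ⟨O.neg_mem h4.1, ?_, neg_ne_zero.2 h4.2.2⟩
    rw [inv_neg]; exact O.neg_mem h4.2.1
  · have e : (1 - A * y) * (1 - A / y) - A * (-(1 - y) ^ 2 / y) = (1 - A) ^ 2 := by
      field_simp; ring
    rw [e]
    exact pow_I hA1 2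

/-- The value of a full block, up to the vanishing factors. -/
def P (n N : ℕ) (p : K) : K := p ^ N * rs n p (-1) N ^ 2

theorem H.U_P (h : H O π n N p) : U O (P n N p) :=
  (h.hp.pow N).mul ((h.U_rs (-1) le_rfl).pow 2)

theorem prod_even {M : Type*} [CommMonoid M] (g : ℕ → M) (N : ℕ) :
    ∏ l ∈ range (2 * N), g l = ∏ l ∈ range N, (g l * g (2 * N - 1 - l)) := by
  rw [two_mul, prod_range_add, prod_mul_distrib]
  congr 1
  rw [← prod_range_reflect]
  apply prod_congr rfl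
  intro l hl
  have := mem_range.1 hl
  congr 1; omega

theorem prod_odd {M : Type*} [CommMonoid M] (g : ℕ → M) (N : ℕ) :
    ∏ l ∈ range (2 * N + 1), g l = g N * ∏ l ∈ range N, (g l * g (2 * N - l)) := by
  rw [show 2 * N + 1 = N + (N + 1) by ring, prod_range_add, prod_range_succ', prod_mul_distrib]
  have e : ∏ k ∈ range N, g (N + (k + 1)) = ∏ l ∈ range N, g (2 * N - l) := by
    rw [← prod_range_reflect]
    apply prod_congr rfl
    intro l hl
    have := mem_range.1 hl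
    congr 1; omega
  rw [e, add_zero]
  rw [← mul_assoc, mul_comm, ← mul_assoc]

theorem H.rs_full (h : H O π n N p) (j : ℕ) : ∃ X, Cg O π 2 X (P n N p) ∧
    rs n p (2 * j) n = (1 - (p ^ n) ^ (2 * j + 1)) / (1 - (p ^ n) ^ (2 * j + 2)) * X := by
  have hn := h.hn
  have hp0 := h.hp.2.2
  set w := p ^ n with hw
  have hw0 : w ≠ 0 := pow_ne_zero _ hp0
  have ew : (w ^ (2 * (j : ℤ))) = w ^ (2 * j) := by
    rw [show (2 * (j : ℤ)) = ((2 * j : ℕ) : ℤ) by push_cast; rfl, zpow_natCast]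
  -- the numerator
  have hnum : ∏ l ∈ range n, (1 - w ^ (2 * j) * p ^ (2 * l + 1)) = (1 - w ^ (2 * j + 1)) *
      ∏ l ∈ range N, ((1 - w ^ (2 * j + 1) * (w⁻¹ * p ^ (2 * l + 1))) *
        (1 - w ^ (2 * j + 1) / (w⁻¹ * p ^ (2 * l + 1)))) := by
    conv_lhs => rw [hn]
    rw [prod_odd]
    congr 1
    · rw [pow_succ w, hw, hn]
    · apply prod_congr rfl
      intro l hl
      have hl' := mem_range.1 hl
      have e1 : w ^ (2 * j + 1) * (w⁻¹ * p ^ (2 * l + 1)) = w ^ (2 * j) * p ^ (2 * l + 1) := by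
        rw [pow_succ]; field_simp
      have e2 : w ^ (2 * j + 1) / (w⁻¹ * p ^ (2 * l + 1)) =
          w ^ (2 * j) * p ^ (2 * (2 * N - l) + 1) := by
        have e3 : w ^ 2 = p ^ (2 * (2 * N - l) + 1) * p ^ (2 * l + 1) := by
          rw [hw, ← pow_mul, ← pow_add]; congr 1; omega
        have e4 : w ^ (2 * j + 1) / (w⁻¹ * p ^ (2 * l + 1)) =
            w ^ (2 * j) * w ^ 2 / p ^ (2 * l + 1) := by
          rw [pow_succ]; field_simp
        rw [e4, e3]; field_simp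
      rw [e1, e2]
  have hden : ∏ l ∈ range n, (1 - w ^ (2 * j) * p ^ (2 * l + 2)) = (1 - w ^ (2 * j + 2)) *
      ∏ l ∈ range N, ((1 - w ^ (2 * j + 1) * (w⁻¹ * p ^ (2 * l + 2))) *
        (1 - w ^ (2 * j + 1) / (w⁻¹ * p ^ (2 * l + 2)))) := by
    conv_lhs => rw [hn]
    rw [prod_range_succ, prod_even, mul_comm]
    congr 1
    · rw [pow_add w, hw, hn, ← pow_mul p _ 2, show 2 * (2 * N) + 2 = (2 * N + 1) * 2 by ring]
    · apply prod_congr rfl
      intro l hl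
      have hl' := mem_range.1 hl
      have e1 : w ^ (2 * j + 1) * (w⁻¹ * p ^ (2 * l + 2)) = w ^ (2 * j) * p ^ (2 * l + 2) := by
        rw [pow_succ]; field_simp
      have e2 : w ^ (2 * j + 1) / (w⁻¹ * p ^ (2 * l + 2)) =
          w ^ (2 * j) * p ^ (2 * (2 * N - 1 - l) + 2) := by
        have e3 : w ^ 2 = p ^ (2 * (2 * N - 1 - l) + 2) * p ^ (2 * l + 2) := by
          rw [hw, ← pow_mul, ← pow_add]; congr 1; omega
        have e4 : w ^ (2 * j + 1) / (w⁻¹ * p ^ (2 * l + 2)) =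
            w ^ (2 * j) * w ^ 2 / p ^ (2 * l + 2) := by
          rw [pow_succ]; field_simp
        rw [e4, e3]; field_simp
      rw [e1, e2]
  have key : ∀ i : ℕ, ¬ n ∣ i → i < n →
      Cg O π 2 ((1 - w ^ (2 * j + 1) * (w⁻¹ * p ^ i)) * (1 - w ^ (2 * j + 1) / (w⁻¹ * p ^ i)))
        (w ^ (2 * j + 1) * (-(1 - w⁻¹ * p ^ i) ^ 2 / (w⁻¹ * p ^ i))) := by
    intro i hi hin
    apply pair (h.Uw.pow _)
    · have := h.Us (2 * j) hi
      have e1 : w ^ (2 * j + 1) * (w⁻¹ * p ^ i) = w ^ (2 * (j : ℤ)) * p ^ i := by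
        rw [ew, pow_succ]; field_simp
      rw [e1]; exact this
    · have hi2 : ¬ n ∣ (n - i) := by
        intro hd
        have := Nat.dvd_sub (dvd_refl n) hd
        rw [show n - (n - i) = i by omega] at this
        exact hi this
      have := h.Us ((2 * j + 1 : ℕ) : ℤ) hi2
      rw [zpow_natCast] at this
      have e1 : w ^ (2 * j + 1) / (w⁻¹ * p ^ i) = w ^ (2 * j + 1) * p ^ (n - i) := by
        have e3 : w = p ^ (n - i) * p ^ i := by rw [hw, ← pow_add]; congr 1; omega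
        have e4 : w ^ (2 * j + 1) / (w⁻¹ * p ^ i) = w ^ (2 * j + 1) * w / p ^ i := by
          field_simp
        rw [e4, div_eq_iff (pow_ne_zero _ hp0), mul_assoc, ← e3]
      rw [e1]; exact this
    · have := h.Us (-1) hi
      rw [zpow_neg_one] at this
      exact this
    · exact h.Uw.inv.mul (h.hp.pow i)
    · exact h.wn_mem _
  refine ⟨(∏ l ∈ range N, ((1 - w ^ (2 * j + 1) * (w⁻¹ * p ^ (2 * l + 1))) *
        (1 - w ^ (2 * j + 1) / (w⁻¹ * p ^ (2 * l + 1))))) *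
      (∏ l ∈ range N, ((1 - w ^ (2 * j + 1) * (w⁻¹ * p ^ (2 * l + 2))) *
        (1 - w ^ (2 * j + 1) / (w⁻¹ * p ^ (2 * l + 2)))))⁻¹, ?_, ?_⟩
  · have h1 : Cg O π 2 (∏ l ∈ range N, ((1 - w ^ (2 * j + 1) * (w⁻¹ * p ^ (2 * l + 1))) *
        (1 - w ^ (2 * j + 1) / (w⁻¹ * p ^ (2 * l + 1)))))
        (∏ l ∈ range N, (w ^ (2 * j + 1) * (-(1 - w⁻¹ * p ^ (2 * l + 1)) ^ 2 /
          (w⁻¹ * p ^ (2 * l + 1))))) :=
      Cg.prod (fun l hl => key _ (not_dvd_lt hn (mem_range.1 hl)).1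
        (by have := mem_range.1 hl; omega))
    have h2 : Cg O π 2 (∏ l ∈ range N, ((1 - w ^ (2 * j + 1) * (w⁻¹ * p ^ (2 * l + 2))) *
        (1 - w ^ (2 * j + 1) / (w⁻¹ * p ^ (2 * l + 2)))))
        (∏ l ∈ range N, (w ^ (2 * j + 1) * (-(1 - w⁻¹ * p ^ (2 * l + 2)) ^ 2 /
          (w⁻¹ * p ^ (2 * l + 2))))) :=
      Cg.prod (fun l hl => key _ (not_dvd_lt hn (mem_range.1 hl)).2
        (by have := mem_range.1 hl; omega))
    have h3 := h1.mul h2.inv
    convert h3 using 1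
    unfold P rs
    rw [← prod_inv_distrib, ← prod_mul_distrib, ← prod_pow, ← card_range N, ← prod_const,
      card_range, ← prod_mul_distrib]
    apply prod_congr rfl
    intro l hl
    obtain ⟨n1, n2⟩ := not_dvd_lt hn (mem_range.1 hl)
    have u1 := (h.Us (-1) n1).2.2
    have u2 := (h.Us (-1) n2).2.2
    rw [zpow_neg_one] at u1 u2
    rw [← hw] at u1 u2 ⊢
    rw [zpow_neg_one]
    have e1 : p ^ (2 * l + 2) = p ^ (2 * l + 1) * p := by rw [← pow_succ]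
    generalize 1 - w⁻¹ * p ^ (2 * l + 1) = x at *
    generalize 1 - w⁻¹ * p ^ (2 * l + 2) = y at *
    rw [e1]
    field_simp
  · unfold rs
    rw [← hw, ew, prod_div_distrib, hnum, hden, mul_div_mul_comm, ← div_eq_mul_inv]

end Q278.Blk
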