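import Pool.Agent.Q278.Blk

set_option autoImplicit false

/-! Blocks of length `n`, continued. -/

namespace Q278.Blk

open Finset Q278.Loc Q278.Unit Q278.Smooth

variable {K : Type*} [Field K] {O : Subring K} {π : K} {n N : ℕ} {p : K}

/-- `(1/2)_j / j!` -/
def c (K : Type*) [Field K] (j : ℕ) : K := ∏ i ∈ range j, (((2 * i + 1 : ℕ) : K) / ((2 * i + 2 : ℕ) : K))

theorem H.U_c (h : H O π n N p) (j : ℕ) : U O (c K j) := by
  unfold c
  exact U.prod (fun i _ => (h.h0 _ (by omega)).div (h.h0 _ (by omega)))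

theorem pow_expand (w : K) (hw : w ∈ O) (h1 : 1 - w ∈ I O π 1) (m : ℕ) :
    w ^ m - (1 - m * (1 - w)) ∈ I O π 2 := by
  induction m with
  | zero => simp
  | succ m ih =>
    have e : w ^ (m + 1) - (1 - ((m + 1 : ℕ) : K) * (1 - w)) =
        w * (w ^ m - (1 - m * (1 - w))) + m * (1 - w) ^ 2 := by
      push_cast; ring
    rw [e]
    exact (I O π 2).add_mem (mul_O hw ih) (mul_O (nat_O m) (pow_I h1 2))

/-- the geometric sum to first order -/
theorem geom2 (w : K) (hw : w ∈ O) (h1 : 1 - w ∈ I O π 1) (a : ℕ) :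
    2 * ∑ i ∈ range a, w ^ i - a * (2 - ((a : K) - 1) * (1 - w)) ∈ I O π 2 := by
  induction a with
  | zero => simp
  | succ a ih =>
    have h2 := pow_expand w hw h1 a
    rw [sum_range_succ]
    have e : 2 * (∑ i ∈ range a, w ^ i + w ^ a) -
        ((a + 1 : ℕ) : K) * (2 - (((a + 1 : ℕ) : K) - 1) * (1 - w)) =
        (2 * ∑ i ∈ range a, w ^ i - a * (2 - ((a : K) - 1) * (1 - w))) +
        2 * (w ^ a - (1 - a * (1 - w))) := by
      push_cast; ring
    rw [e]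
    have h3 : (2 : K) ∈ O := by
      have := nat_O (O := O) 2
      exact_mod_cast this
    exact (I O π 2).add_mem ih (mul_O h3 h2)

theorem H.geom_ne (h : H O π n N p) {a : ℕ} (ha : 0 < a) :
    1 - (p ^ n) ^ a = (1 - p ^ n) * ∑ i ∈ range a, (p ^ n) ^ i ∧
      U O (∑ i ∈ range a, (p ^ n) ^ i) := by
  constructor
  · have := geom_sum_mul (p ^ n) a
    generalize ∑ i ∈ range a, (p ^ n) ^ i = G at *
    generalize (p ^ n) ^ a = W at *
    linear_combination this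
  · apply h.hloc _ _ (h.h0 a ha)
    have e : (a : K) - ∑ i ∈ range a, (p ^ n) ^ i = ∑ i ∈ range a, (1 - (p ^ n) ^ i) := by
      rw [sum_sub_distrib]; simp
    rw [e]
    exact AddSubgroup.sum_mem _ (fun i _ => h.wn_mem i)

/-- the square root `(1 + p ^ n) / 2` of `p ^ n` modulo `π²` -/
def hh (n : ℕ) (p : K) : K := (1 + p ^ n) / 2

theorem H.two (h : H O π n N p) : U O (2 : K) := by
  have := h.h0 2 (by norm_num)
  exact_mod_cast this

theorem H.hh_sub (h : H O π n N p) : 1 - hh n p ∈ I O π 1 := by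
  have e : 1 - hh n p = (2 : K)⁻¹ * (1 - p ^ n) := by
    have := h.two.2.2
    unfold hh
    field_simp
    ring
  rw [e]
  exact mul_O h.two.2.1 h.hw

theorem H.U_hh (h : H O π n N p) : U O (hh n p) := h.hloc 1 _ U.one h.hh_sub

/-- `(1 - w ^ a) / (1 - w ^ (a + 1)) ≡ a / (a + 1) · w ^ (-1/2)` -/
theorem H.quot (h : H O π n N p) {a : ℕ} (ha : 0 < a) :
    Cg O π 2 ((1 - (p ^ n) ^ a) / (1 - (p ^ n) ^ (a + 1)))
      ((a : K) / ((a + 1 : ℕ) : K) * (hh n p)⁻¹) := by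
  obtain ⟨e1, u1⟩ := h.geom_ne ha
  obtain ⟨e2, u2⟩ := h.geom_ne (show 0 < a + 1 by omega)
  have hnpos : 0 < n := by have := h.hn; omega
  have h1 : 1 - p ^ n ≠ 0 := h.hz n hnpos
  rw [e1, e2, mul_div_mul_left _ _ h1]
  have ua := h.h0 a ha
  have ua1 := h.h0 (a + 1) (by omega)
  have uh := h.U_hh
  refine ⟨u1.div u2, (ua.div ua1).mul uh.inv, ?_⟩
  have g1 := geom2 (p ^ n) h.Uw.1 h.hw a
  have g2 := geom2 (p ^ n) h.Uw.1 h.hw (a + 1)
  set G := ∑ i ∈ range a, (p ^ n) ^ i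
  set G' := ∑ i ∈ range (a + 1), (p ^ n) ^ i
  have hG' := u2.2.2
  have ha0 := ua1.2.2
  have hh0 := uh.2.2
  have h20 := h.two.2.2
  have e3 : G / G' - (a : K) / ((a + 1 : ℕ) : K) * (hh n p)⁻¹ =
      (G'⁻¹ * (((a + 1 : ℕ) : K))⁻¹ * (hh n p)⁻¹ * ((2 : K)⁻¹) ^ 2) *
        (((a + 1 : ℕ) : K) * (1 + p ^ n) * (2 * G) - 2 * a * (2 * G')) := by
    have e4 : 1 + p ^ n = 2 * hh n p := by unfold hh; field_simp
    rw [e4]
    generalize hh n p = x at *
    field_simp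
  rw [e3]
  refine mul_O (O.mul_mem (O.mul_mem (O.mul_mem u2.2.1 ua1.2.1) uh.2.1)
    (O.pow_mem h.two.2.1 2)) ?_
  have e5 : (((a + 1 : ℕ) : K) * (1 + p ^ n) * (2 * G) - 2 * a * (2 * G')) =
      ((a + 1 : ℕ) : K) * (1 + p ^ n) * (2 * G - a * (2 - ((a : K) - 1) * (1 - p ^ n))) -
      2 * a * (2 * G' - ((a + 1 : ℕ) : K) * (2 - (((a + 1 : ℕ) : K) - 1) * (1 - p ^ n))) +
      ((a + 1 : ℕ) : K) * a * ((a : K) - 1) * (1 - p ^ n) ^ 2 := by
    push_cast; ring
  rw [e5]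
  have m1 : ((a + 1 : ℕ) : K) * (1 + p ^ n) ∈ O :=
    O.mul_mem (nat_O _) (O.add_mem O.one_mem h.Uw.1)
  have m2 : 2 * (a : K) ∈ O := O.mul_mem h.two.1 (nat_O _)
  have m3 : ((a + 1 : ℕ) : K) * a * ((a : K) - 1) ∈ O :=
    O.mul_mem (O.mul_mem (nat_O _) (nat_O _)) (O.sub_mem (nat_O _) O.one_mem)
  exact (I O π 2).add_mem ((I O π 2).sub_mem (mul_O m1 g1) (mul_O m2 g2))
    (mul_O m3 (pow_I h.hw 2))

/-- The value of the product at the beginning of a block. -/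
theorem H.r_block (h : H O π n N p) (j : ℕ) :
    Cg O π 2 (r p (n * j)) (c K j * ((hh n p)⁻¹ * P n N p) ^ j) := by
  induction j with
  | zero => simp only [mul_zero, r, c, range_zero, prod_empty, pow_zero, mul_one]; exact Cg.refl U.one
  | succ j ih =>
    obtain ⟨X, hX, e⟩ := h.rs_full j
    have e1 : r p (n * (j + 1)) = r p (n * j) * rs n p (2 * j) n := by
      rw [← r_split, Nat.mul_succ]
    rw [e1, e]
    have h1 := h.quot (show 0 < 2 * j + 1 by omega)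
    have h2 := (ih.mul (h1.mul hX))
    have e2 : c K j * ((hh n p)⁻¹ * P n N p) ^ j *
        (((2 * j + 1 : ℕ) : K) / ((2 * j + 1 + 1 : ℕ) : K) * (hh n p)⁻¹ * P n N p) =
        c K (j + 1) * ((hh n p)⁻¹ * P n N p) ^ (j + 1) := by
      unfold c
      rw [prod_range_succ]
      ring
    rw [e2] at h2
    exact h2

/-- Full blocks modulo `π`. -/
theorem H.tail (h : H O π n N p) (j : ℕ) {i : ℕ} (hi : N < i) (hin : i < n) :
    rs n p (2 * j) i ∈ I O π 1 := by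
  have hn := h.hn
  have e : ∀ l ∈ range i, ((1 - (p ^ n) ^ (2 * (j : ℤ)) * p ^ (2 * l + 1)) /
      (1 - (p ^ n) ^ (2 * (j : ℤ)) * p ^ (2 * l + 2))) ∈ O := by
    intro l hl
    have hl' := mem_range.1 hl
    have h2 : ¬ n ∣ 2 * l + 2 := by
      rintro ⟨t, ht⟩
      have ht2 : t < 2 := by
        by_contra hc
        have : n * 2 ≤ n * t := Nat.mul_le_mul_left n (by omega)
        omega
      interval_cases t <;> omega
    rw [div_eq_mul_inv]
    exact O.mul_mem (O.sub_mem O.one_mem (O.mul_mem (h.wz _).1 (h.hp.pow _).1)) (h.Us _ h2).2.1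
  unfold rs
  rw [← mul_prod_erase (range i) _ (mem_range.2 hi), mul_comm]
  refine mul_O (O.prod_mem (fun l hl => e l (mem_of_mem_erase hl))) ?_
  have h2 : ¬ n ∣ 2 * N + 2 := by
    rintro ⟨t, ht⟩
    have ht2 : t < 2 := by
      by_contra hc
      have : n * 2 ≤ n * t := Nat.mul_le_mul_left n (by omega)
      omega
    interval_cases t <;> omega
  rw [div_eq_mul_inv, mul_comm]
  refine mul_O (h.Us _ h2).2.1 ?_
  have e2 : (p ^ n) ^ (2 * (j : ℤ)) * p ^ (2 * N + 1) = (p ^ n) ^ (2 * j + 1) := by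
    rw [show (2 * (j : ℤ)) = ((2 * j : ℕ) : ℤ) by push_cast; rfl, zpow_natCast, pow_succ (p ^ n), ← hn]
  rw [e2]
  exact h.wn_mem _

/-- The value of `r_N` modulo `π`. -/
theorem H.r_N (h : H O π n N p) : Cg O π 1 (r p N) ((-1) ^ N * (p ^ (N * (N + 1)))⁻¹) := by
  have hn := h.hn
  have e1 : r p N = ∏ l ∈ range N, ((1 - p ^ (2 * (N - 1 - l) + 1)) * (1 - p ^ (2 * l + 2))⁻¹) := by
    unfold r
    rw [prod_div_distrib, prod_mul_distrib, prod_inv_distrib, ← div_eq_mul_inv]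
    congr 1
    rw [← prod_range_reflect]
  have e2 : ∀ N : ℕ, ((-1) ^ N * (p ^ (N * (N + 1)))⁻¹ : K) =
      ∏ l ∈ range N, (-(p ^ (2 * l + 2))⁻¹) := by
    intro N
    induction N with
    | zero => simp
    | succ N ih =>
      rw [prod_range_succ, ← ih, show (N + 1) * (N + 1 + 1) = N * (N + 1) + (2 * N + 2) by ring,
        pow_add p (N * (N + 1)), mul_inv, pow_succ]
      ring
  rw [e1, e2]
  apply Cg.prod
  intro l hl
  have hl' := mem_range.1 hl
  obtain ⟨n1, _⟩ := not_dvd_lt hn (show N - 1 - l < N by omega)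
  obtain ⟨_, n2⟩ := not_dvd_lt hn hl'
  have u1 := h.hu _ n1
  have u2 := h.hu _ n2
  have up := (h.hp.pow (2 * l + 2))
  have hneg : U O (-(p ^ (2 * l + 2))⁻¹) :=
    ⟨O.neg_mem up.2.1, by rw [inv_neg, inv_inv]; exact O.neg_mem up.1, neg_ne_zero.2 up.inv.2.2⟩
  refine ⟨u1.mul u2.inv, hneg, ?_⟩
  have e3 : p ^ n = p ^ (2 * (N - 1 - l) + 1) * p ^ (2 * l + 2) := by
    rw [← pow_add]; congr 1; omega
  have hp0 := up.2.2
  have e4 : (1 - p ^ (2 * (N - 1 - l) + 1)) * (1 - p ^ (2 * l + 2))⁻¹ - -(p ^ (2 * l + 2))⁻¹ =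
      ((1 - p ^ (2 * l + 2))⁻¹ * (p ^ (2 * l + 2))⁻¹) * (1 - p ^ n) := by
    rw [e3]
    have h2 := u2.2.2
    generalize hx : 1 - p ^ (2 * l + 2) = x at *
    have hy : p ^ (2 * l + 2) = 1 - x := by rw [← hx]; ring
    rw [hy] at hp0 ⊢
    field_simp
    ring
  rw [e4]
  exact mul_O (O.mul_mem u2.2.1 up.2.1) h.hw

theorem sum_blocks {M : Type*} [AddCommMonoid M] (t : ℕ → M) (n m : ℕ) :
    ∑ k ∈ range (n * m), t k = ∑ j ∈ range m, ∑ i ∈ range n, t (n * j + i) := by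
  induction m with
  | zero => simp
  | succ m ih =>
    rw [Nat.mul_succ, sum_range_add, ih, sum_range_succ]

/-- The general block theorem modulo `π²`. -/
theorem H.main (h : H O π n N p) (t : ℕ → K) (A : ℕ → K) (f : ℕ → ℤ → K)
    (hA : ∀ j, A j ∈ O) (ht : ∀ j i, i ≤ N → t (n * j + i) = A j * f i (2 * j))
    (ht' : ∀ j i, N < i → i < n → t (n * j + i) ∈ I O π 2)
    (hf : ∀ i, i ≤ N → Sm O π 2 0 (f i)) (m : ℕ) :
    ∑ k ∈ range (n * m), t k - ∑ j ∈ range m, A j *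
      (∑ i ∈ range (N + 1), f i 0 + 2 * j * (∑ i ∈ range (N + 1), f i 0 -
        ∑ i ∈ range (N + 1), f i (-1))) ∈ I O π 2 := by
  rw [sum_blocks, ← sum_sub_distrib]
  apply AddSubgroup.sum_mem
  intro j _
  have hn := h.hn
  have hF : Sm O π 2 0 (fun s => ∑ i ∈ range (N + 1), f i s) :=
    Sm.sum h.hπ (fun i hi => hf i (by have := mem_range.1 hi; omega))
  have hl := Sm.lin hF (2 * j)
  have e1 : ∑ i ∈ range n, t (n * j + i) = A j * ∑ i ∈ range (N + 1), f i (2 * j) +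
      ∑ i ∈ range N, t (n * j + (N + 1 + i)) := by
    rw [show range n = range ((N + 1) + N) by congr 1; omega, sum_range_add, mul_sum]
    congr 1
    exact sum_congr rfl (fun i hi => ht j i (by have := mem_range.1 hi; omega))
  have h2 : ∑ i ∈ range N, t (n * j + (N + 1 + i)) ∈ I O π 2 :=
    AddSubgroup.sum_mem _ (fun i hi => ht' j _ (by omega) (by have := mem_range.1 hi; omega))
  rw [e1]
  have h3 := (I O π 2).add_mem (mul_O (hA j) hl) h2
  convert h3 using 1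
  push_cast
  ring

end Q278.Blk
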