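import Pool.Agent.Q278.Blk2

set_option autoImplicit false

/-! Blocks of length `n`: the conclusion when `κ ≡ 1`. -/

namespace Q278.Blk

open Finset Q278.Loc Q278.Unit Q278.Smooth

variable {K : Type*} [Field K] {O : Subring K} {π : K} {n N : ℕ} {p : K}

theorem H.assemble (h : H O π n N p) (t : ℕ → K) (A : ℕ → K) (f : ℕ → ℤ → K)
    (ht : ∀ j i, i ≤ N → t (n * j + i) = A j * f i (2 * j))
    (ht' : ∀ j i, N < i → i < n → t (n * j + i) ∈ I O π 2)
    (hf : ∀ i, i ≤ N → Sm O π 2 0 (f i)) (κ : K) (hκ : Cg O π 1 κ 1)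
    (hrev : ∑ i ∈ range (N + 1), f i (-1) = κ * ∑ i ∈ range (N + 1), f i 0) (C : K)
    (hC : ∑ i ∈ range (N + 1), f i 0 - C ∈ I O π 2) (c' : ℕ → K)
    (hA : ∀ j, Cg O π 2 (A j) (c' j * κ ^ (2 * j))) (m : ℕ) :
    ∑ k ∈ range (n * m), t k - C * ∑ k ∈ range m, c' k ∈ I O π 2 := by
  have hm := h.main t A f (fun j => (hA j).1.1) ht ht' hf m
  rw [hrev] at hm
  have hFm : ∑ i ∈ range (N + 1), f i 0 ∈ O := by
    have : Sm O π 2 0 (fun s => ∑ i ∈ range (N + 1), f i s) :=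
      Sm.sum h.hπ (fun i hi => hf i (by have := mem_range.1 hi; omega))
    exact I_zero (this.val 0)
  generalize ∑ i ∈ range (N + 1), f i 0 = F at *
  have hκI : 1 - κ ∈ I O π 1 := hκ.symm.2.2
  have hκ0 := hκ.1.2.2
  have hc' : ∀ j, c' j ∈ O := by
    intro j
    have h1 := (hA j).2.1.1
    have h2 := O.mul_mem h1 (hκ.1.pow (2 * j)).2.1
    have e : c' j * κ ^ (2 * j) * (κ ^ (2 * j))⁻¹ = c' j :=
      mul_inv_cancel_right₀ (pow_ne_zero _ hκ0) _
    rwa [e] at h2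
  have hcoef : ∀ j : ℕ, A j * (1 + 2 * j * (1 - κ)) - c' j ∈ I O π 2 := by
    intro j
    have h1 := hA j
    have h2 := pow_expand κ hκ.1.1 hκI (2 * j)
    have h3 : A j * (1 + 2 * j * (1 - κ)) - c' j =
        (1 + 2 * j * (1 - κ)) * (A j - c' j * κ ^ (2 * j)) +
        (c' j * (1 + 2 * j * (1 - κ))) *
          (κ ^ (2 * j) - (1 - ((2 * j : ℕ) : K) * (1 - κ))) -
        (c' j * (((2 * j : ℕ) : K)) ^ 2) * (1 - κ) ^ 2 := by
      push_cast; ring
    have m1 : 1 + 2 * (j : K) * (1 - κ) ∈ O :=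
      O.add_mem O.one_mem (O.mul_mem (O.mul_mem h.two.1 (nat_O j))
        (O.sub_mem O.one_mem hκ.1.1))
    rw [h3]
    exact (I O π 2).sub_mem ((I O π 2).add_mem (mul_O m1 h1.2.2)
      (mul_O (O.mul_mem (hc' j) m1) h2)) (mul_O (O.mul_mem (hc' j) (O.pow_mem (nat_O _) 2))
        (pow_I hκI 2))
  have hCm : C ∈ O := by
    have h1 := O.sub_mem hFm (toO h.hπ hC)
    rwa [sub_sub_cancel] at h1
  have hsum : ∑ j ∈ range m, A j * (F + 2 * j * (F - κ * F)) - C * ∑ k ∈ range m, c' k ∈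
      I O π 2 := by
    rw [mul_sum, ← sum_sub_distrib]
    apply AddSubgroup.sum_mem
    intro j _
    have e : A j * (F + 2 * j * (F - κ * F)) - C * c' j =
        (A j * (1 + 2 * j * (1 - κ))) * (F - C) +
        C * (A j * (1 + 2 * j * (1 - κ)) - c' j) := by ring
    have m1 : 1 + 2 * (j : K) * (1 - κ) ∈ O :=
      O.add_mem O.one_mem (O.mul_mem (O.mul_mem h.two.1 (nat_O j))
        (O.sub_mem O.one_mem hκ.1.1))
    rw [e]
    exact (I O π 2).add_mem (mul_O (O.mul_mem (hA j).1.1 m1) hC) (mul_O hCm (hcoef j))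
  have := (I O π 2).add_mem hm hsum
  convert this using 1
  ring

end Q278.Blk
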