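import Pool.Agent.Q278.Blk2

set_option autoImplicit false

/-! Blocks of length `n`: the conclusion when `κ ≡ -1`. -/

namespace Q278.Blk

open Finset Q278.Loc Q278.Unit Q278.Smooth

variable {K : Type*} [Field K] {O : Subring K} {π : K} {n N : ℕ} {p : K}

theorem H.assemble_neg (h : H O π n N p) (t : ℕ → K) (A : ℕ → K) (f : ℕ → ℤ → K)
    (ht : ∀ j i, i ≤ N → t (n * j + i) = A j * f i (2 * j))
    (ht' : ∀ j i, N < i → i < n → t (n * j + i) ∈ I O π 2)
    (hf : ∀ i, i ≤ N → Sm O π 2 0 (f i)) (κ : K) (hκ : 1 + κ ∈ I O π 1)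
    (hrev : ∑ i ∈ range (N + 1), f i (-1) = κ * ∑ i ∈ range (N + 1), f i 0) (C : K)
    (hC : ∑ i ∈ range (N + 1), f i 0 - C ∈ I O π 2) (c' : ℕ → K)
    (hAO : ∀ j, A j ∈ O) (hA : ∀ j, A j - c' j ∈ I O π 1) (m : ℕ) :
    ∑ k ∈ range (n * m), t k - C * ∑ j ∈ range m, c' j * (4 * j + 1) ∈ I O π 2 := by
  have hm := h.main t A f hAO ht ht' hf m
  have hF : Sm O π 2 0 (fun s => ∑ i ∈ range (N + 1), f i s) :=
    Sm.sum h.hπ (fun i hi => hf i (by have := mem_range.1 hi; omega))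
  have hFm : ∑ i ∈ range (N + 1), f i 0 ∈ O := I_zero (hF.val 0)
  have hF1 : ∑ i ∈ range (N + 1), f i 0 - ∑ i ∈ range (N + 1), f i (-1) ∈ I O π 1 := by
    have := hF.2.val (-1)
    simpa using this
  rw [hrev] at hm hF1
  generalize ∑ i ∈ range (N + 1), f i 0 = F at *
  have hFI : F ∈ I O π 1 := by
    have h1 : 2 * F ∈ I O π 1 := by
      have h2 := (I O π 1).add_mem hF1 (mul_O hFm hκ)
      convert h2 using 1
      ring
    exact of_unit_mul h.two.2.2 h.two.2.1 h1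
  have hCI : C ∈ I O π 1 := by
    have h1 := (I O π 1).sub_mem hFI (mono h.hπ (by norm_num) hC)
    rwa [sub_sub_cancel] at h1
  have hsum : ∑ j ∈ range m, A j * (F + 2 * j * (F - κ * F)) -
      C * ∑ j ∈ range m, c' j * (4 * j + 1) ∈ I O π 2 := by
    rw [mul_sum, ← sum_sub_distrib]
    apply AddSubgroup.sum_mem
    intro j _
    have e : A j * (F + 2 * j * (F - κ * F)) - C * (c' j * (4 * j + 1)) =
        (A j * (4 * j + 1)) * (F - C) - (A j * (2 * j)) * (F * (1 + κ)) +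
        (4 * j + 1) * (C * (A j - c' j)) := by ring
    rw [e]
    have m0 : (4 : K) ∈ O := by exact_mod_cast nat_O (O := O) 4
    have m1 : (4 * (j : K) + 1) ∈ O := O.add_mem (O.mul_mem m0 (nat_O j)) O.one_mem
    have m2 : (2 * (j : K)) ∈ O := O.mul_mem h.two.1 (nat_O j)
    exact (I O π 2).add_mem ((I O π 2).sub_mem (mul_O (O.mul_mem (hAO j) m1) hC)
      (mul_O (O.mul_mem (hAO j) m2) (mul_I hFI hκ))) (mul_O m1 (mul_I hCI (hA j)))
  have := (I O π 2).add_mem hm hsum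
  convert this using 1
  ring

/-- `P ≡ w ^ N`. -/
theorem H.P_one (h : H O π n N p) : Cg O π 1 (P n N p) 1 := by
  have a1 : rs n p (-1) N = (p ^ N)⁻¹ * (r p N)⁻¹ := by
    rw [← mul_inv]; exact eq_inv_of_mul_eq_one_left h.rev_N
  unfold P
  rw [a1]
  have hp0 := h.hp.2.2
  have c1 := (Cg.refl (k := 1) (π := π) (h.hp.pow N)).mul
    (((Cg.refl (k := 1) (π := π) (h.hp.pow N).inv).mul h.r_N.inv).pow 2)
  refine c1.trans ?_
  have e : p ^ N * ((p ^ N)⁻¹ * ((-1) ^ N * (p ^ (N * (N + 1)))⁻¹)⁻¹) ^ 2 = (p ^ n) ^ N := by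
    have h5 : (((-1 : K) ^ N)⁻¹) ^ 2 = 1 := by
      rw [inv_pow, ← pow_mul, mul_comm, pow_mul]; norm_num
    have h6 : p ^ N * (p ^ (N * (N + 1))) ^ 2 = (p ^ n) ^ N * (p ^ N) ^ 2 := by
      simp only [← pow_mul, ← pow_add]
      congr 1
      rw [h.hn]; ring
    rw [mul_inv ((-1 : K) ^ N), inv_inv, mul_pow, mul_pow, h5, one_mul]
    have b1 : p ^ N ≠ 0 := pow_ne_zero _ hp0
    generalize p ^ (N * (N + 1)) = x at *
    generalize p ^ N = t at *
    generalize (p ^ n) ^ N = w at *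
    have h7 : x ^ 2 = w * t := mul_left_cancel₀ b1 (by linear_combination h6)
    field_simp
    linear_combination h7
  rw [e]
  refine ⟨h.Uw.pow _, U.one, ?_⟩
  rw [← neg_sub]
  exact (I O π 1).neg_mem (h.wn_mem _)

theorem Cg.mono {x y : K} (hπ : π ∈ O) {k l : ℕ} (hkl : k ≤ l) (h : Cg O π l x y) :
    Cg O π k x y := ⟨h.1, h.2.1, Q278.Loc.mono hπ hkl h.2.2⟩

/-- The value at the beginning of a block modulo `π`. -/
theorem H.r_block_one (h : H O π n N p) (j : ℕ) : Cg O π 1 (r p (n * j)) (c K j) := by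
  have h1 := Cg.mono h.hπ (show 1 ≤ 2 by norm_num) (h.r_block j)
  have h2 : Cg O π 1 (hh n p) 1 :=
    ⟨h.U_hh, U.one, by rw [← neg_sub]; exact (I O π 1).neg_mem h.hh_sub⟩
  have h3 := (Cg.refl (k := 1) (π := π) (h.U_c j)).mul ((h2.inv.mul h.P_one).pow j)
  rw [inv_one, one_mul, one_pow, mul_one] at h3
  exact h1.trans h3

end Q278.Blk
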