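import Pool.Agent.Q278.Blk4

set_option autoImplicit false

/-! Blocks of length `n` modulo `π³`. -/

namespace Q278.Blk

open Finset Q278.Loc Q278.Unit Q278.Smooth

variable {K : Type*} [Field K] {O : Subring K} {π : K} {n N : ℕ} {p : K}

theorem H.sm_w (h : H O π n N p) (e : ℕ) (a b : ℤ) :
    Sm O π e 0 (fun x => (p ^ n) ^ (a * x + b)) := by
  have h1 : (p ^ n) ^ a - 1 ∈ I O π 1 := by
    rw [← neg_sub]; exact (I O π 1).neg_mem (h.wz_mem a)
  have h2 := Sm.mul h.hπ (Sm.zpow (r := e) h.hπ (h.wz a) h1)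
    (Sm.const (r := e) h.hπ (of_O (h.wz b).1))
  rw [add_zero] at h2
  have e1 : (fun x : ℤ => (p ^ n) ^ (a * x + b)) = fun x : ℤ => ((p ^ n) ^ a) ^ x * (p ^ n) ^ b := by
    funext x
    rw [zpow_add₀ h.Uw.2.2, zpow_mul]
  rw [e1]
  exact h2

theorem H.sm_fac' (h : H O π n N p) (e : ℕ) (a b : ℤ) (c : K) (hc : c ∈ O) :
    Sm O π e 0 (fun x => 1 - (p ^ n) ^ (a * x + b) * c) := by
  have h2 := Sm.mul h.hπ (h.sm_w e a b) (Sm.const (r := e) h.hπ (of_O hc))
  rw [add_zero] at h2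
  exact (Sm.const h.hπ (of_O O.one_mem)).sub h2

/-- smoothness of the shifted product along an affine line -/
theorem H.sm_rs' (h : H O π n N p) (e : ℕ) (a b : ℤ) {k : ℕ} (hk : k ≤ N) :
    Sm O π e 0 (fun x => rs n p (a * x + b) k) := by
  unfold rs
  apply Sm.prod h.hπ
  intro l hl
  have hl' := mem_range.1 hl
  obtain ⟨h1, h2⟩ := not_dvd_lt h.hn (show l < N by omega)
  simp only [div_eq_mul_inv]
  have h3 := Sm.mul h.hπ (h.sm_fac' e a b (p ^ (2 * l + 1)) (h.hp.pow _).1)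
    (Sm.inv h.hπ (h.sm_fac' e a b (p ^ (2 * l + 2)) (h.hp.pow _).1) (fun s => h.Us _ h2))
  simpa using h3

/-- the reversal -/
theorem H.rev' (h : H O π n N p) (s : ℤ) (i : ℕ) (hi : i ≤ N) :
    rs n p (-1 - s) (N - i) = rs n p (-1 - s) N * (p ^ i * rs n p s i) := by
  have hn := h.hn
  have hp0 := h.hp.2.2
  have hw0 := h.Uw.2.2
  induction i with
  | zero => simp [rs]
  | succ i ih =>
    have h1 := ih (by omega)
    have e0 : N - i = N - (i + 1) + 1 := by omega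
    have e1 : rs n p (-1 - s) (N - i) = rs n p (-1 - s) (N - (i + 1)) *
        ((1 - (p ^ n) ^ (-1 - s) * p ^ (2 * (N - (i + 1)) + 1)) /
          (1 - (p ^ n) ^ (-1 - s) * p ^ (2 * (N - (i + 1)) + 2))) := by
      rw [e0]; unfold rs; rw [prod_range_succ]
    obtain ⟨n1, n2⟩ := not_dvd_lt hn (show i < N by omega)
    have u1 := (h.Us s n1).2.2
    have u2 := (h.Us s n2).2.2
    have hs0 : (p ^ n) ^ s ≠ 0 := (h.wz s).2.2
    have ez : (p ^ n) ^ (-1 - s) = (p ^ n)⁻¹ * ((p ^ n) ^ s)⁻¹ := by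
      rw [zpow_sub₀ hw0, zpow_neg_one, div_eq_mul_inv]
    have e2 : 1 - (p ^ n) ^ (-1 - s) * p ^ (2 * (N - (i + 1)) + 1) =
        -((p ^ n) ^ s * p ^ (2 * i + 2))⁻¹ * (1 - (p ^ n) ^ s * p ^ (2 * i + 2)) := by
      have h5 : p ^ n = p ^ (2 * (N - (i + 1)) + 1) * p ^ (2 * i + 2) := by
        rw [← pow_add]; congr 1; omega
      have h6 : (p ^ n)⁻¹ * p ^ (2 * (N - (i + 1)) + 1) = (p ^ (2 * i + 2))⁻¹ := by
        rw [h5]; field_simp
      rw [ez, mul_assoc, mul_comm ((p ^ n) ^ s)⁻¹, ← mul_assoc, h6]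
      field_simp
      ring
    have e3 : 1 - (p ^ n) ^ (-1 - s) * p ^ (2 * (N - (i + 1)) + 2) =
        -((p ^ n) ^ s * p ^ (2 * i + 1))⁻¹ * (1 - (p ^ n) ^ s * p ^ (2 * i + 1)) := by
      have h5 : p ^ n = p ^ (2 * (N - (i + 1)) + 2) * p ^ (2 * i + 1) := by
        rw [← pow_add]; congr 1; omega
      have h6 : (p ^ n)⁻¹ * p ^ (2 * (N - (i + 1)) + 2) = (p ^ (2 * i + 1))⁻¹ := by
        rw [h5]; field_simp
      rw [ez, mul_assoc, mul_comm ((p ^ n) ^ s)⁻¹, ← mul_assoc, h6]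
      field_simp
      ring
    rw [e1, e2, e3] at h1
    have e5 : rs n p s (i + 1) = rs n p s i *
        ((1 - (p ^ n) ^ s * p ^ (2 * i + 1)) / (1 - (p ^ n) ^ s * p ^ (2 * i + 2))) := by
      unfold rs; rw [prod_range_succ]
    have e6 : p ^ (2 * i + 2) = p ^ (2 * i + 1) * p := by rw [← pow_succ]
    rw [e5, pow_succ p i]
    generalize hx : 1 - (p ^ n) ^ s * p ^ (2 * i + 1) = x at *
    generalize hy : 1 - (p ^ n) ^ s * p ^ (2 * i + 2) = y at *
    rw [e6] at h1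
    have hz : p ^ (2 * i + 1) ≠ 0 := pow_ne_zero _ hp0
    have e7 : (-((p ^ n) ^ s * (p ^ (2 * i + 1) * p))⁻¹ * y) /
        (-((p ^ n) ^ s * p ^ (2 * i + 1))⁻¹ * x) = p⁻¹ * (y / x) := by
      generalize (p ^ n) ^ s = v at *
      generalize p ^ (2 * i + 1) = z at *
      field_simp
    rw [e7] at h1
    have e8 : rs n p (-1 - s) (N - (i + 1)) = (rs n p (-1 - s) (N - (i + 1)) * (p⁻¹ * (y / x))) *
        (p * (x / y)) := by
      field_simp
    rw [e8, h1]
    ring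

theorem third {f : ℤ → K} (h : Sm O π 3 0 f) (x : ℤ) :
    f (x + 3) - 3 * f (x + 2) + 3 * f (x + 1) - f x ∈ I O π 3 := by
  have h1 := h.2.2.2 x
  simp only at h1
  convert h1 using 1
  rw [show x + 1 + 1 + 1 = x + 3 by ring, show x + 1 + 1 = x + 2 by ring]
  ring

theorem second {f : ℤ → K} (h : Sm O π 3 0 f) (x : ℤ) :
    f (x + 2) - 2 * f (x + 1) + f x ∈ I O π 2 := by
  have h1 := h.2.2.1 x
  simp only at h1
  convert h1 using 1
  rw [show x + 1 + 1 = x + 2 by ring]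
  ring

/-- antisymmetric smooth functions -/
theorem antisymm_lin (hπ : π ∈ O) (h2 : U O (2 : K)) {f : ℤ → K} (h : Sm O π 3 0 f)
    (ha : ∀ x, f (-1 - x) = -f x) (m : ℕ) : f m - (2 * m + 1) * f 0 ∈ I O π 3 := by
  have h1 : f 1 - 3 * f 0 ∈ I O π 3 := by
    have h3 := third h (-2)
    have e1 : f (-2) = -f 1 := ha 1
    have e2 : f (-1) = -f 0 := ha 0
    norm_num at h3
    rw [e1, e2] at h3
    apply of_unit_mul h2.2.2 h2.2.1
    convert h3 using 1
    ring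
  have key : ∀ m : ℕ, (f m - (2 * m + 1) * f 0 ∈ I O π 3) ∧
      (f ((m : ℤ) + 1) - (2 * m + 3) * f 0 ∈ I O π 3) ∧
      (f ((m : ℤ) - 1) - (2 * m - 1) * f 0 ∈ I O π 3) := by
    intro m
    induction m with
    | zero =>
      refine ⟨by simp, ?_, ?_⟩
      · simpa using h1
      · have e2 : f (-1) = -f 0 := ha 0
        simp [e2]
    | succ m ih =>
      obtain ⟨i1, i2, i3⟩ := ih
      have h3 := third h ((m : ℤ) - 1)
      rw [show (m : ℤ) - 1 + 3 = m + 2 by ring, show (m : ℤ) - 1 + 2 = m + 1 by ring,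
        show (m : ℤ) - 1 + 1 = m by ring] at h3
      have m3 : (3 : K) ∈ O := by exact_mod_cast nat_O (O := O) 3
      refine ⟨?_, ?_, ?_⟩
      · push_cast
        convert i2 using 2
        ring
      · push_cast
        rw [show (m : ℤ) + 1 + 1 = m + 2 by ring]
        have h4 := (I O π 3).add_mem ((I O π 3).add_mem ((I O π 3).sub_mem h3 (mul_O m3 i1))
          (mul_O m3 i2)) i3
        convert h4 using 1
        ring
      · push_cast
        rw [show (m : ℤ) + 1 - 1 = m by ring]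
        convert i1 using 2
        ring
  exact (key m).1

end Q278.Blk
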