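import Pool.Agent.Q278.Cyc

set_option autoImplicit false

/-! Congruences of rational functions modulo powers of a cyclotomic polynomial. -/

namespace Q278.Cyc

open Finset Q278.Loc Polynomial

theorem cong_of_mem {m : ℕ} {η : ℂ} (hm : 0 < m) (hη : IsPrimitiveRoot η m) {x : RatFunc ℚ}
    {k : ℕ} (h : x ∈ I (Reg η) (Φ m) k) : ∃ a b : ℚ[X], IsCoprime b (cyclotomic m ℚ ^ k) ∧
      cyclotomic m ℚ ^ k ∣ a ∧
      x = algebraMap ℚ[X] (RatFunc ℚ) a / algebraMap ℚ[X] (RatFunc ℚ) b := by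
  obtain ⟨h1, h2⟩ := num_dvd hm hη h
  exact ⟨RatFunc.num x, RatFunc.denom x, h2.pow_right, h1, (RatFunc.num_div_denom x).symm⟩

theorem mem_of_cong {m : ℕ} {η : ℂ} (hm : 0 < m) (hη : IsPrimitiveRoot η m) {x : RatFunc ℚ}
    {k : ℕ} (hk : 0 < k) {a b : ℚ[X]} (hb : IsCoprime b (cyclotomic m ℚ ^ k))
    (ha : cyclotomic m ℚ ^ k ∣ a)
    (hx : x = algebraMap ℚ[X] (RatFunc ℚ) a / algebraMap ℚ[X] (RatFunc ℚ) b) :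
    x ∈ I (Reg η) (Φ m) k := by
  obtain ⟨c, rfl⟩ := ha
  have hb' : b.eval₂ (algebraMap ℚ ℂ) η ≠ 0 := by
    intro h
    have h1 := (dvd_iff hm hη b).2 h
    have h2 : IsCoprime b (cyclotomic m ℚ) := (IsCoprime.pow_right_iff hk).1 hb
    have h3 := h2.isUnit_of_dvd' h1 dvd_rfl
    exact (cyclotomic.irreducible_rat hm).not_isUnit h3
  refine ⟨algebraMap ℚ[X] (RatFunc ℚ) c / algebraMap ℚ[X] (RatFunc ℚ) b, div_mem hb', ?_⟩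
  rw [hx]
  unfold Φ
  rw [map_mul, map_pow, mul_div_assoc]

theorem pi_k_cancel {m : ℕ} {η : ℂ} {x : RatFunc ℚ} {k l : ℕ}
    (h : (Φ m) ^ k * x ∈ I (Reg η) (Φ m) (k + l)) : x ∈ I (Reg η) (Φ m) l := by
  obtain ⟨y, hy, he⟩ := h
  refine ⟨y, hy, ?_⟩
  apply mul_left_cancel₀ (pow_ne_zero k (Φ_ne m))
  rw [he]; ring

theorem ev_of_mem {m : ℕ} {η : ℂ} (hm : 0 < m) (hη : IsPrimitiveRoot η m) {x : RatFunc ℚ}
    (h : x ∈ I (Reg η) (Φ m) 1) : ev η x = 0 := by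
  obtain ⟨y, hy, he⟩ := h
  rw [he, pow_one, ev_mul (Φ_mem m η) hy, ev_Φ hm hη, zero_mul]

/-- The common form of the two supercongruences modulo `Φ_p(q) ^ 5`. -/
theorem main {p d : ℕ} (hp : p.Prime) (hd : ¬ p ∣ d) {ζ : ℂ} (hζ : IsPrimitiveRoot ζ p)
    {S B : RatFunc ℚ} (hS : (1 - q) * S = VWP.G (q ^ d) (q⁻¹ ^ p) d p)
    (hB : B ∈ Reg ζ)
    (hev : ((d : ℂ) * ((d : ℂ) - 1) ^ 2 * (2 * d - 1) * ((p : ℂ) ^ 2 - 1) / 72) * (1 - ζ) ^ 3 =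
      ev ζ B * (1 - ζ⁻¹ ^ d)) : S - (Φ p) ^ 4 * B ∈ I (Reg ζ) (Φ p) 5 := by
  have hζ0 : ζ ≠ 0 := hζ.ne_zero hp.ne_zero
  have hyp := Cyc.hyp hp hd hζ
  have h1 := I_t_le hp hζ0 (VWP.vwp hyp)
  set n : RatFunc ℚ := (d : RatFunc ℚ) with hn
  set Δ := (q⁻¹ ^ p) ^ d - (q ^ d)⁻¹ with hΔ
  have hΔm : Δ ∈ Reg ζ := by
    refine (Reg ζ).sub_mem ((Reg ζ).pow_mem (qi_mem hζ0 p) d) ?_
    rw [← inv_pow]; exact qi_mem hζ0 d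
  have hζp : ζ⁻¹ ^ p = 1 := by rw [inv_pow, hζ.pow_eq_one, inv_one]
  have hΔev : ev ζ Δ = 1 - ζ⁻¹ ^ d := by
    have h2 : (q ^ d)⁻¹ ∈ Reg ζ := by rw [← inv_pow]; exact qi_mem hζ0 d
    rw [hΔ, ev_sub ((Reg ζ).pow_mem (qi_mem hζ0 p) d) h2, ev_pow (qi_mem hζ0 p), ev_qi hζ0,
      ← inv_pow q d, ev_qi hζ0, hζp, one_pow]
  have hΔ0 : ev ζ Δ ≠ 0 := by
    rw [hΔev]
    intro h
    have h2 : ζ⁻¹ ^ d = 1 := (sub_eq_zero.1 h).symm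
    rw [inv_pow, inv_eq_one] at h2
    exact hd ((hζ.pow_eq_one_iff_dvd d).1 h2)
  have h1q : (1 - q) ∈ Reg ζ := (Reg ζ).sub_mem (Reg ζ).one_mem (X_mem ζ)
  have h1qev : ev ζ (1 - q) = 1 - ζ := by
    rw [ev_sub (Reg ζ).one_mem (X_mem ζ), ev_one, ev_X]
  have h1q0 : ev ζ (1 - q) ≠ 0 := by
    rw [h1qev]
    intro h
    have h2 : ζ = 1 := (sub_eq_zero.1 h).symm
    exact hζ.ne_one hp.one_lt h2
  have hcm : (n * (n - 1) ^ 2 * (2 * n - 1) * ((p : RatFunc ℚ) ^ 2 - 1) / 72) ∈ Reg ζ := by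
    have h2 : (2 : RatFunc ℚ) ∈ Reg ζ := by exact_mod_cast nat_O (K := RatFunc ℚ) (O := Reg ζ) 2
    have h72 : ((72 : ℕ) : RatFunc ℚ)⁻¹ ∈ Reg ζ := by
      apply inv_mem (nat_O 72)
      rw [ev_nat]; norm_num
    rw [div_eq_mul_inv]
    have hnO : n ∈ Reg ζ := nat_O d
    refine (Reg ζ).mul_mem ((Reg ζ).mul_mem ((Reg ζ).mul_mem ((Reg ζ).mul_mem hnO
      ((Reg ζ).pow_mem ((Reg ζ).sub_mem hnO (Reg ζ).one_mem) _)) ((Reg ζ).sub_mem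
      ((Reg ζ).mul_mem h2 hnO) (Reg ζ).one_mem)) ((Reg ζ).sub_mem ((Reg ζ).pow_mem (nat_O p) _)
      (Reg ζ).one_mem)) ?_
    exact_mod_cast h72
  have hcev : ev ζ (n * (n - 1) ^ 2 * (2 * n - 1) * ((p : RatFunc ℚ) ^ 2 - 1) / 72) =
      ((d : ℂ) * ((d : ℂ) - 1) ^ 2 * (2 * d - 1) * ((p : ℂ) ^ 2 - 1) / 72) := by
    have e : (n * (n - 1) ^ 2 * (2 * n - 1) * ((p : RatFunc ℚ) ^ 2 - 1) / 72) =
        ((((d : ℕ) : ℚ) * (((d : ℕ) : ℚ) - 1) ^ 2 * (2 * ((d : ℕ) : ℚ) - 1) *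
          (((p : ℕ) : ℚ) ^ 2 - 1) / 72 : ℚ) : RatFunc ℚ) := by
      push_cast; rfl
    rw [e]
    have h3 : ∀ c : ℚ, ev ζ (c : RatFunc ℚ) = (c : ℂ) := by
      intro c
      have : ((c : ℚ) : RatFunc ℚ) = algebraMap ℚ[X] (RatFunc ℚ) (C c) := by
        rw [RatFunc.algebraMap_C]; exact (eq_ratCast RatFunc.C c).symm
      rw [this, ev_poly, eval₂_C]; simp
    rw [h3]; push_cast; ring
  set c := n * (n - 1) ^ 2 * (2 * n - 1) * ((p : RatFunc ℚ) ^ 2 - 1) / 72 with hc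
  -- the bracket
  set R := c * ((q - 1) * q⁻¹ ^ p) ^ 4 - (1 - q) * Δ * B with hR
  have hqm : (q - 1) * q⁻¹ ^ p ∈ Reg ζ :=
    (Reg ζ).mul_mem ((Reg ζ).sub_mem (X_mem ζ) (Reg ζ).one_mem) (qi_mem hζ0 p)
  have hRm : R ∈ Reg ζ := (Reg ζ).sub_mem ((Reg ζ).mul_mem hcm ((Reg ζ).pow_mem hqm 4))
    ((Reg ζ).mul_mem ((Reg ζ).mul_mem h1q hΔm) hB)
  have hRev : ev ζ R = 0 := by
    have hqev : ev ζ ((q - 1) * q⁻¹ ^ p) = ζ - 1 := by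
      rw [ev_mul ((Reg ζ).sub_mem (X_mem ζ) (Reg ζ).one_mem) (qi_mem hζ0 p),
        ev_sub (X_mem ζ) (Reg ζ).one_mem, ev_X, ev_one, ev_qi hζ0, hζp, mul_one]
    rw [hR, ev_sub ((Reg ζ).mul_mem hcm ((Reg ζ).pow_mem hqm 4))
      ((Reg ζ).mul_mem ((Reg ζ).mul_mem h1q hΔm) hB), ev_mul hcm ((Reg ζ).pow_mem hqm 4),
      ev_pow hqm, hqev, ev_mul ((Reg ζ).mul_mem h1q hΔm) hB, ev_mul h1q hΔm, h1qev, hΔev, hcev]
    linear_combination (1 - ζ) * hev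
  have hR1 := mem_I_one hp.pos hζ hRm hRev
  have key : ((1 - q) * Δ) * (S - (Φ p) ^ 4 * B) ∈ I (Reg ζ) (Φ p) 5 := by
    have e : ((1 - q) * Δ) * (S - (Φ p) ^ 4 * B) =
        (VWP.G (q ^ d) (q⁻¹ ^ p) d p * Δ - (1 - q⁻¹ ^ p) ^ 4 * c) + (Φ p) ^ 4 * R := by
      rw [t_eq hp, hR]
      linear_combination Δ * hS
    rw [e]
    exact (I (Reg ζ) (Φ p) 5).add_mem h1 (mul_I (self_pow 4) hR1)
  have hu : ev ζ ((1 - q) * Δ) ≠ 0 := by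
    rw [ev_mul h1q hΔm]; exact mul_ne_zero h1q0 hΔ0
  exact of_unit_mul (ne_zero_of_ev hu) (inv_mem ((Reg ζ).mul_mem h1q hΔm) hu) key

end Q278.Cyc
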