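import Pool.Agent.Q278.Blk2
import Pool.Agent.Q278.CycCong

set_option autoImplicit false

/-! The hypotheses of the block theorem for `p = q ^ d` modulo powers of `Φ_n(q)`. -/

namespace Q278.Blk

open Finset Q278.Loc Q278.Unit Q278.Smooth Q278.Cyc Polynomial

/-- the pair of factors with a parameter -/
theorem H.pair_y {K : Type*} [Field K] {O : Subring K} {π : K} {n N : ℕ} {p : K}
    (h : H O π n N p) {i : ℕ} (hi : ¬ n ∣ i) :
    Cg O π 2 ((1 - p ^ i) * (1 - p ^ i)) ((1 - p ^ i * p ^ n) * (1 - p ^ i * (p ^ n)⁻¹)) := by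
  have u1 := h.Us 1 hi
  have u2 := h.Us (-1) hi
  rw [zpow_one, mul_comm] at u1
  rw [zpow_neg_one, mul_comm] at u2
  refine ⟨(h.hu i hi).mul (h.hu i hi), u1.mul u2, ?_⟩
  have hy := h.Uw.2.2
  have hy' : p ^ n * (p ^ n)⁻¹ = 1 := mul_inv_cancel₀ hy
  have e : (1 - p ^ i) * (1 - p ^ i) - (1 - p ^ i * p ^ n) * (1 - p ^ i * (p ^ n)⁻¹) =
      (p ^ i * (p ^ n)⁻¹) * (1 - p ^ n) ^ 2 := by
    linear_combination (-(p ^ i) ^ 2 + 2 * p ^ i - p ^ i * p ^ n) * hy'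
  rw [e]
  exact mul_O (O.mul_mem (h.hp.pow i).1 h.Uw.2.1) (pow_I h.hw 2)

theorem one_sub_q_ne {i : ℕ} (hi : 0 < i) : (1 : RatFunc ℚ) - q ^ i ≠ 0 := by
  intro h
  have h1 : (RatFunc.X : RatFunc ℚ) ^ i = 1 := (sub_eq_zero.1 h).symm
  have h2 : algebraMap ℚ[X] (RatFunc ℚ) (X ^ i) = algebraMap ℚ[X] (RatFunc ℚ) 1 := by
    rw [map_pow, RatFunc.algebraMap_X, h1, map_one]
  have h3 := RatFunc.algebraMap_injective ℚ h2
  have h4 := congrArg Polynomial.natDegree h3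
  rw [natDegree_X_pow, natDegree_one] at h4
  omega

variable {n N : ℕ} {η : ℂ}

theorem U_of_ev {x : RatFunc ℚ} (hx : x ∈ Reg η) (h : ev η x ≠ 0) : U (Reg η) x :=
  ⟨hx, inv_mem hx h, ne_zero_of_ev h⟩

theorem ev_of_U {x : RatFunc ℚ} (hx : U (Reg η) x) : ev η x ≠ 0 := by
  intro h
  have h1 := ev_mul hx.1 hx.2.1
  rw [mul_inv_cancel₀ hx.2.2, h, zero_mul, ev_one] at h1
  exact one_ne_zero h1

theorem cycH (hη : IsPrimitiveRoot η n) (hn : n = 2 * N + 1) {d : ℕ} (hd : Nat.Coprime n d)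
    (hd0 : 0 < d) : H (Reg η) (Φ n) n N (q ^ d) := by
  have hn0 : 0 < n := by omega
  have hη0 : η ≠ 0 := hη.ne_zero (by omega)
  refine ⟨hn, Φ_mem n η, ?_, ?_, ?_, ?_, ?_, ?_⟩
  · exact U_of_ev (q_pow_mem η d) (ev_q_ne hη0 d)
  · intro i hi
    rw [← pow_mul]
    apply U_of_ev (one_sub_mem η _) (one_sub_ne hη _)
    intro h
    exact hi (hd.dvd_of_dvd_mul_left h)
  · rw [← pow_mul]
    apply mem_I_one hn0 hη (one_sub_mem η _)
    rw [ev_one_sub, mul_comm, pow_mul, hη.pow_eq_one, one_pow, sub_self]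
  · intro m hm
    apply U_of_ev (nat_O m)
    rw [ev_nat]
    exact_mod_cast hm.ne'
  · intro m hm
    rw [← pow_mul]
    exact one_sub_q_ne (Nat.mul_pos hd0 hm)
  · intro x y hx hxy
    have hy : y ∈ Reg η := by
      have := (Reg η).sub_mem hx.1 (toO (Φ_mem n η) hxy)
      simpa using this
    apply U_of_ev hy
    have h1 := ev_of_mem hn0 hη hxy
    rw [ev_sub hx.1 hy] at h1
    rw [← sub_eq_zero.1 h1]
    exact ev_of_U hx

end Q278.Blk
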