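import Pool.Agent.Q278.VWP

set_option autoImplicit false

/-! Rational functions of `q` regular at a root of unity. -/

namespace Q278.Cyc

open Finset Q278.Loc Polynomial

/-- evaluation at a complex number -/
noncomputable def ev (η : ℂ) (x : RatFunc ℚ) : ℂ := RatFunc.eval (algebraMap ℚ ℂ) η x

/-- The ring of rational functions regular at `η`. -/
noncomputable def Reg (η : ℂ) : Subring (RatFunc ℚ) where
  carrier := {x | (RatFunc.denom x).eval₂ (algebraMap ℚ ℂ) η ≠ 0}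
  mul_mem' := by
    intro x y hx hy h
    have := Polynomial.eval₂_eq_zero_of_dvd_of_eval₂_eq_zero (algebraMap ℚ ℂ) η
      (RatFunc.denom_mul_dvd x y) h
    rw [Polynomial.eval₂_mul] at this
    rcases mul_eq_zero.1 this with h | h
    · exact hx h
    · exact hy h
  one_mem' := by simp
  add_mem' := by
    intro x y hx hy h
    have := Polynomial.eval₂_eq_zero_of_dvd_of_eval₂_eq_zero (algebraMap ℚ ℂ) η
      (RatFunc.denom_add_dvd x y) h
    rw [Polynomial.eval₂_mul] at this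
    rcases mul_eq_zero.1 this with h | h
    · exact hx h
    · exact hy h
  zero_mem' := by simp
  neg_mem' := by
    intro x hx h
    have h1 : RatFunc.denom (-x) ∣ RatFunc.denom x := by
      have h2 := RatFunc.denom_div_dvd (-(RatFunc.num x)) (RatFunc.denom x)
      have h3 : (algebraMap ℚ[X] (RatFunc ℚ) (-(RatFunc.num x))) /
          (algebraMap ℚ[X] (RatFunc ℚ) (RatFunc.denom x)) = -x := by
        rw [map_neg, neg_div, RatFunc.num_div_denom]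
      rwa [h3] at h2
    exact hx (Polynomial.eval₂_eq_zero_of_dvd_of_eval₂_eq_zero (algebraMap ℚ ℂ) η h1 h)

theorem mem_Reg {η : ℂ} {x : RatFunc ℚ} :
    x ∈ Reg η ↔ (RatFunc.denom x).eval₂ (algebraMap ℚ ℂ) η ≠ 0 := Iff.rfl

theorem div_mem {η : ℂ} {a b : ℚ[X]} (hb : b.eval₂ (algebraMap ℚ ℂ) η ≠ 0) :
    (algebraMap ℚ[X] (RatFunc ℚ) a) / (algebraMap ℚ[X] (RatFunc ℚ) b) ∈ Reg η := by
  intro h
  exact hb (Polynomial.eval₂_eq_zero_of_dvd_of_eval₂_eq_zero (algebraMap ℚ ℂ) η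
    (RatFunc.denom_div_dvd a b) h)

theorem poly_mem {η : ℂ} (a : ℚ[X]) : algebraMap ℚ[X] (RatFunc ℚ) a ∈ Reg η := by
  have := div_mem (η := η) (a := a) (b := 1) (by simp)
  simpa using this

theorem ev_add {η : ℂ} {x y : RatFunc ℚ} (hx : x ∈ Reg η) (hy : y ∈ Reg η) :
    ev η (x + y) = ev η x + ev η y := RatFunc.eval_add _ _ hx hy

theorem ev_mul {η : ℂ} {x y : RatFunc ℚ} (hx : x ∈ Reg η) (hy : y ∈ Reg η) :
    ev η (x * y) = ev η x * ev η y := RatFunc.eval_mul _ _ hx hy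

/-- Evaluation as a ring homomorphism. -/
noncomputable def evHom (η : ℂ) : Reg η →+* ℂ where
  toFun x := ev η x.1
  map_one' := by simp [ev]
  map_zero' := by simp [ev]
  map_add' x y := ev_add x.2 y.2
  map_mul' x y := ev_mul x.2 y.2

theorem ev_poly (η : ℂ) (a : ℚ[X]) :
    ev η (algebraMap ℚ[X] (RatFunc ℚ) a) = a.eval₂ (algebraMap ℚ ℂ) η := by
  unfold ev
  rw [RatFunc.eval_algebraMap]
  rfl

theorem ev_pow {η : ℂ} {x : RatFunc ℚ} (hx : x ∈ Reg η) (m : ℕ) :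
    ev η (x ^ m) = ev η x ^ m := map_pow (evHom η) ⟨x, hx⟩ m

theorem ev_sum {η : ℂ} {ι : Type*} {s : Finset ι} {f : ι → RatFunc ℚ}
    (hf : ∀ i ∈ s, f i ∈ Reg η) : ev η (∑ i ∈ s, f i) = ∑ i ∈ s, ev η (f i) := by
  classical
  induction s using Finset.induction_on with
  | empty => simp [ev]
  | insert a s ha ih =>
    rw [sum_insert ha, sum_insert ha, ev_add (hf a (mem_insert_self a s))
      ((Reg η).sum_mem (fun i hi => hf i (mem_insert_of_mem hi))),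
      ih (fun i hi => hf i (mem_insert_of_mem hi))]

theorem ev_prod {η : ℂ} {ι : Type*} {s : Finset ι} {f : ι → RatFunc ℚ}
    (hf : ∀ i ∈ s, f i ∈ Reg η) : ev η (∏ i ∈ s, f i) = ∏ i ∈ s, ev η (f i) := by
  classical
  induction s using Finset.induction_on with
  | empty => simp [ev]
  | insert a s ha ih =>
    rw [prod_insert ha, prod_insert ha, ev_mul (hf a (mem_insert_self a s))
      ((Reg η).prod_mem (fun i hi => hf i (mem_insert_of_mem hi))),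
      ih (fun i hi => hf i (mem_insert_of_mem hi))]

theorem ev_neg {η : ℂ} {x : RatFunc ℚ} (hx : x ∈ Reg η) : ev η (-x) = -ev η x :=
  map_neg (evHom η) ⟨x, hx⟩

theorem ev_sub {η : ℂ} {x y : RatFunc ℚ} (hx : x ∈ Reg η) (hy : y ∈ Reg η) :
    ev η (x - y) = ev η x - ev η y := map_sub (evHom η) ⟨x, hx⟩ ⟨y, hy⟩

theorem ev_one (η : ℂ) : ev η 1 = 1 := by simp [ev]

theorem ev_zero (η : ℂ) : ev η 0 = 0 := by simp [ev]

theorem ev_nat (η : ℂ) (m : ℕ) : ev η (m : RatFunc ℚ) = m := map_natCast (evHom η) m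

theorem ev_X (η : ℂ) : ev η RatFunc.X = η := by simp [ev]

theorem X_mem (η : ℂ) : (RatFunc.X : RatFunc ℚ) ∈ Reg η := by
  rw [← RatFunc.algebraMap_X]; exact poly_mem _

theorem inv_mem {η : ℂ} {x : RatFunc ℚ} (_hx : x ∈ Reg η) (h : ev η x ≠ 0) : x⁻¹ ∈ Reg η := by
  have h1 : (RatFunc.num x).eval₂ (algebraMap ℚ ℂ) η ≠ 0 := by
    intro h0
    apply h
    unfold ev RatFunc.eval
    rw [h0, zero_div]
  have h2 := div_mem (η := η) (a := RatFunc.denom x) h1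
  rwa [← inv_div, RatFunc.num_div_denom] at h2

theorem ne_zero_of_ev {η : ℂ} {x : RatFunc ℚ} (h : ev η x ≠ 0) : x ≠ 0 := by
  rintro rfl
  exact h (ev_zero η)

theorem ev_inv {η : ℂ} {x : RatFunc ℚ} (hx : x ∈ Reg η) (h : ev η x ≠ 0) :
    ev η x⁻¹ = (ev η x)⁻¹ := by
  have h0 := ne_zero_of_ev h
  have h1 := ev_mul hx (inv_mem hx h)
  rw [mul_inv_cancel₀ h0, ev_one] at h1
  exact eq_inv_of_mul_eq_one_right h1.symm

theorem ev_div {η : ℂ} {x y : RatFunc ℚ} (hx : x ∈ Reg η) (hy : y ∈ Reg η) (h : ev η y ≠ 0) :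
    ev η (x / y) = ev η x / ev η y := by
  rw [div_eq_mul_inv, ev_mul hx (inv_mem hy h), ev_inv hy h, div_eq_mul_inv]

section cyclo

variable {m : ℕ} {η : ℂ}

/-- `Φ_m(q)` as a rational function. -/
noncomputable def Φ (m : ℕ) : RatFunc ℚ := algebraMap ℚ[X] (RatFunc ℚ) (cyclotomic m ℚ)

theorem dvd_iff (hm : 0 < m) (hη : IsPrimitiveRoot η m) (a : ℚ[X]) :
    cyclotomic m ℚ ∣ a ↔ a.eval₂ (algebraMap ℚ ℂ) η = 0 := by
  rw [cyclotomic_eq_minpoly_rat hη hm]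
  constructor
  · rintro ⟨b, rfl⟩
    rw [eval₂_mul]
    have := minpoly.aeval ℚ η
    rw [aeval_def] at this
    rw [this, zero_mul]
  · intro h
    exact minpoly.dvd ℚ η (by rw [aeval_def]; exact h)

theorem Φ_mem (m : ℕ) (η : ℂ) : Φ m ∈ Reg η := poly_mem _

theorem Φ_ne (m : ℕ) : Φ m ≠ 0 := by
  unfold Φ
  exact (map_ne_zero_iff _ (RatFunc.algebraMap_injective ℚ)).2 (cyclotomic_ne_zero m ℚ)

theorem ev_Φ (hm : 0 < m) (hη : IsPrimitiveRoot η m) : ev η (Φ m) = 0 := by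
  unfold Φ
  rw [ev_poly]
  exact (dvd_iff hm hη _).1 dvd_rfl

/-- The elements of `I 1` are those vanishing at `η`. -/
theorem mem_I_one (hm : 0 < m) (hη : IsPrimitiveRoot η m) {x : RatFunc ℚ} (hx : x ∈ Reg η)
    (h : ev η x = 0) : x ∈ I (Reg η) (Φ m) 1 := by
  have h1 : (RatFunc.num x).eval₂ (algebraMap ℚ ℂ) η = 0 := by
    unfold ev RatFunc.eval at h
    rcases div_eq_zero_iff.1 h with h | h
    · exact h
    · exact absurd h hx
  obtain ⟨a, ha⟩ := (dvd_iff hm hη _).2 h1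
  refine ⟨algebraMap ℚ[X] (RatFunc ℚ) a / algebraMap ℚ[X] (RatFunc ℚ) (RatFunc.denom x),
    div_mem hx, ?_⟩
  conv_lhs => rw [← RatFunc.num_div_denom x, ha, map_mul]
  unfold Φ
  rw [pow_one, mul_div_assoc]

/-- Membership in `I k` in terms of the reduced fraction. -/
theorem num_dvd (hm : 0 < m) (hη : IsPrimitiveRoot η m) {x : RatFunc ℚ} {k : ℕ}
    (h : x ∈ I (Reg η) (Φ m) k) :
    cyclotomic m ℚ ^ k ∣ RatFunc.num x ∧ IsCoprime (RatFunc.denom x) (cyclotomic m ℚ) := by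
  have hirr := cyclotomic.irreducible_rat hm
  have hx : x ∈ Reg η := toO (Φ_mem m η) h
  have hd : ¬ cyclotomic m ℚ ∣ RatFunc.denom x := by
    intro h1
    exact hx ((dvd_iff hm hη _).1 h1)
  obtain ⟨y, hy, he⟩ := h
  have hdy : ¬ cyclotomic m ℚ ∣ RatFunc.denom y := by
    intro h1
    exact hy ((dvd_iff hm hη _).1 h1)
  have e1 : RatFunc.num x * RatFunc.denom y =
      cyclotomic m ℚ ^ k * RatFunc.num y * RatFunc.denom x := by
    apply RatFunc.algebraMap_injective ℚ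
    simp only [map_mul, map_pow]
    have h1 : algebraMap ℚ[X] (RatFunc ℚ) (RatFunc.denom x) ≠ 0 :=
      (map_ne_zero_iff _ (RatFunc.algebraMap_injective ℚ)).2 (RatFunc.denom_ne_zero x)
    have h2 : algebraMap ℚ[X] (RatFunc ℚ) (RatFunc.denom y) ≠ 0 :=
      (map_ne_zero_iff _ (RatFunc.algebraMap_injective ℚ)).2 (RatFunc.denom_ne_zero y)
    have h3 := RatFunc.num_div_denom x
    have h4 := RatFunc.num_div_denom y
    rw [div_eq_iff h1] at h3
    rw [div_eq_iff h2] at h4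
    unfold Φ at he
    rw [h3, h4]
    linear_combination (algebraMap ℚ[X] (RatFunc ℚ) (RatFunc.denom x) *
      algebraMap ℚ[X] (RatFunc ℚ) (RatFunc.denom y)) * he
  constructor
  · have h1 : cyclotomic m ℚ ^ k ∣ RatFunc.num x * RatFunc.denom y := by
      rw [e1, mul_assoc]; exact dvd_mul_right _ _
    exact (IsCoprime.pow_left ((hirr.coprime_iff_not_dvd).2 hdy)).dvd_of_dvd_mul_right h1
  · exact ((hirr.coprime_iff_not_dvd).2 hd).symm

/-- The number `q`. -/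
noncomputable abbrev q : RatFunc ℚ := RatFunc.X

theorem ev_q_pow (η : ℂ) (k : ℕ) : ev η (q ^ k) = η ^ k := by
  rw [ev_pow (X_mem η), ev_X]

theorem q_pow_mem (η : ℂ) (k : ℕ) : q ^ k ∈ Reg η := (Reg η).pow_mem (X_mem η) k

theorem one_sub_mem (η : ℂ) (k : ℕ) : 1 - q ^ k ∈ Reg η :=
  (Reg η).sub_mem (Reg η).one_mem (q_pow_mem η k)

theorem ev_one_sub (η : ℂ) (k : ℕ) : ev η (1 - q ^ k) = 1 - η ^ k := by
  rw [ev_sub (Reg η).one_mem (q_pow_mem η k), ev_one, ev_q_pow]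

theorem one_sub_ne (hη : IsPrimitiveRoot η m) {k : ℕ} (hk : ¬ m ∣ k) :
    ev η (1 - q ^ k) ≠ 0 := by
  rw [ev_one_sub]
  intro h
  exact hk ((hη.pow_eq_one_iff_dvd k).1 (sub_eq_zero.1 h).symm)

theorem q_ne : q ≠ 0 := RatFunc.X_ne_zero

theorem ev_q_ne (hη0 : η ≠ 0) (k : ℕ) : ev η (q ^ k) ≠ 0 := by
  rw [ev_q_pow]; exact pow_ne_zero _ hη0

theorem qi_mem (hη0 : η ≠ 0) (k : ℕ) : q⁻¹ ^ k ∈ Reg η := by
  rw [inv_pow]; exact inv_mem (q_pow_mem η k) (ev_q_ne hη0 k)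

theorem ev_qi (hη0 : η ≠ 0) (k : ℕ) : ev η (q⁻¹ ^ k) = η⁻¹ ^ k := by
  rw [inv_pow, ev_inv (q_pow_mem η k) (ev_q_ne hη0 k), ev_q_pow, inv_pow]

/-- For a prime `p` not dividing `d` the hypotheses hold with `Q = q ^ d`, `u = q ^ (-p)`. -/
theorem hyp {p d : ℕ} (hp : p.Prime) (hd : ¬ p ∣ d) (hη : IsPrimitiveRoot η p) :
    VWP.Hyp (Reg η) p d (q ^ d) (q⁻¹ ^ p) (1 - q⁻¹ ^ p) := by
  have hη0 : η ≠ 0 := hη.ne_zero hp.ne_zero
  have hnd : ∀ j, 0 < j → j < p → ¬ p ∣ d * j := by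
    intro j h0 hj h
    rcases (Nat.Prime.dvd_mul hp).1 h with h | h
    · exact hd h
    · have := Nat.le_of_dvd h0 h
      omega
  refine ⟨?_, ?_, ?_, ?_, ?_, ?_, ?_, ?_, ?_, ?_, ?_, ?_⟩
  · exact (Reg η).sub_mem (Reg η).one_mem (qi_mem hη0 p)
  · ring
  · exact pow_ne_zero _ (inv_ne_zero q_ne)
  · rw [inv_pow, inv_inv]; exact q_pow_mem η p
  · exact q_pow_mem η d
  · exact pow_ne_zero _ q_ne
  · rw [← inv_pow]; exact qi_mem hη0 d
  · rw [← pow_mul, ← pow_mul, inv_pow, mul_comm d p]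
    exact mul_inv_cancel₀ (pow_ne_zero _ q_ne)
  · intro j h0 hj
    rw [← pow_mul]
    exact inv_mem (one_sub_mem η _) (one_sub_ne hη (hnd j h0 hj))
  · intro j h0 hj
    rw [← pow_mul]
    exact ne_zero_of_ev (one_sub_ne hη (hnd j h0 hj))
  · intro m hm
    apply inv_mem (nat_O m)
    rw [ev_nat]
    exact_mod_cast hm.ne'
  · exact hp.one_lt.le

/-- `t = Φ_p(q) (q - 1) q ^ (-p)`. -/
theorem t_eq {p : ℕ} (hp : p.Prime) : 1 - q⁻¹ ^ p = Φ p * ((q - 1) * q⁻¹ ^ p) := by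
  have := Fact.mk hp
  have h1 := cyclotomic_prime_mul_X_sub_one ℚ p
  have h2 := congrArg (algebraMap ℚ[X] (RatFunc ℚ)) h1
  simp only [map_mul, map_sub, map_pow, map_one, RatFunc.algebraMap_X] at h2
  unfold Φ
  have h3 : (RatFunc.X : RatFunc ℚ) ^ p ≠ 0 := pow_ne_zero _ q_ne
  rw [← mul_assoc, h2, sub_mul, inv_pow, mul_inv_cancel₀ h3, one_mul]

theorem I_t_le {p : ℕ} (hp : p.Prime) (hη0 : η ≠ 0) {k : ℕ} {x : RatFunc ℚ}
    (hx : x ∈ I (Reg η) (1 - q⁻¹ ^ p) k) : x ∈ I (Reg η) (Φ p) k := by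
  obtain ⟨y, hy, rfl⟩ := hx
  refine ⟨((q - 1) * q⁻¹ ^ p) ^ k * y, ?_, ?_⟩
  · exact (Reg η).mul_mem ((Reg η).pow_mem ((Reg η).mul_mem ((Reg η).sub_mem (X_mem η)
      (Reg η).one_mem) (qi_mem hη0 p)) k) hy
  · rw [t_eq hp, mul_pow, mul_assoc]

/-- The sum `G` in the usual form of a very-well-poised series. -/
theorem G_eq {K : Type*} [Field K] {O : Subring K} {p n : ℕ} {Q u t : K}
    (h : VWP.Hyp O p n Q u t) : VWP.G Q u n p = ∑ j ∈ range p, (1 - u * Q ^ (2 * j + 1)) *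
      (∏ i ∈ range j, (1 - u * Q ^ (i + 1)) / (1 - Q ^ (i + 1))) ^ (2 * n) * (Q ^ (p - 1)) ^ j := by
  unfold VWP.G VWP.E
  apply sum_congr rfl
  intro j _
  have hQp : Q ^ p = u⁻¹ ^ n := by rw [inv_pow]; exact eq_inv_of_mul_eq_one_left h.hrel
  have hp := h.hp
  have hQ0 := h.hQ0
  rw [prod_mul_distrib, prod_const, card_range, prod_pow, ← hQp]
  have e1 : Q ^ p = Q ^ (p - 1) * Q := by
    conv_lhs => rw [show p = (p - 1) + 1 by omega, pow_succ]
  have e2 : Q⁻¹ ^ j * (Q ^ p) ^ j = (Q ^ (p - 1)) ^ j := by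
    rw [e1, ← mul_pow]; congr 1; field_simp
  have e3 : (Q⁻¹ ^ j - u * Q ^ (j + 1)) = Q⁻¹ ^ j * (1 - u * Q ^ (2 * j + 1)) := by
    have : Q⁻¹ ^ j * Q ^ (2 * j + 1) = Q ^ (j + 1) := by
      rw [inv_pow, show 2 * j + 1 = j + (j + 1) by ring, pow_add]
      exact inv_mul_cancel_left₀ (pow_ne_zero _ hQ0) _
    linear_combination u * this
  rw [e3, ← e2]
  ring

end cyclo

end Q278.Cyc
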