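import Pool.Agent.Q278.Unit

set_option autoImplicit false

/-! Logarithmic expansions of products to third order. -/

namespace Q278.Ex

open Finset Q278.Loc Q278.Unit

variable {K : Type*} [Field K] [CharZero K] {O : Subring K} {π : K}

/-- the truncated exponential -/
def E (A : K) : K := 1 + A + A ^ 2 / 2 + A ^ 3 / 6

/-- congruence modulo `π ^ m` of elements of `O` -/
def Cm (O : Subring K) (π : K) (m : ℕ) (x y : K) : Prop := x ∈ O ∧ y ∈ O ∧ x - y ∈ I O π m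

omit [CharZero K] in
theorem Cm.refl {m : ℕ} {x : K} (h : x ∈ O) : Cm O π m x x :=
  ⟨h, h, by rw [sub_self]; exact (I O π m).zero_mem⟩

omit [CharZero K] in
theorem Cm.symm {m : ℕ} {x y : K} (h : Cm O π m x y) : Cm O π m y x :=
  ⟨h.2.1, h.1, by rw [← neg_sub]; exact (I O π m).neg_mem h.2.2⟩

omit [CharZero K] in
theorem Cm.trans {m : ℕ} {x y z : K} (h : Cm O π m x y) (h' : Cm O π m y z) : Cm O π m x z :=
  ⟨h.1, h'.2.1, by rw [← sub_add_sub_cancel x y z]; exact (I O π m).add_mem h.2.2 h'.2.2⟩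

omit [CharZero K] in
theorem Cm.mul {m : ℕ} {x y x' y' : K} (h : Cm O π m x y) (h' : Cm O π m x' y') :
    Cm O π m (x * x') (y * y') := by
  refine ⟨O.mul_mem h.1 h'.1, O.mul_mem h.2.1 h'.2.1, ?_⟩
  have e : x * x' - y * y' = x' * (x - y) + y * (x' - y') := by ring
  rw [e]
  exact (I O π m).add_mem (mul_O h'.1 h.2.2) (mul_O h.2.1 h'.2.2)

omit [CharZero K] in
theorem Cm.pow {m : ℕ} {x y : K} (h : Cm O π m x y) (r : ℕ) : Cm O π m (x ^ r) (y ^ r) := by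
  induction r with
  | zero => rw [pow_zero, pow_zero]; exact Cm.refl O.one_mem
  | succ r ih => rw [pow_succ, pow_succ]; exact ih.mul h

omit [CharZero K] in
theorem Cm.sum {m : ℕ} {ι : Type*} {s : Finset ι} {f g : ι → K}
    (h : ∀ i ∈ s, Cm O π m (f i) (g i)) : Cm O π m (∑ i ∈ s, f i) (∑ i ∈ s, g i) := by
  refine ⟨O.sum_mem fun i hi => (h i hi).1, O.sum_mem fun i hi => (h i hi).2.1, ?_⟩
  rw [← sum_sub_distrib]
  exact AddSubgroup.sum_mem _ fun i hi => (h i hi).2.2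

variable (hπ : π ∈ O) (hO : ∀ m : ℕ, 0 < m → ((m : K))⁻¹ ∈ O)

include hO

omit [CharZero K] in
theorem half_O : (1 / 2 : K) ∈ O := by
  have := hO 2 two_pos
  rw [one_div]
  exact_mod_cast this

omit [CharZero K] in
theorem sixth_O : (1 / 6 : K) ∈ O := by
  have := hO 6 (by norm_num)
  rw [one_div]
  exact_mod_cast this

theorem E_mem {A : K} (h : A ∈ O) : E A ∈ O := by
  have e : E A = 1 + A + (1 / 2) * A ^ 2 + (1 / 6) * A ^ 3 := by unfold E; ring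
  rw [e]
  exact O.add_mem (O.add_mem (O.add_mem O.one_mem h) (O.mul_mem (half_O hO) (O.pow_mem h 2)))
    (O.mul_mem (sixth_O hO) (O.pow_mem h 3))

include hπ

theorem E_mul {A B : K} (hA : A ∈ I O π 1) (hB : B ∈ I O π 1) :
    Cm O π 4 (E A * E B) (E (A + B)) := by
  have oA := toO hπ hA
  have oB := toO hπ hB
  refine ⟨O.mul_mem (E_mem hO oA) (E_mem hO oB), E_mem hO (O.add_mem oA oB), ?_⟩
  have h1 : A ^ 3 * B ∈ I O π 4 := mul_I (pow_I hA 3) hB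
  have h2 : A ^ 2 * B ^ 2 ∈ I O π 4 := mul_I (pow_I hA 2) (pow_I hB 2)
  have h3 : A * B ^ 3 ∈ I O π 4 := mul_I (a := 1) (b := 3) hA (pow_I hB 3)
  have s6 := sixth_O hO
  have s2 := half_O hO
  have k1 : (1 / 6) + (1 / 2) * (1 / 6) * B + (1 / 6) * (1 / 6) * B ^ 2 ∈ O :=
    O.add_mem (O.add_mem s6 (O.mul_mem (O.mul_mem s2 s6) oB))
      (O.mul_mem (O.mul_mem s6 s6) (O.pow_mem oB 2))
  have k2 : (1 / 2) * (1 / 2) + (1 / 2) * (1 / 6) * B ∈ O :=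
    O.add_mem (O.mul_mem s2 s2) (O.mul_mem (O.mul_mem s2 s6) oB)
  have h4 := (I O π 4).add_mem ((I O π 4).add_mem (mul_O k1 h1) (mul_O k2 h2)) (mul_O s6 h3)
  convert h4 using 1
  unfold E
  ring

theorem E_cong {A B : K} (hA : A ∈ I O π 1) (hB : B ∈ I O π 1) (h : A - B ∈ I O π 4) :
    Cm O π 4 (E A) (E B) := by
  have oA := toO hπ hA
  have oB := toO hπ hB
  refine ⟨E_mem hO oA, E_mem hO oB, ?_⟩
  have k : 1 + (1 / 2) * (A + B) + (1 / 6) * (A ^ 2 + A * B + B ^ 2) ∈ O :=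
    O.add_mem (O.add_mem O.one_mem (O.mul_mem (half_O hO) (O.add_mem oA oB)))
      (O.mul_mem (sixth_O hO) (O.add_mem (O.add_mem (O.pow_mem oA 2) (O.mul_mem oA oB))
        (O.pow_mem oB 2)))
  have := mul_O k h
  convert this using 1
  unfold E
  ring

theorem E_pow {A : K} (hA : A ∈ I O π 1) (m : ℕ) : Cm O π 4 (E A ^ m) (E (m * A)) := by
  induction m with
  | zero =>
    rw [pow_zero]
    have : E ((0 : ℕ) * A) = 1 := by unfold E; push_cast; ring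
    rw [this]
    exact Cm.refl O.one_mem
  | succ m ih =>
    rw [pow_succ]
    have h1 := ih.mul (Cm.refl (π := π) (m := 4) (E_mem hO (toO hπ hA)))
    have h2 := E_mul hπ hO (mul_O (nat_O m) hA) hA
    have h3 := h1.trans h2
    have e : (((m + 1 : ℕ)) : K) * A = m * A + A := by push_cast; ring
    rw [e]
    exact h3

omit hπ hO in
omit [CharZero K] in
theorem zpow_mem {u : K} (hu : U O u) (t : ℤ) : u ^ t ∈ O := by
  rcases Int.eq_nat_or_neg t with ⟨m, rfl | rfl⟩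
  · rw [zpow_natCast]; exact O.pow_mem hu.1 m
  · rw [zpow_neg, zpow_natCast]; exact (hu.pow m).2.1

/-- the logarithm of `u` -/
def lg (u : K) : K := (u - 1) - (u - 1) ^ 2 / 2 + (u - 1) ^ 3 / 3

theorem lg_mem {u : K} (h1 : u - 1 ∈ I O π 1) : lg u ∈ I O π 1 := by
  have o := toO hπ h1
  have k : 1 - (1 / 2) * (u - 1) + (2 * (1 / 6)) * (u - 1) ^ 2 ∈ O := by
    refine O.add_mem (O.sub_mem O.one_mem (O.mul_mem (half_O hO) o)) (O.mul_mem
      (O.mul_mem ?_ (sixth_O hO)) (O.pow_mem o 2))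
    exact_mod_cast nat_O (O := O) 2
  have := mul_O k h1
  convert this using 1
  unfold lg
  ring

theorem E_lg {u : K} (hu : u ∈ O) (h1 : u - 1 ∈ I O π 1) : Cm O π 4 (E (lg u)) u := by
  have o := toO hπ h1
  have hl := lg_mem hπ hO h1
  refine ⟨E_mem hO (toO hπ hl), hu, ?_⟩
  have h4 : (u - 1) ^ 4 ∈ I O π 4 := pow_I h1 4
  have s6 := sixth_O hO
  have s2 := half_O hO
  set v := u - 1 with hv
  have t3 : (1 / 3 : K) = 2 * (1 / 6) := by norm_num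
  have s3 : (1 / 3 : K) ∈ O := by
    rw [t3]; exact O.mul_mem (by exact_mod_cast nat_O (O := O) 2) s6
  -- E(lg u) - u = v⁴ · R
  have key : ∃ R ∈ O, E (lg u) - u = R * v ^ 4 := by
    set x : K := 1 - (1 / 2) * v + (1 / 3) * v ^ 2 with hx
    have ox : x ∈ O := O.add_mem (O.sub_mem O.one_mem (O.mul_mem s2 o))
      (O.mul_mem s3 (O.pow_mem o 2))
    have hq : ∃ y ∈ O, x ^ 2 = 1 - v + v ^ 2 * y := by
      refine ⟨(1 / 2) * (1 / 2) + 2 * (1 / 3) - (1 / 3) * v + (1 / 3) ^ 2 * v ^ 2, ?_, by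
        rw [hx]; ring⟩
      exact O.add_mem (O.sub_mem (O.add_mem (O.mul_mem s2 s2) (O.mul_mem
        (by exact_mod_cast nat_O (O := O) 2) s3)) (O.mul_mem s3 o)) (O.mul_mem
          (O.pow_mem s3 2) (O.pow_mem o 2))
    have hc : ∃ y ∈ O, x ^ 3 = 1 + v * y := by
      obtain ⟨y, hy, e⟩ := hq
      refine ⟨(-(1 / 2) + (1 / 3) * v) * (1 - v + v ^ 2 * y) + (-1 + v * y), ?_, ?_⟩
      · exact O.add_mem (O.mul_mem (O.add_mem (O.neg_mem s2) (O.mul_mem s3 o))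
          (O.add_mem (O.sub_mem O.one_mem o) (O.mul_mem (O.pow_mem o 2) hy)))
          (O.add_mem (O.neg_mem O.one_mem) (O.mul_mem o hy))
      · rw [pow_succ, e, hx]; ring
    obtain ⟨y, hy, e2⟩ := hq
    obtain ⟨z, hz, e3⟩ := hc
    refine ⟨(1 / 2) * y + (1 / 6) * z, O.add_mem (O.mul_mem s2 hy) (O.mul_mem s6 hz), ?_⟩
    have e1 : lg u = v * x := by unfold lg; rw [hx]; ring
    have e0 : u = 1 + v := by rw [hv]; ring
    unfold E
    rw [e1, mul_pow, mul_pow, e2, e3]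
    conv_lhs => rw [show (1 + v * x + v ^ 2 * (1 - v + v ^ 2 * y) / 2 + v ^ 3 * (1 + v * z) / 6 - u)
      = (1 + v * x + v ^ 2 * (1 - v + v ^ 2 * y) / 2 + v ^ 3 * (1 + v * z) / 6 - (1 + v)) by
        rw [← e0]]
    rw [hx]
    ring
  obtain ⟨R, hR, e⟩ := key
  rw [e]
  exact mul_O hR h4

theorem E_zpow {u : K} (hu : U O u) (h1 : u - 1 ∈ I O π 1) (t : ℤ) :
    Cm O π 4 (u ^ t) (E (lg u * t)) := by
  have hl := lg_mem hπ hO h1
  have hE := E_lg hπ hO hu.1 h1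
  have key : ∀ m : ℕ, Cm O π 4 (u ^ m) (E (lg u * m)) := by
    intro m
    have h2 := (hE.symm.pow m).trans (E_pow hπ hO hl m)
    rwa [mul_comm] at h2
  rcases Int.eq_nat_or_neg t with ⟨m, rfl | rfl⟩
  · have := key m
    rw [zpow_natCast]
    exact_mod_cast this
  · have h2 := key m
    have hm : lg u * m ∈ I O π 1 := by rw [mul_comm]; exact mul_O (nat_O m) hl
    have h3 := E_mul hπ hO hm ((I O π 1).neg_mem hm)
    rw [add_neg_cancel] at h3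
    have e0 : E (0 : K) = 1 := by unfold E; ring
    rw [e0] at h3
    have hn : E (-(lg u * m)) ∈ O := E_mem hO (O.neg_mem (toO hπ hm))
    have h4 := (h2.mul (Cm.refl (π := π) (m := 4) hn)).trans h3
    have h5 := (Cm.refl (π := π) (m := 4) (hu.pow m).2.1).mul h4
    rw [← mul_assoc, inv_mul_cancel₀ (hu.pow m).2.2, one_mul, mul_one] at h5
    rw [zpow_neg, zpow_natCast]
    have e1 : lg u * ((-(m : ℤ) : ℤ) : K) = -(lg u * m) := by push_cast; ring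
    rw [e1]
    exact h5.symm

omit hπ hO

/-- The function `g` has a logarithmic expansion with coefficients `b₁, b₂, b₃`. -/
def LE (O : Subring K) (π ℓ : K) (g : ℤ → K) (b1 b2 b3 : K) : Prop :=
  b1 ∈ O ∧ b2 ∈ O ∧ b3 ∈ O ∧ g 0 ∈ O ∧
    ∀ t : ℤ, Cm O π 4 (g t) (g 0 * E (b1 * (ℓ * t) + b2 * (ℓ * t) ^ 2 + b3 * (ℓ * t) ^ 3))

omit [CharZero K] in
theorem arg_mem (hπ : π ∈ O) {ℓ b1 b2 b3 : K} (hℓ : ℓ ∈ I O π 1) (h1 : b1 ∈ O) (h2 : b2 ∈ O)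
    (h3 : b3 ∈ O) (t : ℤ) : b1 * (ℓ * t) + b2 * (ℓ * t) ^ 2 + b3 * (ℓ * t) ^ 3 ∈ I O π 1 := by
  have hs : ℓ * t ∈ I O π 1 := by rw [mul_comm]; exact mul_O (int_O t) hℓ
  exact (I O π 1).add_mem ((I O π 1).add_mem (mul_O h1 hs)
    (mono hπ (show 1 ≤ 2 by omega) (mul_O h2 (pow_I hs 2))))
    (mono hπ (show 1 ≤ 3 by omega) (mul_O h3 (pow_I hs 3)))

theorem LE.const {c : K} (hc : c ∈ O) (ℓ : K) : LE O π ℓ (fun _ => c) 0 0 0 := by
  refine ⟨O.zero_mem, O.zero_mem, O.zero_mem, hc, fun t => ?_⟩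
  have e : E ((0 : K) * (ℓ * t) + 0 * (ℓ * t) ^ 2 + 0 * (ℓ * t) ^ 3) = 1 := by unfold E; ring
  rw [e, mul_one]
  exact Cm.refl hc

include hπ hO

theorem LE.mul {ℓ : K} (hℓ : ℓ ∈ I O π 1) {g g' : ℤ → K} {b1 b2 b3 c1 c2 c3 : K}
    (h : LE O π ℓ g b1 b2 b3) (h' : LE O π ℓ g' c1 c2 c3) :
    LE O π ℓ (fun t => g t * g' t) (b1 + c1) (b2 + c2) (b3 + c3) := by
  obtain ⟨o1, o2, o3, o0, h⟩ := h
  obtain ⟨o1', o2', o3', o0', h'⟩ := h'
  refine ⟨O.add_mem o1 o1', O.add_mem o2 o2', O.add_mem o3 o3', O.mul_mem o0 o0', fun t => ?_⟩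
  have k1 := (h t).mul (h' t)
  have k2 := E_mul hπ hO (arg_mem hπ hℓ o1 o2 o3 t) (arg_mem hπ hℓ o1' o2' o3' t)
  have k3 := (Cm.refl (π := π) (m := 4) (O.mul_mem o0 o0')).mul k2
  have e1 : g 0 * E (b1 * (ℓ * t) + b2 * (ℓ * t) ^ 2 + b3 * (ℓ * t) ^ 3) *
      (g' 0 * E (c1 * (ℓ * t) + c2 * (ℓ * t) ^ 2 + c3 * (ℓ * t) ^ 3)) =
      g 0 * g' 0 * (E (b1 * (ℓ * t) + b2 * (ℓ * t) ^ 2 + b3 * (ℓ * t) ^ 3) *
        E (c1 * (ℓ * t) + c2 * (ℓ * t) ^ 2 + c3 * (ℓ * t) ^ 3)) := by ring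
  have e2 : (b1 + c1) * (ℓ * t) + (b2 + c2) * (ℓ * t) ^ 2 + (b3 + c3) * (ℓ * t) ^ 3 =
      b1 * (ℓ * t) + b2 * (ℓ * t) ^ 2 + b3 * (ℓ * t) ^ 3 +
      (c1 * (ℓ * t) + c2 * (ℓ * t) ^ 2 + c3 * (ℓ * t) ^ 3) := by ring
  rw [e1] at k1
  rw [e2]
  exact k1.trans k3

theorem LE.inv {ℓ : K} (hℓ : ℓ ∈ I O π 1) {g : ℤ → K} {b1 b2 b3 : K}
    (h : LE O π ℓ g b1 b2 b3) (hu : ∀ t, U O (g t)) :
    LE O π ℓ (fun t => (g t)⁻¹) (-b1) (-b2) (-b3) := by
  obtain ⟨o1, o2, o3, o0, h⟩ := h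
  refine ⟨O.neg_mem o1, O.neg_mem o2, O.neg_mem o3, (hu 0).2.1, fun t => ?_⟩
  have ha := arg_mem hπ hℓ o1 o2 o3 t
  set A := b1 * (ℓ * t) + b2 * (ℓ * t) ^ 2 + b3 * (ℓ * t) ^ 3 with hA
  have e2 : -b1 * (ℓ * t) + -b2 * (ℓ * t) ^ 2 + -b3 * (ℓ * t) ^ 3 = -A := by rw [hA]; ring
  rw [e2]
  have hn : E (-A) ∈ O := E_mem hO (O.neg_mem (toO hπ ha))
  have k1 := E_mul hπ hO ha ((I O π 1).neg_mem ha)
  rw [add_neg_cancel] at k1
  have e0 : E (0 : K) = 1 := by unfold E; ring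
  rw [e0] at k1
  have k2 := (h t).mul (Cm.refl (π := π) (m := 4) hn)
  rw [mul_assoc] at k2
  have k3 := (Cm.refl (π := π) (m := 4) o0).mul k1
  rw [mul_one] at k3
  have k4 := k2.trans k3
  have k5 := (Cm.refl (π := π) (m := 4) (O.mul_mem (hu t).2.1 (hu 0).2.1)).mul k4
  have n1 := (hu t).2.2
  have n0 := (hu 0).2.2
  have e5 : (g t)⁻¹ * (g 0)⁻¹ * (g t * E (-A)) = (g 0)⁻¹ * E (-A) := by field_simp
  have e6 : (g t)⁻¹ * (g 0)⁻¹ * g 0 = (g t)⁻¹ := by field_simp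
  rw [e5, e6] at k5
  exact k5.symm

theorem LE.prod {ℓ : K} (hℓ : ℓ ∈ I O π 1) {f : ℕ → ℤ → K} {b1 b2 b3 : ℕ → K} {m : ℕ}
    (h : ∀ i < m, LE O π ℓ (f i) (b1 i) (b2 i) (b3 i)) :
    LE O π ℓ (fun t => ∏ i ∈ range m, f i t) (∑ i ∈ range m, b1 i) (∑ i ∈ range m, b2 i)
      (∑ i ∈ range m, b3 i) := by
  induction m with
  | zero =>
    simp only [prod_range_zero, sum_range_zero]
    exact LE.const O.one_mem ℓ
  | succ m ih =>
    simp only [prod_range_succ, sum_range_succ]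
    exact LE.mul hπ hO hℓ (ih fun i hi => h i (by omega)) (h m (by omega))

omit hπ hO in
theorem LE.neg {ℓ : K} {g : ℤ → K} {b1 b2 b3 : K} (h : LE O π ℓ g b1 b2 b3) :
    LE O π ℓ (fun t => g (-t)) (-b1) b2 (-b3) := by
  obtain ⟨o1, o2, o3, o0, h⟩ := h
  refine ⟨O.neg_mem o1, o2, O.neg_mem o3, by beta_reduce; rw [neg_zero]; exact o0, fun t => ?_⟩
  have := h (-t)
  beta_reduce
  rw [neg_zero]
  convert this using 3
  push_cast
  ring

/-- the coefficients of the expansion of `1 - c u ^ t` -/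
def a1 (c : K) : K := -c / (1 - c)
def a2 (c : K) : K := -c / (2 * (1 - c) ^ 2)
def a3 (c : K) : K := -(c * (1 + c)) / (6 * (1 - c) ^ 3)

theorem LE.base {u : K} (hu : U O u) (h1 : u - 1 ∈ I O π 1) {c : K} (hc : c ∈ O)
    (hc1 : U O (1 - c)) : LE O π (lg u) (fun t => 1 - c * u ^ t) (a1 c) (a2 c) (a3 c) := by
  have hl := lg_mem hπ hO h1
  have n0 := hc1.2.2
  have s2 := half_O hO
  have s6 := sixth_O hO
  have o1 : a1 c ∈ O := by
    unfold a1; rw [div_eq_mul_inv]; exact O.mul_mem (O.neg_mem hc) hc1.2.1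
  have o2 : a2 c ∈ O := by
    have e : a2 c = (1 / 2) * (-c * ((1 - c) ^ 2)⁻¹) := by unfold a2; field_simp
    rw [e]; exact O.mul_mem s2 (O.mul_mem (O.neg_mem hc) (hc1.pow 2).2.1)
  have o3 : a3 c ∈ O := by
    have e : a3 c = (1 / 6) * (-(c * (1 + c)) * ((1 - c) ^ 3)⁻¹) := by unfold a3; field_simp
    rw [e]; exact O.mul_mem s6 (O.mul_mem (O.neg_mem (O.mul_mem hc (O.add_mem O.one_mem hc)))
      (hc1.pow 3).2.1)
  refine ⟨o1, o2, o3, by simpa using hc1.1, fun t => ?_⟩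
  beta_reduce
  rw [zpow_zero, mul_one]
  have hz := E_zpow hπ hO hu h1 t
  set s := lg u * t with hs
  have hsI : s ∈ I O π 1 := by rw [hs, mul_comm]; exact mul_O (int_O t) hl
  have hsO := toO hπ hsI
  refine ⟨O.sub_mem O.one_mem (O.mul_mem hc hz.1), O.mul_mem hc1.1 (E_mem hO (toO hπ
    (arg_mem hπ hl o1 o2 o3 t))), ?_⟩
  have k1 := mul_O (O.neg_mem hc) hz.2.2
  have s4 : s ^ 4 ∈ I O π 4 := pow_I hsI 4
  set x := a1 c with hx
  set y := a2 c with hy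
  set z := a3 c with hzz
  set R := (y ^ 2 + 2 * x * z + x ^ 2 * y) * (1 / 2) + (y * z + (x * y ^ 2 + x ^ 2 * z) * (1 / 2)) * s +
    (z ^ 2 * (1 / 2) + (y ^ 3 + 6 * x * y * z) * (1 / 6)) * s ^ 2 +
    ((y ^ 2 * z + x * z ^ 2) * (1 / 2)) * s ^ 3 + (y * z ^ 2 * (1 / 2)) * s ^ 4 +
    (z ^ 3 * (1 / 6)) * s ^ 5 with hR
  have e1 : E (x * s + y * s ^ 2 + z * s ^ 3) = 1 + x * s + (y + x ^ 2 / 2) * s ^ 2 +
      (z + x * y + x ^ 3 / 6) * s ^ 3 + s ^ 4 * R := by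
    rw [hR]; unfold E; ring
  have hRO : R ∈ O := by
    have n2 : (2 : K) ∈ O := by exact_mod_cast nat_O (O := O) 2
    have n6 : (6 : K) ∈ O := by exact_mod_cast nat_O (O := O) 6
    rw [hR]
    refine O.add_mem (O.add_mem (O.add_mem (O.add_mem (O.add_mem ?_ ?_) ?_) ?_) ?_) ?_
    · exact O.mul_mem (O.add_mem (O.add_mem (O.pow_mem o2 2) (O.mul_mem (O.mul_mem n2 o1) o3))
        (O.mul_mem (O.pow_mem o1 2) o2)) s2
    · exact O.mul_mem (O.add_mem (O.mul_mem o2 o3) (O.mul_mem (O.add_mem (O.mul_mem o1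
        (O.pow_mem o2 2)) (O.mul_mem (O.pow_mem o1 2) o3)) s2)) hsO
    · exact O.mul_mem (O.add_mem (O.mul_mem (O.pow_mem o3 2) s2) (O.mul_mem (O.add_mem
        (O.pow_mem o2 3) (O.mul_mem (O.mul_mem (O.mul_mem n6 o1) o2) o3)) s6)) (O.pow_mem hsO 2)
    · exact O.mul_mem (O.mul_mem (O.add_mem (O.mul_mem (O.pow_mem o2 2) o3) (O.mul_mem o1
        (O.pow_mem o3 2))) s2) (O.pow_mem hsO 3)
    · exact O.mul_mem (O.mul_mem (O.mul_mem o2 (O.pow_mem o3 2)) s2) (O.pow_mem hsO 4)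
    · exact O.mul_mem (O.mul_mem (O.pow_mem o3 3) s6) (O.pow_mem hsO 5)
  have k2 := mul_O (O.neg_mem (O.mul_mem hc1.1 hRO)) s4
  have k3 := (I O π 4).add_mem k1 k2
  convert k3 using 1
  rw [e1]
  have r1 : (1 - c) * x = -c := by rw [hx]; unfold a1; field_simp
  have r2 : (1 - c) * (y + x ^ 2 / 2) = -c / 2 := by
    rw [hx, hy]; unfold a1 a2; field_simp; ring
  have r3 : (1 - c) * (z + x * y + x ^ 3 / 6) = -c / 6 := by
    rw [hx, hy, hzz]; unfold a1 a2 a3; field_simp; ring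
  unfold E
  linear_combination (-s) * r1 - s ^ 2 * r2 - s ^ 3 * r3

end Q278.Ex
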