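import Pool.Agent.Q278.VKM
import Pool.Agent.Q278.Ex

set_option autoImplicit false

/-! Very-well-poised sums modulo third and fourth powers: the expansion argument. -/

namespace Q278.DD

open Finset Q278.Loc Q278.Unit Q278.Ex Q278.VKM

variable {K : Type*} [Field K] [CharZero K] {O : Subring K} {π : K}
  (hπ : π ∈ O) (hO : ∀ m : ℕ, 0 < m → ((m : K))⁻¹ ∈ O)
  (hloc : ∀ x y : K, U O x → x - y ∈ I O π 1 → U O y)
  {a Q V : K} (ha : a ∈ O) (hQ : U O Q) (hV : U O V) (hV1 : V - 1 ∈ I O π 1)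

/-- the coefficients of the expansion of the products -/
def B1 (a Q : K) (k : ℕ) : K := ∑ l ∈ range k, (a1 (a * Q ^ l) + a1 (Q ^ (l + 1)))
def B2 (a Q : K) (k : ℕ) : K := ∑ l ∈ range k, (a2 (a * Q ^ l) - a2 (Q ^ (l + 1)))
def B3 (a Q : K) (k : ℕ) : K := ∑ l ∈ range k, (a3 (a * Q ^ l) + a3 (Q ^ (l + 1)))

include hπ hO hloc ha hQ hV hV1

theorem LE_gk {k : ℕ} (hk1 : ∀ l < k, U O (1 - a * Q ^ l)) (hk2 : ∀ l < k, U O (1 - Q ^ (l + 1))) :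
    LE O π (lg V) (gk a Q V k) (B1 a Q k) (B2 a Q k) (B3 a Q k) := by
  have hℓ := lg_mem hπ hO hV1
  unfold gk B1 B2 B3
  refine LE.prod hπ hO hℓ fun l hl => ?_
  have hQl : Q ^ (l + 1) ∈ O := O.pow_mem hQ.1 _
  have h1 := LE.base hπ hO hV hV1 (c := a * Q ^ l) (O.mul_mem ha (O.pow_mem hQ.1 l)) (hk1 l hl)
  have h2 := (LE.base hπ hO hV hV1 (c := Q ^ (l + 1)) hQl (hk2 l hl)).neg
  have hu : ∀ t : ℤ, U O (1 - Q ^ (l + 1) * V ^ (-t)) := by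
    intro t
    apply hloc _ _ (hk2 l hl)
    have hE := E_zpow hπ hO hV hV1 (-t)
    have h3 : V ^ (-t) - 1 ∈ I O π 1 := by
      have h4 : lg V * ((-t : ℤ) : K) ∈ I O π 1 := by rw [mul_comm]; exact mul_O (int_O _) hℓ
      set A := lg V * ((-t : ℤ) : K) with hA
      have oA := toO hπ h4
      have h5 : E A - 1 ∈ I O π 1 := by
        have k : 1 + (1 / 2) * A + (1 / 6) * A ^ 2 ∈ O :=
          O.add_mem (O.add_mem O.one_mem (O.mul_mem (half_O hO) oA))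
            (O.mul_mem (sixth_O hO) (O.pow_mem oA 2))
        have := mul_O k h4
        convert this using 1
        unfold E; ring
      have h6 := (I O π 1).add_mem (mono hπ (show 1 ≤ 4 by omega) hE.2.2) h5
      convert h6 using 1
      ring
    have h7 := mul_O hQl h3
    convert h7 using 1
    ring
  have h3 := LE.inv hπ hO hℓ h2 hu
  have h4 := LE.mul hπ hO hℓ h1 h3
  simp only [neg_neg] at h4
  have e : (fun t : ℤ => (1 - a * Q ^ l * V ^ t) / (1 - Q ^ (l + 1) * V ^ (-t))) =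
      fun t : ℤ => (1 - a * Q ^ l * V ^ t) * (1 - Q ^ (l + 1) * V ^ (-t))⁻¹ := by
    funext t; rw [div_eq_mul_inv]
  rw [e, sub_eq_add_neg (a2 (a * Q ^ l))]
  exact h4

/-- the product of the factors at a point with vanishing first power sum -/
theorem prod_expand {k : ℕ} (hk1 : ∀ l < k, U O (1 - a * Q ^ l))
    (hk2 : ∀ l < k, U O (1 - Q ^ (l + 1))) {t1 t2 s τ : ℤ} {r : ℕ} (hp : t1 + t2 + r * τ = 0) :
    Cm O π 4 (gk a Q V k t1 * gk a Q V k t2 * (gk a Q V k s * gk a Q V k (τ - s)) ^ r)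
      (gk a Q V k 0 ^ (2 * r + 2) * (1 +
        B2 a Q k * (lg V ^ 2 * (((t1 ^ 2 + t2 ^ 2 + r * (s ^ 2 + (τ - s) ^ 2) : ℤ)) : K)) +
        B3 a Q k * (lg V ^ 3 * (((t1 ^ 3 + t2 ^ 3 + r * (s ^ 3 + (τ - s) ^ 3) : ℤ)) : K)))) := by
  obtain ⟨o1, o2, o3, o0, h⟩ := LE_gk hπ hO hloc ha hQ hV hV1 hk1 hk2
  have hℓ := lg_mem hπ hO hV1
  set ℓ := lg V with hℓd
  set b1 := B1 a Q k
  set b2 := B2 a Q k
  set b3 := B3 a Q k
  set g0 := gk a Q V k 0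
  have A : ∀ t : ℤ, b1 * (ℓ * t) + b2 * (ℓ * t) ^ 2 + b3 * (ℓ * t) ^ 3 ∈ I O π 1 :=
    fun t => arg_mem hπ hℓ o1 o2 o3 t
  set F : ℤ → K := fun t => b1 * (ℓ * t) + b2 * (ℓ * t) ^ 2 + b3 * (ℓ * t) ^ 3 with hF
  have hFm : ∀ t, F t ∈ I O π 1 := A
  have h' : ∀ t, Cm O π 4 (gk a Q V k t) (g0 * E (F t)) := h
  have k1 := (h' t1).mul (h' t2)
  have k2 := ((h' s).mul (h' (τ - s))).pow r
  have k3 := k1.mul k2
  have m1 := E_mul hπ hO (hFm t1) (hFm t2)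
  have m2 := ((E_mul hπ hO (hFm s) (hFm (τ - s))).pow r).trans
    (E_pow hπ hO ((I O π 1).add_mem (hFm s) (hFm (τ - s))) r)
  have m3 := (m1.mul m2).trans (E_mul hπ hO ((I O π 1).add_mem (hFm t1) (hFm t2))
    (mul_O (nat_O r) ((I O π 1).add_mem (hFm s) (hFm (τ - s)))))
  have m4 := (Cm.refl (π := π) (m := 4) (O.pow_mem o0 (2 * r + 2))).mul m3
  have e1 : g0 * E (F t1) * (g0 * E (F t2)) * (g0 * E (F s) * (g0 * E (F (τ - s)))) ^ r =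
      g0 ^ (2 * r + 2) * (E (F t1) * E (F t2) * (E (F s) * E (F (τ - s))) ^ r) := by
    rw [mul_pow, mul_pow, mul_pow, mul_pow, pow_add, pow_mul']
    ring
  rw [e1] at k3
  have k4 := k3.trans m4
  refine k4.trans ((Cm.refl (π := π) (m := 4) (O.pow_mem o0 (2 * r + 2))).mul ?_)
  set p2 : K := (((t1 ^ 2 + t2 ^ 2 + r * (s ^ 2 + (τ - s) ^ 2) : ℤ)) : K) with hp2
  set p3 : K := (((t1 ^ 3 + t2 ^ 3 + r * (s ^ 3 + (τ - s) ^ 3) : ℤ)) : K) with hp3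
  have hpK : (t1 : K) + t2 + r * τ = 0 := by exact_mod_cast congrArg (Int.cast : ℤ → K) hp
  have e2 : F t1 + F t2 + r * (F s + F (τ - s)) = b2 * (ℓ ^ 2 * p2) + b3 * (ℓ ^ 3 * p3) := by
    rw [hF, hp2, hp3]
    push_cast
    linear_combination (b1 * ℓ) * hpK
  rw [e2]
  have q2 : b2 * (ℓ ^ 2 * p2) ∈ I O π 2 := by
    refine mul_O o2 ?_
    rw [mul_comm]; exact mul_O (int_O _) (pow_I hℓ 2)
  have q3 : b3 * (ℓ ^ 3 * p3) ∈ I O π 3 := by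
    refine mul_O o3 ?_
    rw [mul_comm]; exact mul_O (int_O _) (pow_I hℓ 3)
  set C := b2 * (ℓ ^ 2 * p2) + b3 * (ℓ ^ 3 * p3) with hC
  have hC2 : C ∈ I O π 2 := (I O π 2).add_mem q2 (mono hπ (by omega) q3)
  have oC := toO hπ hC2
  have e3 : 1 + b2 * (ℓ ^ 2 * p2) + b3 * (ℓ ^ 3 * p3) = 1 + C := by rw [hC]; ring
  rw [e3]
  refine ⟨E_mem hO oC, O.add_mem O.one_mem oC, ?_⟩
  have h4 : C * C ∈ I O π 4 := mul_I hC2 hC2
  have h5 : (1 / 2) + (1 / 6) * C ∈ O := O.add_mem (half_O hO) (O.mul_mem (sixth_O hO) oC)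
  have h6 := mul_O h5 h4
  convert h6 using 1
  unfold E
  ring

/-- the coefficients of the sum -/
def X (a Q V : K) (r Z k : ℕ) : K := (1 - a * Q ^ (2 * k)) * (Q ^ Z) ^ k * gk a Q V k 0 ^ (2 * r + 3)

omit [CharZero K] hπ hO hloc ha hQ hV hV1 in
theorem gk_zero (k : ℕ) : gk a Q V k 0 = ∏ l ∈ range k, ((1 - a * Q ^ l) / (1 - Q ^ (l + 1))) := by
  unfold gk
  apply prod_congr rfl
  intro l _
  rw [neg_zero, zpow_zero, mul_one, mul_one]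

/-- the relation given by a vanishing sum -/
theorem relation {N L i r Z : ℕ} {t1 t2 s τ : ℤ}
    (hk1 : ∀ l < N, U O (1 - a * Q ^ l)) (hk2 : ∀ l < N, U O (1 - Q ^ (l + 1)))
    (h1 : ∀ i : ℕ, 0 < i → 1 - Q ^ i ≠ 0)
    (n1 : ∀ l : ℕ, 1 - Q ^ (l + 1) * V ^ (-t1) ≠ 0) (n2 : ∀ l : ℕ, 1 - Q ^ (l + 1) * V ^ (-t2) ≠ 0)
    (n3 : ∀ l : ℕ, 1 - Q ^ (l + 1) * V ^ (-s) ≠ 0)
    (n4 : ∀ l : ℕ, 1 - Q ^ (l + 1) * V ^ (-(τ - s)) ≠ 0)
    (e1 : a * V ^ t1 * Q ^ N = 1) (e2 : a * V ^ τ = Q ^ (L + 1))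
    (e3 : a * (V ^ t2) ^ 2 = Q ^ (2 * i + 1)) (hN : N = r * L + i + Z) (hZ : 0 < Z)
    (hp : t1 + t2 + r * τ = 0) :
    ∑ k ∈ range (N + 1), X a Q V r Z k +
      lg V ^ 2 * (((t1 ^ 2 + t2 ^ 2 + r * (s ^ 2 + (τ - s) ^ 2) : ℤ)) : K) *
        ∑ k ∈ range (N + 1), X a Q V r Z k * B2 a Q k +
      lg V ^ 3 * (((t1 ^ 3 + t2 ^ 3 + r * (s ^ 3 + (τ - s) ^ 3) : ℤ)) : K) *
        ∑ k ∈ range (N + 1), X a Q V r Z k * B3 a Q k ∈ I O π 4 := by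
  have h0 := zero hQ.2.2 hV.2.2 h1 n1 n2 n3 n4 e1 e2 e3 hN hZ
  have hk : ∀ k ∈ range (N + 1), Cm O π 4 ((1 - a * Q ^ (2 * k)) *
      (∏ l ∈ range k, ((1 - a * Q ^ l) / (1 - Q ^ (l + 1)))) * (Q ^ Z) ^ k *
      (gk a Q V k t1 * gk a Q V k t2 * (gk a Q V k s * gk a Q V k (τ - s)) ^ r))
      (X a Q V r Z k * (1 +
        B2 a Q k * (lg V ^ 2 * (((t1 ^ 2 + t2 ^ 2 + r * (s ^ 2 + (τ - s) ^ 2) : ℤ)) : K)) +
        B3 a Q k * (lg V ^ 3 * (((t1 ^ 3 + t2 ^ 3 + r * (s ^ 3 + (τ - s) ^ 3) : ℤ)) : K)))) := by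
    intro k hk
    have hk' := mem_range.1 hk
    have u1 : ∀ l < k, U O (1 - a * Q ^ l) := fun l hl => hk1 l (by omega)
    have u2 : ∀ l < k, U O (1 - Q ^ (l + 1)) := fun l hl => hk2 l (by omega)
    have c1 := prod_expand hπ hO hloc ha hQ hV hV1 u1 u2 (s := s) hp
    rw [← gk_zero (V := V)]
    have o0 : gk a Q V k 0 ∈ O := (LE_gk hπ hO hloc ha hQ hV hV1 u1 u2).2.2.2.1
    have c2 := (Cm.refl (π := π) (m := 4) (O.mul_mem (O.mul_mem (O.sub_mem O.one_mem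
      (O.mul_mem ha (O.pow_mem hQ.1 (2 * k)))) o0) (O.pow_mem (O.pow_mem hQ.1 Z) k))).mul c1
    convert c2 using 1
    unfold X
    ring
  have h2 := (Cm.sum hk).2.2
  rw [h0, zero_sub] at h2
  have h3 := (I O π 4).neg_mem h2
  rw [neg_neg] at h3
  convert h3 using 1
  rw [mul_sum, mul_sum, ← sum_add_distrib, ← sum_add_distrib]
  apply sum_congr rfl
  intro k _
  ring

end Q278.DD
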