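import Pool.Agent.Q278.DD
import Pool.Agent.Q278.CycCong
import Pool.Agent.Q278.BlkCyc
import Pool.Agent.Q278.Anti

set_option autoImplicit false

/-! Very-well-poised sums modulo third and fourth powers of `Φ_n(q)`. -/

namespace Q278.DD

open Finset Q278.Loc Q278.Unit Q278.Ex Q278.VKM

section two

variable {K : Type*} [Field K] [CharZero K] {O : Subring K} {π : K}

omit [CharZero K] in
theorem int_inv (hO : ∀ m : ℕ, 0 < m → ((m : K))⁻¹ ∈ O) {D : ℤ} (hD : D ≠ 0) :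
    ((D : K))⁻¹ ∈ O := by
  rcases Int.eq_nat_or_neg D with ⟨m, rfl | rfl⟩
  · have h1 := hO m (by omega)
    rw [Int.cast_natCast]; exact h1
  · have h1 := hO m (by omega)
    rw [Int.cast_neg, Int.cast_natCast, inv_neg]; exact O.neg_mem h1

/-- The conclusion of two relations. -/
theorem two_rel (hπ : π ∈ O) (hO : ∀ m : ℕ, 0 < m → ((m : K))⁻¹ ∈ O) {ℓ C0 C2 C3 : K}
    (hℓ : ℓ ∈ I O π 1) (_h2 : C2 ∈ O) (h3 : C3 ∈ O) {P P' R R' : ℤ} (hP : P ≠ P')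
    (r1 : C0 + ℓ ^ 2 * (P : K) * C2 + ℓ ^ 3 * (R : K) * C3 ∈ I O π 4)
    (r2 : C0 + ℓ ^ 2 * (P' : K) * C2 + ℓ ^ 3 * (R' : K) * C3 ∈ I O π 4) :
    C0 ∈ I O π 3 ∧ (C3 ∈ I O π 1 → C0 ∈ I O π 4) := by
  have hD : P - P' ≠ 0 := sub_ne_zero.2 hP
  have hDK : ((P - P' : ℤ) : K) ≠ 0 := by exact_mod_cast hD
  have hinv := int_inv hO hD
  have hd := (I O π 4).sub_mem r1 r2
  have gen : ∀ j ≤ 4, ℓ ^ 3 * C3 ∈ I O π j → C0 ∈ I O π j := by
    intro j hj h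
    have k1 : ℓ ^ 2 * C2 ∈ I O π j := by
      have m1 := mono hπ hj hd
      have m2 := mul_O (int_O (O := O) (R - R')) h
      have m3 := mul_O hinv ((I O π j).sub_mem m1 m2)
      convert m3 using 1
      push_cast at hDK ⊢
      field_simp
      ring
    have m1 := mono hπ hj r1
    have m2 := mul_O (int_O (O := O) P) k1
    have m3 := mul_O (int_O (O := O) R) h
    have m4 := (I O π j).sub_mem ((I O π j).sub_mem m1 m2) m3
    convert m4 using 1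
    ring
  refine ⟨gen 3 (by omega) ?_, fun h => gen 4 le_rfl ?_⟩
  · rw [mul_comm]; exact mul_O h3 (pow_I hℓ 3)
  · exact mul_I (a := 3) (b := 1) (pow_I hℓ 3) h

end two

section cyc

open Q278.Cyc Q278.Blk

variable {n : ℕ} {η : ℂ}

theorem zq_mem (hη0 : η ≠ 0) (z : ℤ) : (q : RatFunc ℚ) ^ z ∈ Reg η := by
  rcases Int.eq_nat_or_neg z with ⟨m, rfl | rfl⟩
  · rw [zpow_natCast]; exact q_pow_mem η m
  · rw [zpow_neg, zpow_natCast, ← inv_pow]; exact qi_mem hη0 m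

theorem ev_zq (hη0 : η ≠ 0) (z : ℤ) : ev η ((q : RatFunc ℚ) ^ z) = η ^ z := by
  rcases Int.eq_nat_or_neg z with ⟨m, rfl | rfl⟩
  · rw [zpow_natCast, zpow_natCast]; exact ev_q_pow η m
  · rw [zpow_neg, zpow_natCast, zpow_neg, zpow_natCast, ← inv_pow, ← inv_pow]; exact ev_qi hη0 m

theorem zq_ne_one {z : ℤ} (hz : z ≠ 0) : (q : RatFunc ℚ) ^ z ≠ 1 := by
  rcases Int.eq_nat_or_neg z with ⟨m, rfl | rfl⟩
  · rw [zpow_natCast]
    intro h
    exact one_sub_q_ne (show 0 < m by omega) (by rw [h, sub_self])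
  · rw [zpow_neg, zpow_natCast]
    intro h
    have h1 := inv_eq_one.1 h
    exact one_sub_q_ne (show 0 < m by omega) (by rw [h1, sub_self])

theorem one_sub_zq_U (hη : IsPrimitiveRoot η n) (hη0 : η ≠ 0) {z : ℤ} (hz : ¬ (n : ℤ) ∣ z) :
    U (Reg η) (1 - (q : RatFunc ℚ) ^ z) := by
  apply U_of_ev ((Reg η).sub_mem (Reg η).one_mem (zq_mem hη0 z))
  rw [ev_sub (Reg η).one_mem (zq_mem hη0 z), ev_one, ev_zq hη0]
  intro h
  exact hz ((hη.zpow_eq_one_iff_dvd z).1 (sub_eq_zero.1 h).symm)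

theorem one_sub_zq_I (hn : 0 < n) (hη : IsPrimitiveRoot η n) (hη0 : η ≠ 0) {z : ℤ}
    (hz : (n : ℤ) ∣ z) : 1 - (q : RatFunc ℚ) ^ z ∈ I (Reg η) (Φ n) 1 := by
  apply mem_I_one hn hη ((Reg η).sub_mem (Reg η).one_mem (zq_mem hη0 z))
  rw [ev_sub (Reg η).one_mem (zq_mem hη0 z), ev_one, ev_zq hη0, (hη.zpow_eq_one_iff_dvd z).2 hz,
    sub_self]

theorem hO_cyc (m : ℕ) (hm : 0 < m) : ((m : RatFunc ℚ))⁻¹ ∈ Reg η := by
  apply inv_mem (nat_O m)
  rw [ev_nat]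
  exact_mod_cast hm.ne'

theorem hloc_cyc (hn : 0 < n) (hη : IsPrimitiveRoot η n) (x y : RatFunc ℚ) (hx : U (Reg η) x)
    (hxy : x - y ∈ I (Reg η) (Φ n) 1) : U (Reg η) y := by
  have hy : y ∈ Reg η := by
    have := (Reg η).sub_mem hx.1 (toO (Φ_mem n η) hxy)
    simpa using this
  apply U_of_ev hy
  have h1 := ev_of_mem hn hη hxy
  rw [ev_sub hx.1 hy] at h1
  rw [← sub_eq_zero.1 h1]
  exact ev_of_U hx

/-- The data of the shifts. -/
structure Data (n d N r Z : ℕ) (e ρ : ℤ) : Prop where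
  he : e = 1 ∨ e = -1
  hn : 1 < n
  hr : 1 ≤ r
  hd : d = 2 * r + 3
  hN : N < n
  hZ : 2 * (Z : ℤ) = d - 2 - e
  hρ : 1 ≤ ρ ∧ ρ < d
  h1 : e + n * (ρ - d) + d * N = 0

variable {d N r Z : ℕ} {e ρ : ℤ}

theorem Data.cop (D : Data n d N r Z e ρ) : IsCoprime (n : ℤ) d := by
  rcases D.he with h | h
  · refine ⟨-(ρ - d), -N, ?_⟩
    have := D.h1
    rw [h] at this
    linear_combination -this
  · refine ⟨(ρ - d), N, ?_⟩
    have := D.h1
    rw [h] at this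
    linear_combination this

theorem Data.ndvd (D : Data n d N r Z e ρ) {l : ℕ} (hl : l < N) : ¬ (n : ℤ) ∣ e + d * l := by
  intro h
  have h1 : (n : ℤ) ∣ d * ((N - l : ℕ) : ℤ) := by
    have h2 : (n : ℤ) ∣ n * (ρ - d) := dvd_mul_right _ _
    have h3 := h2.add h
    have e1 : (n : ℤ) * (ρ - d) + (e + d * l) = -(d * ((N - l : ℕ) : ℤ)) := by
      have := D.h1
      rw [Nat.cast_sub hl.le]
      linear_combination this
    rw [e1] at h3
    exact (dvd_neg).1 h3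
  have h2 := D.cop.dvd_of_dvd_mul_left h1
  have h3 := Int.le_of_dvd (by have : 0 < N - l := by omega
                               exact_mod_cast this) h2
  have h4 := D.hN
  have : N - l < n := by omega
  have h5 : ((N - l : ℕ) : ℤ) < n := by exact_mod_cast this
  omega

theorem Data.ndvd' (D : Data n d N r Z e ρ) {l : ℕ} (hl : l + 1 < n) :
    ¬ (n : ℤ) ∣ d * (l + 1) := by
  intro h
  have h2 := D.cop.dvd_of_dvd_mul_left h
  have h3 := Int.le_of_dvd (by positivity) h2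
  omega

theorem Data.nz (D : Data n d N r Z e ρ) {t : ℤ} (ht : t ≤ 0 ∨ ¬ (d : ℤ) ∣ t) (l : ℕ) :
    1 - ((q : RatFunc ℚ) ^ d) ^ (l + 1) * (q ^ n) ^ (-t) ≠ 0 := by
  have e1 : ((q : RatFunc ℚ) ^ d) ^ (l + 1) * (q ^ n) ^ (-t) = q ^ ((d : ℤ) * (l + 1) - n * t) := by
    rw [← pow_mul, ← zpow_natCast q (d * (l + 1)), ← zpow_natCast q n, ← zpow_mul,
      ← zpow_add₀ q_ne]
    congr 1
    push_cast; ring
  rw [e1]
  intro h
  refine zq_ne_one ?_ (sub_eq_zero.1 h).symm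
  intro h0
  have hd := D.hd
  have hd0 : (0 : ℤ) < d := by exact_mod_cast (show 0 < d by omega)
  have hn := D.hn
  rcases ht with ht | ht
  · have : (0 : ℤ) < d * (l + 1) := by positivity
    nlinarith [mul_nonneg (show (0 : ℤ) ≤ n by positivity) (show (0 : ℤ) ≤ -t by omega)]
  · apply ht
    have h1 : (d : ℤ) ∣ n * t := ⟨l + 1, by linear_combination -h0⟩
    exact D.cop.symm.dvd_of_dvd_mul_left h1

/-- The sum over the range `k ≤ N`. -/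
theorem core (D : Data n d N r Z e ρ) (hη : IsPrimitiveRoot η n) {L i : ℕ} {t2 s s' : ℤ}
    (e2 : e + n * ρ = d * (L + 1)) (e3 : e + 2 * n * t2 = d * (2 * i + 1))
    (hN : N = r * L + i + Z) (ht2 : ¬ (d : ℤ) ∣ t2) (hs : s ≤ 0 ∨ ¬ (d : ℤ) ∣ s)
    (hs1 : ρ - s ≤ 0 ∨ ¬ (d : ℤ) ∣ ρ - s) (hs' : s' ≤ 0 ∨ ¬ (d : ℤ) ∣ s')
    (hs1' : ρ - s' ≤ 0 ∨ ¬ (d : ℤ) ∣ ρ - s') (hp : (ρ - d) + t2 + r * ρ = 0)
    (hne : (ρ - d) ^ 2 + t2 ^ 2 + r * (s ^ 2 + (ρ - s) ^ 2) ≠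
      (ρ - d) ^ 2 + t2 ^ 2 + r * (s' ^ 2 + (ρ - s') ^ 2)) :
    ∑ k ∈ range (N + 1), X (q ^ e) (q ^ d) (q ^ n) r Z k ∈ I (Reg η) (Φ n) 3 ∧
    (∑ k ∈ range (N + 1), X (q ^ e) (q ^ d) (q ^ n) r Z k * B3 (q ^ e) (q ^ d) k ∈
      I (Reg η) (Φ n) 1 → ∑ k ∈ range (N + 1), X (q ^ e) (q ^ d) (q ^ n) r Z k ∈
      I (Reg η) (Φ n) 4) := by
  have hn0 : 0 < n := by have := D.hn; omega
  have hη0 : η ≠ 0 := hη.ne_zero (by omega)
  have hπ := Φ_mem n η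
  have hO := hO_cyc (η := η)
  have hloc := hloc_cyc hn0 hη
  have ha : (q : RatFunc ℚ) ^ e ∈ Reg η := zq_mem hη0 e
  have hQ : U (Reg η) ((q : RatFunc ℚ) ^ d) := U_of_ev (q_pow_mem η d) (ev_q_ne hη0 d)
  have hV : U (Reg η) ((q : RatFunc ℚ) ^ n) := U_of_ev (q_pow_mem η n) (ev_q_ne hη0 n)
  have hV1 : (q : RatFunc ℚ) ^ n - 1 ∈ I (Reg η) (Φ n) 1 := by
    rw [← neg_sub]
    apply (I (Reg η) (Φ n) 1).neg_mem
    have := one_sub_zq_I hn0 hη hη0 (dvd_refl (n : ℤ))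
    rwa [zpow_natCast] at this
  have hcomb : ∀ l : ℕ, (q : RatFunc ℚ) ^ e * (q ^ d) ^ l = q ^ (e + d * l) := by
    intro l
    rw [← pow_mul, ← zpow_natCast q (d * l), ← zpow_add₀ q_ne]
    congr 1
  have hk1 : ∀ l < N, U (Reg η) (1 - (q : RatFunc ℚ) ^ e * (q ^ d) ^ l) := by
    intro l hl
    rw [hcomb]
    exact one_sub_zq_U hη hη0 (D.ndvd hl)
  have hk2 : ∀ l < N, U (Reg η) (1 - ((q : RatFunc ℚ) ^ d) ^ (l + 1)) := by
    intro l hl
    rw [← pow_mul, ← zpow_natCast q (d * (l + 1))]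
    apply one_sub_zq_U hη hη0
    have := D.ndvd' (l := l) (by have := D.hN; omega)
    push_cast
    exact this
  have h1 : ∀ i : ℕ, 0 < i → 1 - ((q : RatFunc ℚ) ^ d) ^ i ≠ 0 := by
    intro i hi
    rw [← pow_mul]
    exact one_sub_q_ne (Nat.mul_pos (by have := D.hd; omega) hi)
  have hVz : ∀ t : ℤ, ((q : RatFunc ℚ) ^ n) ^ t = q ^ ((n : ℤ) * t) := by
    intro t; rw [← zpow_natCast q n, ← zpow_mul]
  have f1 : (q : RatFunc ℚ) ^ e * (q ^ n) ^ (ρ - d) * (q ^ d) ^ N = 1 := by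
    rw [hVz, ← pow_mul, ← zpow_natCast q (d * N), ← zpow_add₀ q_ne, ← zpow_add₀ q_ne]
    have : e + n * (ρ - d) + ((d * N : ℕ) : ℤ) = 0 := by push_cast; exact D.h1
    rw [this, zpow_zero]
  have f2 : (q : RatFunc ℚ) ^ e * (q ^ n) ^ ρ = (q ^ d) ^ (L + 1) := by
    have e2' : e + n * ρ = ((d * (L + 1) : ℕ) : ℤ) := by push_cast; exact e2
    rw [hVz, ← pow_mul, ← zpow_natCast q (d * (L + 1)), ← zpow_add₀ q_ne, e2']
  have f3 : (q : RatFunc ℚ) ^ e * ((q ^ n) ^ t2) ^ 2 = (q ^ d) ^ (2 * i + 1) := by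
    rw [hVz, ← pow_mul, ← zpow_natCast q (d * (2 * i + 1)), ← zpow_natCast (q ^ ((n : ℤ) * t2)) 2,
      ← zpow_mul, ← zpow_add₀ q_ne]
    congr 1
    push_cast
    linear_combination e3
  have hZ : 0 < Z := by
    have h := D.hZ
    have hd := D.hd
    have hr := D.hr
    rcases D.he with h' | h' <;> omega
  have nt1 := D.nz (t := ρ - d) (Or.inl (by have := D.hρ; omega))
  have nt2 := D.nz (Or.inr ht2)
  have r1 := relation hπ hO hloc ha hQ hV hV1 hk1 hk2 h1 nt1 nt2 (D.nz hs) (D.nz hs1) f1 f2 f3 hN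
    hZ hp
  have r2 := relation hπ hO hloc ha hQ hV hV1 hk1 hk2 h1 nt1 nt2 (D.nz hs') (D.nz hs1') f1 f2 f3 hN
    hZ hp
  have hL : ∀ k ∈ range (N + 1), LE (Reg η) (Φ n) (lg (q ^ n)) (gk (q ^ e) (q ^ d) (q ^ n) k)
      (B1 (q ^ e) (q ^ d) k) (B2 (q ^ e) (q ^ d) k) (B3 (q ^ e) (q ^ d) k) := by
    intro k hk
    have := mem_range.1 hk
    exact LE_gk hπ hO hloc ha hQ hV hV1 (fun l hl => hk1 l (by omega)) (fun l hl => hk2 l (by omega))
  have hX : ∀ k ∈ range (N + 1), X (q ^ e) (q ^ d) (q ^ n) r Z k ∈ Reg η := by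
    intro k hk
    unfold X
    exact (Reg η).mul_mem ((Reg η).mul_mem ((Reg η).sub_mem (Reg η).one_mem ((Reg η).mul_mem ha
      ((Reg η).pow_mem hQ.1 _))) ((Reg η).pow_mem ((Reg η).pow_mem hQ.1 _) _))
      ((Reg η).pow_mem (hL k hk).2.2.2.1 _)
  exact two_rel hπ hO (lg_mem hπ hO hV1) ((Reg η).sum_mem fun k hk => (Reg η).mul_mem (hX k hk)
    (hL k hk).2.1) ((Reg η).sum_mem fun k hk => (Reg η).mul_mem (hX k hk) (hL k hk).2.2.1) hne r1 r2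

/-- the remaining terms -/
theorem tail (D : Data n d N r Z e ρ) (hη : IsPrimitiveRoot η n) {k : ℕ} (hk : N < k) (hkn : k < n) :
    X (q ^ e) (q ^ d) (q ^ n) r Z k ∈ I (Reg η) (Φ n) 4 := by
  have hn0 : 0 < n := by have := D.hn; omega
  have hη0 : η ≠ 0 := hη.ne_zero (by omega)
  have hπ := Φ_mem n η
  have ha : (q : RatFunc ℚ) ^ e ∈ Reg η := zq_mem hη0 e
  have hcomb : ∀ l : ℕ, (q : RatFunc ℚ) ^ e * (q ^ d) ^ l = q ^ (e + d * l) := by
    intro l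
    rw [← pow_mul, ← zpow_natCast q (d * l), ← zpow_add₀ q_ne]
    congr 1
  have hg : gk (q ^ e) (q ^ d) (q ^ n) k 0 ∈ I (Reg η) (Φ n) 1 := by
    rw [gk_zero, ← Finset.mul_prod_erase (range k) _ (mem_range.2 hk), div_eq_mul_inv]
    have hu : ∀ l ∈ range k, (1 - ((q : RatFunc ℚ) ^ d) ^ (l + 1))⁻¹ ∈ Reg η := by
      intro l hl
      have hl' := mem_range.1 hl
      rw [← pow_mul, ← zpow_natCast q (d * (l + 1))]
      refine (one_sub_zq_U hη hη0 ?_).2.1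
      have := D.ndvd' (l := l) (by omega)
      push_cast
      exact this
    have h1 : 1 - (q : RatFunc ℚ) ^ e * (q ^ d) ^ N ∈ I (Reg η) (Φ n) 1 := by
      rw [hcomb]
      apply one_sub_zq_I hn0 hη hη0
      exact ⟨d - ρ, by linear_combination D.h1⟩
    rw [mul_assoc, mul_comm]
    refine mul_O ((Reg η).mul_mem (hu N (mem_range.2 hk)) ((Reg η).prod_mem fun l hl => ?_)) h1
    rw [div_eq_mul_inv]
    exact (Reg η).mul_mem ((Reg η).sub_mem (Reg η).one_mem ((Reg η).mul_mem ha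
      ((Reg η).pow_mem (q_pow_mem η d) l))) (hu l (mem_of_mem_erase hl))
  unfold X
  refine mul_O ((Reg η).mul_mem ((Reg η).sub_mem (Reg η).one_mem ((Reg η).mul_mem ha
      ((Reg η).pow_mem (q_pow_mem η d) _))) ((Reg η).pow_mem ((Reg η).pow_mem (q_pow_mem η d) _) _)) ?_
  exact mono hπ (by have := D.hr; omega) (pow_I hg (2 * r + 3))

end cyc

end Q278.DD
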