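import Pool.Agent.Q278.DD2

set_option autoImplicit false

/-! Very-well-poised sums modulo third and fourth powers of `Φ_n(q)`: conclusion. -/

namespace Q278.DD

open Finset Q278.Loc Q278.Unit Q278.Ex Q278.VKM

section field

variable {K : Type*} [Field K] [CharZero K]

theorem a3_inv {x y : K} (h : x * y = 1) (hx : 1 - x ≠ 0) : a3 y = -a3 x := by
  have hx0 : x ≠ 0 := left_ne_zero_of_mul_eq_one h
  have hy : y = x⁻¹ := eq_inv_of_mul_eq_one_right h
  have h1 : 1 - x⁻¹ ≠ 0 := by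
    intro h2
    apply hx
    have : x⁻¹ = 1 := (sub_eq_zero.1 h2).symm
    rw [inv_eq_one.1 this, sub_self]
  rw [hy]
  unfold a3
  have h2 : x - 1 ≠ 0 := by intro h3; apply hx; rw [← neg_sub, h3, neg_zero]
  have e : 1 - x⁻¹ = (x - 1) / x := by field_simp
  rw [e]
  field_simp
  ring

/-- the partial sums -/
def Sg (Q : K) (j : ℕ) : K := ∑ l ∈ range j, a3 (Q ^ (l + 1))

theorem B3_eq {a Q : K} {N k : ℕ} (ha : a * Q ^ N = 1) (hne : ∀ i, i < N → 1 - Q ^ (i + 1) ≠ 0)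
    (hk : k ≤ N) : B3 a Q k = Sg Q k + Sg Q (N - k) - Sg Q N := by
  unfold B3
  rw [sum_add_distrib]
  have key : ∀ k ≤ N, ∑ l ∈ range k, a3 (a * Q ^ l) = Sg Q (N - k) - Sg Q N := by
    intro k
    induction k with
    | zero => intro _; simp
    | succ k ih =>
      intro hk
      rw [sum_range_succ, ih (by omega)]
      have e1 : Sg Q (N - k) = Sg Q (N - (k + 1)) + a3 (Q ^ (N - k)) := by
        unfold Sg
        rw [show N - k = (N - (k + 1)) + 1 by omega, sum_range_succ]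
      have e2 : a3 (a * Q ^ k) = -a3 (Q ^ (N - k)) := by
        apply a3_inv
        · have : Q ^ N = Q ^ (N - k) * Q ^ k := by rw [← pow_add]; congr 1; omega
          rw [← ha, this]; ring
        · have := hne (N - k - 1) (by omega)
          rwa [show N - k - 1 + 1 = N - k by omega] at this
      rw [e2, e1]; ring
  rw [key k hk]
  unfold Sg
  ring

omit [CharZero K] in
theorem P_full {a Q : K} {N : ℕ} (ha : a * Q ^ N = 1) (hne : ∀ i, i < N → 1 - Q ^ (i + 1) ≠ 0) :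
    Anti.P a Q N * Q ^ (∑ i ∈ range N, (i + 1)) = (-1) ^ N := by
  unfold Anti.P
  have e1 : ∀ l ∈ range N, (1 - a * Q ^ l) * Q ^ (N - l) = -(1 - Q ^ (N - l)) := by
    intro l hl
    have hl' := mem_range.1 hl
    have : Q ^ N = Q ^ l * Q ^ (N - l) := by rw [← pow_add]; congr 1; omega
    rw [this] at ha
    linear_combination -ha
  have e2 : ∏ l ∈ range N, Q ^ (N - l) = Q ^ (∑ i ∈ range N, (i + 1)) := by
    rw [prod_pow_eq_pow_sum]
    congr 1
    rw [← sum_range_reflect]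
    apply sum_congr rfl
    intro l hl
    have := mem_range.1 hl
    omega
  have e3 : ∏ l ∈ range N, (1 - Q ^ (N - l)) = ∏ l ∈ range N, (1 - Q ^ (l + 1)) := by
    rw [← prod_range_reflect]
    apply prod_congr rfl
    intro l hl
    have := mem_range.1 hl
    congr 2
    omega
  have n1 : ∏ l ∈ range N, (1 - Q ^ (l + 1)) ≠ 0 :=
    prod_ne_zero_iff.2 fun l hl => hne l (mem_range.1 hl)
  rw [← e2, prod_div_distrib, div_mul_eq_mul_div, ← prod_mul_distrib, prod_congr rfl e1,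
    prod_neg, e3, card_range, mul_div_assoc, div_self n1, mul_one]

end field

/-- half periods -/
theorem half_period {n : ℕ} {η : ℂ} (hn : 0 < n) (hη : IsPrimitiveRoot η n) {X Y : ℤ}
    (h : 2 * X = n * Y) : η ^ X = (-1) ^ Y := by
  have hη0 : η ≠ 0 := hη.ne_zero (by omega)
  rcases Int.even_or_odd' Y with ⟨W, rfl | rfl⟩
  · have hX : X = n * W := by linarith
    rw [(hη.zpow_eq_one_iff_dvd X).2 ⟨W, hX⟩, zpow_mul]
    norm_num
  · have h1 : (η ^ X) ^ 2 = 1 := by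
      rw [← zpow_natCast, ← zpow_mul]
      apply (hη.zpow_eq_one_iff_dvd _).2
      exact ⟨2 * W + 1, by push_cast; linarith⟩
    have h2 : η ^ X ≠ 1 := by
      intro h3
      obtain ⟨c, hc⟩ := (hη.zpow_eq_one_iff_dvd X).1 h3
      rw [hc] at h
      have h4 : (n : ℤ) * (2 * c) = n * (2 * W + 1) := by linarith
      have h5 := mul_left_cancel₀ (by exact_mod_cast hn.ne') h4
      omega
    have h3 : η ^ X = -1 := by
      rcases sq_eq_one_iff_of_ne_zero_or h1 with h | h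
      · exact absurd h h2
      · exact h
    rw [h3, zpow_add₀ (by norm_num), zpow_mul]
    norm_num
  where
  sq_eq_one_iff_of_ne_zero_or {x : ℂ} (h : x ^ 2 = 1) : x = 1 ∨ x = -1 := by
    have : (x - 1) * (x + 1) = 0 := by linear_combination h
    rcases mul_eq_zero.1 this with h | h
    · exact Or.inl (sub_eq_zero.1 h)
    · exact Or.inr (eq_neg_of_add_eq_zero_left h)

section cplx

variable {n d N r Z : ℕ} {e : ℤ} {η : ℂ}

/-- the antisymmetry at the root of unity -/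
theorem anti_T (D : Data n d N r Z e 2) (hη : IsPrimitiveRoot η n) {k : ℕ} (hk : k ≤ N) :
    (1 - η ^ e * (η ^ d) ^ (2 * (N - k))) * ((η ^ d) ^ Z) ^ (N - k) *
      Anti.P (η ^ e) (η ^ d) (N - k) ^ (2 * r + 3) =
    -((1 - η ^ e * (η ^ d) ^ (2 * k)) * ((η ^ d) ^ Z) ^ k *
      Anti.P (η ^ e) (η ^ d) k ^ (2 * r + 3)) := by
  have hn0 : 0 < n := by have := D.hn; omega
  have hη0 : η ≠ 0 := hη.ne_zero (by omega)
  have ha : η ^ e * (η ^ d) ^ N = 1 := by
    rw [← pow_mul, ← zpow_natCast η (d * N), ← zpow_add₀ hη0, hη.zpow_eq_one_iff_dvd]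
    exact ⟨d - 2, by push_cast; linear_combination D.h1⟩
  have hne : ∀ i, i < N → 1 - (η ^ d) ^ (i + 1) ≠ 0 := by
    intro i hi h
    rw [← pow_mul, ← zpow_natCast η (d * (i + 1))] at h
    have h1 := (hη.zpow_eq_one_iff_dvd _).1 (sub_eq_zero.1 h).symm
    apply D.ndvd' (l := i) (by have := D.hN; omega)
    push_cast at h1
    exact h1
  rw [Anti.P_refl ha hk hne]
  set a := η ^ e with had
  set Q := η ^ d with hQd
  have hQ0 : Q ≠ 0 := pow_ne_zero _ hη0
  set T := ∑ i ∈ range N, (i + 1) with hT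
  have hPN := P_full ha hne
  rw [← hT] at hPN
  have hT2 : 2 * T = N * (N + 1) := by
    have h1 : T = ∑ j ∈ range (N + 1), j := by rw [hT, sum_range_succ']; simp
    have h2 := Finset.sum_range_id_mul_two (N + 1)
    rw [Nat.add_sub_cancel] at h2
    rw [h1]; linarith
  have e1 : 1 - a * Q ^ (2 * (N - k)) = -(a * Q ^ (2 * (N - k))) * (1 - a * Q ^ (2 * k)) := by
    have h1 : Q ^ (2 * (N - k)) * Q ^ (2 * k) = (Q ^ N) ^ 2 := by
      rw [← pow_add, ← pow_mul Q N 2]; congr 1; omega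
    linear_combination (-(a ^ 2)) * h1 - (a * Q ^ N + 1) * ha
  -- the key identity
  have key : a * Q ^ (2 * (N - k)) * (Q ^ Z) ^ (N - k) * (Anti.P a Q N * Q ^ ((N + 1) * k)) ^
      (2 * r + 3) = (Q ^ Z) ^ k := by
    have hd := D.hd
    have hne2 : (Q ^ T) ^ (2 * r + 3) * Q ^ N ≠ 0 :=
      mul_ne_zero (pow_ne_zero _ (pow_ne_zero _ hQ0)) (pow_ne_zero _ hQ0)
    apply mul_right_cancel₀ hne2
    have e2 : a * Q ^ (2 * (N - k)) * (Q ^ Z) ^ (N - k) * (Anti.P a Q N * Q ^ ((N + 1) * k)) ^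
        (2 * r + 3) * ((Q ^ T) ^ (2 * r + 3) * Q ^ N) =
        (a * Q ^ N) * (Anti.P a Q N * Q ^ T) ^ (2 * r + 3) * (Q ^ (2 * (N - k)) *
          (Q ^ Z) ^ (N - k) * (Q ^ ((N + 1) * k)) ^ (2 * r + 3)) := by
      rw [mul_pow, mul_pow]; ring
    rw [e2, ha, hPN, one_mul]
    have e3 : Q ^ (2 * (N - k)) * (Q ^ Z) ^ (N - k) * (Q ^ ((N + 1) * k)) ^ (2 * r + 3) =
        η ^ ((d * (2 * (N - k) + Z * (N - k) + (N + 1) * k * (2 * r + 3)) : ℕ) : ℤ) := by
      rw [zpow_natCast, hQd]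
      simp only [← pow_mul, ← pow_add]
      congr 1
      ring
    have e4 : (Q ^ Z) ^ k * ((Q ^ T) ^ (2 * r + 3) * Q ^ N) =
        η ^ ((d * (Z * k + T * (2 * r + 3) + N) : ℕ) : ℤ) := by
      rw [zpow_natCast, hQd]
      simp only [← pow_mul, ← pow_add]
      congr 1
      ring
    rw [e3, e4]
    set x1 : ℤ := ((d * (2 * (N - k) + Z * (N - k) + (N + 1) * k * (2 * r + 3)) : ℕ) : ℤ) with hx1
    set x2 : ℤ := ((d * (Z * k + T * (2 * r + 3) + N) : ℕ) : ℤ) with hx2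
    have e5 : 2 * (x1 - x2) = n * (-(d * (d - 2) * (N - 2 * k))) := by
      rw [hx1, hx2]
      have hT2' : 2 * (T : ℤ) = N * (N + 1) := by exact_mod_cast hT2
      have hZ := D.hZ
      have h1 := D.h1
      have hd' : (d : ℤ) = 2 * r + 3 := by exact_mod_cast hd
      push_cast [Nat.cast_sub hk]
      rw [← hd']
      linear_combination (-(d : ℤ) * d) * hT2' + ((d : ℤ) * (N - 2 * k)) * hZ -
        ((d : ℤ) * (N - 2 * k)) * h1
    have e6 := half_period hn0 hη e5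
    have e7 : η ^ x1 = η ^ (x1 - x2) * η ^ x2 := by rw [← zpow_add₀ hη0]; congr 1; ring
    rw [e7, e6, ← mul_assoc]
    have e8 : ((-1 : ℂ) ^ N) ^ (2 * r + 3) * (-1 : ℂ) ^ (-((d : ℤ) * (d - 2) * (N - 2 * k))) = 1 := by
      have hodd : Odd (2 * r + 3) := ⟨r + 1, by ring⟩
      have f1 : ((-1 : ℂ) ^ N) ^ (2 * r + 3) = (-1 : ℂ) ^ ((N : ℤ) * (2 * r + 3)) := by
        rw [← pow_mul, ← zpow_natCast]; push_cast; rfl
      rw [f1, ← zpow_add₀ (by norm_num : (-1 : ℂ) ≠ 0)]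
      have hev : Even ((N : ℤ) * (2 * r + 3) + -((d : ℤ) * (d - 2) * (N - 2 * k))) := by
        have hd' : (d : ℤ) = 2 * r + 3 := by exact_mod_cast hd
        rw [hd']
        refine ⟨(2 * (r : ℤ) + 3) * k * (2 * r + 1) - (2 * r + 3) * N * r, by ring⟩
      exact hev.neg_one_zpow
    rw [e8, one_mul]
  rw [e1]
  have e9 : (Anti.P a Q N * Anti.P a Q k * Q ^ ((N + 1) * k)) ^ (2 * r + 3) =
      (Anti.P a Q N * Q ^ ((N + 1) * k)) ^ (2 * r + 3) * Anti.P a Q k ^ (2 * r + 3) := by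
    rw [← mul_pow]; congr 1; ring
  rw [e9]
  linear_combination (-(1 - a * Q ^ (2 * k)) * Anti.P a Q k ^ (2 * r + 3)) * key

/-- the vanishing of the symmetric combination -/
theorem anti_sum (D : Data n d N r Z e 2) (hη : IsPrimitiveRoot η n) :
    ∑ k ∈ range (N + 1), (1 - η ^ e * (η ^ d) ^ (2 * k)) * ((η ^ d) ^ Z) ^ k *
      Anti.P (η ^ e) (η ^ d) k ^ (2 * r + 3) * B3 (η ^ e) (η ^ d) k = 0 := by
  have hn0 : 0 < n := by have := D.hn; omega
  have hη0 : η ≠ 0 := hη.ne_zero (by omega)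
  have ha : η ^ e * (η ^ d) ^ N = 1 := by
    rw [← pow_mul, ← zpow_natCast η (d * N), ← zpow_add₀ hη0, hη.zpow_eq_one_iff_dvd]
    exact ⟨d - 2, by push_cast; linear_combination D.h1⟩
  have hne : ∀ i, i < N → 1 - (η ^ d) ^ (i + 1) ≠ 0 := by
    intro i hi h
    rw [← pow_mul, ← zpow_natCast η (d * (i + 1))] at h
    have h1 := (hη.zpow_eq_one_iff_dvd _).1 (sub_eq_zero.1 h).symm
    apply D.ndvd' (l := i) (by have := D.hN; omega)
    push_cast at h1
    exact h1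
  set f : ℕ → ℂ := fun k => (1 - η ^ e * (η ^ d) ^ (2 * k)) * ((η ^ d) ^ Z) ^ k *
      Anti.P (η ^ e) (η ^ d) k ^ (2 * r + 3) * B3 (η ^ e) (η ^ d) k with hf
  have h1 : ∑ k ∈ range (N + 1), f k = -∑ k ∈ range (N + 1), f k := by
    conv_lhs => rw [← sum_range_reflect]
    rw [← sum_neg_distrib]
    apply sum_congr rfl
    intro k hk
    have hk' : k ≤ N := by have := mem_range.1 hk; omega
    rw [show N + 1 - 1 - k = N - k by omega]
    simp only [hf]
    rw [anti_T D hη hk', B3_eq ha hne hk', B3_eq ha hne (show N - k ≤ N by omega),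
      show N - (N - k) = k by omega]
    ring
  have h2 : (2 : ℂ) * ∑ k ∈ range (N + 1), f k = 0 := by linear_combination h1
  exact (mul_eq_zero.1 h2).resolve_left two_ne_zero

end cplx

section fin

open Q278.Cyc Q278.Blk

variable {n d N r Z : ℕ} {e ρ : ℤ} {η : ℂ}

theorem ev_a3 {x : RatFunc ℚ} (hx : x ∈ Reg η) (h : ev η (1 - x) ≠ 0) :
    ev η (a3 x) = a3 (ev η x) := by
  have h1 : 1 - x ∈ Reg η := (Reg η).sub_mem (Reg η).one_mem hx
  have e1 : ev η (1 - x) = 1 - ev η x := by rw [ev_sub (Reg η).one_mem hx, ev_one]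
  rw [e1] at h
  have e6 : ev η (6 * (1 - x) ^ 3) = 6 * (1 - ev η x) ^ 3 := by
    have h6 : (6 : RatFunc ℚ) = ((6 : ℕ) : RatFunc ℚ) := by norm_num
    rw [h6, ev_mul (nat_O 6) ((Reg η).pow_mem h1 3), ev_nat, ev_pow h1, e1]
    norm_num
  have hm : x * (1 + x) ∈ Reg η := (Reg η).mul_mem hx ((Reg η).add_mem (Reg η).one_mem hx)
  unfold a3
  rw [ev_div ((Reg η).neg_mem hm), e6, ev_neg hm, ev_mul hx ((Reg η).add_mem (Reg η).one_mem hx),
    ev_add (Reg η).one_mem hx, ev_one]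
  · have h6 : (6 : RatFunc ℚ) = ((6 : ℕ) : RatFunc ℚ) := by norm_num
    rw [h6]
    exact (Reg η).mul_mem (nat_O 6) ((Reg η).pow_mem h1 3)
  · rw [e6]
    exact mul_ne_zero (by norm_num) (pow_ne_zero 3 h)

/-- the fourth power: the last hypothesis -/
theorem C3_mem (D : Data n d N r Z e 2) (hη : IsPrimitiveRoot η n) :
    ∑ k ∈ range (N + 1), X (q ^ e) (q ^ d) (q ^ n) r Z k * B3 (q ^ e) (q ^ d) k ∈
      I (Reg η) (Φ n) 1 := by
  have hn0 : 0 < n := by have := D.hn; omega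
  have hη0 : η ≠ 0 := hη.ne_zero (by omega)
  have ha : (q : RatFunc ℚ) ^ e ∈ Reg η := zq_mem hη0 e
  have hQ : (q : RatFunc ℚ) ^ d ∈ Reg η := q_pow_mem η d
  have hcomb : ∀ l : ℕ, (q : RatFunc ℚ) ^ e * (q ^ d) ^ l = q ^ (e + d * l) := by
    intro l
    rw [← pow_mul, ← zpow_natCast q (d * l), ← zpow_add₀ q_ne]
    congr 1
  have haQ : ∀ l : ℕ, (q : RatFunc ℚ) ^ e * (q ^ d) ^ l ∈ Reg η := fun l =>
    (Reg η).mul_mem ha ((Reg η).pow_mem hQ l)
  have evaQ : ∀ l : ℕ, ev η ((q : RatFunc ℚ) ^ e * (q ^ d) ^ l) = η ^ e * (η ^ d) ^ l := by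
    intro l
    rw [ev_mul ha ((Reg η).pow_mem hQ l), ev_zq hη0, ev_pow hQ, ev_q_pow]
  have evQ : ∀ l : ℕ, ev η (((q : RatFunc ℚ) ^ d) ^ l) = (η ^ d) ^ l := by
    intro l; rw [ev_pow hQ, ev_q_pow]
  have u1 : ∀ l < N, U (Reg η) (1 - (q : RatFunc ℚ) ^ e * (q ^ d) ^ l) := by
    intro l hl
    rw [hcomb]
    exact one_sub_zq_U hη hη0 (D.ndvd hl)
  have u2 : ∀ l < N, U (Reg η) (1 - ((q : RatFunc ℚ) ^ d) ^ (l + 1)) := by
    intro l hl
    rw [← pow_mul, ← zpow_natCast q (d * (l + 1))]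
    apply one_sub_zq_U hη hη0
    have := D.ndvd' (l := l) (by have := D.hN; omega)
    push_cast
    exact this
  have oB : ∀ k ≤ N, B3 ((q : RatFunc ℚ) ^ e) (q ^ d) k ∈ Reg η ∧
      ev η (B3 ((q : RatFunc ℚ) ^ e) (q ^ d) k) = B3 (η ^ e) (η ^ d) k := by
    intro k hk
    have o3 : ∀ c : RatFunc ℚ, c ∈ Reg η → U (Reg η) (1 - c) → a3 c ∈ Reg η := by
      intro c hc hc1
      have s6 := sixth_O (hO_cyc (η := η))
      have e : a3 c = (1 / 6) * (-(c * (1 + c)) * ((1 - c) ^ 3)⁻¹) := by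
        have := hc1.2.2
        unfold a3; field_simp
      rw [e]
      exact (Reg η).mul_mem s6 ((Reg η).mul_mem ((Reg η).neg_mem ((Reg η).mul_mem hc
        ((Reg η).add_mem (Reg η).one_mem hc))) (hc1.pow 3).2.1)
    have m1 : ∀ l ∈ range k, a3 ((q : RatFunc ℚ) ^ e * (q ^ d) ^ l) ∈ Reg η := fun l hl =>
      o3 _ (haQ l) (u1 l (by have := mem_range.1 hl; omega))
    have m2 : ∀ l ∈ range k, a3 (((q : RatFunc ℚ) ^ d) ^ (l + 1)) ∈ Reg η := fun l hl =>
      o3 _ ((Reg η).pow_mem hQ _) (u2 l (by have := mem_range.1 hl; omega))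
    unfold B3
    refine ⟨(Reg η).sum_mem fun l hl => (Reg η).add_mem (m1 l hl) (m2 l hl), ?_⟩
    rw [ev_sum fun l hl => (Reg η).add_mem (m1 l hl) (m2 l hl)]
    apply sum_congr rfl
    intro l hl
    have hl' := mem_range.1 hl
    rw [ev_add (m1 l hl) (m2 l hl), ev_a3 (haQ l) (ev_of_U (u1 l (by omega))),
      ev_a3 ((Reg η).pow_mem hQ _) (ev_of_U (u2 l (by omega))), evaQ, evQ]
  have og : ∀ k ≤ N, gk ((q : RatFunc ℚ) ^ e) (q ^ d) (q ^ n) k 0 ∈ Reg η ∧
      ev η (gk ((q : RatFunc ℚ) ^ e) (q ^ d) (q ^ n) k 0) = Anti.P (η ^ e) (η ^ d) k := by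
    intro k hk
    rw [gk_zero]
    have m1 : ∀ l ∈ range k, (1 - (q : RatFunc ℚ) ^ e * (q ^ d) ^ l) /
        (1 - ((q : RatFunc ℚ) ^ d) ^ (l + 1)) ∈ Reg η := by
      intro l hl
      rw [div_eq_mul_inv]
      exact (Reg η).mul_mem ((Reg η).sub_mem (Reg η).one_mem (haQ l))
        (u2 l (by have := mem_range.1 hl; omega)).2.1
    refine ⟨(Reg η).prod_mem m1, ?_⟩
    rw [ev_prod m1]
    unfold Anti.P
    apply prod_congr rfl
    intro l hl
    have hl' := mem_range.1 hl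
    rw [ev_div ((Reg η).sub_mem (Reg η).one_mem (haQ l)) (u2 l (by omega)).1
      (ev_of_U (u2 l (by omega))), ev_sub (Reg η).one_mem (haQ l),
      ev_sub (Reg η).one_mem ((Reg η).pow_mem hQ _), ev_one, evaQ, evQ]
  have oX : ∀ k ≤ N, X ((q : RatFunc ℚ) ^ e) (q ^ d) (q ^ n) r Z k ∈ Reg η ∧
      ev η (X ((q : RatFunc ℚ) ^ e) (q ^ d) (q ^ n) r Z k) = (1 - η ^ e * (η ^ d) ^ (2 * k)) *
        ((η ^ d) ^ Z) ^ k * Anti.P (η ^ e) (η ^ d) k ^ (2 * r + 3) := by
    intro k hk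
    obtain ⟨g1, g2⟩ := og k hk
    have m1 := (Reg η).sub_mem (Reg η).one_mem (haQ (2 * k))
    have m2 : (((q : RatFunc ℚ) ^ d) ^ Z) ^ k ∈ Reg η := (Reg η).pow_mem ((Reg η).pow_mem hQ _) _
    unfold X
    refine ⟨(Reg η).mul_mem ((Reg η).mul_mem m1 m2) ((Reg η).pow_mem g1 _), ?_⟩
    rw [ev_mul ((Reg η).mul_mem m1 m2) ((Reg η).pow_mem g1 _), ev_mul m1 m2, ev_pow g1, g2,
      ev_sub (Reg η).one_mem (haQ _), ev_one, evaQ, ev_pow ((Reg η).pow_mem hQ _), evQ]
  have hm : ∀ k ∈ range (N + 1), X ((q : RatFunc ℚ) ^ e) (q ^ d) (q ^ n) r Z k *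
      B3 ((q : RatFunc ℚ) ^ e) (q ^ d) k ∈ Reg η := by
    intro k hk
    have hk' : k ≤ N := by have := mem_range.1 hk; omega
    exact (Reg η).mul_mem (oX k hk').1 (oB k hk').1
  apply mem_I_one hn0 hη ((Reg η).sum_mem hm)
  rw [ev_sum hm, ← anti_sum D hη]
  apply sum_congr rfl
  intro k hk
  have hk' : k ≤ N := by have := mem_range.1 hk; omega
  rw [ev_mul (oX k hk').1 (oB k hk').1, (oX k hk').2, (oB k hk').2]

/-- extension of the range of summation -/
theorem ext (D : Data n d N r Z e ρ) (hη : IsPrimitiveRoot η n) {j : ℕ} (hj : j ≤ 4)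
    (h : ∑ k ∈ range (N + 1), X (q ^ e) (q ^ d) (q ^ n) r Z k ∈ I (Reg η) (Φ n) j) :
    ∑ k ∈ range n, X (q ^ e) (q ^ d) (q ^ n) r Z k ∈ I (Reg η) (Φ n) j := by
  obtain ⟨m, hm⟩ := Nat.exists_eq_add_of_le (show N + 1 ≤ n by have := D.hN; omega)
  have : ∑ k ∈ range n, X (q ^ e) (q ^ d) (q ^ n) r Z k =
      ∑ k ∈ range (N + 1), X (q ^ e) (q ^ d) (q ^ n) r Z k +
      ∑ i ∈ range m, X (q ^ e) (q ^ d) (q ^ n) r Z (N + 1 + i) := by
    conv_lhs => rw [hm, sum_range_add]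
    rw [← hm]
  rw [this]
  refine (I (Reg η) (Φ n) j).add_mem h (AddSubgroup.sum_mem _ fun i hi => ?_)
  have := mem_range.1 hi
  exact mono (Φ_mem n η) hj (tail D hη (by omega) (by omega))

/-- The case `d ∣ n + e`. -/
theorem fin1 {n d r Z M : ℕ} {e : ℤ} (he : e = 1 ∨ e = -1) (hn : 1 < n) (hr : 1 ≤ r)
    (hd : d = 2 * r + 3) (hZ : 2 * (Z : ℤ) = d - 2 - e) (hM : (n : ℤ) + e = d * M) {η : ℂ}
    (hη : IsPrimitiveRoot η n) :
    ∑ k ∈ range n, X (q ^ e) (q ^ d) (q ^ n) r Z k ∈ I (Reg η) (Φ n) 3 := by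
  have hd5 : 5 ≤ d := by omega
  have hM1 : 1 ≤ M := by
    rcases Nat.eq_zero_or_pos M with h | h
    · rw [h] at hM; push_cast at hM; rcases he with h' | h' <;> omega
    · exact h
  have hMn : M < n := by
    have : (5 : ℤ) * M ≤ d * M := by
      exact mul_le_mul_of_nonneg_right (by exact_mod_cast hd5) (by positivity)
    rcases he with h' | h' <;> omega
  -- parity
  have hdZ : (d : ℤ) = 2 * r + 3 := by exact_mod_cast hd
  have hpar : ∃ i : ℕ, M + n = 2 * i + 1 := by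
    have h1 : (M + n) % 2 = 1 := by
      have h2 : ((M : ℤ) + n) = 2 * (M * (r + 2)) - e := by
        rw [hdZ] at hM; linear_combination hM
      rcases he with h' | h' <;> (rw [h'] at h2; have : ∃ w : ℤ, w = M * (r + 2) := ⟨_, rfl⟩; obtain ⟨w, hw⟩ := this; rw [← hw] at h2; omega)
    exact ⟨(M + n) / 2, by omega⟩
  obtain ⟨i, hi⟩ := hpar
  have hiZ : (M : ℤ) + n = 2 * i + 1 := by exact_mod_cast hi
  have D : Data n d (n - M) r Z e 1 := by
    refine ⟨he, hn, hr, hd, by omega, hZ, ⟨le_refl 1, by omega⟩, ?_⟩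
    rw [Nat.cast_sub hMn.le]
    linear_combination hM
  have hN : n - M = r * (M - 1) + i + Z := by
    have : ((n - M : ℕ) : ℤ) = ((r * (M - 1) + i + Z : ℕ) : ℤ) := by
      rw [Nat.cast_sub hMn.le]
      push_cast [Nat.cast_sub hM1]
      have h2 : (2 : ℤ) * ((n : ℤ) - M) = 2 * (r * (M - 1) + i + Z) := by
        rw [hdZ] at hM hZ
        linear_combination hM + hiZ - hZ
      linarith
    exact_mod_cast this
  have key := core D hη (L := M - 1) (i := i) (t2 := r + 2) (s := 0) (s' := -1) ?_ ?_ hN ?_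
    (Or.inl le_rfl) ?_ (Or.inl (by norm_num)) ?_ ?_ ?_
  · exact ext D hη (by omega) key.1
  · rw [Nat.cast_sub hM1]; push_cast; linear_combination hM
  · rw [hdZ] at hM ⊢
    linear_combination hM + (2 * (r : ℤ) + 3) * hiZ
  · intro h
    have h1 := Int.le_of_dvd (by positivity) h
    omega
  · right; intro h; have h1 := Int.le_of_dvd (by norm_num) h; omega
  · right; intro h; have h1 := Int.le_of_dvd (by norm_num) h; omega
  · rw [hdZ]; ring
  · intro h
    have h1 : (r : ℤ) * 1 = r * 5 := by linear_combination h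
    omega

/-- The case `d ∣ 2 n + e`. -/
theorem fin2 {n d r Z M : ℕ} {e : ℤ} (he : e = 1 ∨ e = -1) (hn : 1 < n) (hr : 1 ≤ r)
    (hd : d = 2 * r + 3) (hZ : 2 * (Z : ℤ) = d - 2 - e) (hM : 2 * (n : ℤ) + e = d * M) {η : ℂ}
    (hη : IsPrimitiveRoot η n) :
    ∑ k ∈ range n, X (q ^ e) (q ^ d) (q ^ n) r Z k ∈ I (Reg η) (Φ n) 4 := by
  have hd5 : 5 ≤ d := by omega
  have hM1 : 1 ≤ M := by
    rcases Nat.eq_zero_or_pos M with h | h
    · rw [h] at hM; push_cast at hM; rcases he with h' | h' <;> omega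
    · exact h
  have hMn : M < n := by
    have : (5 : ℤ) * M ≤ d * M := by
      exact mul_le_mul_of_nonneg_right (by exact_mod_cast hd5) (by positivity)
    rcases he with h' | h' <;> omega
  have hdZ : (d : ℤ) = 2 * r + 3 := by exact_mod_cast hd
  have hpar : ∃ i : ℕ, M = 2 * i + 1 := by
    have h1 : M % 2 = 1 := by
      have h2 : (M : ℤ) = 2 * (n - M * (r + 1)) + e := by
        rw [hdZ] at hM; linear_combination -hM
      rcases he with h' | h' <;> (rw [h'] at h2; have : ∃ w : ℤ, w = n - M * (r + 1) := ⟨_, rfl⟩; obtain ⟨w, hw⟩ := this; rw [← hw] at h2; omega)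
    exact ⟨M / 2, by omega⟩
  obtain ⟨i, hi⟩ := hpar
  have hiZ : (M : ℤ) = 2 * i + 1 := by exact_mod_cast hi
  have D : Data n d (n - M) r Z e 2 := by
    refine ⟨he, hn, hr, hd, by omega, hZ, ⟨by omega, by omega⟩, ?_⟩
    rw [Nat.cast_sub hMn.le]
    linear_combination hM
  have hN : n - M = r * (M - 1) + i + Z := by
    have : ((n - M : ℕ) : ℤ) = ((r * (M - 1) + i + Z : ℕ) : ℤ) := by
      rw [Nat.cast_sub hMn.le]
      push_cast [Nat.cast_sub hM1]
      have h2 : (2 : ℤ) * ((n : ℤ) - M) = 2 * (r * (M - 1) + i + Z) := by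
        rw [hdZ] at hM hZ
        linear_combination hM + hiZ - hZ
      linarith
    exact_mod_cast this
  have key := core D hη (L := M - 1) (i := i) (t2 := 1) (s := 1) (s' := 0) ?_ ?_ hN ?_
    ?_ ?_ (Or.inl le_rfl) ?_ ?_ ?_
  · exact ext D hη le_rfl (key.2 (C3_mem D hη))
  · rw [Nat.cast_sub hM1]; push_cast; linear_combination hM
  · linear_combination hM + (d : ℤ) * hiZ
  · intro h; have h1 := Int.le_of_dvd (by norm_num) h; omega
  · right; intro h; have h1 := Int.le_of_dvd (by norm_num) h; omega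
  · right; intro h; have h1 := Int.le_of_dvd (by norm_num) h; omega
  · right; intro h; have h1 := Int.le_of_dvd (by norm_num) h; omega
  · rw [hdZ]; ring
  · intro h
    have h1 : (r : ℤ) * 2 = r * 4 := by linear_combination h
    omega

end fin

end Q278.DD
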