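import Pool.Agent.Q127.DJ.Stm

/-!
# Project DJ, job REC: the recursion
-/

set_option autoImplicit false

namespace Pool.Agent.Q278.DJ_REC

open MeasureTheory Filter Topology
open Pool.Agent.Q127.DJ

lemma dep_mono {m : ℕ} {f : ℕ → Fin m} {t t' : ℕ} (htt : t ≤ t') {ψ : (ℕ → ℕ) → ℝ}
    (h : Dep f t ψ) : Dep f t' ψ := by
  intro x y hxy
  refine h x y (funext fun i => ?_)
  exact congrFun hxy ⟨i, lt_of_lt_of_le i.2 htt⟩

lemma bm_nonneg {C : ℝ} {φ : (ℕ → ℕ) → ℝ} (h : BM C φ) : 0 ≤ C :=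
  (abs_nonneg _).trans (h.2 (fun _ => 0))

lemma bm_mul {C : ℝ} {g φ : (ℕ → ℕ) → ℝ} (hg : BM 1 g) (h : BM C φ) :
    BM C (fun z => g z * φ z) := by
  refine ⟨hg.1.mul h.1, fun x => ?_⟩
  rw [abs_mul]
  calc |g x| * |φ x| ≤ 1 * C := mul_le_mul (hg.2 x) (h.2 x) (abs_nonneg _) zero_le_one
    _ = C := one_mul C

section main

variable (μ ν : Measure (ℕ → ℕ)) [IsProbabilityMeasure μ] [IsProbabilityMeasure ν] {m k : ℕ}
  (f : ℕ → Fin m) (h : ℕ → Fin k) (a : Fin m) (b : Fin k) (ε : ℝ) (T U : ℕ)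

lemma fac_bd (h3 : S_inn) (hε0 : 0 ≤ ε) (hε1 : ε ≤ 1) (t : ℕ) (x y : ℕ → ℕ) :
    |1 + ε * g μ f a t x * g ν h b t y| ≤ 2 := by
  have h4 := (h3 μ m f a t).2.1.2 x
  have h5 := (h3 ν k h b t).2.1.2 y
  have h6 : |ε * g μ f a t x * g ν h b t y| ≤ 1 := by
    rw [abs_mul, abs_mul, abs_of_nonneg hε0]
    have h7 : ε * |g μ f a t x| ≤ 1 := mul_le_one₀ hε1 (abs_nonneg _) h4
    exact mul_le_one₀ h7 (abs_nonneg _) h5
  have h8 := abs_add_le 1 (ε * g μ f a t x * g ν h b t y)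
  rw [abs_one] at h8
  linarith

lemma D_bd (h3 : S_inn) (hε0 : 0 ≤ ε) (hε1 : ε ≤ 1) (x y : ℕ → ℕ) :
    |D μ ν f h a b ε T U x y| ≤ 2 ^ (Finset.Ico T U).card := by
  unfold D
  rw [Finset.abs_prod, ← Finset.prod_const]
  exact Finset.prod_le_prod (fun i _ => abs_nonneg _)
    fun t _ => fac_bd μ ν f h a b ε h3 hε0 hε1 t x y

lemma D_meas (h3 : S_inn) :
    Measurable fun p : (ℕ → ℕ) × (ℕ → ℕ) => D μ ν f h a b ε T U p.1 p.2 := by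
  unfold D
  refine Finset.measurable_prod _ fun t _ => ?_
  have h4 := (h3 μ m f a t).2.1.1
  have h5 := (h3 ν k h b t).2.1.1
  exact measurable_const.add ((measurable_const.mul (h4.comp measurable_fst)).mul
    (h5.comp measurable_snd))

lemma D_dep_right (h3 : S_inn) (x : ℕ → ℕ) : Dep h U (fun y => D μ ν f h a b ε T U x y) := by
  intro y y' hy
  unfold D
  refine Finset.prod_congr rfl fun t ht => ?_
  have h5 := dep_mono (Nat.succ_le_of_lt (Finset.mem_Ico.1 ht).2) (h3 ν k h b t).1 y y' hy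
  rw [h5]

lemma D_dep_left (h3 : S_inn) (y : ℕ → ℕ) : Dep f U (fun x => D μ ν f h a b ε T U x y) := by
  intro x x' hx
  unfold D
  refine Finset.prod_congr rfl fun t ht => ?_
  have h5 := dep_mono (Nat.succ_le_of_lt (Finset.mem_Ico.1 ht).2) (h3 μ m f a t).1 x x' hx
  rw [h5]

lemma prod_int (h3 : S_inn) (hε0 : 0 ≤ ε) (hε1 : ε ≤ 1) {C C' : ℝ} {φ ψ : (ℕ → ℕ) → ℝ}
    (hφ : BM C φ) (hψ : BM C' ψ) :
    Integrable (fun p : (ℕ → ℕ) × (ℕ → ℕ) => φ p.1 * ψ p.2 * D μ ν f h a b ε T U p.1 p.2)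
      (μ.prod ν) := by
  refine Integrable.of_bound (C := C * C' * 2 ^ (Finset.Ico T U).card) ?_ ?_
  · exact (((hφ.1.comp measurable_fst).mul (hψ.1.comp measurable_snd)).mul
      (D_meas μ ν f h a b ε T U h3)).aestronglyMeasurable
  · refine Eventually.of_forall fun p => ?_
    rw [Real.norm_eq_abs, abs_mul, abs_mul]
    exact mul_le_mul (mul_le_mul (hφ.2 _) (hψ.2 _) (abs_nonneg _) (bm_nonneg hφ))
      (D_bd μ ν f h a b ε T U h3 hε0 hε1 _ _) (abs_nonneg _)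
      (mul_nonneg (bm_nonneg hφ) (bm_nonneg hψ))

lemma meas_right {W : (ℕ → ℕ) → (ℕ → ℕ) → ℝ}
    (hW : Measurable fun p : (ℕ → ℕ) × (ℕ → ℕ) => W p.1 p.2) (x : ℕ → ℕ) :
    Measurable (fun y => W x y) := by
  have h4 : Measurable (fun y : ℕ → ℕ => (x, y)) := measurable_prodMk_left
  exact hW.comp h4

lemma meas_left {W : (ℕ → ℕ) → (ℕ → ℕ) → ℝ}
    (hW : Measurable fun p : (ℕ → ℕ) × (ℕ → ℕ) => W p.1 p.2) (y : ℕ → ℕ) :
    Measurable (fun x => W x y) := by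
  have h4 : Measurable (fun x : ℕ → ℕ => (x, y)) := measurable_prodMk_right
  exact hW.comp h4

lemma D_bm_right (h3 : S_inn) (hε0 : 0 ≤ ε) (hε1 : ε ≤ 1) (x : ℕ → ℕ) :
    BM (2 ^ (Finset.Ico T U).card) (fun y => D μ ν f h a b ε T U x y) :=
  ⟨meas_right (W := fun x y => D μ ν f h a b ε T U x y) (D_meas μ ν f h a b ε T U h3) x, fun y =>
    D_bd μ ν f h a b ε T U h3 hε0 hε1 x y⟩

lemma D_bm_left (h3 : S_inn) (hε0 : 0 ≤ ε) (hε1 : ε ≤ 1) (y : ℕ → ℕ) :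
    BM (2 ^ (Finset.Ico T U).card) (fun x => D μ ν f h a b ε T U x y) :=
  ⟨meas_left (W := fun x y => D μ ν f h a b ε T U x y) (D_meas μ ν f h a b ε T U h3) y, fun x =>
    D_bd μ ν f h a b ε T U h3 hε0 hε1 x y⟩

lemma mid (ρ : Measure (ℕ → ℕ)) (c : ℝ) (u v w : (ℕ → ℕ) → ℝ)
    (hu : ∫ y, w y * u y ∂ρ = ∫ y, w y * v y ∂ρ) :
    ∫ y, c * v y * w y ∂ρ = ∫ y, c * u y * w y ∂ρ := by
  have e1 : ∀ s : (ℕ → ℕ) → ℝ, ∫ y, c * s y * w y ∂ρ = c * ∫ y, w y * s y ∂ρ := by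
    intro s
    rw [← integral_const_mul]
    congr 1
    funext y
    ring
  rw [e1, e1, hu]

lemma mid' (ρ : Measure (ℕ → ℕ)) (c : ℝ) (u v w : (ℕ → ℕ) → ℝ)
    (hu : ∫ y, w y * u y ∂ρ = ∫ y, w y * v y ∂ρ) :
    ∫ y, v y * c * w y ∂ρ = ∫ y, u y * c * w y ∂ρ := by
  have e1 : ∀ s : (ℕ → ℕ) → ℝ, ∫ y, s y * c * w y ∂ρ = c * ∫ y, w y * s y ∂ρ := by
    intro s
    rw [← integral_const_mul]
    congr 1
    funext y
    ring
  rw [e1, e1, hu]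

lemma swap_core {K L : (ℕ → ℕ) → ℝ} {W : (ℕ → ℕ) → (ℕ → ℕ) → ℝ}
    (hi : Integrable (fun p : (ℕ → ℕ) × (ℕ → ℕ) => K p.1 * L p.2 * W p.1 p.2) (μ.prod ν)) :
    ∫ x, ∫ y, K x * L y * W x y ∂ν ∂μ = ∫ y, ∫ x, K x * L y * W x y ∂μ ∂ν :=
  integral_integral_swap (f := fun x y => K x * L y * W x y) hi

lemma core {φ φ' ψ ψ' : (ℕ → ℕ) → ℝ} {W : (ℕ → ℕ) → (ℕ → ℕ) → ℝ}
    (e1 : ∀ x, ∫ y, W x y * ψ' y ∂ν = ∫ y, W x y * ψ y ∂ν)
    (e2 : ∀ y, ∫ x, W x y * φ' x ∂μ = ∫ x, W x y * φ x ∂μ)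
    (hi1 : Integrable (fun p : (ℕ → ℕ) × (ℕ → ℕ) => φ p.1 * ψ' p.2 * W p.1 p.2) (μ.prod ν))
    (hi2 : Integrable (fun p : (ℕ → ℕ) × (ℕ → ℕ) => φ' p.1 * ψ' p.2 * W p.1 p.2) (μ.prod ν)) :
    ∫ x, ∫ y, φ x * ψ y * W x y ∂ν ∂μ = ∫ x, ∫ y, φ' x * ψ' y * W x y ∂ν ∂μ := by
  have e3 : ∀ x, ∫ y, φ x * ψ y * W x y ∂ν = ∫ y, φ x * ψ' y * W x y ∂ν := fun x =>
    mid ν (φ x) ψ' ψ (W x) (e1 x)
  have e4 : ∀ y, ∫ x, φ x * ψ' y * W x y ∂μ = ∫ x, φ' x * ψ' y * W x y ∂μ := fun y =>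
    mid' μ (ψ' y) φ' φ (fun x => W x y) (e2 y)
  rw [swap_core μ ν hi2, ← funext e4, ← swap_core μ ν hi1, ← funext e3]

lemma repl (h1 : S_ce1) (h2 : S_ce2) (h3 : S_inn) (hε0 : 0 ≤ ε) (hε1 : ε ≤ 1) {C C' : ℝ}
    {φ ψ : (ℕ → ℕ) → ℝ} (hφ : BM C φ) (hψ : BM C' ψ) :
    ∫ x, ∫ y, φ x * ψ y * D μ ν f h a b ε T U x y ∂ν ∂μ =
      ∫ x, ∫ y, E μ f U φ x * E ν h U ψ y * D μ ν f h a b ε T U x y ∂ν ∂μ := by
  have hEφ := (h1 μ m f U C φ (bm_nonneg hφ) hφ).2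
  have hEψ := (h1 ν k h U C' ψ (bm_nonneg hψ) hψ).2
  exact core μ ν
    (fun x => h2 ν k h U C' _ ψ _ hψ (D_bm_right μ ν f h a b ε T U h3 hε0 hε1 x)
      (D_dep_right μ ν f h a b ε T U h3 x))
    (fun y => h2 μ m f U C _ φ _ hφ (D_bm_left μ ν f h a b ε T U h3 hε0 hε1 y)
      (D_dep_left μ ν f h a b ε T U h3 y))
    (prod_int μ ν f h a b ε T U h3 hε0 hε1 hφ hEψ)
    (prod_int μ ν f h a b ε T U h3 hε0 hε1 hEφ hEψ)

lemma base (hTU : U ≤ T) (φ ψ : (ℕ → ℕ) → ℝ) :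
    ∫ x, ∫ y, φ x * ψ y * D μ ν f h a b ε T U x y ∂ν ∂μ = (∫ x, φ x ∂μ) * (∫ y, ψ y ∂ν) := by
  have h4 : ∀ x y, D μ ν f h a b ε T U x y = 1 := by
    intro x y
    unfold D
    rw [Finset.Ico_eq_empty_of_le hTU, Finset.prod_empty]
  simp only [h4, mul_one]
  simp only [integral_const_mul]
  rw [integral_mul_const]

end main

theorem t_rec (h1 : S_ce1) (h2 : S_ce2) (h3 : S_inn) : S_rec := by
  intro μ ν _ _ m k f h a b ε C C' T U φ ψ hε0 hε1 hφ hψ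
  induction U with
  | zero =>
    rw [base μ ν f h a b ε T 0 (Nat.zero_le T) φ ψ, Finset.Ico_eq_empty_of_le (Nat.zero_le T),
      Finset.sum_empty, mul_zero, add_zero]
  | succ U ih =>
    by_cases hTU : T ≤ U
    · have hgφ := bm_mul (h3 μ m f a U).2.1 hφ
      have hgψ := bm_mul (h3 ν k h b U).2.1 hψ
      have hi1 := prod_int μ ν f h a b ε T U h3 hε0 hε1 hφ hψ
      have hi2 := prod_int μ ν f h a b ε T U h3 hε0 hε1 hgφ hgψ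
      have hi3 := prod_int μ ν f h a b ε T (U + 1) h3 hε0 hε1 hφ hψ
      have hr := repl μ ν f h a b ε T U h1 h2 h3 hε0 hε1 hgφ hgψ
      have hs : ∫ x, ∫ y, φ x * ψ y * D μ ν f h a b ε T (U + 1) x y ∂ν ∂μ =
          ∫ x, ∫ y, φ x * ψ y * D μ ν f h a b ε T U x y ∂ν ∂μ +
            ε * ∫ x, ∫ y, (g μ f a U x * φ x) * (g ν h b U y * ψ y) *
              D μ ν f h a b ε T U x y ∂ν ∂μ := by
        rw [← integral_prod _ hi3, ← integral_prod _ hi1, ← integral_prod _ hi2,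
          ← integral_const_mul, ← integral_add hi1 (hi2.const_mul ε)]
        congr 1
        funext p
        have h5 : D μ ν f h a b ε T (U + 1) p.1 p.2 = D μ ν f h a b ε T U p.1 p.2 *
            (1 + ε * g μ f a U p.1 * g ν h b U p.2) := by
          unfold D
          rw [Finset.prod_Ico_succ_top hTU]
        rw [h5]
        ring
      rw [hs, ih, Finset.sum_Ico_succ_top hTU, hr]
      ring
    · have hTU' : U + 1 ≤ T := by omega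
      rw [base μ ν f h a b ε T (U + 1) hTU' φ ψ, Finset.Ico_eq_empty_of_le hTU',
        Finset.sum_empty, mul_zero, add_zero]

end Pool.Agent.Q278.DJ_REC
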