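import Pool.Agent.Q278.QDel

set_option autoImplicit false

/-! The `q`-Delannoy numbers as polynomials in `x = q ^ m`, and their reflection. -/

namespace Q278.DP

open Finset Q278.QDel

variable {K : Type*} [Field K]

/-- triangular numbers -/
def tr (a : ℕ) : ℕ := a * (a - 1) / 2

theorem tr_zero : tr 0 = 0 := rfl

theorem tr_succ (a : ℕ) : tr (a + 1) = tr a + a := tri a

theorem tr_add (k l : ℕ) : tr (k + l) = tr k + tr l + k * l := by
  induction l with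
  | zero => simp [tr_zero]
  | succ l ih => rw [← add_assoc, tr_succ, ih, tr_succ]; ring

section

variable {q : K} (hq : ∀ i, 0 < i → 1 - q ^ i ≠ 0)
include hq

/-- the `q`-binomial theorem -/
theorem qbin (n : ℕ) (z : K) : ∑ k ∈ range (n + 1), q ^ tr k * gb q n k * z ^ k =
    ∏ i ∈ range n, (1 + z * q ^ i) := by
  induction n generalizing z with
  | zero => simp [tr_zero, gb_zero]
  | succ n ih =>
    rw [sum_range_succ', prod_range_succ', gb_zero, tr_zero]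
    have e1 : ∑ k ∈ range (n + 1), q ^ tr (k + 1) * gb q (n + 1) (k + 1) * z ^ (k + 1) =
        z * ∑ k ∈ range (n + 1), q ^ tr k * gb q n k * (z * q) ^ k +
        ∑ k ∈ range (n + 1), q ^ tr (k + 1) * gb q n (k + 1) * (z * q) ^ (k + 1) := by
      rw [mul_sum, ← sum_add_distrib]
      apply sum_congr rfl
      intro k _
      rw [pascal1 hq, tr_succ, pow_add, mul_pow, mul_pow]
      ring
    have e2 : ∑ k ∈ range (n + 1), q ^ tr (k + 1) * gb q n (k + 1) * (z * q) ^ (k + 1) + 1 =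
        ∑ k ∈ range (n + 1), q ^ tr k * gb q n k * (z * q) ^ k := by
      have h1 := sum_range_succ' (fun k => q ^ tr k * gb q n k * (z * q) ^ k) (n + 1)
      rw [sum_range_succ, gb_lt q (Nat.lt_succ_self n)] at h1
      simp only [gb_zero, tr_zero, pow_zero, mul_one, mul_zero, zero_mul, add_zero] at h1
      exact h1.symm
    have e3 : ∏ i ∈ range n, (1 + z * q ^ (i + 1)) = ∏ i ∈ range n, (1 + z * q * q ^ i) := by
      apply prod_congr rfl
      intro i _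
      ring
    rw [e1, e3, ← ih]
    simp only [pow_zero, mul_one]
    linear_combination e2

end

/-- the polynomial in `x` -/
def dd (q : K) (n : ℕ) (x : K) : K := (∑ k ∈ range (n + 1), q ^ tr k * gb q n k *
  ∏ i ∈ range n, (1 - x * q ^ (i + 1) * q⁻¹ ^ k)) / ph q n

section

variable {q : K} (h0 : q ≠ 0) (hq : ∀ i, 0 < i → 1 - q ^ i ≠ 0)
include h0 hq

theorem dd_eq (n m : ℕ) : dd q n (q ^ m) = D q m n := by
  unfold dd D
  rw [sum_div]
  apply sum_congr rfl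
  intro k hk
  have hk := mem_range.1 hk
  have hph := ph_ne hq n
  rw [mul_div_assoc]
  change q ^ (k * (k - 1) / 2) * gb q n k * _ = _
  congr 1
  rcases Nat.lt_or_ge m k with h | h
  · rw [gb_lt q (show m + n - k < n by omega)]
    have : ∏ i ∈ range n, (1 - q ^ m * q ^ (i + 1) * q⁻¹ ^ k) = 0 := by
      apply prod_eq_zero (mem_range.2 (show k - m - 1 < n by omega))
      rw [← pow_add, show m + (k - m - 1 + 1) = k by omega, ← mul_pow, mul_inv_cancel₀ h0, one_pow,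
        sub_self]
    rw [this, zero_div]
  · unfold gb ph
    rw [prod_div_distrib]
    congr 1
    rw [← prod_range_reflect]
    apply prod_congr rfl
    intro i hi
    have hi := mem_range.1 hi
    have e : q ^ m * q ^ (n - 1 - i + 1) = q ^ (m + n - k - i) * q ^ k := by
      rw [← pow_add, ← pow_add]; congr 1; omega
    rw [e, mul_assoc, ← mul_pow, mul_inv_cancel₀ h0, one_pow, mul_one]

theorem ph_inv (n : ℕ) : ph q⁻¹ n = (-1) ^ n * q⁻¹ ^ tr (n + 1) * ph q n := by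
  induction n with
  | zero => simp [ph, tr]
  | succ n ih =>
    rw [ph_succ, ih, ph_succ, tr_succ (n + 1), pow_add q⁻¹ (tr (n + 1)) (n + 1)]
    have h1 : q ^ (n + 1) ≠ 0 := pow_ne_zero _ h0
    have e : 1 - q⁻¹ ^ (n + 1) = -(q⁻¹ ^ (n + 1)) * (1 - q ^ (n + 1)) := by
      rw [inv_pow]; field_simp; ring
    rw [e]
    ring

theorem inv_ne' : ∀ i, 0 < i → 1 - q⁻¹ ^ i ≠ 0 := QDel.inv_ne h0 hq

theorem gb_inv (k l : ℕ) : gb q⁻¹ (k + l) k = q⁻¹ ^ (k * l) * gb q (k + l) k := by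
  have h1 := gb_ph (inv_ne' h0 hq) (show k ≤ k + l by omega)
  have h2 := gb_ph hq (show k ≤ k + l by omega)
  rw [Nat.add_sub_cancel_left] at h1 h2
  rw [ph_inv h0 hq, ph_inv h0 hq, ph_inv h0 hq] at h1
  have n1 := ph_ne hq k
  have n2 := ph_ne hq l
  have n3 : q⁻¹ ^ tr (k + 1) ≠ 0 := pow_ne_zero _ (inv_ne_zero h0)
  have n4 : q⁻¹ ^ tr (l + 1) ≠ 0 := pow_ne_zero _ (inv_ne_zero h0)
  have n5 : ((-1 : K) ^ (k + l)) ≠ 0 := pow_ne_zero _ (neg_ne_zero.2 one_ne_zero)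
  have e1 : tr (k + l + 1) = tr (k + 1) + tr (l + 1) + k * l := by
    rw [tr_succ, tr_succ, tr_succ, tr_add]; ring
  rw [e1, pow_add q⁻¹ _ (k * l), pow_add q⁻¹ (tr (k + 1)), ← h2, pow_add (-1 : K)] at h1
  rw [pow_add (-1 : K)] at n5
  have n6 : ((-1) ^ k * (-1 : K) ^ l) * (q⁻¹ ^ tr (k + 1) * q⁻¹ ^ tr (l + 1)) *
      (ph q k * ph q l) ≠ 0 :=
    mul_ne_zero (mul_ne_zero n5 (mul_ne_zero n3 n4)) (mul_ne_zero n1 n2)
  apply mul_right_cancel₀ n6
  linear_combination h1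

theorem refl (m n : ℕ) : D q⁻¹ m n = (-1) ^ n * q ^ n * dd q n (q⁻¹ * q⁻¹ ^ m) := by
  rw [← dd_eq (inv_ne_zero h0) (inv_ne' h0 hq) n m]
  unfold dd
  rw [← sum_range_reflect, mul_div_assoc', mul_sum, ph_inv h0 hq]
  have hph := ph_ne hq n
  have n3 : q⁻¹ ^ tr (n + 1) ≠ 0 := pow_ne_zero _ (inv_ne_zero h0)
  have n5 : ((-1 : K) ^ n) ≠ 0 := pow_ne_zero _ (neg_ne_zero.2 one_ne_zero)
  rw [div_eq_div_iff (mul_ne_zero (mul_ne_zero n5 n3) hph) hph, sum_mul, sum_mul]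
  apply sum_congr rfl
  intro k hk
  have hk := mem_range.1 hk
  obtain ⟨l, rfl⟩ : ∃ l, n = k + l := ⟨n - k, by omega⟩
  have e0 : k + l + 1 - 1 - k = l := by omega
  rw [e0]
  have e1 : gb q⁻¹ (k + l) l = q⁻¹ ^ (k * l) * gb q (k + l) k := by
    rw [← gb_symm (inv_ne' h0 hq) (show k + l = k + l from rfl), gb_inv h0 hq]
  have e2 : ∏ i ∈ range (k + l), (1 - q⁻¹ ^ m * q⁻¹ ^ (i + 1) * q⁻¹⁻¹ ^ l) =
      ∏ i ∈ range (k + l), (1 - q⁻¹ * q⁻¹ ^ m * q ^ (i + 1) * q⁻¹ ^ k) := by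
    rw [← prod_range_reflect]
    apply prod_congr rfl
    intro i hi
    have hi := mem_range.1 hi
    rw [inv_inv]
    have a1 : q⁻¹ ^ (k + l - 1 - i + 1) * q ^ l = q⁻¹ * q ^ (i + 1) * q⁻¹ ^ k := by
      have b1 : q ^ (k + l - 1 - i + 1) * q ^ i = q ^ k * q ^ l := by
        rw [← pow_add, ← pow_add]; congr 1; omega
      have b2 : q ^ (k + l - 1 - i + 1) ≠ 0 := pow_ne_zero _ h0
      have b3 : q ^ k ≠ 0 := pow_ne_zero _ h0
      rw [inv_pow, inv_pow, pow_succ q i]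
      field_simp
      linear_combination -b1
    linear_combination (-(q⁻¹ ^ m)) * a1
  rw [e1, e2]
  have e3 : q⁻¹ ^ tr (k + l + 1) * q ^ (k + l) * q ^ tr k = q⁻¹ ^ tr l * q⁻¹ ^ (k * l) := by
    have c1 : tr (k + l + 1) = (tr l + k * l) + ((k + l) + tr k) := by
      rw [tr_succ, tr_add]; ring
    rw [c1, pow_add q⁻¹ (tr l + k * l), pow_add q⁻¹ (k + l), pow_add q⁻¹ (tr l)]
    have c2 : q⁻¹ ^ (k + l) * q ^ (k + l) = 1 := by rw [← mul_pow, inv_mul_cancel₀ h0, one_pow]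
    have c3 : q⁻¹ ^ tr k * q ^ tr k = 1 := by rw [← mul_pow, inv_mul_cancel₀ h0, one_pow]
    linear_combination (q⁻¹ ^ tr l * q⁻¹ ^ (k * l) * (q⁻¹ ^ tr k * q ^ tr k)) * c2 +
      (q⁻¹ ^ tr l * q⁻¹ ^ (k * l)) * c3
  have e4 : (-1 : K) ^ (k + l) * (-1) ^ (k + l) = 1 := by
    rw [← mul_pow]; norm_num
  linear_combination (gb q (k + l) k * ph q (k + l) * ∏ i ∈ range (k + l),
    (1 - q⁻¹ * q⁻¹ ^ m * q ^ (i + 1) * q⁻¹ ^ k)) * (-e3 -
      (q⁻¹ ^ tr (k + l + 1) * q ^ (k + l) * q ^ tr k) * e4)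

end

end Q278.DP
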