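import Pool.Agent.Q278.DPa

set_option autoImplicit false

/-! A product formula for `D_q(m,n) D_{1/q}(m,n)`. -/

namespace Q278.DP

open Finset Q278.QDel Polynomial

variable {K : Type*} [Field K]

/-- degree at most `n` with given coefficient of `X ^ n` -/
def Good (p : K[X]) (n : ℕ) (c : K) : Prop := p.natDegree ≤ n ∧ p.coeff n = c

theorem Good.mul {p r : K[X]} {a b : ℕ} {c d : K} (h1 : Good p a c) (h2 : Good r b d) :
    Good (p * r) (a + b) (c * d) :=
  ⟨natDegree_mul_le_of_le h1.1 h2.1, by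
    rw [coeff_mul_add_eq_of_natDegree_le h1.1 h2.1, h1.2, h2.2]⟩

theorem Good.C_mul {p : K[X]} {a : ℕ} {c : K} (x : K) (h1 : Good p a c) :
    Good (C x * p) a (x * c) :=
  ⟨(natDegree_C_mul_le x p).trans h1.1, by rw [coeff_C_mul, h1.2]⟩

theorem Good.sub {p r : K[X]} {a : ℕ} {c d : K} (h1 : Good p a c) (h2 : Good r a d) :
    Good (p - r) a (c - d) :=
  ⟨(natDegree_sub_le_of_le h1.1 h2.1).trans (by simp), by rw [coeff_sub, h1.2, h2.2]⟩

theorem Good.sum {n a : ℕ} {f : ℕ → K[X]} {c : ℕ → K} (h : ∀ i < n, Good (f i) a (c i)) :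
    Good (∑ i ∈ range n, f i) a (∑ i ∈ range n, c i) := by
  constructor
  · exact natDegree_sum_le_of_forall_le _ _ fun i hi => (h i (mem_range.1 hi)).1
  · rw [finsetSum_coeff]
    exact sum_congr rfl fun i hi => (h i (mem_range.1 hi)).2

theorem Good.prod {n a : ℕ} {f : ℕ → K[X]} {c : ℕ → K} (h : ∀ i, Good (f i) a (c i)) :
    Good (∏ i ∈ range n, f i) (n * a) (∏ i ∈ range n, c i) := by
  induction n with
  | zero => exact ⟨by simp, by simp⟩
  | succ n ih =>
    rw [prod_range_succ, prod_range_succ, Nat.succ_mul]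
    exact ih.mul (h n)

theorem Good.mono {p : K[X]} {a b : ℕ} {c : K} (h : Good p a c) (hab : a < b) : Good p b 0 :=
  ⟨h.1.trans hab.le, coeff_eq_zero_of_natDegree_lt (h.1.trans_lt hab)⟩

theorem good_lin1 (c : K) : Good (1 - C c * X) 1 (-c) := by
  constructor
  · refine (natDegree_sub_le_of_le (n := 1) (m := 1) ?_ ?_).trans (by simp)
    · simp
    · exact (natDegree_C_mul_le _ _).trans natDegree_X_le
  · rw [coeff_sub, coeff_C_mul, coeff_X_one, coeff_one]
    simp

theorem good_lin2 (c : K) : Good (X - C c) 1 1 := by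
  constructor
  · exact (natDegree_X_sub_C_le c)
  · rw [coeff_sub, coeff_X_one, coeff_C]
    simp

theorem good_X (n : ℕ) : Good (X ^ n : K[X]) n 1 := ⟨natDegree_X_pow_le n, by simp⟩

/-- first polynomial -/
noncomputable def pd (q : K) (n : ℕ) : K[X] := ∑ k ∈ range (n + 1), C (q ^ tr k * gb q n k) *
  ∏ i ∈ range n, (1 - C (q ^ (i + 1) * q⁻¹ ^ k) * X)

/-- second polynomial -/
noncomputable def pe (q : K) (n : ℕ) : K[X] := ∑ k ∈ range (n + 1), C (q ^ tr k * gb q n k) *
  ∏ i ∈ range n, (X - C (q ^ i * q⁻¹ ^ k))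

/-- third family of polynomials -/
noncomputable def pf (q : K) (n l : ℕ) : K[X] := X ^ (n - l) *
  ∏ a ∈ range l, ((X - C (q ^ a)) * (1 - C (q ^ (a + 1)) * X))

/-- the basis functions -/
def ee (q : K) (l k : ℕ) : K := gb q (k + l) l * gb q k l * q⁻¹ ^ (l * k)

/-- `(-1;q)_n` -/
def m1 (q : K) (n : ℕ) : K := ∏ i ∈ range n, (1 + q ^ i)

/-- `(-q;q)_n` -/
def m2 (q : K) (n : ℕ) : K := ∏ i ∈ range n, (1 + q ^ (i + 1))

/-- the coefficients of the product formula -/
def cc (q : K) (n : ℕ) : K := q ^ (n ^ 2) * (m1 q n * m2 q n) / gb q (2 * n) n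

theorem ee_lt (q : K) {l k : ℕ} (h : k < l) : ee q l k = 0 := by
  unfold ee; rw [gb_lt q h]; ring

theorem ee_zero (q : K) (k : ℕ) : ee q 0 k = 1 := by
  unfold ee; rw [gb_zero, gb_zero]; simp

section

variable {q : K} (h0 : q ≠ 0) (hq : ∀ i, 0 < i → 1 - q ^ i ≠ 0)
include h0

omit h0 in
theorem tr_prod (n : ℕ) : ∏ i ∈ range n, q ^ i = q ^ tr n := by
  induction n with
  | zero => simp [tr_zero]
  | succ n ih => rw [prod_range_succ, ih, tr_succ, pow_add]

omit h0 in
theorem tr_prod' (n : ℕ) : ∏ i ∈ range n, q ^ (i + 1) = q ^ tr (n + 1) := by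
  induction n with
  | zero => simp [tr]
  | succ n ih => rw [prod_range_succ, ih, tr_succ (n + 1), pow_add q (tr (n + 1))]

theorem m2_shift (n : ℕ) : ∏ i ∈ range n, (1 + q⁻¹ ^ n * q ^ i) = q⁻¹ ^ tr (n + 1) * m2 q n := by
  have h1 : ∏ i ∈ range n, (1 + q⁻¹ ^ n * q ^ i) = ∏ i ∈ range n, (q⁻¹ ^ (i + 1) *
      (1 + q ^ (i + 1))) := by
    rw [← prod_range_reflect]
    apply prod_congr rfl
    intro i hi
    have hi := mem_range.1 hi
    have e : q⁻¹ ^ n * q ^ (n - 1 - i) = q⁻¹ ^ (i + 1) := by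
      have : n = (n - 1 - i) + (i + 1) := by omega
      have e1 : q⁻¹ ^ n = q⁻¹ ^ (n - 1 - i) * q⁻¹ ^ (i + 1) := by
        rw [← pow_add]; congr 1
      rw [e1]
      have e2 : q⁻¹ ^ (n - 1 - i) * q ^ (n - 1 - i) = 1 := by
        rw [← mul_pow, inv_mul_cancel₀ h0, one_pow]
      linear_combination (q⁻¹ ^ (i + 1)) * e2
    have e3 : q⁻¹ ^ (i + 1) * q ^ (i + 1) = 1 := by
      rw [← mul_pow, inv_mul_cancel₀ h0, one_pow]
    rw [e]
    linear_combination -e3
  rw [h1, prod_mul_distrib, tr_prod']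
  rfl

include hq

theorem good_pd (n : ℕ) : Good (pd q n) n ((-1) ^ n * m2 q n) := by
  have h1 : ∀ k < n + 1, Good (C (q ^ tr k * gb q n k) *
      ∏ i ∈ range n, (1 - C (q ^ (i + 1) * q⁻¹ ^ k) * X)) n
      (q ^ tr k * gb q n k * ∏ i ∈ range n, (-(q ^ (i + 1) * q⁻¹ ^ k))) := by
    intro k _
    have := (Good.prod (n := n) (fun i => good_lin1 (q ^ (i + 1) * q⁻¹ ^ k))).C_mul
      (q ^ tr k * gb q n k)
    rwa [mul_one] at this
  have h2 := Good.sum h1
  have e : ∑ k ∈ range (n + 1), q ^ tr k * gb q n k * ∏ i ∈ range n, (-(q ^ (i + 1) * q⁻¹ ^ k)) =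
      (-1) ^ n * m2 q n := by
    have e1 : ∀ k ∈ range (n + 1), q ^ tr k * gb q n k * ∏ i ∈ range n,
        (-(q ^ (i + 1) * q⁻¹ ^ k)) = ((-1) ^ n * q ^ tr (n + 1)) *
          (q ^ tr k * gb q n k * (q⁻¹ ^ n) ^ k) := by
      intro k _
      have : ∏ i ∈ range n, (-(q ^ (i + 1) * q⁻¹ ^ k)) =
          (-1) ^ n * (q ^ tr (n + 1) * (q⁻¹ ^ k) ^ n) := by
        rw [← tr_prod']
        have : ∀ i ∈ range n, -(q ^ (i + 1) * q⁻¹ ^ k) = (-1) * (q ^ (i + 1) * q⁻¹ ^ k) := by
          intro i _; ring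
        rw [prod_congr rfl this, prod_mul_distrib, prod_mul_distrib, prod_const, prod_const,
          card_range]
      rw [this, ← pow_mul, ← pow_mul, mul_comm k n]
      ring
    rw [sum_congr rfl e1, ← mul_sum, qbin hq, m2_shift h0]
    have e2 : q ^ tr (n + 1) * q⁻¹ ^ tr (n + 1) = 1 := by
      rw [← mul_pow, mul_inv_cancel₀ h0, one_pow]
    linear_combination ((-1) ^ n * m2 q n) * e2
  rw [e] at h2
  exact h2

omit h0 in
theorem good_pe (n : ℕ) : Good (pe q n) n (m1 q n) := by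
  have h1 : ∀ k < n + 1, Good (C (q ^ tr k * gb q n k) *
      ∏ i ∈ range n, (X - C (q ^ i * q⁻¹ ^ k))) n
      (q ^ tr k * gb q n k * ∏ i ∈ range n, (1 : K)) := by
    intro k _
    have := (Good.prod (n := n) (fun i => good_lin2 (q ^ i * q⁻¹ ^ k))).C_mul
      (q ^ tr k * gb q n k)
    rwa [mul_one] at this
  have h2 := Good.sum h1
  have e : ∑ k ∈ range (n + 1), q ^ tr k * gb q n k * ∏ i ∈ range n, (1 : K) = m1 q n := by
    have h3 := qbin hq n 1
    simp only [one_pow, mul_one, one_mul] at h3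
    simp only [prod_const_one, mul_one]
    exact h3
  rw [e] at h2
  exact h2

omit h0 hq in
theorem good_pf (n l : ℕ) (hl : l ≤ n) : Good (pf q n l) (n + l) ((-1) ^ l * q ^ tr (l + 1)) := by
  have h1 := (good_X (K := K) (n - l)).mul (Good.prod (n := l) (fun a =>
    (good_lin2 (q ^ a)).mul (good_lin1 (q ^ (a + 1)))))
  have e1 : n - l + l * (1 + 1) = n + l := by omega
  have e2 : (1 : K) * ∏ i ∈ range l, (1 * -q ^ (i + 1)) = (-1) ^ l * q ^ tr (l + 1) := by
    have : ∀ i ∈ range l, (1 : K) * -q ^ (i + 1) = (-1) * q ^ (i + 1) := by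
      intro i _; ring
    rw [one_mul, prod_congr rfl this, prod_mul_distrib, prod_const, card_range, tr_prod']
  rw [e1, e2] at h1
  exact h1

omit h0 in
/-- evaluation of the first polynomial -/
theorem eval_pd (n : ℕ) (x : K) : (pd q n).eval x = ph q n * dd q n x := by
  unfold pd dd
  have := ph_ne hq n
  rw [mul_div_cancel₀ _ this, eval_finsetSum]
  apply sum_congr rfl
  intro k _
  rw [eval_mul, eval_C, eval_prod]
  congr 1
  apply prod_congr rfl
  intro i _
  simp only [eval_sub, eval_one, eval_mul, eval_C, eval_X]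
  ring

theorem eval_pe (n : ℕ) {x : K} (hx : x ≠ 0) :
    (pe q n).eval x = x ^ n * (ph q n * dd q n (q⁻¹ * x⁻¹)) := by
  unfold pe dd
  have := ph_ne hq n
  rw [mul_div_cancel₀ _ this, eval_finsetSum, mul_sum]
  apply sum_congr rfl
  intro k _
  rw [eval_mul, eval_C, eval_prod]
  have e : ∏ j ∈ range n, eval x (X - C (q ^ j * q⁻¹ ^ k)) =
      x ^ n * ∏ i ∈ range n, (1 - q⁻¹ * x⁻¹ * q ^ (i + 1) * q⁻¹ ^ k) := by
    have e1 : x ^ n = ∏ i ∈ range n, x := by rw [prod_const, card_range]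
    rw [e1, ← prod_mul_distrib]
    apply prod_congr rfl
    intro i _
    simp only [eval_sub, eval_C, eval_X]
    rw [pow_succ q i]
    field_simp
  rw [e]
  ring

theorem ph_gb (m l : ℕ) : ∏ a ∈ range l, (q ^ m - q ^ a) = (-1) ^ l * q ^ tr l *
    (ph q l * gb q m l) := by
  rcases Nat.lt_or_ge m l with h | h
  · rw [gb_lt q h, prod_eq_zero (mem_range.2 h) (by rw [sub_self])]
    ring
  · have e1 : ph q l * gb q m l = ∏ a ∈ range l, (1 - q ^ (m - a)) := by
      unfold ph gb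
      rw [← prod_mul_distrib]
      apply prod_congr rfl
      intro a _
      have := hq (a + 1) (Nat.succ_pos a)
      field_simp
    have e2 : (-1 : K) ^ l = ∏ a ∈ range l, (-1 : K) := by rw [prod_const, card_range]
    rw [e1, ← tr_prod, e2, ← prod_mul_distrib, ← prod_mul_distrib]
    apply prod_congr rfl
    intro a ha
    have ha := mem_range.1 ha
    have : q ^ m = q ^ a * q ^ (m - a) := by rw [← pow_add]; congr 1; omega
    rw [this]
    ring

omit h0 in
theorem ph_gb' (m l : ℕ) : ∏ a ∈ range l, (1 - q ^ (a + 1) * q ^ m) = ph q l * gb q (m + l) l := by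
  unfold ph gb
  rw [← prod_mul_distrib]
  have e1 : ∀ a ∈ range l, (1 - q ^ (a + 1)) * ((1 - q ^ (m + l - a)) / (1 - q ^ (a + 1))) =
      1 - q ^ (m + l - a) := by
    intro a _
    have := hq (a + 1) (Nat.succ_pos a)
    field_simp
  rw [prod_congr rfl e1, ← prod_range_reflect]
  apply prod_congr rfl
  intro a ha
  have ha := mem_range.1 ha
  rw [← pow_add]
  congr 2
  omega

theorem eval_pf (n l m : ℕ) (hl : l ≤ n) : (pf q n l).eval (q ^ m) = (q ^ m) ^ n *
    ((-1) ^ l * q ^ tr l * ph q l ^ 2 * ee q l m) := by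
  unfold pf ee
  rw [eval_mul, eval_prod, eval_pow, eval_X]
  have e : ∏ j ∈ range l, eval (q ^ m) ((X - C (q ^ j)) * (1 - C (q ^ (j + 1)) * X)) =
      ((-1) ^ l * q ^ tr l * (ph q l * gb q m l)) * (ph q l * gb q (m + l) l) := by
    rw [← ph_gb h0 hq, ← ph_gb' hq, ← prod_mul_distrib]
    apply prod_congr rfl
    intro i _
    simp only [eval_mul, eval_sub, eval_one, eval_C, eval_X]
  rw [e]
  obtain ⟨d, rfl⟩ : ∃ d, n = l + d := ⟨n - l, by omega⟩
  rw [Nat.add_sub_cancel_left]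
  have e2 : (q ^ m) ^ (l + d) * q⁻¹ ^ (l * m) = (q ^ m) ^ d := by
    rw [pow_add, ← pow_mul q m l, mul_comm m l]
    have : q ^ (l * m) * q⁻¹ ^ (l * m) = 1 := by rw [← mul_pow, mul_inv_cancel₀ h0, one_pow]
    linear_combination ((q ^ m) ^ d) * this
  rw [← e2]
  ring

/-- weights -/
def wt (q : K) (n l : ℕ) : K := ph q n ^ 2 * cc q l * ee q l n * (-1) ^ l * q⁻¹ ^ tr l / ph q l ^ 2

/-- the difference of the two sides -/
noncomputable def PP (q : K) (n : ℕ) : K[X] := C ((-1) ^ n * q ^ n) * (pd q n * pe q n) -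
  ∑ l ∈ range (n + 1), C (wt q n l) * pf q n l

theorem sy_pf (n l : ℕ) (hl : l ≤ n) {x : K} (hx : x ≠ 0) : (pf q n l).eval (q⁻¹ * x⁻¹) =
    q⁻¹ ^ n * x⁻¹ ^ (2 * n) * (pf q n l).eval x := by
  unfold pf
  rw [eval_mul, eval_mul, eval_prod, eval_prod, eval_pow, eval_pow, eval_X, eval_X]
  have e : ∏ j ∈ range l, eval (q⁻¹ * x⁻¹) ((X - C (q ^ j)) * (1 - C (q ^ (j + 1)) * X)) =
      (q⁻¹ * x⁻¹ ^ 2) ^ l * ∏ j ∈ range l, eval x ((X - C (q ^ j)) * (1 - C (q ^ (j + 1)) * X)) := by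
    have e1 : (q⁻¹ * x⁻¹ ^ 2) ^ l = ∏ i ∈ range l, (q⁻¹ * x⁻¹ ^ 2) := by
      rw [prod_const, card_range]
    rw [e1, ← prod_mul_distrib]
    apply prod_congr rfl
    intro i _
    simp only [eval_mul, eval_sub, eval_one, eval_C, eval_X]
    rw [pow_succ q i]
    field_simp
  rw [e]
  obtain ⟨d, rfl⟩ : ∃ d, n = l + d := ⟨n - l, by omega⟩
  rw [Nat.add_sub_cancel_left]
  generalize ∏ j ∈ range l, eval x ((X - C (q ^ j)) * (1 - C (q ^ (j + 1)) * X)) = P
  have e3 : x⁻¹ ^ d * x ^ d = 1 := by rw [← mul_pow, inv_mul_cancel₀ hx, one_pow]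
  have e4 : (q⁻¹ * x⁻¹) ^ d * (q⁻¹ * x⁻¹ ^ 2) ^ l = q⁻¹ ^ (l + d) * x⁻¹ ^ (2 * (l + d)) * x ^ d := by
    rw [mul_pow, mul_pow, pow_add, mul_add, pow_add x⁻¹, ← pow_mul]
    rw [show 2 * d = d + d by ring, pow_add x⁻¹ d d]
    linear_combination (-(q⁻¹ ^ l * q⁻¹ ^ d * x⁻¹ ^ (2 * l) * x⁻¹ ^ d)) * e3
  linear_combination P * e4

theorem sy (n : ℕ) {x : K} (hx : x ≠ 0) : (PP q n).eval (q⁻¹ * x⁻¹) =
    q⁻¹ ^ n * x⁻¹ ^ (2 * n) * (PP q n).eval x := by
  unfold PP
  have hy : q⁻¹ * x⁻¹ ≠ 0 := mul_ne_zero (inv_ne_zero h0) (inv_ne_zero hx)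
  rw [eval_sub, eval_sub, eval_mul, eval_mul, eval_mul, eval_mul, eval_C, eval_C, eval_pd hq,
    eval_pe h0 hq n hy, eval_pd hq, eval_pe h0 hq n hx, eval_finsetSum, eval_finsetSum,
    mul_sub, mul_sum]
  congr 1
  · have e : q⁻¹ * (q⁻¹ * x⁻¹)⁻¹ = x := by field_simp
    rw [e]
    have e3 : x⁻¹ ^ n * x ^ n = 1 := by rw [← mul_pow, inv_mul_cancel₀ hx, one_pow]
    rw [mul_pow, show 2 * n = n + n by ring, pow_add x⁻¹ n n]
    linear_combination (-((-1) ^ n * q ^ n * (ph q n * dd q n (q⁻¹ * x⁻¹)) * (q⁻¹ ^ n *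
      x⁻¹ ^ n * (ph q n * dd q n x)))) * e3
  · apply sum_congr rfl
    intro l hl
    rw [eval_mul, eval_mul, eval_C, eval_C, sy_pf h0 hq n l (by have := mem_range.1 hl; omega) hx]
    ring

theorem eval_PP (n m : ℕ) : (PP q n).eval (q ^ m) = (q ^ m) ^ n * ph q n ^ 2 *
    (D q m n * D q⁻¹ m n - ∑ l ∈ range (n + 1), cc q l * ee q l n * ee q l m) := by
  unfold PP
  have hx : q ^ m ≠ 0 := pow_ne_zero _ h0
  rw [eval_sub, eval_mul, eval_mul, eval_C, eval_pd hq, eval_pe h0 hq n hx, eval_finsetSum,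
    dd_eq h0 hq, refl h0 hq, inv_pow q m, mul_sub, mul_sum]
  congr 1
  · ring
  · apply sum_congr rfl
    intro l hl
    have hl := mem_range.1 hl
    rw [eval_mul, eval_C, eval_pf h0 hq n l m (by omega)]
    unfold wt
    have e1 : q⁻¹ ^ tr l * q ^ tr l = 1 := by rw [← mul_pow, inv_mul_cancel₀ h0, one_pow]
    have e2 : (-1 : K) ^ l * (-1) ^ l = 1 := by rw [← mul_pow]; norm_num
    have e3 : ph q l ^ 2 / ph q l ^ 2 = 1 := div_self (pow_ne_zero 2 (ph_ne hq l))
    linear_combination ((q ^ m) ^ n * ph q n ^ 2 * cc q l * ee q l n * ee q l m) *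
      ((q⁻¹ ^ tr l * q ^ tr l) * (ph q l ^ 2 / ph q l ^ 2) * e2 +
        (ph q l ^ 2 / ph q l ^ 2) * e1 + e3)

theorem good_PP (n : ℕ) : Good (PP q n) (n + n) 0 := by
  unfold PP
  have h1 := ((good_pd h0 hq n).mul (good_pe hq n)).C_mul ((-1) ^ n * q ^ n)
  have h2 : ∀ l < n + 1, Good (C (wt q n l) * pf q n l) (n + n)
      (wt q n l * (if l = n then (-1) ^ n * q ^ tr (n + 1) else 0)) := by
    intro l hl
    apply Good.C_mul
    by_cases h : l = n
    · rw [if_pos h, h]
      exact good_pf n n le_rfl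
    · rw [if_neg h]
      exact (good_pf n l (by omega)).mono (by omega)
  have h3 := h1.sub (Good.sum h2)
  have e : (-1) ^ n * q ^ n * ((-1) ^ n * m2 q n * m1 q n) - ∑ i ∈ range (n + 1),
      wt q n i * (if i = n then (-1) ^ n * q ^ tr (n + 1) else 0) = 0 := by
    rw [sum_eq_single n (fun b _ hb => by rw [if_neg hb, mul_zero])
      (fun hb => absurd (mem_range.2 (Nat.lt_succ_self n)) hb), if_pos rfl]
    unfold wt cc ee
    have g1 := gb_self hq n
    have g2 : gb q (2 * n) n ≠ 0 := by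
      have := gb_ph hq (show n ≤ 2 * n by omega)
      intro h
      rw [h, zero_mul] at this
      exact ph_ne hq (2 * n) this.symm
    have e3 : ph q n ^ 2 / ph q n ^ 2 = 1 := div_self (pow_ne_zero 2 (ph_ne hq n))
    have e5 : gb q (2 * n) n / gb q (2 * n) n = 1 := div_self g2
    rw [g1, ← two_mul, tr_succ n, pow_add q (tr n)]
    have e1 : q⁻¹ ^ tr n * q ^ tr n = 1 := by rw [← mul_pow, inv_mul_cancel₀ h0, one_pow]
    have e4 : q⁻¹ ^ (n * n) * q ^ (n ^ 2) = 1 := by
      rw [pow_two, ← mul_pow, inv_mul_cancel₀ h0, one_pow]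
    linear_combination (-((-1) ^ n * (-1) ^ n * q ^ n * (m1 q n * m2 q n))) *
      ((q⁻¹ ^ tr n * q ^ tr n) * (q⁻¹ ^ (n * n) * q ^ (n ^ 2)) *
        (gb q (2 * n) n / gb q (2 * n) n) * e3 +
      (q⁻¹ ^ tr n * q ^ tr n) * (q⁻¹ ^ (n * n) * q ^ (n ^ 2)) * e5 +
      (q⁻¹ ^ tr n * q ^ tr n) * e4 + e1)
  rw [e] at h3
  exact h3

theorem zpow_inj : Function.Injective (fun z : ℤ => q ^ z) := by
  have key : ∀ a b : ℤ, a < b → q ^ a ≠ q ^ b := by
    intro a b hab h
    obtain ⟨i, hi⟩ := Int.eq_ofNat_of_zero_le (show 0 ≤ b - a by omega)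
    have h1 : q ^ (b - a) = 1 := by
      rw [zpow_sub₀ h0, h, div_self (zpow_ne_zero _ h0)]
    rw [hi, zpow_natCast] at h1
    exact hq i (by omega) (by rw [h1, sub_self])
  intro a b h
  rcases lt_trichotomy a b with hab | hab | hab
  · exact absurd h (key a b hab)
  · exact hab
  · exact absurd h.symm (key b a hab)

theorem prodf (n : ℕ) : ∀ m : ℕ, D q m n * D q⁻¹ m n =
    ∑ l ∈ range (n + 1), cc q l * ee q l n * ee q l m := by
  classical
  induction n using Nat.strong_induction_on with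
  | _ n ih =>
    rcases Nat.eq_zero_or_pos n with rfl | hn
    · intro m
      rw [D_zero_right, D_zero_right, sum_range_one, ee_zero, ee_zero]
      simp [cc, m1, m2, gb_zero]
    · have hz : ∀ m < n, (PP q n).eval (q ^ m) = 0 := by
        intro m hm
        rw [eval_PP h0 hq, D_symm hq m n, D_symm (inv_ne' h0 hq) m n, ih m hm n]
        have e : ∑ l ∈ range (n + 1), cc q l * ee q l n * ee q l m =
            ∑ l ∈ range (m + 1), cc q l * ee q l m * ee q l n := by
          rw [← sum_subset (range_subset_range.2 (show m + 1 ≤ n + 1 by omega))]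
          · apply sum_congr rfl
            intro l _
            ring
          · intro l _ hl
            have : m < l := by
              by_contra h
              exact hl (mem_range.2 (by omega))
            rw [ee_lt q this, mul_zero]
        rw [e, sub_self, mul_zero]
      have hroots : ∀ z ∈ (Finset.Ico (-(n : ℤ)) n).image (fun z : ℤ => q ^ z),
          (PP q n).eval z = 0 := by
        intro y hy
        obtain ⟨z, hz1, rfl⟩ := mem_image.1 hy
        have hz2 := Finset.mem_Ico.1 hz1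
        rcases lt_or_ge z 0 with h | h
        · obtain ⟨m, hm⟩ := Int.eq_ofNat_of_zero_le (show 0 ≤ -z - 1 by omega)
          have hm' : z = -((m : ℤ) + 1) := by omega
          have hmn : m < n := by omega
          have e : q ^ z = q⁻¹ * (q ^ m)⁻¹ := by
            rw [hm', zpow_neg, zpow_add₀ h0, zpow_natCast, zpow_one, mul_inv, mul_comm]
          change (PP q n).eval (q ^ z) = 0
          rw [e, sy h0 hq n (pow_ne_zero m h0), hz m hmn, mul_zero]
        · obtain ⟨m, hm⟩ := Int.eq_ofNat_of_zero_le h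
          change (PP q n).eval (q ^ z) = 0
          rw [hm, zpow_natCast]
          exact hz m (by omega)
      have hcard : ((Finset.Ico (-(n : ℤ)) n).image (fun z : ℤ => q ^ z)).card = n + n := by
        rw [card_image_of_injective _ (zpow_inj h0 hq), Int.card_Ico]
        omega
      have hP : PP q n = 0 := by
        by_contra hne
        have hg := good_PP h0 hq n
        have hlt : (PP q n).natDegree < n + n := by
          rcases Nat.lt_or_ge (PP q n).natDegree (n + n) with h | h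
          · exact h
          · have h1 : (PP q n).natDegree = n + n := le_antisymm hg.1 h
            have h2 : (PP q n).leadingCoeff = 0 := by
              rw [leadingCoeff, h1]; exact hg.2
            exact absurd (leadingCoeff_eq_zero.1 h2) hne
        exact hne (eq_zero_of_natDegree_lt_card_of_eval_eq_zero' _ _ hroots (by
          rw [hcard]; exact hlt))
      intro m
      have h1 := eval_PP h0 hq n m
      rw [hP, eval_zero] at h1
      have h2 : (q ^ m) ^ n * ph q n ^ 2 ≠ 0 :=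
        mul_ne_zero (pow_ne_zero _ (pow_ne_zero _ h0)) (pow_ne_zero _ (ph_ne hq n))
      exact sub_eq_zero.1 ((mul_eq_zero.1 h1.symm).resolve_left h2)

end

end Q278.DP
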