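import Pool.Agent.Q278.DPb

set_option autoImplicit false

/-! Linearization of products of the basis functions, and their sums. -/

namespace Q278.DP

open Finset Q278.QDel

variable {K : Type*} [Field K]

/-- linearization coefficients -/
def Cf (q : K) (i j l : ℕ) : K := q⁻¹ ^ (l * (i + j - l)) * gb q l i * gb q l j * gb q (i + j) l

variable {q : K} (h0 : q ≠ 0) (hq : ∀ i, 0 < i → 1 - q ^ i ≠ 0)

section
include hq

theorem gb_up (N l : ℕ) : gb q (N + 1) l * (1 - q ^ (N + 1 - l)) = (1 - q ^ (N + 1)) * gb q N l := by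
  rw [← gb_shift hq N l, gb_step hq (N + 1) l]

end

include h0 hq

theorem ee_step (l k : ℕ) : (q⁻¹ ^ k + q ^ (k + 1) - q⁻¹ ^ l - q ^ (l + 1)) * ee q l k =
    (1 - q ^ (l + 1)) ^ 2 * ee q (l + 1) k := by
  unfold ee
  have h1 := gb_step hq k l
  have h2 := gb_shift hq (k + l) l
  rw [show k + (l + 1) = k + l + 1 by ring]
  have e : (1 - q ^ (l + 1)) ^ 2 * (gb q (k + l + 1) (l + 1) * gb q k (l + 1) *
      q⁻¹ ^ ((l + 1) * k)) = (gb q (k + l + 1) (l + 1) * (1 - q ^ (l + 1))) *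
      (gb q k (l + 1) * (1 - q ^ (l + 1))) * q⁻¹ ^ ((l + 1) * k) := by ring
  rw [e, h1, h2]
  rcases Nat.lt_or_ge k l with h | h
  · rw [gb_lt q h]; ring
  · obtain ⟨d, rfl⟩ : ∃ d, k = l + d := ⟨k - l, by omega⟩
    rw [Nat.add_sub_cancel_left]
    have e1 : q⁻¹ ^ ((l + 1) * (l + d)) = q⁻¹ ^ (l * (l + d)) * q⁻¹ ^ (l + d) := by
      rw [← pow_add]; congr 1; ring
    have e2 : q⁻¹ ^ l * q ^ l = 1 := by rw [← mul_pow, inv_mul_cancel₀ h0, one_pow]
    have e3 : q⁻¹ ^ d * q ^ d = 1 := by rw [← mul_pow, inv_mul_cancel₀ h0, one_pow]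
    rw [e1]
    have e4 : q⁻¹ ^ (l + d) + q ^ (l + d + 1) - q⁻¹ ^ l - q ^ (l + 1) =
        (1 - q ^ (l + d + l + 1)) * (1 - q ^ d) * q⁻¹ ^ (l + d) := by
      rw [pow_add q⁻¹, pow_succ q (l + d), pow_add q l d, pow_succ q l,
        show l + d + l + 1 = l + l + d + 1 by ring, pow_succ q (l + l + d), pow_add q (l + l) d,
        pow_add q l l]
      linear_combination (q⁻¹ ^ l) * e3 + (q * q ^ l * (1 - q ^ d)) * ((q⁻¹ ^ d * q ^ d) * e2 + e3)
    rw [e4]
    ring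

theorem Cf_gen (a b c : ℕ) (hl : 0 < a + b + c) :
    (1 - q ^ (b + c + 1)) ^ 2 * Cf q (a + b) (b + c + 1) (a + b + c) =
    (q⁻¹ ^ (a + b + c) + q ^ (a + b + c + 1) - q⁻¹ ^ (b + c) - q ^ (b + c + 1)) *
      Cf q (a + b) (b + c) (a + b + c) +
    (1 - q ^ (a + b + c)) ^ 2 * Cf q (a + b) (b + c) (a + b + c - 1) := by
  obtain ⟨m, hm⟩ : ∃ m, a + b + c = m + 1 := ⟨a + b + c - 1, by omega⟩
  have r1 := gb_step hq (a + b + c) (b + c)
  have r2 := gb_up hq (a + b + (b + c)) (a + b + c)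
  have r3 := gb_up hq m (a + b)
  have r4 := gb_up hq m (b + c)
  have r5 := gb_step hq (a + b + (b + c)) m
  rw [← hm] at r3 r4 r5
  rw [show a + b + c - (b + c) = a by omega] at r1 r4
  rw [show a + b + (b + c) + 1 - (a + b + c) = b + 1 by omega] at r2
  rw [show a + b + c - (a + b) = c by omega] at r3
  rw [show a + b + (b + c) - m = b + 1 by omega] at r5
  unfold Cf
  rw [show a + b + c - 1 = m by omega, show a + b + (b + c + 1) - (a + b + c) = b + 1 by omega,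
    show a + b + (b + c) - (a + b + c) = b by omega, show a + b + (b + c) - m = b + 1 by omega,
    show a + b + (b + c + 1) = a + b + (b + c) + 1 by ring]
  have n1 := hq (b + 1) (by omega)
  have x1 : q⁻¹ ^ ((a + b + c) * (b + 1)) = q⁻¹ ^ ((a + b + c) * b) * q⁻¹ ^ (a + b + c) := by
    rw [← pow_add]; congr 1
  have x2 : q⁻¹ ^ (m * (b + 1)) = q⁻¹ ^ ((a + b + c) * b) * q⁻¹ ^ (a + b + c) * q ^ (b + 1) := by
    have : q⁻¹ ^ (b + 1) * q ^ (b + 1) = 1 := by rw [← mul_pow, inv_mul_cancel₀ h0, one_pow]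
    have y : q⁻¹ ^ ((a + b + c) * (b + 1)) = q⁻¹ ^ (m * (b + 1)) * q⁻¹ ^ (b + 1) := by
      rw [← pow_add, hm]; congr 1; ring
    rw [← x1, y]
    linear_combination (-(q⁻¹ ^ (m * (b + 1)))) * this
  rw [x1, x2]
  apply mul_right_cancel₀ n1
  generalize q⁻¹ ^ ((a + b + c) * b) = s
  have ea : q⁻¹ ^ a * q ^ a = 1 := by rw [← mul_pow, inv_mul_cancel₀ h0, one_pow]
  have eb : q⁻¹ ^ b * q ^ b = 1 := by rw [← mul_pow, inv_mul_cancel₀ h0, one_pow]
  have ec : q⁻¹ ^ c * q ^ c = 1 := by rw [← mul_pow, inv_mul_cancel₀ h0, one_pow]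
  -- polynomial identity
  have key : (1 - q ^ (b + c + 1)) * q⁻¹ ^ (a + b + c) * (1 - q ^ (a + b + (b + c) + 1)) *
      (1 - q ^ a) =
      (q⁻¹ ^ (a + b + c) + q ^ (a + b + c + 1) - q⁻¹ ^ (b + c) - q ^ (b + c + 1)) *
        (1 - q ^ (b + 1)) +
      q⁻¹ ^ (a + b + c) * q ^ (b + 1) * (1 - q ^ c) * (1 - q ^ a) * (1 - q ^ (a + b + c)) := by
    have hA : q ^ a ≠ 0 := pow_ne_zero _ h0
    have hB : q ^ b ≠ 0 := pow_ne_zero _ h0
    have hC : q ^ c ≠ 0 := pow_ne_zero _ h0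
    simp only [inv_pow, pow_add, pow_one]
    field_simp
    ring
  have e1 : (1 - q ^ (b + c + 1)) ^ 2 * (s * q⁻¹ ^ (a + b + c) * gb q (a + b + c) (a + b) *
      gb q (a + b + c) (b + c + 1) * gb q (a + b + (b + c) + 1) (a + b + c)) * (1 - q ^ (b + 1)) =
      (1 - q ^ (b + c + 1)) * s * q⁻¹ ^ (a + b + c) * gb q (a + b + c) (a + b) *
        (gb q (a + b + c) (b + c + 1) * (1 - q ^ (b + c + 1))) *
        (gb q (a + b + (b + c) + 1) (a + b + c) * (1 - q ^ (b + 1))) := by ring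
  have e2 : (1 - q ^ (a + b + c)) ^ 2 * (s * q⁻¹ ^ (a + b + c) * q ^ (b + 1) * gb q m (a + b) *
      gb q m (b + c) * gb q (a + b + (b + c)) m) * (1 - q ^ (b + 1)) =
      s * q⁻¹ ^ (a + b + c) * q ^ (b + 1) * ((1 - q ^ (a + b + c)) * gb q m (a + b)) *
        ((1 - q ^ (a + b + c)) * gb q m (b + c)) *
        (gb q (a + b + (b + c)) m * (1 - q ^ (b + 1))) := by ring
  rw [add_mul, e1, e2, r1, r2, ← r3, ← r4, ← r5, hm]
  rw [hm] at key
  linear_combination (s * gb q (m + 1) (a + b) * gb q (m + 1) (b + c) *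
    gb q (a + b + (b + c)) (m + 1)) * key

theorem Cf_succ (i j m : ℕ) : (1 - q ^ (j + 1)) ^ 2 * Cf q i (j + 1) (m + 1) =
    (q⁻¹ ^ (m + 1) + q ^ (m + 1 + 1) - q⁻¹ ^ j - q ^ (j + 1)) * Cf q i j (m + 1) +
      (1 - q ^ (m + 1)) ^ 2 * Cf q i j m := by
  rcases Nat.lt_or_ge (m + 1) i with h | h
  · unfold Cf
    rw [gb_lt q h, gb_lt q (show m < i by omega)]
    ring
  rcases Nat.lt_or_ge (m + 1) j with h' | h'
  · unfold Cf
    rw [gb_lt q h', gb_lt q (show m < j by omega), gb_lt q (show m + 1 < j + 1 by omega)]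
    ring
  rcases Nat.lt_or_ge (i + j) (m + 1) with h2 | h2
  · rcases Nat.lt_or_ge (i + j) m with h3 | h3
    · unfold Cf
      rw [gb_lt q h2, gb_lt q h3, gb_lt q (show i + (j + 1) < m + 1 by omega)]
      ring
    · obtain rfl : m = i + j := by omega
      unfold Cf
      rw [gb_lt q h2, show i + (j + 1) = i + j + 1 by ring, gb_self hq, gb_self hq,
        show i + j + 1 - (i + j + 1) = 0 by omega, show i + j - (i + j) = 0 by omega]
      have s1 := gb_shift hq (i + j) j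
      have s2 := gb_symm hq (show i + (j + 1) = i + j + 1 by ring)
      have s3 := gb_symm hq (show i + j = i + j from rfl)
      rw [s2, s3]
      simp only [mul_zero, pow_zero]
      linear_combination (gb q (i + j + 1) (j + 1) * (1 - q ^ (j + 1)) +
        (1 - q ^ (i + j + 1)) * gb q (i + j) j) * s1
  · obtain ⟨b, hb⟩ : ∃ b, i + j = m + 1 + b := ⟨i + j - (m + 1), by omega⟩
    obtain ⟨a, ha⟩ : ∃ a, m + 1 = j + a := ⟨m + 1 - j, by omega⟩
    obtain ⟨c, hc⟩ : ∃ c, m + 1 = i + c := ⟨m + 1 - i, by omega⟩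
    have hi : i = a + b := by omega
    have hj : j = b + c := by omega
    have hm : m + 1 = a + b + c := by omega
    have := Cf_gen h0 hq a b c (by omega)
    rw [← hm, ← hi, ← hj] at this
    rw [show m + 1 - 1 = m by omega] at this
    exact this

theorem lin (i j k : ℕ) : ee q i k * ee q j k = ∑ l ∈ range (i + j + 1), Cf q i j l * ee q l k := by
  induction j with
  | zero =>
    rw [ee_zero, mul_one, add_zero, sum_range_succ, sum_eq_zero]
    · unfold Cf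
      rw [add_zero, gb_self hq, gb_zero, Nat.sub_self, mul_zero, pow_zero]
      ring
    · intro l hl
      have hl := mem_range.1 hl
      unfold Cf
      rw [gb_lt q hl]
      ring
  | succ j ih =>
    have hj := hq (j + 1) (Nat.succ_pos j)
    apply mul_left_cancel₀ (pow_ne_zero 2 hj)
    have e1 : (1 - q ^ (j + 1)) ^ 2 * (ee q i k * ee q (j + 1) k) =
        (q⁻¹ ^ k + q ^ (k + 1) - q⁻¹ ^ j - q ^ (j + 1)) * (ee q i k * ee q j k) := by
      linear_combination (-(ee q i k)) * ee_step h0 hq j k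
    rw [e1, ih, mul_sum, mul_sum]
    have e2 : ∀ l ∈ range (i + j + 1), (q⁻¹ ^ k + q ^ (k + 1) - q⁻¹ ^ j - q ^ (j + 1)) *
        (Cf q i j l * ee q l k) = (q⁻¹ ^ l + q ^ (l + 1) - q⁻¹ ^ j - q ^ (j + 1)) *
          Cf q i j l * ee q l k + Cf q i j l * ((1 - q ^ (l + 1)) ^ 2 * ee q (l + 1) k) := by
      intro l _
      linear_combination (Cf q i j l) * ee_step h0 hq l k
    rw [sum_congr rfl e2, sum_add_distrib]
    have e3 : ∑ l ∈ range (i + j + 1), (q⁻¹ ^ l + q ^ (l + 1) - q⁻¹ ^ j - q ^ (j + 1)) *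
        Cf q i j l * ee q l k = ∑ l ∈ range (i + j + 1), (q⁻¹ ^ (l + 1) + q ^ (l + 1 + 1) - q⁻¹ ^ j -
          q ^ (j + 1)) * Cf q i j (l + 1) * ee q (l + 1) k := by
      have a1 := sum_range_succ' (fun l => (q⁻¹ ^ l + q ^ (l + 1) - q⁻¹ ^ j - q ^ (j + 1)) *
        Cf q i j l * ee q l k) (i + j + 1)
      rw [sum_range_succ] at a1
      have a2 : Cf q i j (i + j + 1) = 0 := by
        unfold Cf; rw [gb_lt q (Nat.lt_succ_self (i + j))]; ring
      have a3 : (q⁻¹ ^ 0 + q ^ (0 + 1) - q⁻¹ ^ j - q ^ (j + 1)) * Cf q i j 0 = 0 := by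
        rcases Nat.eq_zero_or_pos j with rfl | hj
        · ring
        · unfold Cf; rw [gb_lt q hj]; ring
      rw [a2, a3] at a1
      linear_combination a1
    rw [e3, ← sum_add_distrib, show i + (j + 1) + 1 = i + j + 1 + 1 by ring]
    conv_rhs => rw [sum_range_succ']
    have e4 : Cf q i (j + 1) 0 = 0 := by
      unfold Cf; rw [gb_lt q (Nat.succ_pos j)]; ring
    rw [e4, zero_mul, mul_zero, add_zero]
    apply sum_congr rfl
    intro l _
    linear_combination (-(ee q (l + 1) k)) * Cf_succ h0 hq i j l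

theorem gbn (n l : ℕ) : gb q (n + 1 + l) l * (1 - q ^ (n + 1)) =
    (1 - q ^ (n + l + 1)) * gb q (n + l) l := by
  have h := gb_up hq (n + l) l
  rw [show n + l + 1 - l = n + 1 by omega, show n + l + 1 = n + 1 + l by ring] at h
  rw [h, show n + 1 + l = n + l + 1 by ring]

/-- first sum -/
theorem sumB (l n : ℕ) : ∑ k ∈ range n, (1 - q ^ (2 * k + 1)) * q⁻¹ ^ k * ee q l k =
    (1 - q ^ n) * (q ^ (l + 1) * q⁻¹ ^ ((l + 1) * n)) * (gb q (n + l) l * gb q n (l + 1)) := by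
  induction n with
  | zero => simp
  | succ n ih =>
    rw [sum_range_succ, ih]
    unfold ee
    have h1 := gbn h0 hq n l
    have h2 := gb_shift hq n l
    have h3 := gb_step hq n l
    have hl := hq (l + 1) (Nat.succ_pos l)
    apply mul_right_cancel₀ hl
    have e1 : (1 - q ^ (n + 1)) * (q ^ (l + 1) * q⁻¹ ^ ((l + 1) * (n + 1))) *
        (gb q (n + 1 + l) l * gb q (n + 1) (l + 1)) * (1 - q ^ (l + 1)) =
        (q ^ (l + 1) * q⁻¹ ^ ((l + 1) * (n + 1))) * (gb q (n + 1 + l) l * (1 - q ^ (n + 1))) *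
        (gb q (n + 1) (l + 1) * (1 - q ^ (l + 1))) := by ring
    rw [e1, h1, h2]
    have e2 : ((1 - q ^ n) * (q ^ (l + 1) * q⁻¹ ^ ((l + 1) * n)) *
        (gb q (n + l) l * gb q n (l + 1)) + (1 - q ^ (2 * n + 1)) * q⁻¹ ^ n *
        (gb q (n + l) l * gb q n l * q⁻¹ ^ (l * n))) * (1 - q ^ (l + 1)) =
        (1 - q ^ n) * (q ^ (l + 1) * q⁻¹ ^ ((l + 1) * n)) * (gb q (n + l) l *
        (gb q n (l + 1) * (1 - q ^ (l + 1)))) + (1 - q ^ (2 * n + 1)) * q⁻¹ ^ n *
        (gb q (n + l) l * gb q n l * q⁻¹ ^ (l * n)) * (1 - q ^ (l + 1)) := by ring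
    rw [e2, h3]
    rcases Nat.lt_or_ge n l with h | h
    · rw [gb_lt q h]; ring
    · obtain ⟨d, rfl⟩ : ∃ d, n = l + d := ⟨n - l, by omega⟩
      rw [Nat.add_sub_cancel_left]
      have x1 : q ^ (l + 1) * q⁻¹ ^ ((l + 1) * (l + d + 1)) = q⁻¹ ^ ((l + 1) * (l + d)) := by
        have : q⁻¹ ^ (l + 1) * q ^ (l + 1) = 1 := by rw [← mul_pow, inv_mul_cancel₀ h0, one_pow]
        rw [show (l + 1) * (l + d + 1) = (l + 1) * (l + d) + (l + 1) by ring, pow_add]
        linear_combination (q⁻¹ ^ ((l + 1) * (l + d))) * this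
      have x2 : q⁻¹ ^ (l + d) * q⁻¹ ^ (l * (l + d)) = q⁻¹ ^ ((l + 1) * (l + d)) := by
        rw [← pow_add]; congr 1; ring
      have x3 : (1 - q ^ (2 * (l + d) + 1)) * q⁻¹ ^ (l + d) * (gb q (l + d + l) l *
          gb q (l + d) l * q⁻¹ ^ (l * (l + d))) * (1 - q ^ (l + 1)) =
          (1 - q ^ (2 * (l + d) + 1)) * (q⁻¹ ^ (l + d) * q⁻¹ ^ (l * (l + d))) *
          (gb q (l + d + l) l * gb q (l + d) l) * (1 - q ^ (l + 1)) := by ring
      rw [x1, x3, x2]
      have key : (1 - q ^ (l + d)) * q ^ (l + 1) * (1 - q ^ d) +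
          (1 - q ^ (2 * (l + d) + 1)) * (1 - q ^ (l + 1)) =
          (1 - q ^ (l + d + l + 1)) * (1 - q ^ (l + d + 1)) := by ring
      linear_combination (q⁻¹ ^ ((l + 1) * (l + d)) * gb q (l + d + l) l * gb q (l + d) l) * key

/-- second sum -/
theorem sumC (l n : ℕ) : ∑ k ∈ range (n + 1), (-1) ^ (n - k) * (1 - q ^ (2 * k + 1)) * q ^ tr k *
    ee q l k = (1 - q ^ (n + 1)) * (q ^ tr (n + 1) * q⁻¹ ^ (l * (n + 1))) *
      (gb q (n + 1 + l) l * gb q n l) := by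
  induction n with
  | zero =>
    rw [zero_add, sum_range_one]
    unfold ee
    rcases Nat.eq_zero_or_pos l with rfl | hl
    · simp [gb_zero, tr]
    · rw [gb_lt q hl]; ring
  | succ n ih =>
    rw [sum_range_succ]
    have e1 : ∑ k ∈ range (n + 1), (-1) ^ (n + 1 - k) * (1 - q ^ (2 * k + 1)) * q ^ tr k *
        ee q l k = -∑ k ∈ range (n + 1), (-1) ^ (n - k) * (1 - q ^ (2 * k + 1)) * q ^ tr k *
        ee q l k := by
      rw [← sum_neg_distrib]
      apply sum_congr rfl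
      intro k hk
      have hk := mem_range.1 hk
      rw [show n + 1 - k = n - k + 1 by omega, pow_succ]
      ring
    rw [e1, ih, Nat.sub_self, pow_zero, one_mul]
    unfold ee
    have h1 := gbn h0 hq (n + 1) l
    have h2 := gb_up hq n l
    have e2 : (1 - q ^ (n + 1 + 1)) * (q ^ tr (n + 1 + 1) * q⁻¹ ^ (l * (n + 1 + 1))) *
        (gb q (n + 1 + 1 + l) l * gb q (n + 1) l) = (q ^ tr (n + 1 + 1) *
        q⁻¹ ^ (l * (n + 1 + 1))) * gb q (n + 1) l * (gb q (n + 1 + 1 + l) l *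
        (1 - q ^ (n + 1 + 1))) := by ring
    have e3 : (1 - q ^ (n + 1)) * (q ^ tr (n + 1) * q⁻¹ ^ (l * (n + 1))) *
        (gb q (n + 1 + l) l * gb q n l) = (q ^ tr (n + 1) * q⁻¹ ^ (l * (n + 1))) *
        gb q (n + 1 + l) l * ((1 - q ^ (n + 1)) * gb q n l) := by ring
    rw [e2, e3, h1, ← h2]
    rcases Nat.lt_or_ge (n + 1) l with h | h
    · rw [gb_lt q h]; ring
    · obtain ⟨d, hd⟩ : ∃ d, n + 1 = l + d := ⟨n + 1 - l, by omega⟩
      rw [hd, Nat.add_sub_cancel_left]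
      have x1 : q ^ tr (l + d + 1) * q⁻¹ ^ (l * (l + d + 1)) =
          q ^ tr (l + d) * q⁻¹ ^ (l * (l + d)) * q ^ d := by
        have : q⁻¹ ^ l * q ^ l = 1 := by rw [← mul_pow, inv_mul_cancel₀ h0, one_pow]
        rw [tr_succ, show l * (l + d + 1) = l * (l + d) + l by ring, pow_add, pow_add q⁻¹,
          pow_add q l d]
        linear_combination (q ^ tr (l + d) * q⁻¹ ^ (l * (l + d)) * q ^ d) * this
      rw [x1]
      have key : -(1 - q ^ d) + (1 - q ^ (2 * (l + d) + 1)) =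
          q ^ d * (1 - q ^ (l + d + l + 1)) := by ring
      linear_combination (q ^ tr (l + d) * q⁻¹ ^ (l * (l + d)) * gb q (l + d + l) l *
        gb q (l + d) l) * key

end Q278.DP
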