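import Pool.Agent.Q278.DPc

set_option autoImplicit false

/-! Positivity of the sums. -/

namespace Q278.DP

open Finset Q278.QDel

variable {K : Type*} [Field K] {q : K} (h0 : q ≠ 0) (hq : ∀ i, 0 < i → 1 - q ^ i ≠ 0)
  {S : Subsemiring K} (hS : q ∈ S) (hSi : q⁻¹ ∈ S)

section
include hq hS

theorem gbS (n k : ℕ) : gb q n k ∈ S := by
  induction n generalizing k with
  | zero =>
    rcases k with _ | k
    · rw [gb_zero]; exact S.one_mem
    · rw [gb_lt q (Nat.succ_pos k)]; exact S.zero_mem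
  | succ n ih =>
    rcases k with _ | k
    · rw [gb_zero]; exact S.one_mem
    · rw [pascal1 hq]
      exact S.add_mem (ih k) (S.mul_mem (S.pow_mem hS _) (ih (k + 1)))

theorem brS (n : ℕ) : (1 - q ^ n) / (1 - q) ∈ S := by
  have h1 : 1 - q ≠ 0 := by simpa using hq 1 one_pos
  have h : (1 - q ^ n) / (1 - q) = ∑ i ∈ range n, q ^ i := by
    rw [div_eq_iff h1, mul_comm, mul_neg_geom_sum]
  rw [h]
  exact S.sum_mem fun i _ => S.pow_mem hS i

end

section
include hS

theorem m1S (n : ℕ) : m1 q n ∈ S :=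
  S.prod_mem fun _ _ => S.add_mem S.one_mem (S.pow_mem hS _)

end

section
include hq

theorem gb_ne {n k : ℕ} (h : k ≤ n) : gb q n k ≠ 0 := by
  intro h1
  have := gb_ph hq h
  rw [h1, zero_mul] at this
  exact ph_ne hq n this.symm

theorem gb_two (l d : ℕ) : gb q (l + d + l) l * gb q (l + d) l / gb q (2 * l) l =
    gb q (l + d + l) (2 * l) := by
  have h1 := gb_ph hq (show l ≤ l + d + l by omega)
  have h2 := gb_ph hq (show l ≤ l + d by omega)
  have h3 := gb_ph hq (show l ≤ 2 * l by omega)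
  have h4 := gb_ph hq (show 2 * l ≤ l + d + l by omega)
  rw [show l + d + l - l = l + d by omega] at h1
  rw [show l + d - l = d by omega] at h2
  rw [show 2 * l - l = l by omega] at h3
  rw [show l + d + l - 2 * l = d by omega] at h4
  have n1 := ph_ne hq l
  have n2 := ph_ne hq d
  have n3 := ph_ne hq (l + d)
  have n4 := ph_ne hq (2 * l)
  have n5 := gb_ne hq (show l ≤ 2 * l by omega)
  rw [div_eq_iff n5]
  have n6 : ph q l * ph q l * ph q d * ph q (l + d) ≠ 0 :=
    mul_ne_zero (mul_ne_zero (mul_ne_zero n1 n1) n2) n3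
  apply mul_right_cancel₀ n6
  have e1 : gb q (l + d + l) l * gb q (l + d) l * (ph q l * ph q l * ph q d * ph q (l + d)) =
      (gb q (l + d + l) l * (ph q l * ph q (l + d))) * (gb q (l + d) l * (ph q l * ph q d)) := by
    ring
  have e2 : gb q (l + d + l) (2 * l) * gb q (2 * l) l * (ph q l * ph q l * ph q d * ph q (l + d)) =
      (gb q (l + d + l) (2 * l) * ph q d) * (gb q (2 * l) l * (ph q l * ph q l)) *
        ph q (l + d) := by ring
  rw [e1, e2, h1, h2, h3, ← h4]
  ring

theorem cce (l d : ℕ) : cc q l * ee q l (l + d) = q ^ (l ^ 2) * q⁻¹ ^ (l * (l + d)) * (m1 q l *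
    m2 q l) * gb q (l + d + l) (2 * l) := by
  rw [← gb_two hq]
  unfold cc ee
  ring

end

include hq hS hSi

theorem cceS (l m : ℕ) : cc q l * ee q l m ∈ S := by
  rcases Nat.lt_or_ge m l with h | h
  · rw [ee_lt q h, mul_zero]; exact S.zero_mem
  · obtain ⟨d, rfl⟩ : ∃ d, m = l + d := ⟨m - l, by omega⟩
    rw [cce hq]
    refine S.mul_mem (S.mul_mem (S.mul_mem (S.pow_mem hS _) (S.pow_mem hSi _))
      (S.mul_mem (m1S hS l) ?_)) (gbS hq hS _ _)
    exact S.prod_mem fun _ _ => S.add_mem S.one_mem (S.pow_mem hS _)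

theorem CfS (i j l : ℕ) : Cf q i j l ∈ S :=
  S.mul_mem (S.mul_mem (S.mul_mem (S.pow_mem hSi _) (gbS hq hS _ _)) (gbS hq hS _ _))
    (gbS hq hS _ _)

omit hq hS hSi in
/-- positive expansions -/
def Ex (q : K) (S : Subsemiring K) (f : ℕ → K) : Prop :=
  ∃ N, ∃ c : ℕ → K, (∀ l, c l ∈ S) ∧ ∀ k, f k = ∑ l ∈ range N, c l * ee q l k

include h0

theorem Ex_mul {f g : ℕ → K} (hf : Ex q S f) (hg : Ex q S g) : Ex q S (fun k => f k * g k) := by
  obtain ⟨N, c, hc, h1⟩ := hf
  obtain ⟨M, d, hd, h2⟩ := hg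
  refine ⟨N + M, fun l => ∑ i ∈ range N, ∑ j ∈ range M, c i * d j * Cf q i j l, ?_, ?_⟩
  · intro l
    exact S.sum_mem fun i _ => S.sum_mem fun j _ =>
      S.mul_mem (S.mul_mem (hc i) (hd j)) (CfS hq hS hSi i j l)
  · intro k
    simp only
    rw [h1, h2, sum_mul_sum]
    have e : ∀ l ∈ range (N + M), (∑ i ∈ range N, ∑ j ∈ range M, c i * d j * Cf q i j l) *
        ee q l k = ∑ i ∈ range N, ∑ j ∈ range M, c i * d j * (Cf q i j l * ee q l k) := by
      intro l _
      rw [sum_mul]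
      apply sum_congr rfl
      intro i _
      rw [sum_mul]
      apply sum_congr rfl
      intro j _
      ring
    rw [sum_congr rfl e]
    conv_rhs => rw [sum_comm]
    apply sum_congr rfl
    intro i hi
    have hi := mem_range.1 hi
    conv_rhs => rw [sum_comm]
    apply sum_congr rfl
    intro j hj
    have hj := mem_range.1 hj
    rw [← mul_sum]
    have e1 : c i * ee q i k * (d j * ee q j k) = c i * d j * (ee q i k * ee q j k) := by ring
    rw [e1, lin h0 hq]
    congr 1
    apply sum_subset (range_subset_range.2 (by omega))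
    intro l _ hl
    have : i + j < l := by
      by_contra h
      exact hl (mem_range.2 (by omega))
    unfold Cf
    rw [gb_lt q this]
    ring

theorem Ex_prod (m : ℕ) : Ex q S (fun k => D q m k * D q⁻¹ m k) := by
  refine ⟨m + 1, fun l => cc q l * ee q l m, fun l => cceS hq hS hSi l m, ?_⟩
  intro k
  simp only
  rw [prodf h0 hq k m]
  have e1 : ∑ l ∈ range (k + 1), cc q l * ee q l k * ee q l m =
      ∑ l ∈ range (k + m + 1), cc q l * ee q l k * ee q l m := by
    apply sum_subset (range_subset_range.2 (by omega))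
    intro l _ hl
    have : k < l := by
      by_contra h
      exact hl (mem_range.2 (by omega))
    rw [ee_lt q this]
    ring
  have e2 : ∑ l ∈ range (m + 1), cc q l * ee q l m * ee q l k =
      ∑ l ∈ range (k + m + 1), cc q l * ee q l m * ee q l k := by
    apply sum_subset (range_subset_range.2 (by omega))
    intro l _ hl
    have : m < l := by
      by_contra h
      exact hl (mem_range.2 (by omega))
    rw [ee_lt q this]
    ring
  rw [e1, e2]
  apply sum_congr rfl
  intro l _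
  ring

theorem Ex_pow {f : ℕ → K} (hf : Ex q S f) (r : ℕ) : Ex q S (fun k => f k ^ r) := by
  induction r with
  | zero =>
    refine ⟨1, fun _ => 1, fun _ => S.one_mem, ?_⟩
    intro k
    rw [sum_range_one, ee_zero]
    simp
  | succ r ih =>
    have := Ex_mul h0 hq hS hSi ih hf
    simpa only [← pow_succ] using this

theorem B_mem {f : ℕ → K} (hf : Ex q S f) {n : ℕ} (hn : 0 < n) :
    (1 / (1 - q ^ n)) * ∑ k ∈ range n, (1 - q ^ (2 * k + 1)) * q⁻¹ ^ k * f k ∈ S := by
  obtain ⟨N, c, hc, h1⟩ := hf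
  have hn' := hq n hn
  have e : (1 / (1 - q ^ n)) * ∑ k ∈ range n, (1 - q ^ (2 * k + 1)) * q⁻¹ ^ k * f k =
      ∑ l ∈ range N, c l * ((q ^ (l + 1) * q⁻¹ ^ ((l + 1) * n)) * (gb q (n + l) l *
        gb q n (l + 1))) := by
    have e1 : ∑ k ∈ range n, (1 - q ^ (2 * k + 1)) * q⁻¹ ^ k * f k = ∑ l ∈ range N, c l *
        ∑ k ∈ range n, (1 - q ^ (2 * k + 1)) * q⁻¹ ^ k * ee q l k := by
      have : ∀ k ∈ range n, (1 - q ^ (2 * k + 1)) * q⁻¹ ^ k * f k = ∑ l ∈ range N,
          c l * ((1 - q ^ (2 * k + 1)) * q⁻¹ ^ k * ee q l k) := by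
        intro k _
        rw [h1, mul_sum]
        apply sum_congr rfl
        intro l _
        ring
      rw [sum_congr rfl this, sum_comm]
      apply sum_congr rfl
      intro l _
      rw [mul_sum]
    rw [e1, mul_sum]
    apply sum_congr rfl
    intro l _
    rw [sumB h0 hq]
    field_simp
  rw [e]
  refine S.sum_mem fun l _ => S.mul_mem (hc l) (S.mul_mem (S.mul_mem (S.pow_mem hS _)
    (S.pow_mem hSi _)) (S.mul_mem (gbS hq hS _ _) (gbS hq hS _ _)))

theorem C_mem {f : ℕ → K} (hf : Ex q S f) (n : ℕ) :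
    (1 / (1 - q ^ (n + 1))) * ∑ k ∈ range (n + 1), (-1) ^ (n - k) * (1 - q ^ (2 * k + 1)) *
      q ^ tr k * f k ∈ S := by
  obtain ⟨N, c, hc, h1⟩ := hf
  have hn' := hq (n + 1) (Nat.succ_pos n)
  have e : (1 / (1 - q ^ (n + 1))) * ∑ k ∈ range (n + 1), (-1) ^ (n - k) *
      (1 - q ^ (2 * k + 1)) * q ^ tr k * f k =
      ∑ l ∈ range N, c l * ((q ^ tr (n + 1) * q⁻¹ ^ (l * (n + 1))) *
      (gb q (n + 1 + l) l * gb q n l)) := by
    have e1 : ∑ k ∈ range (n + 1), (-1) ^ (n - k) * (1 - q ^ (2 * k + 1)) * q ^ tr k * f k =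
        ∑ l ∈ range N, c l *
        ∑ k ∈ range (n + 1), (-1) ^ (n - k) * (1 - q ^ (2 * k + 1)) * q ^ tr k * ee q l k := by
      have : ∀ k ∈ range (n + 1), (-1) ^ (n - k) * (1 - q ^ (2 * k + 1)) * q ^ tr k * f k =
          ∑ l ∈ range N, c l * ((-1) ^ (n - k) * (1 - q ^ (2 * k + 1)) * q ^ tr k *
            ee q l k) := by
        intro k _
        rw [h1, mul_sum]
        apply sum_congr rfl
        intro l _
        ring
      rw [sum_congr rfl this, sum_comm]
      apply sum_congr rfl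
      intro l _
      rw [mul_sum]
    rw [e1, mul_sum]
    apply sum_congr rfl
    intro l _
    rw [sumC h0 hq]
    field_simp
  rw [e]
  refine S.sum_mem fun l _ => S.mul_mem (hc l) (S.mul_mem (S.mul_mem (S.pow_mem hS _)
    (S.pow_mem hSi _)) (S.mul_mem (gbS hq hS _ _) (gbS hq hS _ _)))

/-- the factor in the formula for `A` -/
theorem X_memS (l m : ℕ) (hm : 0 < m) : cc q l * ee q l m * ((1 - q ^ m) * (1 - q ^ (m + 1))) /
    ((1 - q ^ 2) * (1 - q ^ (l + 1))) ∈ S := by
  have h1 : 1 - q ≠ 0 := by simpa using hq 1 one_pos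
  have h2 := hq 2 two_pos
  rcases Nat.lt_or_ge m l with h | h
  · rw [ee_lt q h, mul_zero, zero_mul, zero_div]; exact S.zero_mem
  · rcases Nat.eq_zero_or_pos l with rfl | hl
    · have e : cc q 0 * ee q 0 m * ((1 - q ^ m) * (1 - q ^ (m + 1))) /
          ((1 - q ^ 2) * (1 - q ^ (0 + 1))) = gb q (m + 1) 2 := by
        unfold gb
        rw [prod_range_succ, prod_range_one, ee_zero]
        simp only [cc, m1, m2, range_zero, prod_empty, gb_zero, mul_one, zero_add, pow_one,
          Nat.sub_zero, Nat.add_sub_cancel]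
        simp only [ne_eq, OfNat.ofNat_ne_zero, not_false_eq_true, zero_pow, pow_zero, mul_zero,
          gb_zero, div_one, one_mul]
        field_simp
      rw [e]
      exact gbS hq hS _ _
    · obtain ⟨d, rfl⟩ : ∃ d, m = l + d := ⟨m - l, by omega⟩
      obtain ⟨l', rfl⟩ : ∃ l', l = l' + 1 := ⟨l - 1, by omega⟩
      set l := l' + 1 with hl'
      have e0 : m2 q l = (1 + q) * ∏ i ∈ range l', (1 + q ^ (i + 2)) := by
        unfold m2
        rw [hl', prod_range_succ', zero_add, pow_one, mul_comm]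
      have r1 := gb_shift hq (l + d + l) (2 * l + 1)
      have r2 := gb_step hq (l + d + l) (2 * l)
      rw [show l + d + l - 2 * l = d by omega] at r2
      have h3 := hq (l + 1) (Nat.succ_pos l)
      have key : gb q (l + d + l) (2 * l) * ((1 - q ^ (l + d)) * (1 - q ^ (l + d + 1))) =
          gb q (l + d + l + 1) (2 * l + 1 + 1) * (1 - q ^ (2 * l + 1)) *
            ((1 - q ^ (l + 1)) * (1 + q ^ (l + 1))) +
          q ^ d * gb q (l + d + l) (2 * l) * (1 - q ^ l) * (1 - q ^ (l + 1)) := by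
        have e1 : (1 - q ^ (l + 1)) * (1 + q ^ (l + 1)) = 1 - q ^ (2 * l + 1 + 1) := by ring
        rw [e1]
        have e2 : gb q (l + d + l + 1) (2 * l + 1 + 1) * (1 - q ^ (2 * l + 1)) *
            (1 - q ^ (2 * l + 1 + 1)) = (gb q (l + d + l + 1) (2 * l + 1 + 1) *
            (1 - q ^ (2 * l + 1 + 1))) * (1 - q ^ (2 * l + 1)) := by ring
        rw [e2, r1, mul_assoc, r2]
        ring
      have e : cc q l * ee q l (l + d) * ((1 - q ^ (l + d)) * (1 - q ^ (l + d + 1))) /
          ((1 - q ^ 2) * (1 - q ^ (l + 1))) =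
          q ^ (l ^ 2) * q⁻¹ ^ (l * (l + d)) * (m1 q l * ∏ i ∈ range l', (1 + q ^ (i + 2))) *
          (gb q (l + d + l + 1) (2 * l + 1 + 1) * ((1 - q ^ (2 * l + 1)) / (1 - q)) *
            (1 + q ^ (l + 1)) + q ^ d * gb q (l + d + l) (2 * l) * ((1 - q ^ l) / (1 - q))) := by
        rw [cce hq, e0]
        have e3 : q ^ (l ^ 2) * q⁻¹ ^ (l * (l + d)) * (m1 q l * ((1 + q) *
            ∏ i ∈ range l', (1 + q ^ (i + 2)))) * gb q (l + d + l) (2 * l) *
            ((1 - q ^ (l + d)) * (1 - q ^ (l + d + 1))) = q ^ (l ^ 2) * q⁻¹ ^ (l * (l + d)) *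
            (m1 q l * ((1 + q) * ∏ i ∈ range l', (1 + q ^ (i + 2)))) *
            (gb q (l + d + l) (2 * l) * ((1 - q ^ (l + d)) * (1 - q ^ (l + d + 1)))) := by ring
        rw [e3, key]
        have e4 : 1 - q ^ 2 = (1 - q) * (1 + q) := by ring
        rw [e4] at h2 ⊢
        have h4 := right_ne_zero_of_mul h2
        generalize q ^ (l + 1) = y at *
        generalize q ^ (2 * l + 1) = z at *
        field_simp
      rw [e]
      refine S.mul_mem (S.mul_mem (S.mul_mem (S.pow_mem hS _) (S.pow_mem hSi _))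
        (S.mul_mem (m1S hS l) (S.prod_mem fun _ _ => S.add_mem S.one_mem (S.pow_mem hS _))))
        (S.add_mem (S.mul_mem (S.mul_mem (gbS hq hS _ _) (brS hq hS _))
          (S.add_mem S.one_mem (S.pow_mem hS _)))
          (S.mul_mem (S.mul_mem (S.pow_mem hS _) (gbS hq hS _ _)) (brS hq hS _)))

theorem A_mem (m n : ℕ) (hm : 0 < m) : (1 - q ^ m) * (1 - q ^ (m + 1)) / ((1 - q ^ 2) *
    (1 - q ^ (n + 1)) ^ 2) * ∑ k ∈ range (n + 1), (1 - q ^ (2 * k + 1)) * q⁻¹ ^ k *
      (D q m k * D q⁻¹ m k) ∈ S := by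
  have hn' := hq (n + 1) (Nat.succ_pos n)
  have h2 := hq 2 two_pos
  have h1 : ∀ k, D q m k * D q⁻¹ m k = ∑ l ∈ range (m + 1), (cc q l * ee q l m) * ee q l k := by
    intro k
    rw [prodf h0 hq k m]
    have e1 : ∑ l ∈ range (k + 1), cc q l * ee q l k * ee q l m =
        ∑ l ∈ range (k + m + 1), cc q l * ee q l k * ee q l m := by
      apply sum_subset (range_subset_range.2 (by omega))
      intro l _ hl
      have : k < l := by
        by_contra h
        exact hl (mem_range.2 (by omega))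
      rw [ee_lt q this]
      ring
    have e2 : ∑ l ∈ range (m + 1), cc q l * ee q l m * ee q l k =
        ∑ l ∈ range (k + m + 1), cc q l * ee q l m * ee q l k := by
      apply sum_subset (range_subset_range.2 (by omega))
      intro l _ hl
      have : m < l := by
        by_contra h
        exact hl (mem_range.2 (by omega))
      rw [ee_lt q this]
      ring
    rw [e1, e2]
    apply sum_congr rfl
    intro l _
    ring
  have e : (1 - q ^ m) * (1 - q ^ (m + 1)) / ((1 - q ^ 2) *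
      (1 - q ^ (n + 1)) ^ 2) * ∑ k ∈ range (n + 1), (1 - q ^ (2 * k + 1)) * q⁻¹ ^ k *
      (D q m k * D q⁻¹ m k) = ∑ l ∈ range (m + 1), (q ^ (l + 1) * q⁻¹ ^ ((l + 1) * (n + 1))) *
        (gb q (n + 1 + l) l * gb q n l) *
        (cc q l * ee q l m * ((1 - q ^ m) * (1 - q ^ (m + 1))) /
          ((1 - q ^ 2) * (1 - q ^ (l + 1)))) := by
    have e1 : ∑ k ∈ range (n + 1), (1 - q ^ (2 * k + 1)) * q⁻¹ ^ k * (D q m k * D q⁻¹ m k) =
        ∑ l ∈ range (m + 1), (cc q l * ee q l m) *
        ∑ k ∈ range (n + 1), (1 - q ^ (2 * k + 1)) * q⁻¹ ^ k * ee q l k := by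
      have : ∀ k ∈ range (n + 1), (1 - q ^ (2 * k + 1)) * q⁻¹ ^ k * (D q m k * D q⁻¹ m k) =
          ∑ l ∈ range (m + 1),
          (cc q l * ee q l m) * ((1 - q ^ (2 * k + 1)) * q⁻¹ ^ k * ee q l k) := by
        intro k _
        rw [h1, mul_sum]
        apply sum_congr rfl
        intro l _
        ring
      rw [sum_congr rfl this, sum_comm]
      apply sum_congr rfl
      intro l _
      rw [mul_sum]
    rw [e1, mul_sum]
    apply sum_congr rfl
    intro l _
    rw [sumB h0 hq]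
    have h3 := hq (l + 1) (Nat.succ_pos l)
    have h4 := gb_shift hq n l
    have h5 : gb q (n + 1) (l + 1) = (1 - q ^ (n + 1)) * gb q n l / (1 - q ^ (l + 1)) := by
      rw [eq_div_iff h3, h4]
    rw [h5]
    generalize q ^ (l + 1) = y at *
    generalize q ^ (n + 1) = z at *
    generalize q ^ (m + 1) = u at *
    field_simp
  rw [e]
  refine S.sum_mem fun l _ => S.mul_mem (S.mul_mem (S.mul_mem (S.pow_mem hS _)
    (S.pow_mem hSi _)) (S.mul_mem (gbS hq hS _ _) (gbS hq hS _ _))) (X_memS h0 hq hS hSi l m hm)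

end Q278.DP
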