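import Pool.Agent.Q278.Land

set_option autoImplicit false

/-! Products of the numbers `C(k,l) C(k+l,l)` and powers of Delannoy polynomials. -/

namespace Q278.Del4

open Finset

/-- the numbers `C(k,l) C(k+l,l)` -/
def A (k l : ℕ) : ℤ := (k.choose l : ℤ) * ((k + l).choose l : ℤ)

theorem A_zero (k : ℕ) : A k 0 = 1 := by simp [A]

theorem A_gt {k l : ℕ} (h : k < l) : A k l = 0 := by simp [A, Nat.choose_eq_zero_of_lt h]

theorem A_succ (k l : ℕ) : ((l : ℤ) + 1) ^ 2 * A k (l + 1) = ((k : ℤ) - l) * (k + l + 1) * A k l := by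
  unfold A
  have h1 : (k.choose (l + 1) : ℤ) * (l + 1) = k.choose l * ((k : ℤ) - l) := by
    rcases Nat.lt_or_ge k l with h | h
    · rw [Nat.choose_eq_zero_of_lt h, Nat.choose_eq_zero_of_lt (show k < l + 1 by omega)]; simp
    · have := Nat.choose_succ_right_eq k l
      rw [← Nat.cast_sub h]
      exact_mod_cast this
  have h2 : ((k + (l + 1)).choose (l + 1) : ℤ) * (l + 1) = (k + l + 1) * (k + l).choose l := by
    have := Nat.add_one_mul_choose_eq (k + l) l
    have h3 : (((k + l + 1) * (k + l).choose l : ℕ) : ℤ) =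
      (((k + l + 1).choose (l + 1) * (l + 1) : ℕ) : ℤ) := by exact_mod_cast this
    push_cast at h3
    rw [← add_assoc]
    linear_combination -h3
  linear_combination ((l : ℤ) + 1) * ((k + (l + 1)).choose (l + 1) : ℤ) * h1 +
    ((k : ℤ) - l) * k.choose l * h2

/-- the structure constants -/
def c (i j s : ℕ) : ℤ := ((i + j).choose i : ℤ) * (j.choose s : ℤ) * ((i + s).choose j : ℤ)

theorem c_rec (i j s : ℕ) : ((i : ℤ) + 1) ^ 2 * c (i + 1) j s =
    ((i : ℤ) + s + 1) ^ 2 * c i j s + (s + 1) * (2 * i + s + 2) * c i j (s + 1) := by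
  unfold c
  have h1 : (((i + 1 + j).choose (i + 1) : ℕ) : ℤ) * (i + 1) = (i + j + 1) * (i + j).choose i := by
    have := Nat.add_one_mul_choose_eq (i + j) i
    have h3 : (((i + j + 1) * (i + j).choose i : ℕ) : ℤ) =
      (((i + j + 1).choose (i + 1) * (i + 1) : ℕ) : ℤ) := by exact_mod_cast this
    push_cast at h3
    rw [show i + 1 + j = i + j + 1 by ring]
    linear_combination -h3
  have h2 : (j.choose (s + 1) : ℤ) * (s + 1) = j.choose s * ((j : ℤ) - s) := by
    rcases Nat.lt_or_ge j s with h | h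
    · rw [Nat.choose_eq_zero_of_lt h, Nat.choose_eq_zero_of_lt (show j < s + 1 by omega)]; simp
    · have := Nat.choose_succ_right_eq j s
      rw [← Nat.cast_sub h]
      exact_mod_cast this
  have h3 : ((i : ℤ) + s + 1 - j) * ((i + s + 1).choose j : ℤ) = (i + s + 1) * (i + s).choose j := by
    rcases Nat.lt_or_ge (i + s) j with h | h
    · rw [Nat.choose_eq_zero_of_lt h]
      rcases Nat.lt_or_ge (i + s + 1) j with h' | h'
      · rw [Nat.choose_eq_zero_of_lt h']; simp
      · have : (j : ℤ) = i + s + 1 := by exact_mod_cast (show j = i + s + 1 by omega)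
        rw [this]; simp
    · have := Nat.choose_mul_succ_eq (i + s) j
      have h4 : (((i + s).choose j * (i + s + 1) : ℕ) : ℤ) =
        (((i + s + 1).choose j * (i + s + 1 - j) : ℕ) : ℤ) := by exact_mod_cast this
      rw [Nat.cast_mul, Nat.cast_mul, Nat.cast_sub (by omega)] at h4
      push_cast at h4
      linear_combination -h4
  rw [show i + 1 + s = i + s + 1 by ring, show i + (s + 1) = i + s + 1 by ring]
  linear_combination ((i : ℤ) + 1) * j.choose s * (i + s + 1).choose j * h1 -
    (2 * (i : ℤ) + s + 2) * (i + j).choose i * (i + s + 1).choose j * h2 +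
    ((i : ℤ) + s + 1) * (i + j).choose i * j.choose s * h3

theorem c_gt {i j s : ℕ} (h : j < s) : c i j s = 0 := by simp [c, Nat.choose_eq_zero_of_lt h]

/-- the linearization formula -/
theorem lin (k i j : ℕ) : A k i * A k j = ∑ s ∈ range (j + 1), c i j s * A k (i + s) := by
  induction i with
  | zero =>
    rw [A_zero, one_mul, sum_eq_single_of_mem j (self_mem_range_succ j)]
    · simp [c]
    · intro s hs hsj
      have := mem_range.1 hs
      unfold c
      rw [Nat.choose_eq_zero_of_lt (show 0 + s < j by omega)]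
      simp
  | succ i ih =>
    have h0 : ((i : ℤ) + 1) ^ 2 ≠ 0 := by positivity
    apply mul_left_cancel₀ h0
    have h1 : ((i : ℤ) + 1) ^ 2 * (A k (i + 1) * A k j) =
        ∑ s ∈ range (j + 1), (c i j s * (((i : ℤ) + s + 1) ^ 2 * A k (i + 1 + s)) +
          s * (2 * i + s + 1) * c i j s * A k (i + s)) := by
      rw [← mul_assoc, A_succ, mul_assoc, ih, mul_sum]
      apply sum_congr rfl
      intro s _
      have h2 := A_succ k (i + s)
      push_cast at h2
      rw [show i + s + 1 = i + 1 + s by ring] at h2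
      linear_combination (-c i j s) * h2
    rw [h1, sum_add_distrib]
    have h3 : ∑ s ∈ range (j + 1), (s : ℤ) * (2 * i + s + 1) * c i j s * A k (i + s) =
        ∑ s ∈ range (j + 1), ((s : ℤ) + 1) * (2 * i + s + 2) * c i j (s + 1) * A k (i + 1 + s) := by
      have e : ∑ s ∈ range (j + 1 + 1), (s : ℤ) * (2 * i + s + 1) * c i j s * A k (i + s) =
          ∑ s ∈ range (j + 1), (s : ℤ) * (2 * i + s + 1) * c i j s * A k (i + s) := by
        rw [sum_range_succ _ (j + 1), c_gt (Nat.lt_succ_self j)]; ring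
      rw [← e, sum_range_succ']
      rw [show ((0 : ℕ) : ℤ) * (2 * i + ((0 : ℕ) : ℤ) + 1) * c i j 0 * A k (i + 0) = 0 by simp,
        add_zero]
      apply sum_congr rfl
      intro s _
      rw [show i + (s + 1) = i + 1 + s by ring]
      push_cast
      ring
    rw [h3, ← sum_add_distrib, mul_sum]
    apply sum_congr rfl
    intro s _
    linear_combination (-A k (i + 1 + s)) * c_rec i j s

/-- the alternating sum -/
theorem alt_sum (n l : ℕ) : ∑ k ∈ range n, (-1 : ℤ) ^ k * (2 * k + 1) * A k l =
    -(-1) ^ n * (n * ((n - 1).choose l : ℤ) * ((n + l).choose l : ℤ)) := by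
  induction n with
  | zero => simp
  | succ n ih =>
    rw [sum_range_succ, ih, Nat.add_sub_cancel]
    unfold A
    have h1 : (n : ℤ) * ((n - 1).choose l : ℤ) = ((n : ℤ) - l) * n.choose l := by
      rcases Nat.eq_zero_or_pos n with h0 | h0
      · subst h0
        rcases Nat.eq_zero_or_pos l with h | h
        · subst h; simp
        · rw [Nat.choose_eq_zero_of_lt h]; simp
      · rcases Nat.lt_or_ge n l with h | h
        · rw [Nat.choose_eq_zero_of_lt h, Nat.choose_eq_zero_of_lt (show n - 1 < l by omega)]; simp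
        · have := Nat.choose_mul_succ_eq (n - 1) l
          rw [show n - 1 + 1 = n by omega] at this
          rw [← Nat.cast_sub h]
          have h4 : (((n - 1).choose l * n : ℕ) : ℤ) = ((n.choose l * (n - l) : ℕ) : ℤ) := by
            exact_mod_cast this
          push_cast at h4 ⊢
          linear_combination h4
    have h2 : ((n : ℤ) + 1) * ((n + 1 + l).choose l : ℤ) = (n + l + 1) * (n + l).choose l := by
      have := Nat.choose_mul_succ_eq (n + l) l
      have h4 : (((n + l).choose l * (n + l + 1) : ℕ) : ℤ) =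
        (((n + l + 1).choose l * (n + l + 1 - l) : ℕ) : ℤ) := by exact_mod_cast this
      rw [show n + l + 1 - l = n + 1 by omega] at h4
      push_cast at h4
      rw [show n + 1 + l = n + l + 1 by ring]
      linear_combination -h4
    rw [pow_succ]
    push_cast
    linear_combination (-((-1 : ℤ) ^ n) * (n + l).choose l) * h1 -
      (-1 : ℤ) ^ n * n.choose l * h2

/-- the Delannoy polynomial -/
def D (k : ℕ) (x : ℤ) : ℤ := ∑ j ∈ range (k + 1), A k j * x ^ j

theorem tri_id {m l i : ℕ} (hi : i ≤ l) (hl : l ≤ m) :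
    c i (m - i) (l - i) = (m.choose l : ℤ) * (l.choose i * l.choose (m - i)) := by
  unfold c
  have e1 : i + (m - i) = m := by omega
  have e2 : i + (l - i) = l := by omega
  rw [e1, e2]
  have h1 := Nat.choose_mul (n := m) (k := l) (s := i) hi
  have h3 : ((m.choose l * l.choose i : ℕ) : ℤ) =
    ((m.choose i * (m - i).choose (l - i) : ℕ) : ℤ) := by exact_mod_cast h1
  push_cast at h3
  linear_combination (-(l.choose (m - i) : ℤ)) * h3

theorem vand {m l : ℕ} (hl : l ≤ m) :
    ∑ i ∈ range (l + 1), (l.choose i : ℤ) * l.choose (m - i) = (2 * l).choose m := by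
  have h := Nat.add_choose_eq l l m
  rw [Finset.Nat.sum_antidiagonal_eq_sum_range_succ_mk] at h
  rw [two_mul, h]
  push_cast
  apply sum_subset (range_mono (by omega))
  intro i _ hi
  rw [mem_range, not_lt] at hi
  rw [Nat.choose_eq_zero_of_lt (show l < i by omega)]
  simp

theorem conv (k m : ℕ) : ∑ i ∈ range (m + 1), A k i * A k (m - i) =
    ∑ l ∈ range (m + 1), A k l * ((2 * l).choose l * l.choose (m - l)) := by
  have h1 : ∑ i ∈ range (m + 1), A k i * A k (m - i) =
      ∑ i ∈ range (m + 1), ∑ s ∈ range (m + 1 - i), c i (m - i) s * A k (i + s) := by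
    apply sum_congr rfl
    intro i hi
    have := mem_range.1 hi
    rw [lin, show m + 1 - i = m - i + 1 by omega]
  rw [h1, ← sum_range_diag_flip (m + 1) (fun i s => c i (m - i) s * A k (i + s))]
  apply sum_congr rfl
  intro l hl
  have hl' : l ≤ m := by have := mem_range.1 hl; omega
  have h2 : ∀ i ∈ range (l + 1), c i (m - i) (l - i) * A k (i + (l - i)) =
      A k l * (m.choose l * ((l.choose i : ℤ) * l.choose (m - i))) := by
    intro i hi
    have := mem_range.1 hi
    rw [tri_id (show i ≤ l by omega) hl', show i + (l - i) = l by omega]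
    ring
  rw [sum_congr rfl h2, ← mul_sum, ← mul_sum, vand hl']
  have h3 := Nat.choose_mul (n := 2 * l) (k := m) (s := l) hl'
  rw [show 2 * l - l = l by omega] at h3
  have h4 : (((2 * l).choose m * m.choose l : ℕ) : ℤ) =
    (((2 * l).choose l * l.choose (m - l) : ℕ) : ℤ) := by exact_mod_cast h3
  push_cast at h4
  linear_combination (A k l) * h4

theorem flip (k : ℕ) (f : ℕ → ℕ → ℤ) (h : ∀ i j, k < i ∨ k < j → f i j = 0) :
    ∑ m ∈ range (2 * k + 1), ∑ i ∈ range (m + 1), f i (m - i) =
      ∑ i ∈ range (k + 1), ∑ j ∈ range (k + 1), f i j := by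
  rw [sum_range_diag_flip]
  symm
  have h1 : ∑ i ∈ range (k + 1), ∑ j ∈ range (k + 1), f i j =
      ∑ i ∈ range (k + 1), ∑ j ∈ range (2 * k + 1 - i), f i j := by
    apply sum_congr rfl
    intro i hi
    have := mem_range.1 hi
    apply sum_subset (range_mono (by omega))
    intro j _ hj
    rw [mem_range, not_lt] at hj
    exact h i j (Or.inr (by omega))
  rw [h1]
  apply sum_subset (range_mono (by omega))
  intro i _ hi
  rw [mem_range, not_lt] at hi
  exact sum_eq_zero fun j _ => h i j (Or.inl (by omega))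

/-- the square of a Delannoy polynomial -/
theorem D_sq (k : ℕ) (x : ℤ) : D k x ^ 2 =
    ∑ l ∈ range (k + 1), A k l * ((2 * l).choose l * (x ^ 2 + x) ^ l) := by
  have h1 : D k x ^ 2 = ∑ i ∈ range (k + 1), ∑ j ∈ range (k + 1), A k i * A k j * x ^ (i + j) := by
    unfold D
    rw [sq, sum_mul_sum]
    apply sum_congr rfl
    intro i _
    apply sum_congr rfl
    intro j _
    rw [pow_add]; ring
  have h2 : ∑ l ∈ range (k + 1), A k l * ((2 * l).choose l * (x ^ 2 + x) ^ l) =
      ∑ l ∈ range (k + 1), ∑ r ∈ range (k + 1),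
        A k l * ((2 * l).choose l * l.choose r) * x ^ (l + r) := by
    apply sum_congr rfl
    intro l hl
    have hl' := mem_range.1 hl
    rw [show x ^ 2 + x = x * (x + 1) by ring, mul_pow, add_pow, mul_sum, mul_sum, mul_sum]
    have h3 : ∑ i ∈ range (l + 1), A k l * (((2 * l).choose l : ℤ) *
        (x ^ l * (x ^ i * 1 ^ (l - i) * (l.choose i : ℤ)))) =
        ∑ i ∈ range (l + 1), A k l * ((2 * l).choose l * l.choose i) * x ^ (l + i) := by
      apply sum_congr rfl
      intro i _
      rw [pow_add, one_pow]; ring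
    rw [h3]
    apply sum_subset (range_mono (by omega))
    intro i _ hi
    rw [mem_range, not_lt] at hi
    rw [Nat.choose_eq_zero_of_lt (show l < i by omega)]
    simp
  rw [h1, h2, ← flip k (fun i j => A k i * A k j * x ^ (i + j)),
    ← flip k (fun l r => A k l * ((2 * l).choose l * l.choose r) * x ^ (l + r))]
  · apply sum_congr rfl
    intro m _
    have h4 : ∀ i ∈ range (m + 1), A k i * A k (m - i) * x ^ (i + (m - i)) =
        A k i * A k (m - i) * x ^ m := by
      intro i hi
      have := mem_range.1 hi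
      rw [show i + (m - i) = m by omega]
    have h5 : ∀ l ∈ range (m + 1), A k l * (((2 * l).choose l : ℤ) * l.choose (m - l)) *
        x ^ (l + (m - l)) = A k l * ((2 * l).choose l * l.choose (m - l)) * x ^ m := by
      intro i hi
      have := mem_range.1 hi
      rw [show i + (m - i) = m by omega]
    rw [sum_congr rfl h4, sum_congr rfl h5, ← sum_mul, ← sum_mul, conv]
  · rintro i j (h | h)
    · rw [A_gt h]; ring
    · rcases Nat.lt_or_ge k i with h' | h'
      · rw [A_gt h']; ring
      · rw [Nat.choose_eq_zero_of_lt (show i < j by omega)]; simp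
  · rintro i j (h | h)
    · rw [A_gt h]; ring
    · rw [A_gt h]; ring

/-- the alternating sums of the structure constants -/
theorem c_alt (i j : ℕ) : ∑ s ∈ range (j + 1), c i j s * (-1) ^ (i + s) =
    ((i + j).choose i : ℤ) * (-1) ^ (i + j) := by
  have h := fwdDiff_iter_eq_sum_shift (1 : ℕ) (fun x => (x.choose j : ℤ)) j i
  have h0 := fwdDiff_iter_choose 0 j
  simp only [add_zero] at h0
  rw [h0] at h
  simp only [Nat.choose_zero_right, smul_eq_mul, mul_one, Nat.cast_one] at h
  have h1 : ∑ s ∈ range (j + 1), c i j s * (-1) ^ (i + s) = ((i + j).choose i : ℤ) *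
      (-1) ^ (i + j) * ∑ s ∈ range (j + 1), (-1 : ℤ) ^ (j - s) * j.choose s * (i + s).choose j := by
    rw [mul_sum]
    apply sum_congr rfl
    intro s hs
    have := mem_range.1 hs
    unfold c
    have e : (-1 : ℤ) ^ (i + s) = (-1) ^ (i + j) * (-1) ^ (j - s) := by
      rw [← pow_add, show i + j + (j - s) = (i + s) + 2 * (j - s) by omega, pow_add (-1 : ℤ) (i + s),
        pow_mul]
      simp
    rw [e]; ring
  rw [h1, ← h, mul_one]

section modp

variable {p : ℕ} (hp : p.Prime) (hp2 : p ≠ 2)
include hp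

/-- the weights -/
theorem kappa {l : ℕ} (hl : l < p) :
    ((p : ℤ) ^ 2) ∣ ((p - 1).choose l : ℤ) * ((p + l).choose l : ℤ) - (-1) ^ l := by
  induction l with
  | zero => simp
  | succ l ih =>
    have ih' := ih (by omega)
    have h1 : ((p - 1).choose (l + 1) : ℤ) * (l + 1) = (p - 1).choose l * ((p : ℤ) - 1 - l) := by
      have := Nat.choose_succ_right_eq (p - 1) l
      have h4 : (((p - 1).choose (l + 1) * (l + 1) : ℕ) : ℤ) =
        (((p - 1).choose l * (p - 1 - l) : ℕ) : ℤ) := by exact_mod_cast this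
      rw [Nat.cast_mul, Nat.cast_mul, Nat.cast_sub (by omega), Nat.cast_sub (by omega)] at h4
      push_cast at h4
      linear_combination h4
    have h2 : ((p + (l + 1)).choose (l + 1) : ℤ) * (l + 1) = (p + l + 1) * (p + l).choose l := by
      have := Nat.add_one_mul_choose_eq (p + l) l
      have h3 : (((p + l + 1) * (p + l).choose l : ℕ) : ℤ) =
        (((p + l + 1).choose (l + 1) * (l + 1) : ℕ) : ℤ) := by exact_mod_cast this
      push_cast at h3
      rw [← add_assoc]
      linear_combination -h3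
    have hcop : IsCoprime ((p : ℤ) ^ 2) (((l : ℤ) + 1) ^ 2) := by
      apply IsCoprime.pow
      have h5 : Nat.Coprime p (l + 1) := (Nat.Prime.coprime_iff_not_dvd hp).2 (by
        intro h; have := Nat.le_of_dvd (Nat.succ_pos l) h; omega)
      have := Nat.isCoprime_iff_coprime.2 h5
      exact_mod_cast this
    apply hcop.dvd_of_dvd_mul_left
    obtain ⟨y, hy⟩ := ih'
    refine ⟨((p : ℤ) ^ 2 - (l + 1) ^ 2) * y + (-1) ^ l, ?_⟩
    rw [pow_succ]
    linear_combination ((l : ℤ) + 1) * ((p + (l + 1)).choose (l + 1) : ℤ) * h1 +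
      ((p : ℤ) - 1 - l) * ((p - 1).choose l : ℤ) * h2 + ((p : ℤ) ^ 2 - (l + 1) ^ 2) * hy

theorem cb_dvd {k : ℕ} (h1 : p < 2 * k) (h2 : k < p) : (p : ℤ) ∣ ((2 * k).choose k : ℤ) := by
  have := Nat.Prime.dvd_choose_add hp h2 h2 (show p ≤ k + k by omega)
  rw [two_mul]
  exact_mod_cast this

include hp2 in
theorem big_dvd {i j : ℕ} (hi : i < p) (hj : j < p) (hij : p ≤ i + j) (s : ℕ) :
    ((p : ℤ) ^ 2) ∣ ((2 * i).choose i : ℤ) * ((2 * j).choose j : ℤ) * c i j s := by
  have hodd : ¬ p = 2 * i ∧ ¬ p = 2 * j := by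
    rcases hp.eq_two_or_odd with h | h
    · exact absurd h hp2
    · omega
  have h1 : (p : ℤ) ∣ ((2 * i).choose i : ℤ) * ((2 * j).choose j : ℤ) := by
    rcases Nat.lt_or_ge p (2 * i) with h | h
    · exact (cb_dvd hp h hi).mul_right _
    · exact (cb_dvd hp (by omega) hj).mul_left _
  have h2 : (p : ℤ) ∣ c i j s := by
    unfold c
    have := Nat.Prime.dvd_choose_add hp hi hj hij
    have h3 : (p : ℤ) ∣ ((i + j).choose i : ℤ) := by exact_mod_cast this
    exact (h3.mul_right _).mul_right _
  rw [sq]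
  exact mul_dvd_mul h1 h2

omit hp in
/-- the inner sums -/
theorem inner (i j : ℕ) : ∑ k ∈ range p, (-1 : ℤ) ^ k * (2 * k + 1) * (A k i * A k j) =
    -(-1) ^ p * p * ∑ s ∈ range (j + 1), c i j s * (((p - 1).choose (i + s) : ℤ) *
      ((p + (i + s)).choose (i + s) : ℤ)) := by
  have h1 : ∀ k ∈ range p, (-1 : ℤ) ^ k * (2 * k + 1) * (A k i * A k j) =
      ∑ s ∈ range (j + 1), c i j s * ((-1 : ℤ) ^ k * (2 * k + 1) * A k (i + s)) := by
    intro k _
    rw [lin, mul_sum]
    apply sum_congr rfl
    intro s _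
    ring
  rw [sum_congr rfl h1, sum_comm, mul_sum]
  apply sum_congr rfl
  intro s _
  rw [← mul_sum, alt_sum]
  ring

include hp2 in
theorem term_cong {i j : ℕ} (hi : i < p) (hj : j < p) :
    ((p : ℤ) ^ 2) ∣ ((2 * i).choose i : ℤ) * ((2 * j).choose j : ℤ) *
      (∑ s ∈ range (j + 1), c i j s * (((p - 1).choose (i + s) : ℤ) *
      ((p + (i + s)).choose (i + s) : ℤ)) -
      if i + j < p then ((i + j).choose i : ℤ) * (-1) ^ (i + j) else 0) := by
  split_ifs with h
  · apply Dvd.dvd.mul_left
    rw [← c_alt, ← sum_sub_distrib]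
    apply dvd_sum
    intro s hs
    have := mem_range.1 hs
    rw [← mul_sub]
    exact (kappa hp (show i + s < p by omega)).mul_left _
  · rw [sub_zero, mul_sum]
    apply dvd_sum
    intro s _
    rw [← mul_assoc]
    exact (big_dvd hp hp2 hi hj (by omega) s).mul_right _

include hp2 in
/-- the alternating sum of fourth powers modulo `p ^ 3` -/
theorem S_cong (x : ℤ) : ((p : ℤ) ^ 3) ∣ ∑ k ∈ range p, (-1 : ℤ) ^ k * (2 * k + 1) * D k x ^ 4 -
    p * ∑ n ∈ range p, (x ^ 2 + x) ^ n * ((-1) ^ n * Land.a n) := by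
  set z := x ^ 2 + x with hz
  have hodd : (-1 : ℤ) ^ p = -1 := (hp.odd_of_ne_two hp2).neg_one_pow
  have h1 : ∀ k ∈ range p, D k x ^ 4 = ∑ i ∈ range p, ∑ j ∈ range p,
      ((2 * i).choose i * (2 * j).choose j * z ^ (i + j)) * (A k i * A k j) := by
    intro k hk
    have hk' := mem_range.1 hk
    have h2 : D k x ^ 2 = ∑ l ∈ range p, A k l * ((2 * l).choose l * z ^ l) := by
      rw [D_sq]
      apply sum_subset (range_mono (by omega))
      intro l _ hl
      rw [mem_range, not_lt] at hl
      rw [A_gt (by omega)]; ring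
    rw [show D k x ^ 4 = D k x ^ 2 * D k x ^ 2 by ring, h2, sum_mul_sum]
    apply sum_congr rfl
    intro i _
    apply sum_congr rfl
    intro j _
    rw [pow_add]; ring
  have h2 : ∑ k ∈ range p, (-1 : ℤ) ^ k * (2 * k + 1) * D k x ^ 4 =
      ∑ i ∈ range p, ∑ j ∈ range p, ((2 * i).choose i * (2 * j).choose j * z ^ (i + j)) *
        (p * ∑ s ∈ range (j + 1), c i j s * (((p - 1).choose (i + s) : ℤ) *
      ((p + (i + s)).choose (i + s) : ℤ))) := by
    have h3 : ∀ k ∈ range p, (-1 : ℤ) ^ k * (2 * k + 1) * D k x ^ 4 =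
        ∑ i ∈ range p, ∑ j ∈ range p, ((2 * i).choose i * (2 * j).choose j * z ^ (i + j)) *
          ((-1 : ℤ) ^ k * (2 * k + 1) * (A k i * A k j)) := by
      intro k hk
      rw [h1 k hk, mul_sum]
      apply sum_congr rfl
      intro i _
      rw [mul_sum]
      apply sum_congr rfl
      intro j _
      ring
    rw [sum_congr rfl h3, sum_comm]
    apply sum_congr rfl
    intro i _
    rw [sum_comm]
    apply sum_congr rfl
    intro j _
    rw [← mul_sum, inner, hodd]
    ring
  have h3 : ∑ n ∈ range p, z ^ n * ((-1) ^ n * Land.a n) =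
      ∑ i ∈ range p, ∑ j ∈ range p, ((2 * i).choose i * (2 * j).choose j * z ^ (i + j)) *
        (if i + j < p then ((i + j).choose i : ℤ) * (-1) ^ (i + j) else 0) := by
    have h4 : ∀ n ∈ range p, z ^ n * ((-1) ^ n * Land.a n) = ∑ i ∈ range (n + 1),
        (fun i j => (((2 * i).choose i : ℤ) * (2 * j).choose j * z ^ (i + j)) *
        (((i + j).choose i : ℤ) * (-1) ^ (i + j))) i (n - i) := by
      intro n _
      unfold Land.a
      rw [mul_sum, mul_sum]
      apply sum_congr rfl
      intro i hi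
      have := mem_range.1 hi
      simp only
      rw [show i + (n - i) = n by omega]
      ring
    rw [sum_congr rfl h4, sum_range_diag_flip p
      (fun i j => (((2 * i).choose i : ℤ) * (2 * j).choose j * z ^ (i + j)) *
        (((i + j).choose i : ℤ) * (-1) ^ (i + j)))]
    apply sum_congr rfl
    intro i hi
    have hi' := mem_range.1 hi
    have h5 : ∑ j ∈ range (p - i), (((2 * i).choose i : ℤ) * (2 * j).choose j * z ^ (i + j)) *
        (((i + j).choose i : ℤ) * (-1) ^ (i + j)) = ∑ j ∈ range (p - i),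
        (((2 * i).choose i : ℤ) * (2 * j).choose j * z ^ (i + j)) *
        (if i + j < p then ((i + j).choose i : ℤ) * (-1) ^ (i + j) else 0) := by
      apply sum_congr rfl
      intro j hj
      have := mem_range.1 hj
      rw [if_pos (by omega)]
    rw [h5]
    apply sum_subset (range_mono (by omega))
    intro j _ hj
    rw [mem_range, not_lt] at hj
    rw [if_neg (by omega), mul_zero]
  rw [h2, h3, mul_sum, ← sum_sub_distrib]
  apply dvd_sum
  intro i hi
  rw [mul_sum, ← sum_sub_distrib]
  apply dvd_sum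
  intro j hj
  have h6 := term_cong hp hp2 (mem_range.1 hi) (mem_range.1 hj)
  obtain ⟨y, hy⟩ := h6
  refine ⟨z ^ (i + j) * y, ?_⟩
  linear_combination ((p : ℤ) * z ^ (i + j)) * hy

end modp

end Q278.Del4
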