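import Mathlib

set_option autoImplicit false

/-! A closed form for a double sum related to the alternating sum of the cubes of the binomial
coefficients. -/

namespace Q278.DixG

open Finset

/-- the summand -/
def u (h k : ℕ) : ℚ := (-1) ^ k * (h.choose k : ℚ) ^ 3

/-- the partial sums -/
def c (h k : ℕ) : ℚ := ∑ j ∈ range k, u h j

theorem c_succ (h k : ℕ) : c h (k + 1) = c h k + u h k := by unfold c; rw [sum_range_succ]

/-- the first certificate -/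
def ρ (h k : ℚ) : ℚ := -232 - 784 * h - 1042 * h ^ 2 - 682 * h ^ 3 - 220 * h ^ 4 - 28 * h ^ 5 +
  (414 + 1113 * h + 1107 * h ^ 2 + 483 * h ^ 3 + 78 * h ^ 4) * k +
  (-294 - 594 * h - 396 * h ^ 2 - 87 * h ^ 3) * k ^ 2 + (96 + 132 * h + 45 * h ^ 2) * k ^ 3 +
  (-12 - 9 * h) * k ^ 4

/-- the second certificate -/
def α (h k : ℚ) : ℚ := 848 + 2152 * h + 2180 * h ^ 2 + 1102 * h ^ 3 + 278 * h ^ 4 + 28 * h ^ 5 +
  (-1236 - 2496 * h - 1881 * h ^ 2 - 627 * h ^ 3 - 78 * h ^ 4) * k +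
  (678 + 1035 * h + 522 * h ^ 2 + 87 * h ^ 3) * k ^ 2 + (-165 - 174 * h - 45 * h ^ 2) * k ^ 3 +
  (15 + 9 * h) * k ^ 4

/-- the third certificate -/
def B (h k : ℚ) : ℚ := (-14326 - 53151 * h - 81286 * h ^ 2 - 65610 * h ^ 3 - 29482 * h ^ 4 -
    6993 * h ^ 5 - 684 * h ^ 6) * k +
  (10668 + 32679 * h + 39672 * h ^ 2 + 23853 * h ^ 3 + 7101 * h ^ 4 + 837 * h ^ 5) * k ^ 2 +
  (-4062 - 9984 * h - 9123 * h ^ 2 - 3672 * h ^ 3 - 549 * h ^ 4) * k ^ 3 +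
  (780 + 1473 * h + 918 * h ^ 2 + 189 * h ^ 3) * k ^ 4 + (-60 - 81 * h - 27 * h ^ 2) * k ^ 5

theorem α_id (h k : ℚ) : k ^ 3 * α h (k + 1) + (h + 1 - k) ^ 3 * α h k =
    3 * (3 * h + 5) * (3 * h + 7) * ((h + 1 - k) * (h + 2 - k)) ^ 3 +
      (h + 1) ^ 2 * ((h + 1) * (h + 2)) ^ 3 := by
  unfold α; ring

theorem B_id (h k : ℚ) : B h (k + 1) - B h k = (3 * h + 5) * (3 * h + 7) * ρ h k +
    (3 * h + 2) * (3 * h + 4) * α h (k + 1) := by
  unfold α B ρ; ring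

theorem ρ_id (h k : ℚ) : (h + 2) ^ 2 * ((h + 1) * (h + 2)) ^ 3 +
    3 * (3 * h + 2) * (3 * h + 4) * ((h + 1 - k) * (h + 2 - k)) ^ 3 =
    -ρ h (k + 1) * (h + 2 - k) ^ 3 - k ^ 3 * ρ h k := by
  unfold ρ; ring

theorem u_ne {h k : ℕ} (hk : k ≤ h) : u h k ≠ 0 := by
  unfold u
  have : (h.choose k : ℚ) ≠ 0 := by exact_mod_cast (Nat.choose_pos hk).ne'
  positivity

theorem u_step {h k : ℕ} (hk : k ≤ h) :
    ((k : ℚ) + 1) ^ 3 * u h (k + 1) = -((h : ℚ) - k) ^ 3 * u h k := by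
  unfold u
  have h1 : (h.choose (k + 1) : ℚ) * (k + 1) = h.choose k * ((h : ℚ) - k) := by
    have := Nat.choose_succ_right_eq h k
    rw [← Nat.cast_sub hk]
    exact_mod_cast this
  have h2 : ((h.choose (k + 1) : ℚ) * (k + 1)) ^ 3 = (h.choose k * ((h : ℚ) - k)) ^ 3 := by rw [h1]
  rw [pow_succ]
  linear_combination (-(-1 : ℚ) ^ k) * h2

theorem u_two {h k : ℕ} (hk : k ≤ h) : (((h : ℚ) + 1 - k) * ((h : ℚ) + 2 - k)) ^ 3 * u (h + 2) k =
    (((h : ℚ) + 1) * (h + 2)) ^ 3 * u h k := by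
  unfold u
  have h1 := Nat.choose_mul_succ_eq h k
  have h2 := Nat.choose_mul_succ_eq (h + 1) k
  have h3 : ((h.choose k * (h + 1) : ℕ) : ℚ) = (((h + 1).choose k * (h + 1 - k) : ℕ) : ℚ) := by
    exact_mod_cast h1
  have h4 : (((h + 1).choose k * (h + 1 + 1) : ℕ) : ℚ) =
    (((h + 1 + 1).choose k * (h + 1 + 1 - k) : ℕ) : ℚ) := by exact_mod_cast h2
  rw [Nat.cast_mul, Nat.cast_mul, Nat.cast_sub (by omega)] at h3 h4
  push_cast at h3 h4
  rw [show h + 1 + 1 = h + 2 by ring] at h4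
  have h5 : ((h : ℚ) + 1 - k) * ((h : ℚ) + 2 - k) * (h + 2).choose k =
      ((h : ℚ) + 1) * (h + 2) * h.choose k := by
    linear_combination (-((h : ℚ) + 1 - k)) * h4 - ((h : ℚ) + 2) * h3
  have h6 : (((h : ℚ) + 1 - k) * ((h : ℚ) + 2 - k) * (h + 2).choose k) ^ 3 =
      (((h : ℚ) + 1) * (h + 2) * h.choose k) ^ 3 := by rw [h5]
  linear_combination ((-1 : ℚ) ^ k) * h6

/-- the recurrence of the partial sums -/
theorem c_rec {h : ℕ} : ∀ k ≤ h, (h + 2 : ℚ) ^ 2 * c (h + 2) (k + 1) +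
    3 * (3 * h + 2) * (3 * h + 4) * c h (k + 1) = -ρ h (k + 1) * u h k / ((h : ℚ) + 1 - k) ^ 3 := by
  intro k
  induction k with
  | zero =>
    intro _
    have h1 : ((h : ℚ) + 1) ≠ 0 := by positivity
    rw [c_succ, c_succ]
    simp only [c, range_zero, sum_empty, u, pow_zero, Nat.choose_zero_right, Nat.cast_one,
      Nat.cast_zero, sub_zero]
    field_simp
    unfold ρ
    ring
  | succ k ih =>
    intro hk
    have ih' := ih (by omega)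
    rw [c_succ (h + 2) (k + 1), c_succ h (k + 1)]
    have hk1 : (k : ℚ) + 1 ≤ h := by exact_mod_cast hk
    have n1 : ((h : ℚ) + 1 - k) ≠ 0 := by linarith
    have n2 : ((h : ℚ) - k) ≠ 0 := by linarith
    have h1 := u_step (show k ≤ h by omega)
    have h2 := u_two hk
    push_cast at h2
    have h3 := ρ_id (h : ℚ) (k + 1)
    rw [eq_div_iff (pow_ne_zero 3 n1)] at ih'
    push_cast
    rw [eq_div_iff (pow_ne_zero 3 (by rw [show (h : ℚ) + 1 - (k + 1) = h - k by ring]; exact n2))]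
    apply mul_left_cancel₀ (pow_ne_zero 3 n1)
    rw [show (h : ℚ) + 1 - (k + 1) = h - k by ring] at h2 h3 ⊢
    rw [show (h : ℚ) + 2 - (k + 1) = h + 1 - k by ring] at h2 h3
    rw [show (k : ℚ) + 1 + 1 = k + 2 by ring] at h3 ⊢
    linear_combination ((h : ℚ) - k) ^ 3 * ih' + ((h : ℚ) + 2) ^ 2 * h2 + u h (k + 1) * h3 -
      ρ h (k + 1) * h1

/-- the full sum vanishes for odd `h` -/
theorem c_full {h : ℕ} (hh : Odd h) : c h (h + 1) = 0 := by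
  have h1 : c h (h + 1) = -c h (h + 1) := by
    unfold c
    conv_lhs => rw [← sum_range_reflect]
    rw [← sum_neg_distrib]
    apply sum_congr rfl
    intro j hj
    have hj' : j ≤ h := by have := mem_range.1 hj; omega
    unfold u
    rw [show h + 1 - 1 - j = h - j by omega, Nat.choose_symm hj']
    have e : (-1 : ℚ) ^ (h - j) = -(-1) ^ j := by
      have e1 : (-1 : ℚ) ^ (h - j) * (-1) ^ j = -1 := by
        rw [← pow_add, show h - j + j = h by omega, hh.neg_one_pow]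
      have e2 : (-1 : ℚ) ^ j * (-1) ^ j = 1 := by rw [← mul_pow]; simp
      linear_combination (-1 : ℚ) ^ j * e1 - (-1 : ℚ) ^ (h - j) * e2
    rw [e]; ring
  linarith

/-- the summand of the double sum -/
noncomputable def H (h k : ℕ) : ℚ := c h k / ((k : ℚ) ^ 3 * u h k)

/-- the double sum -/
noncomputable def GG (h : ℕ) : ℚ := ∑ k ∈ range h, H h (k + 1)

theorem H_step {h k : ℕ} (hk : k < h) (hk0 : 0 < k) :
    ((h : ℚ) - k) ^ 3 * H h (k + 1) = -((k : ℚ) ^ 3 * H h k + 1) := by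
  unfold H
  have h1 := u_step (show k ≤ h by omega)
  have n1 := u_ne (show k ≤ h by omega)
  have n3 : (k : ℚ) ≠ 0 := by positivity
  have hk1 : (k : ℚ) + 1 ≤ h := by exact_mod_cast hk
  have n2 : ((h : ℚ) - k) ≠ 0 := by linarith
  push_cast
  rw [h1, c_succ]
  field_simp

/-- one step of the telescoping -/
theorem tel {h k : ℕ} (hk : k ≤ h) (hk0 : 0 < k) : (((h : ℚ) + 1) * (h + 2)) ^ 3 *
    ((h + 2) ^ 2 * (3 * h + 5) * (3 * h + 7) * H (h + 2) k -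
      (3 * h + 2) * (3 * h + 4) * (h + 1) ^ 2 * H h k) =
    -(3 * h + 2) * (3 * h + 4) * α h (k + 1) * (k ^ 3 * H h k + 1) -
      (3 * h + 2) * (3 * h + 4) * α h k * (h + 1 - k) ^ 3 * H h k + (B h (k + 1) - B h k) := by
  have h1 := α_id h k
  have h2 := B_id h k
  rw [h2]
  -- the value of `H (h + 2) k`
  have h3 : (((h : ℚ) + 1) * (h + 2)) ^ 3 * ((h + 2) ^ 2 * H (h + 2) k) =
      -3 * (3 * h + 2) * (3 * h + 4) * ((h + 1 - k) * (h + 2 - k)) ^ 3 * H h k + ρ h k := by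
    obtain ⟨l, rfl⟩ : ∃ l, k = l + 1 := ⟨k - 1, by omega⟩
    have e1 := c_rec l (show l ≤ h by omega)
    have e2 := u_two hk
    have e3 := u_step (show l ≤ h by omega)
    have n1 := u_ne (show l ≤ h by omega)
    have n1' := u_ne hk
    have n1'' : u (h + 2) (l + 1) ≠ 0 := u_ne (by omega)
    have hk1 : (l : ℚ) + 1 ≤ h := by exact_mod_cast hk
    have n2 : ((h : ℚ) - l) ≠ 0 := by linarith
    have n3 : ((h : ℚ) + 1 - l) ≠ 0 := by linarith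
    have n4 : ((l : ℚ) + 1) ≠ 0 := by positivity
    have n5 : ((h : ℚ) + 1) ≠ 0 := by positivity
    have n6 : ((h : ℚ) + 2) ≠ 0 := by positivity
    unfold H
    push_cast at e2 ⊢
    rw [show (h : ℚ) + 1 - (l + 1) = h - l by ring, show (h : ℚ) + 2 - (l + 1) = h + 1 - l by ring]
      at *
    rw [eq_div_iff (pow_ne_zero 3 n3)] at e1
    have e4 : u (h + 2) (l + 1) = (((h : ℚ) + 1) * (h + 2)) ^ 3 * u h (l + 1) /
        (((h : ℚ) - l) * ((h : ℚ) + 1 - l)) ^ 3 := by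
      rw [eq_div_iff (pow_ne_zero 3 (mul_ne_zero n2 n3))]; linear_combination e2
    rw [e4]
    field_simp
    linear_combination ((h : ℚ) - l) ^ 3 * e1 - ρ h (l + 1) * e3
  linear_combination ((3 * (h : ℚ) + 5) * (3 * h + 7)) * h3 +
    ((3 * (h : ℚ) + 2) * (3 * h + 4) * H h k) * h1

theorem sum_tel {h : ℕ} : ∀ m < h, ∑ k ∈ range m, (((h : ℚ) + 1) * (h + 2)) ^ 3 *
    ((h + 2) ^ 2 * (3 * h + 5) * (3 * h + 7) * H (h + 2) (k + 1) -
      (3 * h + 2) * (3 * h + 4) * (h + 1) ^ 2 * H h (k + 1)) =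
    (3 * h + 2) * (3 * h + 4) * α h (m + 1) * (h - m) ^ 3 * H h (m + 1) + B h (m + 1) -
      ((3 * h + 2) * (3 * h + 4) * α h 1 * h ^ 3 * H h 1 + B h 1) := by
  intro m
  induction m with
  | zero => intro _; simp
  | succ m ih =>
    intro hm
    rw [sum_range_succ, ih (by omega), tel (show m + 1 ≤ h by omega) (Nat.succ_pos m)]
    have h1 := H_step (show m + 1 < h by omega) (Nat.succ_pos m)
    push_cast at h1 ⊢
    rw [show (h : ℚ) + 1 - (m + 1) = h - m by ring]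
    linear_combination (-(3 * (h : ℚ) + 2) * (3 * h + 4) * α h (m + 1 + 1)) * h1

/-- the recurrence of the double sum -/
theorem GG_rec {h : ℕ} (hh : Odd h) : ((h : ℚ) + 2) ^ 2 * (3 * h + 5) * (3 * h + 7) * GG (h + 2) =
    (3 * h + 2) * (3 * h + 4) * (h + 1) ^ 2 * GG h := by
  have hpos : 0 < h := hh.pos
  obtain ⟨m, rfl⟩ : ∃ m, h = m + 1 := ⟨h - 1, by omega⟩
  have h1 := sum_tel (h := m + 1) m (Nat.lt_succ_self m)
  have h2 := tel (h := m + 1) (k := m + 1) le_rfl (Nat.succ_pos m)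
  -- the values of the partial sums at the end
  have c1 : c (m + 1) (m + 1) = -u (m + 1) (m + 1) := by
    have := c_full hh
    rw [c_succ] at this
    linarith
  have hodd2 : Odd (m + 1 + 2) := by
    rw [Nat.odd_add]; constructor
    · intro _; exact even_two
    · intro _; exact hh
  have u1 : u (m + 1) (m + 1) = -1 := by unfold u; rw [hh.neg_one_pow]; simp
  have u3 : u (m + 1 + 2) (m + 1 + 2) = -1 := by unfold u; rw [hodd2.neg_one_pow]; simp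
  have hev : Even (m + 1 + 1) := hh.add_one
  have u2 : u (m + 1 + 2) (m + 1 + 1) = ((m : ℚ) + 3) ^ 3 := by
    unfold u
    rw [hev.neg_one_pow, show m + 1 + 2 = (m + 1 + 1) + 1 by ring, Nat.choose_succ_self_right]
    push_cast; ring
  have c3 : c (m + 1 + 2) (m + 1 + 2) = 1 := by
    have := c_full hodd2
    rw [c_succ, u3] at this
    linarith
  have c2 : c (m + 1 + 2) (m + 1 + 1) = 1 - ((m : ℚ) + 3) ^ 3 := by
    have h4 := c_succ (m + 1 + 2) (m + 1 + 1)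
    rw [show m + 1 + 1 + 1 = m + 1 + 2 by ring, c3, u2] at h4
    linarith
  have H1 : ((m : ℚ) + 1) ^ 3 * H (m + 1) (m + 1) = -1 := by
    unfold H
    rw [c1, u1]
    push_cast
    have : ((m : ℚ) + 1) ≠ 0 := by positivity
    field_simp
  have H2 : H (m + 1 + 2) (m + 1 + 1) = (1 - ((m : ℚ) + 3) ^ 3) / (((m : ℚ) + 2) ^ 3 * ((m : ℚ) + 3) ^ 3) := by
    unfold H
    rw [c2, u2]
    push_cast; ring
  have H3 : H (m + 1 + 2) (m + 1 + 2) = -1 / ((m : ℚ) + 3) ^ 3 := by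
    unfold H
    rw [c3, u3]
    push_cast
    have : ((m : ℚ) + 3) ≠ 0 := by positivity
    field_simp
    ring
  have H0 : ((m : ℚ) + 1) ^ 3 * H (m + 1) 1 = -1 := by
    unfold H
    have e1 : c (m + 1) 1 = 1 := by simp [c, u]
    have e2 : u (m + 1) 1 = -((m : ℚ) + 1) ^ 3 := by
      unfold u; rw [Nat.choose_one_right, pow_one]; push_cast; ring
    rw [e1, e2]
    have : ((m : ℚ) + 1) ≠ 0 := by positivity
    push_cast
    field_simp
  have e1 : GG (m + 1 + 2) = ∑ k ∈ range (m + 1), H (m + 1 + 2) (k + 1) +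
      H (m + 1 + 2) (m + 1 + 1) + H (m + 1 + 2) (m + 1 + 2) := by
    unfold GG; rw [sum_range_succ, sum_range_succ]
  have e2 : (((m : ℚ) + 1 + 1) * (m + 1 + 2)) ^ 3 *
    (((m : ℚ) + 1 + 2) ^ 2 * (3 * (m + 1) + 5) * (3 * (m + 1) + 7) *
      ∑ k ∈ range (m + 1), H (m + 1 + 2) (k + 1) -
      (3 * ((m : ℚ) + 1) + 2) * (3 * (m + 1) + 4) * (m + 1 + 1) ^ 2 * GG (m + 1)) =
      ∑ k ∈ range (m + 1), ((((m + 1 : ℕ) : ℚ) + 1) * (((m + 1 : ℕ) : ℚ) + 2)) ^ 3 *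
    ((((m + 1 : ℕ) : ℚ) + 2) ^ 2 * (3 * ((m + 1 : ℕ) : ℚ) + 5) * (3 * ((m + 1 : ℕ) : ℚ) + 7) *
      H (m + 1 + 2) (k + 1) - (3 * ((m + 1 : ℕ) : ℚ) + 2) * (3 * ((m + 1 : ℕ) : ℚ) + 4) *
      (((m + 1 : ℕ) : ℚ) + 1) ^ 2 * H (m + 1) (k + 1)) := by
    unfold GG
    rw [← mul_sum, sum_sub_distrib, ← mul_sum, ← mul_sum]
    push_cast
    ring
  have e3 := sum_range_succ (fun k => ((((m + 1 : ℕ) : ℚ) + 1) * (((m + 1 : ℕ) : ℚ) + 2)) ^ 3 *
    ((((m + 1 : ℕ) : ℚ) + 2) ^ 2 * (3 * ((m + 1 : ℕ) : ℚ) + 5) * (3 * ((m + 1 : ℕ) : ℚ) + 7) *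
      H (m + 1 + 2) (k + 1) - (3 * ((m + 1 : ℕ) : ℚ) + 2) * (3 * ((m + 1 : ℕ) : ℚ) + 4) *
      (((m + 1 : ℕ) : ℚ) + 1) ^ 2 * H (m + 1) (k + 1))) m
  rw [e3, h1, h2] at e2
  have hQ : (((m : ℚ) + 1 + 1) * (m + 1 + 2)) ^ 3 ≠ 0 := by positivity
  apply mul_left_cancel₀ hQ
  rw [e1, H2, H3]
  push_cast at e2 H1 H0 ⊢
  have n2 : ((m : ℚ) + 2) ≠ 0 := by positivity
  have n3 : ((m : ℚ) + 3) ≠ 0 := by positivity
  rw [show ((m : ℚ) + 1 - m) = 1 by ring, show (m : ℚ) + 1 + 1 - (m + 1) = 1 by ring] at e2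
  rw [H1, show (3 * ((m : ℚ) + 1) + 2) * (3 * ((m : ℚ) + 1) + 4) * α ((m : ℚ) + 1) 1 *
    ((m : ℚ) + 1) ^ 3 * H (m + 1) 1 = (3 * ((m : ℚ) + 1) + 2) * (3 * ((m : ℚ) + 1) + 4) *
    α ((m : ℚ) + 1) 1 * (((m : ℚ) + 1) ^ 3 * H (m + 1) 1) by ring, H0] at e2
  have e5 : ((m : ℚ) + 1 + 1) * (m + 1 + 2) = (m + 2) * (m + 3) := by ring
  rw [e5] at e2 ⊢
  have e6 : (((m : ℚ) + 2) * (m + 3)) ^ 3 * ((1 - ((m : ℚ) + 3) ^ 3) /
      (((m : ℚ) + 2) ^ 3 * ((m : ℚ) + 3) ^ 3) + -1 / ((m : ℚ) + 3) ^ 3) =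
      1 - ((m : ℚ) + 3) ^ 3 - ((m : ℚ) + 2) ^ 3 := by
    field_simp
    ring
  have e7 : B ((m : ℚ) + 1) (m + 1 + 1) - B ((m : ℚ) + 1) 1 +
      (3 * ((m : ℚ) + 1) + 2) * (3 * ((m : ℚ) + 1) + 4) * α ((m : ℚ) + 1) 1 +
      ((m : ℚ) + 1 + 2) ^ 2 * (3 * (m + 1) + 5) * (3 * (m + 1) + 7) *
        (1 - ((m : ℚ) + 3) ^ 3 - ((m : ℚ) + 2) ^ 3) = 0 := by
    unfold B α; ring
  linear_combination e2 + ((m : ℚ) + 1 + 2) ^ 2 * (3 * (m + 1) + 5) * (3 * (m + 1) + 7) * e6 + e7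

end Q278.DixG
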