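import Mathlib

set_option autoImplicit false

/-! The terminating Dixon sum. -/

namespace Q278.Dixon

open Finset

variable {K : Type*} [Field K]

/-- the factor -/
def P (a c : K) (n k : ℕ) : K :=
  ∏ l ∈ range k, ((a + l) * (c + l) / ((1 + a + n + l) * (1 + a - c + l)))

/-- the summand -/
def T (a c : K) (n k : ℕ) : K := (-1) ^ k * (n.choose k : K) * P a c n k

theorem P_succ (a c : K) (n k : ℕ) : P a c n (k + 1) =
    P a c n k * ((a + k) * (c + k) / ((1 + a + n + k) * (1 + a - c + k))) := by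
  unfold P; rw [prod_range_succ]

variable [CharZero K] {a c : K} (h1 : ∀ l : ℕ, 1 + a + l ≠ 0) (h2 : ∀ l : ℕ, 1 + a - c + l ≠ 0)
  (h3 : ∀ l : ℕ, 1 + a / 2 + l ≠ 0)

include h1 in
omit [CharZero K] in
theorem P_shift (n k : ℕ) : P a c (n + 1) k * (1 + a + n + k) = P a c n k * (1 + a + n) := by
  induction k with
  | zero => simp [P]
  | succ k ih =>
    rw [P_succ, P_succ]
    have e1 := h1 (n + k)
    have e2 := h1 (n + k + 1)
    push_cast at e1 e2 ⊢
    have e1' : 1 + a + (n : K) + k ≠ 0 := by rw [add_assoc]; exact e1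
    have e2' : 1 + a + ((n : K) + 1) + k ≠ 0 := by
      rw [show 1 + a + ((n : K) + 1) + k = 1 + a + (n + k + 1) by ring]; exact e2
    have e3 : P a c (n + 1) k = P a c n k * (1 + a + n) / (1 + a + n + k) := by
      rw [eq_div_iff e1']; exact ih
    rw [e3]
    by_cases e4 : 1 + a - c + (k : K) = 0
    · rw [e4]; simp
    · field_simp
      ring

include h1 h2 in
theorem wz (n k : ℕ) : ((n : K) + 1 + a / 2) * (n + 1 + a - c) * T a c (n + 1) k -
    (n + 1 + a) * (n + 1 + a / 2 - c) * T a c n k =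
    -(1 / 2) * ((k : K) + 1) * (k + 1 + a - c) * (n + 1 + a) / (n + 1) *
      ((-1) ^ (k + 1) * ((n + 1).choose (k + 1) : K) * P a c n (k + 1)) +
    (1 / 2) * (k : K) * (k + a - c) * (n + 1 + a) / (n + 1) *
      ((-1) ^ k * ((n + 1).choose k : K) * P a c n k) := by
  have hn : ((n : K) + 1) ≠ 0 := by exact_mod_cast Nat.succ_ne_zero n
  have e1 := h1 (n + k)
  push_cast at e1
  have e1' : 1 + a + (n : K) + k ≠ 0 := by rw [add_assoc]; exact e1
  have e4 := h2 k
  have ps := P_shift (c := c) h1 n k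
  have e3 : P a c (n + 1) k = P a c n k * (1 + a + n) / (1 + a + n + k) := by
    rw [eq_div_iff e1']; exact ps
  rw [P_succ]
  unfold T
  rw [e3]
  have c1 : ((n + 1).choose (k + 1) : K) * (k + 1) = (n + 1).choose k * ((n : K) + 1 - k) := by
    rcases Nat.lt_or_ge (n + 1) k with h | h
    · rw [Nat.choose_eq_zero_of_lt h, Nat.choose_eq_zero_of_lt (show n + 1 < k + 1 by omega)]; simp
    · have h5 := Nat.choose_succ_right_eq (n + 1) k
      have h6 : (((n + 1).choose (k + 1) * (k + 1) : ℕ) : K) =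
        (((n + 1).choose k * (n + 1 - k) : ℕ) : K) := by exact_mod_cast h5
      rw [Nat.cast_mul, Nat.cast_mul, Nat.cast_sub h] at h6
      push_cast at h6
      exact h6
  have c2 : (n.choose k : K) * (n + 1) = (n + 1).choose k * ((n : K) + 1 - k) := by
    rcases Nat.lt_or_ge (n + 1) k with h | h
    · rw [Nat.choose_eq_zero_of_lt h, Nat.choose_eq_zero_of_lt (show n < k by omega)]; simp
    · have h5 := Nat.choose_mul_succ_eq n k
      have h6 : ((n.choose k * (n + 1) : ℕ) : K) =
        (((n + 1).choose k * (n + 1 - k) : ℕ) : K) := by exact_mod_cast h5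
      rw [Nat.cast_mul, Nat.cast_mul, Nat.cast_sub h] at h6
      push_cast at h6
      exact h6
  have hk : ((k : K) + 1) ≠ 0 := by exact_mod_cast Nat.succ_ne_zero k
  have c1' : ((n + 1).choose (k + 1) : K) = (n + 1).choose k * ((n : K) + 1 - k) / (k + 1) := by
    rw [eq_div_iff hk]; exact c1
  have c2' : (n.choose k : K) = (n + 1).choose k * ((n : K) + 1 - k) / (n + 1) := by
    rw [eq_div_iff hn]; exact c2
  rw [c1', c2', pow_succ]
  generalize ((n + 1).choose k : K) = b at *
  generalize P a c n k = p at *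
  generalize (-1 : K) ^ k = s at *
  have h22 : (2 : K) ≠ 0 := two_ne_zero
  field_simp
  ring

/-- the sum -/
def D (a c : K) (n : ℕ) : K := ∑ k ∈ range (n + 1), T a c n k

omit [CharZero K] in
theorem T_gt {n k : ℕ} (h : n < k) : T a c n k = 0 := by
  unfold T; rw [Nat.choose_eq_zero_of_lt h]; simp

include h1 h2 in
theorem D_succ (n : ℕ) : ((n : K) + 1 + a / 2) * (n + 1 + a - c) * D a c (n + 1) =
    (n + 1 + a) * (n + 1 + a / 2 - c) * D a c n := by
  have key : ∀ m, ∑ k ∈ range m, (((n : K) + 1 + a / 2) * (n + 1 + a - c) * T a c (n + 1) k -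
    (n + 1 + a) * (n + 1 + a / 2 - c) * T a c n k) =
    -(1 / 2) * (m : K) * (m + a - c) * (n + 1 + a) / (n + 1) *
      ((-1) ^ m * ((n + 1).choose m : K) * P a c n m) := by
    intro m
    induction m with
    | zero => simp
    | succ m ih =>
      rw [sum_range_succ, ih, wz h1 h2]
      push_cast
      ring
  have h4 := key (n + 2)
  rw [Nat.choose_eq_zero_of_lt (show n + 1 < n + 2 by omega), sum_sub_distrib, ← mul_sum,
    ← mul_sum] at h4
  have h5 : ∑ k ∈ range (n + 2), T a c n k = D a c n := by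
    rw [sum_range_succ, T_gt (Nat.lt_succ_self n), add_zero]; rfl
  rw [h5] at h4
  have h6 : ∑ k ∈ range (n + 2), T a c (n + 1) k = D a c (n + 1) := rfl
  rw [h6] at h4
  simp only [Nat.cast_zero, mul_zero, zero_mul] at h4
  linear_combination h4

include h1 h2 h3 in
/-- the Dixon sum -/
theorem dixon (n : ℕ) : D a c n = ∏ l ∈ range n, ((1 + a + l) * (1 + a / 2 - c + l) /
    ((1 + a / 2 + l) * (1 + a - c + l))) := by
  induction n with
  | zero => simp [D, T, P]
  | succ n ih =>
    have h4 := D_succ h1 h2 n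
    rw [prod_range_succ, ← ih]
    have e2 := h2 n
    have e3 := h3 n
    have e2' : (n : K) + 1 + a - c ≠ 0 := by
      rw [show (n : K) + 1 + a - c = 1 + a - c + n by ring]; exact e2
    have e3' : (n : K) + 1 + a / 2 ≠ 0 := by
      rw [show (n : K) + 1 + a / 2 = 1 + a / 2 + n by ring]; exact e3
    apply mul_left_cancel₀ (mul_ne_zero e3' e2')
    rw [h4]
    rw [show (n : K) + 1 + a / 2 = 1 + a / 2 + n by ring,
      show (n : K) + 1 + a - c = 1 + a - c + n by ring]
    have e5 : ((1 + a / 2 + n) * (1 + a - c + n)) * ((1 + a + n) * (1 + a / 2 - c + n) /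
        ((1 + a / 2 + n) * (1 + a - c + n))) = (1 + a + n) * (1 + a / 2 - c + n) :=
      mul_div_cancel₀ _ (mul_ne_zero e3 e2)
    linear_combination (-D a c n) * e5

end Q278.Dixon
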