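import Mathlib

set_option autoImplicit false

namespace Q278.Dougall

open Finset

/-! ### Antisymmetry of the summands when `3 N + α = 0` -/

section antisym

variable {R : Type*} [CommRing R] (a y : R)

/-- first factor -/
def f (j : ℕ) : R := (3 * (j : R) + a) * (6 * (j : R) + 3) * ((3 * (j : R) + a) ^ 2 - y)

/-- second factor -/
def g (j : ℕ) : R := (3 * (j : R) + 3) * (6 * (j : R) + 3 + 2 * a) * ((3 * (j : R) + 3) ^ 2 - y)

/-- the summand -/
def term (N k : ℕ) : R := (6 * (k : R) + a) * (∏ j ∈ range k, f a y j) * ∏ j ∈ Ico k N, g a y j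

/-- the sum -/
def Z (N : ℕ) : R := ∑ k ∈ range (N + 1), term a y N k

theorem f_eq_g {N : ℕ} (h : 3 * (N : R) + a = 0) {j : ℕ} (hj : j < N) :
    f a y j = g a y (N - 1 - j) := by
  have h1 : ((N - 1 - j : ℕ) : R) = (N : R) - 1 - j := by
    rw [Nat.cast_sub (by omega), Nat.cast_sub (by omega)]; simp
  have ha : a = -(3 * (N : R)) := by linear_combination h
  unfold f g
  rw [h1, ha]
  ring

theorem prod_f {N k : ℕ} (h : 3 * (N : R) + a = 0) (hk : k ≤ N) :
    ∏ j ∈ range k, f a y j = ∏ j ∈ Ico (N - k) N, g a y j := by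
  rw [prod_Ico_eq_prod_range, show N - (N - k) = k by omega,
    ← prod_range_reflect (fun i => g a y (N - k + i)) k]
  apply prod_congr rfl
  intro j hj
  have hj' := mem_range.1 hj
  rw [f_eq_g a y h (by omega)]
  congr 1
  omega

theorem term_reflect {N k : ℕ} (h : 3 * (N : R) + a = 0) (hk : k ≤ N) :
    term a y N (N - k) = - term a y N k := by
  unfold term
  rw [prod_f a y h hk, prod_f a y h (Nat.sub_le N k), show N - (N - k) = k by omega,
    Nat.cast_sub hk]
  linear_combination (2 * (∏ j ∈ Ico k N, g a y j) * ∏ j ∈ Ico (N - k) N, g a y j) * h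

theorem two_Z {N : ℕ} (h : 3 * (N : R) + a = 0) : 2 * Z a y N = 0 := by
  have h1 : Z a y N = - Z a y N := by
    conv_lhs => rw [Z, ← sum_range_reflect]
    unfold Z
    rw [← sum_neg_distrib]
    apply sum_congr rfl
    intro k hk
    have hk' := mem_range.1 hk
    rw [show N + 1 - 1 - k = N - k by omega, term_reflect a y h (by omega)]
  linear_combination h1

end antisym

/-! ### The closed form -/

section closed

/-- the quotient of products -/
noncomputable def v (a : ℚ) (N k : ℕ) : ℚ :=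
  ∏ j ∈ range k, f a ((3 * (N : ℚ) + a) ^ 2) j / g a ((3 * (N : ℚ) + a) ^ 2) j

/-- no denominator vanishes -/
structure Good (a : ℚ) : Prop where
  h1 : ∀ n : ℤ, 3 * (n : ℚ) + a ≠ 0
  h2 : ∀ n : ℤ, 3 * (n : ℚ) + 2 * a ≠ 0
  h3 : ∀ n : ℤ, 6 * (n : ℚ) + 3 + 2 * a ≠ 0

theorem good_int {α : ℤ} (h : α = 1 ∨ α = -1) : Good (α : ℚ) := by
  constructor
  · intro n hn
    have : 3 * n + α = 0 := by exact_mod_cast hn
    omega
  · intro n hn
    have : 3 * n + 2 * α = 0 := by exact_mod_cast hn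
    omega
  · intro n hn
    have : 6 * n + 3 + 2 * α = 0 := by exact_mod_cast hn
    omega

theorem g_ne {a : ℚ} (ha : Good a) (N j : ℕ) : g a ((3 * (N : ℚ) + a) ^ 2) j ≠ 0 := by
  unfold g
  have e : (3 * (j : ℚ) + 3) ^ 2 - (3 * (N : ℚ) + a) ^ 2
      = -(3 * ((N - j - 1 : ℤ) : ℚ) + a) * (3 * ((j + 1 + N : ℤ) : ℚ) + a) := by
    push_cast; ring
  rw [e]
  refine mul_ne_zero (mul_ne_zero (by positivity) ?_) (mul_ne_zero (neg_ne_zero.2 (ha.h1 _))
    (ha.h1 _))
  have := ha.h3 j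
  exact_mod_cast this

theorem v_succ {a : ℚ} (N k : ℕ) :
    v a N (k + 1) = v a N k *
      (f a ((3 * (N : ℚ) + a) ^ 2) k / g a ((3 * (N : ℚ) + a) ^ 2) k) := by
  unfold v
  rw [prod_range_succ]

theorem cross {X W Y0 Y1 Y Y' f0 f1 g0 g1 : ℚ} (hY : Y1 ≠ 0) (h0 : g0 ≠ 0) (h1 : g1 ≠ 0)
    (h : X * Y1 = W * Y0) (hp : Y0 * f1 * Y' * g0 = f0 * Y * Y1 * g1) :
    X * (f1 / g1) * Y' = W * (f0 / g0) * Y := by
  have e1 : X * (f1 / g1) * Y' = (X * Y1) * f1 * Y' / (g1 * Y1) := by field_simp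
  have e2 : W * (f0 / g0) * Y = W * f0 * Y / g0 := by ring
  rw [e1, h, e2, div_eq_div_iff (mul_ne_zero h1 hY) h0]
  linear_combination W * hp

theorem step {N k a W V D R U : ℚ} (hD : D = N + 1 - k) (hR : R = 3 * N + 2 * a)
    (hU : U = 3 * N + 3 + a + 3 * k) (hD0 : D ≠ 0) (hR0 : R ≠ 0) (hU0 : U ≠ 0)
    (hV : V * (D * R * U * (3 * N + a)) =
      W * ((N + 1) * (3 * N + 2 * a + 3 * k) * (3 * N + 3 + a) * (3 * N + a - 3 * k))) :
    k * (3 * k - 3 * N - a) * (6 * k + 2 * a - 3) * (3 * N + 3 + a) * W / (R * D) +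
      (6 * k + a) * (V * (3 * N + a) - W * (3 * N + 3 + a)) =
    - ((3 * N + 3 + a) * (3 * k + a) * (6 * k + 3) * (3 * k + 3 * N + 2 * a) * W / (R * U)) := by
  have hV' : V * (3 * N + a) = W * ((N + 1) * (3 * N + 2 * a + 3 * k) * (3 * N + 3 + a) *
      (3 * N + a - 3 * k)) / (D * R * U) := by
    rw [eq_div_iff (mul_ne_zero (mul_ne_zero hD0 hR0) hU0)]
    linear_combination hV
  rw [hV', ← sub_eq_zero]
  have e : k * (3 * k - 3 * N - a) * (6 * k + 2 * a - 3) * (3 * N + 3 + a) * W / (R * D) +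
      (6 * k + a) * (W * ((N + 1) * (3 * N + 2 * a + 3 * k) * (3 * N + 3 + a) *
      (3 * N + a - 3 * k)) / (D * R * U) - W * (3 * N + 3 + a)) -
      - ((3 * N + 3 + a) * (3 * k + a) * (6 * k + 3) * (3 * k + 3 * N + 2 * a) * W / (R * U)) =
      (k * (3 * k - 3 * N - a) * (6 * k + 2 * a - 3) * (3 * N + 3 + a) * W * U +
      (6 * k + a) * (W * ((N + 1) * (3 * N + 2 * a + 3 * k) * (3 * N + 3 + a) *
      (3 * N + a - 3 * k)) - W * (3 * N + 3 + a) * (D * R * U)) +
      ((3 * N + 3 + a) * (3 * k + a) * (6 * k + 3) * (3 * k + 3 * N + 2 * a) * W) * D) /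
      (D * R * U) := by
    field_simp
    ring
  rw [e, div_eq_zero_iff]
  left
  rw [hD, hR, hU]
  ring

theorem rhs_succ {N k a W K S T U R D : ℚ} (hD : D = N - k)
    (hK0 : K ≠ 0) (hS0 : S ≠ 0) (hT0 : T ≠ 0) (hU0 : U ≠ 0) (hR0 : R ≠ 0) (hD0 : D ≠ 0) :
    K * T * S * (3 * N + 3 + a) * (W * (((3 * k + a) * (6 * k + 3) * (3 * k - 3 * N) *
      (3 * k + 3 * N + 2 * a)) / (3 * K * S * T * U))) / (R * D) =
    - ((3 * N + 3 + a) * (3 * k + a) * (6 * k + 3) * (3 * k + 3 * N + 2 * a) * W / (R * U)) := by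
  have h : 3 * k - 3 * N = -3 * D := by rw [hD]; ring
  rw [h]
  clear h hD
  field_simp

theorem v_succ_left {a : ℚ} (ha : Good a) (N k : ℕ) (hk : k ≤ N) :
    v a (N + 1) k * (((N : ℚ) + 1 - k) * (3 * N + 2 * a) * (3 * N + 3 + a + 3 * k) * (3 * N + a))
      = v a N k * (((N : ℚ) + 1) * (3 * N + 2 * a + 3 * k) * (3 * N + 3 + a) *
        (3 * N + a - 3 * k)) := by
  induction k with
  | zero => simp [v]
  | succ k ih =>
    have ih := ih (by omega)
    have hg1 := g_ne ha N k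
    have hg2 := g_ne ha (N + 1) k
    rw [v_succ, v_succ]
    have hNk : (N : ℚ) + 1 - k ≠ 0 := by
      have : ((N + 1 - k : ℤ) : ℚ) ≠ 0 := by exact_mod_cast (by omega : (N + 1 - k : ℤ) ≠ 0)
      push_cast at this; exact this
    have h2a : 3 * (N : ℚ) + 2 * a ≠ 0 := by exact_mod_cast ha.h2 N
    have h3a : 3 * (N : ℚ) + 3 + a + 3 * k ≠ 0 := by
      have := ha.h1 (N + 1 + k); push_cast at this; intro h; apply this; linear_combination h
    have h4a : 3 * (N : ℚ) + a ≠ 0 := by exact_mod_cast ha.h1 N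
    refine cross (mul_ne_zero (mul_ne_zero (mul_ne_zero hNk h2a) h3a) h4a) hg1 hg2 ih ?_
    unfold f g
    push_cast
    ring

/-- denominators and quotients at `k` -/
theorem aux {a : ℚ} (ha : Good a) (N k : ℕ) (hk : k ≤ N) :
    (k : ℚ) * (3 * k - 3 * N - a) * (6 * k + 2 * a - 3) * (3 * N + 3 + a) * v a N k /
        ((3 * N + 2 * a) * (N + 1 - k)) + (6 * (k : ℚ) + a) *
        (v a (N + 1) k * (3 * N + a) - v a N k * (3 * N + 3 + a)) =
    - ((3 * (N : ℚ) + 3 + a) * (3 * k + a) * (6 * k + 3) * (3 * k + 3 * N + 2 * a) *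
        v a N k / ((3 * N + 2 * a) * (3 * N + 3 + a + 3 * k))) := by
  have hNk : (N : ℚ) + 1 - k ≠ 0 := by
    have : ((N + 1 - k : ℤ) : ℚ) ≠ 0 := by exact_mod_cast (by omega : (N + 1 - k : ℤ) ≠ 0)
    push_cast at this; exact this
  have h2a : 3 * (N : ℚ) + 2 * a ≠ 0 := by exact_mod_cast ha.h2 N
  have h3a : 3 * (N : ℚ) + 3 + a + 3 * k ≠ 0 := by
    have := ha.h1 (N + 1 + k); push_cast at this; intro h; apply this; linear_combination h
  exact step rfl rfl rfl hNk h2a h3a (v_succ_left ha N k hk)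

theorem partial_sum {a : ℚ} (ha : Good a) (N k : ℕ) (hk : k ≤ N) :
    ∑ j ∈ range k, (6 * (j : ℚ) + a) *
        (v a (N + 1) j * (3 * N + a) - v a N j * (3 * N + 3 + a))
      = (k : ℚ) * (3 * k - 3 * N - a) * (6 * k + 2 * a - 3) * (3 * N + 3 + a) * v a N k /
        ((3 * N + 2 * a) * (N + 1 - k)) := by
  induction k with
  | zero => simp
  | succ k ih =>
    have ih := ih (by omega)
    rw [sum_range_succ, ih, aux ha N k (by omega), v_succ]
    have hNk : (N : ℚ) - k ≠ 0 := by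
      have : ((N - k : ℤ) : ℚ) ≠ 0 := by exact_mod_cast (by omega : (N - k : ℤ) ≠ 0)
      push_cast at this; exact this
    have h2a : 3 * (N : ℚ) + 2 * a ≠ 0 := by exact_mod_cast ha.h2 N
    have h3a : 3 * (N : ℚ) + 3 + a + 3 * k ≠ 0 := by
      have := ha.h1 (N + 1 + k); push_cast at this; intro h; apply this; linear_combination h
    have h5a : (3 * (k : ℚ) + 3 - 3 * N - a) ≠ 0 := by
      have := ha.h1 (N - k - 1); push_cast at this; intro h; apply this; linear_combination -h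
    have h6a : 6 * (k : ℚ) + 3 + 2 * a ≠ 0 := by exact_mod_cast ha.h3 k
    have hk1 : (k : ℚ) + 1 ≠ 0 := by positivity
    have hfg : f a ((3 * (N : ℚ) + a) ^ 2) k / g a ((3 * (N : ℚ) + a) ^ 2) k =
        ((3 * (k : ℚ) + a) * (6 * k + 3) * (3 * k - 3 * N) * (3 * k + 3 * N + 2 * a)) /
        (3 * (k + 1) * (6 * k + 3 + 2 * a) * (3 * k + 3 - 3 * N - a) * (3 * N + 3 + a + 3 * k)) := by
      unfold f g
      congr 1 <;> ring
    rw [hfg, ← rhs_succ (D := (N : ℚ) - k) rfl hk1 h6a h5a h3a h2a hNk]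
    push_cast
    congr 1 <;> ring

theorem closed {a : ℚ} (ha : Good a) (N : ℕ) :
    ∑ k ∈ range (N + 1), (6 * (k : ℚ) + a) * v a N k = 3 * N + a := by
  induction N with
  | zero => simp [v]
  | succ N ih =>
    have h4a : 3 * (N : ℚ) + a ≠ 0 := by exact_mod_cast ha.h1 N
    have h2a : 3 * (N : ℚ) + 2 * a ≠ 0 := by exact_mod_cast ha.h2 N
    have h1 := partial_sum ha N N le_rfl
    have h2 := aux ha N N le_rfl
    have hv := v_succ_left ha N N le_rfl
    have h3a : 3 * (N : ℚ) + 3 + a + 3 * N ≠ 0 := by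
      have := ha.h1 (N + 1 + N); push_cast at this; intro h; apply this; linear_combination h
    have h7a : 3 * (N : ℚ) + 3 + a + 3 * N + 3 ≠ 0 := by
      have := ha.h1 (N + 1 + N + 1); push_cast at this; intro h; apply this; linear_combination h
    have h6a : 6 * (N : ℚ) + 3 + 2 * a ≠ 0 := by exact_mod_cast ha.h3 N
    have ha0 : a ≠ 0 := by have := ha.h1 0; simpa using this
    have hN1 : (N : ℚ) + 1 ≠ 0 := by positivity
    have hfg : f a ((3 * ((N + 1 : ℕ) : ℚ) + a) ^ 2) N / g a ((3 * ((N + 1 : ℕ) : ℚ) + a) ^ 2) N =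
        ((3 * (N : ℚ) + a) * (6 * N + 3) * (-3) * (6 * N + 3 + 2 * a)) /
        (3 * (N + 1) * (6 * N + 3 + 2 * a) * (- a) * (3 * N + 3 + a + 3 * N + 3)) := by
      unfold f g
      push_cast
      congr 1 <;> ring
    rw [← h1, ← sum_range_succ (fun j : ℕ => (6 * (j : ℚ) + a) *
      (v a (N + 1) j * (3 * N + a) - v a N j * (3 * N + 3 + a)))] at h2
    have h3 : ∑ j ∈ range (N + 1), (6 * (j : ℚ) + a) *
        (v a (N + 1) j * (3 * N + a) - v a N j * (3 * N + 3 + a)) =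
        (3 * N + a) * (∑ j ∈ range (N + 1), (6 * (j : ℚ) + a) * v a (N + 1) j) -
        (3 * N + 3 + a) * ∑ j ∈ range (N + 1), (6 * (j : ℚ) + a) * v a N j := by
      rw [mul_sum, mul_sum, ← sum_sub_distrib]
      apply sum_congr rfl
      intro j _
      ring
    rw [h3, ih] at h2
    rw [sum_range_succ, v_succ, hfg]
    apply mul_left_cancel₀ h4a
    have h5 : (3 * (N : ℚ) + a) * (∑ j ∈ range (N + 1), (6 * (j : ℚ) + a) * v a (N + 1) j) =
        (3 * N + 3 + a) * (3 * N + a) - ((3 * (N : ℚ) + 3 + a) * (3 * N + a) * (6 * N + 3) *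
        (3 * N + 3 * N + 2 * a) * v a N N / ((3 * N + 2 * a) * (3 * N + 3 + a + 3 * N))) := by
      linear_combination h2
    rw [mul_add, h5]
    have h6 : (3 * (N : ℚ) + a) * ((6 * ((N + 1 : ℕ) : ℚ) + a) * (v a (N + 1) N *
        (((3 * (N : ℚ) + a) * (6 * N + 3) * (-3) * (6 * N + 3 + 2 * a)) /
        (3 * (N + 1) * (6 * N + 3 + 2 * a) * (- a) * (3 * N + 3 + a + 3 * N + 3))))) =
        ((3 * (N : ℚ) + 3 + a) * (3 * N + a) * (6 * N + 3) *
        (3 * N + 3 * N + 2 * a) * v a N N / ((3 * N + 2 * a) * (3 * N + 3 + a + 3 * N))) := by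
      have e : (6 * ((N + 1 : ℕ) : ℚ) + a) = 3 * N + 3 + a + 3 * N + 3 := by push_cast; ring
      rw [e]
      clear e h5 h3 h2 h1 hfg ih
      rw [show (N : ℚ) + 1 - N = 1 by ring, show 3 * (N : ℚ) + a - 3 * N = a by ring] at hv
      have hV : (3 * (N : ℚ) + a) * v a (N + 1) N = v a N N * ((N + 1) * (3 * N + 2 * a + 3 * N) *
          (3 * N + 3 + a) * a) / ((3 * N + 2 * a) * (3 * N + 3 + a + 3 * N)) := by
        rw [eq_div_iff (mul_ne_zero h2a h3a)]
        linear_combination hv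
      have e1 : (3 * (N : ℚ) + a) * ((3 * N + 3 + a + 3 * N + 3) * (v a (N + 1) N *
        (((3 * (N : ℚ) + a) * (6 * N + 3) * (-3) * (6 * N + 3 + 2 * a)) /
        (3 * (N + 1) * (6 * N + 3 + 2 * a) * (- a) * (3 * N + 3 + a + 3 * N + 3))))) =
        ((3 * (N : ℚ) + a) * v a (N + 1) N) * ((3 * N + 3 + a + 3 * N + 3) *
        (((3 * (N : ℚ) + a) * (6 * N + 3) * (-3) * (6 * N + 3 + 2 * a)) /
        (3 * (N + 1) * (6 * N + 3 + 2 * a) * (- a) * (3 * N + 3 + a + 3 * N + 3)))) := by ring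
      rw [e1, hV]
      generalize v a N N = W
      have e2 : 3 * (N : ℚ) + 3 * N + 2 * a = 3 * N + 2 * a + 3 * N := by ring
      rw [e2]
      clear hv hV e1 e2
      generalize 3 * (N : ℚ) + 3 + a + 3 * N = A at *
      generalize A + 3 = B at *
      generalize 3 * (N : ℚ) + 2 * a = C at *
      generalize 6 * (N : ℚ) + 3 + 2 * a = D at *
      generalize (N : ℚ) + 1 = E at *
      field_simp
    rw [h6]
    push_cast
    ring

end closed


/-! ### The congruence -/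

section congr

open Polynomial

theorem map_Z {R S : Type*} [CommRing R] [CommRing S] (φ : R →+* S) (a y : R) (N : ℕ) :
    φ (Z a y N) = Z (φ a) (φ y) N := by
  simp [Z, term, f, g, map_sum, map_prod, map_ofNat φ 2, map_ofNat φ 3, map_ofNat φ 6]

/-- product of all second factors -/
def G {R : Type*} [CommRing R] (a y : R) (N : ℕ) : R := ∏ j ∈ range N, g a y j

theorem map_G {R S : Type*} [CommRing R] [CommRing S] (φ : R →+* S) (a y : R) (N : ℕ) :
    φ (G a y N) = G (φ a) (φ y) N := by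
  simp [G, g, map_prod, map_ofNat φ 2, map_ofNat φ 3, map_ofNat φ 6]

theorem Z_eq (a y : ℚ) (N : ℕ) (h : ∀ j < N, g a y j ≠ 0) :
    Z a y N = G a y N * ∑ k ∈ range (N + 1), (6 * (k : ℚ) + a) *
      ∏ j ∈ range k, f a y j / g a y j := by
  unfold Z
  rw [mul_sum]
  apply sum_congr rfl
  intro k hk
  have hk' := mem_range.1 hk
  have e : G a y N = (∏ j ∈ range k, g a y j) * ∏ j ∈ Ico k N, g a y j := by
    unfold G
    rw [prod_range_mul_prod_Ico _ (by omega)]
  have h0 : ∏ j ∈ range k, g a y j ≠ 0 := by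
    apply prod_ne_zero_iff.2
    intro j hj
    exact h j (by have := mem_range.1 hj; omega)
  rw [e, prod_div_distrib]
  unfold term
  field_simp

theorem Z_zmod {α : ℤ} {N p : ℕ} (hp : p.Prime) (hp2 : p ≠ 2) (hN : 3 * (N : ℤ) + α = p) :
    (C (p : ℤ)) ∣ Z (C α) (X : ℤ[X]) N := by
  have := Fact.mk hp
  have h1 : mapRingHom (Int.castRingHom (ZMod p)) (Z (C α) (X : ℤ[X]) N) = 0 := by
    rw [map_Z]
    have h2 : (2 : (ZMod p)[X]) * Z ((mapRingHom (Int.castRingHom (ZMod p))) (C α))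
      ((mapRingHom (Int.castRingHom (ZMod p))) X) N = 0 := by
      apply two_Z
      have : (3 * (N : (ZMod p)[X]) + mapRingHom (Int.castRingHom (ZMod p)) (C α)) =
          mapRingHom (Int.castRingHom (ZMod p)) (C (3 * (N : ℤ) + α)) := by
        simp
      rw [this, hN]
      simp
    rcases mul_eq_zero.1 h2 with h | h
    · exfalso
      have h3 : (C (2 : ZMod p)) = 0 := by
        have : (C (2 : ZMod p)) = (2 : (ZMod p)[X]) := map_ofNat C 2
        rw [this, h]
      have h4 : (2 : ZMod p) = 0 := by simpa using h3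
      have h5 : ((2 : ℕ) : ZMod p) = 0 := by exact_mod_cast h4
      rw [ZMod.natCast_eq_zero_iff] at h5
      have := (Nat.prime_dvd_prime_iff_eq hp Nat.prime_two).1 h5
      exact hp2 this
    · exact h
  rw [C_dvd_iff_dvd_coeff]
  intro i
  have h2 := congrArg (fun q => coeff q i) h1
  simp only [coe_mapRingHom, coeff_map, coeff_zero] at h2
  exact (ZMod.intCast_zmod_eq_zero_iff_dvd _ _).1 (by simpa using h2)

theorem main {α : ℤ} (hα : α = 1 ∨ α = -1) {N p : ℕ} (hp : p.Prime) (hp2 : p ≠ 2)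
    (hN : 3 * (N : ℤ) + α = p) :
    ∃ x : ℚ, ¬ (p ∣ x.den) ∧ ∑ k ∈ range (N + 1), (6 * (k : ℚ) + α) *
      (∏ j ∈ range k, f (α : ℚ) 0 j / g (α : ℚ) 0 j) - p = p ^ 3 * x := by
  obtain ⟨R, hR⟩ := Z_zmod hp hp2 hN
  have h1 : (p : ℤ) ^ 2 - 0 ∣ R.eval ((p : ℤ) ^ 2) - R.eval 0 := sub_dvd_eval_sub _ _ _
  obtain ⟨m1, hm1⟩ := h1
  have h2 : (p : ℤ) ^ 2 - 0 ∣ (G (C α) (X : ℤ[X]) N).eval ((p : ℤ) ^ 2) -
      (G (C α) (X : ℤ[X]) N).eval 0 := sub_dvd_eval_sub _ _ _
  obtain ⟨m2, hm2⟩ := h2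
  have e1 : ∀ y : ℤ, (Z (C α) (X : ℤ[X]) N).eval y = Z α y N := by
    intro y
    have := map_Z (evalRingHom y) (C α) X N
    simpa using this
  have e2 : ∀ y : ℤ, (G (C α) (X : ℤ[X]) N).eval y = G α y N := by
    intro y
    have := map_G (evalRingHom y) (C α) X N
    simpa using this
  rw [e2, e2] at hm2
  have e3 := e1 ((p : ℤ) ^ 2)
  have e4 := e1 0
  rw [hR, eval_mul, eval_C] at e3 e4
  have hgood := good_int hα
  have hpq : (3 * (N : ℚ) + (α : ℚ)) = p := by exact_mod_cast hN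
  -- closed form
  have e5 : (Z (α : ℚ) ((p : ℚ) ^ 2) N) = G (α : ℚ) ((p : ℚ) ^ 2) N * p := by
    rw [← hpq, Z_eq _ _ _ (fun j _ => g_ne hgood N j)]
    have := closed hgood N
    unfold v at this
    rw [this]
  have hg0 : ∀ j < N, ¬ ((p : ℤ) ∣ g α 0 j) := by
    intro j hj h
    unfold g at h
    have hpp : Prime (p : ℤ) := Nat.prime_iff_prime_int.1 hp
    have hodd : p % 2 = 1 := by
      rcases hp.eq_two_or_odd with h | h
      · exact absurd h hp2
      · exact h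
    have h3 : ¬ ((p : ℤ) ∣ (3 * (j : ℤ) + 3)) := by
      intro h
      have h' : (p : ℤ) ∣ 3 * ((j : ℤ) + 1) := by
        have e : 3 * ((j : ℤ) + 1) = 3 * (j : ℤ) + 3 := by ring
        rw [e]; exact h
      rcases hpp.dvd_or_dvd h' with h | h
      · have h3 : (p : ℤ) ≤ 3 := Int.le_of_dvd (by norm_num) h
        have := hp.two_le
        omega
      · have := Int.le_of_dvd (by omega) h
        omega
    rcases hpp.dvd_or_dvd h with h | h
    · rcases hpp.dvd_or_dvd h with h | h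
      · exact h3 h
      · obtain ⟨c, hc⟩ := h
        have hc0 : 0 < c := by
          by_contra hneg
          have : (p : ℤ) * c ≤ 0 := mul_nonpos_of_nonneg_of_nonpos (by positivity) (by omega)
          rcases hα with h | h <;> omega
        have hc2 : c < 2 := by
          by_contra hneg
          have : (p : ℤ) * 2 ≤ (p : ℤ) * c := mul_le_mul_of_nonneg_left (by omega) (by positivity)
          rcases hα with h | h <;> omega
        have hc1 : c = 1 := by omega
        subst hc1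
        rcases hα with h | h <;> omega
    · rw [sub_zero] at h
      exact h3 (hpp.dvd_of_dvd_pow h)
  have hG0 : ¬ ((p : ℤ) ∣ G α 0 N) := by
    have hpp : Prime (p : ℤ) := Nat.prime_iff_prime_int.1 hp
    intro h
    unfold G at h
    obtain ⟨j, hj, h⟩ := (Prime.dvd_finsetProd_iff hpp _).1 h
    exact hg0 j (mem_range.1 hj) h
  have hg0' : ∀ j < N, g (α : ℚ) 0 j ≠ 0 := by
    intro j hj h
    apply hg0 j hj
    have : ((g α 0 j : ℤ) : ℚ) = g (α : ℚ) 0 j := by unfold g; push_cast; ring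
    rw [h] at this
    have h0 : g α 0 j = 0 := by exact_mod_cast this
    rw [h0]
    exact dvd_zero _
  have e6 := Z_eq (α : ℚ) 0 N hg0'
  have c1 : ∀ y : ℤ, ((Z α y N : ℤ) : ℚ) = Z (α : ℚ) (y : ℚ) N := by
    intro y
    exact map_Z (Int.castRingHom ℚ) α y N
  have c2 : ∀ y : ℤ, ((G α y N : ℤ) : ℚ) = G (α : ℚ) (y : ℚ) N := by
    intro y
    exact map_G (Int.castRingHom ℚ) α y N
  have hG0q : ((G α 0 N : ℤ) : ℚ) ≠ 0 := by
    intro h
    have h0 : G α 0 N = 0 := by exact_mod_cast h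
    rw [h0] at hG0
    exact hG0 (dvd_zero _)
  set S := ∑ k ∈ range (N + 1), (6 * (k : ℚ) + (α : ℚ)) *
      ∏ j ∈ range k, f (α : ℚ) 0 j / g (α : ℚ) 0 j with hS
  refine ⟨((m2 - m1 : ℤ) : ℚ) / ((G α 0 N : ℤ) : ℚ), ?_, ?_⟩
  · intro h
    apply hG0
    have h1 : (((((m2 - m1 : ℤ) : ℚ) / ((G α 0 N : ℤ) : ℚ)).den : ℕ) : ℤ) ∣ G α 0 N := by
      rw [← Rat.divInt_eq_div]
      exact Rat.den_dvd _ _
    exact dvd_trans (by exact_mod_cast h) h1
  · have k1 : (Z (α : ℚ) ((p : ℚ) ^ 2) N) = p * (R.eval ((p : ℤ) ^ 2) : ℤ) := by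
      have := c1 ((p : ℤ) ^ 2)
      rw [← e3] at this
      push_cast at this
      exact this.symm
    have k2 : (Z (α : ℚ) 0 N) = p * (R.eval (0 : ℤ) : ℤ) := by
      have := c1 0
      rw [← e4] at this
      push_cast at this
      exact this.symm
    have k3 : (((R.eval ((p : ℤ) ^ 2) : ℤ) : ℚ)) - ((R.eval (0 : ℤ) : ℤ) : ℚ) = p ^ 2 * m1 := by
      have : R.eval ((p : ℤ) ^ 2) - R.eval 0 = (p : ℤ) ^ 2 * m1 := by rw [hm1]; ring
      exact_mod_cast this
    have k4 : G (α : ℚ) ((p : ℚ) ^ 2) N - G (α : ℚ) 0 N = p ^ 2 * m2 := by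
      have h := c2 ((p : ℤ) ^ 2)
      have h' := c2 0
      push_cast at h h'
      rw [← h, ← h']
      have : G α ((p : ℤ) ^ 2) N - G α 0 N = (p : ℤ) ^ 2 * m2 := by rw [hm2]; ring
      exact_mod_cast this
    have k5 : ((G α 0 N : ℤ) : ℚ) = G (α : ℚ) 0 N := by
      have := c2 0
      push_cast at this
      exact this
    rw [mul_div_assoc', eq_div_iff hG0q, k5]
    push_cast
    linear_combination k2 - k1 - p * k3 + e5 - e6 + p * k4

theorem term_eq {a : ℚ} (ha : Good a) (k : ℕ) :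
    ∏ j ∈ range k, f a 0 j / g a 0 j =
      ((ascPochhammer ℚ k).eval (a / 3)) ^ 4 * ((2 * k).factorial : ℚ) /
        ((k.factorial : ℚ) ^ 4 * (ascPochhammer ℚ (2 * k)).eval (2 * a / 3)) := by
  have hne' : ∀ k : ℕ, (ascPochhammer ℚ k).eval (2 * a / 3) ≠ 0 := by
    intro k
    induction k with
    | zero => simp
    | succ k ih =>
      rw [ascPochhammer_succ_eval]
      refine mul_ne_zero ih ?_
      intro h
      apply ha.h2 k
      push_cast
      linear_combination 3 * h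
  have hne : ∀ k : ℕ, (ascPochhammer ℚ (2 * k)).eval (2 * a / 3) ≠ 0 := fun k => hne' _
  induction k with
  | zero => simp
  | succ k ih =>
    have h0 := hne k
    have h1 := hne (k + 1)
    rw [prod_range_succ, ih]
    rw [show 2 * (k + 1) = 2 * k + 1 + 1 by ring] at h1 ⊢
    rw [ascPochhammer_succ_eval, ascPochhammer_succ_eval] at h1
    rw [ascPochhammer_succ_eval, ascPochhammer_succ_eval, ascPochhammer_succ_eval]
    rw [Nat.factorial_succ (2 * k + 1), Nat.factorial_succ (2 * k), Nat.factorial_succ k]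
    have hk : ((k.factorial : ℕ) : ℚ) ≠ 0 := by positivity
    have hk1 : (k : ℚ) + 1 ≠ 0 := by positivity
    have hS : 6 * (k : ℚ) + 3 + 2 * a ≠ 0 := by
      intro h
      apply right_ne_zero_of_mul h1
      push_cast
      linear_combination (1 / 3) * h
    have hT : 3 * (k : ℚ) + a ≠ 0 := by exact_mod_cast ha.h1 k
    push_cast
    push_cast at h1
    have e1 : 2 * a / 3 + (2 * (k : ℚ)) = 2 * (3 * k + a) / 3 := by ring
    have e2 : 2 * a / 3 + (2 * (k : ℚ) + 1) = (6 * (k : ℚ) + 3 + 2 * a) / 3 := by ring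
    have e3 : a / 3 + (k : ℚ) = (3 * k + a) / 3 := by ring
    have e4 : f a 0 k = (3 * (k : ℚ) + a) * (3 * (2 * k + 1)) * ((3 * (k : ℚ) + a) ^ 2) := by
      unfold f; ring
    have e5 : g a 0 k = (3 * ((k : ℚ) + 1)) * (6 * (k : ℚ) + 3 + 2 * a) * ((3 * ((k : ℚ) + 1)) ^ 2) := by
      unfold g; ring
    have e6 : 2 * (k : ℚ) + 1 + 1 = 2 * (k + 1) := by ring
    rw [e1, e2, e3, e4, e5, e6]
    generalize eval (a / 3) (ascPochhammer ℚ k) = P at *
    generalize eval (2 * a / 3) (ascPochhammer ℚ (2 * k)) = Q at *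
    generalize ((k.factorial : ℕ) : ℚ) = F at *
    generalize (((2 * k).factorial : ℕ) : ℚ) = F2 at *
    generalize 6 * (k : ℚ) + 3 + 2 * a = S at *
    generalize 3 * (k : ℚ) + a = T at *
    generalize (k : ℚ) + 1 = K at *
    field_simp

end congr

end Q278.Dougall
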