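import Pool.Agent.Q278.Loc

set_option autoImplicit false

/-! Congruences between units of a subring of a field. -/

namespace Q278.Unit

open Finset Q278.Loc

variable {K : Type*} [Field K] (O : Subring K) (π : K)

/-- The units of `O`. -/
def U (x : K) : Prop := x ∈ O ∧ x⁻¹ ∈ O ∧ x ≠ 0

/-- Congruence of units modulo `π ^ k`. -/
def Cg (k : ℕ) (x y : K) : Prop := U O x ∧ U O y ∧ x - y ∈ I O π k

variable {O π}

theorem U.one : U O 1 := ⟨O.one_mem, by rw [inv_one]; exact O.one_mem, one_ne_zero⟩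

theorem U.inv {x : K} (h : U O x) : U O x⁻¹ :=
  ⟨h.2.1, by rw [inv_inv]; exact h.1, inv_ne_zero h.2.2⟩

theorem U.mul {x y : K} (h : U O x) (h' : U O y) : U O (x * y) :=
  ⟨O.mul_mem h.1 h'.1, by rw [mul_inv]; exact O.mul_mem h.2.1 h'.2.1, mul_ne_zero h.2.2 h'.2.2⟩

theorem U.pow {x : K} (h : U O x) (m : ℕ) : U O (x ^ m) := by
  induction m with
  | zero => rw [pow_zero]; exact U.one
  | succ m ih => rw [pow_succ]; exact ih.mul h

theorem U.div {x y : K} (h : U O x) (h' : U O y) : U O (x / y) := by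
  rw [div_eq_mul_inv]; exact h.mul h'.inv

theorem U.prod {ι : Type*} {s : Finset ι} {f : ι → K} (h : ∀ i ∈ s, U O (f i)) :
    U O (∏ i ∈ s, f i) := by
  classical
  induction s using Finset.induction_on with
  | empty => rw [prod_empty]; exact U.one
  | insert a s ha ih =>
    rw [prod_insert ha]
    exact (h a (mem_insert_self a s)).mul (ih (fun i hi => h i (mem_insert_of_mem hi)))

theorem Cg.refl {k : ℕ} {x : K} (h : U O x) : Cg O π k x x :=
  ⟨h, h, by rw [sub_self]; exact (I O π k).zero_mem⟩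

theorem Cg.symm {k : ℕ} {x y : K} (h : Cg O π k x y) : Cg O π k y x :=
  ⟨h.2.1, h.1, by rw [← neg_sub]; exact (I O π k).neg_mem h.2.2⟩

theorem Cg.trans {k : ℕ} {x y z : K} (h : Cg O π k x y) (h' : Cg O π k y z) : Cg O π k x z :=
  ⟨h.1, h'.2.1, by rw [← sub_add_sub_cancel x y z]; exact (I O π k).add_mem h.2.2 h'.2.2⟩

theorem Cg.inv {k : ℕ} {x y : K} (h : Cg O π k x y) : Cg O π k x⁻¹ y⁻¹ := by
  refine ⟨h.1.inv, h.2.1.inv, ?_⟩
  have hx := h.1.2.2
  have hy := h.2.1.2.2
  have e : x⁻¹ - y⁻¹ = (x⁻¹ * y⁻¹) * (-(x - y)) := by field_simp; ring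
  rw [e]
  exact mul_O (O.mul_mem h.1.2.1 h.2.1.2.1) ((I O π k).neg_mem h.2.2)

theorem Cg.mul {k : ℕ} {x y x' y' : K} (h : Cg O π k x y) (h' : Cg O π k x' y') :
    Cg O π k (x * x') (y * y') := by
  refine ⟨h.1.mul h'.1, h.2.1.mul h'.2.1, ?_⟩
  have e : x * x' - y * y' = x' * (x - y) + y * (x' - y') := by ring
  rw [e]
  exact (I O π k).add_mem (mul_O h'.1.1 h.2.2) (mul_O h.2.1.1 h'.2.2)

theorem Cg.prod {k : ℕ} {ι : Type*} {s : Finset ι} {f g : ι → K}
    (h : ∀ i ∈ s, Cg O π k (f i) (g i)) : Cg O π k (∏ i ∈ s, f i) (∏ i ∈ s, g i) := by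
  classical
  induction s using Finset.induction_on with
  | empty => rw [prod_empty, prod_empty]; exact Cg.refl U.one
  | insert a s ha ih =>
    rw [prod_insert ha, prod_insert ha]
    exact (h a (mem_insert_self a s)).mul (ih (fun i hi => h i (mem_insert_of_mem hi)))

theorem Cg.pow {k : ℕ} {x y : K} (h : Cg O π k x y) (m : ℕ) : Cg O π k (x ^ m) (y ^ m) := by
  induction m with
  | zero => rw [pow_zero, pow_zero]; exact Cg.refl U.one
  | succ m ih => rw [pow_succ, pow_succ]; exact ih.mul h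

theorem prod_window {M : Type*} [CommMonoid M] (g : ℕ → M) (h : ℕ) : ∀ a : ℕ,
    ∏ j ∈ range (2 * h + 1), g (a + j) =
      g (a + h) * ∏ l ∈ range h, (g (a + (h - 1 - l)) * g (a + h + 1 + l)) := by
  induction h with
  | zero => intro a; simp
  | succ h ih =>
    intro a
    rw [show 2 * (h + 1) + 1 = (2 * h + 1) + 1 + 1 by ring, prod_range_succ, prod_range_succ']
    have e := ih (a + 1)
    have e1 : ∏ j ∈ range (2 * h + 1), g (a + (j + 1)) = ∏ j ∈ range (2 * h + 1), g (a + 1 + j) :=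
      prod_congr rfl (fun j _ => by rw [show a + (j + 1) = a + 1 + j by ring])
    rw [e1, e, prod_range_succ _ h]
    have e2 : ∏ l ∈ range h, (g (a + 1 + (h - 1 - l)) * g (a + 1 + h + 1 + l)) =
        ∏ l ∈ range h, (g (a + (h + 1 - 1 - l)) * g (a + (h + 1) + 1 + l)) := by
      apply prod_congr rfl
      intro l hl
      have := mem_range.1 hl
      rw [show a + 1 + (h - 1 - l) = a + (h + 1 - 1 - l) by omega,
        show a + 1 + h + 1 + l = a + (h + 1) + 1 + l by ring]
    rw [e2, show a + 1 + h = a + (h + 1) by ring, show a + (h + 1 - 1 - h) = a + 0 by omega,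
      show a + (2 * h + 1 + 1) = a + (h + 1) + 1 + h by ring]
    simp only [mul_assoc, mul_comm, mul_left_comm]

theorem prod_multiples {M : Type*} [CommMonoid M] {n : ℕ} (hn : 0 < n) (g : ℕ → M) (L : ℕ) :
    (∏ i ∈ range L, if n ∣ i + 1 then 1 else g (i + 1)) * ∏ k ∈ range (L / n), g (n * (k + 1)) =
      ∏ i ∈ range L, g (i + 1) := by
  induction L with
  | zero => simp
  | succ L ih =>
    rw [prod_range_succ, prod_range_succ, ← ih, Nat.succ_div]
    by_cases h : n ∣ L + 1
    · rw [if_pos h, if_pos h, prod_range_succ, mul_one]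
      have e : n * (L / n + 1) = L + 1 := by
        have h1 := Nat.succ_div (a := L) (b := n)
        rw [if_pos h] at h1
        rw [← h1]
        exact Nat.mul_div_cancel' h
      rw [e]
      simp only [mul_assoc]
    · rw [if_neg h, if_neg h, add_zero, mul_right_comm]

end Q278.Unit
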