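import Pool.Agent.Q278.PI
import Pool.Agent.Q278.Unit
import Pool.Agent.Q278.DixG
import Pool.Agent.Q278.Dixon

set_option autoImplicit false

/-! Block sums of the cubes of `C(2k,k) / 4^k`. -/

namespace Q278.EE

open Finset Q278.Loc Q278.Unit

variable {p h : ℕ} [hp : Fact p.Prime]

theorem U_int {m : ℤ} (hm : ¬ (p : ℤ) ∣ m) : U (PI.O p) (m : ℚ) := by
  have h0 : (m : ℚ) ≠ 0 := by
    intro h
    have : m = 0 := by exact_mod_cast h
    exact hm (this ▸ dvd_zero _)
  refine ⟨intCast_mem _ _, ?_, h0⟩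
  rw [← one_div]
  exact PI.inv_int_mem p hm

theorem p_mem : (p : ℚ) ∈ PI.O p := natCast_mem _ _

theorem Cg_of {k : ℕ} {x y : ℚ} (hx : U (PI.O p) x) (hy : U (PI.O p) y) (z : ℚ)
    (hz : z ∈ PI.O p) (e : x - y = (p : ℚ) ^ k * z) : Cg (PI.O p) (p : ℚ) k x y :=
  ⟨hx, hy, z, hz, e⟩

theorem Cg.div {k : ℕ} {x y x' y' : ℚ} (h : Cg (PI.O p) (p : ℚ) k x y)
    (h' : Cg (PI.O p) (p : ℚ) k x' y') : Cg (PI.O p) (p : ℚ) k (x / x') (y / y') := by
  rw [div_eq_mul_inv, div_eq_mul_inv]; exact h.mul h'.inv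

/-- the products -/
def rr (p I i : ℕ) : ℚ := ∏ l ∈ range i,
  ((2 * (p : ℚ) * I + 2 * l + 1) / (2 * (p : ℚ) * I + 2 * l + 2))

omit hp in
theorem rr_succ (I i : ℕ) : rr p I (i + 1) =
    rr p I i * ((2 * (p : ℚ) * I + 2 * i + 1) / (2 * (p : ℚ) * I + 2 * i + 2)) := by
  unfold rr; rw [prod_range_succ]

variable (hP : p = 2 * h + 1)
include hP

omit hp in
theorem not_dvd_of_lt {m : ℤ} (h0 : 0 < m) (h1 : m < p) (I : ℤ) : ¬ (p : ℤ) ∣ p * I + m := by
  intro h2
  have h3 : (p : ℤ) ∣ m := (dvd_add_right (dvd_mul_right _ _)).1 h2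
  have := Int.le_of_dvd h0 h3
  omega

omit hP in
theorem p_int_prime : Prime (p : ℤ) := Nat.prime_iff_prime_int.1 hp.out

theorem not_dvd_two : ¬ (p : ℤ) ∣ 2 := by
  intro h1
  have h2 := Int.le_of_dvd two_pos h1
  have := hp.out.two_le
  omega

theorem den_U (I : ℕ) {l : ℕ} (hl : l + 1 < p) : U (PI.O p) (2 * (p : ℚ) * I + 2 * l + 2) := by
  have h1 : ¬ (p : ℤ) ∣ 2 * (p * I + (l + 1)) := by
    intro h2
    rcases p_int_prime.dvd_or_dvd h2 with h3 | h3
    · exact not_dvd_two hP h3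
    · exact not_dvd_of_lt hP (by positivity) (by exact_mod_cast hl) _ h3
  have h4 := U_int h1
  push_cast at h4
  rw [show 2 * (p : ℚ) * I + 2 * l + 2 = 2 * (p * I + (l + 1)) by ring]
  exact h4

theorem num_U (I : ℕ) {l : ℕ} (hl : l < h) : U (PI.O p) (2 * (p : ℚ) * I + 2 * l + 1) := by
  have h1 : ¬ (p : ℤ) ∣ p * (2 * I) + (2 * l + 1) :=
    not_dvd_of_lt hP (by positivity) (by omega) _
  have h4 := U_int h1
  push_cast at h4
  rw [show 2 * (p : ℚ) * I + 2 * l + 1 = p * (2 * I) + (2 * l + 1) by ring]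
  exact h4

theorem rr_mem (I : ℕ) {i : ℕ} (hi : i < p) : rr p I i ∈ PI.O p := by
  refine (PI.O p).prod_mem fun l hl => ?_
  have hl' := mem_range.1 hl
  rw [div_eq_mul_inv]
  refine (PI.O p).mul_mem ?_ (den_U hP I (by omega)).2.1
  have : (2 * (p : ℚ) * I + 2 * l + 1) = ((2 * p * I + 2 * l + 1 : ℕ) : ℚ) := by push_cast; ring
  rw [this]
  exact natCast_mem _ _

theorem rr_U (I : ℕ) {i : ℕ} (hi : i ≤ h) : U (PI.O p) (rr p I i) := by
  have := hp.out.two_le
  refine U.prod fun l hl => ?_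
  have hl' := mem_range.1 hl
  exact (num_U hP I (by omega)).div (den_U hP I (by omega))

/-- the upper products divided by `p` -/
def w (p h I t : ℕ) : ℚ := rr p I h * (1 / (2 * (p : ℚ) * I + 2 * h + 2)) *
  ∏ s ∈ range t, ((2 * (p : ℚ) * I + 2 * (h + 1 + s) + 1) / (2 * (p : ℚ) * I + 2 * (h + 1 + s) + 2))

omit hp in
theorem rr_top (I t : ℕ) : rr p I (h + 1 + t) = p * ((2 * I + 1) * w p h I t) := by
  induction t with
  | zero =>
    rw [add_zero, rr_succ]
    unfold w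
    rw [prod_range_zero, hP]
    push_cast
    ring
  | succ t ih =>
    rw [← add_assoc, rr_succ, ih]
    unfold w
    rw [prod_range_succ]
    push_cast
    ring

theorem wnum_U (I : ℕ) {s : ℕ} (hs : s + 1 < h) :
    U (PI.O p) (2 * (p : ℚ) * I + 2 * (h + 1 + s) + 1) := by
  have h1 : ¬ (p : ℤ) ∣ p * (2 * I + 1) + (2 * s + 2) :=
    not_dvd_of_lt hP (by positivity) (by omega) _
  have h4 := U_int h1
  push_cast at h4
  have h5 : (p : ℚ) = 2 * h + 1 := by exact_mod_cast hP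
  rw [show 2 * (p : ℚ) * I + 2 * (h + 1 + s) + 1 = p * (2 * I + 1) + (2 * s + 2) by
    linear_combination -h5]
  exact h4

theorem wden_U (I : ℕ) {s : ℕ} (hs : s + 1 < h) :
    U (PI.O p) (2 * (p : ℚ) * I + 2 * (h + 1 + s) + 2) := by
  have h4 := den_U hP I (l := h + 1 + s) (by omega)
  push_cast at h4
  exact h4

theorem w_U (I : ℕ) {t : ℕ} (ht : t < h) : U (PI.O p) (w p h I t) := by
  have h1 := hp.out.two_le
  have h2 : U (PI.O p) (1 / (2 * (p : ℚ) * I + 2 * h + 2)) :=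
    U.one.div (den_U hP I (l := h) (by omega))
  refine ((rr_U hP I le_rfl).mul h2).mul (U.prod fun s hs => ?_)
  have hs' := mem_range.1 hs
  exact (wnum_U hP I (by omega)).div (wden_U hP I (by omega))

theorem rr_cg (I : ℕ) {i : ℕ} (hi : i ≤ h) : Cg (PI.O p) (p : ℚ) 1 (rr p I i) (rr p 0 i) := by
  have := hp.out.two_le
  refine Cg.prod fun l hl => ?_
  have hl' := mem_range.1 hl
  refine Cg.div ?_ ?_
  · exact Cg_of (num_U hP I (by omega)) (num_U hP 0 (by omega)) (2 * I)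
      (by exact_mod_cast natCast_mem (PI.O p) (2 * I)) (by push_cast; ring)
  · exact Cg_of (den_U hP I (by omega)) (den_U hP 0 (by omega)) (2 * I)
      (by exact_mod_cast natCast_mem (PI.O p) (2 * I)) (by push_cast; ring)

theorem w_cg (I : ℕ) {t : ℕ} (ht : t < h) : Cg (PI.O p) (p : ℚ) 1 (w p h I t) (w p h 0 t) := by
  have := hp.out.two_le
  have m1 : (2 * I : ℚ) ∈ PI.O p := by exact_mod_cast natCast_mem (PI.O p) (2 * I)
  refine ((rr_cg hP I le_rfl).mul (Cg.div (Cg.refl U.one) ?_)).mul (Cg.prod fun s hs => ?_)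
  · exact Cg_of (den_U hP I (l := h) (by omega)) (den_U hP 0 (l := h) (by omega)) (2 * I) m1
      (by push_cast; ring)
  · have hs' := mem_range.1 hs
    refine Cg.div ?_ ?_
    · exact Cg_of (wnum_U hP I (by omega)) (wnum_U hP 0 (by omega)) (2 * I) m1 (by push_cast; ring)
    · exact Cg_of (wden_U hP I (by omega)) (wden_U hP 0 (by omega)) (2 * I) m1 (by push_cast; ring)

omit hp in
/-- the binomial coefficient as a product -/
theorem choose_prod (i : ℕ) (hi : i ≤ h) : (-1 : ℚ) ^ i * (h.choose i : ℚ) =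
    ∏ l ∈ range i, ((2 * (l : ℚ) + 1 - p) / (2 * l + 2)) := by
  induction i with
  | zero => simp
  | succ i ih =>
    rw [prod_range_succ, ← ih (by omega)]
    have h1 : (h.choose (i + 1) : ℚ) * (i + 1) = h.choose i * ((h : ℚ) - i) := by
      have := Nat.choose_succ_right_eq h i
      rw [← Nat.cast_sub (by omega)]
      exact_mod_cast this
    have h2 : ((i : ℚ) + 1) ≠ 0 := by positivity
    have h3 : (h.choose (i + 1) : ℚ) = h.choose i * ((h : ℚ) - i) / (i + 1) := by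
      rw [eq_div_iff h2]; exact h1
    have h5 : (p : ℚ) = 2 * h + 1 := by exact_mod_cast hP
    rw [h3, h5, pow_succ]
    field_simp
    ring

theorem low_U {l : ℕ} (hl : l < h) : U (PI.O p) (2 * (l : ℚ) + 1 - p) := by
  have h1 : ¬ (p : ℤ) ∣ p * (-1) + (2 * l + 1) :=
    not_dvd_of_lt hP (by positivity) (by omega) _
  have h4 := U_int h1
  push_cast at h4
  rw [show 2 * (l : ℚ) + 1 - p = p * (-1) + (2 * l + 1) by ring]
  exact h4

theorem rr0_cg {i : ℕ} (hi : i ≤ h) :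
    Cg (PI.O p) (p : ℚ) 1 (rr p 0 i) ((-1 : ℚ) ^ i * (h.choose i : ℚ)) := by
  have := hp.out.two_le
  rw [choose_prod hP i hi]
  refine Cg.prod fun l hl => ?_
  have hl' := mem_range.1 hl
  refine Cg.div ?_ ?_
  · exact Cg_of (num_U hP 0 (by omega)) (low_U hP (by omega)) 1 (PI.O p).one_mem
      (by push_cast; ring)
  · have h1 := den_U hP 0 (l := l) (by omega)
    push_cast at h1 ⊢
    rw [mul_zero, zero_add] at h1 ⊢
    exact Cg.refl h1

/-- the closed form of the upper products modulo `p` -/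
def v (p h t : ℕ) : ℚ := (-1) ^ h * ∏ s ∈ range t, ((2 * (s : ℚ) + 2) / (2 * s + 3 - p))

theorem vden_U {s : ℕ} (hs : s + 1 < h) : U (PI.O p) (2 * (s : ℚ) + 3 - p) := by
  have h1 : ¬ (p : ℤ) ∣ p * (-1) + (2 * s + 3) :=
    not_dvd_of_lt hP (by positivity) (by omega) _
  have h4 := U_int h1
  push_cast at h4
  rw [show 2 * (s : ℚ) + 3 - p = p * (-1) + (2 * s + 3) by ring]
  exact h4

theorem w0_cg {t : ℕ} (ht : t < h) : Cg (PI.O p) (p : ℚ) 1 (w p h 0 t) (v p h t) := by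
  have := hp.out.two_le
  have h5 : (p : ℚ) = 2 * h + 1 := by exact_mod_cast hP
  have e1 : Cg (PI.O p) (p : ℚ) 1 (rr p 0 h * (1 / (2 * (p : ℚ) * (0 : ℕ) + 2 * h + 2)))
      ((-1) ^ h * (1 / 1)) := by
    have h6 := rr0_cg hP (i := h) le_rfl
    rw [Nat.choose_self, Nat.cast_one, mul_one] at h6
    refine h6.mul (Cg.div (Cg.refl U.one) ?_)
    exact Cg_of (den_U hP 0 (l := h) (by omega)) U.one 1 (PI.O p).one_mem
      (by push_cast; linear_combination -h5)
  rw [div_one, mul_one] at e1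
  refine e1.mul (Cg.prod fun s hs => ?_)
  have hs' := mem_range.1 hs
  refine Cg.div ?_ ?_
  · have h7 : U (PI.O p) (2 * (s : ℚ) + 2) := by
      have := den_U hP 0 (l := s) (by omega)
      push_cast at this
      rw [mul_zero, zero_add] at this
      exact this
    exact Cg_of (wnum_U hP 0 (by omega)) h7 1 (PI.O p).one_mem
      (by push_cast; linear_combination -h5)
  · exact Cg_of (wden_U hP 0 (by omega)) (vden_U hP (by omega)) 2
      (by exact_mod_cast natCast_mem (PI.O p) 2) (by push_cast; linear_combination -h5)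

omit hp in
theorem v_eq {t : ℕ} (ht : t < h) : v p h t * (((h - t : ℕ) : ℚ) * (h.choose (h - t) : ℚ)) =
    (-1) ^ (h - t) * h := by
  induction t with
  | zero => simp [v]
  | succ t ih =>
    have ih' := ih (by omega)
    obtain ⟨k, hk⟩ : ∃ k, h = t + 1 + k + 1 := ⟨h - t - 2, by omega⟩
    have e1 : h - t = k + 1 + 1 := by omega
    have e2 : h - (t + 1) = k + 1 := by omega
    rw [e1] at ih'
    rw [e2]
    have h1 := Nat.choose_succ_right_eq h (k + 1)
    rw [show h - (k + 1) = t + 1 by omega] at h1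
    have h1' : (h.choose (k + 1 + 1) : ℚ) * (k + 1 + 1) = h.choose (k + 1) * (t + 1) := by
      exact_mod_cast h1
    have h5 : (p : ℚ) = 2 * h + 1 := by exact_mod_cast hP
    have h6 : (h : ℚ) = t + 1 + k + 1 := by exact_mod_cast hk
    have e3 : v p h (t + 1) = v p h t * ((2 * (t : ℚ) + 2) / (2 * t + 3 - p)) := by
      unfold v; rw [prod_range_succ]; ring
    rw [e3, show 2 * (t : ℚ) + 3 - p = -(2 * (k + 1)) by rw [h5, h6]; ring]
    have h7 : ((k : ℚ) + 1) ≠ 0 := by positivity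
    push_cast at ih' ⊢
    rw [pow_succ] at ih'
    field_simp
    linear_combination (-1 : ℚ) * ih' + (v p h t) * h1'

end Q278.EE
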