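import Pool.Agent.Q278.EE

set_option autoImplicit false

/-! Block sums of the cubes of `C(2k,k) / 4^k`: the diagonal blocks. -/

namespace Q278.EE

open Finset Q278.Loc Q278.Unit Q278.DixG

variable {p h : ℕ} [hp : Fact p.Prime]

omit hp in
theorem sum_ge (f : ℕ → ℚ) {a n : ℕ} (ha : a ≤ n) :
    ∑ j ∈ range n, (if a ≤ j then f j else 0) = ∑ j ∈ range n, f j - ∑ j ∈ range a, f j := by
  obtain ⟨b, rfl⟩ : ∃ b, n = a + b := ⟨n - a, by omega⟩
  rw [sum_range_add, sum_range_add]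
  have h1 : ∑ j ∈ range a, (if a ≤ j then f j else 0) = 0 := by
    apply sum_eq_zero
    intro j hj
    have := mem_range.1 hj
    rw [if_neg (by omega)]
  have h2 : ∑ j ∈ range b, (if a ≤ a + j then f (a + j) else 0) = ∑ j ∈ range b, f (a + j) := by
    apply sum_congr rfl
    intro j _
    rw [if_pos (by omega)]
  rw [h1, h2]; ring

variable (hP : p = 2 * h + 1)

section X

include hP

/-- the double sum modulo `p` in closed form -/
theorem X_eq (hh : Odd h) : ∑ t ∈ range h, ∑ j ∈ range (h + 1),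
    (if h - t ≤ j then v p h t ^ 3 * ((-1 : ℚ) ^ j * (h.choose j : ℚ)) ^ 3 else 0) =
    -(h : ℚ) ^ 3 * GG h := by
  have h1 : ∀ t ∈ range h, ∑ j ∈ range (h + 1),
      (if h - t ≤ j then v p h t ^ 3 * ((-1 : ℚ) ^ j * (h.choose j : ℚ)) ^ 3 else 0) =
      -(h : ℚ) ^ 3 * H h (h - 1 - t + 1) := by
    intro t ht
    have ht' := mem_range.1 ht
    rw [sum_ge _ (show h - t ≤ h + 1 by omega), ← mul_sum, ← mul_sum]
    have e1 : ∀ j : ℕ, ((-1 : ℚ) ^ j * (h.choose j : ℚ)) ^ 3 = u h j := by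
      intro j
      unfold u
      rw [mul_pow, ← pow_mul, mul_comm j 3, pow_mul]
      norm_num
    simp only [e1]
    have e2 : ∑ j ∈ range (h + 1), u h j = 0 := c_full hh
    have e3 : ∑ j ∈ range (h - t), u h j = c h (h - t) := rfl
    rw [e2, e3, show h - 1 - t + 1 = h - t by omega]
    have h2 := v_eq hP ht'
    unfold H
    have n1 : ((h - t : ℕ) : ℚ) ≠ 0 := by
      have : 0 < h - t := by omega
      positivity
    have n2 : u h (h - t) ≠ 0 := u_ne (by omega)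
    have n3 : (h.choose (h - t) : ℚ) ≠ 0 := by
      exact_mod_cast (Nat.choose_pos (show h - t ≤ h by omega)).ne'
    have h3 : (v p h t * (((h - t : ℕ) : ℚ) * (h.choose (h - t) : ℚ))) ^ 3 =
      ((-1) ^ (h - t) * h) ^ 3 := by rw [h2]
    have e4 : ((-1 : ℚ) ^ (h - t)) ^ 2 = 1 := by rw [← pow_mul, mul_comm, pow_mul]; norm_num
    have h4 : v p h t ^ 3 * (((h - t : ℕ) : ℚ) ^ 3 * u h (h - t)) = (h : ℚ) ^ 3 := by
      unfold u
      have e5 : (-1 : ℚ) ^ (h - t) * ((-1) ^ (h - t) * h) ^ 3 = (h : ℚ) ^ 3 := by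
        have : (-1 : ℚ) ^ (h - t) * ((-1) ^ (h - t) * h) ^ 3 =
          (((-1 : ℚ) ^ (h - t)) ^ 2) ^ 2 * (h : ℚ) ^ 3 := by ring
        rw [this, e4]; ring
      rw [← e5, ← h3]; ring
    have n4 := mul_ne_zero (pow_ne_zero 3 n1) n2
    rw [← h4]
    field_simp
    ring
  rw [sum_congr rfl h1, ← mul_sum]
  unfold GG
  congr 1
  exact sum_range_reflect (fun t => H h (t + 1)) h

omit hP in
theorem odd_U {m : ℕ} (hm : ¬ p ∣ m) : U (PI.O p) (m : ℚ) := by
  have h1 : ¬ (p : ℤ) ∣ (m : ℤ) := by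
    intro h2; exact hm (Int.natCast_dvd_natCast.1 h2)
  have := U_int h1
  exact_mod_cast this

/-- the double sum is divisible by `p` -/
theorem GG_mem {M : ℕ} (hM : h = 2 * M + 1) (hM1 : 1 ≤ M) :
    GG h ∈ I (PI.O p) (p : ℚ) 1 := by
  have hp1 := hp.out
  -- the product formula
  have h1 : ∀ m ≤ M, GG (2 * m + 1) = -∏ i ∈ range m, (((6 * i + 5 : ℕ) : ℚ) * ((6 * i + 7 : ℕ) : ℚ) *
      ((2 * i + 2 : ℕ) : ℚ) ^ 2 / (((2 * i + 3 : ℕ) : ℚ) ^ 2 * (((6 * i + 8 : ℕ) : ℚ) *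
        ((6 * i + 10 : ℕ) : ℚ)))) := by
    intro m
    induction m with
    | zero =>
      intro _
      simp [GG, H, c, u]
    | succ m ih =>
      intro hm
      have h2 := GG_rec (h := 2 * m + 1) ⟨m, rfl⟩
      rw [prod_range_succ, show 2 * (m + 1) + 1 = 2 * m + 1 + 2 by ring]
      rw [ih (by omega)] at h2
      push_cast at h2 ⊢
      have n1 : (2 * (m : ℚ) + 3) ≠ 0 := by positivity
      have n2 : (6 * (m : ℚ) + 8) ≠ 0 := by positivity
      have n3 : (6 * (m : ℚ) + 10) ≠ 0 := by positivity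
      have n4 : (2 * (m : ℚ) + 1 + 2) ^ 2 * (3 * (2 * m + 1) + 5) * (3 * (2 * m + 1) + 7) ≠ 0 := by
        positivity
      apply mul_left_cancel₀ n4
      rw [h2]
      generalize ∏ i ∈ range m, ((6 * (i : ℚ) + 5) * (6 * (i : ℚ) + 7) *
        (2 * (i : ℚ) + 2) ^ 2 / ((2 * (i : ℚ) + 3) ^ 2 * ((6 * (i : ℚ) + 8) *
        (6 * (i : ℚ) + 10)))) = Pr
      field_simp
      ring
  rw [hM, h1 M le_rfl]
  -- all factors are integral
  have hden : ∀ i ∈ range M, U (PI.O p) (((2 * i + 3 : ℕ) : ℚ) ^ 2 * (((6 * i + 8 : ℕ) : ℚ) *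
        ((6 * i + 10 : ℕ) : ℚ))) := by
    intro i hi
    have hi' := mem_range.1 hi
    have two : ¬ p ∣ 2 := by
      intro h; have := Nat.le_of_dvd two_pos h; omega
    refine ((odd_U ?_).pow 2).mul ((odd_U ?_).mul (odd_U ?_))
    · intro h; have := Nat.le_of_dvd (by omega) h; omega
    · intro h
      rw [show 6 * i + 8 = 2 * (3 * i + 4) by ring] at h
      rcases (Nat.Prime.dvd_mul hp1).1 h with h | h
      · exact two h
      · have := Nat.le_of_dvd (by omega) h; omega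
    · intro h
      rw [show 6 * i + 10 = 2 * (3 * i + 5) by ring] at h
      rcases (Nat.Prime.dvd_mul hp1).1 h with h | h
      · exact two h
      · have := Nat.le_of_dvd (by omega) h; omega
  -- one factor is divisible by `p`
  have hex : ∃ i < M, p = 6 * i + 5 ∨ p = 6 * i + 7 := by
    have h3 : ¬ 3 ∣ p := by
      intro h
      have := (Nat.prime_dvd_prime_iff_eq Nat.prime_three hp1).1 h
      omega
    rcases (show p % 6 = 5 ∨ p % 6 = 1 by omega) with h | h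
    · exact ⟨p / 6, by omega, Or.inl (by omega)⟩
    · exact ⟨p / 6 - 1, by omega, Or.inr (by omega)⟩
  obtain ⟨i, hiM, hi⟩ := hex
  refine (I _ _ _).neg_mem ?_
  rw [← mul_prod_erase _ _ (mem_range.2 hiM), mul_comm]
  apply mul_O
  · refine (PI.O p).prod_mem fun j hj => ?_
    have hj' := mem_of_mem_erase hj
    rw [div_eq_mul_inv]
    refine (PI.O p).mul_mem ?_ (hden j hj').2.1
    exact_mod_cast natCast_mem (PI.O p) ((6 * j + 5) * (6 * j + 7) * (2 * j + 2) ^ 2)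
  · rw [div_eq_mul_inv, mul_comm]
    apply mul_O (hden i (mem_range.2 hiM)).2.1
    rcases hi with hi | hi
    · refine ⟨((6 * i + 7 : ℕ) : ℚ) * ((2 * i + 2 : ℕ) : ℚ) ^ 2, ?_, ?_⟩
      · exact_mod_cast natCast_mem (PI.O p) ((6 * i + 7) * (2 * i + 2) ^ 2)
      · rw [← hi]; ring
    · refine ⟨((6 * i + 5 : ℕ) : ℚ) * ((2 * i + 2 : ℕ) : ℚ) ^ 2, ?_, ?_⟩
      · exact_mod_cast natCast_mem (PI.O p) ((6 * i + 5) * (2 * i + 2) ^ 2)
      · rw [← hi]; ring

/-- the double sum of products -/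
def X (p h : ℕ) : ℚ := ∑ t ∈ range h, ∑ j ∈ range (h + 1),
    (if h - t ≤ j then w p h 0 t ^ 3 * rr p 0 j ^ 3 else 0)

theorem X_mem {M : ℕ} (hM : h = 2 * M + 1) (hM1 : 1 ≤ M) : X p h ∈ I (PI.O p) (p : ℚ) 1 := by
  have h1 := X_eq hP (show Odd h from ⟨M, hM⟩)
  have h2 : X p h - ∑ t ∈ range h, ∑ j ∈ range (h + 1),
      (if h - t ≤ j then v p h t ^ 3 * ((-1 : ℚ) ^ j * (h.choose j : ℚ)) ^ 3 else 0) ∈
      I (PI.O p) (p : ℚ) 1 := by
    unfold X
    rw [← sum_sub_distrib]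
    refine AddSubgroup.sum_mem _ fun t ht => ?_
    have ht' := mem_range.1 ht
    rw [← sum_sub_distrib]
    refine AddSubgroup.sum_mem _ fun j hj => ?_
    have hj' := mem_range.1 hj
    split_ifs with hc
    · exact (((w0_cg hP ht').pow 3).mul ((rr0_cg hP (show j ≤ h by omega)).pow 3)).2.2
    · rw [sub_zero]; exact (I _ _ _).zero_mem
  rw [h1] at h2
  have h3 : -(h : ℚ) ^ 3 * GG h ∈ I (PI.O p) (p : ℚ) 1 := by
    apply mul_O _ (GG_mem hP hM hM1)
    exact (PI.O p).neg_mem ((PI.O p).pow_mem (natCast_mem _ _) 3)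
  have := (I (PI.O p) (p : ℚ) 1).add_mem h2 h3
  simpa using this

end X

section R

include hP

theorem w_mem (J : ℕ) {t : ℕ} (ht : t < h) : w p h J t ∈ PI.O p := (w_U hP J ht).1

/-- a mixed part of the remainder -/
theorem mixed (J K : ℕ) {M : ℕ} (hM : h = 2 * M + 1) (hM1 : 1 ≤ M) :
    ∑ t ∈ range h, ∑ j ∈ range (h + 1),
    (if h - t ≤ j then rr p J (h + 1 + t) ^ 3 * rr p K j ^ 3 else 0) ∈ I (PI.O p) (p : ℚ) 4 := by
  have h1 : ∑ t ∈ range h, ∑ j ∈ range (h + 1),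
      (if h - t ≤ j then rr p J (h + 1 + t) ^ 3 * rr p K j ^ 3 else 0) =
      (p : ℚ) ^ 3 * ((2 * (J : ℚ) + 1) ^ 3 * ∑ t ∈ range h, ∑ j ∈ range (h + 1),
      (if h - t ≤ j then w p h J t ^ 3 * rr p K j ^ 3 else 0)) := by
    rw [mul_sum, mul_sum]
    apply sum_congr rfl
    intro t _
    rw [mul_sum, mul_sum]
    apply sum_congr rfl
    intro j _
    split_ifs
    · rw [rr_top hP]; ring
    · ring
  rw [h1]
  have h2 : ∑ t ∈ range h, ∑ j ∈ range (h + 1),
      (if h - t ≤ j then w p h J t ^ 3 * rr p K j ^ 3 else 0) ∈ I (PI.O p) (p : ℚ) 1 := by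
    have h3 : ∑ t ∈ range h, ∑ j ∈ range (h + 1),
      (if h - t ≤ j then w p h J t ^ 3 * rr p K j ^ 3 else 0) - X p h ∈ I (PI.O p) (p : ℚ) 1 := by
      unfold X
      rw [← sum_sub_distrib]
      refine AddSubgroup.sum_mem _ fun t ht => ?_
      have ht' := mem_range.1 ht
      rw [← sum_sub_distrib]
      refine AddSubgroup.sum_mem _ fun j hj => ?_
      have hj' := mem_range.1 hj
      split_ifs with hc
      · exact (((w_cg hP J ht').pow 3).mul ((rr_cg hP K (show j ≤ h by omega)).pow 3)).2.2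
      · rw [sub_zero]; exact (I _ _ _).zero_mem
    have := (I (PI.O p) (p : ℚ) 1).add_mem h3 (X_mem hP hM hM1)
    simpa using this
  have h4 : (2 * (J : ℚ) + 1) ^ 3 ∈ PI.O p := by
    exact_mod_cast natCast_mem (PI.O p) ((2 * J + 1) ^ 3)
  have h5 := mul_I (self_pow (O := PI.O p) (π := (p : ℚ)) 3) (mul_O h4 h2)
  exact h5

theorem top_mem (J t : ℕ) (ht : t < h) : rr p J (h + 1 + t) ^ 3 ∈ I (PI.O p) (p : ℚ) 3 := by
  rw [rr_top hP]
  refine ⟨((2 * (J : ℚ) + 1) * w p h J t) ^ 3, ?_, by ring⟩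
  exact (PI.O p).pow_mem ((PI.O p).mul_mem (by exact_mod_cast natCast_mem (PI.O p) (2 * J + 1))
    (w_mem hP J ht)) 3

/-- the remainder -/
theorem R_mem (J K : ℕ) {M : ℕ} (hM : h = 2 * M + 1) (hM1 : 1 ≤ M) :
    ∑ i ∈ range p, ∑ j ∈ range p, (if p ≤ i + j then rr p J i ^ 3 * rr p K j ^ 3 else 0) ∈
      I (PI.O p) (p : ℚ) 4 := by
  have hp1 := hp.out.two_le
  have e : p = (h + 1) + h := by omega
  have h1 : ∑ i ∈ range p, ∑ j ∈ range p, (if p ≤ i + j then rr p J i ^ 3 * rr p K j ^ 3 else 0) =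
      (∑ t ∈ range h, ∑ j ∈ range (h + 1),
        (if h - t ≤ j then rr p K (h + 1 + t) ^ 3 * rr p J j ^ 3 else 0)) +
      (∑ t ∈ range h, ∑ j ∈ range (h + 1),
        (if h - t ≤ j then rr p J (h + 1 + t) ^ 3 * rr p K j ^ 3 else 0)) +
      ∑ i ∈ range h, ∑ j ∈ range h, (if p ≤ (h + 1 + i) + (h + 1 + j) then
        rr p J (h + 1 + i) ^ 3 * rr p K (h + 1 + j) ^ 3 else 0) := by
    have key : ∀ f : ℕ → ℕ → ℚ, ∑ i ∈ range p, ∑ j ∈ range p, f i j =
        (∑ i ∈ range (h + 1), ∑ j ∈ range (h + 1), f i j) +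
        (∑ i ∈ range (h + 1), ∑ j ∈ range h, f i (h + 1 + j)) +
        ((∑ i ∈ range h, ∑ j ∈ range (h + 1), f (h + 1 + i) j) +
        (∑ i ∈ range h, ∑ j ∈ range h, f (h + 1 + i) (h + 1 + j))) := by
      intro f
      have h2 : ∀ i, ∑ j ∈ range p, f i j = ∑ j ∈ range (h + 1), f i j +
          ∑ j ∈ range h, f i (h + 1 + j) := by
        intro i
        rw [e, sum_range_add]
      simp only [h2]
      rw [e, sum_range_add, sum_add_distrib, sum_add_distrib]
    rw [key]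
    have z : ∑ i ∈ range (h + 1), ∑ j ∈ range (h + 1),
        (if p ≤ i + j then rr p J i ^ 3 * rr p K j ^ 3 else 0) = 0 := by
      apply sum_eq_zero
      intro i hi
      apply sum_eq_zero
      intro j hj
      have := mem_range.1 hi
      have := mem_range.1 hj
      rw [if_neg (by omega)]
    rw [z, zero_add, sum_comm]
    have a1 : ∑ t ∈ range h, ∑ i ∈ range (h + 1), (if p ≤ i + (h + 1 + t) then
        rr p J i ^ 3 * rr p K (h + 1 + t) ^ 3 else 0) = ∑ t ∈ range h, ∑ j ∈ range (h + 1),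
        (if h - t ≤ j then rr p K (h + 1 + t) ^ 3 * rr p J j ^ 3 else 0) := by
      apply sum_congr rfl
      intro t ht
      apply sum_congr rfl
      intro j _
      have := mem_range.1 ht
      by_cases hc : h - t ≤ j
      · rw [if_pos hc, if_pos (by omega)]; ring
      · rw [if_neg hc, if_neg (by omega)]
    have a2 : ∑ t ∈ range h, ∑ j ∈ range (h + 1), (if p ≤ h + 1 + t + j then
        rr p J (h + 1 + t) ^ 3 * rr p K j ^ 3 else 0) = ∑ t ∈ range h, ∑ j ∈ range (h + 1),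
        (if h - t ≤ j then rr p J (h + 1 + t) ^ 3 * rr p K j ^ 3 else 0) := by
      apply sum_congr rfl
      intro t ht
      apply sum_congr rfl
      intro j _
      have := mem_range.1 ht
      by_cases hc : h - t ≤ j
      · rw [if_pos hc, if_pos (by omega)]
      · rw [if_neg hc, if_neg (by omega)]
    rw [a1, a2]
    ring
  rw [h1]
  refine (I _ _ _).add_mem ((I _ _ _).add_mem (mixed hP K J hM hM1) (mixed hP J K hM hM1)) ?_
  refine AddSubgroup.sum_mem _ fun i hi => AddSubgroup.sum_mem _ fun j hj => ?_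
  split_ifs
  · exact mono p_mem (show 4 ≤ 3 + 3 by omega) (mul_I (top_mem hP J i (mem_range.1 hi))
      (top_mem hP K j (mem_range.1 hj)))
  · exact (I _ _ _).zero_mem

end R

end Q278.EE
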