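import Pool.Agent.Q278.EE2
import Pool.Agent.Q278.Blk2

set_option autoImplicit false

/-! Block sums of the cubes of `C(2k,k) / 4^k`: the full sums. -/

namespace Q278.EE

open Finset Q278.Loc Q278.Unit

variable {p h : ℕ} [hp : Fact p.Prime] (hP : p = 2 * h + 1)
include hP

theorem half_O {m : ℚ} (hm : m ∈ PI.O p) : m / 2 ∈ PI.O p := by
  have h1 := (U_int (not_dvd_two hP)).2.1
  rw [div_eq_mul_inv]
  exact (PI.O p).mul_mem hm (by exact_mod_cast h1)

omit hp in
/-- the summand of the Dixon sum as a product -/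
theorem T_prod (J i : ℕ) (hi : i ≤ h) :
    Dixon.T ((1 : ℚ) / 2 + 2 * J * p) (1 / 2 + (J + 1 / 2) * p) h i =
    ∏ l ∈ range i, ((2 * (l : ℚ) + 1 - p) * (2 * l + 1 + 4 * J * p) * (2 * l + 1 + (2 * J + 1) * p) /
      ((2 * (l : ℚ) + 2) * (2 * l + 2 + (4 * J + 1) * p) * (2 * l + 2 + (2 * J - 1) * p))) := by
  unfold Dixon.T Dixon.P
  rw [choose_prod hP i hi, ← prod_mul_distrib]
  apply prod_congr rfl
  intro l _
  have h5 : (p : ℚ) = 2 * h + 1 := by exact_mod_cast hP
  have e1 : 1 + ((1 : ℚ) / 2 + 2 * J * p) + h + l = (2 * l + 2 + (4 * J + 1) * p) / 2 := by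
    rw [h5]; ring
  have e2 : 1 + ((1 : ℚ) / 2 + 2 * J * p) - (1 / 2 + (J + 1 / 2) * p) + l =
      (2 * l + 2 + (2 * J - 1) * p) / 2 := by ring
  have e3 : ((1 : ℚ) / 2 + 2 * J * p) + l = (2 * l + 1 + 4 * J * p) / 2 := by ring
  have e4 : ((1 : ℚ) / 2 + (J + 1 / 2) * p) + l = (2 * l + 1 + (2 * J + 1) * p) / 2 := by ring
  rw [e1, e2, e3, e4]
  have key : ∀ b c d e : ℚ, b / 2 * (c / 2) / (d / 2 * (e / 2)) = b * c / (d * e) := by
    intro b c d e
    rw [div_mul_div_comm, div_mul_div_comm, div_div_div_cancel_right₀ (by norm_num)]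
  rw [key, div_mul_div_comm, ← mul_assoc, ← mul_assoc]

theorem gen_U {m J : ℤ} (h0 : 0 < m) (h1 : m < p) : U (PI.O p) ((m : ℚ) + J * p) := by
  have h2 := U_int (not_dvd_of_lt hP h0 h1 J)
  push_cast at h2
  rw [add_comm, mul_comm]
  exact h2

theorem T_cg (J : ℕ) {i : ℕ} (hi : i ≤ h) : Cg (PI.O p) (p : ℚ) 2 (rr p J i ^ 3)
    (Dixon.T ((1 : ℚ) / 2 + 2 * J * p) (1 / 2 + (J + 1 / 2) * p) h i) := by
  have := hp.out.two_le
  rw [T_prod hP J i hi]
  unfold rr
  rw [← prod_pow]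
  refine Cg.prod fun l hl => ?_
  have hl' := mem_range.1 hl
  rw [div_pow]
  have mm : ∀ m : ℤ, (m : ℚ) ∈ PI.O p := fun m => intCast_mem _ _
  refine Cg.div ?_ ?_
  · have a1 := gen_U hP (m := 2 * l + 1) (J := -1) (by positivity) (by omega)
    have a2 := gen_U hP (m := 2 * l + 1) (J := 4 * J) (by positivity) (by omega)
    have a3 := gen_U hP (m := 2 * l + 1) (J := 2 * J + 1) (by positivity) (by omega)
    push_cast at a1 a2 a3
    rw [show 2 * (l : ℚ) + 1 + -1 * p = 2 * l + 1 - p by ring] at a1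
    have z1 := mm (4 * J ^ 2 * (2 * l + 1) + 2 * J * (2 * l + 1) + (2 * l + 1)
       + 8 * J ^ 3 * p + 8 * J ^ 2 * p + 4 * J * p)
    refine Cg_of ((num_U hP J (by omega)).pow 3) ((a1.mul a2).mul a3) _ z1 ?_
    push_cast
    ring
  · have a1 := gen_U hP (m := 2 * l + 2) (J := 0) (by positivity) (by omega)
    have a2 := gen_U hP (m := 2 * l + 2) (J := 4 * J + 1) (by positivity) (by omega)
    have a3 := gen_U hP (m := 2 * l + 2) (J := 2 * J - 1) (by positivity) (by omega)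
    push_cast at a1 a2 a3
    rw [zero_mul, add_zero] at a1
    have z1 := mm ((2 * l + 2) * (12 * J ^ 2 - (4 * J + 1) * (2 * J - 1)) + 8 * J ^ 3 * p)
    refine Cg_of ((den_U hP J (by omega)).pow 3) ((a1.mul a2).mul a3) _ z1 ?_
    push_cast
    ring

/-- the Dixon sum is divisible by `p ^ 2` -/
theorem D_mem {M : ℕ} (hM : h = 2 * M + 1) (hM1 : 1 ≤ M) (J : ℕ) :
    Dixon.D ((1 : ℚ) / 2 + 2 * J * p) (1 / 2 + (J + 1 / 2) * p) h ∈ I (PI.O p) (p : ℚ) 2 := by
  have hp1 := hp.out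
  have hp0 : (0 : ℚ) < p := by exact_mod_cast hp1.pos
  have h5 : (p : ℚ) = 2 * h + 1 := by exact_mod_cast hP
  have hodd : p % 2 = 1 := by omega
  rw [Dixon.dixon]
  · -- split the product
    rw [prod_div_distrib, prod_mul_distrib, div_eq_mul_inv, mul_comm]
    have hden : U (PI.O p) (∏ x ∈ range h, ((1 + ((1 : ℚ) / 2 + 2 * J * p) / 2 + x) *
        (1 + ((1 : ℚ) / 2 + 2 * J * p) - (1 / 2 + (J + 1 / 2) * p) + x))) := by
      refine U.prod fun l hl => ?_
      have hl' := mem_range.1 hl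
      have four : U (PI.O p) (4 : ℚ) := by
        have h1 := (U_int (not_dvd_two hP)).mul (U_int (not_dvd_two hP))
        push_cast at h1
        norm_num at h1
        exact h1
      have two : U (PI.O p) (2 : ℚ) := by exact_mod_cast U_int (not_dvd_two hP)
      refine U.mul ?_ ?_
      · have h1 : ¬ (p : ℤ) ∣ p * (4 * J) + (5 + 4 * l) := by
          intro h2
          have h3 : (p : ℤ) ∣ ((5 + 4 * l : ℕ) : ℤ) := by
            push_cast
            exact (dvd_add_right (dvd_mul_right _ _)).1 h2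
          have h4 : p ∣ 5 + 4 * l := Int.natCast_dvd_natCast.1 h3
          obtain ⟨k, hk⟩ := h4
          have : k < 2 := by
            by_contra hc
            have : p * 2 ≤ p * k := Nat.mul_le_mul_left p (by omega)
            omega
          interval_cases k <;> omega
        have h2 := (U_int h1).div four
        push_cast at h2
        rw [show 1 + ((1 : ℚ) / 2 + 2 * J * p) / 2 + l = (p * (4 * J) + (5 + 4 * l)) / 4 by ring]
        exact h2
      · have h1 := (gen_U hP (m := 2 * l + 2) (J := 2 * J - 1) (by positivity) (by omega)).div two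
        push_cast at h1
        rw [show 1 + ((1 : ℚ) / 2 + 2 * J * p) - (1 / 2 + (J + 1 / 2) * p) + l =
          (2 * l + 2 + (2 * J - 1) * p) / 2 by ring]
        exact h1
    apply mul_O hden.2.1
    rw [show (2 : ℕ) = 1 + 1 from rfl]
    refine mul_I ?_ ?_
    · -- the factor with `l = h - 1`
      rw [← mul_prod_erase _ _ (mem_range.2 (show h - 1 < h by omega)), mul_comm]
      apply mul_O
      · refine (PI.O p).prod_mem fun l _ => ?_
        have e : 1 + ((1 : ℚ) / 2 + 2 * J * p) + l = ((3 + 4 * J * p + 2 * l : ℕ) : ℚ) / 2 := by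
          push_cast; ring
        rw [e]
        exact half_O hP (natCast_mem _ _)
      · refine ⟨((1 + 4 * J : ℕ) : ℚ) / 2, half_O hP (natCast_mem _ _), ?_⟩
        rw [Nat.cast_sub (by omega), h5]
        push_cast
        ring
    · -- the factor with `l = M`
      rw [← mul_prod_erase _ _ (mem_range.2 (show M < h by omega)), mul_comm]
      have e0 : ∀ l : ℕ, 1 + ((1 : ℚ) / 2 + 2 * J * p) / 2 - (1 / 2 + (J + 1 / 2) * p) + l =
          (((3 + 4 * l : ℤ) - 2 * p : ℤ) : ℚ) / 2 / 2 := by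
        intro l; push_cast; ring
      apply mul_O
      · refine (PI.O p).prod_mem fun l _ => ?_
        rw [e0]
        exact half_O hP (half_O hP (intCast_mem _ _))
      · refine ⟨((-1 : ℤ) : ℚ) / 2 / 2, half_O hP (half_O hP (intCast_mem _ _)), ?_⟩
        rw [e0]
        have h6 : (h : ℚ) = 2 * M + 1 := by exact_mod_cast hM
        push_cast
        rw [h5, h6]
        ring
  · intro l
    positivity
  · intro l h1
    have h2 : (2 + 2 * l + 2 * J * p : ℤ) = p := by
      have : (2 + 2 * l + 2 * J * p : ℚ) = p := by linarith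
      exact_mod_cast this
    have h3 : ((2 + 2 * l + 2 * J * p : ℕ) : ℤ) = p := by push_cast; exact h2
    have h4 : 2 + 2 * l + 2 * J * p = p := by exact_mod_cast h3
    have h6 : p % 2 = 0 := by
      rw [← h4, show 2 + 2 * l + 2 * J * p = 2 * (1 + l + J * p) by ring]
      exact Nat.mul_mod_right 2 _
    omega
  · intro l
    positivity

/-- the block sum -/
theorem B_mem {M : ℕ} (hM : h = 2 * M + 1) (hM1 : 1 ≤ M) (J : ℕ) :
    ∑ i ∈ range p, rr p J i ^ 3 ∈ I (PI.O p) (p : ℚ) 2 := by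
  have e : p = (h + 1) + h := by omega
  have h1 : ∑ i ∈ range p, rr p J i ^ 3 = ∑ i ∈ range (h + 1), rr p J i ^ 3 +
      ∑ t ∈ range h, rr p J (h + 1 + t) ^ 3 := by
    have h2 := sum_range_add (fun i => rr p J i ^ 3) (h + 1) h
    rw [← e] at h2
    exact h2
  rw [h1]
  refine (I _ _ _).add_mem ?_ ?_
  · have h2 : ∑ i ∈ range (h + 1), rr p J i ^ 3 -
        Dixon.D ((1 : ℚ) / 2 + 2 * J * p) (1 / 2 + (J + 1 / 2) * p) h ∈ I (PI.O p) (p : ℚ) 2 := by
      unfold Dixon.D
      rw [← sum_sub_distrib]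
      refine AddSubgroup.sum_mem _ fun i hi => ?_
      exact (T_cg hP J (show i ≤ h by have := mem_range.1 hi; omega)).2.2
    have := (I (PI.O p) (p : ℚ) 2).add_mem h2 (D_mem hP hM hM1 J)
    simpa using this
  · refine AddSubgroup.sum_mem _ fun t ht => ?_
    exact mono p_mem (by omega) (top_mem hP J t (mem_range.1 ht))

/-- the diagonal block -/
theorem diag_mem {M : ℕ} (hM : h = 2 * M + 1) (hM1 : 1 ≤ M) (J K : ℕ) :
    ∑ i ∈ range p, ∑ j ∈ range (p - i), rr p J i ^ 3 * rr p K j ^ 3 ∈ I (PI.O p) (p : ℚ) 4 := by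
  have h1 : ∑ i ∈ range p, ∑ j ∈ range (p - i), rr p J i ^ 3 * rr p K j ^ 3 =
      (∑ i ∈ range p, rr p J i ^ 3) * (∑ i ∈ range p, rr p K i ^ 3) -
      ∑ i ∈ range p, ∑ j ∈ range p, (if p ≤ i + j then rr p J i ^ 3 * rr p K j ^ 3 else 0) := by
    rw [sum_mul_sum, ← sum_sub_distrib]
    apply sum_congr rfl
    intro i hi
    have hi' := mem_range.1 hi
    have h2 : ∑ j ∈ range p, (if p ≤ i + j then rr p J i ^ 3 * rr p K j ^ 3 else 0) =
        ∑ j ∈ range p, (if p - i ≤ j then rr p J i ^ 3 * rr p K j ^ 3 else 0) := by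
      apply sum_congr rfl
      intro j _
      by_cases hc : p ≤ i + j
      · rw [if_pos hc, if_pos (by omega)]
      · rw [if_neg hc, if_neg (by omega)]
    rw [h2, sum_ge _ (show p - i ≤ p by omega)]
    ring
  rw [h1]
  exact (I _ _ _).sub_mem (mul_I (B_mem hP hM hM1 J) (B_mem hP hM hM1 K)) (R_mem hP J K hM hM1)

omit hP hp in
/-- the splitting of the products -/
theorem rr_split (I i : ℕ) : rr 1 0 (p * I + i) = rr 1 0 (p * I) * rr p I i := by
  induction i with
  | zero => simp [rr]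
  | succ i ih =>
    rw [← add_assoc, rr_succ, ih, rr_succ]
    push_cast
    ring

omit hP in
theorem base_mem (hp2 : p ≠ 2) (k : ℕ) : rr 1 0 k ∈ PI.O p := by
  have h1 : rr 1 0 k = ((k.centralBinom : ℕ) : ℚ) * ((1 : ℚ) / 2) ^ (2 * k) := by
    induction k with
    | zero => simp [rr]
    | succ k ih =>
      rw [rr_succ, ih]
      have h2 := Nat.succ_mul_centralBinom_succ k
      have h3 : ((k : ℚ) + 1) * ((k + 1).centralBinom : ℚ) = 2 * (2 * k + 1) * k.centralBinom := by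
        exact_mod_cast h2
      have h4 : ((k : ℚ) + 1) ≠ 0 := by positivity
      have h5 : ((k + 1).centralBinom : ℚ) = 2 * (2 * k + 1) * k.centralBinom / (k + 1) := by
        rw [eq_div_iff h4]; linear_combination h3
      rw [h5]
      push_cast
      rw [show 2 * (k + 1) = 2 * k + 2 by ring, pow_add]
      field_simp
      ring
  rw [h1]
  refine (PI.O p).mul_mem (natCast_mem _ _) ((PI.O p).pow_mem ?_ _)
  have h2 : ¬ p ∣ 2 := by
    intro h
    exact hp2 ((Nat.prime_dvd_prime_iff_eq hp.out Nat.prime_two).1 h)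
  exact_mod_cast PI.inv_mem p h2

/-- the sum over the triangle `i + j < p m` -/
theorem tri_mem {M : ℕ} (hM : h = 2 * M + 1) (hM1 : 1 ≤ M) (m : ℕ) :
    ∑ i ∈ range (p * m), ∑ j ∈ range (p * m - i), rr 1 0 i ^ 3 * rr 1 0 j ^ 3 ∈
      I (PI.O p) (p : ℚ) 4 := by
  have hp2 : p ≠ 2 := by omega
  have hB : ∀ J, ∑ i ∈ range p, rr 1 0 (p * J + i) ^ 3 ∈ I (PI.O p) (p : ℚ) 2 := by
    intro J
    simp only [rr_split, mul_pow]
    rw [← mul_sum]
    exact mul_O ((PI.O p).pow_mem (base_mem hp2 _) 3) (B_mem hP hM hM1 J)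
  rw [Blk.sum_blocks]
  refine AddSubgroup.sum_mem _ fun J hJ => ?_
  have hJ' := mem_range.1 hJ
  have h1 : ∀ i ∈ range p, ∑ j ∈ range (p * m - (p * J + i)), rr 1 0 (p * J + i) ^ 3 * rr 1 0 j ^ 3 =
      rr 1 0 (p * J + i) ^ 3 * ∑ j ∈ range (p * (m - J - 1)), rr 1 0 j ^ 3 +
      (rr 1 0 (p * J) ^ 3 * rr 1 0 (p * (m - J - 1)) ^ 3) *
        ∑ j ∈ range (p - i), rr p J i ^ 3 * rr p (m - J - 1) j ^ 3 := by
    intro i hi
    have hi' := mem_range.1 hi
    obtain ⟨k, hk⟩ : ∃ k, m = J + 1 + k := ⟨m - J - 1, by omega⟩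
    have e : p * m - (p * J + i) = p * (m - J - 1) + (p - i) := by
      rw [show m - J - 1 = k by omega, hk]
      have : p * (J + 1 + k) = p * J + p + p * k := by ring
      omega
    rw [e, ← mul_sum, sum_range_add, mul_add]
    congr 1
    rw [mul_sum, mul_sum]
    apply sum_congr rfl
    intro j _
    rw [rr_split, rr_split]
    ring
  rw [sum_congr rfl h1, sum_add_distrib, ← sum_mul, ← mul_sum]
  refine (I _ _ _).add_mem ?_ ?_
  · refine mul_I (a := 2) (b := 2) (hB J) ?_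
    rw [Blk.sum_blocks]
    exact AddSubgroup.sum_mem _ fun J' _ => hB J'
  · exact mul_O ((PI.O p).mul_mem ((PI.O p).pow_mem (base_mem hp2 _) 3)
      ((PI.O p).pow_mem (base_mem hp2 _) 3)) (diag_mem hP hM hM1 J _)

omit hP in
/-- from the local statement to the numerator -/
theorem num_dvd {k : ℕ} {x : ℚ} (hx : x ∈ I (PI.O p) (p : ℚ) k) : (p : ℤ) ^ k ∣ x.num := by
  obtain ⟨y, hy, e⟩ := hx
  have h1 : (x.num : ℚ) * y.den = (p : ℚ) ^ k * y.num * x.den := by
    have e1 := Rat.num_div_den x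
    have e2 := Rat.num_div_den y
    have d1 : (x.den : ℚ) ≠ 0 := by exact_mod_cast x.den_nz
    have d2 : (y.den : ℚ) ≠ 0 := by exact_mod_cast y.den_nz
    rw [div_eq_iff d1] at e1
    rw [div_eq_iff d2] at e2
    rw [e1, e2, e]
    ring
  have h2 : x.num * (y.den : ℤ) = (p : ℤ) ^ k * y.num * x.den := by exact_mod_cast h1
  have h3 : IsCoprime ((p : ℤ) ^ k) (y.den : ℤ) := by
    apply IsCoprime.pow_left
    exact Nat.isCoprime_iff_coprime.2 ((Nat.Prime.coprime_iff_not_dvd hp.out).2 hy)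
  apply h3.dvd_of_dvd_mul_right
  rw [h2, mul_assoc]
  exact dvd_mul_right _ _

end Q278.EE
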