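import Mathlib

set_option autoImplicit false

/-! Gaussian binomials and one-sided sums of Schur type. -/

namespace Q278.FA

open Polynomial Finset

/-- Gaussian binomials by the Pascal rule -/
noncomputable def gb : ℕ → ℕ → ℤ[X]
  | _, 0 => 1
  | 0, _ + 1 => 0
  | n + 1, k + 1 => gb n k + X ^ (k + 1) * gb n (k + 1)

theorem gb_zero (n : ℕ) : gb n 0 = 1 := by cases n <;> rfl

theorem gb_zs (k : ℕ) : gb 0 (k + 1) = 0 := rfl

theorem gb_ss (n k : ℕ) : gb (n + 1) (k + 1) = gb n k + X ^ (k + 1) * gb n (k + 1) := rfl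

theorem gb_big : ∀ n k : ℕ, n < k → gb n k = 0 := by
  intro n
  induction n with
  | zero =>
    intro k hk
    obtain ⟨j, rfl⟩ : ∃ j, k = j + 1 := ⟨k - 1, by omega⟩
    rfl
  | succ n ih =>
    intro k hk
    obtain ⟨j, rfl⟩ : ∃ j, k = j + 1 := ⟨k - 1, by omega⟩
    rw [gb_ss, ih j (by omega), ih (j + 1) (by omega)]
    ring

/-- contiguity in `k` -/
theorem gb_G : ∀ n k : ℕ, X ^ k * (1 - X ^ (k + 1)) * gb n (k + 1) = (X ^ k - X ^ n) * gb n k := by
  intro n
  induction n with
  | zero =>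
    intro k
    rw [gb_zs]
    cases k with
    | zero => simp
    | succ k => rw [gb_zs]; ring
  | succ n ih =>
    intro k
    cases k with
    | zero =>
      have h := ih 0
      rw [gb_ss, gb_zero, gb_zero]
      rw [gb_zero] at h
      linear_combination X * h
    | succ k =>
      have h1 := ih (k + 1)
      have h2 := ih k
      rw [gb_ss n (k + 1), gb_ss n k]
      linear_combination X ^ (k + 2) * h1 + X * h2

/-- absorption -/
theorem gb_abs (n k : ℕ) : (1 - X ^ (k + 1)) * gb (n + 1) (k + 1) = (1 - X ^ (n + 1)) * gb n k := by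
  have h := gb_G n k
  rw [gb_ss]
  linear_combination X * h

/-- `b n j` is the Gaussian binomial `[2n, n+j]` -/
noncomputable def b (n j : ℕ) : ℤ[X] := gb (2 * n) (n + j)

theorem b_big (n j : ℕ) (h : n < j) : b n j = 0 := gb_big _ _ (by omega)

theorem b_C (n j : ℕ) : X ^ j * (1 - X ^ (n + j + 1)) * b n (j + 1) = (X ^ j - X ^ n) * b n j := by
  have h := gb_G (2 * n) (n + j)
  have e : n + (j + 1) = n + j + 1 := by ring
  unfold b
  rw [e]
  apply mul_left_cancel₀ (pow_ne_zero n (X_ne_zero (R := ℤ)))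
  linear_combination h

theorem b_step (n j : ℕ) : b (n + 1) (j + 1) =
    b n j + (X ^ (n + j + 1) + X ^ (n + j + 2)) * b n (j + 1) + X ^ (2 * n + 2 * j + 4) * b n (j + 2) := by
  unfold b
  rw [show 2 * (n + 1) = 2 * n + 1 + 1 by ring, show n + 1 + (j + 1) = (n + j + 1) + 1 by ring,
    gb_ss, gb_ss, gb_ss, show n + (j + 1) = n + j + 1 by ring,
    show n + (j + 2) = n + j + 1 + 1 by ring]
  ring

theorem b_zero_step (n : ℕ) : b (n + 1) 0 =
    (1 + X ^ (n + 1)) * b n 1 + (X ^ n + X ^ (2 * n + 1)) * b n 0 := by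
  have h : b (n + 1) 0 = gb (2 * n) (n + 0) + 
    X ^ (n + 1) * (gb (2 * n) n + X ^ (n + 1) * gb (2 * n) (n + 1)) +
    (gb (2 * n + 1) n - gb (2 * n) n) := by
    unfold b
    rw [show 2 * (n + 1) = 2 * n + 1 + 1 by ring, show n + 1 + 0 = n + 1 by ring, gb_ss, gb_ss]
    simp only [add_zero]
    ring
  have h2 : X ^ n * gb (2 * n + 1) n * (1 - X ^ (n + 1)) =
      X ^ n * (1 - X ^ (2 * n + 1)) * gb (2 * n) n := by
    cases n with
    | zero => simp [gb_zero]
    | succ k =>
      have h3 := gb_abs (2 * (k + 1)) k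
      have h4 := gb_G (2 * (k + 1)) k
      have h5 : X ^ k * ((1 - X ^ (k + 1)) * gb (2 * (k + 1) + 1) (k + 1)) * (1 - X ^ (k + 2)) =
        X ^ k * ((1 - X ^ (k + 1)) * gb (2 * (k + 1)) (k + 1)) * (1 - X ^ (2 * (k + 1) + 1)) := by
        rw [h3]
        linear_combination (-(1 - X ^ (2 * (k + 1) + 1))) * h4
      have h6 : (1 - X ^ (k + 1) : ℤ[X]) ≠ 0 := by
        intro h7
        have := congrArg (Polynomial.eval 0) h7
        simp at this
      apply mul_left_cancel₀ h6
      linear_combination X * h5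
  have h6 : (1 - X ^ (n + 1) : ℤ[X]) ≠ 0 := by
    intro h7
    have := congrArg (Polynomial.eval 0) h7
    simp at this
  have h8 := b_C n 0
  have h9 : gb (2 * n + 1) n * (1 - X ^ (n + 1)) = (1 - X ^ (2 * n + 1)) * gb (2 * n) n := by
    apply mul_left_cancel₀ (pow_ne_zero n (X_ne_zero (R := ℤ)))
    linear_combination h2
  rw [h]
  unfold b at h8 ⊢
  simp only [add_zero, pow_zero, one_mul] at h8 ⊢
  apply mul_left_cancel₀ h6
  linear_combination h9 - (1 + X ^ (n + 1)) * h8 + X ^ (2 * n + 2) * h8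

end Q278.FA
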