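import Pool.Agent.Q278.FA

set_option autoImplicit false

/-! One-sided sums and the Fibonacci polynomials. -/

namespace Q278.FB

open Polynomial Finset Q278.FA

/-- first block identity -/
theorem R1 (n j : ℕ) : b (n + 1) (j + 2) - X ^ (2 * j + 5) * b (n + 1) (j + 3) =
    X ^ (2 * n) * (b n (j + 2) - X ^ (2 * j + 5) * b n (j + 3)) +
      (b n (j + 1) - X ^ (2 * j + 5) * b n (j + 4)) := by
  have s1 := b_step n (j + 1)
  have s2 := b_step n (j + 2)
  have c1 := b_C n (j + 2)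
  have c2 := b_C n (j + 3)
  rw [s1, s2]
  linear_combination X ^ (j + 2) * (1 + X ^ (n + j + 4)) * c2 + (X ^ (j + 3) - X ^ n) * c1

/-- second block identity -/
theorem R2 (n j : ℕ) : X ^ j * ((b (n + 1) (j + 1) - X ^ (2 * j + 5) * b (n + 1) (j + 4)) -
    (1 + X ^ (2 * n + 1)) * (b n (j + 1) - X ^ (2 * j + 5) * b n (j + 4)) -
    X ^ (2 * n) * (b n (j + 2) - X ^ (2 * j + 5) * b n (j + 3))) =
      X ^ n * b n j - X ^ (n + 4 * j + 10) * b n (j + 5) := by
  have s1 := b_step n j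
  have s2 := b_step n (j + 3)
  have c0 := b_C n j
  have c1 := b_C n (j + 1)
  have c2 := b_C n (j + 2)
  have c3 := b_C n (j + 3)
  have c4 := b_C n (j + 4)
  rw [s1, s2]
  linear_combination X ^ (n + 3 * j + 6) * c4 + X ^ (2 * j + 2) * c3 - X ^ (n + j) * c2 -
    X ^ (n + j + 1) * c1 - c0

/-- the first sum -/
noncomputable def Xs (c M n : ℕ) : ℤ[X] := ∑ t ∈ range M,
  X ^ (10 * t * t + 4 * c * t + (5 * t + c)) *
    (b n (5 * t + c + 1) - X ^ (2 * (5 * t + c) + 5) * b n (5 * t + c + 4))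

/-- the second sum -/
noncomputable def Vs (c M n : ℕ) : ℤ[X] := ∑ t ∈ range M,
  X ^ (10 * t * t + 4 * c * t + (5 * t + c)) *
    (b n (5 * t + c + 2) - X ^ (2 * (5 * t + c) + 5) * b n (5 * t + c + 3))

theorem V_rec (c M n : ℕ) : Vs c M (n + 1) = X ^ (2 * n) * Vs c M n + Xs c M n := by
  unfold Vs Xs
  rw [mul_sum, ← sum_add_distrib]
  apply sum_congr rfl
  intro t _
  have h := R1 n (5 * t + c)
  rw [h]
  ring

theorem X_rec (c M n : ℕ) : Xs c M (n + 1) = (1 + X ^ (2 * n + 1)) * Xs c M n +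
    X ^ (2 * n) * Vs c M n + X ^ n * b n c -
      X ^ (10 * M * M + 4 * c * M + n) * b n (5 * M + c) := by
  induction M with
  | zero => simp [Xs, Vs]
  | succ M ih =>
    have h := R2 n (5 * M + c)
    unfold Xs Vs at ih ⊢
    rw [sum_range_succ, sum_range_succ, sum_range_succ, ih]
    rw [show 5 * (M + 1) + c = 5 * M + c + 5 by ring]
    linear_combination X ^ (10 * M * M + 4 * c * M) * h

/-- even Fibonacci polynomials `F_{2n}` and odd ones `F_{2n-1}` -/
noncomputable def fg : ℕ → ℤ[X] × ℤ[X]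
  | 0 => (0, 1)
  | n + 1 => ((1 + X ^ (2 * n + 1)) * (fg n).1 + X ^ (2 * n) * (fg n).2,
      (fg n).1 + X ^ (2 * n) * (fg n).2)

theorem sp1 (n : ℕ) : b (n + 1) 0 - X * b (n + 1) 1 =
    X ^ (2 * n) * (b n 0 - X * b n 1) + (b n 1 - X * b n 2) := by
  have s1 := b_zero_step n
  have s2 := b_step n 0
  have c0 := b_C n 0
  have c1 := b_C n 1
  rw [s1, s2]
  simp only [zero_add, add_zero, mul_zero] at *
  linear_combination (1 + X ^ (n + 2)) * c1 + (X + (X - 1) * X ^ n) * c0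

theorem sp2 (n : ℕ) : (b (n + 1) 1 - X * b (n + 1) 2) -
    (1 + X ^ (2 * n + 1)) * (b n 1 - X * b n 2) - X ^ (2 * n) * (b n 0 - X * b n 1) =
      X ^ (n + 2) * b n 2 - X ^ (n + 4) * b n 3 := by
  have s1 := b_step n 0
  have s2 := b_step n 1
  have c0 := b_C n 0
  have c1 := b_C n 1
  have c2 := b_C n 2
  rw [s1, s2]
  simp only [zero_add, add_zero, mul_zero] at *
  linear_combination X ^ (n + 2) * c2 + (1 - X ^ (n + 1)) * c1 - (1 + X ^ n) * c0

theorem b_00 : b 0 0 = 1 := by unfold b; rw [gb_zero]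

/-- Schur type expansions -/
theorem fg_eq (M n : ℕ) (hn : n < 5 * M) :
    (fg n).1 = (b n 1 - X * b n 2) + X ^ 4 * Xs 3 M n - X ^ 2 * Xs 2 M n ∧
    (fg n).2 = (b n 0 - X * b n 1) + X ^ 4 * Vs 3 M n - X ^ 2 * Vs 2 M n := by
  induction n with
  | zero =>
    have hX : ∀ c, Xs c M 0 = 0 := by
      intro c
      apply sum_eq_zero
      intro t _
      rw [b_big 0 _ (by omega), b_big 0 _ (by omega)]; ring
    have hV : ∀ c, Vs c M 0 = 0 := by
      intro c
      apply sum_eq_zero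
      intro t _
      rw [b_big 0 _ (by omega), b_big 0 _ (by omega)]; ring
    rw [hX, hX, hV, hV, b_big 0 1 (by omega), b_big 0 2 (by omega), b_00]
    simp [fg]
  | succ n ih =>
    obtain ⟨h1, h2⟩ := ih (by omega)
    have x3 := X_rec 3 M n
    have x2 := X_rec 2 M n
    have v3 := V_rec 3 M n
    have v2 := V_rec 2 M n
    rw [b_big n (5 * M + 3) (by omega)] at x3
    rw [b_big n (5 * M + 2) (by omega)] at x2
    have t1 := sp1 n
    have t2 := sp2 n
    simp only [fg]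
    constructor
    · rw [x3, x2]
      linear_combination (1 + X ^ (2 * n + 1)) * h1 + X ^ (2 * n) * h2 - t2
    · rw [v3, v2]
      linear_combination h1 + X ^ (2 * n) * h2 - t1

/-- the combination -/
noncomputable def Z (M n : ℕ) : ℤ[X] := (fg n).2 * Xs 0 M n - (fg n).1 * Vs 0 M n

theorem Z_zero (M : ℕ) : Z M 0 = 0 := by
  have hX : Xs 0 M 0 = 0 := by
    apply sum_eq_zero
    intro t _
    rw [b_big 0 _ (by omega), b_big 0 _ (by omega)]; ring
  unfold Z
  rw [hX]
  simp [fg]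

theorem Z_succ (M n : ℕ) (hn : n < 5 * M) : Z M (n + 1) =
    X ^ (4 * n + 1) * Z M n + X ^ n * b n 0 * ((fg n).1 + X ^ (2 * n) * (fg n).2) := by
  have x := X_rec 0 M n
  have v := V_rec 0 M n
  rw [b_big n (5 * M + 0) (by omega)] at x
  unfold Z
  rw [x, v]
  simp only [fg]
  ring

end Q278.FB
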