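import Pool.Agent.Q278.FB

set_option autoImplicit false

/-! Divisibility by squares of cyclotomic polynomials. -/

namespace Q278.FC

open Polynomial Finset Q278.FA Q278.FB

section

variable {N : ℕ}

theorem prime_cyc (hN : 0 < N) : Prime (cyclotomic N ℤ) :=
  (cyclotomic.irreducible hN).prime

theorem dvd_one_sub {k : ℕ} (hk : N ∣ k) : cyclotomic N ℤ ∣ 1 - X ^ k := by
  obtain ⟨m, rfl⟩ := hk
  have h1 := cyclotomic.dvd_X_pow_sub_one N ℤ
  have h2 : (X ^ N - 1 : ℤ[X]) ∣ X ^ (N * m) - 1 := by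
    rw [pow_mul]
    simpa using sub_dvd_pow_sub_pow (X ^ N : ℤ[X]) 1 m
  have h3 := h1.trans h2
  rw [← dvd_neg, neg_sub]
  exact h3

theorem pow_mod {A B : ℕ} (h : A ≡ B [MOD N]) : cyclotomic N ℤ ∣ X ^ A - X ^ B := by
  rcases Nat.le_total A B with hAB | hAB
  · obtain ⟨k, rfl⟩ := Nat.exists_eq_add_of_le hAB
    have hk : N ∣ k := by
      have := (Nat.modEq_iff_dvd' hAB).1 h
      rwa [Nat.add_sub_cancel_left] at this
    have e : (X ^ A - X ^ (A + k) : ℤ[X]) = X ^ A * (1 - X ^ k) := by ring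
    rw [e]
    exact (dvd_one_sub hk).mul_left _
  · obtain ⟨k, rfl⟩ := Nat.exists_eq_add_of_le hAB
    have hk : N ∣ k := by
      have := (Nat.modEq_iff_dvd' hAB).1 h.symm
      rwa [Nat.add_sub_cancel_left] at this
    have e : (X ^ (B + k) - X ^ B : ℤ[X]) = (1 - X ^ k) * (-X ^ B) := by ring
    rw [e]
    exact (dvd_one_sub hk).mul_right _

theorem root_of_dvd (hN : 0 < N) {p : ℤ[X]} (h : cyclotomic N ℤ ∣ p) :
    aeval (Complex.exp (2 * Real.pi * Complex.I / N)) p = 0 := by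
  obtain ⟨s, rfl⟩ := h
  have hprim := Complex.isPrimitiveRoot_exp N hN.ne'
  have h1 : aeval (Complex.exp (2 * Real.pi * Complex.I / N)) (cyclotomic N ℤ) = 0 := by
    have h2 := hprim.isRoot_cyclotomic hN
    rw [IsRoot.def, ← map_cyclotomic_int, eval_map] at h2
    rw [aeval_def]
    exact h2
  rw [map_mul, h1, zero_mul]

theorem not_dvd (hN : 0 < N) (e : ℕ) {k : ℕ} (hk : ¬ N ∣ k) :
    ¬ cyclotomic N ℤ ∣ X ^ e * (1 - X ^ k) := by
  intro h
  have hprim := Complex.isPrimitiveRoot_exp N hN.ne'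
  have h1 := root_of_dvd hN h
  simp only [map_mul, map_sub, map_pow, aeval_X, map_one] at h1
  rcases mul_eq_zero.1 h1 with h2 | h2
  · exact absurd h2 (pow_ne_zero _ (Complex.exp_ne_zero _))
  · apply hk
    apply hprim.dvd_of_pow_eq_one
    exact (sub_eq_zero.1 h2).symm

theorem b_dvd (hN : 0 < N) {n j : ℕ} (hn : N ∣ n) (hj : ¬ N ∣ j) :
    cyclotomic N ℤ ∣ b n j := by
  have hj0 : 0 < j := by
    rcases Nat.eq_zero_or_pos j with h | h
    · exact absurd (h ▸ dvd_zero N) hj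
    · exact h
  rcases Nat.eq_zero_or_pos n with h | h
  · subst h
    rw [b_big 0 j hj0]
    exact dvd_zero _
  · obtain ⟨m, hm⟩ : ∃ m, 2 * n = m + 1 := ⟨2 * n - 1, by omega⟩
    obtain ⟨k, hk⟩ : ∃ k, n + j = k + 1 := ⟨n + j - 1, by omega⟩
    have h1 := gb_abs m k
    rw [← hm, ← hk] at h1
    have h2 : cyclotomic N ℤ ∣ (1 - X ^ (n + j)) * gb (2 * n) (n + j) := by
      rw [h1]
      exact (dvd_one_sub (hn.mul_left 2)).mul_right _
    have h3 := not_dvd hN 0 (k := n + j) (by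
      intro h4
      exact hj ((Nat.dvd_add_right hn).1 h4))
    rw [pow_zero, one_mul] at h3
    exact ((prime_cyc hN).dvd_or_dvd h2).resolve_left h3

/-- triangular numbers -/
def tr : ℕ → ℕ
  | 0 => 0
  | n + 1 => tr n + (n + 1)

theorem two_tr (n : ℕ) : 2 * tr n = n * (n + 1) := by
  induction n with
  | zero => rfl
  | succ n ih => rw [tr, mul_add, ih]; ring

theorem stepK (hN : 0 < N) {n u v : ℕ} (hn : N ∣ n) (hv : 0 < v) (hv2 : v + 1 < N) :
    cyclotomic N ℤ ^ 2 ∣ X ^ v * (1 - X ^ (v + 1)) * b n (N * u + (v + 1)) -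
      (X ^ v - 1) * b n (N * u + v) := by
  have d1 : cyclotomic N ℤ ∣ b n (N * u + (v + 1)) := b_dvd hN hn (by
    intro h
    have := (Nat.dvd_add_right (Dvd.intro u rfl)).1 h
    exact absurd (Nat.le_of_dvd (by omega) this) (by omega))
  have d2 : cyclotomic N ℤ ∣ b n (N * u + v) := b_dvd hN hn (by
    intro h
    have := (Nat.dvd_add_right (Dvd.intro u rfl)).1 h
    exact absurd (Nat.le_of_dvd (by omega) this) (by omega))
  have k1 : cyclotomic N ℤ ∣ 1 - X ^ (n + N * u) := dvd_one_sub (dvd_add hn (Dvd.intro u rfl))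
  have k2 : cyclotomic N ℤ ∣ 1 - X ^ (2 * n) := dvd_one_sub (hn.mul_left 2)
  have hG := gb_G (2 * n) (n + (N * u + v))
  unfold b at *
  rw [show n + (N * u + v) + 1 = n + (N * u + (v + 1)) by ring] at hG
  have e : X ^ v * (1 - X ^ (v + 1)) * gb (2 * n) (n + (N * u + (v + 1))) -
      (X ^ v - 1) * gb (2 * n) (n + (N * u + v)) =
      (1 - X ^ (n + N * u)) * gb (2 * n) (n + (N * u + (v + 1))) *
        (X ^ v * (1 - X ^ (v + 1) * (1 + X ^ (n + N * u)))) +
      ((1 - X ^ (2 * n)) * gb (2 * n) (n + (N * u + v)) -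
        (1 - X ^ (n + N * u)) * gb (2 * n) (n + (N * u + v)) * X ^ v) := by
    have e1 : (X : ℤ[X]) ^ (n + (N * u + v)) = X ^ (n + N * u) * X ^ v := by rw [← pow_add]; ring
    have e2 : (X : ℤ[X]) ^ (n + (N * u + (v + 1))) = X ^ (n + N * u) * X ^ (v + 1) := by
      rw [← pow_add]; ring
    rw [e1, e2] at hG
    linear_combination hG
  rw [e, pow_two]
  exact dvd_add ((mul_dvd_mul k1 d1).mul_right _)
    (dvd_sub (mul_dvd_mul k2 d2) ((mul_dvd_mul k1 d2).mul_right _))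

theorem chainK (hN : 0 < N) {n u : ℕ} (hn : N ∣ n) : ∀ w : ℕ, w + 1 < N →
    cyclotomic N ℤ ^ 2 ∣ X ^ tr w * (1 - X ^ (w + 1)) * b n (N * u + (w + 1)) -
      (-1) ^ w * ((1 - X) * b n (N * u + 1)) := by
  intro w
  induction w with
  | zero =>
    intro _
    simp [tr]
  | succ w ih =>
    intro hw
    have h1 := ih (by omega)
    have h2 := stepK hN (u := u) hn (v := w + 1) (by omega) hw
    have e : X ^ tr (w + 1) * (1 - X ^ (w + 1 + 1)) * b n (N * u + (w + 1 + 1)) -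
        (-1) ^ (w + 1) * ((1 - X) * b n (N * u + 1)) =
        X ^ tr w * (X ^ (w + 1) * (1 - X ^ (w + 1 + 1)) * b n (N * u + (w + 1 + 1)) -
          (X ^ (w + 1) - 1) * b n (N * u + (w + 1))) -
        (X ^ tr w * (1 - X ^ (w + 1)) * b n (N * u + (w + 1)) -
          (-1) ^ w * ((1 - X) * b n (N * u + 1))) := by
      rw [tr]; ring
    rw [e]
    exact dvd_sub (h2.mul_left _) h1

theorem tr_mod (hodd : Odd N) {w w' : ℕ} (h : w + w' + 2 = N) : tr w' ≡ tr (w + 1) [MOD N] := by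
  have hc : Nat.Coprime N 2 := by
    rw [Nat.coprime_two_right]
    exact hodd
  apply Nat.ModEq.cancel_left_of_coprime (c := 2) hc
  rw [two_tr, two_tr, Nat.modEq_iff_dvd]
  refine ⟨(w : ℤ) - w' + 1, ?_⟩
  rw [← h]
  push_cast
  ring

/-- the symmetry modulo the square -/
theorem symK (hN : 0 < N) (hodd : Odd N) {n u : ℕ} (hn : N ∣ n) {w w' : ℕ} (h : w + w' + 2 = N) :
    cyclotomic N ℤ ^ 2 ∣ b n (N * u + (w + 1)) - b n (N * u + (w' + 1)) := by
  have h1 := chainK hN (u := u) hn w (by omega)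
  have h2 := chainK hN (u := u) hn w' (by omega)
  have hs : (-1 : ℤ[X]) ^ w' = -(-1) ^ w := by
    rcases Nat.even_or_odd w with he | ho
    · have : Odd w' := by
        rcases hodd with ⟨r, hr⟩
        rcases he with ⟨s, hs⟩
        exact ⟨r - s - 1, by omega⟩
      rw [he.neg_one_pow, this.neg_one_pow]
    · have : Even w' := by
        rcases hodd with ⟨r, hr⟩
        rcases ho with ⟨s, hs⟩
        exact ⟨r - s - 1, by omega⟩
      rw [ho.neg_one_pow, this.neg_one_pow, neg_neg]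
  have d : cyclotomic N ℤ ∣ b n (N * u + (w' + 1)) := b_dvd hN hn (by
    intro h5
    have := (Nat.dvd_add_right (Dvd.intro u rfl)).1 h5
    exact absurd (Nat.le_of_dvd (by omega) this) (by omega))
  have d1 : cyclotomic N ℤ ∣ (X ^ tr w' - X ^ tr (w + 1)) * (1 - X ^ (w' + 1)) +
      X ^ tr w * (1 - X ^ N) :=
    dvd_add ((pow_mod (tr_mod hodd h)).mul_right _) ((dvd_one_sub dvd_rfl).mul_left _)
  have e : X ^ tr w * (1 - X ^ (w + 1)) * (b n (N * u + (w + 1)) - b n (N * u + (w' + 1))) =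
      (X ^ tr w * (1 - X ^ (w + 1)) * b n (N * u + (w + 1)) -
        (-1) ^ w * ((1 - X) * b n (N * u + 1))) +
      (X ^ tr w' * (1 - X ^ (w' + 1)) * b n (N * u + (w' + 1)) -
        (-1) ^ w' * ((1 - X) * b n (N * u + 1))) -
      ((X ^ tr w' - X ^ tr (w + 1)) * (1 - X ^ (w' + 1)) +
      X ^ tr w * (1 - X ^ N)) * b n (N * u + (w' + 1)) := by
    rw [hs, ← h, tr]
    ring
  have h3 : cyclotomic N ℤ ^ 2 ∣
      X ^ tr w * (1 - X ^ (w + 1)) * (b n (N * u + (w + 1)) - b n (N * u + (w' + 1))) := by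
    rw [e]
    refine dvd_sub (dvd_add h1 h2) ?_
    rw [pow_two]
    exact mul_dvd_mul d1 d
  exact (prime_cyc hN).pow_dvd_of_dvd_mul_left 2 (not_dvd hN _ (by
    intro h5
    exact absurd (Nat.le_of_dvd (by omega) h5) (by omega))) h3

end

section

variable {L : ℕ}

theorem nd5 {j : ℕ} (hj : ¬ 5 ∣ j) : ¬ 5 * L ∣ j := fun h => hj ((Dvd.intro L rfl).trans h)

theorem X0_dvd (hL : 0 < L) (hodd : Odd L) {n : ℕ} (hn : 5 * L ∣ n) (u : ℕ) :
    cyclotomic (5 * L) ℤ ^ 2 ∣ Xs 0 (L * u) n := by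
  have hN : 0 < 5 * L := by omega
  have hodd' : Odd (5 * L) := Odd.mul (by decide) hodd
  induction u with
  | zero => simp [Xs]
  | succ u ih =>
    unfold Xs at ih ⊢
    rw [mul_add, mul_one, Finset.sum_range_add]
    refine dvd_add ih ?_
    have e1 : ∑ x ∈ range L, X ^ (10 * (L * u + x) * (L * u + x) + 4 * 0 * (L * u + x) +
        (5 * (L * u + x) + 0)) * (b n (5 * (L * u + x) + 0 + 1) -
          X ^ (2 * (5 * (L * u + x) + 0) + 5) * b n (5 * (L * u + x) + 0 + 4)) =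
        ∑ x ∈ range L, X ^ (10 * (L * u + x) * (L * u + x) + 5 * (L * u + x)) *
          b n (5 * (L * u + x) + 1) -
        ∑ x ∈ range L, X ^ (10 * (L * u + x) * (L * u + x) + 15 * (L * u + x) + 5) *
          b n (5 * (L * u + x) + 4) := by
      rw [← sum_sub_distrib]
      apply sum_congr rfl
      intro x _
      simp only [mul_zero, zero_mul, add_zero]
      ring
    rw [e1, ← Finset.sum_range_reflect (fun x => X ^ (10 * (L * u + x) * (L * u + x) +
      15 * (L * u + x) + 5) * b n (5 * (L * u + x) + 4)), ← sum_sub_distrib]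
    apply dvd_sum
    intro x hx
    rw [mem_range] at hx
    have i1 : 5 * (L * u + x) + 1 = 5 * L * u + (5 * x + 1) := by ring
    obtain ⟨w, hw⟩ : ∃ w, 5 * x + w + 2 = 5 * L := ⟨5 * L - 2 - 5 * x, by omega⟩
    have i2 : 5 * (L * u + (L - 1 - x)) + 4 = 5 * L * u + (w + 1) := by
      have : 5 * (L - 1 - x) + 4 = w + 1 := by omega
      rw [mul_add, add_assoc, this]; ring
    rw [i1, i2]
    have hs := symK hN hodd' (u := u) hn hw
    have hd : cyclotomic (5 * L) ℤ ∣ b n (5 * L * u + (w + 1)) := b_dvd hN hn (by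
      intro h5
      have := (Nat.dvd_add_right (Dvd.intro u rfl)).1 h5
      exact absurd (Nat.le_of_dvd (by omega) this) (by omega))
    have hmod : 10 * (L * u + x) * (L * u + x) + 5 * (L * u + x) ≡
        10 * (L * u + (L - 1 - x)) * (L * u + (L - 1 - x)) + 15 * (L * u + (L - 1 - x)) + 5
          [MOD 5 * L] := by
      rw [Nat.modEq_iff_dvd]
      obtain ⟨y, hy⟩ : ∃ y, y = L - 1 - x := ⟨_, rfl⟩
      rw [← hy]
      have hL' : L = x + y + 1 := by omega
      refine ⟨(2 * u + 1) * (2 * (L * (2 * u + 1)) - 4 * (L * u + x) - 1), ?_⟩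
      rw [hL']
      push_cast
      ring
    have e : X ^ (10 * (L * u + x) * (L * u + x) + 5 * (L * u + x)) * b n (5 * L * u + (5 * x + 1)) -
        X ^ (10 * (L * u + (L - 1 - x)) * (L * u + (L - 1 - x)) + 15 * (L * u + (L - 1 - x)) + 5) *
          b n (5 * L * u + (w + 1)) =
        X ^ (10 * (L * u + x) * (L * u + x) + 5 * (L * u + x)) *
          (b n (5 * L * u + (5 * x + 1)) - b n (5 * L * u + (w + 1))) +
        (X ^ (10 * (L * u + x) * (L * u + x) + 5 * (L * u + x)) -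
        X ^ (10 * (L * u + (L - 1 - x)) * (L * u + (L - 1 - x)) + 15 * (L * u + (L - 1 - x)) + 5)) *
          b n (5 * L * u + (w + 1)) := by ring
    rw [e]
    refine dvd_add (hs.mul_left _) ?_
    rw [pow_two]
    exact mul_dvd_mul (pow_mod hmod) hd

theorem Xs_dvd (hL : 0 < L) {n : ℕ} (hn : 5 * L ∣ n) (c M : ℕ) (h1 : ¬ 5 ∣ c + 1)
    (h4 : ¬ 5 ∣ c + 4) : cyclotomic (5 * L) ℤ ∣ Xs c M n := by
  have hN : 0 < 5 * L := by omega
  apply dvd_sum
  intro t _
  exact (dvd_sub (b_dvd hN hn (nd5 (by omega))) ((b_dvd hN hn (nd5 (by omega))).mul_left _)).mul_left _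

theorem Vs_dvd (hL : 0 < L) {n : ℕ} (hn : 5 * L ∣ n) (c M : ℕ) (h1 : ¬ 5 ∣ c + 2)
    (h4 : ¬ 5 ∣ c + 3) : cyclotomic (5 * L) ℤ ∣ Vs c M n := by
  have hN : 0 < 5 * L := by omega
  apply dvd_sum
  intro t _
  exact (dvd_sub (b_dvd hN hn (nd5 (by omega))) ((b_dvd hN hn (nd5 (by omega))).mul_left _)).mul_left _

theorem Z_dvd (hL : 0 < L) (hodd : Odd L) {n : ℕ} (hn : 5 * L ∣ n) (u : ℕ) (hu : n < 5 * (L * u)) :
    cyclotomic (5 * L) ℤ ^ 2 ∣ Z (L * u) n := by
  have hN : 0 < 5 * L := by omega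
  have hf : cyclotomic (5 * L) ℤ ∣ (fg n).1 := by
    rw [(fg_eq (L * u) n hu).1]
    refine dvd_sub (dvd_add (dvd_sub (b_dvd hN hn (nd5 (by omega)))
      ((b_dvd hN hn (nd5 (by omega))).mul_left _)) ?_) ?_
    · exact (Xs_dvd hL hn 3 _ (by omega) (by omega)).mul_left _
    · exact (Xs_dvd hL hn 2 _ (by omega) (by omega)).mul_left _
  unfold Z
  refine dvd_sub ((X0_dvd hL hodd hn u).mul_left _) ?_
  rw [pow_two]
  exact mul_dvd_mul hf (Vs_dvd hL hn 0 _ (by omega) (by omega))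

end

end Q278.FC
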