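import Pool.Agent.Q278.FC

set_option autoImplicit false

/-! The square of `[5^a]` divides. -/

namespace Q278.FD

open Polynomial Finset Q278.FA Q278.FB Q278.FC

theorem isRelPrime_cyc {i j : ℕ} (hi : 0 < i) (hj : 0 < j) (hij : i ≠ j) :
    IsRelPrime (cyclotomic i ℤ ^ 2) (cyclotomic j ℤ ^ 2) := by
  apply IsRelPrime.pow
  rw [(cyclotomic.irreducible hi).isRelPrime_iff_not_dvd]
  intro h
  have h1 : Associated (cyclotomic i ℤ) (cyclotomic j ℤ) :=
    (cyclotomic.irreducible hi).associated_of_dvd (cyclotomic.irreducible hj) h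
  have h2 := eq_of_monic_of_associated (cyclotomic.monic i ℤ) (cyclotomic.monic j ℤ) h1
  exact hij (cyclotomic_injective h2)

theorem bracket_dvd (a : ℕ) (p : ℤ[X])
    (h : ∀ b : ℕ, 1 ≤ b → b ≤ a → cyclotomic (5 ^ b) ℤ ^ 2 ∣ p) :
    (∑ k ∈ range (5 ^ a), X ^ k : ℤ[X]) ^ 2 ∣ p := by
  rw [← prod_cyclotomic_eq_geom_sum (by positivity), ← Finset.prod_pow]
  apply Finset.prod_dvd_of_isRelPrime
  · intro i hi j hj hij
    have hi' := Finset.mem_of_mem_erase hi
    have hj' := Finset.mem_of_mem_erase hj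
    exact isRelPrime_cyc (Nat.pos_of_mem_divisors hi') (Nat.pos_of_mem_divisors hj') hij
  · intro i hi
    rw [mem_erase, Nat.mem_divisors, Nat.dvd_prime_pow (by norm_num)] at hi
    obtain ⟨h1, ⟨k, hk, rfl⟩, -⟩ := hi
    apply h k _ hk
    rcases Nat.eq_zero_or_pos k with h0 | h0
    · subst h0; simp at h1
    · exact h0

theorem Z_main (a m M : ℕ) (hm : 0 < m) (hM : M = 5 ^ a * m) :
    (∑ k ∈ range (5 ^ a), X ^ k : ℤ[X]) ^ 2 ∣ Z M (5 ^ a * m) := by
  apply bracket_dvd a
  intro b hb hba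
  obtain ⟨c, rfl⟩ : ∃ c, b = c + 1 := ⟨b - 1, by omega⟩
  obtain ⟨d, rfl⟩ := Nat.exists_eq_add_of_le hba
  have e : 5 ^ (c + 1) = 5 * 5 ^ c := by ring
  rw [e]
  have hL : 0 < 5 ^ c := by positivity
  have hodd : Odd (5 ^ c) := Odd.pow (by decide)
  have hMe : M = 5 ^ c * (5 ^ (d + 1) * m) := by rw [hM]; ring
  rw [hMe]
  apply Z_dvd hL hodd
  · exact ⟨5 ^ d * m, by ring⟩
  · have h1 : 5 ^ (c + 1 + d) * m = 5 ^ c * (5 ^ (d + 1) * m) := by ring
    rw [h1]
    have : 0 < 5 ^ c * (5 ^ (d + 1) * m) := by positivity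
    omega

/-- q-factorials -/
noncomputable def fact (n : ℕ) : ℤ[X] := ∏ r ∈ Icc 1 n, ∑ k ∈ range r, (X : ℤ[X]) ^ k

theorem fact_succ (n : ℕ) : fact (n + 1) = fact n * ∑ k ∈ range (n + 1), X ^ k := by
  unfold fact
  rw [Finset.prod_Icc_succ_top (by omega)]

theorem fact_monic (n : ℕ) : (fact n).Monic := by
  unfold fact
  apply monic_prod_of_monic
  intro i hi
  rw [mem_Icc] at hi
  obtain ⟨j, rfl⟩ : ∃ j, i = j + 1 := ⟨i - 1, by omega⟩
  have := monic_geom_sum_X (R := ℤ) (n := j + 1) (by omega)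
  exact this

theorem gb_fact : ∀ n k : ℕ, k ≤ n → gb n k * (fact k * fact (n - k)) = fact n := by
  intro n
  induction n with
  | zero =>
    intro k hk
    obtain rfl : k = 0 := by omega
    simp [gb_zero, fact]
  | succ n ih =>
    intro k hk
    cases k with
    | zero => simp [gb_zero, fact]
    | succ k =>
      rw [gb_ss, Nat.add_sub_add_right]
      have h1 := ih k (by omega)
      have hb : ∀ r : ℕ, (∑ i ∈ range r, X ^ i : ℤ[X]) * (1 - X) = 1 - X ^ r := by
        intro r
        have := geom_sum_mul (X : ℤ[X]) r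
        linear_combination -this
      have hX : (1 - X : ℤ[X]) ≠ 0 := by
        intro h
        have := congrArg (Polynomial.eval 0) h
        simp at this
      rcases Nat.lt_or_ge k n with hkn | hkn
      · have h2 := ih (k + 1) (by omega)
        obtain ⟨d, rfl⟩ : ∃ d, n = k + 1 + d := ⟨n - k - 1, by omega⟩
        rw [show k + 1 + d - (k + 1) = d by omega] at h2
        rw [show k + 1 + d - k = d + 1 by omega] at h1 ⊢
        rw [fact_succ (k + 1 + d)]
        apply mul_right_cancel₀ hX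
        have b1 := hb (k + 1)
        have b2 := hb (d + 1)
        have b3 := hb (k + 1 + d + 1)
        rw [fact_succ d] at h1 ⊢
        rw [fact_succ k] at h2 ⊢
        linear_combination (∑ i ∈ range (k + 1), X ^ i) * (1 - X) * h1 +
          X ^ (k + 1) * (∑ i ∈ range (d + 1), X ^ i) * (1 - X) * h2 + fact (k + 1 + d) *
          (b1 + X ^ (k + 1) * b2 - b3)
      · obtain rfl : k = n := by omega
        rw [gb_big k (k + 1) (by omega)]
        rw [Nat.sub_self] at h1 ⊢
        rw [fact_succ]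
        linear_combination (∑ i ∈ range (k + 1), X ^ i) * h1

theorem gb_divByMonic (n k : ℕ) (hk : k ≤ n) : gb n k = fact n /ₘ (fact k * fact (n - k)) := by
  have h := gb_fact n k hk
  have hm : (fact k * fact (n - k)).Monic := (fact_monic k).mul (fact_monic (n - k))
  rw [← h, mul_comm (gb n k)]
  exact (mul_divByMonic_cancel_left _ hm).symm

end Q278.FD
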