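import Pool.Agent.Q278.CycCong

set_option autoImplicit false

/-! Algebra for the `q`-congruence with a sign and a power of `q`. -/

namespace Q278.Flip

open Finset Q278.Loc Polynomial

section algebra

variable {K : Type*} [Field K]

/-- the shifted factorial `(a; Q)_n` -/
def sh (a Q : K) (n : ℕ) : K := ∏ i ∈ range n, (1 - a * Q ^ i)

theorem sh_zero (a Q : K) : sh a Q 0 = 1 := by simp [sh]

theorem sh_succ (a Q : K) (n : ℕ) : sh a Q (n + 1) = sh a Q n * (1 - a * Q ^ n) := by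
  unfold sh; rw [prod_range_succ]

theorem sh_succ' (a Q : K) (n : ℕ) : sh a Q (n + 1) = (1 - a) * sh (a * Q) Q n := by
  unfold sh
  rw [prod_range_succ', mul_comm]
  congr 1
  · simp
  · apply prod_congr rfl
    intro i _
    rw [pow_succ]; ring

theorem sh_add (a Q : K) (m n : ℕ) : sh a Q (m + n) = sh a Q m * sh (a * Q ^ m) Q n := by
  unfold sh
  rw [prod_range_add]
  congr 1
  apply prod_congr rfl
  intro i _
  rw [pow_add]; ring

/-- the value at `x = 0` -/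
def V (A B Q : K) (p : ℕ) : K := ∑ i ∈ range p, sh A Q i * sh B Q i * Q ^ i / (sh Q Q i) ^ 2

theorem V_rec {A B Q : K} (hAB : A * B = 1) (n : ℕ) (hne : ∀ i, i ≤ n → sh Q Q i ≠ 0) :
    V A (B * Q) Q (n + 1) + B * V (A * Q) B Q (n + 1) =
      (1 + B) * (sh (A * Q) Q n * sh (B * Q) Q n) / (sh Q Q n) ^ 2 := by
  induction n with
  | zero => simp [V, sh]
  | succ n ih =>
    have ih := ih (fun i hi => hne i (by omega))
    have h1 := hne (n + 1) le_rfl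
    have h0 := hne n (by omega)
    have e1 : V A (B * Q) Q (n + 1 + 1) + B * V (A * Q) B Q (n + 1 + 1) =
        (V A (B * Q) Q (n + 1) + B * V (A * Q) B Q (n + 1)) +
        (sh A Q (n + 1) * sh (B * Q) Q (n + 1) * Q ^ (n + 1) / (sh Q Q (n + 1)) ^ 2 +
        B * (sh (A * Q) Q (n + 1) * sh B Q (n + 1) * Q ^ (n + 1) / (sh Q Q (n + 1)) ^ 2)) := by
      unfold V
      rw [sum_range_succ _ (n + 1), sum_range_succ _ (n + 1)]
      ring
    rw [e1, ih, sh_succ' A, sh_succ' B, sh_succ (B * Q), sh_succ (A * Q), sh_succ Q]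
    rw [sh_succ Q] at h1
    have hx : 1 - Q * Q ^ n ≠ 0 := right_ne_zero_of_mul h1
    have hA : A = B⁻¹ := eq_inv_of_mul_eq_one_left hAB
    have hB : B ≠ 0 := right_ne_zero_of_mul_eq_one hAB
    have e0 : Q ^ (n + 1) = Q * Q ^ n := pow_succ' Q n
    rw [e0]
    generalize sh (A * Q) Q n = α at *
    generalize sh (B * Q) Q n = β at *
    generalize sh Q Q n = κ at *
    generalize hxx : Q * Q ^ n = x at *
    have e3 : A * Q * Q ^ n = A * x := by rw [← hxx]; ring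
    have e4 : B * Q * Q ^ n = B * x := by rw [← hxx]; ring
    rw [e3, e4]
    clear hxx e0 e3 e4 ih e1 hne
    subst hA
    field_simp
    ring

/-- the sums occurring in the coefficient of `x ^ j` -/
def W (a b c Q : K) (n : ℕ) : K :=
  ∑ i ∈ range n, sh a Q i * sh b Q i * Q ^ i / (sh Q Q i * sh c Q i)

theorem W_rec {a b c Q : K} (hc : c ^ 2 = a * b * Q) (hc0 : c ≠ 0) (n : ℕ)
    (hne : ∀ i, i ≤ n + 1 → sh Q Q i ≠ 0) (hne' : ∀ i, i ≤ n + 1 → sh c Q i ≠ 0) :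
    W (a * Q) (b * Q) (c * Q) Q (n + 1) + c⁻¹ * W a b c Q (n + 2) =
      sh (a * Q) Q n * sh (b * Q) Q n * (1 - a * Q ^ (n + 1)) * (1 - b * Q ^ (n + 1)) /
        (c * (sh Q Q (n + 1) * sh c Q (n + 1))) := by
  induction n with
  | zero =>
    have h1 := hne 1 (by omega)
    have h2 := hne' 1 (by omega)
    simp only [W, sh_zero, sum_range_succ, sum_range_zero, pow_zero, zero_add, pow_one, mul_one,
      one_mul, div_one] at *
    have e1 : sh a Q 1 = 1 - a := by simp [sh]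
    have e2 : sh b Q 1 = 1 - b := by simp [sh]
    have e3 : sh Q Q 1 = 1 - Q := by simp [sh]
    have e4 : sh c Q 1 = 1 - c := by simp [sh]
    rw [e1, e2, e3, e4]
    rw [e3] at h1
    rw [e4] at h2
    field_simp
    linear_combination (Q - 1) * hc
  | succ n ih =>
    have ih := ih (fun i hi => hne i (by omega)) (fun i hi => hne' i (by omega))
    have h1 := hne (n + 2) (by omega)
    have h2 := hne' (n + 2) (by omega)
    have h1' := hne (n + 1) (by omega)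
    have h2' := hne' (n + 1) (by omega)
    have e1 : W (a * Q) (b * Q) (c * Q) Q (n + 1 + 1) + c⁻¹ * W a b c Q (n + 1 + 2) =
        (W (a * Q) (b * Q) (c * Q) Q (n + 1) + c⁻¹ * W a b c Q (n + 2)) +
        (sh (a * Q) Q (n + 1) * sh (b * Q) Q (n + 1) * Q ^ (n + 1) /
          (sh Q Q (n + 1) * sh (c * Q) Q (n + 1)) +
        c⁻¹ * (sh a Q (n + 2) * sh b Q (n + 2) * Q ^ (n + 2) /
          (sh Q Q (n + 2) * sh c Q (n + 2)))) := by
      unfold W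
      rw [sum_range_succ _ (n + 1), show n + 1 + 2 = (n + 2) + 1 by ring, sum_range_succ _ (n + 2)]
      ring
    rw [e1, ih]
    have f1 : sh a Q (n + 2) = (1 - a) * (sh (a * Q) Q n * (1 - a * Q ^ (n + 1))) := by
      rw [sh_succ', sh_succ, pow_succ]; ring
    have f2 : sh b Q (n + 2) = (1 - b) * (sh (b * Q) Q n * (1 - b * Q ^ (n + 1))) := by
      rw [sh_succ', sh_succ, pow_succ]; ring
    have f3 : sh (a * Q) Q (n + 1) = sh (a * Q) Q n * (1 - a * Q ^ (n + 1)) := by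
      rw [sh_succ, pow_succ]; ring
    have f4 : sh (b * Q) Q (n + 1) = sh (b * Q) Q n * (1 - b * Q ^ (n + 1)) := by
      rw [sh_succ, pow_succ]; ring
    have f5 : sh c Q (n + 1) = (1 - c) * sh (c * Q) Q n := sh_succ' c Q n
    have f6 : sh (c * Q) Q (n + 1) = sh (c * Q) Q n * (1 - c * Q ^ (n + 1)) := by
      rw [sh_succ, pow_succ]; ring
    have f7 : sh c Q (n + 2) = (1 - c) * (sh (c * Q) Q n * (1 - c * Q ^ (n + 1))) := by
      rw [sh_succ', f6]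
    have f8 : sh Q Q (n + 2) = sh Q Q (n + 1) * (1 - Q * Q ^ (n + 1)) := sh_succ Q Q (n + 1)
    have f9 : sh Q Q (n + 1) = sh Q Q n * (1 - Q ^ (n + 1)) := by
      rw [sh_succ, pow_succ]; ring
    have f10 : Q ^ (n + 1 + 1) = Q * Q ^ (n + 1) := pow_succ' Q (n + 1)
    have f11 : Q ^ (n + 2) = Q * Q ^ (n + 1) := pow_succ' Q (n + 1)
    rw [show n + 1 + 1 = n + 2 by ring] at *
    rw [f7] at h2
    rw [f8, f9] at h1
    rw [f1, f2, f3, f4, f5, f6, f7, f8, f9, f11]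
    have g1 : 1 - c ≠ 0 := left_ne_zero_of_mul h2
    have g2 : sh (c * Q) Q n ≠ 0 := left_ne_zero_of_mul (right_ne_zero_of_mul h2)
    have g3 : 1 - c * Q ^ (n + 1) ≠ 0 := right_ne_zero_of_mul (right_ne_zero_of_mul h2)
    have g4 : 1 - Q * Q ^ (n + 1) ≠ 0 := right_ne_zero_of_mul h1
    have g5 : 1 - Q ^ (n + 1) ≠ 0 := right_ne_zero_of_mul (left_ne_zero_of_mul h1)
    have g6 : sh Q Q n ≠ 0 := left_ne_zero_of_mul (left_ne_zero_of_mul h1)
    generalize sh (a * Q) Q n = α at *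
    generalize sh (b * Q) Q n = β at *
    generalize sh (c * Q) Q n = γ at *
    generalize sh Q Q n = κ at *
    generalize Q ^ (n + 1) = x at *
    clear f1 f2 f3 f4 f5 f6 f7 f8 f9 f10 f11 e1 ih h1 h2 h1' h2' hne hne'
    have key : (1 - a * x) * (1 - b * x) * ((1 - c * x) * (1 - Q * x)) +
        (1 - a * x) * (1 - b * x) * x * (c * (1 - c) * (1 - Q * x)) +
        (1 - a) * (1 - b) * ((1 - a * x) * (1 - b * x)) * (Q * x) =
        (1 - a * x) * (1 - b * x) * ((1 - a * (Q * x)) * (1 - b * (Q * x))) := by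
      linear_combination (1 - a * x) * (1 - b * x) * (x * (Q * x - 1)) * hc
    have e2 : α * β * (1 - a * x) * (1 - b * x) / (c * (κ * (1 - x) * ((1 - c) * γ))) +
        (α * (1 - a * x) * (β * (1 - b * x)) * x / (κ * (1 - x) * (γ * (1 - c * x))) +
        c⁻¹ * ((1 - a) * (α * (1 - a * x)) * ((1 - b) * (β * (1 - b * x))) * (Q * x) /
        (κ * (1 - x) * (1 - Q * x) * ((1 - c) * (γ * (1 - c * x)))))) =
        α * β * ((1 - a * x) * (1 - b * x) * ((1 - c * x) * (1 - Q * x)) +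
        (1 - a * x) * (1 - b * x) * x * (c * (1 - c) * (1 - Q * x)) +
        (1 - a) * (1 - b) * ((1 - a * x) * (1 - b * x)) * (Q * x)) /
        (c * (κ * (1 - x) * (1 - Q * x) * ((1 - c) * (γ * (1 - c * x))))) := by
      clear key ih
      generalize 1 - c * x = D2 at *
      generalize 1 - Q * x = D3 at *
      generalize 1 - x = D4 at *
      generalize 1 - c = D1 at *
      field_simp
      ring
    rw [e2, key]
    congr 1
    ring

end algebra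

section zpowers

open Q278.Cyc

variable {p : ℕ} {ζ : ℂ}

theorem zq_mem (hζ0 : ζ ≠ 0) (z : ℤ) : q ^ z ∈ Reg ζ := by
  obtain ⟨n, rfl | rfl⟩ := z.eq_nat_or_neg
  · rw [zpow_natCast]; exact q_pow_mem ζ n
  · rw [zpow_neg, zpow_natCast, ← inv_pow]; exact qi_mem hζ0 n

theorem ev_zq (hζ0 : ζ ≠ 0) (z : ℤ) : ev ζ (q ^ z) = ζ ^ z := by
  obtain ⟨n, rfl | rfl⟩ := z.eq_nat_or_neg
  · rw [zpow_natCast, ev_q_pow, zpow_natCast]
  · rw [zpow_neg, zpow_natCast, ← inv_pow, ev_qi hζ0, zpow_neg, zpow_natCast, inv_pow]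

theorem one_sub_zq_mem (hζ0 : ζ ≠ 0) (z : ℤ) : 1 - q ^ z ∈ Reg ζ :=
  (Reg ζ).sub_mem (Reg ζ).one_mem (zq_mem hζ0 z)

theorem one_sub_zq (hp : p.Prime) (hζ : IsPrimitiveRoot ζ p) {z : ℤ} (h : (p : ℤ) ∣ z) :
    1 - q ^ z ∈ I (Reg ζ) (Φ p) 1 := by
  have hζ0 : ζ ≠ 0 := hζ.ne_zero hp.ne_zero
  apply mem_I_one hp.pos hζ (one_sub_zq_mem hζ0 z)
  rw [ev_sub (Reg ζ).one_mem (zq_mem hζ0 z), ev_one, ev_zq hζ0,
    (hζ.zpow_eq_one_iff_dvd z).2 h, sub_self]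

theorem sh_mem (hζ0 : ζ ≠ 0) (z : ℤ) (m n : ℕ) : sh (q ^ z) (q ^ m) n ∈ Reg ζ := by
  unfold sh
  apply (Reg ζ).prod_mem
  intro i _
  exact (Reg ζ).sub_mem (Reg ζ).one_mem ((Reg ζ).mul_mem (zq_mem hζ0 z)
    ((Reg ζ).pow_mem (q_pow_mem ζ m) i))

theorem zfac (z : ℤ) (m i : ℕ) : q ^ z * (q ^ m) ^ i = q ^ (z + m * i) := by
  rw [zpow_add₀ q_ne, ← pow_mul]
  congr 1

/-- a product containing a factor divisible by `Φ_p` -/
theorem sh_small (hp : p.Prime) (hζ : IsPrimitiveRoot ζ p) {z : ℤ} {m n i : ℕ} (hi : i < n)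
    (h : (p : ℤ) ∣ z + m * i) : sh (q ^ z) (q ^ m) n ∈ I (Reg ζ) (Φ p) 1 := by
  have hζ0 : ζ ≠ 0 := hζ.ne_zero hp.ne_zero
  unfold sh
  rw [← mul_prod_erase _ _ (mem_range.2 hi), mul_comm]
  apply mul_O
  · apply (Reg ζ).prod_mem
    intro j _
    exact (Reg ζ).sub_mem (Reg ζ).one_mem ((Reg ζ).mul_mem (zq_mem hζ0 z)
      ((Reg ζ).pow_mem (q_pow_mem ζ m) j))
  · rw [zfac]
    exact one_sub_zq hp hζ h

/-- `(Q^{k+1}; Q)_n` is a unit if `k + n < p`. -/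
theorem ev_sh_ne (hp : p.Prime) (hζ : IsPrimitiveRoot ζ p) {m k n : ℕ} (hm : ¬ p ∣ m)
    (hk : k + n < p) : ev ζ (sh ((q ^ m) ^ (k + 1)) (q ^ m) n) ≠ 0 := by
  have hζ0 : ζ ≠ 0 := hζ.ne_zero hp.ne_zero
  have h1 : ∀ i, (1 - (q ^ m) ^ (k + 1) * (q ^ m) ^ i) = 1 - q ^ (m * (k + 1 + i)) := by
    intro i; rw [← pow_add, ← pow_mul]
  unfold sh
  rw [ev_prod]
  · apply prod_ne_zero_iff.2
    intro i hi
    have hi' := mem_range.1 hi
    rw [h1]
    apply one_sub_ne hζ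
    intro h
    rcases (Nat.Prime.dvd_mul hp).1 h with h | h
    · exact hm h
    · have := Nat.le_of_dvd (by omega) h
      omega
  · intro i _
    rw [h1]
    exact one_sub_mem ζ _

theorem sh_mem' (m k n : ℕ) : sh ((q ^ m) ^ (k + 1)) (q ^ m) n ∈ Reg ζ := by
  unfold sh
  apply (Reg ζ).prod_mem
  intro i _
  exact (Reg ζ).sub_mem (Reg ζ).one_mem ((Reg ζ).mul_mem ((Reg ζ).pow_mem (q_pow_mem ζ m) _)
    ((Reg ζ).pow_mem (q_pow_mem ζ m) i))

theorem ev_shQ_ne (hp : p.Prime) (hζ : IsPrimitiveRoot ζ p) {m n : ℕ} (hm : ¬ p ∣ m)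
    (hn : n < p) : ev ζ (sh (q ^ m) (q ^ m) n) ≠ 0 := by
  have := ev_sh_ne hp hζ (k := 0) hm (show 0 + n < p by omega)
  rwa [zero_add, pow_one] at this

theorem shQ_mem (m n : ℕ) : sh (q ^ m) (q ^ m) n ∈ Reg ζ := by
  have := sh_mem' (ζ := ζ) m 0 n
  rwa [zero_add, pow_one] at this

end zpowers

section value

open Q278.Cyc

variable {p : ℕ} {ζ : ℂ}

/-- The value `V` with `A = q ^ r`, `B = q ^ (m - r)`. -/
noncomputable def Vr (p m : ℕ) (r : ℤ) : RatFunc ℚ := V (q ^ r) (q ^ ((m : ℤ) - r)) (q ^ m) p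

theorem Vr_rec (hp : p.Prime) (hζ : IsPrimitiveRoot ζ p) {m : ℕ} (hm : ¬ p ∣ m) {r : ℤ} {N : ℕ}
    (hN : N + 1 < p) (h : (p : ℤ) ∣ r + m * N) :
    Vr p m (r - m) + q ^ ((m : ℤ) - r) * Vr p m r ∈ I (Reg ζ) (Φ p) 2 := by
  have hζ0 : ζ ≠ 0 := hζ.ne_zero hp.ne_zero
  obtain ⟨n, rfl⟩ : ∃ n, p = n + 1 := ⟨p - 1, by omega⟩
  have hAB : q ^ (r - m) * q ^ ((m : ℤ) - r) = 1 := by
    rw [← zpow_add₀ q_ne]; simp
  have h1 := V_rec (Q := q ^ m) hAB n (fun i hi =>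
    ne_zero_of_ev (ev_shQ_ne hp hζ hm (show i < n + 1 by omega)))
  have e1 : q ^ (r - m) * q ^ m = q ^ r := by
    rw [← zpow_natCast q m, ← zpow_add₀ q_ne]; congr 1; ring
  have e2 : q ^ ((m : ℤ) - r) * q ^ m = q ^ ((m : ℤ) - (r - m)) := by
    rw [← zpow_natCast q m, ← zpow_add₀ q_ne]; congr 1; ring
  rw [e1, e2] at h1
  unfold Vr
  rw [h1]
  have h2 : sh (q ^ r) (q ^ m) n ∈ I (Reg ζ) (Φ (n + 1)) 1 :=
    sh_small hp hζ (show N < n by omega) h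
  have h3 : sh (q ^ ((m : ℤ) - (r - m))) (q ^ m) n ∈ I (Reg ζ) (Φ (n + 1)) 1 := by
    apply sh_small hp hζ (show n - 1 - N < n by omega)
    obtain ⟨c, hc⟩ := h
    refine ⟨m - c, ?_⟩
    have h4 : ((n - 1 - N : ℕ) : ℤ) = n - 1 - N := by
      rw [Nat.sub_sub, Nat.cast_sub (by omega)]; push_cast; ring
    rw [h4]
    push_cast at hc ⊢
    linear_combination -hc
  rw [div_eq_mul_inv, mul_comm]
  refine mul_O (inv_mem ((Reg ζ).pow_mem (shQ_mem m n) 2) ?_) (mul_O ((Reg ζ).add_mem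
    (Reg ζ).one_mem (zq_mem hζ0 _)) (mul_I h2 h3))
  rw [ev_pow (shQ_mem m n)]
  exact pow_ne_zero _ (ev_shQ_ne hp hζ hm (by omega))

theorem one_add_pow (O : Subring (RatFunc ℚ)) {π x : RatFunc ℚ} (hx : x ∈ I O π 1) (hxO : x ∈ O)
    (K : ℕ) : (1 + x) ^ K - 1 - K * x ∈ I O π 2 := by
  induction K with
  | zero => simp [(I O π 2).zero_mem]
  | succ K ih =>
    have e : (1 + x) ^ (K + 1) - 1 - ((K + 1 : ℕ) : RatFunc ℚ) * x =
        ((1 + x) ^ K - 1 - K * x) + x * ((1 + x) ^ K - 1 - K * x) + K * (x * x) := by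
      push_cast; ring
    rw [e]
    exact (I O π 2).add_mem ((I O π 2).add_mem ih (mul_O hxO ih)) (mul_O (nat_O K) (mul_I hx hx))

theorem sum_root {ω : ℂ} (hp1 : 1 < p) (hω : IsPrimitiveRoot ω p) :
    ∑ i ∈ range (p - 1), ω ^ (i + 1) / (1 - ω ^ (i + 1)) = -(((p : ℂ) - 1) / 2) := by
  have hne : ∀ i, i < p - 1 → 1 - ω ^ (i + 1) ≠ 0 := by
    intro i hi h
    have h1 := (hω.pow_eq_one_iff_dvd _).1 (sub_eq_zero.1 h).symm
    have := Nat.le_of_dvd (by omega) h1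
    omega
  have h1 : ∑ i ∈ range (p - 1), ω ^ (i + 1) / (1 - ω ^ (i + 1)) =
      ∑ i ∈ range (p - 1), (-1 - ω ^ (i + 1) / (1 - ω ^ (i + 1))) := by
    conv_lhs => rw [← sum_range_reflect]
    apply sum_congr rfl
    intro i hi
    have hi' := mem_range.1 hi
    have h2 := hne i hi'
    have h3 := hne (p - 1 - 1 - i) (by omega)
    have h4 : ω ^ (p - 1 - 1 - i + 1) * ω ^ (i + 1) = 1 := by
      rw [← pow_add, show p - 1 - 1 - i + 1 + (i + 1) = p by omega, hω.pow_eq_one]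
    generalize ω ^ (p - 1 - 1 - i + 1) = a at *
    generalize ω ^ (i + 1) = b at *
    have e : -1 - b / (1 - b) = -1 / (1 - b) := by field_simp; ring
    rw [e, div_eq_div_iff h3 h2]
    linear_combination -h4
  rw [sum_sub_distrib, sum_const, card_range, nsmul_eq_mul, Nat.cast_sub hp1.le] at h1
  push_cast at h1
  linear_combination (1 / 2) * h1

theorem Vr_base (hp : p.Prime) (hp2 : p ≠ 2) (hζ : IsPrimitiveRoot ζ p) {m : ℕ} (hm : ¬ p ∣ m)
    {r : ℤ} (h : (p : ℤ) ∣ r) :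
    Vr p m r - q ^ (r * ((p - 1) / 2 : ℕ)) ∈ I (Reg ζ) (Φ p) 2 := by
  have hζ0 : ζ ≠ 0 := hζ.ne_zero hp.ne_zero
  have hy := one_sub_zq hp hζ h
  have hym := zq_mem hζ0 r
  set K := (p - 1) / 2 with hK
  have hodd : p % 2 = 1 := by
    rcases hp.eq_two_or_odd with h | h
    · exact absurd h hp2
    · exact h
  have hK2 : 2 * K = p - 1 := by omega
  have hKc : (p : RatFunc ℚ) - 1 = 2 * K := by
    have : p = 2 * K + 1 := by have := hp.pos; omega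
    have h1 : (p : RatFunc ℚ) = ((2 * K + 1 : ℕ) : RatFunc ℚ) := by rw [← this]
    rw [h1]; push_cast; ring
  have hKc' : (p : ℂ) - 1 = 2 * K := by
    have : p = 2 * K + 1 := by have := hp.pos; omega
    have h1 : (p : ℂ) = ((2 * K + 1 : ℕ) : ℂ) := by rw [← this]
    rw [h1]; push_cast; ring
  -- `y ^ K`
  have hx1 : -(1 - q ^ r) ∈ I (Reg ζ) (Φ p) 1 := (I (Reg ζ) (Φ p) 1).neg_mem hy
  have h1 := one_add_pow (Reg ζ) hx1 ((Reg ζ).neg_mem (one_sub_zq_mem hζ0 r)) K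
  have e1 : (1 + -(1 - q ^ r)) ^ K = q ^ (r * (K : ℤ)) := by
    rw [zpow_mul, zpow_natCast]; congr 1; ring
  rw [e1] at h1
  -- the terms
  have hQ : ∀ i, i < p → ev ζ (sh (q ^ m) (q ^ m) i) ≠ 0 := fun i hi => ev_shQ_ne hp hζ hm hi
  have hr1 : ζ ^ r = 1 := (hζ.zpow_eq_one_iff_dvd r).2 h
  have hcop : Nat.Coprime m p := ((Nat.Prime.coprime_iff_not_dvd hp).2 hm).symm
  have hω := hζ.pow_of_coprime m hcop
  set ω := ζ ^ m with hωdef
  have hne : ∀ i, i < p - 1 → 1 - ω ^ (i + 1) ≠ 0 := by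
    intro i hi h
    have h1 := (hω.pow_eq_one_iff_dvd _).1 (sub_eq_zero.1 h).symm
    have := Nat.le_of_dvd (by omega) h1
    omega
  have hterm : ∀ i ∈ range (p - 1), sh (q ^ r) (q ^ m) (i + 1) *
      sh (q ^ ((m : ℤ) - r)) (q ^ m) (i + 1) * (q ^ m) ^ (i + 1) /
        (sh (q ^ m) (q ^ m) (i + 1)) ^ 2 - (1 - q ^ r) * ((q ^ m) ^ (i + 1) /
        (1 - (q ^ m) ^ (i + 1))) ∈ I (Reg ζ) (Φ p) 2 := by
    intro i hi
    have hi' := mem_range.1 hi
    have m1 : sh (q ^ r * q ^ m) (q ^ m) i ∈ Reg ζ := by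
      have : q ^ r * q ^ m = q ^ (r + m) := by
        rw [← zpow_natCast q m, ← zpow_add₀ q_ne]
      rw [this]; exact sh_mem hζ0 _ _ _
    have m2 : sh (q ^ ((m : ℤ) - r)) (q ^ m) (i + 1) ∈ Reg ζ := sh_mem hζ0 _ _ _
    have m3 : (q ^ m) ^ (i + 1) ∈ Reg ζ := (Reg ζ).pow_mem (q_pow_mem ζ m) _
    have m4 : sh (q ^ m) (q ^ m) (i + 1) ∈ Reg ζ := shQ_mem m _
    have m5 : 1 - (q ^ m) ^ (i + 1) ∈ Reg ζ := (Reg ζ).sub_mem (Reg ζ).one_mem m3
    have v3 : ev ζ ((q ^ m) ^ (i + 1)) = ω ^ (i + 1) := by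
      rw [ev_pow (q_pow_mem ζ m), ev_q_pow]
    have v5 : ev ζ (1 - (q ^ m) ^ (i + 1)) = 1 - ω ^ (i + 1) := by
      rw [ev_sub (Reg ζ).one_mem m3, ev_one, v3]
    have vq : ∀ k, ev ζ (sh (q ^ m) (q ^ m) k) = sh ω ω k := by
      intro k
      unfold sh
      rw [ev_prod (fun j _ => (Reg ζ).sub_mem (Reg ζ).one_mem ((Reg ζ).mul_mem (q_pow_mem ζ m)
        ((Reg ζ).pow_mem (q_pow_mem ζ m) j)))]
      apply prod_congr rfl
      intro j _
      rw [ev_sub (Reg ζ).one_mem ((Reg ζ).mul_mem (q_pow_mem ζ m)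
        ((Reg ζ).pow_mem (q_pow_mem ζ m) j)), ev_one, ev_mul (q_pow_mem ζ m)
        ((Reg ζ).pow_mem (q_pow_mem ζ m) j), ev_pow (q_pow_mem ζ m), ev_q_pow]
    have vz : ∀ (z : ℤ) k, ev ζ (sh (q ^ z) (q ^ m) k) = sh (ζ ^ z) ω k := by
      intro z k
      unfold sh
      rw [ev_prod (fun j _ => (Reg ζ).sub_mem (Reg ζ).one_mem ((Reg ζ).mul_mem (zq_mem hζ0 z)
        ((Reg ζ).pow_mem (q_pow_mem ζ m) j)))]
      apply prod_congr rfl
      intro j _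
      rw [ev_sub (Reg ζ).one_mem ((Reg ζ).mul_mem (zq_mem hζ0 z)
        ((Reg ζ).pow_mem (q_pow_mem ζ m) j)), ev_one, ev_mul (zq_mem hζ0 z)
        ((Reg ζ).pow_mem (q_pow_mem ζ m) j), ev_zq hζ0, ev_pow (q_pow_mem ζ m), ev_q_pow]
    have e2 : sh (q ^ r) (q ^ m) (i + 1) * sh (q ^ ((m : ℤ) - r)) (q ^ m) (i + 1) *
        (q ^ m) ^ (i + 1) / (sh (q ^ m) (q ^ m) (i + 1)) ^ 2 - (1 - q ^ r) *
        ((q ^ m) ^ (i + 1) / (1 - (q ^ m) ^ (i + 1))) = (1 - q ^ r) *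
        (sh (q ^ r * q ^ m) (q ^ m) i * sh (q ^ ((m : ℤ) - r)) (q ^ m) (i + 1) *
        (q ^ m) ^ (i + 1) * ((sh (q ^ m) (q ^ m) (i + 1)) ^ 2)⁻¹ - (q ^ m) ^ (i + 1) *
        (1 - (q ^ m) ^ (i + 1))⁻¹) := by
      rw [sh_succ' (q ^ r)]; ring
    rw [e2]
    have hv4 : ev ζ ((sh (q ^ m) (q ^ m) (i + 1)) ^ 2) ≠ 0 := by
      rw [ev_pow m4]; exact pow_ne_zero _ (hQ _ (by omega))
    have hv5 : ev ζ (1 - (q ^ m) ^ (i + 1)) ≠ 0 := by rw [v5]; exact hne i hi'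
    have m4' := inv_mem ((Reg ζ).pow_mem m4 2) hv4
    have m5' := inv_mem m5 hv5
    refine mul_I (a := 1) (b := 1) hy (mem_I_one hp.pos hζ ((Reg ζ).sub_mem ((Reg ζ).mul_mem
      ((Reg ζ).mul_mem ((Reg ζ).mul_mem m1 m2) m3) m4') ((Reg ζ).mul_mem m3 m5')) ?_)
    rw [ev_sub ((Reg ζ).mul_mem ((Reg ζ).mul_mem ((Reg ζ).mul_mem m1 m2) m3) m4')
      ((Reg ζ).mul_mem m3 m5'), ev_mul ((Reg ζ).mul_mem ((Reg ζ).mul_mem m1 m2) m3) m4',
      ev_mul ((Reg ζ).mul_mem m1 m2) m3, ev_mul m1 m2, ev_mul m3 m5',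
      ev_inv ((Reg ζ).pow_mem m4 2) hv4, ev_inv m5 hv5, v3, v5, ev_pow m4]
    have e3 : q ^ r * q ^ m = q ^ (r + m) := by
      rw [← zpow_natCast q m, ← zpow_add₀ q_ne]
    rw [e3, vz, vz, vq]
    have e4 : ζ ^ (r + m) = ω := by rw [zpow_add₀ hζ0, hr1, one_mul, zpow_natCast]
    have e5 : ζ ^ ((m : ℤ) - r) = ω := by rw [zpow_sub₀ hζ0, hr1, div_one, zpow_natCast]
    rw [e4, e5]
    have hv4' : sh ω ω (i + 1) ≠ 0 := by rw [← vq]; exact hQ _ (by omega)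
    have h6 := hne i hi'
    have e6 : sh ω ω (i + 1) = sh ω ω i * (1 - ω ^ (i + 1)) := by rw [sh_succ, pow_succ']
    rw [e6] at hv4' ⊢
    have h7 := left_ne_zero_of_mul hv4'
    generalize sh ω ω i = κ at *
    generalize ω ^ (i + 1) = x at *
    generalize 1 - x = y at *
    field_simp
    ring
  -- the sum
  have e7 : Vr p m r = 1 + ∑ i ∈ range (p - 1), sh (q ^ r) (q ^ m) (i + 1) *
      sh (q ^ ((m : ℤ) - r)) (q ^ m) (i + 1) * (q ^ m) ^ (i + 1) /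
        (sh (q ^ m) (q ^ m) (i + 1)) ^ 2 := by
    unfold Vr V
    conv_lhs => rw [show p = (p - 1) + 1 by have := hp.pos; omega, sum_range_succ']
    simp [sh_zero]
    ring
  have h8 := (I (Reg ζ) (Φ p) 2).sum_mem hterm
  rw [sum_sub_distrib, ← mul_sum] at h8
  have h9 : ∑ i ∈ range (p - 1), (q ^ m) ^ (i + 1) / (1 - (q ^ m) ^ (i + 1)) + K ∈
      I (Reg ζ) (Φ p) 1 := by
    have m3 : ∀ i, (q ^ m) ^ (i + 1) ∈ Reg ζ := fun i => (Reg ζ).pow_mem (q_pow_mem ζ m) _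
    have m5 : ∀ i, 1 - (q ^ m) ^ (i + 1) ∈ Reg ζ := fun i =>
      (Reg ζ).sub_mem (Reg ζ).one_mem (m3 i)
    have v3 : ∀ i, ev ζ ((q ^ m) ^ (i + 1)) = ω ^ (i + 1) := fun i => by
      rw [ev_pow (q_pow_mem ζ m), ev_q_pow]
    have v5 : ∀ i, ev ζ (1 - (q ^ m) ^ (i + 1)) = 1 - ω ^ (i + 1) := fun i => by
      rw [ev_sub (Reg ζ).one_mem (m3 i), ev_one, v3]
    have hd : ∀ i ∈ range (p - 1), (q ^ m) ^ (i + 1) / (1 - (q ^ m) ^ (i + 1)) ∈ Reg ζ := by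
      intro i hi
      rw [div_eq_mul_inv]
      exact (Reg ζ).mul_mem (m3 i) (inv_mem (m5 i) (by rw [v5]; exact hne i (mem_range.1 hi)))
    apply mem_I_one hp.pos hζ ((Reg ζ).add_mem ((Reg ζ).sum_mem hd) (nat_O K))
    rw [ev_add ((Reg ζ).sum_mem hd) (nat_O K), ev_sum hd, ev_nat]
    have : ∑ i ∈ range (p - 1), ev ζ ((q ^ m) ^ (i + 1) / (1 - (q ^ m) ^ (i + 1))) =
        ∑ i ∈ range (p - 1), ω ^ (i + 1) / (1 - ω ^ (i + 1)) := by
      apply sum_congr rfl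
      intro i hi
      rw [ev_div (m3 i) (m5 i) (by rw [v5]; exact hne i (mem_range.1 hi)), v3, v5]
    rw [this, sum_root hp.one_lt hω, hKc']
    ring
  have h10 := mul_I hy h9
  have e8 : Vr p m r - q ^ (r * (K : ℤ)) =
      (∑ i ∈ range (p - 1), sh (q ^ r) (q ^ m) (i + 1) *
      sh (q ^ ((m : ℤ) - r)) (q ^ m) (i + 1) * (q ^ m) ^ (i + 1) /
        (sh (q ^ m) (q ^ m) (i + 1)) ^ 2 - (1 - q ^ r) * ∑ i ∈ range (p - 1),
          (q ^ m) ^ (i + 1) / (1 - (q ^ m) ^ (i + 1))) +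
      (1 - q ^ r) * (∑ i ∈ range (p - 1), (q ^ m) ^ (i + 1) / (1 - (q ^ m) ^ (i + 1)) + K) -
      (q ^ (r * (K : ℤ)) - 1 - K * -(1 - q ^ r)) := by
    rw [e7]; ring
  rw [e8]
  exact (I (Reg ζ) (Φ p) 2).sub_mem ((I (Reg ζ) (Φ p) 2).add_mem h8 h10) h1

/-- The exponent `-f`. -/
def ex (p m : ℕ) (r : ℤ) (N : ℕ) : ℤ :=
  m * (N * (N + 1) / 2 : ℕ) + (r + m * N) * (((p - 1) / 2 : ℕ) - N)

theorem Vr_val (hp : p.Prime) (hp2 : p ≠ 2) (hζ : IsPrimitiveRoot ζ p) {m : ℕ} (hm : ¬ p ∣ m)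
    (N : ℕ) (hN : N < p) : ∀ r : ℤ, (p : ℤ) ∣ r + m * N →
    Vr p m r - (-1) ^ N * q ^ ex p m r N ∈ I (Reg ζ) (Φ p) 2 := by
  have hζ0 : ζ ≠ 0 := hζ.ne_zero hp.ne_zero
  induction N with
  | zero =>
    intro r h
    have := Vr_base hp hp2 hζ hm (r := r) (by simpa using h)
    convert this using 2
    simp [ex]
  | succ N ih =>
    intro r h
    have h' : (p : ℤ) ∣ (r + m) + m * N := by
      have e : (r + m) + m * N = r + m * ((N + 1 : ℕ) : ℤ) := by push_cast; ring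
      rw [e]; exact h
    have h1 := ih (by omega) (r + m) h'
    have h2 := Vr_rec hp hζ hm (show N + 1 < p from hN) h'
    rw [show r + (m : ℤ) - m = r by ring, show (m : ℤ) - (r + m) = -r by ring] at h2
    have e1 : Vr p m r - (-1) ^ (N + 1) * q ^ ex p m r (N + 1) =
        (Vr p m r + q ^ (-r) * Vr p m (r + m)) -
          q ^ (-r) * (Vr p m (r + m) - (-1) ^ N * q ^ ex p m (r + m) N) := by
      have e2 : q ^ ex p m r (N + 1) = q ^ (-r) * q ^ ex p m (r + m) N := by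
        rw [← zpow_add₀ q_ne]
        congr 1
        unfold ex
        have e3 : (N + 1) * (N + 1 + 1) / 2 = N * (N + 1) / 2 + (N + 1) := by
          have : (N + 1) * (N + 1 + 1) = N * (N + 1) + (N + 1) * 2 := by ring
          rw [this, Nat.add_mul_div_right _ _ (by norm_num)]
        rw [e3]
        push_cast
        ring
      rw [e2, pow_succ]; ring
    rw [e1]
    exact (I (Reg ζ) (Φ p) 2).sub_mem h2 (mul_O (zq_mem hζ0 _) h1)

end value

section coefficients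

variable {K : Type*} [Field K]

theorem coeff_step (P : K[X]) (c : K) (i : ℕ) :
    (P * ((1 : K[X]) - C c * X)).coeff (i + 1) = P.coeff (i + 1) - P.coeff i * c := by
  rw [mul_sub, mul_one, coeff_sub, ← mul_assoc, coeff_mul_X, coeff_mul_C]

/-- coefficients of `(x; Q)_k` -/
theorem coeff_sh (Q : K) (k : ℕ) : ∀ j, j ≤ k →
    (∏ i ∈ range k, ((1 : K[X]) - C (Q ^ i) * X)).coeff j * (sh Q Q j * sh Q Q (k - j)) =
      (-1) ^ j * Q ^ (j.choose 2) * sh Q Q k := by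
  have hdeg : ∀ k j, k < j → (∏ i ∈ range k, ((1 : K[X]) - C (Q ^ i) * X)).coeff j = 0 := by
    intro k
    induction k with
    | zero =>
      intro j hj
      simp only [range_zero, prod_empty, coeff_one]
      rw [if_neg (by omega)]
    | succ k ih =>
      intro j hj
      obtain ⟨j, rfl⟩ : ∃ i, j = i + 1 := ⟨j - 1, by omega⟩
      rw [prod_range_succ, coeff_step, ih _ (by omega), ih _ (by omega)]
      ring
  induction k with
  | zero =>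
    intro j hj
    obtain rfl : j = 0 := by omega
    simp [sh]
  | succ k ih =>
    intro j hj
    rcases Nat.eq_zero_or_pos j with rfl | h0
    · have h1 := ih 0 (by omega)
      simp only [sh_zero, pow_zero, Nat.choose_zero_succ, mul_one, one_mul, Nat.sub_zero] at h1 ⊢
      rw [prod_range_succ, mul_sub, mul_one, coeff_sub, ← mul_assoc, mul_coeff_zero, coeff_X_zero,
        mul_zero, sub_zero]
      rw [sh_succ, ← mul_assoc, h1]
    · obtain ⟨i, rfl⟩ : ∃ i, j = i + 1 := ⟨j - 1, by omega⟩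
      rw [prod_range_succ, coeff_step]
      have h1 := ih i (by omega)
      have e1 : (i + 1).choose 2 = i.choose 2 + i := by
        rw [Nat.choose_succ_succ' i 1, Nat.choose_one_right]; ring
      rcases Nat.lt_or_ge i k with hik | hik
      · have h2 := ih (i + 1) (by omega)
        have e2 : k - i = (k - (i + 1)) + 1 := by omega
        have e3 : k + 1 - (i + 1) = (k - (i + 1)) + 1 := by omega
        rw [e2] at h1
        rw [e3, sh_succ Q Q k]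
        have e4 : sh Q Q (k - (i + 1) + 1) = sh Q Q (k - (i + 1)) * (1 - Q * Q ^ (k - (i + 1))) :=
          sh_succ _ _ _
        have e5 : sh Q Q (i + 1) = sh Q Q i * (1 - Q * Q ^ i) := sh_succ _ _ _
        rw [e1] at h2 ⊢
        rw [e4] at h1 ⊢
        rw [e5] at h2 ⊢
        have e6 : Q ^ k = Q ^ (k - (i + 1)) * (Q * Q ^ i) := by
          rw [← pow_succ', ← pow_add]; congr 1; omega
        have e7 : Q ^ (i.choose 2 + i) = Q ^ (i.choose 2) * Q ^ i := pow_add _ _ _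
        have e8 : (-1 : K) ^ (i + 1) = (-1) ^ i * (-1) := pow_succ _ _
        rw [e7, e8] at h2 ⊢
        rw [e6]
        generalize (∏ i ∈ range k, ((1 : K[X]) - C (Q ^ i) * X)).coeff (i + 1) = a at *
        generalize (∏ i ∈ range k, ((1 : K[X]) - C (Q ^ i) * X)).coeff i = b at *
        generalize sh Q Q i = s1 at *
        generalize sh Q Q (k - (i + 1)) = s2 at *
        generalize sh Q Q k = s3 at *
        generalize Q ^ (k - (i + 1)) = x at *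
        generalize Q ^ i = y at *
        linear_combination (1 - Q * x) * h2 - (x * (Q * y)) * (1 - Q * y) * h1
      · obtain rfl : i = k := by omega
        rw [hdeg i (i + 1) (by omega), e1]
        rw [Nat.sub_self] at h1 ⊢
        rw [sh_zero] at h1 ⊢
        rw [sh_succ, pow_add, pow_succ (-1 : K)]
        linear_combination (-(Q ^ i) * (1 - Q * Q ^ i)) * h1

/-- the coefficient `c_k` -/
def cc (A B Q : K) (k : ℕ) : K := sh A Q k * sh B Q k / (sh Q Q k) ^ 2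

theorem coeff_T {A B Q : K} {p j : ℕ} (hj : j < p) (hne : ∀ i, i < p → sh Q Q i ≠ 0) :
    (∑ k ∈ range p, C (cc A B Q k * Q ^ k) * ∏ i ∈ range k, ((1 : K[X]) - C (Q ^ i) * X)).coeff j =
      (-1) ^ j * Q ^ ((j + 1).choose 2) * cc A B Q j *
        W (A * Q ^ j) (B * Q ^ j) (Q ^ (j + 1)) Q (p - j) := by
  have hdeg : ∀ k j, k < j → (∏ i ∈ range k, ((1 : K[X]) - C (Q ^ i) * X)).coeff j = 0 := by
    intro k
    induction k with
    | zero =>
      intro j hj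
      simp only [range_zero, prod_empty, coeff_one]
      rw [if_neg (by omega)]
    | succ k ih =>
      intro j hj
      obtain ⟨j, rfl⟩ : ∃ i, j = i + 1 := ⟨j - 1, by omega⟩
      rw [prod_range_succ, coeff_step, ih _ (by omega), ih _ (by omega)]
      ring
  rw [finsetSum_coeff]
  obtain ⟨n, rfl⟩ : ∃ n, p = j + n := ⟨p - j, by omega⟩
  rw [sum_range_add, sum_eq_zero, zero_add, Nat.add_sub_cancel_left]
  · unfold W
    rw [mul_sum]
    apply sum_congr rfl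
    intro i hi
    have hi' := mem_range.1 hi
    have h1 := coeff_sh Q (j + i) j (by omega)
    rw [Nat.add_sub_cancel_left] at h1
    rw [coeff_C_mul]
    have n1 := hne i (by omega)
    have n2 := hne j (by omega)
    have n3 := hne (j + i) (by omega)
    have e1 : (j + 1).choose 2 = j.choose 2 + j := by
      rw [Nat.choose_succ_succ' j 1, Nat.choose_one_right]; ring
    have e2 : sh Q Q (j + i) = sh Q Q j * sh (Q ^ (j + 1)) Q i := by
      rw [sh_add, pow_succ']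
    have h2 : (∏ i ∈ range (j + i), ((1 : K[X]) - C (Q ^ i) * X)).coeff j =
        (-1) ^ j * Q ^ (j.choose 2) * sh Q Q (j + i) / (sh Q Q j * sh Q Q i) := by
      rw [eq_div_iff (mul_ne_zero n2 n1)]; exact h1
    rw [h2, e1]
    unfold cc
    rw [sh_add A, sh_add B, e2, pow_add Q j i, pow_add Q (j.choose 2) j]
    rw [e2] at n3
    have n4 := right_ne_zero_of_mul n3
    generalize sh A Q j = a1 at *
    generalize sh B Q j = b1 at *
    generalize sh (A * Q ^ j) Q i = a2 at *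
    generalize sh (B * Q ^ j) Q i = b2 at *
    generalize sh (Q ^ (j + 1)) Q i = c2 at *
    generalize sh Q Q j = s1 at *
    generalize sh Q Q i = s2 at *
    field_simp
  · intro k hk
    have := mem_range.1 hk
    rw [coeff_C_mul, hdeg k j (by omega), mul_zero]

end coefficients

section final

open Q278.Cyc

variable {p : ℕ} {ζ : ℂ}

theorem exists_res (hp : p.Prime) {m : ℕ} (hm : ¬ p ∣ m) (r : ℤ) :
    ∃ N, N < p ∧ (p : ℤ) ∣ r + m * N := by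
  have := Fact.mk hp
  have hm0 : (m : ZMod p) ≠ 0 := by
    intro h
    exact hm ((ZMod.natCast_eq_zero_iff _ _).1 h)
  refine ⟨(-(r : ZMod p) * (m : ZMod p)⁻¹).val, ZMod.val_lt _, ?_⟩
  rw [← ZMod.intCast_zmod_eq_zero_iff_dvd]
  push_cast
  rw [ZMod.natCast_zmod_val]
  field_simp
  ring

theorem cc_mem (hp : p.Prime) (hζ : IsPrimitiveRoot ζ p) {m : ℕ} (hm : ¬ p ∣ m) (z w : ℤ) {k : ℕ}
    (hk : k < p) : cc (q ^ z) (q ^ w) (q ^ m) k ∈ Reg ζ := by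
  have hζ0 : ζ ≠ 0 := hζ.ne_zero hp.ne_zero
  unfold cc
  rw [div_eq_mul_inv]
  refine (Reg ζ).mul_mem ((Reg ζ).mul_mem (sh_mem hζ0 _ _ _) (sh_mem hζ0 _ _ _))
    (inv_mem ((Reg ζ).pow_mem (shQ_mem m k) 2) ?_)
  rw [ev_pow (shQ_mem m k)]
  exact pow_ne_zero _ (ev_shQ_ne hp hζ hm hk)

theorem step_small (hp : p.Prime) (hζ : IsPrimitiveRoot ζ p) {m : ℕ} (hm : ¬ p ∣ m) (r : ℤ)
    {j : ℕ} (hj : j + 1 < p) :
    cc (q ^ r) (q ^ ((m : ℤ) - r)) (q ^ m) (j + 1) *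
      (W (q ^ r * (q ^ m) ^ (j + 1)) (q ^ ((m : ℤ) - r) * (q ^ m) ^ (j + 1))
        ((q ^ m) ^ (j + 2)) (q ^ m) (p - (j + 1)) +
      ((q ^ m) ^ (j + 1))⁻¹ * W (q ^ r * (q ^ m) ^ j) (q ^ ((m : ℤ) - r) * (q ^ m) ^ j)
        ((q ^ m) ^ (j + 1)) (q ^ m) (p - j)) ∈ I (Reg ζ) (Φ p) 2 := by
  have hζ0 : ζ ≠ 0 := hζ.ne_zero hp.ne_zero
  set Q := q ^ m with hQ
  have hQ0 : Q ≠ 0 := pow_ne_zero _ q_ne
  set A := q ^ r with hA
  set B := q ^ ((m : ℤ) - r) with hB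
  have hAB : A * B = Q := by
    rw [hA, hB, hQ, ← zpow_add₀ q_ne, ← zpow_natCast q m]; congr 1; ring
  obtain ⟨n, hn⟩ : ∃ n, p = j + n + 2 := ⟨p - j - 2, by omega⟩
  have h1 := W_rec (a := A * Q ^ j) (b := B * Q ^ j) (c := Q ^ (j + 1)) (Q := Q)
    (by rw [pow_succ]; linear_combination (-(Q ^ j) ^ 2 * Q) * hAB) (pow_ne_zero _ hQ0) n
    (fun i hi => ne_zero_of_ev (ev_shQ_ne hp hζ hm (by omega)))
    (fun i hi => ne_zero_of_ev (ev_sh_ne hp hζ hm (by omega)))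
  have e1 : A * Q ^ j * Q = A * Q ^ (j + 1) := by rw [pow_succ]; ring
  have e2 : B * Q ^ j * Q = B * Q ^ (j + 1) := by rw [pow_succ]; ring
  have e3 : Q ^ (j + 1) * Q = Q ^ (j + 2) := by rw [← pow_succ]
  rw [e1, e2, e3] at h1
  have e4 : p - (j + 1) = n + 1 := by omega
  have e5 : p - j = n + 2 := by omega
  rw [e4, e5, h1]
  have hAp : sh A Q p = sh A Q (j + 1) * (sh (A * Q ^ (j + 1)) Q n * (1 - A * Q ^ j * Q ^ (n + 1))) := by
    have e : A * Q ^ (j + 1) * Q ^ n = A * Q ^ j * Q ^ (n + 1) := by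
      rw [pow_succ, pow_succ]; ring
    rw [hn, show j + n + 2 = (j + 1) + (n + 1) by ring, sh_add A, sh_succ (A * Q ^ (j + 1)), e]
  have hBp : sh B Q p = sh B Q (j + 1) * (sh (B * Q ^ (j + 1)) Q n * (1 - B * Q ^ j * Q ^ (n + 1))) := by
    have e : B * Q ^ (j + 1) * Q ^ n = B * Q ^ j * Q ^ (n + 1) := by
      rw [pow_succ, pow_succ]; ring
    rw [hn, show j + n + 2 = (j + 1) + (n + 1) by ring, sh_add B, sh_succ (B * Q ^ (j + 1)), e]
  obtain ⟨N, hN, hdvd⟩ := exists_res hp hm r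
  obtain ⟨N', hN', hdvd'⟩ := exists_res hp hm ((m : ℤ) - r)
  have k1 : sh A Q p ∈ I (Reg ζ) (Φ p) 1 := sh_small hp hζ hN hdvd
  have k2 : sh B Q p ∈ I (Reg ζ) (Φ p) 1 := sh_small hp hζ hN' hdvd'
  have e6 : cc A B Q (j + 1) * (sh (A * Q ^ (j + 1)) Q n * sh (B * Q ^ (j + 1)) Q n *
      (1 - A * Q ^ j * Q ^ (n + 1)) * (1 - B * Q ^ j * Q ^ (n + 1)) /
        (Q ^ (j + 1) * (sh Q Q (n + 1) * sh (Q ^ (j + 1)) Q (n + 1)))) =
      ((sh Q Q (j + 1) ^ 2)⁻¹ * ((Q ^ (j + 1))⁻¹ * ((sh Q Q (n + 1))⁻¹ *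
        (sh (Q ^ (j + 1)) Q (n + 1))⁻¹))) * (sh A Q p * sh B Q p) := by
    rw [hAp, hBp]
    unfold cc
    rw [div_eq_mul_inv, div_eq_mul_inv, mul_inv, mul_inv]
    ring
  rw [e6]
  refine mul_O ((Reg ζ).mul_mem (inv_mem ((Reg ζ).pow_mem (shQ_mem m _) 2) ?_)
    ((Reg ζ).mul_mem ?_ ((Reg ζ).mul_mem (inv_mem (shQ_mem m _) (ev_shQ_ne hp hζ hm (by omega)))
      (inv_mem (sh_mem' m j _) (ev_sh_ne hp hζ hm (by omega)))))) (mul_I k1 k2)
  · rw [ev_pow (shQ_mem m _)]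
    exact pow_ne_zero _ (ev_shQ_ne hp hζ hm (by omega))
  · rw [hQ, ← pow_mul, ← inv_pow]
    exact qi_mem hζ0 _

/-- The coefficient identity modulo `[p]²`. -/
theorem coef_main (hp : p.Prime) (hp2 : p ≠ 2) (hζ : IsPrimitiveRoot ζ p) {m : ℕ} (hm : ¬ p ∣ m)
    {r : ℤ} {N : ℕ} (hN : N < p) (h : (p : ℤ) ∣ r + m * N) {j : ℕ} (hj : j < p) :
    cc (q ^ r) (q ^ ((m : ℤ) - r)) (q ^ m) j * (1 - ((-1) ^ N * q ^ (-ex p m r N)) *
      ((-1) ^ j * (q ^ m) ^ ((j + 1).choose 2) * W (q ^ r * (q ^ m) ^ j)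
        (q ^ ((m : ℤ) - r) * (q ^ m) ^ j) ((q ^ m) ^ (j + 1)) (q ^ m) (p - j))) ∈
      I (Reg ζ) (Φ p) 2 := by
  have hζ0 : ζ ≠ 0 := hζ.ne_zero hp.ne_zero
  have hneg : (-1 : RatFunc ℚ) ^ N ∈ Reg ζ :=
    (Reg ζ).pow_mem ((Reg ζ).neg_mem (Reg ζ).one_mem) _
  induction j with
  | zero =>
    have h1 := Vr_val hp hp2 hζ hm N hN r h
    have e1 : W (q ^ r * (q ^ m) ^ 0) (q ^ ((m : ℤ) - r) * (q ^ m) ^ 0) ((q ^ m) ^ (0 + 1))
        (q ^ m) (p - 0) = Vr p m r := by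
      unfold W Vr V
      simp only [pow_zero, mul_one, zero_add, pow_one, Nat.sub_zero]
      apply sum_congr rfl
      intro i _
      rw [← pow_two]
    rw [e1]
    have e2 : cc (q ^ r) (q ^ ((m : ℤ) - r)) (q ^ m) 0 = 1 := by simp [cc, sh_zero]
    have e3 : (-1 : RatFunc ℚ) ^ N * (-1) ^ N = 1 := by
      rw [← mul_pow]; simp
    have e4 : q ^ (-ex p m r N) * q ^ ex p m r N = 1 := by
      rw [← zpow_add₀ q_ne]; simp
    rw [e2]
    have e5 : 1 * (1 - ((-1) ^ N * q ^ (-ex p m r N)) * ((-1) ^ 0 * (q ^ m) ^ ((0 + 1).choose 2) *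
        Vr p m r)) = -((-1) ^ N * q ^ (-ex p m r N)) * (Vr p m r - (-1) ^ N * q ^ ex p m r N) := by
      have : (0 + 1).choose 2 = 0 := rfl
      rw [this, pow_zero, pow_zero]
      linear_combination (-(q ^ (-ex p m r N) * q ^ ex p m r N)) * e3 - e4
    rw [e5]
    exact mul_O ((Reg ζ).neg_mem ((Reg ζ).mul_mem hneg (zq_mem hζ0 _))) h1
  | succ j ih =>
    have ih := ih (by omega)
    have h1 := step_small hp hζ hm r hj
    have hu : ev ζ ((1 - (q ^ m) ^ (j + 1)) ^ 2) ≠ 0 := by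
      have : (1 - (q ^ m) ^ (j + 1)) = 1 - q ^ (m * (j + 1)) := by rw [← pow_mul]
      rw [this, ev_pow (one_sub_mem ζ _)]
      apply pow_ne_zero
      apply one_sub_ne hζ
      intro h
      rcases (Nat.Prime.dvd_mul hp).1 h with h | h
      · exact hm h
      · have := Nat.le_of_dvd (by omega) h
        omega
    have hum : (1 - (q ^ m) ^ (j + 1)) ^ 2 ∈ Reg ζ :=
      (Reg ζ).pow_mem ((Reg ζ).sub_mem (Reg ζ).one_mem ((Reg ζ).pow_mem (q_pow_mem ζ m) _)) 2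
    have hcc : cc (q ^ r) (q ^ ((m : ℤ) - r)) (q ^ m) (j + 1) =
        ((1 - q ^ r * (q ^ m) ^ j) * (1 - q ^ ((m : ℤ) - r) * (q ^ m) ^ j) *
          ((1 - (q ^ m) ^ (j + 1)) ^ 2)⁻¹) * cc (q ^ r) (q ^ ((m : ℤ) - r)) (q ^ m) j := by
      unfold cc
      rw [sh_succ, sh_succ, sh_succ, pow_succ' (q ^ m) j, mul_pow, div_eq_mul_inv, mul_inv]
      ring
    have e1 : (j + 1 + 1).choose 2 = (j + 1).choose 2 + (j + 1) := by
      rw [Nat.choose_succ_succ' (j + 1) 1, Nat.choose_one_right]; ring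
    have hQ0 : (q ^ m) ^ (j + 1) ≠ 0 := pow_ne_zero _ (pow_ne_zero _ q_ne)
    have e2 : cc (q ^ r) (q ^ ((m : ℤ) - r)) (q ^ m) (j + 1) *
        (1 - ((-1) ^ N * q ^ (-ex p m r N)) *
        ((-1) ^ (j + 1) * (q ^ m) ^ ((j + 1 + 1).choose 2) * W (q ^ r * (q ^ m) ^ (j + 1))
        (q ^ ((m : ℤ) - r) * (q ^ m) ^ (j + 1)) ((q ^ m) ^ (j + 1 + 1)) (q ^ m) (p - (j + 1)))) =
        ((1 - q ^ r * (q ^ m) ^ j) * (1 - q ^ ((m : ℤ) - r) * (q ^ m) ^ j) *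
          ((1 - (q ^ m) ^ (j + 1)) ^ 2)⁻¹) * (cc (q ^ r) (q ^ ((m : ℤ) - r)) (q ^ m) j *
        (1 - ((-1) ^ N * q ^ (-ex p m r N)) *
      ((-1) ^ j * (q ^ m) ^ ((j + 1).choose 2) * W (q ^ r * (q ^ m) ^ j)
        (q ^ ((m : ℤ) - r) * (q ^ m) ^ j) ((q ^ m) ^ (j + 1)) (q ^ m) (p - j)))) +
      (((-1) ^ N * q ^ (-ex p m r N)) * ((-1) ^ j * (q ^ m) ^ ((j + 1 + 1).choose 2))) *
      (cc (q ^ r) (q ^ ((m : ℤ) - r)) (q ^ m) (j + 1) *
      (W (q ^ r * (q ^ m) ^ (j + 1)) (q ^ ((m : ℤ) - r) * (q ^ m) ^ (j + 1))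
        ((q ^ m) ^ (j + 2)) (q ^ m) (p - (j + 1)) +
      ((q ^ m) ^ (j + 1))⁻¹ * W (q ^ r * (q ^ m) ^ j) (q ^ ((m : ℤ) - r) * (q ^ m) ^ j)
        ((q ^ m) ^ (j + 1)) (q ^ m) (p - j))) := by
      rw [← mul_assoc ((1 - q ^ r * (q ^ m) ^ j) * (1 - q ^ ((m : ℤ) - r) * (q ^ m) ^ j) *
          ((1 - (q ^ m) ^ (j + 1)) ^ 2)⁻¹), ← hcc, e1, pow_add (q ^ m)]
      rw [show j + 1 + 1 = j + 2 by ring, pow_succ (-1 : RatFunc ℚ) j]
      generalize W (q ^ r * (q ^ m) ^ (j + 1)) (q ^ ((m : ℤ) - r) * (q ^ m) ^ (j + 1))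
        ((q ^ m) ^ (j + 2)) (q ^ m) (p - (j + 1)) = w1
      generalize W (q ^ r * (q ^ m) ^ j) (q ^ ((m : ℤ) - r) * (q ^ m) ^ j)
        ((q ^ m) ^ (j + 1)) (q ^ m) (p - j) = w0
      generalize cc (q ^ r) (q ^ ((m : ℤ) - r)) (q ^ m) (j + 1) = c1
      generalize (q ^ m) ^ (j + 1) = y at *
      field_simp
      ring
    rw [e2]
    refine (I (Reg ζ) (Φ p) 2).add_mem (mul_O ?_ ih) (mul_O ?_ h1)
    · refine (Reg ζ).mul_mem ((Reg ζ).mul_mem ?_ ?_) (inv_mem hum hu)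
      · exact (Reg ζ).sub_mem (Reg ζ).one_mem ((Reg ζ).mul_mem (zq_mem hζ0 _)
          ((Reg ζ).pow_mem (q_pow_mem ζ m) j))
      · exact (Reg ζ).sub_mem (Reg ζ).one_mem ((Reg ζ).mul_mem (zq_mem hζ0 _)
          ((Reg ζ).pow_mem (q_pow_mem ζ m) j))
    · exact (Reg ζ).mul_mem ((Reg ζ).mul_mem hneg (zq_mem hζ0 _)) ((Reg ζ).mul_mem
        ((Reg ζ).pow_mem ((Reg ζ).neg_mem (Reg ζ).one_mem) _)
        ((Reg ζ).pow_mem (q_pow_mem ζ m) _))

/-- `1 - q ^ z` is divisible by `Φ_p ^ 2` only for `z = 0`. -/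
theorem sqfree (hp : p.Prime) (hζ : IsPrimitiveRoot ζ p) {z : ℤ}
    (h : 1 - q ^ z ∈ I (Reg ζ) (Φ p) 2) : z = 0 := by
  have hζ0 : ζ ≠ 0 := hζ.ne_zero hp.ne_zero
  have key : ∀ k : ℕ, 0 < k → ¬ (1 - q ^ k ∈ I (Reg ζ) (Φ p) 2) := by
    intro k hk h
    have h1 := (num_dvd hp.pos hζ h).1
    have e : (1 - q ^ k) = algebraMap ℚ[X] (RatFunc ℚ) (1 - X ^ k) := by
      simp [RatFunc.algebraMap_X]
    rw [e, RatFunc.num_algebraMap] at h1
    have h2 : Squarefree (X ^ k - 1 : ℚ[X]) := by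
      apply Separable.squarefree
      apply X_pow_sub_one_separable_iff.2
      exact_mod_cast hk.ne'
    have h3 : cyclotomic p ℚ * cyclotomic p ℚ ∣ X ^ k - 1 := by
      rw [← pow_two]
      have : (X ^ k - 1 : ℚ[X]) = -(1 - X ^ k) := by ring
      rw [this]
      exact (dvd_neg).2 h1
    exact (cyclotomic.irreducible_rat hp.pos).not_isUnit (h2 _ h3)
  obtain ⟨n, rfl | rfl⟩ := z.eq_nat_or_neg
  · rcases Nat.eq_zero_or_pos n with rfl | h0
    · rfl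
    · exfalso
      rw [zpow_natCast] at h
      exact key n h0 h
  · rcases Nat.eq_zero_or_pos n with rfl | h0
    · rfl
    · exfalso
      apply key n h0
      have e : 1 - q ^ n = -(q ^ n) * (1 - q ^ (-(n : ℤ))) := by
        rw [zpow_neg, zpow_natCast]
        have : q ^ n ≠ 0 := pow_ne_zero _ q_ne
        field_simp
        ring
      rw [e]
      exact mul_O ((Reg ζ).neg_mem (q_pow_mem ζ n)) h

end final

end Q278.Flip
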