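import Pool.Agent.Q278.Flip

set_option autoImplicit false

/-! The `q`-congruence with a sign and a power of `q`: the exponent is unique and explicit. -/

namespace Q278.Flip

open Finset Q278.Loc Polynomial Q278.Cyc

/-- `c_k` in the notation of the problems. -/
noncomputable def c (m r k : ℕ) : RatFunc ℚ := ∏ j ∈ range k,
  (1 - q ^ (r + j * m)) * (1 - q ^ ((m : ℤ) - r + j * m)) / (1 - q ^ ((j + 1) * m)) ^ 2

theorem c_eq (m r k : ℕ) : c m r k = cc (q ^ (r : ℤ)) (q ^ ((m : ℤ) - r)) (q ^ m) k := by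
  unfold c cc sh
  rw [prod_div_distrib, prod_mul_distrib, prod_pow]
  congr 1
  · congr 1
    · apply prod_congr rfl
      intro j _
      rw [zpow_natCast, ← pow_mul, ← pow_add, mul_comm j m]
    · apply prod_congr rfl
      intro j _
      rw [zfac, mul_comm (j : ℤ) m]
  · congr 1
    apply prod_congr rfl
    intro j _
    rw [← pow_mul, ← pow_add]
    congr 2
    ring

/-- the left side -/
noncomputable def SS (p m r : ℕ) : (RatFunc ℚ)[X] := ∑ k ∈ range p, C (c m r k) * X ^ k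

/-- the right side without the sign and the power of `q` -/
noncomputable def TT (p m r : ℕ) : (RatFunc ℚ)[X] :=
  ∑ k ∈ range p, C (c m r k * q ^ (m * k)) * ∏ j ∈ range k, (1 - C (q ^ (j * m)) * X)

theorem coeff_SS {p m r j : ℕ} (hj : j < p) : (SS p m r).coeff j = c m r j := by
  unfold SS
  rw [finsetSum_coeff]
  simp only [coeff_C_mul_X_pow]
  rw [sum_ite_eq (range p) j (fun k => c m r k), if_pos (mem_range.2 hj)]

theorem coeff_SS' {p m r j : ℕ} (hj : p ≤ j) : (SS p m r).coeff j = 0 := by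
  unfold SS
  rw [finsetSum_coeff]
  apply sum_eq_zero
  intro k hk
  have := mem_range.1 hk
  rw [coeff_C_mul_X_pow, if_neg (by omega)]

theorem deg_prod {K : Type*} [Field K] (Q : K) : ∀ k j, k < j →
    (∏ i ∈ range k, ((1 : K[X]) - C (Q ^ i) * X)).coeff j = 0 := by
  intro k
  induction k with
  | zero =>
    intro j hj
    simp only [range_zero, prod_empty, coeff_one]
    rw [if_neg (by omega)]
  | succ k ih =>
    intro j hj
    obtain ⟨j, rfl⟩ : ∃ i, j = i + 1 := ⟨j - 1, by omega⟩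
    rw [prod_range_succ, coeff_step, ih _ (by omega), ih _ (by omega)]
    ring

theorem TT_eq (p m r : ℕ) : TT p m r = ∑ k ∈ range p,
    C (cc (q ^ (r : ℤ)) (q ^ ((m : ℤ) - r)) (q ^ m) k * (q ^ m) ^ k) *
      ∏ i ∈ range k, ((1 : (RatFunc ℚ)[X]) - C ((q ^ m) ^ i) * X) := by
  unfold TT
  apply sum_congr rfl
  intro k _
  rw [c_eq, ← pow_mul q m k]
  congr 1
  apply prod_congr rfl
  intro i _
  rw [← pow_mul, mul_comm i m]

theorem coeff_TT' {p m r j : ℕ} (hj : p ≤ j) : (TT p m r).coeff j = 0 := by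
  rw [TT_eq, finsetSum_coeff]
  apply sum_eq_zero
  intro k hk
  have := mem_range.1 hk
  rw [coeff_C_mul, deg_prod _ k j (by omega), mul_zero]

/-- `[p]` as a polynomial -/
noncomputable def qp (p : ℕ) : ℚ[X] := ∑ i ∈ range p, X ^ i

/-- coefficientwise congruence modulo `[p]²` -/
def CongP (p : ℕ) (A B : (RatFunc ℚ)[X]) : Prop :=
  ∀ j, qp p ^ 2 ∣ RatFunc.num ((A - B).coeff j)

theorem main (p m r : ℕ) (hp : p.Prime) (hp2 : p ≠ 2) (hm : ¬ p ∣ m) {N : ℕ} (hN : N < p)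
    (h : (p : ℤ) ∣ r + m * N) (f : ℤ) :
    CongP p (SS p m r) (C ((-1) ^ N * q ^ f) * TT p m r) ↔ f = -ex p m r N := by
  have hζ := Complex.isPrimitiveRoot_exp p hp.ne_zero
  set ζ := Complex.exp (2 * Real.pi * Complex.I / p)
  have hζ0 : ζ ≠ 0 := hζ.ne_zero hp.ne_zero
  have hqp : qp p = cyclotomic p ℚ := by
    have := Fact.mk hp
    unfold qp; rw [cyclotomic_prime]
  have hne : ∀ i, i < p → sh (q ^ m) (q ^ m) i ≠ 0 := fun i hi =>
    ne_zero_of_ev (ev_shQ_ne hp hζ hm hi)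
  have hneg : (-1 : RatFunc ℚ) ^ N ∈ Reg ζ :=
    (Reg ζ).pow_mem ((Reg ζ).neg_mem (Reg ζ).one_mem) _
  have hsq : (-1 : RatFunc ℚ) ^ N * (-1) ^ N = 1 := by rw [← mul_pow]; simp
  have hcoef : ∀ (g : ℤ) (j : ℕ), j < p → ((SS p m r) - C ((-1) ^ N * q ^ g) * TT p m r).coeff j =
      cc (q ^ (r : ℤ)) (q ^ ((m : ℤ) - r)) (q ^ m) j * (1 - ((-1) ^ N * q ^ g) *
      ((-1) ^ j * (q ^ m) ^ ((j + 1).choose 2) * W (q ^ (r : ℤ) * (q ^ m) ^ j)
        (q ^ ((m : ℤ) - r) * (q ^ m) ^ j) ((q ^ m) ^ (j + 1)) (q ^ m) (p - j))) := by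
    intro g j hj
    rw [coeff_sub, coeff_C_mul, coeff_SS hj, TT_eq, coeff_T hj hne, c_eq]
    ring
  constructor
  · intro hc
    have h1 := coef_main hp hp2 hζ hm hN h (j := 0) hp.pos
    rw [← hcoef _ 0 hp.pos] at h1
    have h2 := hc 0
    rw [hqp] at h2
    have h0 : (0 : ℕ) < p := hp.pos
    -- the coefficient at zero for `f`
    have e0 : cc (q ^ (r : ℤ)) (q ^ ((m : ℤ) - r)) (q ^ m) 0 = 1 := by simp [cc, sh_zero]
    set Y := ((-1 : RatFunc ℚ) ^ 0 * (q ^ m) ^ ((0 + 1).choose 2) * W (q ^ (r : ℤ) * (q ^ m) ^ 0)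
        (q ^ ((m : ℤ) - r) * (q ^ m) ^ 0) ((q ^ m) ^ (0 + 1)) (q ^ m) (p - 0)) with hY
    have hx : 1 - ((-1) ^ N * q ^ f) * Y ∈ I (Reg ζ) (Φ p) 2 := by
      have e1 := hcoef f 0 h0
      rw [e0, one_mul] at e1
      rw [← hY] at e1
      rw [e1] at h2
      have h3 : 1 - ((-1) ^ N * q ^ f) * Y ∈ Reg ζ := by
        have e2 := hcoef (-ex p m r N) 0 h0
        rw [e0, one_mul] at e2
        rw [← hY] at e2
        rw [e2] at h1
        have hYm : Y ∈ Reg ζ := by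
          have h4 : 1 - (-1) ^ N * q ^ (-ex p m r N) * Y ∈ Reg ζ := toO (Φ_mem p ζ) h1
          have e3 : Y = ((-1) ^ N * q ^ (ex p m r N)) *
              (1 - (1 - (-1) ^ N * q ^ (-ex p m r N) * Y)) := by
            have e4 : q ^ (ex p m r N) * q ^ (-ex p m r N) = 1 := by
              rw [← zpow_add₀ q_ne]; simp
            linear_combination (-(q ^ (ex p m r N) * q ^ (-ex p m r N)) * Y) * hsq - Y * e4
          rw [e3]
          exact (Reg ζ).mul_mem ((Reg ζ).mul_mem hneg (zq_mem hζ0 _))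
            ((Reg ζ).sub_mem (Reg ζ).one_mem h4)
        exact (Reg ζ).sub_mem (Reg ζ).one_mem ((Reg ζ).mul_mem
          ((Reg ζ).mul_mem hneg (zq_mem hζ0 _)) hYm)
      obtain ⟨a, ha⟩ := h2
      refine ⟨algebraMap ℚ[X] (RatFunc ℚ) a / algebraMap ℚ[X] (RatFunc ℚ)
        (RatFunc.denom (1 - ((-1) ^ N * q ^ f) * Y)), div_mem h3, ?_⟩
      conv_lhs => rw [← RatFunc.num_div_denom (1 - ((-1) ^ N * q ^ f) * Y), ha, map_mul, map_pow]
      unfold Φ
      rw [mul_div_assoc]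
    rw [hcoef _ 0 h0, e0, one_mul, ← hY] at h1
    have h5 := (I (Reg ζ) (Φ p) 2).sub_mem (mul_O (zq_mem hζ0 (f - (-ex p m r N))) h1) hx
    have e6 : q ^ (f - (-ex p m r N)) * (1 - (-1) ^ N * q ^ (-ex p m r N) * Y) -
        (1 - ((-1) ^ N * q ^ f) * Y) = -(1 - q ^ (f - (-ex p m r N))) := by
      have e7 : q ^ (f - (-ex p m r N)) * q ^ (-ex p m r N) = q ^ f := by
        rw [← zpow_add₀ q_ne]; congr 1; ring
      linear_combination (-(-1) ^ N * Y) * e7
    rw [e6] at h5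
    have h6 := (I (Reg ζ) (Φ p) 2).neg_mem h5
    rw [neg_neg] at h6
    have h7 := sqfree hp hζ h6
    linarith
  · rintro rfl j
    rcases Nat.lt_or_ge j p with hj | hj
    · have h1 := coef_main hp hp2 hζ hm hN h hj
      rw [← hcoef _ j hj] at h1
      rw [hqp]
      exact (num_dvd hp.pos hζ h1).1
    · rw [coeff_sub, coeff_C_mul, coeff_SS' hj, coeff_TT' hj]
      simp

end Q278.Flip
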