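import Pool.Agent.Q278.KM
import Pool.Agent.Q278.CycCong
import Pool.Agent.Q278.BlkCyc

set_option autoImplicit false

/-! Sums with numerator parameters `q, q², …, q^d` in base `q ^ (d (d + 1) / 2)`. -/

namespace Q278.Four

open Finset Q278.Loc Q278.Unit Polynomial

section local_

variable {K : Type*} [Field K] {O : Subring K} {π : K} (hπ : π ∈ O)

include hπ

/-- powers of `U` to first order -/
theorem zpow_lin {u : K} (hu : U O u) (h1 : u - 1 ∈ I O π 1) (t : ℤ) :
    u ^ t - (1 + t * (u - 1)) ∈ I O π 2 := by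
  have key : ∀ m : ℕ, u ^ m - (1 + m * (u - 1)) ∈ I O π 2 := by
    intro m
    induction m with
    | zero => simp
    | succ m ih =>
      have h2 := mul_O hu.1 ih
      have h3 : (m : K) * (u - 1) ^ 2 ∈ I O π 2 := mul_O (nat_O m) (pow_I h1 2)
      have h4 := (I O π 2).add_mem h2 h3
      convert h4 using 1
      push_cast; ring
  rcases Int.eq_nat_or_neg t with ⟨m, rfl | rfl⟩
  · have := key m
    rw [zpow_natCast]
    exact_mod_cast this
  · have h2 := key m
    have hum := hu.pow m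
    have h3 := mul_O (O.neg_mem hum.2.1) h2
    have h4 : (m : K) * (u ^ m)⁻¹ * ((u - 1) * (u ^ m - 1)) ∈ I O π 2 := by
      apply mul_O (O.mul_mem (nat_O m) hum.2.1)
      have h5 : u ^ m - 1 ∈ I O π 1 := by
        have h6 := (I O π 1).add_mem (mono hπ (show 1 ≤ 2 by omega) h2) (mul_O (nat_O m) h1)
        convert h6 using 1
        ring
      exact mul_I h1 h5
    have h6 := (I O π 2).add_mem h3 h4
    rw [zpow_neg, zpow_natCast]
    convert h6 using 1
    have := hum.2.2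
    push_cast
    field_simp
    ring

/-- a function of `t` which is affine modulo `π²` -/
def Aff (O : Subring K) (π : K) (g : ℤ → K) : Prop :=
  (∀ t, g t ∈ O) ∧ ∃ D ∈ I O π 1, ∀ t : ℤ, g t - (g 0 + t * D) ∈ I O π 2

theorem Aff.mul {g g' : ℤ → K} (h : Aff O π g) (h' : Aff O π g') : Aff O π (fun t => g t * g' t) := by
  obtain ⟨h1, D, hD, h2⟩ := h
  obtain ⟨h1', D', hD', h2'⟩ := h'
  refine ⟨fun t => O.mul_mem (h1 t) (h1' t), g' 0 * D + g 0 * D',
    (I O π 1).add_mem (mul_O (h1' 0) hD) (mul_O (h1 0) hD'), fun t => ?_⟩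
  have tO : (t : K) ∈ O := intCast_mem O t
  have k1 := mul_O (h1' t) (h2 t)
  have k2 := mul_O (O.add_mem (h1 0) (O.mul_mem tO (toO hπ hD))) (h2' t)
  have k3 := mul_O (O.mul_mem tO tO) (mul_I hD hD')
  have k4 := (I O π 2).add_mem ((I O π 2).add_mem k1 k2) k3
  convert k4 using 1
  ring

omit hπ in
theorem Aff.const {c : K} (hc : c ∈ O) : Aff O π (fun _ => c) :=
  ⟨fun _ => hc, 0, (I O π 1).zero_mem, fun t => by simp⟩

theorem Aff.prod {ι : Type*} {s : Finset ι} {f : ι → ℤ → K} (h : ∀ i ∈ s, Aff O π (f i)) :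
    Aff O π (fun t => ∏ i ∈ s, f i t) := by
  classical
  induction s using Finset.induction_on with
  | empty => simp only [prod_empty]; exact Aff.const O.one_mem
  | insert a s ha ih =>
    simp only [prod_insert ha]
    exact (h a (mem_insert_self a s)).mul hπ (ih (fun i hi => h i (mem_insert_of_mem hi)))

theorem Aff.fac {u c : K} (hu : U O u) (h1 : u - 1 ∈ I O π 1) (hc : c ∈ O) :
    Aff O π (fun t => 1 - c * u ^ t) := by
  have hz : ∀ t : ℤ, u ^ t ∈ O := by
    intro t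
    rcases Int.eq_nat_or_neg t with ⟨m, rfl | rfl⟩
    · rw [zpow_natCast]; exact O.pow_mem hu.1 m
    · rw [zpow_neg, zpow_natCast]; exact (hu.pow m).2.1
  refine ⟨fun t => O.sub_mem O.one_mem (O.mul_mem hc (hz t)), -c * (u - 1),
    mul_O (O.neg_mem hc) h1, fun t => ?_⟩
  have h2 := mul_O (O.neg_mem hc) (zpow_lin hπ hu h1 t)
  convert h2 using 1
  simp only [zpow_zero]
  ring

/-- products of affine functions of independent variables -/
theorem multi (g : ℕ → ℤ → K) (d : ℕ) (hg : ∀ j < d, Aff O π (g j)) :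
    ∃ E : ℕ → K, (∀ j, E j ∈ I O π 1) ∧ ∀ t : ℕ → ℤ,
      ∏ j ∈ range d, g j (t j) - (∏ j ∈ range d, g j 0 + ∑ j ∈ range d, (t j : K) * E j) ∈
        I O π 2 := by
  induction d with
  | zero => exact ⟨fun _ => 0, fun _ => (I O π 1).zero_mem, fun t => by simp⟩
  | succ d ih =>
    obtain ⟨E, hE, h⟩ := ih (fun j hj => hg j (by omega))
    obtain ⟨hO, D, hD, hl⟩ := hg d (by omega)
    have hA : ∀ t : ℕ → ℤ, ∏ j ∈ range d, g j (t j) ∈ O := fun t =>
      O.prod_mem fun j hj => (hg j (by have := mem_range.1 hj; omega)).1 _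
    have hA0 : ∏ j ∈ range d, g j 0 ∈ O := hA (fun _ => 0)
    refine ⟨fun j => if j = d then (∏ j ∈ range d, g j 0) * D else g d 0 * E j, ?_, fun t => ?_⟩
    · intro j
      beta_reduce
      by_cases hj : j = d
      · rw [if_pos hj]; exact mul_O hA0 hD
      · rw [if_neg hj]; exact mul_O (hO 0) (hE j)
    · have e1 : ∑ j ∈ range (d + 1), (t j : K) * (if j = d then (∏ j ∈ range d, g j 0) * D
          else g d 0 * E j) = g d 0 * ∑ j ∈ range d, (t j : K) * E j +
            (t d : K) * ((∏ j ∈ range d, g j 0) * D) := by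
        rw [sum_range_succ, if_pos rfl, mul_sum]
        congr 1
        apply sum_congr rfl
        intro j hj
        rw [if_neg (by have := mem_range.1 hj; omega)]
        ring
      rw [e1, prod_range_succ, prod_range_succ]
      have hS : ∑ j ∈ range d, (t j : K) * E j ∈ I O π 1 :=
        AddSubgroup.sum_mem _ fun j _ => mul_O (intCast_mem O _) (hE j)
      have k1 := mul_O (hO (t d)) (h t)
      have k2 := mul_O (O.add_mem hA0 (toO hπ hS)) (hl (t d))
      have k3 := mul_O (intCast_mem O (t d)) (mul_I hS hD)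
      have k4 := (I O π 2).add_mem ((I O π 2).add_mem k1 k2) k3
      convert k4 using 1
      ring

end local_

section exact_

variable {K : Type*} [Field K] {Q : K}

/-- the ratio of two products as a polynomial on the lattice -/
theorem ratio_poly (hQ : Q ≠ 0) (h1 : ∀ i : ℕ, 0 < i → 1 - Q ^ i ≠ 0) (e : ℕ) :
    ∃ P : K[X], P.natDegree ≤ e ∧ ∀ k : ℕ,
      ∏ l ∈ range k, ((1 - Q ^ (e + 1) * Q ^ l) / (1 - Q ^ (l + 1))) =
        (Q ^ k) ^ e * P.eval (KM.lam 0 Q k) := by
  induction e with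
  | zero =>
    refine ⟨1, by simp, fun k => ?_⟩
    rw [pow_zero, one_mul, eval_one]
    apply prod_eq_one
    intro l _
    have := h1 (l + 1) (Nat.succ_pos l)
    rw [zero_add, pow_one, ← pow_succ', div_self this]
  | succ e ih =>
    obtain ⟨P, hP, h⟩ := ih
    have hn := h1 (e + 1) (Nat.succ_pos e)
    refine ⟨P * (C (1 - Q ^ (e + 1))⁻¹ * (X - C (Q ^ (e + 1)))), ?_, fun k => ?_⟩
    · refine natDegree_mul_le.trans (Nat.add_le_add hP ?_)
      refine (natDegree_C_mul_le _ _).trans ?_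
      rw [natDegree_X_sub_C]
    · have t1 : (1 - Q ^ (e + 1)) * ∏ l ∈ range k, (1 - Q ^ (e + 1 + 1) * Q ^ l) =
          (∏ l ∈ range k, (1 - Q ^ (e + 1) * Q ^ l)) * (1 - Q ^ (e + 1) * Q ^ k) := by
        rw [← prod_range_succ (fun l => 1 - Q ^ (e + 1) * Q ^ l), prod_range_succ', pow_zero,
          mul_one, mul_comm]
        congr 1
        apply prod_congr rfl
        intro l _
        ring
      have t2 : ∏ l ∈ range k, ((1 - Q ^ (e + 1 + 1) * Q ^ l) / (1 - Q ^ (l + 1))) =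
          (∏ l ∈ range k, ((1 - Q ^ (e + 1) * Q ^ l) / (1 - Q ^ (l + 1)))) *
            ((1 - Q ^ (e + 1) * Q ^ k) / (1 - Q ^ (e + 1))) := by
        rw [prod_div_distrib, prod_div_distrib]
        rw [div_mul_div_comm, ← t1, mul_comm (∏ l ∈ range k, (1 - Q ^ (l + 1))),
          mul_div_mul_left _ _ hn]
      rw [t2, h k, eval_mul, eval_mul, eval_C, eval_sub, eval_X, eval_C]
      have hk := pow_ne_zero k hQ
      have e3 : (1 - Q ^ (e + 1) * Q ^ k) = Q ^ k * (KM.lam 0 Q k - Q ^ (e + 1)) := by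
        unfold KM.lam
        field_simp
        ring
      rw [e3]
      ring

/-- the terminating factor -/
theorem ratio_neg (hQ : Q ≠ 0) (N k : ℕ) :
    ∏ l ∈ range k, ((1 - (Q ^ N)⁻¹ * Q ^ l) / (1 - Q ^ (l + 1))) =
      ((Q ^ k) ^ N)⁻¹ * KM.w 0 Q N k := by
  unfold KM.w
  have : ((Q ^ k) ^ N)⁻¹ = ∏ _l ∈ range k, (Q ^ N)⁻¹ := by
    rw [prod_const, card_range, inv_pow, ← pow_mul, ← pow_mul, mul_comm]
  rw [this, ← prod_mul_distrib]
  apply prod_congr rfl
  intro l _
  have hN := pow_ne_zero N hQ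
  rw [zero_mul, zero_mul, sub_zero, mul_one, one_mul, ← mul_div_assoc]
  congr 1
  field_simp

end exact_

section main_

open Q278.Cyc Q278.Blk

/-- the factors with shifted parameters -/
noncomputable def g (n m k j : ℕ) (t : ℤ) : RatFunc ℚ :=
  ∏ l ∈ range k, ((1 - q ^ (j + 1) * (q ^ m) ^ l * (q ^ n) ^ t) / (1 - (q ^ m) ^ (l + 1)))

/-- the sum with shifted parameters -/
noncomputable def F (n m d : ℕ) (t : ℕ → ℤ) : RatFunc ℚ :=
  ∑ k ∈ range n, (∏ j ∈ range d, g n m k j (t j)) * (q ^ m) ^ k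

theorem F_zero {n m d M : ℕ} (hd : 3 ≤ d) (hm : 2 * m = d * (d + 1)) (hM : n + 1 = m * M)
    (hn : 1 < n) {j0 : ℕ} (hj0 : j0 < d) :
    F n m d (fun j => if j = j0 then (j : ℤ) + 1 - m else (j : ℤ) + 1) = 0 := by
  have hm0 : 0 < m := by
    rcases Nat.eq_zero_or_pos m with h | h
    · rw [h] at hM; omega
    · exact h
  have hM0 : 0 < M := by
    rcases Nat.eq_zero_or_pos M with h | h
    · rw [h] at hM; omega
    · exact h
  have hjm : 2 * (j0 + 1) ≤ m := by nlinarith
  have hjM : (j0 + 1) * M ≤ n := by nlinarith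
  obtain ⟨N, hN⟩ := Nat.exists_eq_add_of_le hjM
  set Q : RatFunc ℚ := q ^ m with hQdef
  have hQ : Q ≠ 0 := pow_ne_zero _ q_ne
  have h1 : ∀ i : ℕ, 0 < i → 1 - Q ^ i ≠ 0 := by
    intro i hi
    rw [hQdef, ← pow_mul]
    exact one_sub_q_ne (Nat.mul_pos hm0 hi)
  -- the two kinds of factors
  have f1 : ∀ j, j ≠ j0 → ∀ k, g n m k j ((j : ℤ) + 1) = ∏ l ∈ range k,
      ((1 - Q ^ (((j + 1) * M - 1) + 1) * Q ^ l) / (1 - Q ^ (l + 1))) := by
    intro j _ k
    unfold g
    apply prod_congr rfl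
    intro l _
    congr 2
    rw [show ((j : ℤ) + 1) = ((j + 1 : ℕ) : ℤ) by push_cast; ring, zpow_natCast]
    have e : (j + 1) * M - 1 + 1 = (j + 1) * M := Nat.sub_add_cancel (Nat.mul_pos (Nat.succ_pos j) hM0)
    rw [e, hQdef, ← pow_mul, ← pow_mul, ← pow_mul, ← pow_add, ← pow_add, ← pow_add]
    congr 1
    have : m * ((j + 1) * M) = (j + 1) * (n + 1) := by rw [hM]; ring
    rw [this]; ring
  have f2 : ∀ k, g n m k j0 ((j0 : ℤ) + 1 - m) = ∏ l ∈ range k,
      ((1 - (Q ^ N)⁻¹ * Q ^ l) / (1 - Q ^ (l + 1))) := by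
    intro k
    unfold g
    apply prod_congr rfl
    intro l _
    have hqn : (q ^ n : RatFunc ℚ) ≠ 0 := pow_ne_zero _ q_ne
    have e1 : (q ^ n : RatFunc ℚ) ^ ((j0 : ℤ) + 1 - m) = (q ^ n) ^ (j0 + 1) / (q ^ n) ^ m := by
      rw [zpow_sub₀ hqn, zpow_natCast, show ((j0 : ℤ) + 1) = ((j0 + 1 : ℕ) : ℤ) by push_cast; ring,
        zpow_natCast]
    congr 2
    rw [e1]
    have hQN : Q ^ N ≠ 0 := pow_ne_zero _ hQ
    have hqm : (q ^ n : RatFunc ℚ) ^ m ≠ 0 := pow_ne_zero _ hqn
    have e2 : q ^ (j0 + 1) * (q ^ n) ^ (j0 + 1) * Q ^ N = (q ^ n : RatFunc ℚ) ^ m := by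
      rw [hQdef, ← pow_mul, ← pow_mul, ← pow_mul, ← pow_add, ← pow_add]
      congr 1
      have : m * n = (j0 + 1) * (m * M) + m * N := by
        have h7 : m * n = m * ((j0 + 1) * M + N) := by rw [← hN]
        rw [h7]; ring
      rw [mul_comm n m, this, ← hM]; ring
    field_simp
    linear_combination Q ^ l * e2
  -- the polynomials
  have hR : ∀ j, ∃ P : (RatFunc ℚ)[X], P.natDegree ≤ (j + 1) * M - 1 ∧ ∀ k : ℕ,
      ∏ l ∈ range k, ((1 - Q ^ (((j + 1) * M - 1) + 1) * Q ^ l) / (1 - Q ^ (l + 1))) =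
        (Q ^ k) ^ ((j + 1) * M - 1) * P.eval (KM.lam 0 Q k) := fun j => ratio_poly hQ h1 _
  choose P hPd hPe using hR
  set D := ∑ j ∈ (range d).erase j0, ((j + 1) * M - 1) with hD
  have hDN : D + (d - 2) = N := by
    have s1 : ∑ j ∈ range d, (j + 1) * M = m * M := by
      rw [← sum_mul]
      congr 1
      have : ∑ j ∈ range d, (j + 1) = ∑ j ∈ range (d + 1), j := by
        rw [sum_range_succ']; simp
      rw [this]
      have h2 := Finset.sum_range_id_mul_two (d + 1)
      rw [Nat.add_sub_cancel] at h2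
      nlinarith
    have s2 : (j0 + 1) * M + ∑ j ∈ (range d).erase j0, (j + 1) * M =
        ∑ j ∈ range d, (j + 1) * M :=
      Finset.add_sum_erase (range d) (fun j => (j + 1) * M) (mem_range.2 hj0)
    have s3 : D + ((range d).erase j0).card = ∑ j ∈ (range d).erase j0, (j + 1) * M := by
      rw [hD, card_eq_sum_ones, ← sum_add_distrib]
      apply sum_congr rfl
      intro j _
      exact Nat.sub_add_cancel (Nat.mul_pos (Nat.succ_pos j) hM0)
    rw [card_erase_of_mem (mem_range.2 hj0), card_range] at s3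
    rw [s1] at s2
    omega
  -- the summand
  have hterm : ∀ k, (∏ j ∈ range d, g n m k j (if j = j0 then (j : ℤ) + 1 - m else (j : ℤ) + 1)) *
      Q ^ k = (1 - 0 * Q ^ (2 * k)) * KM.w 0 Q N k *
        ((∏ j ∈ (range d).erase j0, P j) * X ^ (d - 3)).eval (KM.lam 0 Q k) := by
    intro k
    rw [← Finset.mul_prod_erase (range d) _ (mem_range.2 hj0), if_pos rfl, f2, ratio_neg hQ]
    have e1 : ∏ j ∈ (range d).erase j0, g n m k j (if j = j0 then (j : ℤ) + 1 - m else (j : ℤ) + 1) =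
        (Q ^ k) ^ D * ∏ j ∈ (range d).erase j0, (P j).eval (KM.lam 0 Q k) := by
      rw [hD, ← prod_pow_eq_pow_sum, ← prod_mul_distrib]
      apply prod_congr rfl
      intro j hj
      have hne := ne_of_mem_erase hj
      rw [if_neg hne, f1 j hne, hPe]
    rw [e1, eval_mul, eval_prod, eval_pow, eval_X]
    have hk := pow_ne_zero k hQ
    have e2 : (Q ^ k) ^ D * Q ^ k = (Q ^ k) ^ N * KM.lam 0 Q k ^ (d - 3) := by
      unfold KM.lam
      rw [zero_mul, add_zero, inv_pow, eq_mul_inv_iff_mul_eq₀ (pow_ne_zero _ hk), ← pow_succ,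
        ← pow_add]
      congr 1
      omega
    have hkN : (Q ^ k) ^ N ≠ 0 := pow_ne_zero _ hk
    rw [zero_mul, sub_zero, one_mul]
    have e3 : ((Q ^ k) ^ N)⁻¹ * KM.w 0 Q N k * ((Q ^ k) ^ D *
        ∏ j ∈ (range d).erase j0, (P j).eval (KM.lam 0 Q k)) * Q ^ k =
        ((Q ^ k) ^ N)⁻¹ * ((Q ^ k) ^ D * Q ^ k) * (KM.w 0 Q N k *
        ∏ j ∈ (range d).erase j0, (P j).eval (KM.lam 0 Q k)) := by ring
    rw [e3, e2, ← mul_assoc ((Q ^ k) ^ N)⁻¹, inv_mul_cancel₀ hkN]
    ring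
  have hNn : N + 1 ≤ n := by
    have : 0 < (j0 + 1) * M := Nat.mul_pos (Nat.succ_pos _) hM0
    omega
  unfold F
  obtain ⟨r, hr⟩ := Nat.exists_eq_add_of_le hNn
  rw [hr, sum_range_add]
  have z2 : ∑ x ∈ range r, (∏ j ∈ range d, g (N + 1 + r) m (N + 1 + x) j
      (if j = j0 then (j : ℤ) + 1 - m else (j : ℤ) + 1)) * (q ^ m) ^ (N + 1 + x) = 0 := by
    apply sum_eq_zero
    intro x _
    rw [← hr, ← hQdef, hterm]
    have : KM.w 0 Q N (N + 1 + x) = 0 := by
      unfold KM.w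
      apply prod_eq_zero (i := N) (mem_range.2 (by omega))
      rw [sub_self, mul_zero, zero_div]
    rw [this]; ring
  rw [z2, add_zero, ← hr]
  simp only [← hQdef]
  rw [sum_congr rfl (fun k _ => hterm k)]
  apply KM.vanish hQ
  · intro k _; exact h1 (k + 1) (Nat.succ_pos k)
  · intro k _; rw [zero_mul, sub_zero]; exact one_ne_zero
  · intro i hi h
    have e : Q ^ i - Q ^ N = Q ^ i * (1 - Q ^ (N - i)) := by
      rw [mul_sub, mul_one, ← pow_add]
      congr 2
      omega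
    rw [e] at h
    rcases mul_eq_zero.1 h with h | h
    · exact pow_ne_zero _ hQ h
    · exact h1 _ (by omega) h
  · have d1 : (∏ j ∈ (range d).erase j0, P j).natDegree ≤ D := by
      refine (natDegree_prod_le _ _).trans ?_
      rw [hD]
      exact sum_le_sum fun j _ => hPd j
    have d2 := natDegree_mul_le (p := ∏ j ∈ (range d).erase j0, P j)
      (q := (X : (RatFunc ℚ)[X]) ^ (d - 3))
    rw [natDegree_X_pow] at d2
    omega

/-- the congruence modulo `Φ_n(q)²` -/
theorem main {n m d M : ℕ} (hd : 3 ≤ d) (hm : 2 * m = d * (d + 1)) (hM : n + 1 = m * M)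
    (hn : 1 < n) {η : ℂ} (hη : IsPrimitiveRoot η n) : F n m d (fun _ => 0) ∈ I (Reg η) (Φ n) 2 := by
  have hn0 : 0 < n := by omega
  have hη0 : η ≠ 0 := hη.ne_zero (by omega)
  have hπ := Φ_mem n η
  have hm0 : 0 < m := by
    rcases Nat.eq_zero_or_pos m with h | h
    · rw [h] at hM; omega
    · exact h
  have hcop : Nat.Coprime n m := by
    have h1 : Nat.Coprime n (n + 1) := by simp
    rw [hM] at h1
    exact Nat.Coprime.coprime_mul_right_right h1
  have hU : U (Reg η) ((q : RatFunc ℚ) ^ n) := U_of_ev (q_pow_mem η n) (ev_q_ne hη0 n)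
  have hu1 : (q : RatFunc ℚ) ^ n - 1 ∈ I (Reg η) (Φ n) 1 := by
    rw [← neg_sub]
    apply (I (Reg η) (Φ n) 1).neg_mem
    apply mem_I_one hn0 hη (one_sub_mem η _)
    rw [ev_one_sub, hη.pow_eq_one, sub_self]
  have hA : ∀ k < n, ∀ j < d, Aff (Reg η) (Φ n) (g n m k j) := by
    intro k hk j _
    unfold g
    apply Aff.prod hπ
    intro l hl
    have hl' := mem_range.1 hl
    have hu2 : U (Reg η) (1 - ((q : RatFunc ℚ) ^ m) ^ (l + 1)) := by
      rw [← pow_mul]
      apply U_of_ev (one_sub_mem η _) (one_sub_ne hη _)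
      intro h
      have := hcop.dvd_of_dvd_mul_left h
      have := Nat.le_of_dvd (Nat.succ_pos l) this
      omega
    have h3 := (Aff.fac hπ hU hu1 (c := q ^ (j + 1) * (q ^ m) ^ l)
      ((Reg η).mul_mem (q_pow_mem η _) ((Reg η).pow_mem (q_pow_mem η m) l))).mul hπ
      (Aff.const (π := Φ n) hu2.2.1)
    simpa only [div_eq_mul_inv] using h3
  -- the affine structure of the sum
  have hE : ∃ E : ℕ → RatFunc ℚ, ∀ t : ℕ → ℤ, F n m d t - (F n m d (fun _ => 0) +
      ∑ j ∈ range d, (t j : RatFunc ℚ) * E j) ∈ I (Reg η) (Φ n) 2 := by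
    have h1 : ∀ k, ∃ E : ℕ → RatFunc ℚ, k < n → ∀ t : ℕ → ℤ,
        ∏ j ∈ range d, g n m k j (t j) - (∏ j ∈ range d, g n m k j 0 +
          ∑ j ∈ range d, (t j : RatFunc ℚ) * E j) ∈ I (Reg η) (Φ n) 2 := by
      intro k
      by_cases hk : k < n
      · obtain ⟨E, _, hE⟩ := multi hπ (g n m k) d (hA k hk)
        exact ⟨E, fun _ => hE⟩
      · exact ⟨0, fun h => absurd h hk⟩
    choose E hE using h1
    refine ⟨fun j => ∑ k ∈ range n, E k j * (q ^ m) ^ k, fun t => ?_⟩
    have e1 : F n m d t - (F n m d (fun _ => 0) + ∑ j ∈ range d, (t j : RatFunc ℚ) *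
        ∑ k ∈ range n, E k j * (q ^ m) ^ k) = ∑ k ∈ range n, (q ^ m) ^ k *
          (∏ j ∈ range d, g n m k j (t j) - (∏ j ∈ range d, g n m k j 0 +
          ∑ j ∈ range d, (t j : RatFunc ℚ) * E k j)) := by
      unfold F
      simp only [mul_sub, mul_add, sum_sub_distrib, sum_add_distrib, mul_sum]
      rw [sum_comm]
      congr 1
      · exact sum_congr rfl fun k _ => by ring
      · congr 1
        · exact sum_congr rfl fun k _ => by ring
        · exact sum_congr rfl fun k _ => sum_congr rfl fun j _ => by ring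
    rw [e1]
    refine AddSubgroup.sum_mem _ fun k hk => ?_
    exact mul_O ((Reg η).pow_mem (q_pow_mem η m) k) (hE k (mem_range.1 hk) t)
  obtain ⟨E, hE⟩ := hE
  -- the combination
  have h1 : ∑ i ∈ range d, ((i : RatFunc ℚ) + 1) * (F n m d (fun _ => 0) +
      ∑ j ∈ range d, ((if j = i then (j : ℤ) + 1 - m else (j : ℤ) + 1 : ℤ) : RatFunc ℚ) * E j) ∈
      I (Reg η) (Φ n) 2 := by
    refine AddSubgroup.sum_mem _ fun i hi => ?_
    have h2 := hE (fun j => if j = i then (j : ℤ) + 1 - m else (j : ℤ) + 1)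
    rw [F_zero hd hm hM hn (mem_range.1 hi), zero_sub] at h2
    have h3 : ((i : RatFunc ℚ) + 1) ∈ Reg η := by exact_mod_cast natCast_mem (Reg η) (i + 1)
    have h4 := mul_O h3 ((I (Reg η) (Φ n) 2).neg_mem h2)
    rw [neg_neg] at h4
    exact h4
  have hsum : ∑ i ∈ range d, ((i : RatFunc ℚ) + 1) = m := by
    have : ∑ j ∈ range d, (j + 1) = ∑ j ∈ range (d + 1), j := by
      rw [sum_range_succ']; simp
    have h2 := Finset.sum_range_id_mul_two (d + 1)
    rw [Nat.add_sub_cancel, ← this] at h2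
    have h3 : ∑ j ∈ range d, (j + 1) = m := by nlinarith
    exact_mod_cast congrArg (Nat.cast : ℕ → RatFunc ℚ) h3
  have h2 : ∑ i ∈ range d, ((i : RatFunc ℚ) + 1) * (F n m d (fun _ => 0) +
      ∑ j ∈ range d, ((if j = i then (j : ℤ) + 1 - m else (j : ℤ) + 1 : ℤ) : RatFunc ℚ) * E j) =
      m * F n m d (fun _ => 0) := by
    simp only [mul_add, sum_add_distrib]
    rw [← sum_mul, hsum]
    have h3 : ∑ i ∈ range d, ((i : RatFunc ℚ) + 1) *
        ∑ j ∈ range d, ((if j = i then (j : ℤ) + 1 - m else (j : ℤ) + 1 : ℤ) : RatFunc ℚ) * E j =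
        0 := by
      simp only [mul_sum]
      rw [sum_comm]
      apply sum_eq_zero
      intro j hj
      have e : ∀ i ∈ range d, ((i : RatFunc ℚ) + 1) *
          (((if j = i then (j : ℤ) + 1 - m else (j : ℤ) + 1 : ℤ) : RatFunc ℚ) * E j) =
          ((i : RatFunc ℚ) + 1) * (((j : RatFunc ℚ) + 1) * E j) -
            (if j = i then ((j : RatFunc ℚ) + 1) * m * E j else 0) := by
        intro i _
        by_cases h : j = i
        · rw [if_pos h, if_pos h, h]; push_cast; ring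
        · rw [if_neg h, if_neg h]; push_cast; ring
      rw [sum_congr rfl e, sum_sub_distrib, ← sum_mul, hsum, sum_ite_eq, if_pos hj]
      ring
    rw [h3, add_zero]
  rw [h2] at h1
  have hmU : ((m : RatFunc ℚ)) ≠ 0 := by exact_mod_cast hm0.ne'
  refine of_unit_mul hmU ?_ h1
  apply inv_mem (nat_O m)
  rw [ev_nat]
  exact_mod_cast hm0.ne'

end main_

end Q278.Four
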