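import Pool.Agent.Q37.GU.Stm
import Pool.Agent.Q37.GU.Basic

/-! JOB P13 of project GU (helper278). -/

set_option autoImplicit false

open CategoryTheory CategoryTheory.Limits AlgebraicGeometry Topology

namespace Q278.GU_P13

open Pool.Agent.Q37.GU Pool.Agent.W481

theorem p13 : S_P13 := by
  intro C _ _ _ v hv
  by_contra hu
  obtain ⟨M, hM, hvM⟩ := exists_max_ideal_of_mem_nonunits (mem_nonunits_iff.2 hu)
  letI : Field (C ⧸ M) := Ideal.Quotient.field M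
  haveI : Algebra.FiniteType ℂ (C ⧸ M) :=
    Algebra.FiniteType.of_surjective (Ideal.Quotient.mkₐ ℂ M) (Ideal.Quotient.mkₐ_surjective ℂ M)
  haveI : Module.Finite ℂ (C ⧸ M) := finite_of_finite_type_of_isJacobsonRing ℂ (C ⧸ M)
  haveI : Algebra.IsAlgebraic ℂ (C ⧸ M) := Algebra.IsAlgebraic.of_finite ℂ (C ⧸ M)
  let ψ : C →ₐ[ℂ] ℂ := (IsAlgClosed.lift : (C ⧸ M) →ₐ[ℂ] ℂ).comp (Ideal.Quotient.mkₐ ℂ M)
  apply hv (show Sp C from ψ)
  show ψ v = 0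
  show (IsAlgClosed.lift : (C ⧸ M) →ₐ[ℂ] ℂ) (Ideal.Quotient.mk M v) = 0
  rw [Ideal.Quotient.eq_zero_iff_mem.2 hvM, map_zero]

end Q278.GU_P13
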