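import Pool.Agent.Q37.GU.Stm
import Pool.Agent.Q37.GU.Basic

/-! JOB P8 of project GU (helper278). -/

set_option autoImplicit false

open CategoryTheory CategoryTheory.Limits AlgebraicGeometry Topology

namespace Q278.GU_P8

open Pool.Agent.Q37.GU Pool.Agent.W481

theorem p8 : S_P8 := by
  intro S1 S2 W Z P _ _ _ _ _ f hf δ p F hF m1 m2 c1 c2 hm1 hm2 hmm w0 w1 hp0 hp1 hF0 γ
  let k1 : C(S1, S1 × S2) := ⟨fun s => (s, c2), by fun_prop⟩
  let k2 : C(S2, S1 × S2) := ⟨fun s => (c1, s), by fun_prop⟩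
  let pf : C(S1 × S2, S1) := ⟨Prod.fst, continuous_fst⟩
  let ps : C(S1 × S2, S2) := ⟨Prod.snd, continuous_snd⟩
  let g : PH w0 w1 := Path.Homotopic.Quotient.mk γ
  let γp : PH (c1, c2) (c1, c2) := PHmap p hp0 hp1 g
  let γ₁ : PH c1 c1 := PHmap pf rfl rfl γp
  let γ₂ : PH c2 c2 := PHmap ps rfl rfl γp
  have hsplit : γp = (PHmap k1 rfl rfl γ₁).trans (PHmap k2 rfl rfl γ₂) := by
    have hh : IsHomeomorph fun t : S1 × S2 => (pf t, ps t) := (Homeomorph.refl (S1 × S2)).isHomeomorph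
    apply (PH_prod_bijective pf ps hh (c1, c2) (c1, c2)).1
    refine Prod.ext ?_ ?_
    · show PHmap pf rfl rfl γp = PHmap pf rfl rfl ((PHmap k1 rfl rfl γ₁).trans (PHmap k2 rfl rfl γ₂))
      rw [PHmap_trans pf (y' := c1) rfl rfl rfl, PHmap_comp k1 pf rfl rfl rfl rfl γ₁,
        PHmap_comp k2 pf rfl rfl rfl rfl γ₂]
      have e1 : PHmap (pf.comp k1) (x' := c1) (y' := c1) (by rfl) (by rfl) γ₁ = γ₁ :=
        PHmap_id γ₁
      have e2 : PHmap (pf.comp k2) (x' := c1) (y' := c1) (by rfl) (by rfl) γ₂ = .refl c1 :=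
        PHmap_const (pf.comp k2) (fun _ => rfl) γ₂
      rw [e1, e2]
      exact (PH_trans_refl γ₁).symm
    · show PHmap ps rfl rfl γp = PHmap ps rfl rfl ((PHmap k1 rfl rfl γ₁).trans (PHmap k2 rfl rfl γ₂))
      rw [PHmap_trans ps (y' := c2) rfl rfl rfl, PHmap_comp k1 ps rfl rfl rfl rfl γ₁,
        PHmap_comp k2 ps rfl rfl rfl rfl γ₂]
      have e1 : PHmap (ps.comp k2) (x' := c2) (y' := c2) (by rfl) (by rfl) γ₂ = γ₂ :=
        PHmap_id γ₂
      have e2 : PHmap (ps.comp k1) (x' := c2) (y' := c2) (by rfl) (by rfl) γ₁ = .refl c2 :=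
        PHmap_const (ps.comp k1) (fun _ => rfl) γ₁
      rw [e1, e2]
      exact (PH_refl_trans γ₂).symm
  have he : f (m1 c1) = δ (c1, c2) := hm1 c1
  have he₁ : f (F w1) = δ (c1, c2) := by rw [hF, hp1]
  let q₁ : PH (m1 c1) (F w1) := PHmap F hF0 rfl g
  let q₂ : PH (m1 c1) (m1 c1) := (PHmap m1 rfl rfl γ₁).trans (PHmap m2 hmm.symm hmm.symm γ₂)
  have h1 : PHmap f he he₁ q₁ = PHmap δ rfl rfl γp := by
    show PHmap f he he₁ (PHmap F hF0 rfl g) = PHmap δ rfl rfl (PHmap p hp0 hp1 g)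
    rw [PHmap_comp F f hF0 rfl he he₁ g, PHmap_comp p δ hp0 hp1 rfl rfl g]
    have : f.comp F = δ.comp p := by
      ext w
      exact hF w
    exact PHmap_congr this _ _ g
  have h2 : PHmap f he he q₂ = PHmap δ rfl rfl γp := by
    rw [hsplit]
    show PHmap f he he ((PHmap m1 rfl rfl γ₁).trans (PHmap m2 hmm.symm hmm.symm γ₂)) = _
    rw [PHmap_trans f he he he, PHmap_trans δ (y' := δ (c1, c2)) rfl rfl rfl]
    rw [PHmap_comp m1 f rfl rfl he he γ₁, PHmap_comp m2 f hmm.symm hmm.symm he he γ₂,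
      PHmap_comp k1 δ rfl rfl rfl rfl γ₁, PHmap_comp k2 δ rfl rfl rfl rfl γ₂]
    have a1 : f.comp m1 = δ.comp k1 := by
      ext s
      exact hm1 s
    have a2 : f.comp m2 = δ.comp k2 := by
      ext s
      exact hm2 s
    rw [PHmap_congr a1 _ _ γ₁, PHmap_congr a2 _ _ γ₂]
  have := PH_lift_unique f hf he he₁ he q₁ q₂ (h1.trans h2.symm)
  exact congrArg Sigma.fst this

end Q278.GU_P8
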