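import Mathlib

set_option autoImplicit false

/-! The exact evaluation of `∑ (4 k + 1) u_k ^ 4`. -/

namespace Q278.HA

open Finset

/-- `(1/2)_k / k!` -/
def u (k : ℕ) : ℚ := ∏ l ∈ range k, ((2 * (l : ℚ) + 1) / (2 * l + 2))

theorem u_succ (k : ℕ) : u (k + 1) = u k * ((2 * k + 1) / (2 * k + 2)) := by
  unfold u; rw [prod_range_succ]

theorem u_zero : u 0 = 1 := by simp [u]

theorem u_ne (k : ℕ) : u k ≠ 0 := by
  unfold u
  rw [prod_ne_zero_iff]
  intro i _
  positivity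

theorem u_eq (k : ℕ) : (∏ i ∈ range k, ((1 : ℚ) / 2 + i)) / k.factorial = u k := by
  induction k with
  | zero => simp [u]
  | succ k ih =>
    rw [u_succ, ← ih, prod_range_succ, Nat.factorial_succ]
    have : (k.factorial : ℚ) ≠ 0 := by exact_mod_cast Nat.factorial_ne_zero k
    push_cast
    field_simp
    ring

/-- the exact formula -/
theorem exactA (N : ℕ) : ∑ k ∈ range (N + 1), (4 * (k : ℚ) + 1) * u k ^ 4 =
    2 * (2 * N + 1) ^ 2 * u N ^ 2 * ∑ j ∈ range (N + 1),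
      u j * u (2 * N + 1 - j) / (2 * N + 1 - 2 * j) := by
  induction N with
  | zero =>
    simp [u]
  | succ N ih =>
    rw [sum_range_succ, ih]
    -- the difference of the two sums
    have key : (2 * (N : ℚ) + 3) ^ 2 * ∑ j ∈ range (N + 1 + 1),
        u j * u (2 * (N + 1) + 1 - j) / (2 * ((N : ℚ) + 1) + 1 - 2 * j) -
        4 * ((N : ℚ) + 1) ^ 2 * ∑ j ∈ range (N + 1),
          u j * u (2 * N + 1 - j) / (2 * N + 1 - 2 * j) =
        (4 * N + 5) / 2 * u (N + 1) ^ 2 := by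
      rw [sum_range_succ']
      have h0 : u (2 * (N + 1) + 1 - 0) = u (2 * N + 2) * ((4 * N + 5) / (4 * N + 6)) := by
        rw [show 2 * (N + 1) + 1 - 0 = (2 * N + 2) + 1 by omega, u_succ]
        push_cast
        congr 1
        congr 1 <;> ring
      have e : (2 * (N : ℚ) + 3) ^ 2 * ∑ j ∈ range (N + 1),
          u (j + 1) * u (2 * (N + 1) + 1 - (j + 1)) / (2 * ((N : ℚ) + 1) + 1 - 2 * ((j + 1 : ℕ) : ℚ)) -
          4 * ((N : ℚ) + 1) ^ 2 * ∑ j ∈ range (N + 1),
            u j * u (2 * N + 1 - j) / (2 * N + 1 - 2 * j) =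
          ∑ j ∈ range (N + 1), ((4 * N + 5) / 2 * (u (j + 1) * u (2 * N + 2 - (j + 1))) -
            (4 * N + 5) / 2 * (u j * u (2 * N + 2 - j))) := by
        rw [mul_sum, mul_sum, ← sum_sub_distrib]
        apply sum_congr rfl
        intro j hj
        have hj := mem_range.1 hj
        obtain ⟨d, rfl⟩ : ∃ d, N = j + d := ⟨N - j, by omega⟩
        have i1 : 2 * (j + d + 1) + 1 - (j + 1) = (j + 2 * d + 1) + 1 := by omega
        have i2 : 2 * (j + d) + 1 - j = j + 2 * d + 1 := by omega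
        have i3 : 2 * (j + d) + 2 - (j + 1) = j + 2 * d + 1 := by omega
        have i4 : 2 * (j + d) + 2 - j = (j + 2 * d + 1) + 1 := by omega
        rw [i1, i2, i3, i4, u_succ (j + 2 * d + 1), u_succ j]
        generalize u j = a
        generalize u (j + 2 * d + 1) = b
        push_cast
        have n1 : 2 * ((j : ℚ) + d + 1) + 1 - 2 * (j + 1) ≠ 0 := by
          have : 2 * ((j : ℚ) + d + 1) + 1 - 2 * (j + 1) = 2 * d + 1 := by ring
          rw [this]; positivity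
        have n2 : 2 * ((j : ℚ) + d) + 1 - 2 * j ≠ 0 := by
          have : 2 * ((j : ℚ) + d) + 1 - 2 * j = 2 * d + 1 := by ring
          rw [this]; positivity
        have e1 : 2 * ((j : ℚ) + d + 1) + 1 - 2 * (j + 1) = 2 * d + 1 := by ring
        have e2 : 2 * ((j : ℚ) + d) + 1 - 2 * j = 2 * d + 1 := by ring
        rw [e1, e2]
        have n3 : (2 * (d : ℚ) + 1) ≠ 0 := by positivity
        have n4 : (2 * (j : ℚ) + 2) ≠ 0 := by positivity
        have n5 : (2 * ((j : ℚ) + 2 * d + 1) + 2) ≠ 0 := by positivity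
        field_simp
        ring
      rw [h0]
      have s := sum_range_sub (fun j => (4 * (N : ℚ) + 5) / 2 * (u j * u (2 * N + 2 - j))) (N + 1)
      rw [s] at e
      rw [show 2 * N + 2 - (N + 1) = N + 1 by omega, show 2 * N + 2 - 0 = 2 * N + 2 by omega,
        u_zero] at e
      rw [u_zero, mul_add]
      have n6 : (4 * (N : ℚ) + 6) ≠ 0 := by positivity
      have n7 : (2 * (N : ℚ) + 3) ≠ 0 := by positivity
      have e3 : (2 * (N : ℚ) + 3) ^ 2 * (1 * (u (2 * N + 2) * ((4 * N + 5) / (4 * N + 6))) /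
          (2 * ((N : ℚ) + 1) + 1 - 2 * ((0 : ℕ) : ℚ))) = (4 * N + 5) / 2 * u (2 * N + 2) := by
        have : (2 * ((N : ℚ) + 1) + 1 - 2 * ((0 : ℕ) : ℚ)) = 2 * N + 3 := by push_cast; ring
        rw [this]
        field_simp
        ring
      rw [e3]
      linear_combination e
    have e4 : (2 * (N : ℚ) + 1) ^ 2 * u N ^ 2 = 4 * ((N : ℚ) + 1) ^ 2 * u (N + 1) ^ 2 := by
      rw [u_succ]
      have : (2 * (N : ℚ) + 2) ≠ 0 := by positivity
      field_simp
      ring
    push_cast at key ⊢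
    linear_combination (2 * ∑ j ∈ range (N + 1),
      u j * u (2 * N + 1 - j) / (2 * (N : ℚ) + 1 - 2 * j)) * e4 - 2 * u (N + 1) ^ 2 * key

/-! ### The product form -/

section

variable (N : ℕ)

/-- `n / m` -/
def x (m : ℕ) : ℚ := (2 * (N : ℚ) + 1) / m

theorem uN : u N ^ 2 = ∏ j ∈ range N, (1 - x N (j + 1) / 2) ^ 2 := by
  have h : u N = ∏ j ∈ range N, -(1 - x N (j + 1) / 2) := by
    have e1 : ∏ j ∈ range N, (2 * (j : ℚ) + 1) = ∏ j ∈ range N, (2 * (N : ℚ) - 1 - 2 * j) := by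
      rw [← prod_range_reflect]
      apply prod_congr rfl
      intro j hj
      have := mem_range.1 hj
      rw [show N - 1 - j = N - (j + 1) by omega, Nat.cast_sub (by omega)]
      push_cast
      ring
    unfold u
    rw [prod_div_distrib, e1, ← prod_div_distrib]
    apply prod_congr rfl
    intro j _
    unfold x
    push_cast
    field_simp
    ring
  rw [h, ← prod_pow]
  apply prod_congr rfl
  intro j _
  ring

theorem nmj {j : ℕ} (hj : j < N) : (1 : ℚ) - x N (j + 1) ≠ 0 := by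
  unfold x
  have h1 : ((j + 1 : ℕ) : ℚ) ≠ 0 := by positivity
  intro h
  rw [sub_eq_zero, eq_div_iff h1, one_mul] at h
  have h2 : j + 1 = 2 * N + 1 := by exact_mod_cast h
  omega

theorem un : 2 * u (2 * N + 1) = ∏ j ∈ range N, ((1 - x N (j + 1) ^ 2 / 4) / (1 - x N (j + 1))) := by
  have num : ∏ l ∈ range (2 * N + 1), (2 * (l : ℚ) + 1) = (2 * N + 1) *
      ∏ j ∈ range N, ((2 * (N : ℚ) + 1 - 2 * (j + 1)) * (2 * N + 1 + 2 * (j + 1))) := by
    rw [show 2 * N + 1 = N + (N + 1) by ring, prod_range_add, prod_range_succ', prod_mul_distrib]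
    rw [← prod_range_reflect]
    have e1 : ∏ j ∈ range N, (2 * ((N - 1 - j : ℕ) : ℚ) + 1) =
        ∏ j ∈ range N, (2 * (N : ℚ) + 1 - 2 * (j + 1)) := by
      apply prod_congr rfl
      intro j hj
      have := mem_range.1 hj
      rw [show N - 1 - j = N - (j + 1) by omega, Nat.cast_sub (by omega)]
      push_cast
      ring
    have e2 : ∏ j ∈ range N, (2 * ((N + (j + 1) : ℕ) : ℚ) + 1) =
        ∏ j ∈ range N, (2 * (N : ℚ) + 1 + 2 * (j + 1)) := by
      apply prod_congr rfl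
      intro j _
      push_cast
      ring
    rw [e1, e2]
    push_cast
    ring
  have den : ∏ l ∈ range (2 * N + 1), (2 * (l : ℚ) + 2) = 2 * (2 * N + 1) *
      ∏ j ∈ range N, (4 * ((j : ℚ) + 1) * (2 * N + 1 - (j + 1))) := by
    rw [prod_range_succ, show 2 * N = N + N by ring, prod_range_add, ← prod_range_reflect
      (fun j => (2 * ((N + j : ℕ) : ℚ) + 2)), ← prod_mul_distrib]
    have e1 : ∏ j ∈ range N, ((2 * (j : ℚ) + 2) * (2 * ((N + (N - 1 - j) : ℕ) : ℚ) + 2)) =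
        ∏ j ∈ range N, (4 * ((j : ℚ) + 1) * (2 * N + 1 - (j + 1))) := by
      apply prod_congr rfl
      intro j hj
      have := mem_range.1 hj
      rw [show N + (N - 1 - j) = 2 * N - (j + 1) by omega, Nat.cast_sub (by omega)]
      push_cast
      ring
    rw [e1]
    push_cast
    ring
  unfold u
  rw [prod_div_distrib, num, den]
  have n1 : (2 * (N : ℚ) + 1) ≠ 0 := by positivity
  have gen : ∀ c A B : ℚ, c ≠ 0 → 2 * (c * A / (2 * c * B)) = A / B := by
    intro c A B hc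
    rw [mul_assoc 2 c B, ← mul_div_assoc, mul_div_mul_left _ _ two_ne_zero,
      mul_div_mul_left _ _ hc]
  rw [gen _ _ _ n1, ← prod_div_distrib]
  apply prod_congr rfl
  intro j hj
  have h1 := nmj N (mem_range.1 hj)
  have h2 : (2 * (N : ℚ) + 1 - (j + 1)) ≠ 0 := by
    intro h
    apply h1
    unfold x
    push_cast
    rw [sub_eq_zero, eq_div_iff (by positivity)]
    linarith
  unfold x
  push_cast
  have e1 : 1 - (2 * (N : ℚ) + 1) / (j + 1) = -(2 * N + 1 - (j + 1)) / (j + 1) := by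
    field_simp
    ring
  rw [e1]
  generalize (j : ℚ) + 1 = y at *
  have hy : y ≠ 0 := by
    intro h0
    rw [h0] at e1
    simp at e1
  generalize 2 * (N : ℚ) + 1 = n at *
  field_simp
  ring

/-- the first product -/
def PA : ℚ := ∏ j ∈ range N, ((1 - x N (j + 1) / 2) ^ 2 *
  ((1 - x N (j + 1) ^ 2 / 4) / (1 - x N (j + 1))))

/-- the second product -/
def RA (j : ℕ) : ℚ := (∏ l ∈ range j, (1 - x N (l + 1))) *
  (∏ l ∈ range (j + 1), (1 - 2 * x N (2 * l + 1))⁻¹) * (1 - x N (j + 1) / 2)⁻¹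

theorem PA_eq : PA N = 2 * u N ^ 2 * u (2 * N + 1) := by
  unfold PA
  rw [prod_mul_distrib, ← uN, ← un]
  ring

theorem odd_ne (l : ℕ) : (1 : ℚ) - 2 * x N (2 * l + 1) ≠ 0 := by
  unfold x
  have h1 : ((2 * l + 1 : ℕ) : ℚ) ≠ 0 := by positivity
  intro h
  rw [sub_eq_zero, eq_comm, mul_div_assoc', div_eq_iff h1, one_mul] at h
  have h2 : 2 * (2 * N + 1) = 2 * l + 1 := by exact_mod_cast h
  omega

theorem half_ne (j : ℕ) : (1 : ℚ) - x N (j + 1) / 2 ≠ 0 := by
  unfold x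
  have h1 : ((j + 1 : ℕ) : ℚ) ≠ 0 := by positivity
  intro h
  rw [sub_eq_zero, eq_comm, div_div, div_eq_iff (by positivity), one_mul] at h
  have h2 : 2 * N + 1 = (j + 1) * 2 := by exact_mod_cast h
  omega

theorem rho (j : ℕ) (hj : j < N) : (2 * (N : ℚ) + 1) * (u (j + 1) * u (2 * N + 1 - (j + 1)) /
    (2 * N + 1 - 2 * ((j + 1 : ℕ) : ℚ))) = u (2 * N + 1) * (x N (j + 1) ^ 2 / 2 * RA N j) := by
  induction j with
  | zero =>
    have h1 := odd_ne N 0
    have h2 := half_ne N 0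
    unfold RA
    rw [show 2 * N + 1 = 2 * N + 1 by rfl, show 2 * N + 1 - (0 + 1) = 2 * N by omega, zero_add,
      show u 1 = 1 / 2 by simp [u], u_succ (2 * N), prod_range_zero, prod_range_one]
    rw [mul_zero, zero_add] at h1
    rw [zero_add] at h2
    rw [mul_zero, zero_add]
    unfold x at h1 h2 ⊢
    push_cast at h1 h2 ⊢
    rw [div_one] at h1 h2 ⊢
    have h3 : 2 * (N : ℚ) + 1 - 2 * 1 ≠ 0 := by
      intro h; apply h2; linarith
    have h4 : 2 * (2 * (N : ℚ)) + 2 ≠ 0 := by positivity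
    have h5 : 2 * (2 * (N : ℚ)) + 1 ≠ 0 := by positivity
    have h6 : (2 - (2 * (N : ℚ) + 1)) ≠ 0 := by
      intro h; apply h2; linarith
    have h7 : 1 - 2 * (2 * (N : ℚ) + 1) ≠ 0 := h1
    have e1 : (1 - 2 * (2 * (N : ℚ) + 1)) = -(2 * (2 * N) + 1) := by ring
    have e2 : (1 - (2 * (N : ℚ) + 1) / 2) = -(2 * N + 1 - 2 * 1) / 2 := by ring
    rw [e1, e2]
    field_simp
  | succ j ih =>
    have ih := ih (by omega)
    have r1 : RA N (j + 1) = RA N j * ((1 - x N (j + 1)) * (1 - 2 * x N (2 * (j + 1) + 1))⁻¹ *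
        (1 - x N (j + 1 + 1) / 2)⁻¹ * (1 - x N (j + 1) / 2)) := by
      unfold RA
      rw [prod_range_succ _ j, prod_range_succ _ (j + 1)]
      have := half_ne N j
      generalize 1 - x N (j + 1) / 2 = z at *
      generalize (1 - x N (j + 1 + 1) / 2)⁻¹ = z1
      generalize (1 - 2 * x N (2 * (j + 1) + 1))⁻¹ = z2
      rw [show ∀ a b c d e : ℚ, a * b * d⁻¹ * (c * e * z1 * d) = a * c * (b * e) * z1 * (d⁻¹ * d) by
        intros; ring, inv_mul_cancel₀ this, mul_one]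
    obtain ⟨d, hd⟩ : ∃ d, N = j + 1 + 1 + d := ⟨N - (j + 1 + 1), by omega⟩
    have i1 : 2 * N + 1 - (j + 1) = (j + 2 * d + 3) + 1 := by omega
    have i2 : 2 * N + 1 - (j + 1 + 1) = j + 2 * d + 3 := by omega
    rw [i1, u_succ (j + 2 * d + 3)] at ih
    rw [i2, u_succ (j + 1), r1]
    have h1 := odd_ne N (j + 1)
    have h2 := half_ne N j
    have h3 := half_ne N (j + 1)
    unfold x at h1 h2 h3 ih ⊢
    push_cast at h1 h2 h3 ih ⊢
    have hN : (N : ℚ) = j + 1 + 1 + d := by exact_mod_cast hd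
    rw [hN] at h1 h2 h3
    generalize u (2 * N + 1) = U at *
    generalize u (j + 1) = a at *
    generalize u (j + 2 * d + 3) = b at *
    generalize RA N j = R at *
    rw [hN] at ih ⊢
    have n1 : (2 * ((j : ℚ) + 1 + 1 + d) + 1) ≠ 0 := by positivity
    have n2 : ((j : ℚ) + 1) ≠ 0 := by positivity
    have n3 : ((j : ℚ) + 1 + 1) ≠ 0 := by positivity
    have n4 : (2 * ((j : ℚ) + 1) + 2) ≠ 0 := by positivity
    have n5 : (2 * ((j : ℚ) + 2 * d + 3) + 1) ≠ 0 := by positivity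
    have n6 : (2 * ((j : ℚ) + 2 * d + 3) + 2) ≠ 0 := by positivity
    have n7 : (2 * (d : ℚ) + 1) ≠ 0 := by positivity
    have n8 : (2 * (d : ℚ) + 3) ≠ 0 := by positivity
    have n9 : (2 * ((j : ℚ) + 1) + 1) ≠ 0 := by positivity
    have e1 : 2 * ((j : ℚ) + 1 + 1 + d) + 1 - 2 * (j + 1) = 2 * d + 3 := by ring
    have e2 : 2 * ((j : ℚ) + 1 + 1 + d) + 1 - 2 * (j + 1 + 1) = 2 * d + 1 := by ring
    rw [e1] at ih
    rw [e2]
    have e3 : 1 - 2 * ((2 * ((j : ℚ) + 1 + 1 + d) + 1) / (2 * (j + 1) + 1)) =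
        -(2 * (j + 2 * d + 3) + 1) / (2 * (j + 1) + 1) := by field_simp; ring
    have e4 : 1 - (2 * ((j : ℚ) + 1 + 1 + d) + 1) / (j + 1 + 1) / 2 =
        -(2 * d + 1) / (2 * (j + 1 + 1)) := by field_simp; ring
    have e5 : 1 - (2 * ((j : ℚ) + 1 + 1 + d) + 1) / (j + 1) / 2 =
        -(2 * d + 3) / (2 * (j + 1)) := by field_simp; ring
    have e6 : 1 - (2 * ((j : ℚ) + 1 + 1 + d) + 1) / (j + 1) =
        -(j + 2 * d + 4) / (j + 1) := by field_simp; ring
    rw [e3, e4, e5, e6]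
    have ih' : a * b = U * ((2 * ((j : ℚ) + 1 + 1 + d) + 1) / (j + 1) ^ 2 / 2 * R) *
        (2 * d + 3) * (2 * (j + 2 * d + 3) + 2) / (2 * (j + 2 * d + 3) + 1) := by
      field_simp at ih ⊢
      linear_combination ih
    rw [show a * ((2 * ((j : ℚ) + 1) + 1) / (2 * (j + 1) + 2)) * b = (a * b) *
      ((2 * ((j : ℚ) + 1) + 1) / (2 * (j + 1) + 2)) by ring, ih']
    field_simp
    ring

/-- the product form of the first sum -/
theorem prodA : ∑ k ∈ range (N + 1), (4 * (k : ℚ) + 1) * u k ^ 4 =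
    (2 * N + 1) * (PA N * (1 + ∑ j ∈ range N, x N (j + 1) ^ 2 / 2 * RA N j)) := by
  rw [exactA, sum_range_succ', u_zero, Nat.sub_zero, PA_eq]
  have e : (2 * (N : ℚ) + 1) * ∑ j ∈ range N, u (j + 1) * u (2 * N + 1 - (j + 1)) /
      (2 * N + 1 - 2 * ((j + 1 : ℕ) : ℚ)) =
      u (2 * N + 1) * ∑ j ∈ range N, x N (j + 1) ^ 2 / 2 * RA N j := by
    rw [mul_sum, mul_sum]
    exact sum_congr rfl (fun j hj => rho N j (mem_range.1 hj))
  have n1 : (2 * (N : ℚ) + 1) ≠ 0 := by positivity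
  have e2 : (2 * (N : ℚ) + 1) * (1 * u (2 * N + 1) / (2 * N + 1 - 2 * ((0 : ℕ) : ℚ))) =
      u (2 * N + 1) := by
    push_cast
    rw [mul_zero, sub_zero]
    field_simp
  linear_combination (2 * (2 * (N : ℚ) + 1) * u N ^ 2) * (e + e2)

end

end Q278.HA
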