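import Pool.Agent.Q278.HA

set_option autoImplicit false

/-! The exact evaluation of `∑ (3 k + 1) u_k ^ 3 4 ^ k`. -/

namespace Q278.HB

open Finset Q278.HA

/-- the coefficients of `(1 + z) (1 - z) ^ (-2M-1)` -/
noncomputable def g (M k : ℕ) : ℚ := PowerSeries.coeff k ((1 + PowerSeries.X) *
  (PowerSeries.mk fun k => ((2 * M + k).choose (2 * M) : ℚ)))

theorem g_zero (M : ℕ) : g M 0 = 1 := by
  unfold g
  rw [add_mul, one_mul, map_add, PowerSeries.coeff_mk]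
  simp

theorem g_succ (M k : ℕ) : g M (k + 1) = ((2 * M + (k + 1)).choose (2 * M) : ℚ) +
    ((2 * M + k).choose (2 * M) : ℚ) := by
  unfold g
  rw [add_mul, one_mul, map_add, PowerSeries.coeff_mk, PowerSeries.coeff_succ_X_mul,
    PowerSeries.coeff_mk]

/-- the closed form -/
theorem g_eq (M k : ℕ) (hM : 1 ≤ M) : (M : ℚ) * g M k = (M + k) * ((2 * M - 1 + k).choose (2 * M - 1) : ℚ) := by
  obtain ⟨a, rfl⟩ := Nat.exists_eq_add_of_le' hM
  rw [show 2 * (a + 1) - 1 = 2 * a + 1 by omega]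
  cases k with
  | zero => rw [g_zero]; simp
  | succ k =>
    rw [g_succ]
    have h1 := Nat.add_one_mul_choose_eq (2 * a + 1 + (k + 1)) (2 * a + 1)
    have h2 := Nat.choose_succ_right_eq (2 * a + 1 + (k + 1)) (2 * a + 1)
    have h3 : 2 * (a + 1) + (k + 1) = 2 * a + 1 + (k + 1) + 1 := by ring
    have h4 : 2 * (a + 1) + k = 2 * a + 1 + (k + 1) := by ring
    have h5 : 2 * (a + 1) = 2 * a + 1 + 1 := by ring
    rw [h3, h4, h5]
    rw [show 2 * a + 1 + (k + 1) - (2 * a + 1) = k + 1 by omega] at h2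
    have q1 : ((2 * a + 1 + (k + 1) : ℕ) + 1 : ℚ) * ((2 * a + 1 + (k + 1)).choose (2 * a + 1) : ℚ) =
      ((2 * a + 1 + (k + 1) + 1).choose (2 * a + 1 + 1) : ℚ) * ((2 * a + 1 : ℕ) + 1) := by
      exact_mod_cast h1
    have q2 : ((2 * a + 1 + (k + 1)).choose (2 * a + 1 + 1) : ℚ) * ((2 * a + 1 : ℕ) + 1) =
      ((2 * a + 1 + (k + 1)).choose (2 * a + 1) : ℚ) * (k + 1) := by
      exact_mod_cast h2
    push_cast at q1 q2 ⊢
    linear_combination -(1 / 2) * q1 + (1 / 2) * q2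

/-- the generating function identity -/
theorem gen (M : ℕ) : (1 - (PowerSeries.X : PowerSeries ℚ) ^ 2) ^ (2 * M + 1) *
    ((1 + PowerSeries.X) * (PowerSeries.mk fun k => ((2 * M + k).choose (2 * M) : ℚ))) =
    (1 + PowerSeries.X) ^ (2 * M + 2) := by
  have h := PowerSeries.mk_add_choose_mul_one_sub_pow_eq_one ℚ (2 * M)
  have e : (1 - (PowerSeries.X : PowerSeries ℚ) ^ 2) = (1 - PowerSeries.X) * (1 + PowerSeries.X) := by
    ring
  rw [e, mul_pow]
  calc _ = (1 + PowerSeries.X) ^ (2 * M + 2) * ((PowerSeries.mk fun k =>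
        ((2 * M + k).choose (2 * M) : ℚ)) * (1 - PowerSeries.X) ^ (2 * M + 1)) := by ring
    _ = _ := by rw [h, mul_one]

theorem gen_coeff (M : ℕ) : ∑ m ∈ range (2 * M + 2), (-1) ^ m * ((2 * M + 1).choose m : ℚ) *
    (if 2 * m ≤ M + 1 then g M (M + 1 - 2 * m) else 0) = ((2 * M + 2).choose (M + 1) : ℚ) := by
  have h := congrArg (PowerSeries.coeff (M + 1)) (gen M)
  have e1 : (1 - (PowerSeries.X : PowerSeries ℚ) ^ 2) ^ (2 * M + 1) =
      ∑ m ∈ range (2 * M + 2), PowerSeries.C ((-1) ^ m * ((2 * M + 1).choose m : ℚ)) *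
        PowerSeries.X ^ (2 * m) := by
    rw [sub_eq_add_neg, add_comm, add_pow]
    apply sum_congr rfl
    intro m _
    rw [one_pow, mul_one, map_mul, map_pow, map_neg, map_one, map_natCast, neg_pow, ← pow_mul]
    ring
  have e2 : (1 + (PowerSeries.X : PowerSeries ℚ)) ^ (2 * M + 2) =
      (((1 + Polynomial.X : Polynomial ℚ) ^ (2 * M + 2) : Polynomial ℚ) : PowerSeries ℚ) := by
    simp
  rw [e1, e2, Polynomial.coeff_coe, Polynomial.coeff_one_add_X_pow, sum_mul, map_sum] at h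
  rw [← h]
  apply sum_congr rfl
  intro m _
  rw [mul_assoc (PowerSeries.C _), PowerSeries.coeff_C_mul, PowerSeries.coeff_X_pow_mul']
  rfl

theorem gen_sum (M : ℕ) (hM : 1 ≤ M) : ∑ m ∈ range (M + 1), (-1) ^ m * ((2 * M + 1).choose m : ℚ) *
    (if 2 * m ≤ M + 1 then g M (M + 1 - 2 * m) else 0) = ((2 * M + 2).choose (M + 1) : ℚ) := by
  rw [← gen_coeff]
  conv_rhs => rw [show 2 * M + 2 = M + 1 + (M + 1) by ring, sum_range_add]
  have : ∑ x ∈ range (M + 1), (-1) ^ (M + 1 + x) * ((2 * M + 1).choose (M + 1 + x) : ℚ) *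
      (if 2 * (M + 1 + x) ≤ M + 1 then g M (M + 1 - 2 * (M + 1 + x)) else 0) = 0 := by
    apply sum_eq_zero
    intro x _
    rw [if_neg (by omega), mul_zero]
  rw [this, add_zero]

/-- the sum of the exact formula -/
def F (n : ℕ) : ℚ := ∑ m ∈ range (n + 1), (-1) ^ m * ((3 * n + 1 - 2 * m).choose (2 * n + 1) : ℚ) *
  ((2 * n + 1).choose m : ℚ) / (2 * n + 1 - 2 * m)

/-- `C (3M+1-2m, 2M+1)` -/
theorem ch_one (M m : ℕ) (hM : 1 ≤ M) (hm : m ≤ M) :
    (2 * (M : ℚ) + 1) * (2 * M) * ((3 * M + 1 - 2 * m).choose (2 * M + 1) : ℚ) =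
    (3 * M + 1 - 2 * m) * (M + 1 - 2 * m) * ((3 * M - 2 * m).choose (2 * M - 1) : ℚ) := by
  obtain ⟨a, rfl⟩ := Nat.exists_eq_add_of_le' hM
  rcases Nat.lt_or_ge (a + 1 + 1) (2 * m) with h | h
  · rw [Nat.choose_eq_zero_of_lt (show 3 * (a + 1) + 1 - 2 * m < 2 * (a + 1) + 1 by omega),
      Nat.choose_eq_zero_of_lt (show 3 * (a + 1) - 2 * m < 2 * (a + 1) - 1 by omega)]
    simp
  · obtain ⟨k, hk⟩ : ∃ k, a + 1 + 1 = 2 * m + k := ⟨a + 1 + 1 - 2 * m, by omega⟩
    have i1 : 3 * (a + 1) + 1 - 2 * m = 2 * a + 1 + k + 1 := by omega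
    have i2 : 3 * (a + 1) - 2 * m = 2 * a + 1 + k := by omega
    have i3 : 2 * (a + 1) - 1 = 2 * a + 1 := by omega
    have i4 : 2 * (a + 1) + 1 = 2 * a + 1 + 1 + 1 := by ring
    rw [i1, i2, i3, i4]
    have h1 := Nat.add_one_mul_choose_eq (2 * a + 1 + k) (2 * a + 1 + 1)
    have h2 := Nat.choose_succ_right_eq (2 * a + 1 + k) (2 * a + 1)
    rw [show 2 * a + 1 + k - (2 * a + 1) = k by omega] at h2
    have q1 : ((2 * a + 1 + k : ℕ) + 1 : ℚ) * ((2 * a + 1 + k).choose (2 * a + 1 + 1) : ℚ) =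
      ((2 * a + 1 + k + 1).choose (2 * a + 1 + 1 + 1) : ℚ) * ((2 * a + 1 + 1 : ℕ) + 1) := by
      exact_mod_cast h1
    have q2 : ((2 * a + 1 + k).choose (2 * a + 1 + 1) : ℚ) * ((2 * a + 1 : ℕ) + 1) =
      ((2 * a + 1 + k).choose (2 * a + 1) : ℚ) * k := by
      exact_mod_cast h2
    have q3 : (a : ℚ) + 1 + 1 = 2 * m + k := by exact_mod_cast hk
    have q4 : (k : ℚ) = a + 2 - 2 * m := by linarith
    rw [q4] at q2
    push_cast at q1 q2 ⊢
    rw [q4] at q1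
    linear_combination -(2 * ((a : ℚ) + 1)) * q1 + (2 * a + 1 + (a + 2 - 2 * m) + 1) * q2

/-- `C (2M-1, m-1)` -/
theorem ch_two (M m : ℕ) (hM : 1 ≤ M) (_ : m + 1 ≤ M) :
    (2 * (M : ℚ) + 1) * (2 * M) * ((2 * M - 1).choose m : ℚ) =
    (m + 1) * (2 * M - m) * ((2 * M + 1).choose (m + 1) : ℚ) := by
  obtain ⟨a, rfl⟩ := Nat.exists_eq_add_of_le' hM
  rw [show 2 * (a + 1) - 1 = 2 * a + 1 by omega, show 2 * (a + 1) + 1 = 2 * a + 1 + 1 + 1 by ring]
  have h1 := Nat.add_one_mul_choose_eq (2 * a + 1 + 1) m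
  have h2 := Nat.choose_mul_succ_eq (2 * a + 1) m
  have q1 : ((2 * a + 1 + 1 : ℕ) + 1 : ℚ) * ((2 * a + 1 + 1).choose m : ℚ) =
      ((2 * a + 1 + 1 + 1).choose (m + 1) : ℚ) * ((m : ℚ) + 1) := by
    exact_mod_cast h1
  have q2 : ((2 * a + 1).choose m : ℚ) * ((2 * a + 1 : ℕ) + 1) =
      ((2 * a + 1 + 1).choose m : ℚ) * (2 * a + 2 - m) := by
    have h3 : (((2 * a + 1).choose m * (2 * a + 1 + 1) : ℕ) : ℚ) =
      (((2 * a + 1 + 1).choose m * (2 * a + 1 + 1 - m) : ℕ) : ℚ) := by rw [h2]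
    push_cast [Nat.cast_sub (show m ≤ 2 * a + 1 + 1 by omega)] at h3 ⊢
    linear_combination h3
  push_cast at q1 q2 ⊢
  linear_combination (2 * (a : ℚ) + 3) * q2 + (2 * (a : ℚ) + 2 - m) * q1

/-- the value of the generating coefficient -/
theorem g_val (M m : ℕ) (hM : 1 ≤ M) (_ : m ≤ M) :
    (M : ℚ) * (if 2 * m ≤ M + 1 then g M (M + 1 - 2 * m) else 0) =
    (2 * M + 1 - 2 * m) * ((3 * M - 2 * m).choose (2 * M - 1) : ℚ) := by
  split_ifs with h
  · rw [g_eq M _ hM, show 2 * M - 1 + (M + 1 - 2 * m) = 3 * M - 2 * m by omega, Nat.cast_sub h]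
    push_cast
    ring
  · rw [Nat.choose_eq_zero_of_lt (show 3 * M - 2 * m < 2 * M - 1 by omega)]
    simp

theorem odd_ne (M m : ℕ) : (2 * (M : ℚ) + 1 - 2 * m) ≠ 0 := by
  intro h
  have h1 : (2 * (M : ℚ) + 1) = 2 * m := by linarith
  have h2 : 2 * M + 1 = 2 * m := by exact_mod_cast h1
  omega

theorem F_step (n : ℕ) : (2 * (n : ℚ) + 3) ^ 2 * F (n + 1) - 4 * (n + 1) ^ 2 * F n =
    (3 * n + 4) * ((n + 1).centralBinom : ℚ) := by
  set M := n + 1 with hM
  have hM1 : 1 ≤ M := by omega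
  have hMq : (M : ℚ) = n + 1 := by rw [hM]; push_cast; ring
  have hMne : (M : ℚ) ≠ 0 := by rw [hMq]; positivity
  have h21 : (2 * (M : ℚ) + 1) ≠ 0 := by positivity
  have S := gen_sum M hM1
  have e1 : ∑ m ∈ range (M + 1), (3 * (M : ℚ) + 1) * (M + 1) / (2 * (2 * M + 1)) *
      ((-1) ^ m * ((2 * M + 1).choose m : ℚ) * (if 2 * m ≤ M + 1 then g M (M + 1 - 2 * m) else 0)) =
      (2 * (n : ℚ) + 3) ^ 2 * F M - 4 * (n + 1) ^ 2 * F n := by
    unfold F
    rw [← hM, mul_sum, mul_sum, sum_range_succ' _ M, sum_range_succ' _ M, add_sub_right_comm,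
      ← sum_sub_distrib]
    congr 1
    · apply sum_congr rfl
      intro m hm
      have hm := mem_range.1 hm
      have G := g_val M (m + 1) hM1 (by omega)
      have C1 := ch_one M (m + 1) hM1 (by omega)
      have C2 := ch_two M m hM1 (by omega)
      have i1 : 3 * n + 1 - 2 * m = 3 * M - 2 * (m + 1) := by omega
      have i2 : 2 * n + 1 = 2 * M - 1 := by omega
      rw [i1, i2]
      have n1 := odd_ne M (m + 1)
      have e2 : (2 * (n : ℚ) + 1 - 2 * m) = 2 * M + 1 - 2 * ((m + 1 : ℕ) : ℚ) := by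
        rw [hMq]; push_cast; ring
      rw [e2]
      have hn : (n : ℚ) = M - 1 := by rw [hMq]; ring
      rw [hn]
      generalize (if 2 * (m + 1) ≤ M + 1 then g M (M + 1 - 2 * (m + 1)) else 0) = G0 at *
      generalize ((3 * M - 2 * (m + 1)).choose (2 * M - 1) : ℚ) = A at *
      generalize ((3 * M + 1 - 2 * (m + 1)).choose (2 * M + 1) : ℚ) = B at *
      generalize ((2 * M + 1).choose (m + 1) : ℚ) = C at *
      generalize ((2 * M - 1).choose m : ℚ) = D at *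
      have hG : G0 = (2 * M + 1 - 2 * ((m + 1 : ℕ) : ℚ)) * A / M := by
        field_simp; linear_combination G
      have hB : B = (3 * M + 1 - 2 * ((m + 1 : ℕ) : ℚ)) * (M + 1 - 2 * ((m + 1 : ℕ) : ℚ)) * A /
          ((2 * (M : ℚ) + 1) * (2 * M)) := by
        field_simp; linear_combination C1
      have hD : D = ((m : ℚ) + 1) * (2 * M - m) * C / ((2 * (M : ℚ) + 1) * (2 * M)) := by
        field_simp; linear_combination C2
      rw [hG, hB, hD, pow_succ (-1 : ℚ)]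
      push_cast at n1 ⊢
      generalize (-1 : ℚ) ^ m = s
      obtain ⟨d, hd⟩ : ∃ d, d = 2 * (M : ℚ) + 1 - 2 * (m + 1) := ⟨_, rfl⟩
      have hm' : (m : ℚ) = (2 * M - 1 - d) / 2 := by linarith
      rw [← hd] at n1 ⊢
      rw [hm']
      field_simp
      ring
    · have G := g_val M 0 hM1 (by omega)
      have C1 := ch_one M 0 hM1 (by omega)
      generalize (if 2 * 0 ≤ M + 1 then g M (M + 1 - 2 * 0) else 0) = G0 at *
      generalize ((3 * M - 2 * 0).choose (2 * M - 1) : ℚ) = A at *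
      generalize ((3 * M + 1 - 2 * 0).choose (2 * M + 1) : ℚ) = B at *
      have hG : G0 = (2 * M + 1 - 2 * ((0 : ℕ) : ℚ)) * A / M := by
        field_simp; linear_combination G
      have hB : B = (3 * M + 1 - 2 * ((0 : ℕ) : ℚ)) * (M + 1 - 2 * ((0 : ℕ) : ℚ)) * A /
          ((2 * (M : ℚ) + 1) * (2 * M)) := by
        field_simp; linear_combination C1
      rw [hG, hB, Nat.choose_zero_right]
      have hn : (n : ℚ) = M - 1 := by rw [hMq]; ring
      rw [hn]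
      simp only [Nat.cast_zero, mul_zero, sub_zero, pow_zero]
      field_simp
      ring
  rw [← e1, ← mul_sum, S]
  have h1 := Nat.succ_mul_centralBinom_succ M
  have h2 : ((M : ℚ) + 1) * ((2 * M + 2).choose (M + 1) : ℚ) = 2 * (2 * M + 1) *
      (M.centralBinom : ℚ) := by
    rw [Nat.centralBinom_eq_two_mul_choose (M + 1), show 2 * (M + 1) = 2 * M + 2 by ring] at h1
    exact_mod_cast h1
  have h3 : (3 * (M : ℚ) + 1) * (M + 1) / (2 * (2 * M + 1)) * ((2 * M + 2).choose (M + 1) : ℚ) =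
      (3 * M + 1) / (2 * (2 * M + 1)) * ((M + 1) * ((2 * M + 2).choose (M + 1) : ℚ)) := by ring
  rw [h3, h2]
  have hn : (3 * (n : ℚ) + 4) = 3 * M + 1 := by rw [hMq]; ring
  rw [hn]
  field_simp

theorem u_cb (k : ℕ) : u k * 4 ^ k = (k.centralBinom : ℚ) := by
  induction k with
  | zero => simp [u]
  | succ k ih =>
    have h1 : ((k : ℚ) + 1) * ((k + 1).centralBinom : ℚ) = 2 * (2 * k + 1) * (k.centralBinom : ℚ) := by
      exact_mod_cast Nat.succ_mul_centralBinom_succ k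
    have h2 : ((k : ℚ) + 1) ≠ 0 := by positivity
    apply mul_left_cancel₀ h2
    rw [h1, ← ih, u_succ, pow_succ]
    have : (2 * (k : ℚ) + 2) ≠ 0 := by positivity
    field_simp
    ring

/-- the exact formula -/
theorem exactB (n : ℕ) : ∑ k ∈ range (n + 1), (3 * (k : ℚ) + 1) * u k ^ 3 * 4 ^ k =
    4 * (n + 1) ^ 2 * u (n + 1) ^ 2 * F n := by
  induction n with
  | zero =>
    simp [u, F]
    norm_num
  | succ n ih =>
    rw [sum_range_succ, ih]
    have h := F_step n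
    have h1 := u_cb (n + 1)
    rw [← h1] at h
    have e : 4 * ((n : ℚ) + 1 + 1) ^ 2 * u (n + 1 + 1) ^ 2 = (2 * n + 3) ^ 2 * u (n + 1) ^ 2 := by
      rw [u_succ (n + 1)]
      push_cast
      have : (2 * ((n : ℚ) + 1) + 2) ≠ 0 := by positivity
      field_simp
      ring
    push_cast
    rw [e]
    linear_combination -(u (n + 1)) ^ 2 * h

end Q278.HB
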