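import Pool.Agent.Q278.HB

set_option autoImplicit false

/-! The product form of the second sum. -/

namespace Q278.HB

open Finset Q278.HA

theorem choose_prod (a K : ℕ) : (-1) ^ K * (a.choose K : ℚ) =
    ∏ j ∈ range K, (1 - ((a : ℚ) + 1) / ((j + 1 : ℕ) : ℚ)) := by
  induction K with
  | zero => simp
  | succ K ih =>
    rw [prod_range_succ, ← ih]
    have h : (a.choose (K + 1) : ℚ) * (K + 1) = (a.choose K : ℚ) * (a - K) := by
      have h1 := Nat.choose_succ_right_eq a K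
      rcases Nat.lt_or_ge a K with h | h
      · rw [Nat.choose_eq_zero_of_lt h, Nat.choose_eq_zero_of_lt (by omega)]
        simp
      · have h2 : ((a.choose (K + 1) * (K + 1) : ℕ) : ℚ) = ((a.choose K * (a - K) : ℕ) : ℚ) := by
          rw [h1]
        push_cast [Nat.cast_sub h] at h2
        exact h2
    have n1 : ((K : ℚ) + 1) ≠ 0 := by positivity
    push_cast
    rw [pow_succ]
    generalize (-1 : ℚ) ^ K = s
    field_simp
    linear_combination -s * h

variable (N : ℕ)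

/-- the first product -/
def PB : ℚ := ∏ j ∈ range N, ((1 - 2 * x N (j + 1)) *
  ((1 - x N (j + 1) ^ 2 / 4) / (1 - x N (j + 1))) ^ 2)

/-- the factor of the second product -/
def kB (y : ℚ) : ℚ := (1 + 2 * y) * (1 - y) * (1 + 3 * y)⁻¹

/-- the second product -/
def RB (j : ℕ) : ℚ := (∏ l ∈ range j, (1 + x N (l + 1))) *
  (∏ l ∈ range (j + 1), kB (x N (2 * l + 1))) * (1 + x N (j + 1) / 2)⁻¹

/-- the terms -/
def T (i : ℕ) : ℚ := 4 * (2 * N + 1) * u (2 * N + 1) ^ 2 * ((-1) ^ (N - i) *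
  ((4 * N + 1 + 2 * i).choose (4 * N + 1) : ℚ) * ((4 * N + 1).choose (N - i) : ℚ) /
    (2 * N + 1 + 2 * i))

theorem T_zero : T N 0 = PB N := by
  unfold T PB
  rw [prod_mul_distrib, prod_pow, ← un]
  have h := choose_prod (4 * N + 1) N
  have e : ∏ j ∈ range N, (1 - (((4 * N + 1 : ℕ) : ℚ) + 1) / ((j + 1 : ℕ) : ℚ)) =
      ∏ j ∈ range N, (1 - 2 * x N (j + 1)) := by
    apply prod_congr rfl
    intro j _
    unfold x
    push_cast
    ring
  rw [← e, ← h, mul_zero, add_zero, Nat.choose_self, Nat.sub_zero]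
  have n1 : (2 * (N : ℚ) + 1) ≠ 0 := by positivity
  push_cast
  rw [mul_zero, add_zero]
  field_simp
  ring

theorem T_succ (i : ℕ) (hi : i < N) : T N (i + 1) * ((2 * i + 2) * (2 * i + 1) * (3 * N + 2 + i) *
    (2 * N + 3 + 2 * i)) = -(T N i * ((4 * N + 3 + 2 * i) * (4 * N + 2 + 2 * i) * (N - i) *
    (2 * N + 1 + 2 * i))) := by
  obtain ⟨d, rfl⟩ : ∃ d, N = i + 1 + d := ⟨N - (i + 1), by omega⟩
  unfold T
  rw [show i + 1 + d - (i + 1) = d by omega, show i + 1 + d - i = d + 1 by omega]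
  set A := 4 * (i + 1 + d) + 1 with hA
  -- upper index
  have c1 : (((A + 2 * i + 1).choose A : ℕ) : ℚ) * (2 * i + 1) =
      ((A + 2 * i).choose A : ℚ) * (A + 2 * i + 1) := by
    have := Nat.choose_mul_succ_eq (A + 2 * i) A
    rw [show A + 2 * i + 1 - A = 2 * i + 1 by omega] at this
    have h2 : (((A + 2 * i).choose A * (A + 2 * i + 1) : ℕ) : ℚ) =
      (((A + 2 * i + 1).choose A * (2 * i + 1) : ℕ) : ℚ) := by rw [this]
    push_cast at h2 ⊢
    linear_combination -h2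
  have c2 : (((A + 2 * (i + 1)).choose A : ℕ) : ℚ) * (2 * i + 2) =
      ((A + 2 * i + 1).choose A : ℚ) * (A + 2 * i + 2) := by
    have := Nat.choose_mul_succ_eq (A + 2 * i + 1) A
    rw [show A + 2 * i + 1 + 1 - A = 2 * i + 2 by omega,
      show A + 2 * i + 1 + 1 = A + 2 * (i + 1) by ring] at this
    have h2 : (((A + 2 * i + 1).choose A * (A + 2 * (i + 1)) : ℕ) : ℚ) =
      (((A + 2 * (i + 1)).choose A * (2 * i + 2) : ℕ) : ℚ) := by rw [this]
    push_cast at h2 ⊢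
    linear_combination -h2
  have c3 : ((A.choose (d + 1) : ℕ) : ℚ) * (d + 1) = (A.choose d : ℚ) * (A - d) := by
    have := Nat.choose_succ_right_eq A d
    have h2 : ((A.choose (d + 1) * (d + 1) : ℕ) : ℚ) = ((A.choose d * (A - d) : ℕ) : ℚ) := by
      rw [this]
    push_cast [Nat.cast_sub (show d ≤ A by omega)] at h2 ⊢
    exact h2
  have hAq : (A : ℚ) = 4 * (i + 1 + d) + 1 := by rw [hA]; push_cast; ring
  rw [hAq] at c1 c2 c3
  generalize (((A + 2 * (i + 1)).choose A : ℕ) : ℚ) = X2 at *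
  generalize (((A + 2 * i + 1).choose A : ℕ) : ℚ) = X1 at *
  generalize (((A + 2 * i).choose A : ℕ) : ℚ) = X0 at *
  generalize ((A.choose (d + 1) : ℕ) : ℚ) = Y1 at *
  generalize ((A.choose d : ℕ) : ℚ) = Y0 at *
  generalize u (2 * (i + 1 + d) + 1) = U
  rw [pow_succ (-1 : ℚ) d]
  generalize (-1 : ℚ) ^ d = s
  push_cast
  have n1 : (2 * (i : ℚ) + 1) ≠ 0 := by positivity
  have n2 : (2 * (i : ℚ) + 2) ≠ 0 := by positivity
  have n3 : ((4 * ((i : ℚ) + 1 + d) + 1) - d) ≠ 0 := by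
    have : ((4 * ((i : ℚ) + 1 + d) + 1) - d) = 4 * i + 5 + 3 * d := by ring
    rw [this]; positivity
  have n4 : (2 * ((i : ℚ) + 1 + d) + 1 + 2 * i) ≠ 0 := by positivity
  have n5 : (2 * ((i : ℚ) + 1 + d) + 1 + 2 * (i + 1)) ≠ 0 := by positivity
  have hX1 : X1 = X0 * (4 * (i + 1 + d) + 1 + 2 * i + 1) / (2 * i + 1) := by
    field_simp; linear_combination c1
  have hX2 : X2 = X1 * (4 * (i + 1 + d) + 1 + 2 * i + 2) / (2 * i + 2) := by
    field_simp; linear_combination c2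
  have hY : Y0 = Y1 * (d + 1) / ((4 * ((i : ℚ) + 1 + d) + 1) - d) := by
    rw [eq_div_iff n3]; linear_combination -c3
  rw [hX2, hX1, hY]
  have e1 : ((4 * ((i : ℚ) + 1 + d) + 1) - d) = 4 * i + 5 + 3 * d := by ring
  rw [e1] at n3 ⊢
  have e2 : (3 * ((i : ℚ) + 1 + d) + 2 + i) = 4 * i + 5 + 3 * d := by ring
  rw [e2]
  have e3 : (2 * ((i : ℚ) + 1 + d) + 3 + 2 * i) = 2 * (i + 1 + d) + 1 + 2 * (i + 1) := by ring
  rw [e3]
  generalize (2 * ((i : ℚ) + 1 + d) + 1 + 2 * (i + 1)) = D1 at *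
  generalize (2 * ((i : ℚ) + 1 + d) + 1 + 2 * i) = D2 at *
  field_simp
  ring

theorem T_eq (j : ℕ) (hj : j < N) : T N (j + 1) = PB N * (x N (j + 1) ^ 2 / 2 * RB N j) := by
  induction j with
  | zero =>
    have h := T_succ N 0 hj
    rw [T_zero] at h
    unfold RB kB x
    rw [prod_range_zero, prod_range_one]
    rw [mul_zero, zero_add] at *
    push_cast at h ⊢
    rw [div_one]
    have n1 : (2 * (N : ℚ) + 1) ≠ 0 := by positivity
    have n2 : (1 + 3 * (2 * (N : ℚ) + 1)) ≠ 0 := by positivity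
    have n3 : (1 + (2 * (N : ℚ) + 1) / 2) ≠ 0 := by positivity
    have n4 : (3 * (N : ℚ) + 2) ≠ 0 := by positivity
    have n5 : (2 * (N : ℚ) + 3) ≠ 0 := by positivity
    have e1 : (1 + 3 * (2 * (N : ℚ) + 1)) = 2 * (3 * N + 2) := by ring
    have e2 : (1 + (2 * (N : ℚ) + 1) / 2) = (2 * N + 3) / 2 := by ring
    rw [e1, e2]
    have h' : T N 1 * (2 * (3 * N + 2) * (2 * N + 3)) = -(PB N * ((4 * N + 3) * (4 * N + 2) * N *
      (2 * N + 1))) := by linear_combination h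
    field_simp
    linear_combination h'
  | succ j ih =>
    have ih := ih (by omega)
    have h := T_succ N (j + 1) hj
    have r1 : RB N (j + 1) = RB N j * ((1 + x N (j + 1)) * kB (x N (2 * (j + 1) + 1)) *
        (1 + x N (j + 1 + 1) / 2)⁻¹ * (1 + x N (j + 1) / 2)) := by
      unfold RB
      rw [prod_range_succ _ j, prod_range_succ _ (j + 1)]
      have : (1 + x N (j + 1) / 2) ≠ 0 := by unfold x; positivity
      generalize 1 + x N (j + 1) / 2 = z at *
      generalize (1 + x N (j + 1 + 1) / 2)⁻¹ = z1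
      rw [show ∀ a b c d e : ℚ, a * b * d⁻¹ * (c * e * z1 * d) = a * c * (b * e) * z1 * (d⁻¹ * d) by
        intros; ring, inv_mul_cancel₀ this, mul_one]
    rw [ih] at h
    rw [r1]
    unfold kB x at *
    push_cast at h ⊢
    generalize RB N j = R at *
    generalize PB N = Q at *
    have n1 : ((j : ℚ) + 1) ≠ 0 := by positivity
    have n2 : ((j : ℚ) + 1 + 1) ≠ 0 := by positivity
    have n3 : (2 * ((j : ℚ) + 1) + 1) ≠ 0 := by positivity
    have n4 : (3 * (N : ℚ) + 2 + (j + 1)) ≠ 0 := by positivity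
    have n5 : (2 * (N : ℚ) + 3 + 2 * (j + 1)) ≠ 0 := by positivity
    have n6 : (2 * (N : ℚ) + 1 + 2 * (j + 1)) ≠ 0 := by positivity
    have e1 : (1 + 3 * ((2 * (N : ℚ) + 1) / (2 * (j + 1) + 1))) =
      2 * (3 * N + 2 + (j + 1)) / (2 * (j + 1) + 1) := by field_simp; ring
    have e2 : (1 + (2 * (N : ℚ) + 1) / (j + 1 + 1) / 2) =
      (2 * N + 3 + 2 * (j + 1)) / (2 * (j + 1 + 1)) := by field_simp; ring
    have e3 : (1 + (2 * (N : ℚ) + 1) / (j + 1) / 2) =
      (2 * N + 1 + 2 * (j + 1)) / (2 * (j + 1)) := by field_simp; ring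
    rw [e1, e2, e3]
    have h' : T N (j + 1 + 1) = -(Q * ((2 * N + 1) / (j + 1)) ^ 2 / 2 * R) * ((4 * N + 3 + 2 * (j + 1)) *
      (4 * N + 2 + 2 * (j + 1)) * (N - (j + 1)) * (2 * N + 1 + 2 * (j + 1))) /
        ((2 * (j + 1 + 1)) * (2 * (j + 1) + 1) * (3 * N + 2 + (j + 1)) *
    (2 * N + 3 + 2 * (j + 1))) := by
      rw [eq_div_iff (by positivity)]
      linear_combination h
    rw [h']
    field_simp
    ring

/-- the product form of the second sum -/
theorem prodB : ∑ k ∈ range (2 * N + 1), (3 * (k : ℚ) + 1) * u k ^ 3 * 4 ^ k =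
    (2 * N + 1) * (PB N * (1 + ∑ j ∈ range N, x N (j + 1) ^ 2 / 2 * RB N j)) := by
  rw [exactB]
  have e1 : 4 * (((2 * N : ℕ) : ℚ) + 1) ^ 2 * u (2 * N + 1) ^ 2 * F (2 * N) = (2 * N + 1) *
      ∑ i ∈ range (N + 1), T N i := by
    unfold F
    rw [show 2 * N + 1 = (N + 1) + N by ring, sum_range_add, ← sum_range_reflect _ (N + 1)]
    have z : ∑ m ∈ range N, (-1) ^ (N + 1 + m) *
        ((3 * (2 * N) + 1 - 2 * (N + 1 + m)).choose (2 * (2 * N) + 1) : ℚ) *
        ((2 * (2 * N) + 1).choose (N + 1 + m) : ℚ) /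
        (2 * ((2 * N : ℕ) : ℚ) + 1 - 2 * ((N + 1 + m : ℕ) : ℚ)) = 0 := by
      apply sum_eq_zero
      intro m _
      rw [Nat.choose_eq_zero_of_lt
        (show 3 * (2 * N) + 1 - 2 * (N + 1 + m) < 2 * (2 * N) + 1 by omega)]
      simp
    rw [z, add_zero, mul_sum, mul_sum]
    apply sum_congr rfl
    intro i hi
    have hi := mem_range.1 hi
    unfold T
    rw [show N + 1 - 1 - i = N - i by omega,
      show 3 * (2 * N) + 1 - 2 * (N - i) = 4 * N + 1 + 2 * i by omega,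
      show 2 * (2 * N) + 1 = 4 * N + 1 by ring, show N + 1 + N = 2 * N + 1 by ring]
    have e : (2 * ((2 * N : ℕ) : ℚ) + 1 - 2 * ((N - i : ℕ) : ℚ)) = 2 * N + 1 + 2 * i := by
      rw [Nat.cast_sub (by omega)]
      push_cast
      ring
    rw [e]
    push_cast
    ring
  rw [e1, sum_range_succ', T_zero, sum_congr rfl (fun j hj => T_eq N j (mem_range.1 hj)), ← mul_sum]
  ring

end Q278.HB
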