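import Pool.Agent.Q278.HP

set_option autoImplicit false

/-! The two truncated sums modulo `p ^ (r + 4)`. -/

namespace Q278.HF

open Finset Q278.HA Q278.HB Q278.HS Q278.Loc Q278.Unit Q278.SP Q278.EE Q278.MG Q278.HP

variable {p h N r : ℕ} [hp : Fact p.Prime]

/-- only the multiples of `P` matter -/
theorem red {O : Subring ℚ} {π : ℚ} {P M M' k : ℕ} (hP : 0 < P) (hM : ∀ j, P * j < M ↔ j < M')
    {f : ℕ → ℚ} (hf : ∀ j, j < M → ¬ P ∣ j → f j ∈ I O π k) :
    ∑ j ∈ range M, f j - ∑ j ∈ range M', f (P * j) ∈ I O π k := by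
  rw [← sum_filter_add_sum_filter_not (range M) (fun j => P ∣ j)]
  have e : ∑ j ∈ range M with P ∣ j, f j = ∑ j ∈ range M', f (P * j) := by
    symm
    apply sum_bij' (fun j _ => P * j) (fun j _ => j / P)
    · intro j hj
      rw [mem_filter, mem_range]
      exact ⟨(hM j).2 (mem_range.1 hj), dvd_mul_right _ _⟩
    · intro j hj
      rw [mem_filter, mem_range] at hj
      rw [mem_range, ← hM, Nat.mul_div_cancel' hj.2]
      exact hj.1
    · intro j _
      exact Nat.mul_div_cancel_left _ hP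
    · intro j hj
      rw [mem_filter, mem_range] at hj
      exact Nat.mul_div_cancel' hj.2
    · intro j _
      rfl
  rw [e, add_sub_cancel_left]
  refine AddSubgroup.sum_mem _ fun j hj => ?_
  rw [mem_filter, mem_range] at hj
  exact hf j hj.1 hj.2

section

variable (hP : p = 2 * h + 1) (hN : 2 * N + 1 = p ^ (r + 1))

omit hp in
include hN in
theorem x_eq (m : ℕ) : x N m = ((p ^ (r + 1) : ℕ) : ℚ) / m := by
  unfold x
  rw [← hN]
  push_cast
  rfl

include hN in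
/-- non-multiples of `p ^ r` -/
theorem x_two {m : ℕ} (hm : ¬ p ^ r ∣ m) : x N m ∈ I (PI.O p) (p : ℚ) 2 := by
  rw [x_eq hN]
  have hm0 : m ≠ 0 := by rintro rfl; exact hm (dvd_zero _)
  obtain ⟨e, m', hm', rfl⟩ := Nat.exists_eq_pow_mul_and_not_dvd hm0 p hp.out.ne_one
  have he : e < r := by
    by_contra hle
    exact hm ((pow_dvd_pow p (by omega)).trans (dvd_mul_right _ _))
  have hU : U (PI.O p) (m' : ℚ) := by
    have := U_int (p := p) (m := (m' : ℤ)) (by
      intro h; exact hm' (Int.natCast_dvd_natCast.1 h))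
    exact_mod_cast this
  have hp0 : (p : ℚ) ≠ 0 := by exact_mod_cast hp.out.ne_zero
  refine ⟨(p : ℚ) ^ (r + 1 - e - 2) * (m' : ℚ)⁻¹, (PI.O p).mul_mem ((PI.O p).pow_mem p_mem _)
    hU.2.1, ?_⟩
  push_cast
  have h1 : (p : ℚ) ^ (r + 1) = (p : ℚ) ^ e * ((p : ℚ) ^ 2 * (p : ℚ) ^ (r + 1 - e - 2)) := by
    rw [← pow_add, ← pow_add]; congr 1; omega
  have h2 := hU.2.2
  rw [h1]
  field_simp

include hP hN in
theorem x_P (j : ℕ) : x N (p ^ r * j) = x h j := by
  rw [x_eq hN]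
  unfold x
  have hp0 : (p : ℚ) ^ r ≠ 0 := pow_ne_zero _ (by exact_mod_cast hp.out.ne_zero)
  have e : (2 * (h : ℚ) + 1) = p := by rw [hP]; push_cast; ring
  rw [e]
  push_cast
  rw [pow_succ, mul_div_mul_left _ _ hp0]

include hP hN in
theorem hy : Hy (PI.O p) (p : ℚ) N :=
  ⟨p_mem, hloc_p, two_U hP, fun m h1 h2 => by
    rw [x_eq hN]
    exact Alt.P_div h1 (by rw [← hN]; exact h2)⟩

include hP hN in
theorem hM1 (j : ℕ) : p ^ r * j < N + 1 ↔ j < h + 1 := by
  have hpos : 0 < p ^ r := pow_pos hp.out.pos _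
  have e : 2 * N + 1 = p ^ r * p := by rw [hN, pow_succ]
  constructor
  · intro h1
    by_contra h2
    have h3 : p ^ r * (h + 1) ≤ p ^ r * j := Nat.mul_le_mul_left _ (by omega)
    have h4 : p ^ r * p + p ^ r = 2 * (p ^ r * (h + 1)) := by rw [hP]; ring
    omega
  · intro h1
    have h3 : p ^ r * j ≤ p ^ r * h := Nat.mul_le_mul_left _ (by omega)
    have h4 : p ^ r * p = 2 * (p ^ r * h) + p ^ r := by
      conv_lhs => rw [show p ^ r * p = p ^ r * (2 * h + 1) by rw [← hP]]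
      ring
    omega

theorem sc_eq (N : ℕ) : sc N = ∑ m ∈ range (N + 1), x N m ^ 3 := by
  unfold sc
  rw [sum_range_succ', x_zero, zero_pow (by norm_num), add_zero]

include hP hN in
theorem sc_red : sc N - sc h ∈ I (PI.O p) (p : ℚ) 4 := by
  rw [sc_eq, sc_eq]
  have h1 := red (O := PI.O p) (π := (p : ℚ)) (k := 4) (f := fun m => x N m ^ 3)
    (pow_pos hp.out.pos r) (hM1 hP hN) (by
      intro j _ hj
      have := mono p_mem (show 4 ≤ 2 * 3 by omega) (pow_I (x_two hN hj) 3)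
      exact this)
  simp only [x_P hP hN] at h1
  exact h1

include hP hN in
theorem sW_red : sW N - sW h ∈ I (PI.O p) (p : ℚ) 4 := by
  have D := hy hP hN
  have D1 : Hy (PI.O p) (p : ℚ) h := hy (r := 0) hP (by rw [zero_add, pow_one, hP])
  have hpos : 0 < p ^ r := pow_pos hp.out.pos _
  unfold sW
  have h1 := red (O := PI.O p) (π := (p : ℚ)) (k := 4) (M := 2 * N + 1) (M' := 2 * h + 1)
    (f := fun m => x N m ^ 2 * Hs N m) hpos (by
      intro j
      rw [hN, ← hP, pow_succ]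
      exact Nat.mul_lt_mul_left hpos) (by
      intro j hj1 hj
      have := mul_O (toO p_mem (Hs_I D (m := j) (by omega))) (pow_I (x_two hN hj) 2)
      convert this using 1
      ring)
  have h2 : ∑ j ∈ range (2 * h + 1), x N (p ^ r * j) ^ 2 * Hs N (p ^ r * j) -
      ∑ j ∈ range (2 * h + 1), x h j ^ 2 * Hs h j ∈ I (PI.O p) (p : ℚ) 4 := by
    rw [← sum_sub_distrib]
    refine AddSubgroup.sum_mem _ fun j hj => ?_
    have hj := mem_range.1 hj
    rw [x_P hP hN, ← mul_sub]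
    rcases Nat.eq_zero_or_pos j with h0 | h0
    · subst h0; rw [x_zero]; simp
    have h3 := D1.hx j h0 hj
    have h4 : Hs N (p ^ r * j) - Hs h j ∈ I (PI.O p) (p : ℚ) 2 := by
      have := red (O := PI.O p) (π := (p : ℚ)) (k := 2) (M := p ^ r * j) (M' := j)
        (f := fun m => x N m) hpos (by intro i; exact Nat.mul_lt_mul_left hpos)
        (by intro i _ hi; exact x_two hN hi)
      simp only [x_P hP hN] at this
      exact this
    have := mul_I (mul_I h3 h3) h4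
    convert this using 1
    ring
  have := (I (PI.O p) (p : ℚ) 4).add_mem h1 h2
  convert this using 1
  ring

include hP in
theorem sc_val (h5 : 5 ≤ p) : sc h + 2 * ((p : ℚ) ^ 3 * bernoulli (p - 3)) ∈
    I (PI.O p) (p : ℚ) 4 := by
  have h1 := c_mod (q := p - 3) (by omega) hP h5
  have h2 := mul_I (a := 3) (b := 1) (self_pow (O := PI.O p) (π := (p : ℚ)) 3) h1
  convert h2 using 1
  unfold sc x
  have e : (2 * (h : ℚ) + 1) = p := by rw [hP]; push_cast; ring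
  rw [e, mul_add, mul_sum]
  congr 1
  · apply sum_congr rfl
    intro j _
    push_cast
    ring
  · ring

include hP in
theorem sW_val (h5 : 5 ≤ p) : sW h - (p : ℚ) ^ 3 * bernoulli (p - 3) ∈
    I (PI.O p) (p : ℚ) 4 := by
  have h1 := W_mod (p := p) (q := p - 3) (by omega) h5
  have h2 := mul_I (a := 3) (b := 1) (self_pow (O := PI.O p) (π := (p : ℚ)) 3) h1
  convert h2 using 1
  unfold sW Hs x
  have e : (2 * (h : ℚ) + 1) = p := by rw [hP]; push_cast; ring
  rw [e, mul_sub, mul_sum, show 2 * h + 1 = p from hP.symm]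
  congr 1
  apply sum_congr rfl
  intro m _
  rw [mul_sum, mul_sum, mul_sum]
  apply sum_congr rfl
  intro l _
  ring

include hP hN in
theorem both (h5 : 5 ≤ p) :
    PA N * (1 + ∑ j ∈ range N, x N (j + 1) ^ 2 / 2 * RA N j) -
      (1 + 7 / 6 * ((p : ℚ) ^ 3 * bernoulli (p - 3))) ∈ I (PI.O p) (p : ℚ) 4 ∧
    PB N * (1 + ∑ j ∈ range N, x N (j + 1) ^ 2 / 2 * RB N j) -
      (1 + 7 / 6 * ((p : ℚ) ^ 3 * bernoulli (p - 3))) ∈ I (PI.O p) (p : ℚ) 4 := by
  have D := hy hP hN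
  have U3 : U (PI.O p) (3 : ℚ) := by
    have := m_U (p := p) (m := 3) (by omega) (by omega)
    exact_mod_cast this
  have hc : sc N + 2 * ((p : ℚ) ^ 3 * bernoulli (p - 3)) ∈ I (PI.O p) (p : ℚ) 4 := by
    have := (I (PI.O p) (p : ℚ) 4).add_mem (sc_red hP hN) (sc_val hP h5)
    convert this using 1; ring
  have hW : sW N - ((p : ℚ) ^ 3 * bernoulli (p - 3)) ∈ I (PI.O p) (p : ℚ) 4 := by
    have := (I (PI.O p) (p : ℚ) 4).add_mem (sW_red hP hN) (sW_val hP h5)
    convert this using 1; ring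
  exact ⟨finA D U3 hc hW, finB D U3 hc hW⟩

/-- from `I 4` to the final form -/
theorem scale {X Y : ℚ} (hXY : X - Y ∈ I (PI.O p) (p : ℚ) 4) :
    ∃ w : ℚ, ¬ p ∣ w.den ∧ (p : ℚ) ^ (r + 1) * X - (p : ℚ) ^ (r + 1) * Y =
      (p : ℚ) ^ (r + 1 + 4) * w := by
  obtain ⟨y, hy, e⟩ := hXY
  refine ⟨y, hy, ?_⟩
  rw [← mul_sub, e, pow_add _ (r + 1) 4]
  ring

end

/-- the first congruence -/
theorem sunA {p r : ℕ} (hp : p.Prime) (h5 : 3 < p) (hr : 1 ≤ r) : ∃ w : ℚ, ¬ p ∣ w.den ∧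
    ∑ k ∈ range ((p ^ r - 1) / 2 + 1), (4 * (k : ℚ) + 1) * u k ^ 4 -
      ((p : ℚ) ^ r + 7 / 6 * bernoulli (p - 3) * (p : ℚ) ^ (r + 3)) = (p : ℚ) ^ (r + 4) * w := by
  have := Fact.mk hp
  obtain ⟨r, rfl⟩ := Nat.exists_eq_add_of_le' hr
  obtain ⟨h, hh⟩ := hp.odd_of_ne_two (by omega)
  obtain ⟨N, hN⟩ := (hp.odd_of_ne_two (by omega)).pow (n := r + 1)
  have h5' : 5 ≤ p := by
    rcases Nat.lt_or_ge p 5 with h | h
    · interval_cases p; omega
    · exact h
  have h1 := (both (r := r) hh hN.symm h5').1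
  obtain ⟨w, hw, e⟩ := scale (r := r) h1
  refine ⟨w, hw, ?_⟩
  rw [← e, hN, show (2 * N + 1 - 1) / 2 = N by omega, prodA]
  have e2 : (2 * (N : ℚ) + 1) = (p : ℚ) ^ (r + 1) := by exact_mod_cast hN.symm
  rw [e2]
  ring

/-- the second congruence -/
theorem sunB {p r : ℕ} (hp : p.Prime) (h5 : 3 < p) (hr : 1 ≤ r) : ∃ w : ℚ, ¬ p ∣ w.den ∧
    ∑ k ∈ range (p ^ r), (3 * (k : ℚ) + 1) * u k ^ 3 * 4 ^ k -
      ((p : ℚ) ^ r + 7 / 6 * bernoulli (p - 3) * (p : ℚ) ^ (r + 3)) = (p : ℚ) ^ (r + 4) * w := by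
  have := Fact.mk hp
  obtain ⟨r, rfl⟩ := Nat.exists_eq_add_of_le' hr
  obtain ⟨h, hh⟩ := hp.odd_of_ne_two (by omega)
  obtain ⟨N, hN⟩ := (hp.odd_of_ne_two (by omega)).pow (n := r + 1)
  have h5' : 5 ≤ p := by
    rcases Nat.lt_or_ge p 5 with h | h
    · interval_cases p; omega
    · exact h
  have h1 := (both (r := r) hh hN.symm h5').2
  obtain ⟨w, hw, e⟩ := scale (r := r) h1
  refine ⟨w, hw, ?_⟩
  rw [← e, hN, prodB]
  have e2 : (2 * (N : ℚ) + 1) = (p : ℚ) ^ (r + 1) := by exact_mod_cast hN.symm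
  rw [e2]
  ring

end Q278.HF
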