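import Pool.Agent.Q278.SP5
import Pool.Agent.Q278.Blk2

set_option autoImplicit false

/-! The data over the rationals. -/

namespace Q278.SP

open Finset Q278.Loc Q278.Unit Q278.EE Q278.MG

variable {p h : ℕ} [hp : Fact p.Prime]

theorem loc_or {x : ℚ} (hx : x ∈ PI.O p) : x ∈ I (PI.O p) (p : ℚ) 1 ∨ U (PI.O p) x := by
  by_cases hd : (p : ℤ) ∣ x.num
  · left
    obtain ⟨c, hc⟩ := hd
    refine ⟨c * (1 / (x.den : ℚ)), (PI.O p).mul_mem (intCast_mem _ c) (PI.inv_mem p hx), ?_⟩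
    conv_lhs => rw [← Rat.num_div_den x, hc]
    push_cast
    ring
  · right
    have h1 := U_int hd
    have h2 : U (PI.O p) (x.den : ℚ) := by
      have := U_int (p := p) (m := (x.den : ℤ)) (by
        intro h; exact hx (Int.natCast_dvd_natCast.1 h))
      exact_mod_cast this
    have := h1.div h2
    rwa [Rat.num_div_den] at this

theorem hloc_p (x y : ℚ) (hx : U (PI.O p) x) (hxy : x - y ∈ I (PI.O p) (p : ℚ) 1) :
    U (PI.O p) y := by
  have hy : y ∈ PI.O p := by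
    have := (PI.O p).sub_mem hx.1 (toO p_mem hxy)
    rwa [sub_sub_cancel] at this
  rcases loc_or hy with h | h
  · exfalso
    have h1 := (I (PI.O p) (p : ℚ) 1).add_mem hxy h
    rw [sub_add_cancel] at h1
    have h2 := mul_O hx.2.1 h1
    rw [inv_mul_cancel₀ hx.2.2] at h2
    obtain ⟨c, hc, e⟩ := h2
    rw [pow_one] at e
    exact Alt.mem_not hc e
  · exact h

theorem full2 (hP : p = 2 * h + 1) (h5 : 5 ≤ p) :
    ∑ i ∈ range (2 * h), 1 / ((i : ℚ) + 1) ^ 2 ∈ I (PI.O p) (p : ℚ) 1 := by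
  have hS := H2 hP h5
  have h1 : ∑ i ∈ range (2 * h), 1 / ((i : ℚ) + 1) ^ 2 - 2 * ∑ i ∈ range h, 1 / ((i : ℚ) + 1) ^ 2 ∈
      I (PI.O p) (p : ℚ) 1 := by
    have e1 : ∑ i ∈ range (2 * h), 1 / ((i : ℚ) + 1) ^ 2 = ∑ i ∈ range h, 1 / ((i : ℚ) + 1) ^ 2 +
        ∑ i ∈ range h, 1 / ((p : ℚ) - (i + 1)) ^ 2 := by
      rw [two_mul, sum_range_add]
      congr 1
      rw [← sum_range_reflect]
      apply sum_congr rfl
      intro i hi
      have := mem_range.1 hi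
      rw [hP, show h + (h - 1 - i) = 2 * h - (i + 1) by omega, Nat.cast_sub (by omega)]
      push_cast
      ring
    have e2 : ∑ i ∈ range (2 * h), 1 / ((i : ℚ) + 1) ^ 2 -
        2 * ∑ i ∈ range h, 1 / ((i : ℚ) + 1) ^ 2 =
        ∑ i ∈ range h, (1 / ((p : ℚ) - (i + 1)) ^ 2 - 1 / ((i : ℚ) + 1) ^ 2) := by
      rw [sum_sub_distrib, e1]; ring
    rw [e2]
    refine AddSubgroup.sum_mem _ fun i hi => ?_
    have hi' := mem_range.1 hi
    have u1 := i_U hP hi'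
    have u2 := pi_U hP hi'
    refine ⟨(2 * (i + 1) - p) * (((p : ℚ) - (i + 1)) ^ 2)⁻¹ * (((i : ℚ) + 1) ^ 2)⁻¹, ?_, ?_⟩
    · refine (PI.O p).mul_mem ((PI.O p).mul_mem ?_ (u2.pow 2).2.1) (u1.pow 2).2.1
      exact_mod_cast intCast_mem (PI.O p) (2 * (i + 1) - p)
    · have n1 := u1.2.2
      have n2 := u2.2.2
      field_simp
      ring
  have := (I (PI.O p) (p : ℚ) 1).add_mem h1 (mul_O (two_U hP).1 hS)
  rwa [sub_add_cancel] at this

theorem sq_sum (hP : p = 2 * h + 1) (h5 : 5 ≤ p) (r : ℕ) :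
    ∑ i ∈ range (p ^ (r + 1)), ((p : ℚ) ^ (r + 1) / i) ^ 2 ∈ I (PI.O p) (p : ℚ) 3 := by
  induction r with
  | zero =>
    have e : ∑ i ∈ range (p ^ (0 + 1)), ((p : ℚ) ^ (0 + 1) / i) ^ 2 =
        (p : ℚ) ^ 2 * ∑ i ∈ range (2 * h), 1 / ((i : ℚ) + 1) ^ 2 := by
      rw [zero_add, pow_one, show range p = range (2 * h + 1) by rw [hP], sum_range_succ', mul_sum]
      simp only [Nat.cast_zero, div_zero]
      rw [zero_pow two_ne_zero, add_zero]
      apply sum_congr rfl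
      intro i _
      have : (i : ℚ) + 1 ≠ 0 := by positivity
      push_cast
      field_simp
    rw [e]
    exact mul_I (a := 2) (b := 1) (self_pow 2) (full2 hP h5)
  | succ r ih =>
    have e0 : p ^ (r + 1 + 1) = p * p ^ (r + 1) := by rw [pow_succ (p) (r + 1)]; ring
    rw [e0, Blk.sum_blocks]
    have hp0 : (p : ℚ) ≠ 0 := by exact_mod_cast hp.out.ne_zero
    have e1 : ∑ j ∈ range (p ^ (r + 1)), ∑ i ∈ range p,
        ((p : ℚ) ^ (r + 1 + 1) / ((p * j + i : ℕ) : ℚ)) ^ 2 =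
        ∑ j ∈ range (p ^ (r + 1)), ((p : ℚ) ^ (r + 1) / j) ^ 2 +
        ∑ j ∈ range (p ^ (r + 1)), ∑ i ∈ range (2 * h),
          ((p : ℚ) ^ (r + 1 + 1) / ((p * j + (i + 1) : ℕ) : ℚ)) ^ 2 := by
      rw [← sum_add_distrib]
      apply sum_congr rfl
      intro j _
      rw [show range p = range (2 * h + 1) by rw [hP], sum_range_succ', add_comm, add_zero]
      congr 1
      push_cast
      rw [pow_succ (p : ℚ) (r + 1), mul_comm ((p : ℚ) ^ (r + 1)) p, mul_div_mul_left _ _ hp0]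
    rw [e1]
    refine (I (PI.O p) (p : ℚ) 3).add_mem ih (AddSubgroup.sum_mem _ fun j _ =>
      AddSubgroup.sum_mem _ fun i hi => ?_)
    have hi' := mem_range.1 hi
    have hU : U (PI.O p) (((p * j + (i + 1) : ℕ) : ℚ)) := by
      have h1 : ¬ (p : ℤ) ∣ p * j + (i + 1) := not_dvd_of_lt hP (by positivity) (by omega) _
      have h4 := U_int h1
      push_cast at h4 ⊢
      exact h4
    have h2 : (p : ℚ) ^ (r + 1 + 1) / ((p * j + (i + 1) : ℕ) : ℚ) ∈ I (PI.O p) (p : ℚ) 2 := by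
      rw [div_eq_mul_inv, mul_comm]
      exact mul_O hU.2.1 (mono p_mem (show 2 ≤ r + 1 + 1 by omega) (self_pow _))
    exact mono p_mem (by omega) (pow_I h2 2)

theorem dt (hP : p = 2 * h + 1) (h5 : 5 ≤ p) {r N : ℕ} (hr : 1 ≤ r)
    (hN : (N : ℚ) - 1 ∈ I (PI.O p) (p : ℚ) 1) :
    Dt (PI.O p) (p : ℚ) (p ^ r) ((p : ℚ) ^ r / (2 * N)) ((N : ℚ) - 1) ∧
      (p : ℚ) ^ r / (2 * N) ∈ I (PI.O p) (p : ℚ) r := by
  have UN : U (PI.O p) (N : ℚ) := hloc_p 1 _ U.one (by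
    have := (I (PI.O p) (p : ℚ) 1).neg_mem hN
    convert this using 1; ring)
  have U2 := two_U hP
  have UU := U2.mul UN
  have hN0 := UN.2.2
  have htr : (p : ℚ) ^ r / (2 * N) ∈ I (PI.O p) (p : ℚ) r := by
    rw [div_eq_mul_inv, mul_comm]
    exact mul_O UU.2.1 (self_pow r)
  refine ⟨⟨p_mem, hloc_p, U2, hN, ?_, ?_, mono p_mem hr htr, ?_, ?_⟩, htr⟩
  · have : p ^ 1 ≤ p ^ r := Nat.pow_le_pow_right (by omega) hr
    rw [pow_one] at this
    omega
  · push_cast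
    field_simp
    ring
  · intro i hi hi'
    have h1 : ((p ^ r : ℕ) : ℚ) / i ∈ I (PI.O p) (p : ℚ) 1 := Alt.P_div hi hi'
    have h2 := mul_O UU.2.1 h1
    convert h2 using 1
    push_cast
    field_simp
  · obtain ⟨r', rfl⟩ := Nat.exists_eq_add_of_le' hr
    have h1 := mul_O ((PI.O p).pow_mem UU.2.1 2) (sq_sum hP h5 r')
    convert h1 using 1
    rw [mul_sum]
    apply sum_congr rfl
    intro i _
    rw [← mul_pow]
    congr 1
    field_simp

end Q278.SP
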