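import Pool.Agent.Q278.HS2
import Pool.Agent.Q278.SP6
import Pool.Agent.Q278.Alt2

set_option autoImplicit false

/-! Harmonic sums modulo `p` and the Bernoulli number `B_{p-3}`. -/

namespace Q278.HP

open Finset Q278.HA Q278.HB Q278.HS Q278.Loc Q278.Unit Q278.SP Q278.EE Q278.MG

variable {p h q : ℕ} [hp : Fact p.Prime]

theorem pow_indicator (l : ℕ) :
    (∑ v ∈ Ico 1 p, (v : ZMod p) ^ l) + (if (p - 1) ∣ l then (1 : ZMod p) else 0) = 0 := by
  have hbij : (∑ v ∈ Ico 1 p, (v : ZMod p) ^ l) = ∑ u : (ZMod p)ˣ, (u : ZMod p) ^ l :=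
    Finset.sum_bij'
      (fun v hv ↦ Units.mk0 (v : ZMod p) (mt (ZMod.natCast_eq_zero_iff v p).mp (by
        intro hd
        have := Nat.le_of_dvd (Finset.mem_Ico.mp hv).1 hd
        have := (Finset.mem_Ico.mp hv).2
        omega)))
      (fun u _ ↦ (u : ZMod p).val)
      (fun _ _ ↦ Finset.mem_univ _)
      (fun u _ ↦ by grind [u.ne_zero, ZMod.val_ne_zero, ZMod.val_lt])
      (fun v hv ↦ by simp [ZMod.val_cast_of_lt (Finset.mem_Ico.mp hv).2])
      (fun u _ ↦ Units.ext (ZMod.natCast_zmod_val _))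
      (fun _ _ ↦ rfl)
  rw [hbij, FiniteField.sum_pow_units, ZMod.card]
  split_ifs <;> simp

theorem mem_of_dvd {z : ℤ} (hz : (p : ℤ) ∣ z) : (z : ℚ) ∈ I (PI.O p) (p : ℚ) 1 := by
  obtain ⟨c, rfl⟩ := hz
  exact ⟨c, intCast_mem _ c, by push_cast; ring⟩

theorem mem_of_zmod {z : ℤ} (hz : (z : ZMod p) = 0) : (z : ℚ) ∈ I (PI.O p) (p : ℚ) 1 :=
  mem_of_dvd ((ZMod.intCast_zmod_eq_zero_iff_dvd z p).1 hz)

/-- power sums modulo `p` -/
theorem psum (l : ℕ) (hl : 0 < l) : ∑ m ∈ range p, (m : ℚ) ^ l +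
    (if (p - 1) ∣ l then (1 : ℚ) else 0) ∈ I (PI.O p) (p : ℚ) 1 := by
  have h := pow_indicator (p := p) l
  have h1 : (((∑ m ∈ range p, (m : ℤ) ^ l + (if (p - 1) ∣ l then (1 : ℤ) else 0) : ℤ)) : ZMod p) =
      0 := by
    rw [← h]
    have e : ∑ m ∈ range p, (m : ZMod p) ^ l = ∑ v ∈ Ico 1 p, (v : ZMod p) ^ l := by
      rw [range_eq_Ico, sum_eq_sum_Ico_succ_bot hp.out.pos]
      simp [hl.ne']
    rw [← e]
    split_ifs <;> push_cast <;> rfl
  have h2 := mem_of_zmod h1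
  convert h2 using 1
  split_ifs <;> push_cast <;> rfl

/-- Fermat -/
theorem fermat {m : ℕ} (h1 : 0 < m) (h2 : m < p) : (m : ℚ) ^ (p - 1) - 1 ∈
    I (PI.O p) (p : ℚ) 1 := by
  have h3 : (((m : ℤ) ^ (p - 1) - 1 : ℤ) : ZMod p) = 0 := by
    push_cast
    have : (m : ZMod p) ≠ 0 := by
      intro h0
      rw [ZMod.natCast_eq_zero_iff] at h0
      have := Nat.le_of_dvd h1 h0
      omega
    rw [ZMod.pow_card_sub_one_eq_one this, sub_self]
  have h4 := mem_of_zmod h3
  convert h4 using 1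
  push_cast
  rfl

theorem m_U {m : ℕ} (h1 : 0 < m) (h2 : m < p) : U (PI.O p) (m : ℚ) := by
  have : ¬ (p : ℤ) ∣ (m : ℤ) := by
    intro h
    have := Int.le_of_dvd (by omega) h
    omega
  have := U_int this
  exact_mod_cast this

/-- inverses as powers -/
theorem inv_pw {m k : ℕ} (h1 : 0 < m) (h2 : m < p) (hk : k ≤ p - 1) :
    (1 / (m : ℚ)) ^ k - (m : ℚ) ^ (p - 1 - k) ∈ I (PI.O p) (p : ℚ) 1 := by
  have h3 := fermat h1 h2
  have h4 := m_U h1 h2
  have := (I (PI.O p) (p : ℚ) 1).neg_mem (mul_O (h4.inv.pow k).1 h3)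
  convert this using 1
  have h5 : (m : ℚ) ^ (p - 1) = (m : ℚ) ^ (p - 1 - k) * (m : ℚ) ^ k := by
    rw [← pow_add]; congr 1; omega
  have h6 : (m : ℚ) ^ k ≠ 0 := pow_ne_zero _ h4.2.2
  rw [h5, one_div, _root_.inv_pow]
  field_simp
  ring

/-- the Bernoulli numbers are integral -/
theorem B_O (i : ℕ) (hi : i + 1 < p) : bernoulli i ∈ PI.O p := by
  induction i using Nat.strong_induction_on with
  | _ i ih =>
    rcases Nat.eq_zero_or_pos i with h0 | h0
    · subst h0; rw [bernoulli_zero]; exact (PI.O p).one_mem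
    · have h := sum_bernoulli (i + 1)
      rw [if_neg (by omega), sum_range_succ] at h
      have hU := m_U (p := p) (m := i + 1) (by omega) hi
      have h1 : ∑ k ∈ range i, ((i + 1).choose k : ℚ) * bernoulli k ∈ PI.O p := by
        refine (PI.O p).sum_mem fun k hk => ?_
        have := mem_range.1 hk
        exact (PI.O p).mul_mem (natCast_mem _ _) (ih k this (by omega))
      have h2 : bernoulli i = -(((i + 1 : ℕ) : ℚ)⁻¹ *
          ∑ k ∈ range i, ((i + 1).choose k : ℚ) * bernoulli k) := by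
        have h3 := hU.2.2
        have h4 : ((i + 1).choose i : ℚ) = ((i + 1 : ℕ) : ℚ) := by
          rw [Nat.choose_succ_self_right]
        rw [h4] at h
        field_simp
        linear_combination h
      rw [h2]
      exact (PI.O p).neg_mem ((PI.O p).mul_mem hU.2.1 h1)

section

variable (hq : p = q + 3) (hP : p = 2 * h + 1) (h5 : 5 ≤ p)

include hq h5

/-- the power sum of degree `p - 3` modulo `p ^ 2` -/
theorem S_mod : ∑ m ∈ range p, (m : ℚ) ^ q - p * bernoulli q ∈ I (PI.O p) (p : ℚ) 2 := by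
  have hU := m_U (p := p) (m := q + 1) (by omega) (by omega)
  have hn := hU.2.2
  push_cast at hn
  rw [sum_range_pow, sum_range_succ]
  have e : bernoulli q * ((q + 1).choose q : ℚ) * (p : ℚ) ^ (q + 1 - q) / (q + 1) =
      p * bernoulli q := by
    rw [Nat.choose_succ_self_right, show q + 1 - q = 1 by omega]
    push_cast
    field_simp
  rw [e, add_sub_cancel_right]
  refine AddSubgroup.sum_mem _ fun i hi => ?_
  have hi := mem_range.1 hi
  have hB := B_O (p := p) i (by omega)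
  have h2 : (p : ℚ) ^ (q + 1 - i) ∈ I (PI.O p) (p : ℚ) 2 :=
    mono p_mem (by omega) (self_pow _)
  have := mul_O ((PI.O p).mul_mem ((PI.O p).mul_mem hB (natCast_mem _ ((q + 1).choose i))) hU.2.1) h2
  convert this using 1
  push_cast
  field_simp

theorem W_mod : ∑ m ∈ range p, (1 / (m : ℚ)) ^ 2 * ∑ l ∈ range m, 1 / (l : ℚ) - bernoulli q ∈
    I (PI.O p) (p : ℚ) 1 := by
  have i1 : ∀ m : ℕ, m < p → (1 / (m : ℚ)) - (m : ℚ) ^ (q + 1) ∈ I (PI.O p) (p : ℚ) 1 := by
    intro m hm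
    rcases Nat.eq_zero_or_pos m with h0 | h0
    · subst h0; simp
    · have := inv_pw (k := 1) h0 hm (by omega)
      rw [pow_one, show p - 1 - 1 = q + 1 by omega] at this
      exact this
  have i2 : ∀ m : ℕ, m < p → (1 / (m : ℚ)) ^ 2 - (m : ℚ) ^ q ∈ I (PI.O p) (p : ℚ) 1 := by
    intro m hm
    rcases Nat.eq_zero_or_pos m with h0 | h0
    · subst h0
      rw [Nat.cast_zero, div_zero, zero_pow two_ne_zero, zero_pow (by omega), sub_self]
      exact (I (PI.O p) (p : ℚ) 1).zero_mem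
    · have := inv_pw (k := 2) h0 hm (by omega)
      rw [show p - 1 - 2 = q by omega] at this
      exact this
  have i3 : ∀ m : ℕ, m < p → (1 / (m : ℚ)) ∈ PI.O p := by
    intro m hm
    rcases Nat.eq_zero_or_pos m with h0 | h0
    · subst h0; simp [(PI.O p).zero_mem]
    · rw [one_div]; exact (m_U h0 hm).2.1
  -- replace by powers
  have h1 : ∑ m ∈ range p, (1 / (m : ℚ)) ^ 2 * ∑ l ∈ range m, 1 / (l : ℚ) -
      ∑ m ∈ range p, (m : ℚ) ^ q * ∑ l ∈ range m, (l : ℚ) ^ (q + 1) ∈ I (PI.O p) (p : ℚ) 1 := by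
    rw [← sum_sub_distrib]
    refine AddSubgroup.sum_mem _ fun m hm => ?_
    have hm := mem_range.1 hm
    have a1 := i2 m hm
    have a2 : ∑ l ∈ range m, 1 / (l : ℚ) - ∑ l ∈ range m, (l : ℚ) ^ (q + 1) ∈
        I (PI.O p) (p : ℚ) 1 := by
      rw [← sum_sub_distrib]
      refine AddSubgroup.sum_mem _ fun l hl => i1 l (by have := mem_range.1 hl; omega)
    have a3 : ∑ l ∈ range m, 1 / (l : ℚ) ∈ PI.O p :=
      (PI.O p).sum_mem fun l hl => i3 l (by have := mem_range.1 hl; omega)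
    have a4 : (m : ℚ) ^ q ∈ PI.O p := (PI.O p).pow_mem (natCast_mem _ _) _
    have := (I (PI.O p) (p : ℚ) 1).add_mem (mul_O a3 a1) (mul_O a4 a2)
    convert this using 1
    ring
  -- Faulhaber
  have hU := m_U (p := p) (m := q + 2) (by omega) (by omega)
  have hn := hU.2.2
  have e1 : ∑ m ∈ range p, (m : ℚ) ^ q * ∑ l ∈ range m, (l : ℚ) ^ (q + 1) =
      ∑ i ∈ range (q + 2), bernoulli i * ((q + 2).choose i : ℚ) * ((q + 2 : ℕ) : ℚ)⁻¹ *
        ∑ m ∈ range p, (m : ℚ) ^ (q + (q + 2 - i)) := by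
    simp only [mul_sum]
    rw [sum_comm]
    simp only [← mul_sum]
    apply sum_congr rfl
    intro m _
    rw [sum_range_pow, mul_sum]
    apply sum_congr rfl
    intro i _
    rw [show q + 1 + 1 = q + 2 by ring, pow_add]
    push_cast
    have : (((q : ℚ) + 1) + 1) = q + 2 := by ring
    rw [this]
    ring
  have h2 : ∑ m ∈ range p, (m : ℚ) ^ q * ∑ l ∈ range m, (l : ℚ) ^ (q + 1) +
      ∑ i ∈ range (q + 2), bernoulli i * ((q + 2).choose i : ℚ) * ((q + 2 : ℕ) : ℚ)⁻¹ *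
        (if (p - 1) ∣ (q + (q + 2 - i)) then (1 : ℚ) else 0) ∈ I (PI.O p) (p : ℚ) 1 := by
    rw [e1, ← sum_add_distrib]
    refine AddSubgroup.sum_mem _ fun i hi => ?_
    have hi := mem_range.1 hi
    rw [← mul_add]
    exact mul_O ((PI.O p).mul_mem ((PI.O p).mul_mem (B_O i (by omega)) (natCast_mem _ _)) hU.2.1)
      (psum _ (by omega))
  have e2 : ∑ i ∈ range (q + 2), bernoulli i * ((q + 2).choose i : ℚ) * ((q + 2 : ℕ) : ℚ)⁻¹ *
        (if (p - 1) ∣ (q + (q + 2 - i)) then (1 : ℚ) else 0) =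
      bernoulli q * ((q + 2).choose q : ℚ) * ((q + 2 : ℕ) : ℚ)⁻¹ := by
    rw [sum_eq_single q]
    · rw [if_pos, mul_one]
      rw [show q + (q + 2 - q) = q + 2 by omega, show p - 1 = q + 2 by omega]
    · intro i hi hne
      have hi := mem_range.1 hi
      rw [if_neg, mul_zero]
      rintro ⟨c, hc⟩
      rw [show p - 1 = q + 2 by omega] at hc
      rcases Nat.lt_or_ge c 2 with hc2 | hc2
      · interval_cases c
        · omega
        · omega
      · have : (q + 2) * 2 ≤ (q + 2) * c := Nat.mul_le_mul_left _ hc2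
        omega
    · intro hne
      exact absurd (mem_range.2 (by omega)) hne
  rw [e2] at h2
  have e3 : ((q + 2).choose q : ℚ) = (q + 2) * (q + 1) / 2 := by
    rw [show q + 2 = q + 2 by rfl, Nat.choose_symm_of_eq_add (show q + 2 = q + 2 by rfl),
      Nat.cast_choose_two]
    push_cast
    ring
  have hB := B_O (p := p) q (by omega)
  have hh : (1 / 2 : ℚ) ∈ PI.O p := by
    have := (m_U (p := p) (m := 2) (by omega) (by omega)).2.1
    convert this using 1
    norm_num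
  have h3 : bernoulli q * ((q + 2).choose q : ℚ) * ((q + 2 : ℕ) : ℚ)⁻¹ + bernoulli q ∈
      I (PI.O p) (p : ℚ) 1 := by
    refine ⟨bernoulli q * (1 / 2), (PI.O p).mul_mem hB hh, ?_⟩
    rw [e3]
    have e4 : (p : ℚ) = q + 3 := by rw [hq]; push_cast; ring
    rw [e4]
    push_cast at hn ⊢
    field_simp
    ring
  have := (I (PI.O p) (p : ℚ) 1).sub_mem ((I (PI.O p) (p : ℚ) 1).add_mem h1 h2) h3
  convert this using 1
  ring

omit hq h5 in
theorem binom2 (m : ℚ) (hm : m ∈ PI.O p) (k : ℕ) : (m - p) ^ (k + 1) - m ^ (k + 1) +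
    (k + 1) * p * m ^ k ∈ I (PI.O p) (p : ℚ) 2 := by
  induction k with
  | zero => simp
  | succ k ih =>
    have h1 := mul_O ((PI.O p).sub_mem hm (p_mem (p := p))) ih
    have h2 : (p : ℚ) ^ 2 * ((k + 1) * m ^ k) ∈ I (PI.O p) (p : ℚ) 2 :=
      ⟨_, (PI.O p).mul_mem ((PI.O p).add_mem (natCast_mem _ k) (PI.O p).one_mem)
        ((PI.O p).pow_mem hm k), rfl⟩
    have := (I (PI.O p) (p : ℚ) 2).add_mem h1 h2
    convert this using 1
    push_cast
    ring

include hP

theorem c_mod : ∑ j ∈ range h, (1 / ((j : ℚ) + 1)) ^ 3 + 2 * bernoulli q ∈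
    I (PI.O p) (p : ℚ) 1 := by
  have hS := S_mod hq h5
  obtain ⟨k, hk⟩ : ∃ k, q = k + 1 := ⟨q - 1, by omega⟩
  set a := ∑ j ∈ range h, ((j : ℚ) + 1) ^ q with ha
  set c := ∑ j ∈ range h, ((j : ℚ) + 1) ^ k with hc
  set S := ∑ m ∈ range p, (m : ℚ) ^ q with hS'
  have hev : Even q := ⟨h - 1, by omega⟩
  have two := two_U hP
  have hf : (1 / 2 : ℚ) ∈ PI.O p := by
    have := two.2.1
    convert this using 1
    norm_num
  have hq0 : (0 : ℚ) ^ q = 0 := zero_pow (by omega)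
  have refl : ∀ m : ℕ, m ≤ p → (((p - m : ℕ) : ℚ)) ^ q - (m : ℚ) ^ q + q * p * (m : ℚ) ^ k ∈
      I (PI.O p) (p : ℚ) 2 := by
    intro m hm
    have := binom2 (p := p) (m : ℚ) (natCast_mem _ _) k
    rw [← hk] at this
    convert this using 1
    rw [Nat.cast_sub hm, ← hev.neg_pow ((p : ℚ) - m), neg_sub, hk]
    push_cast
    ring
  have s1 : S - (2 * a - q * p * c) ∈ I (PI.O p) (p : ℚ) 2 := by
    have e : S = ∑ m ∈ range (2 * h + 1), (m : ℚ) ^ q := by rw [hS', hP]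
    rw [e, split1, Nat.cast_zero, hq0, zero_add, ha, hc, mul_sum, mul_sum, ← sum_sub_distrib,
      ← sum_sub_distrib]
    refine AddSubgroup.sum_mem _ fun j hj => ?_
    have hj := mem_range.1 hj
    have := refl (j + 1) (by omega)
    rw [show p - (j + 1) = 2 * h - j by omega] at this
    convert this using 1
    push_cast
    ring
  have s2 : S - (2 * 2 ^ q * a - q * p * 2 ^ k * c) ∈ I (PI.O p) (p : ℚ) 2 := by
    have e : S = ∑ m ∈ range (2 * h + 1), (m : ℚ) ^ q := by rw [hS', hP]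
    rw [e, split2, Nat.cast_zero, hq0, zero_add, ha, hc, mul_sum, mul_sum, ← sum_sub_distrib,
      ← sum_sub_distrib]
    refine AddSubgroup.sum_mem _ fun j hj => ?_
    have hj := mem_range.1 hj
    have := refl (2 * j + 2) (by omega)
    rw [show p - (2 * j + 2) = 2 * h - 1 - 2 * j by omega] at this
    convert this using 1
    have e1 : ((2 * j + 2 : ℕ) : ℚ) = 2 * (j + 1) := by push_cast; ring
    rw [e1, mul_pow, mul_pow]
    ring
  have hSI : S ∈ I (PI.O p) (p : ℚ) 1 := by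
    have h1 : (p : ℚ) * bernoulli q ∈ I (PI.O p) (p : ℚ) 1 := ⟨_, B_O q (by omega), by rw [pow_one]⟩
    have := (I (PI.O p) (p : ℚ) 1).add_mem (mono p_mem (show 1 ≤ 2 by omega) hS) h1
    rwa [sub_add_cancel] at this
  have hcO : c ∈ PI.O p := (PI.O p).sum_mem fun j _ =>
    (PI.O p).pow_mem ((PI.O p).add_mem (natCast_mem _ _) (PI.O p).one_mem) _
  have hpI : ∀ z ∈ PI.O p, (p : ℚ) * z ∈ I (PI.O p) (p : ℚ) 1 := fun z hz => ⟨z, hz, by rw [pow_one]⟩
  have haI : a ∈ I (PI.O p) (p : ℚ) 1 := by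
    have h1 := (I (PI.O p) (p : ℚ) 1).sub_mem hSI (mono p_mem (show 1 ≤ 2 by omega) s1)
    have h2 := hpI (q * c) ((PI.O p).mul_mem (natCast_mem _ _) hcO)
    have := mul_O hf ((I (PI.O p) (p : ℚ) 1).add_mem h1 h2)
    convert this using 1
    ring
  -- powers of two
  have t1 : (2 : ℚ) ^ q - 1 / 4 ∈ I (PI.O p) (p : ℚ) 1 := by
    have := fermat (p := p) (m := 2) (by omega) (by omega)
    rw [show p - 1 = q + 2 by omega, pow_add] at this
    have := mul_O ((PI.O p).mul_mem hf hf) this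
    convert this using 1
    push_cast
    ring
  have t2 : (2 : ℚ) ^ k - 1 / 8 ∈ I (PI.O p) (p : ℚ) 1 := by
    have := mul_O hf t1
    convert this using 1
    rw [hk, pow_succ]
    ring
  have hpI2 : ∀ z ∈ I (PI.O p) (p : ℚ) 1, (p : ℚ) * z ∈ I (PI.O p) (p : ℚ) 2 := by
    rintro z ⟨y, hy, rfl⟩
    exact ⟨y, hy, by ring⟩
  -- combination
  have k1 := mul_I t1 haI
  have k2 := hpI2 _ (mul_O ((PI.O p).mul_mem (natCast_mem _ q) hcO) t2)
  have qp : (q : ℚ) = p - 3 := by rw [hq]; push_cast; ring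
  have k3 : (p : ℚ) ^ 2 * c ∈ I (PI.O p) (p : ℚ) 2 := ⟨c, hcO, rfl⟩
  have f1 : (p : ℚ) * (3 * (bernoulli q + 1 / 2 * c)) ∈ I (PI.O p) (p : ℚ) 2 := by
    have a1 := mul_O (natCast_mem (PI.O p) 4) s2
    have a2 := mul_O (natCast_mem (PI.O p) 8) k1
    have a3 := mul_O (natCast_mem (PI.O p) 4) k2
    have a4 := mul_O (natCast_mem (PI.O p) 3) hS
    have a5 := mul_O hf k3
    have := (I (PI.O p) (p : ℚ) 2).sub_mem ((I (PI.O p) (p : ℚ) 2).add_mem
      ((I (PI.O p) (p : ℚ) 2).sub_mem ((I (PI.O p) (p : ℚ) 2).add_mem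
        ((I (PI.O p) (p : ℚ) 2).sub_mem a1 s1) a2) a3) a5) a4
    convert this using 1
    rw [qp]
    push_cast
    ring
  have f2 : bernoulli q + 1 / 2 * c ∈ I (PI.O p) (p : ℚ) 1 := by
    have u3 := m_U (p := p) (m := 3) (by omega) (by omega)
    obtain ⟨y, hy, e⟩ := f1
    have hp0 : (p : ℚ) ≠ 0 := by exact_mod_cast hp.out.ne_zero
    have e2 : 3 * (bernoulli q + 1 / 2 * c) = p * y := by
      apply mul_left_cancel₀ hp0
      rw [e]; ring
    have := mul_O u3.2.1 (show (p : ℚ) * y ∈ I (PI.O p) (p : ℚ) 1 from ⟨y, hy, by rw [pow_one]⟩)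
    rw [← e2] at this
    convert this using 1
    push_cast
    field_simp
  have f3 : ∑ j ∈ range h, (1 / ((j : ℚ) + 1)) ^ 3 - c ∈ I (PI.O p) (p : ℚ) 1 := by
    rw [hc, ← sum_sub_distrib]
    refine AddSubgroup.sum_mem _ fun j hj => ?_
    have hj := mem_range.1 hj
    have := inv_pw (p := p) (m := j + 1) (k := 3) (by omega) (by omega) (by omega)
    rw [show p - 1 - 3 = k by omega] at this
    convert this using 1
    push_cast
    ring
  have := (I (PI.O p) (p : ℚ) 1).add_mem f3 (mul_O two.1 f2)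
  convert this using 1
  ring

end

end Q278.HP
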