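import Pool.Agent.Q278.SP3

set_option autoImplicit false

/-! The pairing and the estimate of the sum. -/

namespace Q278.SP

open Finset Q278.Loc Q278.Unit

variable {K : Type*} [Field K] [CharZero K] {O : Subring K} {π : K} {n0 : ℕ} {t ν : K}

theorem bm_choose (n0 m : ℕ) (hm : m + 2 ≤ n0) :
    bm (n0 : K) m = (-1) ^ m * ((n0 - 2).choose m : K) := by
  induction m with
  | zero => simp [bm]
  | succ m ih =>
    have ih := ih (by omega)
    have e1 : bm (n0 : K) (m + 1) = bm (n0 : K) m * (((m : K) + 2 - n0) / (m + 1)) := by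
      unfold bm; rw [prod_range_succ]
    have h1 : ((m : K) + 1) ≠ 0 := by exact_mod_cast (show m + 1 ≠ 0 by omega)
    have h2 := Nat.choose_succ_right_eq (n0 - 2) m
    have h3 : ((n0 - 2).choose (m + 1) : K) * (m + 1) = ((n0 - 2).choose m : K) * (n0 - 2 - m) := by
      have h4 : (((n0 - 2).choose (m + 1) * (m + 1) : ℕ) : K) =
        (((n0 - 2).choose m * (n0 - 2 - m) : ℕ) : K) := by rw [h2]
      push_cast [Nat.cast_sub (show m ≤ n0 - 2 by omega), Nat.cast_sub (show 2 ≤ n0 by omega)] at h4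
      exact h4
    rw [e1, ih, pow_succ]
    field_simp
    linear_combination h3

theorem bm_refl {m m' : ℕ} (h : m + m' + 2 = n0) : bm (n0 : K) m' ^ 2 = bm (n0 : K) m ^ 2 := by
  rw [bm_choose n0 m (by omega), bm_choose n0 m' (by omega), mul_pow, mul_pow, ← pow_mul, ← pow_mul,
    mul_comm m' 2, mul_comm m 2, pow_mul, pow_mul]
  have : (n0 - 2).choose m' = (n0 - 2).choose m := by
    apply Nat.choose_symm_of_eq_add
    omega
  rw [this]
  norm_num

theorem bm_beta (n : K) (m : ℕ) :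
    bm n m = ((m + 1 : ℕ) : K) * ∏ j ∈ range m, (1 - n / ((j + 2 : ℕ) : K)) := by
  induction m with
  | zero => simp [bm]
  | succ m ih =>
    have e1 : bm n (m + 1) = bm n m * (((m : K) + 2 - n) / (m + 1)) := by
      unfold bm; rw [prod_range_succ]
    have h1 : ((m : K) + 1) ≠ 0 := by exact_mod_cast (show m + 1 ≠ 0 by omega)
    have h2 : ((m : K) + 2) ≠ 0 := by exact_mod_cast (show m + 2 ≠ 0 by omega)
    rw [e1, ih, prod_range_succ]
    generalize ∏ j ∈ range m, (1 - n / ((j + 2 : ℕ) : K)) = X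
    push_cast
    field_simp
    ring

omit [CharZero K] in
theorem prod_one {ι : Type*} {s : Finset ι} {f : ι → K} (hπ : π ∈ O) {j : ℕ}
    (h : ∀ i ∈ s, f i - 1 ∈ I O π j) : ∏ i ∈ s, f i - 1 ∈ I O π j := by
  classical
  induction s using Finset.induction_on with
  | empty => rw [prod_empty, sub_self]; exact (I O π j).zero_mem
  | insert a s ha ih =>
    have ih := ih (fun i hi => h i (mem_insert_of_mem hi))
    have h1 := h a (mem_insert_self a s)
    have h2 : f a ∈ O := by
      have := O.add_mem (toO hπ h1) O.one_mem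
      rwa [sub_add_cancel] at this
    rw [prod_insert ha]
    have := (I O π j).add_mem (mul_O h2 ih) h1
    convert this using 1
    ring

section

variable (D : Dt O π n0 t ν)

include D

theorem G_one {m : ℕ} (hm : m + 1 < n0) : Gm (n0 : K) t m - 1 ∈ I O π 1 := by
  have hw := one_w D hm
  have hwI := w_I D hm
  set β := ∏ j ∈ range m, (1 - (n0 : K) / ((j + 2 : ℕ) : K)) with hβ
  have hβ1 : β - 1 ∈ I O π 1 := by
    apply prod_one D.hπ
    intro j hj
    have hj' := mem_range.1 hj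
    have := (I O π 1).neg_mem (n_I D (i := j + 2) (by omega) (by omega))
    convert this using 1
    ring
  have hβO : β ∈ O := by
    have := O.add_mem (toO D.hπ hβ1) O.one_mem
    rwa [sub_add_cancel] at this
  have e1 : Gm (n0 : K) t m = (β * (1 - w t m)⁻¹) ^ 2 := by
    unfold Gm
    rw [bm_beta, z_eq, mul_div_mul_left _ _ (by exact_mod_cast (show m + 1 ≠ 0 by omega)),
      div_eq_mul_inv]
  rw [e1]
  have hx : β * (1 - w t m)⁻¹ - 1 ∈ I O π 1 := by
    have h2 := mul_O hw.2.1 ((I O π 1).add_mem hβ1 hwI)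
    convert h2 using 1
    have := hw.2.2
    field_simp
    ring
  have hxO : β * (1 - w t m)⁻¹ ∈ O := O.mul_mem hβO hw.2.1
  have h3 := mul_O (O.add_mem hxO O.one_mem) hx
  convert h3 using 1
  ring

theorem G_O {m : ℕ} (hm : m + 1 < n0) : Gm (n0 : K) t m ∈ O := by
  have := O.add_mem (toO D.hπ (G_one D hm)) O.one_mem
  rwa [sub_add_cancel] at this

/-- the reflected argument -/
theorem z_refl {m m' : ℕ} (h : m + m' + 2 = n0) :
    (m' : K) + 1 - t = -((m : K) + 1 - t) * (1 - 2 * ν * uu t m) := by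
  have hz := z_ne D (m := m) (by omega)
  have h1 : (m : K) + m' + 2 = 2 * t * (1 + ν) := by rw [← D.hn, ← h]; push_cast; ring
  unfold uu
  field_simp
  linear_combination h1

theorem one_nu {m : ℕ} (hm : m + 1 < n0) : U O (1 - 2 * ν * uu t m) :=
  D.hloc 1 _ U.one (by
    have h := mul_O (O.mul_mem D.two.1 (toO D.hπ D.hν)) (u_I D hm)
    convert h using 1; ring)

theorem u_refl {m m' : ℕ} (h : m + m' + 2 = n0) :
    uu t m' = -(uu t m * (1 - 2 * ν * uu t m)⁻¹) := by
  have h1 := (one_nu D (m := m) (by omega)).2.2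
  have hz := z_ne D (m := m) (by omega)
  have e : uu t m' = t / (-((m : K) + 1 - t) * (1 - 2 * ν * uu t m)) := by
    rw [← z_refl D h]; rfl
  have e2 : uu t m = t / ((m : K) + 1 - t) := rfl
  rw [e]
  generalize 1 - 2 * ν * uu t m = y at *
  rw [e2]
  field_simp

theorem G_refl {m m' : ℕ} (h : m + m' + 2 = n0) :
    Gm (n0 : K) t m' = Gm (n0 : K) t m * ((1 - 2 * ν * uu t m)⁻¹) ^ 2 := by
  have h1 := (one_nu D (m := m) (by omega)).2.2
  have hz := z_ne D (m := m) (by omega)
  unfold Gm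
  rw [div_pow, div_pow, z_refl D h, bm_refl h]
  generalize 1 - 2 * ν * uu t m = y at *
  field_simp

theorem w_refl {m m' : ℕ} (h : m + m' + 2 = n0) : w t m' + w t m ∈ I O π 2 := by
  have h1 := w_I D (m := m) (by omega)
  have h2 := n_I D (i := m' + 1) (by omega) (by omega)
  have e : w t m' + w t m = w t m * ((n0 : K) / ((m' + 1 : ℕ) : K)) := by
    have : (n0 : K) = ((m + 1 : ℕ) : K) + ((m' + 1 : ℕ) : K) := by rw [← h]; push_cast; ring
    have n1 : ((m + 1 : ℕ) : K) ≠ 0 := by exact_mod_cast (show m + 1 ≠ 0 by omega)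
    have n2 : ((m' + 1 : ℕ) : K) ≠ 0 := by exact_mod_cast (show m' + 1 ≠ 0 by omega)
    unfold w
    rw [this]
    field_simp
  rw [e]
  exact mul_I h1 h2

/-- powers of the inverse -/
theorem inv_pow_exp {x : K} (hx : x ∈ I O π 2) (hU : U O (1 - x)) (j : ℕ) :
    ((1 - x)⁻¹) ^ j - (1 + j * x) ∈ I O π 4 := by
  have h1 : (1 - x)⁻¹ - (1 + x) ∈ I O π 4 := by
    have := mul_O hU.2.1 (mul_I hx hx)
    convert this using 1
    have := hU.2.2
    field_simp
    ring
  induction j with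
  | zero => simp
  | succ j ih =>
    have k1 := mul_O hU.2.1 ih
    have k2 := mul_O (O.add_mem O.one_mem (O.mul_mem (nat_O j) (toO D.hπ hx))) h1
    have k3 := mul_O (nat_O (O := O) j) (mul_I hx hx)
    have := (I O π 4).add_mem ((I O π 4).add_mem k1 k2) k3
    convert this using 1
    push_cast
    ring

theorem Q_one {m : ℕ} (hm : m + 1 < n0) : Qm (n0 : K) (2 * t * ν) m - 1 ∈ I O π 2 := by
  have h1 := mono D.hπ (show 2 ≤ 3 by omega) (Q_exp D hm)
  have h2 := mul_O D.two.1 (mul_I D.hν (w_I D hm))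
  have h3 := (I O π 2).sub_mem ((I O π 2).add_mem h1 h2) (eps_O D)
  convert h3 using 1
  ring

/-- the pairs, third powers -/
theorem pair3 {m m' : ℕ} (h : m + m' + 2 = n0) :
    Gm (n0 : K) t m * Qm (n0 : K) (2 * t * ν) m * uu t m ^ 3 +
      Gm (n0 : K) t m' * Qm (n0 : K) (2 * t * ν) m' * uu t m' ^ 3 ∈ I O π 5 := by
  have hm : m + 1 < n0 := by omega
  have hm' : m' + 1 < n0 := by omega
  rw [G_refl D h, u_refl D h]
  have hU := one_nu D hm
  have hx : 2 * ν * uu t m ∈ I O π 2 := by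
    have := mul_O D.two.1 (mul_I D.hν (u_I D hm))
    convert this using 1; ring
  have h5 := mono D.hπ (show 2 ≤ 4 by omega) (inv_pow_exp D hx hU 5)
  have q1 := Q_one D hm
  have q2 := Q_one D hm'
  have oQ := Q_O D hm'
  have u3 := pow_I (u_I D hm) 3
  rw [one_mul] at u3
  set y := (1 - 2 * ν * uu t m)⁻¹
  set Q := Qm (n0 : K) (2 * t * ν) m
  set Q' := Qm (n0 : K) (2 * t * ν) m'
  set x := 2 * ν * uu t m
  have k1 : Q - Q' * y ^ 5 ∈ I O π 2 := by
    have k2 := mul_O oQ h5
    have k3 := mul_O (O.mul_mem oQ (nat_O 5)) hx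
    have := (I O π 2).sub_mem ((I O π 2).sub_mem ((I O π 2).sub_mem q1 q2) k2) k3
    convert this using 1
    push_cast
    ring
  have := mul_O (G_O D hm) (mul_I u3 k1)
  convert this using 1
  ring

/-- the pairs, first powers -/
theorem pair1 {m m' : ℕ} (h : m + m' + 2 = n0) :
    Gm (n0 : K) t m * Qm (n0 : K) (2 * t * ν) m * uu t m +
      Gm (n0 : K) t m' * Qm (n0 : K) (2 * t * ν) m' * uu t m' + 2 * ν * w t m ^ 2 ∈ I O π 4 := by
  have hm : m + 1 < n0 := by omega
  have hm' : m' + 1 < n0 := by omega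
  rw [G_refl D h, u_refl D h]
  have hU := one_nu D hm
  have hx : 2 * ν * uu t m ∈ I O π 2 := by
    have := mul_O D.two.1 (mul_I D.hν (u_I D hm))
    convert this using 1; ring
  have h3 := mono D.hπ (show 3 ≤ 4 by omega) (inv_pow_exp D hx hU 3)
  have q1 := Q_exp D hm
  have q2 := Q_exp D hm'
  have oQ := Q_O D hm'
  have qq := Q_one D hm'
  have u1 := u_I D hm
  have uw := u_w D hm
  have wI := w_I D hm
  have wr := mul_O D.two.1 (mul_I (a := 1) (b := 2) D.hν (w_refl D h))
  have uw' := mul_O D.two.1 (mul_I (a := 1) (b := 2) D.hν uw)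
  have g1 := G_one D hm
  set y := (1 - 2 * ν * uu t m)⁻¹
  set Q := Qm (n0 : K) (2 * t * ν) m
  set Q' := Qm (n0 : K) (2 * t * ν) m'
  set u := uu t m
  set v := w t m
  set G := Gm (n0 : K) t m
  -- the bracket
  have k1 : Q - Q' * y ^ 3 + 2 * ν * v ∈ I O π 3 := by
    have k2 := mul_O oQ h3
    have k3 : (Q' - 1) * (2 * ν * u) ∈ I O π 3 := mono D.hπ (by omega) (mul_I qq hx)
    have k4 := mul_O (nat_O (O := O) 3) uw'
    have := (I O π 3).sub_mem ((I O π 3).sub_mem ((I O π 3).sub_mem ((I O π 3).sub_mem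
      ((I O π 3).sub_mem q1 q2) k2) (mul_O (nat_O (O := O) 3) k3)) k4) wr
    convert this using 1
    push_cast
    ring
  have og := G_O D hm
  have k5 := mul_O og (mul_I (a := 1) (b := 3) u1 k1)
  have k6 : G * u - v ∈ I O π 2 := by
    have := (I O π 2).add_mem (mul_I g1 u1) uw
    convert this using 1; ring
  have k7 := mul_O D.two.1 (mul_I (a := 1) (b := 3) D.hν (mul_I (a := 1) (b := 2) wI k6))
  have := (I O π 4).sub_mem k5 k7
  convert this using 1
  ring

/-- the sum of the first powers -/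
theorem sum1 : ∑ m ∈ range (n0 - 1), Gm (n0 : K) t m * Qm (n0 : K) (2 * t * ν) m * uu t m ∈
    I O π 4 := by
  have h0 := D.h0
  apply of_unit_mul D.two.2.2 D.two.2.1
  set f : ℕ → K := fun m => Gm (n0 : K) t m * Qm (n0 : K) (2 * t * ν) m * uu t m with hf
  have e1 : 2 * ∑ m ∈ range (n0 - 1), f m = ∑ m ∈ range (n0 - 1), (f m + f (n0 - 1 - 1 - m)) := by
    rw [sum_add_distrib, sum_range_reflect, two_mul]
  have h1 : ∑ m ∈ range (n0 - 1), (f m + f (n0 - 1 - 1 - m) + 2 * ν * w t m ^ 2) ∈ I O π 4 := by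
    apply AddSubgroup.sum_mem
    intro m hm
    have := mem_range.1 hm
    exact pair1 D (by omega)
  have h2 : ∑ m ∈ range (n0 - 1), w t m ^ 2 ∈ I O π 3 := by
    have hs := D.hsq
    obtain ⟨c, hc⟩ := Nat.exists_eq_add_of_le' (show 1 ≤ n0 by omega)
    rw [hc, sum_range_succ'] at hs
    rw [hc, Nat.add_sub_cancel]
    simpa [w] using hs
  have h3 := mul_O D.two.1 (mul_I (a := 1) (b := 3) D.hν h2)
  rw [sum_add_distrib, ← mul_sum, ← e1] at h1
  have := (I O π 4).sub_mem h1 h3
  convert this using 1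
  ring

/-- the sum of the third powers -/
theorem sum3 : ∑ m ∈ range (n0 - 1), Gm (n0 : K) t m * Qm (n0 : K) (2 * t * ν) m * uu t m ^ 3 ∈
    I O π 5 := by
  have h0 := D.h0
  apply of_unit_mul D.two.2.2 D.two.2.1
  set f : ℕ → K := fun m => Gm (n0 : K) t m * Qm (n0 : K) (2 * t * ν) m * uu t m ^ 3 with hf
  have e1 : 2 * ∑ m ∈ range (n0 - 1), f m = ∑ m ∈ range (n0 - 1), (f m + f (n0 - 1 - 1 - m)) := by
    rw [sum_add_distrib, sum_range_reflect, two_mul]
  rw [e1]
  apply AddSubgroup.sum_mem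
  intro m hm
  have := mem_range.1 hm
  exact pair3 D (by omega)

end

end Q278.SP
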