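import Pool.Agent.Q278.HB2
import Pool.Agent.Q278.SP4

set_option autoImplicit false

/-! Relations between the harmonic sums, modulo the fourth power. -/

namespace Q278.HS

open Finset Q278.HA Q278.HB Q278.Loc Q278.Unit Q278.SP

theorem split1 {M : Type*} [AddCommMonoid M] (N : ℕ) (g : ℕ → M) : ∑ m ∈ range (2 * N + 1), g m =
    g 0 + ∑ j ∈ range N, (g (j + 1) + g (2 * N - j)) := by
  rw [sum_range_succ', two_mul, sum_range_add, sum_add_distrib, add_comm]
  congr 2
  rw [← sum_range_reflect]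
  apply sum_congr rfl
  intro j hj
  have := mem_range.1 hj
  congr 1
  omega

theorem split2 {M : Type*} [AddCommMonoid M] (N : ℕ) (g : ℕ → M) : ∑ m ∈ range (2 * N + 1), g m =
    g 0 + ∑ j ∈ range N, (g (2 * j + 2) + g (2 * N - 1 - 2 * j)) := by
  have h : ∀ N : ℕ, ∑ m ∈ range (2 * N + 1), g m =
      g 0 + (∑ j ∈ range N, g (2 * j + 2) + ∑ j ∈ range N, g (2 * j + 1)) := by
    intro N
    induction N with
    | zero => simp
    | succ N ih =>
      rw [show 2 * (N + 1) + 1 = 2 * N + 1 + 1 + 1 by ring, sum_range_succ, sum_range_succ, ih,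
        sum_range_succ _ N, sum_range_succ _ N]
      rw [show 2 * N + 1 + 1 = 2 * N + 2 by ring]
      abel
  rw [h, sum_add_distrib]
  congr 2
  rw [← sum_range_reflect]
  apply sum_congr rfl
  intro j hj
  have := mem_range.1 hj
  congr 1
  omega

variable {O : Subring ℚ} {π : ℚ}

theorem prod_exp {ι : Type*} {s : Finset ι} {f : ι → ℚ} (hπ : π ∈ O) {k : ℕ}
    (h : ∀ i ∈ s, f i - 1 ∈ I O π k) : ∏ i ∈ s, f i - 1 - ∑ i ∈ s, (f i - 1) ∈ I O π (k + k) := by
  classical
  induction s using Finset.induction_on with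
  | empty => simp
  | insert a s ha ih =>
    have ih := ih (fun i hi => h i (mem_insert_of_mem hi))
    have h1 := h a (mem_insert_self a s)
    have h2 := prod_one hπ (fun i hi => h i (mem_insert_of_mem hi))
    rw [prod_insert ha, sum_insert ha]
    have := (I O π (k + k)).add_mem ih (mul_I h1 h2)
    convert this using 1
    ring

/-- the hypotheses -/
structure Hy (O : Subring ℚ) (π : ℚ) (N : ℕ) : Prop where
  hπ : π ∈ O
  hloc : ∀ x y : ℚ, U O x → x - y ∈ I O π 1 → U O y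
  two : U O (2 : ℚ)
  hx : ∀ m, 0 < m → m < 2 * N + 1 → x N m ∈ I O π 1

/-- the partial sums -/
def Hs (N m : ℕ) : ℚ := ∑ l ∈ range m, x N l

def Od (N j : ℕ) : ℚ := ∑ l ∈ range j, x N (2 * l + 1)

def sa (N : ℕ) : ℚ := ∑ j ∈ range N, x N (j + 1) ^ 2

def sc (N : ℕ) : ℚ := ∑ j ∈ range N, x N (j + 1) ^ 3

def sK (N : ℕ) : ℚ := ∑ j ∈ range N, x N (j + 1) ^ 2 * Hs N (j + 1)

def sY (N : ℕ) : ℚ := ∑ j ∈ range N, x N (j + 1) ^ 2 * Od N (j + 1)

def sW (N : ℕ) : ℚ := ∑ m ∈ range (2 * N + 1), x N m ^ 2 * Hs N m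

theorem x_zero (N : ℕ) : x N 0 = 0 := by simp [x]

theorem pair (N : ℕ) {a b : ℕ} (h : a + b = 2 * N + 1) (ha : 0 < a) (hb : 0 < b) :
    x N a + x N b = x N a * x N b := by
  unfold x
  have e : (2 * (N : ℚ) + 1) = a + b := by exact_mod_cast h.symm
  have n1 : (a : ℚ) ≠ 0 := by positivity
  have n2 : (b : ℚ) ≠ 0 := by positivity
  rw [e]
  field_simp
  ring

theorem x_half (N j : ℕ) : x N (2 * j + 2) = x N (j + 1) / 2 := by
  unfold x
  push_cast
  have : (j : ℚ) + 1 ≠ 0 := by positivity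
  field_simp

variable {N : ℕ} (D : Hy O π N)

include D

theorem half_O : (1 / 2 : ℚ) ∈ O := by
  have := D.two.2.1
  convert this using 1
  norm_num

theorem quarter_O : (1 / 4 : ℚ) ∈ O := by
  have := O.mul_mem (half_O D) (half_O D)
  convert this using 1
  norm_num

theorem pair2 {a b : ℕ} (h : a + b = 2 * N + 1) (ha : 0 < a) (hb : 0 < b) :
    x N b + x N a ∈ I O π 2 := by
  rw [add_comm, pair N h ha hb]
  exact mul_I (D.hx a ha (by omega)) (D.hx b hb (by omega))

theorem pair3 {a b : ℕ} (h : a + b = 2 * N + 1) (ha : 0 < a) (hb : 0 < b) :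
    x N b ^ 2 - x N a ^ 2 - 2 * x N a ^ 3 ∈ I O π 4 := by
  have e := pair N h ha hb
  have h1 := D.hx a ha (by omega)
  have h2 := D.hx b hb (by omega)
  have h3 := pair2 D h ha hb
  have k1 := mul_O D.two.1 (mul_I (mul_I h1 h1) h3)
  have k2 := mul_I (mul_I h1 h1) (mul_I h2 h2)
  have := (I O π 4).sub_mem k2 k1
  convert this using 1
  have e2 : x N b = x N a * x N b - x N a := by linarith
  have e3 : x N b ^ 2 = (x N a * x N b - x N a) ^ 2 := by rw [← e2]
  rw [e3]
  ring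

theorem pair4 {a b : ℕ} (h : a + b = 2 * N + 1) (ha : 0 < a) (hb : 0 < b) :
    x N b ^ 2 - x N a ^ 2 ∈ I O π 3 := by
  have h1 := D.hx a ha (by omega)
  have h2 := D.hx b hb (by omega)
  have := mul_I (pair2 D h ha hb) ((I O π 1).sub_mem h2 h1)
  convert this using 1
  ring

theorem Hs_I {m : ℕ} (hm : m ≤ 2 * N + 1) : Hs N m ∈ I O π 1 := by
  unfold Hs
  refine AddSubgroup.sum_mem _ fun l hl => ?_
  have := mem_range.1 hl
  rcases Nat.eq_zero_or_pos l with h | h
  · subst h; rw [x_zero]; exact (I O π 1).zero_mem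
  · exact D.hx l h (by omega)

theorem Od_I {j : ℕ} (hj : j ≤ N) : Od N j ∈ I O π 1 := by
  unfold Od
  refine AddSubgroup.sum_mem _ fun l hl => ?_
  have := mem_range.1 hl
  exact D.hx _ (by omega) (by omega)

theorem H_I : Hs N (2 * N + 1) ∈ I O π 2 := by
  unfold Hs
  rw [split1, x_zero, zero_add]
  refine AddSubgroup.sum_mem _ fun j hj => ?_
  have := mem_range.1 hj
  have := pair2 D (a := j + 1) (b := 2 * N - j) (by omega) (by omega) (by omega)
  rwa [add_comm] at this

/-- reflection of the partial sums -/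
theorem Hs_refl (j : ℕ) (hj : j < 2 * N + 1) : Hs N (2 * N + 1 - j) - Hs N (j + 1) ∈ I O π 2 := by
  induction j with
  | zero =>
    have : Hs N (0 + 1) = 0 := by unfold Hs; rw [zero_add, sum_range_one, x_zero]
    rw [this, sub_zero, Nat.sub_zero]
    exact H_I D
  | succ j ih =>
    have ih := ih (by omega)
    have h1 : Hs N (2 * N + 1 - j) = Hs N (2 * N + 1 - (j + 1)) + x N (2 * N + 1 - (j + 1)) := by
      unfold Hs
      rw [show 2 * N + 1 - j = (2 * N + 1 - (j + 1)) + 1 by omega, sum_range_succ]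
    have h2 : Hs N (j + 1 + 1) = Hs N (j + 1) + x N (j + 1) := by
      unfold Hs; rw [sum_range_succ]
    have h3 := pair2 D (a := j + 1) (b := 2 * N + 1 - (j + 1)) (by omega) (by omega) (by omega)
    have := (I O π 2).sub_mem ih h3
    convert this using 1
    rw [h1, h2]
    ring

theorem W1 : sW N - (2 * sK N + sc N) ∈ I O π 4 := by
  unfold sW sK sc
  rw [split1, x_zero, mul_sum, ← sum_add_distrib]
  have e : (0 : ℚ) ^ 2 * Hs N 0 = 0 := by ring
  rw [e, zero_add, ← sum_sub_distrib]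
  refine AddSubgroup.sum_mem _ fun j hj => ?_
  have hj := mem_range.1 hj
  have h1 := D.hx (j + 1) (by omega) (by omega)
  have h3 := pair4 D (a := j + 1) (b := 2 * N - j) (by omega) (by omega) (by omega)
  have h4 := Hs_refl D (j + 1) (by omega)
  have h5 := Hs_I D (m := 2 * N - j) (by omega)
  rw [show 2 * N + 1 - (j + 1) = 2 * N - j by omega] at h4
  have e2 : Hs N (j + 1 + 1) = Hs N (j + 1) + x N (j + 1) := by
    unfold Hs; rw [sum_range_succ]
  rw [e2] at h4
  have k1 := mul_I h3 h5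
  have k2 := mul_I (mul_I h1 h1) h4
  have := (I O π 4).add_mem k1 k2
  convert this using 1
  ring

theorem W2 : sW N - (1 / 4 * sK N + 1 / 2 * sY N + 1 / 8 * sc N) ∈ I O π 4 := by
  unfold sW sK sY sc
  rw [split2, x_zero, mul_sum, mul_sum, mul_sum, ← sum_add_distrib, ← sum_add_distrib]
  have e : (0 : ℚ) ^ 2 * Hs N 0 = 0 := by ring
  rw [e, zero_add, ← sum_sub_distrib]
  refine AddSubgroup.sum_mem _ fun j hj => ?_
  have hj := mem_range.1 hj
  have h1 := D.hx (2 * j + 2) (by omega) (by omega)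
  have h3 := pair4 D (a := 2 * j + 2) (b := 2 * N - 1 - 2 * j) (by omega) (by omega) (by omega)
  have h4 := Hs_refl D (2 * j + 2) (by omega)
  have h5 := Hs_I D (m := 2 * N - 1 - 2 * j) (by omega)
  rw [show 2 * N + 1 - (2 * j + 2) = 2 * N - 1 - 2 * j by omega] at h4
  have e2 : Hs N (2 * j + 2 + 1) = Hs N (2 * j + 2) + x N (2 * j + 2) := by
    unfold Hs; rw [sum_range_succ]
  have e3 : Hs N (2 * j + 2) = 1 / 2 * Hs N (j + 1) + Od N (j + 1) := by
    unfold Hs Od
    clear hj h1 h3 h4 h5 e2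
    have : ∀ j : ℕ, ∑ l ∈ range (2 * j + 2), x N l = 1 / 2 * ∑ l ∈ range (j + 1), x N l +
        ∑ l ∈ range (j + 1), x N (2 * l + 1) := by
      intro j
      induction j with
      | zero => simp [sum_range_succ, x_zero]
      | succ j ih =>
        rw [show 2 * (j + 1) + 2 = 2 * j + 2 + 1 + 1 by ring, sum_range_succ, sum_range_succ, ih,
          sum_range_succ _ (j + 1), sum_range_succ _ (j + 1), x_half,
          show 2 * j + 2 + 1 = 2 * (j + 1) + 1 by ring]
        ring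
    exact this j
  rw [e2] at h4
  have k1 := mul_I h3 h5
  have k2 := mul_I (mul_I h1 h1) h4
  have := (I O π 4).add_mem k1 k2
  convert this using 1
  rw [e3, x_half]
  ring

theorem R1 : 3 / 2 * sa N + 7 / 4 * sc N ∈ I O π 4 := by
  have f1 : ∑ m ∈ range (2 * N + 1), x N m ^ 2 - (2 * sa N + 2 * sc N) ∈ I O π 4 := by
    unfold sa sc
    rw [split1, x_zero, mul_sum, mul_sum, ← sum_add_distrib, zero_pow two_ne_zero, zero_add,
      ← sum_sub_distrib]
    refine AddSubgroup.sum_mem _ fun j hj => ?_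
    have hj := mem_range.1 hj
    have := pair3 D (a := j + 1) (b := 2 * N - j) (by omega) (by omega) (by omega)
    convert this using 1
    ring
  have f2 : ∑ m ∈ range (2 * N + 1), x N m ^ 2 - (1 / 2 * sa N + 1 / 4 * sc N) ∈ I O π 4 := by
    unfold sa sc
    rw [split2, x_zero, mul_sum, mul_sum, ← sum_add_distrib, zero_pow two_ne_zero, zero_add,
      ← sum_sub_distrib]
    refine AddSubgroup.sum_mem _ fun j hj => ?_
    have hj := mem_range.1 hj
    have := pair3 D (a := 2 * j + 2) (b := 2 * N - 1 - 2 * j) (by omega) (by omega) (by omega)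
    convert this using 1
    rw [x_half]
    ring
  have := (I O π 4).sub_mem f2 f1
  convert this using 1
  ring

theorem xj {j : ℕ} (hj : j < N) : x N (j + 1) ∈ I O π 1 := D.hx _ (by omega) (by omega)

theorem one_sub_U {y : ℚ} (hy : y ∈ I O π 1) : U O (1 - y) :=
  D.hloc 1 _ U.one (by convert hy using 1; ring)

theorem one_add_U {y : ℚ} (hy : y ∈ I O π 1) : U O (1 + y) :=
  D.hloc 1 _ U.one (by convert (I O π 1).neg_mem hy using 1; ring)

theorem PA_exp : PA N - 1 - 1 / 4 * sc N ∈ I O π 4 ∧ PA N - 1 ∈ I O π 2 := by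
  have f : ∀ j ∈ range N, ((1 - x N (j + 1) / 2) ^ 2 * ((1 - x N (j + 1) ^ 2 / 4) /
      (1 - x N (j + 1)))) - 1 - 1 / 4 * x N (j + 1) ^ 3 ∈ I O π 4 := by
    intro j hj
    have hx := xj D (mem_range.1 hj)
    have hU := one_sub_U D hx
    have k1 := mul_O (O.mul_mem (O.mul_mem (nat_O 3) (O.mul_mem (quarter_O D) (quarter_O D)))
      hU.2.1) (mul_I (mul_I hx hx) (mul_I hx hx))
    convert k1 using 1
    have := hU.2.2
    push_cast
    field_simp
    ring
  have c3 : ∀ j ∈ range N, 1 / 4 * x N (j + 1) ^ 3 ∈ I O π 2 := by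
    intro j hj
    have hx := xj D (mem_range.1 hj)
    have := mono D.hπ (show 2 ≤ 1 * 3 by omega) (mul_O (quarter_O D) (pow_I hx 3))
    exact this
  have g : ∀ j ∈ range N, ((1 - x N (j + 1) / 2) ^ 2 * ((1 - x N (j + 1) ^ 2 / 4) /
      (1 - x N (j + 1)))) - 1 ∈ I O π 2 := by
    intro j hj
    have := (I O π 2).add_mem (mono D.hπ (show 2 ≤ 4 by omega) (f j hj)) (c3 j hj)
    rwa [sub_add_cancel] at this
  have h1 := prod_exp D.hπ g
  have h2 := prod_one D.hπ g
  refine ⟨?_, h2⟩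
  have h3 : ∑ j ∈ range N, (((1 - x N (j + 1) / 2) ^ 2 * ((1 - x N (j + 1) ^ 2 / 4) /
      (1 - x N (j + 1)))) - 1 - 1 / 4 * x N (j + 1) ^ 3) ∈ I O π 4 :=
    AddSubgroup.sum_mem _ f
  rw [sum_sub_distrib, ← mul_sum] at h3
  have := (I O π 4).add_mem h1 h3
  unfold PA sc
  convert this using 1
  ring

theorem PB_exp : PB N - 1 + (3 / 2 * sa N + 2 * sc N) ∈ I O π 4 ∧ PB N - 1 ∈ I O π 2 := by
  have f : ∀ j ∈ range N, ((1 - 2 * x N (j + 1)) * ((1 - x N (j + 1) ^ 2 / 4) /
      (1 - x N (j + 1))) ^ 2) - 1 + (3 / 2 * x N (j + 1) ^ 2 + 2 * x N (j + 1) ^ 3) ∈ I O π 4 := by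
    intro j hj
    have hx := xj D (mem_range.1 hj)
    have hU := one_sub_U D hx
    have k0 : (1 / 16 : ℚ) * (-39 + 30 * x N (j + 1)) ∈ O := by
      refine O.mul_mem ?_ (O.add_mem ?_ (O.mul_mem (nat_O 30) (toO D.hπ hx)))
      · have := O.mul_mem (quarter_O D) (quarter_O D)
        convert this using 1
        norm_num
      · have := O.neg_mem (nat_O (O := O) 39)
        exact_mod_cast this
    have k1 := mul_O (O.mul_mem k0 (O.pow_mem hU.2.1 2)) (mul_I (mul_I hx hx) (mul_I hx hx))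
    convert k1 using 1
    have := hU.2.2
    field_simp
    ring
  have c3 : ∀ j ∈ range N, 3 / 2 * x N (j + 1) ^ 2 + 2 * x N (j + 1) ^ 3 ∈ I O π 2 := by
    intro j hj
    have hx := xj D (mem_range.1 hj)
    have a1 := mul_O (O.mul_mem (nat_O (O := O) 3) (half_O D)) (pow_I hx 2)
    have a2 := mono D.hπ (show 2 ≤ 1 * 3 by omega) (mul_O D.two.1 (pow_I hx 3))
    have := (I O π 2).add_mem a1 a2
    convert this using 1
    push_cast
    ring
  have g : ∀ j ∈ range N, ((1 - 2 * x N (j + 1)) * ((1 - x N (j + 1) ^ 2 / 4) /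
      (1 - x N (j + 1))) ^ 2) - 1 ∈ I O π 2 := by
    intro j hj
    have := (I O π 2).sub_mem (mono D.hπ (show 2 ≤ 4 by omega) (f j hj)) (c3 j hj)
    rwa [add_sub_cancel_right] at this
  have h1 := prod_exp D.hπ g
  have h2 := prod_one D.hπ g
  refine ⟨?_, h2⟩
  have h3 : ∑ j ∈ range N, (((1 - 2 * x N (j + 1)) * ((1 - x N (j + 1) ^ 2 / 4) /
      (1 - x N (j + 1))) ^ 2) - 1 + (3 / 2 * x N (j + 1) ^ 2 + 2 * x N (j + 1) ^ 3)) ∈ I O π 4 :=
    AddSubgroup.sum_mem _ f
  rw [sum_add_distrib, sum_add_distrib, ← mul_sum, ← mul_sum] at h3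
  have := (I O π 4).add_mem h1 h3
  unfold PB sa sc
  convert this using 1
  ring

omit D in
theorem Hs_succ (N j : ℕ) : ∑ l ∈ range j, x N (l + 1) = Hs N (j + 1) := by
  unfold Hs
  rw [sum_range_succ', x_zero, add_zero]

end Q278.HS
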