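import Pool.Agent.Q278.HS

set_option autoImplicit false

/-! The two sums modulo the fourth power. -/

namespace Q278.HS

open Finset Q278.HA Q278.HB Q278.Loc Q278.Unit Q278.SP

variable {O : Subring ℚ} {π : ℚ}

/-- three factors -/
theorem three {A B C a b c : ℚ} (hπ : π ∈ O) (hA : A - 1 - a ∈ I O π 2) (hB : B - 1 - b ∈ I O π 2)
    (hC : C - 1 - c ∈ I O π 2) (ha : a ∈ I O π 1) (hb : b ∈ I O π 1) (hc : c ∈ I O π 1) :
    A * B * C - (1 + a + b + c) ∈ I O π 2 := by
  have oa := toO hπ ha
  have ob := toO hπ hb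
  have oc := toO hπ hc
  have oB : B ∈ O := by
    have := O.add_mem (toO hπ hB) (O.add_mem O.one_mem ob)
    convert this using 1; ring
  have oC : C ∈ O := by
    have := O.add_mem (toO hπ hC) (O.add_mem O.one_mem oc)
    convert this using 1; ring
  have k1 := mul_O (O.mul_mem oB oC) hA
  have k2 := mul_O (O.mul_mem (O.add_mem O.one_mem oa) oC) hB
  have k3 := mul_O (O.mul_mem (O.add_mem O.one_mem oa) (O.add_mem O.one_mem ob)) hC
  have k4 := mul_I ha hb
  have k5 := mul_O (O.add_mem O.one_mem ob) (mul_I ha hc)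
  have k6 := mul_I hb hc
  have := (I O π 2).add_mem ((I O π 2).add_mem ((I O π 2).add_mem k1 k2) k3)
    ((I O π 2).add_mem ((I O π 2).add_mem k4 k5) k6)
  convert this using 1
  ring

variable {N : ℕ} (D : Hy O π N)

include D

theorem x_oI {l : ℕ} (h1 : 0 < l) (h2 : l < 2 * N + 1) : x N l ∈ I O π 1 := D.hx l h1 h2

theorem RA_exp {j : ℕ} (hj : j < N) :
    RA N j - (1 + -Hs N (j + 1) + 2 * Od N (j + 1) + x N (j + 1) / 2) ∈ I O π 2 := by
  unfold RA
  have hxj := xj D hj
  have hxj2 : x N (j + 1) / 2 ∈ I O π 1 := by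
    have := mul_O (half_O D) hxj
    convert this using 1; ring
  apply three D.hπ
  · have h : ∀ l ∈ range j, (1 - x N (l + 1)) - 1 ∈ I O π 1 := by
      intro l hl
      have := mem_range.1 hl
      have := (I O π 1).neg_mem (x_oI D (l := l + 1) (by omega) (by omega))
      convert this using 1; ring
    have := prod_exp D.hπ h
    rw [← Hs_succ]
    convert this using 1
    simp only [sub_sub_cancel_left, sum_neg_distrib]
  · have h0 : ∀ l ∈ range (j + 1), 2 * x N (2 * l + 1) ∈ I O π 1 := by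
      intro l hl
      have := mem_range.1 hl
      exact mul_O D.two.1 (x_oI D (by omega) (by omega))
    have h1 : ∀ l ∈ range (j + 1), (1 - 2 * x N (2 * l + 1))⁻¹ - 1 - 2 * x N (2 * l + 1) ∈
        I O π 2 := by
      intro l hl
      have hU := one_sub_U D (h0 l hl)
      have := mul_O hU.2.1 (mul_I (h0 l hl) (h0 l hl))
      convert this using 1
      have := hU.2.2
      field_simp
      ring
    have h : ∀ l ∈ range (j + 1), (1 - 2 * x N (2 * l + 1))⁻¹ - 1 ∈ I O π 1 := by
      intro l hl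
      have := (I O π 1).add_mem (mono D.hπ (show 1 ≤ 2 by omega) (h1 l hl)) (h0 l hl)
      rwa [sub_add_cancel] at this
    have k1 := prod_exp D.hπ h
    have k2 := AddSubgroup.sum_mem _ h1
    rw [sum_sub_distrib, ← mul_sum] at k2
    have := (I O π 2).add_mem k1 k2
    unfold Od
    convert this using 1
    ring
  · have hU := one_sub_U D hxj2
    have := mul_O hU.2.1 (mul_I hxj2 hxj2)
    convert this using 1
    have := hU.2.2
    generalize x N (j + 1) / 2 = y at *
    field_simp
    ring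
  · exact (I O π 1).neg_mem (Hs_I D (by omega))
  · exact mul_O D.two.1 (Od_I D (by omega))
  · exact hxj2

theorem RB_exp {j : ℕ} (hj : j < N) :
    RB N j - (1 + Hs N (j + 1) + -2 * Od N (j + 1) + -(x N (j + 1) / 2)) ∈ I O π 2 := by
  unfold RB
  have hxj := xj D hj
  have hxj2 : x N (j + 1) / 2 ∈ I O π 1 := by
    have := mul_O (half_O D) hxj
    convert this using 1; ring
  apply three D.hπ
  · have h : ∀ l ∈ range j, (1 + x N (l + 1)) - 1 ∈ I O π 1 := by
      intro l hl
      have := mem_range.1 hl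
      have := x_oI D (l := l + 1) (by omega) (by omega)
      convert this using 1; ring
    have := prod_exp D.hπ h
    rw [← Hs_succ]
    convert this using 1
    simp only [add_sub_cancel_left]
  · have h0 : ∀ l ∈ range (j + 1), x N (2 * l + 1) ∈ I O π 1 := by
      intro l hl
      have := mem_range.1 hl
      exact x_oI D (by omega) (by omega)
    have h1 : ∀ l ∈ range (j + 1), kB (x N (2 * l + 1)) - 1 - (-2 * x N (2 * l + 1)) ∈
        I O π 2 := by
      intro l hl
      have hU := one_add_U D (mul_O (nat_O 3) (h0 l hl))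
      have := mul_O (O.mul_mem (nat_O 4) hU.2.1) (mul_I (h0 l hl) (h0 l hl))
      convert this using 1
      have := hU.2.2
      unfold kB
      push_cast at this ⊢
      generalize x N (2 * l + 1) = y at *
      have e := inv_mul_cancel₀ this
      linear_combination (1 - 2 * y) * e
    have h : ∀ l ∈ range (j + 1), kB (x N (2 * l + 1)) - 1 ∈ I O π 1 := by
      intro l hl
      have := (I O π 1).sub_mem (mono D.hπ (show 1 ≤ 2 by omega) (h1 l hl))
        (mul_O D.two.1 (h0 l hl))
      convert this using 1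
      ring
    have k1 := prod_exp D.hπ h
    have k2 := AddSubgroup.sum_mem _ h1
    rw [sum_sub_distrib, ← mul_sum] at k2
    have := (I O π 2).add_mem k1 k2
    unfold Od
    convert this using 1
    ring
  · have hU := one_add_U D hxj2
    have := mul_O hU.2.1 (mul_I hxj2 hxj2)
    convert this using 1
    have := hU.2.2
    generalize x N (j + 1) / 2 = y at *
    field_simp
    ring
  · exact Hs_I D (by omega)
  · have := (I O π 1).neg_mem (mul_O D.two.1 (Od_I D (j := j + 1) (by omega)))
    convert this using 1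
    ring
  · exact (I O π 1).neg_mem hxj2

theorem SA_exp : ∑ j ∈ range N, x N (j + 1) ^ 2 / 2 * RA N j -
    (1 / 2 * sa N - 1 / 2 * sK N + sY N + 1 / 4 * sc N) ∈ I O π 4 := by
  unfold sa sK sY sc
  rw [mul_sum, mul_sum, mul_sum, ← sum_sub_distrib, ← sum_add_distrib, ← sum_add_distrib,
    ← sum_sub_distrib]
  refine AddSubgroup.sum_mem _ fun j hj => ?_
  have hj := mem_range.1 hj
  have h1 := xj D hj
  have h2 := mul_O (half_O D) (mul_I (mul_I h1 h1) (RA_exp D hj))
  convert h2 using 1
  ring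

theorem SB_exp : ∑ j ∈ range N, x N (j + 1) ^ 2 / 2 * RB N j -
    (1 / 2 * sa N + 1 / 2 * sK N - sY N - 1 / 4 * sc N) ∈ I O π 4 := by
  unfold sa sK sY sc
  rw [mul_sum, mul_sum, mul_sum, ← sum_add_distrib, ← sum_sub_distrib, ← sum_sub_distrib,
    ← sum_sub_distrib]
  refine AddSubgroup.sum_mem _ fun j hj => ?_
  have hj := mem_range.1 hj
  have h1 := xj D hj
  have h2 := mul_O (half_O D) (mul_I (mul_I h1 h1) (RB_exp D hj))
  convert h2 using 1
  ring

theorem R_O {j : ℕ} (hj : j < N) : RA N j ∈ O ∧ RB N j ∈ O := by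
  have h1 := toO D.hπ (RA_exp D hj)
  have h2 := toO D.hπ (RB_exp D hj)
  have h3 := toO D.hπ (Hs_I D (m := j + 1) (by omega))
  have h4 := toO D.hπ (Od_I D (j := j + 1) (by omega))
  have h5 := O.mul_mem (half_O D) (toO D.hπ (xj D hj))
  have o2 := D.two.1
  constructor
  · have := O.add_mem h1 (O.add_mem (O.add_mem (O.add_mem O.one_mem (O.neg_mem h3))
      (O.mul_mem o2 h4)) h5)
    convert this using 1
    ring
  · have := O.add_mem h2 (O.add_mem (O.add_mem (O.add_mem O.one_mem h3)
      (O.neg_mem (O.mul_mem o2 h4))) (O.neg_mem h5))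
    convert this using 1
    ring

theorem S_I : ∑ j ∈ range N, x N (j + 1) ^ 2 / 2 * RA N j ∈ I O π 2 ∧
    ∑ j ∈ range N, x N (j + 1) ^ 2 / 2 * RB N j ∈ I O π 2 := by
  constructor
  · refine AddSubgroup.sum_mem _ fun j hj => ?_
    have hj := mem_range.1 hj
    have h1 := xj D hj
    have h2 := mul_O (O.mul_mem (half_O D) (R_O D hj).1) (mul_I h1 h1)
    convert h2 using 1
    ring
  · refine AddSubgroup.sum_mem _ fun j hj => ?_
    have hj := mem_range.1 hj
    have h1 := xj D hj
    have h2 := mul_O (O.mul_mem (half_O D) (R_O D hj).2) (mul_I h1 h1)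
    convert h2 using 1
    ring

/-- the first sum in terms of the four harmonic sums -/
theorem mainA : PA N * (1 + ∑ j ∈ range N, x N (j + 1) ^ 2 / 2 * RA N j) -
    (1 + 1 / 2 * sa N + 1 / 2 * sc N - 1 / 2 * sK N + sY N) ∈ I O π 4 := by
  have h1 := PA_exp D
  have h2 := SA_exp D
  have h3 := (S_I D).1
  have k := mul_I h1.2 h3
  have := (I O π 4).add_mem ((I O π 4).add_mem h1.1 h2) k
  convert this using 1
  ring

/-- the second sum in terms of the four harmonic sums -/
theorem mainB : PB N * (1 + ∑ j ∈ range N, x N (j + 1) ^ 2 / 2 * RB N j) -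
    (1 - sa N - 9 / 4 * sc N + 1 / 2 * sK N - sY N) ∈ I O π 4 := by
  have h1 := PB_exp D
  have h2 := SB_exp D
  have h3 := (S_I D).2
  have k := mul_I h1.2 h3
  have := (I O π 4).add_mem ((I O π 4).add_mem h1.1 h2) k
  convert this using 1
  ring

/-- the values -/
theorem values (U3 : U O (3 : ℚ)) {β : ℚ} (hc : sc N + 2 * β ∈ I O π 4) (hW : sW N - β ∈ I O π 4) :
    sa N - 7 / 3 * β ∈ I O π 4 ∧ sK N - 3 / 2 * β ∈ I O π 4 ∧ sY N - 7 / 4 * β ∈ I O π 4 := by
  have r1 := R1 D
  have w1 := W1 D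
  have w2 := W2 D
  have hf := half_O D
  have hq := quarter_O D
  have ht : (1 / 3 : ℚ) ∈ O := by
    have := U3.2.1
    convert this using 1
    norm_num
  have hK : sK N - 3 / 2 * β ∈ I O π 4 := by
    have := mul_O hf ((I O π 4).sub_mem ((I O π 4).sub_mem hW w1) hc)
    convert this using 1
    ring
  refine ⟨?_, hK, ?_⟩
  · have k1 := mul_O (O.mul_mem D.two.1 ht) r1
    have k2 := mul_O (O.mul_mem (nat_O 7) (O.mul_mem hf ht)) hc
    have := (I O π 4).sub_mem k1 k2
    convert this using 1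
    push_cast
    ring
  · have k1 := mul_O D.two.1 ((I O π 4).sub_mem hW w2)
    have k2 := mul_O hf hK
    have k3 := mul_O hq hc
    have := (I O π 4).sub_mem ((I O π 4).sub_mem k1 k2) k3
    convert this using 1
    ring

theorem finA (U3 : U O (3 : ℚ)) {β : ℚ} (hc : sc N + 2 * β ∈ I O π 4) (hW : sW N - β ∈ I O π 4) :
    PA N * (1 + ∑ j ∈ range N, x N (j + 1) ^ 2 / 2 * RA N j) - (1 + 7 / 6 * β) ∈ I O π 4 := by
  have h := mainA D
  obtain ⟨ha, hK, hY⟩ := values D U3 hc hW
  have hf := half_O D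
  have := (I O π 4).add_mem ((I O π 4).add_mem ((I O π 4).add_mem h (mul_O hf ha))
    (mul_O hf hc)) ((I O π 4).sub_mem hY (mul_O hf hK))
  convert this using 1
  ring

theorem finB (U3 : U O (3 : ℚ)) {β : ℚ} (hc : sc N + 2 * β ∈ I O π 4) (hW : sW N - β ∈ I O π 4) :
    PB N * (1 + ∑ j ∈ range N, x N (j + 1) ^ 2 / 2 * RB N j) - (1 + 7 / 6 * β) ∈ I O π 4 := by
  have h := mainB D
  obtain ⟨ha, hK, hY⟩ := values D U3 hc hW
  have hf := half_O D
  have hq := quarter_O D
  have := (I O π 4).sub_mem ((I O π 4).sub_mem ((I O π 4).sub_mem h ha)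
    (mul_O (O.mul_mem (nat_O 9) hq) hc)) ((I O π 4).sub_mem hY (mul_O hf hK))
  convert this using 1
  push_cast
  ring

end Q278.HS
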