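import Pool.Agent.Q278.HF

set_option autoImplicit false

/-! The two truncated sums for `p = 3`. -/

namespace Q278.HT

open Finset Q278.HA Q278.HB Q278.HS Q278.Loc Q278.Unit Q278.SP Q278.EE Q278.MG Q278.HP Q278.HF

/-- one exceptional factor -/
theorem prod_single {ι : Type*} [DecidableEq ι] {O : Subring ℚ} {π : ℚ} (hπ : π ∈ O) {s : Finset ι}
    {f : ι → ℚ} {k : ℕ} {i0 : ι} (hi0 : i0 ∈ s) (h0 : f i0 ∈ O)
    (h : ∀ i ∈ s, i ≠ i0 → f i - 1 ∈ I O π k) : ∏ i ∈ s, f i - f i0 ∈ I O π k := by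
  rw [← mul_prod_erase s f hi0]
  have h1 := prod_one hπ (s := s.erase i0) (f := f) (j := k) (by
    intro i hi
    rw [mem_erase] at hi
    exact h i hi.2 hi.1)
  have := mul_O h0 h1
  convert this using 1
  ring

variable {N r : ℕ} (hN : 2 * N + 1 = 3 ^ (r + 1))

theorem U_n {m : ℤ} (hm : ¬ (3 : ℤ) ∣ m) : U (PI.O 3) (m : ℚ) := U_int hm

theorem Fi : (1 / 5 : ℚ) ∈ (PI.O 3) := by
  have := (U_n (m := 5) (by decide)).2.1
  convert this using 1
  norm_num

theorem Tw : (1 / 2 : ℚ) ∈ (PI.O 3) := by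
  have := (U_n (m := 2) (by decide)).2.1
  convert this using 1
  norm_num

include hN

theorem D : Hy (PI.O 3) ((3 : ℕ) : ℚ) N := hy (h := 1) (by norm_num) hN

theorem xP : x N (3 ^ r) = 3 := by
  have := x_P (h := 1) (p := 3) (by norm_num) hN 1
  rw [mul_one] at this
  rw [this]
  unfold x
  norm_num

theorem facts : 0 < 3 ^ r ∧ 2 * N + 1 = 3 * 3 ^ r ∧ Odd (3 ^ r) := by
  refine ⟨by positivity, by rw [hN, pow_succ]; ring, ?_⟩
  exact Odd.pow (by decide)

theorem multiples {m : ℕ} (h0 : 0 < m) (h1 : m < 2 * 3 ^ r) (hne : m ≠ 3 ^ r) :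
    x N m ∈ I (PI.O 3) ((3 : ℕ) : ℚ) 2 := by
  apply x_two hN
  rintro ⟨c, hc⟩
  rcases Nat.lt_or_ge c 2 with h2 | h2
  · interval_cases c
    · omega
    · omega
  · have : 3 ^ r * 2 ≤ 3 ^ r * c := Nat.mul_le_mul_left _ h2
    omega

theorem sum_red (R : ℕ → ℚ) (hR : ∀ j, j < N → R j ∈ (PI.O 3)) :
    ∑ j ∈ range N, x N (j + 1) ^ 2 / 2 * R j - 9 / 2 * R (3 ^ r - 1) ∈ I (PI.O 3) ((3 : ℕ) : ℚ) 4 := by
  obtain ⟨f1, f2, -⟩ := facts hN
  have e : ∑ j ∈ range N, x N (j + 1) ^ 2 / 2 * R j =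
      ∑ m ∈ range (N + 1), x N m ^ 2 / 2 * R (m - 1) := by
    rw [sum_range_succ' _ N, x_zero]
    simp
  have h1 := red (O := PI.O 3) (π := ((3 : ℕ) : ℚ)) (k := 4) (M := N + 1) (M' := 1 + 1)
    (f := fun m => x N m ^ 2 / 2 * R (m - 1)) f1 (hM1 (p := 3) (h := 1) (by norm_num) hN) (by
      intro j hj hj2
      have hj0 : j ≠ 0 := by rintro rfl; exact hj2 (dvd_zero _)
      have a1 := pow_I (x_two hN hj2) 2
      have a2 := hR (j - 1) (by omega)
      have := mul_O ((PI.O 3).mul_mem Tw a2) a1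
      convert this using 1
      ring)
  rw [← e] at h1
  have e2 : ∑ j ∈ range (1 + 1), x N (3 ^ r * j) ^ 2 / 2 * R (3 ^ r * j - 1) =
      9 / 2 * R (3 ^ r - 1) := by
    rw [sum_range_succ, sum_range_one, mul_zero, mul_one, x_zero, xP hN]
    ring
  rw [e2] at h1
  exact h1

theorem PA3 : PA N - 5 / 32 ∈ I (PI.O 3) ((3 : ℕ) : ℚ) 4 := by
  obtain ⟨f1, f2, -⟩ := facts hN
  have e : ((1 - x N (3 ^ r - 1 + 1) / 2) ^ 2 * ((1 - x N (3 ^ r - 1 + 1) ^ 2 / 4) /
      (1 - x N (3 ^ r - 1 + 1)))) = 5 / 32 := by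
    rw [Nat.sub_add_cancel f1, xP hN]; norm_num
  have h := prod_single (O := PI.O 3) (π := ((3 : ℕ) : ℚ)) p_mem (s := range N) (k := 4)
    (f := fun j => ((1 - x N (j + 1) / 2) ^ 2 * ((1 - x N (j + 1) ^ 2 / 4) /
      (1 - x N (j + 1))))) (i0 := 3 ^ r - 1) (mem_range.2 (by omega)) (by
        rw [e]
        have := (PI.O 3).mul_mem (nat_O (O := PI.O 3) 5) ((PI.O 3).pow_mem Tw 5)
        convert this using 1
        norm_num) (by
        intro j hj hne
        have hj := mem_range.1 hj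
        have hX := multiples hN (m := j + 1) (by omega) (by omega) (by omega)
        have hU := one_sub_U (D hN) (mono p_mem (show 1 ≤ 2 by omega) hX)
        have k1 := mul_O ((PI.O 3).pow_mem Tw 2) (pow_I hX 3)
        have k2 := mul_O ((PI.O 3).mul_mem ((PI.O 3).mul_mem (nat_O 3) ((PI.O 3).pow_mem Tw 4))
          hU.2.1) (pow_I hX 4)
        have := (I (PI.O 3) ((3 : ℕ) : ℚ) 4).add_mem (mono p_mem (show 4 ≤ 2 * 3 by omega) k1)
          (mono p_mem (show 4 ≤ 2 * 4 by omega) k2)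
        convert this using 1
        have := hU.2.2
        push_cast
        field_simp
        ring)
  rw [e] at h
  exact h

theorem PB3 : PB N + 125 / 64 ∈ I (PI.O 3) ((3 : ℕ) : ℚ) 4 := by
  obtain ⟨f1, f2, -⟩ := facts hN
  have e : ((1 - 2 * x N (3 ^ r - 1 + 1)) * ((1 - x N (3 ^ r - 1 + 1) ^ 2 / 4) /
      (1 - x N (3 ^ r - 1 + 1))) ^ 2) = -(125 / 64) := by
    rw [Nat.sub_add_cancel f1, xP hN]; norm_num
  have h := prod_single (O := PI.O 3) (π := ((3 : ℕ) : ℚ)) p_mem (s := range N) (k := 4)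
    (f := fun j => ((1 - 2 * x N (j + 1)) * ((1 - x N (j + 1) ^ 2 / 4) /
      (1 - x N (j + 1))) ^ 2)) (i0 := 3 ^ r - 1) (mem_range.2 (by omega)) (by
        rw [e]
        have := (PI.O 3).neg_mem ((PI.O 3).mul_mem (nat_O (O := PI.O 3) 125) ((PI.O 3).pow_mem Tw 6))
        convert this using 1
        norm_num) (by
        intro j hj hne
        have hj := mem_range.1 hj
        have hX := multiples hN (m := j + 1) (by omega) (by omega) (by omega)
        have hU := one_sub_U (D hN) (mono p_mem (show 1 ≤ 2 by omega) hX)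
        have oX := toO p_mem hX
        have k0 : (-(3 / 2) - 2 * x N (j + 1) + (1 / 2) ^ 4 * (-39 + 30 * x N (j + 1)) *
            ((1 - x N (j + 1))⁻¹) ^ 2 * x N (j + 1) ^ 2 : ℚ) ∈ (PI.O 3) := by
          have a0 := (PI.O 3).mul_mem (nat_O (O := PI.O 3) 3) Tw
          have a1 := (PI.O 3).mul_mem (nat_O (O := PI.O 3) 2) oX
          have a2 := (PI.O 3).add_mem ((PI.O 3).neg_mem (nat_O (O := PI.O 3) 39))
            ((PI.O 3).mul_mem (nat_O (O := PI.O 3) 30) oX)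
          have a3 := (PI.O 3).mul_mem ((PI.O 3).mul_mem ((PI.O 3).mul_mem
            ((PI.O 3).pow_mem Tw 4) a2) ((PI.O 3).pow_mem hU.2.1 2)) ((PI.O 3).pow_mem oX 2)
          have := (PI.O 3).add_mem ((PI.O 3).sub_mem ((PI.O 3).neg_mem a0) a1) a3
          convert this using 1
          push_cast
          ring
        have := mul_O k0 (pow_I hX 2)
        convert this using 1
        have := hU.2.2
        field_simp
        ring)
  rw [e, sub_neg_eq_add] at h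
  exact h

/-- the second products -/
theorem R3 {α β γ : ℚ → ℚ} {b c : ℚ} (hα : ∀ X ∈ I (PI.O 3) ((3 : ℕ) : ℚ) 2, α X - 1 ∈ I (PI.O 3) ((3 : ℕ) : ℚ) 2)
    (hβ : ∀ X ∈ I (PI.O 3) ((3 : ℕ) : ℚ) 2, β X - 1 ∈ I (PI.O 3) ((3 : ℕ) : ℚ) 2) (hb : β 3 = b) (hc : γ 3 = c)
    (ob : b ∈ (PI.O 3)) (oc : c ∈ (PI.O 3)) :
    (∏ l ∈ range (3 ^ r - 1), α (x N (l + 1))) * (∏ l ∈ range (3 ^ r - 1 + 1), β (x N (2 * l + 1))) *
      γ (x N (3 ^ r - 1 + 1)) - b * c ∈ I (PI.O 3) ((3 : ℕ) : ℚ) 2 := by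
  obtain ⟨f1, f2, f3⟩ := facts hN
  obtain ⟨l0, hl0⟩ := f3
  have h1 : ∏ l ∈ range (3 ^ r - 1), α (x N (l + 1)) - 1 ∈ I (PI.O 3) ((3 : ℕ) : ℚ) 2 := by
    apply prod_one p_mem
    intro l hl
    have hl := mem_range.1 hl
    exact hα _ (multiples hN (by omega) (by omega) (by omega))
  have h2 : ∏ l ∈ range (3 ^ r - 1 + 1), β (x N (2 * l + 1)) - b ∈ I (PI.O 3) ((3 : ℕ) : ℚ) 2 := by
    have e : β (x N (2 * l0 + 1)) = b := by rw [← hl0, xP hN, hb]
    have := prod_single (O := PI.O 3) (π := ((3 : ℕ) : ℚ)) p_mem (s := range (3 ^ r - 1 + 1)) (k := 2)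
      (f := fun l => β (x N (2 * l + 1))) (i0 := l0) (mem_range.2 (by omega)) (by
        rw [e]
        exact ob) (by
        intro l hl hne
        have hl := mem_range.1 hl
        exact hβ _ (multiples hN (by omega) (by omega) (by omega)))
    rw [e] at this
    exact this
  rw [Nat.sub_add_cancel f1] at *
  rw [xP hN, hc]
  have oB : ∏ l ∈ range (3 ^ r), β (x N (2 * l + 1)) ∈ (PI.O 3) := by
    have := (PI.O 3).add_mem (toO p_mem h2) ob
    rwa [sub_add_cancel] at this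
  have := (I (PI.O 3) ((3 : ℕ) : ℚ) 2).add_mem (mul_O ((PI.O 3).mul_mem oB oc) h1) (mul_O oc h2)
  convert this using 1
  ring

theorem RA3 : RA N (3 ^ r - 1) - 2 / 5 ∈ I (PI.O 3) ((3 : ℕ) : ℚ) 2 := by
  have := R3 hN (α := fun X => 1 - X) (β := fun X => (1 - 2 * X)⁻¹) (γ := fun X => (1 - X / 2)⁻¹)
    (b := -(1 / 5)) (c := -2) (by
      intro X hX
      have := (I (PI.O 3) ((3 : ℕ) : ℚ) 2).neg_mem hX
      convert this using 1
      ring) (by
      intro X hX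
      have hX2 := mul_O (D hN).two.1 hX
      have hU := one_sub_U (D hN) (mono p_mem (show 1 ≤ 2 by omega) hX2)
      have := mul_O hU.2.1 hX2
      convert this using 1
      have := inv_mul_cancel₀ hU.2.2
      linear_combination this) (by norm_num) (by norm_num) ((PI.O 3).neg_mem Fi)
      (by
        have := (PI.O 3).neg_mem (nat_O (O := PI.O 3) 2)
        exact_mod_cast this)
  unfold RA
  convert this using 1
  norm_num

theorem RB3 : RB N (3 ^ r - 1) + 14 / 25 ∈ I (PI.O 3) ((3 : ℕ) : ℚ) 2 := by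
  have := R3 hN (α := fun X => 1 + X) (β := kB) (γ := fun X => (1 + X / 2)⁻¹)
    (b := -(7 / 5)) (c := 2 / 5) (by
      intro X hX
      convert hX using 1
      ring) (by
      intro X hX
      have o3 : (3 : ℚ) ∈ (PI.O 3) := by
        have := nat_O (O := PI.O 3) 3
        exact_mod_cast this
      have hX3 := mul_O o3 hX
      have hU := one_add_U (D hN) (mono p_mem (show 1 ≤ 2 by omega) hX3)
      have h1 := mul_O ((PI.O 3).mul_mem ((PI.O 3).neg_mem ((PI.O 3).mul_mem (nat_O (O := PI.O 3) 2)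
        ((PI.O 3).add_mem (PI.O 3).one_mem (toO p_mem hX)))) hU.2.1) hX
      convert h1 using 1
      have := inv_mul_cancel₀ hU.2.2
      unfold kB
      push_cast
      linear_combination this) (by unfold kB; norm_num) (by norm_num)
      (by
        have := (PI.O 3).neg_mem ((PI.O 3).mul_mem (nat_O (O := PI.O 3) 7) Fi)
        convert this using 1
        norm_num)
      (by
        have := (PI.O 3).mul_mem (nat_O (O := PI.O 3) 2) Fi
        convert this using 1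
        norm_num)
  unfold RB
  convert this using 1
  norm_num

theorem three_case : PA N * (1 + ∑ j ∈ range N, x N (j + 1) ^ 2 / 2 * RA N j) -
    PB N * (1 + ∑ j ∈ range N, x N (j + 1) ^ 2 / 2 * RB N j) ∈ I (PI.O 3) ((3 : ℕ) : ℚ) 4 := by
  have dd := D hN
  have hA := sum_red hN (RA N) (fun j hj => (R_O dd hj).1)
  have hB := sum_red hN (RB N) (fun j hj => (R_O dd hj).2)
  have nine : (9 / 2 : ℚ) ∈ I (PI.O 3) ((3 : ℕ) : ℚ) 2 := ⟨1 / 2, Tw, by norm_num⟩
  have hA2 := mul_I nine (RA3 hN)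
  have hB2 := mul_I nine (RB3 hN)
  have a1 := (I (PI.O 3) ((3 : ℕ) : ℚ) 4).add_mem hA hA2
  have b1 := (I (PI.O 3) ((3 : ℕ) : ℚ) 4).add_mem hB hB2
  have oPA : PA N ∈ (PI.O 3) := by
    have := (PI.O 3).add_mem (toO p_mem (PA3 hN)) ((PI.O 3).mul_mem (nat_O (O := PI.O 3) 5)
      ((PI.O 3).pow_mem Tw 5))
    convert this using 1
    push_cast
    ring
  have oPB : PB N ∈ (PI.O 3) := by
    have := (PI.O 3).sub_mem (toO p_mem (PB3 hN)) ((PI.O 3).mul_mem (nat_O (O := PI.O 3) 125)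
      ((PI.O 3).pow_mem Tw 6))
    convert this using 1
    push_cast
    ring
  have o1 : (1 + 9 / 5 : ℚ) ∈ (PI.O 3) := by
    have := (PI.O 3).add_mem (PI.O 3).one_mem ((PI.O 3).mul_mem (nat_O (O := PI.O 3) 9) Fi)
    convert this using 1
    norm_num
  have o2 : (1 - 63 / 25 : ℚ) ∈ (PI.O 3) := by
    have := (PI.O 3).sub_mem (PI.O 3).one_mem ((PI.O 3).mul_mem (nat_O (O := PI.O 3) 63)
      ((PI.O 3).mul_mem Fi Fi))
    convert this using 1
    norm_num
  have c1 := mul_O oPA a1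
  have c2 := mul_O o1 (PA3 hN)
  have d1 := mul_O oPB b1
  have d2 := mul_O o2 (PB3 hN)
  have last : (81 / 32 : ℚ) ∈ I (PI.O 3) ((3 : ℕ) : ℚ) 4 := ⟨(1 / 2) ^ 5, (PI.O 3).pow_mem Tw 5, by norm_num⟩
  have := (I (PI.O 3) ((3 : ℕ) : ℚ) 4).sub_mem ((I (PI.O 3) ((3 : ℕ) : ℚ) 4).sub_mem
    ((I (PI.O 3) ((3 : ℕ) : ℚ) 4).add_mem c1 c2) ((I (PI.O 3) ((3 : ℕ) : ℚ) 4).add_mem d1 d2)) last
  convert this using 1
  ring

end Q278.HT

namespace Q278.HT

open Finset Q278.HA Q278.HB Q278.HS Q278.Loc Q278.Unit Q278.SP Q278.EE Q278.MG Q278.HP Q278.HF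

/-- the two sums are congruent, for every odd prime -/
theorem AB {p r : ℕ} (hp : p.Prime) (h2 : p ≠ 2) (hr : 1 ≤ r) : ∃ w : ℚ, ¬ p ∣ w.den ∧
    ∑ k ∈ range ((p ^ r - 1) / 2 + 1), (4 * (k : ℚ) + 1) * u k ^ 4 -
      ∑ k ∈ range (p ^ r), (3 * (k : ℚ) + 1) * u k ^ 3 * 4 ^ k = (p : ℚ) ^ (r + 4) * w := by
  have := Fact.mk hp
  obtain ⟨r, rfl⟩ := Nat.exists_eq_add_of_le' hr
  obtain ⟨h, hh⟩ := hp.odd_of_ne_two h2
  obtain ⟨N, hN⟩ := (hp.odd_of_ne_two h2).pow (n := r + 1)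
  have key : PA N * (1 + ∑ j ∈ range N, x N (j + 1) ^ 2 / 2 * RA N j) -
      PB N * (1 + ∑ j ∈ range N, x N (j + 1) ^ 2 / 2 * RB N j) ∈ I (PI.O p) (p : ℚ) 4 := by
    rcases Nat.lt_or_ge p 5 with h5 | h5
    · have h3 : p = 3 := by
        have := hp.two_le
        interval_cases p
        · exact absurd rfl h2
        · rfl
        · omega
      subst h3
      exact three_case hN.symm
    · have h1 := both (r := r) hh hN.symm h5
      have := (I (PI.O p) (p : ℚ) 4).sub_mem h1.1 h1.2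
      convert this using 1
      ring
  obtain ⟨w, hw, e⟩ := scale (r := r) key
  refine ⟨w, hw, ?_⟩
  rw [← e, hN, show (2 * N + 1 - 1) / 2 = N by omega, prodA, prodB]
  have e2 : (2 * (N : ℚ) + 1) = (p : ℚ) ^ (r + 1) := by exact_mod_cast hN.symm
  rw [e2]

end Q278.HT
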