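import Pool.Agent.Q278.BlkCyc

set_option autoImplicit false

/-! Second order expansions at `q = 1`. -/

namespace Q278.Jet

open Finset Polynomial Q278.Loc Q278.Cyc Q278.Unit Q278.Blk

theorem one_prim : IsPrimitiveRoot (1 : ℂ) 1 := IsPrimitiveRoot.one

theorem Phi_one : Φ 1 = q - 1 := by
  unfold Φ
  rw [cyclotomic_one]
  simp

/-- `x = 1 + u z + v z ^ 2 + O(z ^ 3)` with `z = q - 1`. -/
def J (x : RatFunc ℚ) (u v : ℚ) : Prop :=
  x - (1 + (u : RatFunc ℚ) * (q - 1) + (v : RatFunc ℚ) * (q - 1) ^ 2) ∈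
    I (Reg (1 : ℂ)) (Φ 1) 3

theorem rat_mem (u : ℚ) : (u : RatFunc ℚ) ∈ Reg (1 : ℂ) := by
  have h := poly_mem (η := (1 : ℂ)) (C u)
  have e : algebraMap ℚ[X] (RatFunc ℚ) (C u) = ((u : ℚ) : RatFunc ℚ) := by
    rw [← Polynomial.algebraMap_eq, ← IsScalarTower.algebraMap_apply]
    simp
  rwa [e] at h

theorem z_mem : q - 1 ∈ Reg (1 : ℂ) := (Reg _).sub_mem (X_mem _) (Reg _).one_mem

theorem z_I : q - 1 ∈ I (Reg (1 : ℂ)) (Φ 1) 1 := by
  rw [Phi_one]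
  exact ⟨1, (Reg _).one_mem, by ring⟩

theorem J.main_mem (u v : ℚ) :
    (1 + (u : RatFunc ℚ) * (q - 1) + (v : RatFunc ℚ) * (q - 1) ^ 2) ∈ Reg (1 : ℂ) :=
  (Reg _).add_mem ((Reg _).add_mem (Reg _).one_mem ((Reg _).mul_mem (rat_mem u) z_mem))
    ((Reg _).mul_mem (rat_mem v) ((Reg _).pow_mem z_mem 2))

theorem J.mem {x : RatFunc ℚ} {u v : ℚ} (h : J x u v) : x ∈ Reg (1 : ℂ) := by
  have h1 := (Reg _).add_mem (toO (Φ_mem 1 1) h) (J.main_mem u v)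
  convert h1 using 1
  ring

theorem J.unit {x : RatFunc ℚ} {u v : ℚ} (h : J x u v) : U (Reg (1 : ℂ)) x := by
  apply U_of_ev h.mem
  have h1 : x - 1 ∈ I (Reg (1 : ℂ)) (Φ 1) 1 := by
    have h2 := (I (Reg (1 : ℂ)) (Φ 1) 1).add_mem ((I (Reg (1 : ℂ)) (Φ 1) 1).add_mem
      (mono (Φ_mem 1 1) (show 1 ≤ 3 by norm_num) h) (mul_O (rat_mem u) z_I))
      (mono (Φ_mem 1 1) (show 1 ≤ 2 by norm_num) (mul_O (rat_mem v) (pow_I z_I 2)))
    convert h2 using 1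
    ring
  obtain ⟨y, hy, e⟩ := h1
  have e1 : x = 1 + Φ 1 ^ 1 * y := by rw [← e]; ring
  rw [e1, pow_one, ev_add (Reg _).one_mem ((Reg _).mul_mem (Φ_mem 1 1) hy),
    ev_mul (Φ_mem 1 1) hy, ev_Φ one_pos one_prim, ev_one]
  simp

theorem J.mul {x y : RatFunc ℚ} {u v u' v' : ℚ} (h : J x u v) (h' : J y u' v') :
    J (x * y) (u + u') (v + u * u' + v') := by
  have m1 := h.mem
  have m2 := J.main_mem u v
  have z3 : (q - 1) ^ 3 ∈ I (Reg (1 : ℂ)) (Φ 1) 3 := by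
    have := pow_I z_I 3
    rwa [one_mul] at this
  unfold J at h h' ⊢
  have a1 := mul_O m2 h'
  have hy : y ∈ Reg (1 : ℂ) := J.mem h'
  have a3 := mul_O hy h
  have a4 := mul_O (x := (u : RatFunc ℚ) * v' + v * u' + v * v' * (q - 1))
    ((Reg _).add_mem ((Reg _).add_mem ((Reg _).mul_mem (rat_mem u) (rat_mem v'))
      ((Reg _).mul_mem (rat_mem v) (rat_mem u'))) ((Reg _).mul_mem ((Reg _).mul_mem
      (rat_mem v) (rat_mem v')) z_mem)) z3
  have := (I (Reg (1 : ℂ)) (Φ 1) 3).add_mem ((I (Reg (1 : ℂ)) (Φ 1) 3).add_mem a1 a3) a4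
  convert this using 1
  push_cast
  ring

theorem J.inv {x : RatFunc ℚ} {u v : ℚ} (h : J x u v) : J x⁻¹ (-u) (u ^ 2 - v) := by
  have hx := h.unit
  have z3 : (q - 1) ^ 3 ∈ I (Reg (1 : ℂ)) (Φ 1) 3 := by
    have := pow_I z_I 3
    rwa [one_mul] at this
  unfold J at h ⊢
  apply of_unit_mul hx.2.2 hx.2.1
  have a1 := mul_O (J.main_mem (-u) (u ^ 2 - v)) h
  have a4 := mul_O (x := (u : RatFunc ℚ) * (u ^ 2 - v) - v * u + v * (u ^ 2 - v) * (q - 1))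
    ((Reg _).add_mem ((Reg _).sub_mem ((Reg _).mul_mem (rat_mem u) ((Reg _).sub_mem
      ((Reg _).pow_mem (rat_mem u) 2) (rat_mem v)))
      ((Reg _).mul_mem (rat_mem v) (rat_mem u))) ((Reg _).mul_mem ((Reg _).mul_mem
      (rat_mem v) ((Reg _).sub_mem ((Reg _).pow_mem (rat_mem u) 2) (rat_mem v))) z_mem)) z3
  have := (I (Reg (1 : ℂ)) (Φ 1) 3).neg_mem ((I (Reg (1 : ℂ)) (Φ 1) 3).add_mem a1 a4)
  convert this using 1
  have hx0 := hx.2.2
  rw [mul_sub, mul_inv_cancel₀ hx0]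
  push_cast
  ring

theorem J.one : J 1 0 0 := by
  unfold J
  convert (I (Reg (1 : ℂ)) (Φ 1) 3).zero_mem using 1
  push_cast
  ring

theorem J.q : J q 1 0 := by
  unfold J
  convert (I (Reg (1 : ℂ)) (Φ 1) 3).zero_mem using 1
  push_cast
  ring

theorem J.q_pow (k : ℕ) : J (Q278.Cyc.q ^ k) k (k * (k - 1) / 2) := by
  induction k with
  | zero => simpa using J.one
  | succ k ih =>
    rw [pow_succ]
    convert ih.mul J.q using 1
    · push_cast; ring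
    · push_cast; ring

theorem J.pow {x : RatFunc ℚ} {u v : ℚ} (h : J x u v) (k : ℕ) :
    J (x ^ k) (k * u) (k * v + k * (k - 1) / 2 * u ^ 2) := by
  induction k with
  | zero => simpa using J.one
  | succ k ih =>
    rw [pow_succ]
    convert ih.mul h using 1
    · push_cast; ring
    · push_cast; ring

/-- the `q`-integer -/
theorem J.qint (a : ℕ) : J (((a : RatFunc ℚ) + 1)⁻¹ * ∑ i ∈ range (a + 1), Q278.Cyc.q ^ i)
    (a / 2) (a * (a - 1) / 6) := by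
  have key : ∀ a : ℕ, (∑ i ∈ range (a + 1), Q278.Cyc.q ^ i) - ((a : RatFunc ℚ) + 1) *
      (1 + ((a / 2 : ℚ) : RatFunc ℚ) * (Q278.Cyc.q - 1) +
        ((a * (a - 1) / 6 : ℚ) : RatFunc ℚ) * (Q278.Cyc.q - 1) ^ 2) ∈
      I (Reg (1 : ℂ)) (Φ 1) 3 := by
    intro a
    induction a with
    | zero =>
      convert (I (Reg (1 : ℂ)) (Φ 1) 3).zero_mem using 1
      simp
    | succ a ih =>
      rw [sum_range_succ]
      have h := J.q_pow (a + 1)
      unfold J at h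
      have := (I (Reg (1 : ℂ)) (Φ 1) 3).add_mem ih h
      convert this using 1
      push_cast
      field_simp
      ring
  have h := key a
  unfold J
  have h0 : ((a : RatFunc ℚ) + 1) ≠ 0 := by exact_mod_cast Nat.succ_ne_zero a
  have h1 : ((a : RatFunc ℚ) + 1)⁻¹ ∈ Reg (1 : ℂ) := by
    have := rat_mem ((a + 1 : ℚ)⁻¹)
    push_cast at this
    exact this
  have h2 := mul_O h1 h
  convert h2 using 1
  generalize (1 + ((a / 2 : ℚ) : RatFunc ℚ) * (Q278.Cyc.q - 1) +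
        ((a * (a - 1) / 6 : ℚ) : RatFunc ℚ) * (Q278.Cyc.q - 1) ^ 2) = y
  rw [mul_sub, ← mul_assoc, inv_mul_cancel₀ h0, one_mul]

end Q278.Jet
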