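import Pool.Agent.Q278.Unit

set_option autoImplicit false

/-! A terminating very-well-poised series of Karlsson-Minton type vanishes. -/

namespace Q278.KM

open Finset Polynomial

variable {K : Type*} [Field K]

/-- the lattice -/
def lam (a Q : K) (k : ℕ) : K := (Q ^ k)⁻¹ + a * Q ^ k

/-- the Newton basis -/
def hb (a Q : K) (i k : ℕ) : K := ∏ j ∈ range i, (lam a Q k - lam a Q j)

/-- the weight -/
def w (a Q : K) (N k : ℕ) : K :=
  ∏ l ∈ range k, ((1 - a * Q ^ l) * (Q ^ N - Q ^ l) / ((1 - Q ^ (l + 1)) * (1 - a * Q ^ (N + 1 + l))))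

theorem lam_sub {a Q : K} (hQ : Q ≠ 0) (k j : ℕ) :
    Q ^ (k + j) * (lam a Q k - lam a Q j) = (Q ^ j - Q ^ k) * (1 - a * Q ^ (k + j)) := by
  unfold lam
  have h1 := pow_ne_zero k hQ
  have h2 := pow_ne_zero j hQ
  rw [pow_add]
  field_simp
  ring

theorem hb_ratio {a Q : K} (hQ : Q ≠ 0) (k i : ℕ) :
    (Q ^ i - Q ^ (k + 1)) * (1 - a * Q ^ k) * hb a Q i (k + 1) =
      (1 - Q ^ (k + 1)) * (1 - a * Q ^ (k + i)) * hb a Q i k := by
  induction i with
  | zero => simp [hb]
  | succ i ih =>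
    have e1 : hb a Q (i + 1) (k + 1) = hb a Q i (k + 1) * (lam a Q (k + 1) - lam a Q i) := by
      unfold hb; rw [prod_range_succ]
    have e2 : hb a Q (i + 1) k = hb a Q i k * (lam a Q k - lam a Q i) := by
      unfold hb; rw [prod_range_succ]
    rw [e1, e2]
    have h1 := lam_sub (a := a) hQ (k + 1) i
    have h2 := lam_sub (a := a) hQ k i
    have h3 : Q ^ (k + 1 + i) ≠ 0 := pow_ne_zero _ hQ
    apply mul_left_cancel₀ h3
    have e3 : Q ^ (k + 1 + i) * ((Q ^ (i + 1) - Q ^ (k + 1)) * (1 - a * Q ^ k) *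
        (hb a Q i (k + 1) * (lam a Q (k + 1) - lam a Q i))) =
        (Q ^ (i + 1) - Q ^ (k + 1)) * (1 - a * Q ^ k) * hb a Q i (k + 1) *
        (Q ^ (k + 1 + i) * (lam a Q (k + 1) - lam a Q i)) := by ring
    have e4 : Q ^ (k + 1 + i) * ((1 - Q ^ (k + 1)) * (1 - a * Q ^ (k + (i + 1))) *
        (hb a Q i k * (lam a Q k - lam a Q i))) =
        Q * ((1 - Q ^ (k + 1)) * (1 - a * Q ^ (k + (i + 1))) * hb a Q i k *
        (Q ^ (k + i) * (lam a Q k - lam a Q i))) := by ring
    rw [e3, e4, h1, h2]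
    linear_combination (Q ^ (i + 1) - Q ^ (k + 1)) * (1 - a * Q ^ (k + 1 + i)) * ih

theorem hb_zero (a Q : K) (i : ℕ) : (Q ^ i - Q ^ 0) * hb a Q i 0 = 0 := by
  cases i with
  | zero => simp
  | succ i =>
    have : hb a Q (i + 1) 0 = 0 := by
      unfold hb; rw [prod_range_succ']; simp
    rw [this, mul_zero]

variable {a Q : K} {N : ℕ} (hQ : Q ≠ 0) (h1 : ∀ k ≤ N, 1 - Q ^ (k + 1) ≠ 0)
  (h2 : ∀ k ≤ N, 1 - a * Q ^ (N + 1 + k) ≠ 0)

include hQ h1 h2

theorem tele (i : ℕ) : ∀ k ≤ N + 1, (Q ^ i - Q ^ N) * ∑ j ∈ range k, (1 - a * Q ^ (2 * j)) *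
    w a Q N j * hb a Q i j = -((Q ^ i - Q ^ k) * (1 - a * Q ^ (N + k)) * w a Q N k * hb a Q i k) := by
  intro k
  induction k with
  | zero =>
    intro _
    have := hb_zero a Q i
    rw [range_zero, sum_empty, mul_zero]
    linear_combination ((1 - a * Q ^ (N + 0)) * w a Q N 0) * this
  | succ k ih =>
    intro hk
    have hk' : k ≤ N := by omega
    rw [sum_range_succ, mul_add, ih (by omega)]
    have ew : w a Q N (k + 1) * ((1 - Q ^ (k + 1)) * (1 - a * Q ^ (N + 1 + k))) =
        w a Q N k * ((1 - a * Q ^ k) * (Q ^ N - Q ^ k)) := by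
      unfold w
      rw [prod_range_succ]
      have n1 := h1 k hk'
      have n2 := h2 k hk'
      field_simp
    have hr := hb_ratio (a := a) hQ k i
    have n1 := h1 k hk'
    apply mul_left_cancel₀ n1
    rw [show N + (k + 1) = N + 1 + k by ring]
    have e5 : (1 - Q ^ (k + 1)) * -((Q ^ i - Q ^ (k + 1)) * (1 - a * Q ^ (N + 1 + k)) *
        w a Q N (k + 1) * hb a Q i (k + 1)) =
        -((Q ^ i - Q ^ (k + 1)) * hb a Q i (k + 1) *
          (w a Q N (k + 1) * ((1 - Q ^ (k + 1)) * (1 - a * Q ^ (N + 1 + k))))) := by ring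
    rw [e5, ew]
    have e6 : -((Q ^ i - Q ^ (k + 1)) * hb a Q i (k + 1) *
        (w a Q N k * ((1 - a * Q ^ k) * (Q ^ N - Q ^ k)))) =
        -(w a Q N k * (Q ^ N - Q ^ k) * ((Q ^ i - Q ^ (k + 1)) * (1 - a * Q ^ k) *
          hb a Q i (k + 1))) := by ring
    rw [e6, hr]
    ring

/-- the vanishing on the Newton basis -/
theorem vanish_hb {i : ℕ} (hne : Q ^ i - Q ^ N ≠ 0) :
    ∑ j ∈ range (N + 1), (1 - a * Q ^ (2 * j)) * w a Q N j * hb a Q i j = 0 := by
  have h := tele hQ h1 h2 i (N + 1) le_rfl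
  have hw : w a Q N (N + 1) = 0 := by
    unfold w
    rw [prod_range_succ, sub_self, mul_zero, zero_div, mul_zero]
  rw [hw, mul_zero, zero_mul, neg_zero] at h
  exact (mul_eq_zero.1 h).resolve_left hne

/-- the vanishing of the sum with a polynomial factor -/
theorem vanish (hne : ∀ i < N, Q ^ i - Q ^ N ≠ 0) (P : K[X]) (hP : P.natDegree < N) :
    ∑ j ∈ range (N + 1), (1 - a * Q ^ (2 * j)) * w a Q N j * P.eval (lam a Q j) = 0 := by
  have key : ∀ D : ℕ, ∀ i : ℕ, i + D < N → ∀ P : K[X], P.natDegree ≤ D →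
      ∑ j ∈ range (N + 1), (1 - a * Q ^ (2 * j)) * w a Q N j *
        (hb a Q i j * P.eval (lam a Q j)) = 0 := by
    intro D
    induction D with
    | zero =>
      intro i hi P hP
      obtain ⟨c, rfl⟩ := natDegree_eq_zero.1 (Nat.le_zero.1 hP)
      have h := vanish_hb hQ h1 h2 (i := i) (hne i (by omega))
      have h' := congrArg (fun x => x * c) h
      simp only [zero_mul, sum_mul] at h'
      rw [← h']
      apply sum_congr rfl
      intro j _
      rw [eval_C]; ring
    | succ D ih =>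
      intro i hi P hP
      set r := lam a Q i with hr
      have e1 : P = C (P.eval r) + (X - C r) * (P /ₘ (X - C r)) := by
        conv_lhs => rw [← modByMonic_add_div P (X - C r)]
        rw [modByMonic_X_sub_C_eq_C_eval]
      have hd : (P /ₘ (X - C r)).natDegree ≤ D := by
        rw [natDegree_divByMonic P (monic_X_sub_C r), natDegree_X_sub_C]
        omega
      have t1 := ih i (by omega) (C (P.eval r)) (by rw [natDegree_C]; omega)
      have t2 := ih (i + 1) (by omega) (P /ₘ (X - C r)) hd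
      have t3 : ∀ j, hb a Q i j * P.eval (lam a Q j) = hb a Q i j * (C (P.eval r)).eval (lam a Q j) +
          hb a Q (i + 1) j * (P /ₘ (X - C r)).eval (lam a Q j) := by
        intro j
        conv_lhs => rw [e1]
        have : hb a Q (i + 1) j = hb a Q i j * (lam a Q j - r) := by
          unfold hb; rw [prod_range_succ]
        rw [this, eval_add, eval_mul, eval_sub, eval_X, eval_C]
        simp only [eval_C]
        ring
      simp only [t3, mul_add, sum_add_distrib]
      rw [t1, t2, add_zero]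
  have h := key P.natDegree 0 (by omega) P le_rfl
  rw [← h]
  apply sum_congr rfl
  intro j _
  simp [hb]

end Q278.KM
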