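import Mathlib

set_option autoImplicit false

/-! The sums `∑ C(n,i) C(2i,i) C(2n-2i,n-i)` as coefficients of `∑ C(2k,k)^2 (-X(1+4X))^k`. -/

namespace Q278.Land

open Finset

/-- the numbers -/
def a (n : ℕ) : ℤ := ∑ i ∈ range (n + 1), (n.choose i : ℤ) * ((2 * i).choose i : ℤ) *
  ((2 * (n - i)).choose (n - i) : ℤ)

theorem cb_succ (n : ℕ) : ((n : ℚ) + 1) * ((2 * (n + 1)).choose (n + 1) : ℚ) =
    2 * (2 * n + 1) * ((2 * n).choose n : ℚ) := by
  have h := Nat.succ_mul_centralBinom_succ n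
  rw [Nat.centralBinom_eq_two_mul_choose, Nat.centralBinom_eq_two_mul_choose] at h
  exact_mod_cast h

section PS

open PowerSeries

/-- the Euler operator -/
noncomputable def θ (f : ℚ⟦X⟧) : ℚ⟦X⟧ := X * d⁄dX ℚ f

theorem θ_add (f g : ℚ⟦X⟧) : θ (f + g) = θ f + θ g := by unfold θ; rw [map_add]; ring

theorem θ_mul (f g : ℚ⟦X⟧) : θ (f * g) = θ f * g + f * θ g := by
  unfold θ; rw [Derivation.leibniz, smul_eq_mul, smul_eq_mul]; ring

theorem θ_X : θ X = X := by unfold θ; rw [derivative_X, mul_one]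

theorem θ_coeff (f : ℚ⟦X⟧) (n : ℕ) : coeff n (θ f) = n * coeff n f := by
  unfold θ
  rcases n with _ | n
  · simp
  · rw [coeff_succ_X_mul, coeff_derivative]; push_cast; ring

theorem θ_C (r : ℚ) : θ (C r) = 0 := by unfold θ; rw [derivative_C, mul_zero]

/-- the exponential generating function of the central binomial coefficients -/
noncomputable def W : ℚ⟦X⟧ := mk fun n => ((2 * n).choose n : ℚ) / (n.factorial : ℚ)

theorem W_ode : θ (θ W) = C 4 * X * θ W + C 2 * X * W := by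
  ext n
  rw [map_add, θ_coeff, θ_coeff, mul_assoc, mul_assoc, coeff_C_mul, coeff_C_mul]
  rcases n with _ | n
  · simp
  · rw [coeff_succ_X_mul, coeff_succ_X_mul, θ_coeff]
    simp only [W, coeff_mk]
    have h := cb_succ n
    rw [Nat.factorial_succ]
    have h1 : (n.factorial : ℚ) ≠ 0 := by exact_mod_cast n.factorial_ne_zero
    have h2 : ((n : ℚ) + 1) ≠ 0 := by positivity
    push_cast
    field_simp
    linear_combination h

/-- the square -/
noncomputable def U : ℚ⟦X⟧ := W * W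

theorem U_ode : θ (θ (θ U)) = X * (C 12 * θ (θ U) + C 12 * θ U + C 4 * U) -
    C 32 * X * X * (θ U + U) := by
  have h := W_ode
  unfold U
  set V := θ W with hV
  have h1 : θ (W * W) = C 2 * (W * V) := by
    rw [θ_mul, ← hV]
    rw [show (C 2 : ℚ⟦X⟧) = 2 from rfl]; ring
  have h2 : θ (C 2 * (W * V)) = C 2 * (V * V) + C 2 * (W * (C 4 * X * V + C 2 * X * W)) := by
    rw [θ_mul, θ_C, θ_mul, ← hV, h]; ring
  have h3 : θ (C 2 * (V * V) + C 2 * (W * (C 4 * X * V + C 2 * X * W))) =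
      C 4 * V * (C 4 * X * V + C 2 * X * W) + C 2 * (V * (C 4 * X * V + C 2 * X * W)) +
      C 2 * (W * (C 4 * X * V + C 4 * X * (C 4 * X * V + C 2 * X * W) + C 2 * X * W +
        C 2 * X * V)) := by
    rw [θ_add, θ_mul, θ_C, θ_mul, θ_mul, θ_C, θ_mul, θ_add, θ_mul, θ_mul, θ_mul, θ_mul, θ_C, θ_C,
      θ_X, ← hV, h]
    rw [show (C 4 : ℚ⟦X⟧) = 4 from rfl, show (C 2 : ℚ⟦X⟧) = 2 from rfl]
    ring
  rw [h1, h2, h3]
  rw [show (C 4 : ℚ⟦X⟧) = 4 from rfl, show (C 2 : ℚ⟦X⟧) = 2 from rfl,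
    show (C 12 : ℚ⟦X⟧) = 12 from rfl, show (C 32 : ℚ⟦X⟧) = 32 from rfl]
  ring

theorem U_coeff (n : ℕ) : (n.factorial : ℚ) * coeff n U = a n := by
  unfold U a W
  rw [coeff_mul, Finset.Nat.sum_antidiagonal_eq_sum_range_succ_mk, mul_sum]
  push_cast
  apply sum_congr rfl
  intro i hi
  have hi' : i ≤ n := by have := mem_range.1 hi; omega
  simp only [coeff_mk]
  have h := Nat.choose_mul_factorial_mul_factorial hi'
  have h0 : (n.factorial : ℚ) = n.choose i * i.factorial * (n - i).factorial := by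
    exact_mod_cast h.symm
  have h1 : (i.factorial : ℚ) ≠ 0 := by exact_mod_cast i.factorial_ne_zero
  have h2 : ((n - i).factorial : ℚ) ≠ 0 := by exact_mod_cast (n - i).factorial_ne_zero
  rw [h0]
  field_simp

theorem a_rec (n : ℕ) : ((n : ℤ) + 2) ^ 2 * a (n + 2) =
    4 * (3 * ((n : ℤ) + 1) ^ 2 + 3 * (n + 1) + 1) * a (n + 1) - 32 * ((n : ℤ) + 1) ^ 2 * a n := by
  have h := congrArg (coeff (n + 2)) U_ode
  rw [map_sub, coeff_succ_X_mul, mul_assoc (C 32), mul_assoc (C 32), mul_assoc X, coeff_C_mul,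
    coeff_succ_X_mul, coeff_succ_X_mul, map_add, map_add, map_add, coeff_C_mul,
    coeff_C_mul, coeff_C_mul] at h
  simp only [θ_coeff] at h
  have e0 := U_coeff n
  have e1 := U_coeff (n + 1)
  have e2 := U_coeff (n + 2)
  rw [Nat.factorial_succ] at e1
  rw [show n + 2 = (n + 1) + 1 by ring, Nat.factorial_succ, Nat.factorial_succ,
    show n + 1 + 1 = n + 2 by ring] at e2
  push_cast at e1 e2 h
  have h1 : (n.factorial : ℚ) ≠ 0 := by exact_mod_cast n.factorial_ne_zero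
  have h2 : ((n : ℚ) + 1) ≠ 0 := by positivity
  have h3 : ((n : ℚ) + 2) ≠ 0 := by positivity
  have hq : ((n : ℚ) + 2) ^ 2 * a (n + 2) =
    4 * (3 * ((n : ℚ) + 1) ^ 2 + 3 * (n + 1) + 1) * a (n + 1) - 32 * ((n : ℚ) + 1) ^ 2 * a n := by
    rw [← e0, ← e1, ← e2]
    linear_combination ((n.factorial : ℚ) * (n + 1)) * h
  exact_mod_cast hq

theorem a_zero : a 0 = 1 := by simp [a]

theorem a_one : a 1 = 4 := by decide

end PS

section Pol

open Polynomial

/-- the Euler operator -/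
noncomputable def ϑ (f : ℤ[X]) : ℤ[X] := X * derivative f

theorem ϑ_add (f g : ℤ[X]) : ϑ (f + g) = ϑ f + ϑ g := by unfold ϑ; rw [derivative_add]; ring

theorem ϑ_mul (f g : ℤ[X]) : ϑ (f * g) = ϑ f * g + f * ϑ g := by
  unfold ϑ; rw [derivative_mul]; ring

theorem ϑ_coeff (f : ℤ[X]) (n : ℕ) : (ϑ f).coeff n = n * f.coeff n := by
  unfold ϑ
  rcases n with _ | n
  · simp
  · rw [coeff_X_mul, coeff_derivative]; push_cast; ring

/-- the argument -/
noncomputable def u : ℤ[X] := -(X * (1 + 4 * X))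

theorem ϑ_u_pow (k : ℕ) : (1 + 4 * X) * ϑ (u ^ k) = (k : ℤ[X]) * u ^ k * (1 + 8 * X) := by
  induction k with
  | zero => simp [ϑ]
  | succ k ih =>
    have h1 : (1 + 4 * X) * ϑ u = u * (1 + 8 * X) := by
      have e : ϑ u = -(X * (1 + 8 * X)) := by
        unfold ϑ u
        rw [derivative_neg, derivative_mul, derivative_X, derivative_add, derivative_one,
          derivative_mul, derivative_X, show (4 : ℤ[X]) = C 4 from rfl, derivative_C,
          show (8 : ℤ[X]) = C 8 from rfl, show (C 8 : ℤ[X]) = C 4 + C 4 by rw [← C_add]; norm_num]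
        ring
      rw [e]; unfold u; ring
    rw [pow_succ, ϑ_mul]
    push_cast
    linear_combination u * ih + u ^ k * h1

/-- the differential operator -/
noncomputable def Lop (f : ℤ[X]) : ℤ[X] := (1 + 4 * X) * (1 + 8 * X) * ϑ (ϑ f) +
  (12 * X + 64 * X ^ 2) * ϑ f + (4 * X + 32 * X ^ 2) * f

theorem Lop_add (f g : ℤ[X]) : Lop (f + g) = Lop f + Lop g := by
  unfold Lop; rw [ϑ_add, ϑ_add]; ring

theorem ϑ_C_mul (c : ℤ) (f : ℤ[X]) : ϑ (C c * f) = C c * ϑ f := by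
  rw [ϑ_mul]; unfold ϑ; rw [derivative_C]; ring

theorem Lop_C_mul (c : ℤ) (f : ℤ[X]) : Lop (C c * f) = C c * Lop f := by
  unfold Lop; rw [ϑ_C_mul, ϑ_C_mul]; ring

theorem cancel4 {f g : ℤ[X]} (h : (1 + 4 * X) * f = (1 + 4 * X) * g) : f = g := by
  apply mul_left_cancel₀ _ h
  intro h0
  have := congrArg (eval 0) h0
  simp at this

theorem Lop_u (k : ℕ) : (1 + 4 * X) * Lop (u ^ k) = (1 + 8 * X) * ((k : ℤ[X]) ^ 2 * u ^ k -
    4 * (2 * (k : ℤ[X]) + 1) ^ 2 * u ^ (k + 1)) := by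
  have h1 := ϑ_u_pow k
  have h2 : ϑ ((1 + 4 * X) * ϑ (u ^ k)) = ϑ ((k : ℤ[X]) * u ^ k * (1 + 8 * X)) := by rw [h1]
  have e4 : ϑ (1 + 4 * X) = 4 * X := by
    unfold ϑ; rw [derivative_add, derivative_one, derivative_mul, derivative_X,
      show (4 : ℤ[X]) = C 4 from rfl, derivative_C]; ring
  have e8 : ϑ (1 + 8 * X) = 8 * X := by
    unfold ϑ; rw [derivative_add, derivative_one, derivative_mul, derivative_X,
      show (8 : ℤ[X]) = C 8 from rfl, derivative_C]; ring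
  have ek : ϑ (k : ℤ[X]) = 0 := by unfold ϑ; rw [derivative_natCast, mul_zero]
  rw [ϑ_mul, ϑ_mul, ϑ_mul, e4, e8, ek] at h2
  apply cancel4
  apply cancel4
  unfold Lop
  have e5 : u ^ (k + 1) = -(X * (1 + 4 * X)) * u ^ k := by rw [pow_succ, u]; ring
  rw [e5]
  generalize ϑ (ϑ (u ^ k)) = F2 at *
  generalize ϑ (u ^ k) = F1 at *
  generalize u ^ k = F at *
  generalize (k : ℤ[X]) = κ at *
  -- h1 : (1+4X) F1 = κ F (1+8X);  h2 : 4X F1 + (1+4X) F2 = κ F1 (1+8X) + κ F 8X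
  linear_combination ((1 + 4 * X) ^ 3 * (1 + 8 * X)) * h2 +
    ((1 + 4 * X) ^ 2 * (12 * X + 64 * X ^ 2) + (1 + 4 * X) ^ 2 * (1 + 8 * X) *
      (κ * (1 + 8 * X) - 4 * X)) * h1

/-- the truncated sum -/
noncomputable def P (K : ℕ) : ℤ[X] :=
  ∑ k ∈ range K, C (((2 * k).choose k : ℤ) ^ 2) * u ^ k

theorem Lop_P (K : ℕ) : (1 + 4 * X) * Lop (P K) =
    -((1 + 8 * X) * ((K : ℤ[X]) ^ 2 * C (((2 * K).choose K : ℤ) ^ 2) * u ^ K)) := by
  induction K with
  | zero => simp [P, Lop, ϑ]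
  | succ K ih =>
    have e : P (K + 1) = P K + C (((2 * K).choose K : ℤ) ^ 2) * u ^ K := by
      unfold P; rw [sum_range_succ]
    have h := Lop_u K
    have hc : ((K : ℤ) + 1) ^ 2 * ((2 * (K + 1)).choose (K + 1) : ℤ) ^ 2 =
        4 * (2 * K + 1) ^ 2 * ((2 * K).choose K : ℤ) ^ 2 := by
      have h1 := cb_succ K
      have h2 : ((K : ℚ) + 1) ^ 2 * ((2 * (K + 1)).choose (K + 1) : ℚ) ^ 2 =
        4 * (2 * K + 1) ^ 2 * ((2 * K).choose K : ℚ) ^ 2 := by
        rw [← mul_pow, h1]; ring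
      exact_mod_cast h2
    have hc' := congrArg (C : ℤ → ℤ[X]) hc
    simp only [C_mul, C_pow, C_add, C_1] at hc'
    rw [e, Lop_add, Lop_C_mul, mul_add]
    have hk : (C (K : ℤ) : ℤ[X]) = (K : ℤ[X]) := by simp
    rw [hk, show (C 4 : ℤ[X]) = 4 from rfl, show (C 2 : ℤ[X]) = 2 from rfl] at hc'
    push_cast
    simp only [C_pow] at ih ⊢
    linear_combination ih + (C ((2 * K).choose K : ℤ)) ^ 2 * h +
      (1 + 8 * X) * u ^ (K + 1) * hc'

theorem u_pow_coeff {K n : ℕ} (h : n < K) : (u ^ K).coeff n = 0 := by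
  unfold u
  rw [neg_pow, mul_pow, ← mul_assoc, mul_comm _ (X ^ K), mul_assoc, coeff_X_pow_mul']
  rw [if_neg (by omega)]

theorem Lop_P_coeff {K n : ℕ} (h : n < K) : (Lop (P K)).coeff n = 0 := by
  have h1 : ∀ m < K, ((1 + 4 * X) * Lop (P K)).coeff m = 0 := by
    intro m hm
    rw [Lop_P, ← mul_assoc, mul_comm _ (u ^ K)]
    unfold u
    rw [neg_pow, mul_pow, coeff_neg]
    rw [show (-1 : ℤ[X]) ^ K * (X ^ K * (1 + 4 * X) ^ K) * ((1 + 8 * X) * ((K : ℤ[X]) ^ 2 *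
      C (((2 * K).choose K : ℤ) ^ 2))) = X ^ K * ((-1 : ℤ[X]) ^ K * (1 + 4 * X) ^ K *
      ((1 + 8 * X) * ((K : ℤ[X]) ^ 2 * C (((2 * K).choose K : ℤ) ^ 2)))) by ring,
      coeff_X_pow_mul', if_neg (by omega), neg_zero]
  induction n with
  | zero =>
    have h2 := h1 0 h
    rw [add_mul, one_mul, coeff_add, mul_assoc, show (4 : ℤ[X]) = C 4 from rfl, coeff_C_mul,
      coeff_X_mul_zero, mul_zero, add_zero] at h2
    exact h2
  | succ n ih =>
    have h2 := h1 (n + 1) h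
    rw [add_mul, one_mul, coeff_add, mul_assoc, show (4 : ℤ[X]) = C 4 from rfl, coeff_C_mul,
      coeff_X_mul, ih (by omega), mul_zero, add_zero] at h2
    exact h2

theorem P_rec {K n : ℕ} (h : n + 2 < K) : ((n : ℤ) + 2) ^ 2 * (P K).coeff (n + 2) +
    4 * (3 * ((n : ℤ) + 1) ^ 2 + 3 * (n + 1) + 1) * (P K).coeff (n + 1) +
      32 * ((n : ℤ) + 1) ^ 2 * (P K).coeff n = 0 := by
  have h1 := Lop_P_coeff h
  have e : Lop (P K) = ϑ (ϑ (P K)) + C 12 * (X * ϑ (ϑ (P K))) + C 32 * (X * (X * ϑ (ϑ (P K)))) +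
      (C 12 * (X * ϑ (P K)) + C 64 * (X * (X * ϑ (P K)))) + (C 4 * (X * P K) +
        C 32 * (X * (X * P K))) := by
    unfold Lop
    rw [show (C 12 : ℤ[X]) = 12 from rfl, show (C 32 : ℤ[X]) = 32 from rfl,
      show (C 64 : ℤ[X]) = 64 from rfl, show (C 4 : ℤ[X]) = 4 from rfl]
    ring
  rw [e] at h1
  simp only [coeff_add, coeff_C_mul, coeff_X_mul, ϑ_coeff] at h1
  push_cast at h1
  linear_combination h1

theorem P_rec1 {K : ℕ} (h : 1 < K) : (P K).coeff 1 + 4 * (P K).coeff 0 = 0 := by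
  have h1 := Lop_P_coeff h
  have e : Lop (P K) = ϑ (ϑ (P K)) + C 12 * (X * ϑ (ϑ (P K))) + C 32 * (X * (X * ϑ (ϑ (P K)))) +
      (C 12 * (X * ϑ (P K)) + C 64 * (X * (X * ϑ (P K)))) + (C 4 * (X * P K) +
        C 32 * (X * (X * P K))) := by
    unfold Lop
    rw [show (C 12 : ℤ[X]) = 12 from rfl, show (C 32 : ℤ[X]) = 32 from rfl,
      show (C 64 : ℤ[X]) = 64 from rfl, show (C 4 : ℤ[X]) = 4 from rfl]
    ring
  rw [e] at h1
  simp only [coeff_add, coeff_C_mul, coeff_X_mul, coeff_X_mul_zero, ϑ_coeff] at h1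
  push_cast at h1
  linear_combination h1

theorem P_zero {K : ℕ} (h : 0 < K) : (P K).coeff 0 = 1 := by
  unfold P
  rw [finsetSum_coeff, sum_eq_single_of_mem 0 (mem_range.2 h)]
  · simp
  · intro k _ hk
    rw [coeff_C_mul, u_pow_coeff (by omega), mul_zero]

/-- the coefficients of the truncated sum -/
theorem P_coeff {K n : ℕ} (h : n < K) : (P K).coeff n = (-1) ^ n * a n := by
  induction n using Nat.strong_induction_on with
  | _ n ih =>
    rcases n with _ | _ | n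
    · rw [P_zero h, a_zero]; simp
    · have h1 := P_rec1 h
      rw [P_zero (by omega)] at h1
      rw [a_one]
      linear_combination h1
    · have h1 := P_rec h
      have h2 := a_rec n
      rw [ih (n + 1) (by omega) (by omega), ih n (by omega) (by omega)] at h1
      have h0 : ((n : ℤ) + 2) ^ 2 ≠ 0 := by positivity
      apply mul_left_cancel₀ h0
      rw [show n + 1 + 1 = n + 2 by ring]
      rw [pow_succ, pow_succ] at *
      linear_combination h1 - (-1 : ℤ) ^ n * h2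

end Pol

end Q278.Land
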