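import Pool.Agent.Q278.CycCong

set_option autoImplicit false

/-! Divisibility by powers of `[p]` in the ring of Laurent polynomials with integer coefficients. -/

namespace Q278.Laurent

open Finset Q278.Loc Q278.Cyc Polynomial

/-- the ring `ℤ[q, 1/q]` inside the field of rational functions -/
noncomputable def L : Subring (RatFunc ℚ) := Subring.closure {RatFunc.X, (RatFunc.X)⁻¹}

theorem q_mem : (RatFunc.X : RatFunc ℚ) ∈ L := Subring.subset_closure (by simp)

theorem qi_mem' : ((RatFunc.X : RatFunc ℚ))⁻¹ ∈ L := Subring.subset_closure (by simp)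

/-- integer polynomials as rational functions -/
noncomputable def φ : ℤ[X] →+* RatFunc ℚ :=
  (algebraMap ℚ[X] (RatFunc ℚ)).comp (mapRingHom (Int.castRingHom ℚ))

theorem φ_X : φ X = RatFunc.X := by simp [φ]

theorem φ_mem (P : ℤ[X]) : φ P ∈ L := by
  induction P using Polynomial.induction_on' with
  | add a b ha hb => rw [map_add]; exact L.add_mem ha hb
  | monomial n a =>
    rw [← C_mul_X_pow_eq_monomial, map_mul, map_pow, φ_X]
    refine L.mul_mem ?_ (L.pow_mem q_mem n)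
    have : φ (C a) = (a : RatFunc ℚ) := by
      rw [show (C a : ℤ[X]) = ((a : ℤ) : ℤ[X]) from rfl, map_intCast]
    rw [this]
    exact intCast_mem _ _

theorem exists_poly {x : RatFunc ℚ} (hx : x ∈ L) : ∃ (N : ℕ) (P : ℤ[X]),
    x * RatFunc.X ^ N = φ P := by
  unfold L at hx
  induction hx using Subring.closure_induction with
  | mem x h =>
    rcases h with rfl | h
    · exact ⟨0, X, by rw [φ_X, pow_zero, mul_one]⟩
    · rw [Set.mem_singleton_iff] at h
      subst h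
      exact ⟨1, 1, by rw [map_one, pow_one, inv_mul_cancel₀ RatFunc.X_ne_zero]⟩
  | zero => exact ⟨0, 0, by rw [map_zero, zero_mul]⟩
  | one => exact ⟨0, 1, by rw [map_one, pow_zero, mul_one]⟩
  | add x y _ _ hx hy =>
    obtain ⟨a, P, h1⟩ := hx
    obtain ⟨b, R, h2⟩ := hy
    refine ⟨a + b, P * X ^ b + R * X ^ a, ?_⟩
    rw [map_add, map_mul, map_mul, map_pow, map_pow, φ_X, ← h1, ← h2, pow_add]
    ring
  | neg x _ hx =>
    obtain ⟨a, P, h1⟩ := hx
    exact ⟨a, -P, by rw [map_neg, ← h1, neg_mul]⟩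
  | mul x y _ _ hx hy =>
    obtain ⟨a, P, h1⟩ := hx
    obtain ⟨b, R, h2⟩ := hy
    refine ⟨a + b, P * R, ?_⟩
    rw [map_mul, ← h1, ← h2, pow_add]
    ring

/-- a Laurent polynomial which is locally divisible by `Φ_n ^ k` is divisible by it -/
theorem dvd_of_mem {n k : ℕ} {ζ : ℂ} (hn : 0 < n) (hζ : IsPrimitiveRoot ζ n) {x : RatFunc ℚ}
    (hx : x ∈ L) (h : x ∈ I (Reg ζ) (Φ n) k) : ∃ T ∈ L, x = (φ (cyclotomic n ℤ)) ^ k * T := by
  obtain ⟨N, P, hP⟩ := exists_poly hx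
  have h1 : φ P ∈ I (Reg ζ) (Φ n) k := by
    rw [← hP, mul_comm]
    exact mul_O (q_pow_mem ζ N) h
  have h2 := (num_dvd hn hζ h1).1
  have h3 : RatFunc.num (φ P) = P.map (Int.castRingHom ℚ) := by
    unfold φ
    rw [RingHom.comp_apply, coe_mapRingHom, RatFunc.num_algebraMap]
  rw [h3, ← map_cyclotomic_int n ℚ, ← Polynomial.map_pow] at h2
  rw [Polynomial.map_dvd_map _ (RingHom.injective_int _) ((cyclotomic.monic n ℤ).pow k)] at h2
  obtain ⟨T, hT⟩ := h2
  refine ⟨φ T * (RatFunc.X)⁻¹ ^ N, L.mul_mem (φ_mem T) (L.pow_mem qi_mem' N), ?_⟩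
  have h4 : (RatFunc.X : RatFunc ℚ) ^ N ≠ 0 := pow_ne_zero _ RatFunc.X_ne_zero
  apply mul_right_cancel₀ h4
  have h5 : (RatFunc.X : RatFunc ℚ)⁻¹ ^ N * RatFunc.X ^ N = 1 := by
    rw [inv_pow, inv_mul_cancel₀ h4]
  rw [hP, hT, map_mul, map_pow]
  linear_combination (-(φ (cyclotomic n ℤ) ^ k * φ T)) * h5

theorem φ_cyc {p : ℕ} (hp : p.Prime) :
    φ (cyclotomic p ℤ) = (1 - RatFunc.X ^ p) / (1 - RatFunc.X) := by
  have := Fact.mk hp
  have h1 := congrArg φ (cyclotomic_prime_mul_X_sub_one ℤ p)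
  rw [map_mul, map_sub, map_sub, map_pow, map_one, φ_X] at h1
  have h2 : (1 : RatFunc ℚ) - RatFunc.X ≠ 0 := by
    intro h
    have h3 : algebraMap ℚ[X] (RatFunc ℚ) (1 - X) = 0 := by
      rw [map_sub, map_one, RatFunc.algebraMap_X, h]
    have h4 := (map_eq_zero_iff _ (RatFunc.algebraMap_injective ℚ)).1 h3
    have h5 := congrArg (eval 0) h4
    simp at h5
  rw [eq_div_iff h2]
  linear_combination (-1 : RatFunc ℚ) * h1

end Q278.Laurent
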