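import Mathlib

set_option autoImplicit false

/-! Powers of an element `π` of a subring `O` of a field. -/

namespace Q278.Loc

variable {K : Type*} [Field K] (O : Subring K) (π : K)

/-- The group `π ^ k O`. -/
def I (k : ℕ) : AddSubgroup K where
  carrier := {x | ∃ y ∈ O, x = π ^ k * y}
  zero_mem' := ⟨0, O.zero_mem, by simp⟩
  add_mem' := by
    rintro a b ⟨y, hy, rfl⟩ ⟨z, hz, rfl⟩
    exact ⟨y + z, O.add_mem hy hz, by ring⟩
  neg_mem' := by
    rintro a ⟨y, hy, rfl⟩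
    exact ⟨-y, O.neg_mem hy, by ring⟩

variable {O π}

theorem mem_I {k : ℕ} {x : K} : x ∈ I O π k ↔ ∃ y ∈ O, x = π ^ k * y := Iff.rfl

theorem of_O {x : K} (h : x ∈ O) : x ∈ I O π 0 := ⟨x, h, by simp⟩

theorem I_zero {x : K} (h : x ∈ I O π 0) : x ∈ O := by
  obtain ⟨y, hy, rfl⟩ := h
  simpa using hy

theorem mul_I {a b : ℕ} {x y : K} (hx : x ∈ I O π a) (hy : y ∈ I O π b) :
    x * y ∈ I O π (a + b) := by
  obtain ⟨u, hu, rfl⟩ := hx
  obtain ⟨v, hv, rfl⟩ := hy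
  exact ⟨u * v, O.mul_mem hu hv, by ring⟩

theorem mul_O {a : ℕ} {x y : K} (hx : x ∈ O) (hy : y ∈ I O π a) : x * y ∈ I O π a := by
  have := mul_I (of_O hx) hy
  rwa [zero_add] at this

theorem mono (hπ : π ∈ O) {a b : ℕ} (h : a ≤ b) {x : K} (hx : x ∈ I O π b) : x ∈ I O π a := by
  obtain ⟨u, hu, rfl⟩ := hx
  refine ⟨π ^ (b - a) * u, O.mul_mem (O.pow_mem hπ _) hu, ?_⟩
  rw [← mul_assoc, ← pow_add]
  congr 2
  omega

theorem toO (hπ : π ∈ O) {a : ℕ} {x : K} (hx : x ∈ I O π a) : x ∈ O :=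
  I_zero (mono hπ (Nat.zero_le a) hx)

theorem nat_O (m : ℕ) : (m : K) ∈ O := natCast_mem _ _

theorem int_O (m : ℤ) : (m : K) ∈ O := intCast_mem _ _

theorem pow_I {a : ℕ} {x : K} (hx : x ∈ I O π a) (m : ℕ) : x ^ m ∈ I O π (a * m) := by
  induction m with
  | zero => exact of_O (by simp [O.one_mem])
  | succ m ih =>
    rw [pow_succ, Nat.mul_succ]
    exact mul_I ih hx

theorem self_pow (k : ℕ) : π ^ k ∈ I O π k := ⟨1, O.one_mem, by simp⟩

theorem of_unit_mul {k : ℕ} {x c : K} (hc0 : c ≠ 0) (hc : c⁻¹ ∈ O) (h : c * x ∈ I O π k) :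
    x ∈ I O π k := by
  have := mul_O hc h
  rwa [← mul_assoc, inv_mul_cancel₀ hc0, one_mul] at this

/-- The expansion of `(1 - s) ^ m` to fifth order. -/
theorem expand (s : K) (hs : s ∈ O) (m : ℕ) : ∃ W ∈ O, (1 - s) ^ m =
    1 - m * s + (m.choose 2 : K) * s ^ 2 - (m.choose 3 : K) * s ^ 3 + (m.choose 4 : K) * s ^ 4
      + s ^ 5 * W := by
  induction m with
  | zero => exact ⟨0, O.zero_mem, by simp [Nat.choose]⟩
  | succ m ih =>
    obtain ⟨W, hW, h⟩ := ih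
    refine ⟨W * (1 - s) - (m.choose 4 : K), ?_, ?_⟩
    · exact O.sub_mem (O.mul_mem hW (O.sub_mem O.one_mem hs)) (nat_O _)
    · rw [pow_succ, h, Nat.choose_succ_succ' m 1, Nat.choose_succ_succ' m 2,
        Nat.choose_succ_succ' m 3, Nat.choose_one_right]
      push_cast
      ring

end Q278.Loc
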