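import Pool.Agent.Q278.EE
import Pool.Agent.Q278.Alt2
import Pool.Agent.H623R3.SW.Gm

set_option autoImplicit false

/-! Congruences modulo `p ^ 3` for factorial-like products. -/

namespace Q278.MG

open Finset Q278.Loc Q278.Unit Q278.EE

variable {p h : ℕ} [hp : Fact p.Prime] (hP : p = 2 * h + 1) (h5 : 5 ≤ p)

include hP

theorem i_U {i : ℕ} (hi : i < h) : U (PI.O p) ((i : ℚ) + 1) := by
  have h1 : ¬ (p : ℤ) ∣ p * 0 + (i + 1) := not_dvd_of_lt hP (by positivity) (by omega) _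
  have h4 := U_int h1
  push_cast at h4
  rw [mul_zero, zero_add] at h4
  exact h4

theorem pi_U {i : ℕ} (hi : i < h) : U (PI.O p) ((p : ℚ) - (i + 1)) := by
  have h1 : ¬ (p : ℤ) ∣ p * 0 + (p - (i + 1)) :=
    not_dvd_of_lt hP (by omega) (by omega) _
  have h4 := U_int h1
  push_cast at h4
  rw [mul_zero, zero_add] at h4
  exact h4

theorem two_U : U (PI.O p) (2 : ℚ) := by exact_mod_cast U_int (not_dvd_two hP)

include h5 in
/-- the sum of the inverse squares -/
theorem H2 : ∑ i ∈ range h, 1 / ((i : ℚ) + 1) ^ 2 ∈ I (PI.O p) (p : ℚ) 1 := by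
  set S := ∑ i ∈ range h, 1 / ((i : ℚ) + 1) ^ 2 with hS
  set F := ∑ i ∈ range (2 * h), 1 / ((i : ℚ) + 1) ^ 2 with hF
  have two := two_U hP
  -- first splitting
  have h1 : F - 2 * S ∈ I (PI.O p) (p : ℚ) 1 := by
    have e1 : F = S + ∑ i ∈ range h, 1 / ((p : ℚ) - (i + 1)) ^ 2 := by
      rw [hF, hS, two_mul, sum_range_add]
      congr 1
      rw [← sum_range_reflect]
      apply sum_congr rfl
      intro i hi
      have := mem_range.1 hi
      rw [hP, show h + (h - 1 - i) = 2 * h - (i + 1) by omega, Nat.cast_sub (by omega)]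
      push_cast
      ring
    have e2 : F - 2 * S = ∑ i ∈ range h, (1 / ((p : ℚ) - (i + 1)) ^ 2 - 1 / ((i : ℚ) + 1) ^ 2) := by
      rw [sum_sub_distrib, e1, hS]; ring
    rw [e2]
    refine AddSubgroup.sum_mem _ fun i hi => ?_
    have hi' := mem_range.1 hi
    have u1 := i_U hP hi'
    have u2 := pi_U hP hi'
    refine ⟨(2 * (i + 1) - p) * (((p : ℚ) - (i + 1)) ^ 2)⁻¹ * (((i : ℚ) + 1) ^ 2)⁻¹, ?_, ?_⟩
    · refine (PI.O p).mul_mem ((PI.O p).mul_mem ?_ (u2.pow 2).2.1) (u1.pow 2).2.1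
      exact_mod_cast intCast_mem (PI.O p) (2 * (i + 1) - p)
    · have n1 := u1.2.2
      have n2 := u2.2.2
      field_simp
      ring
  -- second splitting
  have h2 : F - S / 2 ∈ I (PI.O p) (p : ℚ) 1 := by
    have e1 : F = ∑ i ∈ range h, (1 / (2 * ((i : ℚ) + 1)) ^ 2 + 1 / (p - 2 * ((i : ℚ) + 1)) ^ 2) := by
      have e0 : ∀ m : ℕ, ∑ i ∈ range (2 * m), 1 / ((i : ℚ) + 1) ^ 2 =
          ∑ i ∈ range m, (1 / (2 * ((i : ℚ) + 1)) ^ 2 + 1 / (2 * (i : ℚ) + 1) ^ 2) := by
        intro m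
        induction m with
        | zero => simp
        | succ m ih =>
          rw [show 2 * (m + 1) = 2 * m + 1 + 1 by ring, sum_range_succ, sum_range_succ, ih,
            sum_range_succ]
          push_cast
          ring
      rw [hF, e0, sum_add_distrib, sum_add_distrib]
      congr 1
      rw [← sum_range_reflect]
      apply sum_congr rfl
      intro i hi
      have := mem_range.1 hi
      rw [hP, show h - 1 - i = h - (i + 1) by omega, Nat.cast_sub (by omega)]
      push_cast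
      congr 2
      ring
    have e2 : F - S / 2 = ∑ i ∈ range h, (1 / (p - 2 * ((i : ℚ) + 1)) ^ 2 -
        1 / (2 * ((i : ℚ) + 1)) ^ 2) := by
      rw [e1, hS, sum_div, ← sum_sub_distrib]
      apply sum_congr rfl
      intro i hi
      have n1 := (i_U hP (mem_range.1 hi)).2.2
      field_simp
      ring
    rw [e2]
    refine AddSubgroup.sum_mem _ fun i hi => ?_
    have hi' := mem_range.1 hi
    have u1 := two.mul (i_U hP hi')
    have u2 : U (PI.O p) ((p : ℚ) - 2 * (i + 1)) := by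
      have h1 : ¬ (p : ℤ) ∣ p * 0 + (p - 2 * (i + 1)) :=
        not_dvd_of_lt hP (by omega) (by omega) _
      have h4 := U_int h1
      push_cast at h4
      rw [mul_zero, zero_add] at h4
      exact h4
    refine ⟨(4 * (i + 1) - p) * (((p : ℚ) - 2 * (i + 1)) ^ 2)⁻¹ * ((2 * ((i : ℚ) + 1)) ^ 2)⁻¹, ?_, ?_⟩
    · refine (PI.O p).mul_mem ((PI.O p).mul_mem ?_ (u2.pow 2).2.1) (u1.pow 2).2.1
      exact_mod_cast intCast_mem (PI.O p) (4 * (i + 1) - p)
    · have n1 := u1.2.2
      have n2 := u2.2.2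
      have n3 := (i_U hP hi').2.2
      field_simp
      ring
  have h3 : (3 / 2) * S ∈ I (PI.O p) (p : ℚ) 1 := by
    have := (I (PI.O p) (p : ℚ) 1).sub_mem h2 h1
    convert this using 1
    ring
  have three : U (PI.O p) (3 / 2 : ℚ) := by
    have h1 : ¬ (p : ℤ) ∣ 3 := by
      intro h; have := Int.le_of_dvd (by norm_num) h; omega
    have h2 := (U_int h1).div two
    push_cast at h2
    exact h2
  exact of_unit_mul three.2.2 three.2.1 h3

include h5 in
/-- products of factors congruent modulo `p ^ 2` -/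
theorem prod3 (f g : ℕ → ℚ) (κ : ℚ) (hκ : κ ∈ PI.O p) (hf : ∀ i < h, f i ∈ PI.O p)
    (hg : ∀ i < h, g i ∈ PI.O p)
    (hfg : ∀ i < h, f i - g i * (1 + p ^ 2 * (κ * (1 / ((i : ℚ) + 1) ^ 2))) ∈
      I (PI.O p) (p : ℚ) 3) :
    ∏ i ∈ range h, f i - ∏ i ∈ range h, g i ∈ I (PI.O p) (p : ℚ) 3 := by
  have key : ∀ m ≤ h, ∏ i ∈ range m, f i - (∏ i ∈ range m, g i) *
      (1 + p ^ 2 * (κ * ∑ i ∈ range m, 1 / ((i : ℚ) + 1) ^ 2)) ∈ I (PI.O p) (p : ℚ) 3 := by
    intro m
    induction m with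
    | zero => intro _; simp
    | succ m ih =>
      intro hm
      rw [prod_range_succ, prod_range_succ, sum_range_succ]
      have ih' := ih (by omega)
      have h1 := hfg m (by omega)
      have hG : ∏ i ∈ range m, g i ∈ PI.O p :=
        (PI.O p).prod_mem fun i hi => hg i (by have := mem_range.1 hi; omega)
      have hSm : ∑ i ∈ range m, 1 / ((i : ℚ) + 1) ^ 2 ∈ PI.O p := by
        refine (PI.O p).sum_mem fun i hi => ?_
        rw [one_div]
        exact ((i_U hP (by have := mem_range.1 hi; omega)).pow 2).2.1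
      have hm1 : 1 / ((m : ℚ) + 1) ^ 2 ∈ PI.O p := by
        rw [one_div]; exact ((i_U hP (by omega)).pow 2).2.1
      set S := ∑ i ∈ range m, 1 / ((i : ℚ) + 1) ^ 2
      set G := ∏ i ∈ range m, g i
      set x := 1 / ((m : ℚ) + 1) ^ 2
      have hGS : G * (1 + p ^ 2 * (κ * S)) ∈ PI.O p :=
        (PI.O p).mul_mem hG ((PI.O p).add_mem (PI.O p).one_mem ((PI.O p).mul_mem
          ((PI.O p).pow_mem p_mem 2) ((PI.O p).mul_mem hκ hSm)))
      have h2 := (I (PI.O p) (p : ℚ) 3).add_mem (mul_O (hf m (by omega)) ih') (mul_O hGS h1)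
      have h3 : (p : ℚ) ^ 4 * (G * g m * (κ * S) * (κ * x)) ∈ I (PI.O p) (p : ℚ) 3 := by
        refine ⟨p * (G * g m * (κ * S) * (κ * x)), ?_, by ring⟩
        exact (PI.O p).mul_mem p_mem ((PI.O p).mul_mem ((PI.O p).mul_mem ((PI.O p).mul_mem hG
          (hg m (by omega))) ((PI.O p).mul_mem hκ hSm)) ((PI.O p).mul_mem hκ hm1))
      have h4 := (I (PI.O p) (p : ℚ) 3).add_mem h2 h3
      convert h4 using 1
      ring
  have h1 := key h le_rfl
  have h2 := H2 hP h5
  have hG : ∏ i ∈ range h, g i ∈ PI.O p :=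
    (PI.O p).prod_mem fun i hi => hg i (mem_range.1 hi)
  have h3 := mul_O ((PI.O p).mul_mem hG hκ) (mul_I (self_pow (O := PI.O p) (π := (p : ℚ)) 2) h2)
  have h4 := (I (PI.O p) (p : ℚ) 3).add_mem h1 h3
  convert h4 using 1
  ring

end Q278.MG
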