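import Pool.Agent.Q278.MG2

set_option autoImplicit false

/-! The truncated series `3F2(1/2, -a, a+1; 1, 1; 1)`. -/

namespace Q278.MG

open Finset Q278.Loc Q278.Unit Q278.EE

section generic

variable {K : Type*} [Field K] [CharZero K]

/-- the summand -/
def T (a : K) (k : ℕ) : K :=
  ∏ l ∈ range k, ((1 / 2 + (l : K)) * ((l : K) - a) * (a + 1 + l) / ((l : K) + 1) ^ 3)

/-- the sum -/
def S (a : K) (N : ℕ) : K := ∑ k ∈ range N, T a k

/-- the auxiliary products -/
def Uu (a : K) (k : ℕ) : K := ∏ l ∈ range k, ((1 / 2 + (l : K)) * (a + 1 + l) / ((l : K) + 1) ^ 3)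

/-- the auxiliary products -/
def V (a : K) (k : ℕ) : K := ∏ l ∈ range k, ((l : K) - a)

omit [CharZero K] in
theorem T_eq (a : K) (k : ℕ) : T a k = Uu a k * V a k := by
  unfold T Uu V
  rw [← prod_mul_distrib]
  apply prod_congr rfl
  intro l _
  rw [div_mul_eq_mul_div]
  congr 1
  ring

omit [CharZero K] in
theorem V_succ (a : K) (k : ℕ) : V a (k + 1) = V a k * ((k : K) - a) := by
  unfold V; rw [prod_range_succ]

omit [CharZero K] in
theorem V_shift (a : K) (k : ℕ) : V (a + 2) (k + 2) = (a + 2) * (a + 1) * V a k := by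
  unfold V
  rw [prod_range_succ', prod_range_succ']
  have : ∏ l ∈ range k, (((l + 1 + 1 : ℕ) : K) - (a + 2)) = ∏ l ∈ range k, ((l : K) - a) := by
    apply prod_congr rfl
    intro l _
    push_cast; ring
  rw [this]
  push_cast
  ring

omit [CharZero K] in
theorem Uu_succ (a : K) (k : ℕ) : Uu a (k + 1) = Uu a k *
    ((1 / 2 + (k : K)) * (a + 1 + k) / ((k : K) + 1) ^ 3) := by
  unfold Uu; rw [prod_range_succ]

omit [CharZero K] in
theorem Uu_shift (a : K) (k : ℕ) : (a + 2) * (a + 1) * Uu (a + 2) k =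
    Uu a k * (a + 1 + k) * (a + 2 + k) := by
  induction k with
  | zero => simp [Uu]; ring
  | succ k ih =>
    have e1 : Uu (a + 2) (k + 1) = Uu (a + 2) k *
        ((1 / 2 + (k : K)) * (a + 2 + 1 + k) / ((k : K) + 1) ^ 3) := by
      unfold Uu; rw [prod_range_succ]
    have e2 : Uu a (k + 1) = Uu a k *
        ((1 / 2 + (k : K)) * (a + 1 + k) / ((k : K) + 1) ^ 3) := by
      unfold Uu; rw [prod_range_succ]
    rw [e1, e2, ← mul_assoc, ih]
    push_cast
    ring

omit [CharZero K] in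
theorem T_two (a : K) (k : ℕ) : T (a + 2) (k + 2) =
    Uu a (k + 2) * V a k * (a + k + 3) * (a + k + 4) := by
  rw [T_eq, V_shift]
  have h := Uu_shift a (k + 2)
  push_cast at h
  linear_combination (V a k) * h

/-- the telescoped recurrence in `a` -/
theorem wz (a : K) (N : ℕ) : (a + 2) ^ 2 * S (a + 2) (N + 2) - (a + 1) ^ 2 * S a (N + 2) =
    -2 * (2 * a + 3) * ((N : K) + 2) ^ 3 * Uu a (N + 2) * V a N := by
  induction N with
  | zero =>
    have h2 : (2 : K) ≠ 0 := two_ne_zero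
    simp only [S, T, Uu, V, sum_range_succ, prod_range_succ, range_zero, sum_empty, prod_empty]
    push_cast
    field_simp
    ring
  | succ N ih =>
    have e1 : ∀ b : K, S b (N + 1 + 2) = S b (N + 2) + T b (N + 2) := by
      intro b; unfold S; rw [show N + 1 + 2 = (N + 2) + 1 by ring, sum_range_succ]
    rw [e1, e1, T_two, T_eq a (N + 2), V_succ a (N + 1), V_succ a N]
    have e2 : Uu a (N + 1 + 2) = Uu a (N + 2) *
        ((1 / 2 + ((N : K) + 2)) * (a + 1 + (N + 2)) / ((N : K) + 3) ^ 3) := by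
      rw [show N + 1 + 2 = (N + 2) + 1 by ring, Uu_succ]
      push_cast
      rw [show (N : K) + 2 + 1 = N + 3 by ring]
    have h3 : ((N : K) + 3) ≠ 0 := by exact_mod_cast Nat.succ_ne_zero (N + 2)
    rw [e2]
    push_cast
    have h4 : ((N : K) + 1 + 2) ^ 3 * (Uu a (N + 2) *
        ((1 / 2 + ((N : K) + 2)) * (a + 1 + (N + 2)) / ((N : K) + 3) ^ 3)) =
        Uu a (N + 2) * ((1 / 2 + ((N : K) + 2)) * (a + 1 + (N + 2))) := by
      have h2 : (2 : K) ≠ 0 := two_ne_zero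
      field_simp
      ring
    linear_combination ih + 2 * (2 * a + 3) * (V a N * (N - a)) * h4

end generic

section padic

variable {p h : ℕ} [hp : Fact p.Prime] (hP : p = 2 * h + 1)
include hP

theorem half_O' (l : ℕ) : (1 / 2 + (l : ℚ)) ∈ PI.O p := by
  have e : (1 / 2 + (l : ℚ)) = ((1 + 2 * l : ℕ) : ℚ) / 2 := by push_cast; ring
  rw [e, div_eq_mul_inv]
  exact (PI.O p).mul_mem (natCast_mem _ _) (two_U hP).2.1

theorem fac_U : U (PI.O p) (∏ l ∈ range (2 * h), ((l : ℚ) + 1) ^ 3) := by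
  refine U.prod fun l hl => U.pow ?_ 3
  have hl' := mem_range.1 hl
  have h1 : ¬ (p : ℤ) ∣ p * 0 + (l + 1) := not_dvd_of_lt hP (by positivity) (by omega) _
  have h4 := U_int h1
  push_cast at h4
  rw [mul_zero, zero_add] at h4
  exact h4

omit hp in
theorem Uu_p (a : ℚ) : (p : ℚ) ^ 3 * Uu a p = (∏ l ∈ range p, (1 / 2 + (l : ℚ))) *
    (∏ l ∈ range p, (a + 1 + (l : ℚ))) * (∏ l ∈ range (2 * h), ((l : ℚ) + 1) ^ 3)⁻¹ := by
  have e : ∏ l ∈ range p, ((l : ℚ) + 1) ^ 3 =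
      (∏ l ∈ range (2 * h), ((l : ℚ) + 1) ^ 3) * (p : ℚ) ^ 3 := by
    conv_lhs => rw [hP]
    rw [prod_range_succ, hP]
    push_cast; ring
  have h0 : ∏ l ∈ range (2 * h), ((l : ℚ) + 1) ^ 3 ≠ 0 :=
    prod_ne_zero_iff.2 fun l _ => by positivity
  have hp0 : (p : ℚ) ≠ 0 := by rw [hP]; positivity
  unfold Uu
  rw [prod_div_distrib, prod_mul_distrib, e]
  field_simp

/-- a product of an arithmetic progression of length `p` -/
theorem prod_I (a : ℕ) : ∏ l ∈ range p, ((a : ℚ) + 1 + l) ∈ I (PI.O p) (p : ℚ) 1 := by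
  have hpos := hp.out.pos
  have hl : p - 1 - a % p ∈ range p := mem_range.2 (by omega)
  rw [← mul_prod_erase _ _ hl, mul_comm]
  apply mul_O
  · refine (PI.O p).prod_mem fun l _ => ?_
    exact_mod_cast natCast_mem (PI.O p) (a + 1 + l)
  · have h1 : a % p < p := Nat.mod_lt _ hpos
    have h2 := Nat.div_add_mod a p
    have e : a + 1 + (p - 1 - a % p) = p * (a / p + 1) := by
      rw [mul_add]; omega
    refine ⟨((a / p + 1 : ℕ) : ℚ), natCast_mem _ _, ?_⟩
    have e' : (((a + 1 + (p - 1 - a % p) : ℕ)) : ℚ) = ((p * (a / p + 1) : ℕ) : ℚ) := by rw [e]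
    push_cast at e' ⊢
    rw [pow_one, ← e']

theorem half_I : ∏ l ∈ range p, (1 / 2 + (l : ℚ)) ∈ I (PI.O p) (p : ℚ) 1 := by
  have hl : h ∈ range p := mem_range.2 (by omega)
  rw [← mul_prod_erase _ _ hl, mul_comm]
  apply mul_O
  · exact (PI.O p).prod_mem fun l _ => half_O' hP l
  · refine ⟨(2 : ℚ)⁻¹, (two_U hP).2.1, ?_⟩
    rw [hP]; push_cast; ring

theorem V_I {a : ℕ} (ha : a % p + 2 < p) : V (a : ℚ) (p - 2) ∈ I (PI.O p) (p : ℚ) 1 := by
  unfold V
  have hl : a % p ∈ range (p - 2) := mem_range.2 (by omega)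
  rw [← mul_prod_erase _ _ hl, mul_comm]
  apply mul_O
  · refine (PI.O p).prod_mem fun l _ => ?_
    exact_mod_cast intCast_mem (PI.O p) ((l : ℤ) - a)
  · have h2 := Nat.div_add_mod a p
    refine ⟨-((a / p : ℕ) : ℚ), (PI.O p).neg_mem (natCast_mem _ _), ?_⟩
    have e' : (((p * (a / p) + a % p : ℕ)) : ℚ) = ((a : ℕ) : ℚ) := by rw [h2]
    push_cast at e'
    rw [← e']; ring

/-- the recurrence in `a` modulo `p ^ 3` -/
theorem S_rec {a : ℕ} (ha : a % p + 2 < p) :
    ((a : ℚ) + 2) ^ 2 * S ((a : ℚ) + 2) p - ((a : ℚ) + 1) ^ 2 * S (a : ℚ) p ∈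
      I (PI.O p) (p : ℚ) 3 := by
  have h1 := wz (a : ℚ) (p - 2)
  rw [show p - 2 + 2 = p by omega, Nat.cast_sub (by omega)] at h1
  rw [h1]
  have e : -2 * (2 * (a : ℚ) + 3) * ((p : ℚ) - (2 : ℕ) + 2) ^ 3 * Uu (a : ℚ) p * V (a : ℚ) (p - 2) =
      (((∏ l ∈ range (2 * h), ((l : ℚ) + 1) ^ 3)⁻¹ * (-2 * (2 * (a : ℚ) + 3))) *
      ((∏ l ∈ range p, (1 / 2 + (l : ℚ))) * (∏ l ∈ range p, ((a : ℚ) + 1 + (l : ℚ))))) *
        V (a : ℚ) (p - 2) := by
    have h2 := Uu_p hP (a : ℚ)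
    push_cast
    rw [show (p : ℚ) - 2 + 2 = p by ring]
    linear_combination (-2 * (2 * (a : ℚ) + 3) * V (a : ℚ) (p - 2)) * h2
  rw [e]
  refine mul_I (a := 2) (b := 1) ?_ (V_I hP ha)
  apply mul_O
  · refine (PI.O p).mul_mem (fac_U hP).2.1 ?_
    exact_mod_cast intCast_mem (PI.O p) (-2 * (2 * (a : ℤ) + 3))
  · exact mul_I (a := 1) (b := 1) (half_I hP) (prod_I hP a)

omit hP hp in
theorem V_zero {a N : ℕ} (ha : a < N) : V (a : ℚ) N = 0 := by
  unfold V
  exact prod_eq_zero (mem_range.2 ha) (sub_self _)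

omit hP hp in
theorem S_exact {a N : ℕ} (ha : a < N) :
    ((a : ℚ) + 2) ^ 2 * S ((a : ℚ) + 2) (N + 2) = ((a : ℚ) + 1) ^ 2 * S (a : ℚ) (N + 2) := by
  have h1 := wz (a : ℚ) N
  rw [V_zero ha, mul_zero] at h1
  linear_combination h1

omit hP hp in
theorem S_zero (N : ℕ) : S (0 : ℚ) (N + 1) = 1 := by
  unfold S
  rw [sum_range_succ']
  have : ∑ k ∈ range N, T (0 : ℚ) (k + 1) = 0 := by
    apply sum_eq_zero
    intro k _
    unfold T
    apply prod_eq_zero (mem_range.2 (Nat.succ_pos k))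
    simp
  rw [this]; simp [T]

omit hP hp in
theorem S_one (N : ℕ) : S (1 : ℚ) (N + 2) = 0 := by
  unfold S
  rw [sum_range_succ', sum_range_succ']
  have : ∑ k ∈ range N, T (1 : ℚ) (k + 1 + 1) = 0 := by
    apply sum_eq_zero
    intro k _
    unfold T
    apply prod_eq_zero (mem_range.2 (show 1 < k + 1 + 1 by omega))
    simp
  rw [this]
  simp [T]
  norm_num

omit hP hp in
theorem S_even {N : ℕ} : ∀ j, 2 * j ≤ N + 1 → S (((2 * j : ℕ)) : ℚ) (N + 2) = rr 1 0 j ^ 2 := by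
  intro j
  induction j with
  | zero => intro _; simp [S_zero, rr]
  | succ j ih =>
    intro hj
    have h1 := S_exact (a := 2 * j) (N := N) (by omega)
    rw [ih (by omega)] at h1
    rw [rr_succ]
    have h2 : ((((2 * (j + 1) : ℕ)) : ℚ)) = ((2 * j : ℕ) : ℚ) + 2 := by push_cast; ring
    rw [h2]
    have h3 : (((2 * j : ℕ) : ℚ) + 2) ≠ 0 := by positivity
    apply mul_left_cancel₀ (pow_ne_zero 2 h3)
    rw [h1]
    push_cast
    have h4 : (2 * (j : ℚ) + 2) ≠ 0 := by positivity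
    field_simp
    ring

omit hP hp in
theorem S_odd {N : ℕ} : ∀ j, 2 * j + 1 ≤ N + 1 → S (((2 * j + 1 : ℕ)) : ℚ) (N + 2) = 0 := by
  intro j
  induction j with
  | zero => intro _; simp [S_one]
  | succ j ih =>
    intro hj
    have h1 := S_exact (a := 2 * j + 1) (N := N) (by omega)
    rw [ih (by omega), mul_zero] at h1
    have h2 : ((((2 * (j + 1) + 1 : ℕ)) : ℚ)) = ((2 * j + 1 : ℕ) : ℚ) + 2 := by push_cast; ring
    rw [h2]
    have h3 : (((2 * j + 1 : ℕ) : ℚ) + 2) ≠ 0 := by positivity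
    rcases mul_eq_zero.1 h1 with h4 | h4
    · exact absurd h4 (pow_ne_zero 2 h3)
    · exact h4

omit hP hp in
theorem T_symm (a : ℚ) (k : ℕ) : T (-1 - a) k = T a k := by
  unfold T
  apply prod_congr rfl
  intro l _
  congr 1
  ring

/-- the value at `a = - p` -/
theorem S_neg : S (-(p : ℚ)) p = rr 1 0 h ^ 2 := by
  have hp2 := hp.out.two_le
  have h1 := S_even (N := p - 2) h (by omega)
  rw [show p - 2 + 2 = p by omega] at h1
  rw [← h1]
  unfold S
  apply sum_congr rfl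
  intro k _
  rw [← T_symm]
  congr 1
  rw [hP]; push_cast; ring

/-- the value at `a = p` -/
theorem S_pos : S (p : ℚ) p = rr 1 0 p ^ 2 * 4 ^ p := by
  have hp2 := hp.out.two_le
  have h3 : 3 ≤ p := by omega
  have h1 := wz (((p - 2 : ℕ)) : ℚ) (p - 2)
  have h2 := S_odd (N := p - 2) (h - 1) (by omega)
  rw [show 2 * (h - 1) + 1 = p - 2 by omega] at h2
  rw [h2] at h1
  rw [show p - 2 + 2 = p by omega] at h1
  have e1 : (((p - 2 : ℕ)) : ℚ) = (p : ℚ) - 2 := by rw [Nat.cast_sub (by omega)]; norm_num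
  have hV : V (((p - 2 : ℕ)) : ℚ) (p - 2) = -((p - 2).factorial : ℚ) := by
    unfold V
    rw [← prod_range_reflect]
    have e2 : ∀ l ∈ range (p - 2), (((p - 2 - 1 - l : ℕ) : ℚ) - ((p - 2 : ℕ) : ℚ)) =
        (-1) * ((l + 1 : ℕ) : ℚ) := by
      intro l hl
      have := mem_range.1 hl
      rw [Nat.cast_sub (by omega), Nat.cast_sub (by omega)]
      push_cast; ring
    rw [prod_congr rfl e2, prod_mul_distrib, prod_const, card_range]
    have hodd : Odd (p - 2) := by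
      refine ⟨h - 1, by omega⟩
    rw [hodd.neg_one_pow, ← Nat.cast_prod, Finset.prod_range_add_one_eq_factorial]
    ring
  have hU := Uu_p hP (((p - 2 : ℕ)) : ℚ)
  rw [hV, mul_zero, sub_zero] at h1
  rw [e1] at h1 hU
  rw [show (p : ℚ) - 2 + 2 = p by ring] at h1
  -- the products
  have f1 : ∏ l ∈ range p, (1 / 2 + (l : ℚ)) = rr 1 0 p * (p.factorial : ℚ) := by
    have : ∀ n : ℕ, ∏ l ∈ range n, (1 / 2 + (l : ℚ)) = rr 1 0 n * (n.factorial : ℚ) := by
      intro n
      induction n with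
      | zero => simp [rr]
      | succ n ih =>
        rw [prod_range_succ, ih, rr_succ, Nat.factorial_succ]
        push_cast
        have : (2 * (n : ℚ) + 2) ≠ 0 := by positivity
        field_simp
        ring
    exact this p
  have f2 : ((p - 2).factorial : ℚ) * ∏ l ∈ range p, ((p : ℚ) - 2 + 1 + (l : ℚ)) =
      ((2 * p - 2).factorial : ℚ) := by
    have : ∀ n : ℕ, ((p - 2).factorial : ℚ) * ∏ l ∈ range n, ((p : ℚ) - 2 + 1 + (l : ℚ)) =
        ((p - 2 + n).factorial : ℚ) := by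
      intro n
      induction n with
      | zero => simp
      | succ n ih =>
        rw [prod_range_succ, ← mul_assoc, ih, ← add_assoc, Nat.factorial_succ]
        push_cast
        rw [Nat.cast_sub (by omega)]
        push_cast; ring
    rw [this p]
    congr 2
    omega
  have f3 : (∏ l ∈ range (2 * h), ((l : ℚ) + 1) ^ 3) * (p : ℚ) ^ 3 = (p.factorial : ℚ) ^ 3 := by
    have e : ∏ l ∈ range p, ((l : ℚ) + 1) ^ 3 =
        (∏ l ∈ range (2 * h), ((l : ℚ) + 1) ^ 3) * (p : ℚ) ^ 3 := by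
      conv_lhs => rw [hP]
      rw [prod_range_succ, hP]
      push_cast; ring
    rw [← e, prod_pow]
    congr 1
    rw [← Finset.prod_range_add_one_eq_factorial]
    push_cast; rfl
  have f4 : ((2 * p).factorial : ℚ) = (2 * p) * (2 * p - 1) * ((2 * p - 2).factorial : ℚ) := by
    rw [show 2 * p = (2 * p - 2) + 1 + 1 by omega, Nat.factorial_succ, Nat.factorial_succ]
    rw [show 2 * p - 2 + 1 + 1 - 2 = 2 * p - 2 by omega]
    push_cast
    rw [Nat.cast_sub (by omega)]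
    push_cast; ring
  have f5 : rr 1 0 p * 4 ^ p * (p.factorial : ℚ) ^ 2 = ((2 * p).factorial : ℚ) := by
    have : ∀ n : ℕ, rr 1 0 n * 4 ^ n * (n.factorial : ℚ) ^ 2 = ((2 * n).factorial : ℚ) := by
      intro n
      induction n with
      | zero => simp [rr]
      | succ n ih =>
        rw [show 2 * (n + 1) = 2 * n + 1 + 1 by ring, Nat.factorial_succ, Nat.factorial_succ, rr_succ,
          Nat.factorial_succ]
        push_cast
        rw [← ih]
        have : (2 * (n : ℚ) + 2) ≠ 0 := by positivity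
        field_simp
        ring
    exact this p
  have hp0 : (p : ℚ) ≠ 0 := by exact_mod_cast hp.out.ne_zero
  have g0 : ∏ l ∈ range (2 * h), ((l : ℚ) + 1) ^ 3 ≠ 0 :=
    prod_ne_zero_iff.2 fun l _ => by positivity
  have g1 : (p.factorial : ℚ) ≠ 0 := by exact_mod_cast p.factorial_ne_zero
  have hU' : Uu ((p : ℚ) - 2) p = (rr 1 0 p * (p.factorial : ℚ)) *
      (∏ l ∈ range p, ((p : ℚ) - 2 + 1 + (l : ℚ))) / (p.factorial : ℚ) ^ 3 := by
    rw [← f3, ← f1]
    field_simp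
    rw [mul_comm, hU]
    field_simp
  have h6 : S (p : ℚ) p = 2 * (2 * p - 1) * p * ((p - 2).factorial : ℚ) * Uu ((p : ℚ) - 2) p := by
    apply mul_left_cancel₀ (pow_ne_zero 2 hp0)
    linear_combination h1
  rw [h6, hU']
  have f6 : rr 1 0 p * 4 ^ p = ((2 * p).factorial : ℚ) / (p.factorial : ℚ) ^ 2 := by
    rw [eq_div_iff (pow_ne_zero 2 g1)]; exact f5
  rw [show rr 1 0 p ^ 2 * 4 ^ p = rr 1 0 p * (rr 1 0 p * 4 ^ p) by ring, f6, f4, ← f2]
  field_simp

end padic

end Q278.MG
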