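import Pool.Agent.Q278.MG3

set_option autoImplicit false

/-! The truncated series `3F2(1/2, -a, a+1; 1, 1; 1)` modulo `p ^ 3`. -/

namespace Q278.MG

open Finset Q278.Loc Q278.Unit Q278.EE
open Pool.Agent.H623R3.SW (mg mg_eq mg_congr)

/-- the form of the summand for small `x` -/
theorem T_form (x : ℚ) (k : ℕ) : T x (k + 1) = rr 1 0 (k + 1) *
    (-x * (x + (k + 1)) / ((k : ℚ) + 1) ^ 2) * ∏ l ∈ range k, (1 - x ^ 2 / ((l : ℚ) + 1) ^ 2) := by
  induction k with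
  | zero =>
    simp only [T, rr, prod_range_succ, range_zero, prod_empty]
    push_cast
    ring
  | succ k ih =>
    have e1 : T x (k + 1 + 1) = T x (k + 1) * ((1 / 2 + ((k : ℚ) + 1)) * (((k : ℚ) + 1) - x) *
        (x + 1 + (k + 1)) / ((k : ℚ) + 1 + 1) ^ 3) := by
      unfold T; rw [prod_range_succ]; push_cast; ring
    rw [e1, ih, prod_range_succ, rr_succ 0 (k + 1)]
    have h1 : ((k : ℚ) + 1) ≠ 0 := by positivity
    have h2 : ((k : ℚ) + 1 + 1) ≠ 0 := by positivity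
    have h3 : (2 * ((k : ℚ) + 1) + 2) ≠ 0 := by positivity
    push_cast
    field_simp
    ring

section padic

variable {p h : ℕ} [hp : Fact p.Prime] (hP : p = 2 * h + 1)
include hP

theorem rr_O (k : ℕ) : rr 1 0 k ∈ PI.O p := base_mem' hP k
  where
  base_mem' (_hP : p = 2 * h + 1) (k : ℕ) : rr 1 0 k ∈ PI.O p := by
    have h1 : rr 1 0 k = ((k.centralBinom : ℕ) : ℚ) * ((2 : ℚ)⁻¹) ^ (2 * k) := by
      induction k with
      | zero => simp [rr]
      | succ k ih =>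
        rw [rr_succ, ih]
        have h2 := Nat.succ_mul_centralBinom_succ k
        have h3 : ((k : ℚ) + 1) * ((k + 1).centralBinom : ℚ) =
            2 * (2 * k + 1) * k.centralBinom := by exact_mod_cast h2
        have h4 : ((k : ℚ) + 1) ≠ 0 := by positivity
        have h5 : ((k + 1).centralBinom : ℚ) = 2 * (2 * k + 1) * k.centralBinom / (k + 1) := by
          rw [eq_div_iff h4]; linear_combination h3
        rw [h5]
        push_cast
        rw [show 2 * (k + 1) = 2 * k + 2 by ring, pow_add]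
        field_simp
        ring
    rw [h1]
    exact (PI.O p).mul_mem (natCast_mem _ _) ((PI.O p).pow_mem (two_U hP).2.1 _)

theorem i_U' {i : ℕ} (hi : i + 1 < p) : U (PI.O p) ((i : ℚ) + 1) := by
  have h1 : ¬ (p : ℤ) ∣ p * 0 + (i + 1) := not_dvd_of_lt hP (by positivity) (by omega) _
  have h4 := U_int h1
  push_cast at h4
  rw [mul_zero, zero_add] at h4
  exact h4

/-- the first coefficient -/
def A' (p : ℕ) : ℚ := ∑ k ∈ range (p - 1), rr 1 0 (k + 1) / ((k : ℚ) + 1)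

/-- the second coefficient -/
def B' (p : ℕ) : ℚ := ∑ k ∈ range (p - 1), rr 1 0 (k + 1) / ((k : ℚ) + 1) ^ 2

theorem A'_O : A' p ∈ PI.O p := by
  refine (PI.O p).sum_mem fun k hk => ?_
  have := mem_range.1 hk
  rw [div_eq_mul_inv]
  exact (PI.O p).mul_mem (rr_O hP _) (i_U' hP (by omega)).2.1

theorem B'_O : B' p ∈ PI.O p := by
  refine (PI.O p).sum_mem fun k hk => ?_
  have := mem_range.1 hk
  rw [div_eq_mul_inv]
  exact (PI.O p).mul_mem (rr_O hP _) ((i_U' hP (by omega)).pow 2).2.1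

/-- the quadratic approximation -/
theorem S_quad {x : ℚ} (hx : x ∈ I (PI.O p) (p : ℚ) 1) :
    S x p - (1 - x * A' p - x ^ 2 * B' p) ∈ I (PI.O p) (p : ℚ) 3 := by
  have hpos := hp.out.two_le
  have e0 : S x p = 1 + ∑ k ∈ range (p - 1), T x (k + 1) := by
    unfold S
    rw [show range p = range ((p - 1) + 1) by congr 1; omega, sum_range_succ']
    simp [T]; ring
  have e1 : S x p - (1 - x * A' p - x ^ 2 * B' p) = ∑ k ∈ range (p - 1), (T x (k + 1) -
      rr 1 0 (k + 1) * (-x * (x + (k + 1)) / ((k : ℚ) + 1) ^ 2)) := by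
    rw [e0, sum_sub_distrib]
    unfold A' B'
    rw [mul_sum, mul_sum]
    have e2 : ∑ k ∈ range (p - 1), rr 1 0 (k + 1) * (-x * (x + (k + 1)) / ((k : ℚ) + 1) ^ 2) =
        -(∑ k ∈ range (p - 1), x * (rr 1 0 (k + 1) / ((k : ℚ) + 1))) -
        ∑ k ∈ range (p - 1), x ^ 2 * (rr 1 0 (k + 1) / ((k : ℚ) + 1) ^ 2) := by
      rw [← sum_neg_distrib, ← sum_sub_distrib]
      apply sum_congr rfl
      intro k _
      have h1 : ((k : ℚ) + 1) ≠ 0 := by positivity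
      field_simp
      ring
    rw [e2]; ring
  rw [e1]
  refine AddSubgroup.sum_mem _ fun k hk => ?_
  have hk' := mem_range.1 hk
  have hxO : x ∈ PI.O p := toO p_mem hx
  have hx2 : x ^ 2 ∈ I (PI.O p) (p : ℚ) 2 := pow_I hx 2
  have h3 : ∏ l ∈ range k, (1 - x ^ 2 / ((l : ℚ) + 1) ^ 2) - 1 ∈ I (PI.O p) (p : ℚ) 2 := by
    have : ∀ m ≤ k, ∏ l ∈ range m, (1 - x ^ 2 / ((l : ℚ) + 1) ^ 2) - 1 ∈ I (PI.O p) (p : ℚ) 2 := by
      intro m
      induction m with
      | zero => intro _; simp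
      | succ m ih =>
        intro hm
        rw [prod_range_succ]
        have h4 := ih (by omega)
        have h5 : x ^ 2 / ((m : ℚ) + 1) ^ 2 ∈ I (PI.O p) (p : ℚ) 2 := by
          rw [div_eq_mul_inv, mul_comm]
          exact mul_O ((i_U' hP (by omega)).pow 2).2.1 hx2
        have h6 : (1 - x ^ 2 / ((m : ℚ) + 1) ^ 2) ∈ PI.O p :=
          (PI.O p).sub_mem (PI.O p).one_mem (toO p_mem h5)
        have h7 := (I (PI.O p) (p : ℚ) 2).sub_mem (mul_O h6 h4) h5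
        convert h7 using 1
        ring
    exact this k le_rfl
  rw [T_form]
  have h4 : x * (∏ l ∈ range k, (1 - x ^ 2 / ((l : ℚ) + 1) ^ 2) - 1) ∈ I (PI.O p) (p : ℚ) (1 + 2) :=
    mul_I hx h3
  have h5 : -(rr 1 0 (k + 1) * ((x + (k + 1)) * (((k : ℚ) + 1) ^ 2)⁻¹)) ∈ PI.O p := by
    refine (PI.O p).neg_mem ((PI.O p).mul_mem (rr_O hP _) ((PI.O p).mul_mem
      ((PI.O p).add_mem hxO ?_) ((i_U' hP (by omega)).pow 2).2.1))
    exact_mod_cast natCast_mem (PI.O p) (k + 1)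
  have h6 := mul_O h5 h4
  convert h6 using 1
  rw [div_eq_mul_inv]
  ring

variable (h5 : 5 ≤ p)
include h5

/-- the number `16 ^ h = 4 ^ (p - 1)` -/
def E (h : ℕ) : ℚ := 16 ^ h

omit h5 in
theorem E_U : U (PI.O p) (E h) := by
  unfold E
  have h1 := (two_U hP).pow 4
  norm_num at h1
  exact h1.pow h

omit h5 in
theorem cb_rr (k : ℕ) : rr 1 0 k * 4 ^ k = (k.centralBinom : ℚ) := by
  induction k with
  | zero => simp [rr]
  | succ k ih =>
    rw [rr_succ]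
    have h2 := Nat.succ_mul_centralBinom_succ k
    have h3 : ((k : ℚ) + 1) * ((k + 1).centralBinom : ℚ) =
        2 * (2 * k + 1) * k.centralBinom := by exact_mod_cast h2
    have h4 : ((k : ℚ) + 1) ≠ 0 := by positivity
    have h5 : ((k + 1).centralBinom : ℚ) = 2 * (2 * k + 1) * k.centralBinom / (k + 1) := by
      rw [eq_div_iff h4]; linear_combination h3
    rw [h5, ← ih]
    push_cast
    have h6 : (2 * (k : ℚ) + 2) ≠ 0 := by positivity
    field_simp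
    ring

/-- the value at `- p` modulo `p ^ 3` -/
theorem S_neg_cong : S (-(p : ℚ)) p - E h ∈ I (PI.O p) (p : ℚ) 3 := by
  rw [S_neg hP]
  have h1 := morley hP h5
  have hE := E_U hP
  have e1 : rr 1 0 h ^ 2 * E h = (h.centralBinom : ℚ) ^ 2 := by
    rw [← cb_rr hP, E, show (16 : ℚ) = 4 ^ 2 by norm_num, ← pow_mul, mul_comm 2 h, pow_mul]; ring
  have h2 : (h.centralBinom : ℚ) ^ 2 - E h ^ 2 ∈ I (PI.O p) (p : ℚ) 3 := by
    have h3 : (h.centralBinom : ℚ) + (-1) ^ h * 16 ^ h ∈ PI.O p :=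
      (PI.O p).add_mem (natCast_mem _ _) ((PI.O p).mul_mem ((PI.O p).pow_mem
        ((PI.O p).neg_mem (PI.O p).one_mem) _) hE.1)
    have h4 := mul_O h3 h1
    convert h4 using 1
    have h6 : (-1 : ℚ) ^ h * (-1) ^ h = 1 := by rw [← mul_pow]; norm_num
    unfold E
    linear_combination (-(16 ^ h) ^ 2 : ℚ) * h6.symm
  have h3 := mul_O hE.2.1 h2
  convert h3 using 1
  rw [← e1]
  have := hE.2.2
  field_simp

/-- the value at `p` modulo `p ^ 3` -/
theorem S_pos_cong : S (p : ℚ) p - (E h)⁻¹ ∈ I (PI.O p) (p : ℚ) 3 := by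
  rw [S_pos hP]
  have h1 := wol hP h5
  have hE := E_U hP
  have four : (4 : ℚ) ^ p = 4 * E h := by
    unfold E
    conv_lhs => rw [hP]
    rw [pow_succ, pow_mul]
    norm_num
    ring
  have e1 : rr 1 0 p ^ 2 * 4 ^ p = (E h)⁻¹ * ((p.centralBinom : ℚ) / 2) ^ 2 := by
    rw [← cb_rr hP, four]
    have := hE.2.2
    field_simp
    ring
  rw [e1]
  have hc : (p.centralBinom : ℚ) / 2 ∈ PI.O p := by
    rw [div_eq_mul_inv]; exact (PI.O p).mul_mem (natCast_mem _ _) (two_U hP).2.1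
  have h2 := mul_O ((PI.O p).mul_mem hE.2.1 ((PI.O p).add_mem hc (PI.O p).one_mem)) h1
  convert h2 using 1
  ring

/-- `E ≡ 1` modulo `p` -/
theorem E_one : E h - 1 ∈ I (PI.O p) (p : ℚ) 1 := by
  have h1 := S_neg_cong hP h5
  have hx : -(p : ℚ) ∈ I (PI.O p) (p : ℚ) 1 := ⟨-1, (PI.O p).neg_mem (PI.O p).one_mem, by ring⟩
  have h2 := S_quad hP hx
  have h3 : (-(p : ℚ) * A' p + (-(p : ℚ)) ^ 2 * B' p) ∈ I (PI.O p) (p : ℚ) 1 := by
    refine ⟨-A' p + p * B' p, ?_, by ring⟩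
    exact (PI.O p).add_mem ((PI.O p).neg_mem (A'_O hP)) ((PI.O p).mul_mem p_mem (B'_O hP))
  have h4 := (I (PI.O p) (p : ℚ) 1).sub_mem ((I (PI.O p) (p : ℚ) 1).sub_mem
    (mono p_mem (show 1 ≤ 3 by omega) h2) (mono p_mem (show 1 ≤ 3 by omega) h1)) h3
  convert h4 using 1
  ring

theorem pow_approx (t : ℕ) : E h ^ t - (1 + t * (E h - 1) + t * (t - 1) / 2 * (E h - 1) ^ 2) ∈
    I (PI.O p) (p : ℚ) 3 := by
  have hE := E_U hP
  have h1 := E_one hP h5
  have h3 : (E h - 1) ^ 3 ∈ I (PI.O p) (p : ℚ) 3 := pow_I h1 3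
  induction t with
  | zero => simp
  | succ t ih =>
    have h4 := mul_O hE.1 ih
    have h5 : (t : ℚ) * (t - 1) / 2 ∈ PI.O p := by
      have : (t : ℚ) * (t - 1) = ((t * (t - 1) : ℤ) : ℚ) := by push_cast; ring
      rw [this, div_eq_mul_inv]
      exact (PI.O p).mul_mem (intCast_mem _ _) (two_U hP).2.1
    have h6 := (I (PI.O p) (p : ℚ) 3).add_mem h4 (mul_O h5 h3)
    convert h6 using 1
    rw [pow_succ]
    push_cast
    ring

/-- the value of the sum at `a = p t` -/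
theorem S_base (t : ℕ) : S ((p : ℚ) * t) p * E h ^ t - 1 ∈ I (PI.O p) (p : ℚ) 3 := by
  have hE := E_U hP
  have two := two_U hP
  have hω := E_one hP h5
  set ω := E h - 1 with hωdef
  have hωO : ω ∈ PI.O p := toO p_mem hω
  have hω3 : ω ^ 3 ∈ I (PI.O p) (p : ℚ) 3 := pow_I hω 3
  -- the inverse of `E`
  have hinv : (E h)⁻¹ - (1 - ω + ω ^ 2) ∈ I (PI.O p) (p : ℚ) 3 := by
    have h1 := mul_O ((PI.O p).neg_mem hE.2.1) hω3
    convert h1 using 1
    have hE0 := hE.2.2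
    have e : E h = 1 + ω := by rw [hωdef]; ring
    rw [e] at hE0 ⊢
    field_simp
    ring
  -- the two values
  have hp1 : (p : ℚ) ∈ I (PI.O p) (p : ℚ) 1 := ⟨1, (PI.O p).one_mem, by ring⟩
  have hm1 : -(p : ℚ) ∈ I (PI.O p) (p : ℚ) 1 := ⟨-1, (PI.O p).neg_mem (PI.O p).one_mem, by ring⟩
  have v1 := (I (PI.O p) (p : ℚ) 3).sub_mem ((I (PI.O p) (p : ℚ) 3).add_mem (S_pos_cong hP h5) hinv)
    (S_quad hP hp1)
  have v2 := (I (PI.O p) (p : ℚ) 3).sub_mem (S_neg_cong hP h5) (S_quad hP hm1)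
  have hA : (p : ℚ) * A' p - (ω - ω ^ 2 / 2) ∈ I (PI.O p) (p : ℚ) 3 := by
    have h1 := mul_O two.2.1 ((I (PI.O p) (p : ℚ) 3).sub_mem v2 v1)
    convert h1 using 1
    rw [hωdef]
    ring
  have hB : (p : ℚ) ^ 2 * B' p + ω ^ 2 / 2 ∈ I (PI.O p) (p : ℚ) 3 := by
    have h1 := mul_O ((PI.O p).neg_mem two.2.1) ((I (PI.O p) (p : ℚ) 3).add_mem v2 v1)
    convert h1 using 1
    rw [hωdef]
    ring
  -- the value at `p t`
  have ht : (p : ℚ) * t ∈ I (PI.O p) (p : ℚ) 1 := ⟨t, natCast_mem _ _, by ring⟩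
  have hS := S_quad hP ht
  have hS2 : S ((p : ℚ) * t) p - (1 - t * ω + (t ^ 2 + t) / 2 * ω ^ 2) ∈ I (PI.O p) (p : ℚ) 3 := by
    have h1 := mul_O ((PI.O p).neg_mem (natCast_mem (PI.O p) t)) hA
    have h2 := mul_O ((PI.O p).neg_mem ((PI.O p).pow_mem (natCast_mem (PI.O p) t) 2)) hB
    have h3 := (I (PI.O p) (p : ℚ) 3).add_mem hS ((I (PI.O p) (p : ℚ) 3).add_mem h1 h2)
    convert h3 using 1
    ring
  have hP2 := pow_approx hP h5 t
  rw [← hωdef] at hP2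
  have hEt : E h ^ t ∈ PI.O p := (hE.pow t).1
  have tO : (t : ℚ) ∈ PI.O p := natCast_mem _ _
  have ho : (1 - t * ω + (t ^ 2 + t) / 2 * ω ^ 2) ∈ PI.O p := by
    refine (PI.O p).add_mem ((PI.O p).sub_mem (PI.O p).one_mem ((PI.O p).mul_mem tO hωO))
      ((PI.O p).mul_mem ?_ ((PI.O p).pow_mem hωO 2))
    rw [div_eq_mul_inv]
    exact (PI.O p).mul_mem ((PI.O p).add_mem ((PI.O p).pow_mem tO 2) tO) two.2.1
  have h1 := (I (PI.O p) (p : ℚ) 3).add_mem (mul_O hEt hS2) (mul_O ho hP2)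
  have h2 : (-(t : ℚ) * (t * (t - 1) / 2) + (t ^ 2 + t) / 2 * t + (t ^ 2 + t) / 2 *
      (t * (t - 1) / 2) * ω) * ω ^ 3 ∈ I (PI.O p) (p : ℚ) 3 := by
    apply mul_O _ hω3
    have m1 : (t : ℚ) * (t - 1) / 2 ∈ PI.O p := by
      have : (t : ℚ) * (t - 1) = ((t * (t - 1) : ℤ) : ℚ) := by push_cast; ring
      rw [this, div_eq_mul_inv]
      exact (PI.O p).mul_mem (intCast_mem _ _) two.2.1
    have m2 : ((t : ℚ) ^ 2 + t) / 2 ∈ PI.O p := by
      rw [div_eq_mul_inv]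
      exact (PI.O p).mul_mem ((PI.O p).add_mem ((PI.O p).pow_mem tO 2) tO) two.2.1
    exact (PI.O p).add_mem ((PI.O p).add_mem ((PI.O p).mul_mem ((PI.O p).neg_mem tO) m1)
      ((PI.O p).mul_mem m2 tO)) ((PI.O p).mul_mem ((PI.O p).mul_mem m2 m1) hωO)
  have h3 := (I (PI.O p) (p : ℚ) 3).add_mem h1 h2
  convert h3 using 1
  ring

end padic

end Q278.MG
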