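import Pool.Agent.Q278.MG4

set_option autoImplicit false

/-! The closed form of the truncated series modulo `p ^ 3`. -/

namespace Q278.MG

open Finset Q278.Loc Q278.Unit Q278.EE
open Pool.Agent.H623R3.SW (mg mg_eq mg_congr)

variable {p h : ℕ} [hp : Fact p.Prime] (hP : p = 2 * h + 1) (h5 : 5 ≤ p)

include hP h5

omit h5 in
theorem mg_cg {m n : ℕ} (hmn : m ≡ n [MOD p ^ 3]) :
    (mg p m : ℚ) - mg p n ∈ I (PI.O p) (p : ℚ) 3 := by
  have hp2 : p ≠ 2 := by omega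
  have h1 := mg_congr hp2 hmn
  have h2 := (ZMod.intCast_eq_intCast_iff_dvd_sub _ _ _).1 h1.symm
  obtain ⟨c, hc⟩ := h2
  refine ⟨c, intCast_mem _ _, ?_⟩
  exact_mod_cast congrArg (Int.cast : ℤ → ℚ) hc

omit h5 in
theorem fac_U' {m : ℕ} (hm : m < p) : U (PI.O p) (m.factorial : ℚ) := by
  have h1 : ¬ (p : ℤ) ∣ (m.factorial : ℤ) := by
    intro h
    have h2 := (Nat.Prime.dvd_factorial hp.out).1 (Int.natCast_dvd_natCast.1 h)
    omega
  exact_mod_cast U_int h1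

omit h5 in
theorem sgn_U (m : ℕ) : U (PI.O p) ((-1 : ℚ) ^ m) := by
  apply U.pow
  refine ⟨(PI.O p).neg_mem (PI.O p).one_mem, ?_, by norm_num⟩
  rw [inv_neg_one]; exact (PI.O p).neg_mem (PI.O p).one_mem

/-- the value at the multiples of `p` -/
def P1 (h : ℕ) : ℚ := -((2 * h).factorial : ℚ)

/-- the other value -/
def P2 (h : ℕ) : ℚ := (-1) ^ (h + 1) * (h.factorial : ℚ) ^ 2

omit h5 in
theorem P1_U : U (PI.O p) (P1 h) := by
  have h1 := fac_U' hP (show 2 * h < p by omega)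
  have h2 := (sgn_U hP 1).mul h1
  unfold P1
  convert h2 using 1
  ring

omit h5 in
theorem P2_U : U (PI.O p) (P2 h) :=
  (sgn_U hP (h + 1)).mul ((fac_U' hP (show h < p by omega)).pow 2)

theorem P1_pow : P1 h ^ (p ^ 2) - 1 ∈ I (PI.O p) (p : ℚ) 3 := by
  have h1 := mg_mul hP h5 (p ^ 2)
  have h2 : (mg p (p * p ^ 2) : ℚ) - mg p 0 ∈ I (PI.O p) (p : ℚ) 3 := by
    apply mg_cg hP
    rw [Nat.modEq_zero_iff_dvd]
    exact ⟨1, by ring⟩
  have h3 : (mg p 0 : ℚ) = 1 := by simp [mg]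
  rw [h3] at h2
  have h4 := (I (PI.O p) (p : ℚ) 3).sub_mem h2 h1
  convert h4 using 1
  unfold P1; ring

theorem P2_pow : P2 h ^ (p ^ 2) - 1 ∈ I (PI.O p) (p : ℚ) 3 := by
  have h1 := mg_half hP h5 (p ^ 2)
  have h0 := mg_half hP h5 0
  rw [mul_zero, add_zero, pow_zero, mul_one] at h0
  have h2 : (mg p (h + 1 + p * p ^ 2) : ℚ) - mg p (h + 1) ∈ I (PI.O p) (p : ℚ) 3 := by
    apply mg_cg hP
    have : h + 1 + p * p ^ 2 ≡ h + 1 + 0 [MOD p ^ 3] := by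
      apply Nat.ModEq.add_left
      rw [Nat.modEq_zero_iff_dvd]
      exact ⟨1, by ring⟩
    exact this
  have hU : U (PI.O p) ((-1) ^ (h + 1) * (h.factorial : ℚ)) :=
    (sgn_U hP (h + 1)).mul (fac_U' hP (show h < p by omega))
  have h4 := mul_O hU.2.1 ((I (PI.O p) (p : ℚ) 3).add_mem ((I (PI.O p) (p : ℚ) 3).sub_mem h2 h1) h0)
  convert h4 using 1
  have hU0 := hU.2.2
  unfold P2
  have e : ((-1) ^ (h + 1) * (h.factorial : ℚ))⁻¹ * (((mg p (h + 1 + p * p ^ 2) : ℚ) -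
      (mg p (h + 1) : ℚ) - ((mg p (h + 1 + p * p ^ 2) : ℚ) - (-1) ^ (h + 1) * (h.factorial : ℚ) *
      ((-1) ^ (h + 1) * (h.factorial : ℚ) ^ 2) ^ p ^ 2)) + ((mg p (h + 1) : ℚ) -
      (-1) ^ (h + 1) * (h.factorial : ℚ))) = (((-1) ^ (h + 1) * (h.factorial : ℚ))⁻¹ *
      ((-1) ^ (h + 1) * (h.factorial : ℚ))) * (((-1) ^ (h + 1) * (h.factorial : ℚ) ^ 2) ^ p ^ 2 - 1) := by
    ring
  rw [e, inv_mul_cancel₀ hU0, one_mul]

theorem P1_E : P1 h - E h * P2 h ∈ I (PI.O p) (p : ℚ) 3 := by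
  have h1 := morley hP h5
  have h2 := mul_O ((PI.O p).neg_mem ((fac_U' hP (show h < p by omega)).pow 2).1) h1
  convert h2 using 1
  unfold P1 P2 E
  have h3 : ((2 * h).factorial : ℚ) = (h.centralBinom : ℚ) * (h.factorial : ℚ) ^ 2 := by
    have h4 := Nat.choose_mul_factorial_mul_factorial (show h ≤ 2 * h by omega)
    rw [show 2 * h - h = h by omega] at h4
    rw [Nat.centralBinom, ← h4]
    push_cast; ring
  rw [h3, pow_succ]
  ring

/-- `(p ^ 3 - 1) / 2` -/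
def H3 (h : ℕ) : ℕ := h * (4 * h ^ 2 + 6 * h + 3)

omit h5 hp in
theorem H3_eq : 2 * H3 h + 1 = p ^ 3 := by
  rw [hP]; unfold H3; ring

/-- the right side -/
def Rr (p h m : ℕ) : ℚ := (-1) ^ (h + 1) * (mg p (m * (2 * H3 h)) : ℚ) ^ 2 *
  (mg p (m + (H3 h + 1)) : ℚ) ^ 2

theorem one_pow_cg {x : ℚ} (hx : U (PI.O p) x) (h1 : x - 1 ∈ I (PI.O p) (p : ℚ) 3) (m : ℕ) :
    x ^ m - 1 ∈ I (PI.O p) (p : ℚ) 3 := by
  have h2 : Cg (PI.O p) (p : ℚ) 3 x 1 := ⟨hx, U.one, h1⟩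
  have h3 := (h2.pow m).2.2
  rwa [one_pow] at h3

theorem mg_U {n : ℕ} : U (PI.O p) (mg p n : ℚ) := by
  rw [mg_eq ℚ n]
  refine (sgn_U hP n).mul (U.prod fun i _ => ?_)
  by_cases hd : p ∣ i
  · rw [if_pos hd]; exact U.one
  · rw [if_neg hd]
    have : ¬ (p : ℤ) ∣ (i : ℤ) := fun h => hd (Int.natCast_dvd_natCast.1 h)
    exact_mod_cast U_int this

theorem Rr_base (y : ℕ) : Rr p h (p * y) * E h ^ (2 * y) - 1 ∈ I (PI.O p) (p : ℚ) 3 := by
  have u1 := P1_U hP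
  have u2 := P2_U hP
  have uE := E_U hP
  have c1 : Cg (PI.O p) (p : ℚ) 3 (mg p (p * y * (2 * H3 h)) : ℚ) (P1 h ^ (y * (2 * H3 h))) := by
    refine ⟨mg_U hP h5, u1.pow _, ?_⟩
    have := mg_mul hP h5 (y * (2 * H3 h))
    rw [← mul_assoc] at this
    exact this
  have e2 : p * y + (H3 h + 1) = h + 1 + p * (y + (2 * h ^ 2 + 2 * h)) := by
    rw [hP]; unfold H3; ring
  have c2 : Cg (PI.O p) (p : ℚ) 3 (mg p (p * y + (H3 h + 1)) : ℚ)
      (((-1) ^ (h + 1) * (h.factorial : ℚ)) * P2 h ^ (y + (2 * h ^ 2 + 2 * h))) := by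
    refine ⟨mg_U hP h5, ((sgn_U hP (h + 1)).mul (fac_U' hP (show h < p by omega))).mul
      (u2.pow _), ?_⟩
    rw [e2]
    exact mg_half hP h5 _
  have cE : Cg (PI.O p) (p : ℚ) 3 (P1 h) (E h * P2 h) := ⟨u1, uE.mul u2, P1_E hP h5⟩
  have q1 : Cg (PI.O p) (p : ℚ) 3 (P1 h ^ (p ^ 2)) 1 := ⟨u1.pow _, U.one, P1_pow hP h5⟩
  have q2 : Cg (PI.O p) (p : ℚ) 3 (P2 h ^ (p ^ 2)) 1 := ⟨u2.pow _, U.one, P2_pow hP h5⟩
  -- assemble
  have c3 : Cg (PI.O p) (p : ℚ) 3 (Rr p h (p * y)) ((-1) ^ (h + 1) * (P1 h ^ (y * (2 * H3 h))) ^ 2 *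
      (((-1) ^ (h + 1) * (h.factorial : ℚ)) * P2 h ^ (y + (2 * h ^ 2 + 2 * h))) ^ 2) :=
    ((Cg.refl (sgn_U hP (h + 1))).mul (c1.pow 2)).mul (c2.pow 2)
  have hs : (-1 : ℚ) ^ (h + 1) * (-1) ^ (h + 1) = 1 := by rw [← mul_pow]; norm_num
  have e3 : (-1) ^ (h + 1) * (P1 h ^ (y * (2 * H3 h))) ^ 2 *
      (((-1) ^ (h + 1) * (h.factorial : ℚ)) * P2 h ^ (y + (2 * h ^ 2 + 2 * h))) ^ 2 =
      (P1 h ^ (y * (2 * H3 h))) ^ 2 * (P2 h ^ (2 * y) * P2 h ^ (p ^ 2)) := by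
    have e4 : P2 h ^ (2 * y) * P2 h ^ (p ^ 2) = P2 h * (P2 h ^ (y + (2 * h ^ 2 + 2 * h))) ^ 2 := by
      rw [← pow_mul, ← pow_add, ← pow_succ']
      congr 1
      rw [hP]; ring
    rw [e4]
    have e5 : (-1) ^ (h + 1) * ((-1) ^ (h + 1) * (h.factorial : ℚ)) ^ 2 = P2 h := by
      unfold P2
      linear_combination ((-1) ^ (h + 1) * (h.factorial : ℚ) ^ 2) * hs
    rw [← e5]; ring
  rw [e3] at c3
  have c4 : Cg (PI.O p) (p : ℚ) 3 (Rr p h (p * y)) ((P1 h ^ (y * (2 * H3 h))) ^ 2 *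
      (P2 h ^ (2 * y) * 1)) :=
    c3.trans ((Cg.refl ((u1.pow _).pow 2)).mul ((Cg.refl (u2.pow _)).mul q2))
  have c5 : Cg (PI.O p) (p : ℚ) 3 (Rr p h (p * y) * P1 h ^ (2 * y)) (P2 h ^ (2 * y)) := by
    have c6 := c4.mul (Cg.refl (π := (p : ℚ)) (k := 3) (u1.pow (2 * y)))
    have e6 : (P1 h ^ (y * (2 * H3 h))) ^ 2 * (P2 h ^ (2 * y) * 1) * P1 h ^ (2 * y) =
        (P1 h ^ (p ^ 2)) ^ (2 * y * p) * P2 h ^ (2 * y) := by
      have e7 : (P1 h ^ (y * (2 * H3 h))) ^ 2 * P1 h ^ (2 * y) = (P1 h ^ (p ^ 2)) ^ (2 * y * p) := by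
        rw [← pow_mul, ← pow_mul, ← pow_add]
        congr 1
        have := H3_eq hP
        have e8 : p ^ 2 * (2 * y * p) = 2 * y * p ^ 3 := by ring
        rw [e8, ← this]; ring
      rw [← e7]; ring
    rw [e6] at c6
    have c7 := (q1.pow (2 * y * p)).mul (Cg.refl (π := (p : ℚ)) (k := 3) (u2.pow (2 * y)))
    rw [one_pow, one_mul] at c7
    exact c6.trans c7
  have uR : U (PI.O p) (Rr p h (p * y)) := c4.1
  have c8 : Cg (PI.O p) (p : ℚ) 3 (Rr p h (p * y) * (E h * P2 h) ^ (2 * y)) (P2 h ^ (2 * y)) :=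
    ((Cg.refl uR).mul (cE.symm.pow _)).trans c5
  have c9 := c8.mul (Cg.refl (π := (p : ℚ)) (k := 3) (u2.pow (2 * y)).inv)
  have n2 := (u2.pow (2 * y)).2.2
  have e9 : Rr p h (p * y) * (E h * P2 h) ^ (2 * y) * (P2 h ^ (2 * y))⁻¹ =
      Rr p h (p * y) * E h ^ (2 * y) := by
    rw [mul_pow]; field_simp
  rw [e9, mul_inv_cancel₀ n2] at c9
  exact c9.2.2

theorem Rr_rec {m : ℕ} (hm : m % p < h) :
    4 * ((m : ℚ) + 1) ^ 2 * Rr p h (m + 1) - (2 * (m : ℚ) + 1) ^ 2 * Rr p h m ∈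
      I (PI.O p) (p : ℚ) 3 := by
  have hH := H3_eq hP
  have hdm := Nat.div_add_mod m p
  have hmO : (m : ℚ) ∈ PI.O p := natCast_mem _ _
  -- first factor
  have d1 : ¬ p ∣ (m + 1) * (2 * H3 h) := by
    intro hd
    have h1 : p ∣ (m + 1) * p ^ 3 := dvd_mul_of_dvd_right (dvd_pow_self p (by norm_num)) _
    have h2 : (m + 1) * p ^ 3 = (m + 1) * (2 * H3 h) + (m + 1) := by rw [← hH]; ring
    rw [h2] at h1
    have h3 := (Nat.dvd_add_right hd).1 h1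
    rw [show m + 1 = p * (m / p) + (m % p + 1) by omega] at h3
    have h4 := (Nat.dvd_add_right (dvd_mul_right _ _)).1 h3
    have := Nat.le_of_dvd (by omega) h4
    omega
  have a1 := mg_succ (p := p) ((m + 1) * (2 * H3 h))
  rw [if_neg d1] at a1
  have a2 : (mg p ((m + 1) * (2 * H3 h) + 1) : ℚ) - mg p (m * (2 * H3 h)) ∈
      I (PI.O p) (p : ℚ) 3 := by
    apply mg_cg hP
    have e : (m + 1) * (2 * H3 h) + 1 = m * (2 * H3 h) + p ^ 3 := by rw [← hH]; ring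
    rw [e]
    have : m * (2 * H3 h) + p ^ 3 ≡ m * (2 * H3 h) + 0 [MOD p ^ 3] :=
      Nat.ModEq.add_left _ ((Nat.modEq_zero_iff_dvd).2 dvd_rfl)
    exact this
  have hHQ : 2 * (H3 h : ℚ) + 1 = (p : ℚ) ^ 3 := by exact_mod_cast congrArg (Nat.cast : ℕ → ℚ) hH
  have a3 : (mg p (m * (2 * H3 h)) : ℚ) - ((m : ℚ) + 1) * mg p ((m + 1) * (2 * H3 h)) ∈
      I (PI.O p) (p : ℚ) 3 := by
    rw [a1] at a2
    have h1 : (((m : ℚ) + 1) * (mg p ((m + 1) * (2 * H3 h)) : ℚ)) * (p : ℚ) ^ 3 ∈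
        I (PI.O p) (p : ℚ) 3 := by
      apply mul_O _ (self_pow 3)
      exact (PI.O p).mul_mem ((PI.O p).add_mem hmO (PI.O p).one_mem) (intCast_mem _ _)
    have h2 := (I (PI.O p) (p : ℚ) 3).sub_mem ((I (PI.O p) (p : ℚ) 3).neg_mem a2) h1
    convert h2 using 1
    push_cast
    rw [← hHQ]
    ring
  -- second factor
  have d2 : ¬ p ∣ m + (H3 h + 1) := by
    intro hd
    have h1 : p ∣ 2 * (m + (H3 h + 1)) := dvd_mul_of_dvd_right hd _
    have h2 : 2 * (m + (H3 h + 1)) = p ^ 3 + (2 * m + 1) := by rw [← hH]; ring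
    rw [h2] at h1
    have h3 := (Nat.dvd_add_right (dvd_pow_self p (by norm_num))).1 h1
    rw [show 2 * m + 1 = p * (m / p) * 2 + (2 * (m % p) + 1) by omega] at h3
    have h4 := (Nat.dvd_add_right (dvd_mul_of_dvd_left (dvd_mul_right _ _) _)).1 h3
    have := Nat.le_of_dvd (by omega) h4
    omega
  have b1 := mg_succ (p := p) (m + (H3 h + 1))
  rw [if_neg d2] at b1
  have b3 : 2 * (mg p (m + 1 + (H3 h + 1)) : ℚ) + (2 * (m : ℚ) + 1) * mg p (m + (H3 h + 1)) ∈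
      I (PI.O p) (p : ℚ) 3 := by
    rw [show m + 1 + (H3 h + 1) = m + (H3 h + 1) + 1 by ring, b1]
    have h1 : (-(mg p (m + (H3 h + 1)) : ℚ)) * (p : ℚ) ^ 3 ∈ I (PI.O p) (p : ℚ) 3 :=
      mul_O ((PI.O p).neg_mem (intCast_mem _ _)) (self_pow 3)
    convert h1 using 1
    push_cast
    rw [← hHQ]
    ring
  -- assemble
  unfold Rr
  set X := (mg p (m * (2 * H3 h)) : ℚ) with hX
  set X' := (mg p ((m + 1) * (2 * H3 h)) : ℚ) with hX'
  set Y := (mg p (m + (H3 h + 1)) : ℚ) with hY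
  set Y' := (mg p (m + 1 + (H3 h + 1)) : ℚ) with hY'
  have oX : X ∈ PI.O p := intCast_mem _ _
  have oX' : X' ∈ PI.O p := intCast_mem _ _
  have oY : Y ∈ PI.O p := intCast_mem _ _
  have oY' : Y' ∈ PI.O p := intCast_mem _ _
  have oz : ((m : ℚ) + 1) ∈ PI.O p := (PI.O p).add_mem hmO (PI.O p).one_mem
  have ot : (2 : ℚ) ∈ PI.O p := (two_U hP).1
  have oz2 : (2 * (m : ℚ) + 1) ∈ PI.O p := (PI.O p).add_mem ((PI.O p).mul_mem ot hmO) (PI.O p).one_mem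
  have os := (sgn_U hP (h + 1)).1
  have k1 := mul_O ((PI.O p).neg_mem ((PI.O p).mul_mem ((PI.O p).mul_mem os ((PI.O p).pow_mem
    ((PI.O p).mul_mem oz2 oY) 2)) ((PI.O p).add_mem oX ((PI.O p).mul_mem oz oX')))) a3
  have k2 := mul_O ((PI.O p).mul_mem ((PI.O p).mul_mem os ((PI.O p).pow_mem
    ((PI.O p).mul_mem oz oX') 2)) ((PI.O p).sub_mem ((PI.O p).mul_mem ot oY')
      ((PI.O p).mul_mem oz2 oY))) b3
  have k3 := (I (PI.O p) (p : ℚ) 3).add_mem k1 k2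
  convert k3 using 1
  ring

/-- the closed form at the even numbers -/
theorem S_Rr (y : ℕ) : ∀ j ≤ h, S ((2 * (p * y + j) : ℕ) : ℚ) p - Rr p h (p * y + j) ∈
    I (PI.O p) (p : ℚ) 3 := by
  intro j
  induction j with
  | zero =>
    intro _
    have h1 := S_base hP h5 (2 * y)
    have h2 := Rr_base hP h5 y
    have hE := (E_U hP).pow (2 * y)
    have h3 := mul_O hE.2.1 ((I (PI.O p) (p : ℚ) 3).sub_mem h1 h2)
    convert h3 using 1
    have e : ((2 * (p * y + 0) : ℕ) : ℚ) = (p : ℚ) * ((2 * y : ℕ) : ℚ) := by push_cast; ring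
    rw [e, add_zero]
    have := hE.2.2
    field_simp
    ring
  | succ j ih =>
    intro hj
    have hm : (p * y + j) % p = j := by
      rw [Nat.mul_add_mod]; exact Nat.mod_eq_of_lt (by omega)
    have h1 := ih (by omega)
    have h2 := Rr_rec hP h5 (m := p * y + j) (by rw [hm]; omega)
    have h3 := S_rec hP (a := 2 * (p * y + j)) (by
      rw [show 2 * (p * y + j) = p * (2 * y) + 2 * j by ring, Nat.mul_add_mod,
        Nat.mod_eq_of_lt (by omega)]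
      omega)
    have hz : ¬ (p : ℤ) ∣ (p * y + j + 1) := by
      intro hd
      have hd' : p ∣ p * y + (j + 1) := by
        have : (p : ℤ) ∣ ((p * y + (j + 1) : ℕ) : ℤ) := by push_cast; rw [← add_assoc]; exact hd
        exact Int.natCast_dvd_natCast.1 this
      have h4 := (Nat.dvd_add_right (dvd_mul_right _ _)).1 hd'
      have := Nat.le_of_dvd (by omega) h4
      omega
    have uz := U_int hz
    have u4 : U (PI.O p) (4 * ((((p * y + j + 1 : ℤ)) : ℚ)) ^ 2) := by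
      have h4 := (two_U hP).pow 2
      norm_num at h4
      exact h4.mul (uz.pow 2)
    have ow : (2 * ((p : ℚ) * y + j) + 1) ^ 2 ∈ PI.O p := by
      apply (PI.O p).pow_mem
      exact_mod_cast natCast_mem (PI.O p) (2 * (p * y + j) + 1)
    have h4 := (I (PI.O p) (p : ℚ) 3).add_mem ((I (PI.O p) (p : ℚ) 3).sub_mem h3 h2) (mul_O ow h1)
    have h6 := mul_O u4.2.1 h4
    convert h6 using 1
    have e0 := u4.2.2
    have e1 : ((2 * (p * y + (j + 1)) : ℕ) : ℚ) = ((2 * (p * y + j) : ℕ) : ℚ) + 2 := by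
      push_cast; ring
    rw [e1, show p * y + (j + 1) = p * y + j + 1 by ring]
    generalize S (((2 * (p * y + j) : ℕ) : ℚ) + 2) p = s1
    generalize S (((2 * (p * y + j) : ℕ) : ℚ)) p = s0
    generalize Rr p h (p * y + j + 1) = r1
    generalize Rr p h (p * y + j) = r0
    push_cast at e0 ⊢
    rw [eq_comm, inv_mul_eq_iff_eq_mul₀ e0]
    ring

end Q278.MG
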