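import Pool.Agent.Q278.MG5

set_option autoImplicit false

/-! The closed form of the truncated series modulo `p ^ 3` over the `p`-adic integers. -/

namespace Q278.MG

open Finset Q278.Loc Q278.Unit Q278.EE
open Pool.Agent.H623R3.SW (mg mg_eq mg_congr IsMorita morita_near)

section any

variable {p : ℕ} [hp : Fact p.Prime]

theorem cast_O {x : ℚ} (hx : x ∈ PI.O p) : (x : ℚ_[p]) ∈ PadicInt.subring p := by
  rw [PadicInt.mem_subring_iff]
  exact Padic.norm_rat_le_one hx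

theorem cast_I {x : ℚ} {k : ℕ} (hx : x ∈ I (PI.O p) (p : ℚ) k) :
    (x : ℚ_[p]) ∈ I (PadicInt.subring p) (p : ℚ_[p]) k := by
  obtain ⟨y, hy, rfl⟩ := hx
  exact ⟨y, cast_O hy, by push_cast; ring⟩

theorem cast_T (a : ℚ) (k : ℕ) : ((T a k : ℚ) : ℚ_[p]) = T (a : ℚ_[p]) k := by
  unfold T
  push_cast
  rfl

theorem cast_S (a : ℚ) (N : ℕ) : ((S a N : ℚ) : ℚ_[p]) = S (a : ℚ_[p]) N := by
  unfold S
  rw [Rat.cast_sum]
  exact sum_congr rfl fun k _ => cast_T a k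

theorem p_O : (p : ℚ_[p]) ∈ PadicInt.subring p := natCast_mem _ _

theorem T_cg {h : ℕ} (hP : p = 2 * h + 1) {a b : ℚ_[p]} (ha : a ∈ PadicInt.subring p)
    (hb : b ∈ PadicInt.subring p)
    {M : ℕ} (hab : a - b ∈ I (PadicInt.subring p) (p : ℚ_[p]) M) : ∀ k < p, T a k ∈
      PadicInt.subring p ∧ T b k ∈ PadicInt.subring p ∧
      T a k - T b k ∈ I (PadicInt.subring p) (p : ℚ_[p]) M := by
  intro k
  induction k with
  | zero => intro _; simp [T, (PadicInt.subring p).one_mem]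
  | succ k ih =>
    intro hk
    obtain ⟨h1, h2, h3⟩ := ih (by omega)
    have e : ∀ c : ℚ_[p], T c (k + 1) = T c k * ((1 / 2 + (k : ℚ_[p])) * ((k : ℚ_[p]) - c) *
        (c + 1 + k) / ((k : ℚ_[p]) + 1) ^ 3) := by
      intro c; unfold T; rw [prod_range_succ]
    have o2 : (1 / 2 + (k : ℚ_[p])) ∈ PadicInt.subring p := by
      have h4 := cast_O (p := p) (two_U hP).2.1
      have h5 := (PadicInt.subring p).add_mem h4 (natCast_mem (PadicInt.subring p) k)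
      convert h5 using 1
      push_cast; ring
    have o3 : (((k : ℚ_[p]) + 1) ^ 3)⁻¹ ∈ PadicInt.subring p := by
      have h4 : ¬ (p : ℤ) ∣ ((k + 1 : ℕ) : ℤ) := by
        intro h; have := Nat.le_of_dvd (by omega) (Int.natCast_dvd_natCast.1 h); omega
      have h5 := cast_O (p := p) ((U_int h4).pow 3).2.1
      push_cast at h5
      exact h5
    have hk1 := natCast_mem (PadicInt.subring p) k
    have fO : ∀ c : ℚ_[p], c ∈ PadicInt.subring p → (1 / 2 + (k : ℚ_[p])) * ((k : ℚ_[p]) - c) *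
        (c + 1 + k) / ((k : ℚ_[p]) + 1) ^ 3 ∈ PadicInt.subring p := by
      intro c hc
      rw [div_eq_mul_inv]
      exact (PadicInt.subring p).mul_mem ((PadicInt.subring p).mul_mem
        ((PadicInt.subring p).mul_mem o2 ((PadicInt.subring p).sub_mem hk1 hc))
        ((PadicInt.subring p).add_mem ((PadicInt.subring p).add_mem hc
        (PadicInt.subring p).one_mem) hk1)) o3
    refine ⟨?_, ?_, ?_⟩
    · rw [e]; exact (PadicInt.subring p).mul_mem h1 (fO a ha)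
    · rw [e]; exact (PadicInt.subring p).mul_mem h2 (fO b hb)
    · rw [e, e]
      have k1 := mul_O (fO a ha) h3
      have k2 : T b k * ((1 / 2 + (k : ℚ_[p])) * (((k : ℚ_[p]) + 1) ^ 3)⁻¹ *
          (-(a + b + 1))) ∈ PadicInt.subring p :=
        (PadicInt.subring p).mul_mem h2 ((PadicInt.subring p).mul_mem
          ((PadicInt.subring p).mul_mem o2 o3) ((PadicInt.subring p).neg_mem
          ((PadicInt.subring p).add_mem ((PadicInt.subring p).add_mem ha hb)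
          (PadicInt.subring p).one_mem)))
      have k3 := (I (PadicInt.subring p) (p : ℚ_[p]) M).add_mem k1 (mul_O k2 hab)
      convert k3 using 1
      ring

theorem S_cg {h : ℕ} (hP : p = 2 * h + 1) {a b : ℚ_[p]} (ha : a ∈ PadicInt.subring p)
    (hb : b ∈ PadicInt.subring p)
    {M : ℕ} (hab : a - b ∈ I (PadicInt.subring p) (p : ℚ_[p]) M) :
    S a p - S b p ∈ I (PadicInt.subring p) (p : ℚ_[p]) M := by
  unfold S
  rw [← sum_sub_distrib]
  exact AddSubgroup.sum_mem _ fun k hk => (T_cg hP ha hb hab k (mem_range.1 hk)).2.2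

theorem mem_I_of_dvd {x : ℤ_[p]} {M : ℕ} (hx : (p : ℤ_[p]) ^ M ∣ x) :
    (x : ℚ_[p]) ∈ I (PadicInt.subring p) (p : ℚ_[p]) M := by
  obtain ⟨c, rfl⟩ := hx
  exact ⟨c, c.2, by push_cast; ring⟩

theorem dvd_of_mem_I {x : ℚ_[p]} {M : ℕ} (hx : x ∈ I (PadicInt.subring p) (p : ℚ_[p]) M) :
    ∃ z : ℤ_[p], x = (p : ℚ_[p]) ^ M * z := by
  obtain ⟨y, hy, rfl⟩ := hx
  exact ⟨⟨y, hy⟩, rfl⟩

theorem poch_prod (x : ℚ_[p]) (k : ℕ) : (ascPochhammer ℚ_[p] k).eval x =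
    ∏ l ∈ range k, (x + l) := by
  induction k with
  | zero => simp
  | succ k ih => rw [ascPochhammer_succ_eval, ih, prod_range_succ]

theorem T_poch (a : ℚ_[p]) (k : ℕ) : (ascPochhammer ℚ_[p] k).eval (1 / 2) *
    (ascPochhammer ℚ_[p] k).eval (-a) * (ascPochhammer ℚ_[p] k).eval (a + 1) /
    (k.factorial : ℚ_[p]) ^ 3 = T a k := by
  rw [poch_prod, poch_prod, poch_prod]
  have hf : (k.factorial : ℚ_[p]) = ∏ l ∈ range k, ((l : ℚ_[p]) + 1) := by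
    rw [← Finset.prod_range_add_one_eq_factorial]; push_cast; rfl
  rw [hf]
  unfold T
  rw [← prod_pow, ← prod_mul_distrib, ← prod_mul_distrib, ← prod_div_distrib]
  apply prod_congr rfl
  intro l _
  ring

end any

theorem main {p : ℕ} [hp : Fact p.Prime] (h5 : 5 ≤ p) {G : ℤ_[p] → ℤ_[p]} (hG : IsMorita p G)
    (a : ℤ_[p]) (r : ℕ) (hr : r < p) (hev : Even r) (har : (p : ℤ_[p]) ∣ a - r)
    (x y : ℤ_[p]) (hx : 2 * x = -a) (hy : 2 * y = a + 1) :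
    ∃ z : ℤ_[p], (∑ k ∈ range p, (ascPochhammer ℚ_[p] k).eval (1 / 2) *
      (ascPochhammer ℚ_[p] k).eval (-(a : ℚ_[p])) * (ascPochhammer ℚ_[p] k).eval ((a : ℚ_[p]) + 1) /
      (k.factorial : ℚ_[p]) ^ 3) - (-1) ^ ((p + 1) / 2) * ((G x : ℤ_[p]) : ℚ_[p]) ^ 2 *
      ((G y : ℤ_[p]) : ℚ_[p]) ^ 2 = (p : ℚ_[p]) ^ 3 * z := by
  apply dvd_of_mem_I
  obtain ⟨h, hP⟩ := hp.out.odd_of_ne_two (by omega)
  have hp2 : p ≠ 2 := by omega
  have hH := H3_eq hP
  have hHZ : 2 * ((H3 h : ℕ) : ℤ_[p]) + 1 = (p : ℤ_[p]) ^ 3 := by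
    exact_mod_cast congrArg (Nat.cast : ℕ → ℤ_[p]) hH
  -- the approximation
  obtain ⟨c, hc⟩ : (p : ℤ_[p]) ^ 3 ∣ -x - ((-x).appr 3 : ℕ) := by
    rw [← Ideal.mem_span_singleton]
    exact PadicInt.appr_spec 3 (-x)
  set m := (-x).appr 3 with hm
  have unit2 : IsUnit (2 : ℤ_[p]) := by
    rw [PadicInt.isUnit_iff]
    refine le_antisymm (PadicInt.norm_le_one _) ?_
    by_contra hlt
    have h1 := (PadicInt.norm_int_lt_one_iff_dvd (p := p) 2).1 (by push_cast; exact not_le.1 hlt)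
    have := Int.le_of_dvd (by norm_num) h1
    omega
  -- the residue of `m`
  have hmod : m % p ≤ h := by
    obtain ⟨s, hs⟩ := hev
    have h1 : (p : ℤ_[p]) ∣ 2 * ((m : ℤ_[p]) - s) := by
      obtain ⟨d, hd⟩ := har
      refine ⟨d - 2 * p ^ 2 * c, ?_⟩
      have e1 : (r : ℤ_[p]) = 2 * s := by
        rw [hs]; push_cast; ring
      rw [e1] at hd
      have e2 : (m : ℤ_[p]) = -x - p ^ 3 * c := by rw [← hc]; ring
      rw [e2]
      linear_combination (-1 : ℤ_[p]) * hx + hd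
    have h2 : (p : ℤ_[p]) ∣ (m : ℤ_[p]) - s := (IsUnit.dvd_mul_left unit2).1 h1
    have h3 : m ≡ s [MOD p] := by
      have h4 : (p : ℤ_[p]) ^ 1 ∣ (m : ℤ_[p]) - s := by rwa [pow_one]
      rw [Pool.Agent.H623R3.SW.pow_dvd_iff, map_sub, map_natCast, map_natCast, sub_eq_zero,
        ZMod.natCast_eq_natCast_iff, pow_one] at h4
      exact h4
    have h4 : m % p = s := by
      rw [h3, Nat.mod_eq_of_lt (by omega)]
    omega
  have key := S_Rr hP h5 (m / p) (m % p) hmod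
  rw [Nat.div_add_mod] at key
  have key' := cast_I (p := p) key
  rw [Rat.cast_sub, cast_S] at key'
  -- replace a by 2 m
  have hab : (a : ℚ_[p]) - (((2 * m : ℕ) : ℚ) : ℚ_[p]) ∈ I (PadicInt.subring p) (p : ℚ_[p]) 3 := by
    have h1 : (p : ℤ_[p]) ^ 3 ∣ a - ((2 * m : ℕ) : ℤ_[p]) := by
      refine ⟨2 * c, ?_⟩
      push_cast
      linear_combination 2 * hc + hx
    have h2 := mem_I_of_dvd h1
    push_cast at h2 ⊢
    exact h2
  have k1 := S_cg hP a.2 (by exact_mod_cast natCast_mem (PadicInt.subring p) (2 * m)) hab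
  -- the gamma values
  have g1 : (p : ℤ_[p]) ^ 3 ∣ G x - ((mg p (m * (2 * H3 h)) : ℤ) : ℤ_[p]) := by
    refine Pool.Agent.H623R3.SW.dvd_of_norm_le _ _ (morita_near hp2 hG x _) 3 ?_
    refine ⟨-c - m, ?_⟩
    push_cast
    linear_combination (-1 : ℤ_[p]) * hc - (m : ℤ_[p]) * hHZ
  have g2 : (p : ℤ_[p]) ^ 3 ∣ G y - ((mg p (m + (H3 h + 1)) : ℤ) : ℤ_[p]) := by
    refine Pool.Agent.H623R3.SW.dvd_of_norm_le _ _ (morita_near hp2 hG y _) 3 ?_
    have h1 : (p : ℤ_[p]) ^ 3 ∣ 2 * (y - ((m + (H3 h + 1) : ℕ) : ℤ_[p])) := by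
      refine ⟨2 * c - 1, ?_⟩
      push_cast
      linear_combination hy + hx + 2 * hc - hHZ
    exact (IsUnit.dvd_mul_left unit2).1 h1
  obtain ⟨w1, hw1⟩ := g1
  obtain ⟨w2, hw2⟩ := g2
  have k2 : (((Rr p h m : ℚ)) : ℚ_[p]) - (-1) ^ (h + 1) * ((G x : ℤ_[p]) : ℚ_[p]) ^ 2 *
      ((G y : ℤ_[p]) : ℚ_[p]) ^ 2 ∈ I (PadicInt.subring p) (p : ℚ_[p]) 3 := by
    have h1 : (p : ℤ_[p]) ^ 3 ∣ (-1) ^ (h + 1) * ((mg p (m * (2 * H3 h)) : ℤ) : ℤ_[p]) ^ 2 *
        ((mg p (m + (H3 h + 1)) : ℤ) : ℤ_[p]) ^ 2 - (-1) ^ (h + 1) * (G x) ^ 2 * (G y) ^ 2 := by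
      have e1 : ((mg p (m * (2 * H3 h)) : ℤ) : ℤ_[p]) = G x - p ^ 3 * w1 := by rw [← hw1]; ring
      have e2 : ((mg p (m + (H3 h + 1)) : ℤ) : ℤ_[p]) = G y - p ^ 3 * w2 := by rw [← hw2]; ring
      rw [e1, e2]
      refine ⟨(-1) ^ (h + 1) * ((-2 * G x * w1 + p ^ 3 * w1 ^ 2) * (G y - p ^ 3 * w2) ^ 2 +
        (G x) ^ 2 * (-2 * G y * w2 + p ^ 3 * w2 ^ 2)), by ring⟩
    have h2 := mem_I_of_dvd h1
    unfold Rr
    push_cast at h2 ⊢
    exact h2
  have k3 := (I (PadicInt.subring p) (p : ℚ_[p]) 3).add_mem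
    ((I (PadicInt.subring p) (p : ℚ_[p]) 3).add_mem k1 key') k2
  have e0 : ∑ k ∈ range p, (ascPochhammer ℚ_[p] k).eval (1 / 2) *
      (ascPochhammer ℚ_[p] k).eval (-(a : ℚ_[p])) * (ascPochhammer ℚ_[p] k).eval ((a : ℚ_[p]) + 1) /
      (k.factorial : ℚ_[p]) ^ 3 = S (a : ℚ_[p]) p := by
    unfold S
    exact sum_congr rfl fun k _ => T_poch _ k
  rw [e0, show (p + 1) / 2 = h + 1 by omega]
  convert k3 using 1
  ring

end Q278.MG
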