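import Pool.Agent.Q61.MH.Stm

set_option autoImplicit false

open Real Filter Topology

noncomputable section

namespace Q278.MH

open Pool.Agent.Q61.MH

lemma Dd_pos (j : ℕ) (hj : 1 ≤ j) (r : ℝ) (hr : 0 < r) : 0 < Dd j r := by
  unfold Dd
  have hj' : (1 : ℝ) ≤ j := by exact_mod_cast hj
  exact sub_pos.2 (Real.rpow_lt_rpow (by linarith) (by linarith) hr)

lemma Dd_le (j : ℕ) (hj : 1 ≤ j) (r : ℝ) : Dd j r ≤ (2 * (j : ℝ) + 1) ^ r := by
  unfold Dd
  have hj' : (1 : ℝ) ≤ j := by exact_mod_cast hj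
  have : 0 ≤ (2 * (j : ℝ) - 1) ^ r := Real.rpow_nonneg (by linarith) _
  linarith

lemma S_succ (j : ℕ) (r : ℝ) : S (j + 1) r = S j r + ((j : ℝ) + 1) ^ r := by
  unfold S
  rw [Finset.sum_range_succ]

lemma F_le (j : ℕ) (hj : 1 ≤ j) (r : ℝ) (hr : 0 < r) : P j r / Dd j r ≤ S j r := by
  rw [div_le_iff₀ (Dd_pos j hj r hr)]
  have hj' : (1 : ℝ) ≤ j := by exact_mod_cast hj
  have h1 : 0 ≤ (2 * (j : ℝ) - 1) ^ r := Real.rpow_nonneg (by linarith) _
  have h2 : 0 ≤ ((j : ℝ) + 1) ^ r := Real.rpow_nonneg (by linarith) _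
  have h3 := mul_nonneg h1 h2
  unfold P Dd
  rw [S_succ]
  linarith

lemma S_le (j : ℕ) (r : ℝ) (hr : 0 ≤ r) : S j r ≤ j * (j : ℝ) ^ r := by
  unfold S
  have h : ∀ i ∈ Finset.range j, ((i : ℝ) + 1) ^ r ≤ (j : ℝ) ^ r := by
    intro i hi
    have : i + 1 ≤ j := Finset.mem_range.1 hi
    have h' : ((i : ℝ) + 1) ≤ j := by exact_mod_cast this
    exact Real.rpow_le_rpow (by positivity) h' hr
  calc ∑ i ∈ Finset.range j, ((i : ℝ) + 1) ^ r ≤ ∑ _i ∈ Finset.range j, (j : ℝ) ^ r :=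
        Finset.sum_le_sum h
    _ = j * (j : ℝ) ^ r := by rw [Finset.sum_const, Finset.card_range, nsmul_eq_mul]

lemma F_step (h1 : S_rec) (j : ℕ) (hj : 1 ≤ j) (r : ℝ) (hr : 0 < r) :
    P (j + 1) r / Dd (j + 1) r =
      P j r / Dd j r - (2 * (j : ℝ) + 1) ^ r * Qk j r / (Dd j r * Dd (j + 1) r) := by
  have h := h1 j hj r
  have d1 := Dd_pos j hj r hr
  have d2 := Dd_pos (j + 1) (by omega) r hr
  rw [eq_sub_iff_add_eq]
  field_simp
  linarith

lemma mm_pos (j : ℕ) (hj : 1 ≤ j) : 0 < mm j := by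
  unfold mm
  have hj' : (1 : ℝ) ≤ j := by exact_mod_cast hj
  nlinarith

lemma exp_bound (c : ℝ) (hc : 0 < c) (j : ℕ) (hj : 2 ≤ j) :
    Real.exp (-(4 * c)) * (2 * (j : ℝ) + 3) ^ (c * ((j : ℝ) + 1)) ≤ (2 * (j : ℝ) - 1) ^ (c * ((j : ℝ) + 1)) := by
  have hj' : (2 : ℝ) ≤ j := by exact_mod_cast hj
  have hp : (0 : ℝ) < 2 * (j : ℝ) - 1 := by linarith
  have h1 : (2 * (j : ℝ) + 3) ≤ (2 * (j : ℝ) - 1) * Real.exp (4 / (2 * (j : ℝ) - 1)) := by
    have := Real.add_one_le_exp (4 / (2 * (j : ℝ) - 1))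
    have h2 := mul_le_mul_of_nonneg_left this hp.le
    have h3 : (2 * (j : ℝ) - 1) * (4 / (2 * (j : ℝ) - 1) + 1) = 2 * (j : ℝ) + 3 := by
      field_simp
      ring
    linarith
  have hr : (0 : ℝ) ≤ c * ((j : ℝ) + 1) := by positivity
  have h4 := Real.rpow_le_rpow (by positivity) h1 hr
  rw [Real.mul_rpow hp.le (Real.exp_pos _).le, ← Real.exp_mul] at h4
  have h5 : 4 / (2 * (j : ℝ) - 1) * (c * ((j : ℝ) + 1)) ≤ 4 * c := by
    rw [div_mul_eq_mul_div, div_le_iff₀ hp]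
    nlinarith [mul_nonneg hc.le (by linarith : (0 : ℝ) ≤ j - 2)]
  have h6 : 0 ≤ (2 * (j : ℝ) - 1) ^ (c * ((j : ℝ) + 1)) := Real.rpow_nonneg hp.le _
  have h7 : (2 * (j : ℝ) + 3) ^ (c * ((j : ℝ) + 1)) ≤
      (2 * (j : ℝ) - 1) ^ (c * ((j : ℝ) + 1)) * Real.exp (4 * c) :=
    h4.trans (mul_le_mul_of_nonneg_left (Real.exp_le_exp.2 h5) h6)
  calc Real.exp (-(4 * c)) * (2 * (j : ℝ) + 3) ^ (c * ((j : ℝ) + 1))
      ≤ Real.exp (-(4 * c)) * ((2 * (j : ℝ) - 1) ^ (c * ((j : ℝ) + 1)) * Real.exp (4 * c)) :=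
        mul_le_mul_of_nonneg_left h7 (Real.exp_pos _).le
    _ = (2 * (j : ℝ) - 1) ^ (c * ((j : ℝ) + 1)) * (Real.exp (-(4 * c)) * Real.exp (4 * c)) := by ring
    _ = (2 * (j : ℝ) - 1) ^ (c * ((j : ℝ) + 1)) := by
        rw [← Real.exp_add, neg_add_cancel, Real.exp_zero, mul_one]

theorem low (h1 : S_rec) (_h2 : S_uni) (h3 : S_qlow) (h4 : S_rlim) : S_low := by
  intro c hc hc3
  obtain ⟨δ, η, hδ, hδ2, hη, K0, hK⟩ := h4 c hc hc3
  -- the limit
  have hq0 : 0 < (1 - δ / 2) ^ c := Real.rpow_pos_of_pos (by linarith) _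
  have hq1 : (1 - δ / 2) ^ c < 1 := Real.rpow_lt_one (by linarith) (by linarith) hc
  have hlim := tendsto_pow_const_mul_const_pow_of_abs_lt_one 2 (r := (1 - δ / 2) ^ c)
    (by rw [abs_of_pos hq0]; exact hq1)
  have hev1 : ∀ᶠ k : ℕ in atTop, (k : ℝ) ^ 2 * ((1 - δ / 2) ^ c) ^ k < η * c * Real.exp (-(4 * c)) / 4 :=
    hlim.eventually (gt_mem_nhds (by positivity))
  have hev2 : ∀ᶠ k : ℕ in atTop, 2 / δ ≤ (k : ℝ) := tendsto_natCast_atTop_atTop.eventually_ge_atTop _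
  filter_upwards [hev1, hev2, eventually_ge_atTop K0, eventually_ge_atTop 3] with k e1 e2 e3 e4
  by_contra hneg
  push Not at hneg
  obtain ⟨j, rfl⟩ : ∃ j, k = j + 1 := ⟨k - 1, by omega⟩
  have hj2 : 2 ≤ j := by omega
  have hj2' : (2 : ℝ) ≤ j := by exact_mod_cast hj2
  have hkk : ((j + 1 : ℕ) : ℝ) = (j : ℝ) + 1 := by push_cast; ring
  rw [hkk] at e1 e2 hneg
  set k' : ℝ := (j : ℝ) + 1 with hk'
  have hk0 : 0 < k' := by positivity
  set r : ℝ := c * k' with hr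
  have hr0 : 0 < r := by positivity
  have hδk : 1 ≤ δ / 2 * k' := by
    rw [div_le_iff₀ hδ] at e2
    linarith
  -- the starting index
  set j0 : ℕ := ⌈(1 - δ) * k'⌉₊ with hj0
  have hj0a : (1 - δ) * k' ≤ j0 := Nat.le_ceil _
  have hj0b : (j0 : ℝ) ≤ (1 - δ / 2) * k' := by
    have := Nat.ceil_lt_add_one (a := (1 - δ) * k') (mul_nonneg (by linarith) hk0.le)
    have h' : (j0 : ℝ) < (1 - δ) * k' + 1 := this
    linarith
  have hj0j : j0 ≤ j := by
    have : (j0 : ℝ) ≤ j := by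
      have : (1 - δ / 2) * k' ≤ j := by linarith
      linarith
    exact_mod_cast this
  have hrange : ∀ i : ℕ, j0 ≤ i → i ≤ j → 1 ≤ i ∧ r * mm i ^ (r - 1) * η ≤ Qk i r := by
    intro i hi1 hi2
    have hi1' : (j0 : ℝ) ≤ i := by exact_mod_cast hi1
    have hK' := hK (j + 1) e3 i (by rw [hkk]; linarith) (by omega)
    rw [hkk] at hK'
    obtain ⟨a1, a2, a3⟩ := hK'
    have hi : 1 ≤ i := by omega
    refine ⟨hi, ?_⟩
    have a4 := h3 i hi r (by linarith)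
    refine le_trans ?_ a4
    apply mul_le_mul_of_nonneg_left _ (mul_nonneg hr0.le (Real.rpow_nonneg (mm_pos i hi).le _))
    have : ((nn i + 1) / mm i) ^ (r - 1) ≤ 3 - η := a3
    linarith
  have hQ : ∀ i : ℕ, j0 ≤ i → i ≤ j → 0 ≤ Qk i r := by
    intro i hi1 hi2
    obtain ⟨a1, a2⟩ := hrange i hi1 hi2
    refine le_trans ?_ a2
    exact mul_nonneg (mul_nonneg hr0.le (Real.rpow_nonneg (mm_pos i a1).le _)) hη.le
  -- `F` decreases
  have hmono : ∀ n i : ℕ, i + n = j → j0 ≤ i → P j r / Dd j r ≤ P i r / Dd i r := by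
    intro n
    induction n with
    | zero =>
      intro i hi _
      have : i = j := by omega
      rw [this]
    | succ n ih =>
      intro i hi hi0
      have h5 := ih (i + 1) (by omega) (by omega)
      have hi1 := (hrange i hi0 (by omega)).1
      rw [F_step h1 i hi1 r hr0] at h5
      have h6 : 0 ≤ (2 * (i : ℝ) + 1) ^ r * Qk i r / (Dd i r * Dd (i + 1) r) := by
        apply div_nonneg
        · exact mul_nonneg (Real.rpow_nonneg (by positivity) _) (hQ i hi0 (by omega))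
        · exact mul_nonneg (Dd_pos i hi1 r hr0).le (Dd_pos (i + 1) (by omega) r hr0).le
      linarith
  have hj1 : 1 ≤ j := by omega
  have hj01 : 1 ≤ j0 := (hrange j0 le_rfl hj0j).1
  have c1 : P j r / Dd j r ≤ P j0 r / Dd j0 r := hmono (j - j0) j0 (by omega) le_rfl
  have c2 : P j0 r / Dd j0 r ≤ j0 * (j0 : ℝ) ^ r := (F_le j0 hj01 r hr0).trans (S_le j0 r hr0.le)
  have c3 : (j0 : ℝ) * (j0 : ℝ) ^ r ≤ k' * ((1 - δ / 2) ^ r * k' ^ r) := by
    rw [← Real.mul_rpow (by linarith) hk0.le]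
    apply mul_le_mul
    · have : δ / 2 * k' ≥ 0 := by positivity
      linarith
    · exact Real.rpow_le_rpow (by positivity) hj0b hr0.le
    · positivity
    · exact hk0.le
  -- the last step
  have dj := Dd_pos j hj1 r hr0
  have dj1 := Dd_pos (j + 1) (by omega) r hr0
  have c4 : (2 * (j : ℝ) + 1) ^ r * Qk j r / (Dd j r * Dd (j + 1) r) ≤ P j r / Dd j r := by
    have h5 := F_step h1 j hj1 r hr0
    have h6 : 0 ≤ P (j + 1) r / Dd (j + 1) r := div_nonneg hneg dj1.le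
    linarith
  have hQj := (hrange j hj0j le_rfl).2
  have hmm := mm_pos j hj1
  have e23 : (0 : ℝ) < (2 * (j : ℝ) + 3) ^ r := Real.rpow_pos_of_pos (by linarith) _
  have e21 : (0 : ℝ) < (2 * (j : ℝ) + 1) ^ r := Real.rpow_pos_of_pos (by linarith) _
  have c5 : r * mm j ^ (r - 1) * η / (2 * (j : ℝ) + 3) ^ r ≤
      (2 * (j : ℝ) + 1) ^ r * Qk j r / (Dd j r * Dd (j + 1) r) := by
    rw [div_le_div_iff₀ e23 (mul_pos dj dj1)]
    have g1 : Dd j r ≤ (2 * (j : ℝ) + 1) ^ r := Dd_le j hj1 r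
    have g2 : Dd (j + 1) r ≤ (2 * (j : ℝ) + 3) ^ r := by
      have := Dd_le (j + 1) (by omega) r
      have e : (2 * ((j + 1 : ℕ) : ℝ) + 1) = 2 * (j : ℝ) + 3 := by push_cast; ring
      rwa [e] at this
    have g3 : 0 ≤ r * mm j ^ (r - 1) * η :=
      mul_nonneg (mul_nonneg hr0.le (Real.rpow_nonneg hmm.le _)) hη.le
    calc r * mm j ^ (r - 1) * η * (Dd j r * Dd (j + 1) r)
        ≤ Qk j r * ((2 * (j : ℝ) + 1) ^ r * (2 * (j : ℝ) + 3) ^ r) :=
          mul_le_mul hQj (mul_le_mul g1 g2 dj1.le e21.le) (mul_pos dj dj1).le (g3.trans hQj)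
      _ = (2 * (j : ℝ) + 1) ^ r * Qk j r * (2 * (j : ℝ) + 3) ^ r := by ring
  have c6 : r * η / mm j * Real.exp (-(4 * c)) * k' ^ r ≤ r * mm j ^ (r - 1) * η / (2 * (j : ℝ) + 3) ^ r := by
    rw [le_div_iff₀ e23]
    have g1 : mm j ^ (r - 1) = mm j ^ r / mm j := by
      rw [Real.rpow_sub hmm, Real.rpow_one]
    have g2 : mm j = (2 * (j : ℝ) - 1) * (j + 2) := by unfold mm; ring
    have g3 : mm j ^ r = (2 * (j : ℝ) - 1) ^ r * ((j : ℝ) + 2) ^ r := by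
      rw [g2, Real.mul_rpow (by linarith) (by linarith)]
    have g4 := exp_bound c hc j hj2
    rw [← hk', ← hr] at g4
    have g5 : k' ^ r ≤ ((j : ℝ) + 2) ^ r := Real.rpow_le_rpow hk0.le (by rw [hk']; linarith) hr0.le
    have g6 : 0 ≤ r * η / mm j := by positivity
    calc r * η / mm j * Real.exp (-(4 * c)) * k' ^ r * (2 * (j : ℝ) + 3) ^ r
        = r * η / mm j * ((Real.exp (-(4 * c)) * (2 * (j : ℝ) + 3) ^ r) * k' ^ r) := by ring
      _ ≤ r * η / mm j * ((2 * (j : ℝ) - 1) ^ r * ((j : ℝ) + 2) ^ r) := by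
          apply mul_le_mul_of_nonneg_left _ g6
          exact mul_le_mul g4 g5 (Real.rpow_nonneg hk0.le _) (Real.rpow_nonneg (by linarith) _)
      _ = r * mm j ^ (r - 1) * η := by rw [g1, g3]; ring
  have c7 : η * c / (4 * k') ≤ r * η / mm j := by
    rw [div_le_div_iff₀ (by positivity) hmm]
    have : mm j ≤ 4 * k' ^ 2 := by unfold mm; rw [hk']; nlinarith
    have h' := mul_le_mul_of_nonneg_left this (mul_pos hη hc).le
    rw [hr]
    linarith
  have hkr : 0 < k' ^ r := Real.rpow_pos_of_pos hk0 _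
  have c8 : η * c / (4 * k') * Real.exp (-(4 * c)) * k' ^ r ≤ k' * ((1 - δ / 2) ^ r * k' ^ r) := by
    calc η * c / (4 * k') * Real.exp (-(4 * c)) * k' ^ r
        ≤ r * η / mm j * Real.exp (-(4 * c)) * k' ^ r := by
          apply mul_le_mul_of_nonneg_right _ hkr.le
          exact mul_le_mul_of_nonneg_right c7 (Real.exp_pos _).le
      _ ≤ _ := by linarith
  have c9 : η * c * Real.exp (-(4 * c)) / 4 ≤ k' ^ 2 * (1 - δ / 2) ^ r := by
    have h5 : η * c / (4 * k') * Real.exp (-(4 * c)) ≤ k' * (1 - δ / 2) ^ r := by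
      apply le_of_mul_le_mul_right _ hkr
      linarith
    have h6 := mul_le_mul_of_nonneg_left h5 hk0.le
    have h7 : k' * (η * c / (4 * k') * Real.exp (-(4 * c))) = η * c * Real.exp (-(4 * c)) / 4 := by
      field_simp
    rw [h7] at h6
    calc η * c * Real.exp (-(4 * c)) / 4 ≤ k' * (k' * (1 - δ / 2) ^ r) := h6
      _ = k' ^ 2 * (1 - δ / 2) ^ r := by ring
  have c10 : (1 - δ / 2) ^ r = ((1 - δ / 2) ^ c) ^ (j + 1) := by
    rw [hr, Real.rpow_mul (by linarith), ← hkk, Real.rpow_natCast]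
  rw [c10] at c9
  linarith

end Q278.MH
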