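import Mathlib

set_option autoImplicit false

/-! `p`-integral rationals and the groups `p ^ k ℤ_(p)`. -/

namespace Q278.PI

variable (p : ℕ) [hp : Fact p.Prime]

/-- The ring `ℤ_(p)` of rationals with denominator prime to `p`. -/
def O : Subring ℚ where
  carrier := {x | ¬ p ∣ x.den}
  mul_mem' := by
    intro a b ha hb h
    rcases (Nat.Prime.dvd_mul hp.out).1 (h.trans (Rat.mul_den_dvd a b)) with h | h
    · exact ha h
    · exact hb h
  one_mem' := by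
    intro h
    simp at h
    exact hp.out.one_lt.ne' h
  add_mem' := by
    intro a b ha hb h
    rcases (Nat.Prime.dvd_mul hp.out).1 (h.trans (Rat.add_den_dvd a b)) with h | h
    · exact ha h
    · exact hb h
  zero_mem' := by
    intro h
    simp at h
    exact hp.out.one_lt.ne' h
  neg_mem' := by
    intro a ha h
    simp at h
    exact ha h

theorem mem_O {x : ℚ} : x ∈ O p ↔ ¬ p ∣ x.den := Iff.rfl

theorem inv_mem {m : ℕ} (hm : ¬ p ∣ m) : (1 / (m : ℚ)) ∈ O p := by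
  rw [mem_O]
  intro h
  apply hm
  have h1 : (((1 : ℤ) / (m : ℤ) : ℚ).den : ℤ) ∣ (m : ℤ) := by
    rw [← Rat.divInt_eq_div]
    exact Rat.den_dvd _ _
  have h2 : ((1 : ℤ) / (m : ℤ) : ℚ) = 1 / (m : ℚ) := by push_cast; rfl
  rw [h2] at h1
  exact h.trans (Int.natCast_dvd_natCast.1 h1)

theorem inv_int_mem {m : ℤ} (hm : ¬ (p : ℤ) ∣ m) : (1 / (m : ℚ)) ∈ O p := by
  rw [mem_O]
  intro h
  apply hm
  have h1 : (((1 : ℤ) / (m : ℤ) : ℚ).den : ℤ) ∣ (m : ℤ) := by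
    rw [← Rat.divInt_eq_div]
    exact Rat.den_dvd _ _
  have h2 : ((1 : ℤ) / (m : ℤ) : ℚ) = 1 / (m : ℚ) := by push_cast; rfl
  rw [h2] at h1
  exact (Int.natCast_dvd_natCast.2 h).trans h1

/-- The group `p ^ k ℤ_(p)`. -/
def I (k : ℕ) : AddSubgroup ℚ where
  carrier := {x | ∃ y ∈ O p, x = (p : ℚ) ^ k * y}
  zero_mem' := ⟨0, (O p).zero_mem, by simp⟩
  add_mem' := by
    rintro a b ⟨y, hy, rfl⟩ ⟨z, hz, rfl⟩
    exact ⟨y + z, (O p).add_mem hy hz, by ring⟩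
  neg_mem' := by
    rintro a ⟨y, hy, rfl⟩
    exact ⟨-y, (O p).neg_mem hy, by ring⟩

theorem mem_I {k : ℕ} {x : ℚ} : x ∈ I p k ↔ ∃ y ∈ O p, x = (p : ℚ) ^ k * y := Iff.rfl

variable {p}

theorem O_le {x : ℚ} (h : x ∈ O p) : x ∈ I p 0 := ⟨x, h, by simp⟩

theorem I_zero {x : ℚ} (h : x ∈ I p 0) : x ∈ O p := by
  obtain ⟨y, hy, rfl⟩ := h
  simpa using hy

theorem mul_I {a b : ℕ} {x y : ℚ} (hx : x ∈ I p a) (hy : y ∈ I p b) : x * y ∈ I p (a + b) := by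
  obtain ⟨u, hu, rfl⟩ := hx
  obtain ⟨v, hv, rfl⟩ := hy
  exact ⟨u * v, (O p).mul_mem hu hv, by ring⟩

theorem mul_O {a : ℕ} {x y : ℚ} (hx : x ∈ O p) (hy : y ∈ I p a) : x * y ∈ I p a := by
  have := mul_I (O_le hx) hy
  rwa [zero_add] at this

theorem mono {a b : ℕ} (h : a ≤ b) {x : ℚ} (hx : x ∈ I p b) : x ∈ I p a := by
  obtain ⟨u, hu, rfl⟩ := hx
  refine ⟨(p : ℚ) ^ (b - a) * u, (O p).mul_mem ((O p).pow_mem (natCast_mem _ _) _) hu, ?_⟩
  rw [← mul_assoc, ← pow_add]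
  congr 2
  omega

theorem toO {a : ℕ} {x : ℚ} (hx : x ∈ I p a) : x ∈ O p := I_zero (mono (Nat.zero_le a) hx)

theorem nat_O (m : ℕ) : (m : ℚ) ∈ O p := natCast_mem _ _

theorem int_O (m : ℤ) : (m : ℚ) ∈ O p := intCast_mem _ _

theorem pow_I {a : ℕ} {x : ℚ} (hx : x ∈ I p a) (m : ℕ) : x ^ m ∈ I p (a * m) := by
  induction m with
  | zero => exact O_le (by simpa using (O p).one_mem)
  | succ m ih =>
    rw [pow_succ, Nat.mul_succ]
    exact mul_I ih hx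

theorem p_pow (k : ℕ) : (p : ℚ) ^ k ∈ I p k := ⟨1, (O p).one_mem, by simp⟩

theorem of_unit_mul {k : ℕ} {x : ℚ} {m : ℤ} (hm : ¬ (p : ℤ) ∣ m) (h : (m : ℚ) * x ∈ I p k) :
    x ∈ I p k := by
  have hm0 : (m : ℚ) ≠ 0 := by
    intro h0
    have : m = 0 := by exact_mod_cast h0
    exact hm (this ▸ dvd_zero _)
  have := mul_O (inv_int_mem p hm) h
  have e : 1 / (m : ℚ) * ((m : ℚ) * x) = x := by field_simp
  rwa [e] at this

/-- The expansion of `(1 - s) ^ m` to fifth order. -/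
theorem expand (s : ℚ) (hs : s ∈ O p) (m : ℕ) : ∃ W ∈ O p, (1 - s) ^ m =
    1 - m * s + (m.choose 2 : ℚ) * s ^ 2 - (m.choose 3 : ℚ) * s ^ 3 + (m.choose 4 : ℚ) * s ^ 4
      + s ^ 5 * W := by
  induction m with
  | zero => exact ⟨0, (O p).zero_mem, by simp [Nat.choose]⟩
  | succ m ih =>
    obtain ⟨W, hW, h⟩ := ih
    refine ⟨W * (1 - s) - (m.choose 4 : ℚ), ?_, ?_⟩
    · exact (O p).sub_mem ((O p).mul_mem hW ((O p).sub_mem (O p).one_mem hs)) (nat_O _)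
    · rw [pow_succ, h, Nat.choose_succ_succ' m 1, Nat.choose_succ_succ' m 2,
        Nat.choose_succ_succ' m 3, Nat.choose_one_right]
      push_cast
      ring

end Q278.PI
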