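import Mathlib

set_option autoImplicit false

/-! An exact quadratic summation. -/

namespace Q278.QC

open Finset

variable {K : Type*} [Field K] (q A : K)

/-- the factor -/
def p (s l : ℕ) : K := (1 - A * q ^ (2 * l)) * (1 - (q ^ (2 * s))⁻¹ * q ^ (2 * l)) *
  (1 - A * q * q ^ (2 * s) * q ^ (2 * l)) /
    ((1 - q ^ (l + 1)) * (1 - A * q * q ^ (2 * s) * q ^ l) * (1 - (q ^ (2 * s))⁻¹ * q ^ l))

def P (s i : ℕ) : K := ∏ l ∈ range i, p q A s l

def T (s i : ℕ) : K := (-1) ^ i * (1 - A * q ^ (3 * i)) * P q A s i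

variable {q A}

theorem P_succ (s i : ℕ) : P q A s (i + 1) = P q A s i * p q A s i := by
  unfold P; rw [prod_range_succ]

section

variable (hq : q ≠ 0) (h1 : ∀ m : ℕ, 0 < m → 1 - q ^ m ≠ 0) (hA : ∀ m : ℕ, 1 - A * q ^ m ≠ 0)

include hq h1

theorem ne1 {s i : ℕ} (h : i < s) : q ^ s - q ^ i ≠ 0 := by
  have e : q ^ s - q ^ i = -(q ^ i * (1 - q ^ (s - i))) := by
    rw [mul_sub, mul_one, ← pow_add]
    have : i + (s - i) = s := by omega
    rw [this]; ring
  rw [e]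
  exact neg_ne_zero.2 (mul_ne_zero (pow_ne_zero _ hq) (h1 _ (by omega)))

include hA

/-- change of `s` -/
theorem T_s (s i : ℕ) (hi : i ≤ s) : (1 - q ^ (2 * s + 1)) *
    ((q ^ (2 * s) * q ^ 2 - (q ^ i) ^ 2) * (1 - A * q * q ^ (2 * s) * q ^ i) *
      (1 - A * q ^ 2 * q ^ (2 * s) * q ^ i)) * P q A (s + 1) i =
    -((1 - A * q ^ 2 * q ^ (2 * s)) * (q ^ (2 * s) * q ^ 2 - q ^ i) * (q ^ (2 * s) * q - q ^ i) *
      (1 - A * q * q ^ (2 * s) * (q ^ i) ^ 2)) * P q A s i := by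
  induction i with
  | zero =>
    unfold P
    simp only [range_zero, prod_empty, pow_zero]
    ring
  | succ i ih =>
    have ih := ih (by omega)
    rw [P_succ, P_succ]
    unfold p
    have a1 := h1 (i + 1) (by omega)
    have a2 := hA (2 * s + 1 + i)
    have a3 := hA (2 * (s + 1) + 1 + i)
    have a2' := hA (2 * s + 2 + i)
    have a4 := ne1 hq h1 (show i < 2 * s by omega)
    have a5 := ne1 hq h1 (show i < 2 * (s + 1) by omega)
    have a6 := ne1 hq h1 (show 2 * i < 2 * (s + 1) by omega)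
    have a7 := ne1 hq h1 (show i < 2 * s + 1 by omega)
    have e2 : A * q ^ (2 * s + 1 + i) = A * q * q ^ (2 * s) * q ^ i := by ring
    have e3 : A * q ^ (2 * (s + 1) + 1 + i) = A * q * (q ^ (2 * s) * q ^ 2) * q ^ i := by ring
    have e2' : A * q ^ (2 * s + 2 + i) = A * q ^ 2 * q ^ (2 * s) * q ^ i := by ring
    rw [e2] at a2
    rw [e3] at a3
    rw [e2'] at a2'
    have e5 : q ^ (2 * (s + 1)) = q ^ (2 * s) * q ^ 2 := by ring
    have e6 : q ^ (2 * i) = (q ^ i) ^ 2 := by ring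
    have e7 : q ^ (2 * s + 1) = q ^ (2 * s) * q := by ring
    have e8 : q ^ (i + 1) = q ^ i * q := by ring
    rw [e5] at a5 a6
    rw [e6] at a6
    rw [e7] at a7
    rw [e8] at a1
    rw [e5, e6, e7, e8]
    have hy := pow_ne_zero (2 * s) hq
    have hx := pow_ne_zero i hq
    rw [e7] at ih
    generalize P q A (s + 1) i = U at *
    generalize P q A s i = V at *
    generalize q ^ (2 * s) = y at *
    generalize q ^ i = x at *
    have b1 : (1 - y⁻¹ * x) = (y - x) / y := by field_simp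
    have b2 : (1 - (y * q ^ 2)⁻¹ * x) = (y * q ^ 2 - x) / (y * q ^ 2) := by field_simp
    have b3 : (1 - (y * q ^ 2)⁻¹ * x ^ 2) = (y * q ^ 2 - x ^ 2) / (y * q ^ 2) := by field_simp
    have b4 : (1 - y⁻¹ * x ^ 2) = (y - x ^ 2) / y := by field_simp
    rw [b1, b2, b3, b4]
    have ih' : (1 - y * q) * (y * q ^ 2 - x ^ 2) * (1 - A * q ^ 2 * y * x) * U =
        -((1 - A * q ^ 2 * y) * (y * q ^ 2 - x) * (y * q - x) * (1 - A * q * y * x ^ 2) * V) /
          (1 - A * q * y * x) := by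
      rw [eq_div_iff a2]
      linear_combination ih
    have L : (1 - y * q) * ((y * q ^ 2 - (x * q) ^ 2) * (1 - A * q * y * (x * q)) *
        (1 - A * q ^ 2 * y * (x * q))) * (U * ((1 - A * x ^ 2) * ((y * q ^ 2 - x ^ 2) /
        (y * q ^ 2)) * (1 - A * q * (y * q ^ 2) * x ^ 2) / ((1 - x * q) *
        (1 - A * q * (y * q ^ 2) * x) * ((y * q ^ 2 - x) / (y * q ^ 2))))) =
        ((1 - y * q) * (y * q ^ 2 - x ^ 2) * (1 - A * q ^ 2 * y * x) * U) *
        (q ^ 2 * (y - x ^ 2) * (1 - A * x ^ 2) * (1 - A * q ^ 3 * y * x ^ 2) /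
          ((1 - x * q) * (y * q ^ 2 - x))) := by
      have e9 : (1 - A * q ^ 2 * y * (x * q)) = 1 - A * q * (y * q ^ 2) * x := by ring
      rw [e9]
      generalize 1 - A * q * (y * q ^ 2) * x = z at *
      field_simp
    rw [L, ih']
    have e10 : (1 - A * q * y * (x * q) ^ 2) = 1 - A * q ^ 3 * y * x ^ 2 := by ring
    have e11 : y * q ^ 2 - x * q = q * (y * q - x) := by ring
    have e12 : y * q - x * q = q * (y - x) := by ring
    rw [e10, e11, e12]
    generalize 1 - A * q * y * x = z1 at *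
    generalize 1 - A * q ^ 3 * y * x ^ 2 = z2 at *
    generalize 1 - A * q * y * x ^ 2 = z3 at *
    generalize 1 - A * x ^ 2 = z4 at *
    generalize 1 - A * q ^ 2 * y = z5 at *
    generalize 1 - x * q = z6 at *
    generalize y * q ^ 2 - x = z7 at *
    generalize y * q - x = z8 at *
    generalize y - x ^ 2 = z9 at *
    generalize y - x = z10 at *
    field_simp

end

section

/-- the ratio of the right hand sides -/
def rho (q A : K) (s : ℕ) : K := -(q ^ (2 * s) * q * (1 - A * q ^ 2 * q ^ (2 * s))) /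
  (1 - q ^ (2 * s) * q)

/-- the certificate -/
def G (q A : K) (s i : ℕ) : K := (1 - A * q ^ 3 * (q ^ (2 * s)) ^ 2) * (q ^ i * (1 - q ^ i) *
  (q ^ (2 * s) * q - q ^ i)) / (q ^ (2 * s) * q * (q ^ (2 * s) * q ^ 2 - (q ^ i) ^ 2) *
    (1 - A * q * q ^ (2 * s) * q ^ i)) * ((-1) ^ i * P q A s i)

/-- the certificate, shifted -/
def H (q A : K) (s i : ℕ) : K := -((1 - A * q ^ 3 * (q ^ (2 * s)) ^ 2) * (q ^ i *
  (1 - A * (q ^ i) ^ 2) * (1 - A * q * q ^ (2 * s) * (q ^ i) ^ 2))) / (q ^ (2 * s) * q *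
    (1 - A * q * q ^ (2 * s) * q ^ i) * (1 - A * q ^ 2 * q ^ (2 * s) * q ^ i)) *
      ((-1) ^ i * P q A s i)

variable (hq : q ≠ 0) (h1 : ∀ m : ℕ, 0 < m → 1 - q ^ m ≠ 0) (hA : ∀ m : ℕ, 1 - A * q ^ m ≠ 0)

include hq h1 hA

theorem GH (s i : ℕ) (hi : i < s) : G q A s (i + 1) = H q A s i := by
  unfold G H
  rw [P_succ]
  unfold p
  have a1 := h1 (i + 1) (by omega)
  have a2 := hA (2 * s + 1 + i)
  have a2' := hA (2 * s + 2 + i)
  have a4 := ne1 hq h1 (show i < 2 * s by omega)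
  have a6 := ne1 hq h1 (show 2 * i < 2 * s by omega)
  have e2 : A * q ^ (2 * s + 1 + i) = A * q * q ^ (2 * s) * q ^ i := by ring
  have e2' : A * q ^ (2 * s + 2 + i) = A * q ^ 2 * q ^ (2 * s) * q ^ i := by ring
  have e6 : q ^ (2 * i) = (q ^ i) ^ 2 := by ring
  have e8 : q ^ (i + 1) = q ^ i * q := by ring
  rw [e2] at a2
  rw [e2'] at a2'
  rw [e6] at a6
  rw [e8] at a1
  rw [e6, e8, pow_succ (-1 : K) i]
  have hy := pow_ne_zero (2 * s) hq
  have hx := pow_ne_zero i hq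
  generalize P q A s i = V at *
  generalize (-1 : K) ^ i = w at *
  generalize q ^ (2 * s) = y at *
  generalize q ^ i = x at *
  have b1 : (1 - y⁻¹ * x) = (y - x) / y := by field_simp
  have b4 : (1 - y⁻¹ * x ^ 2) = (y - x ^ 2) / y := by field_simp
  have b5 : y * q - x * q = q * (y - x) := by ring
  have b6 : y * q ^ 2 - (x * q) ^ 2 = q ^ 2 * (y - x ^ 2) := by ring
  have b7 : 1 - A * q * y * (x * q) = 1 - A * q ^ 2 * y * x := by ring
  rw [b1, b4, b5, b6, b7]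
  generalize 1 - A * q * y * x = z1 at *
  generalize 1 - A * q ^ 2 * y * x = z2 at *
  generalize 1 - A * q * y * x ^ 2 = z3 at *
  generalize 1 - A * x ^ 2 = z4 at *
  generalize 1 - A * q ^ 3 * y ^ 2 = z5 at *
  generalize 1 - x * q = z6 at *
  generalize y - x ^ 2 = z9 at *
  generalize y - x = z10 at *
  field_simp

theorem step (s i : ℕ) (hi : i ≤ s) : T q A (s + 1) i - rho q A s * T q A s i =
    rho q A s * (H q A s i - G q A s i) := by
  have a1 := h1 (2 * s + 1) (by omega)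
  have a2 := hA (2 * s + 1 + i)
  have a2' := hA (2 * s + 2 + i)
  have a6 := ne1 hq h1 (show 2 * i < 2 * (s + 1) by omega)
  have key := T_s hq h1 hA s i hi
  have e1 : q ^ (2 * s + 1) = q ^ (2 * s) * q := by ring
  have e2 : A * q ^ (2 * s + 1 + i) = A * q * q ^ (2 * s) * q ^ i := by ring
  have e2' : A * q ^ (2 * s + 2 + i) = A * q ^ 2 * q ^ (2 * s) * q ^ i := by ring
  have e6 : q ^ (2 * i) = (q ^ i) ^ 2 := by ring
  have e5 : q ^ (2 * (s + 1)) = q ^ (2 * s) * q ^ 2 := by ring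
  have e9 : q ^ (3 * i) = (q ^ i) ^ 3 := by ring
  rw [e1] at a1 key
  rw [e2] at a2
  rw [e2'] at a2'
  rw [e6, e5] at a6
  unfold T rho G H
  rw [e9]
  have hy := pow_ne_zero (2 * s) hq
  generalize P q A (s + 1) i = U at *
  generalize P q A s i = V at *
  generalize (-1 : K) ^ i = w at *
  generalize q ^ (2 * s) = y at *
  generalize q ^ i = x at *
  have hU : U = -((1 - A * q ^ 2 * y) * (y * q ^ 2 - x) * (y * q - x) *
      (1 - A * q * y * x ^ 2)) * V / ((1 - y * q) *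
    ((y * q ^ 2 - x ^ 2) * (1 - A * q * y * x) * (1 - A * q ^ 2 * y * x))) := by
    rw [eq_div_iff (mul_ne_zero a1 (mul_ne_zero (mul_ne_zero a6 a2) a2'))]
    linear_combination key
  rw [hU]
  have pol : -((1 - A * x ^ 2) * (1 - A * q * y * x ^ 2)) * (y * q ^ 2 - x ^ 2) -
      (1 - x) * (y * q - x) * (1 - A * q ^ 2 * y * x) = (1 - A * x ^ 3) *
        (-(y * q * (1 + q)) + (1 + y * q + A * q ^ 3 * y ^ 2) * x - A * q * y * x ^ 3) := by ring
  have pol2 : (y * q ^ 2 - x) * (y * q - x) * (1 - A * q * y * x ^ 2) - y * q *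
      (y * q ^ 2 - x ^ 2) * (1 - A * q * y * x) * (1 - A * q ^ 2 * y * x) =
      (1 - A * q ^ 3 * y ^ 2) * x * (-(y * q * (1 + q)) + (1 + y * q + A * q ^ 3 * y ^ 2) * x -
        A * q * y * x ^ 3) := by ring
  have l1 : w * (1 - A * x ^ 3) * (-((1 - A * q ^ 2 * y) * (y * q ^ 2 - x) * (y * q - x) *
      (1 - A * q * y * x ^ 2)) * V / ((1 - y * q) *
      ((y * q ^ 2 - x ^ 2) * (1 - A * q * y * x) * (1 - A * q ^ 2 * y * x)))) -
      -(y * q * (1 - A * q ^ 2 * y)) / (1 - y * q) * (w * (1 - A * x ^ 3) * V) =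
      -(w * (1 - A * x ^ 3) * V * (1 - A * q ^ 2 * y)) * ((y * q ^ 2 - x) * (y * q - x) *
        (1 - A * q * y * x ^ 2) - y * q * (y * q ^ 2 - x ^ 2) * (1 - A * q * y * x) *
        (1 - A * q ^ 2 * y * x)) / ((1 - y * q) *
      ((y * q ^ 2 - x ^ 2) * (1 - A * q * y * x) * (1 - A * q ^ 2 * y * x))) := by
    generalize 1 - A * q * y * x = z1 at *
    generalize 1 - A * q ^ 2 * y * x = z2 at *
    generalize 1 - A * q * y * x ^ 2 = z3 at *
    generalize y * q ^ 2 - x ^ 2 = z4 at *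
    generalize 1 - A * q ^ 2 * y = z5 at *
    generalize 1 - y * q = z6 at *
    field_simp
    ring
  have l2 : -(y * q * (1 - A * q ^ 2 * y)) / (1 - y * q) * (-((1 - A * q ^ 3 * y ^ 2) * (x *
      (1 - A * x ^ 2) * (1 - A * q * y * x ^ 2))) / (y * q * (1 - A * q * y * x) *
      (1 - A * q ^ 2 * y * x)) * (w * V) - (1 - A * q ^ 3 * y ^ 2) * (x * (1 - x) *
      (y * q - x)) / (y * q * (y * q ^ 2 - x ^ 2) * (1 - A * q * y * x)) * (w * V)) =
      -(w * V * (1 - A * q ^ 2 * y) * (1 - A * q ^ 3 * y ^ 2) * x) *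
      (-((1 - A * x ^ 2) * (1 - A * q * y * x ^ 2)) * (y * q ^ 2 - x ^ 2) -
      (1 - x) * (y * q - x) * (1 - A * q ^ 2 * y * x)) / ((1 - y * q) *
      ((y * q ^ 2 - x ^ 2) * (1 - A * q * y * x) * (1 - A * q ^ 2 * y * x))) := by
    generalize 1 - A * q * y * x = z1 at *
    generalize 1 - A * q ^ 2 * y * x = z2 at *
    generalize 1 - A * q * y * x ^ 2 = z3 at *
    generalize y * q ^ 2 - x ^ 2 = z4 at *
    generalize 1 - A * q ^ 2 * y = z5 at *
    generalize 1 - y * q = z6 at *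
    generalize 1 - A * q ^ 3 * y ^ 2 = z7 at *
    field_simp
  rw [l1, l2, pol, pol2]
  congr 1
  ring

theorem partial_sum (s M : ℕ) (hM : M ≤ s) :
    ∑ i ∈ range M, (T q A (s + 1) i - rho q A s * T q A s i) = rho q A s * G q A s M := by
  induction M with
  | zero => simp [G]
  | succ M ih =>
    rw [sum_range_succ, ih (by omega), step hq h1 hA s M (by omega), GH hq h1 hA s M (by omega)]
    ring

theorem last (s : ℕ) : T q A (s + 1) (s + 1) = -(rho q A s * H q A s s) := by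
  have a1 := h1 (2 * s + 1) (by omega)
  have a1' := h1 (s + 1) (by omega)
  have a2 := hA (2 * s + 1 + s)
  have a2' := hA (2 * s + 2 + s)
  have a3 := hA (2 * s + 3 + s)
  have a5 := ne1 hq h1 (show s < 2 * (s + 1) by omega)
  have a6 := ne1 hq h1 (show 2 * s < 2 * (s + 1) by omega)
  have key := T_s hq h1 hA s s le_rfl
  unfold T rho H
  rw [P_succ]
  unfold p
  have e1 : q ^ (2 * s + 1) = (q ^ s) ^ 2 * q := by ring
  have e2 : A * q ^ (2 * s + 1 + s) = A * q * (q ^ s) ^ 2 * q ^ s := by ring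
  have e2' : A * q ^ (2 * s + 2 + s) = A * q ^ 2 * (q ^ s) ^ 2 * q ^ s := by ring
  have e3 : A * q ^ (2 * s + 3 + s) = A * q ^ 3 * (q ^ s) ^ 3 := by ring
  have e5 : q ^ (2 * (s + 1)) = (q ^ s) ^ 2 * q ^ 2 := by ring
  have e6 : q ^ (2 * s) = (q ^ s) ^ 2 := by ring
  have e7 : q ^ (3 * (s + 1)) = q ^ 3 * (q ^ s) ^ 3 := by ring
  have e8 : q ^ (s + 1) = q ^ s * q := by ring
  rw [e1, e6] at key
  rw [e1] at a1
  rw [e2] at a2
  rw [e2'] at a2'
  rw [e3] at a3
  rw [e5] at a5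
  rw [e6, e5] at a6
  rw [e8] at a1'
  rw [e5, e6, e7, e8, pow_succ (-1 : K) s]
  have hx := pow_ne_zero s hq
  generalize P q A (s + 1) s = U at *
  generalize P q A s s = V at *
  generalize (-1 : K) ^ s = w at *
  generalize q ^ s = x at *
  have hU : U = -((1 - A * q ^ 2 * x ^ 2) * (x ^ 2 * q ^ 2 - x) * (x ^ 2 * q - x) *
      (1 - A * q * x ^ 2 * x ^ 2)) * V / ((1 - x ^ 2 * q) *
    ((x ^ 2 * q ^ 2 - x ^ 2) * (1 - A * q * x ^ 2 * x) * (1 - A * q ^ 2 * x ^ 2 * x))) := by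
    rw [eq_div_iff (mul_ne_zero a1 (mul_ne_zero (mul_ne_zero a6 a2) a2'))]
    linear_combination key
  rw [hU]
  have b2 : (1 - (x ^ 2 * q ^ 2)⁻¹ * x) = (x ^ 2 * q ^ 2 - x) / (x ^ 2 * q ^ 2) := by field_simp
  have b3 : (1 - (x ^ 2 * q ^ 2)⁻¹ * x ^ 2) = (x ^ 2 * q ^ 2 - x ^ 2) / (x ^ 2 * q ^ 2) := by
    field_simp
  have b4 : 1 - A * q * (x ^ 2 * q ^ 2) * x = 1 - A * q ^ 3 * x ^ 3 := by ring
  have b5 : 1 - A * (q ^ 3 * x ^ 3) = 1 - A * q ^ 3 * x ^ 3 := by ring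
  have b6 : 1 - A * q * (x ^ 2 * q ^ 2) * x ^ 2 = 1 - A * q ^ 3 * (x ^ 2) ^ 2 := by ring
  have b7 : x ^ 2 * q - x = -(x * (1 - x * q)) := by ring
  rw [b2, b3, b4, b5, b6, b7]
  generalize 1 - A * q * x ^ 2 * x = z1 at *
  generalize 1 - A * q ^ 2 * x ^ 2 * x = z2 at *
  generalize 1 - A * q ^ 3 * x ^ 3 = z3 at *
  generalize 1 - A * q ^ 3 * (x ^ 2) ^ 2 = z4 at *
  generalize 1 - A * q ^ 2 * x ^ 2 = z5 at *
  generalize 1 - A * q * x ^ 2 * x ^ 2 = z6 at *
  generalize 1 - A * x ^ 2 = z7 at *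
  generalize 1 - x ^ 2 * q = z8 at *
  generalize 1 - x * q = z9 at *
  generalize x ^ 2 * q ^ 2 - x ^ 2 = z10 at *
  generalize x ^ 2 * q ^ 2 - x = z11 at *
  field_simp

/-- the summation -/
theorem main (s : ℕ) : ∑ i ∈ range (s + 1), T q A s i = (-1) ^ s * q ^ (s ^ 2) *
    (∏ l ∈ range (s + 1), (1 - A * q ^ (2 * l))) / ∏ l ∈ range s, (1 - q ^ (2 * l + 1)) := by
  induction s with
  | zero => simp [T, P]
  | succ s ih =>
    rw [sum_range_succ]
    have h := partial_sum hq h1 hA s s le_rfl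
    have h2 := step hq h1 hA s s le_rfl
    have h3 := last hq h1 hA s
    have e : ∑ i ∈ range (s + 1), T q A (s + 1) i = rho q A s * ∑ i ∈ range (s + 1), T q A s i +
        rho q A s * H q A s s := by
      rw [mul_sum, sum_range_succ (fun i => T q A (s + 1) i),
        sum_range_succ (fun i => rho q A s * T q A s i)]
      rw [sum_sub_distrib] at h
      linear_combination h + h2
    rw [e, h3, ih, prod_range_succ _ (s + 1), prod_range_succ _ s]
    have a1 := h1 (2 * s + 1) (by omega)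
    have hne : ∏ l ∈ range s, (1 - q ^ (2 * l + 1)) ≠ 0 :=
      prod_ne_zero_iff.2 fun l _ => h1 _ (by omega)
    unfold rho
    have e1 : q ^ (2 * s + 1) = q ^ (2 * s) * q := by ring
    have e2 : q ^ ((s + 1) ^ 2) = q ^ (s ^ 2) * (q ^ (2 * s) * q) := by ring
    have e3 : q ^ (2 * (s + 1)) = q ^ 2 * q ^ (2 * s) := by ring
    rw [e1] at a1
    rw [prod_range_succ (fun l => 1 - q ^ (2 * l + 1)) s, e1, e2, e3, pow_succ (-1 : K) s]
    rw [← mul_assoc A (q ^ 2)]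
    generalize 1 - q ^ (2 * s) * q = z1 at *
    generalize 1 - A * q ^ 2 * q ^ (2 * s) = z2 at *
    field_simp
    ring

end

end Q278.QC
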