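import Pool.Agent.Q278.WR2

set_option autoImplicit false

/-! Divisibility by the first power: the good class. -/

namespace Q278.WR

open Finset Q278.Loc Q278.Unit Q278.Cyc Q278.Blk Q278.DD Q278.WP Q278.Four Polynomial

section local_

variable {K : Type*} [Field K] {O : Subring K} {π : K}

theorem Aff.inv (hπ : π ∈ O) {g : ℤ → K} (h : Aff O π g) (hu : ∀ t, U O (g t)) :
    Aff O π (fun t => (g t)⁻¹) := by
  obtain ⟨h1, D, hD, h2⟩ := h
  refine ⟨fun t => (hu t).2.1, -(D * ((g 0)⁻¹) ^ 2), (I O π 1).neg_mem ?_, fun t => ?_⟩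
  · rw [mul_comm]
    exact mul_O (O.pow_mem (hu 0).2.1 2) hD
  · have n0 := (hu 0).2.2
    have nt := (hu t).2.2
    have tO : (t : K) ∈ O := intCast_mem O t
    have k1 : g 0 - t * D ∈ O := O.sub_mem (h1 0) (O.mul_mem tO (toO hπ hD))
    have k2 := mul_O (O.neg_mem k1) (h2 t)
    have k3 := mul_O (O.mul_mem tO tO) (mul_I hD hD)
    have k4 := (I O π 2).add_mem k2 k3
    have k5 := mul_O (O.mul_mem (hu t).2.1 (O.pow_mem (hu 0).2.1 2)) k4
    convert k5 using 1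
    field_simp
    ring

theorem step (hπ : π ∈ O) {g : ℤ → K} {D : K} (g0 : g 0 ∈ O) (hD : D ∈ I O π 1)
    (h : ∀ t : ℤ, g t - (g 0 + t * D) ∈ I O π 2) (hg : ∀ t, g t ∈ O) {X A B S : K}
    (hA : A ∈ O) (hB : B ∈ I O π 1) (hS : S ∈ O) (hAB : A * D = B * g 0)
    (hX : X - (A + S * B) ∈ I O π 2) (t : ℤ) :
    X * g t - (A * g 0 + (S + t) * (B * g 0)) ∈ I O π 2 := by
  have tO : (t : K) ∈ O := intCast_mem O t
  have k1 := mul_O (hg t) hX
  have k2 := mul_O (O.add_mem hA (O.mul_mem hS (toO hπ hB))) (h t)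
  have k3 := mul_O (O.mul_mem hS tO) (mul_I hB hD)
  have k4 := (I O π 2).add_mem ((I O π 2).add_mem k1 k2) k3
  convert k4 using 1
  linear_combination (t : K) * hAB

/-- products of five values with vanishing sum of the arguments -/
theorem five (hπ : π ∈ O) {g : ℤ → K} (h : Aff O π g) {t1 t2 t3 t4 t5 : ℤ}
    (ht : t1 + t2 + t3 + t4 + t5 = 0) :
    g t1 * g t2 * g t3 * g t4 * g t5 - g 0 ^ 5 ∈ I O π 2 := by
  obtain ⟨h1, D, hD, h2⟩ := h
  have g0 := h1 0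
  have cO : ∀ t : ℤ, (t : K) ∈ O := fun t => intCast_mem O t
  have s1 : g t1 - (g 0 + (t1 : K) * D) ∈ I O π 2 := h2 t1
  have s2 := step hπ g0 hD h2 h1 g0 hD (cO t1) (by ring) s1 t2
  have s3 := step hπ g0 hD h2 h1 (O.mul_mem g0 g0) (by rw [mul_comm]; exact mul_O g0 hD)
    (O.add_mem (cO t1) (cO t2)) (by ring) s2 t3
  have s4 := step hπ g0 hD h2 h1 (O.mul_mem (O.mul_mem g0 g0) g0)
    (by rw [mul_comm]; exact mul_O g0 (by rw [mul_comm]; exact mul_O g0 hD))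
    (O.add_mem (O.add_mem (cO t1) (cO t2)) (cO t3)) (by ring) s3 t4
  have s5 := step hπ g0 hD h2 h1 (O.mul_mem (O.mul_mem (O.mul_mem g0 g0) g0) g0)
    (by rw [mul_comm]; exact mul_O g0 (by rw [mul_comm]; exact mul_O g0 (by
      rw [mul_comm]; exact mul_O g0 hD)))
    (O.add_mem (O.add_mem (O.add_mem (cO t1) (cO t2)) (cO t3)) (cO t4)) (by ring) s4 t5
  have e : (t1 : K) + t2 + t3 + t4 + t5 = 0 := by exact_mod_cast congrArg (Int.cast : ℤ → K) ht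
  rw [e, zero_mul, add_zero] at s5
  convert s5 using 1
  ring

end local_

variable {m : ℕ} {η : ℂ} {e : ℤ} {N L1 L2 Z : ℕ}

/-- the terms of a block -/
noncomputable def Bk (e : ℤ) (Z : ℕ) (x : ℤ) (i : ℕ) : RatFunc ℚ :=
  (1 - q ^ (e + 2 * x + 8 * (i : ℤ))) * F (e + x) (4 + x) i ^ 5 * F (2 + x) (e + 2 + x) i *
    ((q ^ 4) ^ Z) ^ i

theorem Bk_add (e : ℤ) (Z : ℕ) (x : ℤ) (K i : ℕ) : Bk e Z x (K + i) =
    (F (e + x) (4 + x) K ^ 5 * F (2 + x) (e + 2 + x) K * ((q ^ 4) ^ Z) ^ K) *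
      Bk e Z (x + 4 * (K : ℤ)) i := by
  unfold Bk
  rw [F_add, F_add, mul_pow, pow_add _ K i]
  have e1 : e + 2 * x + 8 * ((K + i : ℕ) : ℤ) = e + 2 * (x + 4 * (K : ℤ)) + 8 * (i : ℤ) := by
    push_cast; ring
  rw [e1, ← add_assoc e x, ← add_assoc 4 x, ← add_assoc 2 x, ← add_assoc (e + 2) x]
  ring

theorem Aff_F (hm : 0 < m) (hη : IsPrimitiveRoot η m) {x y : ℤ} {k : ℕ}
    (hy : ∀ l < k, ∀ c : ℤ, ¬ (m : ℤ) ∣ y - m * c + 4 * (l : ℤ)) :
    Aff (Reg η) (Φ m) (fun u => F (x + m * u) (y - m * u) k) := by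
  have hη0 : η ≠ 0 := hη.ne_zero (by omega)
  have hπ := Φ_mem m η
  have hV : U (Reg η) ((q : RatFunc ℚ) ^ m) := U_of_ev (q_pow_mem η m) (ev_q_ne hη0 m)
  have hV1 : (q : RatFunc ℚ) ^ m - 1 ∈ I (Reg η) (Φ m) 1 := by
    rw [← neg_sub]
    apply (I (Reg η) (Φ m) 1).neg_mem
    have := one_sub_zq_I hm hη hη0 (dvd_refl (m : ℤ))
    rwa [zpow_natCast] at this
  have hV2 : ((q : RatFunc ℚ) ^ m)⁻¹ - 1 ∈ I (Reg η) (Φ m) 1 := by
    have h1 := mul_O ((Reg η).neg_mem hV.2.1) hV1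
    convert h1 using 1
    have := hV.2.2
    field_simp
    ring
  have e1 : (fun u : ℤ => F (x + m * u) (y - m * u) k) = fun u : ℤ =>
      (∏ l ∈ range k, (1 - q ^ (x + 4 * (l : ℤ)) * (q ^ m) ^ u)) *
      (∏ l ∈ range k, (1 - q ^ (y + 4 * (l : ℤ)) * ((q ^ m)⁻¹) ^ u))⁻¹ := by
    funext u
    unfold F A
    rw [div_eq_mul_inv]
    congr 1
    · apply prod_congr rfl
      intro l _
      rw [← zpow_natCast q m, ← zpow_mul, ← zpow_add₀ q_ne]
      congr 2; ring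
    · congr 1
      apply prod_congr rfl
      intro l _
      rw [← zpow_natCast q m, ← zpow_neg, ← zpow_mul, ← zpow_add₀ q_ne]
      congr 2; ring
  rw [e1]
  have a1 : Aff (Reg η) (Φ m) (fun u : ℤ =>
      ∏ l ∈ range k, (1 - q ^ (x + 4 * (l : ℤ)) * (q ^ m) ^ u)) :=
    Aff.prod hπ fun l _ => Aff.fac hπ hV hV1 (zq_mem hη0 _)
  have a2 : Aff (Reg η) (Φ m) (fun u : ℤ =>
      ∏ l ∈ range k, (1 - q ^ (y + 4 * (l : ℤ)) * ((q ^ m)⁻¹) ^ u)) :=
    Aff.prod hπ fun l _ => Aff.fac hπ hV.inv hV2 (zq_mem hη0 _)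
  refine a1.mul hπ (Aff.inv hπ a2 fun u => U.prod fun l hl => ?_)
  have : q ^ (y + 4 * (l : ℤ)) * ((q ^ m)⁻¹) ^ u = (q : RatFunc ℚ) ^ (y - m * u + 4 * (l : ℤ)) := by
    rw [← zpow_natCast q m, ← zpow_neg, ← zpow_mul, ← zpow_add₀ q_ne]
    congr 1; ring
  rw [this]
  exact one_sub_zq_U hη hη0 (hy l (mem_range.1 hl) u)

theorem pole_O (hodd : m % 2 = 1) (hη : IsPrimitiveRoot η m) (he : e = 1 ∨ e = -1) {x : ℤ}
    (hx : 0 ≤ x) {k : ℕ} (hk : k ≤ m) : Φ m * F (2 + x) (e + 2 + x) k ∈ Reg η := by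
  have hη0 : η ≠ 0 := hη.ne_zero (by omega)
  have h1 := A_pole hodd hη (x := e + 2 + x) hk (fun l => by rcases he with h | h <;> omega)
  have h2 := (Reg η).mul_mem (A_O hη0 (2 + x) k) h1
  convert h2 using 1
  unfold F
  rw [div_eq_mul_inv]; ring

/-- the good class, first power -/
theorem good1 (D : Good m e N L1 L2 Z) (hη : IsPrimitiveRoot η m) (j : ℕ) :
    ∑ i ∈ range m, Bk e Z (m * (4 * (j : ℤ))) i ∈ I (Reg η) (Φ m) 1 := by
  have hodd := D.odd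
  have hm0 : 0 < m := by omega
  have hη0 : η ≠ 0 := hη.ne_zero (by omega)
  have hlt := D.lt
  have hN := D.hN
  have hπ := Φ_mem m η
  set x : ℤ := m * (4 * (j : ℤ)) with hx
  have hx0 : 0 ≤ x := by positivity
  -- the affine functions
  have hy : ∀ k ≤ N, ∀ l < k, ∀ c : ℤ, ¬ (m : ℤ) ∣ (4 + x) - m * c + 4 * (l : ℤ) := by
    intro k hk l hl c
    have := not_dvd_four hodd (show l + 1 < m by omega) (4 * (j : ℤ) - c)
    rw [hx]
    intro h; apply this; convert h using 1; ring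
  have hg : ∀ k ≤ N, Aff (Reg η) (Φ m) (fun u => F ((e + x) + m * u) ((4 + x) - m * u) k) :=
    fun k hk => Aff_F hm0 hη (hy k hk)
  have z := D.zero (α := 8 * (j : ℤ)) (t := 4 * (j : ℤ)) (s := 0) (by positivity) (by omega)
  have main : Φ m * ∑ i ∈ range (N + 1), Bk e Z x i ∈ I (Reg η) (Φ m) 2 := by
    have h1 : ∑ k ∈ range (N + 1), ((1 - q ^ (e + 2 * x + 8 * (k : ℤ))) * ((q ^ 4) ^ Z) ^ k *
        (Φ m * F (2 + x) (e + 2 + x) k)) *
        (F ((e + x) + m * (4 * (j : ℤ))) ((4 + x) - m * (4 * (j : ℤ))) k *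
          F ((e + x) + m * (-3 - 4 * (j : ℤ))) ((4 + x) - m * (-3 - 4 * (j : ℤ))) k *
          F ((e + x) + m * (-4 * (j : ℤ))) ((4 + x) - m * (-4 * (j : ℤ))) k *
          F ((e + x) + m * (4 * (j : ℤ) + 1)) ((4 + x) - m * (4 * (j : ℤ) + 1)) k *
          F ((e + x) + m * 2) ((4 + x) - m * 2) k -
          F ((e + x) + m * 0) ((4 + x) - m * 0) k ^ 5) ∈ I (Reg η) (Φ m) 2 := by
      apply AddSubgroup.sum_mem
      intro k hk
      have hk' := mem_range.1 hk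
      refine mul_O ((Reg η).mul_mem ((Reg η).mul_mem ((Reg η).sub_mem (Reg η).one_mem
        (zq_mem hη0 _)) ((Reg η).pow_mem ((Reg η).pow_mem (q_pow_mem η 4) _) _))
        (pole_O hodd hη D.he hx0 (by omega))) ?_
      exact five hπ (hg k (by omega)) (by ring)
    have h2 := (I (Reg η) (Φ m) 2).neg_mem h1
    convert h2 using 1
    rw [← sub_eq_zero, sub_neg_eq_add, mul_sum, ← sum_add_distrib]
    have e0 : Φ m * (0 : RatFunc ℚ) = 0 := mul_zero _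
    rw [← e0, ← z, mul_sum]
    apply sum_congr rfl
    intro k _
    unfold Bk
    have a1 : e + x + m * 0 = e + x := by ring
    have a2 : 4 + x - m * 0 = 4 + x := by ring
    have a3 : e + x + m * (4 * (j : ℤ)) = e + m * (8 * (j : ℤ)) := by rw [hx]; ring
    have a4 : 4 + x - m * (4 * (j : ℤ)) = 4 := by rw [hx]; ring
    have a5 : e + x + m * (-3 - 4 * (j : ℤ)) = e + m * (-3) := by rw [hx]; ring
    have a6 : 4 + x - m * (-3 - 4 * (j : ℤ)) = 4 + m * (8 * (j : ℤ) + 3) := by rw [hx]; ring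
    have a7 : e + x + m * (-4 * (j : ℤ)) = e + m * 0 := by rw [hx]; ring
    have a8 : 4 + x - m * (-4 * (j : ℤ)) = 4 + m * (8 * (j : ℤ) - 0) := by rw [hx]; ring
    have a9 : e + x + m * (4 * (j : ℤ) + 1) = e + m * (8 * (j : ℤ) + 1 - 0) := by rw [hx]; ring
    have b1 : 4 + x - m * (4 * (j : ℤ) + 1) = 4 + m * (0 - 1) := by rw [hx]; ring
    have b2 : e + x + m * 2 = e + m * (8 * (j : ℤ) + 2 - 4 * (j : ℤ)) := by rw [hx]; ring
    have b3 : 4 + x - m * 2 = 4 + m * (4 * (j : ℤ) - 2) := by rw [hx]; ring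
    have b4 : 2 + x = 2 + m * (4 * (j : ℤ)) := by rw [hx]
    have b5 : e + 2 + x = e + 2 + m * (8 * (j : ℤ) - 4 * (j : ℤ)) := by rw [hx]; ring
    have b6 : e + 2 * x + 8 * (k : ℤ) = e + m * (8 * (j : ℤ)) + 8 * (k : ℤ) := by rw [hx]; ring
    rw [a1, a2, a3, a4, a5, a6, a7, a8, a9, b1, b2, b3, b4, b5, b6]
    ring
  have main1 : ∑ i ∈ range (N + 1), Bk e Z x i ∈ I (Reg η) (Φ m) 1 := by
    apply pi_k_cancel (k := 1) (l := 1)
    rw [pow_one]; exact main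
  -- the tail
  obtain ⟨w, hw⟩ := Nat.exists_eq_add_of_le (show N + 1 ≤ m by omega)
  have hsplit : ∑ i ∈ range m, Bk e Z x i = ∑ i ∈ range (N + 1), Bk e Z x i +
      ∑ i ∈ range w, Bk e Z x (N + 1 + i) := by
    conv_lhs => rw [hw, sum_range_add]
  rw [hsplit]
  refine (I (Reg η) (Φ m) 1).add_mem main1 (AddSubgroup.sum_mem _ fun i hi => ?_)
  have hi' := mem_range.1 hi
  have hG : F (e + x) (4 + x) (N + 1 + i) ∈ I (Reg η) (Φ m) 1 := by
    unfold F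
    rw [div_eq_mul_inv, mul_comm]
    refine mul_O (A_U hη hη0 ?_).2.1 (A_I hm0 hη (show N < N + 1 + i by omega) ?_)
    · intro l hl
      have := not_dvd_four hodd (show l + 1 < m by omega) (4 * (j : ℤ))
      rw [hx]; exact this
    · refine ⟨4 * j + 3, ?_⟩
      rw [hx]; linear_combination hN
  have hG2 : F (e + x) (4 + x) (N + 1 + i) ^ 5 ∈ I (Reg η) (Φ m) (1 + 1) :=
    mono hπ (by omega) (pow_I hG 5)
  apply pi_k_cancel (k := 1) (l := 1)
  have h3 := mul_O ((Reg η).mul_mem ((Reg η).mul_mem ((Reg η).sub_mem (Reg η).one_mem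
    (zq_mem hη0 (e + 2 * x + 8 * ((N + 1 + i : ℕ) : ℤ)))) ((Reg η).pow_mem ((Reg η).pow_mem
    (q_pow_mem η 4) Z) (N + 1 + i))) (pole_O hodd hη D.he hx0 (show N + 1 + i ≤ m by omega))) hG2
  convert h3 using 1
  unfold Bk
  ring

end Q278.WR
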