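import Pool.Agent.Q278.QC
import Pool.Agent.Q278.Four
import Pool.Agent.Q278.WR3

set_option autoImplicit false

/-! Blocks of `((p; p²)_k / (p; p)_k)³` modulo `π²`. -/

namespace Q278.QC2

open Finset Q278.Loc Q278.Unit Q278.Blk Q278.Four

variable {K : Type*} [Field K] {O : Subring K} {π : K} {n N : ℕ} {p : K}

/-- `(p; p²)_k / (p; p)_k` -/
def rr (p : K) (k : ℕ) : K := ∏ l ∈ range k, ((1 - p ^ (2 * l + 1)) / (1 - p ^ (l + 1)))

/-- numerators -/
def nm (n : ℕ) (p : K) (k : ℕ) (t : ℤ) : K := ∏ l ∈ range k, (1 - p ^ (2 * l + 1) * (p ^ n) ^ t)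

/-- denominators -/
def dn (n : ℕ) (p : K) (k : ℕ) (t : ℤ) : K := ∏ l ∈ range k, (1 - p ^ (l + 1) * (p ^ n) ^ t)

/-- `2^j (1/2)_j / j!` -/
def bb (K : Type*) [Field K] (j : ℕ) : K := ∏ i ∈ range j, (((2 * i + 1 : ℕ) : K) / ((i + 1 : ℕ) : K))

theorem rr_split (j i : ℕ) : rr p (n * j + i) = rr p (n * j) * (nm n p i (2 * j) / dn n p i j) := by
  unfold rr nm dn
  rw [prod_range_add, ← prod_div_distrib]
  congr 1
  apply prod_congr rfl
  intro l _
  have e1 : (p ^ n) ^ (2 * (j : ℤ)) = (p ^ n) ^ (2 * j) := by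
    rw [show (2 * (j : ℤ)) = ((2 * j : ℕ) : ℤ) by push_cast; rfl, zpow_natCast]
  rw [e1, zpow_natCast, ← pow_mul, ← pow_mul, ← pow_add, ← pow_add]
  congr 2
  · congr 1; ring
  · congr 1; ring

variable (h : H O π n N p)

include h

theorem V1 : p ^ n - 1 ∈ I O π 1 := by rw [← neg_sub]; exact (I O π 1).neg_mem h.hw

theorem aff_nm (k : ℕ) : Aff O π (nm n p k) :=
  Aff.prod h.hπ fun _ _ => Aff.fac h.hπ h.Uw (V1 h) (h.hp.pow _).1

theorem aff_dn (k : ℕ) : Aff O π (dn n p k) :=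
  Aff.prod h.hπ fun _ _ => Aff.fac h.hπ h.Uw (V1 h) (h.hp.pow _).1

omit [Field K] h in
theorem ndvd {l : ℕ} (hl : l + 1 < n) : ¬ n ∣ l + 1 := by
  intro hd
  have := Nat.le_of_dvd (Nat.succ_pos l) hd
  omega

theorem U_dn {k : ℕ} (hk : k < n) (t : ℤ) : U O (dn n p k t) := by
  refine U.prod fun l hl => ?_
  have := mem_range.1 hl
  rw [mul_comm]
  exact h.Us t (ndvd (by omega))

theorem ndvd2 {l : ℕ} (hl : l < n) (hne : l ≠ N) : ¬ n ∣ 2 * l + 1 := by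
  rintro ⟨t, ht⟩
  have hn := h.hn
  have ht2 : t < 2 := by
    by_contra hc
    have : n * 2 ≤ n * t := Nat.mul_le_mul_left n (by omega)
    omega
  interval_cases t <;> omega

theorem nm_I {k : ℕ} (hk : N < k) (t : ℤ) : nm n p k t ∈ I O π 1 := by
  unfold nm
  rw [← mul_prod_erase (range k) _ (mem_range.2 hk), mul_comm]
  refine mul_O (O.prod_mem fun l _ => O.sub_mem O.one_mem (O.mul_mem (h.hp.pow _).1 (h.wz t).1)) ?_
  have e : p ^ (2 * N + 1) * (p ^ n) ^ t = (p ^ n) ^ (t + 1) := by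
    rw [← h.hn, zpow_add_one₀ h.Uw.2.2, mul_comm]
  rw [e]
  exact h.wz_mem _

/-- three values with equal sums -/
theorem three_eq {g : ℤ → K} (hg : Aff O π g) {t1 t2 t3 s1 s2 s3 : ℤ}
    (ht : t1 + t2 + t3 = s1 + s2 + s3) :
    g t1 * g t2 * g t3 - g s1 * g s2 * g s3 ∈ I O π 2 := by
  obtain ⟨h1, D, hD, h2⟩ := hg
  have g0 := h1 0
  have cO : ∀ t : ℤ, (t : K) ∈ O := fun t => intCast_mem O t
  have key : ∀ a b c : ℤ, g a * g b * g c - (g 0 * g 0 * g 0 + ((a : K) + b + c) *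
      (D * g 0 * g 0)) ∈ I O π 2 := by
    intro a b c
    have s1 : g a - (g 0 + (a : K) * D) ∈ I O π 2 := h2 a
    have s2 := WR.step h.hπ g0 hD h2 h1 g0 hD (cO a) (by ring) s1 b
    have s3 := WR.step h.hπ g0 hD h2 h1 (O.mul_mem g0 g0) (by rw [mul_comm]; exact mul_O g0 hD)
      (O.add_mem (cO a) (cO b)) (by ring) s2 c
    exact s3
  have k1 := key t1 t2 t3
  have k2 := key s1 s2 s3
  have e : (t1 : K) + t2 + t3 = s1 + s2 + s3 := by
    exact_mod_cast congrArg (Int.cast : ℤ → K) ht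
  rw [e] at k1
  have := (I O π 2).sub_mem k1 k2
  convert this using 1
  ring

/-- the terms of a block -/
theorem term_eq (j : ℕ) {i : ℕ} (hi : i ≤ N) (_ : 0 < N) :
    (nm n p i (2 * j) / dn n p i j) ^ 3 - nm n p i (3 * j) * nm n p i (-1) * nm n p i (3 * j + 1) /
      (dn n p i 0 * dn n p i (3 * j + 1) * dn n p i (-1)) ∈ I O π 2 := by
  have hn := h.hn
  have k1 := three_eq h (aff_nm h i) (t1 := 2 * j) (t2 := 2 * j) (t3 := 2 * j) (s1 := 3 * j)
    (s2 := -1) (s3 := 3 * j + 1) (by ring)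
  have k2 := three_eq h (aff_dn h i) (t1 := j) (t2 := j) (t3 := j) (s1 := 0)
    (s2 := 3 * j + 1) (s3 := -1) (by ring)
  have u1 := U_dn h (k := i) (by omega) (j : ℤ)
  have u2 := U_dn h (k := i) (by omega) (0 : ℤ)
  have u3 := U_dn h (k := i) (by omega) (3 * (j : ℤ) + 1)
  have u4 := U_dn h (k := i) (by omega) (-1 : ℤ)
  have o1 := (aff_nm h i).1 (3 * (j : ℤ))
  have o2 := (aff_nm h i).1 (-1 : ℤ)
  have o3 := (aff_nm h i).1 (3 * (j : ℤ) + 1)
  have uu := (u2.mul u3).mul u4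
  have oo := O.mul_mem (O.mul_mem o1 o2) o3
  generalize nm n p i (2 * j) = a at *
  generalize nm n p i (3 * j) * nm n p i (-1) * nm n p i (3 * j + 1) = b at *
  generalize dn n p i 0 * dn n p i (3 * j + 1) * dn n p i (-1) = d at *
  generalize dn n p i j = c at *
  have m1 := mul_O (u1.pow 3).2.1 k1
  have m2 := mul_O (O.mul_mem oo (O.mul_mem uu.2.1 (u1.pow 3).2.1)) k2
  have := (I O π 2).sub_mem m1 m2
  convert this using 1
  have n1 := u1.2.2
  have n2 := uu.2.2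
  field_simp
  ring

/-- the value at the beginning of a block -/
theorem rr_block (j : ℕ) : Cg O π 1 (rr p (n * j)) (bb K j) := by
  have hn := h.hn
  induction j with
  | zero => simp only [mul_zero, rr, bb, range_zero, prod_empty]; exact Cg.refl U.one
  | succ j ih =>
    have e1 : rr p (n * (j + 1)) = rr p (n * j) * (nm n p n (2 * j) / dn n p n j) := by
      rw [← rr_split, Nat.mul_succ]
    have cgf : ∀ (t : ℤ) (i : ℕ), ¬ n ∣ i → Cg O π 1 (1 - p ^ i * (p ^ n) ^ t) (1 - p ^ i) := by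
      intro t i hi
      have u := h.Us t hi
      rw [mul_comm] at u
      refine ⟨u, h.hu i hi, ?_⟩
      have := mul_O (h.hp.pow i).1 (h.wz_mem t)
      convert this using 1
      ring
    have num : nm n p n (2 * j) = (1 - (p ^ n) ^ (2 * j + 1)) *
        ∏ l ∈ range N, ((1 - p ^ (2 * l + 1) * (p ^ n) ^ (2 * (j : ℤ))) *
          (1 - p ^ (2 * (2 * N - l) + 1) * (p ^ n) ^ (2 * (j : ℤ)))) := by
      unfold nm
      conv_lhs => rw [hn, prod_odd]
      rw [← hn]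
      congr 2
      rw [show (2 * (j : ℤ)) = ((2 * j : ℕ) : ℤ) by push_cast; rfl, zpow_natCast, pow_succ,
        mul_comm]
    have den : dn n p n j = (∏ l ∈ range (2 * N), (1 - p ^ (l + 1) * (p ^ n) ^ (j : ℤ))) *
        (1 - (p ^ n) ^ (j + 1)) := by
      unfold dn
      rw [show range n = range (2 * N + 1) by rw [← hn], prod_range_succ, ← hn, zpow_natCast,
        pow_succ (p ^ n) j, mul_comm (p ^ n)]
    have c1 : Cg O π 1 (∏ l ∈ range N, ((1 - p ^ (2 * l + 1) * (p ^ n) ^ (2 * (j : ℤ))) *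
        (1 - p ^ (2 * (2 * N - l) + 1) * (p ^ n) ^ (2 * (j : ℤ)))))
        (∏ l ∈ range N, ((1 - p ^ (2 * l + 1)) * (1 - p ^ (2 * (N - 1 - l) + 2)))) := by
      apply Cg.prod
      intro l hl
      have hl := mem_range.1 hl
      apply Cg.mul
      · exact cgf _ _ (ndvd2 h (by omega) (by omega))
      · have e : p ^ (2 * (2 * N - l) + 1) * (p ^ n) ^ (2 * (j : ℤ)) =
            p ^ (2 * (N - 1 - l) + 2) * (p ^ n) ^ (2 * (j : ℤ) + 1) := by
          rw [zpow_add_one₀ h.Uw.2.2, show 2 * (2 * N - l) + 1 = 2 * (N - 1 - l) + 2 + n by omega,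
            pow_add]
          ring
        rw [e]
        apply cgf
        exact ndvd (by omega)
    have e2 : ∏ l ∈ range N, ((1 - p ^ (2 * l + 1)) * (1 - p ^ (2 * (N - 1 - l) + 2))) =
        ∏ l ∈ range (2 * N), (1 - p ^ (l + 1)) := by
      rw [prod_mul_distrib, prod_range_reflect (fun l => 1 - p ^ (2 * l + 2)) N, ← prod_mul_distrib]
      clear ih e1 num den c1 cgf hn h
      induction N with
      | zero => simp
      | succ N ih =>
        rw [prod_range_succ, ih, show 2 * (N + 1) = 2 * N + 1 + 1 by ring, prod_range_succ,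
          prod_range_succ]
        rw [show 2 * N + 1 + 1 = 2 * N + 2 by ring]
        ring
    rw [e2] at c1
    have c2 : Cg O π 1 (∏ l ∈ range (2 * N), (1 - p ^ (l + 1) * (p ^ n) ^ (j : ℤ)))
        (∏ l ∈ range (2 * N), (1 - p ^ (l + 1))) := by
      apply Cg.prod
      intro l hl
      have hl := mem_range.1 hl
      exact cgf _ _ (ndvd (by omega))
    obtain ⟨g1, v1⟩ := h.geom_ne (show 0 < 2 * j + 1 by omega)
    obtain ⟨g2, v2⟩ := h.geom_ne (show 0 < j + 1 by omega)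
    have gc : ∀ a : ℕ, 0 < a → Cg O π 1 (∑ i ∈ range a, (p ^ n) ^ i) ((a : ℕ) : K) := by
      intro a ha
      refine ⟨(h.geom_ne ha).2, h.h0 a ha, ?_⟩
      have e : ∑ i ∈ range a, (p ^ n) ^ i - (a : K) = -∑ i ∈ range a, (1 - (p ^ n) ^ i) := by
        rw [sum_sub_distrib]; simp
      rw [e]
      exact (I O π 1).neg_mem (AddSubgroup.sum_mem _ fun i _ => h.wn_mem i)
    have hz := h.hz n (by omega)
    have c3 := ih.mul (((gc (2 * j + 1) (by omega)).mul (gc (j + 1) (by omega)).inv).mul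
      (c1.mul c2.inv))
    have f1 : rr p (n * j) * (nm n p n (2 * j) / dn n p n j) = rr p (n * j) *
        ((∑ i ∈ range (2 * j + 1), (p ^ n) ^ i) * (∑ i ∈ range (j + 1), (p ^ n) ^ i)⁻¹ *
        ((∏ l ∈ range N, ((1 - p ^ (2 * l + 1) * (p ^ n) ^ (2 * (j : ℤ))) *
        (1 - p ^ (2 * (2 * N - l) + 1) * (p ^ n) ^ (2 * (j : ℤ))))) *
        (∏ l ∈ range (2 * N), (1 - p ^ (l + 1) * (p ^ n) ^ (j : ℤ)))⁻¹)) := by
      rw [num, den, g1, g2]
      have z1 := v2.2.2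
      have z2 := c2.1.2.2
      congr 1
      generalize ∏ l ∈ range N, ((1 - p ^ (2 * l + 1) * (p ^ n) ^ (2 * (j : ℤ))) *
        (1 - p ^ (2 * (2 * N - l) + 1) * (p ^ n) ^ (2 * (j : ℤ)))) = X
      generalize ∏ l ∈ range (2 * N), (1 - p ^ (l + 1) * (p ^ n) ^ (j : ℤ)) = Y at *
      generalize ∑ i ∈ range (2 * j + 1), (p ^ n) ^ i = Z
      generalize ∑ i ∈ range (j + 1), (p ^ n) ^ i = W at *
      generalize 1 - p ^ n = w at *
      field_simp
    have f2 : bb K j * (((2 * j + 1 : ℕ) : K) * ((j + 1 : ℕ) : K)⁻¹ *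
        ((∏ l ∈ range (2 * N), (1 - p ^ (l + 1))) * (∏ l ∈ range (2 * N), (1 - p ^ (l + 1)))⁻¹)) =
        bb K (j + 1) := by
      rw [mul_inv_cancel₀ c2.2.1.2.2]
      unfold bb
      rw [prod_range_succ]
      ring
    rw [e1, f1]
    rw [f2] at c3
    exact c3

/-- the exact sum of a block -/
theorem exact_block (j : ℕ) (_ : 0 < N) : ∑ i ∈ range (N + 1), (-1) ^ i *
    (1 - p ^ (3 * i + 1) * (p ^ n) ^ (3 * j)) *
    (nm n p i (3 * j) * nm n p i (-1) * nm n p i (3 * j + 1) /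
      (dn n p i 0 * dn n p i (3 * j + 1) * dn n p i (-1))) =
    (-1) ^ N * p ^ (N ^ 2) * (∏ l ∈ range (N + 1), (1 - p ^ (2 * l + 1) * (p ^ n) ^ (3 * j))) /
      ∏ l ∈ range N, (1 - p ^ (2 * l + 1)) := by
  have hn := h.hn
  have hp0 := h.hp.2.2
  have hA : ∀ m : ℕ, 1 - (p * (p ^ n) ^ (3 * j)) * p ^ m ≠ 0 := by
    intro m
    rw [← pow_mul, ← pow_succ', ← pow_add]
    exact h.hz _ (by omega)
  have key := QC.main hp0 (fun m hm => h.hz m hm) hA N
  have e0 : ∏ l ∈ range (N + 1), (1 - p * (p ^ n) ^ (3 * j) * p ^ (2 * l)) =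
      ∏ l ∈ range (N + 1), (1 - p ^ (2 * l + 1) * (p ^ n) ^ (3 * j)) := by
    apply prod_congr rfl
    intro l _
    ring
  rw [e0] at key
  rw [← key]
  apply sum_congr rfl
  intro i hi
  have hi := mem_range.1 hi
  unfold QC.T
  have e1 : p * (p ^ n) ^ (3 * j) * p ^ (3 * i) = p ^ (3 * i + 1) * (p ^ n) ^ (3 * j) := by ring
  rw [e1]
  congr 1
  unfold QC.P QC.p nm dn
  simp only [← prod_mul_distrib, ← prod_div_distrib]
  apply prod_congr rfl
  intro l _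
  have z1 : (p ^ n) ^ (3 * (j : ℤ)) = (p ^ n) ^ (3 * j) := by
    rw [show (3 * (j : ℤ)) = ((3 * j : ℕ) : ℤ) by push_cast; rfl, zpow_natCast]
  have z2 : (p ^ n) ^ (3 * (j : ℤ) + 1) = (p ^ n) ^ (3 * j) * p ^ n := by
    rw [zpow_add_one₀ h.Uw.2.2, z1]
  have z3 : (p ^ n) ^ (-1 : ℤ) = (p ^ (2 * N))⁻¹ * p⁻¹ := by
    rw [zpow_neg_one, hn, pow_succ, mul_inv]
  rw [z1, z2, z3, zpow_zero, mul_one]
  have w1 : p ^ (2 * l + 1) * ((p ^ (2 * N))⁻¹ * p⁻¹) = (p ^ (2 * N))⁻¹ * p ^ (2 * l) := by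
    rw [pow_succ]; field_simp
  have w2 : p ^ (l + 1) * ((p ^ (2 * N))⁻¹ * p⁻¹) = (p ^ (2 * N))⁻¹ * p ^ l := by
    rw [pow_succ]; field_simp
  have w3 : p ^ (2 * l + 1) * ((p ^ n) ^ (3 * j) * p ^ n) =
      p * (p ^ n) ^ (3 * j) * p * p ^ (2 * N) * p ^ (2 * l) := by
    have : p ^ n = p ^ (2 * N) * p := by rw [hn, pow_succ]
    generalize (p ^ n) ^ (3 * j) = X
    rw [this]; ring
  have w4 : p ^ (l + 1) * ((p ^ n) ^ (3 * j) * p ^ n) =
      p * (p ^ n) ^ (3 * j) * p * p ^ (2 * N) * p ^ l := by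
    have : p ^ n = p ^ (2 * N) * p := by rw [hn, pow_succ]
    generalize (p ^ n) ^ (3 * j) = X
    rw [this]; ring
  have w5 : p ^ (2 * l + 1) * (p ^ n) ^ (3 * j) = p * (p ^ n) ^ (3 * j) * p ^ (2 * l) := by ring
  rw [w1, w2, w3, w4, w5]

/-- the sum of a block -/
theorem block (j : ℕ) (hN : 0 < N) : ∑ i ∈ range n, (-1) ^ i *
    (1 - p ^ (3 * i + 1) * (p ^ n) ^ (3 * j)) * (nm n p i (2 * j) / dn n p i j) ^ 3 -
    (-1) ^ N * p ^ (N ^ 2) * ((3 * j + 1 : ℕ) : K) * (1 - p ^ n) ∈ I O π 2 := by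
  have hn := h.hn
  have oV : ∀ i, (-1) ^ i * (1 - p ^ (3 * i + 1) * (p ^ n) ^ (3 * j)) ∈ O := fun i =>
    O.mul_mem (O.pow_mem (O.neg_mem O.one_mem) i) (O.sub_mem O.one_mem
      (O.mul_mem (h.hp.pow _).1 (h.Uw.pow _).1))
  -- the tail
  have e1 : ∑ i ∈ range n, (-1) ^ i *
      (1 - p ^ (3 * i + 1) * (p ^ n) ^ (3 * j)) * (nm n p i (2 * j) / dn n p i j) ^ 3 =
      ∑ i ∈ range (N + 1), (-1) ^ i * (1 - p ^ (3 * i + 1) * (p ^ n) ^ (3 * j)) *
        (nm n p i (2 * j) / dn n p i j) ^ 3 +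
      ∑ i ∈ range N, (-1) ^ (N + 1 + i) * (1 - p ^ (3 * (N + 1 + i) + 1) * (p ^ n) ^ (3 * j)) *
        (nm n p (N + 1 + i) (2 * j) / dn n p (N + 1 + i) j) ^ 3 := by
    rw [show range n = range (N + 1 + N) by congr 1; omega, sum_range_add]
  have t1 : ∑ i ∈ range N, (-1) ^ (N + 1 + i) * (1 - p ^ (3 * (N + 1 + i) + 1) *
      (p ^ n) ^ (3 * j)) * (nm n p (N + 1 + i) (2 * j) / dn n p (N + 1 + i) j) ^ 3 ∈ I O π 2 := by
    refine AddSubgroup.sum_mem _ fun i hi => ?_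
    have hi := mem_range.1 hi
    refine mul_O (oV _) ?_
    have h1 : nm n p (N + 1 + i) (2 * j) / dn n p (N + 1 + i) j ∈ I O π 1 := by
      rw [div_eq_mul_inv, mul_comm]
      exact mul_O (U_dn h (by omega) _).2.1 (nm_I h (by omega) _)
    exact mono h.hπ (show 2 ≤ 1 * 3 by omega) (pow_I h1 3)
  -- the main part
  have t2 : ∑ i ∈ range (N + 1), (-1) ^ i * (1 - p ^ (3 * i + 1) * (p ^ n) ^ (3 * j)) *
        (nm n p i (2 * j) / dn n p i j) ^ 3 - (-1) ^ N * p ^ (N ^ 2) *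
        (∏ l ∈ range (N + 1), (1 - p ^ (2 * l + 1) * (p ^ n) ^ (3 * j))) /
        ∏ l ∈ range N, (1 - p ^ (2 * l + 1)) ∈ I O π 2 := by
    rw [← exact_block h j hN, ← sum_sub_distrib]
    refine AddSubgroup.sum_mem _ fun i hi => ?_
    have hi := mem_range.1 hi
    rw [← mul_sub]
    exact mul_O (oV i) (term_eq h j (by omega) hN)
  -- the value
  obtain ⟨g1, v1⟩ := h.geom_ne (show 0 < 3 * j + 1 by omega)
  have gc : ∑ i ∈ range (3 * j + 1), (p ^ n) ^ i - ((3 * j + 1 : ℕ) : K) ∈ I O π 1 := by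
    have e : ∑ i ∈ range (3 * j + 1), (p ^ n) ^ i - ((3 * j + 1 : ℕ) : K) =
        -∑ i ∈ range (3 * j + 1), (1 - (p ^ n) ^ i) := by
      rw [sum_sub_distrib]; simp
    rw [e]
    exact (I O π 1).neg_mem (AddSubgroup.sum_mem _ fun i _ => h.wn_mem i)
  have c1 : Cg O π 1 (∏ l ∈ range N, (1 - p ^ (2 * l + 1) * (p ^ n) ^ (3 * j)))
      (∏ l ∈ range N, (1 - p ^ (2 * l + 1))) := by
    apply Cg.prod
    intro l hl
    have hl := mem_range.1 hl
    have hd := ndvd2 h (l := l) (by omega) (by omega)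
    have u := h.Us (3 * j : ℕ) hd
    rw [mul_comm, zpow_natCast] at u
    refine ⟨u, h.hu _ hd, ?_⟩
    have := mul_O (h.hp.pow (2 * l + 1)).1 (h.wn_mem (3 * j))
    convert this using 1
    ring
  have c2 := c1.mul (Cg.refl (π := π) (k := 1) c1.2.1.inv)
  rw [mul_inv_cancel₀ c1.2.1.2.2] at c2
  have t3 : (-1) ^ N * p ^ (N ^ 2) *
        (∏ l ∈ range (N + 1), (1 - p ^ (2 * l + 1) * (p ^ n) ^ (3 * j))) /
        ∏ l ∈ range N, (1 - p ^ (2 * l + 1)) -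
      (-1) ^ N * p ^ (N ^ 2) * ((3 * j + 1 : ℕ) : K) * (1 - p ^ n) ∈ I O π 2 := by
    have e2 : 1 - p ^ (2 * N + 1) * (p ^ n) ^ (3 * j) =
        (1 - p ^ n) * ∑ i ∈ range (3 * j + 1), (p ^ n) ^ i := by
      rw [← g1, ← hn, pow_succ (p ^ n), mul_comm]
    rw [prod_range_succ, e2]
    have o1 : (-1) ^ N * p ^ (N ^ 2) ∈ O :=
      O.mul_mem (O.pow_mem (O.neg_mem O.one_mem) _) (h.hp.pow _).1
    have m1 := mul_O (O.mul_mem o1 v1.1) (mul_I h.hw c2.2.2)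
    have m2 := mul_O o1 (mul_I h.hw gc)
    have := (I O π 2).add_mem m1 m2
    convert this using 1
    rw [div_eq_mul_inv]
    ring
  rw [e1]
  have := (I O π 2).add_mem ((I O π 2).add_mem t1 t2) t3
  convert this using 1
  ring

/-- the whole sum -/
theorem total (m : ℕ) (hN : 0 < N) : ∑ k ∈ range (n * m), (-1) ^ k * (1 - p ^ (3 * k + 1)) *
    rr p k ^ 3 - (-1) ^ N * p ^ (N ^ 2) * (1 - p ^ n) *
      ∑ j ∈ range m, (-1) ^ j * ((3 * j + 1 : ℕ) : K) * bb K j ^ 3 ∈ I O π 2 := by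
  have hn := h.hn
  rw [sum_blocks, mul_sum, ← sum_sub_distrib]
  refine AddSubgroup.sum_mem _ fun j _ => ?_
  have e2 : ∀ i : ℕ, (-1 : K) ^ (n * j + i) = (-1) ^ j * (-1) ^ i := by
    intro i
    rw [pow_add, hn, show (2 * N + 1) * j = 2 * (N * j) + j by ring, pow_add, pow_mul]
    norm_num
  have e1 : ∑ i ∈ range n, (-1) ^ (n * j + i) * (1 - p ^ (3 * (n * j + i) + 1)) *
      rr p (n * j + i) ^ 3 = (-1) ^ j * rr p (n * j) ^ 3 * ∑ i ∈ range n, (-1) ^ i *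
      (1 - p ^ (3 * i + 1) * (p ^ n) ^ (3 * j)) * (nm n p i (2 * j) / dn n p i j) ^ 3 := by
    rw [mul_sum]
    apply sum_congr rfl
    intro i _
    rw [rr_split, e2]
    have : p ^ (3 * (n * j + i) + 1) = p ^ (3 * i + 1) * (p ^ n) ^ (3 * j) := by
      rw [← pow_mul, ← pow_add]; congr 1; ring
    rw [this]
    ring
  rw [e1]
  have hB := block h j hN
  have hR := rr_block h j
  have hR3 := hR.pow 3
  have oj : (-1 : K) ^ j ∈ O := O.pow_mem (O.neg_mem O.one_mem) _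
  have o1 : (-1) ^ N * p ^ (N ^ 2) ∈ O :=
      O.mul_mem (O.pow_mem (O.neg_mem O.one_mem) _) (h.hp.pow _).1
  have m1 := mul_O (O.mul_mem oj hR3.1.1) hB
  have m2 := mul_O (O.mul_mem oj (O.mul_mem o1 (nat_O (3 * j + 1)))) (mul_I h.hw hR3.2.2)
  have := (I O π 2).add_mem m1 m2
  convert this using 1
  ring

end Q278.QC2
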