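import Pool.Agent.Q278.BlkCyc

set_option autoImplicit false

/-! The `q`-Delannoy numbers: generating functions, recurrences, and a closed form. -/

namespace Q278.QDel

open Finset PowerSeries

variable {K : Type*} [Field K]

/-- the Gaussian binomial coefficient -/
def gb (Q : K) (n k : ℕ) : K := ∏ i ∈ range k, (1 - Q ^ (n - i)) / (1 - Q ^ (i + 1))

/-- the `q`-Delannoy number -/
def D (Q : K) (m n : ℕ) : K :=
  ∑ j ∈ range (n + 1), Q ^ (j * (j - 1) / 2) * gb Q n j * gb Q (m + n - j) n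

theorem gb_zero (Q : K) (n : ℕ) : gb Q n 0 = 1 := by simp [gb]

theorem gb_lt (Q : K) {n k : ℕ} (h : n < k) : gb Q n k = 0 := by
  unfold gb
  exact prod_eq_zero (mem_range.2 h) (by simp)

section

variable {Q : K} (hQ : ∀ i, 0 < i → 1 - Q ^ i ≠ 0)
include hQ

theorem gb_step (n k : ℕ) : gb Q n (k + 1) * (1 - Q ^ (k + 1)) = gb Q n k * (1 - Q ^ (n - k)) := by
  unfold gb
  rw [prod_range_succ]
  have := hQ (k + 1) (Nat.succ_pos k)
  field_simp

theorem gb_shift (n k : ℕ) : gb Q (n + 1) (k + 1) * (1 - Q ^ (k + 1)) =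
    (1 - Q ^ (n + 1)) * gb Q n k := by
  induction k with
  | zero =>
    have := gb_step hQ (n + 1) 0
    rw [this, gb_zero, gb_zero]
    simp
  | succ k ih =>
    have h1 := gb_step hQ (n + 1) (k + 1)
    rw [h1, show n + 1 - (k + 1) = n - k by omega]
    have h2 := gb_step hQ n k
    have h3 := hQ (k + 1) (Nat.succ_pos k)
    apply mul_right_cancel₀ h3
    linear_combination (1 - Q ^ (n - k)) * ih - (1 - Q ^ (n + 1)) * h2

theorem pascal1 (n k : ℕ) : gb Q (n + 1) (k + 1) = gb Q n k + Q ^ (k + 1) * gb Q n (k + 1) := by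
  have h1 := gb_shift hQ n k
  have h2 := gb_step hQ n k
  have h3 := hQ (k + 1) (Nat.succ_pos k)
  apply mul_right_cancel₀ h3
  rcases Nat.lt_or_ge n k with h | h
  · rw [h1, gb_lt Q h, gb_lt Q (show n < k + 1 by omega)]; ring
  · have h4 : Q ^ (n + 1) = Q ^ (k + 1) * Q ^ (n - k) := by rw [← pow_add]; congr 1; omega
    rw [h4] at h1
    linear_combination h1 - Q ^ (k + 1) * h2

theorem pascal2 {n k : ℕ} (h : k ≤ n) : gb Q (n + 1) (k + 1) = gb Q n (k + 1) +
    Q ^ (n - k) * gb Q n k := by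
  have h1 := gb_shift hQ n k
  have h2 := gb_step hQ n k
  have h3 := hQ (k + 1) (Nat.succ_pos k)
  apply mul_right_cancel₀ h3
  have h4 : Q ^ (n + 1) = Q ^ (k + 1) * Q ^ (n - k) := by rw [← pow_add]; congr 1; omega
  rw [h4] at h1
  linear_combination h1 - h2

theorem gb_self (n : ℕ) : gb Q n n = 1 := by
  induction n with
  | zero => exact gb_zero Q 0
  | succ n ih =>
    have h1 := gb_shift hQ n n
    have h3 := hQ (n + 1) (Nat.succ_pos n)
    apply mul_right_cancel₀ h3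
    rw [h1, ih]; ring

theorem gb_symm {n k l : ℕ} (h : k + l = n) : gb Q n k = gb Q n l := by
  induction n generalizing k l with
  | zero =>
    obtain ⟨rfl, rfl⟩ : k = 0 ∧ l = 0 := by omega
    rfl
  | succ n ih =>
    rcases Nat.eq_zero_or_pos k with hk | hk
    · subst hk
      rw [show l = n + 1 by omega, gb_zero, gb_self hQ]
    · rcases Nat.eq_zero_or_pos l with hl | hl
      · subst hl
        rw [show k = n + 1 by omega, gb_zero, gb_self hQ]
      · obtain ⟨k', rfl⟩ : ∃ k', k = k' + 1 := ⟨k - 1, by omega⟩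
        obtain ⟨l', rfl⟩ : ∃ l', l = l' + 1 := ⟨l - 1, by omega⟩
        rw [pascal1 hQ n k', pascal2 hQ (show l' ≤ n by omega), ih (show k' + (l' + 1) = n by omega),
          ih (show (k' + 1) + l' = n by omega), show n - l' = k' + 1 by omega]

/-- the numerator -/
noncomputable def E (Q : K) (n : ℕ) : K⟦X⟧ := mk fun j => Q ^ (j * (j - 1) / 2) * gb Q n j

/-- the inverse of the denominator -/
noncomputable def H (Q : K) (n : ℕ) : K⟦X⟧ := mk fun s => gb Q (s + n) n

omit hQ in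
theorem tri (j : ℕ) : (j + 1) * (j + 1 - 1) / 2 = j * (j - 1) / 2 + j := by
  rcases j with _ | j
  · rfl
  · rw [show (j + 1 + 1) * (j + 1 + 1 - 1) = (j + 1) * (j + 1 - 1) + (j + 1) * 2 by
      simp only [Nat.add_sub_cancel]; ring, Nat.add_mul_div_right _ _ two_pos]

theorem E_succ (n : ℕ) : E Q (n + 1) = E Q n * (1 + C (Q ^ n) * X) := by
  ext j
  rw [mul_add, mul_one, map_add]
  rcases j with _ | j
  · simp [E, gb_zero]
  · have h1 : coeff (j + 1) (E Q n * (C (Q ^ n) * X)) = Q ^ n * coeff j (E Q n) := by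
      rw [show E Q n * (C (Q ^ n) * X) = (C (Q ^ n) * E Q n) * X by ring, coeff_succ_mul_X,
        coeff_C_mul]
    rw [h1]
    simp only [E, coeff_mk]
    rw [tri]
    rcases Nat.lt_or_ge n j with h | h
    · rw [gb_lt Q (show n + 1 < j + 1 by omega), gb_lt Q (show n < j + 1 by omega), gb_lt Q h]
      ring
    · rw [pascal2 hQ h]
      have h4 : Q ^ n = Q ^ (n - j) * Q ^ j := by rw [← pow_add]; congr 1; omega
      rw [h4, pow_add]
      ring

theorem H_succ (n : ℕ) : H Q (n + 1) * (1 - C (Q ^ (n + 1)) * X) = H Q n := by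
  ext s
  rw [mul_sub, mul_one, map_sub]
  rcases s with _ | s
  · simp [H, gb_self hQ]
  · have h1 : coeff (s + 1) (H Q (n + 1) * (C (Q ^ (n + 1)) * X)) =
        Q ^ (n + 1) * coeff s (H Q (n + 1)) := by
      rw [show H Q (n + 1) * (C (Q ^ (n + 1)) * X) = (C (Q ^ (n + 1)) * H Q (n + 1)) * X by ring,
        coeff_succ_mul_X, coeff_C_mul]
    rw [h1]
    simp only [H, coeff_mk]
    have h2 := pascal1 hQ (s + n + 1) n
    rw [show s + 1 + (n + 1) = s + n + 1 + 1 by ring, h2, show s + (n + 1) = s + n + 1 by ring,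
      show s + 1 + n = s + n + 1 by ring]
    ring

/-- the generating function -/
noncomputable def G (Q : K) (n : ℕ) : K⟦X⟧ := mk fun m => D Q m n

omit hQ in
theorem D_eq (m n : ℕ) {M : ℕ} (hM : min m n + 1 ≤ M) : D Q m n = ∑ j ∈ range M,
    (if j ≤ m then Q ^ (j * (j - 1) / 2) * gb Q n j * gb Q (m + n - j) n else 0) := by
  unfold D
  have h1 : ∑ j ∈ range (n + 1), Q ^ (j * (j - 1) / 2) * gb Q n j * gb Q (m + n - j) n =
      ∑ j ∈ range (n + 1), (if j ≤ m then Q ^ (j * (j - 1) / 2) * gb Q n j * gb Q (m + n - j) n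
        else 0) := by
    apply sum_congr rfl
    intro j hj
    have := mem_range.1 hj
    split_ifs with h
    · rfl
    · rw [gb_lt Q (show m + n - j < n by omega)]; ring
  rw [h1]
  rcases le_total (n + 1) M with h | h
  · apply sum_subset (range_mono h)
    intro j _ hj
    rw [mem_range, not_lt] at hj
    rw [gb_lt Q (show n < j by omega)]
    simp
  · symm
    apply sum_subset (range_mono h)
    intro j hj1 hj
    rw [mem_range, not_lt] at hj
    rw [mem_range] at hj1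
    rw [if_neg (by omega)]

omit hQ in
theorem G_eq (n : ℕ) : G Q n = E Q n * H Q n := by
  ext m
  rw [coeff_mul, Finset.Nat.sum_antidiagonal_eq_sum_range_succ_mk]
  simp only [G, E, H, coeff_mk]
  rw [D_eq m n (show min m n + 1 ≤ m + 1 by omega)]
  apply sum_congr rfl
  intro j hj
  have := mem_range.1 hj
  rw [if_pos (by omega), show m - j + n = m + n - j by omega]

theorem G_step (n : ℕ) : G Q (n + 1) * (1 - C (Q ^ (n + 1)) * X) = G Q n * (1 + C (Q ^ n) * X) := by
  rw [G_eq, G_eq, mul_assoc, H_succ hQ, E_succ hQ]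
  ring

/-- the two-dimensional recurrence -/
theorem D_rec2 (m n : ℕ) : D Q (m + 1) (n + 1) = Q ^ (n + 1) * D Q m (n + 1) + D Q (m + 1) n +
    Q ^ n * D Q m n := by
  have h := congrArg (coeff (m + 1)) (G_step hQ n)
  rw [mul_sub, mul_add, mul_one, mul_one, map_sub, map_add,
    show G Q (n + 1) * (C (Q ^ (n + 1)) * X) = (C (Q ^ (n + 1)) * G Q (n + 1)) * X by ring,
    show G Q n * (C (Q ^ n) * X) = (C (Q ^ n) * G Q n) * X by ring, coeff_succ_mul_X,
    coeff_succ_mul_X, coeff_C_mul, coeff_C_mul] at h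
  simp only [G, coeff_mk] at h
  linear_combination h

theorem D_zero_left (n : ℕ) : D Q 0 n = 1 := by
  rw [D_eq 0 n (show min 0 n + 1 ≤ 1 by omega)]
  simp [gb_zero, gb_self hQ]

omit hQ in
theorem D_zero_right (m : ℕ) : D Q m 0 = 1 := by
  simp [D, gb_zero]

/-- the numbers `(1-Q)(1-Q^2)...(1-Q^k)` -/
def ph (Q : K) (k : ℕ) : K := ∏ i ∈ range k, (1 - Q ^ (i + 1))

theorem ph_ne (k : ℕ) : ph Q k ≠ 0 := prod_ne_zero_iff.2 fun i _ => hQ (i + 1) (Nat.succ_pos i)

omit hQ in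
theorem ph_succ (k : ℕ) : ph Q (k + 1) = ph Q k * (1 - Q ^ (k + 1)) := by
  unfold ph; rw [prod_range_succ]

theorem gb_ph {n k : ℕ} (h : k ≤ n) : gb Q n k * (ph Q k * ph Q (n - k)) = ph Q n := by
  induction k with
  | zero => rw [gb_zero]; simp [ph]
  | succ k ih =>
    have h1 := gb_step hQ n k
    have h2 := ih (by omega)
    rw [ph_succ]
    rw [show n - k = (n - (k + 1)) + 1 by omega, ph_succ,
      show n - (k + 1) + 1 = n - k by omega] at h2
    linear_combination (ph Q k * ph Q (n - (k + 1))) * h1 + h2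

theorem D_symm (m n : ℕ) : D Q m n = D Q n m := by
  rw [D_eq m n (show min m n + 1 ≤ min m n + 1 by omega),
    D_eq n m (show min n m + 1 ≤ min m n + 1 by omega)]
  apply sum_congr rfl
  intro j hj
  have hj' := mem_range.1 hj
  have h1 : j ≤ m := by omega
  have h2 : j ≤ n := by omega
  rw [if_pos h1, if_pos h2, mul_assoc, mul_assoc]
  congr 1
  have e1 := gb_ph hQ h2
  have e2 := gb_ph hQ (show n ≤ m + n - j by omega)
  have e3 := gb_ph hQ h1
  have e4 := gb_ph hQ (show m ≤ n + m - j by omega)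
  rw [show m + n - j - n = m - j by omega] at e2
  rw [show n + m - j - m = n - j by omega] at e4
  rw [show n + m - j = m + n - j by omega] at e4 ⊢
  have n1 := ph_ne hQ j
  have n2 := ph_ne hQ (n - j)
  have n3 := ph_ne hQ (m - j)
  have n4 := ph_ne hQ n
  have n5 := ph_ne hQ m
  have f1 : gb Q n j = ph Q n / (ph Q j * ph Q (n - j)) := by
    rw [eq_div_iff (mul_ne_zero n1 n2)]; exact e1
  have f2 : gb Q (m + n - j) n = ph Q (m + n - j) / (ph Q n * ph Q (m - j)) := by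
    rw [eq_div_iff (mul_ne_zero n4 n3)]; exact e2
  have f3 : gb Q m j = ph Q m / (ph Q j * ph Q (m - j)) := by
    rw [eq_div_iff (mul_ne_zero n1 n3)]; exact e3
  have f4 : gb Q (m + n - j) m = ph Q (m + n - j) / (ph Q m * ph Q (n - j)) := by
    rw [eq_div_iff (mul_ne_zero n5 n2)]; exact e4
  rw [f1, f2, f3, f4]
  field_simp

theorem D_rec2' (m n : ℕ) : D Q (m + 1) (n + 1) = Q ^ (m + 1) * D Q (m + 1) n + D Q m (n + 1) +
    Q ^ m * D Q m n := by
  have h := D_rec2 hQ n m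
  rw [D_symm hQ (n + 1) (m + 1), D_symm hQ n (m + 1), D_symm hQ (n + 1) m, D_symm hQ n m] at h
  exact h

theorem D_cross (m n : ℕ) : (1 - Q ^ (n + 1)) * D Q m (n + 1) =
    (1 - Q ^ (m + 1)) * D Q (m + 1) n + (Q ^ n - Q ^ m) * D Q m n := by
  linear_combination D_rec2 hQ m n - D_rec2' hQ m n

/-- the three-term recurrence -/
theorem D_rec (m n : ℕ) : (1 - Q ^ (n + 2)) * D Q m (n + 2) =
    ((1 - Q ^ m) + Q ^ (n + 1) * (1 - Q ^ (m + 1))) * D Q m (n + 1) +
      Q ^ m * (1 - Q ^ (n + 1)) * D Q m n := by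
  have h1 := D_cross hQ m (n + 1)
  have h2 := D_cross hQ m n
  have h3 := D_rec2 hQ m n
  linear_combination h1 + (1 - Q ^ (m + 1)) * h3 - h2

theorem D_one (m : ℕ) : (1 - Q) * D Q m 1 = (1 - Q ^ m) + (1 - Q ^ (m + 1)) := by
  have h := D_cross hQ m 0
  rw [zero_add, D_zero_right, D_zero_right] at h
  linear_combination h

theorem gb_mem (S : Subring K) (hS : Q ∈ S) (n k : ℕ) : gb Q n k ∈ S := by
  induction n generalizing k with
  | zero =>
    rcases k with _ | k
    · rw [gb_zero]; exact S.one_mem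
    · rw [gb_lt Q (Nat.succ_pos k)]; exact S.zero_mem
  | succ n ih =>
    rcases k with _ | k
    · rw [gb_zero]; exact S.one_mem
    · rw [pascal1 hQ]
      exact S.add_mem (ih k) (S.mul_mem (S.pow_mem hS _) (ih (k + 1)))

theorem D_mem (S : Subring K) (hS : Q ∈ S) (m n : ℕ) : D Q m n ∈ S :=
  S.sum_mem fun _ _ => S.mul_mem (S.mul_mem (S.pow_mem hS _) (gb_mem hQ S hS _ _))
    (gb_mem hQ S hS _ _)

end

section

variable {q : K} (hq0 : q ≠ 0) (hq : ∀ i, 0 < i → 1 - q ^ i ≠ 0)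
include hq0 hq

theorem inv_ne : ∀ i, 0 < i → 1 - (q⁻¹) ^ i ≠ 0 := by
  intro i hi h
  apply hq i hi
  have h1 : q ^ i * (q⁻¹) ^ i = 1 := by rw [← mul_pow, mul_inv_cancel₀ hq0, one_pow]
  linear_combination (-q ^ i) * h - h1

theorem B_rec (m n : ℕ) : q ^ m * (1 - q ^ (n + 2)) * D q⁻¹ m (n + 2) =
    (q ^ (n + 2) * (1 - q ^ m) + (1 - q ^ (m + 1))) * D q⁻¹ m (n + 1) +
      q * (1 - q ^ (n + 1)) * D q⁻¹ m n := by
  have h := D_rec (inv_ne hq0 hq) m n
  have h1 : q * q⁻¹ = 1 := mul_inv_cancel₀ hq0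
  have h2 : q ^ m * (q⁻¹) ^ m = 1 := by rw [← mul_pow, h1, one_pow]
  have h3 : q ^ n * (q⁻¹) ^ n = 1 := by rw [← mul_pow, h1, one_pow]
  simp only [pow_add, pow_one, pow_two] at h ⊢
  have hm : q ^ m ≠ 0 := pow_ne_zero _ hq0
  have hn : q ^ n ≠ 0 := pow_ne_zero _ hq0
  have e2 : (q⁻¹) ^ m = (q ^ m)⁻¹ := by rw [inv_pow]
  have e3 : (q⁻¹) ^ n = (q ^ n)⁻¹ := by rw [inv_pow]
  rw [e2, e3] at h
  generalize q ^ m = M at *
  generalize q ^ n = N at *
  generalize D q⁻¹ m (n + 2) = a at *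
  generalize D q⁻¹ m (n + 1) = b at *
  generalize D q⁻¹ m n = c at *
  field_simp at h
  linear_combination (-1 : K) * h

theorem B_one (m : ℕ) : q ^ m * (1 - q) * D q⁻¹ m 1 = q * (1 - q ^ m) + (1 - q ^ (m + 1)) := by
  have h := D_one (inv_ne hq0 hq) m
  have hm : q ^ m ≠ 0 := pow_ne_zero _ hq0
  rw [pow_succ, inv_pow] at h
  rw [pow_succ]
  generalize q ^ m = M at *
  generalize D q⁻¹ m 1 = b at *
  field_simp at h
  linear_combination (-1 : K) * h

/-- the sum -/
def Z (q : K) (m N : ℕ) : K :=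
  ∑ j ∈ range N, (1 - q ^ (2 * j + 1)) * (q⁻¹) ^ j * (D q m j * D q⁻¹ m j)

/-- the bilinear form -/
def W (q : K) (m n : ℕ) : K := (1 - q) * q ^ m * (D q m (n + 1) * D q⁻¹ m (n + 1) +
    D q m n * D q⁻¹ m n) - (1 + q - 2 * q ^ (m + 1)) * (D q m (n + 1) * D q⁻¹ m n) -
    q ^ m * (2 - q ^ m - q ^ (m + 1)) * (D q m n * D q⁻¹ m (n + 1))

theorem closed (m n : ℕ) : 2 * (1 + q) * (1 - q ^ m) * (1 - q ^ (m + 1)) * q ^ n * Z q m (n + 1) =
    -(1 - q ^ (n + 1)) ^ 2 * W q m n := by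
  induction n with
  | zero =>
    have hA := D_one hq m
    have hB := B_one hq0 hq m
    have hm : q ^ m ≠ 0 := pow_ne_zero _ hq0
    have h1 : (1 : K) - q ≠ 0 := by simpa using hq 1 one_pos
    unfold Z W
    rw [sum_range_one]
    simp only [zero_add, mul_zero, pow_zero, D_zero_right, mul_one]
    have eA : D q m 1 = ((1 - q ^ m) + (1 - q ^ (m + 1))) / (1 - q) := by
      rw [eq_div_iff h1]; linear_combination hA
    have eB : D q⁻¹ m 1 = (q * (1 - q ^ m) + (1 - q ^ (m + 1))) / (q ^ m * (1 - q)) := by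
      rw [eq_div_iff (mul_ne_zero hm h1)]; linear_combination hB
    rw [eA, eB, pow_succ]
    generalize q ^ m = M at *
    field_simp
    ring
  | succ n ih =>
    have hA := D_rec hq m n
    have hB := B_rec hq0 hq m n
    have hm : q ^ m ≠ 0 := pow_ne_zero _ hq0
    have hn : q ^ n ≠ 0 := pow_ne_zero _ hq0
    have h2 := hq (n + 2) (by omega)
    have e1 : Z q m (n + 1 + 1) = Z q m (n + 1) + (1 - q ^ (2 * (n + 1) + 1)) * (q⁻¹) ^ (n + 1) *
        (D q m (n + 1) * D q⁻¹ m (n + 1)) := by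
      unfold Z; rw [sum_range_succ]
    have h3 : q ^ (n + 1) * (q⁻¹) ^ (n + 1) = 1 := by
      rw [← mul_pow, mul_inv_cancel₀ hq0, one_pow]
    have e2 : 2 * (1 + q) * (1 - q ^ m) * (1 - q ^ (m + 1)) * q ^ (n + 1) * Z q m (n + 1 + 1) =
        q * (-(1 - q ^ (n + 1)) ^ 2 * W q m n) + 2 * (1 + q) * (1 - q ^ m) * (1 - q ^ (m + 1)) *
          ((1 - q ^ (2 * (n + 1) + 1)) * (D q m (n + 1) * D q⁻¹ m (n + 1))) := by
      rw [← ih, e1]
      have e4 : q ^ (n + 1) = q ^ n * q := pow_succ q n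
      rw [e4] at h3 ⊢
      linear_combination (2 * (1 + q) * (1 - q ^ m) * (1 - q ^ (m + 1)) *
        ((1 - q ^ (2 * (n + 1) + 1)) * (D q m (n + 1) * D q⁻¹ m (n + 1)))) * h3
    rw [e2]
    unfold W
    rw [show n + 1 + 1 = n + 2 by ring]
    have e3 : q ^ (2 * (n + 1) + 1) = (q ^ n) ^ 2 * q ^ 3 := by
      rw [← pow_mul, ← pow_add]; congr 1; ring
    rw [e3]
    rw [show q ^ (n + 2) = q ^ n * q ^ 2 by rw [pow_add]] at hA hB h2 ⊢
    rw [show q ^ (n + 1) = q ^ n * q by rw [pow_succ]] at hA hB ⊢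
    rw [show q ^ (m + 1) = q ^ m * q by rw [pow_succ]] at hA hB ⊢
    generalize q ^ m = M at *
    generalize q ^ n = N at *
    generalize D q m (n + 1) = a at *
    generalize D q m n = a' at *
    generalize D q⁻¹ m (n + 1) = b at *
    generalize D q⁻¹ m n = b' at *
    linear_combination ((1 - q) * (M * (1 - N * q ^ 2) * D q⁻¹ m (n + 2)) -
      (1 + q - 2 * (M * q)) * (1 - N * q ^ 2) * b) * hA +
      ((1 - q) * (((1 - M) + N * q * (1 - M * q)) * a + M * (1 - N * q) * a') -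
      (2 - M - M * q) * (1 - N * q ^ 2) * a) * hB

end

end Q278.QDel
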