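import Pool.Agent.Q278.QDel

set_option autoImplicit false

/-! The values of the `q`-Delannoy numbers at roots of unity. -/

namespace Q278.QDel

open Finset Q278.Loc Q278.Unit Q278.Cyc Q278.Blk

/-- a Gaussian binomial coefficient at a root of unity -/
theorem gb_ev {ζ : ℂ} {p : ℕ} (hp : p.Prime) (hζ : IsPrimitiveRoot ζ p)
    {Q : RatFunc ℚ} {ω : ℂ} (hω : IsPrimitiveRoot ω p) (hQm : Q ∈ Reg ζ) (hQ : ev ζ Q = ω)
    (t r : ℕ) (hr : r < p) : ev ζ (gb Q (p * t + r) (p - 1)) = if r = p - 1 then 1 else 0 := by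
  have hp1 := hp.one_lt
  have hpow : ∀ k, ev ζ (1 - Q ^ k) = 1 - ω ^ k := by
    intro k
    rw [ev_sub (Reg ζ).one_mem ((Reg ζ).pow_mem hQm k), ev_one, ev_pow hQm, hQ]
  have hmem : ∀ k, 1 - Q ^ k ∈ Reg ζ := fun k =>
    (Reg ζ).sub_mem (Reg ζ).one_mem ((Reg ζ).pow_mem hQm k)
  have hne : ∀ k, ¬ p ∣ k → (1 : ℂ) - ω ^ k ≠ 0 := by
    intro k hk h
    exact hk ((hω.pow_eq_one_iff_dvd k).1 (sub_eq_zero.1 h).symm)
  have hne' : ∀ i ∈ range (p - 1), ev ζ (1 - Q ^ (i + 1)) ≠ 0 := by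
    intro i hi
    have := mem_range.1 hi
    rw [hpow]
    apply hne
    intro h
    have := Nat.le_of_dvd (Nat.succ_pos i) h
    omega
  unfold gb
  rw [ev_prod (fun i hi => by
    rw [div_eq_mul_inv]; exact (Reg ζ).mul_mem (hmem _) (inv_mem (hmem _) (hne' i hi)))]
  have e1 : ∀ i ∈ range (p - 1), ev ζ ((1 - Q ^ (p * t + r - i)) / (1 - Q ^ (i + 1))) =
      (1 - ω ^ (p * t + r - i)) / (1 - ω ^ (i + 1)) := by
    intro i hi
    rw [ev_div (hmem _) (hmem _) (hne' i hi), hpow, hpow]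
  rw [prod_congr rfl e1]
  split_ifs with h
  · subst h
    rw [prod_div_distrib]
    have e2 : ∏ i ∈ range (p - 1), (1 - ω ^ (p * t + (p - 1) - i)) =
        ∏ i ∈ range (p - 1), (1 - ω ^ (i + 1)) := by
      rw [← prod_range_reflect]
      apply prod_congr rfl
      intro i hi
      have := mem_range.1 hi
      rw [show p * t + (p - 1) - (p - 1 - 1 - i) = p * t + (i + 1) by omega, pow_add, pow_mul,
        hω.pow_eq_one, one_pow, one_mul]
    rw [e2, div_self]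
    rw [prod_ne_zero_iff]
    intro i hi
    rw [← hpow]
    exact hne' i hi
  · apply prod_eq_zero (mem_range.2 (show r < p - 1 by omega))
    rw [show p * t + r - r = p * t by omega, pow_mul, hω.pow_eq_one, one_pow, sub_self, zero_div]

section

variable {ζ : ℂ} {p : ℕ} (hp : p.Prime) (h2 : p ≠ 2) (hζ : IsPrimitiveRoot ζ p)
  {Q : RatFunc ℚ} {ω : ℂ} (hω : IsPrimitiveRoot ω p) (hQm : Q ∈ Reg ζ) (hQ : ev ζ Q = ω)
  (hQn : ∀ i, 0 < i → 1 - Q ^ i ≠ 0)
include hp hζ hω hQm hQ hQn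

theorem ev_mult (t : ℕ) : ev ζ (D Q (p * t) (p - 1)) = 1 := by
  have hp1 := hp.one_lt
  unfold D
  have hm := gb_mem hQn (Reg ζ) hQm
  rw [ev_sum (fun j _ => (Reg ζ).mul_mem ((Reg ζ).mul_mem ((Reg ζ).pow_mem hQm _) (hm _ _))
    (hm _ _)), sum_eq_single_of_mem 0 (mem_range.2 (by omega))]
  · rw [gb_zero, pow_zero, one_mul, one_mul, Nat.sub_zero,
      gb_ev hp hζ hω hQm hQ t (p - 1) (by omega), if_pos rfl]
  · intro j hj hj0
    have := mem_range.1 hj
    rw [ev_mul ((Reg ζ).mul_mem ((Reg ζ).pow_mem hQm _) (hm _ _)) (hm _ _),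
      show p * t + (p - 1) - j = p * t + (p - 1 - j) by omega,
      gb_ev hp hζ hω hQm hQ t (p - 1 - j) (by omega), if_neg (by omega), mul_zero]

theorem ev_step (m : ℕ) (hm : ¬ p ∣ m + 1) :
    ev ζ (D Q (m + 1) (p - 1)) = -ω⁻¹ * ev ζ (D Q m (p - 1)) := by
  have hp1 := hp.one_lt
  have hω0 : ω ≠ 0 := hω.ne_zero hp.ne_zero
  have hD := D_mem hQn (Reg ζ) hQm
  have h := D_cross hQn m (p - 1)
  rw [show p - 1 + 1 = p by omega] at h
  have h1 := congrArg (ev ζ) h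
  have hpm : ∀ k, Q ^ k ∈ Reg ζ := fun k => (Reg ζ).pow_mem hQm k
  have h1m : ∀ k, 1 - Q ^ k ∈ Reg ζ := fun k => (Reg ζ).sub_mem (Reg ζ).one_mem (hpm k)
  rw [ev_mul (h1m _) (hD _ _), ev_add ((Reg ζ).mul_mem (h1m _) (hD _ _))
    ((Reg ζ).mul_mem ((Reg ζ).sub_mem (hpm _) (hpm _)) (hD _ _)), ev_mul (h1m _) (hD _ _),
    ev_mul ((Reg ζ).sub_mem (hpm _) (hpm _)) (hD _ _), ev_sub (Reg ζ).one_mem (hpm _),
    ev_sub (Reg ζ).one_mem (hpm _), ev_sub (hpm _) (hpm _), ev_pow hQm, ev_pow hQm, ev_pow hQm,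
    ev_pow hQm, hQ, ev_one, hω.pow_eq_one, sub_self, zero_mul] at h1
  have e1 : ω ^ (p - 1) = ω⁻¹ := by
    apply eq_inv_of_mul_eq_one_left
    rw [← pow_succ, show p - 1 + 1 = p by omega, hω.pow_eq_one]
  rw [e1] at h1
  have hne : (1 : ℂ) - ω ^ (m + 1) ≠ 0 := by
    intro h
    exact hm ((hω.pow_eq_one_iff_dvd _).1 (sub_eq_zero.1 h).symm)
  apply mul_left_cancel₀ hne
  have e2 : ω * ω⁻¹ = 1 := mul_inv_cancel₀ hω0
  rw [pow_succ] at h1 ⊢
  linear_combination (-1 : ℂ) * h1 - ω ^ m * ev ζ (D Q m (p - 1)) * e2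

theorem ev_small (t r : ℕ) (hr : r < p) :
    ev ζ (D Q (p * t + r) (p - 1)) = (-ω⁻¹) ^ r := by
  induction r with
  | zero => rw [add_zero, pow_zero]; exact ev_mult hp hζ hω hQm hQ hQn t
  | succ r ih =>
    rw [← add_assoc, ev_step hp hζ hω hQm hQ hQn, ih (by omega), pow_succ]
    · ring
    · intro h
      rw [add_assoc] at h
      have h1 := (Nat.dvd_add_right (dvd_mul_right p t)).1 h
      have := Nat.le_of_dvd (Nat.succ_pos r) h1
      omega

theorem ev_p_step (m : ℕ) : ev ζ (D Q (m + 1) p) = ev ζ (D Q m p) + ev ζ (D Q (m + 1) (p - 1)) +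
    ω⁻¹ * ev ζ (D Q m (p - 1)) := by
  have hp1 := hp.one_lt
  have hD := D_mem hQn (Reg ζ) hQm
  have h := D_rec2 hQn m (p - 1)
  rw [show p - 1 + 1 = p by omega] at h
  have hpm : ∀ k, Q ^ k ∈ Reg ζ := fun k => (Reg ζ).pow_mem hQm k
  rw [h, ev_add ((Reg ζ).add_mem ((Reg ζ).mul_mem (hpm _) (hD _ _)) (hD _ _))
    ((Reg ζ).mul_mem (hpm _) (hD _ _)), ev_add ((Reg ζ).mul_mem (hpm _) (hD _ _)) (hD _ _),
    ev_mul (hpm _) (hD _ _), ev_mul (hpm _) (hD _ _), ev_pow hQm, ev_pow hQm, hQ, hω.pow_eq_one,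
    one_mul]
  have e1 : ω ^ (p - 1) = ω⁻¹ := by
    apply eq_inv_of_mul_eq_one_left
    rw [← pow_succ, show p - 1 + 1 = p by omega, hω.pow_eq_one]
  rw [e1]

include h2 in
theorem ev_p (t r : ℕ) (hr : r < p) : ev ζ (D Q (p * t + r) p) = 1 + 2 * t := by
  have hp1 := hp.one_lt
  have hω0 : ω ≠ 0 := hω.ne_zero hp.ne_zero
  induction t generalizing r with
  | zero =>
    induction r with
    | zero => rw [mul_zero, add_zero, D_zero_left hQn, ev_one]; simp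
    | succ r ih =>
      rw [← add_assoc, ev_p_step hp hζ hω hQm hQ hQn, ih (by omega),
        add_assoc (p * 0) r 1, ev_small hp hζ hω hQm hQ hQn 0 (r + 1) hr,
        ev_small hp hζ hω hQm hQ hQn 0 r (by omega), pow_succ]
      ring
  | succ t ih =>
    induction r with
    | zero =>
      rw [show p * (t + 1) + 0 = p * t + (p - 1) + 1 by rw [mul_add]; omega,
        ev_p_step hp hζ hω hQm hQ hQn, ih (p - 1) (by omega),
        show p * t + (p - 1) + 1 = p * (t + 1) by rw [mul_add]; omega,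
        ev_mult hp hζ hω hQm hQ hQn, ev_small hp hζ hω hQm hQ hQn t (p - 1) (by omega)]
      have hev : Even (p - 1) := hp.even_sub_one h2
      rw [hev.neg_pow]
      have e1 : ω⁻¹ * ω⁻¹ ^ (p - 1) = 1 := by
        rw [← pow_succ', show p - 1 + 1 = p by omega, inv_pow, hω.pow_eq_one, inv_one]
      rw [e1]; push_cast; ring
    | succ r ih2 =>
      rw [← add_assoc, ev_p_step hp hζ hω hQm hQ hQn, ih2 (by omega),
        add_assoc (p * (t + 1)) r 1, ev_small hp hζ hω hQm hQ hQn (t + 1) (r + 1) hr,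
        ev_small hp hζ hω hQm hQ hQn (t + 1) r (by omega), pow_succ]
      ring

end

end Q278.QDel
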