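import Pool.Agent.Q278.QDel2
import Pool.Agent.Q278.Laurent

set_option autoImplicit false

/-! The sum of products of `q`-Delannoy numbers modulo the square of `[p]`. -/

namespace Q278.QDel

open Finset Q278.Loc Q278.Unit Q278.Cyc Q278.Blk

variable {ζ : ℂ} {p : ℕ} (hp : p.Prime) (h2 : p ≠ 2) (hζ : IsPrimitiveRoot ζ p)
include hp h2 hζ

omit h2 in
theorem W_mem (m : ℕ) : W q m (p - 1) ∈ Reg ζ := by
  have hζ0 : ζ ≠ 0 := hζ.ne_zero hp.ne_zero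
  have hq : ∀ i, 0 < i → (1 : RatFunc ℚ) - q ^ i ≠ 0 := fun i hi => one_sub_q_ne hi
  have hA := D_mem hq (Reg ζ) (X_mem ζ)
  have hqi : q⁻¹ ∈ Reg ζ := by simpa using qi_mem hζ0 1
  have hB := D_mem (inv_ne q_ne hq) (Reg ζ) hqi
  have h2m : (2 : RatFunc ℚ) ∈ Reg ζ := by exact_mod_cast nat_O (K := RatFunc ℚ) (O := Reg ζ) 2
  have hX := X_mem ζ
  have hpw := q_pow_mem ζ
  unfold W
  refine (Reg ζ).sub_mem ((Reg ζ).sub_mem ?_ ?_) ?_
  · exact (Reg ζ).mul_mem ((Reg ζ).mul_mem ((Reg ζ).sub_mem (Reg ζ).one_mem hX) (hpw m))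
      ((Reg ζ).add_mem ((Reg ζ).mul_mem (hA _ _) (hB _ _)) ((Reg ζ).mul_mem (hA _ _) (hB _ _)))
  · exact (Reg ζ).mul_mem ((Reg ζ).sub_mem ((Reg ζ).add_mem (Reg ζ).one_mem hX)
      ((Reg ζ).mul_mem h2m (hpw _))) ((Reg ζ).mul_mem (hA _ _) (hB _ _))
  · exact (Reg ζ).mul_mem ((Reg ζ).mul_mem (hpw m) ((Reg ζ).sub_mem ((Reg ζ).sub_mem h2m (hpw m))
      (hpw _))) ((Reg ζ).mul_mem (hA _ _) (hB _ _))

omit h2 in
theorem ev_W (m : ℕ) {a a' b b' : ℂ} (ha : ev ζ (D q m p) = a) (ha' : ev ζ (D q m (p - 1)) = a')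
    (hb : ev ζ (D q⁻¹ m p) = b) (hb' : ev ζ (D q⁻¹ m (p - 1)) = b') :
    ev ζ (W q m (p - 1)) = (1 - ζ) * ζ ^ m * (a * b + a' * b') -
      (1 + ζ - 2 * ζ ^ (m + 1)) * (a * b') - ζ ^ m * (2 - ζ ^ m - ζ ^ (m + 1)) * (a' * b) := by
  have hζ0 : ζ ≠ 0 := hζ.ne_zero hp.ne_zero
  have hp1 := hp.one_lt
  have hq : ∀ i, 0 < i → (1 : RatFunc ℚ) - q ^ i ≠ 0 := fun i hi => one_sub_q_ne hi
  have hA := D_mem hq (Reg ζ) (X_mem ζ)
  have hqi : q⁻¹ ∈ Reg ζ := by simpa using qi_mem hζ0 1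
  have hB := D_mem (inv_ne q_ne hq) (Reg ζ) hqi
  have h2m : (2 : RatFunc ℚ) ∈ Reg ζ := by exact_mod_cast nat_O (K := RatFunc ℚ) (O := Reg ζ) 2
  have h2e : ev ζ (2 : RatFunc ℚ) = 2 := by exact_mod_cast ev_nat ζ 2
  have hX := X_mem ζ
  have hpw := q_pow_mem ζ
  have key : ∀ x y z u : Reg ζ, ∀ (k l : ℕ), ev ζ ((1 - q) * q ^ k * (x.1 * y.1 + z.1 * u.1) -
      (1 + q - 2 * q ^ l) * (x.1 * u.1) - q ^ k * (2 - q ^ k - q ^ l) * (z.1 * y.1)) =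
      (1 - ζ) * ζ ^ k * (ev ζ x.1 * ev ζ y.1 + ev ζ z.1 * ev ζ u.1) -
      (1 + ζ - 2 * ζ ^ l) * (ev ζ x.1 * ev ζ u.1) - ζ ^ k * (2 - ζ ^ k - ζ ^ l) *
      (ev ζ z.1 * ev ζ y.1) := by
    intro x y z u k l
    set Xq : Reg ζ := ⟨q, hX⟩
    have h : evHom ζ ((1 - Xq) * Xq ^ k * (x * y + z * u) -
      (1 + Xq - 2 * Xq ^ l) * (x * u) - Xq ^ k * (2 - Xq ^ k - Xq ^ l) * (z * y)) =
      (1 - evHom ζ Xq) * evHom ζ Xq ^ k * (evHom ζ x * evHom ζ y + evHom ζ z * evHom ζ u) -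
      (1 + evHom ζ Xq - 2 * evHom ζ Xq ^ l) * (evHom ζ x * evHom ζ u) -
      evHom ζ Xq ^ k * (2 - evHom ζ Xq ^ k - evHom ζ Xq ^ l) * (evHom ζ z * evHom ζ y) := by
      simp only [map_sub, map_add, map_mul, map_pow, map_one, map_ofNat]
    have e1 : evHom ζ Xq = ζ := ev_X ζ
    rw [e1] at h
    exact h
  have h := key ⟨_, hA m p⟩ ⟨_, hB m p⟩ ⟨_, hA m (p - 1)⟩ ⟨_, hB m (p - 1)⟩ m (m + 1)
  simp only [ha, hb, ha', hb'] at h
  unfold W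
  rw [show p - 1 + 1 = p by omega]
  exact h

omit h2 in
theorem P_mem : 1 - q ^ p ∈ I (Reg ζ) (Φ p) 1 := by
  apply mem_I_one hp.pos hζ (one_sub_mem ζ p)
  rw [ev_one_sub, hζ.pow_eq_one, sub_self]

theorem one_add_U : U (Reg ζ) (1 + q) := by
  have h1 : (1 : RatFunc ℚ) - q ≠ 0 := by simpa using one_sub_q_ne one_pos
  have h3 : 1 + q = (1 - q ^ 2) / (1 - q ^ 1) := by
    rw [pow_one, eq_div_iff h1]; ring
  rw [h3]
  have hp2 := hp.two_le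
  refine (U_of_ev (one_sub_mem ζ 2) (one_sub_ne hζ ?_)).div
    (U_of_ev (one_sub_mem ζ 1) (one_sub_ne hζ ?_))
  · intro h; have := Nat.le_of_dvd two_pos h; omega
  · intro h; have := Nat.le_of_dvd one_pos h; omega

omit hp h2 hζ in
theorem two_U : U (Reg ζ) (2 : RatFunc ℚ) := by
  apply U_of_ev (by exact_mod_cast nat_O (K := RatFunc ℚ) (O := Reg ζ) 2)
  have : ev ζ (2 : RatFunc ℚ) = 2 := by exact_mod_cast ev_nat ζ 2
  rw [this]; norm_num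

omit h2 in
theorem sum_U {t : ℕ} (_ht : 0 < t) : (∑ i ∈ range t, (q ^ p) ^ i ∈ Reg ζ) ∧
    ev ζ (∑ i ∈ range t, (q ^ p) ^ i) = t := by
  constructor
  · exact (Reg ζ).sum_mem fun i _ => (Reg ζ).pow_mem (q_pow_mem ζ p) i
  · rw [ev_sum (fun i _ => (Reg ζ).pow_mem (q_pow_mem ζ p) i)]
    have : ∀ i ∈ range t, ev ζ ((q ^ p) ^ i) = 1 := by
      intro i _
      rw [ev_pow (q_pow_mem ζ p), ev_q_pow, hζ.pow_eq_one, one_pow]
    rw [sum_congr rfl this]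
    simp

/-- the case in which `p` does not divide `m (m + 1)` -/
theorem case3 (m : ℕ) (hm : ¬ p ∣ m * (m + 1)) :
    Z q m p / (1 - q) ∈ I (Reg ζ) (Φ p) 2 := by
  have hζ0 : ζ ≠ 0 := hζ.ne_zero hp.ne_zero
  have hp1 := hp.one_lt
  have hq : ∀ i, 0 < i → (1 : RatFunc ℚ) - q ^ i ≠ 0 := fun i hi => one_sub_q_ne hi
  have h := closed q_ne hq m (p - 1)
  rw [show p - 1 + 1 = p by omega] at h
  have hU : U (Reg ζ) (2 * (1 + q) * (1 - q ^ m) * (1 - q ^ (m + 1)) * q ^ (p - 1) * (1 - q ^ 1)) := by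
    refine ((((two_U.mul (one_add_U hp h2 hζ)).mul (U_of_ev (one_sub_mem ζ m)
      (one_sub_ne hζ ?_))).mul (U_of_ev (one_sub_mem ζ _) (one_sub_ne hζ ?_))).mul
      (U_of_ev (q_pow_mem ζ _) (ev_q_ne hζ0 _))).mul (U_of_ev (one_sub_mem ζ 1) (one_sub_ne hζ ?_))
    · intro h; exact hm (h.mul_right _)
    · intro h; exact hm (h.mul_left _)
    · intro h; have := Nat.le_of_dvd one_pos h; omega
  apply of_unit_mul hU.2.2 hU.2.1
  have h1 : (1 : RatFunc ℚ) - q ≠ 0 := by simpa using one_sub_q_ne one_pos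
  have e : 2 * (1 + q) * (1 - q ^ m) * (1 - q ^ (m + 1)) * q ^ (p - 1) * (1 - q ^ 1) *
      (Z q m p / (1 - q)) = -W q m (p - 1) * (1 - q ^ p) ^ 2 := by
    rw [pow_one]
    have e1 : (1 - q) * (Z q m p / (1 - q)) = Z q m p := mul_div_cancel₀ _ h1
    linear_combination (2 * (1 + q) * (1 - q ^ m) * (1 - q ^ (m + 1)) * q ^ (p - 1)) * e1 + h
  rw [e]
  exact mul_O ((Reg ζ).neg_mem (W_mem hp hζ m)) (pow_I (P_mem hp hζ) 2)

/-- the case in which `p` divides `m` -/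
theorem case1 {t : ℕ} (ht : 0 < t) :
    Z q (p * t) p / (1 - q) - q * (1 - (q⁻¹) ^ (2 * (p * t))) / (1 - q ^ 2) ∈
      I (Reg ζ) (Φ p) 2 := by
  have hζ0 : ζ ≠ 0 := hζ.ne_zero hp.ne_zero
  have hp1 := hp.one_lt
  have hq : ∀ i, 0 < i → (1 : RatFunc ℚ) - q ^ i ≠ 0 := fun i hi => one_sub_q_ne hi
  have h := closed q_ne hq (p * t) (p - 1)
  rw [show p - 1 + 1 = p by omega] at h
  obtain ⟨hs, hs'⟩ := sum_U hp hζ ht
  obtain ⟨hr, hr'⟩ := sum_U hp hζ (show 0 < 2 * t by omega)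
  have es : (1 - q ^ p) * ∑ i ∈ range t, (q ^ p) ^ i = 1 - q ^ (p * t) := by
    rw [mul_neg_geom_sum, ← pow_mul]
  have er : (1 - q ^ p) * ∑ i ∈ range (2 * t), (q ^ p) ^ i = 1 - q ^ (2 * (p * t)) := by
    rw [mul_neg_geom_sum, ← pow_mul]; congr 2; ring
  set s := ∑ i ∈ range t, (q ^ p) ^ i with hsdef
  set r := ∑ i ∈ range (2 * t), (q ^ p) ^ i with hrdef
  have hU : U (Reg ζ) (2 * (1 + q) * (1 - q ^ (p * t + 1)) * q ^ (p - 1) * s * (1 - q ^ 1)) := by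
    refine ((((two_U.mul (one_add_U hp h2 hζ)).mul (U_of_ev (one_sub_mem ζ _)
      (one_sub_ne hζ ?_))).mul
      (U_of_ev (q_pow_mem ζ _) (ev_q_ne hζ0 _))).mul (U_of_ev hs ?_)).mul
        (U_of_ev (one_sub_mem ζ 1) (one_sub_ne hζ ?_))
    · intro h
      have h3 := (Nat.dvd_add_right (dvd_mul_right p t)).1 h
      have := Nat.le_of_dvd one_pos h3
      omega
    · rw [hs']; exact_mod_cast ht.ne'
    · intro h; have := Nat.le_of_dvd one_pos h; omega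
  apply of_unit_mul hU.2.2 hU.2.1
  have h1 : (1 : RatFunc ℚ) - q ≠ 0 := by simpa using one_sub_q_ne one_pos
  have h12 : (1 : RatFunc ℚ) - q ^ 2 ≠ 0 := hq 2 two_pos
  have h1p : (1 : RatFunc ℚ) - q ^ p ≠ 0 := hq p hp.pos
  have hi : q ^ (2 * (p * t)) * (q⁻¹) ^ (2 * (p * t)) = 1 := by
    rw [← mul_pow, mul_inv_cancel₀ q_ne, one_pow]
  set B := W q (p * t) (p - 1) - 2 * (1 - q ^ (p * t + 1)) * q ^ p * (q⁻¹) ^ (2 * (p * t)) *
    (s * r) with hB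
  have e : 2 * (1 + q) * (1 - q ^ (p * t + 1)) * q ^ (p - 1) * s * (1 - q ^ 1) *
      (Z q (p * t) p / (1 - q) - q * (1 - (q⁻¹) ^ (2 * (p * t))) / (1 - q ^ 2)) =
      -(1 - q ^ p) * B := by
    apply mul_left_cancel₀ h1p
    have e1 : (1 - q) * (Z q (p * t) p / (1 - q)) = Z q (p * t) p := mul_div_cancel₀ _ h1
    have e2 : (1 + q) * (1 - q) * (q * (1 - (q⁻¹) ^ (2 * (p * t))) / (1 - q ^ 2)) =
        q * (1 - (q⁻¹) ^ (2 * (p * t))) := by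
      rw [show (1 + q) * (1 - q) = 1 - q ^ 2 by ring]
      exact mul_div_cancel₀ _ h12
    have e3 : q ^ p = q ^ (p - 1) * q := by rw [← pow_succ]; congr 1; omega
    have e4 : 2 * (1 - q ^ (p * t)) * (1 - q ^ (p * t + 1)) * q ^ (p - 1) *
        ((1 + q) * Z q (p * t) p - q * (1 - (q⁻¹) ^ (2 * (p * t)))) = -(1 - q ^ p) ^ 2 * B := by
      rw [hB]
      generalize (q⁻¹) ^ (2 * (p * t)) = y at *
      generalize q ^ (2 * (p * t)) = x at *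
      generalize q ^ (p * t) = z at *
      generalize q ^ (p * t + 1) = z' at *
      generalize Z q (p * t) p = Z at *
      generalize W q (p * t) (p - 1) = W at *
      have e5 : (1 - q ^ p) ^ 2 * (s * r) = (1 - z) * (1 - x) := by
        rw [← es, ← er]; ring
      have e6 : q ^ (p - 1) * q = q ^ p := e3.symm
      linear_combination h - (2 * (1 - z) * (1 - z') * (1 - y)) * e6 -
        (2 * (1 - z') * q ^ p * y) * e5 + 2 * (1 - z) * (1 - z') * q ^ p * hi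
    calc _ = 2 * (1 - q ^ (p * t)) * (1 - q ^ (p * t + 1)) * q ^ (p - 1) * ((1 + q) *
        ((1 - q) * (Z q (p * t) p / (1 - q))) -
        (1 + q) * (1 - q) * (q * (1 - (q⁻¹) ^ (2 * (p * t))) / (1 - q ^ 2))) := by
          rw [← es]; ring
      _ = _ := by rw [e1, e2, e4]; ring
  rw [e]
  have hBm : B ∈ Reg ζ := by
    refine (Reg ζ).sub_mem (W_mem hp hζ _) ((Reg ζ).mul_mem ((Reg ζ).mul_mem ((Reg ζ).mul_mem
      ((Reg ζ).mul_mem two_U.1 (one_sub_mem ζ _)) (q_pow_mem ζ _)) (qi_mem hζ0 _))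
      ((Reg ζ).mul_mem hs hr))
  have hBe : ev ζ B = 0 := by
    have hζm : ζ ^ (p * t) = 1 := by rw [pow_mul, hζ.pow_eq_one, one_pow]
    have hζm' : ζ⁻¹ ^ (2 * (p * t)) = 1 := by
      rw [inv_pow, mul_comm 2, pow_mul, hζm, one_pow, inv_one]
    have hqi : q⁻¹ ∈ Reg ζ := by simpa using qi_mem hζ0 1
    have hqe : ev ζ q⁻¹ = ζ⁻¹ := by simpa using ev_qi hζ0 1
    have a1 := ev_p hp h2 hζ hζ (X_mem ζ) (ev_X ζ) hq t 0 hp.pos
    have a2 := ev_mult hp hζ hζ (X_mem ζ) (ev_X ζ) hq t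
    have b1 := ev_p hp h2 hζ hζ.inv hqi hqe (inv_ne q_ne hq) t 0 hp.pos
    have b2 := ev_mult hp hζ hζ.inv hqi hqe (inv_ne q_ne hq) t
    rw [add_zero] at a1 b1
    have hW := ev_W hp hζ (p * t) a1 a2 b1 b2
    have h2e : ev ζ (2 : RatFunc ℚ) = 2 := by exact_mod_cast ev_nat ζ 2
    rw [hB, ev_sub (W_mem hp hζ _) ((Reg ζ).mul_mem ((Reg ζ).mul_mem ((Reg ζ).mul_mem
      ((Reg ζ).mul_mem two_U.1 (one_sub_mem ζ _)) (q_pow_mem ζ _)) (qi_mem hζ0 _))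
      ((Reg ζ).mul_mem hs hr)), hW, ev_mul ((Reg ζ).mul_mem ((Reg ζ).mul_mem
      ((Reg ζ).mul_mem two_U.1 (one_sub_mem ζ _)) (q_pow_mem ζ _)) (qi_mem hζ0 _))
      ((Reg ζ).mul_mem hs hr), ev_mul ((Reg ζ).mul_mem
      ((Reg ζ).mul_mem two_U.1 (one_sub_mem ζ _)) (q_pow_mem ζ _)) (qi_mem hζ0 _),
      ev_mul ((Reg ζ).mul_mem two_U.1 (one_sub_mem ζ _)) (q_pow_mem ζ _),
      ev_mul two_U.1 (one_sub_mem ζ _), ev_mul hs hr, hs', hr', h2e, ev_one_sub, ev_q_pow,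
      ev_qi hζ0, hζm', hζ.pow_eq_one, pow_succ, hζm]
    push_cast
    ring
  have h3 := mul_I (P_mem hp hζ) (mem_I_one hp.pos hζ hBm hBe)
  rw [neg_mul]
  exact (I _ _ _).neg_mem h3

/-- the case in which `p` divides `m + 1` -/
theorem case2 {t m : ℕ} (ht : 0 < t) (hm : m + 1 = p * t) :
    Z q m p / (1 - q) - q * (1 - q ^ (2 * m + 2)) / (1 - q ^ 2) ∈ I (Reg ζ) (Φ p) 2 := by
  have hζ0 : ζ ≠ 0 := hζ.ne_zero hp.ne_zero
  have hp1 := hp.one_lt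
  have hq : ∀ i, 0 < i → (1 : RatFunc ℚ) - q ^ i ≠ 0 := fun i hi => one_sub_q_ne hi
  have h := closed q_ne hq m (p - 1)
  rw [show p - 1 + 1 = p by omega] at h
  obtain ⟨hs, hs'⟩ := sum_U hp hζ ht
  obtain ⟨hr, hr'⟩ := sum_U hp hζ (show 0 < 2 * t by omega)
  have es : (1 - q ^ p) * ∑ i ∈ range t, (q ^ p) ^ i = 1 - q ^ (m + 1) := by
    rw [mul_neg_geom_sum, ← pow_mul, hm]
  have er : (1 - q ^ p) * ∑ i ∈ range (2 * t), (q ^ p) ^ i = 1 - q ^ (2 * m + 2) := by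
    rw [mul_neg_geom_sum, ← pow_mul]; congr 2
    rw [show 2 * m + 2 = 2 * (m + 1) by ring, hm]; ring
  set s := ∑ i ∈ range t, (q ^ p) ^ i with hsdef
  set r := ∑ i ∈ range (2 * t), (q ^ p) ^ i with hrdef
  have hndvd : ¬ p ∣ m := by
    intro h4
    have h5 : p ∣ m + 1 := ⟨t, hm⟩
    have h6 := (Nat.dvd_add_right h4).1 h5
    have := Nat.le_of_dvd one_pos h6
    omega
  have hU : U (Reg ζ) (2 * (1 + q) * (1 - q ^ m) * q ^ (p - 1) * s * (1 - q ^ 1)) := by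
    refine ((((two_U.mul (one_add_U hp h2 hζ)).mul (U_of_ev (one_sub_mem ζ _)
      (one_sub_ne hζ hndvd))).mul
      (U_of_ev (q_pow_mem ζ _) (ev_q_ne hζ0 _))).mul (U_of_ev hs ?_)).mul
        (U_of_ev (one_sub_mem ζ 1) (one_sub_ne hζ ?_))
    · rw [hs']; exact_mod_cast ht.ne'
    · intro h; have := Nat.le_of_dvd one_pos h; omega
  apply of_unit_mul hU.2.2 hU.2.1
  have h1 : (1 : RatFunc ℚ) - q ≠ 0 := by simpa using one_sub_q_ne one_pos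
  have h12 : (1 : RatFunc ℚ) - q ^ 2 ≠ 0 := hq 2 two_pos
  have h1p : (1 : RatFunc ℚ) - q ^ p ≠ 0 := hq p hp.pos
  set B := W q m (p - 1) + 2 * (1 - q ^ m) * q ^ p * (s * r) with hB
  have e : 2 * (1 + q) * (1 - q ^ m) * q ^ (p - 1) * s * (1 - q ^ 1) *
      (Z q m p / (1 - q) - q * (1 - q ^ (2 * m + 2)) / (1 - q ^ 2)) = -(1 - q ^ p) * B := by
    apply mul_left_cancel₀ h1p
    have e1 : (1 - q) * (Z q m p / (1 - q)) = Z q m p := mul_div_cancel₀ _ h1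
    have e2 : (1 + q) * (1 - q) * (q * (1 - q ^ (2 * m + 2)) / (1 - q ^ 2)) =
        q * (1 - q ^ (2 * m + 2)) := by
      rw [show (1 + q) * (1 - q) = 1 - q ^ 2 by ring]
      exact mul_div_cancel₀ _ h12
    have e3 : q ^ p = q ^ (p - 1) * q := by rw [← pow_succ]; congr 1; omega
    have e4 : 2 * (1 - q ^ m) * (1 - q ^ (m + 1)) * q ^ (p - 1) *
        ((1 + q) * Z q m p - q * (1 - q ^ (2 * m + 2))) = -(1 - q ^ p) ^ 2 * B := by
      rw [hB]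
      generalize q ^ (2 * m + 2) = x at *
      generalize q ^ (m + 1) = z' at *
      generalize q ^ m = z at *
      generalize Z q m p = Z at *
      generalize W q m (p - 1) = W at *
      have e5 : (1 - q ^ p) ^ 2 * (s * r) = (1 - z') * (1 - x) := by
        rw [← es, ← er]; ring
      have e6 : q ^ (p - 1) * q = q ^ p := e3.symm
      linear_combination h - (2 * (1 - z) * (1 - z') * (1 - x)) * e6 +
        (2 * (1 - z) * q ^ p) * e5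
    calc _ = 2 * (1 - q ^ m) * (1 - q ^ (m + 1)) * q ^ (p - 1) * ((1 + q) *
        ((1 - q) * (Z q m p / (1 - q))) -
        (1 + q) * (1 - q) * (q * (1 - q ^ (2 * m + 2)) / (1 - q ^ 2))) := by
          rw [← es]; ring
      _ = _ := by rw [e1, e2, e4]; ring
  rw [e]
  have hBm : B ∈ Reg ζ := by
    refine (Reg ζ).add_mem (W_mem hp hζ _) ((Reg ζ).mul_mem ((Reg ζ).mul_mem
      ((Reg ζ).mul_mem two_U.1 (one_sub_mem ζ _)) (q_pow_mem ζ _))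
      ((Reg ζ).mul_mem hs hr))
  have hBe : ev ζ B = 0 := by
    have hζm : ζ ^ (m + 1) = 1 := by rw [hm, pow_mul, hζ.pow_eq_one, one_pow]
    have hζm' : ζ ^ m = ζ⁻¹ := by
      apply eq_inv_of_mul_eq_one_left; rw [← pow_succ, hζm]
    have hqi : q⁻¹ ∈ Reg ζ := by simpa using qi_mem hζ0 1
    have hqe : ev ζ q⁻¹ = ζ⁻¹ := by simpa using ev_qi hζ0 1
    obtain ⟨k, rfl⟩ : ∃ k, t = k + 1 := ⟨t - 1, by omega⟩
    have hmk : m = p * k + (p - 1) := by rw [mul_add] at hm; omega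
    have a1 := ev_p hp h2 hζ hζ (X_mem ζ) (ev_X ζ) hq k (p - 1) (by omega)
    have a2 := ev_small hp hζ hζ (X_mem ζ) (ev_X ζ) hq k (p - 1) (by omega)
    have b1 := ev_p hp h2 hζ hζ.inv hqi hqe (inv_ne q_ne hq) k (p - 1) (by omega)
    have b2 := ev_small hp hζ hζ.inv hqi hqe (inv_ne q_ne hq) k (p - 1) (by omega)
    have hev : Even (p - 1) := hp.even_sub_one h2
    have hp' : ζ ^ (p - 1) = ζ⁻¹ := by
      apply eq_inv_of_mul_eq_one_left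
      rw [← pow_succ, show p - 1 + 1 = p by omega, hζ.pow_eq_one]
    rw [← hmk, hev.neg_pow] at a2 b2
    rw [inv_pow, hp', inv_inv] at a2
    rw [inv_inv, hp'] at b2
    rw [← hmk] at a1 b1
    have hW := ev_W hp hζ m a1 a2 b1 b2
    have h2e : ev ζ (2 : RatFunc ℚ) = 2 := by exact_mod_cast ev_nat ζ 2
    rw [hB, ev_add (W_mem hp hζ _) ((Reg ζ).mul_mem ((Reg ζ).mul_mem
      ((Reg ζ).mul_mem two_U.1 (one_sub_mem ζ _)) (q_pow_mem ζ _))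
      ((Reg ζ).mul_mem hs hr)), hW, ev_mul ((Reg ζ).mul_mem
      ((Reg ζ).mul_mem two_U.1 (one_sub_mem ζ _)) (q_pow_mem ζ _))
      ((Reg ζ).mul_mem hs hr),
      ev_mul ((Reg ζ).mul_mem two_U.1 (one_sub_mem ζ _)) (q_pow_mem ζ _),
      ev_mul two_U.1 (one_sub_mem ζ _), ev_mul hs hr, hs', hr', h2e, ev_one_sub, ev_q_pow,
      hζ.pow_eq_one, hζm, hζm']
    have e7 : ζ * ζ⁻¹ = 1 := mul_inv_cancel₀ hζ0
    push_cast
    generalize ζ⁻¹ = y at *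
    linear_combination (-ζ * y - 1 + y - (1 + 2 * (k : ℂ)) ^ 2 - 2 * (1 + 2 * (k : ℂ)) +
      y * (1 + 2 * (k : ℂ))) * e7
  have h3 := mul_I (P_mem hp hζ) (mem_I_one hp.pos hζ hBm hBe)
  rw [neg_mul]
  exact (I _ _ _).neg_mem h3

end Q278.QDel
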