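import Mathlib

set_option autoImplicit false

/-! Residues of rational numbers modulo a prime. -/

namespace Q278.Res

/-- `⟨a⟩_p`, the least nonnegative residue of a rational number with denominator prime to `p`. -/
def res (p : ℕ) (a : ℚ) : ℕ := ((a.num : ZMod p) * ((a.den : ZMod p))⁻¹).val

theorem res_lt {p : ℕ} (hp : p.Prime) (a : ℚ) : res p a < p := by
  have : NeZero p := ⟨hp.ne_zero⟩
  exact ZMod.val_lt _

theorem res_spec {p m r : ℕ} (hp : p.Prime) (hm : ¬ p ∣ m) :
    (p : ℤ) ∣ r + m * res p (-(r : ℚ) / m) := by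
  have := Fact.mk hp
  have hm0 : (m : ℚ) ≠ 0 := by
    intro h
    have : m = 0 := by exact_mod_cast h
    exact hm (this ▸ dvd_zero _)
  set a : ℚ := -(r : ℚ) / m with ha
  have h1 : a.num * (m : ℤ) = -(r : ℤ) * a.den := by
    have h2 : (a.num : ℚ) / a.den = -(r : ℚ) / m := by rw [Rat.num_div_den]
    have hd : (a.den : ℚ) ≠ 0 := by exact_mod_cast a.den_ne_zero
    rw [div_eq_div_iff hd hm0] at h2
    exact_mod_cast h2
  have hden : ¬ p ∣ a.den := by
    intro h
    have h3 : (a.den : ℤ) ∣ (m : ℤ) := by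
      have h4 : (a.den : ℤ) ∣ a.num * m := by rw [h1]; exact dvd_mul_left _ _
      have h5 : IsCoprime (a.den : ℤ) a.num := by
        rw [Int.isCoprime_iff_gcd_eq_one, Int.gcd_comm]
        exact a.reduced
      exact h5.dvd_of_dvd_mul_left h4
    exact hm (h.trans (Int.natCast_dvd_natCast.1 h3))
  have hden0 : (a.den : ZMod p) ≠ 0 := by
    intro h
    exact hden ((ZMod.natCast_eq_zero_iff _ _).1 h)
  rw [← ZMod.intCast_zmod_eq_zero_iff_dvd]
  unfold res
  push_cast
  rw [ZMod.natCast_zmod_val]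
  have h6 : ((a.num : ℤ) : ZMod p) * m = -(r : ZMod p) * a.den := by exact_mod_cast congrArg (Int.cast : ℤ → ZMod p) h1
  have h7 : (r : ZMod p) + m * ((a.num : ZMod p) * ((a.den : ZMod p))⁻¹) =
      (r * a.den + a.num * m) * ((a.den : ZMod p))⁻¹ := by
    field_simp
  rw [h7, h6]
  ring

theorem res_unique {p m r N : ℕ} (hp : p.Prime) (hm : ¬ p ∣ m) (hN : N < p)
    (h : (p : ℤ) ∣ r + m * N) : res p (-(r : ℚ) / m) = N := by
  have h1 := res_spec (r := r) hp hm
  have h2 := res_lt hp (-(r : ℚ) / m)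
  set N' := res p (-(r : ℚ) / m)
  have h3 : (p : ℤ) ∣ (m : ℤ) * ((N' : ℤ) - N) := by
    have := dvd_sub h1 h
    have e : (m : ℤ) * ((N' : ℤ) - N) = (r + m * (N' : ℤ)) - (r + m * N) := by ring
    rw [e]; exact this
  rcases (Nat.prime_iff_prime_int.1 hp).dvd_or_dvd h3 with h4 | h4
  · exact absurd (Int.natCast_dvd_natCast.1 h4) hm
  · have h5 : (N' : ℤ) - N = 0 := by
      apply Int.eq_zero_of_abs_lt_dvd h4
      rw [abs_lt]
      constructor <;> omega
    omega

end Q278.Res
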