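import Pool.Agent.Q278.EE
import Pool.Agent.Q278.MG2
import Pool.Agent.Q278.Alt2

set_option autoImplicit false

/-! The exact identity for sums of high powers. -/

namespace Q278.SP

open Finset

section exact

variable {K : Type*} [Field K]

def hk (a : K) (k : ℕ) : K := ∏ l ∈ range k, ((a + l) / (l + 1))

def gk (a n : K) (k : ℕ) : K := ∏ l ∈ range k, ((l + 1 - n) / (l + a + n))

def rho (a n : K) (M l : ℕ) : K := ((a + l) / (l + 1)) ^ M * ((l + a + n) / (l + 1 - n))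

def Rk (a n : K) (M k : ℕ) : K := ∏ l ∈ range k, rho a n M l

def Pm (a n : K) (m : ℕ) : K := hk a m * gk a n m * ((a + m) * (m + 1 - n)) / (a * (1 - n))

theorem hk_pow {a n : K} {M k : ℕ} (hden : ∀ l : ℕ, (l : K) + a + n ≠ 0)
    (hn : ∀ l < k, (l : K) + 1 - n ≠ 0) : hk a k ^ M = gk a n k * Rk a n M k := by
  unfold hk gk Rk rho
  rw [← prod_mul_distrib, ← prod_pow]
  apply prod_congr rfl
  intro l hl
  have h1 := hden l
  have h2 := hn l (mem_range.1 hl)
  field_simp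

theorem tele {a n : K} (ha : a ≠ 0) (hn1 : 1 - n ≠ 0) (h1 : ∀ l : ℕ, (l : K) + 1 ≠ 0)
    (hden : ∀ l : ℕ, (l : K) + a + n ≠ 0) (m : ℕ) :
    Pm a n (m + 1) - Pm a n m = (1 + 2 * ((m + 1 : ℕ) : K) / a) * (hk a (m + 1) * gk a n (m + 1)) := by
  unfold Pm hk gk
  rw [prod_range_succ, prod_range_succ]
  have e1 := h1 m
  have e2 := hden m
  generalize ∏ l ∈ range m, ((a + l) / (l + 1)) = X
  generalize ∏ l ∈ range m, ((l + 1 - n) / (l + a + n)) = Y
  push_cast
  field_simp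
  ring

theorem Pm_zero {a n : K} (ha : a ≠ 0) (hn1 : 1 - n ≠ 0) : Pm a n 0 = 1 := by
  unfold Pm hk gk
  simp only [range_zero, prod_empty, Nat.cast_zero, add_zero, one_mul, zero_add]
  exact div_self (mul_ne_zero ha hn1)

theorem abel {a n : K} {M : ℕ} (ha : a ≠ 0) (hn1 : 1 - n ≠ 0) (h1 : ∀ l : ℕ, (l : K) + 1 ≠ 0)
    (hden : ∀ l : ℕ, (l : K) + a + n ≠ 0) (m : ℕ) :
    ∑ k ∈ range (m + 1), (1 + 2 * (k : K) / a) * (hk a k * gk a n k) * Rk a n M k =
      Pm a n m * Rk a n M m - ∑ j ∈ range m, Pm a n j * Rk a n M j * (rho a n M j - 1) := by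
  induction m with
  | zero =>
    rw [sum_range_one, range_zero, sum_empty, Pm_zero ha hn1]
    unfold hk gk
    simp
  | succ m ih =>
    rw [sum_range_succ, ih, ← tele ha hn1 h1 hden m, sum_range_succ]
    have e : Rk a n M (m + 1) = Rk a n M m * rho a n M m := by
      unfold Rk; rw [prod_range_succ]
    rw [e]
    ring

theorem main_exact {a n : K} {M n0 : ℕ} (hn : n = (n0 : K)) (h0 : 1 ≤ n0) (ha : a ≠ 0)
    (hn1 : 1 - n ≠ 0) (h1 : ∀ l : ℕ, (l : K) + 1 ≠ 0) (hden : ∀ l : ℕ, (l : K) + a + n ≠ 0)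
    (hne : ∀ l : ℕ, l + 1 < n0 → (l : K) + 1 - n ≠ 0) :
    ∑ k ∈ range n0, (1 + 2 * (k : K) / a) * hk a k ^ (M + 1) =
      -∑ m ∈ range (n0 - 1), Pm a n m * Rk a n M m * (rho a n M m - 1) := by
  obtain ⟨m, rfl⟩ := Nat.exists_eq_add_of_le' h0
  have hz : Pm a n m = 0 := by
    unfold Pm
    rw [hn]
    push_cast
    ring
  rw [Nat.add_sub_cancel]
  have h := abel (M := M) ha hn1 h1 hden m
  rw [hz, zero_mul, zero_sub] at h
  rw [← h]
  apply sum_congr rfl
  intro k hk'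
  have hk2 := mem_range.1 hk'
  rw [pow_succ, hk_pow hden (fun l hl => hne l (by omega))]
  ring

/-- the partial sums as products -/
theorem Pm_prod {a n : K} (ha : a ≠ 0) (hn1 : 1 - n ≠ 0) (m : ℕ) : Pm a n m =
      ∏ j ∈ range m, (((a + j + 1) / (j + 1)) * ((j + 2 - n) / (j + a + n))) := by
  induction m with
  | zero => rw [Pm_zero ha hn1, range_zero, prod_empty]
  | succ m ih =>
    rw [prod_range_succ, ← ih]
    unfold Pm hk gk
    rw [prod_range_succ, prod_range_succ]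
    generalize ∏ l ∈ range m, ((a + l) / (l + 1)) = X
    generalize ∏ l ∈ range m, ((l + 1 - n) / (l + a + n)) = Y
    generalize a * (1 - n) = c
    push_cast
    ring

end exact

end Q278.SP
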