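import Pool.Agent.Q278.SP

set_option autoImplicit false

/-! The expansion of the ratio. -/

namespace Q278.SP

open Finset Q278.Loc Q278.Unit

section local_

variable {K : Type*} [Field K] {O : Subring K} {π : K}

/-- The expansion of `(1 - s) ^ m` to seventh order. -/
theorem expand7 (s : K) (hs : s ∈ O) (m : ℕ) : ∃ W ∈ O, (1 - s) ^ m =
    1 - m * s + (m.choose 2 : K) * s ^ 2 - (m.choose 3 : K) * s ^ 3 + (m.choose 4 : K) * s ^ 4
      - (m.choose 5 : K) * s ^ 5 + (m.choose 6 : K) * s ^ 6 + s ^ 7 * W := by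
  induction m with
  | zero => exact ⟨0, O.zero_mem, by simp [Nat.choose]⟩
  | succ m ih =>
    obtain ⟨W, hW, h⟩ := ih
    refine ⟨W * (1 - s) - (m.choose 6 : K), ?_, ?_⟩
    · exact O.sub_mem (O.mul_mem hW (O.sub_mem O.one_mem hs)) (nat_O _)
    · rw [pow_succ, h, Nat.choose_succ_succ' m 1, Nat.choose_succ_succ' m 2,
        Nat.choose_succ_succ' m 3, Nat.choose_succ_succ' m 4, Nat.choose_succ_succ' m 5,
        Nat.choose_one_right]
      push_cast
      ring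

theorem choose3 (m : ℕ) : (3 : K) * (m * (m.choose 2 : K) - (m.choose 3 : K)) =
    ((m : K) - 1) * (m * (m + 1)) ∨ (2 : K) = 0 := by
  by_cases h2 : (2 : K) = 0
  · exact Or.inr h2
  left
  apply mul_left_cancel₀ h2
  have e2 : ∀ m : ℕ, (2 : K) * (m.choose 2 : K) = m * (m - 1) := by
    intro m
    induction m with
    | zero => simp
    | succ m ih =>
      rw [Nat.choose_succ_succ' m 1, Nat.choose_one_right]
      push_cast
      rw [mul_add, ih]; ring
  have e3 : ∀ m : ℕ, (6 : K) * (m.choose 3 : K) = m * (m - 1) * (m - 2) := by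
    intro m
    induction m with
    | zero => simp
    | succ m ih =>
      rw [Nat.choose_succ_succ' m 2]
      push_cast
      linear_combination ih + 3 * e2 m
  linear_combination 3 * (m : K) * e2 m - e3 m

/-- the expansion of the ratio -/
theorem rho_expand (hπ : π ∈ O) (hloc : ∀ x y : K, U O x → x - y ∈ I O π 1 → U O y)
    (h2 : U O (2 : K)) (h3 : U O (3 : K)) {M : ℕ} (hM : (M : K) - 1 ∈ I O π 1) :
    ∃ A ∈ I O π 1, ∃ B ∈ O, ∀ u ∈ I O π 1, ∃ C ∈ I O π 4,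
      ((1 - u) / (1 + u)) ^ M * ((1 + M * u) / (1 - M * u)) - 1 = u ^ 3 * (A + B * u ^ 2 + C) := by
  set C2 : K := (M.choose 2 : K) with hC2
  set C3 : K := (M.choose 3 : K) with hC3
  set C4 : K := (M.choose 4 : K) with hC4
  set C5 : K := (M.choose 5 : K) with hC5
  set C6 : K := (M.choose 6 : K) with hC6
  have oM : (M : K) ∈ O := nat_O M
  have o2 : C2 ∈ O := nat_O _
  have o3 : C3 ∈ O := nat_O _
  have o4 : C4 ∈ O := nat_O _
  have o5 : C5 ∈ O := nat_O _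
  have o6 : C6 ∈ O := nat_O _
  set c2 : K := C2 - M ^ 2 with hc2
  set c3 : K := M * C2 - C3 with hc3
  set c5 : K := M * C4 - C5 with hc5
  have oc2 : c2 ∈ O := O.sub_mem o2 (O.pow_mem oM 2)
  have oc5 : c5 ∈ O := O.sub_mem (O.mul_mem oM o4) o5
  have ic3 : c3 ∈ I O π 1 := by
    apply of_unit_mul h3.2.2 h3.2.1
    rcases choose3 (K := K) M with h | h
    · rw [hc3, h, mul_comm]
      exact mul_O (O.mul_mem oM (O.add_mem oM O.one_mem)) hM
    · exact absurd h h2.2.2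
  have oc3 := toO hπ ic3
  refine ⟨2 * c3, mul_O h2.1 ic3, 2 * c5 - 2 * c2 * c3, O.sub_mem (O.mul_mem h2.1 oc5)
    (O.mul_mem (O.mul_mem h2.1 oc2) oc3), fun u hu => ?_⟩
  have ou := toO hπ hu
  obtain ⟨W1, hW1, e1⟩ := expand7 u ou M
  obtain ⟨W2, hW2, e2⟩ := expand7 (-u) (O.neg_mem ou) M
  rw [sub_neg_eq_add] at e2
  have U1 : U O (1 + u) := hloc 1 _ U.one (by
    have := (I O π 1).neg_mem hu
    convert this using 1; ring)
  have UM : U O (1 - M * u) := hloc 1 _ U.one (by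
    have := mul_O oM hu
    convert this using 1; ring)
  set Nm : K := (1 + u) ^ M * (1 - M * u) with hNm
  have UN : U O Nm := (U1.pow M).mul UM
  -- the difference
  set W3 : K := 2 * M * C6 + W1 * (1 + M * u) + W2 * (1 - M * u) with hW3
  have oW3 : W3 ∈ O := by
    refine O.add_mem (O.add_mem (O.mul_mem (O.mul_mem h2.1 oM) o6) (O.mul_mem hW1
      (O.add_mem O.one_mem (O.mul_mem oM ou)))) (O.mul_mem hW2 UM.1)
  have ediff : (1 - u) ^ M * (1 + M * u) - Nm = u ^ 3 * (2 * c3 + 2 * c5 * u ^ 2 + u ^ 4 * W3) := by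
    rw [hNm, e1, e2, hc3, hc5, hW3]
    ring
  set W5 : K := -c3 + u * C4 + u ^ 2 * C5 + u ^ 3 * C6 - u ^ 4 * W2 - M * u * (C3 + u * C4 +
    u ^ 2 * C5 + u ^ 3 * C6 - u ^ 4 * W2) with hW5
  have oW5 : W5 ∈ O := by
    have k1 : ∀ j : ℕ, u ^ j ∈ O := fun j => O.pow_mem ou j
    refine O.sub_mem (O.sub_mem (O.add_mem (O.add_mem (O.add_mem (O.neg_mem oc3) (O.mul_mem ou o4))
      (O.mul_mem (k1 2) o5)) (O.mul_mem (k1 3) o6)) (O.mul_mem (k1 4) hW2)) (O.mul_mem (O.mul_mem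
      oM ou) (O.sub_mem (O.add_mem (O.add_mem (O.add_mem o3 (O.mul_mem ou o4)) (O.mul_mem (k1 2)
      o5)) (O.mul_mem (k1 3) o6)) (O.mul_mem (k1 4) hW2)))
  have eN : Nm = 1 + c2 * u ^ 2 + u ^ 3 * W5 := by
    rw [hNm, e2, hW5, hc2, hc3]
    ring
  set num : K := u ^ 4 * W3 - 2 * c3 * u ^ 3 * W5 - (2 * c5 - 2 * c2 * c3) * u ^ 2 *
    (c2 * u ^ 2 + u ^ 3 * W5) with hnum
  have inum : num ∈ I O π 4 := by
    have k4 := pow_I hu 4
    rw [one_mul] at k4
    have k3 := pow_I hu 3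
    rw [one_mul] at k3
    have a1 : u ^ 4 * W3 ∈ I O π 4 := by rw [mul_comm]; exact mul_O oW3 k4
    have a2 : 2 * c3 * u ^ 3 * W5 ∈ I O π 4 := by
      have := mul_O (O.mul_mem h2.1 oW5) (mul_I (a := 1) (b := 3) ic3 k3)
      convert this using 1; ring
    have a3 : (2 * c5 - 2 * c2 * c3) * u ^ 2 * (c2 * u ^ 2 + u ^ 3 * W5) ∈ I O π 4 := by
      have := mul_O (O.mul_mem (O.sub_mem (O.mul_mem h2.1 oc5) (O.mul_mem (O.mul_mem h2.1 oc2) oc3))
        (O.add_mem oc2 (O.mul_mem ou oW5))) k4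
      convert this using 1; ring
    exact (I O π 4).sub_mem ((I O π 4).sub_mem a1 a2) a3
  refine ⟨num * Nm⁻¹, by rw [mul_comm]; exact mul_O UN.2.1 inum, ?_⟩
  have hN0 := UN.2.2
  have e3 : ((1 - u) / (1 + u)) ^ M * ((1 + M * u) / (1 - M * u)) - 1 =
      ((1 - u) ^ M * (1 + M * u) - Nm) / Nm := by
    rw [div_pow, div_mul_div_comm, sub_div, div_self hN0]
  rw [e3, ediff]
  have e4 : 2 * c3 + 2 * c5 * u ^ 2 + u ^ 4 * W3 =
      num + (2 * c3 + (2 * c5 - 2 * c2 * c3) * u ^ 2) * Nm := by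
    rw [hnum, eN]; ring
  rw [e4]
  field_simp
  ring

end local_

end Q278.SP
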