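import Pool.Agent.Q278.SP2

set_option autoImplicit false

/-! The local estimates. -/

namespace Q278.SP

open Finset Q278.Loc Q278.Unit

variable {K : Type*} [Field K] [CharZero K] {O : Subring K} {π : K}

/-- the data -/
structure Dt (O : Subring K) (π : K) (n0 : ℕ) (t ν : K) : Prop where
  hπ : π ∈ O
  hloc : ∀ x y : K, U O x → x - y ∈ I O π 1 → U O y
  two : U O (2 : K)
  hν : ν ∈ I O π 1
  h0 : 2 ≤ n0
  hn : (n0 : K) = 2 * t * (1 + ν)
  ht0 : t ∈ I O π 1
  ht : ∀ i : ℕ, 0 < i → i < n0 → t / i ∈ I O π 1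
  hsq : ∑ i ∈ range n0, (t / i) ^ 2 ∈ I O π 3

variable {n0 : ℕ} {t ν : K}

/-- `t / (m + 1)` -/
def w (t : K) (m : ℕ) : K := t / ((m + 1 : ℕ) : K)

/-- `t / (m + 1 - t)` -/
def uu (t : K) (m : ℕ) : K := t / ((m : K) + 1 - t)

def bm (n : K) (m : ℕ) : K := ∏ j ∈ range m, (((j : K) + 2 - n) / (j + 1))

def Qm (n ε : K) (m : ℕ) : K := ∏ j ∈ range m, ((1 + ε / ((j : K) + 2 - n)) / (1 + ε / (j + 1)))

def Gm (n t : K) (m : ℕ) : K := (bm n m / ((m : K) + 1 - t)) ^ 2

section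

variable (D : Dt O π n0 t ν)

include D

omit [CharZero K] in
theorem w_I {m : ℕ} (hm : m + 1 < n0) : w t m ∈ I O π 1 := D.ht (m + 1) (by omega) hm

theorem one_w {m : ℕ} (hm : m + 1 < n0) : U O (1 - w t m) :=
  D.hloc 1 _ U.one (by have := w_I D hm; convert this using 1; ring)

omit D in
theorem z_eq {m : ℕ} : (m : K) + 1 - t = ((m + 1 : ℕ) : K) * (1 - w t m) := by
  have : ((m + 1 : ℕ) : K) ≠ 0 := by exact_mod_cast (show m + 1 ≠ 0 by omega)
  unfold w
  field_simp
  push_cast; ring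

theorem z_ne {m : ℕ} (hm : m + 1 < n0) : (m : K) + 1 - t ≠ 0 := by
  rw [z_eq]
  exact mul_ne_zero (by exact_mod_cast (show m + 1 ≠ 0 by omega)) (one_w D hm).2.2

theorem u_eq {m : ℕ} (hm : m + 1 < n0) : uu t m * (1 - w t m) = w t m := by
  have h1 : ((m + 1 : ℕ) : K) ≠ 0 := by exact_mod_cast (show m + 1 ≠ 0 by omega)
  have h2 := (one_w D hm).2.2
  unfold uu
  rw [z_eq]
  have h3 : t = w t m * ((m + 1 : ℕ) : K) := by unfold w; field_simp
  conv_lhs => rw [show t / (((m + 1 : ℕ) : K) * (1 - w t m)) * (1 - w t m) =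
    t / ((m + 1 : ℕ) : K) by field_simp]
  rfl

theorem u_I {m : ℕ} (hm : m + 1 < n0) : uu t m ∈ I O π 1 := by
  have h1 := u_eq D hm
  have h2 := one_w D hm
  have : uu t m = (1 - w t m)⁻¹ * w t m := by
    have := h2.2.2
    field_simp
    linear_combination h1
  rw [this]
  exact mul_O h2.2.1 (w_I D hm)

theorem u_w {m : ℕ} (hm : m + 1 < n0) : uu t m - w t m ∈ I O π 2 := by
  have h1 := u_eq D hm
  have h2 := mul_I (u_I D hm) (w_I D hm)
  convert h2 using 1
  linear_combination h1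

/-- `ε / i` -/
theorem eps_I {i : ℕ} (hi : 0 < i) (hi' : i < n0) : 2 * t * ν / i ∈ I O π 2 := by
  have h := mul_O D.two.1 (mul_I D.hν (D.ht i hi hi'))
  convert h using 1
  ring

theorem n_I {i : ℕ} (hi : 0 < i) (hi' : i < n0) : (n0 : K) / i ∈ I O π 1 := by
  have h := mul_O (O.mul_mem D.two.1 (O.add_mem O.one_mem (toO D.hπ D.hν))) (D.ht i hi hi')
  rw [D.hn]
  convert h using 1
  ring

theorem eps_O : 2 * t * ν ∈ I O π 2 := by
  have := eps_I D (i := 1) one_pos (by have := D.h0; omega)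
  simpa using this

omit D [CharZero K] in
theorem sub_cast {i j : ℕ} (h : i + j = n0) : (i : K) - n0 = -(j : K) := by
  rw [← h]; push_cast; ring

/-- one factor of `Q` -/
theorem fac_Q {j : ℕ} (hj : j + 2 < n0) :
    (1 + 2 * t * ν / ((j : K) + 2 - n0)) / (1 + 2 * t * ν / (j + 1)) -
      (1 + 2 * t * ν / ((j + 2 : ℕ) : K) - 2 * t * ν / ((j + 1 : ℕ) : K)) ∈ I O π 3 := by
  obtain ⟨i, hi⟩ := Nat.exists_eq_add_of_le hj.le
  have hi0 : 0 < i := by omega
  have c1 : ((j : K) + 2 - n0) = -(i : K) := by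
    have := sub_cast (K := K) (i := j + 2) (j := i) hi.symm
    push_cast at this; exact this
  have ni : (i : K) ≠ 0 := by exact_mod_cast hi0.ne'
  have nj : ((j + 1 : ℕ) : K) ≠ 0 := by exact_mod_cast (show j + 1 ≠ 0 by omega)
  have nj2 : ((j + 2 : ℕ) : K) ≠ 0 := by exact_mod_cast (show j + 2 ≠ 0 by omega)
  have e1 := eps_I D hi0 (show i < n0 by omega)
  have e2 := eps_I D (i := j + 1) (by omega) (by omega)
  have e3 := eps_I D (i := j + 2) (by omega) hj
  have f1 := n_I D hi0 (show i < n0 by omega)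
  set x := 2 * t * ν / (i : K) with hx
  set y := 2 * t * ν / ((j + 1 : ℕ) : K) with hy
  set z := 2 * t * ν / ((j + 2 : ℕ) : K) with hz
  have c2 : 2 * t * ν / ((j : K) + 2 - n0) = -x := by rw [c1, div_neg]
  have c3 : 2 * t * ν / ((j : K) + 1) = y := by rw [hy]; push_cast; rfl
  rw [c2, c3]
  have hU : U O (1 + y) := D.hloc 1 _ U.one (by
    have := (I O π 1).neg_mem (mono D.hπ (show 1 ≤ 2 by omega) e2)
    convert this using 1; ring)
  -- `-x = z - z * (n0 / i)`
  have c4 : -x - z = -(z * ((n0 : K) / i)) := by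
    have : (n0 : K) = (j + 2 : ℕ) + i := by rw [hi]; push_cast; ring
    rw [hx, hz, this]
    field_simp
    ring
  have k1 : -x - z ∈ I O π 3 := by
    rw [c4]
    exact (I O π 3).neg_mem (mul_I e3 f1)
  have k2 : (1 + y)⁻¹ * (x * y + y * y) ∈ I O π 3 := by
    refine mul_O hU.2.1 (mono D.hπ (show 3 ≤ 4 by omega) ((I O π 4).add_mem ?_ ?_))
    · exact mul_I e1 e2
    · exact mul_I e2 e2
  have := (I O π 3).add_mem k1 k2
  convert this using 1
  have := hU.2.2
  field_simp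
  ring

theorem fac_O {j : ℕ} (hj : j + 2 < n0) :
    (1 + 2 * t * ν / ((j : K) + 2 - n0)) / (1 + 2 * t * ν / (j + 1)) ∈ O := by
  have h := toO D.hπ (fac_Q D hj)
  have e2 := toO D.hπ (eps_I D (i := j + 1) (by omega) (by omega))
  have e3 := toO D.hπ (eps_I D (i := j + 2) (by omega) hj)
  have := O.add_mem h (O.sub_mem (O.add_mem O.one_mem e3) e2)
  convert this using 1
  ring

theorem Q_O {m : ℕ} (hm : m + 1 < n0) : Qm (n0 : K) (2 * t * ν) m ∈ O :=
  O.prod_mem fun j hj => fac_O D (by have := mem_range.1 hj; omega)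

/-- the expansion of `Q` -/
theorem Q_exp {m : ℕ} (hm : m + 1 < n0) : Qm (n0 : K) (2 * t * ν) m -
    (1 + 2 * ν * w t m - 2 * t * ν) ∈ I O π 3 := by
  induction m with
  | zero =>
    unfold Qm w
    rw [range_zero, prod_empty]
    have : (1 : K) - (1 + 2 * ν * (t / ((0 + 1 : ℕ) : K)) - 2 * t * ν) = 0 := by
      push_cast; ring
    rw [this]
    exact (I O π 3).zero_mem
  | succ m ih =>
    have ih := ih (by omega)
    have h1 := fac_Q D (j := m) (by omega)
    have h2 := fac_O D (j := m) (by omega)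
    have e2 := eps_I D (i := m + 1) (by omega) (by omega)
    have e3 := eps_I D (i := m + 2) (by omega) hm
    have e0 := eps_O D
    have c1 : 2 * ν * w t m = 2 * t * ν / ((m + 1 : ℕ) : K) := by unfold w; ring
    have c2 : 2 * ν * w t (m + 1) = 2 * t * ν / ((m + 2 : ℕ) : K) := by unfold w; ring
    rw [c1] at ih
    rw [c2]
    have e : Qm (n0 : K) (2 * t * ν) (m + 1) = Qm (n0 : K) (2 * t * ν) m *
        ((1 + 2 * t * ν / ((m : K) + 2 - n0)) / (1 + 2 * t * ν / (m + 1))) := by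
      unfold Qm; rw [prod_range_succ]
    rw [e]
    set f := (1 + 2 * t * ν / ((m : K) + 2 - n0)) / (1 + 2 * t * ν / (m + 1)) with hf
    set x := 2 * t * ν / ((m + 1 : ℕ) : K) with hx
    set y := 2 * t * ν / ((m + 2 : ℕ) : K) with hy
    set Q := Qm (n0 : K) (2 * t * ν) m with hQ
    have k1 := mul_O h2 ih
    have oc : 1 + x - 2 * t * ν ∈ O :=
      O.sub_mem (O.add_mem O.one_mem (toO D.hπ e2)) (toO D.hπ e0)
    have k2 := mul_O oc h1
    have k3 : (x - 2 * t * ν) * (y - x) ∈ I O π 3 :=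
      mono D.hπ (by omega) (mul_I ((I O π 2).sub_mem e2 e0) ((I O π 2).sub_mem e3 e2))
    have := (I O π 3).add_mem ((I O π 3).add_mem k1 k2) k3
    convert this using 1
    ring

end

end Q278.SP
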