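import Pool.Agent.Q278.SP4

set_option autoImplicit false

/-! The estimate of the sum of high powers. -/

namespace Q278.SP

open Finset Q278.Loc Q278.Unit

variable {K : Type*} [Field K] [CharZero K] {O : Subring K} {π : K} {n0 : ℕ} {t ν : K}

section

variable (D : Dt O π n0 t ν)

include D

/-- the partial sums -/
theorem Pm_GQ {a : K} (ha : a = 1 - 2 * t) (ha0 : a ≠ 0) {m : ℕ} (hm : m + 1 < n0) :
    Pm a (n0 : K) m * uu t m ^ 2 = t ^ 2 * (Gm (n0 : K) t m * Qm (n0 : K) (2 * t * ν) m) := by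
  have hn1 : 1 - (n0 : K) ≠ 0 := by
    intro h
    have h1 : ((n0 : ℕ) : K) = ((1 : ℕ) : K) := by push_cast; linear_combination -h
    have := Nat.cast_injective h1
    omega
  have hz := z_ne D hm
  have e1 : Pm a (n0 : K) m = bm (n0 : K) m ^ 2 * Qm (n0 : K) (2 * t * ν) m := by
    rw [Pm_prod ha0 hn1]
    unfold bm Qm
    rw [← prod_pow, ← prod_mul_distrib]
    apply prod_congr rfl
    intro j hj
    have hj' := mem_range.1 hj
    have n1 : (j : K) + 1 ≠ 0 := by exact_mod_cast (show j + 1 ≠ 0 by omega)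
    have n2 : (j : K) + 2 - n0 ≠ 0 := by
      intro h
      have h1 : ((j + 2 : ℕ) : K) = (n0 : K) := by push_cast; linear_combination h
      have := Nat.cast_injective h1
      omega
    have n3 : (j : K) + 1 + 2 * t * ν ≠ 0 := by
      have e2 := eps_I D (i := j + 1) (by omega) (by omega)
      have hU : U O (1 + 2 * t * ν / ((j + 1 : ℕ) : K)) := D.hloc 1 _ U.one (by
        have := (I O π 1).neg_mem (mono D.hπ (show 1 ≤ 2 by omega) e2)
        convert this using 1; ring)
      have h3 := mul_ne_zero n1 hU.2.2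
      intro h
      apply h3
      push_cast
      field_simp
      linear_combination h
    have c1 : a + j + 1 = (j : K) + 2 - n0 + 2 * t * ν := by
      rw [ha]; linear_combination D.hn
    have c2 : (j : K) + a + n0 = j + 1 + 2 * t * ν := by
      rw [ha]; linear_combination D.hn
    rw [c1, c2]
    field_simp
  have e2 : uu t m = t / ((m : K) + 1 - t) := rfl
  rw [e1, e2]
  unfold Gm
  field_simp

/-- the ratio -/
theorem rho_u {a : K} (ha : a = 1 - 2 * t) {M : ℕ} (hM : (M : K) = 1 + 2 * ν) {m : ℕ}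
    (hm : m + 1 < n0) : rho a (n0 : K) M m = ((1 - uu t m) / (1 + uu t m)) ^ M *
      ((1 + M * uu t m) / (1 - M * uu t m)) := by
  have hz := z_ne D hm
  have e2 : uu t m = t / ((m : K) + 1 - t) := rfl
  have n1 : (m : K) + 1 ≠ 0 := by exact_mod_cast (show m + 1 ≠ 0 by omega)
  have n2 : (m : K) + 1 - n0 ≠ 0 := by
    intro h
    have h1 : ((m + 1 : ℕ) : K) = (n0 : K) := by push_cast; linear_combination h
    have := Nat.cast_injective h1
    omega
  have c1 : a + m = ((m : K) + 1 - t) - t := by rw [ha]; ring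
  have c2 : (m : K) + 1 = ((m : K) + 1 - t) + t := by ring
  have c3 : (m : K) + a + n0 = ((m : K) + 1 - t) + M * t := by
    rw [ha, hM]; linear_combination D.hn
  have c4 : (m : K) + 1 - n0 = ((m : K) + 1 - t) - M * t := by
    rw [hM]; linear_combination -D.hn
  unfold rho
  rw [c1, c3, c4]
  have d1 : (1 - uu t m) / (1 + uu t m) = (((m : K) + 1 - t) - t) / ((m : K) + 1) := by
    rw [e2]
    have : 1 + t / ((m : K) + 1 - t) = ((m : K) + 1) / ((m : K) + 1 - t) := by
      field_simp; ring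
    rw [this]
    field_simp
  have d2 : (1 + M * uu t m) / (1 - M * uu t m) =
      (((m : K) + 1 - t) + M * t) / (((m : K) + 1 - t) - M * t) := by
    rw [e2]
    rw [c4] at n2
    have : 1 - M * (t / ((m : K) + 1 - t)) = (((m : K) + 1 - t) - M * t) / ((m : K) + 1 - t) := by
      field_simp
    rw [this]
    field_simp
  rw [d1, d2]

/-- The main estimate. -/
theorem estimate (h3 : U O (3 : K)) {a : K} (ha : a = 1 - 2 * t) (ha0 : a ≠ 0) {M : ℕ}
    (hM : (M : K) = 1 + 2 * ν) (hden : ∀ l : ℕ, (l : K) + a + n0 ≠ 0) {r : ℕ} (hr : t ∈ I O π r) :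
    ∑ k ∈ range n0, (1 + 2 * (k : K) / a) * hk a k ^ (M + 1) ∈ I O π (2 * r + 5) := by
  have h0 := D.h0
  have hn1 : 1 - (n0 : K) ≠ 0 := by
    intro h
    have h1 : ((n0 : ℕ) : K) = ((1 : ℕ) : K) := by push_cast; linear_combination -h
    have := Nat.cast_injective h1
    omega
  rw [main_exact rfl (by omega) ha0 hn1 (fun l => by exact_mod_cast (show l + 1 ≠ 0 by omega)) hden
    (fun l hl h => by
      have h1 : ((l + 1 : ℕ) : K) = (n0 : K) := by push_cast; linear_combination h
      have := Nat.cast_injective h1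
      omega)]
  have hM1 : (M : K) - 1 ∈ I O π 1 := by
    have := mul_O D.two.1 D.hν
    convert this using 1
    rw [hM]; ring
  obtain ⟨A, hA, B, hB, hex⟩ := rho_expand D.hπ D.hloc D.two h3 hM1
  -- the ratios
  have hrho : ∀ m, m + 1 < n0 → ∃ C ∈ I O π 4, rho a (n0 : K) M m - 1 =
      uu t m ^ 3 * (A + B * uu t m ^ 2 + C) := by
    intro m hm
    rw [rho_u D ha hM hm]
    exact hex _ (u_I D hm)
  have hrho4 : ∀ m, m + 1 < n0 → rho a (n0 : K) M m - 1 ∈ I O π 4 := by
    intro m hm
    obtain ⟨C, hC, e⟩ := hrho m hm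
    rw [e]
    have hu := u_I D hm
    have h1 := mul_I (pow_I hu 3) hA
    have h2 := mono D.hπ (show 4 ≤ 5 by omega) (mul_O hB (pow_I hu 5))
    have h4 := mul_O (O.pow_mem (toO D.hπ hu) 3) hC
    have := (I O π 4).add_mem ((I O π 4).add_mem h1 h2) h4
    convert this using 1
    ring
  have hR : ∀ m, m + 1 < n0 → Rk a (n0 : K) M m - 1 ∈ I O π 4 := by
    intro m hm
    apply prod_one D.hπ
    intro j hj
    exact hrho4 j (by have := mem_range.1 hj; omega)
  -- the terms
  set f : ℕ → K := fun m => Gm (n0 : K) t m * Qm (n0 : K) (2 * t * ν) m with hf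
  have key : ∀ m, m + 1 < n0 → ∃ E ∈ I O π 5, Pm a (n0 : K) m * Rk a (n0 : K) M m *
      (rho a (n0 : K) M m - 1) = t ^ 2 * (A * (f m * uu t m) + B * (f m * uu t m ^ 3) + E) := by
    intro m hm
    obtain ⟨C, hC, e⟩ := hrho m hm
    have hu := u_I D hm
    have oR := hR m hm
    have hRO : Rk a (n0 : K) M m ∈ O := by
      have := O.add_mem (toO D.hπ oR) O.one_mem
      rwa [sub_add_cancel] at this
    have hfO : f m ∈ O := O.mul_mem (G_O D hm) (Q_O D hm)
    refine ⟨f m * ((Rk a (n0 : K) M m - 1) * (uu t m * (A + B * uu t m ^ 2)) +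
      Rk a (n0 : K) M m * (uu t m * C)), ?_, ?_⟩
    · refine mul_O hfO ((I O π 5).add_mem ?_ (mul_O hRO (mul_I (a := 1) (b := 4) hu hC)))
      refine mul_I (a := 4) (b := 1) oR ?_
      rw [mul_comm]
      exact mul_O (O.add_mem (toO D.hπ hA) (O.mul_mem hB (O.pow_mem (toO D.hπ hu) 2))) hu
    · have h1 := Pm_GQ D ha ha0 hm
      rw [e]
      have e3 : Pm a (n0 : K) m * Rk a (n0 : K) M m * (uu t m ^ 3 * (A + B * uu t m ^ 2 + C)) =
          (Pm a (n0 : K) m * uu t m ^ 2) * (Rk a (n0 : K) M m *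
            (uu t m * (A + B * uu t m ^ 2 + C))) := by ring
      rw [e3, h1]
      ring
  choose! E hE hE2 using key
  have hsum : ∑ m ∈ range (n0 - 1), Pm a (n0 : K) m * Rk a (n0 : K) M m *
      (rho a (n0 : K) M m - 1) = t ^ 2 * (A * ∑ m ∈ range (n0 - 1), f m * uu t m +
        B * ∑ m ∈ range (n0 - 1), f m * uu t m ^ 3 + ∑ m ∈ range (n0 - 1), E m) := by
    rw [mul_sum, mul_sum, ← sum_add_distrib, ← sum_add_distrib, mul_sum]
    apply sum_congr rfl
    intro m hm
    exact hE2 m (by have := mem_range.1 hm; omega)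
  rw [hsum]
  apply (I O π _).neg_mem
  have s1 := sum1 D
  have s3 := sum3 D
  have ht2 := pow_I hr 2
  rw [mul_comm r 2] at ht2
  refine mul_I ht2 ((I O π 5).add_mem ((I O π 5).add_mem (mul_I (a := 1) (b := 4) hA s1)
    (mul_O hB s3)) (AddSubgroup.sum_mem _ fun m hm => hE m (by have := mem_range.1 hm; omega)))

end

end Q278.SP
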