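import Pool.Agent.Q16.SQ.Stm5

/-!
Project SQ, unit NTA: units near one half of the modulus.
-/

set_option autoImplicit false

namespace Q278.SQNTA

open Q16.SQ

/-- Every unit `r` modulo `m` is `j * b` modulo `m` for some `j` coprime to `4 n`. -/
theorem lift_unit (n m b r : ℕ) (hn : 0 < n) (hm : 0 < m) (hmn : m ∣ n) (hb : Nat.Coprime b m)
    (hr : Nat.Coprime r m) :
    ∃ j : ℤ, IsCoprime j ((4 * n : ℕ) : ℤ) ∧ (m : ℤ) ∣ j * b - r := by
  haveI : NeZero m := ⟨hm.ne'⟩
  haveI : NeZero (4 * n) := ⟨by positivity⟩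
  have hd : m ∣ 4 * n := Dvd.dvd.mul_left hmn 4
  obtain ⟨U, hU⟩ := ZMod.unitsMap_surjective hd
    (ZMod.unitOfCoprime r hr * (ZMod.unitOfCoprime b hb)⁻¹)
  refine ⟨((U : ZMod (4 * n)).val : ℤ), ?_, ?_⟩
  · exact Nat.isCoprime_iff_coprime.2 (ZMod.val_coe_unit_coprime U)
  · have h1 : ((ZMod.unitsMap hd U : (ZMod m)ˣ) : ZMod m) * (b : ZMod m) = (r : ZMod m) := by
      rw [hU]
      have h2 : (b : ZMod m) = ((ZMod.unitOfCoprime b hb : (ZMod m)ˣ) : ZMod m) := rfl
      have h3 : (r : ZMod m) = ((ZMod.unitOfCoprime r hr : (ZMod m)ˣ) : ZMod m) := rfl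
      rw [h2, h3, ← Units.val_mul]
      congr 1
      group
    rw [ZMod.unitsMap_val] at h1
    rw [← ZMod.intCast_zmod_eq_zero_iff_dvd]
    push_cast
    rw [ZMod.natCast_val, h1, sub_self]

/-- The value at such a `j`. -/
theorem vf_eq (g m b r : ℕ) (hg : 0 < g) (hr : r < m) (j : ℤ)
    (hj : (m : ℤ) ∣ j * b - r) : vf (g * m) j (g * b) = (r : ℝ) / m := by
  have hm : 0 < m := lt_of_le_of_lt (Nat.zero_le r) hr
  obtain ⟨t, ht⟩ := hj
  have hgR : (g : ℝ) ≠ 0 := by exact_mod_cast hg.ne'
  have hmR : (m : ℝ) ≠ 0 := by exact_mod_cast hm.ne'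
  have h1 : ((j : ℝ) * ((g * b : ℕ) : ℝ) / ((g * m : ℕ) : ℝ)) = (r : ℝ) / m + (t : ℤ) := by
    have h2 : (j : ℝ) * b - r = m * t := by exact_mod_cast ht
    push_cast
    field_simp
    linear_combination h2
  unfold vf
  rw [h1, Int.fract_add_intCast, Int.fract_eq_self]
  constructor
  · positivity
  · rw [div_lt_one (by exact_mod_cast hm)]
    exact_mod_cast hr

/-- The condition on the units modulo `m`. -/
theorem cond (g m b p : ℕ) (hg : 0 < g) (hm : 0 < m) (hb : Nat.Coprime b m) (hp : 3 ≤ p)
    (h : ∀ j : ℤ, IsCoprime j ((4 * (g * m) : ℕ) : ℤ) →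
      vf (g * m) j (g * b) < 1 / p ∨ 1 - 1 / (p : ℝ) < vf (g * m) j (g * b))
    (r : ℕ) (hr : r < m) (hrm : Nat.Coprime r m) :
    p * r < m ∨ p * m < p * r + m := by
  obtain ⟨j, hj1, hj2⟩ := lift_unit (g * m) m b r (by positivity) hm (Dvd.intro_left g rfl) hb hrm
  have h1 := h j hj1
  rw [vf_eq g m b r hg hr j hj2] at h1
  have hpR : (0 : ℝ) < p := by
    have : 0 < p := by omega
    exact_mod_cast this
  have hmR : (0 : ℝ) < m := by exact_mod_cast hm
  rcases h1 with h1 | h1
  · left
    rw [div_lt_div_iff₀ hmR hpR] at h1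
    have h2 : (p : ℝ) * r < m := by linarith
    exact_mod_cast h2
  · right
    have h2 : (p : ℝ) * m < p * r + m := by
      have h3 : (1 - 1 / (p : ℝ)) * (p * m) < (r : ℝ) / m * (p * m) :=
        mul_lt_mul_of_pos_right h1 (by positivity)
      have h4 : (1 - 1 / (p : ℝ)) * (p * m) = p * m - m := by field_simp
      have h5 : (r : ℝ) / m * (p * m) = p * r := by field_simp
      linarith
    exact_mod_cast h2

theorem t_NTA : S_NTA := by
  intro n x p hn hx hxn hp h
  obtain ⟨g, m, b, hg, hmb, hnm, hxb⟩ : ∃ g m b : ℕ, 0 < g ∧ Nat.Coprime b m ∧ n = g * m ∧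
      x = g * b := by
    have hg : 0 < Nat.gcd x n := Nat.gcd_pos_of_pos_left n hx
    refine ⟨Nat.gcd x n, n / Nat.gcd x n, x / Nat.gcd x n, hg, ?_, ?_, ?_⟩
    · exact Nat.coprime_div_gcd_div_gcd hg
    · exact (Nat.mul_div_cancel' (Nat.gcd_dvd_right x n)).symm
    · exact (Nat.mul_div_cancel' (Nat.gcd_dvd_left x n)).symm
  subst hnm
  subst hxb
  have hm : 0 < m := by
    rcases Nat.eq_zero_or_pos m with h0 | h0
    · subst h0; simp at hn
    · exact h0
  have hb0 : 0 < b := by
    rcases Nat.eq_zero_or_pos b with h0 | h0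
    · subst h0; simp at hx
    · exact h0
  have hbm : b < m := lt_of_mul_lt_mul_left hxn (Nat.zero_le g)
  have key := cond g m b p hg hm hmb hp h
  have hcase : (m = 4 ∧ p = 3) ∨ (m = 6 ∧ p ≤ 5) ∨ (m = 10 ∧ p = 3) := by
    obtain ⟨k, hk⟩ : ∃ k, m = 2 * k + 1 ∨ m = 4 * k ∨ m = 4 * k + 2 := by
      rcases Nat.even_or_odd m with ⟨c, hc⟩ | ⟨c, hc⟩
      · rcases Nat.even_or_odd c with ⟨d, hd⟩ | ⟨d, hd⟩
        · exact ⟨d, by omega⟩
        · exact ⟨d, by omega⟩
      · exact ⟨c, by omega⟩
    rcases hk with hk | hk | hk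
    · -- odd
      exfalso
      have hk1 : 1 ≤ k := by omega
      have hc : Nat.Coprime k m := by
        rw [hk]
        have h2 : Nat.Coprime k (1 + k * 2) := (Nat.coprime_add_mul_left_right k 1 2).2
          (Nat.coprime_one_right k)
        have h3 : 2 * k + 1 = 1 + k * 2 := by ring
        rw [h3]
        exact h2
      rcases key k (by omega) hc with h2 | h2
      · nlinarith
      · nlinarith
    · -- m = 4 k
      have hk1 : 1 ≤ k := by omega
      obtain ⟨c, hc⟩ : ∃ c, k = c + 1 := ⟨k - 1, by omega⟩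
      subst hc
      have hcop : Nat.Coprime (2 * c + 1) m := by
        rw [hk]
        have h2 : Nat.Coprime (2 * c + 1) 2 := by
          rw [Nat.coprime_two_right]
          exact ⟨c, rfl⟩
        have h3 : 4 * (c + 1) = 2 + (2 * c + 1) * 2 := by ring
        rw [h3]
        exact (Nat.coprime_add_mul_left_right (2 * c + 1) 2 2).2 h2
      rcases key (2 * c + 1) (by omega) hcop with h2 | h2
      · left
        have h3 : c = 0 := by nlinarith
        subst h3
        omega
      · exfalso
        nlinarith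
    · -- m = 4 k + 2
      rcases Nat.eq_zero_or_pos k with hk0 | hk0
      · exfalso
        subst hk0
        have hm2 : m = 2 := by omega
        subst hm2
        rcases key 1 (by omega) (Nat.coprime_one_left 2) with h2 | h2
        · omega
        · omega
      · obtain ⟨c, hc⟩ : ∃ c, k = c + 1 := ⟨k - 1, by omega⟩
        subst hc
        have hcop : Nat.Coprime (2 * c + 1) m := by
          rw [hk]
          have h2 : Nat.Coprime (2 * c + 1) 4 := by
            have h4 : (4 : ℕ) = 2 ^ 2 := by norm_num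
            rw [h4]
            apply Nat.Coprime.pow_right
            rw [Nat.coprime_two_right]
            exact ⟨c, rfl⟩
          have h3 : 4 * (c + 1) + 2 = 4 + (2 * c + 1) * 2 := by ring
          rw [h3]
          exact (Nat.coprime_add_mul_left_right (2 * c + 1) 4 2).2 h2
        rcases key (2 * c + 1) (by omega) hcop with h2 | h2
        · right
          have h3 : c ≤ 1 := by nlinarith
          rcases (show c = 0 ∨ c = 1 by omega) with h4 | h4
          · subst h4
            left
            omega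
          · subst h4
            right
            omega
        · exfalso
          nlinarith
  rcases hcase with ⟨h4, hp3⟩ | ⟨h6, hp5⟩ | ⟨h10, hp3⟩
  · left
    subst h4
    refine ⟨hp3, ?_⟩
    interval_cases b
    · left; ring
    · exact absurd hmb (by decide)
    · right; ring
  · right; left
    subst h6
    refine ⟨hp5, ?_⟩
    interval_cases b
    · left; ring
    · exact absurd hmb (by decide)
    · exact absurd hmb (by decide)
    · exact absurd hmb (by decide)
    · right; ring
  · right; right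
    subst h10
    refine ⟨hp3, ?_⟩
    interval_cases b
    · left; ring
    · exact absurd hmb (by decide)
    · right; left; ring
    · exact absurd hmb (by decide)
    · exact absurd hmb (by decide)
    · exact absurd hmb (by decide)
    · right; right; left; ring
    · exact absurd hmb (by decide)
    · right; right; right; ring

end Q278.SQNTA
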