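import Pool.Agent.Q278.YD

/-!
# The closed forms modulo `p²`
-/

set_option autoImplicit false

namespace Pool.Agent.Q278.YC

open Finset Pool.Agent.Q267.CDE

variable {p : ℕ} [hp : Fact p.Prime] {r : ℕ}

/-- the central binomial coefficient -/
noncomputable def CC (p r : ℕ) : R p := (((4 * r).choose (2 * r) : ℕ) : R p)

theorem CC_mul (r : ℕ) : CC p r * ((2 * r).factorial : R p) ^ 2 = ((4 * r).factorial : R p) := by
  have h := Nat.add_choose_mul_factorial_mul_factorial (2 * r) (2 * r)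
  rw [show 2 * r + 2 * r = 4 * r by ring] at h
  have h1 := congrArg (Nat.cast : ℕ → R p) h
  push_cast at h1
  unfold CC
  rw [← h1]
  ring

theorem unit_six (hr : p = 6 * r + 1) (j : ℕ) (hj : j < r) : IsUnit (6 * (j : R p) + 1) := by
  have := isUnit_nat p (6 * j + 1) (by omega) (by omega)
  push_cast at this
  exact this

theorem unit_three (hr : p = 6 * r + 1) (j : ℕ) (hj : j < 2 * r) : IsUnit (3 * (j : R p) + 1) := by
  have := isUnit_nat p (3 * j + 1) (by omega) (by omega)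
  push_cast at this
  exact this

theorem X1_eval (hr : p = 6 * r + 1) (y : R p) (hy : 6 * y = 1) (X : R p)
    (hX : X * ∏ j ∈ range r, (6 * (j : R p) + 1) = ∏ j ∈ range r, (-4 * (6 * (j : R p) + 2))) :
    X = CC p r * (1 + p * (y * D p (2 * r))) := by
  have hpp := p_sq p
  have a1 := A1 hr y hy
  have a2 := A2 hr y hy
  have a3 := A3 hr y hy
  have a4 := A4 (p := p) (r := r)
  have b1 := B1 (p := p) hr
  have b3 := B3 hr y hy
  have c := CC_mul (p := p) r
  have h1 : ∏ j ∈ range r, (-4 * (6 * (j : R p) + 2)) =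
      (-4) ^ r * (2 ^ r * ∏ j ∈ range r, (3 * (j : R p) + 1)) := by
    rw [pow_prod, pow_prod]
    exact prod_congr rfl fun j _ => by ring
  rw [h1, a1] at hX
  rw [a4] at a2
  set u := ∏ j ∈ range r, (3 * (j : R p) + 1)
  set w := ∏ j ∈ range r, (3 * ((r : R p) + j) + 1)
  set a := (r.factorial : R p)
  set b := ((2 * r).factorial : R p)
  set d := ((4 * r).factorial : R p)
  set E1 := D p r
  set E2 := D p (2 * r)
  -- first relation
  have e36 : ((-6 : R p)) ^ r * (-6) ^ r = 9 ^ r * 4 ^ r := by rw [← mul_pow, ← mul_pow]; norm_num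
  have e4 : ((2 : R p)) ^ r * 2 ^ r = 4 ^ r := by rw [← mul_pow]; norm_num
  have u36 : IsUnit ((9 : R p) ^ r * 4 ^ r) := by
    rw [← mul_pow]
    refine IsUnit.pow _ ?_
    refine IsUnit.of_mul_eq_one (y ^ 2) ?_
    linear_combination (6 * y + 1) * hy
  have g1 : X * a ^ 2 * (1 - p * (3 * y * E1)) = (-4) ^ r * b * (1 - p * (2 * y * E2)) := by
    apply u36.mul_left_cancel
    linear_combination (2 ^ r * w) * hX - X * (-6) ^ r * a * (1 - p * (y * E1)) * a3
      + (-4) ^ r * 4 ^ r * a2 + (-4) ^ r * u * w * e4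
      - X * a ^ 2 * (1 - p * (3 * y * E1)) * e36
      - X * a ^ 2 * (-6) ^ r * (-6) ^ r * 2 * y ^ 2 * E1 ^ 2 * hpp
  have e64 : ((-16 : R p)) ^ r * (-4) ^ r = 64 ^ r := by rw [← mul_pow]; norm_num
  have ub := (unit_fact p (2 * r) (by omega)).pow 3
  have g2 : X * (1 - p * (3 * y * E1)) = 64 ^ r * CC p r * (1 - p * (2 * y * E2)) := by
    apply ub.mul_left_cancel
    linear_combination (-16) ^ r * d * g1 - X * (1 - p * (3 * y * E1)) * b1
      + b * d * (1 - p * (2 * y * E2)) * e64 - 64 ^ r * b * (1 - p * (2 * y * E2)) * c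
  have g3 : X * (1 - p * (3 * y * E2)) = CC p r * (1 - p * (2 * y * E2)) := by
    linear_combination (1 - p * (3 * y * (E2 - E1))) * g2 + CC p r * (1 - p * (2 * y * E2)) * b3
      - X * (3 * y * E1) * (3 * y * (E2 - E1)) * hpp
  linear_combination (1 + p * (3 * y * E2)) * g3
    + (X * (3 * y * E2) ^ 2 - CC p r * (2 * y * E2) * (3 * y * E2)) * hpp

theorem X2_eval (hr : p = 6 * r + 1) (y : R p) (hy : 6 * y = 1) (X : R p)
    (hX : X * ∏ j ∈ range (2 * r), (6 * (j : R p) + 2) =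
      ∏ j ∈ range (2 * r), (-4 * (6 * (j : R p) + 3))) :
    X = CC p r * (1 + p * (2 * (y * D p (2 * r)))) := by
  have hpp := p_sq p
  have a2 := A2 hr y hy
  have c := CC_mul (p := p) r
  have d1 := double (p := p) (2 * r)
  rw [show 2 * (2 * r) = 4 * r by ring] at d1
  have h1 : ∏ j ∈ range (2 * r), (-4 * (6 * (j : R p) + 3)) =
      (-12) ^ (2 * r) * ∏ j ∈ range (2 * r), (2 * (j : R p) + 1) := by
    rw [pow_prod]
    exact prod_congr rfl fun j _ => by ring
  have h2 : ∏ j ∈ range (2 * r), (6 * (j : R p) + 2) =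
      2 ^ (2 * r) * ∏ j ∈ range (2 * r), (3 * (j : R p) + 1) := by
    rw [pow_prod]
    exact prod_congr rfl fun j _ => by ring
  rw [h1, h2, a2, pow_mul, pow_mul] at hX
  rw [pow_mul] at d1
  set Q := ∏ j ∈ range (2 * r), (2 * (j : R p) + 1)
  set b := ((2 * r).factorial : R p)
  set d := ((4 * r).factorial : R p)
  set E2 := D p (2 * r)
  have e1 : ((-12 : R p) ^ 2) ^ r = (2 ^ 2) ^ r * (2 ^ 2) ^ r * 9 ^ r := by
    rw [← mul_pow, ← mul_pow]; norm_num
  rw [e1] at hX
  have hu : IsUnit (((2 : R p) ^ 2) ^ r * 9 ^ r * b ^ 2) := by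
    refine IsUnit.mul ?_ ((unit_fact p (2 * r) (by omega)).pow 2)
    rw [← mul_pow]
    refine IsUnit.pow _ ?_
    refine IsUnit.of_mul_eq_one (y ^ 2) ?_
    linear_combination (6 * y + 1) * hy
  have g1 : X * (1 - p * (2 * y * E2)) = CC p r := by
    apply hu.mul_left_cancel
    linear_combination b * hX - (2 ^ 2) ^ r * 9 ^ r * d1 - (2 ^ 2) ^ r * 9 ^ r * c
  linear_combination (1 + p * (2 * y * E2)) * g1 + (X * (2 * y * E2) ^ 2) * hpp

end Pool.Agent.Q278.YC
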