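import Pool.Agent.Q267.CDE.Eis
import Pool.Agent.Q278.YE

/-!
# The central binomial coefficient and the representation `4p = L² + 27M²` modulo `p²`
-/

set_option autoImplicit false

namespace Pool.Agent.Q278.YC

open Finset Pool.Agent.Q267.CDE Pool.Agent.Y692.QS

variable {p : ℕ} [hp : Fact p.Prime] {r : ℕ}

theorem H_sym (hr : p = 6 * r + 1) (j : ℕ) (hj : j ≤ 3 * r) :
    H (ZMod p) (3 * r + j) = H (ZMod p) (3 * r - j) := by
  induction j with
  | zero => rfl
  | succ j ih =>
    have ih := ih (by omega)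
    rw [← add_assoc, H_succ, ih]
    obtain ⟨m, hm⟩ : ∃ m, 3 * r - j = m + 1 := ⟨3 * r - j - 1, by omega⟩
    rw [hm, show 3 * r - (j + 1) = m by omega, H_succ]
    have h1 := cast_ne p (m + 1) (by omega) (by omega)
    have h2 : (((3 * r + j : ℕ) : ZMod p) + 1) = -((m : ZMod p) + 1) := by
      have h3 : 3 * r + j + 1 + (m + 1) = p := by omega
      have h4 := congrArg (Nat.cast : ℕ → ZMod p) h3
      rw [show ((p : ℕ) : ZMod p) = 0 from CharP.cast_eq_zero _ _] at h4
      push_cast at h4 ⊢
      linear_combination h4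
    rw [h2, inv_neg]
    ring

/-- **the central binomial coefficient modulo `p²`** -/
theorem CC_rel (hr : p = 6 * r + 1) (L M : ℤ) (h4 : 4 * (p : ℤ) = L ^ 2 + 27 * M ^ 2)
    (hL : (3 : ℤ) ∣ L - 2) :
    CC p r ^ 2 = L * CC p r - p ∧ L * CC p r = (L : R p) ^ 2 - p := by
  have h2p := hp.out.two_le
  have hr0 : 0 < r := by omega
  have hp3 : p ≠ 3 := by omega
  -- the prime element
  have hpar : (2 : ℤ) ∣ L + 3 * M := by
    have h5 : (2 : ℤ) ∣ (L + 3 * M) * (L + 3 * M) := by
      refine ⟨2 * p - 9 * M ^ 2 + 3 * L * M, ?_⟩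
      linear_combination -h4
    rcases Int.prime_two.dvd_or_dvd h5 with h | h <;> exact h
  obtain ⟨A, hA⟩ := hpar
  set π : Ei := ⟨A, 3 * M⟩ with hπdef
  have hπ : nr π = p := by
    unfold nr
    have e : 4 * (A ^ 2 - A * (3 * M) + (3 * M) ^ 2) = 4 * (p : ℤ) := by
      linear_combination -h4 + (L + 3 * M - 6 * M + 2 * A) * (-hA)
    show A ^ 2 - A * (3 * M) + (3 * M) ^ 2 = (p : ℤ)
    linarith
  have hπ1 : (3 : Ei) ∣ π - 1 := by
    have h5 : (((3 : ℤ)) : Ei) ∣ π - 1 := by
      rw [int_dvd]
      constructor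
      · rw [QuadraticAlgebra.re_sub]
        show (3 : ℤ) ∣ A - 1
        obtain ⟨c, hc⟩ := hL
        omega
      · rw [QuadraticAlgebra.im_sub]
        show (3 : ℤ) ∣ 3 * M - 0
        exact ⟨M, by ring⟩
    exact_mod_cast h5
  have hJ : Jc hπ hp3 = -π := by
    have h5 := ns_pi hπ hp3
    rw [ns_fix hπ1] at h5
    linear_combination h5
  -- the Jacobi sum
  have hodd : Odd p := ⟨3 * r, by omega⟩
  have hH : H (ZMod p) (4 * r) = H (ZMod p) (2 * r) := by
    have := H_sym hr r (by omega)
    rwa [show 3 * r + r = 4 * r by ring, show 3 * r - r = 2 * r by omega] at this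
  have h6 := jac p hodd (2 * r) (4 * r) (by omega) (by omega) (by omega) 0 (by
    rw [map_zero, show 4 * r - 2 * r = 2 * r by omega, hH]
    push_cast
    ring)
  rw [mul_zero, add_zero, mul_one, pow_mul, neg_one_sq, one_pow, one_mul,
    show p - 1 - 2 * r = 4 * r by omega] at h6
  have h7 : ∑ t : ZMod p, om p t ^ (4 * r) * om p (1 - t) ^ (4 * r) =
      Phi hπ hp3 (star (Jc hπ hp3)) := by
    unfold Jc jacobiSum
    rw [star_sum, map_sum]
    refine sum_congr rfl fun t _ => ?_
    rw [star_mul, star_chi, star_chi, map_mul, map_pow, map_pow, Phi_chi, Phi_chi, ← pow_mul,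
      ← pow_mul, show (p - 1) / 3 * 2 = 4 * r by omega]
    ring
  have hC : CC p r = Phi hπ hp3 (star π) := by
    rw [h7, hJ, star_neg, map_neg] at h6
    unfold CC
    linear_combination h6
  have h8 : Phi hπ hp3 π * CC p r = p := by
    rw [hC, ← map_mul, mul_star, hπ]
    simp
  have h9 : Phi hπ hp3 π + CC p r = L := by
    rw [hC, ← map_add]
    have : π + star π = ((L : ℤ) : Ei) := by
      ext
      · rw [QuadraticAlgebra.re_add, star_re, QuadraticAlgebra.re_intCast]
        show A + (A - 3 * M) = L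
        linear_combination -hA
      · rw [QuadraticAlgebra.im_add, star_im, QuadraticAlgebra.im_intCast]
        show 3 * M + -(3 * M) = 0
        ring
    rw [this, map_intCast]
  have hu : IsUnit (CC p r) := by
    have h10 := unit_fact p (4 * r) (by omega)
    rw [← CC_mul] at h10
    exact isUnit_of_mul_isUnit_left h10
  set W := Phi hπ hp3 π
  have h11 : W ^ 2 = 0 := by
    apply (hu.pow 2).mul_left_cancel
    rw [mul_zero]
    linear_combination (W * CC p r + p) * h8 + p_sq p
  constructor
  · rw [← h9]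
    linear_combination -h8
  · rw [← h9]
    linear_combination -h8 - h11

end Pool.Agent.Q278.YC
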