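import Pool.Agent.Q278.YB
import Pool.Agent.Q278.YF

/-!
# Transfer of products of rationals to `ℤ/p²`
-/

set_option autoImplicit false

namespace Pool.Agent.Q278.YC

open Finset Pool.Agent.Q267.CDE Q278.PI

variable (p : ℕ) [hp : Fact p.Prime]

/-- products of fractions in `ℤ_(p)` -/
noncomputable def PO (num den : ℕ → ℤ) (n : ℕ) : O p :=
  ∏ i ∈ range n, ((num i : O p) * invI p (den i))

theorem PO_coe (num den : ℕ → ℤ) (n : ℕ) (h : ∀ i, i < n → ¬ (p : ℤ) ∣ den i) :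
    ((PO p num den n : O p) : ℚ) = ∏ i ∈ range n, ((num i : ℚ) / (den i : ℚ)) := by
  induction n with
  | zero => simp [PO]
  | succ n ih =>
    have ih := ih fun i hi => h i (by omega)
    unfold PO at ih ⊢
    rw [prod_range_succ, prod_range_succ]
    push_cast at ih ⊢
    rw [ih, invI_coe p _ (h n (by omega))]
    rfl

theorem PO_res (num den : ℕ → ℤ) (n : ℕ) (h : ∀ i, i < n → ¬ (p : ℤ) ∣ den i) :
    res2 p (PO p num den n) * ∏ i ∈ range n, ((den i : ℤ) : R p) =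
      ∏ i ∈ range n, ((num i : ℤ) : R p) := by
  induction n with
  | zero => simp [PO]
  | succ n ih =>
    have ih := ih fun i hi => h i (by omega)
    have h1 := res2_invI p _ (h n (by omega))
    unfold PO at ih ⊢
    rw [prod_range_succ, prod_range_succ, prod_range_succ, map_mul, map_mul, map_intCast]
    linear_combination ((num n : R p) * (den n : R p) * res2 p (invI p (den n))) * ih
      + ((num n : R p) * ∏ i ∈ range n, ((num i : ℤ) : R p)) * h1

theorem PO_lin (u v : R p) (n1 d1 n2 d2 n3 d3 : ℕ → ℤ) (n : ℕ)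
    (h1 : ∀ i, i < n → ¬ (p : ℤ) ∣ d1 i) (h2 : ∀ i, i < n → ¬ (p : ℤ) ∣ d2 i)
    (h3 : ∀ i, i < n → ¬ (p : ℤ) ∣ d3 i)
    (hn : ∀ i, i < n → Lin u v (n1 i : R p) (n2 i) (n3 i))
    (hd : ∀ i, i < n → Lin u v (d1 i : R p) (d2 i) (d3 i)) :
    Lin u v (res2 p (PO p n1 d1 n)) (res2 p (PO p n2 d2 n)) (res2 p (PO p n3 d3 n)) := by
  unfold PO
  rw [map_prod, map_prod, map_prod]
  refine Lin.prod _ _ _ n fun i hi => ?_
  rw [map_mul, map_mul, map_mul, map_intCast, map_intCast, map_intCast]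
  exact (hn i hi).mul ((hd i hi).inv (res2_invI p _ (h1 i hi)) (res2_invI p _ (h2 i hi))
    (res2_invI p _ (h3 i hi)))

/-- the basic linear triple -/
theorem lin_int (m j : ℤ) : Lin (p := p) 1 2 ((m : ℤ) : R p) ((m + j * p : ℤ) : R p)
    ((m + j * (2 * p) : ℤ) : R p) := by
  refine ⟨(j : R p), ?_, ?_⟩
  · push_cast; ring
  · push_cast; ring

theorem lin_int' (m j : ℤ) : Lin (p := p) 1 (-2) ((m : ℤ) : R p) ((m + j * p : ℤ) : R p)
    ((m + j * (-2 * p) : ℤ) : R p) := by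
  refine ⟨(j : R p), ?_, ?_⟩
  · push_cast; ring
  · push_cast; ring

variable {p}

theorem not_dvd_small (x : ℤ) (h0 : x ≠ 0) (h1 : -(p : ℤ) < x) (h2 : x < p) : ¬ (p : ℤ) ∣ x := by
  rintro ⟨c, rfl⟩
  have hc : c ≠ 0 := by
    rintro rfl
    exact h0 (mul_zero _)
  have hpp : (0 : ℤ) < p := by exact_mod_cast hp.out.pos
  rcases lt_or_gt_of_ne hc with h | h
  · nlinarith
  · nlinarith

theorem not_dvd_mul {x y : ℤ} (hx : ¬ (p : ℤ) ∣ x) (hy : ¬ (p : ℤ) ∣ y) : ¬ (p : ℤ) ∣ x * y := by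
  intro h
  have hpr : Prime (p : ℤ) := Nat.prime_iff_prime_int.1 hp.out
  rcases hpr.dvd_or_dvd h with h | h
  · exact hx h
  · exact hy h

theorem not_dvd_add {x : ℤ} (hx : ¬ (p : ℤ) ∣ x) (j : ℤ) : ¬ (p : ℤ) ∣ x + j * p := by
  intro h
  apply hx
  have := dvd_sub h (Dvd.intro_left j rfl : (p : ℤ) ∣ j * p)
  rwa [add_sub_cancel_right] at this

end Pool.Agent.Q278.YC
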