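import Pool.Agent.Q278.YI

/-!
# The trinomial sums modulo `p²`: evaluation
-/

set_option autoImplicit false

namespace Pool.Agent.Q278.YC

open Finset Pool.Agent.Q267.CDE Q278.PI Pool.Agent.Q278.YA

variable {p : ℕ} [hp : Fact p.Prime] {r : ℕ}

/-- `(-27)^r = 1` and `64^r = 1` modulo `p` -/
theorem pow_r (hr : p = 6 * r + 1) (z : ZMod p) (hz : z * z = -1 - z) :
    (-64 : ZMod p) ^ r = 27 ^ r := by
  have h3 : ¬ (p : ℤ) ∣ 3 := small_nd hr 3 (by norm_num) (by norm_num)
  have h2 : ¬ (p : ℤ) ∣ 2 := small_nd hr 2 (by norm_num) (by norm_num)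
  have h30 : (3 : ZMod p) ≠ 0 := by
    intro h
    apply h3
    rw [← ZMod.intCast_zmod_eq_zero_iff_dvd]
    exact_mod_cast h
  have h20 : (2 : ZMod p) ≠ 0 := by
    intro h
    apply h2
    rw [← ZMod.intCast_zmod_eq_zero_iff_dvd]
    exact_mod_cast h
  have hs : (1 + 2 * z) ^ 2 = -3 := by linear_combination 4 * hz
  have hs0 : (1 + 2 * z) ≠ 0 := by
    intro h
    rw [h] at hs
    apply h30
    linear_combination hs
  have e6 : p - 1 = 6 * r := by omega
  have f1 : (1 + 2 * z) ^ (6 * r) = 1 := by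
    rw [← e6]
    exact ZMod.pow_card_sub_one_eq_one hs0
  have f2 : (2 : ZMod p) ^ (6 * r) = 1 := by
    rw [← e6]
    exact ZMod.pow_card_sub_one_eq_one h20
  have g1 : (-27 : ZMod p) ^ r = 1 := by
    rw [← f1, pow_mul]
    congr 1
    calc (-27 : ZMod p) = (-3) ^ 3 := by norm_num
      _ = ((1 + 2 * z) ^ 2) ^ 3 := by rw [hs]
      _ = (1 + 2 * z) ^ 6 := by ring
  have g2 : (64 : ZMod p) ^ r = 1 := by
    rw [← f2, pow_mul]
    norm_num
  have e1 : (-64 : ZMod p) ^ r = (-1) ^ r * 64 ^ r := by rw [← mul_pow]; norm_num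
  have e2 : (27 : ZMod p) ^ r = (-1) ^ r * (-27) ^ r := by rw [← mul_pow]; norm_num
  rw [e1, e2, g1, g2]

theorem unit_four (hr : p = 6 * r + 1) : IsUnit (4 : R p) := by
  have h := isUnit_int p 4 (small_nd hr 4 (by norm_num) (by norm_num))
  push_cast at h
  exact h

theorem exists_kappa (hr : p = 6 * r + 1) (z : ZMod p) (hz : z * z = -1 - z) :
    ∃ κ e : R p, κ = 1 + p * e ∧ κ * (-64) ^ r = 27 ^ r := by
  have h1 : red p (27 ^ r) = red p ((-64) ^ r) := by
    rw [map_pow, map_pow, map_neg]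
    have e27 : red p 27 = 27 := map_ofNat _ _
    have e64 : red p 64 = 64 := map_ofNat _ _
    rw [e27, e64]
    exact (pow_r hr z hz).symm
  obtain ⟨w, hw⟩ := red_eq_of p _ _ h1
  have hu : IsUnit ((-64 : R p) ^ r) := by
    refine IsUnit.pow _ ?_
    have h8 := ((unit_four hr).pow 3).neg
    have e : -(4 : R p) ^ 3 = -64 := by norm_num
    rwa [e] at h8
  obtain ⟨u', hu'⟩ := hu.exists_right_inv
  refine ⟨1 + p * (u' * w), u' * w, rfl, ?_⟩
  rw [hw]
  linear_combination (p * w) * hu'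

theorem unit_prod (n : ℕ) (f : ℕ → R p) (h : ∀ i, i < n → IsUnit (f i)) :
    IsUnit (∏ i ∈ range n, f i) := by
  induction n with
  | zero => rw [prod_range_zero]; exact isUnit_one
  | succ n ih =>
    rw [prod_range_succ]
    exact (ih fun i hi => h i (by omega)).mul (h n (by omega))

theorem FO_eval (hr : p = 6 * r + 1) (z : ZMod p) (hz : z * z = -1 - z) :
    ∃ d : R p, res2 p (FO p p) = CC p r + p * d ∧ res2 p (FO p (2 * p)) = CC p r + p * (2 * d) := by
  obtain ⟨κ, e, hκ, hk⟩ := exists_kappa hr z hz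
  obtain ⟨y, hy⟩ := exists_y (p := p) hr
  have hpp := p_sq p
  -- first value
  have h1 := PO_res p (fun j => 27 * (6 * (j : ℤ) + 2)) (fun j => 16 * (6 * (j : ℤ) + 1)) r
    fun i hi => sixteen_one hr i hi
  rw [← FO_p hr] at h1
  push_cast at h1
  have k1 := PO_res p (fun j => -4 * (6 * (j : ℤ) + 2)) (fun j => 6 * (j : ℤ) + 1) r
    fun i hi => six_nd hr i hi
  have g1 : res2 p (PO p (fun j => -4 * (6 * (j : ℤ) + 2)) (fun j => 6 * (j : ℤ) + 1) r) =
      CC p r * (1 + p * (y * D p (2 * r))) := by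
    apply X1_eval hr y hy
    push_cast at k1
    exact k1
  rw [g1] at k1
  push_cast at k1
  rw [← pow_prod (p := p) 27, ← pow_prod (p := p) 16] at h1
  rw [← pow_prod (p := p) (-4)] at k1
  have e1 : (-64 : R p) ^ r = 16 ^ r * (-4) ^ r := by rw [← mul_pow]; norm_num
  rw [e1] at hk
  have u1 : IsUnit ((16 : R p) ^ r * ∏ i ∈ range r, (6 * (i : R p) + 1)) := by
    refine IsUnit.mul (IsUnit.pow _ ?_) (unit_prod _ _ fun i hi => unit_six hr i hi)
    have := (unit_four hr).pow 2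
    norm_num at this
    exact this
  have s1 : res2 p (FO p p) = κ * (CC p r * (1 + p * (y * D p (2 * r)))) := by
    apply u1.mul_right_cancel
    linear_combination h1 - κ * 16 ^ r * k1 - (∏ i ∈ range r, (6 * (i : R p) + 2)) * hk
  -- second value
  have h2 := PO_res p (fun j => 27 * (6 * (j : ℤ) + 3)) (fun j => 16 * (6 * (j : ℤ) + 2)) (2 * r)
    fun i hi => sixteen_two hr i hi
  rw [← FO_2p hr] at h2
  push_cast at h2
  have k2 := PO_res p (fun j => -4 * (6 * (j : ℤ) + 3)) (fun j => 6 * (j : ℤ) + 2) (2 * r)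
    fun i hi => six2_nd hr i hi
  have g2 : res2 p (PO p (fun j => -4 * (6 * (j : ℤ) + 3)) (fun j => 6 * (j : ℤ) + 2) (2 * r)) =
      CC p r * (1 + p * (2 * (y * D p (2 * r)))) := by
    apply X2_eval hr y hy
    push_cast at k2
    exact k2
  rw [g2] at k2
  push_cast at k2
  rw [← pow_prod (p := p) 27, ← pow_prod (p := p) 16] at h2
  rw [← pow_prod (p := p) (-4)] at k2
  rw [pow_mul', pow_mul'] at h2
  rw [pow_mul'] at k2
  have u2 : IsUnit (((16 : R p) ^ r) ^ 2 * ∏ i ∈ range (2 * r), (6 * (i : R p) + 2)) := by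
    refine IsUnit.mul (IsUnit.pow _ (IsUnit.pow _ ?_)) (unit_prod _ _ fun i hi => ?_)
    · have := (unit_four hr).pow 2
      norm_num at this
      exact this
    · have h3 := isUnit_int p _ (six2_nd hr i hi)
      push_cast at h3
      exact h3
  have s2 : res2 p (FO p (2 * p)) = κ ^ 2 * (CC p r * (1 + p * (2 * (y * D p (2 * r))))) := by
    apply u2.mul_right_cancel
    linear_combination h2 - κ ^ 2 * (16 ^ r) ^ 2 * k2
      - (∏ i ∈ range (2 * r), (6 * (i : R p) + 3)) * (κ * (16 ^ r * (-4) ^ r) + 27 ^ r) * hk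
  refine ⟨CC p r * (e + y * D p (2 * r)), ?_, ?_⟩
  · rw [s1, hκ]
    linear_combination (CC p r * e * y * D p (2 * r)) * hpp
  · rw [s2, hκ]
    linear_combination (CC p r * (e ^ 2 + 4 * e * y * D p (2 * r)
      + 2 * p * e ^ 2 * y * D p (2 * r))) * hpp

theorem FO_zero (hr : p = 6 * r + 1) (z : ZMod p) (hz : z * z = -1 - z) :
    res2 p (FO p 0) = CC p r := by
  obtain ⟨d, h1, h2⟩ := FO_eval hr z hz
  rw [(FO_lin hr).eval, h1, h2]
  ring

theorem WO_zero (hr : p = 6 * r + 1) (z : ZMod p) (hz : z * z = -1 - z) :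
    9 * res2 p (WO p 0) = -CC p r + res2 p (ZO p r) := by
  obtain ⟨d, h1, h2⟩ := FO_eval hr z hz
  have h3 := congrArg (res2 p) (WO_p hr)
  have h4 := congrArg (res2 p) (WO_2p hr)
  have e9 : res2 p 9 = 9 := map_ofNat _ _
  have e2 : res2 p 2 = 2 := map_ofNat _ _
  rw [map_mul, map_mul, map_sub, map_natCast, map_one, e9, h1] at h3
  rw [map_mul, map_sub, map_mul, map_sub, map_mul, map_natCast, map_one, e9, e2, h2] at h4
  rw [(WO_lin hr).eval]
  linear_combination 2 * h3 - h4 - 2 * d * p_sq p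

theorem ZO_eval (hr : p = 6 * r + 1) (z : ZMod p) (hz : z * z = -1 - z) :
    res2 p (ZO p r) * CC p r = p := by
  obtain ⟨κ, e, hκ, hk⟩ := exists_kappa hr z hz
  obtain ⟨y, hy⟩ := exists_y (p := p) hr
  have hpp := p_sq p
  have h1 := PO_res p (fun j => 27 * (6 * (j : ℤ) + 7)) (fun j => 16 * (6 * (j : ℤ) + 2)) (2 * r)
    fun i hi => sixteen_two hr i hi
  change res2 p (ZO p r) * _ = _ at h1
  push_cast at h1
  rw [← pow_prod (p := p) 27] at h1
  have h2 : ∏ i ∈ range (2 * r), (16 * (6 * (i : R p) + 2)) =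
      32 ^ (2 * r) * ∏ i ∈ range (2 * r), (3 * (i : R p) + 1) := by
    rw [pow_prod]
    exact prod_congr rfl fun j _ => by ring
  have h0 := castp (p := p) hr
  -- the product with the factor p
  have h3 : ∏ i ∈ range (2 * r), (6 * (i : R p) + 7) = p *
      (∏ i ∈ range r, (6 * (i : R p) + 1)) * ∏ i ∈ range r, (6 * ((i : R p) + 1) + p * 1) := by
    rw [two_mul, prod_range_add]
    congr 1
    · have h4 := prod_range_succ (fun i : ℕ => (6 * (i : R p) + 1)) r
      have h5 := prod_range_succ' (fun i : ℕ => (6 * (i : R p) + 1)) r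
      rw [h4] at h5
      rw [h0]
      push_cast at h5
      have h6 : ∏ i ∈ range r, (6 * (i : R p) + 7) = ∏ i ∈ range r, (6 * ((i : R p) + 1) + 1) :=
        prod_congr rfl fun i _ => by ring
      rw [h6]
      linear_combination -h5
    · refine prod_congr rfl fun i _ => ?_
      push_cast
      rw [h0]; ring
  have a1 := A1 hr y hy
  have a2 := A2 hr y hy
  have b1 := B1 (p := p) hr
  have c := CC_mul (p := p) r
  have h7 := prod_shift0 p 6 y 1 (by linear_combination hy) r (by omega)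
  rw [h2, h3, a1, a2, h7, pow_mul, pow_mul] at h1
  set a := (r.factorial : R p)
  set b := ((2 * r).factorial : R p)
  set d := ((4 * r).factorial : R p)
  set E1 := D p r
  set E2 := D p (2 * r)
  set Z := res2 p (ZO p r)
  have ub : IsUnit b := unit_fact p (2 * r) (by omega)
  -- `(-16)^r a² C = b`
  have g1 : (-16) ^ r * a ^ 2 * CC p r = b := by
    apply (ub.pow 2).mul_left_cancel
    linear_combination b1 + (-16) ^ r * a ^ 2 * c
  have g2 : (p : R p) * (27 ^ r) ^ 2 = p * (64 ^ r) ^ 2 := by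
    have e1 : (64 : R p) ^ r = (-1) ^ r * (-64) ^ r := by rw [← mul_pow]; norm_num
    have e2 : ((-1 : R p)) ^ r * (-1) ^ r = 1 := by rw [← mul_pow]; norm_num
    rw [← hk, e1, hκ]
    linear_combination (((-64 : R p) ^ r) ^ 2 * e * (2 + p * e)) * hpp
      - p * ((-64 : R p) ^ r) ^ 2 * e2
  have u1 : IsUnit (((32 : R p) ^ 2) ^ r * 9 ^ r * b) := by
    refine IsUnit.mul ?_ ub
    rw [← mul_pow]
    refine IsUnit.pow _ ?_
    have h8 := isUnit_int p 2 (small_nd hr 2 (by norm_num) (by norm_num))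
    have h9 := isUnit_int p 3 (small_nd hr 3 (by norm_num) (by norm_num))
    have h10 := (h8.pow 10).mul (h9.pow 2)
    push_cast at h10
    norm_num at h10 ⊢
    exact h10
  -- powers
  have p1 : ((27 : R p) ^ 2) ^ r = (27 ^ r) ^ 2 := by rw [← pow_mul, ← pow_mul, mul_comm]
  have pr : (-16 : R p) ^ r * ((32 : R p) ^ 2) ^ r * 9 ^ r =
      (64 ^ r) ^ 2 * ((-6) ^ r * 6 ^ r) := by
    rw [← mul_pow, ← mul_pow, ← pow_mul 64, mul_comm r 2, pow_mul, ← mul_pow, ← mul_pow]
    norm_num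
  have u2 : IsUnit ((-16 : R p) ^ r) := by
    refine IsUnit.pow _ ?_
    have h8 := ((unit_four hr).pow 2).neg
    have e : -(4 : R p) ^ 2 = -16 := by norm_num
    rwa [e] at h8
  have g3 : Z * CC p r * (1 - p * (2 * y * E2)) = p := by
    apply (u2.mul u1).mul_left_cancel
    linear_combination ((-16) ^ r * CC p r) * h1
      + (((27 : R p) ^ 2) ^ r * p * (-6) ^ r * 6 ^ r) * g1
      + (p * (-6) ^ r * 6 ^ r * b) * p1 + ((-6) ^ r * 6 ^ r * b) * g2 - (p * b) * pr
      - ((-16) ^ r * CC p r * ((27 : R p) ^ 2) ^ r * (-6) ^ r * 6 ^ r * a ^ 2 * y ^ 2 * E1 ^ 2 * p) * hpp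
  linear_combination (1 + p * (2 * y * E2)) * g3
    + (Z * CC p r * (2 * y * E2) ^ 2 + 2 * y * E2) * hpp

end Pool.Agent.Q278.YC
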