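import Pool.Agent.Q278.YK

/-!
# The trinomial sum with denominator `24^k` modulo `p²`
-/

set_option autoImplicit false

namespace Pool.Agent.Q278.YC

open Finset Pool.Agent.Q267.CDE Q278.PI Pool.Agent.Q278.YA

/-- the trinomial coefficient as a product -/
theorem tri_prod (k : ℕ) : (((3 * k).factorial : ℚ) / (k.factorial : ℚ) ^ 3) =
    27 ^ k * ∏ i ∈ range k, (((3 * (i : ℚ) + 1) * (3 * i + 2)) / (9 * ((i : ℚ) + 1) ^ 2)) := by
  induction k with
  | zero => simp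
  | succ k ih =>
    have h1 : ((k : ℚ) + 1) ≠ 0 := by positivity
    have h2 : ((k.factorial : ℕ) : ℚ) ≠ 0 := by exact_mod_cast k.factorial_ne_zero
    rw [prod_range_succ]
    have h3 : (27 : ℚ) ^ (k + 1) * ((∏ i ∈ range k, (((3 * (i : ℚ) + 1) * (3 * i + 2)) /
        (9 * ((i : ℚ) + 1) ^ 2))) * (((3 * (k : ℚ) + 1) * (3 * k + 2)) / (9 * ((k : ℚ) + 1) ^ 2))) =
        (27 ^ k * ∏ i ∈ range k, (((3 * (i : ℚ) + 1) * (3 * i + 2)) / (9 * ((i : ℚ) + 1) ^ 2))) *
        (27 * (((3 * (k : ℚ) + 1) * (3 * k + 2)) / (9 * ((k : ℚ) + 1) ^ 2))) := by ring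
    rw [h3, ← ih, show 3 * (k + 1) = 3 * k + 1 + 1 + 1 by ring, Nat.factorial_succ,
      Nat.factorial_succ, Nat.factorial_succ, Nat.factorial_succ]
    push_cast
    field_simp
    ring

variable {p : ℕ} [hp : Fact p.Prime] {r : ℕ}

theorem aO_coe (hr : p = 6 * r + 1) (k : ℕ) (hk : k < p) : ((aO p k : O p) : ℚ) =
    ∏ i ∈ range k, (((3 * (i : ℚ) + 1) * (3 * i + 2)) / (9 * ((i : ℚ) + 1) ^ 2)) := by
  unfold aO
  rw [PO_coe p _ _ k fun i hi => nine_nd hr i (by omega)]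
  refine prod_congr rfl fun i _ => ?_
  push_cast
  rfl

theorem eight_nd (hr : p = 6 * r + 1) : ¬ (p : ℤ) ∣ 8 := by
  have h2 : ¬ (p : ℤ) ∣ 2 := small_nd hr 2 (by norm_num) (by norm_num)
  have h4 : ¬ (p : ℤ) ∣ 4 := small_nd hr 4 (by norm_num) (by norm_num)
  have := not_dvd_mul h2 h4
  norm_num at this
  exact this

theorem F_zero_eq (k : ℕ) : F 0 k =
    (∏ i ∈ range k, (((3 * (i : ℚ) + 1) * (3 * i + 2)) / (9 * ((i : ℚ) + 1) ^ 2))) *
      (-(8 : ℚ)⁻¹) ^ k := by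
  induction k with
  | zero => simp [F]
  | succ k ih =>
    have h1 : ((k : ℚ) + 1) ≠ 0 := by positivity
    unfold F at ih ⊢
    rw [prod_range_succ, prod_range_succ, ih, pow_succ]
    have h2 : (-((3 * (k : ℚ) + 1 - 0) * (3 * k + 2 - 0)) / (12 * (k + 1) * (6 * (k + 1) - 0))) =
        (((3 * (k : ℚ) + 1) * (3 * k + 2)) / (9 * ((k : ℚ) + 1) ^ 2)) * (-(8 : ℚ)⁻¹) := by
      rw [sub_zero, sub_zero, sub_zero]
      field_simp
      norm_num
    rw [h2]
    ring

theorem PO_aO (hr : p = 6 * r + 1) (k : ℕ) (hk : k < p) :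
    PO p (nF 0) (dF 0) k = aO p k * (-invI p 8) ^ k := by
  apply Subtype.ext
  have h1 := FPO_coe hr 0 k hk
  rw [zero_mul] at h1
  have h2 : (((aO p k * (-invI p 8) ^ k : O p)) : ℚ) =
      ((aO p k : O p) : ℚ) * (-((invI p 8 : O p) : ℚ)) ^ k := by push_cast; rfl
  rw [h1, h2, aO_coe hr k hk, invI_coe p 8 (eight_nd hr), Int.cast_zero, F_zero_eq]
  push_cast
  rfl

/-- the sum of the problem -/
noncomputable def SO (p : ℕ) [Fact p.Prime] : O p :=
  ∑ k ∈ range p, ((k : O p) + 2) * (aO p k * (9 * invI p 8) ^ k)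

theorem SO_coe (hr : p = 6 * r + 1) : ((SO p : O p) : ℚ) =
    ∑ k ∈ range p, ((k : ℚ) + 2) / 24 ^ k * (((3 * k).factorial : ℚ) / (k.factorial : ℚ) ^ 3) := by
  unfold SO
  rw [AddSubmonoidClass.coe_finsetSum]
  refine sum_congr rfl fun k hk => ?_
  have h1 : ((((k : O p) + 2) * (aO p k * (9 * invI p 8) ^ k) : O p) : ℚ) =
      ((k : ℚ) + 2) * (((aO p k : O p) : ℚ) * (9 * ((invI p 8 : O p) : ℚ)) ^ k) := by
    push_cast; rfl
  rw [h1, aO_coe hr k (mem_range.1 hk), invI_coe p 8 (eight_nd hr), tri_prod]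
  have h2 : (9 * (((8 : ℤ) : ℚ))⁻¹) ^ k = 27 ^ k / 24 ^ k := by
    rw [← div_pow]
    congr 1
    norm_num
  rw [h2]
  ring

theorem SO_res (hr : p = 6 * r + 1) (z : ZMod p) (hz : z * z = -1 - z) :
    res2 p (SO p) = CC p r + res2 p (ZO p r) := by
  have h8 := res2_invI p 8 (eight_nd hr)
  set e := res2 p (invI p 8) with he
  push_cast at h8
  have h9 : 1 - -e = 9 * e := by linear_combination -h8
  have e9 : res2 p 9 = 9 := map_ofNat _ _
  have e2 : res2 p 2 = 2 := map_ofNat _ _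
  have h1 : res2 p (SO p) = ∑ k ∈ range p, (k : R p) * (res2 p (aO p k) * (9 * e) ^ k) +
      2 * ∑ k ∈ range p, res2 p (aO p k) * (9 * e) ^ k := by
    unfold SO
    rw [map_sum, mul_sum, ← sum_add_distrib]
    refine sum_congr rfl fun k _ => ?_
    rw [map_mul, map_add, map_mul, map_pow, map_mul, map_natCast, e9, e2, ← he]
    ring
  have h2 : res2 p (FO p 0) = ∑ k ∈ range p, res2 p (aO p k) * (-e) ^ k := by
    unfold FO
    rw [map_sum]
    refine sum_congr rfl fun k hk => ?_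
    rw [PO_aO hr k (mem_range.1 hk), map_mul, map_pow, map_neg]
  have h3 : res2 p (WO p 0) = ∑ k ∈ range p, (k : R p) * (res2 p (aO p k) * (-e) ^ k) := by
    unfold WO
    rw [map_sum]
    refine sum_congr rfl fun k hk => ?_
    rw [PO_aO hr k (mem_range.1 hk), map_mul, map_mul, map_pow, map_neg, map_natCast]
  have h4 := refl_a hr (-e)
  have h5 := refl_ka hr (-e)
  rw [h9, ← h2] at h4
  rw [h9, ← h3] at h5
  have ue : IsUnit e := IsUnit.of_mul_eq_one 8 (by linear_combination h8)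
  have h6 : ∑ k ∈ range p, (k : R p) * (res2 p (aO p k) * (9 * e) ^ k) = 9 * res2 p (WO p 0) := by
    apply ue.mul_left_cancel
    linear_combination -h5
  rw [h1, h4, h6, FO_zero hr z hz, WO_zero hr z hz]
  ring

theorem SO_final (hr : p = 6 * r + 1) (L M : ℤ) (h4 : 4 * (p : ℤ) = L ^ 2 + 27 * M ^ 2)
    (hL : (3 : ℤ) ∣ L - 2) (z : ZMod p) (hz : z * z = -1 - z) :
    res2 p (SO p) = (L : R p) := by
  obtain ⟨c1, -⟩ := CC_rel hr L M h4 hL
  have h1 := ZO_eval hr z hz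
  have hu : IsUnit (CC p r) := by
    have h10 := unit_fact p (4 * r) (by omega)
    rw [← CC_mul] at h10
    exact isUnit_of_mul_isUnit_left h10
  rw [SO_res hr z hz]
  apply hu.mul_left_cancel
  linear_combination c1 + h1

/-- a cube root of unity modulo `p` -/
theorem exists_z (hr : p = 6 * r + 1) : ∃ z : ZMod p, z * z = -1 - z := by
  obtain ⟨g, hg, hg0⟩ := exists_gen p
  have hr0 : 0 < r := by
    have := hp.out.two_le
    omega
  refine ⟨g ^ (2 * r), ?_⟩
  have h1 : g ^ (2 * r) - 1 ≠ 0 := by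
    intro h
    have h2 : g ^ (2 * r) = 1 := sub_eq_zero.1 h
    have h3 := orderOf_dvd_of_pow_eq_one h2
    rw [hg] at h3
    have := Nat.le_of_dvd (by omega) h3
    omega
  have h2 : (g ^ (2 * r)) ^ 3 = 1 := by
    rw [← pow_mul, show 2 * r * 3 = p - 1 by omega]
    exact ZMod.pow_card_sub_one_eq_one hg0
  apply mul_left_cancel₀ h1
  linear_combination h2

end Pool.Agent.Q278.YC
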