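import Pool.Agent.Q278.PI

set_option autoImplicit false

/-! The supercongruence modulo `p ^ (2 r + 3)`. -/

namespace Q278.Seven

open Finset Q278.PI

/-- `s j = (M / n) / j`. -/
noncomputable def s (M n j : ℕ) : ℚ := (M : ℚ) / n / j

/-- `E j = ∏_{i ≤ j} (1 - s i) ^ (2 n)`. -/
noncomputable def E (M n j : ℕ) : ℚ := ∏ i ∈ range j, (1 - s M n (i + 1)) ^ (2 * n)

section basic

variable {p : ℕ} [hp : Fact p.Prime]

theorem s_zero (M n : ℕ) : s M n 0 = 0 := by simp [s]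

theorem not_dvd_pred {r : ℕ} (hr : 1 ≤ r) : ¬ p ∣ (p ^ r - 1) := by
  intro h
  have h1 : p ∣ p ^ r := dvd_pow_self p (by omega)
  have h2 : 1 ≤ p ^ r := Nat.one_le_pow _ _ hp.out.pos
  have h3 : p ∣ p ^ r - (p ^ r - 1) := Nat.dvd_sub h1 h
  rw [show p ^ r - (p ^ r - 1) = 1 by omega] at h3
  exact hp.out.one_lt.ne' (Nat.dvd_one.1 h3)

theorem s_mem {r n j : ℕ} (hn : ¬ p ∣ n) (h0 : 0 < j) (hj : j < p ^ r) :
    s (p ^ r) n j ∈ I p 1 := by
  obtain ⟨a, j', hj', rfl⟩ := Nat.exists_eq_pow_mul_and_not_dvd h0.ne' p hp.out.one_lt.ne'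
  have ha : a < r := by
    by_contra h
    have h1 : p ^ r ≤ p ^ a := Nat.pow_le_pow_right hp.out.pos (by omega)
    have h2 : 0 < j' := by
      rcases Nat.eq_zero_or_pos j' with h | h
      · subst h; simp at h0
      · exact h
    have h3 : p ^ a * 1 ≤ p ^ a * j' := Nat.mul_le_mul_left _ h2
    omega
  have hp0 : (p : ℚ) ≠ 0 := by exact_mod_cast hp.out.ne_zero
  have hn0 : (n : ℚ) ≠ 0 := by
    intro h
    have : n = 0 := by exact_mod_cast h
    exact hn (this ▸ dvd_zero _)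
  have hj0 : (j' : ℚ) ≠ 0 := by
    intro h
    have : j' = 0 := by exact_mod_cast h
    exact hj' (this ▸ dvd_zero _)
  have e : s (p ^ r) n (p ^ a * j') = (p : ℚ) ^ (r - a) * ((1 / (n : ℚ)) * (1 / (j' : ℚ))) := by
    unfold s
    push_cast
    have : (p : ℚ) ^ r = p ^ (r - a) * p ^ a := by rw [← pow_add]; congr 1; omega
    rw [this]
    field_simp
  rw [e]
  exact mono (by omega) ⟨_, (O p).mul_mem (inv_mem p hn) (inv_mem p hj'), rfl⟩

theorem odd_pow {r : ℕ} (hp5 : 5 ≤ p) : (p ^ r) % 2 = 1 := by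
  have : p % 2 = 1 := by
    rcases hp.out.eq_two_or_odd with h | h
    · omega
    · exact h
  rw [Nat.pow_mod, this]; simp

theorem dbl {r n j : ℕ} (hp5 : 5 ≤ p) (hn : ¬ p ∣ n) (hj : j < p ^ r) :
    (s (p ^ r) n ((2 * j) % p ^ r)) ^ 2 - (s (p ^ r) n j) ^ 2 * (1 / 4) ∈ I p 3 := by
  rcases Nat.eq_zero_or_pos j with rfl | h0
  · simp [s_zero, (I p 3).zero_mem]
  have hodd := odd_pow (p := p) (r := r) hp5
  set M := p ^ r with hM
  have hMpos : 0 < M := by omega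
  have hj'0 : 0 < (2 * j) % M := by
    rcases Nat.eq_zero_or_pos ((2 * j) % M) with h | h
    · exfalso
      obtain ⟨c, hc⟩ := Nat.dvd_of_mod_eq_zero h
      have hc2 : c < 2 := by
        by_contra hcc
        have : M * 2 ≤ M * c := Nat.mul_le_mul_left _ (by omega)
        omega
      have hc0 : c ≠ 0 := by rintro rfl; omega
      have hc1 : c = 1 := by omega
      subst hc1
      omega
    · exact h
  have hj' : (2 * j) % M < M := Nat.mod_lt _ hMpos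
  have h1 := s_mem hn h0 hj
  have h2 := s_mem (p := p) (r := r) hn hj'0 hj'
  have hdiv := Nat.div_add_mod (2 * j) M
  set j' := (2 * j) % M with hj'def
  set e := (2 * j) / M with he
  have hq : (M : ℚ) * e + j' = 2 * j := by exact_mod_cast hdiv
  have hM0 : (M : ℚ) ≠ 0 := by positivity
  have hn0 : (n : ℚ) ≠ 0 := by
    intro h
    have : n = 0 := by exact_mod_cast h
    exact hn (this ▸ dvd_zero _)
  have hj0 : (j : ℚ) ≠ 0 := by positivity
  have hj'0' : (j' : ℚ) ≠ 0 := by positivity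
  have h3 : s M n j' - s M n j * (1 / 2) = ((n * e : ℕ) : ℚ) * (1 / (2 : ℕ)) * (s M n j * s M n j') := by
    unfold s
    push_cast
    field_simp
    linear_combination -hq
  have hp2 : ¬ p ∣ 2 := by
    intro h
    have := Nat.le_of_dvd (by norm_num) h
    omega
  have h4 : s M n j' - s M n j * (1 / 2) ∈ I p 2 := by
    rw [h3]
    exact mul_O ((O p).mul_mem (nat_O _) (inv_mem p hp2)) (mul_I h1 h2)
  have h5 : s M n j' + s M n j * (1 / 2) ∈ I p 1 := by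
    apply (I p 1).add_mem h2
    have := mul_O (inv_mem p hp2) h1
    rw [mul_comm]
    exact_mod_cast this
  have := mul_I h4 h5
  have e : (s M n j') ^ 2 - (s M n j) ^ 2 * (1 / 4) =
    (s M n j' - s M n j * (1 / 2)) * (s M n j' + s M n j * (1 / 2)) := by ring
  rw [e]
  exact this

theorem perm {M : ℕ} (hM : M % 2 = 1) (f : ℕ → ℚ) :
    ∑ j ∈ range M, f ((2 * j) % M) = ∑ j ∈ range M, f j := by
  have hpos : 0 < M := by omega
  have e1 : 2 * ((M + 1) / 2) = M + 1 := by omega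
  apply sum_nbij' (fun j => (2 * j) % M) (fun j => (j * ((M + 1) / 2)) % M)
  · intro j _
    exact mem_range.2 (Nat.mod_lt _ hpos)
  · intro j _
    exact mem_range.2 (Nat.mod_lt _ hpos)
  · intro j hj
    have hj' := mem_range.1 hj
    show ((2 * j) % M * ((M + 1) / 2)) % M = j
    rw [Nat.mod_mul_mod, show 2 * j * ((M + 1) / 2) = j * (2 * ((M + 1) / 2)) by ring, e1,
      Nat.mul_add, mul_one, Nat.add_comm, Nat.add_mul_mod_self_right]
    exact Nat.mod_eq_of_lt hj'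
  · intro j hj
    have hj' := mem_range.1 hj
    show (2 * ((j * ((M + 1) / 2)) % M)) % M = j
    rw [Nat.mul_mod_mod, show 2 * (j * ((M + 1) / 2)) = j * (2 * ((M + 1) / 2)) by ring, e1,
      Nat.mul_add, mul_one, Nat.add_comm, Nat.add_mul_mod_self_right]
    exact Nat.mod_eq_of_lt hj'
  · intro j _
    rfl

theorem sum_sq {r n : ℕ} (hp5 : 5 ≤ p) (hn : ¬ p ∣ n) :
    ∑ j ∈ range (p ^ r), (s (p ^ r) n j) ^ 2 ∈ I p 3 := by
  have h1 : ∑ j ∈ range (p ^ r), ((s (p ^ r) n ((2 * j) % p ^ r)) ^ 2 -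
      (s (p ^ r) n j) ^ 2 * (1 / 4)) ∈ I p 3 :=
    (I p 3).sum_mem (fun j hj => dbl hp5 hn (mem_range.1 hj))
  rw [sum_sub_distrib, perm (odd_pow hp5) (fun j => (s (p ^ r) n j) ^ 2), ← sum_mul] at h1
  have hp3 : ¬ (p : ℤ) ∣ 3 := by
    intro h
    have := Int.le_of_dvd (by norm_num) h
    omega
  apply of_unit_mul hp3
  have h2 := mul_O (nat_O (p := p) 4) h1
  have e : ((3 : ℤ) : ℚ) * ∑ j ∈ range (p ^ r), (s (p ^ r) n j) ^ 2 = ((4 : ℕ) : ℚ) *
      (∑ j ∈ range (p ^ r), (s (p ^ r) n j) ^ 2 - (∑ j ∈ range (p ^ r), (s (p ^ r) n j) ^ 2) *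
      (1 / 4)) := by
    push_cast; ring
  rw [e]
  exact h2

theorem refl {M n j : ℕ} (hn : n ≠ 0) (h0 : 0 < j) (hj : j < M) :
    s M n (M - j) + s M n j = n * (s M n j * s M n (M - j)) := by
  have hj0 : (j : ℚ) ≠ 0 := by positivity
  have hn0 : (n : ℚ) ≠ 0 := by exact_mod_cast hn
  have h1 : ((M - j : ℕ) : ℚ) ≠ 0 := by
    have : 0 < M - j := by omega
    positivity
  have h2 : ((M - j : ℕ) : ℚ) + j = M := by
    have : (M - j) + j = M := by omega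
    exact_mod_cast this
  unfold s
  generalize ((M - j : ℕ) : ℚ) = x at *
  rw [← h2]
  field_simp
  ring

theorem sum_lin {r n : ℕ} (hp5 : 5 ≤ p) (hn : ¬ p ∣ n) :
    ∑ j ∈ range (p ^ r - 1), s (p ^ r) n (j + 1) ∈ I p 3 := by
  have hMpos : 0 < p ^ r := by have := hp.out.pos; positivity
  have hn0 : n ≠ 0 := by rintro rfl; exact hn (dvd_zero _)
  have hsq := sum_sq (r := r) hp5 hn
  have hsq' : ∑ j ∈ range (p ^ r - 1), (s (p ^ r) n (j + 1)) ^ 2 ∈ I p 3 := by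
    have : p ^ r = (p ^ r - 1) + 1 := by omega
    rw [this, sum_range_succ', s_zero, zero_pow two_ne_zero, add_zero, ← this] at hsq
    exact hsq
  have h1 : ∑ j ∈ range (p ^ r - 1), s (p ^ r) n (j + 1) =
      ∑ j ∈ range (p ^ r - 1), s (p ^ r) n (p ^ r - (j + 1)) := by
    rw [← sum_range_reflect]
    apply sum_congr rfl
    intro j hj
    have := mem_range.1 hj
    congr 1
    omega
  have hp2 : ¬ (p : ℤ) ∣ 2 := by
    intro h
    have := Int.le_of_dvd (by norm_num) h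
    omega
  apply of_unit_mul hp2
  have h2 : ((2 : ℤ) : ℚ) * ∑ j ∈ range (p ^ r - 1), s (p ^ r) n (j + 1) =
      ∑ j ∈ range (p ^ r - 1), (s (p ^ r) n (p ^ r - (j + 1)) + s (p ^ r) n (j + 1)) := by
    rw [sum_add_distrib, ← h1]
    push_cast; ring
  rw [h2]
  have h3 : ∑ j ∈ range (p ^ r - 1), (s (p ^ r) n (p ^ r - (j + 1)) + s (p ^ r) n (j + 1)) =
      ∑ j ∈ range (p ^ r - 1), ((n : ℚ) * (s (p ^ r) n (j + 1) * (n * (s (p ^ r) n (j + 1) *
        s (p ^ r) n (p ^ r - (j + 1)))))) -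
        n * ∑ j ∈ range (p ^ r - 1), (s (p ^ r) n (j + 1)) ^ 2 := by
    rw [mul_sum, ← sum_sub_distrib]
    apply sum_congr rfl
    intro j hj
    have hj' := mem_range.1 hj
    have := refl (M := p ^ r) hn0 (Nat.succ_pos j) (by omega)
    rw [← this]
    linear_combination this
  rw [h3]
  apply (I p 3).sub_mem
  · apply (I p 3).sum_mem
    intro j hj
    have hj' := mem_range.1 hj
    have a1 := s_mem (p := p) (r := r) hn (Nat.succ_pos j) (by omega)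
    have a2 := s_mem (p := p) (r := r) (j := p ^ r - (j + 1)) hn (by omega) (by omega)
    have a3 := mul_O (nat_O n) (mul_I a1 (mul_O (nat_O n) (mul_I a1 a2)))
    exact a3
  · exact mul_O (nat_O n) hsq'

theorem sum_sq' {r n : ℕ} (hp5 : 5 ≤ p) (hn : ¬ p ∣ n) :
    ∑ j ∈ range (p ^ r - 1), (s (p ^ r) n (j + 1)) ^ 2 ∈ I p 3 := by
  have hMpos : 0 < p ^ r := by have := hp.out.pos; positivity
  have hsq := sum_sq (r := r) hp5 hn
  have : p ^ r = (p ^ r - 1) + 1 := by omega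
  rw [this, sum_range_succ', s_zero, zero_pow two_ne_zero, add_zero, ← this] at hsq
  exact hsq

end basic

section main

variable {p : ℕ} [hp : Fact p.Prime]

theorem E_mem {r n j : ℕ} (hn : ¬ p ∣ n) (hj : j < p ^ r) :
    E (p ^ r) n j ∈ O p ∧ E (p ^ r) n j - 1 ∈ I p 1 ∧
      E (p ^ r) n j - 1 + 2 * n * ∑ i ∈ range j, s (p ^ r) n (i + 1) ∈ I p 2 := by
  induction j with
  | zero => simp [E, (O p).one_mem, (I p 1).zero_mem, (I p 2).zero_mem]
  | succ j ih =>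
    obtain ⟨h1, h2, h3⟩ := ih (by omega)
    have hs := s_mem (p := p) (r := r) hn (Nat.succ_pos j) hj
    have hE : E (p ^ r) n (j + 1) = E (p ^ r) n j * (1 - s (p ^ r) n (j + 1)) ^ (2 * n) := by
      unfold E; rw [prod_range_succ]
    obtain ⟨W, hW, hex⟩ := expand (p := p) (s (p ^ r) n (j + 1)) (toO hs) (2 * n)
    rw [sum_range_succ]
    generalize s (p ^ r) n (j + 1) = x at *
    generalize E (p ^ r) n j = e at *
    generalize ∑ i ∈ range j, s (p ^ r) n (i + 1) = σ at *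
    have hx2 := pow_I hs 2
    set R := ((2 * n).choose 2 : ℚ) * x ^ 2 - ((2 * n).choose 3 : ℚ) * x ^ 3 +
      ((2 * n).choose 4 : ℚ) * x ^ 4 + x ^ 5 * W with hR
    have hRm : R ∈ I p 2 := by
      have xO : x ∈ O p := toO hs
      have e1 : R = (((2 * n).choose 2 : ℚ) - ((2 * n).choose 3 : ℚ) * x +
        ((2 * n).choose 4 : ℚ) * x ^ 2 + x ^ 3 * W) * x ^ 2 := by rw [hR]; ring
      rw [e1]
      refine mul_O ?_ hx2
      exact (O p).add_mem ((O p).add_mem ((O p).sub_mem (nat_O _) ((O p).mul_mem (nat_O _) xO))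
        ((O p).mul_mem (nat_O _) ((O p).pow_mem xO 2))) ((O p).mul_mem ((O p).pow_mem xO 3) hW)
    have hpow : (1 - x) ^ (2 * n) = 1 - 2 * n * x + R := by
      rw [hex, hR]; push_cast; ring
    have hm1 : (1 - x) ^ (2 * n) - 1 ∈ I p 1 := by
      rw [hpow]
      have e1 : 1 - 2 * (n : ℚ) * x + R - 1 = -(((2 * n : ℕ) : ℚ) * x) + R := by push_cast; ring
      rw [e1]
      exact (I p 1).add_mem ((I p 1).neg_mem (mul_O (nat_O _) hs)) (mono (by omega) hRm)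
    have hO1 : (1 - x) ^ (2 * n) ∈ O p := by
      exact (O p).pow_mem ((O p).sub_mem (O p).one_mem (toO hs)) _
    refine ⟨?_, ?_, ?_⟩
    · rw [hE]; exact (O p).mul_mem h1 hO1
    · rw [hE]
      have e1 : e * (1 - x) ^ (2 * n) - 1 = (e - 1) + e * ((1 - x) ^ (2 * n) - 1) := by ring
      rw [e1]
      exact (I p 1).add_mem h2 (mul_O h1 hm1)
    · rw [hE]
      have e1 : e * (1 - x) ^ (2 * n) - 1 + 2 * n * (σ + x) =
          (e - 1 + 2 * n * σ) + (-(((2 * n : ℕ) : ℚ) * ((e - 1) * x))) + e * R := by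
        rw [hpow]; push_cast; ring
      rw [e1]
      exact (I p 2).add_mem ((I p 2).add_mem h3 ((I p 2).neg_mem (mul_O (nat_O _) (mul_I h2 hs))))
        (mul_O h1 hRm)

theorem two_sum (f : ℕ → ℚ) (K : ℕ) :
    2 * ∑ j ∈ range K, (∑ i ∈ range j, f i) * f j =
      (∑ j ∈ range K, f j) ^ 2 - ∑ j ∈ range K, (f j) ^ 2 := by
  induction K with
  | zero => simp
  | succ K ih =>
    rw [sum_range_succ, sum_range_succ, sum_range_succ, mul_add, ih]
    ring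

theorem T2_mem {r n : ℕ} (hp5 : 5 ≤ p) (hn : ¬ p ∣ n) :
    ∑ j ∈ range (p ^ r - 1), E (p ^ r) n j * (s (p ^ r) n (j + 1)) ^ 2 ∈ I p 3 := by
  have e : ∑ j ∈ range (p ^ r - 1), E (p ^ r) n j * (s (p ^ r) n (j + 1)) ^ 2 =
      ∑ j ∈ range (p ^ r - 1), (s (p ^ r) n (j + 1)) ^ 2 +
      ∑ j ∈ range (p ^ r - 1), (E (p ^ r) n j - 1) * (s (p ^ r) n (j + 1)) ^ 2 := by
    rw [← sum_add_distrib]
    exact sum_congr rfl (fun j _ => by ring)
  rw [e]
  apply (I p 3).add_mem (sum_sq' hp5 hn)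
  apply (I p 3).sum_mem
  intro j hj
  have hj' := mem_range.1 hj
  have hs := s_mem (p := p) (r := r) hn (Nat.succ_pos j) (by omega)
  exact mul_I (E_mem hn (by omega)).2.1 (pow_I hs 2)

theorem T1_mem {r n : ℕ} (hp5 : 5 ≤ p) (hn : ¬ p ∣ n) :
    ∑ j ∈ range (p ^ r - 1), E (p ^ r) n j * s (p ^ r) n (j + 1) ∈ I p 3 := by
  set K := p ^ r - 1 with hK
  have e : ∑ j ∈ range K, E (p ^ r) n j * s (p ^ r) n (j + 1) =
      ∑ j ∈ range K, s (p ^ r) n (j + 1) -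
      (n : ℚ) * (2 * ∑ j ∈ range K, (∑ i ∈ range j, s (p ^ r) n (i + 1)) * s (p ^ r) n (j + 1)) +
      ∑ j ∈ range K, (E (p ^ r) n j - 1 + 2 * n * ∑ i ∈ range j, s (p ^ r) n (i + 1)) *
        s (p ^ r) n (j + 1) := by
    rw [mul_sum, mul_sum, ← sum_sub_distrib, ← sum_add_distrib]
    exact sum_congr rfl (fun j _ => by ring)
  rw [e, two_sum (fun j => s (p ^ r) n (j + 1))]
  have h1 := sum_lin (r := r) hp5 hn
  rw [← hK] at h1
  have h2 := sum_sq' (r := r) hp5 hn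
  rw [← hK] at h2
  refine (I p 3).add_mem ((I p 3).sub_mem h1 (mul_O (nat_O _) ((I p 3).sub_mem ?_ h2))) ?_
  · exact mono (by omega) (pow_I h1 2)
  · apply (I p 3).sum_mem
    intro j hj
    have hj' := mem_range.1 hj
    have hs := s_mem (p := p) (r := r) hn (Nat.succ_pos j) (by omega)
    exact mul_I (E_mem hn (by omega)).2.2 hs

theorem tau_mem {r n : ℕ} (hn : ¬ p ∣ n) : ((p ^ r : ℕ) : ℚ) / n ∈ I p r := by
  refine ⟨1 / (n : ℚ), inv_mem p hn, ?_⟩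
  push_cast; ring

theorem E_succ (M n j : ℕ) : E M n (j + 1) = E M n j * (1 - s M n (j + 1)) ^ (2 * n) := by
  unfold E; rw [prod_range_succ]

theorem delta_b {r n : ℕ} (hp5 : 5 ≤ p) (hn : ¬ p ∣ n) :
    ∑ j ∈ range (p ^ r - 1), ((j : ℚ) + 1) * (E (p ^ r) n (j + 1) - E (p ^ r) n j) +
      2 * ((p ^ r : ℕ) : ℚ) * ∑ j ∈ range (p ^ r - 1), E (p ^ r) n j ∈ I p (r + 3) := by
  have hn0 : (n : ℚ) ≠ 0 := by
    intro h
    have : n = 0 := by exact_mod_cast h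
    exact hn (this ▸ dvd_zero _)
  have hT1 := T1_mem (r := r) hp5 hn
  have hT2 := T2_mem (r := r) hp5 hn
  have hτ := tau_mem (r := r) hn
  set K := p ^ r - 1 with hK
  set τ := ((p ^ r : ℕ) : ℚ) / n with hτdef
  have e : ∑ j ∈ range K, ((j : ℚ) + 1) * (E (p ^ r) n (j + 1) - E (p ^ r) n j) +
      2 * ((p ^ r : ℕ) : ℚ) * ∑ j ∈ range K, E (p ^ r) n j =
      τ * (((2 * n).choose 2 : ℚ) * ∑ j ∈ range K, E (p ^ r) n j * s (p ^ r) n (j + 1) -
        ((2 * n).choose 3 : ℚ) * ∑ j ∈ range K, E (p ^ r) n j * (s (p ^ r) n (j + 1)) ^ 2 +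
        ∑ j ∈ range K, (E (p ^ r) n j * ((1 - s (p ^ r) n (j + 1)) ^ (2 * n) - 1 +
          2 * n * s (p ^ r) n (j + 1)) / s (p ^ r) n (j + 1) -
          ((2 * n).choose 2 : ℚ) * E (p ^ r) n j * s (p ^ r) n (j + 1) +
          ((2 * n).choose 3 : ℚ) * E (p ^ r) n j * (s (p ^ r) n (j + 1)) ^ 2)) := by
    rw [mul_sum, mul_sum, mul_sum, ← sum_sub_distrib, ← sum_add_distrib, ← sum_add_distrib,
      mul_sum]
    apply sum_congr rfl
    intro j _
    have hM0 : ((p ^ r : ℕ) : ℚ) ≠ 0 := by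
      have := hp.out.pos; positivity
    have hj0 : ((j : ℚ) + 1) ≠ 0 := by positivity
    have hs : s (p ^ r) n (j + 1) = τ / ((j : ℚ) + 1) := by
      unfold s; rw [← hτdef]; push_cast; rfl
    have hM : ((p ^ r : ℕ) : ℚ) = n * τ := by rw [hτdef]; field_simp
    have hτ0 : τ ≠ 0 := by rw [hτdef]; positivity
    rw [E_succ, hs, hM]
    generalize (1 - τ / ((j : ℚ) + 1)) ^ (2 * n) = Z
    field_simp
    ring
  rw [e]
  refine mul_I hτ ((I p 3).add_mem ((I p 3).sub_mem (mul_O (nat_O _) hT1)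
    (mul_O (nat_O _) hT2)) ?_)
  apply (I p 3).sum_mem
  intro j hj
  have hj' := mem_range.1 hj
  have hs := s_mem (p := p) (r := r) hn (Nat.succ_pos j) (by omega)
  have hE := (E_mem (p := p) (r := r) hn (show j < p ^ r by omega)).1
  obtain ⟨W, hW, hex⟩ := expand (p := p) (s (p ^ r) n (j + 1)) (toO hs) (2 * n)
  have hs0 : s (p ^ r) n (j + 1) ≠ 0 := by
    unfold s
    have := hp.out.pos
    have hj0 : (((j + 1 : ℕ)) : ℚ) ≠ 0 := by positivity
    positivity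
  rw [hex]
  generalize s (p ^ r) n (j + 1) = x at *
  have e2 : E (p ^ r) n j * (1 - ((2 * n : ℕ) : ℚ) * x + ((2 * n).choose 2 : ℚ) * x ^ 2 -
      ((2 * n).choose 3 : ℚ) * x ^ 3 + ((2 * n).choose 4 : ℚ) * x ^ 4 + x ^ 5 * W - 1 +
      2 * n * x) / x - ((2 * n).choose 2 : ℚ) * E (p ^ r) n j * x +
      ((2 * n).choose 3 : ℚ) * E (p ^ r) n j * x ^ 2 =
      (E (p ^ r) n j * (((2 * n).choose 4 : ℚ) + x * W)) * x ^ 3 := by
    push_cast
    field_simp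
    ring
  rw [e2]
  exact mul_O ((O p).mul_mem hE ((O p).add_mem (nat_O _) ((O p).mul_mem (toO hs) hW)))
    (pow_I hs 3)

theorem delta_c {r n : ℕ} (hp5 : 5 ≤ p) (hn : ¬ p ∣ n) :
    ∑ j ∈ range (p ^ r - 1), ((j : ℚ) + 1) ^ 2 * (E (p ^ r) n (j + 1) - E (p ^ r) n j) +
      2 * ((p ^ r : ℕ) : ℚ) * (∑ j ∈ range (p ^ r - 1), ((j : ℚ) + 1) * E (p ^ r) n j) -
      ((2 * n).choose 2 : ℚ) * (((p ^ r : ℕ) : ℚ) / n) ^ 2 *
        (∑ j ∈ range (p ^ r - 1), E (p ^ r) n j) ∈ I p (2 * r + 3) := by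
  have hn0 : (n : ℚ) ≠ 0 := by
    intro h
    have : n = 0 := by exact_mod_cast h
    exact hn (this ▸ dvd_zero _)
  have hT1 := T1_mem (r := r) hp5 hn
  have hT2 := T2_mem (r := r) hp5 hn
  have hτ := tau_mem (r := r) hn
  set K := p ^ r - 1 with hK
  set τ := ((p ^ r : ℕ) : ℚ) / n with hτdef
  have e : ∑ j ∈ range K, ((j : ℚ) + 1) ^ 2 * (E (p ^ r) n (j + 1) - E (p ^ r) n j) +
      2 * ((p ^ r : ℕ) : ℚ) * (∑ j ∈ range K, ((j : ℚ) + 1) * E (p ^ r) n j) -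
      ((2 * n).choose 2 : ℚ) * τ ^ 2 * (∑ j ∈ range K, E (p ^ r) n j) =
      τ ^ 2 * (-(((2 * n).choose 3 : ℚ) * ∑ j ∈ range K, E (p ^ r) n j * s (p ^ r) n (j + 1)) +
        ((2 * n).choose 4 : ℚ) * ∑ j ∈ range K, E (p ^ r) n j * (s (p ^ r) n (j + 1)) ^ 2 +
        ∑ j ∈ range K, (E (p ^ r) n j * ((1 - s (p ^ r) n (j + 1)) ^ (2 * n) - 1 +
          2 * n * s (p ^ r) n (j + 1)) / (s (p ^ r) n (j + 1)) ^ 2 -
          ((2 * n).choose 2 : ℚ) * E (p ^ r) n j +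
          ((2 * n).choose 3 : ℚ) * E (p ^ r) n j * s (p ^ r) n (j + 1) -
          ((2 * n).choose 4 : ℚ) * E (p ^ r) n j * (s (p ^ r) n (j + 1)) ^ 2)) := by
    rw [mul_sum, mul_sum, mul_sum, mul_sum, ← sum_add_distrib, ← sum_sub_distrib,
      ← sum_neg_distrib, ← sum_add_distrib, ← sum_add_distrib, mul_sum]
    apply sum_congr rfl
    intro j _
    have hM0 : ((p ^ r : ℕ) : ℚ) ≠ 0 := by
      have := hp.out.pos; positivity
    have hj0 : ((j : ℚ) + 1) ≠ 0 := by positivity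
    have hs : s (p ^ r) n (j + 1) = τ / ((j : ℚ) + 1) := by
      unfold s; rw [← hτdef]; push_cast; rfl
    have hM : ((p ^ r : ℕ) : ℚ) = n * τ := by rw [hτdef]; field_simp
    have hτ0 : τ ≠ 0 := by rw [hτdef]; positivity
    rw [E_succ, hs, hM]
    generalize (1 - τ / ((j : ℚ) + 1)) ^ (2 * n) = Z
    field_simp
    ring
  rw [e, mul_comm 2 r]
  refine mul_I (pow_I hτ 2) ((I p 3).add_mem ((I p 3).add_mem ((I p 3).neg_mem
    (mul_O (nat_O _) hT1)) (mul_O (nat_O _) hT2)) ?_)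
  apply (I p 3).sum_mem
  intro j hj
  have hj' := mem_range.1 hj
  have hs := s_mem (p := p) (r := r) hn (Nat.succ_pos j) (by omega)
  have hE := (E_mem (p := p) (r := r) hn (show j < p ^ r by omega)).1
  obtain ⟨W, hW, hex⟩ := expand (p := p) (s (p ^ r) n (j + 1)) (toO hs) (2 * n)
  have hs0 : s (p ^ r) n (j + 1) ≠ 0 := by
    unfold s
    have := hp.out.pos
    have hj0 : (((j + 1 : ℕ)) : ℚ) ≠ 0 := by positivity
    positivity
  rw [hex]
  generalize s (p ^ r) n (j + 1) = x at *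
  have e2 : E (p ^ r) n j * (1 - ((2 * n : ℕ) : ℚ) * x + ((2 * n).choose 2 : ℚ) * x ^ 2 -
      ((2 * n).choose 3 : ℚ) * x ^ 3 + ((2 * n).choose 4 : ℚ) * x ^ 4 + x ^ 5 * W - 1 +
      2 * n * x) / x ^ 2 - ((2 * n).choose 2 : ℚ) * E (p ^ r) n j +
      ((2 * n).choose 3 : ℚ) * E (p ^ r) n j * x - ((2 * n).choose 4 : ℚ) * E (p ^ r) n j * x ^ 2 =
      (E (p ^ r) n j * W) * x ^ 3 := by
    push_cast
    field_simp
    ring
  rw [e2]
  exact mul_O ((O p).mul_mem hE hW) (pow_I hs 3)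

theorem tele1 (f : ℕ → ℚ) (K : ℕ) :
    ∑ j ∈ range K, ((j : ℚ) + 1) * (f (j + 1) - f j) = K * f K - ∑ j ∈ range K, f j := by
  induction K with
  | zero => simp
  | succ K ih => rw [sum_range_succ, sum_range_succ, ih]; push_cast; ring

theorem tele2 (f : ℕ → ℚ) (K : ℕ) :
    ∑ j ∈ range K, ((j : ℚ) + 1) ^ 2 * (f (j + 1) - f j) =
      K ^ 2 * f K - 2 * (∑ j ∈ range K, ((j : ℚ) + 1) * f j) + ∑ j ∈ range K, f j := by
  induction K with
  | zero => simp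
  | succ K ih => rw [sum_range_succ, sum_range_succ, sum_range_succ, ih]; push_cast; ring

theorem final {r : ℕ} (hp5 : 5 ≤ p) (hr : 1 ≤ r) :
    ∑ j ∈ range (p ^ r), (2 * ((p ^ r - 1 : ℕ) : ℚ) * j - 1) * E (p ^ r) (p ^ r - 1) j ∈
      I p (2 * r + 3) := by
  have hn : ¬ p ∣ (p ^ r - 1) := not_dvd_pred hr
  have hb := delta_b (r := r) hp5 hn
  have hc := delta_c (r := r) hp5 hn
  rw [tele1] at hb
  rw [tele2] at hc
  have hpos : 1 ≤ p ^ r := Nat.one_le_pow _ _ hp.out.pos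
  have hτ := tau_mem (r := r) hn
  have hK0 : ((p ^ r - 1 : ℕ) : ℚ) ≠ 0 := by
    intro h
    have : p ^ r - 1 = 0 := by exact_mod_cast h
    exact hn (this ▸ dvd_zero _)
  have hch : ((2 * (p ^ r - 1)).choose 2 : ℚ) =
      ((p ^ r - 1 : ℕ) : ℚ) * (2 * ((p ^ r - 1 : ℕ) : ℚ) - 1) := by
    rw [Nat.cast_choose_two]; push_cast; ring
  rw [hch] at hc
  have hsplit : ∑ j ∈ range (p ^ r), (2 * ((p ^ r - 1 : ℕ) : ℚ) * j - 1) *
      E (p ^ r) (p ^ r - 1) j = ∑ j ∈ range (p ^ r - 1), (2 * ((p ^ r - 1 : ℕ) : ℚ) * j - 1) *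
      E (p ^ r) (p ^ r - 1) j + (2 * ((p ^ r - 1 : ℕ) : ℚ) * ((p ^ r - 1 : ℕ) : ℚ) - 1) *
        E (p ^ r) (p ^ r - 1) (p ^ r - 1) := by
    conv_lhs => rw [show p ^ r = (p ^ r - 1) + 1 by omega, sum_range_succ]
    rw [show p ^ r - 1 + 1 = p ^ r by omega]
  have hsum : ∑ j ∈ range (p ^ r - 1), (2 * ((p ^ r - 1 : ℕ) : ℚ) * j - 1) *
      E (p ^ r) (p ^ r - 1) j = 2 * ((p ^ r - 1 : ℕ) : ℚ) *
      (∑ j ∈ range (p ^ r - 1), ((j : ℚ) + 1) * E (p ^ r) (p ^ r - 1) j) -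
      (2 * ((p ^ r - 1 : ℕ) : ℚ) + 1) * ∑ j ∈ range (p ^ r - 1), E (p ^ r) (p ^ r - 1) j := by
    rw [mul_sum, mul_sum, ← sum_sub_distrib]
    exact sum_congr rfl (fun j _ => by ring)
  rw [hsplit, hsum]
  have hM : ((p ^ r : ℕ) : ℚ) = ((p ^ r - 1 : ℕ) : ℚ) + 1 := by
    have : p ^ r = (p ^ r - 1) + 1 := by omega
    exact_mod_cast this
  have hMτ : ((p ^ r : ℕ) : ℚ) - ((p ^ r : ℕ) : ℚ) / ((p ^ r - 1 : ℕ) : ℚ) ∈ I p r := by
    refine (I p r).sub_mem ?_ hτ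
    push_cast
    exact p_pow r
  have h1 := mul_I hMτ hb
  have h2 : r + (r + 3) = 2 * r + 3 := by ring
  rw [h2] at h1
  have h3 := (I p (2 * r + 3)).add_mem h1 hc
  convert h3 using 1
  generalize ∑ j ∈ range (p ^ r - 1), ((j : ℚ) + 1) * E (p ^ r) (p ^ r - 1) j = X1 at *
  generalize ∑ j ∈ range (p ^ r - 1), E (p ^ r) (p ^ r - 1) j = X0 at *
  generalize E (p ^ r) (p ^ r - 1) (p ^ r - 1) = e at *
  rw [hM]
  generalize ((p ^ r - 1 : ℕ) : ℚ) = K at *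
  field_simp
  ring

end main

end Q278.Seven
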