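import Mathlib

set_option autoImplicit false

/-! The terminating very-well-poised `6φ5` summation. -/

namespace Q278.SixPhi

open Finset

variable {K : Type*} [Field K]

/-- the ratio of consecutive products; `e = 1/c` and `f = 1/d` -/
def r (Q a e f : K) (N j : ℕ) : K :=
  a * Q * (1 - a * Q ^ j) * (Q ^ N - Q ^ j) * (e - Q ^ j) * (f - Q ^ j) /
    ((1 - Q ^ (j + 1)) * (1 - a * Q ^ (N + 1 + j)) * (1 - a * Q ^ (j + 1) * e) *
      (1 - a * Q ^ (j + 1) * f))

/-- the relation between the products for `(N + 1, a)` and `(N, a Q)` -/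
theorem rel (Q a e f : K) (N : ℕ) (hQ : ∀ j, j ≤ N → 1 - Q ^ (j + 1) ≠ 0)
    (ha : ∀ j, j ≤ N → 1 - a * Q ^ (N + 2 + j) ≠ 0)
    (he : ∀ j, j ≤ N → 1 - a * Q ^ (j + 1) * e ≠ 0)
    (hf : ∀ j, j ≤ N → 1 - a * Q ^ (j + 1) * f ≠ 0) (k : ℕ) (hk : k ≤ N) :
    (1 - a) * (Q ^ (N + 1) - 1) * (∏ j ∈ range k, r Q (a * Q) e f N j) *
      ((1 - a * Q ^ (k + 1) * e) * (1 - a * Q ^ (k + 1) * f)) =
    (∏ j ∈ range k, r Q a e f (N + 1) j) * ((1 - a * Q ^ k) * (Q ^ (N + 1) - Q ^ k) *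
      ((1 - a * Q * e) * (1 - a * Q * f))) := by
  induction k with
  | zero => simp
  | succ k ih =>
    have h := ih (by omega)
    rw [prod_range_succ, prod_range_succ]
    set A := ∏ j ∈ range k, r Q (a * Q) e f N j
    set B := ∏ j ∈ range k, r Q a e f (N + 1) j
    have h1 := hQ k (by omega)
    have h2 := ha k (by omega)
    have h3 := he k (by omega)
    have h4 := hf k (by omega)
    have h5 := he (k + 1) (by omega)
    have h6 := hf (k + 1) (by omega)
    have e1 : r Q (a * Q) e f N k * ((1 - a * Q ^ (k + 1 + 1) * e) *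
        (1 - a * Q ^ (k + 1 + 1) * f)) = Q * (a * Q * (1 - a * Q ^ (k + 1)) * (Q ^ N - Q ^ k) *
          (e - Q ^ k) * (f - Q ^ k) / ((1 - Q ^ (k + 1)) * (1 - a * Q ^ (N + 2 + k)))) := by
      unfold r
      have e2 : a * Q * Q ^ (N + 1 + k) = a * Q ^ (N + 2 + k) := by ring
      have e3 : a * Q * Q ^ (k + 1) = a * Q ^ (k + 1 + 1) := by ring
      have e4 : a * Q * Q ^ k = a * Q ^ (k + 1) := by ring
      rw [e2, e3, e4]
      generalize 1 - Q ^ (k + 1) = u1 at *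
      generalize 1 - a * Q ^ (N + 2 + k) = u2 at *
      generalize 1 - a * Q ^ (k + 1 + 1) * e = u3 at *
      generalize 1 - a * Q ^ (k + 1 + 1) * f = u4 at *
      field_simp
    have e2 : r Q a e f (N + 1) k = (a * Q * (1 - a * Q ^ k) * (Q ^ (N + 1) - Q ^ k) *
          (e - Q ^ k) * (f - Q ^ k) / ((1 - Q ^ (k + 1)) * (1 - a * Q ^ (N + 2 + k)))) /
          ((1 - a * Q ^ (k + 1) * e) * (1 - a * Q ^ (k + 1) * f)) := by
      unfold r
      rw [show N + 1 + 1 + k = N + 2 + k by ring, div_div]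
      congr 1; ring
    have e3 : (1 - a) * (Q ^ (N + 1) - 1) * (A * r Q (a * Q) e f N k) *
        ((1 - a * Q ^ (k + 1 + 1) * e) * (1 - a * Q ^ (k + 1 + 1) * f)) =
        (1 - a) * (Q ^ (N + 1) - 1) * A * (r Q (a * Q) e f N k *
          ((1 - a * Q ^ (k + 1 + 1) * e) * (1 - a * Q ^ (k + 1 + 1) * f))) := by ring
    rw [e3, e1, e2]
    have e4 : (1 - a) * (Q ^ (N + 1) - 1) * A =
        B * ((1 - a * Q ^ k) * (Q ^ (N + 1) - Q ^ k) * ((1 - a * Q * e) * (1 - a * Q * f))) /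
          ((1 - a * Q ^ (k + 1) * e) * (1 - a * Q ^ (k + 1) * f)) := by
      rw [eq_div_iff (mul_ne_zero h3 h4)]; exact h
    rw [e4]
    have e5 : Q * (Q ^ N - Q ^ k) = Q ^ (N + 1) - Q ^ (k + 1) := by ring
    generalize 1 - a * Q ^ (k + 1) * e = u3 at *
    generalize 1 - a * Q ^ (k + 1) * f = u4 at *
    generalize 1 - a * Q ^ (N + 2 + k) = u2 at *
    generalize 1 - Q ^ (k + 1) = u1 at *
    rw [← e5]
    generalize Q ^ (N + 1) - Q ^ k = v1 at *
    generalize Q ^ N - Q ^ k = v2 at *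
    generalize e - Q ^ k = v3 at *
    generalize f - Q ^ k = v4 at *
    generalize 1 - a * Q ^ k = v5 at *
    generalize 1 - a * Q ^ (k + 1) = v6 at *
    generalize (1 - a * Q * e) * (1 - a * Q * f) = v7 at *
    ring

theorem tel (Q a e f : K) (N : ℕ) (hQ : ∀ j, j ≤ N → 1 - Q ^ (j + 1) ≠ 0)
    (ha : ∀ j, j ≤ N → 1 - a * Q ^ (N + 2 + j) ≠ 0)
    (he : ∀ j, j ≤ N → 1 - a * Q ^ (j + 1) * e ≠ 0)
    (hf : ∀ j, j ≤ N → 1 - a * Q ^ (j + 1) * f ≠ 0) (m : ℕ) (hm : m ≤ N + 1) :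
    (∑ k ∈ range m, ((1 - a * Q ^ (2 * k)) * ∏ j ∈ range k, r Q a e f (N + 1) j)) *
      ((1 - a * Q * e) * (1 - a * Q * f)) -
    (1 - a) * (1 - a * Q * e * f) *
      ∑ k ∈ range m, ((1 - a * Q * Q ^ (2 * k)) * ∏ j ∈ range k, r Q (a * Q) e f N j) =
    (1 / (Q ^ (N + 1) - 1)) * (1 - Q ^ m) * (1 - a * Q ^ (N + 1 + m)) *
      (∏ j ∈ range m, r Q a e f (N + 1) j) * ((1 - a * Q * e) * (1 - a * Q * f)) := by
  have hB : Q ^ (N + 1) - 1 ≠ 0 := by
    have := hQ N le_rfl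
    intro h; apply this; rw [← neg_sub, h, neg_zero]
  induction m with
  | zero => simp
  | succ k ih =>
    have h := ih (by omega)
    have hrel := rel Q a e f N hQ ha he hf k (by omega)
    rw [sum_range_succ, sum_range_succ, prod_range_succ]
    have h1 := hQ k (by omega)
    have h2 := ha k (by omega)
    have h3 := he k (by omega)
    have h4 := hf k (by omega)
    set A := ∏ j ∈ range k, r Q (a * Q) e f N j
    set B := ∏ j ∈ range k, r Q a e f (N + 1) j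
    set S1 := ∑ k ∈ range k, ((1 - a * Q ^ (2 * k)) * ∏ j ∈ range k, r Q a e f (N + 1) j)
    set S2 := ∑ k ∈ range k, ((1 - a * Q * Q ^ (2 * k)) * ∏ j ∈ range k, r Q (a * Q) e f N j)
    have e4 : (1 - a) * A =
        B * ((1 - a * Q ^ k) * (Q ^ (N + 1) - Q ^ k) * ((1 - a * Q * e) * (1 - a * Q * f))) /
          ((1 - a * Q ^ (k + 1) * e) * (1 - a * Q ^ (k + 1) * f)) / (Q ^ (N + 1) - 1) := by
      rw [eq_div_iff hB, eq_div_iff (mul_ne_zero h3 h4)]
      linear_combination hrel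
    have e5 : r Q a e f (N + 1) k * ((1 - Q ^ (k + 1)) * (1 - a * Q ^ (N + 1 + (k + 1)))) =
        a * Q * (1 - a * Q ^ k) * (Q ^ (N + 1) - Q ^ k) * (e - Q ^ k) * (f - Q ^ k) /
          ((1 - a * Q ^ (k + 1) * e) * (1 - a * Q ^ (k + 1) * f)) := by
      unfold r
      rw [show N + 1 + 1 + k = N + 2 + k by ring, show N + 1 + (k + 1) = N + 2 + k by ring]
      generalize 1 - Q ^ (k + 1) = u1 at *
      generalize 1 - a * Q ^ (N + 2 + k) = u2 at *
      generalize 1 - a * Q ^ (k + 1) * e = u3 at *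
      generalize 1 - a * Q ^ (k + 1) * f = u4 at *
      field_simp
    have goal : (1 - a * Q ^ (2 * k)) * B * ((1 - a * Q * e) * (1 - a * Q * f)) -
        (1 - a * Q * e * f) * (1 - a * Q * Q ^ (2 * k)) * ((1 - a) * A) =
        (1 / (Q ^ (N + 1) - 1)) * B * (r Q a e f (N + 1) k *
          ((1 - Q ^ (k + 1)) * (1 - a * Q ^ (N + 1 + (k + 1))))) *
            ((1 - a * Q * e) * (1 - a * Q * f)) -
        (1 / (Q ^ (N + 1) - 1)) * (1 - Q ^ k) * (1 - a * Q ^ (N + 1 + k)) * B *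
          ((1 - a * Q * e) * (1 - a * Q * f)) := by
      rw [e4, e5]
      have e6 : 1 - a * Q ^ (k + 1) * e = 1 - a * (Q ^ k * Q) * e := by rw [pow_succ]
      have e7 : 1 - a * Q ^ (k + 1) * f = 1 - a * (Q ^ k * Q) * f := by rw [pow_succ]
      have e8 : a * Q ^ (N + 1 + k) = a * (Q ^ (N + 1) * Q ^ k) := by rw [pow_add]
      have e9 : Q ^ (2 * k) = (Q ^ k) ^ 2 := by rw [mul_comm, pow_mul]
      rw [e6] at h3
      rw [e7] at h4
      rw [e6, e7, e8, e9]
      have star : ∀ x y : K, (1 - a * x ^ 2) * (y - 1) *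
          ((1 - a * (x * Q) * e) * (1 - a * (x * Q) * f)) -
          (1 - a * Q * e * f) * (1 - a * Q * x ^ 2) * ((1 - a * x) * (y - x)) =
          a * Q * (1 - a * x) * (y - x) * (e - x) * (f - x) - (1 - x) * (1 - a * (y * x)) *
          ((1 - a * (x * Q) * e) * (1 - a * (x * Q) * f)) := by
        intro x y; ring
      have st := star (Q ^ k) (Q ^ (N + 1))
      have hD : ((1 - a * (Q ^ k * Q) * e) * (1 - a * (Q ^ k * Q) * f)) *
          ((1 - a * (Q ^ k * Q) * e) * (1 - a * (Q ^ k * Q) * f))⁻¹ = 1 :=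
        mul_inv_cancel₀ (mul_ne_zero h3 h4)
      have hY : (Q ^ (N + 1) - 1) * (Q ^ (N + 1) - 1)⁻¹ = 1 := mul_inv_cancel₀ hB
      clear_value A B S1 S2
      generalize (1 - a * (Q ^ k * Q) * e) * (1 - a * (Q ^ k * Q) * f) = D at *
      generalize Q ^ (N + 1) - 1 = Y at *
      generalize (1 - a * Q * e) * (1 - a * Q * f) = E at *
      simp only [div_eq_mul_inv, one_mul]
      generalize D⁻¹ = D' at *
      generalize Y⁻¹ = Y' at *
      linear_combination (B * E * D' * Y') * st - B * E * (1 - a * (Q ^ k) ^ 2) * D * D' * (hY) -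
        B * E * (1 - a * (Q ^ k) ^ 2) * hD -
        B * E * Y' * (1 - Q ^ k) * (1 - a * (Q ^ (N + 1) * Q ^ k)) * hD
    linear_combination h + goal

/-- The terminating `6φ5` sum. -/
theorem sum (Q : K) (N : ℕ) : ∀ a e f : K, (∀ j, j < N → 1 - Q ^ (j + 1) ≠ 0) →
    (∀ j, j < N → 1 - a * Q ^ (N + 1 + j) ≠ 0) →
    (∀ j, j < N → 1 - a * Q ^ (j + 1) * e ≠ 0) → (∀ j, j < N → 1 - a * Q ^ (j + 1) * f ≠ 0) →
    ∑ k ∈ range (N + 1), (1 - a * Q ^ (2 * k)) * ∏ j ∈ range k, r Q a e f N j =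
      (∏ j ∈ range (N + 1), (1 - a * Q ^ j)) * ∏ j ∈ range N, ((1 - a * Q ^ (j + 1) * e * f) /
        ((1 - a * Q ^ (j + 1) * e) * (1 - a * Q ^ (j + 1) * f))) := by
  induction N with
  | zero => intro a e f _ _ _ _; simp
  | succ N ih =>
    intro a e f hQ ha he hf
    have ht := tel Q a e f N (fun j hj => hQ j (by omega)) (fun j hj => ha j (by omega))
      (fun j hj => he j (by omega)) (fun j hj => hf j (by omega)) (N + 1) le_rfl
    have hi := ih (a * Q) e f (fun j hj => hQ j (by omega))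
      (fun j hj => by
        rw [show a * Q * Q ^ (N + 1 + j) = a * Q ^ (N + 1 + 1 + j) by ring]
        exact ha j (by omega))
      (fun j hj => by
        rw [show a * Q * Q ^ (j + 1) = a * Q ^ (j + 1 + 1) by ring]
        exact he (j + 1) (by omega))
      (fun j hj => by
        rw [show a * Q * Q ^ (j + 1) = a * Q ^ (j + 1 + 1) by ring]
        exact hf (j + 1) (by omega))
    rw [hi] at ht
    have hB : Q ^ (N + 1) - 1 ≠ 0 := by
      have := hQ N (by omega)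
      intro h; apply this; rw [← neg_sub, h, neg_zero]
    have h3 := he 0 (by omega)
    have h4 := hf 0 (by omega)
    rw [zero_add, pow_one] at h3 h4
    have e1 : (1 / (Q ^ (N + 1) - 1)) * (1 - Q ^ (N + 1)) = -1 := by
      rw [← neg_sub (Q ^ (N + 1)) 1, mul_neg, one_div, inv_mul_cancel₀ hB]
    have e2 : a * Q ^ (N + 1 + (N + 1)) = a * Q ^ (2 * (N + 1)) := by ring
    rw [e1, e2] at ht
    apply mul_right_cancel₀ (mul_ne_zero h3 h4)
    rw [sum_range_succ, prod_range_succ' (fun j => 1 - a * Q ^ j) (N + 1),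
      prod_range_succ' (fun j => (1 - a * Q ^ (j + 1) * e * f) /
        ((1 - a * Q ^ (j + 1) * e) * (1 - a * Q ^ (j + 1) * f))) N]
    have e3 : ∏ j ∈ range (N + 1), (1 - a * Q * Q ^ j) = ∏ j ∈ range (N + 1), (1 - a * Q ^ (j + 1)) :=
      prod_congr rfl (fun j _ => by ring)
    have e4 : ∏ j ∈ range N, ((1 - a * Q * Q ^ (j + 1) * e * f) /
        ((1 - a * Q * Q ^ (j + 1) * e) * (1 - a * Q * Q ^ (j + 1) * f))) =
        ∏ j ∈ range N, ((1 - a * Q ^ (j + 1 + 1) * e * f) /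
        ((1 - a * Q ^ (j + 1 + 1) * e) * (1 - a * Q ^ (j + 1 + 1) * f))) :=
      prod_congr rfl (fun j _ => by
        rw [show a * Q * Q ^ (j + 1) = a * Q ^ (j + 1 + 1) by ring])
    rw [e3, e4] at ht
    have e5 : (1 - a * Q ^ (0 + 1) * e * f) / ((1 - a * Q ^ (0 + 1) * e) *
        (1 - a * Q ^ (0 + 1) * f)) * ((1 - a * Q * e) * (1 - a * Q * f)) =
        1 - a * Q * e * f := by
      rw [zero_add, pow_one, div_mul_cancel₀ _ (mul_ne_zero h3 h4)]
    rw [pow_zero, mul_one]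
    linear_combination ht - (∏ j ∈ range (N + 1), (1 - a * Q ^ (j + 1))) * (1 - a) *
      (∏ j ∈ range N, ((1 - a * Q ^ (j + 1 + 1) * e * f) /
        ((1 - a * Q ^ (j + 1 + 1) * e) * (1 - a * Q ^ (j + 1 + 1) * f)))) * e5

end Q278.SixPhi
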