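import Pool.Agent.Q278.Unit

set_option autoImplicit false

/-! Functions on `ℤ` whose `i`-th differences are divisible by `π ^ i`. -/

namespace Q278.Smooth

open Finset Q278.Loc Q278.Unit

variable {K : Type*} [Field K] (O : Subring K) (π : K)

/-- The differences of order `i ≤ r` of `f` lie in `I (k + i)`. -/
def Sm : ℕ → ℕ → (ℤ → K) → Prop
  | 0, k, f => ∀ s, f s ∈ I O π k
  | r + 1, k, f => (∀ s, f s ∈ I O π k) ∧ Sm r (k + 1) (fun s => f (s + 1) - f s)

variable {O π}

theorem Sm.val {r k : ℕ} {f : ℤ → K} (h : Sm O π r k f) (s : ℤ) : f s ∈ I O π k := by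
  cases r with
  | zero => exact h s
  | succ r => exact h.1 s

theorem Sm.shift {r : ℕ} : ∀ {k : ℕ} {f : ℤ → K}, Sm O π r k f → Sm O π r k (fun s => f (s + 1)) := by
  induction r with
  | zero => intro k f h s; exact h (s + 1)
  | succ r ih => intro k f h; exact ⟨fun s => h.1 (s + 1), ih h.2⟩

theorem Sm.const {r : ℕ} (hπ : π ∈ O) : ∀ {k : ℕ} {c : K}, c ∈ I O π k → Sm O π r k (fun _ => c) := by
  induction r with
  | zero => intro k c h s; exact h
  | succ r ih =>
    intro k c h
    refine ⟨fun _ => h, ?_⟩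
    simp only [sub_self]
    exact ih (I O π (k + 1)).zero_mem

theorem Sm.add {r : ℕ} : ∀ {k : ℕ} {f g : ℤ → K}, Sm O π r k f → Sm O π r k g →
    Sm O π r k (fun s => f s + g s) := by
  induction r with
  | zero => intro k f g h h' s; exact (I O π k).add_mem (h s) (h' s)
  | succ r ih =>
    intro k f g h h'
    refine ⟨fun s => (I O π k).add_mem (h.1 s) (h'.1 s), ?_⟩
    have := ih h.2 h'.2
    convert this using 2
    ring

theorem Sm.neg {r : ℕ} : ∀ {k : ℕ} {f : ℤ → K}, Sm O π r k f → Sm O π r k (fun s => - f s) := by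
  induction r with
  | zero => intro k f h s; exact (I O π k).neg_mem (h s)
  | succ r ih =>
    intro k f h
    refine ⟨fun s => (I O π k).neg_mem (h.1 s), ?_⟩
    have := ih h.2
    convert this using 2
    ring

theorem Sm.sub {r k : ℕ} {f g : ℤ → K} (h : Sm O π r k f) (h' : Sm O π r k g) :
    Sm O π r k (fun s => f s - g s) := by
  have := h.add h'.neg
  simpa only [sub_eq_add_neg] using this

theorem Sm.mono (hπ : π ∈ O) {r : ℕ} : ∀ {k : ℕ} {f : ℤ → K}, Sm O π (r + 1) k f →
    Sm O π r k f := by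
  induction r with
  | zero => intro k f h; exact h.1
  | succ r ih => intro k f h; exact ⟨h.1, ih h.2⟩

theorem Sm.mul (hπ : π ∈ O) {r : ℕ} : ∀ {k l : ℕ} {f g : ℤ → K}, Sm O π r k f → Sm O π r l g →
    Sm O π r (k + l) (fun s => f s * g s) := by
  induction r with
  | zero => intro k l f g h h' s; exact mul_I (h s) (h' s)
  | succ r ih =>
    intro k l f g h h'
    refine ⟨fun s => mul_I (h.1 s) (h'.1 s), ?_⟩
    have h1 := ih (h.mono hπ).shift h'.2
    have h2 := ih h.2 (h'.mono hπ)
    rw [← add_assoc] at h1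
    rw [show k + 1 + l = k + l + 1 by ring] at h2
    have := h1.add h2
    convert this using 2
    ring

theorem Sm.inv (hπ : π ∈ O) {r : ℕ} : ∀ {f : ℤ → K}, Sm O π r 0 f → (∀ s, U O (f s)) →
    Sm O π r 0 (fun s => (f s)⁻¹) := by
  induction r with
  | zero => intro f _ hu s; exact of_O (hu s).2.1
  | succ r ih =>
    intro f h hu
    refine ⟨fun s => of_O (hu s).2.1, ?_⟩
    have h1 := ih (h.mono hπ) hu
    have h2 := h1.shift
    have h3 := Sm.mul hπ (Sm.mul hπ h1 h2) h.2.neg
    rw [zero_add, zero_add] at h3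
    rw [zero_add]
    convert h3 using 2 with s
    have e1 := (hu s).2.2
    have e2 := (hu (s + 1)).2.2
    field_simp
    ring

theorem Sm.sum {r k : ℕ} (hπ : π ∈ O) {ι : Type*} {t : Finset ι} {f : ι → ℤ → K}
    (h : ∀ i ∈ t, Sm O π r k (f i)) : Sm O π r k (fun s => ∑ i ∈ t, f i s) := by
  classical
  induction t using Finset.induction_on with
  | empty => simp only [sum_empty]; exact Sm.const hπ (I O π k).zero_mem
  | insert a t ha ih =>
    simp only [sum_insert ha]
    exact (h a (mem_insert_self a t)).add (ih (fun i hi => h i (mem_insert_of_mem hi)))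

theorem Sm.prod {r : ℕ} (hπ : π ∈ O) {ι : Type*} {t : Finset ι} {f : ι → ℤ → K}
    (h : ∀ i ∈ t, Sm O π r 0 (f i)) : Sm O π r 0 (fun s => ∏ i ∈ t, f i s) := by
  classical
  induction t using Finset.induction_on with
  | empty => simp only [prod_empty]; exact Sm.const hπ (of_O O.one_mem)
  | insert a t ha ih =>
    simp only [prod_insert ha]
    have := Sm.mul hπ (h a (mem_insert_self a t)) (ih (fun i hi => h i (mem_insert_of_mem hi)))
    simpa using this

theorem Sm.pow {r : ℕ} (hπ : π ∈ O) {f : ℤ → K} (h : Sm O π r 0 f) (m : ℕ) :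
    Sm O π r 0 (fun s => f s ^ m) := by
  induction m with
  | zero => simp only [pow_zero]; exact Sm.const hπ (of_O O.one_mem)
  | succ m ih =>
    simp only [pow_succ]
    have := Sm.mul hπ ih h
    simpa using this

/-- `s ↦ u ^ (a s)` is smooth. -/
theorem Sm.zpow {r : ℕ} (hπ : π ∈ O) {u : K} (hu : U O u) (h1 : u - 1 ∈ I O π 1) :
    Sm O π r 0 (fun s => u ^ s) := by
  induction r with
  | zero =>
    intro s
    apply of_O
    rcases Int.eq_nat_or_neg s with ⟨m, rfl | rfl⟩
    · show u ^ (m : ℤ) ∈ O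
      rw [zpow_natCast]; exact O.pow_mem hu.1 m
    · show u ^ (-(m : ℤ)) ∈ O
      rw [zpow_neg, zpow_natCast, ← inv_pow]; exact O.pow_mem hu.2.1 m
  | succ r ih =>
    refine ⟨fun s => ih.val s, ?_⟩
    have h2 := Sm.mul hπ ih (Sm.const (r := r) hπ h1)
    have e : (fun s : ℤ => u ^ (s + 1) - u ^ s) = fun s : ℤ => u ^ s * (u - 1) := by
      funext s
      rw [zpow_add_one₀ hu.2.2]; ring
    rw [e]
    exact h2

/-- Linear extrapolation. -/
theorem Sm.lin {f : ℤ → K} (h : Sm O π 2 0 f) (m : ℕ) :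
    f m - (f 0 + m * (f 0 - f (-1))) ∈ I O π 2 := by
  have hd : ∀ s : ℤ, f (s + 1 + 1) - f (s + 1) - (f (s + 1) - f s) ∈ I O π 2 := fun s => h.2.2 s
  have key : ∀ m : ℕ, (f m - (f 0 + m * (f 0 - f (-1))) ∈ I O π 2) ∧
      ((f (m : ℤ) - f ((m : ℤ) - 1)) - (f 0 - f (-1)) ∈ I O π 2) := by
    intro m
    induction m with
    | zero =>
      constructor
      · simp
      · simp
    | succ m ih =>
      obtain ⟨h1, h2⟩ := ih
      have h3 := hd ((m : ℤ) - 1)
      rw [show (m : ℤ) - 1 + 1 = m by ring] at h3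
      have h4 : (f ((m : ℤ) + 1) - f m) - (f 0 - f (-1)) ∈ I O π 2 := by
        have := (I O π 2).add_mem h3 h2
        convert this using 1
        ring
      constructor
      · have := (I O π 2).add_mem h1 h4
        convert this using 1
        push_cast
        ring
      · have e1 : ((m + 1 : ℕ) : ℤ) = (m : ℤ) + 1 := by push_cast; rfl
        rw [e1, show (m : ℤ) + 1 - 1 = m by ring]
        exact h4
  exact (key m).1

end Q278.Smooth
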