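import Pool.Agent.Q278.CycCong

set_option autoImplicit false

/-! The substitution `q ↦ s ^ d` in rational functions. -/

namespace Q278.Sub

open Finset Q278.Loc Q278.Cyc Polynomial

theorem expand_le (d : ℕ) (hd : 0 < d) : (nonZeroDivisors ℚ[X]) ≤
    Submonoid.comap (expand ℚ d : ℚ[X] →ₐ[ℚ] ℚ[X]) (nonZeroDivisors ℚ[X]) := by
  intro x hx
  rw [Submonoid.mem_comap]
  refine mem_nonZeroDivisors_of_ne_zero ?_
  have hx0 := nonZeroDivisors.ne_zero hx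
  intro h
  exact hx0 ((expand_eq_zero hd).1 h)

/-- The substitution `q ↦ s ^ d`. -/
noncomputable def sb (d : ℕ) (hd : 0 < d) : RatFunc ℚ →+* RatFunc ℚ :=
  RatFunc.mapRingHom (expand ℚ d : ℚ[X] →ₐ[ℚ] ℚ[X]) (expand_le d hd)

theorem sb_div (d : ℕ) (hd : 0 < d) (a b : ℚ[X]) :
    sb d hd (algebraMap ℚ[X] (RatFunc ℚ) a / algebraMap ℚ[X] (RatFunc ℚ) b) =
      algebraMap ℚ[X] (RatFunc ℚ) (expand ℚ d a) / algebraMap ℚ[X] (RatFunc ℚ) (expand ℚ d b) := by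
  unfold sb
  rw [RatFunc.coe_mapRingHom_eq_coe_map]
  exact RatFunc.map_apply_div (expand ℚ d : ℚ[X] →ₐ[ℚ] ℚ[X]) (expand_le d hd) a b

theorem sb_poly (d : ℕ) (hd : 0 < d) (a : ℚ[X]) :
    sb d hd (algebraMap ℚ[X] (RatFunc ℚ) a) = algebraMap ℚ[X] (RatFunc ℚ) (expand ℚ d a) := by
  have := sb_div d hd a 1
  simpa using this

theorem sb_X (d : ℕ) (hd : 0 < d) : sb d hd RatFunc.X = RatFunc.X ^ d := by
  rw [← RatFunc.algebraMap_X, sb_poly, expand_X, map_pow]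

theorem ev_expand (d : ℕ) (σ : ℂ) (a : ℚ[X]) :
    (expand ℚ d a).eval₂ (algebraMap ℚ ℂ) σ = a.eval₂ (algebraMap ℚ ℂ) (σ ^ d) := by
  rw [expand_eq_comp_X_pow, eval₂_comp]
  simp

theorem aux {x : RatFunc ℚ} (d : ℕ) (hd : 0 < d) : sb d hd x * algebraMap ℚ[X] (RatFunc ℚ)
    (expand ℚ d (RatFunc.denom x)) = algebraMap ℚ[X] (RatFunc ℚ) (expand ℚ d (RatFunc.num x)) := by
  rw [← sb_poly d hd, ← sb_poly d hd, ← map_mul]
  congr 1
  have h1 : algebraMap ℚ[X] (RatFunc ℚ) (RatFunc.denom x) ≠ 0 :=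
    (map_ne_zero_iff _ (RatFunc.algebraMap_injective ℚ)).2 (RatFunc.denom_ne_zero x)
  have h3 := RatFunc.num_div_denom x
  rw [div_eq_iff h1] at h3
  exact h3.symm

theorem reg {d : ℕ} {hd : 0 < d} {σ : ℂ} {x : RatFunc ℚ} (h : sb d hd x ∈ Reg σ) :
    x ∈ Reg (σ ^ d) := by
  intro h0
  have h1 := congrArg (ev σ) (aux (x := x) d hd)
  rw [ev_mul h (poly_mem _), ev_poly, ev_poly, ev_expand, ev_expand, h0, mul_zero] at h1
  obtain ⟨a, b, hab⟩ := RatFunc.isCoprime_num_denom x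
  have h2 := congrArg (fun f => f.eval₂ (algebraMap ℚ ℂ) (σ ^ d)) hab
  simp only [eval₂_add, eval₂_mul, h0, ← h1, mul_zero, add_zero, eval₂_one] at h2
  exact zero_ne_one h2

theorem ev_sb {d : ℕ} {hd : 0 < d} {σ : ℂ} {x : RatFunc ℚ} (h : sb d hd x ∈ Reg σ) :
    ev σ (sb d hd x) = ev (σ ^ d) x := by
  have h1 := congrArg (ev σ) (aux (x := x) d hd)
  rw [ev_mul h (poly_mem _), ev_poly, ev_poly, ev_expand, ev_expand] at h1
  unfold ev at h1 ⊢
  conv_rhs => unfold RatFunc.eval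
  rw [eq_div_iff (reg h)]
  exact h1

theorem sb_Φ {n d : ℕ} (hd : d.Prime) (hnd : ¬ d ∣ n) :
    sb d hd.pos (Φ n) = Φ (n * d) * Φ n := by
  unfold Φ
  rw [sb_poly, cyclotomic_expand_eq_cyclotomic_mul hd hnd, map_mul]

theorem mem_I_of_sb {n d : ℕ} (hn : 0 < n) (hd : d.Prime) (hnd : ¬ d ∣ n) {σ : ℂ}
    (hσ : IsPrimitiveRoot σ n) (k : ℕ) : ∀ {x : RatFunc ℚ},
    sb d hd.pos x ∈ I (Reg σ) (Φ n) k → x ∈ I (Reg (σ ^ d)) (Φ n) k := by
  have hσd : IsPrimitiveRoot (σ ^ d) n :=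
    hσ.pow_of_coprime d ((Nat.Prime.coprime_iff_not_dvd hd).2 hnd)
  induction k with
  | zero => intro x hx; exact of_O (reg (I_zero hx))
  | succ k ih =>
    intro x hx
    have h1 : sb d hd.pos x ∈ Reg σ := toO (Φ_mem n σ) hx
    have h2 := ev_of_mem hn hσ (mono (Φ_mem n σ) (Nat.le_add_left 1 k) hx)
    rw [ev_sb h1] at h2
    obtain ⟨y, hy, hxy⟩ := mem_I_one hn hσd (reg h1) h2
    rw [pow_one] at hxy
    have hu : ev σ (Φ (n * d)) ≠ 0 := by
      unfold Φ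
      rw [ev_poly]
      intro h3
      have h4 := (dvd_iff hn hσ _).2 h3
      have h5 := cyclotomic.isCoprime_rat (n := n) (m := n * d) (by
        intro h6
        have h7 : n * 1 = n * d := by rw [mul_one]; exact h6
        have := Nat.eq_of_mul_eq_mul_left hn h7
        exact hd.one_lt.ne this)
      have h6 := h5.isUnit_of_dvd' dvd_rfl h4
      exact (cyclotomic.irreducible_rat hn).not_isUnit h6
    have h3 : sb d hd.pos y ∈ I (Reg σ) (Φ n) k := by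
      rw [hxy, map_mul, sb_Φ hd hnd] at hx
      have h4 : Φ (n * d) * ((Φ n) ^ 1 * sb d hd.pos y) ∈ I (Reg σ) (Φ n) (1 + k) := by
        rw [add_comm 1 k, pow_one, ← mul_assoc]; exact hx
      have h5 := of_unit_mul (ne_zero_of_ev hu) (inv_mem (Φ_mem _ _) hu) h4
      exact pi_k_cancel h5
    have h4 := ih h3
    rw [hxy, add_comm k 1]
    have h5 := self_pow (O := Reg (σ ^ d)) (π := Φ n) 1
    rw [pow_one] at h5
    exact mul_I h5 h4

end Q278.Sub
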