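import Mathlib

set_option autoImplicit false

/-! The functional with the central binomial coefficients as moments. -/

namespace Q278.TA

open Finset Polynomial

section seq

variable {R : Type*} [CommRing R]

/-- the pair of sequences -/
def BU (v : R) : ℕ → R × R
  | 0 => (1, 1)
  | m + 1 => ((BU v m).1 + v * (BU v m).2, (BU v m).2 + ((BU v m).1 + v * (BU v m).2))

/-- `∑ C(m+k, 2k) v ^ k` -/
def B (v : R) (m : ℕ) : R := (BU v m).1

/-- `∑ C(m+1+k, 2k+1) v ^ k` -/
def U (v : R) (m : ℕ) : R := (BU v m).2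

theorem B_zero (v : R) : B v 0 = 1 := rfl

theorem U_zero (v : R) : U v 0 = 1 := rfl

theorem B_succ (v : R) (m : ℕ) : B v (m + 1) = B v m + v * U v m := rfl

theorem U_succ (v : R) (m : ℕ) : U v (m + 1) = U v m + B v (m + 1) := rfl

theorem U_two (v : R) (m : ℕ) : U v (m + 2) = (v + 2) * U v (m + 1) - U v m := by
  rw [U_succ, B_succ, U_succ]
  ring

theorem B_two (v : R) (m : ℕ) : B v (m + 2) = (v + 2) * B v (m + 1) - B v m := by
  rw [B_succ, U_succ, B_succ]
  ring

theorem BU_sum (v : R) (m : ℕ) :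
    B v m = ∑ k ∈ range (m + 1), ((m + k).choose (2 * k) : R) * v ^ k ∧
    U v m = ∑ k ∈ range (m + 1), ((m + 1 + k).choose (2 * k + 1) : R) * v ^ k := by
  induction m with
  | zero => simp [B_zero, U_zero]
  | succ m ih =>
    have hB : B v (m + 1) = ∑ k ∈ range (m + 1 + 1), ((m + 1 + k).choose (2 * k) : R) * v ^ k := by
      rw [B_succ, ih.1, ih.2, sum_range_succ' _ (m + 1), mul_sum]
      have e : ∀ k ∈ range (m + 1), ((m + 1 + (k + 1)).choose (2 * (k + 1)) : R) * v ^ (k + 1) =
          v * (((m + 1 + k).choose (2 * k + 1) : R) * v ^ k) +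
            ((m + (k + 1)).choose (2 * (k + 1)) : R) * v ^ (k + 1) := by
        intro k _
        have : (m + 1 + (k + 1)).choose (2 * (k + 1)) =
            (m + 1 + k).choose (2 * k + 1) + (m + (k + 1)).choose (2 * (k + 1)) := by
          rw [show m + 1 + (k + 1) = (m + 1 + k) + 1 by ring,
            show 2 * (k + 1) = (2 * k + 1) + 1 by ring, Nat.choose_succ_succ,
            show m + (k + 1) = m + 1 + k by ring]
        rw [this]
        push_cast
        ring
      rw [sum_congr rfl e, sum_add_distrib, sum_range_succ' _ m,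
        sum_range_succ (fun k => ((m + (k + 1)).choose (2 * (k + 1)) : R) * v ^ (k + 1))]
      have z : (m + (m + 1)).choose (2 * (m + 1)) = 0 := Nat.choose_eq_zero_of_lt (by omega)
      rw [z]
      simp
      ring
    refine ⟨hB, ?_⟩
    rw [U_succ, hB, ih.2, sum_range_succ (fun k => ((m + 1 + k).choose (2 * k) : R) * v ^ k),
      sum_range_succ _ (m + 1)]
    have e : ∀ k ∈ range (m + 1), ((m + 1 + 1 + k).choose (2 * k + 1) : R) * v ^ k =
        ((m + 1 + k).choose (2 * k + 1) : R) * v ^ k + ((m + 1 + k).choose (2 * k) : R) * v ^ k := by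
      intro k _
      have : (m + 1 + 1 + k).choose (2 * k + 1) =
          (m + 1 + k).choose (2 * k) + (m + 1 + k).choose (2 * k + 1) := by
        rw [show m + 1 + 1 + k = (m + 1 + k) + 1 by ring, Nat.choose_succ_succ]
      rw [this]
      push_cast
      ring
    rw [sum_congr rfl e, sum_add_distrib]
    have z1 : (m + 1 + 1 + (m + 1)).choose (2 * (m + 1) + 1) = 1 := by
      rw [show m + 1 + 1 + (m + 1) = 2 * (m + 1) + 1 by ring]; exact Nat.choose_self _
    have z2 : (m + 1 + (m + 1)).choose (2 * (m + 1)) = 1 := by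
      rw [show m + 1 + (m + 1) = 2 * (m + 1) by ring]; exact Nat.choose_self _
    rw [z1, z2]
    ring

theorem dbl (v : R) (h : ℕ) : B (-(v + 2) ^ 2) h = (-1) ^ h * U v (2 * h) ∧
    (v + 2) * U (-(v + 2) ^ 2) h = (-1) ^ h * U v (2 * h + 1) := by
  induction h with
  | zero =>
    refine ⟨by simp [B_zero, U_zero], ?_⟩
    simp only [mul_zero, zero_add, pow_zero, one_mul, U_zero, U_succ, B_succ, B_zero]
    ring
  | succ h ih =>
    have h1 : B (-(v + 2) ^ 2) (h + 1) = (-1) ^ (h + 1) * U v (2 * (h + 1)) := by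
      rw [B_succ, ih.1, show 2 * (h + 1) = 2 * h + 2 by ring, U_two]
      have : -(v + 2) ^ 2 * U (-(v + 2) ^ 2) h = -(v + 2) * ((v + 2) * U (-(v + 2) ^ 2) h) := by ring
      rw [this, ih.2, pow_succ]
      ring
    refine ⟨h1, ?_⟩
    rw [U_succ, h1, mul_add, ih.2, show 2 * (h + 1) + 1 = (2 * h + 1) + 2 by ring, U_two,
      show 2 * (h + 1) = 2 * h + 1 + 1 by ring, pow_succ]
    ring

end seq

/-- the functional `X ^ k ↦ C(2k, k)` -/
noncomputable def L : ℚ[X] →ₗ[ℚ] ℚ :=
  Polynomial.lsum (fun k => (k.centralBinom : ℚ) • LinearMap.id)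

theorem L_monomial (k : ℕ) (a : ℚ) : L (monomial k a) = a * (k.centralBinom : ℚ) := by
  unfold L
  rw [Polynomial.lsum_apply, Polynomial.sum_monomial_index]
  · simp [mul_comm]
  · simp

theorem L_X_pow (k : ℕ) : L (X ^ k) = (k.centralBinom : ℚ) := by
  rw [← monomial_one_right_eq_X_pow, L_monomial, one_mul]

theorem L_C_mul (a : ℚ) (f : ℚ[X]) : L (C a * f) = a * L f := by
  rw [← smul_eq_C_mul, map_smul, smul_eq_mul]

theorem L_nat_mul (a : ℕ) (f : ℚ[X]) : L ((a : ℚ[X]) * f) = a * L f := by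
  have := L_C_mul (a : ℚ) f
  simpa using this

theorem L_mul_X_pow (a : ℚ) (k : ℕ) : L (C a * X ^ k) = a * (k.centralBinom : ℚ) := by
  rw [L_C_mul, L_X_pow]

theorem cb_succ (k : ℕ) : ((k : ℚ) + 1) * ((k + 1).centralBinom : ℚ) =
    2 * (2 * k + 1) * (k.centralBinom : ℚ) := by
  have := Nat.succ_mul_centralBinom_succ k
  exact_mod_cast this

/-- integration by parts -/
theorem parts (f : ℚ[X]) : L (X * (4 - X) * derivative f + (2 - X) * f) = 0 := by
  induction f using Polynomial.induction_on' with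
  | add f g hf hg =>
    have e : X * (4 - X) * derivative (f + g) + (2 - X) * (f + g) =
      (X * (4 - X) * derivative f + (2 - X) * f) + (X * (4 - X) * derivative g + (2 - X) * g) := by
      rw [derivative_add]; ring
    rw [e, map_add, hf, hg, add_zero]
  | monomial n a =>
    have e : X * (4 - X) * derivative (monomial n a) + (2 - X) * monomial n a =
        C (a * (4 * n + 2)) * X ^ n - C (a * (n + 1)) * X ^ (n + 1) := by
      rw [← C_mul_X_pow_eq_monomial, derivative_C_mul_X_pow]
      rcases n with _ | n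
      · simp only [Nat.cast_zero, mul_zero, map_zero, zero_mul, pow_zero, zero_add, mul_one,
          pow_one, C_mul]
        simp only [map_ofNat]
        ring
      · simp only [map_mul, map_add, map_one, map_ofNat, map_natCast, Nat.add_sub_cancel]
        push_cast
        ring
    rw [e, map_sub, L_mul_X_pow, L_mul_X_pow]
    have := cb_succ n
    linear_combination (-a) * this

/-- the moments around the centre -/
theorem mom_rec (m : ℕ) : ((m : ℚ) + 2) * L ((X - 2) ^ (m + 2)) = 4 * (m + 1) * L ((X - 2) ^ m) := by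
  have h := parts ((X - 2) ^ (m + 1))
  have e : X * (4 - X) * derivative ((X - 2) ^ (m + 1) : ℚ[X]) + (2 - X) * (X - 2) ^ (m + 1) =
      C (4 * ((m : ℚ) + 1)) * (X - 2) ^ m - C ((m : ℚ) + 2) * (X - 2) ^ (m + 2) := by
    rw [derivative_pow]
    have : derivative (X - 2 : ℚ[X]) = 1 := by
      rw [derivative_sub, derivative_X]
      have : derivative (2 : ℚ[X]) = 0 := derivative_ofNat 2
      rw [this, sub_zero]
    rw [this]
    simp only [map_mul, map_add, map_one, map_ofNat, map_natCast, Nat.add_sub_cancel]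
    push_cast
    ring
  rw [e, map_sub, L_C_mul, L_C_mul] at h
  linarith

theorem mom (i : ℕ) : L ((X - 2) ^ (2 * i)) = (i.centralBinom : ℚ) ∧
    L ((X - 2) ^ (2 * i + 1)) = 0 := by
  induction i with
  | zero =>
    refine ⟨?_, ?_⟩
    · have := L_X_pow 0
      simpa using this
    · have h0 := L_X_pow 0
      have h1 := L_X_pow 1
      have e : ((X : ℚ[X]) - 2) ^ (2 * 0 + 1) = X ^ 1 - C 2 * X ^ 0 := by
        simp only [map_ofNat]; ring
      rw [e, map_sub, L_C_mul, h0, h1]
      simp [Nat.centralBinom, Nat.choose]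
  | succ i ih =>
    have h1 := mom_rec (2 * i)
    have h2 := mom_rec (2 * i + 1)
    have h3 := cb_succ i
    rw [show 2 * i + 1 + 2 = 2 * (i + 1) + 1 by ring] at h2
    rw [show 2 * i + 2 = 2 * (i + 1) by ring] at h1
    rw [ih.1] at h1
    rw [ih.2] at h2
    push_cast at h1 h2
    refine ⟨?_, ?_⟩
    · have : (2 * (i : ℚ) + 2) ≠ 0 := by positivity
      apply mul_left_cancel₀ this
      linear_combination h1 - 2 * h3
    · have : (2 * (i : ℚ) + 1 + 2) ≠ 0 := by positivity
      apply mul_left_cancel₀ this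
      linear_combination h2

theorem sum_even (g : ℕ → ℚ) (hg : ∀ i, g (2 * i + 1) = 0) : ∀ n : ℕ,
    ∑ m ∈ range (n + 1), g m = ∑ i ∈ range (n / 2 + 1), g (2 * i)
  | 0 => by simp
  | 1 => by
    have := hg 0
    simp [sum_range_succ] at this ⊢
    exact this
  | n + 2 => by
    rw [sum_range_succ, sum_range_succ, sum_even g hg n, show (n + 2) / 2 + 1 = (n / 2 + 1) + 1 by omega,
      sum_range_succ _ (n / 2 + 1)]
    rcases Nat.even_or_odd' n with ⟨c, hc | hc⟩
    · have h1 : g (n + 1) = 0 := by rw [hc]; exact hg c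
      rw [h1, show n + 1 + 1 = 2 * (n / 2 + 1) by omega, add_zero]
    · have h1 : g (n + 1 + 1) = 0 := by
        rw [hc, show 2 * c + 1 + 1 + 1 = 2 * (c + 1) + 1 by ring]; exact hg _
      rw [h1, add_zero, show n + 1 = 2 * (n / 2 + 1) by omega]

/-- generalized central trinomial coefficients -/
def T (n : ℕ) (b c : ℚ) : ℚ := ∑ i ∈ range (n / 2 + 1),
  (n.choose (2 * i) : ℚ) * ((2 * i).choose i : ℚ) * c ^ i * b ^ (n - 2 * i)

theorem T_L (n : ℕ) (b s : ℚ) : T n b (s ^ 2) = L ((C s * (X - 2) + C b) ^ n) := by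
  rw [add_pow, map_sum, sum_even]
  · unfold T
    apply sum_congr rfl
    intro i hi
    have e : (C s * (X - 2)) ^ (2 * i) * C b ^ (n - 2 * i) * ((n.choose (2 * i) : ℕ) : ℚ[X]) =
        C (s ^ (2 * i) * b ^ (n - 2 * i) * (n.choose (2 * i) : ℚ)) * (X - 2) ^ (2 * i) := by
      simp only [map_mul, map_pow, map_natCast, mul_pow]
      ring
    rw [e, L_C_mul, (mom i).1, Nat.centralBinom]
    ring
  · intro i
    have e : (C s * (X - 2)) ^ (2 * i + 1) * C b ^ (n - (2 * i + 1)) *
        ((n.choose (2 * i + 1) : ℕ) : ℚ[X]) =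
        C (s ^ (2 * i + 1) * b ^ (n - (2 * i + 1)) * (n.choose (2 * i + 1) : ℚ)) *
          (X - 2) ^ (2 * i + 1) := by
      simp only [map_mul, map_pow, map_natCast, mul_pow]
      ring
    rw [e, L_C_mul, (mom i).2, mul_zero]

end Q278.TA
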