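import Pool.Agent.Q278.TA

set_option autoImplicit false

/-! Exact identities. -/

namespace Q278.TB

open Finset Polynomial Q278.TA

theorem ch_right (n j : ℕ) : ((j : ℚ) + 1) * (n.choose (j + 1) : ℚ) = ((n : ℚ) - j) * (n.choose j : ℚ) := by
  rcases le_or_gt j n with h | h
  · have := Nat.choose_succ_right_eq n j
    have h2 : ((n.choose (j + 1) : ℕ) : ℚ) * ((j : ℚ) + 1) = (n.choose j : ℚ) * ((n - j : ℕ) : ℚ) := by
      exact_mod_cast this
    rw [Nat.cast_sub h] at h2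
    linarith
  · rw [Nat.choose_eq_zero_of_lt h, Nat.choose_eq_zero_of_lt (Nat.lt_succ_of_lt h)]
    simp

theorem ch_up (n j : ℕ) : ((n : ℚ) + 1) * (n.choose j : ℚ) =
    ((j : ℚ) + 1) * ((n + 1).choose (j + 1) : ℚ) := by
  have := Nat.add_one_mul_choose_eq n j
  have h2 : ((n : ℚ) + 1) * (n.choose j : ℚ) = ((n + 1).choose (j + 1) : ℚ) * ((j : ℚ) + 1) := by
    exact_mod_cast this
  linarith

theorem ch_top (n j : ℕ) : ((n : ℚ) + 1 - j) * ((n + 1).choose j : ℚ) =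
    ((n : ℚ) + 1) * (n.choose j : ℚ) := by
  have h1 := ch_up n j
  have h2 := ch_right (n + 1) j
  push_cast at h2
  linarith

/-- `∑ C(m+k, 2k) C(2k, k) w ^ k` -/
noncomputable def P (w : ℚ) (m : ℕ) : ℚ := L (B (C w * X) m)

/-- the coefficients -/
def t (m k : ℕ) : ℚ := ((m + k).choose (2 * k) : ℚ) * (k.centralBinom : ℚ)

theorem t_gt {m k : ℕ} (h : m < k) : t m k = 0 := by
  unfold t; rw [Nat.choose_eq_zero_of_lt (by omega)]; simp

theorem P_sum (w : ℚ) (m : ℕ) {M : ℕ} (hM : m < M) : P w m = ∑ k ∈ range M, t m k * w ^ k := by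
  have h1 : P w m = ∑ k ∈ range (m + 1), t m k * w ^ k := by
    unfold P
    rw [(BU_sum (C w * X) m).1, map_sum]
    apply sum_congr rfl
    intro k _
    have e : (((m + k).choose (2 * k) : ℕ) : ℚ[X]) * (C w * X) ^ k =
        C (((m + k).choose (2 * k) : ℚ) * w ^ k) * X ^ k := by
      simp only [map_mul, map_pow, map_natCast, mul_pow]
      ring
    rw [e, L_mul_X_pow]
    unfold t
    ring
  rw [h1]
  apply sum_subset
  · intro x hx
    simp only [mem_range] at hx ⊢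
    omega
  · intro x _ hx
    simp only [mem_range] at hx
    rw [t_gt (by omega), zero_mul]

theorem t_rec (m k : ℕ) : ((m : ℚ) + 2) * t (m + 2) (k + 1) + (m + 1) * t m (k + 1) =
    (2 * m + 3) * (t (m + 1) (k + 1) + 2 * t (m + 1) k) := by
  unfold t
  have hc := cb_succ k
  set a : ℚ := ((m + 1 + k).choose (2 * k) : ℚ) with ha
  -- `C(m+k+1, 2k+1)`
  have h1 := ch_right (m + 1 + k) (2 * k)
  have h2 := ch_right (m + 1 + k) (2 * k + 1)
  have h3 := ch_up (m + 1 + k) (2 * k)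
  have h4 := ch_right (m + 1 + k + 1) (2 * k + 1)
  have h5 := ch_up (m + 1 + k + 1) (2 * k + 1)
  rw [show m + 2 + (k + 1) = m + 1 + k + 1 + 1 by ring, show m + (k + 1) = m + 1 + k by ring,
    show m + 1 + (k + 1) = m + 1 + k + 1 by ring, show 2 * (k + 1) = 2 * k + 1 + 1 by ring]
  set b : ℚ := ((m + 1 + k).choose (2 * k + 1) : ℚ)
  set c : ℚ := ((m + 1 + k).choose (2 * k + 1 + 1) : ℚ)
  set d : ℚ := ((m + 1 + k + 1).choose (2 * k + 1) : ℚ)
  set e : ℚ := ((m + 1 + k + 1).choose (2 * k + 1 + 1) : ℚ)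
  set f : ℚ := ((m + 1 + k + 1 + 1).choose (2 * k + 1 + 1) : ℚ)
  set y : ℚ := (k.centralBinom : ℚ)
  set z : ℚ := ((k + 1).centralBinom : ℚ)
  push_cast at h1 h2 h3 h4 h5
  have k1 : (2 * (k : ℚ) + 1) ≠ 0 := by positivity
  have k2 : (2 * (k : ℚ) + 1 + 1) ≠ 0 := by positivity
  have k3 : ((k : ℚ) + 1) ≠ 0 := by positivity
  have hb : b = ((m : ℚ) + 1 + k - 2 * k) * a / (2 * k + 1) := by
    rw [eq_div_iff k1]; linarith
  have hcc : c = ((m : ℚ) + 1 + k - (2 * k + 1)) * b / (2 * k + 1 + 1) := by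
    rw [eq_div_iff k2]; linarith
  have hd : d = ((m : ℚ) + 1 + k + 1) * a / (2 * k + 1) := by
    rw [eq_div_iff k1]; linarith
  have he : e = ((m : ℚ) + 1 + k + 1 - (2 * k + 1)) * d / (2 * k + 1 + 1) := by
    rw [eq_div_iff k2]; linarith
  have hf : f = ((m : ℚ) + 1 + k + 1 + 1) * d / (2 * k + 1 + 1) := by
    rw [eq_div_iff k2]; linarith
  have hz : z = 2 * (2 * k + 1) * y / (k + 1) := by
    rw [eq_div_iff k3]; linarith
  rw [hf, hcc, he, hb, hd, hz]
  field_simp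
  ring

theorem t_zero (m : ℕ) : t m 0 = 1 := by simp [t]

/-- the recurrence of the Legendre polynomials -/
theorem P_rec (w : ℚ) (m : ℕ) : ((m : ℚ) + 2) * P w (m + 2) =
    (2 * m + 3) * (1 + 2 * w) * P w (m + 1) - (m + 1) * P w m := by
  rw [P_sum w (m + 2) (show m + 2 < m + 3 by omega), P_sum w m (show m < m + 3 by omega)]
  have e1 : (1 + 2 * w) * P w (m + 1) =
      ∑ k ∈ range (m + 3), t (m + 1) k * w ^ k + 2 * w * ∑ k ∈ range (m + 2), t (m + 1) k * w ^ k := by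
    rw [← P_sum w (m + 1) (show m + 1 < m + 3 by omega),
      ← P_sum w (m + 1) (show m + 1 < m + 2 by omega)]
    ring
  rw [mul_assoc, e1, sum_range_succ' _ (m + 2), sum_range_succ' _ (m + 2), sum_range_succ' _ (m + 2)]
  simp only [t_zero, pow_zero]
  have h := sum_congr (rfl : range (m + 2) = range (m + 2))
    (fun k _ => congrArg (fun z => z * w ^ (k + 1)) (t_rec m k))
  have e2 : ∑ k ∈ range (m + 2), (((m : ℚ) + 2) * t (m + 2) (k + 1) + (m + 1) * t m (k + 1)) * w ^ (k + 1) =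
      (m + 2) * ∑ k ∈ range (m + 2), t (m + 2) (k + 1) * w ^ (k + 1) +
        (m + 1) * ∑ k ∈ range (m + 2), t m (k + 1) * w ^ (k + 1) := by
    rw [mul_sum, mul_sum, ← sum_add_distrib]
    apply sum_congr rfl
    intro k _
    ring
  have e3 : ∑ k ∈ range (m + 2), ((2 * (m : ℚ) + 3) * (t (m + 1) (k + 1) + 2 * t (m + 1) k)) * w ^ (k + 1) =
      (2 * m + 3) * (∑ k ∈ range (m + 2), t (m + 1) (k + 1) * w ^ (k + 1) +
        2 * w * ∑ k ∈ range (m + 2), t (m + 1) k * w ^ k) := by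
    rw [mul_sum, ← sum_add_distrib, mul_sum]
    apply sum_congr rfl
    intro k _
    ring
  rw [e2, e3] at h
  linear_combination h

theorem P_zero (w : ℚ) : P w 0 = 1 := by
  rw [P_sum w 0 (show 0 < 1 by omega)]
  simp [t_zero]

theorem P_one (w : ℚ) : P w 1 = 1 + 2 * w := by
  rw [P_sum w 1 (show 1 < 2 by omega), sum_range_succ, sum_range_one]
  simp [t, Nat.centralBinom, Nat.choose]

theorem P_par (w : ℚ) : ∀ m : ℕ, P (-1 - w) m = (-1) ^ m * P w m ∧
    P (-1 - w) (m + 1) = (-1) ^ (m + 1) * P w (m + 1) := by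
  intro m
  induction m with
  | zero =>
    refine ⟨by rw [P_zero, P_zero]; simp, ?_⟩
    rw [P_one, P_one]; ring
  | succ m ih =>
    refine ⟨ih.2, ?_⟩
    have h1 := P_rec (-1 - w) m
    have h2 := P_rec w m
    rw [ih.1, ih.2] at h1
    have : ((m : ℚ) + 2) ≠ 0 := by positivity
    apply mul_left_cancel₀ this
    rw [show m + 1 + 1 = m + 2 by ring, h1]
    have e : (-1 : ℚ) ^ (m + 2) = (-1) ^ m := by rw [pow_add]; norm_num
    have e1 : (-1 : ℚ) ^ (m + 1) = -(-1) ^ m := by rw [pow_succ]; ring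
    rw [e, e1]
    linear_combination (-1 : ℚ) ^ m * (-h2)

/-- the Delannoy numbers -/
noncomputable def D (m : ℕ) : ℚ := P 1 m

theorem D_eq (m : ℕ) : D m = L (B X m) := by
  unfold D P; rw [map_one, one_mul]

theorem D_par (m : ℕ) : P (-2) m = (-1) ^ m * D m := by
  have := (P_par 1 m).1
  rw [show (-1 : ℚ) - 1 = -2 by norm_num] at this
  exact this

theorem D_rec (m : ℕ) : ((m : ℚ) + 2) * D (m + 2) =
    (2 * m + 3) * 3 * D (m + 1) - (m + 1) * D m := by
  have := P_rec 1 m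
  unfold D
  rw [this]
  ring

/-- the sum with the weights `1 / (j + 1)` -/
noncomputable def G (h : ℕ) : ℚ := ∑ j ∈ range (h + 1),
  (-1) ^ j * ((h + j).choose (2 * j) : ℚ) / (j + 1) * L ((X + 2) ^ (2 * j))

/-- the polynomial -/
noncomputable def g (h : ℕ) : ℚ[X] := ∑ j ∈ range (h + 1),
  C ((-1) ^ j * ((h + j).choose (2 * j) : ℚ) / (j + 1)) * ((X + 2) ^ 2) ^ j

theorem G_g (h : ℕ) : G h = L (g h) := by
  unfold G g
  rw [map_sum]
  apply sum_congr rfl
  intro j _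
  rw [L_C_mul, ← pow_mul]

theorem g_rec (h : ℕ) : C ((h : ℚ) + 2) * g (h + 1) - C (h : ℚ) * g h =
    B (-(X + 2) ^ 2) (h + 1) + B (-(X + 2) ^ 2) h := by
  rw [(BU_sum _ (h + 1)).1, (BU_sum _ h).1]
  unfold g
  have e1 : ∑ j ∈ range (h + 1), C ((-1) ^ j * ((h + j).choose (2 * j) : ℚ) / (j + 1)) *
      (((X : ℚ[X]) + 2) ^ 2) ^ j = ∑ j ∈ range (h + 1 + 1),
        C ((-1) ^ j * ((h + j).choose (2 * j) : ℚ) / (j + 1)) * ((X + 2) ^ 2) ^ j := by
    rw [sum_range_succ _ (h + 1), show (h + (h + 1)).choose (2 * (h + 1)) = 0 from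
      Nat.choose_eq_zero_of_lt (by omega)]
    simp
  have e2 : ∑ k ∈ range (h + 1), ((h + k).choose (2 * k) : ℚ[X]) * (-(X + 2) ^ 2) ^ k =
      ∑ k ∈ range (h + 1 + 1), ((h + k).choose (2 * k) : ℚ[X]) * (-(X + 2) ^ 2) ^ k := by
    rw [sum_range_succ _ (h + 1), show (h + (h + 1)).choose (2 * (h + 1)) = 0 from
      Nat.choose_eq_zero_of_lt (by omega)]
    simp
  rw [e1, e2, mul_sum, mul_sum, ← sum_sub_distrib, ← sum_add_distrib]
  apply sum_congr rfl
  intro j _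
  have h1 := ch_top (h + j) (2 * j)
  rw [show h + j + 1 = h + 1 + j by ring] at h1
  push_cast at h1
  have j1 : ((j : ℚ) + 1) ≠ 0 := by positivity
  have key : ((h : ℚ) + 2) * ((-1) ^ j * ((h + 1 + j).choose (2 * j) : ℚ) / (j + 1)) -
      (h : ℚ) * ((-1) ^ j * ((h + j).choose (2 * j) : ℚ) / (j + 1)) =
      (-1) ^ j * (((h + 1 + j).choose (2 * j) : ℚ) + ((h + j).choose (2 * j) : ℚ)) := by
    field_simp
    linear_combination h1
  have key2 := congrArg (C : ℚ →+* ℚ[X]) key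
  simp only [map_sub, map_mul, map_add, map_pow, map_neg, map_one, map_natCast, map_ofNat] at key2 ⊢
  rw [neg_pow (((X : ℚ[X]) + 2) ^ 2) j]
  linear_combination (((X : ℚ[X]) + 2) ^ 2) ^ j * key2

theorem G_rec (h : ℕ) : ((h : ℚ) + 2) * G (h + 1) - h * G h =
    (-1) ^ (h + 1) * (D (2 * h + 2) + D (2 * h + 1)) := by
  have h1 := congrArg L (g_rec h)
  rw [map_sub, L_C_mul, L_C_mul, ← G_g, ← G_g] at h1
  rw [h1, (dbl X (h + 1)).1, (dbl X h).1]
  have e : (-1 : ℚ[X]) ^ (h + 1) * U X (2 * (h + 1)) + (-1) ^ h * U X (2 * h) =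
      C ((-1) ^ (h + 1)) * (B X (2 * h + 2) + B X (2 * h + 1)) := by
    rw [show 2 * (h + 1) = 2 * h + 1 + 1 by ring, U_succ X (2 * h + 1), U_succ X (2 * h)]
    simp only [map_pow, map_neg, map_one]
    rw [pow_succ]
    ring
  rw [e, L_C_mul, map_add, ← D_eq, ← D_eq]

/-- the alternating sums -/
noncomputable def Lam : ℕ → ℚ
  | 0 => 1
  | h + 1 => -Lam h + D (2 * h + 2) - D (2 * h + 1)

theorem D_zero : D 0 = 1 := P_zero 1

theorem D_one : D 1 = 3 := by unfold D; rw [P_one]; norm_num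

theorem G_main (h : ℕ) : 12 * (h : ℚ) * (h + 1) * (-1) ^ h * G h =
    (2 * h + 1) * (D (2 * h + 1) + D (2 * h)) - 4 * Lam h := by
  induction h with
  | zero => simp [Lam, D_zero, D_one]; norm_num
  | succ h ih =>
    have h1 := G_rec h
    have h2 := D_rec (2 * h)
    have h3 := D_rec (2 * h + 1)
    rw [show 2 * h + 1 + 2 = 2 * (h + 1) + 1 by ring] at h3
    rw [Lam, show 2 * (h + 1) = 2 * h + 2 by ring]
    rw [show 2 * (h + 1) + 1 = 2 * h + 2 + 1 by ring] at h3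
    rw [show 2 * h + 1 + 1 = 2 * h + 2 by ring] at h3
    push_cast at h1 h2 h3 ⊢
    have s : (-1 : ℚ) ^ (h + 1) * (-1) ^ (h + 1) = 1 := by rw [← mul_pow]; norm_num
    have s1 : (-1 : ℚ) ^ (h + 1) = -(-1) ^ h := by rw [pow_succ]; ring
    have h1' : (-1) ^ (h + 1) * (((h : ℚ) + 2) * G (h + 1) - h * G h) =
        D (2 * h + 2) + D (2 * h + 1) := by
      rw [h1, ← mul_assoc, s, one_mul]
    rw [s1] at h1' ⊢
    linear_combination 12 * ((h : ℚ) + 1) * h1' - ih - h3 - h2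

end Q278.TB
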