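import Pool.Agent.Q278.TB

set_option autoImplicit false

/-! More exact identities. -/

namespace Q278.TC

open Finset Polynomial Q278.TA Q278.TB

/-- the coefficients of the first kind polynomials -/
def c (m k : ℕ) : ℚ := ((m + 1 + k).choose (2 * k) : ℚ) + ((m + k).choose (2 * k) : ℚ)

theorem c_sum {R : Type*} [CommRing R] [Algebra ℚ R] (v : R) (m : ℕ) :
    B v (m + 1) + B v m = ∑ k ∈ range (m + 2), algebraMap ℚ R (c m k) * v ^ k := by
  rw [(BU_sum v (m + 1)).1, (BU_sum v m).1]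
  have e2 : ∑ k ∈ range (m + 1), ((m + k).choose (2 * k) : R) * v ^ k =
      ∑ k ∈ range (m + 2), ((m + k).choose (2 * k) : R) * v ^ k := by
    rw [sum_range_succ _ (m + 1), show (m + (m + 1)).choose (2 * (m + 1)) = 0 from
      Nat.choose_eq_zero_of_lt (by omega)]
    simp
  rw [e2, ← sum_add_distrib]
  apply sum_congr rfl
  intro k _
  unfold c
  rw [map_add, map_natCast, map_natCast]
  ring

theorem c_zero (m : ℕ) : c m 0 = 2 := by simp [c]; norm_num

theorem c_top (m : ℕ) : c m (m + 1) = 1 := by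
  unfold c
  rw [show m + 1 + (m + 1) = 2 * (m + 1) by ring, Nat.choose_self,
    Nat.choose_eq_zero_of_lt (by omega)]
  simp

/-- the first kind polynomials -/
theorem two_step {R : Type*} [CommRing R] (v : R) (m : ℕ) :
    (B v (m + 3) + B v (m + 2)) + (B v (m + 1) + B v m) = (v + 2) * (B v (m + 2) + B v (m + 1)) := by
  rw [show m + 3 = m + 1 + 2 by ring, B_two v (m + 1), show m + 1 + 1 = m + 2 by ring, B_two v m]
  ring

theorem at_neg_two (h : ℕ) : B (-2 : ℚ) (2 * h) = (-1) ^ h ∧ B (-2 : ℚ) (2 * h + 1) = -(-1) ^ h := by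
  induction h with
  | zero => simp only [mul_zero, zero_add, B_zero, pow_zero, B_succ, U_zero, true_and]; norm_num
  | succ h ih =>
    have h1 : B (-2 : ℚ) (2 * (h + 1)) = (-1) ^ (h + 1) := by
      rw [show 2 * (h + 1) = 2 * h + 2 by ring, B_two, ih.1, pow_succ]; ring
    refine ⟨h1, ?_⟩
    rw [show 2 * (h + 1) + 1 = 2 * h + 1 + 2 by ring, B_two, ih.2, pow_succ]; ring

theorem c_alt (h : ℕ) : ∑ k ∈ range (2 * h + 2), c (2 * h) k * (-2) ^ k = 0 := by
  have h1 := c_sum (-2 : ℚ) (2 * h)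
  rw [(at_neg_two h).1, (at_neg_two h).2] at h1
  simp only [Algebra.algebraMap_self, RingHom.id_apply] at h1
  rw [← h1]
  ring

/-- the quotient -/
noncomputable def nu (h : ℕ) : ℚ[X] := ∑ k ∈ range (2 * h + 2),
  C (-(1 / 2) * (c (2 * h) k * (-2) ^ k)) * ∑ j ∈ range k, X ^ j

theorem nu_mul (h : ℕ) : (2 * X - 2) * nu h =
    -(B (C (-2) * X) (2 * h + 1) + B (C (-2) * X) (2 * h)) := by
  rw [c_sum (C (-2) * X) (2 * h)]
  unfold nu
  rw [mul_sum]
  have e : ∀ k ∈ range (2 * h + 2), (2 * (X : ℚ[X]) - 2) *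
      (C (-(1 / 2) * (c (2 * h) k * (-2) ^ k)) * ∑ j ∈ range k, X ^ j) =
      C (c (2 * h) k * (-2) ^ k) - algebraMap ℚ ℚ[X] (c (2 * h) k) * (C (-2) * X) ^ k := by
    intro k _
    have g1 := geom_sum_mul (X : ℚ[X]) k
    have g2 : C (-(1 / 2) * (c (2 * h) k * (-2) ^ k)) * 2 = -C (c (2 * h) k * (-2) ^ k) := by
      rw [show (2 : ℚ[X]) = C 2 from (map_ofNat C 2).symm, ← C_mul, ← C_neg]
      congr 1
      ring
    have g3 : (C (c (2 * h) k * (-2) ^ k) : ℚ[X]) = algebraMap ℚ ℚ[X] (c (2 * h) k) * C (-2) ^ k := by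
      rw [C_mul, C_pow]; rfl
    rw [mul_pow]
    linear_combination (∑ j ∈ range k, (X : ℚ[X]) ^ j) * (X - 1) * g2 -
      C (c (2 * h) k * (-2) ^ k) * g1 + X ^ k * (-g3)
  rw [sum_congr rfl e, sum_sub_distrib, ← map_sum, c_alt, map_zero, zero_sub]

theorem nu_step (h : ℕ) : nu (h + 1) + nu h = B (C (-2) * X) (2 * h + 2) + B (C (-2) * X) (2 * h + 1) := by
  have h0 : (2 * (X : ℚ[X]) - 2) ≠ 0 := by
    intro h
    have := congrArg (Polynomial.eval 0) h
    simp at this
  apply mul_left_cancel₀ h0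
  rw [mul_add, nu_mul, nu_mul, show 2 * (h + 1) + 1 = 2 * h + 3 by ring,
    show 2 * (h + 1) = 2 * h + 2 by ring]
  have := two_step (C (-2) * X : ℚ[X]) (2 * h)
  have e : (C (-2) * X + 2 : ℚ[X]) = -(2 * X - 2) := by
    rw [show (C (-2) : ℚ[X]) = -2 by rw [C_neg, map_ofNat]]; ring
  rw [e] at this
  linear_combination -this

theorem Lam_nu (h : ℕ) : Lam h = L (nu h) := by
  induction h with
  | zero =>
    have e : nu 0 = 1 := by
      unfold nu
      rw [show 2 * 0 + 2 = 1 + 1 by norm_num, sum_range_succ, sum_range_succ, range_zero, sum_empty,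
        show 2 * 0 = 0 by norm_num, c_top 0]
      simp
    rw [e, ← pow_zero X, L_X_pow, Lam]
    simp
  | succ h ih =>
    have h1 := congrArg L (nu_step h)
    rw [map_add, map_add] at h1
    have h2 : L (B (C (-2) * X) (2 * h + 2)) = D (2 * h + 2) := by
      have := D_par (2 * h + 2)
      unfold P at this
      rw [this, show 2 * h + 2 = 2 * (h + 1) by ring, pow_mul]
      norm_num
    have h3 : L (B (C (-2) * X) (2 * h + 1)) = -D (2 * h + 1) := by
      have := D_par (2 * h + 1)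
      unfold P at this
      rw [this, pow_succ, pow_mul]
      norm_num
    rw [h2, h3] at h1
    rw [Lam, ih]
    linarith

/-- partial sums of the central binomial coefficients -/
def rho (k : ℕ) : ℚ := ∑ j ∈ range k, (j.centralBinom : ℚ)

theorem Lam_eq (h : ℕ) : Lam h = -(1 / 2) * ∑ k ∈ range (2 * h + 2), c (2 * h) k * (-2) ^ k * rho k := by
  rw [Lam_nu]
  unfold nu
  rw [map_sum, mul_sum]
  apply sum_congr rfl
  intro k _
  rw [L_C_mul, map_sum]
  have : ∑ j ∈ range k, L (X ^ j) = rho k := sum_congr rfl (fun j _ => L_X_pow j)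
  rw [this]
  ring

theorem c_mul (m k : ℕ) : ((k : ℚ) + 1) * c m (k + 1) = (m + 1) * ((m + 1 + k).choose (2 * k + 1) : ℚ) := by
  unfold c
  rw [show m + 1 + (k + 1) = m + 1 + k + 1 by ring, show m + (k + 1) = m + 1 + k by ring,
    show 2 * (k + 1) = 2 * k + 1 + 1 by ring]
  have h1 := ch_up (m + 1 + k) (2 * k + 1)
  have h2 := ch_right (m + 1 + k) (2 * k + 1)
  push_cast at h1 h2
  linear_combination (1 / 2) * h2 - (1 / 2) * h1

/-- closed forms at `-16/3` -/
theorem at_w (h : ℕ) : B (-16 / 3 : ℚ) h = (3 * (-3) ^ h - ((-3) ^ h)⁻¹) / 2 ∧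
    U (-16 / 3 : ℚ) h = (9 * (-3) ^ h - ((-3) ^ h)⁻¹) / 8 := by
  induction h with
  | zero => simp only [B_zero, U_zero, pow_zero]; norm_num
  | succ h ih =>
    have n : ((-3 : ℚ) ^ h) ≠ 0 := pow_ne_zero _ (by norm_num)
    have h1 : B (-16 / 3 : ℚ) (h + 1) = (3 * (-3) ^ (h + 1) - ((-3) ^ (h + 1))⁻¹) / 2 := by
      rw [B_succ, ih.1, ih.2, pow_succ]
      field_simp
      ring
    refine ⟨h1, ?_⟩
    rw [U_succ, h1, ih.2, pow_succ]
    field_simp
    ring

/-- sums of binomial coefficients with odd and even lower index -/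
def al (y : ℚ) (m : ℕ) : ℚ := ∑ k ∈ range m, (m.choose (2 * k + 1) : ℚ) * y ^ k

/-- sums of binomial coefficients with odd and even lower index -/
def be (y : ℚ) (m : ℕ) : ℚ := ∑ k ∈ range (m + 1), (m.choose (2 * k) : ℚ) * y ^ k

theorem al_succ (y : ℚ) (m : ℕ) : al y (m + 1) = al y m + be y m := by
  unfold al be
  have e1 : ∑ k ∈ range m, (m.choose (2 * k + 1) : ℚ) * y ^ k =
      ∑ k ∈ range (m + 1), (m.choose (2 * k + 1) : ℚ) * y ^ k := by
    rw [sum_range_succ _ m, show m.choose (2 * m + 1) = 0 from Nat.choose_eq_zero_of_lt (by omega)]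
    simp
  rw [e1, ← sum_add_distrib]
  apply sum_congr rfl
  intro k _
  rw [Nat.choose_succ_succ]
  push_cast
  ring

theorem be_succ (y : ℚ) (m : ℕ) : be y (m + 1) = be y m + y * al y m := by
  unfold al be
  have e1 : ∑ k ∈ range m, (m.choose (2 * k + 1) : ℚ) * y ^ k =
      ∑ k ∈ range (m + 1), (m.choose (2 * k + 1) : ℚ) * y ^ k := by
    rw [sum_range_succ _ m, show m.choose (2 * m + 1) = 0 from Nat.choose_eq_zero_of_lt (by omega)]
    simp
  have e2 : ∑ k ∈ range (m + 1), (m.choose (2 * k) : ℚ) * y ^ k =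
      ∑ k ∈ range (m + 2), (m.choose (2 * k) : ℚ) * y ^ k := by
    rw [sum_range_succ _ (m + 1), show m.choose (2 * (m + 1)) = 0 from
      Nat.choose_eq_zero_of_lt (by omega)]
    simp
  rw [e1, e2, sum_range_succ' _ (m + 1), sum_range_succ' _ (m + 1), mul_sum, add_right_comm,
    ← sum_add_distrib]
  simp only [mul_zero, Nat.choose_zero_right]
  congr 1
  apply sum_congr rfl
  intro k _
  rw [show 2 * (k + 1) = 2 * k + 1 + 1 by ring, Nat.choose_succ_succ]
  push_cast
  ring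

theorem al_zero (y : ℚ) : al y 0 = 0 := by simp [al]

theorem be_zero (y : ℚ) : be y 0 = 1 := by simp [be]

theorem ab_one (h : ℕ) : al (-1) (2 * h + 1) = (-1) ^ h * be (-1) (2 * h + 1) := by
  induction h with
  | zero => simp only [mul_zero, zero_add, al_succ, be_succ, al_zero, be_zero]; norm_num
  | succ h ih =>
    rw [show 2 * (h + 1) + 1 = 2 * h + 1 + 1 + 1 by ring]
    rw [al_succ _ (2 * h + 1 + 1), be_succ _ (2 * h + 1 + 1), al_succ _ (2 * h + 1),
      be_succ _ (2 * h + 1), ih, pow_succ]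
    have s : (-1 : ℚ) ^ h * (-1) ^ h = 1 := by rw [← mul_pow]; norm_num
    linear_combination (-2 * be (-1) (2 * h + 1)) * s

theorem ab_four (m : ℕ) : al 4 m = (3 ^ m - (-1) ^ m) / 4 ∧ be 4 m = (3 ^ m + (-1) ^ m) / 2 := by
  induction m with
  | zero => rw [al_zero, be_zero]; norm_num
  | succ m ih =>
    rw [al_succ, be_succ, ih.1, ih.2, pow_succ, pow_succ]
    constructor <;> ring

theorem ab_three_step (m : ℕ) : al (-3) (m + 3) = -8 * al (-3) m ∧ be (-3) (m + 3) = -8 * be (-3) m := by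
  rw [show m + 3 = m + 1 + 1 + 1 by ring]
  rw [al_succ _ (m + 1 + 1), be_succ _ (m + 1 + 1), al_succ _ (m + 1), be_succ _ (m + 1),
    al_succ _ m, be_succ _ m]
  constructor <;> ring

theorem ab_three (l : ℕ) : (al (-3) (6 * l + 1) = 2 ^ (6 * l) ∧ be (-3) (6 * l + 1) = 2 ^ (6 * l)) ∧
    (al (-3) (6 * l + 5) = -2 ^ (6 * l + 4) ∧ be (-3) (6 * l + 5) = 2 ^ (6 * l + 4)) := by
  induction l with
  | zero =>
    have a1 := al_succ (-3) 0
    have b1 := be_succ (-3) 0
    have a2 := al_succ (-3) 1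
    have b2 := be_succ (-3) 1
    have a3 := al_succ (-3) 2
    have b3 := be_succ (-3) 2
    have a4 := al_succ (-3) 3
    have b4 := be_succ (-3) 3
    have a5 := al_succ (-3) 4
    have b5 := be_succ (-3) 4
    rw [al_zero, be_zero] at a1 b1
    norm_num at a1 b1 a2 b2 a3 b3 a4 b4 a5 b5
    rw [a1, b1] at a2 b2
    norm_num at a2 b2
    rw [a2, b2] at a3 b3
    norm_num at a3 b3
    rw [a3, b3] at a4 b4
    norm_num at a4 b4
    rw [a4, b4] at a5 b5
    norm_num at a5 b5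
    norm_num
    exact ⟨⟨a1, b1⟩, a5, b5⟩
  | succ l ih =>
    obtain ⟨⟨a1, b1⟩, a5, b5⟩ := ih
    have e1 := ab_three_step (6 * l + 1)
    have e2 := ab_three_step (6 * l + 1 + 3)
    have e3 := ab_three_step (6 * l + 5)
    have e4 := ab_three_step (6 * l + 5 + 3)
    rw [show 6 * (l + 1) + 1 = 6 * l + 1 + 3 + 3 by ring, show 6 * (l + 1) + 5 = 6 * l + 5 + 3 + 3 by ring,
      e2.1, e2.2, e4.1, e4.2, e1.1, e1.2, e3.1, e3.2, a1, b1, a5, b5,
      show 6 * (l + 1) = 6 * l + 6 by ring]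
    refine ⟨⟨?_, ?_⟩, ?_, ?_⟩ <;> ring

/-- the summation with binomial weights -/
theorem wsum (k N : ℕ) : (2 * (k : ℚ) + 1) * ∑ j ∈ range (N + 1),
    (j.centralBinom : ℚ) * (j.choose k : ℚ) / 4 ^ j =
      (2 * N + 1) * (N.centralBinom : ℚ) * (N.choose k : ℚ) / 4 ^ N := by
  induction N with
  | zero =>
    rcases k with _ | k
    · simp
    · simp
  | succ N ih =>
    rw [sum_range_succ, mul_add, ih]
    have h1 := cb_succ N
    have h2 := ch_top N k
    have h3 : ((N + 1).centralBinom : ℚ) = 2 * (2 * N + 1) * (N.centralBinom : ℚ) / (N + 1) := by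
      rw [eq_div_iff (by positivity)]; linarith
    have h4 : (N.choose k : ℚ) = ((N : ℚ) + 1 - k) * ((N + 1).choose k : ℚ) / (N + 1) := by
      rw [eq_div_iff (by positivity)]; linarith
    rw [h3, h4, pow_succ]
    push_cast
    field_simp
    ring

end Q278.TC
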