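import Pool.Agent.Q278.TC
import Pool.Agent.Q278.PI
import Pool.Agent.Q278.Ex

set_option autoImplicit false

/-! Congruences modulo `p ^ 2`. -/

namespace Q278.TD

open Finset Q278.TA Q278.TB Q278.TC Q278.Loc Q278.Unit

variable {p h : ℕ} [hp : Fact p.Prime]

/-- the groups `p ^ k ℤ_(p)` -/
abbrev M (p : ℕ) [Fact p.Prime] (k : ℕ) : AddSubgroup ℚ := I (PI.O p) (p : ℚ) k

theorem p_O : (p : ℚ) ∈ PI.O p := natCast_mem _ _

theorem U_int {m : ℤ} (hm : ¬ (p : ℤ) ∣ m) : Unit.U (PI.O p) (m : ℚ) := by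
  have h0 : (m : ℚ) ≠ 0 := by
    intro h
    have : m = 0 := by exact_mod_cast h
    exact hm (this ▸ dvd_zero _)
  refine ⟨intCast_mem _ _, ?_, h0⟩
  rw [← one_div]
  exact PI.inv_int_mem p hm

theorem U_nat {m : ℕ} (hm : ¬ p ∣ m) : Unit.U (PI.O p) (m : ℚ) := by
  have : ¬ (p : ℤ) ∣ (m : ℤ) := fun h => hm (Int.natCast_dvd_natCast.1 h)
  exact_mod_cast U_int this

theorem U_lt {m : ℕ} (h0 : 0 < m) (h1 : m < p) : Unit.U (PI.O p) (m : ℚ) :=
  U_nat (fun h => by have := Nat.le_of_dvd h0 h; omega)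

theorem M_nat {m : ℕ} (h : p ∣ m) : (m : ℚ) ∈ M p 1 := by
  obtain ⟨c, rfl⟩ := h
  exact ⟨c, natCast_mem _ c, by push_cast; ring⟩

theorem M_mono {a b : ℕ} (h : a ≤ b) {x : ℚ} (hx : x ∈ M p b) : x ∈ M p a := mono p_O h hx

theorem M_O {a : ℕ} {x : ℚ} (hx : x ∈ M p a) : x ∈ PI.O p := toO p_O hx

theorem M_div {k : ℕ} {x u : ℚ} (hu : Unit.U (PI.O p) u) (hx : u * x ∈ M p k) : x ∈ M p k :=
  of_unit_mul hu.2.2 hu.2.1 hx

theorem p_M : (p : ℚ) ∈ M p 1 := ⟨1, one_mem _, by ring⟩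

theorem p2_M : (p : ℚ) ^ 2 ∈ M p 2 := self_pow 2

/-- `p` times an element of `p ℤ_(p)` -/
theorem p_mul {x : ℚ} (hx : x ∈ M p 1) : (p : ℚ) * x ∈ M p 2 := by
  have := mul_I (p_M (p := p)) hx
  simpa using this

section

variable (hP : p = 2 * h + 1) (h5 : 5 ≤ p)

include hP

/-- central binomial coefficients modulo `p ^ 2` -/
theorem cbA : ∀ j ≤ h, (j.centralBinom : ℚ) - (-16) ^ j * ((h + j).choose (2 * j) : ℚ) ∈ M p 2 := by
  intro j
  induction j with
  | zero => intro _; simp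
  | succ j ih =>
    intro hj
    have ih' := ih (by omega)
    have u1 : Unit.U (PI.O p) ((j + 1 : ℕ) : ℚ) := U_lt (by omega) (by omega)
    have u2 : Unit.U (PI.O p) ((2 * j + 1 : ℕ) : ℚ) := U_lt (by omega) (by omega)
    apply M_div (u1.mul u2)
    have hc := cb_succ j
    have h1 := ch_up (h + j) (2 * j)
    have h2 := ch_right (h + j + 1) (2 * j + 1)
    rw [show h + (j + 1) = h + j + 1 by ring, show 2 * (j + 1) = 2 * j + 1 + 1 by ring]
    push_cast at h1 h2 ⊢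
    have hpq : (p : ℚ) = 2 * h + 1 := by rw [hP]; push_cast; ring
    have e : ((j : ℚ) + 1) * (2 * j + 1) * (((j + 1).centralBinom : ℚ) -
        (-16) ^ (j + 1) * ((h + j + 1).choose (2 * j + 1 + 1) : ℚ)) =
        2 * (2 * j + 1) ^ 2 * ((j.centralBinom : ℚ) - (-16) ^ j * ((h + j).choose (2 * j) : ℚ)) +
          2 * ((-16) ^ j * ((h + j).choose (2 * j) : ℚ)) * (p : ℚ) ^ 2 := by
      rw [hpq, pow_succ]
      linear_combination (2 * (j : ℚ) + 1) * hc + 8 * (2 * j + 1) * (-16) ^ j * h2 -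
        8 * ((h : ℚ) - j) * (-16) ^ j * h1
    rw [e]
    refine (M p 2).add_mem (mul_O ?_ ih') (mul_O ?_ p2_M)
    · exact_mod_cast natCast_mem (PI.O p) (2 * (2 * j + 1) ^ 2)
    · have := intCast_mem (PI.O p) (2 * ((-16) ^ j * ((h + j).choose (2 * j) : ℤ)))
      push_cast at this
      exact this

omit hP in
theorem Gk : ∀ k < p, ((p + k).choose k : ℚ) * ((p - 1).choose k : ℚ) - (-1) ^ k ∈ M p 2 := by
  intro k
  induction k with
  | zero => intro _; simp
  | succ k ih =>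
    intro hk
    have ih' := ih (by omega)
    have u1 : Unit.U (PI.O p) ((k + 1 : ℕ) : ℚ) := U_lt (by omega) (by omega)
    apply M_div (u1.pow 2)
    have h1 := ch_right (p - 1) k
    have h2 := ch_up (p + k) k
    rw [show p + (k + 1) = p + k + 1 by ring]
    have hp1 : ((p - 1 : ℕ) : ℚ) = p - 1 := by
      rw [Nat.cast_sub (by omega)]; simp
    rw [hp1] at h1
    push_cast at h1 h2 ⊢
    have e : ((k : ℚ) + 1) ^ 2 * (((p + k + 1).choose (k + 1) : ℚ) * ((p - 1).choose (k + 1) : ℚ) -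
        (-1) ^ (k + 1)) = ((p + k).choose k : ℚ) * ((p - 1).choose k : ℚ) * (p : ℚ) ^ 2 -
          ((k : ℚ) + 1) ^ 2 * (((p + k).choose k : ℚ) * ((p - 1).choose k : ℚ) - (-1) ^ k) := by
      rw [pow_succ (-1 : ℚ)]
      linear_combination ((k : ℚ) + 1) * ((p + k + 1).choose (k + 1) : ℚ) * h1 -
        ((p : ℚ) - 1 - k) * ((p - 1).choose k : ℚ) * h2
    rw [e]
    refine (M p 2).sub_mem (mul_O ?_ p2_M) (mul_O ?_ ih')
    · exact_mod_cast natCast_mem (PI.O p) ((p + k).choose k * (p - 1).choose k)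
    · exact_mod_cast natCast_mem (PI.O p) ((k + 1) ^ 2)

omit hP in
theorem ch_pm : ∀ k < p, ((p - 1).choose k : ℚ) - (-1) ^ k ∈ M p 1 := by
  intro k
  induction k with
  | zero => intro _; simp
  | succ k ih =>
    intro hk
    have ih' := ih (by omega)
    have h1 : p.choose (k + 1) = (p - 1).choose k + (p - 1).choose (k + 1) := by
      have := Nat.choose_succ_succ (p - 1) k
      rwa [Nat.succ_eq_add_one, Nat.sub_add_cancel (by omega)] at this
    have h2 : p ∣ p.choose (k + 1) := hp.out.dvd_choose_self (by omega) hk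
    have h3 := M_nat h2
    rw [h1] at h3
    push_cast at h3
    have e : ((p - 1).choose (k + 1) : ℚ) - (-1) ^ (k + 1) =
        (((p - 1).choose k : ℚ) + ((p - 1).choose (k + 1) : ℚ)) -
          (((p - 1).choose k : ℚ) - (-1) ^ k) := by rw [pow_succ]; ring
    rw [e]
    exact (M p 1).sub_mem h3 ih'

omit hP hp in
theorem ch_id (k m : ℕ) : (2 * (k : ℚ) + 1) * (((k + m + 1) + k).choose (2 * k + 1) : ℚ) *
    (k.centralBinom : ℚ) = ((k + m + 1 : ℕ) : ℚ) * (((k + m + 1) + k).choose k : ℚ) *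
      ((k + m).choose k : ℚ) := by
  have a1 : (((k + m + 1) + k).choose (2 * k + 1) : ℚ) =
      ((k + (k + m + 1)).factorial : ℚ) / ((k + k + 1).factorial * m.factorial) := by
    rw [show (k + m + 1) + k = (2 * k + 1) + m by ring, Nat.cast_add_choose,
      show 2 * k + 1 + m = k + (k + m + 1) by ring, two_mul]
  have a2 : (k.centralBinom : ℚ) = ((k + k).factorial : ℚ) / (k.factorial * k.factorial) := by
    rw [Nat.centralBinom, two_mul, Nat.cast_add_choose]
  have a3 : (((k + m + 1) + k).choose k : ℚ) =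
      ((k + (k + m + 1)).factorial : ℚ) / (k.factorial * (k + m + 1).factorial) := by
    rw [show (k + m + 1) + k = k + (k + m + 1) by ring, Nat.cast_add_choose]
  rw [a1, a2, a3, Nat.cast_add_choose]
  have f1 : ((k + k + 1).factorial : ℚ) = (2 * (k : ℚ) + 1) * ((k + k).factorial : ℚ) := by
    rw [Nat.factorial_succ]; push_cast; ring
  have f2 : ((k + m + 1).factorial : ℚ) = ((k : ℚ) + m + 1) * ((k + m).factorial : ℚ) := by
    rw [Nat.factorial_succ]; push_cast; ring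
  rw [f1, f2]
  have n1 : ((k + k).factorial : ℚ) ≠ 0 := by exact_mod_cast Nat.factorial_ne_zero _
  have n2 : ((k + m).factorial : ℚ) ≠ 0 := by exact_mod_cast Nat.factorial_ne_zero _
  have n3 : (k.factorial : ℚ) ≠ 0 := by exact_mod_cast Nat.factorial_ne_zero _
  have n4 : (m.factorial : ℚ) ≠ 0 := by exact_mod_cast Nat.factorial_ne_zero _
  have n5 : (2 * (k : ℚ) + 1) ≠ 0 := by positivity
  have n6 : ((k : ℚ) + m + 1) ≠ 0 := by positivity
  push_cast
  field_simp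

omit hP hp in
theorem ch_id' {k : ℕ} (hk : k < p) : ((p + k).choose (2 * k + 1) : ℚ) * (k.centralBinom : ℚ) =
    (p : ℚ) / (2 * k + 1) * (((p + k).choose k : ℚ) * ((p - 1).choose k : ℚ)) := by
  have := ch_id k (p - 1 - k)
  rw [show k + (p - 1 - k) = p - 1 by omega, show p - 1 + 1 = p by omega] at this
  have n5 : (2 * (k : ℚ) + 1) ≠ 0 := by positivity
  field_simp
  linarith

theorem q_one {k : ℕ} (hk : k < p) (hkh : k ≠ h) : (p : ℚ) / (2 * k + 1) ∈ M p 1 := by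
  have u : Unit.U (PI.O p) ((2 * k + 1 : ℕ) : ℚ) := U_nat (by
    rintro ⟨c, hc⟩
    have : c < 2 := by
      by_contra hcc
      have : p * 2 ≤ p * c := Nat.mul_le_mul_left p (by omega)
      omega
    rcases (show c = 0 ∨ c = 1 by omega) with rfl | rfl
    · omega
    · omega)
  refine ⟨((2 * k + 1 : ℕ) : ℚ)⁻¹, u.2.1, ?_⟩
  push_cast
  rw [pow_one, div_eq_mul_inv]

theorem q_self : (p : ℚ) / (2 * h + 1) = 1 := by
  have hpq : (p : ℚ) = 2 * h + 1 := by rw [hP]; push_cast; ring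
  rw [← hpq]
  exact div_self (by exact_mod_cast hp.out.ne_zero)

theorem q_O {k : ℕ} (hk : k < p) : (p : ℚ) / (2 * k + 1) ∈ PI.O p := by
  by_cases hkh : k = h
  · rw [hkh, q_self hP]; exact one_mem _
  · exact M_O (q_one hP hk hkh)

/-- the sum with the central binomial coefficients -/
theorem Z_W {x : ℚ} (hx : x ∈ PI.O p) :
    ∑ k ∈ range p, ((p + k).choose (2 * k + 1) : ℚ) * x ^ k * (k.centralBinom : ℚ) -
      ∑ k ∈ range p, (p : ℚ) / (2 * k + 1) * (-x) ^ k ∈ M p 2 := by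
  rw [← sum_sub_distrib]
  refine AddSubgroup.sum_mem _ fun k hk => ?_
  have hk' := mem_range.1 hk
  have e : ((p + k).choose (2 * k + 1) : ℚ) * x ^ k * (k.centralBinom : ℚ) -
      (p : ℚ) / (2 * k + 1) * (-x) ^ k = (x ^ k * ((p : ℚ) / (2 * k + 1))) *
        (((p + k).choose k : ℚ) * ((p - 1).choose k : ℚ) - (-1) ^ k) := by
    rw [neg_pow x k]
    linear_combination x ^ k * ch_id' hk'
  rw [e]
  exact mul_O ((PI.O p).mul_mem ((PI.O p).pow_mem hx k) (q_O hP hk')) (Gk k hk')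

theorem q_ch {k : ℕ} (hk : k ≤ h) : (p : ℚ) / (2 * k + 1) - (p.choose (2 * k + 1) : ℚ) ∈ M p 2 := by
  have h1 := ch_up (p - 1) (2 * k)
  rw [show p - 1 + 1 = p by have := hp.out.pos; omega] at h1
  have hp1 : ((p - 1 : ℕ) : ℚ) = p - 1 := by
    rw [Nat.cast_sub (by have := hp.out.pos; omega)]; simp
  rw [hp1] at h1
  push_cast at h1
  have n5 : (2 * (k : ℚ) + 1) ≠ 0 := by positivity
  by_cases hkh : k = h
  · rw [hkh, q_self hP, ← hP, Nat.choose_self, Nat.cast_one, sub_self]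
    exact AddSubgroup.zero_mem _
  · have e : (p : ℚ) / (2 * k + 1) - (p.choose (2 * k + 1) : ℚ) =
        -((p : ℚ) / (2 * k + 1) * (((p - 1).choose (2 * k) : ℚ) - (-1) ^ (2 * k))) := by
      rw [pow_mul, neg_one_sq, one_pow]
      field_simp
      linarith
    rw [e]
    have := mul_I (q_one hP (by omega) hkh) (ch_pm (p := p) (2 * k) (by omega))
    exact (M p 2).neg_mem this

theorem q_ch2 {i : ℕ} (hi : i < h) :
    (p : ℚ) / (2 * ((h + 1 + i : ℕ) : ℚ) + 1) + (p.choose (2 * (i + 1)) : ℚ) ∈ M p 2 := by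
  have h1 := ch_up (p - 1) (2 * i + 1)
  rw [show p - 1 + 1 = p by have := hp.out.pos; omega] at h1
  have hp1 : ((p - 1 : ℕ) : ℚ) = p - 1 := by
    rw [Nat.cast_sub (by have := hp.out.pos; omega)]; simp
  rw [hp1] at h1
  push_cast at h1
  have hpq : (p : ℚ) = 2 * h + 1 := by rw [hP]; push_cast; ring
  have u1 : Unit.U (PI.O p) ((2 * (i + 1) : ℕ) : ℚ) := U_lt (by omega) (by omega)
  have u2 : Unit.U (PI.O p) ((p + 2 * (i + 1) : ℕ) : ℚ) := U_nat (by
    intro hd
    have := (Nat.dvd_add_right (dvd_refl p)).1 hd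
    have := Nat.le_of_dvd (by omega) this
    omega)
  apply M_div (u1.mul u2)
  rw [show 2 * ((h + 1 + i : ℕ) : ℚ) + 1 = p + 2 * (i + 1) by rw [hpq]; push_cast; ring,
    show 2 * (i + 1) = 2 * i + 1 + 1 by ring]
  have n5 : ((p : ℚ) + 2 * (i + 1)) ≠ 0 := by positivity
  push_cast
  have e : (2 * (i : ℚ) + 1 + 1) * (p + (2 * i + 1 + 1)) * ((p : ℚ) / (p + 2 * (i + 1)) +
      (p.choose (2 * i + 1 + 1) : ℚ)) = (p + (2 * (i : ℚ) + 1 + 1)) * ((p : ℚ) *
        (((p - 1).choose (2 * i + 1) : ℚ) - (-1) ^ (2 * i + 1))) - (p : ℚ) ^ 2 := by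
    have e0 : (2 * (i : ℚ) + 1 + 1) * (p + (2 * i + 1 + 1)) * ((p : ℚ) / (p + 2 * (i + 1))) =
        (2 * (i : ℚ) + 1 + 1) * p := by
      rw [show (p : ℚ) + (2 * i + 1 + 1) = p + 2 * (i + 1) by ring]
      field_simp
    rw [pow_succ (-1 : ℚ), pow_mul, neg_one_sq, one_pow]
    linear_combination e0 - (p + (2 * (i : ℚ) + 1 + 1)) * h1
  rw [e]
  refine (M p 2).sub_mem (mul_O ?_ (p_mul (ch_pm (2 * i + 1) (by omega)))) p2_M
  exact_mod_cast natCast_mem (PI.O p) (p + (2 * i + 1 + 1))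

/-- the sum of `p / (2 k + 1)` in terms of binomial coefficients -/
theorem W_ab {y : ℚ} (hy : y ∈ PI.O p) : ∑ k ∈ range p, (p : ℚ) / (2 * k + 1) * y ^ k -
    (al y p - y ^ h * (be y p - 1)) ∈ M p 2 := by
  have e1 : ∑ k ∈ range p, (p : ℚ) / (2 * k + 1) * y ^ k =
      ∑ k ∈ range (h + 1), (p : ℚ) / (2 * k + 1) * y ^ k +
        ∑ i ∈ range h, (p : ℚ) / (2 * ((h + 1 + i : ℕ) : ℚ) + 1) * y ^ (h + 1 + i) := by
    rw [show range p = range ((h + 1) + h) by rw [hP]; congr 1; ring, sum_range_add]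
  have e2 : al y p = ∑ k ∈ range (h + 1), (p.choose (2 * k + 1) : ℚ) * y ^ k := by
    unfold al
    symm
    apply sum_subset
    · intro x hx
      simp only [mem_range] at hx ⊢
      omega
    · intro x _ hx
      simp only [mem_range] at hx
      rw [Nat.choose_eq_zero_of_lt (by omega)]
      simp
  have e3 : be y p = 1 + ∑ i ∈ range h, (p.choose (2 * (i + 1)) : ℚ) * y ^ (i + 1) := by
    unfold be
    rw [sum_range_succ']
    simp only [mul_zero, Nat.choose_zero_right, Nat.cast_one, pow_zero, mul_one]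
    rw [add_comm]
    congr 1
    symm
    apply sum_subset
    · intro x hx
      simp only [mem_range] at hx ⊢
      omega
    · intro x _ hx
      simp only [mem_range] at hx
      rw [Nat.choose_eq_zero_of_lt (by omega)]
      simp
  rw [e1, e2, e3]
  have e : ∑ k ∈ range (h + 1), (p : ℚ) / (2 * k + 1) * y ^ k +
        ∑ i ∈ range h, (p : ℚ) / (2 * ((h + 1 + i : ℕ) : ℚ) + 1) * y ^ (h + 1 + i) -
      (∑ k ∈ range (h + 1), (p.choose (2 * k + 1) : ℚ) * y ^ k -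
        y ^ h * (1 + ∑ i ∈ range h, (p.choose (2 * (i + 1)) : ℚ) * y ^ (i + 1) - 1)) =
      ∑ k ∈ range (h + 1), y ^ k * ((p : ℚ) / (2 * k + 1) - (p.choose (2 * k + 1) : ℚ)) +
      ∑ i ∈ range h, y ^ (h + 1 + i) * ((p : ℚ) / (2 * ((h + 1 + i : ℕ) : ℚ) + 1) +
        (p.choose (2 * (i + 1)) : ℚ)) := by
    simp only [mul_sub, mul_add, sum_sub_distrib, sum_add_distrib]
    have g1 : ∑ i ∈ range h, y ^ (h + 1 + i) * (p.choose (2 * (i + 1)) : ℚ) =
        y ^ h * ∑ i ∈ range h, (p.choose (2 * (i + 1)) : ℚ) * y ^ (i + 1) := by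
      rw [mul_sum]
      apply sum_congr rfl
      intro i _
      ring
    have g2 : ∀ (s : ℕ) (f : ℕ → ℚ) (g : ℕ → ℚ), ∑ k ∈ range s, f k * g k =
        ∑ k ∈ range s, g k * f k := fun s f g => sum_congr rfl (fun k _ => mul_comm _ _)
    rw [g2 (h + 1) (fun k => (p : ℚ) / (2 * k + 1)) (fun k => y ^ k),
      g2 (h + 1) (fun k => (p.choose (2 * k + 1) : ℚ)) (fun k => y ^ k),
      g2 h (fun i => (p : ℚ) / (2 * ((h + 1 + i : ℕ) : ℚ) + 1)) (fun i => y ^ (h + 1 + i))]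
    simp only [mul_add] at g1
    rw [g1]
    ring
  rw [e]
  refine (M p 2).add_mem (AddSubgroup.sum_mem _ fun k hk => ?_) (AddSubgroup.sum_mem _ fun i hi => ?_)
  · exact mul_O ((PI.O p).pow_mem hy k) (q_ch hP (by have := mem_range.1 hk; omega))
  · exact mul_O ((PI.O p).pow_mem hy _) (q_ch2 hP (mem_range.1 hi))

end

end Q278.TD
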