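import Pool.Agent.Q278.TD

set_option autoImplicit false

/-! Congruences modulo `p ^ 2`, continued. -/

namespace Q278.TE

open Finset Polynomial Q278.TA Q278.TB Q278.TC Q278.TD Q278.Loc

variable {p h : ℕ} [hp : Fact p.Prime]

/-- the Legendre symbol `(p / 3)` -/
def eps (p : ℕ) : ℚ := if p % 3 = 1 then 1 else -1

omit hp in
theorem eps_sq : eps p * eps p = 1 := by unfold eps; split_ifs <;> norm_num

theorem eps_O : eps p ∈ PI.O p := by
  unfold eps; split_ifs
  · exact one_mem _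
  · exact neg_mem (one_mem _)

/-- `C(2p-1, p-1)` -/
def w (p : ℕ) : ℚ := ((p + (p - 1)).choose (p - 1) : ℚ)

theorem w_mem (h2 : p % 2 = 1) : w p - 1 ∈ M p 2 := by
  have h1 := Gk (p := p) (p - 1) (by have := hp.out.pos; omega)
  rw [Nat.choose_self, Nat.cast_one, mul_one, Even.neg_one_pow (by
    rw [Nat.even_iff]; have := hp.out.pos; omega)] at h1
  exact h1

theorem w_O : w p ∈ PI.O p := natCast_mem _ _

omit hp in
theorem w_eq (h0 : 0 < p) : (2 * ((p - 1 : ℕ) : ℚ) + 1) * ((p - 1).centralBinom : ℚ) = p * w p := by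
  have h1 := ch_top (2 * (p - 1)) (p - 1)
  rw [show 2 * (p - 1) + 1 = p + (p - 1) by omega] at h1
  unfold w
  rw [Nat.centralBinom]
  push_cast [Nat.cast_sub (show 1 ≤ p by omega)] at h1 ⊢
  linarith

omit hp in
theorem cb_p (h0 : 0 < p) : (p.centralBinom : ℚ) = 2 * w p := by
  have h1 := cb_succ (p - 1)
  rw [show p - 1 + 1 = p by omega] at h1
  have h2 := w_eq h0
  have hp1 : ((p - 1 : ℕ) : ℚ) + 1 = p := by
    rw [Nat.cast_sub (show 1 ≤ p by omega)]; simp
  rw [hp1] at h1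
  have n : (p : ℚ) ≠ 0 := by exact_mod_cast h0.ne'
  apply mul_left_cancel₀ n
  linear_combination h1 + 2 * h2

omit hp in
theorem wsum_p (h0 : 0 < p) (k : ℕ) : 4 ^ (p - 1) * ∑ j ∈ range p,
    (j.centralBinom : ℚ) * (j.choose k : ℚ) / 4 ^ j =
      w p * ((p : ℚ) / (2 * k + 1) * ((p - 1).choose k : ℚ)) := by
  have h1 := wsum k (p - 1)
  rw [show p - 1 + 1 = p by omega] at h1
  have h2 := w_eq h0
  rw [h2] at h1
  have n1 : (2 * (k : ℚ) + 1) ≠ 0 := by positivity
  have n2 : (4 : ℚ) ^ (p - 1) ≠ 0 := by positivity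
  apply mul_left_cancel₀ n1
  have e : (2 * (k : ℚ) + 1) * (4 ^ (p - 1) * ∑ j ∈ range p,
      (j.centralBinom : ℚ) * (j.choose k : ℚ) / 4 ^ j) = 4 ^ (p - 1) * ((2 * (k : ℚ) + 1) *
        ∑ j ∈ range p, (j.centralBinom : ℚ) * (j.choose k : ℚ) / 4 ^ j) := by ring
  rw [e, h1]
  field_simp

omit hp in
/-- the general double sum -/
theorem dsum (h0 : 0 < p) (g : ℕ → ℚ) : 4 ^ (p - 1) * ∑ j ∈ range p,
    (j.centralBinom : ℚ) / 4 ^ j * ∑ k ∈ range (j + 1), (j.choose k : ℚ) * g k =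
      w p * ∑ k ∈ range p, (p : ℚ) / (2 * k + 1) * ((p - 1).choose k : ℚ) * g k := by
  have e1 : ∑ j ∈ range p, (j.centralBinom : ℚ) / 4 ^ j * ∑ k ∈ range (j + 1),
      (j.choose k : ℚ) * g k = ∑ k ∈ range p, g k * ∑ j ∈ range p,
        (j.centralBinom : ℚ) * (j.choose k : ℚ) / 4 ^ j := by
    have e0 : ∀ j ∈ range p, (j.centralBinom : ℚ) / 4 ^ j * ∑ k ∈ range (j + 1),
        (j.choose k : ℚ) * g k = ∑ k ∈ range p, g k * ((j.centralBinom : ℚ) * (j.choose k : ℚ) / 4 ^ j) := by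
      intro j hj
      have hj' := mem_range.1 hj
      rw [mul_sum]
      have : ∑ k ∈ range (j + 1), (j.centralBinom : ℚ) / 4 ^ j * ((j.choose k : ℚ) * g k) =
          ∑ k ∈ range p, (j.centralBinom : ℚ) / 4 ^ j * ((j.choose k : ℚ) * g k) := by
        apply sum_subset
        · intro x hx
          simp only [mem_range] at hx ⊢
          omega
        · intro x _ hx
          simp only [mem_range] at hx
          rw [Nat.choose_eq_zero_of_lt (by omega)]
          simp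
      rw [this]
      apply sum_congr rfl
      intro k _
      ring
    rw [sum_congr rfl e0, sum_comm]
    apply sum_congr rfl
    intro k _
    rw [mul_sum]
  rw [e1, mul_sum, mul_sum]
  apply sum_congr rfl
  intro k _
  have := wsum_p h0 k
  linear_combination g k * this

variable (hP : p = 2 * h + 1) (h5 : 5 ≤ p)

include hP

theorem four_M : (4 : ℚ) ^ h - 1 ∈ M p 1 := by
  have h0 : IsCoprime (2 : ℤ) (p : ℤ) := by
    have : Nat.Coprime 2 p := (Nat.coprime_primes Nat.prime_two hp.out).2 (by omega)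
    exact_mod_cast Nat.isCoprime_iff_coprime.2 this
  have h1 := Int.ModEq.pow_card_sub_one_eq_one hp.out h0
  obtain ⟨c, hc⟩ := (Int.modEq_iff_dvd.1 h1.symm)
  rw [hP, show 2 * h + 1 - 1 = 2 * h by omega, pow_mul, ← hP] at hc
  norm_num at hc
  refine ⟨c, intCast_mem _ c, ?_⟩
  rw [pow_one]
  exact_mod_cast hc

include h5

theorem ab_p : al (-3) p = eps p * 4 ^ h ∧ be (-3) p = 4 ^ h := by
  have h3 : p % 3 ≠ 0 := by
    intro h0
    have := (Nat.prime_dvd_prime_iff_eq Nat.prime_three hp.out).1 (Nat.dvd_of_mod_eq_zero h0)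
    omega
  have e4 : (4 : ℚ) ^ h = 2 ^ (2 * h) := by rw [pow_mul]; norm_num
  rcases (show p % 6 = 1 ∨ p % 6 = 5 by omega) with h6 | h6
  · have hl : p = 6 * (p / 6) + 1 := by omega
    have := (ab_three (p / 6)).1
    rw [← hl] at this
    have e : eps p = 1 := by unfold eps; rw [if_pos (by omega)]
    rw [e, e4, this.1, this.2, show 6 * (p / 6) = 2 * h by omega]
    simp
  · have hl : p = 6 * (p / 6) + 5 := by omega
    have := (ab_three (p / 6)).2
    rw [← hl] at this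
    have e : eps p = -1 := by unfold eps; rw [if_neg (by omega)]
    rw [e, e4, this.1, this.2, show 6 * (p / 6) + 4 = 2 * h by omega]
    simp

omit h5 in
/-- the sum of `p / (2 k + 1)` modulo `p` -/
theorem W_one (g : ℕ → ℚ) (hg : ∀ k, g k ∈ PI.O p) :
    ∑ k ∈ range p, (p : ℚ) / (2 * k + 1) * g k - g h ∈ M p 1 := by
  have : h ∈ range p := mem_range.2 (by omega)
  rw [← add_sum_erase _ _ this, q_self hP, one_mul, add_sub_cancel_left]
  refine AddSubgroup.sum_mem _ fun k hk => ?_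
  have hk' := mem_erase.1 hk
  rw [mul_comm]
  exact mul_O (hg k) (q_one hP (mem_range.1 hk'.2) hk'.1)

theorem three_M : (-3 : ℚ) ^ h - eps p ∈ M p 1 := by
  have hO : (-3 : ℚ) ∈ PI.O p := by exact_mod_cast intCast_mem (PI.O p) (-3)
  have h1 := M_mono (show 1 ≤ 2 by omega) (W_ab hP hO)
  have h2 := W_one hP (fun k => (-3 : ℚ) ^ k) (fun k => (PI.O p).pow_mem hO k)
  rw [(ab_p hP h5).1, (ab_p hP h5).2] at h1
  have h3 := four_M hP
  have e : (-3 : ℚ) ^ h - eps p = (∑ k ∈ range p, (p : ℚ) / (2 * k + 1) * (-3) ^ k -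
      (eps p * 4 ^ h - (-3) ^ h * (4 ^ h - 1))) - (∑ k ∈ range p, (p : ℚ) / (2 * k + 1) * (-3) ^ k -
        (-3) ^ h) + (eps p - (-3) ^ h) * (4 ^ h - 1) := by ring
  rw [e]
  exact (M p 1).add_mem ((M p 1).sub_mem h1 h2) (mul_O ((PI.O p).sub_mem eps_O
    ((PI.O p).pow_mem hO h)) h3)

omit h5 hp in
theorem four_pow : (4 : ℚ) ^ (p - 1) = 16 ^ h := by
  rw [hP, show 2 * h + 1 - 1 = 2 * h by omega, pow_mul]; norm_num

omit h5 in
theorem two_unit : Unit.U (PI.O p) (2 : ℚ) := by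
  have := U_lt (p := p) (m := 2) (by omega) (by
    have := hp.out.two_le
    omega)
  exact_mod_cast this

/-- the sum of the central binomial coefficients modulo `p ^ 2` -/
theorem rho_p : rho p - eps p ∈ M p 2 := by
  have h0 := hp.out.pos
  have hO : (-3 : ℚ) ∈ PI.O p := by exact_mod_cast intCast_mem (PI.O p) (-3)
  have hO3 : (3 : ℚ) ∈ PI.O p := by exact_mod_cast intCast_mem (PI.O p) 3
  have h1 := dsum h0 (fun k => (3 : ℚ) ^ k)
  have e1 : ∑ j ∈ range p, (j.centralBinom : ℚ) / 4 ^ j * ∑ k ∈ range (j + 1), (j.choose k : ℚ) * 3 ^ k =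
      rho p := by
    unfold rho
    apply sum_congr rfl
    intro j _
    have := add_pow (3 : ℚ) 1 j
    have e : ∑ k ∈ range (j + 1), (j.choose k : ℚ) * 3 ^ k = 4 ^ j := by
      rw [show (4 : ℚ) = 3 + 1 by norm_num, this]
      apply sum_congr rfl
      intro k _
      rw [one_pow]; ring
    rw [e]
    have : (4 : ℚ) ^ j ≠ 0 := by positivity
    field_simp
  rw [e1, four_pow hP] at h1
  set S : ℚ := ∑ k ∈ range p, (p : ℚ) / (2 * k + 1) * ((p - 1).choose k : ℚ) * 3 ^ k with hS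
  have SO : S ∈ PI.O p := (PI.O p).sum_mem fun k hk =>
    (PI.O p).mul_mem ((PI.O p).mul_mem (q_O hP (mem_range.1 hk)) (natCast_mem _ _))
      ((PI.O p).pow_mem hO3 k)
  have s1 : w p * S - S ∈ M p 2 := by
    have := mul_O SO (w_mem (p := p) (by omega))
    rwa [mul_sub, mul_one, mul_comm] at this
  -- compare with the sum of the powers of `-3`
  have s2 : S - (∑ k ∈ range p, (p : ℚ) / (2 * k + 1) * (-3) ^ k + ((-16) ^ h * 3 ^ h - (-3) ^ h)) ∈
      M p 2 := by
    have hm : h ∈ range p := mem_range.2 (by omega)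
    rw [hS, ← add_sum_erase _ _ hm, ← add_sum_erase _ (fun k : ℕ => (p : ℚ) / (2 * k + 1) * (-3) ^ k) hm,
      q_self hP, one_mul, one_mul]
    have e : ((p - 1).choose h : ℚ) * 3 ^ h + ∑ k ∈ (range p).erase h,
        (p : ℚ) / (2 * k + 1) * ((p - 1).choose k : ℚ) * 3 ^ k -
        ((-3) ^ h + ∑ k ∈ (range p).erase h, (p : ℚ) / (2 * k + 1) * (-3) ^ k +
          ((-16) ^ h * 3 ^ h - (-3) ^ h)) =
        3 ^ h * (((p - 1).choose h : ℚ) - (-16) ^ h) + ∑ k ∈ (range p).erase h,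
          3 ^ k * ((p : ℚ) / (2 * k + 1) * (((p - 1).choose k : ℚ) - (-1) ^ k)) := by
      have : ∑ k ∈ (range p).erase h, (3 : ℚ) ^ k * ((p : ℚ) / (2 * k + 1) *
          (((p - 1).choose k : ℚ) - (-1) ^ k)) = ∑ k ∈ (range p).erase h,
          (p : ℚ) / (2 * k + 1) * ((p - 1).choose k : ℚ) * 3 ^ k -
            ∑ k ∈ (range p).erase h, (p : ℚ) / (2 * k + 1) * (-3) ^ k := by
        rw [← sum_sub_distrib]
        apply sum_congr rfl
        intro k _
        rw [neg_pow (3 : ℚ)]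
        ring
      rw [this]
      ring
    rw [e]
    refine (M p 2).add_mem (mul_O ((PI.O p).pow_mem hO3 h) ?_) (AddSubgroup.sum_mem _ fun k hk => ?_)
    · have := cbA hP h le_rfl
      rw [← two_mul, Nat.choose_self, Nat.cast_one, mul_one, Nat.centralBinom] at this
      rwa [show p - 1 = 2 * h by omega]
    · have hk' := mem_erase.1 hk
      have hk2 := mem_range.1 hk'.2
      exact mul_O ((PI.O p).pow_mem hO3 k) (mul_I (q_one hP hk2 hk'.1) (ch_pm k hk2))
  have s3 := W_ab hP hO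
  rw [(ab_p hP h5).1, (ab_p hP h5).2] at s3
  have s4 : (4 : ℚ) ^ h * (((-3) ^ h - eps p) * (4 ^ h - 1)) ∈ M p 2 :=
    mul_O ((PI.O p).pow_mem (by exact_mod_cast natCast_mem (PI.O p) 4) h)
      (mul_I (three_M hP h5) (four_M hP))
  have u16 : Unit.U (PI.O p) ((16 : ℚ) ^ h) := by
    have := ((two_unit hP).pow 4).pow h
    norm_num at this
    exact this
  apply M_div u16
  have e16 : (16 : ℚ) ^ h = 4 ^ h * 4 ^ h := by rw [← mul_pow]; norm_num
  have e3 : (-16 : ℚ) ^ h * 3 ^ h = (-3) ^ h * (4 ^ h * 4 ^ h) := by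
    rw [← mul_pow, ← mul_pow, ← mul_pow]; norm_num
  rw [e3] at s2
  have e : (16 : ℚ) ^ h * (rho p - eps p) = (w p * S - S) +
      (S - (∑ k ∈ range p, (p : ℚ) / (2 * k + 1) * (-3) ^ k + ((-3) ^ h * (4 ^ h * 4 ^ h) - (-3) ^ h))) +
      (∑ k ∈ range p, (p : ℚ) / (2 * k + 1) * (-3) ^ k -
        (eps p * 4 ^ h - (-3) ^ h * (4 ^ h - 1))) + 4 ^ h * (((-3) ^ h - eps p) * (4 ^ h - 1)) := by
    rw [mul_sub, h1, e16]
    ring
  rw [e]
  exact (M p 2).add_mem ((M p 2).add_mem ((M p 2).add_mem s1 s2) s3) s4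

omit h5 in
theorem cb_M {k : ℕ} (h1 : h < k) (h2 : k < p) : (k.centralBinom : ℚ) ∈ M p 1 := by
  apply M_nat
  rw [Nat.centralBinom]
  exact Nat.Prime.dvd_choose hp.out h2 (by omega) (by omega)

theorem rho_M {k : ℕ} (h1 : h < k) (h2 : k ≤ p) : rho k - eps p ∈ M p 1 := by
  have e : rho p = rho k + ∑ j ∈ range (p - k), ((k + j).centralBinom : ℚ) := by
    unfold rho
    rw [show range p = range (k + (p - k)) by congr 1; omega, sum_range_add]
  have s : ∑ j ∈ range (p - k), ((k + j).centralBinom : ℚ) ∈ M p 1 :=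
    AddSubgroup.sum_mem _ fun j hj => cb_M hP (by omega) (by have := mem_range.1 hj; omega)
  have h3 := M_mono (show 1 ≤ 2 by omega) (rho_p hP h5)
  have e2 : rho k - eps p = (rho p - eps p) - ∑ j ∈ range (p - k), ((k + j).centralBinom : ℚ) := by
    rw [e]; ring
  rw [e2]
  exact (M p 1).sub_mem h3 s

theorem c_M2 {k : ℕ} (hk : k < h) : c (2 * h) (k + 1) ∈ M p 2 := by
  have h1 := c_mul (2 * h) k
  have u : Unit.U (PI.O p) ((k + 1 : ℕ) : ℚ) := U_lt (by omega) (by omega)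
  apply M_div u
  push_cast
  rw [h1, show 2 * h + 1 = p from hP.symm]
  have e : (2 * h : ℕ) + (1 : ℚ) = p := by rw [hP]; push_cast; ring
  push_cast at e ⊢
  rw [e]
  apply p_mul
  apply M_nat
  exact Nat.Prime.dvd_choose hp.out (by omega) (by omega) (by omega)

omit h5 in
theorem c_M1 {k : ℕ} (hk : k + 1 < p) : c (2 * h) (k + 1) ∈ M p 1 := by
  have h1 := c_mul (2 * h) k
  have u : Unit.U (PI.O p) ((k + 1 : ℕ) : ℚ) := U_lt (by omega) (by omega)
  apply M_div u
  push_cast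
  rw [h1]
  have e : (2 * h : ℕ) + (1 : ℚ) = p := by rw [hP]; push_cast; ring
  push_cast at e ⊢
  rw [e, mul_comm]
  exact mul_O (natCast_mem _ _) p_M

/-- the alternating sum -/
theorem Lam_M : Lam h - eps p ∈ M p 2 := by
  have h2 : (-2 : ℚ) ∈ PI.O p := by exact_mod_cast intCast_mem (PI.O p) (-2)
  have hh : (1 / 2 : ℚ) ∈ PI.O p := by rw [one_div]; exact (two_unit hP).2.1
  have e1 : Lam h = -(1 / 2) * (∑ k ∈ range (2 * h + 2), c (2 * h) k * (-2) ^ k * (rho k - eps p)) := by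
    rw [Lam_eq]
    congr 1
    have := c_alt h
    have e : ∑ k ∈ range (2 * h + 2), c (2 * h) k * (-2) ^ k * (rho k - eps p) =
        ∑ k ∈ range (2 * h + 2), c (2 * h) k * (-2) ^ k * rho k -
          eps p * ∑ k ∈ range (2 * h + 2), c (2 * h) k * (-2) ^ k := by
      rw [mul_sum, ← sum_sub_distrib]
      apply sum_congr rfl
      intro k _
      ring
    rw [e, this]
    ring
  rw [e1, sum_range_succ', c_zero]
  have e0 : rho 0 = 0 := by simp [rho]
  rw [e0, pow_zero]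
  have e2 : -(1 / 2) * (∑ k ∈ range (2 * h + 1), c (2 * h) (k + 1) * (-2) ^ (k + 1) *
      (rho (k + 1) - eps p) + 2 * 1 * (0 - eps p)) - eps p =
      -((1 / 2) * ∑ k ∈ range (2 * h + 1), c (2 * h) (k + 1) * (-2) ^ (k + 1) *
      (rho (k + 1) - eps p)) := by ring
  rw [e2]
  refine (M p 2).neg_mem (mul_O hh (AddSubgroup.sum_mem _ fun k hk => ?_))
  have hk' := mem_range.1 hk
  have hr : ∀ k, rho k ∈ PI.O p := fun k => (PI.O p).sum_mem fun j _ => natCast_mem _ _
  have he := eps_O (p := p)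
  rcases lt_or_ge k h with h1 | h1
  · rw [mul_assoc, mul_comm]
    exact mul_O ((PI.O p).mul_mem ((PI.O p).pow_mem h2 _) ((PI.O p).sub_mem (hr _) he)) (c_M2 hP h5 h1)
  · rcases lt_or_ge (k + 1) p with h3 | h3
    · rw [mul_comm (c (2 * h) (k + 1)), mul_assoc]
      exact mul_O ((PI.O p).pow_mem h2 _) (mul_I (c_M1 hP h3) (rho_M hP h5 (by omega) h3.le))
    · have hk1 : k = 2 * h := by omega
      have := rho_p hP h5
      have e : rho (2 * h + 1) = rho p := by rw [hP]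
      rw [hk1, c_top, one_mul, e]
      exact mul_O ((PI.O p).pow_mem h2 _) this

omit h5 in
theorem D_M : D (2 * h + 1) + D (2 * h) - 4 ∈ M p 1 := by
  have e1 : D (2 * h + 1) + D (2 * h) = ∑ k ∈ range (2 * h + 2), c (2 * h) k * (k.centralBinom : ℚ) := by
    rw [D_eq, D_eq, ← map_add, c_sum X (2 * h), map_sum]
    apply sum_congr rfl
    intro k _
    exact L_mul_X_pow _ _
  have h0 := hp.out.pos
  rw [e1, sum_range_succ', sum_range_succ, c_zero, c_top, ← hP, cb_p h0]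
  have hw := M_mono (show 1 ≤ 2 by omega) (w_mem (p := p) (by omega))
  have e : ∑ k ∈ range (2 * h), c (2 * h) (k + 1) * ((k + 1).centralBinom : ℚ) + 1 * (2 * w p) +
      2 * ((Nat.centralBinom 0 : ℕ) : ℚ) - 4 =
      ∑ k ∈ range (2 * h), c (2 * h) (k + 1) * ((k + 1).centralBinom : ℚ) + 2 * (w p - 1) := by
    simp
    ring
  rw [e]
  refine (M p 1).add_mem (AddSubgroup.sum_mem _ fun k hk => ?_)
    (mul_O (by exact_mod_cast natCast_mem (PI.O p) 2) hw)
  rw [mul_comm]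
  exact mul_O (natCast_mem _ _) (c_M1 hP (by have := mem_range.1 hk; omega))

end Q278.TE
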