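import Pool.Agent.Q278.TE

set_option autoImplicit false

/-! The five congruences. -/

namespace Q278.TF

open Finset Polynomial Q278.TA Q278.TB Q278.TC Q278.TD Q278.TE Q278.Loc

variable {p h : ℕ} [hp : Fact p.Prime]

theorem T_O {b c : ℚ} (hb : b ∈ PI.O p) (hc : c ∈ PI.O p) (n : ℕ) : T n b c ∈ PI.O p :=
  (PI.O p).sum_mem fun _ _ => (PI.O p).mul_mem ((PI.O p).mul_mem ((PI.O p).mul_mem
    (natCast_mem _ _) (natCast_mem _ _)) ((PI.O p).pow_mem hc _)) ((PI.O p).pow_mem hb _)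

/-- the sum over the binomial coefficients -/
noncomputable def Z (p : ℕ) (x : ℚ) : ℚ :=
  ∑ k ∈ range p, ((p + k).choose (2 * k + 1) : ℚ) * x ^ k * (k.centralBinom : ℚ)

variable (hP : p = 2 * h + 1) (h5 : 5 ≤ p)

include hP

omit hp in
theorem Z_L (x : ℚ) : Z p x = L (U (C x * X) (2 * h)) := by
  rw [(BU_sum _ _).2, map_sum]
  unfold Z
  rw [← hP]
  apply sum_congr rfl
  intro k _
  have e : (((p + k).choose (2 * k + 1) : ℕ) : ℚ[X]) * (C x * X) ^ k =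
      C (((p + k).choose (2 * k + 1) : ℚ) * x ^ k) * X ^ k := by
    simp only [map_mul, map_pow, map_natCast, mul_pow]
    ring
  rw [e, L_mul_X_pow]

theorem u16 : Unit.U (PI.O p) (16 : ℚ) := by
  have := (two_unit hP).pow 4
  norm_num at this
  exact this

/-- the reduction of the half-range sums -/
theorem half (b s κ x : ℚ) (hb : b ∈ PI.O p) (hs : s ∈ PI.O p) (hκ : κ ∈ PI.O p)
    (e : C κ * (C s * (X - 2) + C b) ^ 2 = (C x * X + 2) ^ 2) :
    ∑ j ∈ range (h + 1), T (2 * j) b (s ^ 2) * (j.centralBinom : ℚ) * (κ / 16) ^ j -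
      (-1) ^ h * Z p x ∈ M p 2 := by
  have e1 : (-1) ^ h * Z p x = ∑ j ∈ range (h + 1),
      (((h + j).choose (2 * j) : ℚ) * (-κ) ^ j) * T (2 * j) b (s ^ 2) := by
    rw [Z_L hP]
    have h1 := (dbl (C x * X) h).1
    have h2 := congrArg L h1
    rw [(BU_sum _ h).1, map_sum] at h2
    have e3 : (-1 : ℚ[X]) ^ h * U (C x * X) (2 * h) = C ((-1) ^ h) * U (C x * X) (2 * h) := by
      simp only [map_pow, map_neg, map_one]
    rw [e3, L_C_mul] at h2
    rw [← h2]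
    apply sum_congr rfl
    intro j _
    rw [T_L]
    have e4 : (((h + j).choose (2 * j) : ℕ) : ℚ[X]) * (-(C x * X + 2) ^ 2) ^ j =
        C (((h + j).choose (2 * j) : ℚ) * (-κ) ^ j) * (C s * (X - 2) + C b) ^ (2 * j) := by
      rw [← e, pow_mul, ← neg_mul, mul_pow]
      simp only [map_mul, map_pow, map_neg, map_natCast]
      ring
    rw [e4, L_C_mul]
  rw [e1, ← sum_sub_distrib]
  refine AddSubgroup.sum_mem _ fun j hj => ?_
  have hj' := mem_range.1 hj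
  have e2 : T (2 * j) b (s ^ 2) * (j.centralBinom : ℚ) * (κ / 16) ^ j -
      ((h + j).choose (2 * j) : ℚ) * (-κ) ^ j * T (2 * j) b (s ^ 2) =
      (T (2 * j) b (s ^ 2) * (κ / 16) ^ j) *
        ((j.centralBinom : ℚ) - (-16) ^ j * ((h + j).choose (2 * j) : ℚ)) := by
    have : (-κ) ^ j = (κ / 16) ^ j * (-16) ^ j := by rw [← mul_pow]; congr 1; ring
    rw [this]
    ring
  rw [e2]
  refine mul_O ((PI.O p).mul_mem (T_O hb ((PI.O p).pow_mem hs 2) _) ((PI.O p).pow_mem ?_ _))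
    (cbA hP j (by omega))
  rw [div_eq_mul_inv]
  exact (PI.O p).mul_mem hκ (u16 hP).2.1

theorem Z_val {x : ℚ} (hx : x ∈ PI.O p) :
    Z p x - (al (-x) p - (-x) ^ h * (be (-x) p - 1)) ∈ M p 2 := by
  have h1 := Z_W hP hx
  have h2 := W_ab hP ((PI.O p).neg_mem hx)
  have e : Z p x - (al (-x) p - (-x) ^ h * (be (-x) p - 1)) =
      (Z p x - ∑ k ∈ range p, (p : ℚ) / (2 * k + 1) * (-x) ^ k) +
      (∑ k ∈ range p, (p : ℚ) / (2 * k + 1) * (-x) ^ k -
        (al (-x) p - (-x) ^ h * (be (-x) p - 1))) := by ring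
  rw [e]
  exact (M p 2).add_mem h1 h2

theorem sgn_mul {x : ℚ} (hx : x ∈ M p 2) : (-1) ^ h * x ∈ M p 2 :=
  mul_O ((PI.O p).pow_mem (neg_mem (one_mem _)) h) hx

omit hp hP in
theorem sgn_sq (h : ℕ) : (-1 : ℚ) ^ h * (-1) ^ h = 1 := by rw [← mul_pow]; norm_num

theorem iO (m : ℤ) : (m : ℚ) ∈ PI.O p := intCast_mem _ m

/-- the second congruence -/
theorem cong1 : ∑ j ∈ range (h + 1), T (2 * j) 4 1 * (j.centralBinom : ℚ) / 16 ^ j - 1 ∈ M p 2 := by
  have i4 := iO hP 4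
  have i1 := iO hP 1
  push_cast at i4 i1
  have h1 := half hP 4 1 1 1 i4 i1 i1 (by
    rw [show (C 4 : ℚ[X]) = 4 from map_ofNat C 4, map_one]; ring)
  have h2 := Z_val hP i1
  have h3 := ab_one h
  rw [← hP] at h3
  rw [h3] at h2
  have e : ∑ j ∈ range (h + 1), T (2 * j) 4 1 * (j.centralBinom : ℚ) / 16 ^ j - 1 =
      (∑ j ∈ range (h + 1), T (2 * j) 4 (1 ^ 2) * (j.centralBinom : ℚ) * (1 / 16) ^ j -
      (-1) ^ h * Z p 1) + (-1) ^ h * (Z p 1 - ((-1) ^ h * be (-1) p - (-1) ^ h * (be (-1) p - 1))) := by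
    have e0 : ∑ j ∈ range (h + 1), T (2 * j) 4 1 * (j.centralBinom : ℚ) / 16 ^ j =
        ∑ j ∈ range (h + 1), T (2 * j) 4 (1 ^ 2) * (j.centralBinom : ℚ) * (1 / 16) ^ j := by
      apply sum_congr rfl
      intro j _
      rw [one_pow, div_pow, one_pow]
      ring
    rw [e0]
    linear_combination sgn_sq h
  rw [e]
  exact (M p 2).add_mem h1 (sgn_mul hP h2)

include h5

/-- the fifth congruence -/
theorem cong4 : ∑ j ∈ range (h + 1), T (2 * j) 8 9 * (j.centralBinom : ℚ) / 16 ^ j -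
    (-1) ^ h * eps p ∈ M p 2 := by
  have i8 := iO hP 8
  have i3 := iO hP 3
  have i1 := iO hP 1
  push_cast at i8 i3 i1
  have h1 := half hP 8 3 1 3 i8 i3 i1 (by
    rw [show (C 8 : ℚ[X]) = 8 from map_ofNat C 8, show (C 3 : ℚ[X]) = 3 from map_ofNat C 3,
      map_one]
    ring)
  have h2 := Z_val hP i3
  rw [(ab_p hP h5).1, (ab_p hP h5).2] at h2
  have h3 := mul_I (three_M hP h5) (four_M hP)
  have e : ∑ j ∈ range (h + 1), T (2 * j) 8 9 * (j.centralBinom : ℚ) / 16 ^ j - (-1) ^ h * eps p =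
      (∑ j ∈ range (h + 1), T (2 * j) 8 (3 ^ 2) * (j.centralBinom : ℚ) * (1 / 16) ^ j -
      (-1) ^ h * Z p 3) + (-1) ^ h * ((Z p 3 - (eps p * 4 ^ h - (-3) ^ h * (4 ^ h - 1))) -
        ((-3) ^ h - eps p) * (4 ^ h - 1)) := by
    have e0 : ∑ j ∈ range (h + 1), T (2 * j) 8 9 * (j.centralBinom : ℚ) / 16 ^ j =
        ∑ j ∈ range (h + 1), T (2 * j) 8 (3 ^ 2) * (j.centralBinom : ℚ) * (1 / 16) ^ j := by
      apply sum_congr rfl
      intro j _
      rw [div_pow, one_pow, show (3 : ℚ) ^ 2 = 9 by norm_num]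
      ring
    rw [e0]
    ring
  rw [e]
  exact (M p 2).add_mem h1 (sgn_mul hP ((M p 2).sub_mem h2 h3))

theorem fermat3 : (3 : ℚ) ^ p - 3 ∈ M p 1 := by
  have h0 : IsCoprime (3 : ℤ) (p : ℤ) := by
    have : Nat.Coprime 3 p := (Nat.coprime_primes Nat.prime_three hp.out).2 (by omega)
    exact_mod_cast Nat.isCoprime_iff_coprime.2 this
  have h1 := Int.ModEq.pow_card_sub_one_eq_one hp.out h0
  obtain ⟨c, hc⟩ := (Int.modEq_iff_dvd.1 h1.symm)
  have h2 : (3 : ℤ) ^ p = 3 ^ (p - 1) * 3 := by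
    rw [← pow_succ]; congr 1; omega
  refine ⟨3 * c, ?_, ?_⟩
  · exact_mod_cast intCast_mem (PI.O p) (3 * c)
  · rw [pow_one]
    have : (3 : ℤ) ^ p - 3 = p * (3 * c) := by rw [h2]; linear_combination 3 * hc
    exact_mod_cast this

/-- the fourth congruence -/
theorem cong3 : ∑ j ∈ range (h + 1), T (2 * j) 3 4 * (j.centralBinom : ℚ) / 4 ^ j -
    (7 - 3 ^ p) / 4 * (-1) ^ h ∈ M p 2 := by
  have i4 := iO hP 4
  have i3 := iO hP 3
  have i2 := iO hP 2
  have im4 := iO hP (-4)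
  push_cast at i4 i3 i2 im4
  have h1 := half hP 3 2 4 (-4) i3 i2 i4 (by
    rw [show (C 2 : ℚ[X]) = 2 from map_ofNat C 2, show (C 3 : ℚ[X]) = 3 from map_ofNat C 3,
      show (C (-4) : ℚ[X]) = -4 by rw [C_neg, map_ofNat], show (C 4 : ℚ[X]) = 4 from map_ofNat C 4]
    ring)
  have h2 := Z_val hP im4
  rw [neg_neg, (ab_four p).1, (ab_four p).2] at h2
  have hodd : (-1 : ℚ) ^ p = -1 := by rw [hP, pow_succ, pow_mul]; norm_num
  rw [hodd] at h2
  have hh : (1 / 2 : ℚ) ∈ PI.O p := by rw [one_div]; exact (two_unit hP).2.1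
  have h3 := mul_O hh (mul_I (fermat3 hP h5) (four_M hP))
  have e : ∑ j ∈ range (h + 1), T (2 * j) 3 4 * (j.centralBinom : ℚ) / 4 ^ j -
      (7 - 3 ^ p) / 4 * (-1) ^ h =
      (∑ j ∈ range (h + 1), T (2 * j) 3 (2 ^ 2) * (j.centralBinom : ℚ) * (4 / 16) ^ j -
      (-1) ^ h * Z p (-4)) + (-1) ^ h * ((Z p (-4) - ((3 ^ p - -1) / 4 -
        4 ^ h * ((3 ^ p + -1) / 2 - 1))) - (1 / 2) * ((3 ^ p - 3) * (4 ^ h - 1))) := by
    have e0 : ∑ j ∈ range (h + 1), T (2 * j) 3 4 * (j.centralBinom : ℚ) / 4 ^ j =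
        ∑ j ∈ range (h + 1), T (2 * j) 3 (2 ^ 2) * (j.centralBinom : ℚ) * (4 / 16) ^ j := by
      apply sum_congr rfl
      intro j _
      rw [show (4 / 16 : ℚ) = 1 / 4 by norm_num, div_pow, one_pow, show (2 : ℚ) ^ 2 = 4 by norm_num]
      ring
    rw [e0]
    ring
  rw [e]
  exact (M p 2).add_mem h1 (sgn_mul hP ((M p 2).sub_mem h2 h3))

omit h5 in
theorem G_O : G h ∈ PI.O p := by
  unfold G
  refine (PI.O p).sum_mem fun j hj => ?_
  have hj' := mem_range.1 hj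
  have e : L ((X + 2) ^ (2 * j)) = T (2 * j) 4 (1 ^ 2) := by
    rw [T_L, map_one, show (C 4 : ℚ[X]) = 4 from map_ofNat C 4]
    congr 2
    ring
  have i4 := iO hP 4
  have i1 := iO hP 1
  push_cast at i4 i1
  have u := U_lt (p := p) (m := j + 1) (by omega) (by have := hp.out.two_le; omega)
  push_cast at u
  rw [e, div_eq_mul_inv]
  exact (PI.O p).mul_mem ((PI.O p).mul_mem ((PI.O p).mul_mem
    ((PI.O p).pow_mem (neg_mem (one_mem _)) _) (natCast_mem _ _)) u.2.1)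
      (T_O i4 ((PI.O p).pow_mem i1 2) _)

theorem u3 : Unit.U (PI.O p) (3 : ℚ) := by
  have := U_lt (p := p) (m := 3) (by omega) (by omega)
  exact_mod_cast this

/-- the third congruence -/
theorem cong2 : ∑ j ∈ range (h + 1), T (2 * j) 4 1 * ((j.centralBinom : ℚ) / (j + 1)) / 16 ^ j -
    4 / 3 * ((-1) ^ h * eps p - p * (-1) ^ h) ∈ M p 2 := by
  have i4 := iO hP 4
  have i1 := iO hP 1
  push_cast at i4 i1
  have h1 : ∑ j ∈ range (h + 1), T (2 * j) 4 1 * ((j.centralBinom : ℚ) / (j + 1)) / 16 ^ j - G h ∈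
      M p 2 := by
    unfold G
    rw [← sum_sub_distrib]
    refine AddSubgroup.sum_mem _ fun j hj => ?_
    have hj' := mem_range.1 hj
    have e : L ((X + 2) ^ (2 * j)) = T (2 * j) 4 1 := by
      rw [show (1 : ℚ) = 1 ^ 2 by norm_num, T_L, map_one, show (C 4 : ℚ[X]) = 4 from map_ofNat C 4]
      congr 2
      ring
    have u := U_lt (p := p) (m := j + 1) (by omega) (by omega)
    push_cast at u
    have v := ((u16 hP).pow j)
    have e2 : T (2 * j) 4 1 * ((j.centralBinom : ℚ) / (j + 1)) / 16 ^ j -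
        (-1) ^ j * ((h + j).choose (2 * j) : ℚ) / (j + 1) * T (2 * j) 4 1 =
        (T (2 * j) 4 1 * ((j : ℚ) + 1)⁻¹ * (16 ^ j)⁻¹) *
          ((j.centralBinom : ℚ) - (-16) ^ j * ((h + j).choose (2 * j) : ℚ)) := by
      have n1 := u.2.2
      have n2 := v.2.2
      rw [neg_pow (16 : ℚ)]
      field_simp
    rw [e, e2]
    exact mul_O ((PI.O p).mul_mem ((PI.O p).mul_mem (T_O i4 i1 _) u.2.1) v.2.1)
      (cbA hP j (by omega))
  have h2 := G_main h
  have h3 := D_M hP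
  have h4 := Lam_M hP h5
  have hpq : (p : ℚ) = 2 * h + 1 := by rw [hP]; push_cast; ring
  have e3 : (3 : ℚ) * (G h - 4 / 3 * ((-1) ^ h * eps p - p * (-1) ^ h)) = (-1) ^ h *
      (-(p * (D (2 * h + 1) + D (2 * h) - 4)) + 4 * (Lam h - eps p) + 3 * (-1) ^ h * G h * (p : ℚ) ^ 2) := by
    rw [hpq]
    linear_combination (-(-1 : ℚ) ^ h) * h2 + (3 * G h * (4 * (h : ℚ) * (h + 1)) -
      3 * G h * (2 * (h : ℚ) + 1) ^ 2) * (sgn_sq h)
  have h5' : G h - 4 / 3 * ((-1) ^ h * eps p - p * (-1) ^ h) ∈ M p 2 := by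
    apply M_div (u3 hP h5)
    rw [e3]
    refine sgn_mul hP ((M p 2).add_mem ((M p 2).add_mem ((M p 2).neg_mem (p_mul h3)) (mul_O i4 h4))
      (mul_O ?_ p2_M))
    refine (PI.O p).mul_mem ((PI.O p).mul_mem ?_ ((PI.O p).pow_mem (neg_mem (one_mem _)) _)) (G_O hP)
    exact (u3 hP h5).1
  have e : ∑ j ∈ range (h + 1), T (2 * j) 4 1 * ((j.centralBinom : ℚ) / (j + 1)) / 16 ^ j -
      4 / 3 * ((-1) ^ h * eps p - p * (-1) ^ h) =
      (∑ j ∈ range (h + 1), T (2 * j) 4 1 * ((j.centralBinom : ℚ) / (j + 1)) / 16 ^ j - G h) +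
        (G h - 4 / 3 * ((-1) ^ h * eps p - p * (-1) ^ h)) := by ring
  rw [e]
  exact (M p 2).add_mem h1 h5'

end Q278.TF
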