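import Pool.Agent.Q278.TF

set_option autoImplicit false

/-! The full-range sum. -/

namespace Q278.TG

open Finset Polynomial Q278.TA Q278.TB Q278.TC Q278.TD Q278.TE Q278.TF Q278.Loc

variable {p h : ℕ} [hp : Fact p.Prime]

/-- the inner expansion -/
theorem T11 (j : ℕ) : T j 1 1 / 3 ^ j = ∑ k ∈ range (j + 1), (j.choose k : ℚ) *
    ((-1 / 3) ^ k * (k.centralBinom : ℚ)) := by
  have e1 : T j 1 1 = L ((C (-1) * X + C 3) ^ j) := by
    rw [show (1 : ℚ) = (-1) ^ 2 by norm_num, T_L]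
    congr 2
    simp only [map_neg, map_one, map_pow, map_ofNat]
    ring
  rw [e1, add_pow, map_sum, sum_div]
  apply sum_congr rfl
  intro k hk
  have hk' := mem_range.1 hk
  have e : (C (-1) * X) ^ k * C 3 ^ (j - k) * ((j.choose k : ℕ) : ℚ[X]) =
      C ((-1) ^ k * 3 ^ (j - k) * (j.choose k : ℚ)) * X ^ k := by
    simp only [map_mul, map_pow, map_natCast, mul_pow]
    ring
  rw [e, L_mul_X_pow]
  have e3 : (3 : ℚ) ^ j = 3 ^ k * 3 ^ (j - k) := by rw [← pow_add]; congr 1; omega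
  rw [e3, div_pow]
  have n1 : (3 : ℚ) ^ k ≠ 0 := by positivity
  have n2 : (3 : ℚ) ^ (j - k) ≠ 0 := by positivity
  field_simp

/-- the exact value of the truncated sum -/
theorem Q_val (h : ℕ) : ∑ k ∈ range (h + 1), (2 * (h : ℚ) + 1) / (2 * k + 1) *
    ((-16 / 3) ^ k * ((h + k).choose (2 * k) : ℚ)) = (3 * (-3) ^ h + ((-3) ^ h)⁻¹) / 4 := by
  have e : ∑ k ∈ range (h + 1), (2 * (h : ℚ) + 1) / (2 * k + 1) *
      ((-16 / 3) ^ k * ((h + k).choose (2 * k) : ℚ)) = 2 * U (-16 / 3 : ℚ) h - B (-16 / 3 : ℚ) h := by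
    rw [(BU_sum _ h).1, (BU_sum _ h).2, mul_sum, ← sum_sub_distrib]
    apply sum_congr rfl
    intro k _
    have h1 := ch_up (h + k) (2 * k)
    rw [show h + k + 1 = h + 1 + k by ring] at h1
    push_cast at h1
    have n1 : (2 * (k : ℚ) + 1) ≠ 0 := by positivity
    have e2 : (2 * (h : ℚ) + 1) / (2 * k + 1) * ((h + k).choose (2 * k) : ℚ) =
        2 * ((h + 1 + k).choose (2 * k + 1) : ℚ) - ((h + k).choose (2 * k) : ℚ) := by
      field_simp
      linear_combination 2 * h1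
    linear_combination (-16 / 3 : ℚ) ^ k * e2
  rw [e, (at_w h).1, (at_w h).2]
  ring

variable (hP : p = 2 * h + 1) (h5 : 5 ≤ p)

include hP h5

theorem cong0 : ∑ j ∈ range p, T j 1 1 * (j.centralBinom : ℚ) / 12 ^ j -
    (3 + 3 ^ (p - 1)) / 4 * eps p ∈ M p 2 := by
  have h0 := hp.out.pos
  have i1 := iO hP 1
  have third : (-1 / 3 : ℚ) ∈ PI.O p := by
    rw [div_eq_mul_inv]
    exact (PI.O p).mul_mem (neg_mem (one_mem _)) (u3 hP h5).2.1
  have h1 := dsum h0 (fun k => (-1 / 3) ^ k * (k.centralBinom : ℚ))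
  have e1 : ∑ j ∈ range p, (j.centralBinom : ℚ) / 4 ^ j * ∑ k ∈ range (j + 1), (j.choose k : ℚ) *
      ((-1 / 3) ^ k * (k.centralBinom : ℚ)) = ∑ j ∈ range p, T j 1 1 * (j.centralBinom : ℚ) / 12 ^ j := by
    apply sum_congr rfl
    intro j _
    rw [← T11]
    have e12 : (12 : ℚ) ^ j = 4 ^ j * 3 ^ j := by rw [← mul_pow]; norm_num
    rw [e12]
    have n1 : (3 : ℚ) ^ j ≠ 0 := by positivity
    have n2 : (4 : ℚ) ^ j ≠ 0 := by positivity
    field_simp
  rw [e1, four_pow hP] at h1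
  set S0 : ℚ := ∑ j ∈ range p, T j 1 1 * (j.centralBinom : ℚ) / 12 ^ j with hS0
  set S : ℚ := ∑ k ∈ range p, (p : ℚ) / (2 * k + 1) * ((p - 1).choose k : ℚ) *
    ((-1 / 3) ^ k * (k.centralBinom : ℚ)) with hS
  have SO : S ∈ PI.O p := (PI.O p).sum_mem fun k hk =>
    (PI.O p).mul_mem ((PI.O p).mul_mem (q_O hP (mem_range.1 hk)) (natCast_mem _ _))
      ((PI.O p).mul_mem ((PI.O p).pow_mem third k) (natCast_mem _ _))
  have s1 : w p * S - S ∈ M p 2 := by
    have := mul_O SO (w_mem (p := p) (by omega))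
    rwa [mul_sub, mul_one, mul_comm] at this
  -- comparison with the truncated sum
  set Q : ℚ := ∑ k ∈ range (h + 1), (p : ℚ) / (2 * k + 1) *
    ((-16 / 3) ^ k * ((h + k).choose (2 * k) : ℚ)) with hQ
  have sixteen : (16 : ℚ) ^ h - 1 ∈ M p 1 := by
    have := four_M hP
    have e : (16 : ℚ) ^ h - 1 = (4 ^ h + 1) * (4 ^ h - 1) := by
      have : (16 : ℚ) ^ h = 4 ^ h * 4 ^ h := by rw [← mul_pow]; norm_num
      rw [this]; ring
    rw [e]
    exact mul_O (by exact_mod_cast natCast_mem (PI.O p) (4 ^ h + 1)) this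
  have s2 : S - 16 ^ h * Q ∈ M p 2 := by
    have e2 : S = ∑ k ∈ range (h + 1), (p : ℚ) / (2 * k + 1) * ((p - 1).choose k : ℚ) *
        ((-1 / 3) ^ k * (k.centralBinom : ℚ)) + ∑ i ∈ range h,
          (p : ℚ) / (2 * ((h + 1 + i : ℕ) : ℚ) + 1) * ((p - 1).choose (h + 1 + i) : ℚ) *
        ((-1 / 3) ^ (h + 1 + i) * ((h + 1 + i).centralBinom : ℚ)) := by
      rw [hS, show range p = range ((h + 1) + h) by rw [hP]; congr 1; ring, sum_range_add]
    rw [e2, hQ, mul_sum, add_sub_right_comm, ← sum_sub_distrib]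
    refine (M p 2).add_mem (AddSubgroup.sum_mem _ fun k hk => ?_) (AddSubgroup.sum_mem _ fun i hi => ?_)
    · have hk' := mem_range.1 hk
      have c1 := cbA hP k (by omega)
      by_cases hkh : k = h
      · rw [hkh, q_self hP, ← two_mul, Nat.choose_self, Nat.cast_one]
        have c2 := cbA hP h le_rfl
        rw [← two_mul, Nat.choose_self, Nat.cast_one] at c2
        have e3 : ((p - 1).choose h : ℚ) = (h.centralBinom : ℚ) := by
          rw [Nat.centralBinom, show p - 1 = 2 * h by omega]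
        rw [e3]
        have e4 : 1 * (h.centralBinom : ℚ) * ((-1 / 3) ^ h * (h.centralBinom : ℚ)) -
            16 ^ h * (1 * ((-16 / 3) ^ h * 1)) = ((-1 / 3) ^ h * ((h.centralBinom : ℚ) + (-16) ^ h)) *
              ((h.centralBinom : ℚ) - (-16) ^ h * 1) := by
          have : (16 : ℚ) ^ h * (-16 / 3) ^ h = (-1 / 3) ^ h * ((-16) ^ h * (-16) ^ h) := by
            rw [← mul_pow, ← mul_pow, ← mul_pow]; norm_num
          linear_combination -this
        rw [e4]
        refine mul_O ((PI.O p).mul_mem ((PI.O p).pow_mem third h) ((PI.O p).add_mem (natCast_mem _ _) ?_)) c2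
        exact_mod_cast intCast_mem (PI.O p) ((-16) ^ h)
      · have q1 := q_one hP (show k < p by omega) hkh
        have c3 := ch_pm (p := p) k (by omega)
        have c4 := M_mono (show 1 ≤ 2 by omega) c1
        have e4 : (p : ℚ) / (2 * k + 1) * ((p - 1).choose k : ℚ) * ((-1 / 3) ^ k * (k.centralBinom : ℚ)) -
            16 ^ h * ((p : ℚ) / (2 * k + 1) * ((-16 / 3) ^ k * ((h + k).choose (2 * k) : ℚ))) =
            (p : ℚ) / (2 * k + 1) * (((-1 / 3) ^ k * (k.centralBinom : ℚ)) *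
              (((p - 1).choose k : ℚ) - (-1) ^ k) + (-1 / 3) ^ k * (-1) ^ k *
                ((k.centralBinom : ℚ) - (-16) ^ k * ((h + k).choose (2 * k) : ℚ)) -
              ((-16 / 3) ^ k * ((h + k).choose (2 * k) : ℚ)) * (16 ^ h - 1)) := by
          have : (-1 / 3 : ℚ) ^ k * (-1) ^ k * (-16) ^ k = (-16 / 3) ^ k := by
            rw [← mul_pow, ← mul_pow]; norm_num
          rw [← this]
          ring
        rw [e4]
        have sixteenth : (-16 / 3 : ℚ) ∈ PI.O p := by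
          have := (PI.O p).mul_mem third (iO hP 16)
          push_cast at this
          rwa [show (-1 / 3 : ℚ) * 16 = -16 / 3 by norm_num] at this
        refine mul_I q1 ((M p 1).sub_mem ((M p 1).add_mem (mul_O ?_ c3) (mul_O ?_ c4)) (mul_O ?_ sixteen))
        · exact (PI.O p).mul_mem ((PI.O p).pow_mem third k) (natCast_mem _ _)
        · exact (PI.O p).mul_mem ((PI.O p).pow_mem third k) ((PI.O p).pow_mem (neg_mem (one_mem _)) k)
        · exact (PI.O p).mul_mem ((PI.O p).pow_mem sixteenth k) (natCast_mem _ _)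
    · have hi' := mem_range.1 hi
      have q1 := q_one hP (show h + 1 + i < p by omega) (show h + 1 + i ≠ h by omega)
      have c1 := cb_M hP (show h < h + 1 + i by omega) (show h + 1 + i < p by omega)
      have := mul_I q1 (mul_O ((PI.O p).mul_mem (natCast_mem (PI.O p) ((p - 1).choose (h + 1 + i)))
        ((PI.O p).pow_mem third (h + 1 + i))) c1)
      convert this using 1
      ring
  have s3 : Q = (3 * (-3) ^ h + ((-3) ^ h)⁻¹) / 4 := by
    rw [← Q_val h, hQ]
    have hpq : (p : ℚ) = 2 * h + 1 := by rw [hP]; push_cast; ring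
    rw [hpq]
  have n3 : ((-3 : ℚ) ^ h) ≠ 0 := pow_ne_zero _ (by norm_num)
  have y3 := three_M hP h5
  have s4 : Q - (3 + 3 ^ (p - 1)) / 4 * eps p ∈ M p 2 := by
    have e9 : (3 : ℚ) ^ (p - 1) = (-3) ^ h * (-3) ^ h := by
      rw [hP, show 2 * h + 1 - 1 = 2 * h by omega, pow_mul, ← mul_pow]; norm_num
    have e : Q - (3 + 3 ^ (p - 1)) / 4 * eps p =
        (-(eps p * (4 : ℚ)⁻¹ * ((-3) ^ h)⁻¹ * ((-3) ^ h - eps p))) *
          (((-3) ^ h - eps p) * ((-3) ^ h - eps p)) := by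
      rw [s3, e9]
      have es := eps_sq (p := p)
      field_simp
      linear_combination (-(3 * ((-3 : ℚ) ^ h) ^ 2 - 3 * eps p * (-3) ^ h + eps p * eps p + 1)) * es
    rw [e]
    refine mul_O ?_ (mul_I y3 y3)
    have u4 : Unit.U (PI.O p) (4 : ℚ) := by
      have := (two_unit hP).pow 2
      norm_num at this
      exact this
    have um3 : ((-3 : ℚ) ^ h)⁻¹ ∈ PI.O p := by
      have e : ((-3 : ℚ) ^ h)⁻¹ = (-1 / 3) ^ h := by rw [← inv_pow]; norm_num
      rw [e]
      exact (PI.O p).pow_mem third h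
    exact neg_mem (mul_mem (mul_mem (mul_mem eps_O u4.2.1) um3) (M_O y3))
  have u := (u16 hP).pow h
  apply M_div u
  have e : (16 : ℚ) ^ h * (S0 - (3 + 3 ^ (p - 1)) / 4 * eps p) = (w p * S - S) + (S - 16 ^ h * Q) +
      16 ^ h * (Q - (3 + 3 ^ (p - 1)) / 4 * eps p) := by
    rw [mul_sub, h1]; ring
  rw [e]
  exact (M p 2).add_mem ((M p 2).add_mem s1 s2) (mul_O u.1 s4)

end Q278.TG
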