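import Pool.Agent.Q278.TG

set_option autoImplicit false

/-! Coefficients of powers of quadratic polynomials, and the symbols. -/

namespace Q278.TH

open Finset Polynomial

theorem sq_coeff (c : ℚ) (i : ℕ) : (((X ^ 2 + C c : ℚ[X]) ^ (2 * i)).coeff (2 * i) =
    ((2 * i).choose i : ℚ) * c ^ i) ∧ ((X ^ 2 + C c : ℚ[X]) ^ (2 * i + 1)).coeff (2 * i + 1) = 0 := by
  have key : ∀ m n : ℕ, ((X ^ 2 + C c : ℚ[X]) ^ m).coeff n =
      ∑ l ∈ range (m + 1), if n = 2 * l then c ^ (m - l) * (m.choose l : ℚ) else 0 := by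
    intro m n
    rw [add_pow, finsetSum_coeff]
    apply sum_congr rfl
    intro l _
    have e : (X ^ 2 : ℚ[X]) ^ l * C c ^ (m - l) * ((m.choose l : ℕ) : ℚ[X]) =
        C (c ^ (m - l) * (m.choose l : ℚ)) * X ^ (2 * l) := by
      simp only [map_mul, map_pow, map_natCast, ← pow_mul]
      ring
    rw [e, coeff_C_mul_X_pow]
  constructor
  · rw [key, sum_eq_single_of_mem i (mem_range.2 (by omega))]
    · rw [if_pos rfl, show 2 * i - i = i by omega]; ring
    · intro l _ hl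
      rw [if_neg (by omega)]
  · rw [key]
    apply sum_eq_zero
    intro l _
    rw [if_neg (by omega)]

theorem T_coeff (n : ℕ) (b c : ℚ) : ((X ^ 2 + C b * X + C c : ℚ[X]) ^ n).coeff n = TA.T n b c := by
  have e0 : (X ^ 2 + C b * X + C c : ℚ[X]) = (X ^ 2 + C c) + C b * X := by ring
  rw [e0, add_pow, finsetSum_coeff]
  have e1 : ∀ m ∈ range (n + 1), ((X ^ 2 + C c : ℚ[X]) ^ m * (C b * X) ^ (n - m) *
      ((n.choose m : ℕ) : ℚ[X])).coeff n =
        (fun m => b ^ (n - m) * (n.choose m : ℚ) * ((X ^ 2 + C c : ℚ[X]) ^ m).coeff m) m := by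
    intro m hm
    have hm' := mem_range.1 hm
    have e : (X ^ 2 + C c : ℚ[X]) ^ m * (C b * X) ^ (n - m) * ((n.choose m : ℕ) : ℚ[X]) =
        C (b ^ (n - m) * (n.choose m : ℚ)) * ((X ^ 2 + C c : ℚ[X]) ^ m * X ^ (n - m)) := by
      simp only [map_mul, map_pow, map_natCast, mul_pow]
      ring
    rw [e, coeff_C_mul, coeff_mul_X_pow', if_pos (by omega), show n - (n - m) = m by omega]
  rw [sum_congr rfl e1, TA.sum_even]
  · unfold TA.T
    apply sum_congr rfl
    intro i _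
    rw [(sq_coeff c i).1]
    ring
  · intro i
    rw [(sq_coeff c i).2, mul_zero]

theorem T_int (n : ℕ) (b c : ℤ) : ((((X ^ 2 + C b * X + C c : ℤ[X]) ^ n).coeff n : ℤ) : ℚ) =
    TA.T n b c := by
  rw [← T_coeff]
  have := Polynomial.coeff_map (p := (X ^ 2 + C b * X + C c : ℤ[X]) ^ n) (Int.castRingHom ℚ) n
  rw [Polynomial.map_pow, Polynomial.map_add, Polynomial.map_add, Polynomial.map_mul,
    Polynomial.map_pow, Polynomial.map_X, Polynomial.map_C, Polynomial.map_C] at this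
  exact this.symm

theorem sym3 (p : ℕ) (h3 : p % 3 ≠ 0) : ((jacobiSym (p : ℤ) 3 : ℤ) : ℚ) = TE.eps p := by
  unfold TE.eps
  rw [jacobiSym.mod_left]
  rcases (show p % 3 = 1 ∨ p % 3 = 2 by omega) with h | h
  · rw [if_pos h, show ((p : ℤ) % (3 : ℕ)) = 1 by omega]
    simp
  · rw [if_neg (by omega), show ((p : ℤ) % (3 : ℕ)) = 2 by omega]
    norm_num

theorem sym_three {p h : ℕ} (hP : p = 2 * h + 1) (h3 : p % 3 ≠ 0) :
    ((jacobiSym 3 p : ℤ) : ℚ) = (-1) ^ h * TE.eps p := by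
  have := jacobiSym.quadratic_reciprocity (a := 3) (b := p) (by decide) ⟨h, hP⟩
  rw [← sym3 p h3]
  push_cast at this
  rw [this, show 3 / 2 * (p / 2) = h by omega]
  push_cast
  rfl

theorem sym_neg {p h : ℕ} (hP : p = 2 * h + 1) : ((jacobiSym (-1) p : ℤ) : ℚ) = (-1) ^ h := by
  rw [jacobiSym.at_neg_one ⟨h, hP⟩, ZMod.χ₄_eq_neg_one_pow (by omega), show p / 2 = h by omega]
  push_cast
  rfl

end Q278.TH
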