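import Mathlib

set_option autoImplicit false

/-! Signs along the powers of `-2 + √-3`. -/

namespace Q278.UA

open Real

/-- powers of `-2 + √-3` -/
def UV : ℕ → ℤ × ℤ
  | 0 => (1, 0)
  | n + 1 => (-2 * (UV n).1 - 3 * (UV n).2, (UV n).1 - 2 * (UV n).2)

/-- the angle -/
noncomputable def th : ℝ := arccos (-2 / √7)

theorem s7 : (√7 : ℝ) * √7 = 7 := mul_self_sqrt (by norm_num)
theorem s7pos : (0 : ℝ) < √7 := sqrt_pos.2 (by norm_num)
theorem s3 : (√3 : ℝ) * √3 = 3 := mul_self_sqrt (by norm_num)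
theorem s3pos : (0 : ℝ) < √3 := sqrt_pos.2 (by norm_num)

theorem cos_th : cos th = -2 / √7 := by
  have h2 : (2 : ℝ) ≤ √7 := by
    rw [show (2 : ℝ) = √4 by rw [show (4 : ℝ) = 2 ^ 2 by norm_num, sqrt_sq (by norm_num)]]
    exact sqrt_le_sqrt (by norm_num)
  have := s7pos
  apply cos_arccos
  · rw [le_div_iff₀ this]; linarith
  · rw [div_le_iff₀ this]; linarith

theorem sin_th : sin th = √3 / √7 := by
  unfold th
  rw [sin_arccos]
  have h : (1 : ℝ) - (-2 / √7) ^ 2 = 3 / 7 := by
    rw [div_pow, pow_two (√7), s7]; norm_num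
  rw [h, sqrt_div' _ (by norm_num)]

theorem UV_trig (n : ℕ) : ((UV n).1 : ℝ) = √7 ^ n * cos (n * th) ∧
    √3 * ((UV n).2 : ℝ) = √7 ^ n * sin (n * th) := by
  induction n with
  | zero => simp [UV]
  | succ n ih =>
    obtain ⟨h1, h2⟩ := ih
    have e : ((n + 1 : ℕ) : ℝ) * th = n * th + th := by push_cast; ring
    have h7 := s7pos.ne'
    have c1 : √7 * cos th = -2 := by rw [cos_th]; field_simp
    have c2 : √7 * sin th = √3 := by rw [sin_th]; field_simp
    have h3 := s3
    rw [e, cos_add, sin_add]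
    constructor
    · have : (((UV (n + 1)).1 : ℤ) : ℝ) = -2 * (UV n).1 - 3 * (UV n).2 := by
        simp only [UV]; push_cast; ring
      rw [this]
      have : √7 ^ (n + 1) * (cos (n * th) * cos th - sin (n * th) * sin th) =
          (√7 ^ n * cos (n * th)) * (√7 * cos th) - (√7 ^ n * sin (n * th)) * (√7 * sin th) := by
        ring
      rw [this, ← h1, ← h2, c1, c2]
      linear_combination ((UV n).2 : ℝ) * h3
    · have : (((UV (n + 1)).2 : ℤ) : ℝ) = (UV n).1 - 2 * (UV n).2 := by
        simp only [UV]; push_cast; ring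
      rw [this]
      have : √7 ^ (n + 1) * (sin (n * th) * cos th + cos (n * th) * sin th) =
          (√7 ^ n * sin (n * th)) * (√7 * cos th) + (√7 ^ n * cos (n * th)) * (√7 * sin th) := by
        ring
      rw [this, ← h1, ← h2, c1, c2]
      ring

/-- the sign -/
noncomputable def sg (x : ℝ) : ℤ := if 0 < x then 1 else if x < 0 then -1 else 0

theorem sg_pos {x : ℝ} (h : 0 < x) : sg x = 1 := if_pos h
theorem sg_neg {x : ℝ} (h : x < 0) : sg x = -1 := by
  unfold sg; rw [if_neg (by linarith), if_pos h]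
theorem sg_neg' (x : ℝ) : sg (-x) = -sg x := by
  rcases lt_trichotomy x 0 with h | h | h
  · rw [sg_neg h, sg_pos (by linarith)]; rfl
  · subst h; simp [sg]
  · rw [sg_pos h, sg_neg (by linarith)]

theorem sg_mul {a : ℝ} (ha : 0 < a) (x : ℝ) : sg (a * x) = sg x := by
  rcases lt_trichotomy x 0 with h | h | h
  · rw [sg_neg h, sg_neg (mul_neg_of_pos_of_neg ha h)]
  · subst h; simp
  · rw [sg_pos h, sg_pos (mul_pos ha h)]

theorem sg_int (z : ℤ) : sg (z : ℝ) = Int.sign z := by
  rcases lt_trichotomy z 0 with h | h | h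
  · rw [sg_neg (by exact_mod_cast h), Int.sign_eq_neg_one_of_neg h]
  · subst h; simp [sg]
  · rw [sg_pos (by exact_mod_cast h), Int.sign_eq_one_of_pos h]

/-- locally constant away from zero -/
theorem sg_ev {f : ℝ → ℝ} (hf : Continuous f) {t : ℝ} (h : f t ≠ 0) :
    ∀ᶠ s in nhds t, sg (f s) = sg (f t) := by
  rcases lt_or_gt_of_ne h with h1 | h1
  · filter_upwards [hf.continuousAt.eventually_lt continuousAt_const h1] with s hs
    rw [sg_neg hs, sg_neg h1]
  · filter_upwards [continuousAt_const.eventually_lt hf.continuousAt h1] with s hs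
    rw [sg_pos hs, sg_pos h1]

/-- the weight of an element -/
def E (u v : ℤ) : ℤ := Int.sign (u - 3 * v) - Int.sign (u + v)

/-- half of the weight as a function of the angle -/
noncomputable def e (t : ℝ) : ℤ := sg (cos (t + π / 3)) - sg (sin (t + π / 3))

noncomputable def G (t : ℝ) : ℤ := e t + e (-t)

theorem G_neg (t : ℝ) : G (-t) = G t := by unfold G; rw [neg_neg, add_comm]

theorem e_add_pi (t : ℝ) : e (t + π) = -e t := by
  unfold e
  have h : t + π + π / 3 = t + π / 3 + π := by ring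
  rw [h, cos_add_pi, sin_add_pi, sg_neg', sg_neg']; ring

theorem e_sub_pi (t : ℝ) : e (t - π) = -e t := by
  have := e_add_pi (t - π)
  rw [sub_add_cancel] at this
  omega

theorem G_add_pi (t : ℝ) : G (t + π) = -G t := by
  unfold G
  rw [e_add_pi, neg_add, ← sub_eq_add_neg, e_sub_pi]; ring

theorem G_add_int_pi (t : ℝ) (m : ℤ) : G (t + m * π) = (-1) ^ m.natAbs * G t := by
  have hp : ∀ (t : ℝ) (n : ℕ), G (t + n * π) = (-1) ^ n * G t := by
    intro t n
    induction n with
    | zero => simp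
    | succ n ih =>
      have : t + ((n + 1 : ℕ) : ℝ) * π = (t + n * π) + π := by push_cast; ring
      rw [this, G_add_pi, ih, pow_succ]; ring
  rcases Int.natAbs_eq m with h | h
  · have : ((m : ℤ) : ℝ) = (m.natAbs : ℝ) := by
      conv_lhs => rw [h]
      simp
    rw [this, hp]
  · have h1 := hp (t + m * π) m.natAbs
    have : t + m * π + (m.natAbs : ℝ) * π = t := by
      have : ((m : ℤ) : ℝ) = -(m.natAbs : ℝ) := by
        have h5 : (m : ℤ) = -((m.natAbs : ℕ) : ℤ) := h
        have := congrArg (fun z : ℤ => (z : ℝ)) h5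
        simpa only [Int.cast_neg, Int.cast_natCast] using this
      rw [this]; ring
    rw [this] at h1
    rw [h1, ← mul_assoc, ← pow_add, Even.neg_one_pow ⟨_, rfl⟩, one_mul]

theorem E_trig (j : ℕ) (σ : ℤ) (hσ : σ = 1 ∨ σ = -1) :
    E (UV j).1 (σ * (UV j).2) = e (σ * (j * th)) := by
  obtain ⟨h1, h2⟩ := UV_trig j
  have h7 : (0 : ℝ) < √7 ^ j := pow_pos s7pos _
  have h3 := s3
  have hs : ((σ : ℤ) : ℝ) * (σ : ℝ) = 1 := by rcases hσ with rfl | rfl <;> norm_num
  have hc : cos (σ * (j * th)) = cos (j * th) := by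
    rcases hσ with rfl | rfl
    · simp
    · simp
  have hsn : sin (σ * (j * th)) = σ * sin (j * th) := by
    rcases hσ with rfl | rfl
    · simp
    · simp
  unfold E e
  rw [← sg_int, ← sg_int]
  have e1 : (((UV j).1 - 3 * (σ * (UV j).2) : ℤ) : ℝ) =
      (2 * √7 ^ j) * cos (σ * (j * th) + π / 3) := by
    rw [cos_add, cos_pi_div_three, sin_pi_div_three, hc, hsn]
    push_cast
    rw [h1]
    have : (2 * √7 ^ j) * (cos (j * th) * (1 / 2) - σ * sin (j * th) * (√3 / 2)) =
        √7 ^ j * cos (j * th) - σ * √3 * (√7 ^ j * sin (j * th)) := by ring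
    rw [this, ← h2]
    linear_combination (σ : ℝ) * (UV j).2 * h3
  have e2 : (((UV j).1 + (σ * (UV j).2) : ℤ) : ℝ) =
      (2 * √7 ^ j / √3) * sin (σ * (j * th) + π / 3) := by
    rw [sin_add, cos_pi_div_three, sin_pi_div_three, hc, hsn]
    push_cast
    have hne := s3pos.ne'
    have : (2 * √7 ^ j / √3) * (σ * sin (j * th) * (1 / 2) + cos (j * th) * (√3 / 2)) =
        √7 ^ j * cos (j * th) + σ / √3 * (√7 ^ j * sin (j * th)) := by field_simp; ring
    rw [this, ← h2, ← h1]
    field_simp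
  rw [e1, e2, sg_mul (by positivity), sg_mul (by have := s3pos; positivity)]

/-- pairs of conjugate elements -/
theorem E_pair (j : ℕ) : E (UV j).1 (UV j).2 + E (UV j).1 (-(UV j).2) = G (j * th) := by
  have h1 := E_trig j 1 (Or.inl rfl)
  have h2 := E_trig j (-1) (Or.inr rfl)
  simp only [one_mul, Int.cast_one, neg_mul, Int.cast_neg] at h1 h2
  rw [h1, h2]; rfl

/-- the second coordinate is not divisible by seven -/
theorem V_mod (n : ℕ) (hn : 0 < n) : ¬ (7 : ℤ) ∣ (UV n).2 := by
  have key : ∀ n : ℕ, 0 < n → ((UV n).1 + 2 * (UV n).2) % 7 = 0 ∧ (UV n).1 % 7 ≠ 0 := by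
    intro n hn
    induction n with
    | zero => omega
    | succ n ih =>
      rcases Nat.eq_zero_or_pos n with h | h
      · subst h; simp [UV]
      · obtain ⟨h1, h2⟩ := ih h
        simp only [UV]
        omega
  obtain ⟨h1, h2⟩ := key n hn
  omega

theorem sin_ne (n : ℕ) (hn : 0 < n) : sin (n * th) ≠ 0 := by
  intro h
  have h2 := (UV_trig n).2
  rw [h, mul_zero] at h2
  have h3 : ((UV n).2 : ℝ) = 0 := by
    rcases mul_eq_zero.1 h2 with h4 | h4
    · exact absurd h4 s3pos.ne'
    · exact h4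
  have h4 : (UV n).2 = 0 := by exact_mod_cast h3
  exact V_mod n hn (by rw [h4]; exact dvd_zero _)

/-- the angle is irrational -/
theorem irr (n : ℤ) (hn : n ≠ 0) (m : ℤ) : (n : ℝ) * th ≠ m * π := by
  intro h
  have hs : sin ((n : ℝ) * th) = 0 := by rw [h]; exact sin_int_mul_pi m
  rcases Int.natAbs_eq n with h1 | h1
  · apply sin_ne n.natAbs (by omega)
    have : (((n.natAbs : ℕ)) : ℝ) = (n : ℝ) := by
      conv_rhs => rw [h1]
      simp
    rw [this, hs]
  · apply sin_ne n.natAbs (by omega)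
    have : (((n.natAbs : ℕ)) : ℝ) = -(n : ℝ) := by
      have h5 : ((n.natAbs : ℕ) : ℤ) = -n := by omega
      have := congrArg (fun z : ℤ => (z : ℝ)) h5
      simpa only [Int.cast_neg, Int.cast_natCast] using this
    rw [this, neg_mul, sin_neg, hs, neg_zero]

end Q278.UA
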