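import Pool.Agent.Q278.UA

set_option autoImplicit false

/-! The partial sums of `G` over odd multiples of the angle are unbounded. -/

namespace Q278.UB

open Real Q278.UA

/-- one-sided density of the multiples of an irrational number modulo one -/
theorem dens (γ : ℝ) (hγ : ∀ n : ℤ, n ≠ 0 → ∀ m : ℤ, (n : ℝ) * γ ≠ m) (x ε : ℝ) (hε : 0 < ε)
    (N : ℕ) : ∃ n : ℕ, N ≤ n ∧ ∃ m : ℤ, |(n : ℝ) * γ - m - x| < ε := by
  obtain ⟨q, hq⟩ := exists_nat_gt (1 / ε)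
  have hqp : 0 < q := by
    have : (0 : ℝ) < q := lt_trans (by positivity) hq
    exact_mod_cast this
  obtain ⟨j, k, hk0, hkq, hjk⟩ := Real.exists_int_int_abs_mul_sub_le γ hqp
  set η : ℝ := (k : ℝ) * γ - j with hη
  have hη0 : η ≠ 0 := by
    intro h
    exact hγ k (by omega) j (by linarith)
  have hηε : |η| < ε := by
    have h1 : |η| ≤ 1 / ((q : ℝ) + 1) := by
      rw [hη]; exact hjk
    have h2 : (1 : ℝ) / ((q : ℝ) + 1) < ε := by
      rw [div_lt_iff₀ (by positivity)]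
      rw [div_lt_iff₀ hε] at hq
      nlinarith
    linarith
  obtain ⟨K, hK⟩ : ∃ K : ℕ, (K : ℤ) = k := ⟨k.toNat, by omega⟩
  have hKr : (K : ℝ) = k := by
    have := congrArg (fun z : ℤ => (z : ℝ)) hK
    simpa using this
  have hηp : 0 < |η| := abs_pos.2 hη0
  -- the offset
  set y : ℝ := (N : ℝ) * γ - x with hy
  rcases lt_or_gt_of_ne hη0 with h | h
  · -- negative step
    obtain ⟨L, hL⟩ := exists_nat_gt (-y)
    set w : ℝ := (y + L) / (-η) with hw
    have hw0 : 0 ≤ w := div_nonneg (by linarith) (by linarith)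
    refine ⟨N + ⌊w⌋₊ * K, by omega, (⌊w⌋₊ : ℤ) * j - L, ?_⟩
    have f1 := Nat.floor_le hw0
    have f2 := Nat.lt_floor_add_one w
    have e1 : w * (-η) = y + L := by rw [hw]; field_simp
    push_cast
    rw [hKr]
    have e2 : ((N : ℝ) + ⌊w⌋₊ * k) * γ - (⌊w⌋₊ * j - L) - x = y + L + ⌊w⌋₊ * η := by
      rw [hη, hy]; ring
    rw [e2, ← e1]
    rw [abs_of_neg h] at hηε
    rw [abs_of_nonneg (by nlinarith)]
    nlinarith
  · obtain ⟨L, hL⟩ := exists_nat_gt y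
    set w : ℝ := (L - y) / η with hw
    have hw0 : 0 ≤ w := div_nonneg (by linarith) (by linarith)
    refine ⟨N + ⌊w⌋₊ * K, by omega, (⌊w⌋₊ : ℤ) * j + L, ?_⟩
    have f1 := Nat.floor_le hw0
    have f2 := Nat.lt_floor_add_one w
    have e1 : w * η = L - y := by rw [hw]; field_simp
    push_cast
    rw [hKr]
    have e2 : ((N : ℝ) + ⌊w⌋₊ * k) * γ - (⌊w⌋₊ * j + L) - x = -(L - y) + ⌊w⌋₊ * η := by
      rw [hη, hy]; ring
    rw [e2, ← e1]
    rw [abs_of_pos h] at hηε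
    rw [abs_of_nonpos (by nlinarith)]
    nlinarith

/-- even multiples of the angle modulo `π` -/
theorem densE (x ε : ℝ) (hε : 0 < ε) (N : ℕ) :
    ∃ n : ℕ, N ≤ n ∧ ∃ m : ℤ, |((2 * n : ℕ) : ℝ) * th - m * π - x| < ε := by
  have hπ := Real.pi_pos
  obtain ⟨n, hn, m, h⟩ := dens (2 * th / π) (by
    intro n hn m h
    apply irr (2 * n) (by omega) m
    rw [← h]; push_cast; field_simp) (x / π) (ε / π) (by positivity) N
  refine ⟨n, hn, m, ?_⟩
  have e : ((2 * n : ℕ) : ℝ) * th - m * π - x = π * ((n : ℝ) * (2 * th / π) - m - x / π) := by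
    push_cast; field_simp
  rw [e, abs_mul, abs_of_pos hπ]
  rw [lt_div_iff₀ hπ] at h
  linarith

/-- odd multiples of the angle modulo `π` -/
theorem densO (x ε : ℝ) (hε : 0 < ε) (N : ℕ) :
    ∃ n : ℕ, N ≤ n ∧ ∃ m : ℤ, |((2 * n + 1 : ℕ) : ℝ) * th - m * π - x| < ε := by
  obtain ⟨n, hn, m, h⟩ := densE (x - th) ε hε N
  refine ⟨n, hn, m, ?_⟩
  have e : ((2 * n + 1 : ℕ) : ℝ) * th - m * π - x =
      ((2 * n : ℕ) : ℝ) * th - m * π - (x - th) := by push_cast; ring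
  rw [e]; exact h

/-- sum over the first `n` odd multiples, shifted by `s` -/
noncomputable def S (n : ℕ) (s : ℝ) : ℤ :=
  ∑ i ∈ Finset.range n, G (s + ((2 * i + 1 : ℕ) : ℝ) * th)

theorem S_add (r n : ℕ) (m : ℤ) (τ : ℝ) (h : ((2 * r : ℕ) : ℝ) * th = m * π + τ) :
    S (r + n) 0 = S r 0 + (-1) ^ m.natAbs * S n τ := by
  unfold S
  rw [Finset.sum_range_add]
  congr 1
  rw [Finset.mul_sum]
  apply Finset.sum_congr rfl
  intro i _
  rw [← G_add_int_pi]
  congr 1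
  have : ((2 * (r + i) + 1 : ℕ) : ℝ) * th = ((2 * r : ℕ) : ℝ) * th + ((2 * i + 1 : ℕ) : ℝ) * th := by
    push_cast; ring
  rw [this, h]; ring

theorem S_sub (r n : ℕ) (hn : n ≤ r) (m : ℤ) (τ : ℝ)
    (h : ((2 * r : ℕ) : ℝ) * th = m * π + τ) :
    S (r - n) 0 = S r 0 - (-1) ^ m.natAbs * S n (-τ) := by
  obtain ⟨k, rfl⟩ := Nat.exists_eq_add_of_le hn
  rw [Nat.add_sub_cancel_left]
  have h1 : S (k + n) 0 = S k 0 + ∑ i ∈ Finset.range n,
      G (0 + ((2 * (k + i) + 1 : ℕ) : ℝ) * th) := by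
    unfold S
    rw [Finset.sum_range_add]
  rw [add_comm n k, h1]
  have h2 : ∑ i ∈ Finset.range n, G (0 + ((2 * (k + i) + 1 : ℕ) : ℝ) * th) =
      (-1) ^ m.natAbs * S n (-τ) := by
    unfold S
    rw [Finset.mul_sum, ← Finset.sum_range_reflect]
    apply Finset.sum_congr rfl
    intro i hi
    rw [Finset.mem_range] at hi
    have e1 : ((2 * (k + (n - 1 - i)) + 1 : ℕ) : ℝ) * th =
        ((2 * (n + k) : ℕ) : ℝ) * th - ((2 * i + 1 : ℕ) : ℝ) * th := by
      have : (2 * (n + k) : ℕ) = (2 * (k + (n - 1 - i)) + 1) + (2 * i + 1) := by omega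
      rw [this]; push_cast; ring
    have e2 : (0 : ℝ) + ((2 * (k + (n - 1 - i)) + 1 : ℕ) : ℝ) * th =
        -(-τ + ((2 * i + 1 : ℕ) : ℝ) * th) + m * π := by rw [e1, h]; ring
    rw [e2, G_add_int_pi, G_neg]
  rw [h2]; ring

theorem nz (p n : ℤ) (hn : n ≠ 0) :
    cos ((p : ℝ) * π / 6 + n * th) ≠ 0 ∧ sin ((p : ℝ) * π / 6 + n * th) ≠ 0 := by
  constructor
  · intro h
    rw [Real.cos_eq_zero_iff] at h
    obtain ⟨k, hk⟩ := h
    apply irr (6 * n) (by omega) (3 * (2 * k + 1) - p)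
    push_cast
    linear_combination 6 * hk
  · intro h
    rw [Real.sin_eq_zero_iff] at h
    obtain ⟨k, hk⟩ := h
    apply irr (6 * n) (by omega) (6 * k - p)
    push_cast
    linear_combination (-6) * hk

theorem G_lc (p n : ℤ) (hn : n ≠ 0) :
    ∀ᶠ s in nhds ((p : ℝ) * π / 6 + n * th), G s = G ((p : ℝ) * π / 6 + n * th) := by
  have h1 := (nz (p + 2) n hn).1
  have h2 := (nz (p + 2) n hn).2
  have h3 := (nz (2 - p) (-n) (by omega)).1
  have h4 := (nz (2 - p) (-n) (by omega)).2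
  have e1 : (((p + 2 : ℤ)) : ℝ) * π / 6 + n * th = ((p : ℝ) * π / 6 + n * th) + π / 3 := by
    push_cast; ring
  have e2 : (((2 - p : ℤ)) : ℝ) * π / 6 + ((-n : ℤ) : ℝ) * th =
      -((p : ℝ) * π / 6 + n * th) + π / 3 := by
    push_cast; ring
  rw [e1] at h1 h2
  rw [e2] at h3 h4
  set t := (p : ℝ) * π / 6 + n * th with ht
  have c1 := sg_ev (f := fun s => cos (s + π / 3)) (by fun_prop) (t := t) h1
  have c2 := sg_ev (f := fun s => sin (s + π / 3)) (by fun_prop) (t := t) h2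
  have c3 := sg_ev (f := fun s => cos (-s + π / 3)) (by fun_prop) (t := t) h3
  have c4 := sg_ev (f := fun s => sin (-s + π / 3)) (by fun_prop) (t := t) h4
  filter_upwards [c1, c2, c3, c4] with s k1 k2 k3 k4
  unfold G e
  rw [k1, k2, k3, k4]

theorem G_lc' (s0 c : ℝ) (p n : ℤ) (hn : n ≠ 0) (h : s0 + c = (p : ℝ) * π / 6 + n * th) :
    ∀ᶠ s in nhds s0, G (s + c) = G (s0 + c) := by
  have h1 := G_lc p n hn
  rw [← h] at h1
  have h2 : Filter.Tendsto (fun s : ℝ => s + c) (nhds s0) (nhds (s0 + c)) :=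
    (continuous_id.add continuous_const).tendsto s0
  exact h2.eventually h1

theorem G_left (h : ℝ) (h0 : h < 0) (h1 : -(π / 12) < h) : G (π / 6 + h) = 0 := by
  have hp := Real.pi_pos
  unfold G e
  have e1 : π / 6 + h + π / 3 = π / 2 + h := by ring
  have e2 : -(π / 6 + h) + π / 3 = π / 6 - h := by ring
  rw [e1, e2]
  rw [sg_pos (cos_pos_of_mem_Ioo ⟨by linarith, by linarith⟩),
    sg_pos (sin_pos_of_pos_of_lt_pi (by linarith) (by linarith)),
    sg_pos (cos_pos_of_mem_Ioo ⟨by linarith, by linarith⟩),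
    sg_pos (sin_pos_of_pos_of_lt_pi (by linarith) (by linarith))]
  rfl

theorem G_right (h : ℝ) (h0 : 0 < h) (h1 : h < π / 12) : G (π / 6 + h) = -2 := by
  have hp := Real.pi_pos
  unfold G e
  have e1 : π / 6 + h + π / 3 = π / 2 + h := by ring
  have e2 : -(π / 6 + h) + π / 3 = π / 6 - h := by ring
  rw [e1, e2]
  rw [sg_neg (cos_neg_of_pi_div_two_lt_of_lt (by linarith) (by linarith)),
    sg_pos (sin_pos_of_pos_of_lt_pi (by linarith) (by linarith)),
    sg_pos (cos_pos_of_mem_Ioo ⟨by linarith, by linarith⟩),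
    sg_pos (sin_pos_of_pos_of_lt_pi (by linarith) (by linarith))]
  rfl

theorem S_lc (n : ℕ) : ∃ δ : ℝ, 0 < δ ∧ ∀ τ : ℝ, |τ| < δ → S n τ = S n 0 := by
  have h : ∀ᶠ s in nhds (0 : ℝ), ∀ i ∈ Finset.range n,
      G (s + ((2 * i + 1 : ℕ) : ℝ) * th) = G (0 + ((2 * i + 1 : ℕ) : ℝ) * th) := by
    rw [Filter.eventually_all_finset]
    intro i _
    exact G_lc' 0 _ 0 (2 * i + 1) (by omega) (by push_cast; ring)
  obtain ⟨δ, hδ, h⟩ := Metric.eventually_nhds_iff.1 h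
  refine ⟨δ, hδ, fun τ hτ => ?_⟩
  unfold S
  exact Finset.sum_congr rfl (h (by rw [Real.dist_eq, sub_zero]; exact hτ))

theorem G_one : S 1 0 = 2 := by
  have h := E_pair 1
  unfold S
  rw [Finset.sum_range_one]
  have e : (0 : ℝ) + ((2 * 0 + 1 : ℕ) : ℝ) * th = ((1 : ℕ) : ℝ) * th := by push_cast; ring
  rw [e, ← h]
  decide

/-- the partial sums are unbounded -/
theorem unb (M : ℤ) : ∃ n : ℕ, M < |S n 0| := by
  by_contra hM
  push Not at hM
  obtain ⟨b, ⟨N, hN⟩, hb⟩ := Int.exists_greatest_of_bdd (P := fun z => ∃ n : ℕ, z = |S n 0|)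
    ⟨M, by rintro z ⟨n, rfl⟩; exact hM n⟩ ⟨|S 0 0|, 0, rfl⟩
  have hmax : ∀ n, |S n 0| ≤ |S N 0| := fun n => by rw [← hN]; exact hb _ ⟨n, rfl⟩
  have hne : S N 0 ≠ 0 := by
    intro h
    have := hmax 1
    rw [G_one, h] at this
    norm_num at this
  obtain ⟨δ, hδ, hS⟩ := S_lc N
  have hz : ∀ (r : ℕ) (m : ℤ) (τ : ℝ), N ≤ r → |τ| < δ →
      ((2 * r : ℕ) : ℝ) * th = m * π + τ → S r 0 = 0 := by
    intro r m τ hr hτ h
    have h1 := S_add r N m τ h
    have h2 := S_sub r N hr m τ h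
    rw [hS τ hτ] at h1
    rw [hS (-τ) (by rw [abs_neg]; exact hτ)] at h2
    have h3 := hmax (r + N)
    have h4 := hmax (r - N)
    rw [h1] at h3
    rw [h2] at h4
    rcases neg_one_pow_eq_or ℤ m.natAbs with hp | hp
    · rw [hp, one_mul] at h3 h4
      rcases abs_cases (S N 0) with ⟨a1, a2⟩ | ⟨a1, a2⟩ <;>
      rcases abs_cases (S r 0 + S N 0) with ⟨a3, a4⟩ | ⟨a3, a4⟩ <;>
      rcases abs_cases (S r 0 - S N 0) with ⟨a5, a6⟩ | ⟨a5, a6⟩ <;> omega
    · rw [hp, neg_one_mul] at h3 h4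
      rcases abs_cases (S N 0) with ⟨a1, a2⟩ | ⟨a1, a2⟩ <;>
      rcases abs_cases (S r 0 + -S N 0) with ⟨a3, a4⟩ | ⟨a3, a4⟩ <;>
      rcases abs_cases (S r 0 - -S N 0) with ⟨a5, a6⟩ | ⟨a5, a6⟩ <;> omega
  obtain ⟨j0, -, m0, hj0⟩ := densO (π / 6) (δ / 2) (by linarith) 0
  set τ0 : ℝ := π / 6 + m0 * π - ((2 * j0 + 1 : ℕ) : ℝ) * th with hτ0
  have hτ0' : |τ0| < δ / 2 := by
    rw [hτ0, abs_sub_comm]
    convert hj0 using 2
    ring
  obtain ⟨r, hr, m, hrm⟩ := densE 0 (δ / 4) (by linarith) (max (j0 + 1) N)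
  have hrj : j0 < r := by have := le_max_left (j0 + 1) N; omega
  have hrN : N ≤ r := by have := le_max_right (j0 + 1) N; omega
  set τr : ℝ := ((2 * r : ℕ) : ℝ) * th - m * π - 0 with hτr
  have hkey : ∀ (R : ℕ) (k : ℤ) (τ : ℝ), N ≤ R → |τ| < 3 * δ / 4 →
      ((2 * R : ℕ) : ℝ) * th = k * π + τ → S r τ = 0 := by
    intro R k τ hR hτ h
    have h1 := hz R k τ hR (by linarith) h
    have h2 := hz (R + r) (k + m) (τ + τr) (by omega) (by
      have := abs_add_le τ τr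
      linarith) (by
      push_cast
      push_cast at h
      rw [hτr]; push_cast
      linear_combination h)
    rw [S_add R r k τ h, h1, zero_add] at h2
    rcases mul_eq_zero.1 h2 with h3 | h3
    · exact absurd h3 (pow_ne_zero _ (by norm_num))
    · exact h3
  have hloc : ∀ᶠ s in nhds τ0, ∀ i ∈ (Finset.range r).erase j0,
      G (s + ((2 * i + 1 : ℕ) : ℝ) * th) = G (τ0 + ((2 * i + 1 : ℕ) : ℝ) * th) := by
    rw [Filter.eventually_all_finset]
    intro i hi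
    rw [Finset.mem_erase] at hi
    refine G_lc' τ0 _ (1 + 6 * m0) (2 * i - 2 * j0) (by omega) ?_
    rw [hτ0]; push_cast; ring
  obtain ⟨ε1, hε1, hloc⟩ := Metric.eventually_nhds_iff.1 hloc
  have hπ := Real.pi_pos
  obtain ⟨ε, hε, l1, l2, l3⟩ : ∃ ε : ℝ, 0 < ε ∧ ε ≤ ε1 ∧ ε ≤ δ / 4 ∧ ε ≤ π / 12 :=
    ⟨min ε1 (min (δ / 4) (π / 12)), by positivity, min_le_left _ _,
      le_trans (min_le_right _ _) (min_le_left _ _),
      le_trans (min_le_right _ _) (min_le_right _ _)⟩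
  have hsplit : ∀ τ : ℝ, |τ - τ0| < ε → S r τ =
      (-1) ^ m0.natAbs * G (π / 6 + (τ - τ0)) +
        ∑ i ∈ (Finset.range r).erase j0, G (τ0 + ((2 * i + 1 : ℕ) : ℝ) * th) := by
    intro τ hτ
    unfold S
    rw [← Finset.add_sum_erase _ _ (Finset.mem_range.2 hrj)]
    congr 1
    · rw [← G_add_int_pi]
      congr 1
      rw [hτ0]; ring
    · exact Finset.sum_congr rfl (hloc (by rw [Real.dist_eq]; linarith))
  obtain ⟨R1, hR1, k1, h1⟩ := densE (τ0 - ε / 2) (ε / 2) (by linarith) N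
  obtain ⟨R2, hR2, k2, h2⟩ := densE (τ0 + ε / 2) (ε / 2) (by linarith) N
  rw [abs_lt] at h1 h2 hτ0'
  set t1 : ℝ := ((2 * R1 : ℕ) : ℝ) * th - k1 * π with ht1
  set t2 : ℝ := ((2 * R2 : ℕ) : ℝ) * th - k2 * π with ht2
  have z1 := hkey R1 k1 t1 hR1 (by rw [abs_lt]; constructor <;> linarith) (by rw [ht1]; ring)
  have z2 := hkey R2 k2 t2 hR2 (by rw [abs_lt]; constructor <;> linarith) (by rw [ht2]; ring)
  rw [hsplit t1 (by rw [abs_lt]; constructor <;> linarith)] at z1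
  rw [hsplit t2 (by rw [abs_lt]; constructor <;> linarith)] at z2
  rw [G_left _ (by linarith) (by linarith)] at z1
  rw [G_right _ (by linarith) (by linarith)] at z2
  rw [mul_zero, zero_add] at z1
  rw [z1, add_zero] at z2
  rcases mul_eq_zero.1 z2 with h3 | h3
  · exact absurd h3 (pow_ne_zero _ (by norm_num))
  · norm_num at h3

end Q278.UB
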