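import Pool.Agent.Q278.UR3
import Pool.Agent.Q278.UB

set_option autoImplicit false

/-! Coefficients as weighted sums over representations. -/

namespace Q278.UC

open PowerSeries Finset Q278.UQ Q278.UR Q278.UR2 Q278.UR3 Q278.UA

/-- representations -/
noncomputable def Sol (A : ℕ) : Finset (ℤ × ℤ) :=
  (Icc (-(A : ℤ)) A ×ˢ Icc (-(A : ℤ)) A).filter
    (fun p => p.1 ^ 2 + 3 * p.2 ^ 2 = A ∧ p.1 % 3 = 1)

theorem mem_Sol (A : ℕ) (p : ℤ × ℤ) :
    p ∈ Sol A ↔ p.1 ^ 2 + 3 * p.2 ^ 2 = A ∧ p.1 % 3 = 1 := by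
  unfold Sol
  rw [mem_filter, mem_product, mem_Icc, mem_Icc]
  constructor
  · exact fun h => h.2
  · intro h
    refine ⟨?_, h⟩
    obtain ⟨h1, -⟩ := h
    have h2 : |p.1| ≤ (A : ℤ) := by
      have : |p.1| ≤ p.1 ^ 2 := by
        rcases eq_or_ne p.1 0 with h0 | h0
        · rw [h0]; simp
        · have := Int.one_le_abs h0
          rw [← sq_abs]; nlinarith
      nlinarith [sq_nonneg p.2]
    have h3 : |p.2| ≤ (A : ℤ) := by
      have : |p.2| ≤ p.2 ^ 2 := by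
        rcases eq_or_ne p.2 0 with h0 | h0
        · rw [h0]; simp
        · have := Int.one_le_abs h0
          rw [← sq_abs]; nlinarith
      nlinarith [sq_nonneg p.1]
    rw [abs_le] at h2 h3
    exact ⟨h2, h3⟩

/-- weighted number of representations -/
noncomputable def WS (A : ℕ) : ℤ := ∑ p ∈ Sol A, E p.1 p.2

/-- index set -/
noncomputable def Ix (N : ℕ) : Finset (ℤ × ℤ) :=
  (Ico (-((N : ℤ) + 1)) (N + 1) ×ˢ Ico (0 : ℤ) (N + 1)).filter
    (fun p => p.1 * (3 * p.1 + 1) + p.2 * (p.2 + 1) = 2 * N)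

theorem mem_Ix (N : ℕ) (p : ℤ × ℤ) :
    p ∈ Ix N ↔ 0 ≤ p.2 ∧ p.1 * (3 * p.1 + 1) + p.2 * (p.2 + 1) = 2 * N := by
  unfold Ix
  rw [mem_filter, mem_product, mem_Ico, mem_Ico]
  constructor
  · exact fun h => ⟨h.1.2.1, h.2⟩
  · rintro ⟨h0, h⟩
    have h1 : p.1 ^ 2 ≤ N := by
      have : 0 ≤ p.1 * (p.1 + 1) := by
        rcases lt_or_ge p.1 0 with h5 | h5
        · nlinarith
        · nlinarith
      nlinarith
    have h2 : |p.1| ≤ (N : ℤ) := by
      have : |p.1| ≤ p.1 ^ 2 := by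
        rcases eq_or_ne p.1 0 with h0 | h0
        · rw [h0]; simp
        · have := Int.one_le_abs h0
          rw [← sq_abs]; nlinarith
      linarith
    rw [abs_le] at h2
    have h3 : 0 ≤ p.1 * (3 * p.1 + 1) := by
      rcases lt_or_ge p.1 0 with h5 | h5
      · nlinarith
      · nlinarith
    have h4 : p.2 ≤ N := by
      rcases eq_or_ne p.2 0 with h5 | h5
      · omega
      · have : 1 ≤ p.2 := by omega
        nlinarith
    exact ⟨⟨⟨by omega, by omega⟩, by omega, by omega⟩, h⟩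

/-- the weight on the index set -/
def wt (p : ℤ × ℤ) : ℤ := (if 0 ≤ p.1 then 1 else -1) - (if (p.1 + p.2) % 2 = 0 then 1 else -1)

/-- from indices to representations -/
def toS (p : ℤ × ℤ) : ℤ × ℤ :=
  if (p.1 + p.2) % 2 = 0 then (3 * ((p.1 + p.2) / 2) + 1, (p.2 - 3 * p.1) / 2)
  else (3 * ((p.1 - p.2 - 1) / 2) + 1, -((3 * p.1 + p.2 + 1) / 2))

/-- from representations to indices -/
def toI (p : ℤ × ℤ) : ℤ × ℤ := ((p.1 - 3 * p.2 - 1) / 6, (|p.1 + p.2| - 1) / 2)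

theorem toS_spec (p : ℤ × ℤ) : (toS p).1 - 3 * (toS p).2 = 6 * p.1 + 1 ∧
    (toS p).1 + (toS p).2 = (if (p.1 + p.2) % 2 = 0 then 1 else -1) * (2 * p.2 + 1) ∧
    (toS p).1 % 3 = 1 := by
  unfold toS
  split_ifs with h
  · refine ⟨?_, ?_, ?_⟩ <;> dsimp only <;> omega
  · refine ⟨?_, ?_, ?_⟩ <;> dsimp only <;> omega

theorem toI_spec (N : ℕ) (p : ℤ × ℤ) (hp : p ∈ Sol (6 * N + 1)) :
    p.1 - 3 * p.2 = 6 * (toI p).1 + 1 ∧ |p.1 + p.2| = 2 * (toI p).2 + 1 ∧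
      (p.1 + p.2 = (if ((toI p).1 + (toI p).2) % 2 = 0 then 1 else -1) * |p.1 + p.2|) := by
  rw [mem_Sol] at hp
  obtain ⟨h1, h2⟩ := hp
  have hodd : (p.1 + p.2) % 2 = 1 := by
    push_cast at h1
    rcases Int.emod_two_eq_zero_or_one p.1 with a | a <;>
    rcases Int.emod_two_eq_zero_or_one p.2 with b | b
    · exfalso
      obtain ⟨x, hx⟩ : ∃ x, p.1 = 2 * x := ⟨p.1 / 2, by omega⟩
      obtain ⟨y, hy⟩ : ∃ y, p.2 = 2 * y := ⟨p.2 / 2, by omega⟩
      rw [hx, hy] at h1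
      ring_nf at h1
      omega
    · omega
    · omega
    · exfalso
      obtain ⟨x, hx⟩ : ∃ x, p.1 = 2 * x + 1 := ⟨p.1 / 2, by omega⟩
      obtain ⟨y, hy⟩ : ∃ y, p.2 = 2 * y + 1 := ⟨p.2 / 2, by omega⟩
      rw [hx, hy] at h1
      ring_nf at h1
      omega
  unfold toI
  dsimp only
  rcases abs_cases (p.1 + p.2) with ⟨a, b⟩ | ⟨a, b⟩
  · rw [a]
    refine ⟨by omega, by omega, ?_⟩
    rw [if_pos (by omega)]; ring
  · rw [a]
    refine ⟨by omega, by omega, ?_⟩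
    rw [if_neg (by omega)]; ring

theorem WS_eq (N : ℕ) : WS (6 * N + 1) = ∑ p ∈ Ix N, wt p := by
  unfold WS
  apply Finset.sum_nbij' toI toS
  · -- maps
    intro p hp
    obtain ⟨h1, h2, h3⟩ := toI_spec N p hp
    rw [mem_Sol] at hp
    rw [mem_Ix]
    obtain ⟨h4, h5⟩ := hp
    have h6 := abs_nonneg (p.1 + p.2)
    refine ⟨by omega, ?_⟩
    have h7 : |p.1 + p.2| ^ 2 = (p.1 + p.2) ^ 2 := sq_abs _
    rw [h2] at h7
    push_cast at h4
    have h8 : (p.1 - 3 * p.2) ^ 2 = (6 * (toI p).1 + 1) ^ 2 := by rw [h1]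
    linarith [h7, h8, h4, show (p.1 - 3 * p.2) ^ 2 + 3 * (p.1 + p.2) ^ 2 =
      4 * (p.1 ^ 2 + 3 * p.2 ^ 2) by ring,
      show (6 * (toI p).1 + 1) ^ 2 + 3 * (2 * (toI p).2 + 1) ^ 2 = 12 * ((toI p).1 *
        (3 * (toI p).1 + 1) + (toI p).2 * ((toI p).2 + 1)) + 4 by ring]
  · intro p hp
    obtain ⟨h1, h2, h3⟩ := toS_spec p
    rw [mem_Ix] at hp
    rw [mem_Sol]
    obtain ⟨h4, h5⟩ := hp
    refine ⟨?_, h3⟩
    have h7 : ((toS p).1 + (toS p).2) ^ 2 = (2 * p.2 + 1) ^ 2 := by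
      rw [h2]; split_ifs <;> ring
    have h8 : ((toS p).1 - 3 * (toS p).2) ^ 2 = (6 * p.1 + 1) ^ 2 := by rw [h1]
    push_cast
    linarith [h7, h8, h5, show ((toS p).1 - 3 * (toS p).2) ^ 2 +
      3 * ((toS p).1 + (toS p).2) ^ 2 = 4 * ((toS p).1 ^ 2 + 3 * (toS p).2 ^ 2) by ring,
      show (6 * p.1 + 1) ^ 2 + 3 * (2 * p.2 + 1) ^ 2 = 12 * (p.1 *
        (3 * p.1 + 1) + p.2 * (p.2 + 1)) + 4 by ring]
  · -- left inverse
    intro p hp
    obtain ⟨h1, h2, h3⟩ := toI_spec N p hp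
    obtain ⟨k1, k2, k3⟩ := toS_spec (toI p)
    rw [← h2, ← h3] at k2
    rw [← h1] at k1
    ext <;> omega
  · intro p hp
    obtain ⟨h1, h2, h3⟩ := toS_spec p
    rw [mem_Ix] at hp
    have h4 : |(toS p).1 + (toS p).2| = 2 * p.2 + 1 := by
      rw [h2, abs_mul]
      rw [abs_of_nonneg (a := 2 * p.2 + 1) (by omega)]
      split_ifs <;> simp
    unfold toI
    ext
    · dsimp only; omega
    · dsimp only; rw [h4]; omega
  · intro p hp
    obtain ⟨h1, h2, h3⟩ := toI_spec N p hp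
    unfold wt E
    have h6 : 0 < |p.1 + p.2| := by
      have := abs_nonneg (p.1 + p.2)
      omega
    congr 1
    · rw [h1]
      split_ifs with h
      · exact Int.sign_eq_one_of_pos (by omega)
      · exact Int.sign_eq_neg_one_of_neg (by omega)
    · rw [h3]
      split_ifs with h
      · rw [one_mul, Int.sign_eq_one_of_pos h6]
      · rw [neg_one_mul, Int.sign_eq_neg_one_of_neg (by omega)]

end Q278.UC
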