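import Pool.Agent.Q278.UC

set_option autoImplicit false

/-! Coefficient extraction. -/

namespace Q278.UC2

open PowerSeries Finset Q278.UQ Q278.UR Q278.UR2 Q278.UR3 Q278.UA Q278.UC

theorem psi_sum : HS (fun i => (X : P) ^ tr i) (Ms 0) := by
  have h : HS (fun i => (X : P) ^ tr i) (isum fun i => (X : P) ^ tr i) :=
    hs_isum (fun i => pow_dvd_pow _ (le_tr i))
  have h2 := h.pair
  have h3 := M_sum.congr (t := fun j => (X : P) ^ tr (2 * j) + X ^ tr (2 * j + 1)) (by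
    intro k
    have e1 : tr (2 * k + 1) = tr (2 * k) + (2 * k + 1) := rfl
    have e2 : tr (2 * k) = 2 * k * k + k := by
      have := two_tr (2 * k)
      nlinarith
    rw [e1, e2]
    ring)
  rw [h3.unique h2]
  exact h

theorem sum_Ico_int (M : ℕ) (g : ℤ → ℤ) :
    ∑ n ∈ Ico (-(M : ℤ)) M, g n = ∑ k ∈ range M, (g k + g (-((k : ℤ) + 1))) := by
  induction M with
  | zero => simp
  | succ M ih =>
    rw [sum_range_succ, ← ih]
    have e : Ico (-((M + 1 : ℕ) : ℤ)) ((M + 1 : ℕ) : ℤ) =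
        insert (-((M : ℤ) + 1)) (insert (M : ℤ) (Ico (-(M : ℤ)) M)) := by
      ext x
      simp only [mem_Ico, mem_insert]
      push_cast
      omega
    rw [e, sum_insert (by simp only [mem_insert, mem_Ico]; omega),
      sum_insert (by simp only [mem_Ico]; omega)]
    ring

theorem sum_Ico_nat (M : ℕ) (g : ℤ → ℤ) :
    ∑ n ∈ Ico (0 : ℤ) M, g n = ∑ k ∈ range M, g k := by
  induction M with
  | zero => simp
  | succ M ih =>
    rw [sum_range_succ, ← ih]
    have e : Ico (0 : ℤ) ((M + 1 : ℕ) : ℤ) = insert (M : ℤ) (Ico (0 : ℤ) M) := by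
      ext x
      simp only [mem_Ico, mem_insert]
      push_cast
      omega
    rw [e, sum_insert (by simp only [mem_Ico]; omega)]
    ring

theorem wt_pos (k i : ℕ) : wt ((k : ℤ), (i : ℤ)) = 1 - (-1) ^ (k + i) := by
  unfold wt
  dsimp only
  rw [if_pos (by omega)]
  rcases Nat.even_or_odd (k + i) with h | h
  · rw [h.neg_one_pow, if_pos (by obtain ⟨a, ha⟩ := h; omega)]
  · rw [h.neg_one_pow, if_neg (by obtain ⟨a, ha⟩ := h; omega)]

theorem wt_neg (k i : ℕ) : wt (-((k : ℤ) + 1), (i : ℤ)) = -(1 - (-1) ^ (k + i)) := by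
  unfold wt
  dsimp only
  rw [if_neg (by omega)]
  rcases Nat.even_or_odd (k + i) with h | h
  · rw [h.neg_one_pow, if_neg (by obtain ⟨a, ha⟩ := h; omega)]; norm_num
  · rw [h.neg_one_pow, if_pos (by obtain ⟨a, ha⟩ := h; omega)]; norm_num

theorem Ix_sum (N : ℕ) : ∑ p ∈ Ix N, wt p = ∑ i ∈ range (N + 1), ∑ k ∈ range (N + 1),
    (1 - (-1) ^ (k + i)) * ((if N = tr i + pe k then 1 else 0) -
      (if N = tr i + (pe k + (2 * k + 1)) then 1 else 0)) := by
  unfold Ix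
  rw [sum_filter, sum_product_right]
  have e1 := sum_Ico_nat (N + 1)
    (fun i => ∑ n ∈ Ico (-((N : ℤ) + 1)) (N + 1),
      if n * (3 * n + 1) + i * (i + 1) = 2 * (N : ℤ) then wt (n, i) else 0)
  push_cast at e1
  rw [e1]
  apply sum_congr rfl
  intro i _
  have e2 := sum_Ico_int (N + 1) (fun n =>
    if n * (3 * n + 1) + (i : ℤ) * ((i : ℤ) + 1) = 2 * (N : ℤ) then wt (n, (i : ℤ)) else 0)
  push_cast at e2
  rw [e2]
  apply sum_congr rfl
  intro k _
  rw [wt_pos, wt_neg]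
  have h1 := two_tr i
  have h2 := two_pe k
  have c1 : ((k : ℤ) * (3 * (k : ℤ) + 1) + (i : ℤ) * ((i : ℤ) + 1) = 2 * (N : ℤ)) ↔
      N = tr i + pe k := by
    have h1' : (2 : ℤ) * tr i = (i : ℤ) * (i + 1) := by exact_mod_cast h1
    have h2' : (2 : ℤ) * pe k = (k : ℤ) * (3 * k + 1) := by exact_mod_cast h2
    rw [← h1', ← h2']
    omega
  have c2 : ((-((k : ℤ) + 1)) * (3 * (-((k : ℤ) + 1)) + 1) + (i : ℤ) * ((i : ℤ) + 1) =
      2 * (N : ℤ)) ↔ N = tr i + (pe k + (2 * k + 1)) := by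
    have h1' : (2 : ℤ) * tr i = (i : ℤ) * (i + 1) := by exact_mod_cast h1
    have h2' : (2 : ℤ) * pe k = (k : ℤ) * (3 * k + 1) := by exact_mod_cast h2
    rw [← h1']
    have : (-((k : ℤ) + 1)) * (3 * (-((k : ℤ) + 1)) + 1) = 2 * pe k + 4 * k + 2 := by
      rw [h2']; ring
    rw [this]
    omega
  rw [if_congr c1 rfl rfl, if_congr c2 rfl rfl]
  split_ifs <;> ring

theorem coef (N : ℕ) : 2 * coeff N (X * (Eu 0 * To)) = WS (6 * N + 1) := by
  have h := congrArg (coeff N) main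
  rw [mul_assoc, map_sub] at h
  have e : coeff N (2 * (X * (Eu 0 * To)) : P) = 2 * coeff N (X * (Eu 0 * To)) := by
    rw [two_mul, map_add, two_mul]
  rw [e] at h
  rw [h, WS_eq, Ix_sum]
  have s1 := psi_sum.coeff_mul (L_sum 1 (by norm_num)) N (N + 1) (Nat.lt_succ_self N)
  have s2 := F_sum.coeff_mul (L_sum (-1) (by norm_num)) N (N + 1) (Nat.lt_succ_self N)
  rw [mul_comm (L (-1) 0), s1, s2, ← sum_sub_distrib]
  apply sum_congr rfl
  intro i _
  rw [← sum_sub_distrib]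
  apply sum_congr rfl
  intro k _
  have e1 : (X : P) ^ tr i * (((1 : ℤ) : P) ^ k * X ^ pe k * (1 - X ^ (2 * k + 1))) =
      X ^ (tr i + pe k) - X ^ (tr i + (pe k + (2 * k + 1))) := by
    push_cast; ring
  have e2 : (-1 : P) ^ i * X ^ tr i * 1 * (((-1 : ℤ) : P) ^ k * X ^ pe k * (1 - X ^ (2 * k + 1))) =
      C ((-1 : ℤ) ^ (k + i)) * (X ^ (tr i + pe k) - X ^ (tr i + (pe k + (2 * k + 1)))) := by
    rw [map_pow, map_neg, map_one]
    push_cast; ring
  rw [e1, e2, coeff_C_mul, map_sub, coeff_X_pow, coeff_X_pow]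
  ring

end Q278.UC2
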