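import Pool.Agent.Q278.UC2

set_option autoImplicit false

/-! Representations of `25 A` and of powers of seven. -/

namespace Q278.UD

open Finset Q278.UA Q278.UC

theorem five_dvd (u v : ℤ) (h : (5 : ℤ) ∣ u ^ 2 + 3 * v ^ 2) : (5 : ℤ) ∣ u ∧ (5 : ℤ) ∣ v := by
  have h1 : (u ^ 2 + 3 * v ^ 2) % 5 = 0 := Int.emod_eq_zero_of_dvd h
  have hu : u % 5 = 0 ∨ u % 5 = 1 ∨ u % 5 = 2 ∨ u % 5 = 3 ∨ u % 5 = 4 := by omega
  have hv : v % 5 = 0 ∨ v % 5 = 1 ∨ v % 5 = 2 ∨ v % 5 = 3 ∨ v % 5 = 4 := by omega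
  rcases hu with a | a | a | a | a <;> rcases hv with b | b | b | b | b <;>
    first
    | exact ⟨by omega, by omega⟩
    | (exfalso
       have : (u ^ 2 + 3 * v ^ 2) % 5 = ((u % 5) ^ 2 + 3 * (v % 5) ^ 2) % 5 := by
         simp [Int.add_emod, Int.mul_emod, pow_two]
       rw [this, a, b] at h1
       norm_num at h1)

theorem E_mul (c u v : ℤ) (hc : 0 < c) : E (c * u) (c * v) = E u v := by
  unfold E
  rw [show c * u - 3 * (c * v) = c * (u - 3 * v) by ring,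
    show c * u + c * v = c * (u + v) by ring, Int.sign_mul, Int.sign_mul,
    Int.sign_eq_one_of_pos hc, one_mul, one_mul]

theorem E_neg (u v : ℤ) : E (-u) (-v) = -E u v := by
  unfold E
  rw [show -u - 3 * -v = -(u - 3 * v) by ring, show -u + -v = -(u + v) by ring,
    Int.sign_neg, Int.sign_neg]
  ring

theorem WS25 (A : ℕ) : WS (25 * A) = -WS A := by
  unfold WS
  rw [← sum_neg_distrib]
  apply Finset.sum_nbij' (fun p => (-(p.1 / 5), -(p.2 / 5))) (fun p => (-(5 * p.1), -(5 * p.2)))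
  · intro p hp
    rw [mem_Sol] at hp ⊢
    push_cast at hp
    obtain ⟨⟨a, ha⟩, b, hb⟩ := five_dvd p.1 p.2 ⟨5 * A, by linarith [hp.1]⟩
    dsimp only
    rw [ha, hb] at hp ⊢
    rw [Int.mul_ediv_cancel_left _ (by norm_num), Int.mul_ediv_cancel_left _ (by norm_num)]
    constructor
    · nlinarith [hp.1]
    · omega
  · intro p hp
    rw [mem_Sol] at hp ⊢
    dsimp only
    push_cast
    constructor
    · linear_combination 25 * hp.1
    · omega
  · intro p hp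
    rw [mem_Sol] at hp
    push_cast at hp
    obtain ⟨⟨a, ha⟩, b, hb⟩ := five_dvd p.1 p.2 ⟨5 * A, by linarith [hp.1]⟩
    ext <;> dsimp only <;> omega
  · intro p hp
    ext <;> dsimp only <;> omega
  · intro p hp
    rw [mem_Sol] at hp
    push_cast at hp
    obtain ⟨⟨a, ha⟩, b, hb⟩ := five_dvd p.1 p.2 ⟨5 * A, by linarith [hp.1]⟩
    dsimp only
    rw [E_neg, neg_neg, ha, hb, E_mul 5 _ _ (by norm_num),
      Int.mul_ediv_cancel_left _ (by norm_num), Int.mul_ediv_cancel_left _ (by norm_num)]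

theorem UV_norm (k : ℕ) : (UV k).1 ^ 2 + 3 * (UV k).2 ^ 2 = 7 ^ k := by
  induction k with
  | zero => simp [UV]
  | succ k ih => simp only [UV]; rw [pow_succ 7 k, ← ih]; ring

theorem UV_mod (k : ℕ) : (UV k).1 % 3 = 1 := by
  induction k with
  | zero => simp [UV]
  | succ k ih => simp only [UV]; omega

theorem step_lem (k : ℕ) (u v : ℤ)
    (ih : ∀ u v : ℤ, u ^ 2 + 3 * v ^ 2 = 7 ^ k → u % 3 = 1 → ¬ ((7 : ℤ) ∣ u ∧ (7 : ℤ) ∣ v) →
      u = (UV k).1 ∧ (v = (UV k).2 ∨ v = -(UV k).2))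
    (h : u ^ 2 + 3 * v ^ 2 = 7 ^ (k + 1)) (h3 : u % 3 = 1) (h7 : ¬ ((7 : ℤ) ∣ u ∧ (7 : ℤ) ∣ v))
    (hd : (7 : ℤ) ∣ u + 2 * v) : u = (UV (k + 1)).1 ∧ v = (UV (k + 1)).2 := by
  obtain ⟨c, hc⟩ := hd
  set u' : ℤ := v - 2 * c with hu'
  set v' : ℤ := -c with hv'
  have e1 : u = -2 * u' - 3 * v' := by rw [hu', hv']; linarith
  have e2 : v = u' - 2 * v' := by rw [hu', hv']; ring
  have n1 : u' ^ 2 + 3 * v' ^ 2 = 7 ^ k := by
    rw [e1, e2, pow_succ 7 k] at h
    have : ((-2 * u' - 3 * v') ^ 2 + 3 * (u' - 2 * v') ^ 2 : ℤ) = (u' ^ 2 + 3 * v' ^ 2) * 7 := by ring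
    rw [this] at h
    exact mul_right_cancel₀ (by norm_num) h
  have n2 : u' % 3 = 1 := by omega
  have n3 : ¬ ((7 : ℤ) ∣ u' ∧ (7 : ℤ) ∣ v') := by
    rintro ⟨a, b⟩
    apply h7
    constructor <;> omega
  obtain ⟨r1, r2⟩ := ih u' v' n1 n2 n3
  rcases r2 with r2 | r2
  · simp only [UV]
    rw [e1, e2, r1, r2]
    exact ⟨rfl, rfl⟩
  · rcases k with _ | k
    · simp only [UV] at r1 r2 ⊢
      omega
    · exfalso
      apply h7
      simp only [UV] at r1 r2
      rw [e1, e2, r1, r2]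
      constructor
      · exact ⟨(UV k).1, by ring⟩
      · exact ⟨-(UV k).2, by ring⟩

theorem descent (k : ℕ) : ∀ u v : ℤ, u ^ 2 + 3 * v ^ 2 = 7 ^ k → u % 3 = 1 →
    ¬ ((7 : ℤ) ∣ u ∧ (7 : ℤ) ∣ v) → u = (UV k).1 ∧ (v = (UV k).2 ∨ v = -(UV k).2) := by
  induction k with
  | zero =>
    intro u v h h3 _
    simp only [UV, pow_zero] at *
    have hv : v = 0 := by
      by_contra hv
      have : 1 ≤ v ^ 2 := by
        have := Int.one_le_abs hv
        rw [← sq_abs]; nlinarith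
      nlinarith [sq_nonneg u]
    subst hv
    have hu : (u - 1) * (u + 1) = 0 := by linarith
    rcases mul_eq_zero.1 hu with h | h
    · omega
    · omega
  | succ k ih =>
    intro u v h h3 h7
    have hd : (7 : ℤ) ∣ (u + 2 * v) * (u - 2 * v) := by
      have : (u + 2 * v) * (u - 2 * v) = 7 * (7 ^ k - v ^ 2) := by
        rw [pow_succ] at h
        linear_combination h
      rw [this]; exact Dvd.intro _ rfl
    have hp : Prime (7 : ℤ) := by norm_num
    rcases hp.dvd_or_dvd hd with h1 | h1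
    · obtain ⟨a, b⟩ := step_lem k u v ih h h3 h7 h1
      exact ⟨a, Or.inl b⟩
    · obtain ⟨a, b⟩ := step_lem k u (-v) ih (by rw [← h]; ring) h3 (by
        rintro ⟨a, b⟩; exact h7 ⟨a, by omega⟩) (by
        rw [show u + 2 * -v = u - 2 * v by ring]; exact h1)
      exact ⟨a, Or.inr (by omega)⟩

theorem WS_prim (k : ℕ) (hk : 0 < k) :
    ∑ p ∈ (Sol (7 ^ k)).filter (fun p => ¬ ((7 : ℤ) ∣ p.1 ∧ (7 : ℤ) ∣ p.2)), E p.1 p.2 =
      G (k * th) := by
  have hv := V_mod k hk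
  have hv0 : (UV k).2 ≠ 0 := by rintro h; apply hv; rw [h]; exact dvd_zero _
  have e : (Sol (7 ^ k)).filter (fun p => ¬ ((7 : ℤ) ∣ p.1 ∧ (7 : ℤ) ∣ p.2)) =
      {((UV k).1, (UV k).2), ((UV k).1, -(UV k).2)} := by
    ext p
    rw [mem_filter, mem_Sol, mem_insert, mem_singleton]
    constructor
    · rintro ⟨⟨h1, h2⟩, h3⟩
      obtain ⟨a, b⟩ := descent k p.1 p.2 (by rw [h1]; push_cast; rfl) h2 h3
      rcases b with b | b
      · left; exact Prod.ext a b
      · right; exact Prod.ext a b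
    · have hn := UV_norm k
      have hm := UV_mod k
      rintro (rfl | rfl)
      · refine ⟨⟨by dsimp only; rw [hn]; push_cast; rfl, hm⟩, fun h => hv h.2⟩
      · refine ⟨⟨by dsimp only; rw [neg_sq, hn]; push_cast; rfl, hm⟩, fun h => hv ?_⟩
        have := h.2
        dsimp only at this
        rwa [dvd_neg] at this
  rw [e, sum_pair]
  · exact E_pair k
  · intro h
    have := congrArg Prod.snd h
    dsimp only at this
    omega

theorem WS49 (k : ℕ) : WS (7 ^ (k + 2)) = WS (7 ^ k) + G (((k + 2 : ℕ) : ℝ) * th) := by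
  have h1 := WS_prim (k + 2) (by omega)
  unfold WS
  rw [← sum_filter_add_sum_filter_not (Sol (7 ^ (k + 2)))
    (fun p => (7 : ℤ) ∣ p.1 ∧ (7 : ℤ) ∣ p.2), h1]
  congr 1
  apply Finset.sum_nbij' (fun p => (p.1 / 7, p.2 / 7)) (fun p => (7 * p.1, 7 * p.2))
  · intro p hp
    rw [mem_filter, mem_Sol] at hp
    rw [mem_Sol]
    obtain ⟨⟨h2, h3⟩, ⟨a, ha⟩, b, hb⟩ := hp
    dsimp only
    rw [ha, hb] at h2 ⊢
    rw [Int.mul_ediv_cancel_left _ (by norm_num), Int.mul_ediv_cancel_left _ (by norm_num)]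
    constructor
    · push_cast at h2 ⊢
      rw [pow_add] at h2
      linarith
    · omega
  · intro p hp
    rw [mem_Sol] at hp
    rw [mem_filter, mem_Sol]
    obtain ⟨h2, h3⟩ := hp
    dsimp only
    refine ⟨⟨?_, by omega⟩, Dvd.intro _ rfl, Dvd.intro _ rfl⟩
    push_cast at h2 ⊢
    rw [pow_add, ← h2]; ring
  · intro p hp
    rw [mem_filter] at hp
    obtain ⟨-, ⟨a, ha⟩, b, hb⟩ := hp
    ext <;> dsimp only <;> omega
  · intro p hp
    ext <;> dsimp only <;> omega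
  · intro p hp
    rw [mem_filter] at hp
    obtain ⟨-, ⟨a, ha⟩, b, hb⟩ := hp
    dsimp only
    rw [ha, hb, E_mul 7 _ _ (by norm_num),
      Int.mul_ediv_cancel_left _ (by norm_num), Int.mul_ediv_cancel_left _ (by norm_num)]

theorem WS7 (n : ℕ) : WS (7 ^ (2 * n + 1)) = Q278.UB.S (n + 1) 0 := by
  induction n with
  | zero =>
    have h1 := WS_prim 1 (by norm_num)
    have e : (Sol (7 ^ 1)).filter (fun p => ¬ ((7 : ℤ) ∣ p.1 ∧ (7 : ℤ) ∣ p.2)) = Sol (7 ^ 1) := by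
      apply filter_true_of_mem
      rintro p hp ⟨⟨a, ha⟩, b, hb⟩
      rw [mem_Sol] at hp
      obtain ⟨h2, -⟩ := hp
      rw [ha, hb] at h2
      push_cast at h2
      ring_nf at h2
      omega
    rw [e] at h1
    unfold WS Q278.UB.S
    rw [mul_zero, zero_add, h1, sum_range_one]
    norm_num
  | succ n ih =>
    rw [show 2 * (n + 1) + 1 = (2 * n + 1) + 2 by ring, WS49, ih]
    unfold Q278.UB.S
    rw [sum_range_succ _ (n + 1), zero_add]
    congr 4

end Q278.UD
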