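import Mathlib

set_option autoImplicit false

/-! Formal sums of power series over `ℤ`. -/

namespace Q278.UQ

open PowerSeries Finset

abbrev P := PowerSeries ℤ

/-- `F` is the formal sum of the `s i` -/
def HS (s : ℕ → P) (F : P) : Prop := ∀ N : ℕ, (X : P) ^ N ∣ F - ∑ i ∈ range N, s i

theorem eq_of_dvd (F G : P) (h : ∀ N : ℕ, (X : P) ^ N ∣ F - G) : F = G := by
  ext n
  have := (X_pow_dvd_iff.1 (h (n + 1))) n (Nat.lt_succ_self n)
  rw [map_sub, sub_eq_zero] at this
  exact this

theorem HS.unique {s : ℕ → P} {F G : P} (h1 : HS s F) (h2 : HS s G) : F = G := by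
  apply eq_of_dvd
  intro N
  have e : F - G = (F - ∑ i ∈ range N, s i) - (G - ∑ i ∈ range N, s i) := by ring
  rw [e]; exact dvd_sub (h1 N) (h2 N)

theorem HS.congr {s t : ℕ → P} {F : P} (h : HS s F) (e : ∀ i, s i = t i) : HS t F := by
  have : s = t := funext e
  rw [← this]; exact h

theorem HS.add {s t : ℕ → P} {F G : P} (h1 : HS s F) (h2 : HS t G) :
    HS (fun i => s i + t i) (F + G) := by
  intro N
  rw [sum_add_distrib]
  have e : F + G - (∑ i ∈ range N, s i + ∑ i ∈ range N, t i) =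
    (F - ∑ i ∈ range N, s i) + (G - ∑ i ∈ range N, t i) := by ring
  rw [e]; exact dvd_add (h1 N) (h2 N)

theorem HS.sub {s t : ℕ → P} {F G : P} (h1 : HS s F) (h2 : HS t G) :
    HS (fun i => s i - t i) (F - G) := by
  intro N
  rw [sum_sub_distrib]
  have e : F - G - (∑ i ∈ range N, s i - ∑ i ∈ range N, t i) =
    (F - ∑ i ∈ range N, s i) - (G - ∑ i ∈ range N, t i) := by ring
  rw [e]; exact dvd_sub (h1 N) (h2 N)

theorem HS.mul {s : ℕ → P} {F : P} (a : P) (h1 : HS s F) :
    HS (fun i => a * s i) (a * F) := by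
  intro N
  rw [← mul_sum, ← mul_sub]
  exact (h1 N).mul_left a

/-- telescoping -/
theorem HS.tele {s W : ℕ → P} (hs : ∀ i, s i = W i - W (i + 1)) (hW : ∀ i, (X : P) ^ i ∣ W i) :
    HS s (W 0) := by
  intro N
  have : ∑ i ∈ range N, s i = W 0 - W N := by
    rw [sum_congr rfl (fun i _ => hs i), sum_range_sub']
  rw [this, sub_sub_cancel]
  exact hW N

/-- existence of the formal sum -/
noncomputable def isum (s : ℕ → P) : P := PowerSeries.mk fun n => coeff n (∑ i ∈ range (n + 1), s i)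

theorem hs_isum {s : ℕ → P} (h : ∀ i, (X : P) ^ i ∣ s i) : HS s (isum s) := by
  intro N
  rw [X_pow_dvd_iff]
  intro m hm
  rw [map_sub, isum, coeff_mk, sub_eq_zero]
  obtain ⟨k, rfl⟩ := Nat.exists_eq_add_of_le (Nat.succ_le_of_lt hm)
  have e2 : ∑ i ∈ range (m.succ + k), s i = ∑ i ∈ range (m + 1), s i +
    ∑ x ∈ range k, s (m.succ + x) := Finset.sum_range_add _ _ _
  rw [e2, map_add]
  have : coeff m (∑ x ∈ range k, s (m.succ + x)) = 0 := by
    rw [map_sum]
    apply Finset.sum_eq_zero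
    intro x _
    exact X_pow_dvd_iff.1 (h (m.succ + x)) m (by omega)
  rw [this, add_zero]

theorem HS.term {s : ℕ → P} {F : P} (h : HS s F) (i : ℕ) : (X : P) ^ i ∣ s i := by
  have h1 := h i
  have h2 := (pow_dvd_pow (X : P) (Nat.le_succ i)).trans (h (i + 1))
  have := dvd_sub h1 h2
  rw [sum_range_succ] at this
  have e : F - ∑ i ∈ range i, s i - (F - (∑ x ∈ range i, s x + s i)) = s i := by ring
  rw [e] at this
  exact this

theorem HS.dvd {s : ℕ → P} {F : P} (h : HS s F) (N : ℕ) (hs : ∀ i, (X : P) ^ N ∣ s i) :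
    (X : P) ^ N ∣ F := by
  have h1 := dvd_add (h N) (dvd_sum (fun i _ => hs i) : (X : P) ^ N ∣ ∑ i ∈ range N, s i)
  rwa [sub_add_cancel] at h1

theorem HS.dvd' {s : ℕ → P} {F : P} (h : HS s F) (N : ℕ) (hs : ∀ i, (X : P) ^ N ∣ s (i + 1)) :
    (X : P) ^ N ∣ F - s 0 := by
  have h1 := (pow_dvd_pow (X : P) (Nat.le_succ N)).trans (h (N + 1))
  rw [sum_range_succ'] at h1
  have h2 := dvd_add h1 (dvd_sum (fun i _ => hs i) : (X : P) ^ N ∣ ∑ i ∈ range N, s (i + 1))
  have e : F - (∑ k ∈ range N, s (k + 1) + s 0) + ∑ i ∈ range N, s (i + 1) = F - s 0 := by ring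
  rwa [e] at h2

/-- pairing consecutive terms -/
theorem HS.pair {s : ℕ → P} {F : P} (h : HS s F) : HS (fun j => s (2 * j) + s (2 * j + 1)) F := by
  intro N
  have : ∀ N, ∑ j ∈ range N, (s (2 * j) + s (2 * j + 1)) = ∑ i ∈ range (2 * N), s i := by
    intro N
    induction N with
    | zero => simp
    | succ n ih =>
      rw [sum_range_succ, ih, show 2 * (n + 1) = 2 * n + 1 + 1 by ring, sum_range_succ,
        sum_range_succ]
      ring
  rw [this]
  exact (pow_dvd_pow (X : P) (by omega)).trans (h (2 * N))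

/-- iteration of a first order recursion -/
theorem HS.iter {L c d D : ℕ → P} (hL : ∀ k, L k = c k + d k * L (k + 1)) (h0 : D 0 = 1)
    (hD : ∀ k, D (k + 1) = D k * d k) (hd : ∀ k, (X : P) ^ k ∣ D k) :
    HS (fun k => D k * c k) (L 0) := by
  intro N
  have : L 0 = ∑ k ∈ range N, D k * c k + D N * L N := by
    induction N with
    | zero => simp [h0]
    | succ n ih =>
      rw [sum_range_succ, hD]
      rw [ih]
      rw [hL n]
      ring
  rw [this, add_sub_cancel_left]
  exact (hd N).mul_right _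

/-- products of formal sums: coefficients -/
theorem HS.coeff_mul {s t : ℕ → P} {F G : P} (h1 : HS s F) (h2 : HS t G) (N M : ℕ) (hM : N < M) :
    coeff N (F * G) = ∑ i ∈ range M, ∑ j ∈ range M, coeff N (s i * t j) := by
  have e : (X : P) ^ M ∣ F * G - (∑ i ∈ range M, s i) * (∑ j ∈ range M, t j) := by
    have : F * G - (∑ i ∈ range M, s i) * (∑ j ∈ range M, t j) =
      F * (G - ∑ j ∈ range M, t j) + (F - ∑ i ∈ range M, s i) * (∑ j ∈ range M, t j) := by ring
    rw [this]
    exact dvd_add ((h2 M).mul_left _) ((h1 M).mul_right _)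
  have := (X_pow_dvd_iff.1 e) N hM
  rw [map_sub, sub_eq_zero] at this
  rw [this, sum_mul_sum, map_sum]
  apply sum_congr rfl
  intro i _
  rw [map_sum]

/-- inverse of a series with constant term one -/
noncomputable def iv (f : P) : P := invOfUnit f 1

theorem mul_iv {f : P} (h : constantCoeff f = 1) : f * iv f = 1 := by
  unfold iv
  apply mul_invOfUnit
  rw [h]; rfl

theorem ne0 {f : P} (h : constantCoeff f = 1) : f ≠ 0 := by
  rintro rfl
  simp at h

theorem cc_prod (n : ℕ) (f : ℕ → P) (h : ∀ i, i < n → constantCoeff (f i) = 1) :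
    constantCoeff (∏ i ∈ range n, f i) = 1 := by
  rw [map_prod]
  apply prod_eq_one
  intro i hi
  exact h i (mem_range.1 hi)

theorem cc_add (n : ℕ) (a : P) : constantCoeff (1 + X ^ (n + 1) * a : P) = 1 := by
  simp [pow_succ]

theorem cc_sub (n : ℕ) (a : P) : constantCoeff (1 - X ^ (n + 1) * a : P) = 1 := by
  simp [pow_succ]

theorem cc_add' (n : ℕ) : constantCoeff (1 + X ^ (n + 1) : P) = 1 := by
  simp [pow_succ]

theorem cc_sub' (n : ℕ) : constantCoeff (1 - X ^ (n + 1) : P) = 1 := by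
  simp [pow_succ]

end Q278.UQ
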