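import Pool.Agent.Q278.UQ

set_option autoImplicit false

/-! Lacunary expansions by telescoping. -/

namespace Q278.UR

open PowerSeries Finset Q278.UQ

/-- triangular numbers -/
def tr : ℕ → ℕ
  | 0 => 0
  | n + 1 => tr n + (n + 1)

/-- pentagonal numbers -/
def pe : ℕ → ℕ
  | 0 => 0
  | n + 1 => pe n + (3 * n + 2)

theorem two_tr (n : ℕ) : 2 * tr n = n * (n + 1) := by
  induction n with
  | zero => rfl
  | succ n ih => rw [tr, mul_add, ih]; ring

theorem two_pe (n : ℕ) : 2 * pe n = n * (3 * n + 1) := by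
  induction n with
  | zero => rfl
  | succ n ih => rw [pe, mul_add, ih]; ring

theorem le_tr (n : ℕ) : n ≤ tr n := by
  induction n with
  | zero => simp
  | succ n ih => rw [tr]; omega

theorem le_pe (n : ℕ) : n ≤ pe n := by
  induction n with
  | zero => simp
  | succ n ih => rw [pe]; omega

/-- the products -/
noncomputable def pp (e : ℤ) (k n : ℕ) : P := ∏ i ∈ range n, (1 + (e : P) * X ^ (k + i + 1))

theorem cc_f (e : ℤ) (k : ℕ) : constantCoeff (1 + (e : P) * X ^ (k + 1) : P) = 1 := by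
  simp [pow_succ]

theorem cc_pp (e : ℤ) (k n : ℕ) : constantCoeff (pp e k n) = 1 :=
  cc_prod n _ fun i _ => cc_f e (k + i)

theorem pp_succ (e : ℤ) (k n : ℕ) : pp e k (n + 1) = pp e k n * (1 + (e : P) * X ^ (k + n + 1)) := by
  unfold pp; rw [prod_range_succ]

theorem pp_succ' (e : ℤ) (k n : ℕ) : pp e k (n + 1) = (1 + (e : P) * X ^ (k + 1)) * pp e (k + 1) n := by
  unfold pp
  rw [prod_range_succ', mul_comm]
  congr 1
  apply prod_congr rfl
  intro i _
  congr 3
  ring

theorem iv_pp (e : ℤ) (k n : ℕ) : pp e k n * iv (pp e k n) = 1 := mul_iv (cc_pp e k n)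

theorem iv_pp_succ (e : ℤ) (k n : ℕ) :
    iv (pp e k (n + 1)) * (1 + (e : P) * X ^ (k + n + 1)) = iv (pp e k n) := by
  have h1 := iv_pp e k n
  have h2 := iv_pp e k (n + 1)
  rw [pp_succ] at h2
  rw [pp_succ]
  apply mul_left_cancel₀ (ne0 (cc_pp e k n))
  linear_combination h2 - h1

theorem iv_pp_shift (e : ℤ) (k n : ℕ) :
    iv (pp e (k + 1) n) * (1 + (e : P) * X ^ (k + n + 1)) =
      (1 + (e : P) * X ^ (k + 1)) * iv (pp e k n) := by
  have h1 := iv_pp e k n
  have h2 := iv_pp e (k + 1) n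
  have h3 : pp e k n * (1 + (e : P) * X ^ (k + n + 1)) =
      (1 + (e : P) * X ^ (k + 1)) * pp e (k + 1) n := by rw [← pp_succ, pp_succ']
  apply mul_left_cancel₀ (ne0 (cc_pp e k n))
  apply mul_left_cancel₀ (ne0 (cc_pp e (k + 1) n))
  linear_combination (pp e (k + 1) n * iv (pp e (k + 1) n)) * h3 -
    (pp e (k + 1) n) * (1 + (e : P) * X ^ (k + 1)) * h1 +
    (1 + (e : P) * X ^ (k + 1)) * (pp e (k + 1) n) * h2

/-! ### first family -/

noncomputable def t (e : ℤ) (k n : ℕ) : P := (-1) ^ n * X ^ (2 * k * n + tr n) * iv (pp e k n)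

theorem t_dvd (e : ℤ) (k n : ℕ) : (X : P) ^ n ∣ t e k n := by
  unfold t
  have : (X : P) ^ n ∣ X ^ (2 * k * n + tr n) := pow_dvd_pow _ (by have := le_tr n; omega)
  exact (this.mul_left _).mul_right _

theorem t_succ (e : ℤ) (k n : ℕ) :
    t e k (n + 1) * (1 + (e : P) * X ^ (k + n + 1)) = -X ^ (2 * k + n + 1) * t e k n := by
  have h := iv_pp_succ e k n
  unfold t
  rw [show 2 * k * (n + 1) + tr (n + 1) = (2 * k * n + tr n) + (2 * k + n + 1) by rw [tr]; ring]
  rw [mul_assoc, h]
  ring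

theorem t_shift (e : ℤ) (k n : ℕ) :
    t e (k + 1) n * (1 + (e : P) * X ^ (k + n + 1)) =
      X ^ (2 * n) * (1 + (e : P) * X ^ (k + 1)) * t e k n := by
  have h := iv_pp_shift e k n
  unfold t
  rw [mul_assoc, h]
  ring

noncomputable def L (e : ℤ) (k : ℕ) : P := isum (t e k)

theorem hs_L (e : ℤ) (k : ℕ) : HS (t e k) (L e k) := hs_isum (t_dvd e k)

theorem L_rec (e : ℤ) (he : e * e = 1) (k : ℕ) :
    L e k = (1 - X ^ (2 * k + 1)) + ((e : P) * X ^ (3 * k + 2)) * L e (k + 1) := by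
  have h1 := (hs_L e k).sub ((hs_L e (k + 1)).mul ((e : P) * X ^ (3 * k + 2)))
  have he' : (e : P) * (e : P) = 1 := by rw [← Int.cast_mul, he, Int.cast_one]
  have h2 : HS (fun n => t e k n - (e : P) * X ^ (3 * k + 2) * t e (k + 1) n)
      ((fun n => t e k n * (1 - X ^ (2 * k + n + 1))) 0) := by
    refine HS.tele (W := fun n => t e k n * (1 - X ^ (2 * k + n + 1))) ?_ ?_
    · intro n
      have r1 := t_succ e k n
      have r2 := t_shift e k n
      apply mul_right_cancel₀ (ne0 (cc_f e (k + n)))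
      linear_combination (1 - X ^ (2 * k + n + 2)) * r1 - (e : P) * X ^ (3 * k + 2) * r2 -
        X ^ (4 * k + 2 * n + 3) * t e k n * he'
    · intro n
      exact (t_dvd e k n).mul_right _
  have h3 := h1.unique h2
  have h4 : t e k 0 = 1 := by
    have := iv_pp e k 0
    unfold t
    simp only [pp, prod_range_zero, one_mul] at this
    simp [tr, pp, this]
  beta_reduce at h3
  rw [h4] at h3
  linear_combination h3

theorem L_sum (e : ℤ) (he : e * e = 1) :
    HS (fun k => ((e : P) ^ k * X ^ pe k) * (1 - X ^ (2 * k + 1))) (L e 0) := by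
  apply HS.iter (L_rec e he)
  · simp [pe]
  · intro k
    rw [pe, pow_add]; ring
  · intro k
    exact (pow_dvd_pow (X : P) (le_pe k)).mul_left _

/-! ### Euler -/

noncomputable def u (k n : ℕ) : P := (-1) ^ n * X ^ (k * n + tr n) * iv (pp (-1) 0 n)

theorem u_dvd (k n : ℕ) : (X : P) ^ n ∣ u k n := by
  unfold u
  have : (X : P) ^ n ∣ X ^ (k * n + tr n) := pow_dvd_pow _ (by have := le_tr n; omega)
  exact (this.mul_left _).mul_right _

noncomputable def Eu (k : ℕ) : P := isum (u k)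

theorem hs_Eu (k : ℕ) : HS (u k) (Eu k) := hs_isum (u_dvd k)

theorem Eu_rec (k : ℕ) : Eu k = (1 - X ^ (k + 1)) * Eu (k + 1) := by
  have h1 := (hs_Eu k).sub ((hs_Eu (k + 1)).mul (1 - X ^ (k + 1)))
  have h2 : HS (fun n => u k n - (1 - X ^ (k + 1)) * u (k + 1) n)
      ((fun n => (1 - X ^ n) * u k n) 0) := by
    refine HS.tele (W := fun n => (1 - X ^ n) * u k n) ?_ ?_
    · intro n
      have r1 : u k (n + 1) * (1 - X ^ (n + 1)) = -X ^ (k + n + 1) * u k n := by
        have h := iv_pp_succ (-1) 0 n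
        unfold u
        rw [show k * (n + 1) + tr (n + 1) = (k * n + tr n) + (k + n + 1) by rw [tr]; ring]
        have e : (1 - X ^ (n + 1) : P) = 1 + ((-1 : ℤ) : P) * X ^ (0 + n + 1) := by
          push_cast; rw [zero_add]; ring
        rw [mul_assoc, e, h]
        ring
      have r2 : u (k + 1) n = X ^ n * u k n := by unfold u; ring
      rw [r2]
      linear_combination r1
    · intro n
      exact (u_dvd k n).mul_left _
  have h3 := h1.unique h2
  beta_reduce at h3
  rw [pow_zero, sub_self, zero_mul] at h3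
  linear_combination h3

theorem iv_one : iv (1 : P) = 1 := by
  have := mul_iv (f := (1 : P)) (by simp)
  rwa [one_mul] at this

theorem Eu_prod (N : ℕ) : Eu 0 = pp (-1) 0 N * Eu N := by
  induction N with
  | zero => simp [pp]
  | succ N ih =>
    rw [ih, pp_succ, Eu_rec N]
    push_cast
    rw [zero_add]
    ring

theorem Eu_near (N : ℕ) : (X : P) ^ N ∣ Eu N - 1 := by
  have h := (hs_Eu N).dvd' N (by
    intro i
    unfold u
    have : (X : P) ^ N ∣ X ^ (N * (i + 1) + tr (i + 1)) := pow_dvd_pow _ (by nlinarith)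
    exact (this.mul_left _).mul_right _)
  have e : u N 0 = 1 := by simp [u, tr, pp, iv_one]
  rwa [e] at h

theorem Eu_eq : Eu 0 = L (-1) 0 := by
  apply (hs_Eu 0).unique
  apply (hs_L (-1) 0).congr
  intro n
  unfold t u
  simp

end Q278.UR
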