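import Pool.Agent.Q278.UR

set_option autoImplicit false

/-! More lacunary expansions by telescoping. -/

namespace Q278.UR2

open PowerSeries Finset Q278.UQ Q278.UR

/-- products over odd steps: `(q^(k+1); q^2)_n` -/
noncomputable def oo (k n : ℕ) : P := ∏ i ∈ range n, (1 - X ^ (k + 2 * i + 1))

theorem cc_oo (k n : ℕ) : constantCoeff (oo k n) = 1 :=
  cc_prod n _ fun i _ => cc_sub' (k + 2 * i)

theorem oo_succ (k n : ℕ) : oo k (n + 1) = oo k n * (1 - X ^ (k + 2 * n + 1)) := by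
  unfold oo; rw [prod_range_succ]

theorem oo_succ' (k n : ℕ) : oo k (n + 1) = (1 - X ^ (k + 1)) * oo (k + 2) n := by
  unfold oo
  rw [prod_range_succ', mul_comm]
  congr 1
  apply prod_congr rfl
  intro i _
  congr 2
  ring

theorem iv_oo (k n : ℕ) : oo k n * iv (oo k n) = 1 := mul_iv (cc_oo k n)

theorem iv_oo_succ (k n : ℕ) :
    iv (oo k (n + 1)) * (1 - X ^ (k + 2 * n + 1)) = iv (oo k n) := by
  have h1 := iv_oo k n
  have h2 := iv_oo k (n + 1)
  rw [oo_succ] at h2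
  rw [oo_succ]
  apply mul_left_cancel₀ (ne0 (cc_oo k n))
  linear_combination h2 - h1

theorem oo_shift (k n : ℕ) :
    oo k n * (1 - X ^ (k + 2 * n + 1)) = (1 - X ^ (k + 1)) * oo (k + 2) n := by
  rw [← oo_succ, oo_succ']

theorem iv_oo_shift (k n : ℕ) :
    iv (oo (k + 2) n) * (1 - X ^ (k + 2 * n + 1)) =
      (1 - X ^ (k + 1)) * iv (oo k n) := by
  have h1 := iv_oo k n
  have h2 := iv_oo (k + 2) n
  have h3 := oo_shift k n
  apply mul_left_cancel₀ (ne0 (cc_oo k n))
  apply mul_left_cancel₀ (ne0 (cc_oo (k + 2) n))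
  linear_combination (oo (k + 2) n * iv (oo (k + 2) n)) * h3 -
    (oo (k + 2) n) * (1 - X ^ (k + 1)) * h1 +
    (1 - X ^ (k + 1)) * (oo (k + 2) n) * h2

/-! ### the series `ψ` -/

noncomputable def m (k n : ℕ) : P :=
  X ^ ((2 * k + 1) * n) * (oo (2 * k) n * iv (oo (2 * k + 1) n))

theorem m_dvd (k n : ℕ) : (X : P) ^ n ∣ m k n := by
  unfold m
  have : (X : P) ^ n ∣ X ^ ((2 * k + 1) * n) := pow_dvd_pow _ (by nlinarith)
  exact this.mul_right _

theorem m_succ (k n : ℕ) :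
    m k (n + 1) * (1 - X ^ (2 * k + 2 * n + 2)) =
      X ^ (2 * k + 1) * (1 - X ^ (2 * k + 2 * n + 1)) * m k n := by
  have h := iv_oo_succ (2 * k + 1) n
  unfold m
  rw [oo_succ]
  linear_combination X ^ ((2 * k + 1) * (n + 1)) * (oo (2 * k) n * (1 - X ^ (2 * k + 2 * n + 1))) * h

theorem m_shift (k n : ℕ) :
    m (k + 1) n * ((1 - X ^ (2 * k + 1)) * (1 - X ^ (2 * k + 2 * n + 2))) =
      X ^ (2 * n) * (1 - X ^ (2 * k + 2 * n + 1)) * (1 - X ^ (2 * k + 2)) * m k n := by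
  have h := iv_oo_shift (2 * k + 1) n
  have h2 := oo_shift (2 * k) n
  unfold m
  rw [show 2 * (k + 1) = 2 * k + 2 by ring, show 2 * k + 2 + 1 = 2 * k + 1 + 2 by ring]
  linear_combination X ^ ((2 * k + 1 + 2) * n) * (1 - X ^ (2 * k + 1)) * oo (2 * k + 2) n * h -
    X ^ ((2 * k + 1 + 2) * n) * (1 - X ^ (2 * k + 2)) * iv (oo (2 * k + 1) n) * h2

noncomputable def Ms (k : ℕ) : P := isum (m k)

theorem hs_M (k : ℕ) : HS (m k) (Ms k) := hs_isum (m_dvd k)

theorem M_rec (k : ℕ) : Ms k = (1 + X ^ (2 * k + 1)) + X ^ (4 * k + 3) * Ms (k + 1) := by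
  have h1 := ((hs_M k).sub ((hs_M (k + 1)).mul (X ^ (4 * k + 3)))).mul (1 - X ^ (2 * k + 1))
  have h2 : HS (fun n => (1 - X ^ (2 * k + 1)) * (m k n - X ^ (4 * k + 3) * m (k + 1) n))
      ((fun n => m k n * (1 - X ^ (4 * k + 2 * n + 2))) 0) := by
    refine HS.tele (W := fun n => m k n * (1 - X ^ (4 * k + 2 * n + 2))) ?_ ?_
    · intro n
      have r1 := m_succ k n
      have r2 := m_shift k n
      apply mul_right_cancel₀ (ne0 (cc_sub' (2 * k + 2 * n + 1)))
      linear_combination (1 - X ^ (4 * k + 2 * n + 4)) * r1 - X ^ (4 * k + 3) * r2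
    · intro n
      exact (m_dvd k n).mul_right _
  have h3 := h1.unique h2
  have h4 : m k 0 = 1 := by simp [m, oo, iv_one]
  beta_reduce at h3
  rw [h4] at h3
  apply mul_left_cancel₀ (ne0 (cc_sub' (2 * k)))
  linear_combination h3

theorem M_sum : HS (fun k => X ^ (2 * k * k + k) * (1 + X ^ (2 * k + 1))) (Ms 0) := by
  apply HS.iter M_rec
  · simp
  · intro k
    rw [← pow_add]; congr 1; ring
  · intro k
    exact pow_dvd_pow (X : P) (by nlinarith)

noncomputable def a (k n : ℕ) : P := X ^ ((2 * k + 1) * n) * (oo 0 n * iv (oo 1 n))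

theorem a_dvd (k n : ℕ) : (X : P) ^ n ∣ a k n := by
  unfold a
  have : (X : P) ^ n ∣ X ^ ((2 * k + 1) * n) := pow_dvd_pow _ (by nlinarith)
  exact this.mul_right _

theorem a_succ (k n : ℕ) :
    a k (n + 1) * (1 - X ^ (2 * n + 2)) = X ^ (2 * k + 1) * (1 - X ^ (2 * n + 1)) * a k n := by
  have h := iv_oo_succ 1 n
  unfold a
  rw [oo_succ]
  simp only [zero_add]
  linear_combination X ^ ((2 * k + 1) * (n + 1)) * (oo 0 n * (1 - X ^ (2 * n + 1))) * h

theorem a_shift (k n : ℕ) : a (k + 1) n = X ^ (2 * n) * a k n := by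
  unfold a; ring

noncomputable def As (k : ℕ) : P := isum (a k)

theorem hs_A (k : ℕ) : HS (a k) (As k) := hs_isum (a_dvd k)

theorem A_rec (k : ℕ) : (1 - X ^ (2 * k + 1)) * As k = (1 - X ^ (2 * k + 2)) * As (k + 1) := by
  have h1 := ((hs_A k).mul (1 - X ^ (2 * k + 1))).sub ((hs_A (k + 1)).mul (1 - X ^ (2 * k + 2)))
  have h2 : HS (fun n => (1 - X ^ (2 * k + 1)) * a k n - (1 - X ^ (2 * k + 2)) * a (k + 1) n)
      ((fun n => (1 - X ^ (2 * n)) * a k n) 0) := by
    refine HS.tele (W := fun n => (1 - X ^ (2 * n)) * a k n) ?_ ?_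
    · intro n
      have r1 := a_succ k n
      have r2 := a_shift k n
      rw [r2]
      linear_combination r1
    · intro n
      exact (a_dvd k n).mul_left _
  have h3 := h1.unique h2
  beta_reduce at h3
  rw [mul_zero, pow_zero, sub_self, zero_mul] at h3
  linear_combination h3

theorem A_near (N : ℕ) : (X : P) ^ N ∣ As N - 1 := by
  have h := (hs_A N).dvd' N (by
    intro i
    unfold a
    have : (X : P) ^ N ∣ X ^ ((2 * N + 1) * (i + 1)) := pow_dvd_pow _ (by nlinarith)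
    exact this.mul_right _)
  have e : a N 0 = 1 := by simp [a, oo, iv_one]
  rwa [e] at h

theorem A_prod (N : ℕ) : As 0 * oo 0 N = oo 1 N * As N := by
  induction N with
  | zero => simp [oo]
  | succ N ih =>
    rw [oo_succ, oo_succ]
    have h := A_rec N
    rw [zero_add]
    linear_combination (1 - X ^ (2 * N + 1)) * ih + oo 1 N * h

theorem A_eq_M : As 0 = Ms 0 := by
  apply (hs_A 0).unique
  apply (hs_M 0).congr
  intro n
  unfold a m
  simp

/-! ### the series `Φ` -/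

noncomputable def f (k n : ℕ) : P :=
  (-1) ^ n * X ^ (2 * k * n + (n * n + n)) * (oo 0 n * iv (pp 1 k (2 * n + 1)))

theorem f_dvd (k n : ℕ) : (X : P) ^ n ∣ f k n := by
  unfold f
  have : (X : P) ^ n ∣ X ^ (2 * k * n + (n * n + n)) := pow_dvd_pow _ (by nlinarith)
  exact (this.mul_left _).mul_right _

theorem iv_pp_succ2 (k n : ℕ) :
    iv (pp 1 k (2 * (n + 1) + 1)) * ((1 + X ^ (k + 2 * n + 2)) * (1 + X ^ (k + 2 * n + 3))) =
      iv (pp 1 k (2 * n + 1)) := by
  have h1 := iv_pp_succ 1 k (2 * n + 1)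
  have h2 := iv_pp_succ 1 k (2 * n + 2)
  rw [show 2 * (n + 1) + 1 = 2 * n + 2 + 1 by ring]
  push_cast at h1 h2
  linear_combination (1 + X ^ (k + 2 * n + 2)) * h2 + h1

theorem f_succ (k n : ℕ) :
    f k (n + 1) * ((1 + X ^ (k + 2 * n + 2)) * (1 + X ^ (k + 2 * n + 3))) =
      -X ^ (2 * k + 2 * n + 2) * (1 - X ^ (2 * n + 1)) * f k n := by
  have h := iv_pp_succ2 k n
  unfold f
  rw [oo_succ, zero_add]
  linear_combination (-1) ^ (n + 1) * X ^ (2 * k * (n + 1) + ((n + 1) * (n + 1) + (n + 1))) *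
    (oo 0 n * (1 - X ^ (2 * n + 1))) * h

theorem f_shift (k n : ℕ) :
    f (k + 1) n * (1 + X ^ (k + 2 * n + 2)) = X ^ (2 * n) * (1 + X ^ (k + 1)) * f k n := by
  have h := iv_pp_shift 1 k (2 * n + 1)
  push_cast at h
  unfold f
  linear_combination (-1) ^ n * X ^ (2 * (k + 1) * n + (n * n + n)) * oo 0 n * h

noncomputable def Fs (k : ℕ) : P := isum (f k)

theorem hs_F (k : ℕ) : HS (f k) (Fs k) := hs_isum (f_dvd k)

theorem F_rec (k : ℕ) : Fs k = 1 + (-X ^ (k + 1)) * Fs (k + 1) := by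
  have h1 := (hs_F k).add ((hs_F (k + 1)).mul (X ^ (k + 1)))
  have h2 : HS (fun n => f k n + X ^ (k + 1) * f (k + 1) n)
      ((fun n => (1 + X ^ (k + 2 * n + 1)) * f k n) 0) := by
    refine HS.tele (W := fun n => (1 + X ^ (k + 2 * n + 1)) * f k n) ?_ ?_
    · intro n
      have r1 := f_succ k n
      have r2 := f_shift k n
      apply mul_right_cancel₀ (ne0 (cc_add' (k + 2 * n + 1)))
      linear_combination r1 + X ^ (k + 1) * r2
    · intro n
      exact (f_dvd k n).mul_left _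
  have h3 := h1.unique h2
  have h4 : (1 + X ^ (k + 1)) * f k 0 = 1 := by
    have := iv_pp_succ 1 k 0
    push_cast at this
    unfold f
    simp only [oo, prod_range_zero, one_mul, mul_zero, pow_zero, zero_add, add_zero] at this ⊢
    rw [mul_comm, this]
    simp [pp, iv_one]
  beta_reduce at h3
  rw [show k + 2 * 0 + 1 = k + 1 by ring, h4] at h3
  linear_combination h3

theorem F_sum : HS (fun k => ((-1) ^ k * X ^ tr k) * 1) (Fs 0) := by
  apply HS.iter F_rec
  · simp [tr]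
  · intro k
    rw [tr, pow_add]; ring
  · intro k
    exact (pow_dvd_pow (X : P) (le_tr k)).mul_left _

end Q278.UR2
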