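import Pool.Agent.Q278.UR2

set_option autoImplicit false

/-! The three-term relation. -/

namespace Q278.UR3

open PowerSeries Finset Q278.UQ Q278.UR Q278.UR2

noncomputable def v (z : P) (j : ℕ) : P :=
  (-1) ^ j * X ^ (j * j + j) * ((∏ i ∈ range j, (z - X ^ (2 * i + 1))) * iv (pp 1 0 (2 * j + 1)))

theorem v_dvd (z : P) (j : ℕ) : (X : P) ^ j ∣ v z j := by
  unfold v
  have : (X : P) ^ j ∣ X ^ (j * j + j) := pow_dvd_pow _ (by nlinarith)
  exact (this.mul_left _).mul_right _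

theorem v_succ (z : P) (j : ℕ) :
    v z (j + 1) * ((1 + X ^ (2 * j + 2)) * (1 + X ^ (2 * j + 3))) =
      -X ^ (2 * j + 2) * (z - X ^ (2 * j + 1)) * v z j := by
  have h := iv_pp_succ2 0 j
  simp only [zero_add] at h
  unfold v
  rw [prod_range_succ]
  linear_combination (-1) ^ (j + 1) * X ^ ((j + 1) * (j + 1) + (j + 1)) *
    ((∏ i ∈ range j, (z - X ^ (2 * i + 1))) * (z - X ^ (2 * j + 1))) * h

theorem prod_shift (z : P) (j : ℕ) :
    ∏ i ∈ range (j + 1), (z * X ^ 2 - X ^ (2 * i + 1)) =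
      -X * (1 - z * X) * (X ^ (2 * j) * ∏ i ∈ range j, (z - X ^ (2 * i + 1))) := by
  rw [prod_range_succ']
  have : ∏ i ∈ range j, (z * X ^ 2 - X ^ (2 * (i + 1) + 1)) =
      X ^ (2 * j) * ∏ i ∈ range j, (z - X ^ (2 * i + 1)) := by
    have h1 : ∀ i, z * X ^ 2 - X ^ (2 * (i + 1) + 1) = X ^ 2 * (z - X ^ (2 * i + 1)) := by
      intro i; ring
    simp only [h1]
    rw [prod_mul_distrib, prod_const, card_range, ← pow_mul]
  rw [this]
  ring

theorem v_shift (z : P) (j : ℕ) :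
    v (z * X ^ 2) (j + 1) * ((1 + X ^ (2 * j + 2)) * (1 + X ^ (2 * j + 3))) =
      X ^ (4 * j + 3) * (1 - z * X) * v z j := by
  have h := iv_pp_succ2 0 j
  simp only [zero_add] at h
  unfold v
  rw [prod_shift]
  linear_combination (-1) ^ (j + 1) * X ^ ((j + 1) * (j + 1) + (j + 1)) *
    (-X * (1 - z * X) * (X ^ (2 * j) * ∏ i ∈ range j, (z - X ^ (2 * i + 1)))) * h

noncomputable def V (z : P) : P := isum (v z)

theorem hs_V (z : P) : HS (v z) (V z) := hs_isum (v_dvd z)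

theorem v_zero (z : P) : (1 + X) * v z 0 = 1 := by
  have := iv_pp_succ 1 0 0
  push_cast at this
  unfold v
  simp only [prod_range_zero, one_mul, mul_zero, pow_zero, zero_add, add_zero] at this ⊢
  rw [pow_one] at this
  rw [mul_comm, this]
  simp [pp, iv_one]

theorem V_rec (z : P) :
    (1 + z * X) * (1 + z * X ^ 2) * V (z * X ^ 2) - (1 - z * X) * V z = 2 * z * X := by
  have h1 := ((hs_V (z * X ^ 2)).mul ((1 + z * X) * (1 + z * X ^ 2))).sub
    ((hs_V z).mul (1 - z * X))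
  have h2 : HS (fun n => (1 + z * X) * (1 + z * X ^ 2) * v (z * X ^ 2) n - (1 - z * X) * v z n)
      ((fun n => (1 + z * X) * (1 + z * X ^ 2) * v (z * X ^ 2) n -
        (1 - z * X) * (1 - X ^ (2 * n + 2) * z) * v z n) 0) := by
    refine HS.tele (W := fun n => (1 + z * X) * (1 + z * X ^ 2) * v (z * X ^ 2) n -
        (1 - z * X) * (1 - X ^ (2 * n + 2) * z) * v z n) ?_ ?_
    · intro n
      have r1 := v_succ z n
      have r2 := v_shift z n
      apply mul_right_cancel₀ (ne0 (cc_add' (2 * n + 1)))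
      apply mul_right_cancel₀ (ne0 (cc_add' (2 * n + 2)))
      linear_combination (1 + z * X) * (1 + z * X ^ 2) * r2 -
        (1 - z * X) * (1 - X ^ (2 * n + 4) * z) * r1
    · intro n
      exact dvd_sub ((v_dvd _ n).mul_left _) ((v_dvd _ n).mul_left _)
  have h3 := h1.unique h2
  have h4 := v_zero z
  have h5 := v_zero (z * X ^ 2)
  beta_reduce at h3
  rw [h3]
  apply mul_left_cancel₀ (ne0 (f := (1 + X : P)) (by simp))
  simp only [mul_zero, zero_add]
  linear_combination (1 + z * X) * (1 + z * X ^ 2) * h5 - (1 - z * X) * (1 - X ^ 2 * z) * h4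

theorem V_one : V 1 = Fs 0 := by
  apply (hs_V 1).unique
  apply (hs_F 0).congr
  intro n
  unfold f v oo
  simp

theorem V_zero : V 0 = L 1 0 := by
  apply (hs_V 0).unique
  apply ((hs_L 1 0).pair).congr
  intro j
  have h : (∏ i ∈ range j, ((0 : P) - X ^ (2 * i + 1))) = (-1) ^ j * X ^ (j * j) := by
    induction j with
    | zero => simp
    | succ j ih => rw [prod_range_succ, ih]; ring
  unfold v t
  rw [h]
  have h1 := iv_pp_succ 1 0 (2 * j)
  have e1 : tr (2 * j + 1) = tr (2 * j) + (2 * j + 1) := rfl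
  have e2 : tr (2 * j) = j * j + j + j * j := by
    have := two_tr (2 * j)
    nlinarith
  have e3 : ((-1 : P)) ^ (2 * j) = 1 := by rw [pow_mul]; norm_num
  have e4 : ((-1 : P)) ^ j * (-1) ^ j = 1 := by rw [← mul_pow]; norm_num
  rw [e1, e2, pow_succ (-1 : P) (2 * j), e3]
  push_cast at h1
  rw [← h1]
  linear_combination (-(X ^ (j * j + j + j * j)) * iv (pp 1 0 (2 * j + 1))) * e4

theorem prod_near (z : P) (j : ℕ) :
    z ∣ ∏ i ∈ range j, (z - X ^ (2 * i + 1)) - ∏ i ∈ range j, (0 - X ^ (2 * i + 1)) := by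
  induction j with
  | zero => simp
  | succ j ih =>
    rw [prod_range_succ, prod_range_succ]
    have e : (∏ i ∈ range j, (z - X ^ (2 * i + 1))) * (z - X ^ (2 * j + 1)) -
      (∏ i ∈ range j, ((0 : P) - X ^ (2 * i + 1))) * (0 - X ^ (2 * j + 1)) =
      (∏ i ∈ range j, (z - X ^ (2 * i + 1))) * z +
      (∏ i ∈ range j, (z - X ^ (2 * i + 1)) - ∏ i ∈ range j, (0 - X ^ (2 * i + 1))) *
        (0 - X ^ (2 * j + 1)) := by ring
    rw [e]
    exact dvd_add (Dvd.intro_left _ rfl) (ih.mul_right _)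

theorem V_near (N : ℕ) : (X : P) ^ N ∣ V (X ^ (2 * N)) - V 0 := by
  apply ((hs_V (X ^ (2 * N))).sub (hs_V 0)).dvd
  intro i
  have h := prod_near (X ^ (2 * N)) i
  have h2 : (X : P) ^ N ∣ X ^ (2 * N) := pow_dvd_pow _ (by omega)
  unfold v
  rw [← mul_sub, ← sub_mul]
  exact ((h2.trans h).mul_right _).mul_left _

/-! ### the function `T_o` -/

/-- the terms of `T_o` -/
noncomputable def T (m : ℕ) : P :=
  X ^ (2 * m) * (∏ j ∈ range (2 * m), (1 + X ^ (j + 1))) *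
    iv (∏ j ∈ range (m + 1), (1 - X ^ (2 * j + 1)))

theorem T_dvd (m : ℕ) : (X : P) ^ m ∣ T m := by
  unfold T
  have : (X : P) ^ m ∣ X ^ (2 * m) := pow_dvd_pow _ (by omega)
  exact (this.mul_right _).mul_right _

noncomputable def To : P := isum T

theorem hs_T : HS T To := hs_isum T_dvd

theorem oo_eq (m : ℕ) : ∏ j ∈ range m, (1 - X ^ (2 * j + 1) : P) = oo 0 m := by
  unfold oo
  simp

theorem pp_eq (m : ℕ) : ∏ j ∈ range m, (1 + X ^ (j + 1) : P) = pp 1 0 m := by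
  unfold pp
  simp

theorem T_part (N : ℕ) : 2 * X * ∑ m ∈ range N, T m =
    pp 1 0 (2 * N) * iv (oo 0 N) * V (X ^ (2 * N)) - V 1 := by
  induction N with
  | zero => simp [pp, oo, iv_one]
  | succ N ih =>
    rw [sum_range_succ, mul_add, ih, T, oo_eq, pp_eq]
    have h := V_rec (X ^ (2 * N))
    have h1 := iv_oo_succ 0 N
    rw [show 2 * (N + 1) = 2 * N + 1 + 1 by ring, pp_succ, pp_succ, ← h1]
    push_cast
    rw [show (X : P) ^ (2 * N + 1 + 1) = X ^ (2 * N) * X ^ 2 by ring]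
    simp only [zero_add]
    linear_combination (-(pp 1 0 (2 * N)) * iv (oo 0 (N + 1))) * h

/-- Euler's product -/
theorem E_fin (N : ℕ) : (X : P) ^ N ∣ Eu 0 * (pp 1 0 (2 * N) * iv (oo 0 N)) - Ms 0 := by
  have h1 := Eu_prod (2 * N)
  have h2 := A_prod N
  rw [A_eq_M] at h2
  have h3 := Eu_near (2 * N)
  have h4 := A_near N
  have h5 := iv_oo 0 N
  have h6 : pp (-1) 0 (2 * N) * pp 1 0 (2 * N) = oo 1 (2 * N) := by
    unfold pp oo
    rw [← prod_mul_distrib]
    apply prod_congr rfl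
    intro i _
    push_cast
    ring
  -- the odd products stabilise
  have h7 : ∀ M, (X : P) ^ N ∣ oo 1 (N + M) - oo 1 N := by
    intro M
    induction M with
    | zero => simp
    | succ M ih =>
      rw [← add_assoc, oo_succ]
      have e : oo 1 (N + M) * (1 - X ^ (1 + 2 * (N + M) + 1)) - oo 1 N =
        (oo 1 (N + M) - oo 1 N) - oo 1 (N + M) * X ^ (1 + 2 * (N + M) + 1) := by ring
      rw [e]
      exact dvd_sub ih ((pow_dvd_pow (X : P) (by omega)).mul_left _)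
  have h8 := h7 N
  rw [← two_mul] at h8
  have h3' : (X : P) ^ N ∣ Eu (2 * N) - 1 := (pow_dvd_pow (X : P) (by omega)).trans h3
  obtain ⟨a3, h3'⟩ := h3'
  obtain ⟨a4, h4⟩ := h4
  obtain ⟨a8, h8⟩ := h8
  rw [h1]
  refine ⟨oo 1 (2 * N) * iv (oo 0 N) * a3 + iv (oo 0 N) * a8 - oo 1 N * iv (oo 0 N) * a4, ?_⟩
  linear_combination (Eu (2 * N) * iv (oo 0 N)) * h6 + (oo 1 (2 * N) * iv (oo 0 N)) * h3' +
    iv (oo 0 N) * h8 - (oo 1 N * iv (oo 0 N)) * h4 + Ms 0 * h5 - iv (oo 0 N) * h2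

/-- the product formula -/
theorem main : 2 * X * (Eu 0 * To) = Ms 0 * L 1 0 - L (-1) 0 * Fs 0 := by
  rw [← V_one, ← V_zero, ← Eu_eq]
  apply eq_of_dvd
  intro N
  obtain ⟨a1, h1⟩ := hs_T N
  obtain ⟨a2, h2⟩ := E_fin N
  obtain ⟨a3, h3⟩ := V_near N
  have h4 := T_part N
  refine ⟨2 * X * Eu 0 * a1 + V (X ^ (2 * N)) * a2 + Ms 0 * a3, ?_⟩
  linear_combination (2 * X * Eu 0) * h1 + V (X ^ (2 * N)) * h2 + Ms 0 * h3 + Eu 0 * h4

end Q278.UR3
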