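import Pool.Agent.Q278.QDel

set_option autoImplicit false

/-! Exact identities for the truncated sums
`∑ (q;q)_{2k} / (q;q)_k^2 * q^k / (-q;q)_k` and `∑ Q^k (A;Q)_k (Q/A;Q)_k / (Q;Q)_k^2`. -/

namespace Q278.VA

open Finset Q278.QDel

variable {K : Type*} [Field K]

/-- the product `(a;Q)_k` -/
def po (Q a : K) (k : ℕ) : K := ∏ i ∈ range k, (1 - a * Q ^ i)

theorem po_zero (Q a : K) : po Q a 0 = 1 := by simp [po]

theorem po_succ (Q a : K) (k : ℕ) : po Q a (k + 1) = po Q a k * (1 - a * Q ^ k) := by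
  unfold po; rw [prod_range_succ]

theorem po_succ' (Q a : K) (k : ℕ) : po Q a (k + 1) = (1 - a) * po Q (a * Q) k := by
  unfold po
  rw [prod_range_succ', pow_zero, mul_one, mul_comm]
  congr 1
  apply prod_congr rfl
  intro i _
  rw [pow_succ]
  ring

/-- The Rogers–Szegő polynomial. -/
def rs (Q x : K) (k : ℕ) : K := ∑ i ∈ range (k + 1), gb Q k i * x ^ i

section szego

variable {Q : K} (hQ : ∀ i, 0 < i → 1 - Q ^ i ≠ 0)
include hQ

theorem gb_three (k i : ℕ) : gb Q (k + 2) (i + 1) = gb Q (k + 1) i + gb Q (k + 1) (i + 1) -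
    (1 - Q ^ (k + 1)) * gb Q k i := by
  have h1 := pascal1 hQ (k + 1) i
  have h2 := gb_shift hQ k i
  rw [h1]
  linear_combination -h2

theorem rs_rec (x : K) (k : ℕ) : rs Q x (k + 2) = (1 + x) * rs Q x (k + 1) -
    (1 - Q ^ (k + 1)) * x * rs Q x k := by
  have a1 : rs Q x (k + 1) = ∑ i ∈ range (k + 2), gb Q (k + 1) (i + 1) * x ^ (i + 1) + 1 := by
    rw [sum_range_succ _ (k + 1), gb_lt Q (show k + 1 < k + 1 + 1 by omega), zero_mul, add_zero]
    unfold rs
    rw [sum_range_succ', gb_zero, pow_zero, mul_one]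
  have a2 : rs Q x k = ∑ i ∈ range (k + 2), gb Q k i * x ^ i := by
    unfold rs
    rw [sum_range_succ _ (k + 1), gb_lt Q (show k < k + 1 by omega), zero_mul, add_zero]
  have a3 : rs Q x (k + 1) = ∑ i ∈ range (k + 2), gb Q (k + 1) i * x ^ i := rfl
  have e : (1 + x) * rs Q x (k + 1) = rs Q x (k + 1) + x * rs Q x (k + 1) := by ring
  rw [e]
  nth_rewrite 1 [a1]
  rw [a3, a2]
  unfold rs
  rw [sum_range_succ', gb_zero, pow_zero, mul_one, mul_sum, mul_sum]
  have : ∑ i ∈ range (k + 2), gb Q (k + 2) (i + 1) * x ^ (i + 1) =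
      ∑ i ∈ range (k + 2), gb Q (k + 1) (i + 1) * x ^ (i + 1) +
      ∑ i ∈ range (k + 2), x * (gb Q (k + 1) i * x ^ i) -
      ∑ i ∈ range (k + 2), (1 - Q ^ (k + 1)) * x * (gb Q k i * x ^ i) := by
    rw [← sum_add_distrib, ← sum_sub_distrib]
    apply sum_congr rfl
    intro i _
    rw [gb_three hQ]
    ring
  rw [this]
  ring

end szego

section L

variable {q : K} (h0 : q ≠ 0) (hq : ∀ i, 0 < i → 1 - q ^ i ≠ 0)
include hq

theorem hq2 : ∀ i, 0 < i → 1 - (q ^ 2) ^ i ≠ 0 := by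
  intro i hi
  rw [← pow_mul]
  exact hq _ (by omega)

theorem poQ_ne (k : ℕ) : po (q ^ 2) (q ^ 2) k ≠ 0 := by
  apply prod_ne_zero_iff.2
  intro i _
  have := hq2 hq (i + 1) (Nat.succ_pos i)
  rwa [pow_succ, mul_comm] at this

include h0

theorem gauss (k : ℕ) : rs (q ^ 2) q⁻¹ k = q⁻¹ ^ k * ∏ j ∈ range k, (1 + q ^ (j + 1)) := by
  induction k using Nat.strong_induction_on with
  | _ k ih =>
    rcases k with _ | _ | k
    · simp [rs, gb_zero]
    · have hQ := hq2 hq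
      simp only [zero_add]
      unfold rs
      rw [sum_range_succ, sum_range_one, gb_zero, gb_self hQ, prod_range_one]
      simp only [pow_zero, pow_one, zero_add]
      field_simp
      ring
    · rw [rs_rec (hq2 hq), ih (k + 1) (by omega), ih k (by omega), prod_range_succ _ (k + 1),
        prod_range_succ _ k]
      generalize ∏ j ∈ range k, (1 + q ^ (j + 1)) = P
      rw [inv_pow, inv_pow, inv_pow, ← pow_mul]
      have e : q ^ (2 * (k + 1)) = q ^ k * q ^ k * q ^ 2 := by ring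
      rw [e]
      have : q ^ k ≠ 0 := pow_ne_zero _ h0
      rw [show k + 1 + 1 = k + 2 by ring]
      rw [pow_succ q k, pow_add q k 2]
      field_simp
      ring

omit h0 hq in
theorem po_two (k : ℕ) : po q q (2 * k) = po (q ^ 2) q k * po (q ^ 2) (q ^ 2) k := by
  induction k with
  | zero => simp [po_zero]
  | succ k ih =>
    rw [show 2 * (k + 1) = 2 * k + 1 + 1 by ring, po_succ, po_succ, ih, po_succ, po_succ]
    ring

omit h0 hq in
theorem po_sq (k : ℕ) : po (q ^ 2) (q ^ 2) k = po q q k * po q (-q) k := by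
  unfold po
  rw [← prod_mul_distrib]
  apply prod_congr rfl
  intro i _
  ring

omit h0 hq in
theorem po_neg (k : ℕ) : po q (-q) k = ∏ j ∈ range k, (1 + q ^ (j + 1)) := by
  unfold po
  apply prod_congr rfl
  intro i _
  ring

omit h0 in
/-- the `k`-th term of `L_n` -/
theorem term_eq (k : ℕ) : po q q (2 * k) / (po q q k) ^ 2 * (q ^ k / po q (-q) k) =
    po (q ^ 2) q k / po (q ^ 2) (q ^ 2) k * (q ^ k * ∏ j ∈ range k, (1 + q ^ (j + 1))) := by
  have h1 := poQ_ne hq k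
  have h2 := h1
  rw [po_sq] at h2
  have h3 := left_ne_zero_of_mul h2
  have h4 := right_ne_zero_of_mul h2
  rw [po_two, ← po_neg, po_sq]
  field_simp

/-- summands of the closed form -/
def fL (q : K) (N i : ℕ) : K := po (q ^ 2) q (N + 1) * gb (q ^ 2) N i * q ^ i /
  (po (q ^ 2) (q ^ 2) N * (1 - q ^ (2 * i + 1)))

theorem fL_step {N i : ℕ} (hi : i ≤ N + 1) : fL q (N + 1) i = fL q N i +
    (q ^ 2) ^ (N + 1) * po (q ^ 2) q (N + 1) / po (q ^ 2) (q ^ 2) (N + 1) *
      (gb (q ^ 2) (N + 1) i * q⁻¹ ^ i) := by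
  have hQ := hq2 hq
  have h1 := gb_step hQ (N + 1) i
  have h2 := gb_shift hQ N i
  have h3 : (1 - (q ^ 2) ^ (N + 1)) * gb (q ^ 2) N i =
      gb (q ^ 2) (N + 1) i * (1 - (q ^ 2) ^ (N + 1 - i)) := by rw [← h2, h1]
  unfold fL
  rw [po_succ _ _ (N + 1), po_succ _ _ N]
  have a1 := poQ_ne hq N
  have a2 : 1 - q ^ 2 * (q ^ 2) ^ N ≠ 0 := by
    have := hQ (N + 1) (Nat.succ_pos N)
    rwa [pow_succ, mul_comm] at this
  have a3 := hq (2 * i + 1) (Nat.succ_pos _)
  have a4 : q ^ i ≠ 0 := pow_ne_zero _ h0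
  rw [po_succ (q ^ 2) (q ^ 2) N]
  have h3' : gb (q ^ 2) N i = gb (q ^ 2) (N + 1) i * (1 - (q ^ 2) ^ (N + 1 - i)) /
      (1 - q ^ 2 * (q ^ 2) ^ N) := by
    rw [eq_div_iff a2, ← h3, pow_succ (q ^ 2) N]; ring
  rw [h3']
  have e1 : (q ^ 2) ^ (N + 1) = (q ^ 2) ^ (N + 1 - i) * (q ^ i) ^ 2 := by
    rw [← pow_mul, ← pow_mul, ← pow_mul, ← pow_add]; congr 1; omega
  have e2 : q ^ (2 * i + 1) = (q ^ i) ^ 2 * q := by rw [← pow_mul]; ring
  rw [e2] at a3 ⊢
  rw [inv_pow, e1]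
  generalize 1 - q ^ 2 * (q ^ 2) ^ N = d at *
  generalize (q ^ 2) ^ (N + 1 - i) = y at *
  generalize q ^ i = z at *
  generalize gb (q ^ 2) (N + 1) i = G at *
  generalize po (q ^ 2) (q ^ 2) N = D at *
  generalize po (q ^ 2) q N * (1 - q * (q ^ 2) ^ N) = X at *
  have a5 : 1 - q * z ^ 2 ≠ 0 := by rwa [mul_comm]
  field_simp
  ring

/-- The closed form of the sum `L_n` with `n = N + 1`. -/
theorem L_closed (N : ℕ) : ∑ k ∈ range (N + 1), po q q (2 * k) / (po q q k) ^ 2 *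
    (q ^ k / po q (-q) k) = ∑ i ∈ range (N + 1), fL q N i := by
  induction N with
  | zero =>
    have := hq 1 one_pos
    simp only [zero_add, sum_range_one]
    unfold fL
    rw [zero_add, po_succ]
    simp only [po_zero, gb_zero, mul_zero, pow_zero, pow_one, zero_add, mul_one, one_mul] at *
    field_simp
  | succ N ih =>
    rw [sum_range_succ, ih, term_eq hq, sum_congr rfl (fun i hi => fL_step h0 hq
      (Nat.lt_succ_iff.1 (mem_range.1 hi))), sum_add_distrib, ← mul_sum]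
    have e1 : ∑ i ∈ range (N + 1 + 1), gb (q ^ 2) (N + 1) i * q⁻¹ ^ i =
        q⁻¹ ^ (N + 1) * ∏ j ∈ range (N + 1), (1 + q ^ (j + 1)) := gauss h0 hq (N + 1)
    rw [e1, sum_range_succ _ (N + 1)]
    have e2 : fL q N (N + 1) = 0 := by
      unfold fL
      rw [gb_lt _ (Nat.lt_succ_self N)]
      ring
    rw [e2, add_zero]
    congr 1
    have h1 := poQ_ne hq (N + 1)
    have h2 : q ^ (N + 1) ≠ 0 := pow_ne_zero _ h0
    rw [← pow_mul, mul_comm 2, pow_mul, inv_pow]
    field_simp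

end L

section T

/-- a summand of `T` -/
def tt (Q A : K) (k : ℕ) : K := Q ^ k * po Q A k * po Q (Q / A) k / po Q Q k ^ 2

/-- the truncated sum -/
def T (Q A : K) (n : ℕ) : K := ∑ k ∈ range n, tt Q A k

/-- the inhomogeneous term -/
def EE (Q A : K) (m : ℕ) : K := (1 + A) * po Q (A * Q) m * po Q (Q / A) m / po Q Q m ^ 2

theorem T_symm {Q A : K} (hQ : Q ≠ 0) (n : ℕ) : T Q (Q / A) n = T Q A n := by
  unfold T tt
  apply sum_congr rfl
  intro k _
  rw [div_div_cancel₀ hQ]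
  ring

theorem T_func {Q A : K} (hQ0 : Q ≠ 0) (hQ : ∀ k, po Q Q k ≠ 0) (hA : A ≠ 0) (m : ℕ) :
    T Q (A * Q) (m + 1) + A * T Q A (m + 1) = EE Q A m := by
  have e0 : Q / (A * Q) = 1 / A := by field_simp
  induction m with
  | zero =>
    unfold T EE tt
    simp [po_zero]
  | succ m ih =>
    have e1 : T Q (A * Q) (m + 1 + 1) + A * T Q A (m + 1 + 1) = EE Q A m +
        (tt Q (A * Q) (m + 1) + A * tt Q A (m + 1)) := by
      rw [← ih]
      unfold T
      rw [sum_range_succ _ (m + 1), sum_range_succ _ (m + 1)]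
      ring
    rw [e1]
    unfold EE tt
    rw [e0]
    have h1 := hQ m
    have h2 := hQ (m + 1)
    rw [po_succ] at h2
    have h3 := right_ne_zero_of_mul h2
    have a1 : po Q (1 / A) (m + 1) = (1 - 1 / A) * po Q (Q / A) m := by
      rw [po_succ']; congr 2; ring
    have a2 : po Q A (m + 1) = (1 - A) * po Q (A * Q) m := po_succ' _ _ _
    rw [a1, a2, po_succ Q (A * Q) m, po_succ Q (Q / A) m, po_succ Q Q m, pow_succ Q m]
    generalize po Q (A * Q) m = X
    generalize po Q (Q / A) m = Y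
    generalize po Q Q m = Z at *
    generalize Q ^ m = z at *
    have h4 : z * Q = 1 - (1 - Q * z) := by ring
    rw [h4, show A * Q * z = A * (z * Q) by ring, show Q / A * z = (z * Q) / A by ring, h4]
    generalize 1 - Q * z = d at *
    field_simp
    ring

theorem T_one {Q : K} (m : ℕ) : T Q 1 (m + 1) = 1 := by
  unfold T tt
  rw [sum_range_succ']
  simp only [po_zero, pow_zero, one_pow, div_one, mul_one]
  rw [sum_eq_zero, zero_add]
  intro k _
  rw [po_succ', sub_self]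
  ring

/-- The sign and power in the iteration. -/
def ka (q b : K) (i : ℕ) : K := (-1) ^ i * q⁻¹ ^ (i ^ 2) * b⁻¹ ^ i

theorem ka_succ {q b : K} (h0 : q ≠ 0) (hb : b ≠ 0) (i : ℕ) :
    ka q b (i + 1) * (b * q ^ (2 * i + 1)) = -ka q b i := by
  unfold ka
  have e : (i + 1) ^ 2 = i ^ 2 + (2 * i + 1) := by ring
  rw [e, pow_add q⁻¹, inv_pow q (2 * i + 1), pow_succ b⁻¹ i, pow_succ (-1 : K) i]
  have h1 : q ^ (2 * i + 1) ≠ 0 := pow_ne_zero _ h0
  field_simp

theorem T_iter {q b : K} (h0 : q ≠ 0) (hb : b ≠ 0) (hQ : ∀ k, po (q ^ 2) (q ^ 2) k ≠ 0)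
    (m i : ℕ) : ka q b i * T (q ^ 2) (b * q ^ (2 * i + 1)) (m + 1) =
      T (q ^ 2) (b * q) (m + 1) +
        ∑ j ∈ range i, ka q b (j + 1) * EE (q ^ 2) (b * q ^ (2 * j + 1)) m := by
  induction i with
  | zero => simp [ka]
  | succ i ih =>
    rw [sum_range_succ, ← add_assoc, ← ih]
    have h1 := T_func (pow_ne_zero 2 h0) hQ (A := b * q ^ (2 * i + 1))
      (mul_ne_zero hb (pow_ne_zero _ h0)) m
    have h2 := ka_succ h0 hb i
    have e : b * q ^ (2 * i + 1) * q ^ 2 = b * q ^ (2 * (i + 1) + 1) := by ring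
    rw [e] at h1
    rw [← h1]
    linear_combination (-(T (q ^ 2) (b * q ^ (2 * i + 1)) (m + 1))) * h2

theorem po_zero_of {Q a : K} {k j : ℕ} (hj : j < k) (h : a * Q ^ j = 1) : po Q a k = 0 := by
  unfold po
  exact prod_eq_zero (mem_range.2 hj) (by rw [h, sub_self])

theorem T_pow {q : K} (h0 : q ≠ 0) (hQ : ∀ k, po (q ^ 2) (q ^ 2) k ≠ 0)
    {m j : ℕ} (hj : j ≤ m) : T (q ^ 2) ((q ^ 2) ^ (j + 1)) (m + 1) =
      (-1) ^ j * q ^ (j * (j + 1)) := by
  induction j with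
  | zero =>
    have h1 := T_func (pow_ne_zero 2 h0) hQ (A := 1) one_ne_zero m
    rw [T_one, one_mul] at h1
    unfold EE at h1
    rw [one_mul, div_one] at h1
    rw [one_mul] at h1
    have h2 := hQ m
    have h3 : (1 + 1) * po (q ^ 2) (q ^ 2) m * po (q ^ 2) (q ^ 2) m / po (q ^ 2) (q ^ 2) m ^ 2 =
        2 := by field_simp; norm_num
    rw [h3] at h1
    simp only [zero_add, pow_one, pow_zero, zero_mul, mul_one]
    linear_combination h1
  | succ j ih =>
    have ih := ih (by omega)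
    have h1 := T_func (pow_ne_zero 2 h0) hQ (A := (q ^ 2) ^ (j + 1))
      (pow_ne_zero _ (pow_ne_zero 2 h0)) m
    rw [ih] at h1
    have h2 : EE (q ^ 2) ((q ^ 2) ^ (j + 1)) m = 0 := by
      unfold EE
      rw [po_zero_of (a := q ^ 2 / (q ^ 2) ^ (j + 1)) (show j < m by omega)]
      · ring
      · have : (q ^ 2) ^ (j + 1) ≠ 0 := pow_ne_zero _ (pow_ne_zero 2 h0)
        rw [div_mul_eq_mul_div, div_eq_iff this, pow_succ]
        ring
    rw [h2, ← pow_succ] at h1
    have e : q ^ ((j + 1) * (j + 1 + 1)) = (q ^ 2) ^ (j + 1) * q ^ (j * (j + 1)) := by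
      rw [← pow_mul, ← pow_add]; congr 1; ring
    rw [e, pow_succ (-1 : K) j]
    linear_combination h1

end T

end Q278.VA
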