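import Pool.Agent.Q278.Loc

set_option autoImplicit false

/-! A very-well-poised sum modulo the fifth power of `t = 1 - u`, where `Q ^ p * u ^ n = 1`. -/

namespace Q278.VWP

open Finset Q278.Loc

variable {K : Type*} [Field K]

/-- The standing hypotheses. -/
structure Hyp (O : Subring K) (p n : ℕ) (Q u t : K) : Prop where
  ht : t ∈ O
  hu : u = 1 - t
  hu0 : u ≠ 0
  hui : u⁻¹ ∈ O
  hQ : Q ∈ O
  hQ0 : Q ≠ 0
  hQi : Q⁻¹ ∈ O
  hrel : Q ^ p * u ^ n = 1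
  hw : ∀ j, 0 < j → j < p → (1 - Q ^ j)⁻¹ ∈ O
  hne : ∀ j, 0 < j → j < p → 1 - Q ^ j ≠ 0
  hnat : ∀ m : ℕ, 0 < m → (m : K)⁻¹ ∈ O
  hp : 1 ≤ p

/-- `v_j = 1 / (1 - Q ^ (-j))`. -/
def v (Q : K) (j : ℕ) : K := (1 - Q⁻¹ ^ j)⁻¹

variable {O : Subring K} {p n : ℕ} {Q u t : K}

section basic

theorem v_eq (h : Hyp O p n Q u t) {j : ℕ} (h0 : 0 < j) (hj : j < p) :
    v Q j = -(Q ^ j * (1 - Q ^ j)⁻¹) := by
  have h1 := h.hne j h0 hj
  have h2 : Q ^ j ≠ 0 := pow_ne_zero _ h.hQ0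
  unfold v
  have h3 : 1 - Q⁻¹ ^ j = -(1 - Q ^ j) / Q ^ j := by
    rw [inv_pow]; field_simp; ring
  rw [h3, inv_div, div_eq_mul_inv, inv_neg, mul_neg]

theorem v_mem (h : Hyp O p n Q u t) {j : ℕ} (h0 : 0 < j) (hj : j < p) : v Q j ∈ O := by
  rw [v_eq h h0 hj]
  exact O.neg_mem (O.mul_mem (O.pow_mem h.hQ _) (h.hw j h0 hj))

theorem Qv (h : Hyp O p n Q u t) {j : ℕ} (h0 : 0 < j) (hj : j < p) :
    Q ^ j * v Q j = Q ^ j + v Q j := by
  have h1 := h.hne j h0 hj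
  rw [v_eq h h0 hj]
  field_simp
  ring

theorem Qiv (h : Hyp O p n Q u t) {j : ℕ} (h0 : 0 < j) (hj : j < p) :
    Q⁻¹ ^ j * v Q j = v Q j - 1 := by
  have h1 := h.hne j h0 hj
  have h2 : Q ^ j ≠ 0 := pow_ne_zero _ h.hQ0
  rw [v_eq h h0 hj, inv_pow]
  field_simp
  ring

theorem ratio (h : Hyp O p n Q u t) {j : ℕ} (h0 : 0 < j) (hj : j < p) :
    (1 - u * Q ^ j) / (1 - Q ^ j) = 1 - t * v Q j := by
  have h1 := h.hne j h0 hj
  rw [v_eq h h0 hj, h.hu]
  field_simp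
  ring

theorem w_eq (h : Hyp O p n Q u t) {j : ℕ} (h0 : 0 < j) (hj : j < p) :
    (1 - Q ^ j)⁻¹ = 1 - v Q j := by
  have h1 := h.hne j h0 hj
  rw [v_eq h h0 hj]
  field_simp
  ring

theorem U_eq (h : Hyp O p n Q u t) : u ^ n = Q⁻¹ ^ p := by
  have h2 : Q ^ p ≠ 0 := pow_ne_zero _ h.hQ0
  rw [inv_pow]
  exact eq_inv_of_mul_eq_one_right h.hrel

theorem v_refl (h : Hyp O p n Q u t) {j : ℕ} (h0 : 0 < j) (hj : j < p) :
    v Q j + v Q (p - j) = 1 + (1 - u ^ n) * (v Q j * v Q (p - j)) := by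
  have h1 : 1 - Q⁻¹ ^ j ≠ 0 := by
    intro h3
    have h4 : Q⁻¹ ^ j = 1 := (sub_eq_zero.1 h3).symm
    rw [inv_pow, inv_eq_one] at h4
    exact h.hne j h0 hj (by rw [h4]; ring)
  have h2 : 1 - Q⁻¹ ^ (p - j) ≠ 0 := by
    intro h3
    have h4 : Q⁻¹ ^ (p - j) = 1 := (sub_eq_zero.1 h3).symm
    rw [inv_pow, inv_eq_one] at h4
    exact h.hne (p - j) (by omega) (by omega) (by rw [h4]; ring)
  have h3 : u ^ n = Q⁻¹ ^ j * Q⁻¹ ^ (p - j) := by
    rw [U_eq h, ← pow_add]; congr 1; omega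
  unfold v
  rw [h3]
  generalize Q⁻¹ ^ j = a at *
  generalize Q⁻¹ ^ (p - j) = b at *
  field_simp
  ring

theorem t_self : t ∈ I O t 1 := by
  have := self_pow (O := O) (π := t) 1
  rwa [pow_one] at this

theorem u_mem (h : Hyp O p n Q u t) : u ∈ O := by
  rw [h.hu]; exact O.sub_mem O.one_mem h.ht

/-- `u ^ m` to fourth order -/
theorem U_exp (h : Hyp O p n Q u t) (m : ℕ) : ∃ W ∈ O, u ^ m = 1 - m * t +
    (m.choose 2 : K) * t ^ 2 - (m.choose 3 : K) * t ^ 3 + (m.choose 4 : K) * t ^ 4 + t ^ 5 * W := by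
  obtain ⟨W, hW, he⟩ := expand (O := O) t h.ht m
  exact ⟨W, hW, by rw [h.hu, he]⟩

theorem U_two (h : Hyp O p n Q u t) (m : ℕ) : u ^ m - 1 + m * t ∈ I O t 2 := by
  obtain ⟨W, hW, he⟩ := U_exp h m
  refine ⟨(m.choose 2 : K) - (m.choose 3 : K) * t + (m.choose 4 : K) * t ^ 2 + t ^ 3 * W, ?_, ?_⟩
  · exact O.add_mem (O.add_mem (O.sub_mem (nat_O _) (O.mul_mem (nat_O _) h.ht))
      (O.mul_mem (nat_O _) (O.pow_mem h.ht _))) (O.mul_mem (O.pow_mem h.ht _) hW)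
  · rw [he]; ring

theorem U_one (h : Hyp O p n Q u t) (m : ℕ) : 1 - u ^ m ∈ I O t 1 := by
  have h1 := mono h.ht (show 1 ≤ 2 by norm_num) (U_two h m)
  have e : 1 - u ^ m = (m : K) * t - (u ^ m - 1 + m * t) := by ring
  rw [e]
  exact (I O t 1).sub_mem (mul_O (nat_O _) t_self) h1

theorem Qp_one (h : Hyp O p n Q u t) : 1 - Q ^ p ∈ I O t 1 := by
  have h1 := U_one h n
  have hU : u ^ n ≠ 0 := pow_ne_zero _ h.hu0
  have e : 1 - Q ^ p = (-(u⁻¹ ^ n)) * (1 - u ^ n) := by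
    have : Q ^ p = u⁻¹ ^ n := by rw [inv_pow]; exact eq_inv_of_mul_eq_one_left h.hrel
    rw [this, inv_pow]; field_simp; ring
  rw [e]
  exact mul_O (O.neg_mem (O.pow_mem h.hui _)) h1

theorem Qpm_one (h : Hyp O p n Q u t) (m : ℕ) : 1 - (Q ^ p) ^ m ∈ I O t 1 := by
  induction m with
  | zero => simp [(I O t 1).zero_mem]
  | succ m ih =>
    have e : 1 - (Q ^ p) ^ (m + 1) = (1 - (Q ^ p) ^ m) + (Q ^ p) ^ m * (1 - Q ^ p) := by ring
    rw [e]
    exact (I O t 1).add_mem ih (mul_O (O.pow_mem (O.pow_mem h.hQ _) _) (Qp_one h))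

end basic

section sums

/-- `2 Σ v - (p - 1) - n t (Σ v - Σ v²)` is of order two. -/
theorem sum_v (h : Hyp O p n Q u t) :
    2 * (∑ j ∈ range (p - 1), v Q (j + 1)) - ((p : K) - 1) -
      n * t * ((∑ j ∈ range (p - 1), v Q (j + 1)) - ∑ j ∈ range (p - 1), v Q (j + 1) ^ 2) ∈
      I O t 2 := by
  have hp := h.hp
  have h1 : ∑ j ∈ range (p - 1), v Q (j + 1) = ∑ j ∈ range (p - 1), v Q (p - (j + 1)) := by
    rw [← sum_range_reflect]
    apply sum_congr rfl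
    intro j hj
    have := mem_range.1 hj
    congr 1
    omega
  have hc : ((p : K) - 1) = ∑ j ∈ range (p - 1), (1 : K) := by
    rw [sum_const, card_range, nsmul_eq_mul, mul_one, Nat.cast_sub hp, Nat.cast_one]
  have e : 2 * (∑ j ∈ range (p - 1), v Q (j + 1)) - ((p : K) - 1) -
      n * t * ((∑ j ∈ range (p - 1), v Q (j + 1)) - ∑ j ∈ range (p - 1), v Q (j + 1) ^ 2) =
      ∑ j ∈ range (p - 1), (v Q (j + 1) + v Q (p - (j + 1)) - 1 -
        n * t * (v Q (j + 1) - v Q (j + 1) ^ 2)) := by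
    rw [sum_sub_distrib, sum_sub_distrib, sum_add_distrib, ← h1, ← hc, ← mul_sum, sum_sub_distrib]
    ring
  rw [e]
  apply (I O t 2).sum_mem
  intro j hj
  have hj' := mem_range.1 hj
  have a0 := v_refl h (Nat.succ_pos j) (show j + 1 < p by omega)
  have a1 := v_mem h (Nat.succ_pos j) (show j + 1 < p by omega)
  have a2 := v_mem h (j := p - (j + 1)) (by omega) (by omega)
  rw [Nat.succ_eq_add_one] at a0 a1
  have b1 := U_one h n
  have b2 := U_two h n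
  generalize v Q (j + 1) = x at *
  generalize v Q (p - (j + 1)) = y at *
  have e1 : x + y - 1 - n * t * (x - x ^ 2) = -(x * y * (u ^ n - 1 + n * t)) +
      (n : K) * x * (t * ((1 - u ^ n) * (x * y))) := by
    linear_combination (1 + n * t * x) * a0
  rw [e1]
  refine (I O t 2).add_mem ((I O t 2).neg_mem (mul_O (O.mul_mem a1 a2) b2)) ?_
  refine mul_O (O.mul_mem (nat_O _) a1) ?_
  have e2 : (1 - u ^ n) * (x * y) ∈ I O t 1 := by
    rw [mul_comm]
    exact mul_O (O.mul_mem a1 a2) b1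
  exact mul_I t_self e2

theorem sum_v_one (h : Hyp O p n Q u t) :
    2 * (∑ j ∈ range (p - 1), v Q (j + 1)) - ((p : K) - 1) ∈ I O t 1 := by
  have h1 := mono h.ht (show 1 ≤ 2 by norm_num) (sum_v h)
  have h2 : (n : K) * t * ((∑ j ∈ range (p - 1), v Q (j + 1)) -
      ∑ j ∈ range (p - 1), v Q (j + 1) ^ 2) ∈ I O t 1 := by
    rw [mul_comm]
    refine mul_O (O.sub_mem (O.sum_mem ?_) (O.sum_mem ?_)) (mul_O (nat_O _) t_self)
    · intro j hj
      have hj' := mem_range.1 hj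
      exact v_mem h (Nat.succ_pos j) (by omega)
    · intro j hj
      have hj' := mem_range.1 hj
      exact O.pow_mem (v_mem h (Nat.succ_pos j) (by omega)) _
  have := (I O t 1).add_mem h1 h2
  convert this using 1
  ring

/-- `Σ_{j<p-1} Q^{(j+1) m} ≡ -1` for `0 < m < p`. -/
theorem sum_Q (h : Hyp O p n Q u t) {m : ℕ} (h0 : 0 < m) (hm : m < p) :
    ∑ j ∈ range (p - 1), (Q ^ m) ^ (j + 1) + 1 ∈ I O t 1 := by
  have hp := h.hp
  have h1 : ∑ j ∈ range (p - 1), (Q ^ m) ^ (j + 1) + 1 = ∑ j ∈ range p, (Q ^ m) ^ j := by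
    conv_rhs => rw [show p = (p - 1) + 1 by omega, sum_range_succ', pow_zero]
  rw [h1]
  have h2 := h.hne m h0 hm
  have h3 : ∑ j ∈ range p, (Q ^ m) ^ j = (1 - Q ^ m)⁻¹ * (1 - (Q ^ p) ^ m) := by
    have h4 := geom_sum_mul (Q ^ m) p
    have h5 : (Q ^ p) ^ m = (Q ^ m) ^ p := by rw [← pow_mul, ← pow_mul, mul_comm]
    rw [h5]
    rw [inv_mul_eq_div, eq_div_iff h2]
    linear_combination -h4
  rw [h3]
  exact mul_O (h.hw m h0 hm) (Qpm_one h m)

theorem sum_Q' (h : Hyp O p n Q u t) {j : ℕ} (h0 : 0 < j) (hj : j < p) :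
    ∑ m ∈ range p, (Q ^ j) ^ m ∈ I O t 1 := by
  have h2 := h.hne j h0 hj
  have h3 : ∑ m ∈ range p, (Q ^ j) ^ m = (1 - Q ^ j)⁻¹ * (1 - (Q ^ p) ^ j) := by
    have h4 := geom_sum_mul (Q ^ j) p
    have h5 : (Q ^ p) ^ j = (Q ^ j) ^ p := by rw [← pow_mul, ← pow_mul, mul_comm]
    rw [h5, inv_mul_eq_div, eq_div_iff h2]
    linear_combination -h4
  rw [h3]
  exact mul_O (h.hw j h0 hj) (Qpm_one h j)

theorem half_mem (h : Hyp O p n Q u t) : (2 : K)⁻¹ ∈ O := by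
  have := h.hnat 2 (by norm_num)
  exact_mod_cast this

theorem D_mem [CharZero K] (h : Hyp O p n Q u t) {m : ℕ} (hm : m < p) :
    ∑ j ∈ range (p - 1), (Q ^ (j + 1)) ^ m * v Q (j + 1) - (((p : K) - 1) / 2 - m) ∈ I O t 1 := by
  induction m with
  | zero =>
    have h1 := mul_O (half_mem h) (sum_v_one h)
    convert h1 using 1
    simp only [pow_zero, one_mul, Nat.cast_zero, sub_zero]
    field_simp
  | succ m ih =>
    have ih := ih (by omega)
    have h1 := sum_Q h (Nat.succ_pos m) hm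
    have h2 := (I O t 1).add_mem ih h1
    convert h2 using 1
    have h3 : ∑ j ∈ range (p - 1), (Q ^ (j + 1)) ^ (m + 1) * v Q (j + 1) =
        ∑ j ∈ range (p - 1), (Q ^ (j + 1)) ^ m * v Q (j + 1) +
        ∑ j ∈ range (p - 1), (Q ^ (m + 1)) ^ (j + 1) := by
      rw [← sum_add_distrib]
      apply sum_congr rfl
      intro j hj
      have hj' := mem_range.1 hj
      have h4 := Qv h (Nat.succ_pos j) (show j + 1 < p by omega)
      rw [Nat.succ_eq_add_one] at h4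
      have h5 : (Q ^ (m + 1)) ^ (j + 1) = (Q ^ (j + 1)) ^ m * Q ^ (j + 1) := by
        rw [← pow_mul, ← pow_mul, ← pow_add]; congr 1; ring
      rw [h5, pow_succ]
      linear_combination (Q ^ (j + 1)) ^ m * h4
    rw [h3, Nat.succ_eq_add_one]
    push_cast
    ring

theorem F_mem [CharZero K] (h : Hyp O p n Q u t) {m : ℕ} (hm : m ≤ p) :
    ∑ j ∈ range (p - 1), (Q ^ (j + 1)) ^ m * (v Q (j + 1) - v Q (j + 1) ^ 2) -
      (∑ j ∈ range (p - 1), (v Q (j + 1) - v Q (j + 1) ^ 2) - m * ((p : K) - 1) / 2 +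
        m * ((m : K) - 1) / 2) ∈ I O t 1 := by
  induction m with
  | zero => simp [(I O t 1).zero_mem]
  | succ m ih =>
    have ih := ih (by omega)
    have h1 := D_mem h (show m < p by omega)
    have h2 := (I O t 1).sub_mem ih h1
    convert h2 using 1
    have h3 : ∑ j ∈ range (p - 1), (Q ^ (j + 1)) ^ (m + 1) * (v Q (j + 1) - v Q (j + 1) ^ 2) =
        ∑ j ∈ range (p - 1), (Q ^ (j + 1)) ^ m * (v Q (j + 1) - v Q (j + 1) ^ 2) -
        ∑ j ∈ range (p - 1), (Q ^ (j + 1)) ^ m * v Q (j + 1) := by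
      rw [← sum_sub_distrib]
      apply sum_congr rfl
      intro j hj
      have hj' := mem_range.1 hj
      have h4 := Qv h (Nat.succ_pos j) (show j + 1 < p by omega)
      rw [Nat.succ_eq_add_one] at h4
      rw [pow_succ]
      linear_combination -((Q ^ (j + 1)) ^ m * v Q (j + 1)) * h4
    rw [h3]
    push_cast
    ring

theorem sum_id2 (m : ℕ) [CharZero K] : ∑ i ∈ range m, (i : K) = m * ((m : K) - 1) / 2 := by
  induction m with
  | zero => simp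
  | succ m ih => rw [sum_range_succ, ih]; push_cast; ring

theorem sum_id3 (m : ℕ) [CharZero K] : ∑ i ∈ range m, (i : K) * ((i : K) - 1) / 2 =
    m * ((m : K) - 1) * ((m : K) - 2) / 6 := by
  induction m with
  | zero => simp
  | succ m ih => rw [sum_range_succ, ih]; push_cast; ring

theorem F_val [CharZero K] (h : Hyp O p n Q u t) :
    ∑ j ∈ range (p - 1), (v Q (j + 1) - v Q (j + 1) ^ 2) - ((p : K) ^ 2 - 1) / 12 ∈ I O t 1 := by
  have hp := h.hp
  have hp0 : (p : K) ≠ 0 := by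
    have : p ≠ 0 := by omega
    exact_mod_cast this
  have h1 : ∑ m ∈ range p, (∑ j ∈ range (p - 1), (Q ^ (j + 1)) ^ m *
      (v Q (j + 1) - v Q (j + 1) ^ 2) -
      (∑ j ∈ range (p - 1), (v Q (j + 1) - v Q (j + 1) ^ 2) - m * ((p : K) - 1) / 2 +
        m * ((m : K) - 1) / 2)) ∈ I O t 1 :=
    (I O t 1).sum_mem (fun m hm => F_mem h (mem_range.1 hm).le)
  rw [sum_sub_distrib, sum_add_distrib, sum_sub_distrib, sum_id3, sum_const, card_range,
    nsmul_eq_mul] at h1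
  have h2 : ∑ m ∈ range p, (m : K) * ((p : K) - 1) / 2 = (p * ((p : K) - 1) / 2) *
      ((p : K) - 1) / 2 := by
    rw [← sum_div, ← sum_mul, sum_id2]
  rw [h2] at h1
  have h3 : ∑ m ∈ range p, ∑ j ∈ range (p - 1), (Q ^ (j + 1)) ^ m *
      (v Q (j + 1) - v Q (j + 1) ^ 2) ∈ I O t 1 := by
    rw [sum_comm]
    apply (I O t 1).sum_mem
    intro j hj
    have hj' := mem_range.1 hj
    rw [← sum_mul, mul_comm]
    have := v_mem h (Nat.succ_pos j) (show j + 1 < p by omega)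
    exact mul_O (O.sub_mem this (O.pow_mem this _)) (sum_Q' h (Nat.succ_pos j) (by omega))
  have h4 := (I O t 1).sub_mem h3 h1
  have h5 := mul_O (h.hnat p (by omega)) h4
  convert h5 using 1
  field_simp
  ring

end sums

section algebra

theorem comb {K : Type*} [Field K] {Q u t U V A0 Ap Am B1 B2 B3 B4 E c1 c2 c3 c4 W0 r0 rp rm G : K}
    (hu : u = 1 - t) (hQ : Q ≠ 0) (hUV : U * V = 1)
    (hs : 1 + c1 + c2 + c3 + c4 = U ^ 2 - t ^ 5 * W0)
    (h0 : V * (A0 + c1 * B1 + c2 * B2 + c3 * B3 + c4 * B4) - A0 + t ^ 5 * r0 = E - 1)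
    (hp : V * (Ap * (1 + c1 + c2 + c3 + c4) + (c1 + c2 + c3 + c4) * B1 + (c2 + c3 + c4) * B2 +
      (c3 + c4) * B3 + c4 * B4) - Q⁻¹ * Ap + t ^ 5 * rp = V * Q⁻¹ * E - 1)
    (hm : V * (Am - c1 * A0 + (c1 - c2) * B1 + (c2 - c3) * B2 + (c3 - c4) * B3 + c4 * B4)
      - Q * Am + t ^ 5 * rm = Q * U * E - 1)
    (hG : G = Q * Am - u * Ap + (Q * U - u * V) * E) :
    U * G * (U - Q⁻¹) = (U ^ 2 - u - c1 * U - t * U) * A0 + (u * (c2 + c3 + c4) - U * c2) * B1 +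
      (u * (c3 + c4) - U * c3) * B2 + (u * c4 - U * c4) * B3 +
      t ^ 5 * (U ^ 2 * rm + u * U * rp - u * W0 * Ap - (U + u) * U * r0) := by
  have hU : U ≠ 0 := left_ne_zero_of_mul_eq_one hUV
  have hV : V = U⁻¹ := eq_inv_of_mul_eq_one_right hUV
  subst hV
  have h0' : (A0 + c1 * B1 + c2 * B2 + c3 * B3 + c4 * B4) - U * A0 + U * (t ^ 5 * r0) =
      U * (E - 1) := by
    rw [← h0]; field_simp
  have hp' : Q * (Ap * (1 + c1 + c2 + c3 + c4) + (c1 + c2 + c3 + c4) * B1 + (c2 + c3 + c4) * B2 +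
      (c3 + c4) * B3 + c4 * B4) - U * Ap + U * Q * (t ^ 5 * rp) = E - U * Q := by
    have : E - U * Q = U * Q * (U⁻¹ * Q⁻¹ * E - 1) := by field_simp
    rw [this, ← hp]; field_simp
  have hm' : (Am - c1 * A0 + (c1 - c2) * B1 + (c2 - c3) * B2 + (c3 - c4) * B3 + c4 * B4)
      - U * (Q * Am) + U * (t ^ 5 * rm) = U * (Q * U * E - 1) := by
    rw [← hm]; field_simp
  have hG' : U * G = Q * U * Am - u * U * Ap + (Q * U ^ 2 - u) * E := by
    rw [hG]; field_simp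
  rw [hG']
  have e : U - Q⁻¹ = (U * Q - 1) / Q := by field_simp
  rw [e, mul_div_assoc', div_eq_iff hQ]
  clear h0 hp hm hG hG' e
  linear_combination (-Q * U) * hm' - u * hp' + (Q * (U + u)) * h0' + (u * Q * Ap) * hs
    + (Q * U * A0) * hu

end algebra

section main

/-- `E_j`. -/
def E (Q u : K) (n j : ℕ) : K :=
  ∏ i ∈ range j, (u⁻¹ ^ n * ((1 - u * Q ^ (i + 1)) / (1 - Q ^ (i + 1))) ^ (2 * n))

theorem E_succ (h : Hyp O p n Q u t) {j : ℕ} (hj : j + 1 < p) :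
    E Q u n (j + 1) = E Q u n j * (u⁻¹ ^ n * (1 - t * v Q (j + 1)) ^ (2 * n)) := by
  unfold E
  rw [prod_range_succ, ratio h (Nat.succ_pos j) hj]

theorem V_two (h : Hyp O p n Q u t) : u⁻¹ ^ n - 1 - n * t ∈ I O t 2 := by
  have hU : u ^ n ≠ 0 := pow_ne_zero _ h.hu0
  have e : u⁻¹ ^ n - 1 - n * t = -(u⁻¹ ^ n * (u ^ n - 1 + n * t)) +
      (u⁻¹ ^ n * n) * (t * (1 - u ^ n)) := by
    rw [inv_pow]; field_simp; ring
  rw [e]
  exact (I O t 2).add_mem ((I O t 2).neg_mem (mul_O (O.pow_mem h.hui _) (U_two h n)))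
    (mul_O (O.mul_mem (O.pow_mem h.hui _) (nat_O _)) (mul_I t_self (U_one h n)))

theorem step_two (h : Hyp O p n Q u t) {x : K} (hx : x ∈ O) :
    u⁻¹ ^ n * (1 - t * x) ^ (2 * n) - 1 - n * t * (1 - 2 * x) ∈ I O t 2 := by
  obtain ⟨W, hW, he⟩ := expand (O := O) (t * x) (O.mul_mem h.ht hx) (2 * n)
  have hV := V_two h
  have hVO : u⁻¹ ^ n ∈ O := O.pow_mem h.hui _
  rw [he]
  generalize u⁻¹ ^ n = V at *
  have e : V * (1 - ((2 * n : ℕ) : K) * (t * x) + ((2 * n).choose 2 : K) * (t * x) ^ 2 -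
      ((2 * n).choose 3 : K) * (t * x) ^ 3 + ((2 * n).choose 4 : K) * (t * x) ^ 4 +
      (t * x) ^ 5 * W) - 1 - n * t * (1 - 2 * x) =
      (V - 1 - n * t) * (1 - 2 * n * t * x) + t ^ 2 * (-(2 * n ^ 2 * x)) +
      t ^ 2 * (V * (((2 * n).choose 2 : K) * x ^ 2 -
      ((2 * n).choose 3 : K) * (t * x ^ 3) + ((2 * n).choose 4 : K) * (t ^ 2 * x ^ 4) +
      t ^ 3 * (x ^ 5 * W))) := by
    push_cast; ring
  rw [e]
  have ht := h.ht
  have h2 : (2 : K) ∈ O := by exact_mod_cast nat_O (K := K) (O := O) 2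
  have hx2 : ∀ m : ℕ, x ^ m ∈ O := fun m => O.pow_mem hx m
  have ht2 : ∀ m : ℕ, t ^ m ∈ O := fun m => O.pow_mem ht m
  refine (I O t 2).add_mem ((I O t 2).add_mem ?_ ⟨_, ?_, rfl⟩) ⟨_, ?_, rfl⟩
  · rw [mul_comm]
    refine mul_O (O.sub_mem O.one_mem ?_) hV
    exact O.mul_mem (O.mul_mem (O.mul_mem h2 (nat_O _)) ht) hx
  · exact O.neg_mem (O.mul_mem (O.mul_mem h2 (O.pow_mem (nat_O _) _)) hx)
  · refine O.mul_mem hVO (O.add_mem (O.add_mem (O.sub_mem ?_ ?_) ?_) ?_)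
    · exact O.mul_mem (nat_O _) (hx2 _)
    · exact O.mul_mem (nat_O _) (O.mul_mem ht (hx2 _))
    · exact O.mul_mem (nat_O _) (O.mul_mem (ht2 _) (hx2 _))
    · exact O.mul_mem (ht2 _) (O.mul_mem (hx2 _) hW)

theorem E_mem (h : Hyp O p n Q u t) {j : ℕ} (hj : j < p) :
    E Q u n j ∈ O ∧ E Q u n j - 1 ∈ I O t 1 ∧
      E Q u n j - 1 - n * t * ∑ i ∈ range j, (1 - 2 * v Q (i + 1)) ∈ I O t 2 := by
  induction j with
  | zero => simp [E, O.one_mem, (I O t 1).zero_mem, (I O t 2).zero_mem]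
  | succ j ih =>
    obtain ⟨h1, h2, h3⟩ := ih (by omega)
    have hv := v_mem h (Nat.succ_pos j) hj
    have hs := step_two h hv
    rw [E_succ h hj, sum_range_succ]
    have ht := h.ht
    rw [Nat.succ_eq_add_one] at hs hv
    have hO : u⁻¹ ^ n * (1 - t * v Q (j + 1)) ^ (2 * n) ∈ O :=
      O.mul_mem (O.pow_mem h.hui _) (O.pow_mem (O.sub_mem O.one_mem (O.mul_mem ht hv)) _)
    have h2' : (2 : K) ∈ O := by exact_mod_cast nat_O (K := K) (O := O) 2
    have hx : n * t * (1 - 2 * v Q (j + 1)) ∈ I O t 1 := by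
      rw [mul_comm]
      exact mul_O (O.sub_mem O.one_mem (O.mul_mem h2' hv)) (mul_O (nat_O _) t_self)
    have hs1 : u⁻¹ ^ n * (1 - t * v Q (j + 1)) ^ (2 * n) - 1 ∈ I O t 1 := by
      have := (I O t 1).add_mem (mono ht (show 1 ≤ 2 by norm_num) hs) hx
      convert this using 1
      ring
    generalize u⁻¹ ^ n * (1 - t * v Q (j + 1)) ^ (2 * n) = Z at *
    generalize v Q (j + 1) = x at *
    generalize E Q u n j = e at *
    generalize ∑ i ∈ range j, (1 - 2 * v Q (i + 1)) = σ at *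
    refine ⟨O.mul_mem h1 hO, ?_, ?_⟩
    · have e1 : e * Z - 1 = (e - 1) + e * (Z - 1) := by ring
      rw [e1]
      exact (I O t 1).add_mem h2 (mul_O h1 hs1)
    · have e1 : e * Z - 1 - n * t * (σ + (1 - 2 * x)) = (e - 1 - n * t * σ) +
        (e - 1) * (Z - 1) + (Z - 1 - n * t * (1 - 2 * x)) := by ring
      rw [e1]
      exact (I O t 2).add_mem ((I O t 2).add_mem h3 (mul_I h2 hs1)) hs

theorem two_sum (f : ℕ → K) (m : ℕ) :
    2 * ∑ j ∈ range m, (∑ i ∈ range j, f i) * f j =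
      (∑ j ∈ range m, f j) ^ 2 - ∑ j ∈ range m, (f j) ^ 2 := by
  induction m with
  | zero => simp
  | succ m ih =>
    rw [sum_range_succ, sum_range_succ, sum_range_succ, mul_add, ih]
    ring

/-- `A₀ - 2 B₁ + n t Σ v²` is of order two. -/
theorem A_mem [CharZero K] (h : Hyp O p n Q u t) :
    ∑ j ∈ range (p - 1), E Q u n j * (1 - 2 * v Q (j + 1)) +
      n * t * ∑ j ∈ range (p - 1), v Q (j + 1) ^ 2 ∈ I O t 2 := by
  have hp := h.hp
  have hc : ((p : K) - 1) = ∑ j ∈ range (p - 1), (1 : K) := by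
    rw [sum_const, card_range, nsmul_eq_mul, mul_one, Nat.cast_sub hp, Nat.cast_one]
  have e : ∑ j ∈ range (p - 1), E Q u n j * (1 - 2 * v Q (j + 1)) =
      ∑ j ∈ range (p - 1), (1 - 2 * v Q (j + 1)) +
      n * t * (2⁻¹ * (2 * ∑ j ∈ range (p - 1), (∑ i ∈ range j, (1 - 2 * v Q (i + 1))) *
        (1 - 2 * v Q (j + 1)))) +
      ∑ j ∈ range (p - 1), (E Q u n j - 1 - n * t * ∑ i ∈ range j, (1 - 2 * v Q (i + 1))) *
        (1 - 2 * v Q (j + 1)) := by
    rw [inv_mul_cancel_left₀ (two_ne_zero), mul_sum, ← sum_add_distrib, ← sum_add_distrib]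
    exact sum_congr rfl (fun j _ => by ring)
  rw [e, two_sum (fun j => 1 - 2 * v Q (j + 1))]
  have h2' : (2 : K) ∈ O := by exact_mod_cast nat_O (K := K) (O := O) 2
  have h3 : ∑ j ∈ range (p - 1), (E Q u n j - 1 - n * t *
      ∑ i ∈ range j, (1 - 2 * v Q (i + 1))) * (1 - 2 * v Q (j + 1)) ∈ I O t 2 := by
    apply (I O t 2).sum_mem
    intro j hj
    have hj' := mem_range.1 hj
    have hv := v_mem h (Nat.succ_pos j) (show j + 1 < p by omega)
    rw [mul_comm]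
    exact mul_O (O.sub_mem O.one_mem (O.mul_mem h2' hv)) (E_mem h (by omega)).2.2
  have h4 : ∑ j ∈ range (p - 1), (1 - 2 * v Q (j + 1)) =
      ((p : K) - 1) - 2 * ∑ j ∈ range (p - 1), v Q (j + 1) := by
    rw [hc, mul_sum, ← sum_sub_distrib]
  have h5 : ∑ j ∈ range (p - 1), (1 - 2 * v Q (j + 1)) ^ 2 =
      ((p : K) - 1) - 4 * ∑ j ∈ range (p - 1), v Q (j + 1) +
        4 * ∑ j ∈ range (p - 1), v Q (j + 1) ^ 2 := by
    rw [hc, mul_sum, mul_sum, ← sum_sub_distrib, ← sum_add_distrib]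
    exact sum_congr rfl (fun j _ => by ring)
  rw [h4, h5]
  have h6 := sum_v h
  have h7 := sum_v_one h
  generalize ∑ j ∈ range (p - 1), v Q (j + 1) = s1 at *
  generalize ∑ j ∈ range (p - 1), v Q (j + 1) ^ 2 = s2 at *
  generalize ∑ j ∈ range (p - 1), (E Q u n j - 1 - n * t *
      ∑ i ∈ range j, (1 - 2 * v Q (i + 1))) * (1 - 2 * v Q (j + 1)) = s3 at *
  have e2 : (p : K) - 1 - 2 * s1 + n * t * (2⁻¹ * (((p : K) - 1 - 2 * s1) ^ 2 -
      ((p : K) - 1 - 4 * s1 + 4 * s2))) + s3 + n * t * s2 =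
      -(2 * s1 - ((p : K) - 1) - n * t * (s1 - s2)) +
      (n * 2⁻¹) * (t * (2 * s1 - ((p : K) - 1))) + 
      (n * 2⁻¹) * (t * (2 * s1 - ((p : K) - 1)) * (2 * s1 - ((p : K) - 1))) + s3 := by
    field_simp
    ring
  rw [e2]
  have h8 := mul_I (t_self (O := O)) h7
  refine (I O t 2).add_mem ((I O t 2).add_mem ((I O t 2).add_mem ((I O t 2).neg_mem h6)
    (mul_O (O.mul_mem (nat_O _) (half_mem h)) h8)) (mul_O (O.mul_mem (nat_O _) (half_mem h)) ?_)) h3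
  rw [mul_comm]
  exact mul_O (toO h.ht h7) h8

theorem choose3 [CharZero K] (m : ℕ) : (m.choose 3 : K) = m * ((m : K) - 1) * ((m : K) - 2) / 6 := by
  induction m with
  | zero => simp [Nat.choose]
  | succ m ih =>
    rw [Nat.choose_succ_succ' m 2]
    push_cast
    rw [ih, Nat.cast_choose_two]
    field_simp
    ring

theorem choose4 [CharZero K] (m : ℕ) : (m.choose 4 : K) =
    m * ((m : K) - 1) * ((m : K) - 2) * ((m : K) - 3) / 24 := by
  induction m with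
  | zero => simp [Nat.choose]
  | succ m ih =>
    rw [Nat.choose_succ_succ' m 3]
    push_cast
    rw [ih, choose3]
    field_simp
    ring

/-- The sum `G`. -/
def G (Q u : K) (n p : ℕ) : K := ∑ j ∈ range p, (Q⁻¹ ^ j - u * Q ^ (j + 1)) * E Q u n j

theorem pre (h : Hyp O p n Q u t) : ∃ W0 ∈ O, ∃ r ∈ O,
    1 + -((2 * n : ℕ) : K) * t + ((2 * n).choose 2 : K) * t ^ 2 + -((2 * n).choose 3 : K) * t ^ 3 +
      ((2 * n).choose 4 : K) * t ^ 4 = (u ^ n) ^ 2 - t ^ 5 * W0 ∧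
    u ^ n * G Q u n p * (u ^ n - Q⁻¹) =
      ((u ^ n) ^ 2 - u - (-((2 * n : ℕ) : K) * t) * u ^ n - t * u ^ n) *
        (∑ j ∈ range (p - 1), E Q u n j) +
      (u * (((2 * n).choose 2 : K) * t ^ 2 + -((2 * n).choose 3 : K) * t ^ 3 +
        ((2 * n).choose 4 : K) * t ^ 4) - u ^ n * (((2 * n).choose 2 : K) * t ^ 2)) *
        (∑ j ∈ range (p - 1), E Q u n j * v Q (j + 1)) +
      (u * (-((2 * n).choose 3 : K) * t ^ 3 + ((2 * n).choose 4 : K) * t ^ 4) -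
        u ^ n * (-((2 * n).choose 3 : K) * t ^ 3)) *
        (∑ j ∈ range (p - 1), E Q u n j * v Q (j + 1) ^ 2) +
      (u * (((2 * n).choose 4 : K) * t ^ 4) - u ^ n * (((2 * n).choose 4 : K) * t ^ 4)) *
        (∑ j ∈ range (p - 1), E Q u n j * v Q (j + 1) ^ 3) + t ^ 5 * r := by
  have hp := h.hp
  have ht := h.ht
  obtain ⟨W0, hW0, he0⟩ := U_exp h (2 * n)
  refine ⟨W0, hW0, ?_⟩
  have hU0 : u ^ n ≠ 0 := pow_ne_zero _ h.hu0
  have hUV : u ^ n * u⁻¹ ^ n = 1 := by rw [inv_pow]; exact mul_inv_cancel₀ hU0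
  have hQp : Q ^ p = u⁻¹ ^ n := by rw [inv_pow]; exact eq_inv_of_mul_eq_one_left h.hrel
  have hQip : Q⁻¹ ^ p = u ^ n := (U_eq h).symm
  have hQ0 := h.hQ0
  have hs : 1 + -((2 * n : ℕ) : K) * t + ((2 * n).choose 2 : K) * t ^ 2 +
      -((2 * n).choose 3 : K) * t ^ 3 + ((2 * n).choose 4 : K) * t ^ 4 =
      (u ^ n) ^ 2 - t ^ 5 * W0 := by
    rw [← pow_mul, mul_comm n 2, he0]; ring
  have key : ∀ j, j < p - 1 → ∃ R ∈ O, (1 - t * v Q (j + 1)) ^ (2 * n) =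
      1 + (-((2 * n : ℕ) : K) * t) * v Q (j + 1) +
      (((2 * n).choose 2 : K) * t ^ 2) * v Q (j + 1) ^ 2 +
      (-((2 * n).choose 3 : K) * t ^ 3) * v Q (j + 1) ^ 3 +
      (((2 * n).choose 4 : K) * t ^ 4) * v Q (j + 1) ^ 4 + t ^ 5 * R := by
    intro j hj
    have hv := v_mem h (Nat.succ_pos j) (show j + 1 < p by omega)
    obtain ⟨W, hW, he⟩ := expand (O := O) (t * v Q (j + 1)) (O.mul_mem ht hv) (2 * n)
    refine ⟨v Q (j + 1) ^ 5 * W, O.mul_mem (O.pow_mem hv _) hW, ?_⟩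
    rw [he]; ring
  choose! R hRO hR using key
  set EE := E Q u n (p - 1) with hEE
  have hEO : ∀ j ∈ range (p - 1), E Q u n j ∈ O := fun j hj =>
    (E_mem h (show j < p by have := mem_range.1 hj; omega)).1
  set c1 := -((2 * n : ℕ) : K) * t with hc1
  set c2 := ((2 * n).choose 2 : K) * t ^ 2 with hc2
  set c3 := -((2 * n).choose 3 : K) * t ^ 3 with hc3
  set c4 := ((2 * n).choose 4 : K) * t ^ 4 with hc4
  set V := u⁻¹ ^ n with hV
  have hVO : V ∈ O := O.pow_mem h.hui _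
  set A0 := ∑ j ∈ range (p - 1), E Q u n j with hA0
  set Ap := ∑ j ∈ range (p - 1), Q ^ (j + 1) * E Q u n j with hAp
  set Am := ∑ j ∈ range (p - 1), Q⁻¹ ^ (j + 1) * E Q u n j with hAm
  set B1 := ∑ j ∈ range (p - 1), E Q u n j * v Q (j + 1) with hB1
  set B2 := ∑ j ∈ range (p - 1), E Q u n j * v Q (j + 1) ^ 2 with hB2
  set B3 := ∑ j ∈ range (p - 1), E Q u n j * v Q (j + 1) ^ 3 with hB3
  set B4 := ∑ j ∈ range (p - 1), E Q u n j * v Q (j + 1) ^ 4 with hB4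
  set r0 := ∑ j ∈ range (p - 1), E Q u n j * (V * R j) with hr0
  set rp := ∑ j ∈ range (p - 1), Q ^ (j + 1) * (E Q u n j * (V * R j)) with hrp
  set rm := ∑ j ∈ range (p - 1), Q⁻¹ ^ (j + 1) * (E Q u n j * (V * R j)) with hrm
  have h0 : V * (A0 + c1 * B1 + c2 * B2 + c3 * B3 + c4 * B4) - A0 + t ^ 5 * r0 = EE - 1 := by
    have h1 : EE - 1 = ∑ j ∈ range (p - 1), (E Q u n (j + 1) - E Q u n j) := by
      rw [sum_range_sub]; simp [hEE, E]
    rw [h1, hA0, hB1, hB2, hB3, hB4, hr0]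
    simp only [mul_sum]
    rw [← sum_add_distrib, ← sum_add_distrib, ← sum_add_distrib, ← sum_add_distrib, mul_sum,
      ← sum_sub_distrib, ← sum_add_distrib]
    apply sum_congr rfl
    intro j hj
    have hj' := mem_range.1 hj
    rw [E_succ h (by omega), hR j hj']
    ring
  have hpp : V * (Ap * (1 + c1 + c2 + c3 + c4) + (c1 + c2 + c3 + c4) * B1 +
      (c2 + c3 + c4) * B2 + (c3 + c4) * B3 + c4 * B4) - Q⁻¹ * Ap + t ^ 5 * rp =
      V * Q⁻¹ * EE - 1 := by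
    have h1 : V * Q⁻¹ * EE - 1 = ∑ j ∈ range (p - 1),
        (Q ^ (j + 1) * E Q u n (j + 1) - Q ^ j * E Q u n j) := by
      rw [sum_range_sub (fun j => Q ^ j * E Q u n j), ← hQp, ← hEE]
      have e1 : Q ^ p * Q⁻¹ = Q ^ (p - 1) := by
        conv_lhs => rw [show p = (p - 1) + 1 by omega, pow_succ]
        field_simp
      rw [e1]
      simp [E]
    rw [h1, hAp, hB1, hB2, hB3, hB4, hrp, sum_mul]
    simp only [mul_sum]
    rw [← sum_add_distrib, ← sum_add_distrib, ← sum_add_distrib, ← sum_add_distrib, mul_sum,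
      ← sum_sub_distrib, ← sum_add_distrib]
    apply sum_congr rfl
    intro j hj
    have hj' := mem_range.1 hj
    have hq := Qv h (Nat.succ_pos j) (show j + 1 < p by omega)
    rw [Nat.succ_eq_add_one] at hq
    have hq1 : Q⁻¹ * Q ^ (j + 1) = Q ^ j := by rw [pow_succ]; field_simp
    rw [E_succ h (by omega), hR j hj']
    generalize v Q (j + 1) = x at *
    linear_combination (-(E Q u n j * V) * (c1 + c2 * (x + 1) + c3 * (x ^ 2 + x + 1) +
      c4 * (x ^ 3 + x ^ 2 + x + 1))) * hq - E Q u n j * hq1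
  have hmm : V * (Am - c1 * A0 + (c1 - c2) * B1 + (c2 - c3) * B2 + (c3 - c4) * B3 + c4 * B4)
      - Q * Am + t ^ 5 * rm = Q * u ^ n * EE - 1 := by
    have h1 : Q * u ^ n * EE - 1 = ∑ j ∈ range (p - 1),
        (Q⁻¹ ^ (j + 1) * E Q u n (j + 1) - Q⁻¹ ^ j * E Q u n j) := by
      rw [sum_range_sub (fun j => Q⁻¹ ^ j * E Q u n j), ← hQip, ← hEE]
      have e1 : Q * Q⁻¹ ^ p = Q⁻¹ ^ (p - 1) := by
        conv_lhs => rw [show p = (p - 1) + 1 by omega, pow_succ]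
        field_simp
      rw [e1]
      simp [E]
    rw [h1, hAm, hA0, hB1, hB2, hB3, hB4, hrm]
    simp only [mul_sum]
    rw [← sum_sub_distrib, ← sum_add_distrib, ← sum_add_distrib, ← sum_add_distrib,
      ← sum_add_distrib, mul_sum, ← sum_sub_distrib, ← sum_add_distrib]
    apply sum_congr rfl
    intro j hj
    have hj' := mem_range.1 hj
    have hq := Qiv h (Nat.succ_pos j) (show j + 1 < p by omega)
    rw [Nat.succ_eq_add_one] at hq
    have hq1 : Q * Q⁻¹ ^ (j + 1) = Q⁻¹ ^ j := by rw [pow_succ]; field_simp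
    rw [E_succ h (by omega), hR j hj']
    generalize v Q (j + 1) = x at *
    linear_combination (-(E Q u n j * V) * (c1 + c2 * x + c3 * x ^ 2 +
      c4 * x ^ 3)) * hq - E Q u n j * hq1
  have hG : G Q u n p = Q * Am - u * Ap + (Q * u ^ n - u * V) * EE := by
    unfold G
    conv_lhs => rw [show p = (p - 1) + 1 by omega, sum_range_succ]
    rw [show p - 1 + 1 = p by omega, hQp, hAm, hAp, mul_sum, mul_sum, ← sum_sub_distrib]
    congr 1
    · apply sum_congr rfl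
      intro j _
      have hq1 : Q * Q⁻¹ ^ (j + 1) = Q⁻¹ ^ j := by rw [pow_succ]; field_simp
      linear_combination -(E Q u n j) * hq1
    · have e1 : Q⁻¹ ^ (p - 1) = Q * u ^ n := by
        rw [← hQip]
        conv_rhs => rw [show p = (p - 1) + 1 by omega, pow_succ]
        field_simp
      rw [e1]
  have hfin := comb h.hu hQ0 hUV hs h0 hpp hmm hG
  refine ⟨_, ?_, hs, hfin⟩
  have hUO : u ^ n ∈ O := O.pow_mem (u_mem h) _
  have hApO : Ap ∈ O := O.sum_mem (fun j hj => O.mul_mem (O.pow_mem h.hQ _) (hEO j hj))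
  have hr0O : r0 ∈ O := O.sum_mem (fun j hj => O.mul_mem (hEO j hj)
    (O.mul_mem hVO (hRO j (mem_range.1 hj))))
  have hrpO : rp ∈ O := O.sum_mem (fun j hj => O.mul_mem (O.pow_mem h.hQ _)
    (O.mul_mem (hEO j hj) (O.mul_mem hVO (hRO j (mem_range.1 hj)))))
  have hrmO : rm ∈ O := O.sum_mem (fun j hj => O.mul_mem (O.pow_mem h.hQi _)
    (O.mul_mem (hEO j hj) (O.mul_mem hVO (hRO j (mem_range.1 hj)))))
  exact O.sub_mem (O.sub_mem (O.add_mem (O.mul_mem (O.pow_mem hUO _) hrmO)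
    (O.mul_mem (O.mul_mem (u_mem h) hUO) hrpO)) (O.mul_mem (O.mul_mem (u_mem h) hW0) hApO))
    (O.mul_mem (O.mul_mem (O.add_mem hUO (u_mem h)) hUO) hr0O)

theorem inv_nat_mul (h : Hyp O p n Q u t) {x : K} (hx : x ∈ O) {m : ℕ} (hm : 0 < m) :
    x / (m : K) ∈ O := by
  rw [div_eq_mul_inv]
  exact O.mul_mem hx (h.hnat m hm)

/-- The value of the sum modulo `t ^ 5`. -/
theorem vwp [CharZero K] (h : Hyp O p n Q u t) :
    G Q u n p * (u ^ n - Q⁻¹) -
      t ^ 4 * (n * ((n : K) - 1) ^ 2 * (2 * n - 1) * ((p : K) ^ 2 - 1) / 72) ∈ I O t 5 := by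
  obtain ⟨W0, hW0, r, hr, hs, hfin⟩ := pre h
  obtain ⟨W, hW, heU⟩ := U_exp h n
  have hp := h.hp
  have ht := h.ht
  have hn := nat_O (K := K) (O := O) n
  have hpO := nat_O (K := K) (O := O) p
  have hA := A_mem h
  have hF := F_val h
  have hS := sum_v_one h
  have hvO : ∀ j ∈ range (p - 1), v Q (j + 1) ∈ O := fun j hj =>
    v_mem h (Nat.succ_pos j) (by have := mem_range.1 hj; omega)
  have hEO : ∀ j ∈ range (p - 1), E Q u n j ∈ O := fun j hj =>
    (E_mem h (show j < p by have := mem_range.1 hj; omega)).1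
  have hE1 : ∀ j ∈ range (p - 1), E Q u n j - 1 ∈ I O t 1 := fun j hj =>
    (E_mem h (show j < p by have := mem_range.1 hj; omega)).2.1
  have hc : ((p : K) - 1) = ∑ j ∈ range (p - 1), (1 : K) := by
    rw [sum_const, card_range, nsmul_eq_mul, mul_one, Nat.cast_sub hp, Nat.cast_one]
  have hA0O : ∑ j ∈ range (p - 1), E Q u n j ∈ O := O.sum_mem hEO
  have hB1O : ∑ j ∈ range (p - 1), E Q u n j * v Q (j + 1) ∈ O :=
    O.sum_mem (fun j hj => O.mul_mem (hEO j hj) (hvO j hj))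
  have hB2O : ∑ j ∈ range (p - 1), E Q u n j * v Q (j + 1) ^ 2 ∈ O :=
    O.sum_mem (fun j hj => O.mul_mem (hEO j hj) (O.pow_mem (hvO j hj) _))
  have hB3O : ∑ j ∈ range (p - 1), E Q u n j * v Q (j + 1) ^ 3 ∈ O :=
    O.sum_mem (fun j hj => O.mul_mem (hEO j hj) (O.pow_mem (hvO j hj) _))
  have hA0 : ∑ j ∈ range (p - 1), E Q u n j - ((p : K) - 1) ∈ I O t 1 := by
    rw [hc, ← sum_sub_distrib]
    exact (I O t 1).sum_mem hE1
  have hB1 : ∑ j ∈ range (p - 1), E Q u n j * v Q (j + 1) -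
      ∑ j ∈ range (p - 1), v Q (j + 1) ∈ I O t 1 := by
    rw [← sum_sub_distrib]
    apply (I O t 1).sum_mem
    intro j hj
    have e : E Q u n j * v Q (j + 1) - v Q (j + 1) = v Q (j + 1) * (E Q u n j - 1) := by ring
    rw [e]
    exact mul_O (hvO j hj) (hE1 j hj)
  have hB2 : ∑ j ∈ range (p - 1), E Q u n j * v Q (j + 1) ^ 2 -
      ∑ j ∈ range (p - 1), v Q (j + 1) ^ 2 ∈ I O t 1 := by
    rw [← sum_sub_distrib]
    apply (I O t 1).sum_mem
    intro j hj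
    have e : E Q u n j * v Q (j + 1) ^ 2 - v Q (j + 1) ^ 2 =
      v Q (j + 1) ^ 2 * (E Q u n j - 1) := by ring
    rw [e]
    exact mul_O (O.pow_mem (hvO j hj) _) (hE1 j hj)
  have hAB : ∑ j ∈ range (p - 1), E Q u n j * (1 - 2 * v Q (j + 1)) =
      ∑ j ∈ range (p - 1), E Q u n j - 2 * ∑ j ∈ range (p - 1), E Q u n j * v Q (j + 1) := by
    rw [mul_sum, ← sum_sub_distrib]
    exact sum_congr rfl (fun j _ => by ring)
  rw [hAB] at hA
  rw [sum_sub_distrib] at hF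
  have hu := h.hu
  have hu0 := h.hu0
  have hui := h.hui
  have hUV : u⁻¹ ^ n * u ^ n = 1 := by
    rw [inv_pow]; exact inv_mul_cancel₀ (pow_ne_zero _ h.hu0)
  have hVO : u⁻¹ ^ n ∈ O := O.pow_mem h.hui _
  have hV1 : u⁻¹ ^ n - 1 ∈ I O t 1 := by
    have e : u⁻¹ ^ n - 1 = u⁻¹ ^ n * (1 - u ^ n) := by linear_combination hUV
    rw [e]
    exact mul_O hVO (U_one h n)
  have hcO : (n * ((n : K) - 1) ^ 2 * (2 * n - 1) * ((p : K) ^ 2 - 1) / 72) ∈ O := by
    have := inv_nat_mul h (x := (n * ((n : K) - 1) ^ 2 * (2 * n - 1) * ((p : K) ^ 2 - 1)))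
      (m := 72) ?_ (by norm_num)
    · exact_mod_cast this
    · have h1 := O.one_mem
      have h2 : (2 : K) ∈ O := by exact_mod_cast nat_O (K := K) (O := O) 2
      exact O.mul_mem (O.mul_mem (O.mul_mem hn (O.pow_mem (O.sub_mem hn h1) _))
        (O.sub_mem (O.mul_mem h2 hn) h1)) (O.sub_mem (O.pow_mem hpO _) h1)
  -- the main estimate
  have main : u ^ n * G Q u n p * (u ^ n - Q⁻¹) -
      t ^ 4 * (n * ((n : K) - 1) ^ 2 * (2 * n - 1) * ((p : K) ^ 2 - 1) / 72) ∈ I O t 5 := by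
    rw [hfin]
    generalize ∑ j ∈ range (p - 1), E Q u n j = A0 at *
    generalize ∑ j ∈ range (p - 1), E Q u n j * v Q (j + 1) = B1 at *
    generalize ∑ j ∈ range (p - 1), E Q u n j * v Q (j + 1) ^ 2 = B2 at *
    generalize ∑ j ∈ range (p - 1), E Q u n j * v Q (j + 1) ^ 3 = B3 at *
    generalize ∑ j ∈ range (p - 1), v Q (j + 1) = s1 at *
    generalize ∑ j ∈ range (p - 1), v Q (j + 1) ^ 2 = s2 at *
    generalize hUdef : u ^ n = U at *
    have k2 := Nat.cast_choose_two K n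
    have k3 := choose3 (K := K) n
    have k4 := choose4 (K := K) n
    have K2 := Nat.cast_choose_two K (2 * n)
    have K3 := choose3 (K := K) (2 * n)
    have K4 := choose4 (K := K) (2 * n)
    push_cast at K2 K3 K4 hs
    have m2 := nat_O (K := K) (O := O) (n.choose 2)
    have m3 := nat_O (K := K) (O := O) (n.choose 3)
    have m4 := nat_O (K := K) (O := O) (n.choose 4)
    have M2 := nat_O (K := K) (O := O) ((2 * n).choose 2)
    have M3 := nat_O (K := K) (O := O) ((2 * n).choose 3)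
    have M4 := nat_O (K := K) (O := O) ((2 * n).choose 4)
    have o1 := O.one_mem
    have o2 : (2 : K) ∈ O := by exact_mod_cast nat_O (K := K) (O := O) 2
    have tm : ∀ m : ℕ, t ^ m ∈ O := fun m => O.pow_mem ht m
    push_cast
    generalize ((n.choose 2 : ℕ) : K) = n2 at *
    generalize ((n.choose 3 : ℕ) : K) = n3 at *
    generalize ((n.choose 4 : ℕ) : K) = n4 at *
    generalize (((2 * n).choose 2 : ℕ) : K) = C2 at *
    generalize (((2 * n).choose 3 : ℕ) : K) = C3 at *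
    generalize (((2 * n).choose 4 : ℕ) : K) = C4 at *
    generalize (n : K) = N at *
    generalize (p : K) = P at *
    -- coefficients
    have a0 : U ^ 2 - u - (-(2 * N) * t) * U - t * U =
        (-C3 + (2 * N - 1) * n2) * t ^ 3 + (C4 - (2 * N - 1) * n3) * t ^ 4 +
          t ^ 5 * (W0 + (2 * N - 1) * (n4 + t * W)) := by
      have : U ^ 2 = 1 + -(2 * N) * t + C2 * t ^ 2 + -C3 * t ^ 3 + C4 * t ^ 4 + t ^ 5 * W0 := by
        linear_combination -hs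
      rw [this, heU, hu, k2, K2]
      ring
    have b1 : u * (C2 * t ^ 2 + -C3 * t ^ 3 + C4 * t ^ 4) - U * (C2 * t ^ 2) =
        (-C3 - C2 + N * C2) * t ^ 3 + (C4 + C3 - n2 * C2) * t ^ 4 +
          t ^ 5 * (-C4 + C2 * n3 - t * C2 * (n4 + t * W)) := by
      rw [heU, hu]; ring
    have b2 : u * (-C3 * t ^ 3 + C4 * t ^ 4) - U * (-C3 * t ^ 3) =
        (C4 + C3 - N * C3) * t ^ 4 +
          t ^ 5 * (-C4 + C3 * (n2 - n3 * t + t ^ 2 * (n4 + t * W))) := by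
      rw [heU, hu]; ring
    have b3 : u * (C4 * t ^ 4) - U * (C4 * t ^ 4) =
        t ^ 5 * (C4 * (N - 1 - n2 * t + n3 * t ^ 2 - t ^ 3 * (n4 + t * W))) := by
      rw [heU, hu]; ring
    have W4 : n4 + t * W ∈ O := O.add_mem m4 (O.mul_mem ht hW)
    rw [a0, b1, b2, b3]
    have hrel : -C3 - C2 + N * C2 = -2 * (-C3 + (2 * N - 1) * n2) := by
      rw [k2, K2, K3]; field_simp; ring
    rw [hrel]
    set α := -C3 + (2 * N - 1) * n2 with hα
    have hαO : α ∈ O := O.add_mem (O.neg_mem M3) (O.mul_mem (O.sub_mem (O.mul_mem o2 hn) o1) m2)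
    have hN := hn
    have hconst : (C4 - (2 * N - 1) * n3) * (P - 1) + (C4 + C3 - n2 * C2) * ((P - 1) / 2) -
        (C4 + C3 - N * C3 - N * α) * ((P - 1) * (P - 5) / 12) =
        N * (N - 1) ^ 2 * (2 * N - 1) * (P ^ 2 - 1) / 72 := by
      rw [hα, k2, k3, K2, K3, K4]; field_simp; ring
    have e : ((α * t ^ 3 + (C4 - (2 * N - 1) * n3) * t ^ 4 +
          t ^ 5 * (W0 + (2 * N - 1) * (n4 + t * W))) * A0 +
        (-2 * α * t ^ 3 + (C4 + C3 - n2 * C2) * t ^ 4 +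
          t ^ 5 * (-C4 + C2 * n3 - t * C2 * (n4 + t * W))) * B1 +
        ((C4 + C3 - N * C3) * t ^ 4 +
          t ^ 5 * (-C4 + C3 * (n2 - n3 * t + t ^ 2 * (n4 + t * W)))) * B2 +
        t ^ 5 * (C4 * (N - 1 - n2 * t + n3 * t ^ 2 - t ^ 3 * (n4 + t * W))) * B3 + t ^ 5 * r) -
        t ^ 4 * (N * (N - 1) ^ 2 * (2 * N - 1) * (P ^ 2 - 1) / 72) =
        t ^ 3 * (α * (A0 - 2 * B1 + N * t * s2)) +
        t ^ 4 * ((C4 - (2 * N - 1) * n3) * (A0 - (P - 1)) +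
          (C4 + C3 - n2 * C2) * (B1 - s1) + (C4 + C3 - n2 * C2) * (2⁻¹ * (2 * s1 - (P - 1))) +
          (C4 + C3 - N * C3) * (B2 - s2) + (-(C4 + C3 - N * C3 - N * α)) *
            (s1 - s2 - (P ^ 2 - 1) / 12) +
          (C4 + C3 - N * C3 - N * α) * (2⁻¹ * (2 * s1 - (P - 1)))) +
        t ^ 5 * ((W0 + (2 * N - 1) * (n4 + t * W)) * A0 +
          (-C4 + C2 * n3 - t * C2 * (n4 + t * W)) * B1 +
          (-C4 + C3 * (n2 - n3 * t + t ^ 2 * (n4 + t * W))) * B2 +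
          (C4 * (N - 1 - n2 * t + n3 * t ^ 2 - t ^ 3 * (n4 + t * W))) * B3 + r) := by
      rw [← hconst]
      field_simp
      ring
    rw [e]
    have half := half_mem h
    have c1 : C4 - (2 * N - 1) * n3 ∈ O :=
      O.sub_mem M4 (O.mul_mem (O.sub_mem (O.mul_mem o2 hn) o1) m3)
    have c2 : C4 + C3 - n2 * C2 ∈ O := O.sub_mem (O.add_mem M4 M3) (O.mul_mem m2 M2)
    have c3 : C4 + C3 - N * C3 ∈ O := O.sub_mem (O.add_mem M4 M3) (O.mul_mem hn M3)
    have c4 : C4 + C3 - N * C3 - N * α ∈ O := O.sub_mem c3 (O.mul_mem hn hαO)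
    refine (I O t 5).add_mem ((I O t 5).add_mem ?_ ?_) ⟨_, ?_, rfl⟩
    · exact mul_I (self_pow 3) (mul_O hαO hA)
    · refine mul_I (a := 4) (b := 1) (self_pow 4) ?_
      refine (I O t 1).add_mem ((I O t 1).add_mem ((I O t 1).add_mem ((I O t 1).add_mem
        ((I O t 1).add_mem (mul_O c1 hA0) (mul_O c2 hB1)) (mul_O c2 (mul_O half hS)))
        (mul_O c3 hB2)) (mul_O (O.neg_mem c4) hF)) (mul_O c4 (mul_O half hS))
    · refine O.add_mem (O.add_mem (O.add_mem (O.add_mem (O.mul_mem ?_ hA0O) (O.mul_mem ?_ hB1O))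
        (O.mul_mem ?_ hB2O)) (O.mul_mem ?_ hB3O)) hr
      · exact O.add_mem hW0 (O.mul_mem (O.sub_mem (O.mul_mem o2 hn) o1) W4)
      · exact O.sub_mem (O.add_mem (O.neg_mem M4) (O.mul_mem M2 m3)) (O.mul_mem (O.mul_mem ht M2) W4)
      · exact O.add_mem (O.neg_mem M4) (O.mul_mem M3 (O.add_mem (O.sub_mem m2 (O.mul_mem m3 ht))
          (O.mul_mem (tm 2) W4)))
      · exact O.mul_mem M4 (O.sub_mem (O.add_mem (O.sub_mem (O.sub_mem hn o1) (O.mul_mem m2 ht))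
          (O.mul_mem m3 (tm 2))) (O.mul_mem (tm 3) W4))
  have e : G Q u n p * (u ^ n - Q⁻¹) -
      t ^ 4 * (n * ((n : K) - 1) ^ 2 * (2 * n - 1) * ((p : K) ^ 2 - 1) / 72) =
      u⁻¹ ^ n * (u ^ n * G Q u n p * (u ^ n - Q⁻¹) -
      t ^ 4 * (n * ((n : K) - 1) ^ 2 * (2 * n - 1) * ((p : K) ^ 2 - 1) / 72)) +
      t ^ 4 * ((n * ((n : K) - 1) ^ 2 * (2 * n - 1) * ((p : K) ^ 2 - 1) / 72) *
        (u⁻¹ ^ n - 1)) := by
    linear_combination -(G Q u n p * (u ^ n - Q⁻¹)) * hUV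
  rw [e]
  exact (I O t 5).add_mem (mul_O hVO main) (mul_I (self_pow 4) (mul_O hcO hV1))

end main

end Q278.VWP
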