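import Pool.Agent.Q278.VA
import Pool.Agent.Q278.VWP

set_option autoImplicit false

/-! Congruences modulo powers of `t = 1 - q ^ n`, where `n = 2 s + 1`. -/

namespace Q278.VB

open Finset Q278.Loc Q278.VA

variable {K : Type*} [Field K]

/-- The standing hypotheses. -/
structure Hyp (O : Subring K) (s : ℕ) (q t : K) : Prop where
  ht : t ∈ O
  hw : q ^ (2 * s + 1) = 1 - t
  h0 : q ≠ 0
  hq : q ∈ O
  hqi : q⁻¹ ∈ O
  hne : ∀ j, 0 < j → 1 - q ^ j ≠ 0
  hinv : ∀ j, ¬ (2 * s + 1) ∣ j → (1 - q ^ j)⁻¹ ∈ O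
  hnat : ∀ m : ℕ, 0 < m → (m : K)⁻¹ ∈ O

variable {O : Subring K} {s : ℕ} {q t : K}

section general

theorem t_self : t ∈ I O t 1 := by
  have := self_pow (O := O) (π := t) 1
  rwa [pow_one] at this

/-- multiplication of congruences -/
theorem cmul {a : ℕ} {x x' y y' : K} (hx' : x' ∈ O) (hy : y ∈ O)
    (h1 : x - x' ∈ I O t a) (h2 : y - y' ∈ I O t a) : x * y - x' * y' ∈ I O t a := by
  have e : x * y - x' * y' = y * (x - x') + x' * (y - y') := by ring
  rw [e]
  exact (I O t a).add_mem (mul_O hy h1) (mul_O hx' h2)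

theorem cprod {a : ℕ} {f g : ℕ → K} {S : Finset ℕ} (hf : ∀ j ∈ S, f j ∈ O)
    (hg : ∀ j ∈ S, g j ∈ O) (h : ∀ j ∈ S, f j - g j ∈ I O t a) :
    ∏ j ∈ S, f j - ∏ j ∈ S, g j ∈ I O t a := by
  classical
  induction S using Finset.induction_on with
  | empty => simp [(I O t a).zero_mem]
  | insert i S hi ih =>
    rw [prod_insert hi, prod_insert hi]
    exact cmul (hg i (mem_insert_self i S))
      (O.prod_mem fun j hj => hf j (mem_insert_of_mem hj)) (h i (mem_insert_self i S))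
      (ih (fun j hj => hf j (mem_insert_of_mem hj)) (fun j hj => hg j (mem_insert_of_mem hj))
        (fun j hj => h j (mem_insert_of_mem hj)))

/-- A product of factors `1 - t² z`. -/
theorem prod_t2 (ht : t ∈ O) {z : ℕ → K} {S : Finset ℕ} (hz : ∀ j ∈ S, z j ∈ O) :
    ∏ j ∈ S, (1 - t ^ 2 * z j) - (1 - t ^ 2 * ∑ j ∈ S, z j) ∈ I O t 3 := by
  classical
  induction S using Finset.induction_on with
  | empty => simp [(I O t 3).zero_mem]
  | insert i S hi ih =>
    have ih := ih (fun j hj => hz j (mem_insert_of_mem hj))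
    have h1 := hz i (mem_insert_self i S)
    have h2 : ∑ j ∈ S, z j ∈ O := O.sum_mem fun j hj => hz j (mem_insert_of_mem hj)
    rw [prod_insert hi, sum_insert hi]
    have e : (1 - t ^ 2 * z i) * ∏ j ∈ S, (1 - t ^ 2 * z j) - (1 - t ^ 2 * (z i + ∑ j ∈ S, z j)) =
        (1 - t ^ 2 * z i) * (∏ j ∈ S, (1 - t ^ 2 * z j) - (1 - t ^ 2 * ∑ j ∈ S, z j)) +
          t ^ 3 * (t * (z i * ∑ j ∈ S, z j)) := by ring
    rw [e]
    refine (I O t 3).add_mem (mul_O ?_ ih) ⟨_, O.mul_mem ht (O.mul_mem h1 h2), rfl⟩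
    exact O.sub_mem O.one_mem (O.mul_mem (O.pow_mem ht _) h1)

/-- Products of linear functions of `ε`, to second order. -/
theorem prod_lin {u v : ℕ → K} (ht : t ∈ O) (k : ℕ) (hu : ∀ j < k, u j ∈ O)
    (hv : ∀ j < k, v j ∈ O) : ∃ r ∈ O, ∀ ε ∈ I O t 2,
      ∏ j ∈ range k, (u j - v j * ε) - ∏ j ∈ range k, u j - r * ε ∈ I O t 3 := by
  induction k with
  | zero => exact ⟨0, O.zero_mem, fun ε _ => by simp [(I O t 3).zero_mem]⟩
  | succ k ih =>
    obtain ⟨r, hr, h⟩ := ih (fun j hj => hu j (by omega)) (fun j hj => hv j (by omega))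
    have huk := hu k (Nat.lt_succ_self k)
    have hvk := hv k (Nat.lt_succ_self k)
    have hU : ∏ j ∈ range k, u j ∈ O := O.prod_mem fun j hj => hu j (by
      have := mem_range.1 hj; omega)
    refine ⟨r * u k - v k * ∏ j ∈ range k, u j, O.sub_mem (O.mul_mem hr huk)
      (O.mul_mem hvk hU), fun ε hε => ?_⟩
    have h1 := h ε hε
    have hεO : ε ∈ O := toO ht hε
    rw [prod_range_succ, prod_range_succ]
    have e : (∏ j ∈ range k, (u j - v j * ε)) * (u k - v k * ε) - (∏ j ∈ range k, u j) * u k -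
        (r * u k - v k * ∏ j ∈ range k, u j) * ε =
        (u k - v k * ε) * (∏ j ∈ range k, (u j - v j * ε) - ∏ j ∈ range k, u j - r * ε) +
          (-(r * v k)) * (ε * ε) := by ring
    rw [e]
    refine (I O t 3).add_mem (mul_O (O.sub_mem huk (O.mul_mem hvk hεO)) h1) ?_
    exact mul_O (O.neg_mem (O.mul_mem hr hvk)) (mono ht (by norm_num) (mul_I hε hε))

theorem sum_lin {c : ℕ → K} {u v : ℕ → K} (ht : t ∈ O) (n : ℕ) (hc : ∀ k < n, c k ∈ O)
    (hu : ∀ j < n, u j ∈ O) (hv : ∀ j < n, v j ∈ O) : ∃ r ∈ O, ∀ ε ∈ I O t 2,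
      ∑ k ∈ range n, c k * ∏ j ∈ range k, (u j - v j * ε) -
        ∑ k ∈ range n, c k * ∏ j ∈ range k, u j - r * ε ∈ I O t 3 := by
  induction n with
  | zero => exact ⟨0, O.zero_mem, fun ε _ => by simp [(I O t 3).zero_mem]⟩
  | succ n ih =>
    obtain ⟨r, hr, h⟩ := ih (fun j hj => hc j (by omega)) (fun j hj => hu j (by omega))
      (fun j hj => hv j (by omega))
    obtain ⟨r', hr', h'⟩ := prod_lin ht n (fun j hj => hu j (by omega)) (fun j hj => hv j (by omega))
    have hcn := hc n (Nat.lt_succ_self n)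
    refine ⟨r + c n * r', O.add_mem hr (O.mul_mem hcn hr'), fun ε hε => ?_⟩
    rw [sum_range_succ, sum_range_succ]
    have e : ∑ x ∈ range n, c x * ∏ j ∈ range x, (u j - v j * ε) +
        c n * ∏ j ∈ range n, (u j - v j * ε) -
        (∑ x ∈ range n, c x * ∏ j ∈ range x, u j + c n * ∏ j ∈ range n, u j) -
        (r + c n * r') * ε = (∑ k ∈ range n, c k * ∏ j ∈ range k, (u j - v j * ε) -
        ∑ k ∈ range n, c k * ∏ j ∈ range k, u j - r * ε) +
        c n * (∏ j ∈ range n, (u j - v j * ε) - ∏ j ∈ range n, u j - r' * ε) := by ring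
    rw [e]
    exact (I O t 3).add_mem (h ε hε) (mul_O hcn (h' ε hε))

theorem cancel_two {x y : K} (ht : t ∈ O) (h2 : (2 : K)⁻¹ ∈ O) (h20 : (2 : K) ≠ 0)
    (hx : x ∈ O) (hy : y ∈ I O t 1) {m : ℕ} (h : (-2 + y) * x ∈ I O t m) : x ∈ I O t m := by
  have key : ∀ k ≤ m, x ∈ I O t k := by
    intro k
    induction k with
    | zero => intro _; exact of_O hx
    | succ k ih =>
      intro hk
      have h1 := ih (by omega)
      have h3 := mul_I hy h1
      have h4 := mono ht hk h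
      rw [Nat.add_comm 1 k] at h3
      have h5 := (I O t (k + 1)).sub_mem h3 h4
      have e : y * x - (-2 + y) * x = 2 * x := by ring
      rw [e] at h5
      exact of_unit_mul h20 h2 h5
  exact key m le_rfl

end general

section ff

/-- `1 - q ^ r`, or `1` when `n ∣ r`. -/
def ff (n : ℕ) (q : K) (r : ℕ) : K := if n ∣ r then 1 else 1 - q ^ r

variable (h : Hyp O s q t)
include h

theorem qp_mem (j : ℕ) : q ^ j ∈ O := O.pow_mem h.hq j

theorem qip_mem (j : ℕ) : q⁻¹ ^ j ∈ O := O.pow_mem h.hqi j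

theorem ff_mem (r : ℕ) : ff (2 * s + 1) q r ∈ O := by
  unfold ff
  split_ifs
  · exact O.one_mem
  · exact O.sub_mem O.one_mem (qp_mem h _)

theorem ff_ne (r : ℕ) : ff (2 * s + 1) q r ≠ 0 := by
  unfold ff
  split_ifs with h1
  · exact one_ne_zero
  · exact h.hne r (Nat.pos_of_ne_zero (by rintro rfl; exact h1 (dvd_zero _)))

theorem ff_inv (r : ℕ) : (ff (2 * s + 1) q r)⁻¹ ∈ O := by
  unfold ff
  split_ifs with h1
  · simpa using O.one_mem
  · exact h.hinv r h1

theorem w_one (m : ℕ) : (1 - t) ^ m - 1 ∈ I O t 1 := by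
  induction m with
  | zero => simp [(I O t 1).zero_mem]
  | succ m ih =>
    have e : (1 - t) ^ (m + 1) - 1 = (1 - t) * ((1 - t) ^ m - 1) - t := by ring
    rw [e]
    exact (I O t 1).sub_mem (mul_O (O.sub_mem O.one_mem h.ht) ih) t_self

theorem ff_mod (r : ℕ) : ff (2 * s + 1) q r - ff (2 * s + 1) q (r % (2 * s + 1)) ∈ I O t 1 := by
  unfold ff
  have h1 : (2 * s + 1) ∣ r % (2 * s + 1) ↔ (2 * s + 1) ∣ r := by
    rw [Nat.dvd_mod_iff dvd_rfl]
  by_cases h2 : (2 * s + 1) ∣ r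
  · rw [if_pos h2, if_pos (h1.2 h2), sub_self]
    exact (I O t 1).zero_mem
  · rw [if_neg h2, if_neg (fun h3 => h2 (h1.1 h3))]
    have h3 : q ^ r = q ^ (r % (2 * s + 1)) * (1 - t) ^ (r / (2 * s + 1)) := by
      rw [← h.hw, ← pow_mul, ← pow_add, Nat.mod_add_div]
    rw [h3]
    have e : 1 - q ^ (r % (2 * s + 1)) * (1 - t) ^ (r / (2 * s + 1)) -
        (1 - q ^ (r % (2 * s + 1))) = -(q ^ (r % (2 * s + 1))) *
          ((1 - t) ^ (r / (2 * s + 1)) - 1) := by ring
    rw [e]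
    exact mul_O (O.neg_mem (qp_mem h _)) (w_one h _)

/-- The product over a full residue system. -/
def Wp (s : ℕ) (q : K) (e : ℕ) : K := ∏ j ∈ range (2 * s + 1), ff (2 * s + 1) q (e + 2 * j)

theorem Wp_mem (e : ℕ) : Wp s q e ∈ O := O.prod_mem fun _ _ => ff_mem h _

theorem Wp_ne (e : ℕ) : Wp s q e ≠ 0 := prod_ne_zero_iff.2 fun _ _ => ff_ne h _

theorem Wp_inv (e : ℕ) : (Wp s q e)⁻¹ ∈ O := by
  unfold Wp
  rw [← prod_inv_distrib]
  exact O.prod_mem fun _ _ => ff_inv h _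

omit h in
theorem shift (f : ℕ → K) (e : ℕ) : ∏ j ∈ range (2 * s + 1), f ((e + 2 * j) % (2 * s + 1)) =
    ∏ r ∈ range (2 * s + 1), f r := by
  apply prod_nbij (fun j => (e + 2 * j) % (2 * s + 1))
  · intro j _
    exact mem_range.2 (Nat.mod_lt _ (by omega))
  · intro a ha b hb hab
    have ha := mem_range.1 (mem_coe.1 ha)
    have hb := mem_range.1 (mem_coe.1 hb)
    have h1 : (e + 2 * a) ≡ (e + 2 * b) [MOD (2 * s + 1)] := hab
    have h2 := Nat.ModEq.add_left_cancel' e h1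
    have h3 : Nat.gcd (2 * s + 1) 2 = 1 := by
      rw [Nat.gcd_comm]; simp
    have h4 := Nat.ModEq.cancel_left_of_coprime h3 h2
    have h5 := Nat.ModEq.eq_of_lt_of_lt h4 ha hb
    exact h5
  · apply surjOn_of_injOn_of_card_le
    · intro j _
      exact mem_coe.2 (mem_range.2 (Nat.mod_lt _ (by omega)))
    · intro a ha b hb hab
      have ha := mem_range.1 (mem_coe.1 ha)
      have hb := mem_range.1 (mem_coe.1 hb)
      have h1 : (e + 2 * a) ≡ (e + 2 * b) [MOD (2 * s + 1)] := hab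
      have h2 := Nat.ModEq.add_left_cancel' e h1
      have h3 : Nat.gcd (2 * s + 1) 2 = 1 := by
        rw [Nat.gcd_comm]; simp
      have h4 := Nat.ModEq.cancel_left_of_coprime h3 h2
      exact Nat.ModEq.eq_of_lt_of_lt h4 ha hb
    · exact le_rfl
  · intro _ _
    rfl

theorem Wp_cong (e : ℕ) : Wp s q e - Wp s q 0 ∈ I O t 1 := by
  have key : ∀ e, Wp s q e - ∏ r ∈ range (2 * s + 1), ff (2 * s + 1) q r ∈ I O t 1 := by
    intro e
    rw [← shift (ff (2 * s + 1) q) e]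
    exact cprod (fun _ _ => ff_mem h _) (fun _ _ => ff_mem h _) (fun j _ => ff_mod h _)
  have := (I O t 1).sub_mem (key e) (key 0)
  convert this using 1
  ring

end ff

end Q278.VB
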