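import Pool.Agent.Q278.VB

set_option autoImplicit false

/-! The sum `L_n` modulo the cube of `t = 1 - q ^ n`. -/

namespace Q278.VC

open Finset Q278.Loc Q278.VA Q278.VB Q278.QDel

variable {K : Type*} [Field K] {O : Subring K} {s : ℕ} {q t : K}

theorem pull {S : Finset ℕ} {f : ℕ → K} {a : ℕ} (ha : a ∈ S) :
    ∏ j ∈ S, f j = f a * ∏ j ∈ S, (if j = a then 1 else f j) := by
  rw [← mul_prod_erase S f ha, ← mul_prod_erase S (fun j => if j = a then 1 else f j) ha,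
    if_pos rfl, one_mul]
  congr 1
  apply prod_congr rfl
  intro j hj
  rw [if_neg (ne_of_mem_erase hj)]

theorem pair_sum {M : Type*} [AddCommMonoid M] (f : ℕ → M) (s : ℕ) :
    ∑ i ∈ range (2 * s + 1), f i =
      f s + ∑ i ∈ range s, (f i + f (2 * s - i)) := by
  rw [show 2 * s + 1 = s + (s + 1) by ring, sum_range_add, sum_range_succ', sum_add_distrib,
    ← sum_range_reflect (fun i => f (s + (i + 1)))]
  have : ∑ j ∈ range s, f (s + (s - 1 - j + 1)) = ∑ i ∈ range s, f (2 * s - i) := by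
    apply sum_congr rfl
    intro i hi
    have := mem_range.1 hi
    congr 1
    omega
  rw [this, add_zero]
  abel

variable (h : Hyp O s q t)
include h

theorem dvd_odd {j : ℕ} (hj : j < 2 * s + 1) : (2 * s + 1) ∣ (1 + 2 * j) ↔ j = s := by
  constructor
  · rintro ⟨c, hc⟩
    have h1 : c < 2 := by
      by_contra h2
      have : (2 * s + 1) * 2 ≤ (2 * s + 1) * c := Nat.mul_le_mul_left _ (by omega)
      have h3 : c = 2 ∨ 3 ≤ c := by omega
      rcases h3 with h3 | h3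
      · subst h3; omega
      · have : (2 * s + 1) * 3 ≤ (2 * s + 1) * c := Nat.mul_le_mul_left _ h3
        omega
    have h3 : c = 0 ∨ c = 1 := by omega
    rcases h3 with rfl | rfl
    · omega
    · omega
  · rintro rfl
    exact ⟨1, by ring⟩

omit h in
theorem not_dvd_even {j : ℕ} (h0 : 0 < j) (hj : j < 2 * s + 1) : ¬ (2 * s + 1) ∣ 2 * j := by
  intro h1
  have h2 : Nat.Coprime (2 * s + 1) 2 := by
    rw [Nat.coprime_comm]; simp
  have h3 := h2.dvd_of_dvd_mul_left h1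
  have := Nat.le_of_dvd h0 h3
  omega

theorem po_odd : po (q ^ 2) q (2 * s + 1) = t * Wp s q 1 := by
  unfold po Wp
  rw [pull (mem_range.2 (show s < 2 * s + 1 by omega))]
  congr 1
  · have : q * (q ^ 2) ^ s = q ^ (2 * s + 1) := by rw [← pow_mul]; ring
    rw [this, h.hw]; ring
  · apply prod_congr rfl
    intro j hj
    have hj := mem_range.1 hj
    unfold ff
    have e : q * (q ^ 2) ^ j = q ^ (1 + 2 * j) := by rw [← pow_mul]; ring
    rw [e]
    by_cases h1 : j = s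
    · rw [if_pos h1, if_pos ((dvd_odd h hj).2 h1)]
    · rw [if_neg h1, if_neg (fun h2 => h1 ((dvd_odd h hj).1 h2))]

omit h in
theorem po_even : po (q ^ 2) (q ^ 2) (2 * s) = Wp s q 0 := by
  unfold po Wp
  rw [prod_range_succ']
  have e0 : ff (2 * s + 1) q (0 + 2 * 0) = 1 := by
    unfold ff; simp
  rw [e0, mul_one]
  apply prod_congr rfl
  intro j hj
  have hj := mem_range.1 hj
  unfold ff
  rw [zero_add, if_neg (not_dvd_even (Nat.succ_pos j) (by omega)), ← pow_succ', ← pow_mul]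

omit h in
theorem ph_eq (k : ℕ) : ph (q ^ 2) k = po (q ^ 2) (q ^ 2) k := by
  unfold ph po
  apply prod_congr rfl
  intro j _
  rw [pow_succ, mul_comm]

theorem fL_eq (i : ℕ) : fL q (2 * s) i = t * (Wp s q 1 / Wp s q 0) *
    (gb (q ^ 2) (2 * s) i * q ^ i) / (1 - q ^ (2 * i + 1)) := by
  unfold fL
  rw [po_odd h, po_even]
  have h1 := Wp_ne h 0
  have h2 := h.hne (2 * i + 1) (by omega)
  field_simp

theorem W_one : Wp s q 1 / Wp s q 0 - 1 ∈ I O t 1 := by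
  have h1 := Wp_ne h 0
  have e : Wp s q 1 / Wp s q 0 - 1 = (Wp s q 0)⁻¹ * (Wp s q 1 - Wp s q 0) := by field_simp
  rw [e]
  exact mul_O (Wp_inv h 0) (Wp_cong h 1)

omit h in
theorem prod_q2 (i : ℕ) : ∏ j ∈ range i, (-(q⁻¹ ^ (2 * (j + 1)))) =
    (-1) ^ i * q⁻¹ ^ (i * (i + 1)) := by
  induction i with
  | zero => simp
  | succ i ih =>
    rw [prod_range_succ, ih, pow_succ, show (i + 1) * (i + 1 + 1) = i * (i + 1) + 2 * (i + 1) by ring,
      pow_add]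
    ring

theorem inv_even {j : ℕ} (h0 : 0 < j) (hj : j < 2 * s + 1) : (1 - q ^ (2 * j))⁻¹ ∈ O :=
  h.hinv _ (not_dvd_even h0 hj)

theorem g_cong {i : ℕ} (hi : i ≤ s) : gb (q ^ 2) (2 * s) i - (-1) ^ i * q⁻¹ ^ (i * (i + 1)) ∈
    I O t 1 := by
  rw [← prod_q2]
  unfold gb
  have hO1 : ∀ j ∈ range i, (1 - (q ^ 2) ^ (2 * s - j)) / (1 - (q ^ 2) ^ (j + 1)) ∈ O := by
    intro j hj
    have hj := mem_range.1 hj
    rw [div_eq_mul_inv, ← pow_mul, ← pow_mul]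
    exact O.mul_mem (O.sub_mem O.one_mem (qp_mem h _)) (inv_even h (Nat.succ_pos j) (by omega))
  refine cprod hO1 (fun j _ => O.neg_mem (qip_mem h _)) ?_
  intro j hj
  have hj := mem_range.1 hj
  have a1 := inv_even h (Nat.succ_pos j) (show j + 1 < 2 * s + 1 by omega)
  have a2 := h.hne (2 * (j + 1)) (by omega)
  have a3 : q ^ (2 * (j + 1)) ≠ 0 := pow_ne_zero _ h.h0
  have e1 : q ^ (2 * (2 * s - j)) * q ^ (2 * (j + 1)) = (1 - t) ^ 2 := by
    rw [← h.hw, ← pow_add, ← pow_mul]; congr 1; omega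
  rw [← pow_mul, ← pow_mul, inv_pow]
  have e2 : (1 - q ^ (2 * (2 * s - j))) / (1 - q ^ (2 * (j + 1))) - -(q ^ (2 * (j + 1)))⁻¹ =
      (-((1 - q ^ (2 * (j + 1)))⁻¹ * (q⁻¹ ^ (2 * (j + 1))))) * ((1 - t) ^ 2 - 1) := by
    rw [← e1, inv_pow]
    generalize q ^ (2 * (j + 1)) = y at *
    generalize q ^ (2 * (2 * s - j)) = z at *
    field_simp
    ring
  rw [e2]
  exact mul_O (O.neg_mem (O.mul_mem a1 (qip_mem h _))) (w_one h 2)

theorem odd_inv {i : ℕ} (hi : i < s) : (1 - q ^ (2 * i + 1))⁻¹ ∈ O := by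
  apply h.hinv
  intro h1
  have := Nat.le_of_dvd (by omega) h1
  omega

theorem gb_mem' {i : ℕ} (hi : i ≤ s) : gb (q ^ 2) (2 * s) i ∈ O := by
  unfold gb
  apply O.prod_mem
  intro j hj
  have hj := mem_range.1 hj
  rw [div_eq_mul_inv, ← pow_mul, ← pow_mul]
  exact O.mul_mem (O.sub_mem O.one_mem (qp_mem h _)) (inv_even h (Nat.succ_pos j) (by omega))

/-- the pair of terms -/
theorem pair_cong {i : ℕ} (hi : i < s) : fL q (2 * s) i + fL q (2 * s) (2 * s - i) +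
    t ^ 2 * ((-1) ^ i * q⁻¹ ^ (i ^ 2) * (1 + q ^ (2 * i + 1)) * (1 - q ^ (2 * i + 1))⁻¹ ^ 2) ∈
      I O t 3 := by
  have hQ := hq2 h.hne
  rw [fL_eq h, fL_eq h, ← gb_symm hQ (show i + (2 * s - i) = 2 * s by omega)]
  have hx := odd_inv h hi
  have hx1 := h.hne (2 * i + 1) (by omega)
  have hx0 : q ^ (2 * i + 1) ≠ 0 := pow_ne_zero _ h.h0
  have e1 : q ^ (2 * (2 * s - i) + 1) * q ^ (2 * i + 1) = (1 - t) ^ 2 := by
    rw [← h.hw, ← pow_add, ← pow_mul]; congr 1; omega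
  have e2 : q ^ (2 * s - i) * q ^ (2 * i + 1) = (1 - t) * q ^ i := by
    rw [← h.hw, ← pow_add, ← pow_add]; congr 1; omega
  have hX1 := h.hne (2 * (2 * s - i) + 1) (by omega)
  have hXi : (1 - q ^ (2 * (2 * s - i) + 1))⁻¹ ∈ O := by
    apply h.hinv
    rintro ⟨c, hc⟩
    have h3 : c < 2 := by
      by_contra h4
      have : (2 * s + 1) * 2 ≤ (2 * s + 1) * c := Nat.mul_le_mul_left _ (by omega)
      omega
    have h4 : c = 0 ∨ c = 1 := by omega
    rcases h4 with rfl | rfl <;> omega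
  have hg := g_cong h hi.le
  have hgO := gb_mem' h hi.le
  have hW := W_one h
  have hWO : Wp s q 1 / Wp s q 0 ∈ O := by
    rw [div_eq_mul_inv]; exact O.mul_mem (Wp_mem h 1) (Wp_inv h 0)
  have e3 : q ^ i * ((-1) ^ i * q⁻¹ ^ (i * (i + 1))) = (-1) ^ i * q⁻¹ ^ (i ^ 2) := by
    have : q ^ i ≠ 0 := pow_ne_zero _ h.h0
    rw [show i * (i + 1) = i ^ 2 + i by ring, pow_add, inv_pow q i]
    field_simp
  have hxO := qp_mem h (2 * i + 1)
  have hqi' := qp_mem h i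
  have hxi := qip_mem h (2 * i + 1)
  have hGO : (-1) ^ i * q⁻¹ ^ (i * (i + 1)) ∈ O :=
    O.mul_mem (O.pow_mem (O.neg_mem O.one_mem) _) (qip_mem h _)
  rw [← e3]
  rw [inv_pow] at hxi
  generalize gb (q ^ 2) (2 * s) i = g at *
  generalize (-1) ^ i * q⁻¹ ^ (i * (i + 1)) = G at *
  generalize Wp s q 1 / Wp s q 0 = W at *
  generalize q ^ (2 * i + 1) = x at *
  generalize q ^ (2 * (2 * s - i) + 1) = X at *
  generalize q ^ (2 * s - i) = z at *
  generalize q ^ i = y at *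
  have hz : z = (1 - t) * y * x⁻¹ := by field_simp; linear_combination e2
  have hX : X = (1 - t) ^ 2 * x⁻¹ := by field_simp; linear_combination e1
  have hxw : x - (1 - t) ^ 2 ≠ 0 := by
    intro h5
    apply hX1
    rw [hX, ← sub_eq_zero.1 h5]
    field_simp
    ring
  have hinv2 : (x - (1 - t) ^ 2)⁻¹ ∈ O := by
    have : (x - (1 - t) ^ 2)⁻¹ = (1 - X)⁻¹ * x⁻¹ := by
      rw [hX]; field_simp
    rw [this]
    exact O.mul_mem hXi hxi
  have e4 : t * W * (g * y) / (1 - x) + t * W * (g * z) / (1 - X) =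
      t ^ 2 * (W * g * y * (x + (1 - t)) * (1 - x)⁻¹ * (x - (1 - t) ^ 2)⁻¹) := by
    have : 1 - X = (x - (1 - t) ^ 2) * x⁻¹ := by rw [hX]; field_simp
    rw [this, hz]
    field_simp
    ring
  rw [e4, ← mul_add]
  refine mul_I (a := 2) (b := 1) (self_pow 2) ?_
  have e5 : W * g * y * (x + (1 - t)) * (1 - x)⁻¹ * (x - (1 - t) ^ 2)⁻¹ +
      y * G * (1 + x) * (1 - x)⁻¹ ^ 2 =
      (g * y * (x + (1 - t)) * (1 - x)⁻¹ * (x - (1 - t) ^ 2)⁻¹) * (W - 1) +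
      (y * (x + (1 - t)) * (1 - x)⁻¹ * (x - (1 - t) ^ 2)⁻¹) * (g - G) +
      (y * G * (1 - x)⁻¹) * ((x + (1 - t)) * (x - (1 - t) ^ 2)⁻¹ + (1 + x) * (1 - x)⁻¹) := by
    ring
  rw [e5]
  have ht := h.ht
  have m1 : x + (1 - t) ∈ O := O.add_mem hxO (O.sub_mem O.one_mem ht)
  refine (I O t 1).add_mem ((I O t 1).add_mem (mul_O ?_ hW) (mul_O ?_ hg)) (mul_O ?_ ?_)
  · exact O.mul_mem (O.mul_mem (O.mul_mem (O.mul_mem hgO hqi') m1) hx) hinv2
  · exact O.mul_mem (O.mul_mem (O.mul_mem hqi' m1) hx) hinv2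
  · exact O.mul_mem (O.mul_mem hqi' hGO) hx
  · have e6 : (x + (1 - t)) * (x - (1 - t) ^ 2)⁻¹ + (1 + x) * (1 - x)⁻¹ =
        (((x - (1 - t) ^ 2)⁻¹ * (1 - x)⁻¹) * (1 + x * 3 - t * (1 + x))) * t := by
      field_simp
      ring
    rw [e6]
    refine mul_O (O.mul_mem (O.mul_mem hinv2 hx) ?_) t_self
    refine O.sub_mem (O.add_mem O.one_mem (O.mul_mem hxO ?_)) (O.mul_mem ht (O.add_mem O.one_mem hxO))
    exact_mod_cast nat_O 3

/-- `y / (1 - y)²` at `y = q ^ (2 (j + 1))` -/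
def yy (q : K) (j : ℕ) : K := q ^ (2 * (j + 1)) * (1 - q ^ (2 * (j + 1)))⁻¹ ^ 2

theorem yy_mem {j : ℕ} (hj : j < 2 * s) : yy q j ∈ O :=
  O.mul_mem (qp_mem h _) (O.pow_mem (inv_even h (Nat.succ_pos j) (by omega)) _)

theorem W_one_eq : Wp s q 1 = ∏ j ∈ range s, ((1 - q ^ (2 * (s - 1 - j) + 1)) *
    (1 - q ^ (2 * s + 1 + 2 * (j + 1)))) := by
  unfold Wp
  rw [show 2 * s + 1 = s + (s + 1) by ring, prod_range_add, prod_range_succ', prod_mul_distrib,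
    show s + (s + 1) = 2 * s + 1 by ring, add_zero]
  have e0 : ff (2 * s + 1) q (1 + 2 * s) = 1 := by
    unfold ff; rw [if_pos ⟨1, by ring⟩]
  rw [e0, mul_one]
  congr 1
  · rw [← prod_range_reflect]
    apply prod_congr rfl
    intro j hj
    have hj := mem_range.1 hj
    unfold ff
    rw [if_neg]
    · congr 2; ring
    · intro h1
      have := (dvd_odd h (show s - 1 - j < 2 * s + 1 by omega)).1 h1
      omega
  · apply prod_congr rfl
    intro j hj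
    have hj := mem_range.1 hj
    unfold ff
    rw [if_neg]
    · congr 2; ring
    · intro h1
      have := (dvd_odd h (show s + (j + 1) < 2 * s + 1 by omega)).1 h1
      omega

/-- the middle term -/
theorem mid_eq : fL q (2 * s) s = ((-1) ^ s * q⁻¹ ^ (s ^ 2)) * (1 - t) ^ s *
    ∏ j ∈ range s, (1 - t ^ 2 * ((1 - t)⁻¹ * yy q j)) := by
  have hQ := hq2 h.hne
  rw [fL_eq h, h.hw, sub_sub_cancel]
  have ht0 : t ≠ 0 := by
    intro h1
    apply h.hne (2 * s + 1) (by omega)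
    rw [h.hw, h1]; ring
  have hw0 : 1 - t ≠ 0 := by rw [← h.hw]; exact pow_ne_zero _ h.h0
  have h1 := gb_ph hQ (show s ≤ 2 * s by omega)
  rw [show 2 * s - s = s by omega] at h1
  have h2 : ph (q ^ 2) (2 * s) = Wp s q 0 := by rw [ph_eq, po_even]
  rw [h2] at h1
  have h3 := Wp_ne h 0
  have h4 := ph_ne hQ s
  have h5 : gb (q ^ 2) (2 * s) s = Wp s q 0 / (ph (q ^ 2) s * ph (q ^ 2) s) := by
    rw [eq_div_iff (mul_ne_zero h4 h4), h1]
  rw [h5, W_one_eq h]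
  have e1 : t * ((∏ j ∈ range s, ((1 - q ^ (2 * (s - 1 - j) + 1)) *
      (1 - q ^ (2 * s + 1 + 2 * (j + 1))))) / Wp s q 0) *
      (Wp s q 0 / (ph (q ^ 2) s * ph (q ^ 2) s) * q ^ s) / t =
      q ^ s * ((∏ j ∈ range s, ((1 - q ^ (2 * (s - 1 - j) + 1)) *
      (1 - q ^ (2 * s + 1 + 2 * (j + 1))))) / (ph (q ^ 2) s * ph (q ^ 2) s)) := by
    field_simp
  rw [e1]
  unfold ph
  rw [← prod_mul_distrib, ← prod_div_distrib]
  have e2 : ∀ j ∈ range s, (1 - q ^ (2 * (s - 1 - j) + 1)) * (1 - q ^ (2 * s + 1 + 2 * (j + 1))) /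
      ((1 - (q ^ 2) ^ (j + 1)) * (1 - (q ^ 2) ^ (j + 1))) =
      (-(q⁻¹ ^ (2 * (j + 1)))) * (1 - t) * (1 - t ^ 2 * ((1 - t)⁻¹ * yy q j)) := by
    intro j hj
    have hj := mem_range.1 hj
    unfold yy
    have a1 : q ^ (2 * (s - 1 - j) + 1) * q ^ (2 * (j + 1)) = 1 - t := by
      rw [← h.hw, ← pow_add]; congr 1; omega
    have a2 : q ^ (2 * s + 1 + 2 * (j + 1)) = (1 - t) * q ^ (2 * (j + 1)) := by
      rw [pow_add, h.hw]
    have a3 := h.hne (2 * (j + 1)) (by omega)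
    have a4 : q ^ (2 * (j + 1)) ≠ 0 := pow_ne_zero _ h.h0
    rw [a2, ← pow_mul, inv_pow]
    generalize q ^ (2 * (j + 1)) = y at *
    generalize q ^ (2 * (s - 1 - j) + 1) = z at *
    have hz : z = (1 - t) * y⁻¹ := by field_simp; linear_combination a1
    rw [hz]
    field_simp
    ring
  rw [prod_congr rfl e2, prod_mul_distrib, prod_mul_distrib, prod_q2, prod_const, card_range]
  have e3 : q ^ s * (q⁻¹ ^ (s * (s + 1))) = q⁻¹ ^ (s ^ 2) := by
    have : q ^ s ≠ 0 := pow_ne_zero _ h.h0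
    rw [show s * (s + 1) = s ^ 2 + s by ring, pow_add, inv_pow q s]
    field_simp
  rw [← e3]
  ring

/-- `κ` -/
def kap (s : ℕ) (q : K) : K := (-1) ^ s * q⁻¹ ^ (s ^ 2)

theorem kap_mem : kap s q ∈ O :=
  O.mul_mem (O.pow_mem (O.neg_mem O.one_mem) _) (qip_mem h _)

theorem w_mem : 1 - t ∈ O := O.sub_mem O.one_mem h.ht

theorem wi_mem : (1 - t)⁻¹ ∈ O := by
  rw [← h.hw, ← inv_pow]; exact qip_mem h _

theorem w_ne : 1 - t ≠ 0 := by rw [← h.hw]; exact pow_ne_zero _ h.h0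

theorem wi_one (m : ℕ) : (1 - t)⁻¹ ^ m - 1 ∈ I O t 1 := by
  have h1 := w_one h m
  have h2 := pow_ne_zero m (w_ne h)
  have e : (1 - t)⁻¹ ^ m - 1 = -((1 - t)⁻¹ ^ m) * ((1 - t) ^ m - 1) := by
    rw [inv_pow]; field_simp; ring
  rw [e]
  exact mul_O (O.neg_mem (O.pow_mem (wi_mem h) _)) h1

theorem S2_mem : ∑ j ∈ range s, yy q j ∈ O := O.sum_mem fun j hj => yy_mem h (by
  have := mem_range.1 hj; omega)

theorem mid_cong : fL q (2 * s) s - kap s q * (1 - t) ^ s * (1 - t ^ 2 * ∑ j ∈ range s, yy q j) ∈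
    I O t 3 := by
  rw [mid_eq h]
  have h1 : ∏ j ∈ range s, (1 - t ^ 2 * ((1 - t)⁻¹ * yy q j)) -
      (1 - t ^ 2 * ∑ j ∈ range s, ((1 - t)⁻¹ * yy q j)) ∈ I O t 3 :=
    prod_t2 h.ht fun j hj => O.mul_mem (wi_mem h) (yy_mem h (by
      have := mem_range.1 hj; omega))
  rw [← mul_sum] at h1
  have h2 := wi_one h 1
  rw [pow_one] at h2
  have h3 := S2_mem h
  have h4 := kap_mem h
  have h5 := O.pow_mem (w_mem h) s
  unfold kap at *
  generalize ∏ j ∈ range s, (1 - t ^ 2 * ((1 - t)⁻¹ * yy q j)) = P at *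
  generalize ∑ j ∈ range s, yy q j = S at *
  have e : (-1) ^ s * q⁻¹ ^ s ^ 2 * (1 - t) ^ s * P - (-1) ^ s * q⁻¹ ^ s ^ 2 * (1 - t) ^ s *
      (1 - t ^ 2 * S) = ((-1) ^ s * q⁻¹ ^ s ^ 2 * (1 - t) ^ s) *
      ((P - (1 - t ^ 2 * ((1 - t)⁻¹ * S))) + t ^ 2 * ((-S) * ((1 - t)⁻¹ - 1))) := by ring
  rw [e]
  refine mul_O (O.mul_mem h4 h5) ((I O t 3).add_mem h1 ?_)
  exact mul_I (a := 2) (b := 1) (self_pow 2) (mul_O (O.neg_mem h3) h2)

/-- The sum `A`. -/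
def AA (s : ℕ) (q : K) : K := ∑ i ∈ range s, (-1) ^ i * q⁻¹ ^ (i ^ 2) * (1 + q ^ (2 * i + 1)) *
  (1 - q ^ (2 * i + 1))⁻¹ ^ 2

/-- `L_n` modulo the cube of `t` -/
theorem L_cong : ∑ k ∈ range (2 * s + 1), po q q (2 * k) / (po q q k) ^ 2 *
    (q ^ k / po q (-q) k) - (kap s q * (1 - t) ^ s * (1 - t ^ 2 * ∑ j ∈ range s, yy q j) -
      t ^ 2 * AA s q) ∈ I O t 3 := by
  rw [L_closed h.h0 h.hne, pair_sum]
  have h1 := mid_cong h
  have h2 : ∑ i ∈ range s, (fL q (2 * s) i + fL q (2 * s) (2 * s - i) +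
    t ^ 2 * ((-1) ^ i * q⁻¹ ^ (i ^ 2) * (1 + q ^ (2 * i + 1)) * (1 - q ^ (2 * i + 1))⁻¹ ^ 2)) ∈
      I O t 3 := (I O t 3).sum_mem fun i hi => pair_cong h (mem_range.1 hi)
  rw [sum_add_distrib, ← mul_sum] at h2
  have := (I O t 3).add_mem h1 h2
  unfold AA
  convert this using 1
  ring

end Q278.VC
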