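import Pool.Agent.Q278.VC

set_option autoImplicit false

/-! The sum `R_n` modulo the cube of `t = 1 - q ^ n`. -/

namespace Q278.VD

open Finset Q278.Loc Q278.VA Q278.VB Q278.VC

variable {K : Type*} [Field K] {O : Subring K} {s : ℕ} {q t : K}

theorem dvd_odd' {m : ℕ} (hm : m < 3 * s + 1) : (2 * s + 1) ∣ (1 + 2 * m) ↔ m = s := by
  constructor
  · rintro ⟨c, hc⟩
    have h1 : c < 3 := by
      by_contra h2
      have : (2 * s + 1) * 3 ≤ (2 * s + 1) * c := Nat.mul_le_mul_left _ (by omega)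
      omega
    have h3 : c = 0 ∨ c = 1 ∨ c = 2 := by omega
    rcases h3 with rfl | rfl | rfl <;> omega
  · rintro rfl
    exact ⟨1, by ring⟩

theorem dvd_even' {m : ℕ} (h0 : 0 < m) (hm : m < 2 * (2 * s + 1)) :
    (2 * s + 1) ∣ 2 * m ↔ m = 2 * s + 1 := by
  constructor
  · intro h1
    have h2 : Nat.Coprime (2 * s + 1) 2 := by
      rw [Nat.coprime_comm]; simp
    obtain ⟨c, hc⟩ := h2.dvd_of_dvd_mul_left h1
    have h1 : c < 2 := by
      by_contra h2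
      have : (2 * s + 1) * 2 ≤ (2 * s + 1) * c := Nat.mul_le_mul_left _ (by omega)
      omega
    have h3 : c = 0 ∨ c = 1 := by omega
    rcases h3 with rfl | rfl <;> omega
  · rintro rfl
    exact dvd_mul_left _ _

variable (h : Hyp O s q t)
include h

/-- the first product -/
theorem G1_cong {b : K} (hb : b ∈ O) (hb1 : b - 1 ∈ I O t 1) {i : ℕ} (hi : i < s) :
    ∃ G ∈ O, po (q ^ 2) (b * q ^ (2 * i + 1) * q ^ 2) (2 * s) = (1 - b * (1 - t)) * G ∧
      G * (1 - q ^ (2 * i + 1)) - Wp s q 0 ∈ I O t 1 := by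
  have hex : ∀ j, b * q ^ (2 * i + 1) * q ^ 2 * (q ^ 2) ^ j = b * q ^ (1 + 2 * (i + j + 1)) := by
    intro j
    rw [← pow_mul, mul_assoc b, ← pow_add, mul_assoc, ← pow_add]
    congr 2; ring
  refine ⟨∏ j ∈ range (2 * s), (if j = s - i - 1 then 1 else
    1 - b * q ^ (2 * i + 1) * q ^ 2 * (q ^ 2) ^ j), ?_, ?_, ?_⟩
  · apply O.prod_mem
    intro j _
    split_ifs
    · exact O.one_mem
    · rw [hex]; exact O.sub_mem O.one_mem (O.mul_mem hb (qp_mem h _))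
  · unfold po
    rw [pull (mem_range.2 (show s - i - 1 < 2 * s by omega))]
    congr 1
    rw [hex, show 1 + 2 * (i + (s - i - 1) + 1) = 2 * s + 1 by omega, h.hw]
  · have h1 : Wp s q (1 + 2 * i) = (∏ j ∈ range (2 * s), ff (2 * s + 1) q
        (1 + 2 * (i + j + 1))) * (1 - q ^ (2 * i + 1)) := by
      unfold Wp
      rw [prod_range_succ']
      congr 1
      · apply prod_congr rfl
        intro j _
        congr 1; ring
      · unfold ff
        rw [mul_zero, add_zero, if_neg]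
        · congr 2; ring
        · intro h2
          have := (dvd_odd' (s := s) (show i < 3 * s + 1 by omega)).1 h2
          omega
    have h2 : (∏ j ∈ range (2 * s), (if j = s - i - 1 then 1 else
        1 - b * q ^ (2 * i + 1) * q ^ 2 * (q ^ 2) ^ j)) - ∏ j ∈ range (2 * s), ff (2 * s + 1) q
        (1 + 2 * (i + j + 1)) ∈ I O t 1 := by
      apply cprod
      · intro j _
        split_ifs
        · exact O.one_mem
        · rw [hex]; exact O.sub_mem O.one_mem (O.mul_mem hb (qp_mem h _))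
      · intro j _
        exact ff_mem h _
      · intro j hj
        have hj := mem_range.1 hj
        unfold ff
        have h3 := dvd_odd' (s := s) (m := i + j + 1) (by omega)
        by_cases h4 : j = s - i - 1
        · rw [if_pos h4, if_pos (h3.2 (by omega)), sub_self]
          exact (I O t 1).zero_mem
        · rw [if_neg h4, if_neg (fun h5 => h4 (by have := h3.1 h5; omega)), hex]
          have e : 1 - b * q ^ (1 + 2 * (i + j + 1)) - (1 - q ^ (1 + 2 * (i + j + 1))) =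
              (-(q ^ (1 + 2 * (i + j + 1)))) * (b - 1) := by ring
          rw [e]
          exact mul_O (O.neg_mem (qp_mem h _)) hb1
    have h3 := Wp_cong h (1 + 2 * i)
    rw [h1] at h3
    have h4 := mul_O (O.sub_mem O.one_mem (qp_mem h (2 * i + 1))) h2
    have := (I O t 1).add_mem h3 h4
    convert this using 1
    ring

/-- the second product -/
theorem G2_cong {b : K} (hb0 : b ≠ 0) (hb : b ∈ O) (hbi : b⁻¹ ∈ O) (hb1 : b - 1 ∈ I O t 1)
    {i : ℕ} (hi : i < s) :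
    ∃ G ∈ O, po (q ^ 2) (q ^ 2 / (b * q ^ (2 * i + 1))) (2 * s) = (1 - (1 - t) * b⁻¹) * G ∧
      G * (1 - q ^ (2 * (s - i))) - Wp s q 0 ∈ I O t 1 := by
  have hw0 := w_ne h
  have hex : ∀ j, q ^ 2 / (b * q ^ (2 * i + 1)) * (q ^ 2) ^ j =
      b⁻¹ * (1 - t)⁻¹ * q ^ (2 * (s - i + j + 1)) := by
    intro j
    have e1 : q ^ (2 * (s - i + j + 1)) * q ^ (2 * i + 1) = (1 - t) * (q ^ 2) ^ (j + 1) := by
      rw [← h.hw, ← pow_add, ← pow_mul, ← pow_add]; congr 1; omega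
    have hx0 : q ^ (2 * i + 1) ≠ 0 := pow_ne_zero _ h.h0
    rw [pow_succ (q ^ 2) j] at e1
    field_simp
    linear_combination -e1
  have hmem : ∀ j, b⁻¹ * (1 - t)⁻¹ * q ^ (2 * (s - i + j + 1)) ∈ O := fun j =>
    O.mul_mem (O.mul_mem hbi (wi_mem h)) (qp_mem h _)
  refine ⟨∏ j ∈ range (2 * s), (if j = s + i then 1 else
    1 - q ^ 2 / (b * q ^ (2 * i + 1)) * (q ^ 2) ^ j), ?_, ?_, ?_⟩
  · apply O.prod_mem
    intro j _
    split_ifs
    · exact O.one_mem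
    · rw [hex]; exact O.sub_mem O.one_mem (hmem j)
  · unfold po
    rw [pull (mem_range.2 (show s + i < 2 * s by omega))]
    congr 1
    rw [hex, show 2 * (s - i + (s + i) + 1) = (2 * s + 1) + (2 * s + 1) by omega, pow_add, h.hw]
    field_simp
  · have h1 : Wp s q (2 * (s - i)) = (∏ j ∈ range (2 * s), ff (2 * s + 1) q
        (2 * (s - i + j + 1))) * (1 - q ^ (2 * (s - i))) := by
      unfold Wp
      rw [prod_range_succ']
      congr 1
      · apply prod_congr rfl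
        intro j _
        congr 1; ring
      · unfold ff
        rw [mul_zero, add_zero, if_neg]
        intro h2
        have := (dvd_even' (s := s) (show 0 < s - i by omega) (by omega)).1 h2
        omega
    have h2 : (∏ j ∈ range (2 * s), (if j = s + i then 1 else
        1 - q ^ 2 / (b * q ^ (2 * i + 1)) * (q ^ 2) ^ j)) - ∏ j ∈ range (2 * s), ff (2 * s + 1) q
        (2 * (s - i + j + 1)) ∈ I O t 1 := by
      apply cprod
      · intro j _
        split_ifs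
        · exact O.one_mem
        · rw [hex]; exact O.sub_mem O.one_mem (hmem j)
      · intro j _
        exact ff_mem h _
      · intro j hj
        have hj := mem_range.1 hj
        unfold ff
        have h3 := dvd_even' (s := s) (m := s - i + j + 1) (by omega) (by omega)
        by_cases h4 : j = s + i
        · rw [if_pos h4, if_pos (h3.2 (by omega)), sub_self]
          exact (I O t 1).zero_mem
        · rw [if_neg h4, if_neg (fun h5 => h4 (by have := h3.1 h5; omega)), hex]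
          have e : 1 - b⁻¹ * (1 - t)⁻¹ * q ^ (2 * (s - i + j + 1)) -
              (1 - q ^ (2 * (s - i + j + 1))) =
              (b⁻¹ * (1 - t)⁻¹ * q ^ (2 * (s - i + j + 1))) * ((b - 1) - b * t) := by
            field_simp
            ring
          rw [e]
          exact mul_O (hmem j) ((I O t 1).sub_mem hb1 (mul_O hb t_self))
    have h3 := Wp_cong h (2 * (s - i))
    rw [h1] at h3
    have h4 := mul_O (O.sub_mem O.one_mem (qp_mem h (2 * (s - i)))) h2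
    have := (I O t 1).add_mem h3 h4
    convert this using 1
    ring

omit h in
theorem D_mem {b : K} (hb : b ∈ O) (hb0 : b ≠ 0) (hbi : b⁻¹ ∈ O) (hb1 : b - 1 ∈ I O t 1) :
    (1 - b * (1 - t)) * (1 - (1 - t) * b⁻¹) ∈ I O t 2 := by
  refine mul_I (a := 1) (b := 1) ?_ ?_
  · have e : 1 - b * (1 - t) = b * t - (b - 1) := by ring
    rw [e]
    exact (I O t 1).sub_mem (mul_O hb t_self) hb1
  · have e : 1 - (1 - t) * b⁻¹ = b⁻¹ * (t + (b - 1)) := by field_simp; ring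
    rw [e]
    exact mul_O hbi ((I O t 1).add_mem t_self hb1)

theorem E_cong {b : K} (hb : b ∈ O) (hb0 : b ≠ 0) (hbi : b⁻¹ ∈ O) (hb1 : b - 1 ∈ I O t 1)
    {i : ℕ} (hi : i < s) : EE (q ^ 2) (b * q ^ (2 * i + 1)) (2 * s) +
      (1 - b * (1 - t)) * (1 - (1 - t) * b⁻¹) *
        (q ^ (2 * i + 1) * (1 + q ^ (2 * i + 1)) * (1 - q ^ (2 * i + 1))⁻¹ ^ 2) ∈ I O t 3 := by
  obtain ⟨G1, hG1, e1, c1⟩ := G1_cong h hb hb1 hi
  obtain ⟨G2, hG2, e2, c2⟩ := G2_cong h hb0 hb hbi hb1 hi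
  have hD := D_mem hb hb0 hbi hb1
  unfold EE
  rw [e1, e2, po_even]
  have hW0 := Wp_ne h 0
  have hWi := Wp_inv h 0
  have hWO := Wp_mem h 0
  have hx := odd_inv h hi
  have hx1 := h.hne (2 * i + 1) (by omega)
  have hxO := qp_mem h (2 * i + 1)
  have huO := qp_mem h (2 * (s - i))
  have hu := inv_even h (show 0 < s - i by omega) (by omega)
  have hu1 := h.hne (2 * (s - i)) (by omega)
  have hux : q ^ (2 * (s - i)) * q ^ (2 * i + 1) = 1 - t := by
    rw [← h.hw, ← pow_add]; congr 1; omega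
  generalize q ^ (2 * i + 1) = x at *
  generalize q ^ (2 * (s - i)) = u at *
  generalize Wp s q 0 = W at *
  have e3 : (1 + b * x) * ((1 - b * (1 - t)) * G1) * ((1 - (1 - t) * b⁻¹) * G2) / W ^ 2 +
      (1 - b * (1 - t)) * (1 - (1 - t) * b⁻¹) * (x * (1 + x) * (1 - x)⁻¹ ^ 2) =
      ((1 - b * (1 - t)) * (1 - (1 - t) * b⁻¹)) *
        ((W⁻¹ ^ 2 * (1 + b * x) * (1 - u)⁻¹ * (1 - x)⁻¹ * (G2 * (1 - u))) * (G1 * (1 - x) - W) +
        (W⁻¹ * (1 + b * x) * (1 - u)⁻¹ * (1 - x)⁻¹) * (G2 * (1 - u) - W) +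
        (x * (1 - x)⁻¹ * (1 - u)⁻¹) * (b - 1) +
        ((1 + x) * (1 - x)⁻¹) * ((1 - u)⁻¹ + x * (1 - x)⁻¹)) := by
    field_simp
    ring
  rw [e3]
  refine mul_I (a := 2) (b := 1) hD ?_
  have o1 := O.one_mem
  have m1 : 1 + b * x ∈ O := O.add_mem o1 (O.mul_mem hb hxO)
  refine (I O t 1).add_mem ((I O t 1).add_mem ((I O t 1).add_mem (mul_O ?_ c1) (mul_O ?_ c2))
    (mul_O ?_ hb1)) (mul_O ?_ ?_)
  · exact O.mul_mem (O.mul_mem (O.mul_mem (O.mul_mem (O.pow_mem hWi 2) m1) hu) hx)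
      (O.mul_mem hG2 (O.sub_mem o1 huO))
  · exact O.mul_mem (O.mul_mem (O.mul_mem hWi m1) hu) hx
  · exact O.mul_mem (O.mul_mem hxO hx) hu
  · exact O.mul_mem (O.add_mem o1 hxO) hx
  · have e4 : (1 - u)⁻¹ + x * (1 - x)⁻¹ = ((1 - u)⁻¹ * (1 - x)⁻¹) * t := by
      have : t = 1 - u * x := by rw [hux]; ring
      rw [this]
      field_simp
      ring
    rw [e4]
    exact mul_O (O.mul_mem hu hx) t_self

theorem ka_one (b : K) (hb1 : b⁻¹ - 1 ∈ I O t 1) (hbi : b⁻¹ ∈ O) (i : ℕ) :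
    ka q b i - ka q 1 i ∈ I O t 1 := by
  unfold ka
  have h1 : b⁻¹ ^ i - 1 ∈ I O t 1 := by
    induction i with
    | zero => simp [(I O t 1).zero_mem]
    | succ i ih =>
      have e : b⁻¹ ^ (i + 1) - 1 = b⁻¹ * (b⁻¹ ^ i - 1) + (b⁻¹ - 1) := by ring
      rw [e]
      exact (I O t 1).add_mem (mul_O hbi ih) hb1
  have e : (-1) ^ i * q⁻¹ ^ i ^ 2 * b⁻¹ ^ i - (-1) ^ i * q⁻¹ ^ i ^ 2 * 1⁻¹ ^ i =
      ((-1) ^ i * q⁻¹ ^ i ^ 2) * (b⁻¹ ^ i - 1) := by
    rw [inv_one, one_pow]; ring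
  rw [e]
  exact mul_O (O.mul_mem (O.pow_mem (O.neg_mem O.one_mem) _) (qip_mem h _)) h1

theorem sumE_cong {b : K} (hb : b ∈ O) (hb0 : b ≠ 0) (hbi : b⁻¹ ∈ O) (hb1 : b - 1 ∈ I O t 1) :
    ∑ j ∈ range s, ka q b (j + 1) * EE (q ^ 2) (b * q ^ (2 * j + 1)) (2 * s) -
      (1 - b * (1 - t)) * (1 - (1 - t) * b⁻¹) * AA s q ∈ I O t 3 := by
  unfold AA
  rw [mul_sum, ← sum_sub_distrib]
  apply (I O t 3).sum_mem
  intro i hi
  have hi := mem_range.1 hi
  have h1 := E_cong h hb hb0 hbi hb1 hi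
  have hbi1 : b⁻¹ - 1 ∈ I O t 1 := by
    have e : b⁻¹ - 1 = (-b⁻¹) * (b - 1) := by field_simp; ring
    rw [e]; exact mul_O (O.neg_mem hbi) hb1
  have h2 := ka_one h b hbi1 hbi (i + 1)
  have h3 := ka_succ h.h0 (one_ne_zero (α := K)) i
  rw [one_mul] at h3
  have h4 : ka q (1 : K) i = (-1) ^ i * q⁻¹ ^ (i ^ 2) := by unfold ka; simp
  have hD := D_mem hb hb0 hbi hb1
  have hkO : ∀ m, ka q b m ∈ O := fun m => by
    unfold ka
    exact O.mul_mem (O.mul_mem (O.pow_mem (O.neg_mem O.one_mem) _) (qip_mem h _))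
      (O.pow_mem hbi _)
  have hk := hkO (i + 1)
  have hx := odd_inv h hi
  have hxO := qp_mem h (2 * i + 1)
  rw [← h4]
  generalize ka q (1 : K) i = k0 at *
  generalize ka q (1 : K) (i + 1) = k1 at *
  generalize ka q b (i + 1) = kb at *
  generalize q ^ (2 * i + 1) = x at *
  generalize EE (q ^ 2) (b * x) (2 * s) = E at *
  generalize (1 - b * (1 - t)) * (1 - (1 - t) * b⁻¹) = D at *
  generalize (1 - x)⁻¹ = r at *
  have e : kb * E - D * (k0 * (1 + x) * r ^ 2) = kb * (E + D * (x * (1 + x) * r ^ 2)) -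
      D * ((x * (1 + x) * r ^ 2) * (kb - k1)) := by
    linear_combination (-(D * (1 + x) * r ^ 2)) * h3
  rw [e]
  refine (I O t 3).sub_mem (mul_O hk h1) (mul_I (a := 2) (b := 1) hD (mul_O ?_ h2))
  exact O.mul_mem (O.mul_mem hxO (O.add_mem O.one_mem hxO)) (O.pow_mem hx 2)

/-- `T` as a function of `ε`. -/
theorem T_lin : ∃ r ∈ O, ∀ a : K, a ≠ 0 → a + a⁻¹ - 2 ∈ I O t 2 →
    T (q ^ 2) (a * q) (2 * s + 1) - T (q ^ 2) q (2 * s + 1) - r * (a + a⁻¹ - 2) ∈ I O t 3 := by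
  have key : ∀ a : K, a ≠ 0 → T (q ^ 2) (a * q) (2 * s + 1) = ∑ k ∈ range (2 * s + 1),
      ((q ^ 2) ^ k / po (q ^ 2) (q ^ 2) k ^ 2) * ∏ j ∈ range k, ((1 - q ^ (2 * j + 1)) ^ 2 -
        q ^ (2 * j + 1) * (a + a⁻¹ - 2)) := by
    intro a ha
    unfold T tt
    apply sum_congr rfl
    intro k _
    have e : po (q ^ 2) (a * q) k * po (q ^ 2) (q ^ 2 / (a * q)) k =
        ∏ j ∈ range k, ((1 - q ^ (2 * j + 1)) ^ 2 - q ^ (2 * j + 1) * (a + a⁻¹ - 2)) := by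
      unfold po
      rw [← prod_mul_distrib]
      apply prod_congr rfl
      intro j _
      have h0 := h.h0
      have e1 : q ^ 2 / (a * q) = a⁻¹ * q := by field_simp
      have e2 : q ^ (2 * j + 1) = q * (q ^ 2) ^ j := by rw [← pow_mul]; ring
      rw [e1, e2]
      field_simp
      ring
    rw [← e]
    ring
  obtain ⟨r, hr, hh⟩ := sum_lin (c := fun k => (q ^ 2) ^ k / po (q ^ 2) (q ^ 2) k ^ 2)
    (u := fun j => (1 - q ^ (2 * j + 1)) ^ 2) (v := fun j => q ^ (2 * j + 1)) h.ht (2 * s + 1)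
    (fun k hk => by
      rw [div_eq_mul_inv, ← pow_mul]
      refine O.mul_mem (qp_mem h _) ?_
      rw [← inv_pow]
      apply O.pow_mem
      unfold po
      rw [← prod_inv_distrib]
      apply O.prod_mem
      intro j hj
      have hj := mem_range.1 hj
      rw [← pow_succ', ← pow_mul]
      exact inv_even h (Nat.succ_pos j) (by omega))
    (fun j _ => O.pow_mem (O.sub_mem O.one_mem (qp_mem h _)) 2)
    (fun j _ => qp_mem h _)
  refine ⟨r, hr, fun a ha hε => ?_⟩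
  have h1 := hh _ hε
  have h2 := key 1 one_ne_zero
  rw [one_mul] at h2
  have h3 : ∀ j : ℕ, (1 - q ^ (2 * j + 1)) ^ 2 - q ^ (2 * j + 1) * (1 + (1 : K)⁻¹ - 2) =
      (1 - q ^ (2 * j + 1)) ^ 2 := by
    intro j; rw [inv_one]; ring
  simp only [h3] at h2
  rw [key a ha, h2]
  exact h1

theorem kap_w : T (q ^ 2) ((1 - t) * q) (2 * s + 1) = kap s q * (1 - t) ^ s := by
  have h1 := T_pow (m := 2 * s) h.h0 (poQ_ne h.hne) (show s ≤ 2 * s by omega)
  have e : (q ^ 2) ^ (s + 1) = (1 - t) * q := by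
    rw [← h.hw, ← pow_mul, ← pow_succ]; congr 1
  rw [e] at h1
  rw [h1]
  unfold kap
  have h0 := h.h0
  rw [← h.hw, ← pow_mul, inv_pow]
  have e2 : (2 * s + 1) * s = s ^ 2 + s * (s + 1) := by ring
  rw [e2, pow_add q (s ^ 2)]
  have : q ^ (s ^ 2) ≠ 0 := pow_ne_zero _ h0
  field_simp

theorem R_two : T (q ^ 2) ((1 - t)⁻¹ ^ 2 * q) (2 * s + 1) - 4 * (kap s q * (1 - t) ^ s) +
    3 * T (q ^ 2) q (2 * s + 1) ∈ I O t 3 := by
  obtain ⟨r, hr, hh⟩ := T_lin h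
  have hw0 := w_ne h
  have hwi := wi_mem h
  have e1 : (1 - t) + (1 - t)⁻¹ - 2 = t ^ 2 * (1 - t)⁻¹ := by field_simp; ring
  have e2 : (1 - t)⁻¹ ^ 2 + ((1 - t)⁻¹ ^ 2)⁻¹ - 2 = t ^ 2 * ((2 - t) ^ 2 * (1 - t)⁻¹ ^ 2) := by
    field_simp
    ring
  have two : (2 : K) ∈ O := by exact_mod_cast nat_O 2
  have three : (3 : K) ∈ O := by exact_mod_cast nat_O 3
  have four : (4 : K) ∈ O := by exact_mod_cast nat_O 4
  have c1 := hh (1 - t) hw0 (by rw [e1]; exact ⟨_, hwi, rfl⟩)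
  have c2 := hh ((1 - t)⁻¹ ^ 2) (pow_ne_zero _ (inv_ne_zero hw0)) (by
    rw [e2]
    exact ⟨_, O.mul_mem (O.pow_mem (O.sub_mem two h.ht) 2) (O.pow_mem hwi 2), rfl⟩)
  rw [e1, kap_w h] at c1
  rw [e2] at c2
  generalize T (q ^ 2) ((1 - t)⁻¹ ^ 2 * q) (2 * s + 1) = X at *
  generalize T (q ^ 2) q (2 * s + 1) = Y at *
  generalize kap s q * (1 - t) ^ s = Z at *
  have e3 : X - 4 * Z + 3 * Y = (X - Y - r * (t ^ 2 * ((2 - t) ^ 2 * (1 - t)⁻¹ ^ 2))) -
      4 * (Z - Y - r * (t ^ 2 * (1 - t)⁻¹)) + t ^ 3 * (r * t * (1 - t)⁻¹ ^ 2) := by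
    field_simp
    ring
  rw [e3]
  refine (I O t 3).add_mem ((I O t 3).sub_mem c2 (mul_O four c1)) ⟨_, ?_, rfl⟩
  exact O.mul_mem (O.mul_mem hr h.ht) (O.pow_mem hwi 2)

/-- (a) -/
theorem part_a : kap s q * T (q ^ 2) (1 - t) (2 * s + 1) - (T (q ^ 2) q (2 * s + 1) +
    t ^ 2 * AA s q) ∈ I O t 3 := by
  have h1 := T_iter h.h0 (one_ne_zero (α := K)) (poQ_ne h.hne) (2 * s) s
  have h2 := sumE_cong h O.one_mem one_ne_zero (by simp)
    (by simp [(I O t 1).zero_mem])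
  have h3 : ka q (1 : K) s = kap s q := by unfold ka kap; simp
  rw [one_mul, one_mul, h3, h.hw] at h1
  rw [h1]
  convert h2 using 1
  rw [inv_one]
  ring

/-- (b) -/
theorem part_b : kap s q * (1 - t) ^ (2 * s) * T (q ^ 2) (1 - t)⁻¹ (2 * s + 1) -
    (T (q ^ 2) ((1 - t)⁻¹ ^ 2 * q) (2 * s + 1) - 3 * (t ^ 2 * AA s q)) ∈ I O t 3 := by
  have hw0 := w_ne h
  have hwi := wi_mem h
  have hb0 : (1 - t)⁻¹ ^ 2 ≠ 0 := pow_ne_zero _ (inv_ne_zero hw0)
  have h1 := T_iter h.h0 hb0 (poQ_ne h.hne) (2 * s) s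
  have hbi : ((1 - t)⁻¹ ^ 2)⁻¹ = (1 - t) ^ 2 := by field_simp
  have h2 := sumE_cong h (O.pow_mem hwi 2) hb0 (by rw [hbi]; exact O.pow_mem (w_mem h) 2)
    (wi_one h 2)
  have h3 : ka q ((1 - t)⁻¹ ^ 2) s = kap s q * (1 - t) ^ (2 * s) := by
    unfold ka kap
    rw [hbi, pow_mul]
  have h4 : (1 - t)⁻¹ ^ 2 * q ^ (2 * s + 1) = (1 - t)⁻¹ := by
    rw [h.hw]; field_simp
  rw [h3, h4] at h1
  rw [h1]
  have three : (3 : K) ∈ O := by exact_mod_cast nat_O 3
  have hA : AA s q ∈ O := by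
    unfold AA
    apply O.sum_mem
    intro i hi
    have hi := mem_range.1 hi
    exact O.mul_mem (O.mul_mem (O.mul_mem (O.pow_mem (O.neg_mem O.one_mem) _) (qip_mem h _))
      (O.add_mem O.one_mem (qp_mem h _))) (O.pow_mem (odd_inv h hi) 2)
  have e : T (q ^ 2) ((1 - t)⁻¹ ^ 2 * q) (2 * s + 1) + ∑ j ∈ range s,
      ka q ((1 - t)⁻¹ ^ 2) (j + 1) * EE (q ^ 2) ((1 - t)⁻¹ ^ 2 * q ^ (2 * j + 1)) (2 * s) -
      (T (q ^ 2) ((1 - t)⁻¹ ^ 2 * q) (2 * s + 1) - 3 * (t ^ 2 * AA s q)) =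
      (∑ j ∈ range s,
      ka q ((1 - t)⁻¹ ^ 2) (j + 1) * EE (q ^ 2) ((1 - t)⁻¹ ^ 2 * q ^ (2 * j + 1)) (2 * s) -
      (1 - (1 - t)⁻¹ ^ 2 * (1 - t)) * (1 - (1 - t) * ((1 - t)⁻¹ ^ 2)⁻¹) * AA s q) +
      t ^ 3 * ((-(1 - t)⁻¹ + 1) * 0 + AA s q * (1 - t)⁻¹ * (-t)) := by
    rw [hbi]
    field_simp
    ring
  rw [e]
  refine (I O t 3).add_mem h2 ⟨_, ?_, rfl⟩
  rw [mul_zero, zero_add]
  exact O.mul_mem (O.mul_mem hA hwi) (O.neg_mem h.ht)

/-- (d) -/
theorem part_d : T (q ^ 2) (1 - t)⁻¹ (2 * s + 1) + (1 - t) * T (q ^ 2) (1 - t) (2 * s + 1) -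
    (2 - t) * (1 - t ^ 2 * ∑ j ∈ range (2 * s), yy q j) ∈ I O t 3 := by
  have hw0 := w_ne h
  have hwi := wi_mem h
  have h0 := h.h0
  have h1 := T_func (pow_ne_zero 2 h.h0) (poQ_ne h.hne) hw0 (2 * s)
  have h2 := T_symm (A := (1 - t) * q ^ 2) (pow_ne_zero 2 h.h0) (2 * s + 1)
  have h3 : q ^ 2 / ((1 - t) * q ^ 2) = (1 - t)⁻¹ := by field_simp
  rw [h3] at h2
  rw [h2, h1]
  unfold EE
  have e1 : po (q ^ 2) ((1 - t) * q ^ 2) (2 * s) * po (q ^ 2) (q ^ 2 / (1 - t)) (2 * s) /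
      po (q ^ 2) (q ^ 2) (2 * s) ^ 2 = ∏ j ∈ range (2 * s), (1 - t ^ 2 * ((1 - t)⁻¹ * yy q j)) := by
    unfold po
    rw [← prod_mul_distrib, ← prod_pow, ← prod_div_distrib]
    apply prod_congr rfl
    intro j _
    unfold yy
    have a3 := h.hne (2 * (j + 1)) (by omega)
    have e2 : q ^ 2 * (q ^ 2) ^ j = q ^ (2 * (j + 1)) := by rw [← pow_succ', ← pow_mul]
    have e3 : (1 - t) * q ^ 2 * (q ^ 2) ^ j = (1 - t) * q ^ (2 * (j + 1)) := by
      rw [← e2]; ring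
    have e4 : q ^ 2 / (1 - t) * (q ^ 2) ^ j = (1 - t)⁻¹ * q ^ (2 * (j + 1)) := by
      rw [← e2]; ring
    rw [e2, e3, e4]
    field_simp
    ring
  have e5 : (1 + (1 - t)) * po (q ^ 2) ((1 - t) * q ^ 2) (2 * s) *
      po (q ^ 2) (q ^ 2 / (1 - t)) (2 * s) / po (q ^ 2) (q ^ 2) (2 * s) ^ 2 = (2 - t) *
      (po (q ^ 2) ((1 - t) * q ^ 2) (2 * s) * po (q ^ 2) (q ^ 2 / (1 - t)) (2 * s) /
      po (q ^ 2) (q ^ 2) (2 * s) ^ 2) := by ring
  rw [e5, e1]
  have h4 : ∏ j ∈ range (2 * s), (1 - t ^ 2 * ((1 - t)⁻¹ * yy q j)) -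
      (1 - t ^ 2 * ∑ j ∈ range (2 * s), ((1 - t)⁻¹ * yy q j)) ∈ I O t 3 :=
    prod_t2 h.ht fun j hj => O.mul_mem hwi (yy_mem h (mem_range.1 hj))
  rw [← mul_sum] at h4
  have h5 : ∑ j ∈ range (2 * s), yy q j ∈ O := O.sum_mem fun j hj => yy_mem h (mem_range.1 hj)
  have h6 := wi_one h 1
  rw [pow_one] at h6
  generalize ∏ j ∈ range (2 * s), (1 - t ^ 2 * ((1 - t)⁻¹ * yy q j)) = P at *
  generalize ∑ j ∈ range (2 * s), yy q j = S at *
  have two : (2 : K) ∈ O := by exact_mod_cast nat_O 2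
  have e : (2 - t) * P - (2 - t) * (1 - t ^ 2 * S) = (2 - t) *
      ((P - (1 - t ^ 2 * ((1 - t)⁻¹ * S))) - t ^ 2 * (S * ((1 - t)⁻¹ - 1))) := by ring
  rw [e]
  refine mul_O (O.sub_mem two h.ht) ((I O t 3).sub_mem h4 ?_)
  exact mul_I (a := 2) (b := 1) (self_pow 2) (mul_O h5 h6)

section final

variable [CharZero K]

theorem vhyp : VWP.Hyp O (2 * s + 1) 2 (q⁻¹ ^ 2) (1 - t) t := by
  have h0 := h.h0
  have hq2 : ∀ j, (q⁻¹ ^ 2) ^ j = (q ^ (2 * j))⁻¹ := by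
    intro j; rw [← pow_mul, inv_pow]
  refine ⟨h.ht, rfl, w_ne h, wi_mem h, qip_mem h 2, pow_ne_zero _ (inv_ne_zero h0), ?_, ?_, ?_, ?_,
    h.hnat, by omega⟩
  · rw [inv_pow, inv_inv]; exact qp_mem h 2
  · rw [hq2, ← h.hw, ← pow_mul, mul_comm (2 * s + 1) 2]
    exact inv_mul_cancel₀ (pow_ne_zero _ h0)
  · intro j hj0 hj
    rw [hq2]
    have h1 := h.hne (2 * j) (by omega)
    have h2 : q ^ (2 * j) ≠ 0 := pow_ne_zero _ h0
    have h3 : 1 - (q ^ (2 * j))⁻¹ = -((1 - q ^ (2 * j)) * (q ^ (2 * j))⁻¹) := by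
      field_simp
      ring
    have e : (1 - (q ^ (2 * j))⁻¹)⁻¹ = -(q ^ (2 * j)) * (1 - q ^ (2 * j))⁻¹ := by
      rw [h3, inv_neg, mul_inv, inv_inv]; ring
    rw [e]
    exact O.mul_mem (O.neg_mem (qp_mem h _)) (inv_even h hj0 hj)
  · intro j hj0 _
    rw [hq2]
    have h1 := h.hne (2 * j) (by omega)
    have h2 : q ^ (2 * j) ≠ 0 := pow_ne_zero _ h0
    intro h3
    apply h1
    have h4 : (q ^ (2 * j))⁻¹ = 1 := (sub_eq_zero.1 h3).symm
    rw [inv_eq_one] at h4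
    rw [h4, sub_self]

theorem Sf_val : ∑ j ∈ range (2 * s), yy q j + (s : K) * (s + 1) / 3 ∈ I O t 1 := by
  have h1 := VWP.F_val (vhyp h)
  rw [show 2 * s + 1 - 1 = 2 * s by omega] at h1
  have h2 : ∑ j ∈ range (2 * s), (VWP.v (q⁻¹ ^ 2) (j + 1) - VWP.v (q⁻¹ ^ 2) (j + 1) ^ 2) =
      -∑ j ∈ range (2 * s), yy q j := by
    rw [← sum_neg_distrib]
    apply sum_congr rfl
    intro j _
    unfold VWP.v yy
    have h3 := h.hne (2 * (j + 1)) (by omega)
    rw [inv_pow q 2, inv_inv, ← pow_mul]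
    field_simp
    ring
  rw [h2] at h1
  have := (I O t 1).neg_mem h1
  convert this using 1
  push_cast
  ring

theorem Sf_two : 2 * ∑ j ∈ range s, yy q j - ∑ j ∈ range (2 * s), yy q j ∈ I O t 1 := by
  have e : ∑ j ∈ range (2 * s), yy q j = ∑ j ∈ range s, (yy q j + yy q (2 * s - 1 - j)) := by
    rw [show 2 * s = s + s by ring, sum_range_add, sum_add_distrib,
      ← sum_range_reflect (fun j => yy q (s + j))]
    congr 1
    apply sum_congr rfl
    intro j hj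
    have := mem_range.1 hj
    congr 1
    omega
  rw [e, mul_sum, ← sum_sub_distrib]
  apply (I O t 1).sum_mem
  intro j hj
  have hj := mem_range.1 hj
  unfold yy
  have h1 := h.hne (2 * (j + 1)) (by omega)
  have h2 := h.hne (2 * (2 * s - 1 - j + 1)) (by omega)
  have h3 := inv_even h (Nat.succ_pos j) (show j + 1 < 2 * s + 1 by omega)
  have h4 := inv_even h (Nat.succ_pos (2 * s - 1 - j)) (by omega)
  have h5 : q ^ (2 * (2 * s - 1 - j + 1)) * q ^ (2 * (j + 1)) = (1 - t) ^ 2 := by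
    rw [← h.hw, ← pow_mul, ← pow_add]; congr 1; omega
  have h6 := qp_mem h (2 * (j + 1))
  have h7 := qp_mem h (2 * (2 * s - 1 - j + 1))
  have h8 : q ^ (2 * (j + 1)) ≠ 0 := pow_ne_zero _ h.h0
  rw [Nat.succ_eq_add_one] at h3 h4
  generalize q ^ (2 * (j + 1)) = y at *
  generalize q ^ (2 * (2 * s - 1 - j + 1)) = z at *
  have two : (2 : K) ∈ O := by exact_mod_cast nat_O 2
  have h9 : 1 - y * z = (2 - t) * t := by linear_combination -h5
  have e : 2 * (y * (1 - y)⁻¹ ^ 2) - (y * (1 - y)⁻¹ ^ 2 + z * (1 - z)⁻¹ ^ 2) =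
      ((y - z) * ((1 - y)⁻¹ * (1 - z)⁻¹) ^ 2) * ((2 - t) * t) := by
    rw [← h9]
    field_simp
    ring
  rw [e, ← mul_assoc]
  exact mul_O (O.mul_mem (O.mul_mem (O.sub_mem h6 h7) (O.pow_mem (O.mul_mem h3 h4) 2))
    (O.sub_mem two h.ht)) t_self

theorem wm_two (m : ℕ) : 1 - (1 - t) ^ m - m * t ∈ I O t 2 := by
  obtain ⟨W, hW, he⟩ := expand (O := O) t h.ht m
  refine ⟨-(m.choose 2 : K) + (m.choose 3 : K) * t - (m.choose 4 : K) * t ^ 2 - t ^ 3 * W, ?_, ?_⟩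
  · exact O.sub_mem (O.sub_mem (O.add_mem (O.neg_mem (nat_O _)) (O.mul_mem (nat_O _) h.ht))
      (O.mul_mem (nat_O _) (O.pow_mem h.ht _))) (O.mul_mem (O.pow_mem h.ht _) hW)
  · rw [he]; ring

theorem main : ∑ k ∈ range (2 * s + 1), po q q (2 * k) / (po q q k) ^ 2 *
    (q ^ k / po q (-q) k) - T (q ^ 2) q (2 * s + 1) ∈ I O t 3 := by
  have hL := L_cong h
  have ha := part_a h
  have hb := part_b h
  have hc := R_two h
  have hd := part_d h
  have hS := Sf_val h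
  have hS2 := Sf_two h
  have hk := kap_mem h
  have hw := w_mem h
  have half : (2 : K)⁻¹ ∈ O := by have := h.hnat 2 (by norm_num); exact_mod_cast this
  have third : (3 : K)⁻¹ ∈ O := by have := h.hnat 3 (by norm_num); exact_mod_cast this
  have two : (2 : K) ∈ O := by exact_mod_cast nat_O 2
  have three : (3 : K) ∈ O := by exact_mod_cast nat_O 3
  have hsO : (s : K) ∈ O := nat_O s
  have hSfO : ∑ j ∈ range (2 * s), yy q j ∈ O :=
    O.sum_mem fun j hj => yy_mem h (mem_range.1 hj)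
  have hTO : T (q ^ 2) (1 - t) (2 * s + 1) ∈ O := by
    unfold T tt
    apply O.sum_mem
    intro k hk
    have hk := mem_range.1 hk
    rw [div_eq_mul_inv, ← pow_mul]
    refine O.mul_mem (O.mul_mem (O.mul_mem (qp_mem h _) ?_) ?_) ?_
    · unfold po
      exact O.prod_mem fun j _ => O.sub_mem O.one_mem (O.mul_mem hw (by
        rw [← pow_mul]; exact qp_mem h _))
    · unfold po
      refine O.prod_mem fun j _ => O.sub_mem O.one_mem (O.mul_mem ?_ (by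
        rw [← pow_mul]; exact qp_mem h _))
      rw [div_eq_mul_inv]
      exact O.mul_mem (qp_mem h _) (wi_mem h)
    · rw [← inv_pow]
      apply O.pow_mem
      unfold po
      rw [← prod_inv_distrib]
      apply O.prod_mem
      intro j hj
      have hj := mem_range.1 hj
      rw [← pow_succ', ← pow_mul]
      exact inv_even h (Nat.succ_pos j) (by omega)
  have w1 := wm_two h s
  have w2 := wm_two h (s + 1)
  have w3 := w_one h s
  have w4 := w_one h (2 * s + 1)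
  have w1O : (1 - t) ^ s ∈ O := O.pow_mem hw s
  have w2sO : (1 - t) ^ (2 * s) ∈ O := O.pow_mem hw _
  have e2s : (1 - t) ^ (2 * s) = ((1 - t) ^ s) ^ 2 := by rw [← pow_mul, mul_comm]
  have e2s1 : (1 - t) ^ (2 * s + 1) = ((1 - t) ^ s) ^ 2 * (1 - t) := by rw [pow_succ, e2s]
  have es1 : (1 - t) ^ (s + 1) = (1 - t) ^ s * (1 - t) := pow_succ _ _
  push_cast at w2
  have ht := h.ht
  rw [es1] at w2
  rw [e2s] at hb
  rw [e2s1] at w4
  generalize ∑ k ∈ range (2 * s + 1), po q q (2 * k) / (po q q k) ^ 2 *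
    (q ^ k / po q (-q) k) = L at *
  generalize T (q ^ 2) q (2 * s + 1) = R at *
  generalize T (q ^ 2) (1 - t) (2 * s + 1) = Tw at *
  generalize T (q ^ 2) (1 - t)⁻¹ (2 * s + 1) = Ti at *
  generalize T (q ^ 2) ((1 - t)⁻¹ ^ 2 * q) (2 * s + 1) = R2 at *
  generalize ∑ j ∈ range (2 * s), yy q j = Sf at *
  generalize ∑ j ∈ range s, yy q j = S2 at *
  generalize AA s q = A at *
  generalize kap s q = κ at *
  generalize (1 - t) ^ s = ω at *
  generalize (s : K) = σ at *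
  -- the element X
  have hX : κ * Tw - κ * ω * (1 + (σ * (σ + 1) / 2 + Sf) * t ^ 2) ∈ I O t 3 := by
    have hδO : σ * (σ + 1) / 2 + Sf ∈ O := by
      rw [div_eq_mul_inv]
      exact O.add_mem (O.mul_mem (O.mul_mem hsO (O.add_mem hsO O.one_mem)) half) hSfO
    refine cancel_two ht half two_ne_zero ?_ w4 ?_
    · exact O.sub_mem (O.mul_mem hk hTO) (O.mul_mem (O.mul_mem hk w1O)
        (O.add_mem O.one_mem (O.mul_mem hδO (O.pow_mem ht 2))))
    · have e : (-2 + (ω ^ 2 * (1 - t) - 1)) * (κ * Tw - κ * ω * (1 + (σ * (σ + 1) / 2 + Sf) *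
          t ^ 2)) =
          (κ * ω ^ 2) * (Ti + (1 - t) * Tw - (2 - t) * (1 - t ^ 2 * Sf)) -
          (κ * ω ^ 2 * Ti - (R2 - 3 * (t ^ 2 * A))) -
          (R2 - 4 * (κ * ω) + 3 * R) -
          3 * (κ * Tw - (R + t ^ 2 * A)) -
          (κ * ω) * ((1 - ω - σ * t) * (1 - ω * (1 - t) - (σ + 1) * t) +
            t * (σ * (1 - ω * (1 - t) - (σ + 1) * t) + (σ + 1) * (1 - ω - σ * t)) +
            t ^ 2 * ((σ * (σ + 1) / 2 + Sf) * (ω ^ 2 * (1 - t) - 1) +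
              Sf * ((ω - 1) * (2 - t) - t))) := by
        ring
      rw [e]
      refine (I O t 3).sub_mem ((I O t 3).sub_mem ((I O t 3).sub_mem ((I O t 3).sub_mem
        (mul_O (O.mul_mem hk (O.pow_mem w1O 2)) hd) hb) hc) (mul_O three ha)) ?_
      refine mul_O (O.mul_mem hk w1O) ((I O t 3).add_mem ((I O t 3).add_mem ?_ ?_) ?_)
      · exact mono ht (by norm_num) (mul_I w1 w2)
      · exact mul_I (a := 1) (b := 2) t_self ((I O t 2).add_mem (mul_O hsO w2)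
          (mul_O (O.add_mem hsO O.one_mem) w1))
      · refine mul_I (a := 2) (b := 1) (self_pow 2) ((I O t 1).add_mem (mul_O hδO w4)
          (mul_O hSfO ((I O t 1).sub_mem ?_ t_self)))
        rw [mul_comm]
        exact mul_O (O.sub_mem two ht) w3
  have e : L - R = (L - (κ * ω * (1 - t ^ 2 * S2) - t ^ 2 * A)) + (κ * Tw - (R + t ^ 2 * A)) -
      (κ * Tw - κ * ω * (1 + (σ * (σ + 1) / 2 + Sf) * t ^ 2)) -
      t ^ 2 * ((κ * ω * 2⁻¹) * (2 * S2 - Sf) + (κ * ω * 3 * 2⁻¹) * (Sf + σ * (σ + 1) / 3)) := by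
    field_simp
    ring
  rw [e]
  refine (I O t 3).sub_mem ((I O t 3).sub_mem ((I O t 3).add_mem hL ha) hX) ?_
  refine mul_I (a := 2) (b := 1) (self_pow 2) ((I O t 1).add_mem (mul_O ?_ hS2) (mul_O ?_ hS))
  · exact O.mul_mem (O.mul_mem hk w1O) half
  · exact O.mul_mem (O.mul_mem (O.mul_mem hk w1O) three) half

end final

end Q278.VD
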