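import Pool.Agent.Q278.VD
import Pool.Agent.Q278.CycCong

set_option autoImplicit false

/-! The two sums as rational functions of `q`. -/

namespace Q278.VE

open Finset Q278.Loc Q278.Cyc Polynomial

/-- a rational function in `I k` is a quotient of integer polynomials -/
theorem int_form {m : ℕ} {η : ℂ} (hm : 0 < m) (hη : IsPrimitiveRoot η m) {x : RatFunc ℚ}
    {k : ℕ} (h : x ∈ I (Reg η) (Φ m) k) : ∃ P Q : ℤ[X], cyclotomic m ℤ ^ k ∣ P ∧
      IsCoprime (Q.map (Int.castRingHom ℚ)) (cyclotomic m ℚ) ∧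
      x = algebraMap ℚ[X] (RatFunc ℚ) (P.map (Int.castRingHom ℚ)) /
        algebraMap ℚ[X] (RatFunc ℚ) (Q.map (Int.castRingHom ℚ)) := by
  obtain ⟨y, hy, rfl⟩ := h
  obtain ⟨b1, m1, h1⟩ := IsLocalization.integerNormalization_spec (nonZeroDivisors ℤ)
    (RatFunc.num y)
  obtain ⟨b2, m2, h2⟩ := IsLocalization.integerNormalization_spec (nonZeroDivisors ℤ)
    (RatFunc.denom y)
  set c1 := IsLocalization.integerNormalization (nonZeroDivisors ℤ) (RatFunc.num y)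
  set c2 := IsLocalization.integerNormalization (nonZeroDivisors ℤ) (RatFunc.denom y)
  have hb1 : ((b1 : ℤ) : ℚ) ≠ 0 := by
    exact_mod_cast nonZeroDivisors.ne_zero m1
  have hb2 : ((b2 : ℤ) : ℚ) ≠ 0 := by
    exact_mod_cast nonZeroDivisors.ne_zero m2
  have e1 : c1.map (Int.castRingHom ℚ) = C ((b1 : ℤ) : ℚ) * RatFunc.num y := by
    have : c1.map (Int.castRingHom ℚ) = c1.map (algebraMap ℤ ℚ) := rfl
    rw [this, h1, zsmul_eq_mul]
    simp
  have e2 : c2.map (Int.castRingHom ℚ) = C ((b2 : ℤ) : ℚ) * RatFunc.denom y := by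
    have : c2.map (Int.castRingHom ℚ) = c2.map (algebraMap ℤ ℚ) := rfl
    rw [this, h2, zsmul_eq_mul]
    simp
  refine ⟨cyclotomic m ℤ ^ k * (C (b2 : ℤ) * c1), C (b1 : ℤ) * c2, dvd_mul_right _ _, ?_, ?_⟩
  · rw [Polynomial.map_mul, e2, map_C]
    refine ((cyclotomic.irreducible_rat hm).coprime_iff_not_dvd.2 ?_).symm
    intro h3
    have h4 := (dvd_iff hm hη _).1 h3
    rw [eval₂_mul, eval₂_mul, eval₂_C, eval₂_C] at h4
    rcases mul_eq_zero.1 h4 with h4 | h4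
    · exact hb1 (by
        have : (algebraMap ℚ ℂ) ((Int.castRingHom ℚ) (b1 : ℤ)) = ((b1 : ℤ) : ℂ) := by simp
        rw [this] at h4
        exact_mod_cast h4)
    · rcases mul_eq_zero.1 h4 with h4 | h4
      · exact hb2 (by
          have : (algebraMap ℚ ℂ) (((b2 : ℤ) : ℚ)) = ((b2 : ℤ) : ℂ) := by simp
          rw [this] at h4
          exact_mod_cast h4)
      · exact hy h4
  · rw [Polynomial.map_mul, Polynomial.map_mul, Polynomial.map_mul, Polynomial.map_pow,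
      map_cyclotomic, e1, e2, map_C, map_C]
    simp only [map_mul, map_pow]
    have h5 : algebraMap ℚ[X] (RatFunc ℚ) (RatFunc.denom y) ≠ 0 :=
      (map_ne_zero_iff _ (RatFunc.algebraMap_injective ℚ)).2 (RatFunc.denom_ne_zero y)
    have h6 : algebraMap ℚ[X] (RatFunc ℚ) (C ((Int.castRingHom ℚ) (b1 : ℤ))) ≠ 0 :=
      (map_ne_zero_iff _ (RatFunc.algebraMap_injective ℚ)).2 (C_ne_zero.2 hb1)
    have h7 : algebraMap ℚ[X] (RatFunc ℚ) (C ((b2 : ℤ) : ℚ)) ≠ 0 :=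
      (map_ne_zero_iff _ (RatFunc.algebraMap_injective ℚ)).2 (C_ne_zero.2 hb2)
    conv_lhs => rw [← RatFunc.num_div_denom y]
    have e3 : algebraMap ℚ[X] (RatFunc ℚ) (C ((Int.castRingHom ℚ) (b1 : ℤ))) =
      algebraMap ℚ[X] (RatFunc ℚ) (C ((b1 : ℤ) : ℚ)) := rfl
    have e4 : algebraMap ℚ[X] (RatFunc ℚ) (C ((Int.castRingHom ℚ) (b2 : ℤ))) =
      algebraMap ℚ[X] (RatFunc ℚ) (C ((b2 : ℤ) : ℚ)) := rfl
    rw [e3] at h6
    rw [e3, e4]
    unfold Φ
    field_simp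

theorem hyp {s : ℕ} {η : ℂ} (hη : IsPrimitiveRoot η (2 * s + 1)) :
    VB.Hyp (Reg η) s q (1 - q ^ (2 * s + 1)) := by
  have hη0 : η ≠ 0 := hη.ne_zero (by omega)
  refine ⟨one_sub_mem η _, by ring, q_ne, X_mem η, ?_, ?_, ?_, ?_⟩
  · have := qi_mem hη0 1
    rwa [pow_one] at this
  · intro j hj
    apply ne_zero_of_ev (η := 2)
    rw [ev_one_sub]
    intro h1
    have h2 : (2 : ℂ) ^ j = 1 := (sub_eq_zero.1 h1).symm
    have h3 : ((2 ^ j : ℕ) : ℂ) = ((1 : ℕ) : ℂ) := by push_cast; exact h2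
    have h4 : 2 ^ j = 1 := by exact_mod_cast h3
    have := Nat.one_lt_two_pow hj.ne'
    omega
  · intro j hj
    exact inv_mem (one_sub_mem η _) (one_sub_ne hη hj)
  · intro m hm
    apply inv_mem (nat_O m)
    rw [ev_nat]
    exact_mod_cast hm.ne'

theorem main (s : ℕ) : ∃ P Q : ℤ[X], cyclotomic (2 * s + 1) ℤ ^ 3 ∣ P ∧
      IsCoprime (Q.map (Int.castRingHom ℚ)) (cyclotomic (2 * s + 1) ℚ) ∧
      ∑ k ∈ range (2 * s + 1), VA.po q q (2 * k) / (VA.po q q k) ^ 2 *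
        (q ^ k / VA.po q (-q) k) - VA.T (q ^ 2) q (2 * s + 1) =
      algebraMap ℚ[X] (RatFunc ℚ) (P.map (Int.castRingHom ℚ)) /
        algebraMap ℚ[X] (RatFunc ℚ) (Q.map (Int.castRingHom ℚ)) := by
  have hη := Complex.isPrimitiveRoot_exp (2 * s + 1) (by omega)
  have h1 := VD.main (hyp hη)
  set η := Complex.exp (2 * Real.pi * Complex.I / ((2 * s + 1 : ℕ) : ℂ))
  apply int_form (by omega) hη
  have h2 : (1 : RatFunc ℚ) - q ^ (2 * s + 1) ∈ I (Reg η) (Φ (2 * s + 1)) 1 := by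
    apply mem_I_one (by omega) hη (one_sub_mem η _)
    rw [ev_one_sub, hη.pow_eq_one, sub_self]
  obtain ⟨y, hy, he⟩ := h1
  rw [he]
  have h3 := mul_O hy (pow_I h2 3)
  rw [one_mul] at h3
  rwa [mul_comm y] at h3

end Q278.VE
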