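import Pool.Agent.Q278.KM

set_option autoImplicit false

/-! Very-well-poised series which vanish: products of pairs of parameters. -/

namespace Q278.VKM

open Finset Polynomial Q278.KM

variable {K : Type*} [Field K]

/-- a pair of shifted factorials -/
theorem shift_ratio (c Q : K) (L k : ℕ) : (∏ l ∈ range k, (1 - c * Q ^ l)) *
    ∏ i ∈ range L, (1 - c * Q ^ i * Q ^ k) = (∏ i ∈ range L, (1 - c * Q ^ i)) *
      ∏ l ∈ range k, (1 - c * Q ^ (L + l)) := by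
  have h1 := prod_range_add (fun j => 1 - c * Q ^ j) k L
  have h2 := prod_range_add (fun j => 1 - c * Q ^ j) L k
  rw [add_comm L k, h1] at h2
  rw [← h2]
  congr 1
  apply prod_congr rfl
  intro i _
  rw [pow_add]; ring

theorem pair {a Q c c' : K} {L : ℕ} (hQ : Q ≠ 0) (h : c * c' * Q ^ L = a * Q)
    (hc : ∀ i, 1 - c * Q ^ i ≠ 0) (hc' : ∀ i, 1 - c' * Q ^ i ≠ 0) :
    ∃ P : K[X], P.natDegree ≤ L ∧ ∀ k : ℕ,
      ∏ l ∈ range k, ((1 - c * Q ^ (L + l)) * (1 - c' * Q ^ (L + l)) /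
        ((1 - c * Q ^ l) * (1 - c' * Q ^ l))) = (Q ^ k) ^ L * P.eval (lam a Q k) := by
  refine ⟨∏ i ∈ range L, (C ((1 - c * Q ^ i) * (1 - c' * Q ^ i))⁻¹ *
    (X - C (c * Q ^ i + c' * Q ^ (L - 1 - i)))), ?_, fun k => ?_⟩
  · refine (natDegree_prod_le _ _).trans ?_
    refine (sum_le_sum (g := fun _ => 1) fun i _ => ?_).trans (by simp)
    refine (natDegree_C_mul_le _ _).trans ?_
    rw [natDegree_X_sub_C]
  · rw [prod_div_distrib, prod_mul_distrib, prod_mul_distrib]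
    have s1 := shift_ratio c Q L k
    have s2 := shift_ratio c' Q L k
    have n1 : ∏ l ∈ range k, (1 - c * Q ^ l) ≠ 0 := prod_ne_zero_iff.2 fun i _ => hc i
    have n2 : ∏ l ∈ range k, (1 - c' * Q ^ l) ≠ 0 := prod_ne_zero_iff.2 fun i _ => hc' i
    have n3 : ∏ l ∈ range L, (1 - c * Q ^ l) ≠ 0 := prod_ne_zero_iff.2 fun i _ => hc i
    have n4 : ∏ l ∈ range L, (1 - c' * Q ^ l) ≠ 0 := prod_ne_zero_iff.2 fun i _ => hc' i
    have e1 : (Q ^ k) ^ L = ∏ _i ∈ range L, Q ^ k := by rw [prod_const, card_range]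
    have e2 : (Q ^ k) ^ L * (∏ i ∈ range L, (C ((1 - c * Q ^ i) * (1 - c' * Q ^ i))⁻¹ *
        (X - C (c * Q ^ i + c' * Q ^ (L - 1 - i))))).eval (lam a Q k) =
        (∏ i ∈ range L, (1 - c * Q ^ i * Q ^ k)) * (∏ i ∈ range L, (1 - c' * Q ^ i * Q ^ k)) /
        ((∏ i ∈ range L, (1 - c * Q ^ i)) * ∏ i ∈ range L, (1 - c' * Q ^ i)) := by
      have e3 : ∏ i ∈ range L, (1 - c' * Q ^ i * Q ^ k) =
          ∏ i ∈ range L, (1 - c' * Q ^ (L - 1 - i) * Q ^ k) := by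
        rw [← prod_range_reflect]
      rw [e3, e1, eval_prod, ← prod_mul_distrib, ← prod_mul_distrib, ← prod_mul_distrib,
        ← prod_div_distrib]
      apply prod_congr rfl
      intro i hi
      have hi' := mem_range.1 hi
      rw [eval_mul, eval_C, eval_sub, eval_X, eval_C, div_eq_mul_inv]
      have hk := pow_ne_zero k hQ
      have e4 : c * Q ^ i * (c' * Q ^ (L - 1 - i)) = a := by
        apply mul_right_cancel₀ hQ
        have : Q ^ L = Q ^ i * Q ^ (L - 1 - i) * Q := by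
          rw [← pow_add, ← pow_succ]; congr 1; omega
        rw [← h, this]; ring
      have e5 : Q ^ k * (lam a Q k - (c * Q ^ i + c' * Q ^ (L - 1 - i))) =
          (1 - c * Q ^ i * Q ^ k) * (1 - c' * Q ^ (L - 1 - i) * Q ^ k) := by
        unfold lam
        rw [← e4]
        field_simp
        ring
      rw [← e5]; ring
    rw [e2, div_eq_div_iff (mul_ne_zero n1 n2) (mul_ne_zero n3 n4)]
    linear_combination (-(∏ i ∈ range L, (1 - c' * Q ^ i * Q ^ k)) *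
      ∏ l ∈ range k, (1 - c' * Q ^ l)) * s1 -
      ((∏ i ∈ range L, (1 - c * Q ^ i)) * ∏ l ∈ range k, (1 - c * Q ^ (L + l))) * s2

theorem single {a Q c : K} {i : ℕ} (hQ : Q ≠ 0) (h : c ^ 2 * Q ^ (2 * i) = a * Q)
    (hc : ∀ i, 1 - c * Q ^ i ≠ 0) :
    ∃ P : K[X], P.natDegree ≤ i ∧ ∀ k : ℕ,
      ∏ l ∈ range k, ((1 - c * Q ^ (2 * i + l)) / (1 - c * Q ^ l)) =
        (Q ^ k) ^ i * P.eval (lam a Q k) := by
  refine ⟨C (∏ j ∈ range (2 * i), (1 - c * Q ^ j))⁻¹ * ∏ j ∈ range i,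
    (X - C (c * Q ^ j + c * Q ^ (i + (i - 1 - j)))), ?_, fun k => ?_⟩
  · refine (natDegree_C_mul_le _ _).trans ((natDegree_prod_le _ _).trans ?_)
    refine (sum_le_sum (g := fun _ => 1) fun i _ => ?_).trans (by simp)
    rw [natDegree_X_sub_C]
  · rw [prod_div_distrib]
    have s1 := shift_ratio c Q (2 * i) k
    have n1 : ∏ l ∈ range k, (1 - c * Q ^ l) ≠ 0 := prod_ne_zero_iff.2 fun i _ => hc i
    have n3 : ∏ l ∈ range (2 * i), (1 - c * Q ^ l) ≠ 0 := prod_ne_zero_iff.2 fun i _ => hc i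
    have e1 : (Q ^ k) ^ i = ∏ _i ∈ range i, Q ^ k := by rw [prod_const, card_range]
    have e2 : (Q ^ k) ^ i * (∏ j ∈ range i,
        (X - C (c * Q ^ j + c * Q ^ (i + (i - 1 - j))))).eval (lam a Q k) =
        ∏ j ∈ range (2 * i), (1 - c * Q ^ j * Q ^ k) := by
      have e3 : ∏ j ∈ range i, (1 - c * Q ^ (i + j) * Q ^ k) =
          ∏ j ∈ range i, (1 - c * Q ^ (i + (i - 1 - j)) * Q ^ k) := by
        rw [← prod_range_reflect]
      rw [two_mul, prod_range_add, e3, e1, eval_prod, ← prod_mul_distrib, ← prod_mul_distrib]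
      apply prod_congr rfl
      intro j hj
      have hj' := mem_range.1 hj
      rw [eval_sub, eval_X, eval_C]
      have hk := pow_ne_zero k hQ
      have e4 : c * Q ^ j * (c * Q ^ (i + (i - 1 - j))) = a := by
        apply mul_right_cancel₀ hQ
        have : Q ^ (2 * i) = Q ^ j * Q ^ (i + (i - 1 - j)) * Q := by
          rw [← pow_add, ← pow_succ]; congr 1; omega
        rw [← h, this]; ring
      unfold lam
      rw [← e4]
      field_simp
      ring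
    rw [eval_mul, eval_C]
    have e3 : (Q ^ k) ^ i * ((∏ j ∈ range (2 * i), (1 - c * Q ^ j))⁻¹ * (∏ j ∈ range i,
        (X - C (c * Q ^ j + c * Q ^ (i + (i - 1 - j))))).eval (lam a Q k)) =
        (∏ j ∈ range (2 * i), (1 - c * Q ^ j))⁻¹ * ((Q ^ k) ^ i * (∏ j ∈ range i,
        (X - C (c * Q ^ j + c * Q ^ (i + (i - 1 - j))))).eval (lam a Q k)) := by ring
    rw [e3, e2, inv_mul_eq_div, div_eq_div_iff n1 n3]
    linear_combination -s1

/-- the factor with parameter `a U ^ t` -/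
def gk (a Q U : K) (k : ℕ) (t : ℤ) : K :=
  ∏ l ∈ range k, ((1 - a * Q ^ l * U ^ t) / (1 - Q ^ (l + 1) * U ^ (-t)))

variable {a Q U : K}

/-- the terminating factor -/
theorem gk_neg {N : ℕ} {t : ℤ} (hQ : Q ≠ 0) (hU : U ≠ 0) (h : a * U ^ t * Q ^ N = 1) (k : ℕ) :
    (∏ l ∈ range k, ((1 - a * Q ^ l) / (1 - Q ^ (l + 1)))) * gk a Q U k t =
      ((Q ^ k) ^ N)⁻¹ * w a Q N k := by
  unfold gk w
  have e0 : ((Q ^ k) ^ N)⁻¹ = ∏ _l ∈ range k, (Q ^ N)⁻¹ := by
    rw [prod_const, card_range, inv_pow, ← pow_mul, ← pow_mul, mul_comm]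
  rw [e0, ← prod_mul_distrib, ← prod_mul_distrib]
  apply prod_congr rfl
  intro l _
  have hN := pow_ne_zero N hQ
  have hz : U ^ t ≠ 0 := zpow_ne_zero _ hU
  have e1 : U ^ (-t) = a * Q ^ N := by
    rw [zpow_neg]
    exact inv_eq_of_mul_eq_one_left (by linear_combination h)
  have e2 : 1 - a * Q ^ l * U ^ t = (Q ^ N)⁻¹ * (Q ^ N - Q ^ l) := by
    have : a * U ^ t = (Q ^ N)⁻¹ := eq_inv_of_mul_eq_one_left h
    have e3 : a * Q ^ l * U ^ t = (a * U ^ t) * Q ^ l := by ring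
    rw [e3, this, mul_sub, inv_mul_cancel₀ hN]
  have e4 : Q ^ (l + 1) * (a * Q ^ N) = a * Q ^ (N + 1 + l) := by
    rw [show N + 1 + l = N + (l + 1) by ring, pow_add]; ring
  rw [e1, e2, e4, div_mul_div_comm, ← mul_div_assoc]
  congr 1
  ring

/-- the vanishing of the series -/
theorem zero {N L i r Z : ℕ} {t1 t2 s τ : ℤ} (hQ : Q ≠ 0) (hU : U ≠ 0)
    (h1 : ∀ i : ℕ, 0 < i → 1 - Q ^ i ≠ 0)
    (n1 : ∀ l : ℕ, 1 - Q ^ (l + 1) * U ^ (-t1) ≠ 0) (n2 : ∀ l : ℕ, 1 - Q ^ (l + 1) * U ^ (-t2) ≠ 0)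
    (n3 : ∀ l : ℕ, 1 - Q ^ (l + 1) * U ^ (-s) ≠ 0)
    (n4 : ∀ l : ℕ, 1 - Q ^ (l + 1) * U ^ (-(τ - s)) ≠ 0)
    (e1 : a * U ^ t1 * Q ^ N = 1) (e2 : a * U ^ τ = Q ^ (L + 1))
    (e3 : a * (U ^ t2) ^ 2 = Q ^ (2 * i + 1)) (hN : N = r * L + i + Z) (hZ : 0 < Z) :
    ∑ k ∈ range (N + 1), (1 - a * Q ^ (2 * k)) *
      (∏ l ∈ range k, ((1 - a * Q ^ l) / (1 - Q ^ (l + 1)))) * (Q ^ Z) ^ k *
      (gk a Q U k t1 * gk a Q U k t2 * (gk a Q U k s * gk a Q U k (τ - s)) ^ r) = 0 := by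
  -- the single factor
  have hz : ∀ t : ℤ, U ^ t ≠ 0 := fun t => zpow_ne_zero _ hU
  have hneg : ∀ t : ℤ, U ^ (-t) * U ^ t = 1 := fun t => by
    rw [← zpow_add₀ hU, neg_add_cancel, zpow_zero]
  obtain ⟨P1, hP1, g2⟩ := single (a := a) (Q := Q) (c := Q * U ^ (-t2)) (i := i) hQ (by
    have hn := hneg t2
    have e4 : (Q * U ^ (-t2)) ^ 2 * Q ^ (2 * i) = Q * (U ^ (-t2)) ^ 2 * Q ^ (2 * i + 1) := by
      rw [pow_succ Q (2 * i)]; ring
    rw [e4, ← e3]
    linear_combination (Q * a * (U ^ (-t2) * U ^ t2 + 1)) * hn) (by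
    intro j
    have := n2 j
    rw [pow_succ] at this
    intro h; apply this; rw [← h]; ring)
  have hgs : ∀ k, gk a Q U k t2 = (Q ^ k) ^ i * P1.eval (lam a Q k) := by
    intro k
    rw [← g2 k]
    unfold gk
    apply prod_congr rfl
    intro l _
    have e4 : a * U ^ t2 = Q ^ (2 * i + 1) * U ^ (-t2) := by
      rw [← e3]
      linear_combination (-a * U ^ t2) * hneg t2
    congr 1
    · rw [pow_add, mul_right_comm, e4, pow_succ]; ring
    · rw [pow_succ]; ring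
  -- the pairs
  have hτ : U ^ (-τ) = U ^ (-s) * U ^ (-(τ - s)) := by rw [← zpow_add₀ hU]; congr 1; ring
  have e2' : Q ^ (L + 1) * U ^ (-τ) = a := by
    rw [← e2]; linear_combination a * hneg τ
  obtain ⟨P2, hP2, g3⟩ := pair (a := a) (Q := Q) (c := Q * U ^ (-s)) (c' := Q * U ^ (-(τ - s)))
    (L := L) hQ (by
    rw [hτ] at e2'
    rw [← e2', pow_succ]; ring) (by
    intro j
    have := n3 j
    rw [pow_succ] at this
    intro h; apply this; rw [← h]; ring) (by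
    intro j
    have := n4 j
    rw [pow_succ] at this
    intro h; apply this; rw [← h]; ring)
  have hgp : ∀ k, gk a Q U k s * gk a Q U k (τ - s) = (Q ^ k) ^ L * P2.eval (lam a Q k) := by
    intro k
    rw [← g3 k]
    unfold gk
    rw [← prod_mul_distrib]
    apply prod_congr rfl
    intro l _
    have f1 : a * U ^ s = Q ^ (L + 1) * U ^ (-(τ - s)) := by
      rw [← e2']
      rw [hτ]
      linear_combination (Q ^ (L + 1) * U ^ (-(τ - s))) * hneg s
    have f2 : a * U ^ (τ - s) = Q ^ (L + 1) * U ^ (-s) := by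
      rw [← e2']
      rw [hτ]
      linear_combination (Q ^ (L + 1) * U ^ (-s)) * hneg (τ - s)
    rw [div_mul_div_comm]
    congr 1
    · rw [mul_right_comm a (Q ^ l) (U ^ s), mul_right_comm a (Q ^ l) (U ^ (τ - s)), f1, f2, pow_add,
        pow_succ]
      ring
    · rw [pow_succ]; ring
  have hterm : ∀ k, (1 - a * Q ^ (2 * k)) *
      (∏ l ∈ range k, ((1 - a * Q ^ l) / (1 - Q ^ (l + 1)))) * (Q ^ Z) ^ k *
      (gk a Q U k t1 * gk a Q U k t2 * (gk a Q U k s * gk a Q U k (τ - s)) ^ r) =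
      (1 - a * Q ^ (2 * k)) * w a Q N k * (P1 * P2 ^ r).eval (lam a Q k) := by
    intro k
    have t0 := gk_neg hQ hU e1 k
    rw [hgs, hgp, eval_mul, eval_pow]
    have e5 : (1 - a * Q ^ (2 * k)) *
        (∏ l ∈ range k, ((1 - a * Q ^ l) / (1 - Q ^ (l + 1)))) * (Q ^ Z) ^ k *
        (gk a Q U k t1 * ((Q ^ k) ^ i * P1.eval (lam a Q k)) *
          ((Q ^ k) ^ L * P2.eval (lam a Q k)) ^ r) =
        (1 - a * Q ^ (2 * k)) * ((∏ l ∈ range k, ((1 - a * Q ^ l) / (1 - Q ^ (l + 1)))) *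
          gk a Q U k t1) * ((Q ^ Z) ^ k * (Q ^ k) ^ i * ((Q ^ k) ^ L) ^ r) *
          (P1.eval (lam a Q k) * P2.eval (lam a Q k) ^ r) := by ring
    rw [e5, t0]
    have e6 : (Q ^ Z) ^ k * (Q ^ k) ^ i * ((Q ^ k) ^ L) ^ r = (Q ^ k) ^ N := by
      rw [← pow_mul, ← pow_mul, ← pow_mul, ← pow_mul, ← pow_mul, ← pow_add, ← pow_add, hN]
      congr 1
      ring
    rw [e6]
    have hk : (Q ^ k) ^ N ≠ 0 := pow_ne_zero _ (pow_ne_zero _ hQ)
    field_simp
  rw [sum_congr rfl (fun k _ => hterm k)]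
  have hUa : U ^ (-t1) = a * Q ^ N := by
    have h2 := hneg t1
    apply mul_right_cancel₀ (hz t1)
    rw [h2]; linear_combination -e1
  apply KM.vanish hQ
  · intro k _; exact h1 (k + 1) (Nat.succ_pos k)
  · intro k _ h
    apply n1 k
    rw [hUa, ← h]
    rw [show N + 1 + k = N + (k + 1) by ring, pow_add]; ring
  · intro j hj h
    have e : Q ^ j - Q ^ N = Q ^ j * (1 - Q ^ (N - j)) := by
      rw [mul_sub, mul_one, ← pow_add]
      congr 2
      omega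
    rw [e] at h
    rcases mul_eq_zero.1 h with h | h
    · exact pow_ne_zero _ hQ h
    · exact h1 _ (by omega) h
  · have d1 := natDegree_mul_le (p := P1) (q := P2 ^ r)
    have d2 := natDegree_pow_le (p := P2) (n := r)
    have d3 : r * P2.natDegree ≤ r * L := Nat.mul_le_mul_left r hP2
    omega

end Q278.VKM
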