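import Pool.Agent.Q278.KM

set_option autoImplicit false

/-! A vanishing very-well-poised series with two pairs of parameters, in bounded form. -/

namespace Q278.WP

open Finset Polynomial Q278.KM

variable {K : Type*} [Field K]

/-- a ratio of shifted factorials -/
def fr (Q x y : K) (k : ℕ) : K := ∏ l ∈ range k, ((1 - x * Q ^ l) / (1 - y * Q ^ l))

theorem fr_shift {Q c : K} {B : ℕ} (hc : ∀ i < B, 1 - c * Q ^ i ≠ 0) {L k : ℕ} (hL : L ≤ B)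
    (hk : k ≤ B) : fr Q (c * Q ^ L) c k =
      ∏ i ∈ range L, ((1 - c * Q ^ i * Q ^ k) / (1 - c * Q ^ i)) := by
  unfold fr
  rw [prod_div_distrib, prod_div_distrib]
  have n1 : ∏ l ∈ range k, (1 - c * Q ^ l) ≠ 0 :=
    prod_ne_zero_iff.2 fun i hi => hc i (by have := mem_range.1 hi; omega)
  have n3 : ∏ l ∈ range L, (1 - c * Q ^ l) ≠ 0 :=
    prod_ne_zero_iff.2 fun i hi => hc i (by have := mem_range.1 hi; omega)
  rw [div_eq_div_iff n1 n3]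
  have h1 := prod_range_add (fun j => 1 - c * Q ^ j) k L
  have h2 := prod_range_add (fun j => 1 - c * Q ^ j) L k
  rw [add_comm L k, h1] at h2
  have e1 : ∏ x ∈ range k, (1 - c * Q ^ L * Q ^ x) = ∏ x ∈ range k, (1 - c * Q ^ (L + x)) :=
    prod_congr rfl fun x _ => by rw [pow_add]; ring
  have e2 : ∏ x ∈ range L, (1 - c * Q ^ x * Q ^ k) = ∏ x ∈ range L, (1 - c * Q ^ (k + x)) :=
    prod_congr rfl fun x _ => by rw [pow_add]; ring
  rw [e1, e2]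
  linear_combination -h2

theorem pair {A Q c c' : K} {L B : ℕ} (hQ : Q ≠ 0) (h : c * c' * Q ^ L = A * Q)
    (hc : ∀ i < B, 1 - c * Q ^ i ≠ 0) (hc' : ∀ i < B, 1 - c' * Q ^ i ≠ 0) (hL : L ≤ B) :
    ∃ P : K[X], P.natDegree ≤ L ∧ ∀ k ≤ B,
      fr Q (c * Q ^ L) c k * fr Q (c' * Q ^ L) c' k = (Q ^ k) ^ L * P.eval (lam A Q k) := by
  refine ⟨∏ i ∈ range L, (C ((1 - c * Q ^ i) * (1 - c' * Q ^ (L - 1 - i)))⁻¹ *
    (X - C (c * Q ^ i + c' * Q ^ (L - 1 - i)))), ?_, fun k hk => ?_⟩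
  · refine (natDegree_prod_le _ _).trans ?_
    refine (sum_le_sum (g := fun _ => 1) fun i _ => ?_).trans (by simp)
    refine (natDegree_C_mul_le _ _).trans ?_
    rw [natDegree_X_sub_C]
  · rw [fr_shift hc hL hk, fr_shift hc' hL hk]
    have e1 : (Q ^ k) ^ L = ∏ _i ∈ range L, Q ^ k := by rw [prod_const, card_range]
    have e3 : ∏ i ∈ range L, ((1 - c' * Q ^ i * Q ^ k) / (1 - c' * Q ^ i)) =
        ∏ i ∈ range L, ((1 - c' * Q ^ (L - 1 - i) * Q ^ k) / (1 - c' * Q ^ (L - 1 - i))) := by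
      rw [← prod_range_reflect]
    rw [e3, e1, eval_prod, ← prod_mul_distrib, ← prod_mul_distrib]
    apply prod_congr rfl
    intro i hi
    have hi' := mem_range.1 hi
    rw [eval_mul, eval_C, eval_sub, eval_X, eval_C]
    have hk' := pow_ne_zero k hQ
    have n1 := hc i (by omega)
    have n2 := hc' (L - 1 - i) (by omega)
    have e4 : c * Q ^ i * (c' * Q ^ (L - 1 - i)) = A := by
      apply mul_right_cancel₀ hQ
      have : Q ^ L = Q ^ i * Q ^ (L - 1 - i) * Q := by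
        rw [← pow_add, ← pow_succ]; congr 1; omega
      rw [← h, this]; ring
    have e5 : Q ^ k * (lam A Q k - (c * Q ^ i + c' * Q ^ (L - 1 - i))) =
        (1 - c * Q ^ i * Q ^ k) * (1 - c' * Q ^ (L - 1 - i) * Q ^ k) := by
      unfold lam
      rw [← e4]
      field_simp
      ring
    rw [div_mul_div_comm, ← e5, div_eq_mul_inv]
    ring

/-- The terminating part. -/
theorem term {A Q : K} {N : ℕ} (hQ : Q ≠ 0) (k : ℕ) :
    fr Q A Q k * fr Q (Q ^ N)⁻¹ (A * Q ^ (N + 1)) k = ((Q ^ k) ^ N)⁻¹ * w A Q N k := by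
  unfold fr w
  have e0 : ((Q ^ k) ^ N)⁻¹ = ∏ _l ∈ range k, (Q ^ N)⁻¹ := by
    rw [prod_const, card_range, inv_pow, ← pow_mul, ← pow_mul, mul_comm]
  rw [e0, ← prod_mul_distrib, ← prod_mul_distrib]
  apply prod_congr rfl
  intro l _
  have hN := pow_ne_zero N hQ
  have e2 : 1 - (Q ^ N)⁻¹ * Q ^ l = (Q ^ N)⁻¹ * (Q ^ N - Q ^ l) := by
    rw [mul_sub, inv_mul_cancel₀ hN]
  have e4 : A * Q ^ (N + 1) * Q ^ l = A * Q ^ (N + 1 + l) := by rw [pow_add Q (N + 1) l]; ring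
  have e5 : Q * Q ^ l = Q ^ (l + 1) := by rw [pow_succ']
  rw [e2, e4, e5, div_mul_div_comm, ← mul_div_assoc]
  congr 1
  ring

/-- The vanishing of the series. -/
theorem zero {A Q c1 c1' c2 c2' : K} {N L1 L2 Z B : ℕ} (hQ : Q ≠ 0)
    (e1 : c1 * c1' * Q ^ L1 = A * Q) (e2 : c2 * c2' * Q ^ L2 = A * Q)
    (h1 : ∀ i < B, 1 - c1 * Q ^ i ≠ 0) (h1' : ∀ i < B, 1 - c1' * Q ^ i ≠ 0)
    (h2 : ∀ i < B, 1 - c2 * Q ^ i ≠ 0) (h2' : ∀ i < B, 1 - c2' * Q ^ i ≠ 0)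
    (h3 : ∀ i : ℕ, 0 < i → 1 - Q ^ i ≠ 0) (h4 : ∀ k ≤ N, 1 - A * Q ^ (N + 1 + k) ≠ 0)
    (hB : N ≤ B) (hN : N = L1 + L2 + Z) (hZ : 0 < Z) :
    ∑ k ∈ range (N + 1), (1 - A * Q ^ (2 * k)) * fr Q A Q k * fr Q (Q ^ N)⁻¹ (A * Q ^ (N + 1)) k *
      (fr Q (c1 * Q ^ L1) c1 k * fr Q (c1' * Q ^ L1) c1' k) *
      (fr Q (c2 * Q ^ L2) c2 k * fr Q (c2' * Q ^ L2) c2' k) * (Q ^ Z) ^ k = 0 := by
  obtain ⟨P1, d1, f1⟩ := pair hQ e1 h1 h1' (show L1 ≤ B by omega)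
  obtain ⟨P2, d2, f2⟩ := pair hQ e2 h2 h2' (show L2 ≤ B by omega)
  have hterm : ∀ k ∈ range (N + 1), (1 - A * Q ^ (2 * k)) * fr Q A Q k *
      fr Q (Q ^ N)⁻¹ (A * Q ^ (N + 1)) k *
      (fr Q (c1 * Q ^ L1) c1 k * fr Q (c1' * Q ^ L1) c1' k) *
      (fr Q (c2 * Q ^ L2) c2 k * fr Q (c2' * Q ^ L2) c2' k) * (Q ^ Z) ^ k =
      (1 - A * Q ^ (2 * k)) * w A Q N k * (P1 * P2).eval (lam A Q k) := by
    intro k hk
    have hk' := mem_range.1 hk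
    rw [f1 k (by omega), f2 k (by omega), mul_assoc (1 - A * Q ^ (2 * k)), term hQ, eval_mul]
    have e6 : (Q ^ k) ^ N = (Q ^ k) ^ L1 * (Q ^ k) ^ L2 * (Q ^ Z) ^ k := by
      rw [← pow_mul Q Z k, mul_comm Z k, pow_mul, ← pow_add, ← pow_add, hN]
    have hk0 : (Q ^ k) ^ L1 * (Q ^ k) ^ L2 * (Q ^ Z) ^ k ≠ 0 := by
      rw [← e6]; exact pow_ne_zero _ (pow_ne_zero _ hQ)
    rw [e6]
    field_simp
  rw [sum_congr rfl hterm]
  apply KM.vanish hQ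
  · intro k _; exact h3 (k + 1) (Nat.succ_pos k)
  · exact h4
  · intro j hj h
    have e : Q ^ j - Q ^ N = Q ^ j * (1 - Q ^ (N - j)) := by
      rw [mul_sub, mul_one, ← pow_add]
      congr 2
      omega
    rw [e] at h
    rcases mul_eq_zero.1 h with h | h
    · exact pow_ne_zero _ hQ h
    · exact h3 _ (by omega) h
  · have d1' := natDegree_mul_le (p := P1) (q := P2)
    omega

end Q278.WP
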