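import Pool.Agent.Q278.DD3
import Pool.Agent.Q278.WP
import Pool.Agent.Q278.Four

set_option autoImplicit false

/-! Products of factors `1 - q ^ z` in base `q ^ 4`. -/

namespace Q278.WR

open Finset Q278.Loc Q278.Unit Q278.Cyc Q278.Blk Q278.DD Q278.WP Polynomial

variable {m : ℕ} {η : ℂ}

theorem one_sub_V (hm : 0 < m) (hη : IsPrimitiveRoot η m) :
    ∃ u, U (Reg η) u ∧ 1 - q ^ m = Φ m * u := by
  obtain ⟨R, hR⟩ := cyclotomic.dvd_X_pow_sub_one m ℚ
  have hev : R.eval₂ (algebraMap ℚ ℂ) η ≠ 0 := by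
    intro h
    have h1 := congrArg derivative hR
    have h2 := congrArg (fun f : ℚ[X] => f.eval₂ (algebraMap ℚ ℂ) η) h1
    simp only [derivative_sub, derivative_X_pow, derivative_one, sub_zero, derivative_mul,
      eval₂_add, eval₂_mul, h, mul_zero, zero_add, eval₂_pow, eval₂_X] at h2
    rw [(dvd_iff hm hη _).1 (dvd_refl (cyclotomic m ℚ)), zero_mul] at h2
    have h3 : η ^ (m - 1) ≠ 0 := pow_ne_zero _ (hη.ne_zero (by omega))
    rcases mul_eq_zero.1 h2 with h4 | h4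
    · rw [map_natCast, eval₂_natCast] at h4
      exact hm.ne' (by exact_mod_cast h4)
    · exact h3 h4
  refine ⟨-algebraMap ℚ[X] (RatFunc ℚ) R, ?_, ?_⟩
  · apply U_of_ev ((Reg η).neg_mem (poly_mem R))
    rw [ev_neg (poly_mem R), ev_poly]
    exact neg_ne_zero.2 hev
  · have h2 := congrArg (algebraMap ℚ[X] (RatFunc ℚ)) hR
    rw [map_sub, map_pow, map_one, map_mul, RatFunc.algebraMap_X] at h2
    unfold Φ
    change 1 - RatFunc.X ^ m = _
    rw [mul_neg, ← h2]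
    ring

theorem one_sub_z (hm : 0 < m) (hη : IsPrimitiveRoot η m) {z : ℤ} (hz : z ≠ 0)
    (hd : (m : ℤ) ∣ z) : ∃ u, U (Reg η) u ∧ 1 - q ^ z = Φ m * u := by
  have hη0 : η ≠ 0 := hη.ne_zero (by omega)
  obtain ⟨u, hu, e1⟩ := one_sub_V hm hη
  have key : ∀ c : ℕ, 0 < c → ∃ u, U (Reg η) u ∧ 1 - q ^ (m * c) = Φ m * u := by
    intro c hc
    have hs : ∑ i ∈ range c, (q ^ m) ^ i ∈ Reg η :=
      (Reg η).sum_mem fun i _ => (Reg η).pow_mem (q_pow_mem η m) i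
    refine ⟨u * ∑ i ∈ range c, (q ^ m) ^ i, hu.mul (U_of_ev hs ?_), ?_⟩
    · rw [ev_sum fun i _ => (Reg η).pow_mem (q_pow_mem η m) i]
      have : ∀ i ∈ range c, ev η ((q ^ m) ^ i) = 1 := by
        intro i _
        rw [ev_pow (q_pow_mem η m), ev_q_pow, hη.pow_eq_one, one_pow]
      rw [sum_congr rfl this, sum_const, card_range, nsmul_eq_mul, mul_one]
      exact_mod_cast hc.ne'
    · rw [← mul_assoc, ← e1, pow_mul]
      have := geom_sum_mul (q ^ m) c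
      linear_combination this
  obtain ⟨c, hc⟩ := hd
  rcases lt_trichotomy c 0 with h | h | h
  · obtain ⟨u', hu', e2⟩ := key (-c).toNat (by omega)
    refine ⟨-(q ^ z * u'), ?_, ?_⟩
    · have h1 : U (Reg η) (q ^ z) := U_of_ev (zq_mem hη0 z) (by
        rw [ev_zq hη0]; exact zpow_ne_zero _ hη0)
      have h2 := h1.mul hu'
      exact ⟨(Reg η).neg_mem h2.1, by rw [inv_neg]; exact (Reg η).neg_mem h2.2.1,
        neg_ne_zero.2 h2.2.2⟩
    · have h3 : q ^ z * q ^ (m * (-c).toNat) = 1 := by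
        rw [← zpow_natCast q (m * (-c).toNat), ← zpow_add₀ q_ne]
        have : z + ((m * (-c).toNat : ℕ) : ℤ) = 0 := by
          push_cast
          rw [Int.toNat_of_nonneg (by omega), hc]
          ring
        rw [this, zpow_zero]
      linear_combination (-q ^ z) * e2 - h3
  · exact absurd (by rw [hc, h, mul_zero]) hz
  · obtain ⟨u', hu', e2⟩ := key c.toNat (by omega)
    refine ⟨u', hu', ?_⟩
    rw [← e2]
    congr 1
    rw [← zpow_natCast q (m * c.toNat)]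
    congr 1
    push_cast
    rw [Int.toNat_of_nonneg (by omega), hc]

/-- The product of the factors. -/
noncomputable def A (x : ℤ) (k : ℕ) : RatFunc ℚ := ∏ l ∈ range k, (1 - q ^ (x + 4 * (l : ℤ)))

theorem A_O (hη0 : η ≠ 0) (x : ℤ) (k : ℕ) : A x k ∈ Reg η :=
  (Reg η).prod_mem fun l _ => (Reg η).sub_mem (Reg η).one_mem (zq_mem hη0 _)

theorem A_U (hη : IsPrimitiveRoot η m) (hη0 : η ≠ 0) {x : ℤ} {k : ℕ}
    (h : ∀ l < k, ¬ (m : ℤ) ∣ x + 4 * (l : ℤ)) : U (Reg η) (A x k) :=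
  U.prod fun l hl => one_sub_zq_U hη hη0 (h l (mem_range.1 hl))

theorem uniq (hodd : m % 2 = 1) {x : ℤ} {l l' : ℕ} (hl : l < m) (hl' : l' < m)
    (h : (m : ℤ) ∣ x + 4 * (l : ℤ)) (h' : (m : ℤ) ∣ x + 4 * (l' : ℤ)) : l = l' := by
  have h1 := h.sub h'
  have e : x + 4 * (l : ℤ) - (x + 4 * (l' : ℤ)) = 4 * ((l : ℤ) - l') := by ring
  rw [e] at h1
  have hc : IsCoprime (m : ℤ) 4 := by
    have : Nat.Coprime m 4 := by
      rw [show (4 : ℕ) = 2 ^ 2 by norm_num]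
      exact Nat.Coprime.pow_right 2 (Nat.coprime_comm.1
        ((Nat.coprime_primes_or_dvd' hodd)))
    exact_mod_cast Nat.isCoprime_iff_coprime.2 this
  have h2 := hc.dvd_of_dvd_mul_left h1
  have h3 := Int.eq_zero_of_abs_lt_dvd h2 (by rw [abs_lt]; constructor <;> omega)
  omega
  where
  Nat.coprime_primes_or_dvd' {m : ℕ} (hodd : m % 2 = 1) : Nat.Coprime 2 m := by
    rw [Nat.coprime_two_left]
    exact Nat.odd_iff.2 hodd

theorem exist (hodd : m % 2 = 1) (x : ℤ) : ∃ l : ℕ, l < m ∧ (m : ℤ) ∣ x + 4 * (l : ℤ) := by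
  have hm : 0 < m := by omega
  -- the inverse of `4` modulo `m`
  have hc : IsCoprime (m : ℤ) 4 := by
    have : Nat.Coprime m 4 := by
      rw [show (4 : ℕ) = 2 ^ 2 by norm_num]
      exact Nat.Coprime.pow_right 2 (Nat.coprime_comm.1 (by
        rw [Nat.coprime_two_left]; exact Nat.odd_iff.2 hodd))
    exact_mod_cast Nat.isCoprime_iff_coprime.2 this
  obtain ⟨a, b, hab⟩ := hc
  refine ⟨((-x * b) % m).toNat, ?_, ?_⟩
  · have h1 := Int.emod_nonneg (-x * b) (show (m : ℤ) ≠ 0 by omega)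
    have h2 := Int.emod_lt_of_pos (-x * b) (show (0 : ℤ) < m by omega)
    omega
  · have h1 := Int.emod_nonneg (-x * b) (show (m : ℤ) ≠ 0 by omega)
    rw [Int.toNat_of_nonneg h1, Int.emod_def]
    refine ⟨x * a - 4 * (-x * b / m), ?_⟩
    linear_combination (-x) * hab

theorem A_split {x : ℤ} {k l0 : ℕ} (h : l0 < k) : A x k = (1 - q ^ (x + 4 * (l0 : ℤ))) *
    ∏ l ∈ (range k).erase l0, (1 - q ^ (x + 4 * (l : ℤ))) := by
  unfold A
  exact (mul_prod_erase (range k) _ (mem_range.2 h)).symm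

theorem er_U (hodd : m % 2 = 1) (hη : IsPrimitiveRoot η m) (hη0 : η ≠ 0) {x : ℤ} {k l0 : ℕ}
    (hk : k ≤ m) (h : l0 < k) (h0 : (m : ℤ) ∣ x + 4 * (l0 : ℤ)) :
    U (Reg η) (∏ l ∈ (range k).erase l0, (1 - q ^ (x + 4 * (l : ℤ)))) := by
  apply U.prod
  intro l hl
  have hl1 := mem_erase.1 hl
  have hl2 := mem_range.1 hl1.2
  apply one_sub_zq_U hη hη0
  intro hd
  exact hl1.1 (uniq hodd (by omega) (by omega) hd h0)

theorem A_one (hodd : m % 2 = 1) (hη : IsPrimitiveRoot η m) {x : ℤ} {k l0 : ℕ}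
    (hk : k ≤ m) (h : l0 < k) (h0 : (m : ℤ) ∣ x + 4 * (l0 : ℤ)) (hne : x + 4 * (l0 : ℤ) ≠ 0) :
    ∃ u, U (Reg η) u ∧ A x k = Φ m * u := by
  have hm : 0 < m := by omega
  have hη0 : η ≠ 0 := hη.ne_zero (by omega)
  obtain ⟨u, hu, e⟩ := one_sub_z hm hη hne h0
  refine ⟨_, hu.mul (er_U hodd hη hη0 hk h h0), ?_⟩
  rw [A_split h, e]
  ring

theorem A_I (hm : 0 < m) (hη : IsPrimitiveRoot η m) {x : ℤ} {k l0 : ℕ}
    (h : l0 < k) (h0 : (m : ℤ) ∣ x + 4 * (l0 : ℤ)) : A x k ∈ I (Reg η) (Φ m) 1 := by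
  have hη0 : η ≠ 0 := hη.ne_zero (by omega)
  rw [A_split h, mul_comm]
  exact mul_O ((Reg η).prod_mem fun l _ => (Reg η).sub_mem (Reg η).one_mem (zq_mem hη0 _))
    (one_sub_zq_I hm hη hη0 h0)

/-- The inverse has at most a simple pole. -/
theorem A_pole (hodd : m % 2 = 1) (hη : IsPrimitiveRoot η m) {x : ℤ} {k : ℕ} (hk : k ≤ m)
    (hne : ∀ l : ℕ, x + 4 * (l : ℤ) ≠ 0) : Φ m * (A x k)⁻¹ ∈ Reg η := by
  have hm : 0 < m := by omega
  have hη0 : η ≠ 0 := hη.ne_zero (by omega)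
  by_cases h : ∃ l0 < k, (m : ℤ) ∣ x + 4 * (l0 : ℤ)
  · obtain ⟨l0, h1, h2⟩ := h
    obtain ⟨u, hu, e⟩ := A_one hodd hη hk h1 h2 (hne l0)
    rw [e, mul_inv, ← mul_assoc, mul_inv_cancel₀ (Φ_ne m), one_mul]
    exact hu.2.1
  · push Not at h
    exact (Reg η).mul_mem (Φ_mem m η) (A_U hη hη0 h).2.1

/-- The ratio of two products. -/
noncomputable def F (x y : ℤ) (k : ℕ) : RatFunc ℚ := A x k / A y k

theorem F_full (hodd : m % 2 = 1) (hη : IsPrimitiveRoot η m) {x y : ℤ}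
    (hx : ∀ l : ℕ, x + 4 * (l : ℤ) ≠ 0) (hy : ∀ l : ℕ, y + 4 * (l : ℤ) ≠ 0) :
    U (Reg η) (F x y m) := by
  obtain ⟨l1, h1, h2⟩ := exist hodd x
  obtain ⟨l2, h3, h4⟩ := exist hodd y
  obtain ⟨u, hu, e⟩ := A_one hodd hη le_rfl h1 h2 (hx l1)
  obtain ⟨v, hv, e'⟩ := A_one hodd hη le_rfl h3 h4 (hy l2)
  unfold F
  rw [e, e', mul_div_mul_left _ _ (Φ_ne m)]
  exact hu.div hv

theorem A_add (x : ℤ) (K i : ℕ) : A x (K + i) = A x K * A (x + 4 * (K : ℤ)) i := by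
  unfold A
  rw [prod_range_add]
  congr 1
  apply prod_congr rfl
  intro l _
  congr 2
  push_cast; ring

theorem F_add (x y : ℤ) (K i : ℕ) :
    F x y (K + i) = F x y K * F (x + 4 * (K : ℤ)) (y + 4 * (K : ℤ)) i := by
  unfold F
  rw [A_add, A_add, mul_div_mul_comm]

theorem F_blocks (hodd : m % 2 = 1) (hη : IsPrimitiveRoot η m) {x y : ℤ}
    (hx : ∀ l : ℕ, x + 4 * (l : ℤ) ≠ 0) (hy : ∀ l : ℕ, y + 4 * (l : ℤ) ≠ 0) (j : ℕ) :
    U (Reg η) (F x y (m * j)) := by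
  induction j with
  | zero => rw [mul_zero]; unfold F A; simp only [range_zero, prod_empty, div_one]; exact U.one
  | succ j ih =>
    rw [Nat.mul_succ, F_add]
    refine ih.mul (F_full hodd hη ?_ ?_)
    · intro l
      have := hx (m * j + l)
      push_cast at this ⊢
      intro h; apply this; rw [← h]; ring
    · intro l
      have := hy (m * j + l)
      push_cast at this ⊢
      intro h; apply this; rw [← h]; ring

theorem F_swap (x y x' y' : ℤ) (k : ℕ) : F x y k * F x' y' k = F x y' k * F x' y k := by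
  unfold F
  rw [div_mul_div_comm, div_mul_div_comm, mul_comm (A y k)]

theorem F_fr (x y : ℤ) (k : ℕ) : F x y k = fr (q ^ 4) (q ^ x) (q ^ y) k := by
  unfold F A fr
  rw [prod_div_distrib]
  have : ∀ z : ℤ, ∏ l ∈ range k, (1 - (q : RatFunc ℚ) ^ (z + 4 * (l : ℤ))) =
      ∏ l ∈ range k, (1 - q ^ z * (q ^ 4) ^ l) := by
    intro z
    apply prod_congr rfl
    intro l _
    rw [zpow_add₀ q_ne, ← pow_mul, ← zpow_natCast q (4 * l)]
    push_cast; rfl
  rw [this, this]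

end Q278.WR
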