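import Pool.Agent.Q278.WR

set_option autoImplicit false

/-! The vanishing series and divisibility by the first power: the good class. -/

namespace Q278.WR

open Finset Q278.Loc Q278.Unit Q278.Cyc Q278.Blk Q278.DD Q278.WP Polynomial

variable {m : ℕ} {η : ℂ} {e : ℤ}

/-- the good class -/
structure Good (m : ℕ) (e : ℤ) (N L1 L2 Z : ℕ) : Prop where
  he : e = 1 ∨ e = -1
  hm : 1 < m
  hN : 4 * (N : ℤ) = 3 * m - e
  hL1 : 4 * (L1 : ℤ) + 4 = m + e
  hL2 : 2 * (L2 : ℤ) + 1 = m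
  hZ : 2 * (Z : ℤ) = 3 - e

variable {N L1 L2 Z : ℕ}

theorem Good.odd (D : Good m e N L1 L2 Z) : m % 2 = 1 := by
  have := D.hL2
  omega

theorem Good.lt (D : Good m e N L1 L2 Z) : N < m := by
  have h1 := D.hN
  have h2 := D.hm
  rcases D.he with h | h <;> omega

theorem one_sub_ne_of {z : ℤ} (hz : z ≠ 0) : 1 - (q : RatFunc ℚ) ^ z ≠ 0 := by
  intro h
  exact zq_ne_one hz (sub_eq_zero.1 h).symm

theorem not_dvd_four (hodd : m % 2 = 1) {l : ℕ} (hl : l + 1 < m) (c : ℤ) :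
    ¬ (m : ℤ) ∣ 4 + m * c + 4 * (l : ℤ) := by
  intro h
  have h1 : (m : ℤ) ∣ 4 + m * c + 4 * ((m - 1 : ℕ) : ℤ) := by
    refine ⟨c + 4, ?_⟩
    rw [Nat.cast_sub (by omega)]
    push_cast; ring
  have := uniq hodd (show l < m by omega) (show m - 1 < m by omega) h h1
  omega

/-- the exact zeros -/
theorem Good.zero (D : Good m e N L1 L2 Z) {α t s : ℤ} (hα : 0 ≤ α) (ht : 1 + α - t ≠ 0) :
    ∑ k ∈ range (N + 1), (1 - q ^ (e + m * α + 8 * (k : ℤ))) * F (e + m * α) 4 k *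
      F (e + m * (-3)) (4 + m * (α + 3)) k *
      (F (e + m * s) (4 + m * (α - s)) k * F (e + m * (α + 1 - s)) (4 + m * (s - 1)) k) *
      (F (e + m * (α + 2 - t)) (4 + m * (t - 2)) k * F (2 + m * t) (e + 2 + m * (α - t)) k) *
      ((q ^ 4) ^ Z) ^ k = 0 := by
  have hodd := D.odd
  have hlt := D.lt
  have hN := D.hN
  have hm := D.hm
  have zc : ∀ (x : ℤ) (l : ℕ), (q : RatFunc ℚ) ^ x * (q ^ 4) ^ l = q ^ (x + 4 * (l : ℤ)) := by
    intro x l
    rw [zpow_add₀ q_ne, ← pow_mul, ← zpow_natCast q (4 * l)]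
    push_cast; rfl
  have h := WP.zero (A := (q : RatFunc ℚ) ^ (e + m * α)) (Q := q ^ 4)
    (c1 := q ^ (4 + m * (s - 1))) (c1' := q ^ (4 + m * (α - s)))
    (c2 := q ^ (e + 2 + m * (α - t))) (c2' := q ^ (4 + m * (t - 2))) (N := N) (L1 := L1)
    (L2 := L2) (Z := Z) (B := N) (pow_ne_zero 4 q_ne) ?_ ?_ ?_ ?_ ?_ ?_ ?_ ?_ le_rfl ?_ ?_
  · rw [← h]
    apply sum_congr rfl
    intro k _
    have hL1 := D.hL1
    have hL2 := D.hL2
    have f1 : (q : RatFunc ℚ) ^ (4 + m * (s - 1)) * (q ^ 4) ^ L1 = q ^ (e + m * s) := by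
      rw [zc]; congr 1; linear_combination hL1
    have f2 : (q : RatFunc ℚ) ^ (4 + m * (α - s)) * (q ^ 4) ^ L1 = q ^ (e + m * (α + 1 - s)) := by
      rw [zc]; congr 1; linear_combination hL1
    have f3 : (q : RatFunc ℚ) ^ (e + 2 + m * (α - t)) * (q ^ 4) ^ L2 =
        q ^ (e + m * (α + 2 - t)) := by
      rw [zc]; congr 1; linear_combination 2 * hL2
    have f4 : (q : RatFunc ℚ) ^ (4 + m * (t - 2)) * (q ^ 4) ^ L2 = q ^ (2 + m * t) := by
      rw [zc]; congr 1; linear_combination 2 * hL2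
    have f5 : ((q : RatFunc ℚ) ^ 4) = q ^ (4 : ℤ) := by norm_cast
    have f6 : (((q : RatFunc ℚ) ^ 4) ^ N)⁻¹ = q ^ (e + m * (-3)) := by
      have : ((q : RatFunc ℚ) ^ 4) ^ N = q ^ (4 * (N : ℤ)) := by
        rw [← pow_mul, ← zpow_natCast q (4 * N)]; push_cast; rfl
      rw [this, ← zpow_neg]; congr 1; linear_combination -hN
    have f7 : (q : RatFunc ℚ) ^ (e + m * α) * (q ^ 4) ^ (N + 1) = q ^ (4 + m * (α + 3)) := by
      rw [zc]; congr 1; push_cast; linear_combination hN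
    have f8 : (q : RatFunc ℚ) ^ (e + m * α) * (q ^ 4) ^ (2 * k) =
        q ^ (e + m * α + 8 * (k : ℤ)) := by
      rw [zc]; congr 1; push_cast; ring
    rw [f1, f2, f3, f4, f6, f7, f8, ← F_fr, ← F_fr, ← F_fr, ← F_fr, ← F_fr]
    have f9 : fr ((q : RatFunc ℚ) ^ 4) (q ^ (e + m * α)) (q ^ 4) k = F (e + m * α) 4 k := by
      rw [F_fr]; congr 1
    rw [f9, F_swap (e + m * s) (4 + m * (α - s)), F_swap (e + m * (α + 2 - t)) (4 + m * (t - 2))]
  · rw [← zpow_add₀ q_ne, zc, ← zpow_natCast q 4, ← zpow_add₀ q_ne]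
    congr 1
    have hL1 := D.hL1
    push_cast
    linear_combination hL1
  · rw [← zpow_add₀ q_ne, zc, ← zpow_natCast q 4, ← zpow_add₀ q_ne]
    congr 1
    have hL2 := D.hL2
    push_cast
    linear_combination 2 * hL2
  · intro i hi
    rw [zc]
    apply one_sub_ne_of
    intro h0
    exact not_dvd_four hodd (show i + 1 < m by omega) (s - 1) (by rw [h0]; exact dvd_zero _)
  · intro i hi
    rw [zc]
    apply one_sub_ne_of
    intro h0
    exact not_dvd_four hodd (show i + 1 < m by omega) (α - s) (by rw [h0]; exact dvd_zero _)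
  · intro i hi
    rw [zc]
    apply one_sub_ne_of
    intro h0
    -- the multiples of `m`
    have h1 : (m : ℤ) * (t - α) = e + 2 + 4 * (i : ℤ) := by linear_combination -h0
    have h2 : (0 : ℤ) < m * (t - α) := by rcases D.he with h | h <;> omega
    have h3 : (m : ℤ) * (t - α) < m * 3 := by rw [h1]; omega
    have h4 : 0 < t - α := by
      by_contra hc
      have : (m : ℤ) * (t - α) ≤ 0 := mul_nonpos_of_nonneg_of_nonpos (by omega) (by omega)
      omega
    have h5 : t - α < 3 := lt_of_mul_lt_mul_left h3 (by omega)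
    have h6 : t - α = 1 ∨ t - α = 2 := by omega
    rcases h6 with h6 | h6
    · exact ht (by omega)
    · rw [h6] at h1
      rcases D.he with h | h <;> omega
  · intro i hi
    rw [zc]
    apply one_sub_ne_of
    intro h0
    exact not_dvd_four hodd (show i + 1 < m by omega) (t - 2) (by rw [h0]; exact dvd_zero _)
  · intro i hi
    rw [← pow_mul]
    exact one_sub_q_ne (by omega)
  · intro k _
    rw [zc]
    apply one_sub_ne_of
    have h1 : e + m * α + 4 * ((N + 1 + k : ℕ) : ℤ) = m * (α + 3) + 4 * ((k : ℤ) + 1) := by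
      push_cast; linear_combination hN
    rw [h1]
    have : 0 ≤ (m : ℤ) * (α + 3) := mul_nonneg (by omega) (by omega)
    omega
  · have hL1 := D.hL1
    have hL2 := D.hL2
    have hZ := D.hZ
    omega
  · have hZ := D.hZ
    rcases D.he with h | h <;> omega

end Q278.WR
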