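import Pool.Agent.Q278.WR3

set_option autoImplicit false

/-! The antisymmetry at a root of unity. -/

namespace Q278.WR

open Finset Q278.Loc Q278.Unit Q278.Cyc Q278.Blk Q278.DD

section cplx

variable {m N Z : ℕ} {e w0 : ℤ} {η : ℂ} {u v : ℕ → ℂ}

/-- the products of ratios -/
noncomputable def Hp (u v : ℕ → ℂ) (k : ℕ) : ℂ := ∏ l ∈ range k, u l / v l

theorem Hp_refl (hη0 : η ≠ 0) (hw : η ^ (e + 4 * (N : ℤ)) = 1) (hu : ∀ l < N, u l ≠ 0)
    (hv : ∀ l < N, v l ≠ 0)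
    (h : ∀ l < N, u (N - 1 - l) = -(η ^ (e + 2 + 4 * (l : ℤ)))⁻¹ * v l) {k : ℕ} (hk : k ≤ N) :
    Hp u v (N - k) = Hp u v N * (η ^ e) ^ k * Hp u v k := by
  induction k with
  | zero => simp [Hp]
  | succ k ih =>
    have ih := ih (by omega)
    have e1 : Hp u v (N - k) = Hp u v (N - (k + 1)) * (u (N - 1 - k) / v (N - 1 - k)) := by
      unfold Hp
      rw [show N - k = (N - (k + 1)) + 1 by omega, prod_range_succ,
        show N - (k + 1) = N - 1 - k by omega]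
    have e2 : Hp u v (k + 1) = Hp u v k * (u k / v k) := by
      unfold Hp
      rw [prod_range_succ]
    have h1 := h k (by omega)
    have h2 := h (N - 1 - k) (by omega)
    rw [show N - 1 - (N - 1 - k) = k by omega] at h2
    have z1 := hu k (by omega)
    have z2 := hv k (by omega)
    have z3 := hv (N - 1 - k) (by omega)
    have z4 : (η : ℂ) ^ (e + 2 + 4 * (k : ℤ)) ≠ 0 := zpow_ne_zero _ hη0
    have z5 : (η : ℂ) ^ (e + 2 + 4 * ((N - 1 - k : ℕ) : ℤ)) ≠ 0 := zpow_ne_zero _ hη0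
    have e3 : (u k / v k) * (u (N - 1 - k) / v (N - 1 - k)) * η ^ e = 1 := by
      rw [h1, h2]
      have e4 : (η : ℂ) ^ e * (η ^ (e + 2 + 4 * (k : ℤ)))⁻¹ *
          (η ^ (e + 2 + 4 * ((N - 1 - k : ℕ) : ℤ)))⁻¹ = 1 := by
        rw [← zpow_neg, ← zpow_neg, ← zpow_add₀ hη0, ← zpow_add₀ hη0]
        have : e + -(e + 2 + 4 * (k : ℤ)) + -(e + 2 + 4 * ((N - 1 - k : ℕ) : ℤ)) =
            -(e + 4 * (N : ℤ)) := by
          rw [Nat.cast_sub (by omega), Nat.cast_sub (by omega)]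
          push_cast; ring
        rw [this, zpow_neg, hw, inv_one]
      have e5 : -(η ^ (e + 2 + 4 * ((N - 1 - k : ℕ) : ℤ)))⁻¹ * v (N - 1 - k) / v k *
          (-(η ^ (e + 2 + 4 * (k : ℤ)))⁻¹ * v k / v (N - 1 - k)) * η ^ e =
          η ^ e * (η ^ (e + 2 + 4 * (k : ℤ)))⁻¹ *
          (η ^ (e + 2 + 4 * ((N - 1 - k : ℕ) : ℤ)))⁻¹ := by
        field_simp
      rw [e5, e4]
    rw [e1] at ih
    rw [e2, pow_succ]
    generalize u k / v k = x at *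
    generalize u (N - 1 - k) / v (N - 1 - k) = y at *
    linear_combination (x * η ^ e) * ih - Hp u v (N - (k + 1)) * e3

theorem Hp_full (hη0 : η ≠ 0) (hv : ∀ l < N, v l ≠ 0)
    (h : ∀ l < N, u (N - 1 - l) = -(η ^ (e + 2 + 4 * (l : ℤ)))⁻¹ * v l) :
    Hp u v N * η ^ ((N : ℤ) * (e + 2 * N)) = (-1) ^ N := by
  have e1 : Hp u v N = ∏ l ∈ range N, (-(η ^ (e + 2 + 4 * (l : ℤ)))⁻¹) := by
    unfold Hp
    rw [prod_div_distrib, ← prod_range_reflect, div_eq_iff (prod_ne_zero_iff.2 fun l hl =>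
      hv l (mem_range.1 hl)), ← prod_mul_distrib]
    apply prod_congr rfl
    intro l hl
    exact h l (mem_range.1 hl)
  have e2 : η ^ ((N : ℤ) * (e + 2 * N)) = ∏ l ∈ range N, η ^ (e + 2 + 4 * (l : ℤ)) := by
    clear h hv e1
    induction N with
    | zero => simp
    | succ N ih =>
      rw [prod_range_succ, ← ih, ← zpow_add₀ hη0]
      congr 1
      push_cast; ring
  rw [e1, e2, ← prod_mul_distrib]
  have : ∀ l ∈ range N, -(η ^ (e + 2 + 4 * (l : ℤ)))⁻¹ * η ^ (e + 2 + 4 * (l : ℤ)) = (-1 : ℂ) := by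
    intro l _
    rw [neg_mul, inv_mul_cancel₀ (zpow_ne_zero _ hη0)]
  rw [prod_congr rfl this, prod_const, card_range]

/-- the terms at the root of unity -/
noncomputable def Tc (η : ℂ) (e : ℤ) (Z : ℕ) (u v : ℕ → ℂ) (k : ℕ) : ℂ :=
  (1 - η ^ e * (η ^ 4) ^ (2 * k)) * ((η ^ 4) ^ Z) ^ k * Anti.P (η ^ e) (η ^ 4) k ^ 5 * Hp u v k

theorem Tc_anti (hm : 0 < m) (hη : IsPrimitiveRoot η m) (hN : e + 4 * (N : ℤ) = m * w0)
    (hZ : 2 * (Z : ℤ) = 3 - e) (hne : ∀ i, i < N → 1 - (η ^ 4) ^ (i + 1) ≠ 0)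
    (hu : ∀ l < N, u l ≠ 0) (hv : ∀ l < N, v l ≠ 0)
    (h : ∀ l < N, u (N - 1 - l) = -(η ^ (e + 2 + 4 * (l : ℤ)))⁻¹ * v l) {k : ℕ} (hk : k ≤ N) :
    Tc η e Z u v (N - k) = -Tc η e Z u v k := by
  have hη0 : η ≠ 0 := hη.ne_zero (by omega)
  have hw : η ^ (e + 4 * (N : ℤ)) = 1 := by
    rw [hη.zpow_eq_one_iff_dvd]; exact ⟨w0, hN⟩
  have ha : η ^ e * (η ^ 4) ^ N = 1 := by
    rw [← pow_mul, ← zpow_natCast η (4 * N), ← zpow_add₀ hη0]
    push_cast; exact hw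
  have r1 := Hp_refl hη0 hw hu hv h hk
  have r2 := Hp_full hη0 hv h
  unfold Tc
  rw [Anti.P_refl ha hk hne, r1]
  have hPN := P_full ha hne
  set a := η ^ e with had
  set Q := η ^ 4 with hQd
  have hQ0 : Q ≠ 0 := pow_ne_zero _ hη0
  set T := ∑ i ∈ range N, (i + 1) with hT
  have hT2 : 2 * T = N * (N + 1) := by
    have h1 : T = ∑ j ∈ range (N + 1), j := by rw [hT, sum_range_succ']; simp
    have h2 := Finset.sum_range_id_mul_two (N + 1)
    rw [Nat.add_sub_cancel] at h2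
    rw [h1]; linarith
  have e1 : 1 - a * Q ^ (2 * (N - k)) = -(a * Q ^ (2 * (N - k))) * (1 - a * Q ^ (2 * k)) := by
    have h1 : Q ^ (2 * (N - k)) * Q ^ (2 * k) = (Q ^ N) ^ 2 := by
      rw [← pow_add, ← pow_mul Q N 2]; congr 1; omega
    linear_combination (-(a ^ 2)) * h1 - (a * Q ^ N + 1) * ha
  have key : a * Q ^ (2 * (N - k)) * (Q ^ Z) ^ (N - k) * (Anti.P a Q N * Q ^ ((N + 1) * k)) ^ 5 *
      (Hp u v N * a ^ k) = (Q ^ Z) ^ k := by
    have hne2 : (Q ^ T) ^ 5 * η ^ ((N : ℤ) * (e + 2 * N)) ≠ 0 :=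
      mul_ne_zero (pow_ne_zero _ (pow_ne_zero _ hQ0)) (zpow_ne_zero _ hη0)
    apply mul_right_cancel₀ hne2
    have e2 : a * Q ^ (2 * (N - k)) * (Q ^ Z) ^ (N - k) * (Anti.P a Q N * Q ^ ((N + 1) * k)) ^ 5 *
        (Hp u v N * a ^ k) * ((Q ^ T) ^ 5 * η ^ ((N : ℤ) * (e + 2 * N))) =
        (Anti.P a Q N * Q ^ T) ^ 5 * (Hp u v N * η ^ ((N : ℤ) * (e + 2 * N))) *
          (a * a ^ k * Q ^ (2 * (N - k)) * (Q ^ Z) ^ (N - k) * (Q ^ ((N + 1) * k)) ^ 5) := by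
      ring
    rw [e2, hPN, r2]
    have e3 : a * a ^ k * Q ^ (2 * (N - k)) * (Q ^ Z) ^ (N - k) * (Q ^ ((N + 1) * k)) ^ 5 =
        η ^ (e + e * k + ((4 * (2 * (N - k) + Z * (N - k) + (N + 1) * k * 5) : ℕ) : ℤ)) := by
      rw [zpow_add₀ hη0, zpow_add₀ hη0, zpow_natCast, zpow_mul, zpow_natCast, hQd]
      simp only [← pow_mul, mul_assoc, ← pow_add]
      congr 3
      ring
    have e4 : (Q ^ Z) ^ k * ((Q ^ T) ^ 5 * η ^ ((N : ℤ) * (e + 2 * N))) =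
        η ^ (((4 * (Z * k + T * 5) : ℕ) : ℤ) + (N : ℤ) * (e + 2 * N)) := by
      rw [zpow_add₀ hη0, zpow_natCast, hQd]
      simp only [← pow_mul, ← mul_assoc, ← pow_add]
      congr 2
      ring
    rw [e3, e4]
    have e5 : e + e * k + ((4 * (2 * (N - k) + Z * (N - k) + (N + 1) * k * 5) : ℕ) : ℤ) =
        (((4 * (Z * k + T * 5) : ℕ) : ℤ) + (N : ℤ) * (e + 2 * N)) +
          m * (w0 * (1 - 3 * N + 5 * k)) := by
      have hT2' : 2 * (T : ℤ) = N * (N + 1) := by exact_mod_cast hT2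
      push_cast [Nat.cast_sub hk]
      linear_combination (1 - 3 * (N : ℤ) + 5 * k) * hN - 10 * hT2' + 2 * ((N : ℤ) - 2 * k) * hZ
    have e6 : (η : ℂ) ^ ((m : ℤ) * (w0 * (1 - 3 * N + 5 * k))) = 1 := by
      rw [hη.zpow_eq_one_iff_dvd]; exact dvd_mul_right _ _
    rw [e5, zpow_add₀ hη0 _ ((m : ℤ) * (w0 * (1 - 3 * N + 5 * k))), e6, mul_one]
    have e7 : ((-1 : ℂ) ^ N) ^ 5 * (-1) ^ N = 1 := by
      rw [← pow_mul, ← pow_add, show N * 5 + N = 2 * (3 * N) by ring, pow_mul]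
      norm_num
    rw [e7, one_mul]
  rw [e1]
  have e9 : (Anti.P a Q N * Anti.P a Q k * Q ^ ((N + 1) * k)) ^ 5 =
      (Anti.P a Q N * Q ^ ((N + 1) * k)) ^ 5 * Anti.P a Q k ^ 5 := by
    rw [← mul_pow]; congr 1; ring
  rw [e9]
  linear_combination (-(1 - a * Q ^ (2 * k)) * Anti.P a Q k ^ 5 * Hp u v k) * key

theorem sum_anti {f : ℕ → ℂ} (h : ∀ k ≤ N, f (N - k) = -f k) : ∑ k ∈ range (N + 1), f k = 0 := by
  have h1 : ∑ k ∈ range (N + 1), f k = -∑ k ∈ range (N + 1), f k := by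
    conv_lhs => rw [← sum_range_reflect]
    rw [← sum_neg_distrib]
    apply sum_congr rfl
    intro k hk
    rw [show N + 1 - 1 - k = N - k by omega]
    exact h k (by have := mem_range.1 hk; omega)
  have h2 : (2 : ℂ) * ∑ k ∈ range (N + 1), f k = 0 := by linear_combination h1
  exact (mul_eq_zero.1 h2).resolve_left two_ne_zero

end cplx

end Q278.WR
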