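import Pool.Agent.Q278.WR4

set_option autoImplicit false

/-! Divisibility by the first power: the other class. -/

namespace Q278.WR

open Finset Q278.Loc Q278.Unit Q278.Cyc Q278.Blk Q278.DD Q278.WP Q278.Four Polynomial

variable {m : ℕ} {η : ℂ} {e : ℤ} {N Z : ℕ}

theorem ev_fac (hη0 : η ≠ 0) (z : ℤ) : 1 - (q : RatFunc ℚ) ^ z ∈ Reg η ∧
    ev η (1 - (q : RatFunc ℚ) ^ z) = 1 - η ^ z := by
  refine ⟨(Reg η).sub_mem (Reg η).one_mem (zq_mem hη0 z), ?_⟩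
  rw [ev_sub (Reg η).one_mem (zq_mem hη0 z), ev_one, ev_zq hη0]

theorem ev_A (hη0 : η ≠ 0) (x : ℤ) (k : ℕ) :
    ev η (A x k) = ∏ l ∈ range k, (1 - η ^ (x + 4 * (l : ℤ))) := by
  unfold A
  rw [ev_prod fun l _ => (ev_fac hη0 _).1]
  exact prod_congr rfl fun l _ => (ev_fac hη0 _).2

theorem ev_F (hη : IsPrimitiveRoot η m) (hη0 : η ≠ 0) {x y : ℤ} {k : ℕ}
    (h : ∀ l < k, ¬ (m : ℤ) ∣ y + 4 * (l : ℤ)) : F x y k ∈ Reg η ∧
    ev η (F x y k) = ∏ l ∈ range k, ((1 - η ^ (x + 4 * (l : ℤ))) / (1 - η ^ (y + 4 * (l : ℤ)))) := by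
  have hu := A_U hη hη0 h
  unfold F
  refine ⟨by rw [div_eq_mul_inv]; exact (Reg η).mul_mem (A_O hη0 x k) hu.2.1, ?_⟩
  rw [ev_div (A_O hη0 x k) (A_O hη0 y k) (ev_of_U hu), ev_A hη0, ev_A hη0, prod_div_distrib]

theorem zpow_red (hη : IsPrimitiveRoot η m) (hη0 : η ≠ 0) (z c : ℤ) : η ^ (z + m * c) = η ^ z := by
  rw [zpow_add₀ hη0, (hη.zpow_eq_one_iff_dvd _).2 (dvd_mul_right _ _), mul_one]

/-- the value of the first factor -/
theorem ev_P (hodd : m % 2 = 1) (hη : IsPrimitiveRoot η m) (hη0 : η ≠ 0) {k : ℕ} (hk : k < m)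
    (c : ℤ) : F (e + m * c) (4 + m * c) k ∈ Reg η ∧
    ev η (F (e + m * c) (4 + m * c) k) = Anti.P (η ^ e) (η ^ 4) k := by
  obtain ⟨h1, h2⟩ := ev_F hη hη0 (x := e + m * c) (y := 4 + m * c) (k := k)
    (fun l hl => not_dvd_four hodd (by omega) c)
  refine ⟨h1, ?_⟩
  rw [h2]
  unfold Anti.P
  apply prod_congr rfl
  intro l _
  have e1 : η ^ (e + m * c + 4 * (l : ℤ)) = η ^ e * (η ^ 4) ^ l := by
    rw [show e + m * c + 4 * (l : ℤ) = (e + 4 * (l : ℤ)) + m * c by ring, zpow_red hη hη0,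
      zpow_add₀ hη0, ← pow_mul, ← zpow_natCast η (4 * l)]
    push_cast; rfl
  have e2 : η ^ (4 + m * c + 4 * (l : ℤ)) = (η ^ 4) ^ (l + 1) := by
    rw [show 4 + m * c + 4 * (l : ℤ) = (4 + 4 * (l : ℤ)) + m * c by ring, zpow_red hη hη0,
      ← pow_mul, ← zpow_natCast η (4 * (l + 1))]
    congr 1; push_cast; ring
  rw [e1, e2]

theorem ev_lin (hη : IsPrimitiveRoot η m) (hη0 : η ≠ 0) (c : ℤ) (k : ℕ) :
    1 - (q : RatFunc ℚ) ^ (e + 2 * (m * c) + 8 * (k : ℤ)) ∈ Reg η ∧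
    ev η (1 - (q : RatFunc ℚ) ^ (e + 2 * (m * c) + 8 * (k : ℤ))) =
      1 - η ^ e * (η ^ 4) ^ (2 * k) := by
  refine ⟨(ev_fac hη0 _).1, ?_⟩
  rw [(ev_fac hη0 _).2, show e + 2 * (m * c) + 8 * (k : ℤ) = (e + 8 * (k : ℤ)) + m * (2 * c) by ring,
    zpow_red hη hη0, zpow_add₀ hη0, ← pow_mul, ← zpow_natCast η (4 * (2 * k))]
  congr 3
  push_cast; ring

/-- the other class, first power -/
theorem bad1 (he : e = 1 ∨ e = -1) (hm : 1 < m) (hN : e + 4 * (N : ℤ) = m)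
    (hZ : 2 * (Z : ℤ) = 3 - e) (hη : IsPrimitiveRoot η m) (j : ℕ) :
    ∑ i ∈ range m, Bk e Z (m * (4 * (j : ℤ))) i ∈ I (Reg η) (Φ m) 1 := by
  have hodd : m % 2 = 1 := by rcases he with h | h <;> omega
  have hm0 : 0 < m := by omega
  have hη0 : η ≠ 0 := hη.ne_zero (by omega)
  have hlt : N < m := by rcases he with h | h <;> omega
  have hπ := Φ_mem m η
  set c : ℤ := 4 * (j : ℤ) with hc
  have hx0 : 0 ≤ (m : ℤ) * c := by positivity
  -- no poles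
  have nd1 : ∀ l < N, ¬ (m : ℤ) ∣ e + 2 + 4 * (l : ℤ) := by
    intro l hl h
    have := Int.le_of_dvd (by rcases he with h | h <;> omega) h
    omega
  have nd2 : ∀ l < N, ¬ (m : ℤ) ∣ 2 + 4 * (l : ℤ) := by
    intro l hl h
    have := Int.le_of_dvd (by omega) h
    rcases he with h | h <;> omega
  have nz : ∀ z : ℤ, ¬ (m : ℤ) ∣ z → 1 - η ^ z ≠ 0 := by
    intro z hz h
    exact hz ((hη.zpow_eq_one_iff_dvd z).1 (sub_eq_zero.1 h).symm)
  set u : ℕ → ℂ := fun l => 1 - η ^ (2 + 4 * (l : ℤ)) with hu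
  set v : ℕ → ℂ := fun l => 1 - η ^ (e + 2 + 4 * (l : ℤ)) with hv
  have hT : ∀ k ≤ N, Bk e Z (m * c) k ∈ Reg η ∧ ev η (Bk e Z (m * c) k) = Tc η e Z u v k := by
    intro k hk
    obtain ⟨p1, p2⟩ := ev_P (e := e) hodd hη hη0 (show k < m by omega) c
    obtain ⟨l1, l2⟩ := ev_lin (e := e) hη hη0 c k
    have nd3 : ∀ l < k, ¬ (m : ℤ) ∣ e + 2 + m * c + 4 * (l : ℤ) := by
      intro l hl h
      apply nd1 l (by omega)
      have := h.sub (dvd_mul_right (m : ℤ) c)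
      rwa [show e + 2 + m * c + 4 * (l : ℤ) - m * c = e + 2 + 4 * (l : ℤ) by ring] at this
    obtain ⟨f1, f2⟩ := ev_F hη hη0 (x := 2 + m * c) nd3
    have z1 : (((q : RatFunc ℚ) ^ 4) ^ Z) ^ k ∈ Reg η :=
      (Reg η).pow_mem ((Reg η).pow_mem (q_pow_mem η 4) _) _
    have z2 : ev η ((((q : RatFunc ℚ) ^ 4) ^ Z) ^ k) = ((η ^ 4) ^ Z) ^ k := by
      rw [ev_pow ((Reg η).pow_mem (q_pow_mem η 4) _), ev_pow (q_pow_mem η 4), ev_q_pow]
    unfold Bk
    refine ⟨(Reg η).mul_mem ((Reg η).mul_mem ((Reg η).mul_mem l1 ((Reg η).pow_mem p1 5)) f1) z1, ?_⟩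
    rw [ev_mul ((Reg η).mul_mem ((Reg η).mul_mem l1 ((Reg η).pow_mem p1 5)) f1) z1,
      ev_mul ((Reg η).mul_mem l1 ((Reg η).pow_mem p1 5)) f1, ev_mul l1 ((Reg η).pow_mem p1 5),
      ev_pow p1, l2, p2, f2, z2]
    have e3 : ∏ l ∈ range k, ((1 - η ^ (2 + m * c + 4 * (l : ℤ))) /
        (1 - η ^ (e + 2 + m * c + 4 * (l : ℤ)))) = Hp u v k := by
      unfold Hp
      apply prod_congr rfl
      intro l _
      rw [show 2 + m * c + 4 * (l : ℤ) = (2 + 4 * (l : ℤ)) + m * c by ring,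
        show e + 2 + m * c + 4 * (l : ℤ) = (e + 2 + 4 * (l : ℤ)) + m * c by ring,
        zpow_red hη hη0, zpow_red hη hη0]
    rw [e3]
    unfold Tc
    ring
  have hsum : ∑ k ∈ range (N + 1), Tc η e Z u v k = 0 := by
    apply sum_anti
    intro k hk
    refine Tc_anti (w0 := 1) hm0 hη (by rw [mul_one]; exact hN) hZ ?_ ?_ ?_ ?_ hk
    · intro i hi
      have := nz (4 + m * 0 + 4 * (i : ℤ)) (not_dvd_four hodd (by omega) 0)
      rw [← pow_mul, ← zpow_natCast η (4 * (i + 1))]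
      convert this using 3
      push_cast; ring
    · intro l hl; exact nz _ (nd2 l hl)
    · intro l hl; exact nz _ (nd1 l hl)
    · intro l hl
      have h0 : (η : ℂ) ^ (e + 2 + 4 * (l : ℤ)) ≠ 0 := zpow_ne_zero _ hη0
      have h1 : η ^ (2 + 4 * ((N - 1 - l : ℕ) : ℤ)) = (η ^ (e + 2 + 4 * (l : ℤ)))⁻¹ := by
        rw [← zpow_neg, ← zpow_red hη hη0 (-(e + 2 + 4 * (l : ℤ))) 1]
        congr 1
        rw [Nat.cast_sub (by omega), Nat.cast_sub (by omega)]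
        push_cast
        linear_combination hN
      simp only [hu, hv]
      rw [h1]
      field_simp
      ring
  have main : ∑ k ∈ range (N + 1), Bk e Z (m * c) k ∈ I (Reg η) (Φ m) 1 := by
    have hm' : ∀ k ∈ range (N + 1), Bk e Z (m * c) k ∈ Reg η := fun k hk =>
      (hT k (by have := mem_range.1 hk; omega)).1
    apply mem_I_one hm0 hη ((Reg η).sum_mem hm')
    rw [ev_sum hm', ← hsum]
    exact sum_congr rfl fun k hk => (hT k (by have := mem_range.1 hk; omega)).2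
  -- the tail
  obtain ⟨w, hw⟩ := Nat.exists_eq_add_of_le (show N + 1 ≤ m by omega)
  have hsplit : ∑ i ∈ range m, Bk e Z (m * c) i = ∑ i ∈ range (N + 1), Bk e Z (m * c) i +
      ∑ i ∈ range w, Bk e Z (m * c) (N + 1 + i) := by
    rw [show range m = range (N + 1 + w) by rw [hw], sum_range_add]
  rw [hsplit]
  refine (I (Reg η) (Φ m) 1).add_mem main (AddSubgroup.sum_mem _ fun i hi => ?_)
  have hi' := mem_range.1 hi
  have hG : F (e + m * c) (4 + m * c) (N + 1 + i) ∈ I (Reg η) (Φ m) 1 := by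
    unfold F
    rw [div_eq_mul_inv, mul_comm]
    refine mul_O (A_U hη hη0 ?_).2.1 (A_I hm0 hη (show N < N + 1 + i by omega) ?_)
    · intro l hl
      exact not_dvd_four hodd (show l + 1 < m by omega) c
    · refine ⟨c + 1, ?_⟩
      linear_combination hN
  have hG2 : F (e + m * c) (4 + m * c) (N + 1 + i) ^ 5 ∈ I (Reg η) (Φ m) (1 + 1) :=
    mono hπ (by omega) (pow_I hG 5)
  apply pi_k_cancel (k := 1) (l := 1)
  have h3 := mul_O ((Reg η).mul_mem ((Reg η).mul_mem ((Reg η).sub_mem (Reg η).one_mem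
    (zq_mem hη0 (e + 2 * (m * c) + 8 * ((N + 1 + i : ℕ) : ℤ)))) ((Reg η).pow_mem ((Reg η).pow_mem
    (q_pow_mem η 4) Z) (N + 1 + i))) (pole_O hodd hη he hx0 (show N + 1 + i ≤ m by omega))) hG2
  convert h3 using 1
  unfold Bk
  ring

end Q278.WR
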