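import Pool.Agent.Q278.WR5

set_option autoImplicit false

/-! Divisibility by the third power. -/

namespace Q278.WR

open Finset Q278.Loc Q278.Unit Q278.Cyc Q278.Blk Q278.DD Q278.WP Q278.Four Q278.Ex Q278.VKM
  Polynomial

variable {m : ℕ} {η : ℂ} {e : ℤ} {N L1 L2 Z : ℕ}

theorem zc (x : ℤ) (l : ℕ) : (q : RatFunc ℚ) ^ x * (q ^ 4) ^ l = q ^ (x + 4 * (l : ℤ)) := by
  rw [zpow_add₀ q_ne, ← pow_mul, ← zpow_natCast q (4 * l)]
  push_cast; rfl

theorem gk_F (x t : ℤ) (k : ℕ) :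
    gk ((q : RatFunc ℚ) ^ x) (q ^ 4) (q ^ m) k t = F (x + m * t) (4 - m * t) k := by
  unfold gk F A
  rw [prod_div_distrib]
  congr 1
  · apply prod_congr rfl
    intro l _
    rw [zc, ← zpow_natCast q m, ← zpow_mul, ← zpow_add₀ q_ne]
    congr 2; ring
  · apply prod_congr rfl
    intro l _
    rw [← pow_mul, ← zpow_natCast q m, ← zpow_mul, ← zpow_natCast q (4 * (l + 1)),
      ← zpow_add₀ q_ne]
    congr 2; push_cast; ring

/-- the regularised factor -/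
noncomputable def ps (m : ℕ) (e : ℤ) (k : ℕ) : RatFunc ℚ := (1 - q ^ m) * F 2 (e + 2) k

theorem ps_O (hodd : m % 2 = 1) (hη : IsPrimitiveRoot η m) (he : e = 1 ∨ e = -1) {k : ℕ}
    (hk : k ≤ m) : ps m e k ∈ Reg η := by
  obtain ⟨u, hu, e1⟩ := one_sub_V (m := m) (by omega) hη
  have h := pole_O hodd hη he (x := 0) le_rfl hk
  rw [add_zero, add_zero] at h
  unfold ps
  rw [e1]
  have := (Reg η).mul_mem hu.1 h
  convert this using 1
  ring

theorem ps_I_low (hη : IsPrimitiveRoot η m) (hm : 0 < m) {k : ℕ}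
    (h : ∀ l < k, ¬ (m : ℤ) ∣ (e + 2) + 4 * (l : ℤ)) : ps m e k ∈ I (Reg η) (Φ m) 1 := by
  have hη0 : η ≠ 0 := hη.ne_zero (by omega)
  have h1 := one_sub_zq_I hm hη hη0 (dvd_refl (m : ℤ))
  rw [zpow_natCast] at h1
  unfold ps
  rw [mul_comm]
  exact mul_O (ev_F hη hη0 h).1 h1

theorem ps_I_high (hodd : m % 2 = 1) (hη : IsPrimitiveRoot η m) (he : e = 1 ∨ e = -1) {k l1 : ℕ}
    (hk : k ≤ m) (hl : l1 < k) (h1 : (m : ℤ) ∣ 2 + 4 * (l1 : ℤ)) :
    ps m e k ∈ I (Reg η) (Φ m) 1 := by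
  obtain ⟨u, hu, e1⟩ := one_sub_V (m := m) (by omega) hη
  have h := A_pole hodd hη (x := e + 2) hk (fun l => by rcases he with h | h <;> omega)
  have h2 := mul_O ((Reg η).mul_mem hu.1 h) (A_I (by omega) hη hl h1)
  convert h2 using 1
  unfold ps F
  rw [e1, div_eq_mul_inv]
  ring

/-- the values of the middle terms -/
theorem ps_mid (hodd : m % 2 = 1) (hη : IsPrimitiveRoot η m) {k l0 l1 : ℕ}
    (hk : k ≤ m) (hl : l0 < k) (hl1 : k ≤ l1) (h0 : e + 2 + 4 * (l0 : ℤ) = m) :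
    ev η (ps m e k) = Hp (fun l => if l = l1 then -1 else 1 - η ^ (2 + 4 * (l : ℤ)))
      (fun l => if l = l0 then 1 else 1 - η ^ (e + 2 + 4 * (l : ℤ))) k := by
  have hη0 : η ≠ 0 := hη.ne_zero (by omega)
  have hu := er_U hodd hη hη0 (x := e + 2) hk hl (by rw [h0])
  have e1 : ps m e k = A 2 k / ∏ l ∈ (range k).erase l0, (1 - q ^ (e + 2 + 4 * (l : ℤ))) := by
    unfold ps F
    rw [A_split (x := e + 2) hl, h0, zpow_natCast, ← mul_div_assoc, mul_div_mul_left]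
    have := one_sub_q_ne (show 0 < m by omega)
    exact this
  rw [e1, ev_div (A_O hη0 2 k) hu.1 (ev_of_U hu), ev_A hη0, ev_prod fun l _ => (ev_fac hη0 _).1]
  unfold Hp
  rw [prod_div_distrib]
  congr 1
  · apply prod_congr rfl
    intro l hl'
    have := mem_range.1 hl'
    rw [if_neg (by omega)]
  · rw [← mul_prod_erase (range k) _ (mem_range.2 hl), if_pos rfl, one_mul]
    apply prod_congr rfl
    intro l hl'
    rw [(ev_fac hη0 _).2, if_neg (mem_erase.1 hl').1]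

theorem ev_B3 (hη : IsPrimitiveRoot η m) (hη0 : η ≠ 0) {k : ℕ}
    (u1 : ∀ l < k, ¬ (m : ℤ) ∣ e + 4 * (l : ℤ)) (u2 : ∀ l < k, ¬ (m : ℤ) ∣ 4 + 4 * (l : ℤ)) :
    B3 ((q : RatFunc ℚ) ^ e) (q ^ 4) k ∈ Reg η ∧
      ev η (B3 ((q : RatFunc ℚ) ^ e) (q ^ 4) k) = B3 (η ^ e) (η ^ 4) k := by
  have o3 : ∀ c : RatFunc ℚ, c ∈ Reg η → U (Reg η) (1 - c) → a3 c ∈ Reg η := by
    intro c hc hc1
    have s6 := sixth_O (hO_cyc (η := η))
    have e : a3 c = (1 / 6) * (-(c * (1 + c)) * ((1 - c) ^ 3)⁻¹) := by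
      have := hc1.2.2
      unfold a3; field_simp
    rw [e]
    exact (Reg η).mul_mem s6 ((Reg η).mul_mem ((Reg η).neg_mem ((Reg η).mul_mem hc
      ((Reg η).add_mem (Reg η).one_mem hc))) (hc1.pow 3).2.1)
  have g1 : ∀ l < k, a3 ((q : RatFunc ℚ) ^ e * (q ^ 4) ^ l) ∈ Reg η ∧
      ev η (a3 ((q : RatFunc ℚ) ^ e * (q ^ 4) ^ l)) = a3 (η ^ e * (η ^ 4) ^ l) := by
    intro l hl
    have hU := one_sub_zq_U hη hη0 (u1 l hl)
    rw [zc]
    refine ⟨o3 _ (zq_mem hη0 _) hU, ?_⟩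
    rw [ev_a3 (zq_mem hη0 _) (ev_of_U hU), ev_zq hη0, zpow_add₀ hη0, ← pow_mul,
      ← zpow_natCast η (4 * l)]
    push_cast; rfl
  have g2 : ∀ l < k, a3 (((q : RatFunc ℚ) ^ 4) ^ (l + 1)) ∈ Reg η ∧
      ev η (a3 (((q : RatFunc ℚ) ^ 4) ^ (l + 1))) = a3 ((η ^ 4) ^ (l + 1)) := by
    intro l hl
    have hU := one_sub_zq_U hη hη0 (u2 l hl)
    have e1 : ((q : RatFunc ℚ) ^ 4) ^ (l + 1) = q ^ (4 + 4 * (l : ℤ)) := by
      rw [← pow_mul, ← zpow_natCast q (4 * (l + 1))]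
      congr 1; push_cast; ring
    rw [e1]
    refine ⟨o3 _ (zq_mem hη0 _) hU, ?_⟩
    rw [ev_a3 (zq_mem hη0 _) (ev_of_U hU), ev_zq hη0, ← pow_mul, ← zpow_natCast η (4 * (l + 1))]
    congr 2; push_cast; ring
  unfold B3
  refine ⟨(Reg η).sum_mem fun l hl => (Reg η).add_mem (g1 l (mem_range.1 hl)).1
    (g2 l (mem_range.1 hl)).1, ?_⟩
  rw [ev_sum fun l hl => (Reg η).add_mem (g1 l (mem_range.1 hl)).1 (g2 l (mem_range.1 hl)).1]
  apply sum_congr rfl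
  intro l hl
  rw [ev_add (g1 l (mem_range.1 hl)).1 (g2 l (mem_range.1 hl)).1, (g1 l (mem_range.1 hl)).2,
    (g2 l (mem_range.1 hl)).2]

/-- the coefficients -/
noncomputable def Xk (m : ℕ) (e : ℤ) (Z k : ℕ) : RatFunc ℚ :=
  (1 - q ^ (e + 8 * (k : ℤ))) * ((q ^ 4) ^ Z) ^ k * F e 4 k ^ 5 * ps m e k

theorem Good.nd1 (D : Good m e N L1 L2 Z) {l : ℕ} (hl : l < N) : ¬ (m : ℤ) ∣ e + 4 * (l : ℤ) := by
  intro h
  have h1 : (m : ℤ) ∣ e + 4 * (N : ℤ) := ⟨3, by linear_combination D.hN⟩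
  have := D.lt
  have := uniq D.odd (by omega) this h h1
  omega

theorem Good.nd2 (D : Good m e N L1 L2 Z) {l : ℕ} (hl : l < N) : ¬ (m : ℤ) ∣ 4 + 4 * (l : ℤ) := by
  have := D.lt
  have := not_dvd_four D.odd (show l + 1 < m by omega) 0
  rwa [mul_zero, add_zero] at this

theorem Good.C3 (D : Good m e N L1 L2 Z) (hη : IsPrimitiveRoot η m) :
    ∑ k ∈ range (N + 1), Xk m e Z k * B3 (q ^ e) (q ^ 4) k ∈ I (Reg η) (Φ m) 1 := by
  have hodd := D.odd
  have hm0 : 0 < m := by omega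
  have hη0 : η ≠ 0 := hη.ne_zero (by omega)
  have hlt := D.lt
  have hN := D.hN
  have hL2 := D.hL2
  have hm1 := D.hm
  have hπ := Φ_mem m η
  have hl0 : ∃ l0 : ℕ, e + 2 + 4 * (l0 : ℤ) = m := by
    have := D.hL1
    rcases D.he with h | h
    · exact ⟨L1, by rw [h] at this ⊢; linear_combination this⟩
    · exact ⟨L1 + 1, by rw [h] at this ⊢; push_cast; linear_combination this⟩
  obtain ⟨l0, hl0⟩ := hl0
  have hl0L : l0 ≤ L2 := by rcases D.he with h | h <;> omega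
  have hrel : N - 1 - l0 = L2 := by rcases D.he with h | h <;> omega
  have hL2N : L2 < N := by rcases D.he with h | h <;> omega
  set u : ℕ → ℂ := fun l => if l = L2 then -1 else 1 - η ^ (2 + 4 * (l : ℤ)) with hu
  set v : ℕ → ℂ := fun l => if l = l0 then 1 else 1 - η ^ (e + 2 + 4 * (l : ℤ)) with hv
  have nz : ∀ z : ℤ, ¬ (m : ℤ) ∣ z → 1 - η ^ z ≠ 0 := by
    intro z hz h
    exact hz ((hη.zpow_eq_one_iff_dvd z).1 (sub_eq_zero.1 h).symm)
  have hne : ∀ i, i < N → 1 - (η ^ 4) ^ (i + 1) ≠ 0 := by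
    intro i hi
    have := nz (4 + 4 * (i : ℤ)) (D.nd2 hi)
    rw [← pow_mul, ← zpow_natCast η (4 * (i + 1))]
    convert this using 3
    push_cast; ring
  have ha : η ^ e * (η ^ 4) ^ N = 1 := by
    rw [← pow_mul, ← zpow_natCast η (4 * N), ← zpow_add₀ hη0, hη.zpow_eq_one_iff_dvd]
    exact ⟨3, by push_cast; linear_combination hN⟩
  have hu0 : ∀ l < N, u l ≠ 0 := by
    intro l hl
    simp only [hu]
    split_ifs with h
    · norm_num
    · apply nz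
      intro h1
      exact h (uniq hodd (by omega) (by omega) h1 ⟨2, by linear_combination 2 * hL2⟩)
  have hv0 : ∀ l < N, v l ≠ 0 := by
    intro l hl
    simp only [hv]
    split_ifs with h
    · norm_num
    · apply nz
      intro h1
      exact h (uniq hodd (by omega) (by omega) h1 ⟨1, by linear_combination hl0⟩)
  have hrefl : ∀ l < N, u (N - 1 - l) = -(η ^ (e + 2 + 4 * (l : ℤ)))⁻¹ * v l := by
    intro l hl
    simp only [hu, hv]
    by_cases h : l = l0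
    · rw [h, if_pos rfl, hrel, if_pos rfl, hl0, zpow_natCast, hη.pow_eq_one]
      norm_num
    · rw [if_neg h, if_neg (by omega)]
      have h0 : (η : ℂ) ^ (e + 2 + 4 * (l : ℤ)) ≠ 0 := zpow_ne_zero _ hη0
      have h1 : η ^ (2 + 4 * ((N - 1 - l : ℕ) : ℤ)) = (η ^ (e + 2 + 4 * (l : ℤ)))⁻¹ := by
        rw [← zpow_neg, ← zpow_red hη hη0 (-(e + 2 + 4 * (l : ℤ))) 3]
        congr 1
        rw [Nat.cast_sub (by omega), Nat.cast_sub (by omega)]
        push_cast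
        linear_combination hN
      rw [h1]
      field_simp
      ring
  set T : ℕ → ℂ := fun k => if l0 < k ∧ k ≤ L2 then Tc η e Z u v k * B3 (η ^ e) (η ^ 4) k else 0
    with hT
  have hsum : ∑ k ∈ range (N + 1), T k = 0 := by
    apply sum_anti
    intro k hk
    simp only [hT]
    by_cases h : l0 < k ∧ k ≤ L2
    · rw [if_pos h, if_pos (by omega), Tc_anti (w0 := 3) hm0 hη (by linear_combination hN) D.hZ hne
        hu0 hv0 hrefl hk, B3_eq ha hne hk, B3_eq ha hne (show N - k ≤ N by omega),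
        show N - (N - k) = k by omega]
      ring
    · rw [if_neg h, if_neg (by omega), neg_zero]
  have key : ∀ k ∈ range (N + 1), Xk m e Z k * B3 (q ^ e) (q ^ 4) k ∈ Reg η ∧
      ev η (Xk m e Z k * B3 (q ^ e) (q ^ 4) k) = T k := by
    intro k hk
    have hk' : k ≤ N := by have := mem_range.1 hk; omega
    obtain ⟨b1, b2⟩ := ev_B3 (e := e) hη hη0 (k := k) (fun l hl => D.nd1 (by omega))
      (fun l hl => D.nd2 (by omega))
    obtain ⟨p1, p2⟩ := ev_P (e := e) hodd hη hη0 (show k < m by omega) 0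
    rw [mul_zero, add_zero, add_zero] at p1 p2
    obtain ⟨l1', l2'⟩ := ev_lin (e := e) hη hη0 0 k
    rw [mul_zero, mul_zero, add_zero] at l1' l2'
    have z1 : (((q : RatFunc ℚ) ^ 4) ^ Z) ^ k ∈ Reg η :=
      (Reg η).pow_mem ((Reg η).pow_mem (q_pow_mem η 4) _) _
    have z2 : ev η ((((q : RatFunc ℚ) ^ 4) ^ Z) ^ k) = ((η ^ 4) ^ Z) ^ k := by
      rw [ev_pow ((Reg η).pow_mem (q_pow_mem η 4) _), ev_pow (q_pow_mem η 4), ev_q_pow]
    have s1 := ps_O hodd hη D.he (show k ≤ m by omega)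
    have y1 := (Reg η).mul_mem ((Reg η).mul_mem l1' z1) ((Reg η).pow_mem p1 5)
    have y2 : Xk m e Z k ∈ Reg η := (Reg η).mul_mem y1 s1
    refine ⟨(Reg η).mul_mem y2 b1, ?_⟩
    rw [ev_mul y2 b1, b2]
    unfold Xk
    rw [ev_mul y1 s1]
    simp only [hT]
    by_cases h : l0 < k ∧ k ≤ L2
    · rw [if_pos h, ps_mid hodd hη (show k ≤ m by omega) h.1 h.2 hl0,
        ev_mul ((Reg η).mul_mem l1' z1) ((Reg η).pow_mem p1 5), ev_mul l1' z1, ev_pow p1, l2', z2,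
        p2]
      unfold Tc
      ring
    · rw [if_neg h]
      have hps : ps m e k ∈ I (Reg η) (Φ m) 1 := by
        by_cases h2 : l0 < k
        · exact ps_I_high hodd hη D.he (by omega) (show L2 < k by omega)
            ⟨2, by linear_combination 2 * hL2⟩
        · apply ps_I_low hη hm0
          intro l hl h3
          have := uniq hodd (show l < m by omega) (show l0 < m by omega) h3
            ⟨1, by linear_combination hl0⟩
          omega
      rw [ev_of_mem hm0 hη hps]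
      ring
  apply mem_I_one hm0 hη ((Reg η).sum_mem fun k hk => (key k hk).1)
  rw [ev_sum fun k hk => (key k hk).1, ← hsum]
  exact sum_congr rfl fun k hk => (key k hk).2

/-- the relation given by an exact zero -/
theorem Good.rel (D : Good m e N L1 L2 Z) (hη : IsPrimitiveRoot η m) (s : ℤ) :
    ∑ k ∈ range (N + 1), Xk m e Z k +
      lg (q ^ m) ^ 2 * ((((-3) ^ 2 + 2 ^ 2 + (1 : ℕ) * (s ^ 2 + (1 - s) ^ 2) : ℤ)) : RatFunc ℚ) *
        ∑ k ∈ range (N + 1), Xk m e Z k * B2 (q ^ e) (q ^ 4) k +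
      lg (q ^ m) ^ 3 * ((((-3) ^ 3 + 2 ^ 3 + (1 : ℕ) * (s ^ 3 + (1 - s) ^ 3) : ℤ)) : RatFunc ℚ) *
        ∑ k ∈ range (N + 1), Xk m e Z k * B3 (q ^ e) (q ^ 4) k ∈ I (Reg η) (Φ m) 4 := by
  have hodd := D.odd
  have hm0 : 0 < m := by omega
  have hη0 : η ≠ 0 := hη.ne_zero (by omega)
  have hlt := D.lt
  have hπ := Φ_mem m η
  have hO := hO_cyc (η := η)
  have hloc := hloc_cyc hm0 hη
  have ha : (q : RatFunc ℚ) ^ e ∈ Reg η := zq_mem hη0 e
  have hQ : U (Reg η) ((q : RatFunc ℚ) ^ 4) := U_of_ev (q_pow_mem η 4) (ev_q_ne hη0 4)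
  have hV : U (Reg η) ((q : RatFunc ℚ) ^ m) := U_of_ev (q_pow_mem η m) (ev_q_ne hη0 m)
  have hV1 : (q : RatFunc ℚ) ^ m - 1 ∈ I (Reg η) (Φ m) 1 := by
    rw [← neg_sub]
    apply (I (Reg η) (Φ m) 1).neg_mem
    have := one_sub_zq_I hm0 hη hη0 (dvd_refl (m : ℤ))
    rwa [zpow_natCast] at this
  have hk1 : ∀ l < N, U (Reg η) (1 - (q : RatFunc ℚ) ^ e * (q ^ 4) ^ l) := by
    intro l hl
    rw [zc]
    exact one_sub_zq_U hη hη0 (D.nd1 hl)
  have hk2 : ∀ l < N, U (Reg η) (1 - ((q : RatFunc ℚ) ^ 4) ^ (l + 1)) := by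
    intro l hl
    have e1 : ((q : RatFunc ℚ) ^ 4) ^ (l + 1) = q ^ (4 + 4 * (l : ℤ)) := by
      rw [← pow_mul, ← zpow_natCast q (4 * (l + 1))]
      congr 1; push_cast; ring
    rw [e1]
    exact one_sub_zq_U hη hη0 (D.nd2 hl)
  have z := D.zero (α := 0) (t := 0) (s := s) le_rfl (by norm_num)
  have hk : ∀ k ∈ range (N + 1), Cm (Reg η) (Φ m) 4 ((1 - q ^ m) *
      ((1 - q ^ (e + m * 0 + 8 * (k : ℤ))) * F (e + m * 0) 4 k *
      F (e + m * (-3)) (4 + m * (0 + 3)) k *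
      (F (e + m * s) (4 + m * (0 - s)) k * F (e + m * (0 + 1 - s)) (4 + m * (s - 1)) k) *
      (F (e + m * (0 + 2 - 0)) (4 + m * (0 - 2)) k * F (2 + m * 0) (e + 2 + m * (0 - 0)) k) *
      ((q ^ 4) ^ Z) ^ k))
      (Xk m e Z k * (1 +
        B2 (q ^ e) (q ^ 4) k * (lg (q ^ m) ^ 2 *
          ((((-3) ^ 2 + 2 ^ 2 + (1 : ℕ) * (s ^ 2 + (1 - s) ^ 2) : ℤ)) : RatFunc ℚ)) +
        B3 (q ^ e) (q ^ 4) k * (lg (q ^ m) ^ 3 *
          ((((-3) ^ 3 + 2 ^ 3 + (1 : ℕ) * (s ^ 3 + (1 - s) ^ 3) : ℤ)) : RatFunc ℚ)))) := by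
    intro k hk
    have hk' := mem_range.1 hk
    have c1 := prod_expand hπ hO hloc ha hQ hV hV1 (fun l (hl : l < k) => hk1 l (by omega))
      (fun l (hl : l < k) => hk2 l (by omega)) (t1 := -3) (t2 := 2) (s := s) (τ := 1) (r := 1)
      (by norm_num)
    have o0 : F e 4 k ∈ Reg η := by
      have := (ev_P (e := e) hodd hη hη0 (show k < m by omega) 0).1
      rwa [mul_zero, add_zero, add_zero] at this
    have oc : (1 - q ^ (e + 8 * (k : ℤ))) * ((q ^ 4) ^ Z) ^ k * F e 4 k * ps m e k ∈ Reg η :=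
      (Reg η).mul_mem ((Reg η).mul_mem ((Reg η).mul_mem (ev_fac hη0 _).1
        ((Reg η).pow_mem ((Reg η).pow_mem (q_pow_mem η 4) _) _)) o0)
        (ps_O hodd hη D.he (by omega))
    have c2 := (Cm.refl (π := Φ m) (m := 4) oc).mul c1
    have e1 : (1 - q ^ m) *
      ((1 - q ^ (e + m * 0 + 8 * (k : ℤ))) * F (e + m * 0) 4 k *
      F (e + m * (-3)) (4 + m * (0 + 3)) k *
      (F (e + m * s) (4 + m * (0 - s)) k * F (e + m * (0 + 1 - s)) (4 + m * (s - 1)) k) *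
      (F (e + m * (0 + 2 - 0)) (4 + m * (0 - 2)) k * F (2 + m * 0) (e + 2 + m * (0 - 0)) k) *
      ((q ^ 4) ^ Z) ^ k) = (1 - q ^ (e + 8 * (k : ℤ))) * ((q ^ 4) ^ Z) ^ k * F e 4 k * ps m e k *
      (gk (q ^ e) (q ^ 4) (q ^ m) k (-3) * gk (q ^ e) (q ^ 4) (q ^ m) k 2 *
        (gk (q ^ e) (q ^ 4) (q ^ m) k s * gk (q ^ e) (q ^ 4) (q ^ m) k (1 - s)) ^ 1) := by
      rw [gk_F, gk_F, gk_F, gk_F, pow_one]
      unfold ps
      have a1 : e + m * 0 + 8 * (k : ℤ) = e + 8 * (k : ℤ) := by ring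
      have a2 : e + (m : ℤ) * 0 = e := by ring
      have a3 : 4 + (m : ℤ) * (0 + 3) = 4 - m * (-3) := by ring
      have a4 : 4 + (m : ℤ) * (0 - s) = 4 - m * s := by ring
      have a5 : e + (m : ℤ) * (0 + 1 - s) = e + m * (1 - s) := by ring
      have a6 : 4 + (m : ℤ) * (s - 1) = 4 - m * (1 - s) := by ring
      have a7 : e + (m : ℤ) * (0 + 2 - 0) = e + m * 2 := by ring
      have a8 : 4 + (m : ℤ) * (0 - 2) = 4 - m * 2 := by ring
      have a9 : 2 + (m : ℤ) * 0 = 2 := by ring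
      have b1 : e + 2 + (m : ℤ) * (0 - 0) = e + 2 := by ring
      rw [a1, a2, a3, a4, a5, a6, a7, a8, a9, b1]
      ring
    rw [e1]
    convert c2 using 1
    rw [gk_F]
    unfold Xk
    rw [mul_zero, add_zero, sub_zero]
    ring
  have h2 := (Cm.sum hk).2.2
  rw [← mul_sum, z, mul_zero, zero_sub] at h2
  have h3 := (I (Reg η) (Φ m) 4).neg_mem h2
  rw [neg_neg] at h3
  convert h3 using 1
  rw [mul_sum, mul_sum, ← sum_add_distrib, ← sum_add_distrib]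
  apply sum_congr rfl
  intro k _
  ring

end Q278.WR
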