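import Pool.Agent.Q278.WR6

set_option autoImplicit false

/-! Divisibility by the third power and the combination. -/

namespace Q278.WR

open Finset Q278.Loc Q278.Unit Q278.Cyc Q278.Blk Q278.DD Q278.WP Q278.Four Q278.Ex Q278.VKM
  Polynomial

variable {m : ℕ} {η : ℂ} {e : ℤ} {N L1 L2 Z : ℕ}

theorem Good.good3 (D : Good m e N L1 L2 Z) (hη : IsPrimitiveRoot η m) :
    ∑ k ∈ range m, Bk e Z 0 k ∈ I (Reg η) (Φ m) 3 := by
  have hodd := D.odd
  have hm0 : 0 < m := by omega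
  have hη0 : η ≠ 0 := hη.ne_zero (by omega)
  have hlt := D.lt
  have hπ := Φ_mem m η
  have hO := hO_cyc (η := η)
  have hloc := hloc_cyc hm0 hη
  have ha : (q : RatFunc ℚ) ^ e ∈ Reg η := zq_mem hη0 e
  have hQ : U (Reg η) ((q : RatFunc ℚ) ^ 4) := U_of_ev (q_pow_mem η 4) (ev_q_ne hη0 4)
  have hV : U (Reg η) ((q : RatFunc ℚ) ^ m) := U_of_ev (q_pow_mem η m) (ev_q_ne hη0 m)
  have hV1 : (q : RatFunc ℚ) ^ m - 1 ∈ I (Reg η) (Φ m) 1 := by
    rw [← neg_sub]
    apply (I (Reg η) (Φ m) 1).neg_mem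
    have := one_sub_zq_I hm0 hη hη0 (dvd_refl (m : ℤ))
    rwa [zpow_natCast] at this
  have hk1 : ∀ l < N, U (Reg η) (1 - (q : RatFunc ℚ) ^ e * (q ^ 4) ^ l) := by
    intro l hl
    rw [zc]
    exact one_sub_zq_U hη hη0 (D.nd1 hl)
  have hk2 : ∀ l < N, U (Reg η) (1 - ((q : RatFunc ℚ) ^ 4) ^ (l + 1)) := by
    intro l hl
    have e1 : ((q : RatFunc ℚ) ^ 4) ^ (l + 1) = q ^ (4 + 4 * (l : ℤ)) := by
      rw [← pow_mul, ← zpow_natCast q (4 * (l + 1))]
      congr 1; push_cast; ring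
    rw [e1]
    exact one_sub_zq_U hη hη0 (D.nd2 hl)
  have hL : ∀ k ∈ range (N + 1), LE (Reg η) (Φ m) (lg (q ^ m)) (gk (q ^ e) (q ^ 4) (q ^ m) k)
      (B1 (q ^ e) (q ^ 4) k) (B2 (q ^ e) (q ^ 4) k) (B3 (q ^ e) (q ^ 4) k) := by
    intro k hk
    have := mem_range.1 hk
    exact LE_gk hπ hO hloc ha hQ hV hV1 (fun l hl => hk1 l (by omega)) (fun l hl => hk2 l (by omega))
  have hX : ∀ k ∈ range (N + 1), Xk m e Z k ∈ Reg η := by
    intro k hk
    have hk' := mem_range.1 hk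
    have o0 : F e 4 k ∈ Reg η := by
      have := (ev_P (e := e) hodd hη hη0 (show k < m by omega) 0).1
      rwa [mul_zero, add_zero, add_zero] at this
    exact (Reg η).mul_mem ((Reg η).mul_mem ((Reg η).mul_mem (ev_fac hη0 _).1
      ((Reg η).pow_mem ((Reg η).pow_mem (q_pow_mem η 4) _) _)) ((Reg η).pow_mem o0 5))
      (ps_O hodd hη D.he (by omega))
  have h4 := (two_rel hπ hO (lg_mem hπ hO hV1)
    ((Reg η).sum_mem fun k hk => (Reg η).mul_mem (hX k hk) (hL k hk).2.1)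
    ((Reg η).sum_mem fun k hk => (Reg η).mul_mem (hX k hk) (hL k hk).2.2.1) (by norm_num)
    (D.rel hη 0) (D.rel hη (-1))).2 (D.C3 hη)
  obtain ⟨u, hu, e1⟩ := one_sub_V hm0 hη
  have hB : ∀ k : ℕ, Bk e Z 0 k = (1 - q ^ (e + 8 * (k : ℤ))) * F e 4 k ^ 5 * F 2 (e + 2) k *
      ((q ^ 4) ^ Z) ^ k := by
    intro k
    unfold Bk
    rw [mul_zero, add_zero, add_zero, add_zero, add_zero]
  have h5 : ∑ k ∈ range (N + 1), Bk e Z 0 k ∈ I (Reg η) (Φ m) 3 := by
    apply pi_k_cancel (k := 1) (l := 3)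
    rw [pow_one]
    have h6 := mul_O hu.2.1 h4
    convert h6 using 1
    rw [mul_sum, mul_sum]
    apply sum_congr rfl
    intro k _
    rw [hB]
    unfold Xk ps
    rw [e1]
    have := hu.2.2
    field_simp
  obtain ⟨w, hw⟩ := Nat.exists_eq_add_of_le (show N + 1 ≤ m by omega)
  have hsplit : ∑ i ∈ range m, Bk e Z 0 i = ∑ i ∈ range (N + 1), Bk e Z 0 i +
      ∑ i ∈ range w, Bk e Z 0 (N + 1 + i) := by
    rw [show range m = range (N + 1 + w) by rw [hw], sum_range_add]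
  rw [hsplit]
  refine (I (Reg η) (Φ m) 3).add_mem h5 (AddSubgroup.sum_mem _ fun i hi => ?_)
  have hi' := mem_range.1 hi
  have hG : F e 4 (N + 1 + i) ∈ I (Reg η) (Φ m) 1 := by
    unfold F
    rw [div_eq_mul_inv, mul_comm]
    refine mul_O (A_U hη hη0 ?_).2.1 (A_I hm0 hη (show N < N + 1 + i by omega) ?_)
    · intro l hl
      have := not_dvd_four hodd (show l + 1 < m by omega) 0
      rwa [mul_zero, add_zero] at this
    · exact ⟨3, by linear_combination D.hN⟩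
  have hG2 : F e 4 (N + 1 + i) ^ 5 ∈ I (Reg η) (Φ m) (1 + 3) :=
    mono hπ (by omega) (pow_I hG 5)
  have hp := pole_O hodd hη D.he (x := 0) le_rfl (show N + 1 + i ≤ m by omega)
  rw [add_zero, add_zero] at hp
  apply pi_k_cancel (k := 1) (l := 3)
  have h3 := mul_O ((Reg η).mul_mem ((Reg η).mul_mem (ev_fac hη0
    (e + 8 * ((N + 1 + i : ℕ) : ℤ))).1 ((Reg η).pow_mem ((Reg η).pow_mem
    (q_pow_mem η 4) Z) (N + 1 + i))) hp) hG2
  convert h3 using 1
  rw [hB]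
  ring

/-- the sum over a multiple of `m` -/
theorem blocks (hodd : m % 2 = 1) (hη : IsPrimitiveRoot η m) (he : e = 1 ∨ e = -1)
    (h : ∀ j : ℕ, ∑ i ∈ range m, Bk e Z (m * (4 * (j : ℤ))) i ∈ I (Reg η) (Φ m) 1) (d : ℕ) :
    ∑ k ∈ range (m * d), Bk e Z 0 k ∈ I (Reg η) (Φ m) 1 := by
  have hη0 : η ≠ 0 := hη.ne_zero (by omega)
  rw [sum_blocks]
  apply AddSubgroup.sum_mem
  intro j _
  have e1 : ∑ i ∈ range m, Bk e Z 0 (m * j + i) =
      (F (e + 0) (4 + 0) (m * j) ^ 5 * F (2 + 0) (e + 2 + 0) (m * j) * ((q ^ 4) ^ Z) ^ (m * j)) *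
        ∑ i ∈ range m, Bk e Z (m * (4 * (j : ℤ))) i := by
    rw [mul_sum]
    apply sum_congr rfl
    intro i _
    rw [Bk_add]
    congr 2
    push_cast; ring
  rw [e1]
  refine mul_O ((Reg η).mul_mem ((Reg η).mul_mem ((Reg η).pow_mem (F_blocks hodd hη ?_ ?_ j).1 5)
    (F_blocks hodd hη ?_ ?_ j).1) ((Reg η).pow_mem ((Reg η).pow_mem (q_pow_mem η 4) _) _)) (h j)
  · intro l; rcases he with h | h <;> omega
  · intro l; omega
  · intro l; omega
  · intro l; rcases he with h | h <;> omega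

/-- the first powers -/
theorem first (hodd : m % 2 = 1) (hm : 1 < m) (hη : IsPrimitiveRoot η m) (he : e = 1 ∨ e = -1)
    (hZ : 2 * (Z : ℤ) = 3 - e) (d : ℕ) : ∑ k ∈ range (m * d), Bk e Z 0 k ∈ I (Reg η) (Φ m) 1 := by
  apply blocks hodd hη he
  intro j
  by_cases h : (4 : ℤ) ∣ m - e
  · obtain ⟨c, hc⟩ := h
    have hc0 : 0 ≤ c := by rcases he with h | h <;> omega
    obtain ⟨N, rfl⟩ := Int.eq_ofNat_of_zero_le hc0
    exact bad1 (N := N) he hm (by linear_combination -hc) hZ hη j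
  · have h1 : (4 : ℤ) ∣ m + e := by rcases he with h' | h' <;> omega
    obtain ⟨c, hc⟩ := h1
    have hc0 : 1 ≤ c := by rcases he with h | h <;> omega
    obtain ⟨L, hL⟩ := Int.eq_ofNat_of_zero_le (show 0 ≤ c - 1 by omega)
    have D : Good m e ((3 * m - e) / 4).toNat L (m / 2) Z := by
      refine ⟨he, hm, ?_, ?_, ?_, hZ⟩
      · rcases he with h | h <;> omega
      · rw [hc]; linarith
      · omega
    exact good1 D hη j

/-- the third power -/
theorem third {n : ℕ} {η : ℂ} (hn : 1 < n) (hη : IsPrimitiveRoot η n) (he : e = 1 ∨ e = -1)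
    (hZ : 2 * (Z : ℤ) = 3 - e) (h : (4 : ℤ) ∣ n + e) :
    ∑ k ∈ range n, Bk e Z 0 k ∈ I (Reg η) (Φ n) 3 := by
  obtain ⟨c, hc⟩ := h
  have hc0 : 1 ≤ c := by rcases he with h | h <;> omega
  obtain ⟨L, hL⟩ := Int.eq_ofNat_of_zero_le (show 0 ≤ c - 1 by omega)
  have D : Good n e ((3 * n - e) / 4).toNat L (n / 2) Z := by
    refine ⟨he, hn, ?_, ?_, ?_, hZ⟩
    · rcases he with h | h <;> omega
    · rw [hc]; linarith
    · rcases he with h | h <;> omega
  exact D.good3 hη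

/-- The combination of the local statements. -/
theorem combine {n : ℕ} {x : RatFunc ℚ} (a : ℕ → ℕ)
    (h : ∀ m ∈ n.divisors.erase 1, ∀ η : ℂ, IsPrimitiveRoot η m → x ∈ I (Reg η) (Φ m) (a m)) :
    (∏ m ∈ n.divisors.erase 1, cyclotomic m ℚ ^ a m) ∣ RatFunc.num x ∧
      IsCoprime (∏ m ∈ n.divisors.erase 1, cyclotomic m ℚ ^ a m) (RatFunc.denom x) := by
  have hpos : ∀ m ∈ n.divisors.erase 1, 0 < m := fun m hm =>
    Nat.pos_of_mem_divisors (mem_erase.1 hm).2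
  have key : ∀ m ∈ n.divisors.erase 1, cyclotomic m ℚ ^ a m ∣ RatFunc.num x ∧
      IsCoprime (RatFunc.denom x) (cyclotomic m ℚ) := by
    intro m hm
    have hm0 := hpos m hm
    have hη := Complex.isPrimitiveRoot_exp m (by omega)
    exact num_dvd hm0 hη (h m hm _ hη)
  constructor
  · apply Finset.prod_dvd_of_coprime
    · intro i hi j hj hij
      apply IsCoprime.pow
      exact cyclotomic.isCoprime_rat hij
    · intro m hm; exact (key m hm).1
  · apply IsCoprime.prod_left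
    intro m hm
    exact (key m hm).2.symm.pow_left

end Q278.WR
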