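import Pool.Agent.Q278.WR7

set_option autoImplicit false

/-! The divisibility of the sums by `[n]` and `[n] Φ_n(q)²`. -/

namespace Q278.WR

open Finset Q278.Loc Q278.Unit Q278.Cyc Q278.Blk Polynomial

theorem of_mul {m j : ℕ} {η : ℂ} (hm : 1 < m) (hη : IsPrimitiveRoot η m) {x : RatFunc ℚ}
    (h : (1 - q) * x ∈ I (Reg η) (Φ m) j) : x ∈ I (Reg η) (Φ m) j := by
  have hU : U (Reg η) ((1 : RatFunc ℚ) - q) := by
    have := U_of_ev (one_sub_mem η 1) (one_sub_ne hη (k := 1) (by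
      intro h; have := Nat.le_of_dvd one_pos h; omega))
    rwa [pow_one] at this
  exact of_unit_mul hU.2.2 hU.2.1 h

theorem prod_three {n : ℕ} (hn : 1 < n) :
    ∏ m ∈ n.divisors.erase 1, cyclotomic m ℚ ^ (if m = n then 3 else 1) =
      (∑ i ∈ range n, X ^ i) * cyclotomic n ℚ ^ 2 := by
  have hmem : n ∈ n.divisors.erase 1 := by
    rw [mem_erase, Nat.mem_divisors]
    exact ⟨by omega, dvd_rfl, by omega⟩
  rw [← prod_cyclotomic_eq_geom_sum (by omega), ← mul_prod_erase _ _ hmem,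
    ← mul_prod_erase _ (fun i => cyclotomic i ℚ) hmem, if_pos rfl]
  have : ∏ m ∈ (n.divisors.erase 1).erase n, cyclotomic m ℚ ^ (if m = n then 3 else 1) =
      ∏ m ∈ (n.divisors.erase 1).erase n, cyclotomic m ℚ := by
    apply prod_congr rfl
    intro m hm
    rw [if_neg (mem_erase.1 hm).1, pow_one]
  rw [this]
  ring

variable {e : ℤ} {Z : ℕ}

/-- Divisibility by `[n]`. -/
theorem fin_one {n : ℕ} (hn : n % 2 = 1) (he : e = 1 ∨ e = -1) (hZ : 2 * (Z : ℤ) = 3 - e)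
    {x : RatFunc ℚ} (hx : (1 - q) * x = ∑ k ∈ range n, Bk e Z 0 k) :
    (∑ i ∈ range n, (X : ℚ[X]) ^ i) ∣ RatFunc.num x ∧
      IsCoprime (∑ i ∈ range n, (X : ℚ[X]) ^ i) (RatFunc.denom x) := by
  have h := combine (n := n) (x := x) (fun _ => 1) ?_
  · have e1 : ∏ m ∈ n.divisors.erase 1, cyclotomic m ℚ ^ 1 = ∑ i ∈ range n, X ^ i := by
      rw [← prod_cyclotomic_eq_geom_sum (by omega)]
      exact prod_congr rfl fun m _ => pow_one _
    rwa [e1] at h
  · intro m hm η hη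
    obtain ⟨h1, h2⟩ := mem_erase.1 hm
    obtain ⟨⟨d, hd⟩, h0⟩ := Nat.mem_divisors.1 h2
    have hm0 : 0 < m := Nat.pos_of_mem_divisors h2
    apply of_mul (by omega) hη
    rw [hx, show range n = range (m * d) by rw [hd]]
    refine first ?_ (by omega) hη he hZ d
    rw [hd] at hn
    have := Nat.odd_iff.2 hn
    exact Nat.odd_iff.1 (Nat.odd_mul.1 this).1

/-- Divisibility by `[n] Φ_n²`. -/
theorem fin_three {n : ℕ} (hn : 1 < n) (he : e = 1 ∨ e = -1) (hZ : 2 * (Z : ℤ) = 3 - e)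
    (h4 : (4 : ℤ) ∣ n + e) {x : RatFunc ℚ} (hx : (1 - q) * x = ∑ k ∈ range n, Bk e Z 0 k) :
    ((∑ i ∈ range n, (X : ℚ[X]) ^ i) * cyclotomic n ℚ ^ 2) ∣ RatFunc.num x ∧
      IsCoprime ((∑ i ∈ range n, (X : ℚ[X]) ^ i) * cyclotomic n ℚ ^ 2) (RatFunc.denom x) := by
  have h := combine (n := n) (x := x) (fun m => if m = n then 3 else 1) ?_
  · rwa [prod_three hn] at h
  · intro m hm η hη
    obtain ⟨h1, h2⟩ := mem_erase.1 hm
    obtain ⟨⟨d, hd⟩, h0⟩ := Nat.mem_divisors.1 h2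
    have hm0 : 0 < m := Nat.pos_of_mem_divisors h2
    apply of_mul (by omega) hη
    rw [hx]
    beta_reduce
    by_cases hmn : m = n
    · rw [if_pos hmn]
      subst hmn
      exact third hn hη he hZ h4
    · rw [if_neg hmn, show range n = range (m * d) by rw [hd]]
      refine first ?_ (by omega) hη he hZ d
      have hodd : n % 2 = 1 := by rcases he with h | h <;> omega
      rw [hd] at hodd
      have := Nat.odd_iff.2 hodd
      exact Nat.odd_iff.1 (Nat.odd_mul.1 this).1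

/-- shifted factorials -/
theorem A_eq (x : ℤ) (k : ℕ) : ∏ l ∈ range k, (1 - (q : RatFunc ℚ) ^ x * (q ^ 4) ^ l) = A x k := by
  unfold A
  apply prod_congr rfl
  intro l _
  rw [zc]

theorem A_eq2 (x : ℤ) (k : ℕ) :
    ∏ l ∈ range (2 * k), (1 - (q : RatFunc ℚ) ^ x * (q ^ 2) ^ l) = A x k * A (x + 2) k := by
  induction k with
  | zero => simp [A]
  | succ k ih =>
    rw [show 2 * (k + 1) = 2 * k + 1 + 1 by ring, prod_range_succ, prod_range_succ, ih]
    unfold A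
    rw [prod_range_succ, prod_range_succ]
    have e1 : (q : RatFunc ℚ) ^ x * (q ^ 2) ^ (2 * k) = q ^ (x + 4 * (k : ℤ)) := by
      rw [zpow_add₀ q_ne, ← pow_mul, ← zpow_natCast q (2 * (2 * k))]
      congr 2; push_cast; ring
    have e2 : (q : RatFunc ℚ) ^ x * (q ^ 2) ^ (2 * k + 1) = q ^ (x + 2 + 4 * (k : ℤ)) := by
      rw [← pow_mul, ← zpow_natCast q (2 * (2 * k + 1)), ← zpow_add₀ q_ne]
      congr 1; push_cast; ring
    rw [e1, e2]
    ring

theorem A_ne {x : ℤ} (hx : ∀ l : ℕ, x + 4 * (l : ℤ) ≠ 0) (k : ℕ) : A x k ≠ 0 :=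
  prod_ne_zero_iff.2 fun l _ => one_sub_ne_of (hx l)

end Q278.WR
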