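import Mathlib

set_option autoImplicit false

/-! A terminating very-well-poised `8φ7` sum: Watson's transformation combined with the
q-analogue of Watson's sum. -/

namespace Q278.WVP

open Finset

variable {K : Type*} [Field K]

/-- the part of the ratio independent of `M` -/
def E (q : K) (j : ℕ) : K := (-q) * (1 - q ^ (2 * j + 1)) ^ 3 * (1 + q ^ (2 * j + 1)) /
  ((1 - q ^ (2 * j + 2)) ^ 3 * (1 + q ^ (2 * j + 2)))

/-- the ratio of consecutive terms -/
def ρ (q M : K) (j : ℕ) : K := E q j * ((1 - q ^ (2 * j + 2) * M) * (M - q ^ (2 * j)) /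
  ((1 - q ^ (2 * j + 3) * M) * (M - q ^ (2 * j + 1))))

/-- the products -/
def P (q M : K) (k : ℕ) : K := ∏ j ∈ range k, ρ q M j

/-- no denominators vanish -/
structure Ok (q M : K) : Prop where
  hq : q ≠ 0
  hM : M ≠ 0
  h1 : ∀ j, 0 < j → 1 - q ^ j ≠ 0
  h2 : ∀ j, 0 < j → 1 - q ^ j * M ≠ 0
  h3 : ∀ j, M - q ^ (2 * j + 1) ≠ 0
  h4 : M * q ^ 3 - 1 ≠ 0
  h5 : M * q - 1 ≠ 0

theorem Ok.h6 {q M : K} (h : Ok q M) (j : ℕ) : M * q ^ 3 - q ^ (2 * j) ≠ 0 := by
  rcases j with _ | _ | j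
  · simpa using h.h4
  · intro h0
    apply h.h5
    have : q ^ 2 * (M * q - 1) = 0 := by linear_combination h0
    rcases mul_eq_zero.1 this with h6 | h6
    · exact absurd h6 (pow_ne_zero _ h.hq)
    · exact h6
  · intro h0
    apply h.h3 j
    have : q ^ 3 * (M - q ^ (2 * j + 1)) = 0 := by linear_combination h0
    rcases mul_eq_zero.1 this with h6 | h6
    · exact absurd h6 (pow_ne_zero _ h.hq)
    · exact h6

theorem Ok.h7 {q M : K} (h : Ok q M) (j : ℕ) : M * q ^ 4 - q ^ (2 * j + 1) ≠ 0 := by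
  intro h0
  apply h.h6 j
  have : q * (M * q ^ 3 - q ^ (2 * j)) = 0 := by linear_combination h0
  rcases mul_eq_zero.1 this with h6 | h6
  · exact absurd h6 h.hq
  · exact h6

theorem rel {q M : K} (h : Ok q M) (k : ℕ) :
    P q (M * q ^ 4) k * ((1 - q * M) * (M * q ^ 4 - q ^ (2 * k)) * (M * q ^ 2 - q ^ (2 * k)) *
      (1 - q ^ (2 * k + 3) * M) * (1 - q ^ (2 * k + 5) * M)) =
      P q M k * ((1 - q ^ 5 * M) * (1 - q ^ (2 * k + 2) * M) * (1 - q ^ (2 * k + 4) * M) *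
        (M * q ^ 3 - q ^ (2 * k)) * (M * q - q ^ (2 * k))) := by
  induction k with
  | zero => simp [P]; ring
  | succ k ih =>
    have e1 : P q (M * q ^ 4) (k + 1) = P q (M * q ^ 4) k * (E q k *
        ((1 - q ^ (2 * k + 6) * M) * (M * q ^ 4 - q ^ (2 * k)) /
        ((1 - q ^ (2 * k + 7) * M) * (M * q ^ 4 - q ^ (2 * k + 1))))) := by
      unfold P ρ
      rw [prod_range_succ]
      congr 3
      · ring
      · ring
    have e2 : P q M (k + 1) = P q M k * (E q k *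
        ((1 - q ^ (2 * k + 2) * M) * (M - q ^ (2 * k)) /
        ((1 - q ^ (2 * k + 3) * M) * (M - q ^ (2 * k + 1))))) := by
      unfold P ρ
      rw [prod_range_succ]
    rw [e1, e2]
    have a1 := h.h2 (2 * k + 7) (by omega)
    have a2 := h.h7 k
    have a3 := h.h2 (2 * k + 3) (by omega)
    have a4 := h.h3 k
    have a5 := h.h6 k
    have b1 : M * q ^ 4 - q ^ (2 * (k + 1)) = q ^ 2 * (M * q ^ 2 - q ^ (2 * k)) := by ring
    have b2 : M * q ^ 2 - q ^ (2 * (k + 1)) = q ^ 2 * (M - q ^ (2 * k)) := by ring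
    have b3 : M * q ^ 3 - q ^ (2 * (k + 1)) = q ^ 2 * (M * q - q ^ (2 * k)) := by ring
    have b4 : M * q - q ^ (2 * (k + 1)) = q * (M - q ^ (2 * k + 1)) := by ring
    have b5 : M * q ^ 4 - q ^ (2 * k + 1) = q * (M * q ^ 3 - q ^ (2 * k)) := by ring
    rw [b1, b2, b3, b4, b5, show 2 * (k + 1) + 3 = 2 * k + 5 by ring,
      show 2 * (k + 1) + 5 = 2 * k + 7 by ring, show 2 * (k + 1) + 2 = 2 * k + 4 by ring,
      show 2 * (k + 1) + 4 = 2 * k + 6 by ring]
    have hq := h.hq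
    generalize P q (M * q ^ 4) k = A at *
    generalize P q M k = B at *
    generalize E q k = e at *
    generalize 1 - q ^ (2 * k + 7) * M = u7 at *
    generalize 1 - q ^ (2 * k + 6) * M = u6 at *
    generalize 1 - q ^ (2 * k + 5) * M = u5 at *
    generalize 1 - q ^ (2 * k + 4) * M = u4 at *
    generalize 1 - q ^ (2 * k + 3) * M = u3 at *
    generalize 1 - q ^ (2 * k + 2) * M = u2 at *
    generalize M * q ^ 4 - q ^ (2 * k) = v4 at *
    generalize M * q ^ 3 - q ^ (2 * k) = v3 at *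
    generalize M * q ^ 2 - q ^ (2 * k) = v2 at *
    generalize M * q - q ^ (2 * k) = v1 at *
    generalize M - q ^ (2 * k) = v0 at *
    generalize M - q ^ (2 * k + 1) = w0 at *
    generalize 1 - q ^ 5 * M = x5 at *
    generalize 1 - q * M = x1 at *
    field_simp
    linear_combination (e * u6 * v0) * ih

/-- The telescoping sum. -/
theorem tel {q M : K} (h : Ok q M) (m : ℕ) :
    ∑ k ∈ range m, (1 - q ^ (4 * k + 1)) * ((1 - q * M) * (1 - M * q ^ 4) ^ 2 *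
        P q (M * q ^ 4) k - (1 - q ^ 5 * M) * (1 - M * q ^ 2) ^ 2 * P q M k) =
      -(1 - q) * (1 - q ^ 6 * M ^ 2) * (1 - q * M) * (M * q ^ 3) * (1 - q ^ (2 * m)) ^ 3 *
        (1 + q ^ (2 * m)) * (1 - q ^ (2 * m + 5) * M) * P q (M * q ^ 4) m /
        ((1 - q ^ (2 * m + 2) * M) * (1 - q ^ (2 * m + 4) * M) * (M * q ^ 3 - q ^ (2 * m))) := by
  induction m with
  | zero => simp
  | succ k ih =>
    rw [sum_range_succ, ih]
    have hr := rel h k
    have e1 : P q (M * q ^ 4) (k + 1) = P q (M * q ^ 4) k * (E q k *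
        ((1 - q ^ (2 * k + 6) * M) * (M * q ^ 4 - q ^ (2 * k)) /
        ((1 - q ^ (2 * k + 7) * M) * (q * (M * q ^ 3 - q ^ (2 * k)))))) := by
      unfold P ρ
      rw [prod_range_succ]
      congr 3
      · ring
      · ring
    have a0 := h.hq
    have a1 := h.h2 (2 * k + 7) (by omega)
    have a2 := h.h2 (2 * k + 2) (by omega)
    have a4 := h.h2 (2 * k + 4) (by omega)
    have a5 := h.h2 5 (by omega)
    have a6 := h.h2 (2 * k + 6) (by omega)
    have v3 := h.h6 k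
    have v1 : M * q - q ^ (2 * k) ≠ 0 := by
      rcases k with _ | k
      · simpa using h.h5
      · intro h0
        apply h.h3 k
        have : q * (M - q ^ (2 * k + 1)) = 0 := by linear_combination h0
        rcases mul_eq_zero.1 this with h6 | h6
        · exact absurd h6 h.hq
        · exact h6
    have c2 := h.h1 (2 * k + 2) (by omega)
    have c3 : 1 + q ^ (2 * k + 2) ≠ 0 := by
      intro h0
      have h1 := h.h1 (2 * (2 * k + 2)) (by omega)
      apply h1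
      have : 1 - q ^ (2 * (2 * k + 2)) = (1 - q ^ (2 * k + 2)) * (1 + q ^ (2 * k + 2)) := by ring
      rw [this, h0, mul_zero]
    have eE : E q k * ((1 - q ^ (2 * k + 2)) ^ 3 * (1 + q ^ (2 * k + 2))) =
        (-q) * (1 - q ^ (2 * k + 1)) ^ 3 * (1 + q ^ (2 * k + 1)) := by
      unfold E
      rw [div_mul_cancel₀ _ (mul_ne_zero (pow_ne_zero 3 c2) c3)]
    have key : ∀ x : K, -(1 - q) * (1 - q ^ 6 * M ^ 2) * (M * q ^ 3) * (1 - x) ^ 3 * (1 + x) *
        (1 - x * q ^ 5 * M) * (M * q - x) + (1 - q * x ^ 2) * ((1 - M * q ^ 4) ^ 2 *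
        ((1 - x * q ^ 2 * M) * (1 - x * q ^ 4 * M) * (M * q ^ 3 - x) * (M * q - x)) -
        (1 - M * q ^ 2) ^ 2 * ((M * q ^ 4 - x) * (M * q ^ 2 - x) * (1 - x * q ^ 3 * M) *
          (1 - x * q ^ 5 * M))) = (1 - q) * (1 - q ^ 6 * M ^ 2) * (M * q) * (1 - x * q) ^ 3 *
          (1 + x * q) * (M * q ^ 4 - x) * (1 - x * q ^ 2 * M) := by
      intro x; ring
    have kk := key (q ^ (2 * k))
    have b1 : q ^ (2 * (k + 1)) = q ^ (2 * k + 2) := by ring
    have b2 : M * q ^ 3 - q ^ (2 * k + 2) = q ^ 2 * (M * q - q ^ (2 * k)) := by ring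
    have b3 : q ^ (2 * k) * q = q ^ (2 * k + 1) := by ring
    have b4 : q ^ (2 * k) * q ^ 2 = q ^ (2 * k + 2) := by ring
    have b5 : q ^ (2 * k) * q ^ 3 = q ^ (2 * k + 3) := by ring
    have b6 : q ^ (2 * k) * q ^ 4 = q ^ (2 * k + 4) := by ring
    have b7 : q ^ (2 * k) * q ^ 5 = q ^ (2 * k + 5) := by ring
    have b8 : q * (q ^ (2 * k)) ^ 2 = q ^ (4 * k + 1) := by ring
    rw [b3, b4, b5, b6, b7, b8] at kk
    rw [e1, b1, b2, show 2 * (k + 1) + 5 = 2 * k + 7 by ring,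
      show 2 * (k + 1) + 2 = 2 * k + 4 by ring, show 2 * (k + 1) + 4 = 2 * k + 6 by ring]
    generalize P q (M * q ^ 4) k = A at *
    generalize P q M k = B at *
    generalize E q k = e at *
    generalize 1 - q ^ (4 * k + 1) = y at *
    generalize 1 - q ^ (2 * k + 7) * M = u7 at *
    generalize 1 - q ^ (2 * k + 6) * M = u6 at *
    generalize 1 - q ^ (2 * k + 5) * M = u5 at *
    generalize 1 - q ^ (2 * k + 4) * M = u4 at *
    generalize 1 - q ^ (2 * k + 3) * M = u3 at *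
    generalize 1 - q ^ (2 * k + 2) * M = u2 at *
    generalize M * q ^ 4 - q ^ (2 * k) = v4 at *
    generalize M * q ^ 3 - q ^ (2 * k) = v3' at *
    generalize M * q ^ 2 - q ^ (2 * k) = v2 at *
    generalize M * q - q ^ (2 * k) = v1' at *
    generalize 1 - q ^ 5 * M = x5 at *
    generalize 1 - q * M = x1 at *
    have e2 : -(1 - q) * (1 - q ^ 6 * M ^ 2) * x1 * (M * q ^ 3) * (1 - q ^ (2 * k + 2)) ^ 3 *
        (1 + q ^ (2 * k + 2)) * u7 * (A * (e * (u6 * v4 / (u7 * (q * v3'))))) /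
        (u4 * u6 * (q ^ 2 * v1')) =
        (1 - q) * (1 - q ^ 6 * M ^ 2) * x1 * (M * q) * ((1 - q ^ (2 * k + 1)) ^ 3 *
          (1 + q ^ (2 * k + 1))) * v4 * A / (v3' * u4 * v1') := by
      have e3 : -(1 - q) * (1 - q ^ 6 * M ^ 2) * x1 * (M * q ^ 3) * (1 - q ^ (2 * k + 2)) ^ 3 *
        (1 + q ^ (2 * k + 2)) * u7 * (A * (e * (u6 * v4 / (u7 * (q * v3'))))) /
        (u4 * u6 * (q ^ 2 * v1')) = -(1 - q) * (1 - q ^ 6 * M ^ 2) * x1 * (M * q ^ 3) *
        (e * ((1 - q ^ (2 * k + 2)) ^ 3 * (1 + q ^ (2 * k + 2)))) * u7 *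
          (A * (u6 * v4 / (u7 * (q * v3')))) / (u4 * u6 * (q ^ 2 * v1')) := by ring
      rw [e3, eE]
      generalize (1 - q) = z1 at *
      generalize (1 - q ^ 6 * M ^ 2) = z2 at *
      generalize (1 - q ^ (2 * k + 1)) = z3 at *
      generalize (1 + q ^ (2 * k + 1)) = z4 at *
      field_simp
    rw [e2]
    have e4 : B = A * (x1 * v4 * v2 * u3 * u5) / (x5 * u2 * u4 * v3' * v1') := by
      rw [eq_div_iff (mul_ne_zero (mul_ne_zero (mul_ne_zero (mul_ne_zero a5 a2) a4) v3) v1)]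
      linear_combination -hr
    rw [e4]
    generalize (1 - q ^ (2 * k + 1)) = g1 at *
    generalize (1 + q ^ (2 * k + 1)) = g2 at *
    generalize (1 - q ^ (2 * k)) = g3 at *
    generalize (1 + q ^ (2 * k)) = g4 at *
    generalize (1 - q ^ 6 * M ^ 2) = z2 at *
    generalize (1 - M * q ^ 4) = z4 at *
    generalize (1 - M * q ^ 2) = z5 at *
    generalize (1 - q) = z6 at *
    have hd : u2 * u4 * v3' * v1' ≠ 0 :=
      mul_ne_zero (mul_ne_zero (mul_ne_zero a2 a4) v3) v1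
    field_simp
    linear_combination (x1 * A) * kk

/-- The sum for `M = q ^ (2 N)`. -/
def S (q : K) (N : ℕ) : K := ∑ k ∈ range (N + 1), (1 - q ^ (4 * k + 1)) * P q (q ^ (2 * N)) k

theorem P_zero (q : K) {N k : ℕ} (hk : N < k) : P q (q ^ (2 * N)) k = 0 := by
  unfold P
  apply prod_eq_zero (mem_range.2 hk)
  unfold ρ
  rw [sub_self, mul_zero, zero_div, mul_zero]

theorem pow_sub_ne {q : K} (hq : q ≠ 0) (h1 : ∀ j, 0 < j → 1 - q ^ j ≠ 0) {a b : ℕ} (hab : a ≠ b) :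
    q ^ a - q ^ b ≠ 0 := by
  intro h0
  rcases lt_or_gt_of_ne hab with h | h
  · have e : q ^ a - q ^ b = q ^ a * (1 - q ^ (b - a)) := by
      rw [mul_sub, mul_one, ← pow_add]; congr 2; omega
    rw [e] at h0
    rcases mul_eq_zero.1 h0 with h2 | h2
    · exact pow_ne_zero _ hq h2
    · exact h1 _ (by omega) h2
  · have e : q ^ a - q ^ b = -(q ^ b * (1 - q ^ (a - b))) := by
      rw [mul_sub, mul_one, ← pow_add, neg_sub]; congr 2; omega
    rw [e] at h0
    rcases mul_eq_zero.1 (neg_eq_zero.1 h0) with h2 | h2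
    · exact pow_ne_zero _ hq h2
    · exact h1 _ (by omega) h2

theorem ok {q : K} (hq : q ≠ 0) (h1 : ∀ j, 0 < j → 1 - q ^ j ≠ 0) (N : ℕ) :
    Ok q (q ^ (2 * N)) := by
  refine ⟨hq, pow_ne_zero _ hq, h1, ?_, ?_, ?_, ?_⟩
  · intro j hj
    rw [← pow_add]; exact h1 _ (by omega)
  · intro j
    exact pow_sub_ne hq h1 (by omega)
  · rw [← pow_add]
    intro h0
    exact h1 (2 * N + 3) (by omega) (by rw [← neg_sub, h0, neg_zero])
  · rw [← pow_succ]
    intro h0
    exact h1 (2 * N + 1) (by omega) (by rw [← neg_sub, h0, neg_zero])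

theorem S_rec {q : K} (hq : q ≠ 0) (h1 : ∀ j, 0 < j → 1 - q ^ j ≠ 0) (N : ℕ) :
    (1 - q ^ (2 * N + 1)) * (1 - q ^ (2 * N + 4)) ^ 2 * S q (N + 2) =
      (1 - q ^ (2 * N + 5)) * (1 - q ^ (2 * N + 2)) ^ 2 * S q N := by
  have h := tel (ok hq h1 N) (N + 3)
  have e1 : q ^ (2 * N) * q ^ 4 = q ^ (2 * (N + 2)) := by ring
  rw [e1, P_zero q (show N + 2 < N + 3 by omega), mul_zero, zero_div] at h
  have e3 : ∑ k ∈ range (N + 3), (1 - q ^ (4 * k + 1)) * P q (q ^ (2 * N)) k = S q N := by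
    unfold S
    rw [show N + 3 = (N + 1) + 1 + 1 by ring, sum_range_succ, sum_range_succ,
      P_zero q (show N < N + 1 by omega), P_zero q (show N < N + 1 + 1 by omega)]
    ring
  have e4 : ∑ k ∈ range (N + 3), (1 - q ^ (4 * k + 1)) * P q (q ^ (2 * (N + 2))) k =
      S q (N + 2) := rfl
  have e5 : ∑ k ∈ range (N + 3), (1 - q ^ (4 * k + 1)) * ((1 - q * q ^ (2 * N)) *
      (1 - q ^ (2 * (N + 2))) ^ 2 * P q (q ^ (2 * (N + 2))) k - (1 - q ^ 5 * q ^ (2 * N)) *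
        (1 - q ^ (2 * N) * q ^ 2) ^ 2 * P q (q ^ (2 * N)) k) =
      (1 - q * q ^ (2 * N)) * (1 - q ^ (2 * (N + 2))) ^ 2 * S q (N + 2) -
      (1 - q ^ 5 * q ^ (2 * N)) * (1 - q ^ (2 * N) * q ^ 2) ^ 2 * S q N := by
    rw [← e3, ← e4, mul_sum, mul_sum, ← sum_sub_distrib]
    exact sum_congr rfl (fun k _ => by ring)
  rw [e5] at h
  have f1 : q * q ^ (2 * N) = q ^ (2 * N + 1) := by ring
  have f2 : q ^ 5 * q ^ (2 * N) = q ^ (2 * N + 5) := by ring
  have f3 : q ^ (2 * N) * q ^ 2 = q ^ (2 * N + 2) := by ring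
  have f4 : q ^ (2 * (N + 2)) = q ^ (2 * N + 4) := by ring
  rw [f1, f2, f3, f4] at h
  linear_combination h

/-- The closed form. -/
theorem S_even {q : K} (hq : q ≠ 0) (h1 : ∀ j, 0 < j → 1 - q ^ j ≠ 0) (b : ℕ) :
    S q (2 * b) = (1 - q ^ (4 * b + 1)) *
      ∏ i ∈ range b, ((1 - q ^ (4 * i + 2)) / (1 - q ^ (4 * i + 4))) ^ 2 := by
  induction b with
  | zero => simp [S, P]
  | succ b ih =>
    have h := S_rec hq h1 (2 * b)
    rw [ih] at h
    have a1 := h1 (4 * b + 1) (by omega)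
    have a2 := h1 (4 * b + 4) (by omega)
    rw [show 2 * (2 * b) + 1 = 4 * b + 1 by ring, show 2 * (2 * b) + 4 = 4 * b + 4 by ring,
      show 2 * (2 * b) + 5 = 4 * b + 5 by ring, show 2 * (2 * b) + 2 = 4 * b + 2 by ring] at h
    rw [show 2 * (b + 1) = 2 * b + 2 by ring, prod_range_succ, div_pow,
      show 4 * (b + 1) + 1 = 4 * b + 5 by ring]
    apply mul_left_cancel₀ (mul_ne_zero a1 (pow_ne_zero 2 a2))
    rw [h]
    generalize 1 - q ^ (4 * b + 1) = x at *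
    generalize 1 - q ^ (4 * b + 4) = y at *
    field_simp

end Q278.WVP
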