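import Mathlib

set_option autoImplicit false

/-! A terminating case of Andrews' q-analogue of Watson's `3F2` sum. -/

namespace Q278.Watson

open Finset

variable {K : Type*} [Field K]

/-- the part of the ratio independent of `M` -/
def E (Q : K) (j : ℕ) : K := (1 - Q ^ (2 * j + 1)) / ((1 - Q ^ (j + 1)) ^ 2 * (1 - Q ^ (2 * j + 2)))

/-- the ratio of consecutive terms -/
def ρ (Q M : K) (j : ℕ) : K := Q * (1 - Q ^ j / M) * (1 - M * Q ^ (j + 1)) * E Q j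

/-- the terms -/
def t (Q M : K) (k : ℕ) : K := ∏ j ∈ range k, ρ Q M j

theorem rel (Q M : K) (hQ : Q ≠ 0) (hM : M ≠ 0) (k : ℕ) :
    t Q (M * Q ^ 2) k * ((M * Q ^ 2 - Q ^ k) * (M * Q - Q ^ k)) =
      t Q M k * ((1 - Q ^ k * (M * Q)) * (1 - Q ^ k * (M * Q ^ 2))) := by
  induction k with
  | zero => simp [t]; ring
  | succ k ih =>
    unfold t at *
    rw [prod_range_succ, prod_range_succ]
    have h1 : 1 - Q ^ k / (M * Q ^ 2) = (M * Q ^ 2)⁻¹ * (M * Q ^ 2 - Q ^ k) := by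
      field_simp
    have h2 : 1 - Q ^ k / M = M⁻¹ * (M - Q ^ k) := by
      field_simp
    have b1 : Q ^ (k + 1) = Q ^ k * Q := pow_succ Q k
    unfold ρ at *
    rw [h1, h2, b1]
    generalize ∏ j ∈ range k, (Q * (1 - Q ^ j / (M * Q ^ 2)) * (1 - M * Q ^ 2 * Q ^ (j + 1)) *
      E Q j) = A at *
    generalize ∏ j ∈ range k, (Q * (1 - Q ^ j / M) * (1 - M * Q ^ (j + 1)) * E Q j) = B at *
    generalize E Q k = e at *
    generalize Q ^ k = x at *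
    have hq : Q * Q⁻¹ = 1 := mul_inv_cancel₀ hQ
    rw [mul_inv, ← inv_pow]
    generalize Q⁻¹ = qi at *
    generalize M⁻¹ = mi at *
    linear_combination (Q ^ 3 * mi * qi ^ 2 * (M - x) * (1 - x * M * Q ^ 3) * e) * ih +
      (B * (1 - x * (M * Q)) * (1 - x * (M * Q ^ 2)) * mi * (M - x) * (1 - x * M * Q ^ 3) * e *
        Q * (Q * qi + 1)) * hq

/-- The telescoping sum. -/
theorem tel (Q M : K) (hQ : Q ≠ 0) (hM : M ≠ 0) (h1 : ∀ j, 0 < j → 1 - Q ^ j ≠ 0)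
    (h2 : ∀ j, 0 < j → 1 - M * Q ^ j ≠ 0) (m : ℕ) :
    ∑ k ∈ range m, ((1 - M * Q ^ 2) ^ 2 * t Q (M * Q ^ 2) k - Q * (1 - M * Q) ^ 2 * t Q M k) =
      -(1 - M ^ 2 * Q ^ 3) * (M * Q ^ 2) * (Q ^ m)⁻¹ * (1 - Q ^ m) ^ 2 * (1 - Q ^ (2 * m)) *
        t Q (M * Q ^ 2) m / ((1 - M * Q ^ (m + 1)) * (1 - M * Q ^ (m + 2))) := by
  induction m with
  | zero => simp
  | succ k ih =>
    rw [sum_range_succ, ih]
    have hr := rel Q M hQ hM k
    have a1 := h1 (k + 1) (by omega)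
    have a2 := h1 (2 * k + 2) (by omega)
    have a3 := h2 (k + 1) (by omega)
    have a4 := h2 (k + 2) (by omega)
    have a5 := h2 (k + 3) (by omega)
    have e0 : t Q (M * Q ^ 2) (k + 1) = t Q (M * Q ^ 2) k * ρ Q (M * Q ^ 2) k := by
      unfold t; rw [prod_range_succ]
    have e1 : (1 - Q ^ (k + 1)) ^ 2 * (1 - Q ^ (2 * (k + 1))) * ρ Q (M * Q ^ 2) k =
        (Q * (M * Q ^ 2)⁻¹ * (M * Q ^ 2 - Q ^ k)) *
        (1 - M * Q ^ (k + 3)) * (1 - Q ^ (2 * k + 1)) := by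
      unfold ρ E
      have h1 : 1 - Q ^ k / (M * Q ^ 2) = (M * Q ^ 2)⁻¹ * (M * Q ^ 2 - Q ^ k) := by
        field_simp
      rw [h1, show 2 * (k + 1) = 2 * k + 2 by ring,
        show M * Q ^ 2 * Q ^ (k + 1) = M * Q ^ (k + 3) by ring]
      field_simp
    have e2 : t Q M k = t Q (M * Q ^ 2) k * ((M * Q ^ 2 - Q ^ k) * (M * Q - Q ^ k)) /
        ((1 - M * Q ^ (k + 1)) * (1 - M * Q ^ (k + 2))) := by
      rw [eq_div_iff (mul_ne_zero a3 a4), hr]
      ring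
    have e3 : -(1 - M ^ 2 * Q ^ 3) * (M * Q ^ 2) * (Q ^ (k + 1))⁻¹ * (1 - Q ^ (k + 1)) ^ 2 *
        (1 - Q ^ (2 * (k + 1))) * t Q (M * Q ^ 2) (k + 1) =
        -(1 - M ^ 2 * Q ^ 3) * (M * Q ^ 2) * (Q ^ (k + 1))⁻¹ * t Q (M * Q ^ 2) k *
        ((Q * (M * Q ^ 2)⁻¹ * (M * Q ^ 2 - Q ^ k)) *
        (1 - M * Q ^ (k + 3)) * (1 - Q ^ (2 * k + 1))) := by
      rw [← e1, e0]; ring
    rw [e3, e2]
    generalize t Q (M * Q ^ 2) k = τ
    have hx : Q ^ k ≠ 0 := pow_ne_zero _ hQ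
    rw [show k + 1 + 1 = k + 2 by ring, show k + 1 + 2 = k + 3 by ring]
    have key : ∀ x : K, -(1 - M ^ 2 * Q ^ 3) * (M * Q ^ 2) * (1 - x) ^ 2 * (1 - x ^ 2) +
        x * ((1 - M * Q ^ 2) ^ 2 * ((1 - M * (x * Q)) * (1 - M * (x * Q ^ 2))) -
          Q * (1 - M * Q) ^ 2 * ((M * Q ^ 2 - x) * (M * Q - x))) =
        -(1 - M ^ 2 * Q ^ 3) * (M * Q ^ 2 - x) * (1 - x ^ 2 * Q) * (1 - M * (x * Q)) := by
      intro x; ring
    have kk := key (Q ^ k)
    have b1 : Q ^ (k + 1) = Q ^ k * Q := by ring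
    have b2 : M * (Q ^ k * Q ^ 2) = M * Q ^ (k + 2) := by ring
    have b3 : M * (Q ^ k * Q) = M * Q ^ (k + 1) := by ring
    have b4 : (Q ^ k) ^ 2 = Q ^ (2 * k) := by ring
    have b5 : Q ^ (2 * k) * Q = Q ^ (2 * k + 1) := by ring
    rw [b2, b3, b4, b5] at kk
    generalize hu : 1 - M * Q ^ (k + 1) = u at *
    generalize hv : 1 - M * Q ^ (k + 2) = v at *
    generalize hw : 1 - M * Q ^ (k + 3) = w at *
    rw [b1]
    generalize Q ^ (2 * k + 1) = z at *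
    generalize Q ^ (2 * k) = y at *
    generalize Q ^ k = x at *
    field_simp
    linear_combination τ * kk

/-- The sum for `M = Q ^ N`. -/
def W (Q : K) (N : ℕ) : K := ∑ k ∈ range (N + 1), t Q (Q ^ N) k

theorem t_zero (Q : K) (hQ : Q ≠ 0) {N k : ℕ} (hk : N < k) : t Q (Q ^ N) k = 0 := by
  unfold t
  apply prod_eq_zero (mem_range.2 hk)
  unfold ρ
  rw [div_self (pow_ne_zero _ hQ), sub_self]
  ring

theorem W_rec (Q : K) (hQ : Q ≠ 0) (h1 : ∀ j, 0 < j → 1 - Q ^ j ≠ 0) (N : ℕ) :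
    (1 - Q ^ (N + 2)) ^ 2 * W Q (N + 2) = Q * (1 - Q ^ (N + 1)) ^ 2 * W Q N := by
  have h := tel Q (Q ^ N) hQ (pow_ne_zero _ hQ) h1
    (fun j hj => by rw [← pow_add]; exact h1 _ (by omega)) (N + 3)
  have e1 : Q ^ N * Q ^ 2 = Q ^ (N + 2) := by ring
  have e2 : Q ^ N * Q = Q ^ (N + 1) := by ring
  rw [e1, t_zero Q hQ (show N + 2 < N + 3 by omega), mul_zero, zero_div, sum_sub_distrib,
    ← mul_sum, ← mul_sum, e2] at h
  have e3 : ∑ k ∈ range (N + 3), t Q (Q ^ N) k = W Q N := by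
    unfold W
    rw [show N + 3 = (N + 1) + 1 + 1 by ring, sum_range_succ, sum_range_succ,
      t_zero Q hQ (show N < N + 1 by omega), t_zero Q hQ (show N < N + 1 + 1 by omega)]
    ring
  rw [e3] at h
  unfold W at *
  linear_combination h

/-- The even case of the sum. -/
theorem W_even (Q : K) (hQ : Q ≠ 0) (h1 : ∀ j, 0 < j → 1 - Q ^ j ≠ 0) (b : ℕ) :
    W Q (2 * b) = Q ^ b * ∏ i ∈ range b, ((1 - Q ^ (2 * i + 1)) / (1 - Q ^ (2 * i + 2))) ^ 2 := by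
  induction b with
  | zero => simp [W, t]
  | succ b ih =>
    have h := W_rec Q hQ h1 (2 * b)
    have h2 := h1 (2 * b + 2) (by omega)
    rw [ih] at h
    rw [show 2 * (b + 1) = 2 * b + 2 by ring, prod_range_succ, div_pow]
    apply mul_left_cancel₀ (pow_ne_zero 2 h2)
    rw [h]
    field_simp
    ring

theorem W_one (Q : K) (hQ : Q ≠ 0) (h1 : ∀ j, 0 < j → 1 - Q ^ j ≠ 0) : W Q 1 = 0 := by
  have a1 := h1 1 (by norm_num)
  have a2 := h1 2 (by norm_num)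
  rw [pow_one] at a1
  simp only [W, t, ρ, E, sum_range_succ, prod_range_succ, range_zero, sum_empty, prod_empty,
    pow_zero, pow_one, mul_one, zero_add, mul_zero, one_mul]
  have e : Q * (1 - 1 / Q) = -(1 - Q) := by field_simp; ring
  rw [e, ← pow_two Q]
  have e1 : -(1 - Q) * (1 - Q ^ 2) * ((1 - Q) / ((1 - Q) ^ 2 * (1 - Q ^ 2))) = -1 := by
    generalize 1 - Q = x at *
    generalize 1 - Q ^ 2 = y at *
    field_simp
  linear_combination e1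

/-- The odd case of the sum. -/
theorem W_odd (Q : K) (hQ : Q ≠ 0) (h1 : ∀ j, 0 < j → 1 - Q ^ j ≠ 0) (b : ℕ) :
    W Q (2 * b + 1) = 0 := by
  induction b with
  | zero => exact W_one Q hQ h1
  | succ b ih =>
    have h := W_rec Q hQ h1 (2 * b + 1)
    rw [ih, mul_zero] at h
    have h2 := h1 (2 * b + 1 + 2) (by omega)
    rcases mul_eq_zero.1 h with h3 | h3
    · exact absurd h3 (pow_ne_zero 2 h2)
    · rw [show 2 * (b + 1) + 1 = 2 * b + 1 + 2 by ring]; exact h3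

end Q278.Watson
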