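import Mathlib

/-!
# Closed forms for two terminating cubic sums (certificates)
-/

set_option autoImplicit false

namespace Pool.Agent.Q278.YA

open Finset

/-- the first family -/
def F (t : ℚ) (k : ℕ) : ℚ :=
  ∏ i ∈ range k, (-((3 * (i : ℚ) + 1 - t) * (3 * i + 2 - t)) / (12 * (i + 1) * (6 * (i + 1) - t)))

/-- the second family -/
def g (t : ℚ) (k : ℕ) : ℚ :=
  ∏ i ∈ range k, ((3 * (i : ℚ) + 1 - t) * (6 * i + 2 - t) / ((i + 1) * (2 * i + 2 - t)))

/-- the base of the certificates for the first family -/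
def G1 (t : ℚ) (k : ℕ) : ℚ :=
  ∏ i ∈ range k, (-((3 * (i : ℚ) - 5 - t) * (3 * i - 4 - t)) / (12 * (i + 1) * (6 * (i + 1) - t)))

/-- the base of the certificate for the second family -/
def G2 (t : ℚ) (k : ℕ) : ℚ :=
  ∏ i ∈ range k, ((3 * (i : ℚ) - 5 - t) * (6 * i - 4 - t) / ((i + 1) * (2 * i + 2 - t)))

theorem F_zero (t : ℚ) : F t 0 = 1 := by simp [F]
theorem g_zero (t : ℚ) : g t 0 = 1 := by simp [g]
theorem G1_zero (t : ℚ) : G1 t 0 = 1 := by simp [G1]
theorem G2_zero (t : ℚ) : G2 t 0 = 1 := by simp [G2]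

theorem cst (k : ℕ) : ((k : ℚ) + 1) ≠ 0 := by positivity

theorem step (P a b : ℚ) (hb : b ≠ 0) : P * (a / b) * b = P * a := by
  rw [mul_assoc, div_mul_cancel₀ _ hb]

theorem F_succ (t : ℚ) (k : ℕ) (h : 6 * ((k : ℚ) + 1) - t ≠ 0) :
    F t (k + 1) * (12 * (k + 1) * (6 * ((k : ℚ) + 1) - t)) =
      F t k * (-((3 * (k : ℚ) + 1 - t) * (3 * k + 2 - t))) := by
  have h1 := cst k
  unfold F
  rw [prod_range_succ]
  exact step _ _ _ (mul_ne_zero (mul_ne_zero (by norm_num) h1) h)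

theorem G1_succ' (t : ℚ) (k : ℕ) (h : 6 * ((k : ℚ) + 1) - t ≠ 0) :
    G1 t (k + 1) * (12 * (k + 1) * (6 * ((k : ℚ) + 1) - t)) =
      G1 t k * (-((3 * (k : ℚ) - 5 - t) * (3 * k - 4 - t))) := by
  have h1 := cst k
  unfold G1
  rw [prod_range_succ]
  exact step _ _ _ (mul_ne_zero (mul_ne_zero (by norm_num) h1) h)

theorem g_succ (t : ℚ) (k : ℕ) (h : 2 * (k : ℚ) + 2 - t ≠ 0) :
    g t (k + 1) * ((k + 1) * (2 * (k : ℚ) + 2 - t)) =
      g t k * ((3 * (k : ℚ) + 1 - t) * (6 * k + 2 - t)) := by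
  have h1 := cst k
  unfold g
  rw [prod_range_succ]
  exact step _ _ _ (mul_ne_zero h1 h)

theorem G2_succ' (t : ℚ) (k : ℕ) (h : 2 * (k : ℚ) + 2 - t ≠ 0) :
    G2 t (k + 1) * ((k + 1) * (2 * (k : ℚ) + 2 - t)) =
      G2 t k * ((3 * (k : ℚ) - 5 - t) * (6 * k - 4 - t)) := by
  have h1 := cst k
  unfold G2
  rw [prod_range_succ]
  exact step _ _ _ (mul_ne_zero h1 h)

theorem relF1 (t : ℚ) (h : ∀ i : ℕ, 6 * (i : ℚ) - t ≠ 0) (k : ℕ) :
    t * F (t + 6) k = -(6 * (k : ℚ) - t) * G1 t k := by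
  induction k with
  | zero => rw [F_zero, G1_zero]; push_cast; ring
  | succ k ih =>
    have h1 := cst k
    have h2 := h k
    have h3 := h (k + 1)
    push_cast at h3
    have h4 : 6 * ((k : ℚ) + 1) - (t + 6) ≠ 0 := by
      intro h5
      apply h2
      linarith
    have e1 := F_succ (t + 6) k h4
    have e2 := G1_succ' t k h3
    have hD : (12 * ((k : ℚ) + 1) * (6 * ((k : ℚ) + 1) - (t + 6))) ≠ 0 :=
      mul_ne_zero (mul_ne_zero (by norm_num) h1) h4
    apply mul_right_cancel₀ hD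
    push_cast
    linear_combination t * e1 - ((3 * (k : ℚ) - 5 - t) * (3 * k - 4 - t)) * ih
      + (6 * (k : ℚ) - t) * e2

theorem relF2 (t : ℚ) (h : ∀ i : ℕ, 6 * (i : ℚ) - t ≠ 0) (k : ℕ) :
    (t + 1) * (t + 2) * (t + 4) * (t + 5) * F t k =
      (3 * (k : ℚ) - 5 - t) * (3 * k - 2 - t) * (3 * k - 4 - t) * (3 * k - 1 - t) * G1 t k := by
  induction k with
  | zero => rw [F_zero, G1_zero]; push_cast; ring
  | succ k ih =>
    have h1 := cst k
    have h3 := h (k + 1)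
    push_cast at h3
    have e1 := F_succ t k h3
    have e2 := G1_succ' t k h3
    have hD : (12 * ((k : ℚ) + 1) * (6 * ((k : ℚ) + 1) - t)) ≠ 0 :=
      mul_ne_zero (mul_ne_zero (by norm_num) h1) h3
    apply mul_right_cancel₀ hD
    push_cast
    linear_combination (t + 1) * (t + 2) * (t + 4) * (t + 5) * e1
      - ((3 * (k : ℚ) + 1 - t) * (3 * k + 2 - t)) * ih
      - (3 * (k : ℚ) - 2 - t) * (3 * k + 1 - t) * (3 * k - 1 - t) * (3 * k + 2 - t) * e2

theorem relg1 (t : ℚ) (k : ℕ) (h : ∀ i : ℕ, i < k → 2 * (i : ℚ) + 2 - t ≠ 0)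
    (h' : ∀ i : ℕ, i < k → 2 * (i : ℚ) - 4 - t ≠ 0) :
    t * (t + 2) * (t + 4) * g (t + 6) k =
      -((2 * (k : ℚ) - 4 - t) * (2 * k - 2 - t) * (2 * k - t)) * G2 t k := by
  induction k with
  | zero => rw [g_zero, G2_zero]; push_cast; ring
  | succ k ih =>
    have ih := ih (fun i hi => h i (by omega)) (fun i hi => h' i (by omega))
    have h1 := cst k
    have h3 := h k (by omega)
    have h4 := h' k (by omega)
    have h5 : 2 * (k : ℚ) + 2 - (t + 6) ≠ 0 := by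
      intro h6
      apply h4
      linarith
    have e1 := g_succ (t + 6) k h5
    have e2 := G2_succ' t k h3
    have hD : (((k : ℚ) + 1) * (2 * (k : ℚ) + 2 - (t + 6))) ≠ 0 := mul_ne_zero h1 h5
    apply mul_right_cancel₀ hD
    push_cast
    linear_combination t * (t + 2) * (t + 4) * e1
      + ((3 * (k : ℚ) - 5 - t) * (6 * k - 4 - t)) * ih
      + (2 * (k : ℚ) - 2 - t) * (2 * k - t) * (2 * (k : ℚ) - 4 - t) * e2

theorem relg2 (t : ℚ) (k : ℕ) (h : ∀ i : ℕ, i < k → 2 * (i : ℚ) + 2 - t ≠ 0) :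
    (t + 2) * (t + 4) * (t + 5) * g t k =
      -((3 * (k : ℚ) - 5 - t) * (3 * k - 2 - t) * (6 * k - 4 - t)) * G2 t k := by
  induction k with
  | zero => rw [g_zero, G2_zero]; push_cast; ring
  | succ k ih =>
    have ih := ih (fun i hi => h i (by omega))
    have h1 := cst k
    have h3 := h k (by omega)
    have e1 := g_succ t k h3
    have e2 := G2_succ' t k h3
    have hD : (((k : ℚ) + 1) * (2 * (k : ℚ) + 2 - t)) ≠ 0 := mul_ne_zero h1 h3
    apply mul_right_cancel₀ hD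
    push_cast
    linear_combination (t + 2) * (t + 4) * (t + 5) * e1
      + ((3 * (k : ℚ) + 1 - t) * (6 * k + 2 - t)) * ih
      + (3 * (k : ℚ) - 2 - t) * (3 * k + 1 - t) * (6 * k + 2 - t) * e2

/-- first certificate -/
theorem wz1 (t : ℚ) (h : ∀ i : ℕ, 6 * (i : ℚ) - t ≠ 0) (N : ℕ) :
    (t + 2) * (t + 4) * (t + 5) * (16 * t * ∑ k ∈ range N, F (t + 6) k
      - 27 * (t + 1) * ∑ k ∈ range N, F t k) =
      12 * N * (6 * (N : ℚ) - t) * (11 * t ^ 2 + 79 * t + 132 - 15 * (2 * t + 7) * N + 27 * N ^ 2)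
        * G1 t N := by
  induction N with
  | zero => simp
  | succ k ih =>
    rw [sum_range_succ, sum_range_succ]
    have e1 := relF1 t h k
    have e2 := relF2 t h k
    have h3 := h (k + 1)
    push_cast at h3
    have e3 := G1_succ' t k h3
    push_cast
    linear_combination ih + 16 * (t + 2) * (t + 4) * (t + 5) * e1 - 27 * e2
      - (11 * t ^ 2 + 79 * t + 132 - 15 * (2 * t + 7) * ((k : ℚ) + 1) + 27 * ((k : ℚ) + 1) ^ 2) * e3

/-- second certificate -/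
theorem wz2 (t : ℚ) (h : ∀ i : ℕ, 6 * (i : ℚ) - t ≠ 0) (N : ℕ) :
    (t + 1) * (t + 2) * (t + 4) * (16 * t * ∑ k ∈ range N, (9 * (k : ℚ) - t - 5) * F (t + 6) k
      - 27 * (t + 5) * ∑ k ∈ range N, (9 * (k : ℚ) - t + 1) * F t k) =
      12 * N * (6 * (N : ℚ) - t) * (-(11 * t ^ 3 + 135 * t ^ 2 + 472 * t + 456)
        + (129 * t ^ 2 + 828 * t + 1212) * N - 27 * (11 * t + 35) * N ^ 2 + 243 * N ^ 3)
        * G1 t N := by
  induction N with
  | zero => simp
  | succ k ih =>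
    rw [sum_range_succ, sum_range_succ]
    have e1 := relF1 t h k
    have e2 := relF2 t h k
    have h3 := h (k + 1)
    push_cast at h3
    have e3 := G1_succ' t k h3
    push_cast
    linear_combination ih + 16 * (t + 1) * (t + 2) * (t + 4) * (9 * (k : ℚ) - t - 5) * e1
      - 27 * (9 * (k : ℚ) - t + 1) * e2
      - (-(11 * t ^ 3 + 135 * t ^ 2 + 472 * t + 456)
        + (129 * t ^ 2 + 828 * t + 1212) * ((k : ℚ) + 1) - 27 * (11 * t + 35) * ((k : ℚ) + 1) ^ 2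
        + 243 * ((k : ℚ) + 1) ^ 3) * e3

/-- third certificate -/
theorem wz3 (t : ℚ) (N : ℕ) (h : ∀ i : ℕ, i < N → 2 * (i : ℚ) + 2 - t ≠ 0)
    (h' : ∀ i : ℕ, i < N → 2 * (i : ℚ) - 4 - t ≠ 0) :
    (t + 2) * (t + 4) * (t + 5) * (t * ∑ k ∈ range N, g (t + 6) k
      + 4 * (t + 1) * ∑ k ∈ range N, g t k) =
      N * (2 * (N : ℚ) - t) * (24 + 28 * t + 5 * t ^ 2 - 2 * (7 * t + 8) * N) * G2 t N := by
  induction N with
  | zero => simp
  | succ k ih =>
    have ih := ih (fun i hi => h i (by omega)) (fun i hi => h' i (by omega))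
    rw [sum_range_succ, sum_range_succ]
    have e1 := relg1 t k (fun i hi => h i (by omega)) (fun i hi => h' i (by omega))
    have e2 := relg2 t k (fun i hi => h i (by omega))
    have e3 := G2_succ' t k (h k (by omega))
    push_cast
    linear_combination ih + (t + 5) * e1 + 4 * (t + 1) * e2
      - (24 + 28 * t + 5 * t ^ 2 - 2 * (7 * t + 8) * ((k : ℚ) + 1)) * e3

end Pool.Agent.Q278.YA
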