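import Pool.Agent.Q278.YA

/-!
# Closed forms for two terminating cubic sums
-/

set_option autoImplicit false

namespace Pool.Agent.Q278.YA

open Finset

theorem F_vanish (t : ℚ) (i k : ℕ) (hik : i < k) (h : 3 * (i : ℚ) + 1 = t ∨ 3 * (i : ℚ) + 2 = t) :
    F t k = 0 := by
  unfold F
  apply prod_eq_zero (mem_range.2 hik)
  rcases h with h | h
  · rw [← h]; simp
  · rw [← h]; simp

theorem g_vanish (t : ℚ) (i k : ℕ) (hik : i < k) (h : 3 * (i : ℚ) + 1 = t ∨ 6 * (i : ℚ) + 2 = t) :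
    g t k = 0 := by
  unfold g
  apply prod_eq_zero (mem_range.2 hik)
  rcases h with h | h
  · rw [← h]; simp
  · rw [← h]; simp

theorem G1_vanish (t : ℚ) (i k : ℕ) (hik : i < k) (h : 3 * (i : ℚ) - 5 = t ∨ 3 * (i : ℚ) - 4 = t) :
    G1 t k = 0 := by
  unfold G1
  apply prod_eq_zero (mem_range.2 hik)
  rcases h with h | h
  · rw [← h]; simp
  · rw [← h]; simp

theorem G2_vanish (t : ℚ) (i k : ℕ) (hik : i < k) (h : 3 * (i : ℚ) - 5 = t ∨ 6 * (i : ℚ) - 4 = t) :
    G2 t k = 0 := by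
  unfold G2
  apply prod_eq_zero (mem_range.2 hik)
  rcases h with h | h
  · rw [← h]; simp
  · rw [← h]; simp

theorem sum_trunc (f : ℕ → ℚ) (a N : ℕ) (ha : a ≤ N) (h : ∀ k, a ≤ k → f k = 0) :
    ∑ k ∈ range N, f k = ∑ k ∈ range a, f k := by
  rw [← sum_range_add_sum_Ico f ha]
  rw [sum_eq_zero (s := Ico a N) fun k hk => h k (mem_Ico.1 hk).1, add_zero]

theorem six_ne_one (j i : ℕ) : 6 * (i : ℚ) - (6 * (j : ℚ) + 1) ≠ 0 := by
  intro h
  have h1 : (6 * (i : ℤ) - (6 * (j : ℤ) + 1)) = 0 := by exact_mod_cast h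
  omega

theorem six_ne_two (j i : ℕ) : 6 * (i : ℚ) - (6 * (j : ℚ) + 2) ≠ 0 := by
  intro h
  have h1 : (6 * (i : ℤ) - (6 * (j : ℤ) + 2)) = 0 := by exact_mod_cast h
  omega

/-- `S(6r+1)` -/
theorem S1 (r : ℕ) : ∀ N : ℕ, 2 * r < N → ∑ k ∈ range N, F (6 * r + 1) k =
    ∏ j ∈ range r, (27 * (6 * (j : ℚ) + 2) / (16 * (6 * j + 1))) := by
  induction r with
  | zero =>
    intro N hN
    rw [prod_range_zero, sum_trunc _ 1 N (by omega), sum_range_one, F_zero]
    intro k hk
    exact F_vanish _ 0 k (by omega) (Or.inl (by push_cast; ring))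
  | succ r ih =>
    intro N hN
    have ih := ih N (by omega)
    have h := wz1 (6 * r + 1) (six_ne_one r) N
    rw [G1_vanish (6 * r + 1) (2 * r + 2) N (by omega) (Or.inl (by push_cast; ring)), mul_zero, ih] at h
    have e : (6 * ((r + 1 : ℕ) : ℚ) + 1) = 6 * (r : ℚ) + 1 + 6 := by push_cast; ring
    rw [prod_range_succ, e]
    have h1 : (16 * (6 * (r : ℚ) + 1)) ≠ 0 := by positivity
    have h2 : (6 * (r : ℚ) + 1 + 2) * (6 * r + 1 + 4) * (6 * r + 1 + 5) ≠ 0 := by positivity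
    have h3 := (mul_eq_zero.1 h).resolve_left h2
    rw [← mul_div_assoc, eq_div_iff h1]
    linear_combination h3

/-- `S(6m+2)` -/
theorem S2 (m : ℕ) : ∀ N : ℕ, 2 * m < N → ∑ k ∈ range N, F (6 * m + 2) k =
    ∏ j ∈ range m, (27 * (6 * (j : ℚ) + 3) / (16 * (6 * j + 2))) := by
  induction m with
  | zero =>
    intro N hN
    rw [prod_range_zero, sum_trunc _ 1 N (by omega), sum_range_one, F_zero]
    intro k hk
    exact F_vanish _ 0 k (by omega) (Or.inr (by push_cast; ring))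
  | succ r ih =>
    intro N hN
    have ih := ih N (by omega)
    have h := wz1 (6 * r + 2) (six_ne_two r) N
    rw [G1_vanish (6 * r + 2) (2 * r + 2) N (by omega) (Or.inr (by push_cast; ring)), mul_zero, ih] at h
    have e : (6 * ((r + 1 : ℕ) : ℚ) + 2) = 6 * (r : ℚ) + 2 + 6 := by push_cast; ring
    rw [prod_range_succ, e]
    have h1 : (16 * (6 * (r : ℚ) + 2)) ≠ 0 := by positivity
    have h2 : (6 * (r : ℚ) + 2 + 2) * (6 * r + 2 + 4) * (6 * r + 2 + 5) ≠ 0 := by positivity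
    have h3 := (mul_eq_zero.1 h).resolve_left h2
    rw [← mul_div_assoc, eq_div_iff h1]
    linear_combination h3

/-- `W(6r+1)` -/
theorem W1 (r : ℕ) : ∀ N : ℕ, 2 * r < N →
    ∑ k ∈ range N, (9 * (k : ℚ) - 6 * r) * F (6 * r + 1) k = 0 := by
  induction r with
  | zero =>
    intro N hN
    rw [sum_trunc _ 1 N (by omega), sum_range_one]
    · simp
    intro k hk
    rw [F_vanish _ 0 k (by omega) (Or.inl (by push_cast; ring)), mul_zero]
  | succ r ih =>
    intro N hN
    have ih := ih N (by omega)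
    have h := wz2 (6 * r + 1) (six_ne_one r) N
    rw [G1_vanish (6 * r + 1) (2 * r + 2) N (by omega) (Or.inl (by push_cast; ring)), mul_zero] at h
    have e : (6 * ((r + 1 : ℕ) : ℚ) + 1) = 6 * (r : ℚ) + 1 + 6 := by push_cast; ring
    have e1 : ∑ k ∈ range N, (9 * (k : ℚ) - (6 * r + 1) + 1) * F (6 * r + 1) k = 0 := by
      rw [← ih]
      refine sum_congr rfl fun k _ => ?_
      ring
    rw [e1, mul_zero, sub_zero] at h
    have h2 : (6 * (r : ℚ) + 1 + 1) * (6 * r + 1 + 2) * (6 * r + 1 + 4) ≠ 0 := by positivity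
    have h3 := (mul_eq_zero.1 h).resolve_left h2
    have h1 : (16 * (6 * (r : ℚ) + 1)) ≠ 0 := by positivity
    have h4 := (mul_eq_zero.1 h3).resolve_left h1
    rw [e, ← h4]
    refine sum_congr rfl fun k _ => ?_
    push_cast
    ring

/-- `W(6m+2)` -/
theorem W2 (m : ℕ) : ∀ N : ℕ, 2 * m < N →
    ∑ k ∈ range N, (9 * (k : ℚ) - (6 * m + 1)) * F (6 * m + 2) k =
    -∏ j ∈ range m, (27 * (6 * (j : ℚ) + 7) / (16 * (6 * j + 2))) := by
  induction m with
  | zero =>
    intro N hN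
    rw [prod_range_zero, sum_trunc _ 1 N (by omega), sum_range_one, F_zero]
    · simp
    intro k hk
    rw [F_vanish _ 0 k (by omega) (Or.inr (by push_cast; ring)), mul_zero]
  | succ r ih =>
    intro N hN
    have ih := ih N (by omega)
    have h := wz2 (6 * r + 2) (six_ne_two r) N
    rw [G1_vanish (6 * r + 2) (2 * r + 2) N (by omega) (Or.inr (by push_cast; ring)), mul_zero] at h
    have e : (6 * ((r + 1 : ℕ) : ℚ) + 2) = 6 * (r : ℚ) + 2 + 6 := by push_cast; ring
    have e1 : ∑ k ∈ range N, (9 * (k : ℚ) - (6 * r + 2) + 1) * F (6 * r + 2) k =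
        -∏ j ∈ range r, (27 * (6 * (j : ℚ) + 7) / (16 * (6 * j + 2))) := by
      rw [← ih]
      refine sum_congr rfl fun k _ => ?_
      ring
    rw [e1] at h
    have e2 : ∑ k ∈ range N, (9 * (k : ℚ) - (6 * ((r + 1 : ℕ) : ℚ) + 1)) * F (6 * r + 2 + 6) k =
        ∑ k ∈ range N, (9 * (k : ℚ) - (6 * r + 2) - 5) * F (6 * r + 2 + 6) k := by
      refine sum_congr rfl fun k _ => ?_
      push_cast
      ring
    rw [prod_range_succ, e, e2]
    have h1 : (16 * (6 * (r : ℚ) + 2)) ≠ 0 := by positivity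
    have h2 : (6 * (r : ℚ) + 2 + 1) * (6 * r + 2 + 2) * (6 * r + 2 + 4) ≠ 0 := by positivity
    have h3 := (mul_eq_zero.1 h).resolve_left h2
    rw [← mul_div_assoc, ← neg_div, eq_div_iff h1]
    linear_combination h3

/-- `X(6r+1)` -/
theorem X1 (r : ℕ) : ∀ N : ℕ, 2 * r < N → ∑ k ∈ range N, g (6 * r + 1) k =
    ∏ j ∈ range r, (-4 * (6 * (j : ℚ) + 2) / (6 * j + 1)) := by
  induction r with
  | zero =>
    intro N hN
    rw [prod_range_zero, sum_trunc _ 1 N (by omega), sum_range_one, g_zero]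
    intro k hk
    exact g_vanish _ 0 k (by omega) (Or.inl (by push_cast; ring))
  | succ r ih =>
    intro N hN
    have ih := ih N (by omega)
    have h := wz3 (6 * r + 1) N
      (fun i _ => by
        intro h
        have h1 : (2 * (i : ℤ) + 2 - (6 * (r : ℤ) + 1)) = 0 := by exact_mod_cast h
        omega)
      (fun i _ => by
        intro h
        have h1 : (2 * (i : ℤ) - 4 - (6 * (r : ℤ) + 1)) = 0 := by exact_mod_cast h
        omega)
    rw [G2_vanish (6 * r + 1) (2 * r + 2) N (by omega) (Or.inl (by push_cast; ring)), mul_zero, ih] at h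
    have e : (6 * ((r + 1 : ℕ) : ℚ) + 1) = 6 * (r : ℚ) + 1 + 6 := by push_cast; ring
    rw [prod_range_succ, e]
    have h1 : ((6 * (r : ℚ) + 1)) ≠ 0 := by positivity
    have h2 : (6 * (r : ℚ) + 1 + 2) * (6 * r + 1 + 4) * (6 * r + 1 + 5) ≠ 0 := by positivity
    have h3 := (mul_eq_zero.1 h).resolve_left h2
    rw [← mul_div_assoc, eq_div_iff h1]
    linear_combination h3

theorem g_eight : ∑ k ∈ range 2, g (6 * ((1 : ℕ) : ℚ) + 2) k = -6 := by
  rw [sum_range_succ, sum_range_one, g_zero]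
  unfold g
  norm_num

/-- `X(6m+2)` -/
theorem X2 (m : ℕ) : ∀ N : ℕ, m < N → ∑ k ∈ range N, g (6 * m + 2) k =
    ∏ j ∈ range m, (-4 * (6 * (j : ℚ) + 3) / (6 * j + 2)) := by
  induction m with
  | zero =>
    intro N hN
    rw [prod_range_zero, sum_trunc _ 1 N (by omega), sum_range_one, g_zero]
    intro k hk
    exact g_vanish _ 0 k (by omega) (Or.inr (by push_cast; ring))
  | succ r ih =>
    intro N hN
    rcases Nat.eq_zero_or_pos r with hr | hr
    · subst hr
      rw [sum_trunc _ 2 N (by omega)]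
      · rw [prod_range_succ, prod_range_zero]
        rw [show (0 + 1 : ℕ) = 1 from rfl, g_eight]
        norm_num
      · intro k hk
        exact g_vanish _ 1 k (by omega) (Or.inr (by push_cast; ring))
    have ih := ih (r + 2) (by omega)
    have h := wz3 (6 * r + 2) (r + 2)
      (fun i hi => by
        intro h
        have h1 : (2 * (i : ℤ) + 2 - (6 * (r : ℤ) + 2)) = 0 := by exact_mod_cast h
        omega)
      (fun i hi => by
        intro h
        have h1 : (2 * (i : ℤ) - 4 - (6 * (r : ℤ) + 2)) = 0 := by exact_mod_cast h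
        omega)
    rw [G2_vanish (6 * r + 2) (r + 1) (r + 2) (by omega) (Or.inr (by push_cast; ring)), mul_zero, ih] at h
    have e : (6 * ((r + 1 : ℕ) : ℚ) + 2) = 6 * (r : ℚ) + 2 + 6 := by push_cast; ring
    rw [sum_trunc _ (r + 2) N (by omega)]
    swap
    · intro k hk
      exact g_vanish _ (r + 1) k (by omega) (Or.inr (by push_cast; ring))
    rw [prod_range_succ, e]
    have h1 : ((6 * (r : ℚ) + 2)) ≠ 0 := by positivity
    have h2 : (6 * (r : ℚ) + 2 + 2) * (6 * r + 2 + 4) * (6 * r + 2 + 5) ≠ 0 := by positivity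
    have h3 := (mul_eq_zero.1 h).resolve_left h2
    rw [← mul_div_assoc, eq_div_iff h1]
    linear_combination h3

end Pool.Agent.Q278.YA
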