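import Pool.Agent.Q267.CDE.Base
import Pool.Agent.Q267.CDE.Res2

/-!
# Linear triples and products modulo `p²`
-/

set_option autoImplicit false

namespace Pool.Agent.Q278.YC

open Finset Pool.Agent.Q267.CDE

variable {p : ℕ}

/-- `a, b, c` are the values at `0, u p, v p` of a function which is linear modulo `p²` -/
def Lin (u v a b c : R p) : Prop := ∃ d : R p, b = a + p * (u * d) ∧ c = a + p * (v * d)

variable {u v a b c a' b' c' : R p}

theorem Lin.const (u v a : R p) : Lin u v a a a := ⟨0, by ring, by ring⟩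

theorem Lin.add (h : Lin u v a b c) (h' : Lin u v a' b' c') : Lin u v (a + a') (b + b') (c + c') := by
  obtain ⟨d, h1, h2⟩ := h
  obtain ⟨d', h1', h2'⟩ := h'
  refine ⟨d + d', ?_, ?_⟩
  · rw [h1, h1']; ring
  · rw [h2, h2']; ring

theorem Lin.mul (h : Lin u v a b c) (h' : Lin u v a' b' c') : Lin u v (a * a') (b * b') (c * c') := by
  obtain ⟨d, h1, h2⟩ := h
  obtain ⟨d', h1', h2'⟩ := h'
  have hp := p_sq p
  refine ⟨a * d' + a' * d, ?_, ?_⟩
  · rw [h1, h1']; linear_combination (u ^ 2 * d * d') * hp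
  · rw [h2, h2']; linear_combination (v ^ 2 * d * d') * hp

theorem Lin.inv {x y z : R p} (h : Lin u v a b c) (hx : a * x = 1) (hy : b * y = 1) (hz : c * z = 1) :
    Lin u v x y z := by
  obtain ⟨d, h1, h2⟩ := h
  have hp := p_sq p
  refine ⟨-(d * x ^ 2), ?_, ?_⟩
  · have h3 : b * (x + p * (u * -(d * x ^ 2))) = 1 := by
      rw [h1]
      linear_combination (1 - (p * u * d * x)) * hx - (u * d * x) ^ 2 * hp
    linear_combination (-y) * h3 + (x + p * (u * -(d * x ^ 2))) * hy
  · have h3 : c * (x + p * (v * -(d * x ^ 2))) = 1 := by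
      rw [h2]
      linear_combination (1 - (p * v * d * x)) * hx - (v * d * x) ^ 2 * hp
    linear_combination (-z) * h3 + (x + p * (v * -(d * x ^ 2))) * hz

theorem Lin.sum (f1 f2 f3 : ℕ → R p) (N : ℕ) (h : ∀ k, k < N → Lin u v (f1 k) (f2 k) (f3 k)) :
    Lin u v (∑ k ∈ range N, f1 k) (∑ k ∈ range N, f2 k) (∑ k ∈ range N, f3 k) := by
  induction N with
  | zero => simp only [range_zero, sum_empty]; exact Lin.const _ _ _
  | succ N ih =>
    rw [sum_range_succ, sum_range_succ, sum_range_succ]
    exact (ih fun k hk => h k (by omega)).add (h N (by omega))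

theorem Lin.prod (f1 f2 f3 : ℕ → R p) (N : ℕ) (h : ∀ k, k < N → Lin u v (f1 k) (f2 k) (f3 k)) :
    Lin u v (∏ k ∈ range N, f1 k) (∏ k ∈ range N, f2 k) (∏ k ∈ range N, f3 k) := by
  induction N with
  | zero => simp only [range_zero, prod_empty]; exact Lin.const _ _ _
  | succ N ih =>
    rw [prod_range_succ, prod_range_succ, prod_range_succ]
    exact (ih fun k hk => h k (by omega)).mul (h N (by omega))

theorem Lin.eval (h : Lin (p := p) 1 2 a b c) : a = 2 * b - c := by
  obtain ⟨d, h1, h2⟩ := h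
  rw [h1, h2]; ring

theorem Lin.eval' (h : Lin (p := p) 1 (-2) a b c) : 3 * a = 2 * b + c := by
  obtain ⟨d, h1, h2⟩ := h
  rw [h1, h2]; ring

section

variable (p) [hp : Fact p.Prime]

/-- harmonic sums in `ℤ/p²` -/
noncomputable def D (n : ℕ) : R p := ∑ i ∈ range n, (((i + 1 : ℕ) : R p))⁻¹

theorem D_succ (n : ℕ) : D p (n + 1) = D p n + (((n + 1 : ℕ) : R p))⁻¹ := by
  unfold D
  rw [sum_range_succ]

theorem unit_fact (n : ℕ) (hn : n < p) : IsUnit ((n.factorial : ℕ) : R p) := by
  apply isUnit_coprime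
  rw [Nat.Prime.dvd_factorial hp.out]
  omega

/-- shifted products -/
theorem prod_shift (x x' s : R p) (hx : x * x' = 1) (m n : ℕ) (h : m + n < p) :
    (∏ i ∈ range n, (x * ((m : R p) + 1 + i) + p * s)) * (m.factorial : R p) =
      x ^ n * ((m + n).factorial : R p) * (1 + p * (s * x' * (D p (m + n) - D p m))) := by
  induction n with
  | zero =>
    rw [prod_range_zero, pow_zero, add_zero]
    ring
  | succ n ih =>
    have ih := ih (by omega)
    rw [prod_range_succ, ← add_assoc, Nat.factorial_succ, D_succ]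
    have h1 := mul_inv_R p (isUnit_nat p (m + n + 1) (by omega) (by omega))
    push_cast at h1 ⊢
    set y := ((m : R p) + n + 1)⁻¹
    have hpp := p_sq p
    linear_combination (x * ((m : R p) + 1 + n) + p * s) * ih
      + (x ^ n * ((m + n).factorial : R p) * (s ^ 2 * x' * (D p (m + n) - D p m))) * hpp
      - (x ^ (n + 1) * ((m + n).factorial : R p) * p * s * x') * h1
      - (x ^ n * ((m + n).factorial : R p) * p * s) * hx

theorem prod_shift0 (x x' s : R p) (hx : x * x' = 1) (n : ℕ) (h : n < p) :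
    (∏ i ∈ range n, (x * ((i : R p) + 1) + p * s)) =
      x ^ n * (n.factorial : R p) * (1 + p * (s * x' * D p n)) := by
  have h1 := prod_shift p x x' s hx 0 n (by omega)
  rw [Nat.factorial_zero, Nat.cast_one, mul_one, zero_add] at h1
  have h2 : D p 0 = 0 := by simp [D]
  rw [h2, sub_zero] at h1
  rw [← h1]
  refine prod_congr rfl fun i _ => ?_
  push_cast
  ring

end

end Pool.Agent.Q278.YC
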