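import Pool.Agent.Q278.YC

/-!
# Products modulo `p²` for `p = 6 r + 1`
-/

set_option autoImplicit false

namespace Pool.Agent.Q278.YC

open Finset Pool.Agent.Q267.CDE

section

variable {p : ℕ}

theorem refl (n : ℕ) (α β : R p) : ∏ j ∈ range n, (α + β * (j : R p)) =
    ∏ i ∈ range n, (-β * ((i : R p) + 1) + (α + β * n)) := by
  rw [← prod_range_reflect]
  refine prod_congr rfl fun i hi => ?_
  have h : i < n := mem_range.1 hi
  have e : ((n - 1 - i : ℕ) : R p) = n - 1 - i := by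
    rw [Nat.cast_sub (by omega), Nat.cast_sub (by omega)]
    push_cast
    ring
  rw [e]
  ring

theorem pow_prod (a : R p) (n : ℕ) (f : ℕ → R p) :
    a ^ n * ∏ i ∈ range n, f i = ∏ i ∈ range n, (a * f i) := by
  rw [prod_mul_distrib, prod_const, card_range]

/-- `(2n)! = 2^n n! ∏ (2j+1)` -/
theorem double (n : ℕ) : (((2 * n).factorial : ℕ) : R p) =
    2 ^ n * (n.factorial : R p) * ∏ j ∈ range n, (2 * (j : R p) + 1) := by
  induction n with
  | zero => simp
  | succ n ih =>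
    rw [show 2 * (n + 1) = 2 * n + 1 + 1 by ring, Nat.factorial_succ, Nat.factorial_succ,
      prod_range_succ, Nat.factorial_succ]
    push_cast
    rw [ih]
    ring

/-- `(m+n)! = m! ∏ (m+1+j)` -/
theorem fact_add (m n : ℕ) : (((m + n).factorial : ℕ) : R p) =
    (m.factorial : R p) * ∏ j ∈ range n, ((m : R p) + 1 + j) := by
  induction n with
  | zero => simp
  | succ n ih =>
    rw [← add_assoc, Nat.factorial_succ, prod_range_succ]
    push_cast
    rw [ih]
    ring

end

variable {p : ℕ} [hp : Fact p.Prime] {r : ℕ}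

theorem castp (hr : p = 6 * r + 1) : (p : R p) = 6 * (r : R p) + 1 := by
  have := congrArg (Nat.cast : ℕ → R p) hr
  push_cast at this
  exact this

theorem A1 (hr : p = 6 * r + 1) (y : R p) (hy : 6 * y = 1) :
    ∏ j ∈ range r, (6 * (j : R p) + 1) =
      (-6) ^ r * (r.factorial : R p) * (1 - p * (y * D p r)) := by
  have h0 := castp hr
  have h1 : ∏ j ∈ range r, (6 * (j : R p) + 1) = ∏ j ∈ range r, (1 + 6 * (j : R p)) :=
    prod_congr rfl fun j _ => by ring
  rw [h1, refl r 1 6]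
  have h2 : (1 : R p) + 6 * r = p * 1 := by rw [h0]; ring
  rw [h2, prod_shift0 p (-6) (-y) 1 (by linear_combination hy) r (by omega)]
  ring

theorem A2 (hr : p = 6 * r + 1) (y : R p) (hy : 6 * y = 1) :
    ∏ j ∈ range (2 * r), (3 * (j : R p) + 1) =
      9 ^ r * ((2 * r).factorial : R p) * (1 - p * (2 * y * D p (2 * r))) := by
  have h0 := castp hr
  have h1 : ∏ j ∈ range (2 * r), (3 * (j : R p) + 1) = ∏ j ∈ range (2 * r), (1 + 3 * (j : R p)) :=
    prod_congr rfl fun j _ => by ring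
  rw [h1, refl (2 * r) 1 3]
  have h2 : (1 : R p) + 3 * (2 * r : ℕ) = p * 1 := by rw [h0]; push_cast; ring
  rw [h2, prod_shift0 p (-3) (-(2 * y)) 1 (by linear_combination hy) (2 * r) (by omega), pow_mul]
  norm_num
  ring

theorem A3 (hr : p = 6 * r + 1) (y : R p) (hy : 6 * y = 1) :
    2 ^ r * ∏ j ∈ range r, (3 * ((r : R p) + j) + 1) =
      (-6) ^ r * (r.factorial : R p) * (1 - p * (2 * y * D p r)) := by
  have h0 := castp hr
  rw [pow_prod]
  have h1 : ∏ j ∈ range r, (2 * (3 * ((r : R p) + j) + 1)) = ∏ j ∈ range r, ((p + 1) + 6 * (j : R p)) :=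
    prod_congr rfl fun j _ => by rw [h0]; ring
  rw [h1, refl r _ 6]
  have h2 : ((p : R p) + 1) + 6 * r = p * 2 := by rw [h0]; ring
  rw [h2, prod_shift0 p (-6) (-y) 2 (by linear_combination hy) r (by omega)]
  ring

theorem A4 : ∏ j ∈ range (2 * r), (3 * (j : R p) + 1) =
    (∏ j ∈ range r, (3 * (j : R p) + 1)) * ∏ j ∈ range r, (3 * ((r : R p) + j) + 1) := by
  rw [two_mul, prod_range_add]
  push_cast
  rfl

theorem B1 (hr : p = 6 * r + 1) : (-16) ^ r * (r.factorial : R p) ^ 2 * ((4 * r).factorial : R p) =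
    ((2 * r).factorial : R p) ^ 3 := by
  have h0 := castp hr
  have hpp := p_sq p
  have h1 : (((4 * r).factorial : ℕ) : R p) = ((2 * r).factorial : R p) *
      ((∏ j ∈ range r, (2 * (r : R p) + 1 + j)) * ∏ j ∈ range r, (3 * (r : R p) + 1 + j)) := by
    have := fact_add (p := p) (2 * r) (r + r)
    rw [show 2 * r + (r + r) = 4 * r by ring, prod_range_add] at this
    rw [this]
    push_cast
    congr 2
    refine prod_congr rfl fun j _ => ?_
    ring
  have h2 : 2 ^ r * ∏ j ∈ range r, (3 * (r : R p) + 1 + j) = ∏ j ∈ range r, (p + (2 * (j : R p) + 1)) := by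
    rw [pow_prod]
    exact prod_congr rfl fun j _ => by rw [h0]; ring
  have h3 : 2 ^ r * ∏ j ∈ range r, (2 * (r : R p) + 1 + j) = ∏ j ∈ range r, (p - (2 * (j : R p) + 1)) := by
    have h4 : ∏ j ∈ range r, (2 * (r : R p) + 1 + j) = ∏ j ∈ range r, (2 * (r : R p) + 1 + 1 * j) :=
      prod_congr rfl fun j _ => by ring
    rw [h4, refl r _ 1, pow_prod]
    exact prod_congr rfl fun j _ => by rw [h0]; ring
  have h5 : (∏ j ∈ range r, (p - (2 * (j : R p) + 1))) * (∏ j ∈ range r, (p + (2 * (j : R p) + 1))) =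
      (-1) ^ r * (∏ j ∈ range r, (2 * (j : R p) + 1)) ^ 2 := by
    rw [← prod_mul_distrib, ← prod_pow, pow_prod]
    refine prod_congr rfl fun j _ => ?_
    linear_combination hpp
  rw [← h2, ← h3] at h5
  have h6 := double (p := p) r
  have e1 : ((-16 : R p)) ^ r = (-1) ^ r * (2 ^ r * 2 ^ r * (2 ^ r * 2 ^ r)) := by
    rw [← mul_pow, ← mul_pow, ← mul_pow]; norm_num
  have e2 : ((-1 : R p)) ^ r * (-1) ^ r = 1 := by rw [← mul_pow]; norm_num
  rw [e1, h1]
  set A := ∏ j ∈ range r, (2 * (r : R p) + 1 + j)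
  set B := ∏ j ∈ range r, (3 * (r : R p) + 1 + j)
  set Q := ∏ j ∈ range r, (2 * (j : R p) + 1)
  set a := (r.factorial : R p)
  set b := ((2 * r).factorial : R p)
  set z := (2 : R p) ^ r
  linear_combination ((-1) ^ r * z ^ 2 * a ^ 2 * b) * h5 + (z ^ 2 * a ^ 2 * b * Q ^ 2) * e2
    - b * (b + z * a * Q) * h6

theorem B2 (hr : p = 6 * r + 1) (y : R p) (hy : 6 * y = 1) :
    ((4 * r).factorial : R p) * (r.factorial : R p) ^ 2 =
      (-4) ^ r * ((2 * r).factorial : R p) ^ 3 * (1 - p * (3 * y * (D p (2 * r) - D p r))) := by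
  have h0 := castp hr
  have h1 := double (p := p) (2 * r)
  rw [show 2 * (2 * r) = 4 * r by ring] at h1
  have h2 : ∏ j ∈ range (2 * r), (2 * (j : R p) + 1) =
      (∏ j ∈ range r, (2 * (j : R p) + 1)) * ∏ j ∈ range r, (2 * (r : R p) + 1 + 2 * j) := by
    rw [two_mul, prod_range_add]
    push_cast
    congr 1
    refine prod_congr rfl fun j _ => ?_
    ring
  have h3 := double (p := p) r
  have h4 : (∏ j ∈ range r, (2 * (r : R p) + 1 + 2 * j)) * (r.factorial : R p) =
      (-2) ^ r * ((2 * r).factorial : R p) * (1 - p * (3 * y * (D p (2 * r) - D p r))) := by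
    have h5 := prod_shift p (-2) (-(3 * y)) 1 (by linear_combination hy) r r (by omega)
    rw [refl r _ 2]
    have h6 : ∏ i ∈ range r, (-2 * ((i : R p) + 1) + (2 * (r : R p) + 1 + 2 * r)) =
        ∏ i ∈ range r, (-2 * ((r : R p) + 1 + i) + p * 1) := by
      refine prod_congr rfl fun i _ => ?_
      rw [h0]; ring
    rw [h6, h5, ← two_mul]
    ring
  have e1 : ((-4 : R p)) ^ r = 2 ^ r * (-2) ^ r := by rw [← mul_pow]; norm_num
  rw [h2] at h1
  rw [h1, e1, pow_mul]
  set A := ∏ j ∈ range r, (2 * (r : R p) + 1 + 2 * j)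
  set Q := ∏ j ∈ range r, (2 * (j : R p) + 1)
  set a := (r.factorial : R p)
  set b := ((2 * r).factorial : R p)
  have e2 : ((2 : R p) ^ 2) ^ r = 2 ^ r * 2 ^ r := by rw [← mul_pow]; norm_num
  rw [e2]
  set z := (2 : R p) ^ r
  linear_combination (z ^ 2 * b * Q * a) * h4
    - ((-2) ^ r * b ^ 2 * z * (1 - p * (3 * y * (D p (2 * r) - D p r)))) * h3

theorem B3 (hr : p = 6 * r + 1) (y : R p) (hy : 6 * y = 1) :
    64 ^ r * (1 - p * (3 * y * (D p (2 * r) - D p r))) = 1 := by
  have h1 := B1 (p := p) hr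
  have h2 := B2 (p := p) hr y hy
  have hu := (unit_fact p (2 * r) (by omega)).pow 3
  apply hu.mul_left_cancel
  have e1 : ((64 : R p)) ^ r = (-16) ^ r * (-4) ^ r := by rw [← mul_pow]; norm_num
  rw [e1]
  linear_combination h1 - (-16) ^ r * h2

end Pool.Agent.Q278.YC
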