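import Pool.Agent.Q278.YG

/-!
# The sum of squares of binomial coefficients at `-1/3` modulo `p²`
-/

set_option autoImplicit false

namespace Pool.Agent.Q278.YC

open Finset Pool.Agent.Q267.CDE Q278.PI Pool.Agent.Q278.YA

/-- numerators of the second family -/
def nG (s : ℤ) (i : ℕ) : ℤ := (3 * i + 1 - s) * (6 * i + 2 - s)

/-- denominators of the second family -/
def dG (s : ℤ) (i : ℕ) : ℤ := (i + 1) * (2 * i + 2 - s)

variable {p : ℕ} [hp : Fact p.Prime] {r : ℕ}

theorem dG_nd (hr : p = 6 * r + 1) (i : ℕ) (hi : i + 1 < p) (j : ℤ) :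
    ¬ (p : ℤ) ∣ dG (j * p) i := by
  have hr' : (p : ℤ) = 6 * r + 1 := by exact_mod_cast hr
  have h2 : 2 ≤ p := hp.out.two_le
  unfold dG
  apply not_dvd_mul
  · apply not_dvd_small
    · omega
    · omega
    · omega
  · have h1 : ¬ (p : ℤ) ∣ 2 * ((i : ℤ) + 1) := by
      apply not_dvd_mul
      · apply not_dvd_small
        · omega
        · omega
        · omega
      · apply not_dvd_small
        · omega
        · omega
        · omega
    have h3 := not_dvd_add h1 (-j)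
    have e : 2 * ((i : ℤ) + 1) + -j * p = 2 * i + 2 - j * p := by ring
    rwa [e] at h3

theorem linG (i : ℕ) : Lin (p := p) 1 2 ((nG 0 i : ℤ) : R p) ((nG p i : ℤ) : R p)
    ((nG (2 * p) i : ℤ) : R p) := by
  have h := (lin_int p (3 * i + 1) (-1)).mul (lin_int p (6 * i + 2) (-1))
  unfold nG
  convert h using 1 <;> push_cast <;> ring

theorem linGd (i : ℕ) : Lin (p := p) 1 2 ((dG 0 i : ℤ) : R p) ((dG p i : ℤ) : R p)
    ((dG (2 * p) i : ℤ) : R p) := by
  have h := (Lin.const (p := p) 1 2 ((i + 1 : ℤ) : R p)).mul (lin_int p (2 * i + 2) (-1))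
  unfold dG
  convert h using 1 <;> push_cast <;> ring

/-- the sums -/
noncomputable def GO (p : ℕ) [Fact p.Prime] (s : ℤ) : O p := ∑ k ∈ range p, PO p (nG s) (dG s) k

theorem GO_coe (hr : p = 6 * r + 1) (j : ℤ) :
    ((GO p (j * p) : O p) : ℚ) = ∑ k ∈ range p, g ((j * p : ℤ) : ℚ) k := by
  unfold GO
  rw [AddSubmonoidClass.coe_finsetSum]
  refine sum_congr rfl fun k hk => ?_
  have hk' : k < p := mem_range.1 hk
  rw [PO_coe p _ _ k fun i hi => dG_nd hr i (by omega) j]
  unfold g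
  refine prod_congr rfl fun i _ => ?_
  unfold nG dG
  push_cast
  rfl

theorem GO_lin (hr : p = 6 * r + 1) : Lin (p := p) 1 2 (res2 p (GO p 0)) (res2 p (GO p p))
    (res2 p (GO p (2 * p))) := by
  unfold GO
  rw [map_sum, map_sum, map_sum]
  refine Lin.sum _ _ _ p fun k hk => ?_
  refine PO_lin p 1 2 _ _ _ _ _ _ k ?_ ?_ ?_ ?_ ?_
  · intro i hi
    have := dG_nd hr i (by omega) 0
    rwa [zero_mul] at this
  · intro i hi
    have := dG_nd hr i (by omega) 1
    rwa [one_mul] at this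
  · intro i hi
    exact dG_nd hr i (by omega) 2
  · intro i _
    exact linG i
  · intro i _
    exact linGd i

theorem six_nd (hr : p = 6 * r + 1) (i : ℕ) (hi : i < r) : ¬ (p : ℤ) ∣ 6 * (i : ℤ) + 1 := by
  apply not_dvd_small
  · omega
  · omega
  · omega

theorem six2_nd (hr : p = 6 * r + 1) (i : ℕ) (hi : i < 2 * r) : ¬ (p : ℤ) ∣ 6 * (i : ℤ) + 2 := by
  have h1 : ¬ (p : ℤ) ∣ 2 * (3 * (i : ℤ) + 1) := by
    apply not_dvd_mul
    · apply not_dvd_small
      · omega
      · omega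
      · omega
    · apply not_dvd_small
      · omega
      · omega
      · omega
  have e : 2 * (3 * (i : ℤ) + 1) = 6 * (i : ℤ) + 2 := by ring
  rwa [e] at h1

theorem GO_one (hr : p = 6 * r + 1) (y : R p) (hy : 6 * y = 1) :
    res2 p (GO p p) = CC p r * (1 + p * (y * D p (2 * r))) := by
  apply X1_eval hr y hy
  have h1 : GO p p = PO p (fun j => -4 * (6 * (j : ℤ) + 2)) (fun j => 6 * (j : ℤ) + 1) r := by
    apply Subtype.ext
    have h2 := GO_coe hr 1
    rw [one_mul] at h2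
    rw [h2, PO_coe p _ _ r fun i hi => six_nd hr i hi]
    have h3 := X1 r p (by omega)
    have h4 : (((p : ℤ) : ℚ)) = 6 * (r : ℚ) + 1 := by
      rw [hr]; push_cast; ring
    rw [h4, h3]
    refine prod_congr rfl fun j _ => ?_
    push_cast
    rfl
  have h2 := PO_res p (fun j => -4 * (6 * (j : ℤ) + 2)) (fun j => 6 * (j : ℤ) + 1) r
    fun i hi => six_nd hr i hi
  rw [h1]
  push_cast at h2
  exact h2

theorem GO_two (hr : p = 6 * r + 1) (y : R p) (hy : 6 * y = 1) :
    res2 p (GO p (2 * p)) = CC p r * (1 + p * (2 * (y * D p (2 * r)))) := by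
  apply X2_eval hr y hy
  have h1 : GO p (2 * p) =
      PO p (fun j => -4 * (6 * (j : ℤ) + 3)) (fun j => 6 * (j : ℤ) + 2) (2 * r) := by
    apply Subtype.ext
    have h2 := GO_coe hr 2
    rw [h2, PO_coe p _ _ (2 * r) fun i hi => six2_nd hr i hi]
    have h3 := X2 (2 * r) p (by omega)
    have h4 : (((2 * p : ℤ)) : ℚ) = 6 * ((2 * r : ℕ) : ℚ) + 2 := by
      rw [hr]; push_cast; ring
    rw [h4, h3]
    refine prod_congr rfl fun j _ => ?_
    push_cast
    rfl
  have h2 := PO_res p (fun j => -4 * (6 * (j : ℤ) + 3)) (fun j => 6 * (j : ℤ) + 2) (2 * r)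
    fun i hi => six2_nd hr i hi
  rw [h1]
  push_cast at h2
  exact h2

theorem exists_y (hr : p = 6 * r + 1) : ∃ y : R p, 6 * y = 1 := by
  have h : ¬ p ∣ 6 := by
    intro h
    have h1 := Nat.le_of_dvd (by norm_num) h
    have h2 := hp.out.two_le
    interval_cases p <;> omega
  have hu := isUnit_coprime p 6 h
  push_cast at hu
  exact ⟨_, mul_inv_R p hu⟩

theorem GO_zero (hr : p = 6 * r + 1) : res2 p (GO p 0) = CC p r := by
  obtain ⟨y, hy⟩ := exists_y (p := p) hr
  rw [(GO_lin hr).eval, GO_one hr y hy, GO_two hr y hy]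
  ring

theorem L_nd (hr : p = 6 * r + 1) (L M : ℤ) (h4 : 4 * (p : ℤ) = L ^ 2 + 27 * M ^ 2)
    (hL : (3 : ℤ) ∣ L - 2) : ¬ (p : ℤ) ∣ L := by
  rintro ⟨c, hc⟩
  have hp7 : (7 : ℤ) ≤ p := by
    have := hp.out.two_le
    omega
  have hc0 : c ≠ 0 := by
    rintro rfl
    omega
  have h1 : 1 ≤ c ^ 2 := by
    have : 0 < c ^ 2 := by positivity
    omega
  rw [hc] at h4
  nlinarith [sq_nonneg M, sq_nonneg (p : ℤ)]

end Pool.Agent.Q278.YC
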