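import Pool.Agent.Q278.YH
import Pool.Agent.Q267.Seven.Legendre

/-!
# The trinomial sums modulo `p²`
-/

set_option autoImplicit false

namespace Pool.Agent.Q278.YC

open Finset Pool.Agent.Q267.CDE Q278.PI Pool.Agent.Q278.YA

/-- numerators of the first family -/
def nF (s : ℤ) (i : ℕ) : ℤ := -((3 * i + 1 - s) * (3 * i + 2 - s))

/-- denominators of the first family -/
def dF (s : ℤ) (i : ℕ) : ℤ := 12 * (i + 1) * (6 * (i + 1) - s)

variable {p : ℕ} [hp : Fact p.Prime] {r : ℕ}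

theorem small_nd (hr : p = 6 * r + 1) (x : ℤ) (h0 : 0 < x) (h1 : x < 7) : ¬ (p : ℤ) ∣ x := by
  have h2 := hp.out.two_le
  apply not_dvd_small
  · omega
  · omega
  · omega

theorem dF_nd (hr : p = 6 * r + 1) (i : ℕ) (hi : i + 1 < p) (j : ℤ) :
    ¬ (p : ℤ) ∣ dF (j * p) i := by
  have h2 : ¬ (p : ℤ) ∣ 2 := small_nd hr 2 (by norm_num) (by norm_num)
  have h6 : ¬ (p : ℤ) ∣ 6 := small_nd hr 6 (by norm_num) (by norm_num)
  have h1 : ¬ (p : ℤ) ∣ ((i : ℤ) + 1) := by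
    apply not_dvd_small
    · omega
    · omega
    · omega
  unfold dF
  apply not_dvd_mul
  · apply not_dvd_mul
    · have := not_dvd_mul h2 h6
      norm_num at this
      exact this
    · exact h1
  · have h3 := not_dvd_add (not_dvd_mul h6 h1) (-j)
    have e : 6 * ((i : ℤ) + 1) + -j * p = 6 * (i + 1) - j * p := by ring
    rwa [e] at h3

theorem linF (i : ℕ) : Lin (p := p) 1 2 ((nF 0 i : ℤ) : R p) ((nF p i : ℤ) : R p)
    ((nF (2 * p) i : ℤ) : R p) := by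
  have h := ((Lin.const (p := p) 1 2 (-1)).mul (lin_int p (3 * i + 1) (-1))).mul
    (lin_int p (3 * i + 2) (-1))
  unfold nF
  convert h using 1 <;> push_cast <;> ring

theorem linFd (i : ℕ) : Lin (p := p) 1 2 ((dF 0 i : ℤ) : R p) ((dF p i : ℤ) : R p)
    ((dF (2 * p) i : ℤ) : R p) := by
  have h := (Lin.const (p := p) 1 2 ((12 * (i + 1) : ℤ) : R p)).mul (lin_int p (6 * (i + 1)) (-1))
  unfold dF
  convert h using 1 <;> push_cast <;> ring

/-- the sums -/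
noncomputable def FO (p : ℕ) [Fact p.Prime] (s : ℤ) : O p := ∑ k ∈ range p, PO p (nF s) (dF s) k

/-- the weighted sums -/
noncomputable def WO (p : ℕ) [Fact p.Prime] (s : ℤ) : O p :=
  ∑ k ∈ range p, (k : O p) * PO p (nF s) (dF s) k

theorem FPO_coe (hr : p = 6 * r + 1) (j : ℤ) (k : ℕ) (hk' : k < p) :
    ((PO p (nF (j * p)) (dF (j * p)) k : O p) : ℚ) = F ((j * p : ℤ) : ℚ) k := by
  rw [PO_coe p _ _ k fun i hi => dF_nd hr i (by omega) j]
  unfold F
  refine prod_congr rfl fun i _ => ?_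
  unfold nF dF
  push_cast
  rfl

theorem FO_coe (hr : p = 6 * r + 1) (j : ℤ) :
    ((FO p (j * p) : O p) : ℚ) = ∑ k ∈ range p, F ((j * p : ℤ) : ℚ) k := by
  unfold FO
  rw [AddSubmonoidClass.coe_finsetSum]
  exact sum_congr rfl fun k hk => FPO_coe hr j k (mem_range.1 hk)

theorem WO_coe (hr : p = 6 * r + 1) (j : ℤ) :
    ((WO p (j * p) : O p) : ℚ) = ∑ k ∈ range p, (k : ℚ) * F ((j * p : ℤ) : ℚ) k := by
  unfold WO
  rw [AddSubmonoidClass.coe_finsetSum]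
  refine sum_congr rfl fun k hk => ?_
  push_cast
  rw [← Int.cast_natCast (R := ℚ) p, ← Int.cast_mul, ← FPO_coe hr j k (mem_range.1 hk)]

theorem FPO_lin (hr : p = 6 * r + 1) (k : ℕ) (hk' : k < p) :
    Lin (p := p) 1 2 (res2 p (PO p (nF 0) (dF 0) k)) (res2 p (PO p (nF p) (dF p) k))
      (res2 p (PO p (nF (2 * p)) (dF (2 * p)) k)) := by
  refine PO_lin p 1 2 _ _ _ _ _ _ k ?_ ?_ ?_ ?_ ?_
  · intro i hi
    have := dF_nd hr i (by omega) 0
    rwa [zero_mul] at this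
  · intro i hi
    have := dF_nd hr i (by omega) 1
    rwa [one_mul] at this
  · intro i hi
    exact dF_nd hr i (by omega) 2
  · intro i _
    exact linF i
  · intro i _
    exact linFd i

theorem FO_lin (hr : p = 6 * r + 1) : Lin (p := p) 1 2 (res2 p (FO p 0)) (res2 p (FO p p))
    (res2 p (FO p (2 * p))) := by
  unfold FO
  rw [map_sum, map_sum, map_sum]
  exact Lin.sum _ _ _ p fun k hk => FPO_lin hr k hk

theorem WO_lin (hr : p = 6 * r + 1) : Lin (p := p) 1 2 (res2 p (WO p 0)) (res2 p (WO p p))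
    (res2 p (WO p (2 * p))) := by
  unfold WO
  rw [map_sum, map_sum, map_sum]
  refine Lin.sum _ _ _ p fun k hk => ?_
  rw [map_mul, map_mul, map_mul]
  exact (Lin.const _ _ _).mul (FPO_lin hr k hk)

theorem nd16 (hr : p = 6 * r + 1) : ¬ (p : ℤ) ∣ 16 := by
  have h2 : ¬ (p : ℤ) ∣ 4 := small_nd hr 4 (by norm_num) (by norm_num)
  have := not_dvd_mul h2 h2
  norm_num at this
  exact this

theorem sixteen_one (hr : p = 6 * r + 1) (i : ℕ) (hi : i < r) :
    ¬ (p : ℤ) ∣ 16 * (6 * (i : ℤ) + 1) := not_dvd_mul (nd16 hr) (six_nd hr i hi)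

theorem sixteen_two (hr : p = 6 * r + 1) (i : ℕ) (hi : i < 2 * r) :
    ¬ (p : ℤ) ∣ 16 * (6 * (i : ℤ) + 2) := not_dvd_mul (nd16 hr) (six2_nd hr i hi)

theorem FO_p (hr : p = 6 * r + 1) :
    FO p p = PO p (fun j => 27 * (6 * (j : ℤ) + 2)) (fun j => 16 * (6 * (j : ℤ) + 1)) r := by
  apply Subtype.ext
  have h2 := FO_coe hr 1
  rw [one_mul] at h2
  rw [h2, PO_coe p _ _ r fun i hi => sixteen_one hr i hi]
  have h3 := S1 r p (by omega)
  have h4 : (((p : ℤ) : ℚ)) = 6 * (r : ℚ) + 1 := by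
    rw [hr]; push_cast; ring
  rw [h4, h3]
  refine prod_congr rfl fun j _ => ?_
  push_cast
  rfl

theorem FO_2p (hr : p = 6 * r + 1) :
    FO p (2 * p) = PO p (fun j => 27 * (6 * (j : ℤ) + 3)) (fun j => 16 * (6 * (j : ℤ) + 2)) (2 * r) := by
  apply Subtype.ext
  have h2 := FO_coe hr 2
  rw [h2, PO_coe p _ _ (2 * r) fun i hi => sixteen_two hr i hi]
  have h3 := S2 (2 * r) p (by omega)
  have h4 : (((2 * p : ℤ)) : ℚ) = 6 * ((2 * r : ℕ) : ℚ) + 2 := by
    rw [hr]; push_cast; ring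
  rw [h4, h3]
  refine prod_congr rfl fun j _ => ?_
  push_cast
  rfl

theorem WO_p (hr : p = 6 * r + 1) : 9 * WO p p = ((p : O p) - 1) * FO p p := by
  apply Subtype.ext
  have h1 := WO_coe hr 1
  have h2 := FO_coe hr 1
  rw [one_mul] at h1 h2
  have h3 := W1 r p (by omega)
  have h4 : (((p : ℤ) : ℚ)) = 6 * (r : ℚ) + 1 := by
    rw [hr]; push_cast; ring
  have h5 : ((p : ℕ) : ℚ) = 6 * (r : ℚ) + 1 := by exact_mod_cast h4
  have e1 : ((9 * WO p p : O p) : ℚ) = 9 * ((WO p p : O p) : ℚ) := by push_cast; rfl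
  have e2 : ((((p : O p) - 1) * FO p p : O p) : ℚ) =
      (((p : ℕ) : ℚ) - 1) * ((FO p p : O p) : ℚ) := by
    push_cast; rfl
  rw [e1, e2, h1, h2, h4, h5, mul_sum, mul_sum, ← sub_eq_zero, ← sum_sub_distrib, ← h3]
  refine sum_congr rfl fun k _ => ?_
  ring

/-- the exceptional product -/
noncomputable def ZO (p : ℕ) [Fact p.Prime] (r : ℕ) : O p :=
  PO p (fun j => 27 * (6 * (j : ℤ) + 7)) (fun j => 16 * (6 * (j : ℤ) + 2)) (2 * r)

theorem WO_2p (hr : p = 6 * r + 1) :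
    9 * WO p (2 * p) = (2 * (p : O p) - 1) * FO p (2 * p) - ZO p r := by
  apply Subtype.ext
  have h1 := WO_coe hr 2
  have h2 := FO_coe hr 2
  have h3 := W2 (2 * r) p (by omega)
  have h4 : (((2 * p : ℤ)) : ℚ) = 6 * ((2 * r : ℕ) : ℚ) + 2 := by
    rw [hr]; push_cast; ring
  have h5 : 2 * ((p : ℕ) : ℚ) - 1 = 6 * ((2 * r : ℕ) : ℚ) + 1 := by
    rw [hr]; push_cast; ring
  have h6 : ((ZO p r : O p) : ℚ) =
      ∏ j ∈ range (2 * r), (27 * (6 * (j : ℚ) + 7) / (16 * (6 * j + 2))) := by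
    unfold ZO
    rw [PO_coe p _ _ (2 * r) fun i hi => sixteen_two hr i hi]
    refine prod_congr rfl fun j _ => ?_
    push_cast
    rfl
  have e1 : ((9 * WO p (2 * p) : O p) : ℚ) = 9 * ((WO p (2 * p) : O p) : ℚ) := by push_cast; rfl
  have e2 : (((2 * (p : O p) - 1) * FO p (2 * p) - ZO p r : O p) : ℚ) =
      (2 * ((p : ℕ) : ℚ) - 1) * ((FO p (2 * p) : O p) : ℚ) - ((ZO p r : O p) : ℚ) := by
    push_cast; rfl
  rw [e1, e2, h1, h2, h4, h5, h6, mul_sum, mul_sum]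
  rw [← sub_eq_zero, sub_sub_eq_add_sub, add_comm, ← add_sub, ← sum_sub_distrib]
  have h7 : ∑ k ∈ range p, (9 * ((k : ℚ) * F (6 * ((2 * r : ℕ) : ℚ) + 2) k) -
      (6 * ((2 * r : ℕ) : ℚ) + 1) * F (6 * ((2 * r : ℕ) : ℚ) + 2) k) =
      -∏ j ∈ range (2 * r), (27 * (6 * (j : ℚ) + 7) / (16 * (6 * j + 2))) := by
    rw [← h3]
    refine sum_congr rfl fun k _ => ?_
    ring
  rw [h7]
  ring

end Pool.Agent.Q278.YC
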