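import Pool.Agent.Q278.YJ

/-!
# The reflection of the trinomial sums modulo `p²`
-/

set_option autoImplicit false

namespace Pool.Agent.Q278.YC

open Finset Pool.Agent.Q267.CDE Q278.PI Pool.Agent.Q278.YA Polynomial

/-- coefficients of the shifted Legendre polynomials -/
noncomputable def lc (n k : ℕ) : ℤ := (shiftedLegendre n).coeff k

theorem lc_eq (n k : ℕ) : lc n k = Pool.Agent.Q267.Seven.dl n k := by
  unfold lc Pool.Agent.Q267.Seven.dl
  rw [coeff_shiftedLegendre, Nat.choose_symm_add]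

theorem lc_succ (n k : ℕ) : lc n (k + 1) * ((k : ℤ) + 1) ^ 2 =
    ((k : ℤ) - n) * (k + n + 1) * lc n k := by
  rw [lc_eq, lc_eq, Pool.Agent.Q267.Seven.dl_succ]
  ring

variable {p : ℕ}

/-- the shifted Legendre polynomial over `ℤ/p²` -/
noncomputable def LP (p n : ℕ) : (R p)[X] := (shiftedLegendre n).map (Int.castRingHom (R p))

theorem LP_symm (n : ℕ) (hn : Even n) : (LP p n).comp (1 - X) = LP p n := by
  have h := neg_one_pow_mul_shiftedLegendre_comp_one_sub_X_eq n
  rw [hn.neg_one_pow, one_mul] at h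
  have h1 := congrArg (Polynomial.map (Int.castRingHom (R p))) h
  rw [Polynomial.map_comp] at h1
  unfold LP
  simpa using h1

theorem LP_eval (n N : ℕ) (hN : n < N) (x : R p) :
    (LP p n).eval x = ∑ k ∈ range N, ((lc n k : ℤ) : R p) * x ^ k := by
  have hd : (LP p n).natDegree < N := by
    refine lt_of_le_of_lt ?_ hN
    unfold LP
    refine (natDegree_map_le).trans ?_
    rw [natDegree_shiftedLegendre]
  rw [eval_eq_sum_range' hd]
  refine sum_congr rfl fun k _ => ?_
  unfold LP lc
  rw [coeff_map]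
  rfl

theorem LP_deriv (n N : ℕ) (hN : n < N) (x : R p) :
    x * (derivative (LP p n)).eval x = ∑ k ∈ range N, (k : R p) * (((lc n k : ℤ) : R p) * x ^ k) := by
  have hd : (X * derivative (LP p n)).natDegree < N := by
    refine lt_of_le_of_lt ?_ hN
    have h1 : (LP p n).natDegree ≤ n := by
      unfold LP
      refine (natDegree_map_le).trans ?_
      rw [natDegree_shiftedLegendre]
    rcases Nat.eq_zero_or_pos (LP p n).natDegree with h0 | h0
    · rw [natDegree_eq_zero.1 h0 |>.choose_spec.symm]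
      simp
    · refine natDegree_mul_le.trans ?_
      have h2 := natDegree_derivative_le (LP p n)
      have h3 := natDegree_X_le (R := R p)
      omega
  have h : x * (derivative (LP p n)).eval x = (X * derivative (LP p n)).eval x := by
    rw [eval_mul, eval_X]
  rw [h, eval_eq_sum_range' hd]
  refine sum_congr rfl fun k _ => ?_
  rcases k with _ | k
  · rw [mul_coeff_zero, coeff_X_zero]
    push_cast
    ring
  · rw [coeff_X_mul, coeff_derivative]
    unfold LP lc
    rw [coeff_map]
    push_cast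
    simp only [eq_intCast]
    ring

theorem refl_sum (n N : ℕ) (hN : n < N) (hn : Even n) (x : R p) :
    ∑ k ∈ range N, ((lc n k : ℤ) : R p) * (1 - x) ^ k =
      ∑ k ∈ range N, ((lc n k : ℤ) : R p) * x ^ k := by
  rw [← LP_eval n N hN, ← LP_eval n N hN]
  conv_rhs => rw [← LP_symm n hn]
  rw [eval_comp]
  simp

theorem refl_deriv (n N : ℕ) (hN : n < N) (hn : Even n) (x : R p) :
    x * ∑ k ∈ range N, (k : R p) * (((lc n k : ℤ) : R p) * (1 - x) ^ k) =
      -((1 - x) * ∑ k ∈ range N, (k : R p) * (((lc n k : ℤ) : R p) * x ^ k)) := by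
  rw [← LP_deriv n N hN, ← LP_deriv n N hN]
  have h := congrArg (fun q => (derivative q).eval x) (LP_symm (p := p) n hn)
  simp only [derivative_comp, eval_mul, eval_comp] at h
  simp only [derivative_sub, derivative_one, derivative_X, eval_sub, eval_zero, eval_one, eval_X] at h
  linear_combination (-(x * (1 - x))) * h

variable [hp : Fact p.Prime] {r : ℕ}

/-- `T_k / 27^k` -/
noncomputable def aO (p : ℕ) [Fact p.Prime] (k : ℕ) : O p :=
  PO p (fun i => (3 * (i : ℤ) + 1) * (3 * i + 2)) (fun i => 9 * ((i : ℤ) + 1) ^ 2) k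

theorem nine_nd (hr : p = 6 * r + 1) (i : ℕ) (hi : i + 1 < p) : ¬ (p : ℤ) ∣ 9 * ((i : ℤ) + 1) ^ 2 := by
  have h3 : ¬ (p : ℤ) ∣ 3 := small_nd hr 3 (by norm_num) (by norm_num)
  have h1 : ¬ (p : ℤ) ∣ ((i : ℤ) + 1) := by
    apply not_dvd_small
    · omega
    · omega
    · omega
  have h := not_dvd_mul (not_dvd_mul h3 h3) (not_dvd_mul h1 h1)
  have e : 3 * 3 * (((i : ℤ) + 1) * (i + 1)) = 9 * ((i : ℤ) + 1) ^ 2 := by ring
  rwa [e] at h

theorem aO_succ (hr : p = 6 * r + 1) (k : ℕ) (hk : k + 1 < p) :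
    res2 p (aO p (k + 1)) * (9 * ((k : R p) + 1) ^ 2) =
      res2 p (aO p k) * ((3 * (k : R p) + 1) * (3 * k + 2)) := by
  have h := res2_invI p _ (nine_nd hr k hk)
  unfold aO PO
  rw [prod_range_succ, map_mul, map_mul, map_intCast]
  generalize res2 p (∏ x ∈ range k, _) = P
  push_cast at h ⊢
  linear_combination (P * ((3 * (k : R p) + 1) * (3 * k + 2))) * h

theorem aO_lin (hr : p = 6 * r + 1) (k : ℕ) (hk : k < p) :
    Lin (p := p) 1 (-2) (res2 p (aO p k)) ((lc (2 * r) k : ℤ) : R p) ((lc (4 * r) k : ℤ) : R p) := by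
  induction k with
  | zero =>
    have h1 : res2 p (aO p 0) = 1 := by
      unfold aO PO
      rw [prod_range_zero, map_one]
    rw [h1, lc_eq, lc_eq]
    unfold Pool.Agent.Q267.Seven.dl
    simp only [pow_zero, Nat.choose_zero_right, Nat.cast_one, mul_one, Int.cast_one]
    exact Lin.const _ _ _
  | succ k ih =>
    have ih := ih (by omega)
    have h0 := castp (p := p) hr
    have hu := isUnit_int p _ (nine_nd hr k (by omega))
    obtain ⟨v, hv⟩ := hu.exists_right_inv
    push_cast at hv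
    have h1 := aO_succ hr k hk
    have h2 := congrArg (Int.cast : ℤ → R p) (lc_succ (2 * r) k)
    have h3 := congrArg (Int.cast : ℤ → R p) (lc_succ (4 * r) k)
    push_cast at h2 h3
    have l1 := (lin_int' p (3 * k + 1) (-1)).mul (lin_int' p (3 * k + 2) 1)
    have l2 := (ih.mul l1).mul (Lin.const (p := p) 1 (-2) v)
    push_cast at l2
    convert l2 using 1
    · linear_combination v * h1 - res2 p (aO p (k + 1)) * hv
    · rw [h0]
      linear_combination (9 * v) * h2 - ((lc (2 * r) (k + 1) : ℤ) : R p) * hv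
    · rw [h0]
      linear_combination (9 * v) * h3 - ((lc (4 * r) (k + 1) : ℤ) : R p) * hv

theorem three_a (hr : p = 6 * r + 1) (k : ℕ) (hk : k < p) :
    3 * res2 p (aO p k) = 2 * ((lc (2 * r) k : ℤ) : R p) + ((lc (4 * r) k : ℤ) : R p) :=
  (aO_lin hr k hk).eval'

theorem unit_three' (hr : p = 6 * r + 1) : IsUnit (3 : R p) := by
  have h := isUnit_int p 3 (small_nd hr 3 (by norm_num) (by norm_num))
  push_cast at h
  exact h

theorem refl_a (hr : p = 6 * r + 1) (x : R p) :
    ∑ k ∈ range p, res2 p (aO p k) * (1 - x) ^ k = ∑ k ∈ range p, res2 p (aO p k) * x ^ k := by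
  apply (unit_three' hr).mul_left_cancel
  have h : ∀ y : R p, 3 * ∑ k ∈ range p, res2 p (aO p k) * y ^ k =
      2 * ∑ k ∈ range p, ((lc (2 * r) k : ℤ) : R p) * y ^ k +
        ∑ k ∈ range p, ((lc (4 * r) k : ℤ) : R p) * y ^ k := by
    intro y
    rw [mul_sum, mul_sum, ← sum_add_distrib]
    refine sum_congr rfl fun k hk => ?_
    linear_combination (y ^ k) * three_a hr k (mem_range.1 hk)
  rw [h, h, refl_sum (2 * r) p (by omega) (even_two_mul r),
    refl_sum (4 * r) p (by omega) ⟨2 * r, by ring⟩]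

theorem refl_ka (hr : p = 6 * r + 1) (x : R p) :
    x * ∑ k ∈ range p, (k : R p) * (res2 p (aO p k) * (1 - x) ^ k) =
      -((1 - x) * ∑ k ∈ range p, (k : R p) * (res2 p (aO p k) * x ^ k)) := by
  apply (unit_three' hr).mul_left_cancel
  have h : ∀ y : R p, 3 * ∑ k ∈ range p, (k : R p) * (res2 p (aO p k) * y ^ k) =
      2 * ∑ k ∈ range p, (k : R p) * (((lc (2 * r) k : ℤ) : R p) * y ^ k) +
        ∑ k ∈ range p, (k : R p) * (((lc (4 * r) k : ℤ) : R p) * y ^ k) := by
    intro y
    rw [mul_sum, mul_sum, ← sum_add_distrib]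
    refine sum_congr rfl fun k hk => ?_
    linear_combination (k * y ^ k) * three_a hr k (mem_range.1 hk)
  have h1 := h (1 - x)
  have h2 := h x
  have h3 := refl_deriv (2 * r) p (by omega) (even_two_mul r) x
  have h4 := refl_deriv (4 * r) p (by omega) ⟨2 * r, by ring⟩ x
  linear_combination x * h1 + (1 - x) * h2 + 2 * h3 + h4

end Pool.Agent.Q278.YC
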