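import Pool.Agent.Q279.QS.Theta

/-!
# Theta identities of level 6 and 12 from lattice bijections
-/

set_option autoImplicit false

namespace ZT

open PowerSeries Q279.QS

variable {ι κ κ' : Type*}

theorem TS_split {Φ : κ ⊕ κ' → ι} (hΦ : Function.Bijective Φ) {e : ι → ℤ} (he : FF e)
    (c : ι → ℤ) : TS e c =
      TS (fun k => e (Φ (Sum.inl k))) (fun k => c (Φ (Sum.inl k))) +
      TS (fun k => e (Φ (Sum.inr k))) (fun k => c (Φ (Sum.inr k))) := by
  have h := TS_equiv (Equiv.ofBijective Φ hΦ) e c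
  simp only [Equiv.ofBijective_apply] at h
  have h2 : FF fun k => e (Φ k) := he.comp_injective hΦ.1
  rw [← h, TS_sum_type h2]

theorem TS_zero (e : ι → ℤ) : TS e (fun _ => (0 : ℤ)) = 0 := by
  ext n
  rw [map_zero]
  exact coeff_TS_of_zero fun _ _ => rfl

/-- `∑ X^{n(2n-1)}` -/
noncomputable def psi : ℤ⟦X⟧ := TS (fun n : ℤ => 2 * n ^ 2 - n) (fun _ => (1 : ℤ))

/-- `psi(X^3)` -/
noncomputable def psi3 : ℤ⟦X⟧ := TS (fun n : ℤ => 3 * (2 * n ^ 2 - n)) (fun _ => (1 : ℤ))

/-- `∑ (6n+1) X^{n(3n+1)/2}` -/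
noncomputable def P1 : ℤ⟦X⟧ := TS (te 2 1) (fun n : ℤ => 6 * n + 1)

/-- `∑ X^{n(3n+1)/2}` -/
noncomputable def f12 : ℤ⟦X⟧ := TS (te 2 1) (fun _ => (1 : ℤ))

/-- `∑ (3n+1) X^{n(3n+2)}` -/
noncomputable def P2 : ℤ⟦X⟧ := TS (fun n : ℤ => 3 * n ^ 2 + 2 * n) (fun n => 3 * n + 1)

/-- `∑ X^{n^2}` -/
noncomputable def fi : ℤ⟦X⟧ := TS (fun n : ℤ => n ^ 2) (fun _ => (1 : ℤ))

theorem FF_e2 : FF fun n : ℤ => 2 * n ^ 2 - n := fun m =>
  (Set.finite_Icc (-m) m).subset fun n hn => by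
    have h2 : 2 * n ^ 2 - n = m := hn
    rw [Set.mem_Icc]
    constructor <;> nlinarith [sq_nonneg (n - 1), sq_nonneg (n + 1), Int.le_self_sq n,
      Int.le_self_sq (-n)]

theorem e2_nonneg (n : ℤ) : 0 ≤ 2 * n ^ 2 - n := by
  nlinarith [Int.le_self_sq n, sq_nonneg n]

theorem FF_e3 : FF fun n : ℤ => 3 * (2 * n ^ 2 - n) := fun m =>
  (Set.finite_Icc (-m) m).subset fun n hn => by
    have h2 : 3 * (2 * n ^ 2 - n) = m := hn
    rw [Set.mem_Icc]
    constructor <;> nlinarith [sq_nonneg (n - 1), sq_nonneg (n + 1), Int.le_self_sq n,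
      Int.le_self_sq (-n)]

theorem e3_nonneg (n : ℤ) : 0 ≤ 3 * (2 * n ^ 2 - n) := by
  have := e2_nonneg n; linarith

theorem FF_e4 : FF fun n : ℤ => 3 * n ^ 2 + 2 * n := fun m =>
  (Set.finite_Icc (-m) m).subset fun n hn => by
    have h2 : 3 * n ^ 2 + 2 * n = m := hn
    rw [Set.mem_Icc]
    constructor <;> nlinarith [sq_nonneg (n - 1), sq_nonneg (n + 1), Int.le_self_sq n,
      Int.le_self_sq (-n)]

theorem e4_nonneg (n : ℤ) : 0 ≤ 3 * n ^ 2 + 2 * n := by
  have := Int.le_self_sq (-n)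
  nlinarith [sq_nonneg n]

theorem FF_te21 : FF (te 2 1) := FF_te (by norm_num) le_rfl

theorem FF_smul {e : ι → ℤ} (he : FF e) (k : ℤ) (hk : k ≠ 0) : FF fun i => k * e i := by
  intro n
  by_cases h : ∃ m, k * m = n
  · obtain ⟨m, rfl⟩ := h
    refine (he m).subset fun i hi => ?_
    exact mul_left_cancel₀ hk hi
  · refine Set.Finite.subset Set.finite_empty fun i hi => ?_
    exact absurd ⟨e i, hi⟩ h

theorem psi3_eq : psi3 = expand 3 (by norm_num) psi := by
  unfold psi3 psi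
  rw [expand_TS]
  rfl

theorem gpsi : eul 2 ^ 2 = eul 1 * psi := gauss_psi

theorem gpsi3 : eul 6 ^ 2 = eul 3 * psi3 := by
  have h := congrArg (expand 3 (by norm_num)) gpsi
  rw [map_pow, map_mul, expand_eul _ (by norm_num), expand_eul _ (by norm_num), ← psi3_eq] at h
  exact h

theorem gP1 : eul 1 ^ 5 = eul 2 ^ 2 * P1 := quint

/-! ### `∑_{i ∈ ℤ} X^{i(i+1)/2} = 2 ψ` -/

def phiA : ℤ ⊕ ℤ → ℤ
  | Sum.inl n => 2 * n - 1
  | Sum.inr n => - (2 * n)

theorem phiA_bij : Function.Bijective phiA := by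
  constructor
  · rintro (a | a) (b | b) h <;> simp only [phiA] at h
    · have : a = b := by omega
      rw [this]
    · exfalso; omega
    · exfalso; omega
    · have : a = b := by omega
      rw [this]
  · intro i
    rcases Int.even_or_odd' i with ⟨k, h | h⟩
    · refine ⟨Sum.inr (-k), ?_⟩
      simp only [phiA]; omega
    · refine ⟨Sum.inl (k + 1), ?_⟩
      simp only [phiA]; omega

theorem TS_up_one : TS up (fun _ => (1 : ℤ)) = 2 * psi := by
  rw [TS_split phiA_bij FF_up]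
  have h1 : TS (fun k => up (phiA (Sum.inl k))) (fun _ => (1 : ℤ)) = psi := by
    refine TS_congr (fun n => ?_) fun _ => rfl
    simp only [phiA]
    have := two_up (2 * n - 1)
    linarith
  have h2 : TS (fun k => up (phiA (Sum.inr k))) (fun _ => (1 : ℤ)) = psi := by
    refine TS_congr (fun n => ?_) fun _ => rfl
    simp only [phiA]
    have := two_up (-(2 * n))
    linarith
  rw [h1, h2]
  ring

/-! ### the first Wronskian -/

def phiB : (ℤ × ℤ) ⊕ (ℤ × ℤ) → ℤ × ℤ
  | Sum.inl (s, d) => (-(s + 1 + d), s - d)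
  | Sum.inr (s, d) => (-s - 1 + 2 * d, -s - 1)

theorem phiB_bij : Function.Bijective phiB := by
  constructor
  · rintro (⟨s, d⟩ | ⟨s, d⟩) (⟨s', d'⟩ | ⟨s', d'⟩) h <;> simp only [phiB, Prod.mk.injEq] at h
    · have : s = s' := by omega
      have : d = d' := by omega
      simp [*]
    · exfalso; omega
    · exfalso; omega
    · have : s = s' := by omega
      have : d = d' := by omega
      simp [*]
  · rintro ⟨i, j⟩
    rcases Int.even_or_odd' (i + j) with ⟨k, h | h⟩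
    · refine ⟨Sum.inr (-j - 1, k - j), ?_⟩
      simp only [phiB, Prod.mk.injEq]; omega
    · refine ⟨Sum.inl (j - k - 1, -1 - k), ?_⟩
      simp only [phiB, Prod.mk.injEq]; omega

theorem up_eq (i u : ℤ) (h : i * (i + 1) = 2 * u) : up i = u := by
  have := two_up i; linarith

theorem C_aux : TS (fun p : ℤ × ℤ => up p.1 + 3 * up p.2)
    (fun p => 1 + 12 * up p.2 - 4 * up p.1 - sg (p.1 + p.2) * ((2 * p.1 + 1) * (2 * p.2 + 1))) = 0 := by
  have hF := FF_up.add (FF_smul FF_up 3 (by norm_num)) up_nonneg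
    (fun i => by have := up_nonneg i; linarith)
  rw [TS_split phiB_bij hF]
  have hF1 : FF fun k : ℤ × ℤ => up (phiB (Sum.inl k)).1 + 3 * up (phiB (Sum.inl k)).2 :=
    hF.comp_injective (phiB_bij.1.comp Sum.inl_injective)
  have h2 : TS (fun k : ℤ × ℤ => up (phiB (Sum.inr k)).1 + 3 * up (phiB (Sum.inr k)).2)
      (fun k => 1 + 12 * up (phiB (Sum.inr k)).2 - 4 * up (phiB (Sum.inr k)).1 -
        sg ((phiB (Sum.inr k)).1 + (phiB (Sum.inr k)).2) *
          ((2 * (phiB (Sum.inr k)).1 + 1) * (2 * (phiB (Sum.inr k)).2 + 1))) =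
      TS (fun k : ℤ × ℤ => up (phiB (Sum.inl k)).1 + 3 * up (phiB (Sum.inl k)).2)
      (fun k => -(1 + 12 * up (phiB (Sum.inl k)).2 - 4 * up (phiB (Sum.inl k)).1 -
        sg ((phiB (Sum.inl k)).1 + (phiB (Sum.inl k)).2) *
          ((2 * (phiB (Sum.inl k)).1 + 1) * (2 * (phiB (Sum.inl k)).2 + 1)))) := by
    refine TS_congr ?_ ?_
    · rintro ⟨s, d⟩
      simp only [phiB]
      have a1 := two_up (-s - 1 + 2 * d)
      have a2 := two_up (-s - 1)
      have a3 := two_up (-(s + 1 + d))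
      have a4 := two_up (s - d)
      linarith
    · rintro ⟨s, d⟩
      simp only [phiB]
      have a1 := two_up (-s - 1 + 2 * d)
      have a2 := two_up (-s - 1)
      have a3 := two_up (-(s + 1 + d))
      have a4 := two_up (s - d)
      have b1 : sg (-s - 1 + 2 * d + (-s - 1)) = 1 := by
        rw [show -s - 1 + 2 * d + (-s - 1) = 2 * (d - s - 1) by ring, sg_two_mul]
      have b2 : sg (-(s + 1 + d) + (s - d)) = -1 := by
        rw [show -(s + 1 + d) + (s - d) = 2 * (-d) - 1 by ring, sg_sub, sg_two_mul, sg_one]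
        ring
      rw [b1, b2]
      linarith
  rw [h2, TS_neg, add_neg_cancel]

theorem four_ne : (4 : ℤ⟦X⟧) ≠ 0 := by
  intro h
  have := congrArg (constantCoeff (R := ℤ)) h
  rw [map_ofNat, map_zero] at this
  norm_num at this

/-- the first Wronskian identity -/
theorem wronA : psi * psi3 + 4 * (psi * th psi3 - psi3 * th psi) = eul 1 ^ 3 * eul 3 ^ 3 := by
  have hU3 : FF fun i : ℤ => 3 * up i := FF_smul FF_up 3 (by norm_num)
  have n3 : ∀ i : ℤ, 0 ≤ 3 * up i := fun i => by have := up_nonneg i; linarith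
  have hA := TS_up_one
  have hB : TS (fun i => 3 * up i) (fun _ => (1 : ℤ)) = 2 * psi3 := by
    have h := congrArg (expand 3 (by norm_num)) TS_up_one
    rw [expand_TS, map_mul, ← psi3_eq, map_ofNat] at h
    exact h
  have hE1 : 2 * eul 1 ^ 3 = TS up (fun i => sg i * (2 * i + 1)) := by
    have h : TS up (fun i => sg i * (2 * i + 1)) =
        TS up (fun i => sg i * i) + TS up (fun i => sg i * i) + TS up (fun i => sg i) := by
      rw [← TS_add FF_up, ← TS_add FF_up]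
      exact TS_congr (fun _ => rfl) fun i => by ring
    rw [h, TS_up_sg, ← jacobi_int]
    ring
  have hE3 : 2 * eul 3 ^ 3 = TS (fun i => 3 * up i) (fun i => sg i * (2 * i + 1)) := by
    have h := congrArg (expand 3 (by norm_num)) hE1
    rw [expand_TS, map_mul, map_pow, map_ofNat, expand_eul _ (by norm_num)] at h
    exact h
  have hFF := FF_up.add hU3 up_nonneg n3
  have key : (2 * psi) * (2 * psi3) + 4 * ((2 * psi) * th (2 * psi3) - th (2 * psi) * (2 * psi3)) -
      (2 * eul 1 ^ 3) * (2 * eul 3 ^ 3) = 0 := by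
    rw [← hA, ← hB, hE1, hE3, th_TS FF_up, th_TS hU3, TS_mul FF_up hU3 up_nonneg n3,
      TS_mul FF_up hU3 up_nonneg n3, TS_mul FF_up hU3 up_nonneg n3, TS_mul FF_up hU3 up_nonneg n3,
      ← TS_sub hFF]
    have h4 : (4 : ℤ⟦X⟧) = C 4 := by simp
    rw [h4, ← TS_smul 4 hFF, ← TS_add hFF, ← TS_sub hFF, ← C_aux]
    refine TS_congr (fun _ => rfl) ?_
    rintro ⟨i, j⟩
    simp only [sg_add]
    ring
  have t2 : ∀ F : ℤ⟦X⟧, th (2 * F) = 2 * th F := by
    intro F
    ext n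
    rw [two_mul, two_mul, th_add]
  rw [t2, t2] at key
  have h4 : (4 : ℤ⟦X⟧) * (psi * psi3 + 4 * (psi * th psi3 - psi3 * th psi) -
      eul 1 ^ 3 * eul 3 ^ 3) = 0 := by linear_combination key
  exact sub_eq_zero.1 ((mul_eq_zero.1 h4).resolve_left four_ne)

/-! ### the second Wronskian -/

def phiC : (ℤ × ℤ) ⊕ (ℤ × ℤ) → ℤ × ℤ
  | Sum.inl (r, n) => (2 * r, n)
  | Sum.inr (r, n) => (2 * r + 1, n)

theorem phiC_bij : Function.Bijective phiC := by
  constructor
  · rintro (⟨s, d⟩ | ⟨s, d⟩) (⟨s', d'⟩ | ⟨s', d'⟩) h <;> simp only [phiC, Prod.mk.injEq] at h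
    · have : s = s' := by omega
      have : d = d' := by omega
      simp [*]
    · exfalso; omega
    · exfalso; omega
    · have : s = s' := by omega
      have : d = d' := by omega
      simp [*]
  · rintro ⟨i, j⟩
    rcases Int.even_or_odd' i with ⟨k, h | h⟩
    · exact ⟨Sum.inl (k, j), by rw [h]; rfl⟩
    · exact ⟨Sum.inr (k, j), by rw [h]; rfl⟩

def phiD : (ℤ × ℤ) ⊕ (ℤ × ℤ) → ℤ × ℤ
  | Sum.inl (r, n) => (-n - r, r - n)
  | Sum.inr (r, n) => (n - r - 1, n + r)

theorem phiD_bij : Function.Bijective phiD := by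
  constructor
  · rintro (⟨s, d⟩ | ⟨s, d⟩) (⟨s', d'⟩ | ⟨s', d'⟩) h <;> simp only [phiD, Prod.mk.injEq] at h
    · have : s = s' := by omega
      have : d = d' := by omega
      simp [*]
    · exfalso; omega
    · exfalso; omega
    · have : s = s' := by omega
      have : d = d' := by omega
      simp [*]
  · rintro ⟨i, j⟩
    rcases Int.even_or_odd' (i + j) with ⟨k, h | h⟩
    · refine ⟨Sum.inl (j - k, -k), ?_⟩
      simp only [phiD, Prod.mk.injEq]; omega
    · refine ⟨Sum.inr (j - k - 1, k + 1), ?_⟩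
      simp only [phiD, Prod.mk.injEq]; omega

theorem two_te21 (n : ℤ) : 2 * te 2 1 n = 3 * n ^ 2 + n := by
  have := two_tri n
  unfold te
  push_cast
  linarith

theorem te21_nonneg (n : ℤ) : 0 ≤ te 2 1 n := te_nonneg 2 1 n

theorem wronB : f12 * psi3 + 3 * (f12 * th psi3 - psi3 * th f12) =
    expand 2 (by norm_num) P1 * P2 := by
  have hFa := FF_te21
  have hFb := FF_e3
  have hFF := hFa.add hFb te21_nonneg e3_nonneg
  have hFc : FF fun n : ℤ => ((2 : ℕ) : ℤ) * te 2 1 n := FF_smul hFa _ (by norm_num)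
  have nc : ∀ n : ℤ, 0 ≤ ((2 : ℕ) : ℤ) * te 2 1 n := fun n => by
    have := te21_nonneg n; push_cast; linarith
  have hFF2 := hFc.add FF_e4 nc e4_nonneg
  have h3 : (3 : ℤ⟦X⟧) = C 3 := by simp
  have l1 : f12 * psi3 + 3 * (f12 * th psi3 - th f12 * psi3) =
      TS (fun p : ℤ × ℤ => te 2 1 p.1 + 3 * (2 * p.2 ^ 2 - p.2))
        (fun p => 1 + 9 * (2 * p.2 ^ 2 - p.2) - 3 * te 2 1 p.1) := by
    unfold f12 psi3
    rw [th_TS hFa, th_TS hFb, TS_mul hFa hFb te21_nonneg e3_nonneg,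
      TS_mul hFa hFb te21_nonneg e3_nonneg, TS_mul hFa hFb te21_nonneg e3_nonneg, ← TS_sub hFF, h3,
      ← TS_smul 3 hFF, ← TS_add hFF]
    refine TS_congr (fun _ => rfl) ?_
    rintro ⟨i, j⟩
    ring
  have l2 : expand 2 (by norm_num) P1 * P2 =
      TS (fun p : ℤ × ℤ => ((2 : ℕ) : ℤ) * te 2 1 p.1 + (3 * p.2 ^ 2 + 2 * p.2))
        (fun p => (6 * p.1 + 1) * (3 * p.2 + 1)) := by
    unfold P1 P2
    rw [expand_TS, TS_mul hFc FF_e4 nc e4_nonneg]
  rw [mul_comm psi3, l1, l2, TS_split phiC_bij hFF, TS_split phiD_bij hFF2]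
  congr 1
  · refine TS_congr ?_ ?_
    · rintro ⟨r, n⟩
      simp only [phiC, phiD]
      have a1 := two_te21 (2 * r)
      have a2 := two_te21 (-n - r)
      push_cast
      linarith
    · rintro ⟨r, n⟩
      simp only [phiC, phiD]
      have a1 := two_te21 (2 * r)
      linarith
  · refine TS_congr ?_ ?_
    · rintro ⟨r, n⟩
      simp only [phiC, phiD]
      have a1 := two_te21 (2 * r + 1)
      have a2 := two_te21 (n - r - 1)
      push_cast
      linarith
    · rintro ⟨r, n⟩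
      simp only [phiC, phiD]
      have a1 := two_te21 (2 * r + 1)
      linarith

end ZT
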