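import Pool.Agent.Q278.ZA

/-!
# Product formulas for `P2` and `f12`
-/

set_option autoImplicit false

namespace ZT

open PowerSeries Q279.QS Filter Topology
open scoped PowerSeries.WithPiTopology

variable {ι : Type*}

theorem X_mul_TS {e : ι → ℤ} (h0 : ∀ i, 0 ≤ e i) (c : ι → ℤ) :
    X * TS e c = TS (fun i => e i + 1) c := by
  classical
  ext n
  rcases n with _ | n
  · rw [coeff_zero_X_mul]
    symm
    refine coeff_TS_of_zero fun i hi => ?_
    have := h0 i
    simp only [Nat.cast_zero] at hi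
    omega
  · rw [coeff_succ_X_mul, coeff_TS, coeff_TS]
    refine finsum_congr fun i => if_congr ?_ rfl rfl
    push_cast
    constructor <;> intro h <;> linarith

/-- `∑ (-1)^n X^{n^2}` -/
noncomputable def fim : ℤ⟦X⟧ := TS (fun n : ℤ => n ^ 2) (fun n => sg n)

theorem gfim : eul 1 ^ 2 = eul 2 * fim := by
  rw [gauss_phi]
  congr 1
  exact TS_congr (fun _ => rfl) neg_one_pow_natAbs

theorem sg_sq_nat (i : ℤ) (n : ℕ) (h : i ^ 2 = n) : (-1 : ℤ) ^ n = sg i := by
  rw [← sg_natCast, ← h]
  have h1 : i ^ 2 = i + i * (i - 1) := by ring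
  rw [h1, sg_add]
  have h2 : sg (i * (i - 1)) = 1 := by
    obtain ⟨k, hk⟩ := Int.even_mul_pred_self i
    rw [hk, ← two_mul, sg_two_mul]
  rw [h2, mul_one]

theorem ng_fim : ng fim = fi := by
  classical
  ext n
  rw [coeff_rescale]
  unfold fim fi
  rw [coeff_TS, coeff_TS, ← smul_eq_mul, smul_finsum]
  refine finsum_congr fun i => ?_
  split_ifs with h
  · rw [sg_sq_nat i n h, smul_eq_mul, sg_mul_self]
  · simp

theorem ng_eul_one : ng (eul 1) * eul 1 * eul 4 = eul 2 ^ 3 := by
  have h1 : ng (oddP 1) = oddP (-1) := by rw [← ng_oddP, ng_ng]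
  have h2 : ng (eul 1) = oddP (-1) * eul 2 := by
    conv_lhs => rw [eul_one_eq]
    rw [map_mul, h1, ng_eul_two]
  rw [h2]
  linear_combination eul 2 * oddP_neg

theorem gfi : eul 2 ^ 5 = eul 1 ^ 2 * eul 4 ^ 2 * fi := by
  have h1 := congrArg ng gfim
  rw [map_pow, map_mul, ng_eul_two, ng_fim] at h1
  have h2 := ng_eul_one
  have h3 : eul 2 * (eul 2 ^ 5 - eul 1 ^ 2 * eul 4 ^ 2 * fi) = 0 := by
    linear_combination (-(ng (eul 1) * eul 1 * eul 4 + eul 2 ^ 3)) * h2 +
      eul 1 ^ 2 * eul 4 ^ 2 * h1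
  exact sub_eq_zero.1 ((mul_eq_zero.1 h3).resolve_left (eul_ne_zero (by norm_num)))

/-! ### dissections -/

def phiE : ℤ ⊕ ℤ → ℤ
  | Sum.inl k => 2 * k
  | Sum.inr l => 2 * l + 1

theorem phiE_bij : Function.Bijective phiE := by
  constructor
  · rintro (a | a) (b | b) h <;> simp only [phiE] at h
    · have : a = b := by omega
      rw [this]
    · exfalso; omega
    · exfalso; omega
    · have : a = b := by omega
      rw [this]
  · intro i
    rcases Int.even_or_odd' i with ⟨k, h | h⟩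
    · exact ⟨Sum.inl k, h.symm⟩
    · exact ⟨Sum.inr k, h.symm⟩

def phiF : ℤ ⊕ ℤ → ℤ
  | Sum.inl k => 2 * k
  | Sum.inr l => -2 * l - 1

theorem phiF_bij : Function.Bijective phiF := by
  constructor
  · rintro (a | a) (b | b) h <;> simp only [phiF] at h
    · have : a = b := by omega
      rw [this]
    · exfalso; omega
    · exfalso; omega
    · have : a = b := by omega
      rw [this]
  · intro i
    rcases Int.even_or_odd' i with ⟨k, h | h⟩
    · exact ⟨Sum.inl k, h.symm⟩
    · refine ⟨Sum.inr (-k - 1), ?_⟩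
      simp only [phiF]; omega

theorem fim_split : fim = expand 4 (by norm_num) fi - 2 * X * expand 8 (by norm_num) psi := by
  have h1 : 2 * X * expand 8 (by norm_num) psi = X * expand 8 (by norm_num) (TS up fun _ => (1:ℤ)) := by
    rw [TS_up_one, map_mul, map_ofNat]; ring
  rw [h1, expand_TS, X_mul_TS (fun i => by have := up_nonneg i; push_cast; linarith)]
  have h2 : fim = TS (fun k : ℤ => 4 * k ^ 2) (fun _ => (1 : ℤ)) +
      TS (fun l : ℤ => ((8 : ℕ) : ℤ) * up l + 1) (fun _ => (-1 : ℤ)) := by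
    unfold fim
    rw [TS_split phiE_bij FF_sq]
    congr 1
    · refine TS_congr (fun k => ?_) fun k => ?_
      · simp only [phiE]; ring
      · simp only [phiE]; exact sg_two_mul k
    · refine TS_congr (fun k => ?_) fun k => ?_
      · simp only [phiE]
        have := two_up k
        push_cast
        linarith
      · simp only [phiE]; rw [sg_add, sg_two_mul, sg_one, one_mul]
  have h3 : TS (fun k : ℤ => 4 * k ^ 2) (fun _ => (1 : ℤ)) = expand 4 (by norm_num) fi := by
    unfold fi
    rw [expand_TS]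
    rfl
  rw [h2, h3, TS_neg, sub_eq_add_neg]

theorem P2_split : P2 = expand 8 (by norm_num) P1 - 2 * X * expand 4 (by norm_num) P2 := by
  have h1 : TS (fun l : ℤ => ((4 : ℕ) : ℤ) * (3 * l ^ 2 + 2 * l) + 1) (fun l => (-2) * (3 * l + 1)) =
      -(2 * X * expand 4 (by norm_num) P2) := by
    have hF : FF fun l : ℤ => ((4 : ℕ) : ℤ) * (3 * l ^ 2 + 2 * l) := FF_smul FF_e4 _ (by norm_num)
    rw [← X_mul_TS (fun l => by have := e4_nonneg l; push_cast; linarith), TS_smul (-2 : ℤ) hF]
    unfold P2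
    rw [expand_TS]
    have : (C (-2 : ℤ) : ℤ⟦X⟧) = -2 := by
      rw [map_neg]; simp
    rw [this]
    ring
  rw [sub_eq_add_neg, ← h1]
  conv_lhs => unfold P2
  rw [TS_split phiF_bij FF_e4]
  congr 1
  · unfold P1
    rw [expand_TS]
    refine TS_congr (fun k => ?_) fun k => ?_
    · simp only [phiF]
      have := two_te21 k
      push_cast
      linarith
    · simp only [phiF]; ring
  · refine TS_congr (fun k => ?_) fun k => ?_
    · simp only [phiF]; push_cast; ring
    · simp only [phiF]; ring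

theorem uniq_fun {D : ℤ⟦X⟧} (h : D = - (2 * X * expand 4 (by norm_num) D)) : D = 0 := by
  ext n
  rw [map_zero]
  induction n using Nat.strong_induction_on with
  | _ n ih =>
    rw [h, map_neg, mul_assoc, show (2 : ℤ⟦X⟧) = C 2 by simp, coeff_C_mul]
    rcases n with _ | m
    · rw [coeff_zero_X_mul]; simp
    · rw [coeff_succ_X_mul, coeff_expand]
      split_ifs with h4
      · rw [ih _ (by omega)]; simp
      · simp

theorem eulx (k j : ℕ) (hk : k ≠ 0) (hj : 1 ≤ j) : expand k hk (eul j) = eul (k * j) :=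
  expand_eul hk hj

theorem P2_eq : P2 = eul 4 ^ 2 * fim := by
  set R : ℤ⟦X⟧ := eul 4 ^ 2 * fim with hR
  have i1 : eul 4 ^ 2 * expand 4 (by norm_num) fi = expand 8 (by norm_num) P1 := by
    have a1 := congrArg (expand 4 (by norm_num)) gfi
    rw [map_mul, map_mul, map_pow, map_pow, map_pow, eulx 4 2 _ (by norm_num),
      eulx 4 1 _ (by norm_num), eulx 4 4 _ (by norm_num)] at a1
    have a2 := congrArg (expand 8 (by norm_num)) gP1
    rw [map_mul, map_pow, map_pow, eulx 8 1 _ (by norm_num), eulx 8 2 _ (by norm_num)] at a2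
    norm_num at a1 a2
    have h3 : eul 16 ^ 2 * (eul 4 ^ 2 * expand 4 (by norm_num) fi - expand 8 (by norm_num) P1) = 0 := by
      linear_combination a2 - a1
    exact sub_eq_zero.1 ((mul_eq_zero.1 h3).resolve_left
      (pow_ne_zero _ (eul_ne_zero (by norm_num))))
  have i2 : eul 4 ^ 2 * expand 8 (by norm_num) psi = expand 4 (by norm_num) R := by
    have a1 := congrArg (expand 4 (by norm_num)) gfim
    rw [map_mul, map_pow, eulx 4 1 _ (by norm_num), eulx 4 2 _ (by norm_num)] at a1
    have a2 := congrArg (expand 8 (by norm_num)) gpsi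
    rw [map_mul, map_pow, eulx 8 1 _ (by norm_num), eulx 8 2 _ (by norm_num)] at a2
    norm_num at a1 a2
    rw [hR, map_mul, map_pow, eulx 4 4 _ (by norm_num)]
    norm_num
    have h3 : eul 8 * (eul 4 ^ 2 * expand 8 (by norm_num) psi -
        eul 16 ^ 2 * expand 4 (by norm_num) fim) = 0 := by
      linear_combination (-(eul 4 ^ 2)) * a2 + (eul 16 ^ 2) * a1
    exact sub_eq_zero.1 ((mul_eq_zero.1 h3).resolve_left (eul_ne_zero (by norm_num)))
  have hRf : R = expand 8 (by norm_num) P1 - 2 * X * expand 4 (by norm_num) R := by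
    rw [← i1, ← i2, hR]
    conv_lhs => rw [fim_split]
    ring
  have hD : P2 - R = -(2 * X * expand 4 (by norm_num) (P2 - R)) := by
    rw [map_sub]
    conv_lhs => rw [P2_split, hRf]
    ring
  exact sub_eq_zero.1 (uniq_fun hD)

theorem gP2 : eul 2 * P2 = eul 1 ^ 2 * eul 4 ^ 2 := by
  rw [P2_eq]
  linear_combination (-(eul 4 ^ 2)) * gfim

/-! ### `f12` -/

/-- the products `∏ (1 - ε X^{a+3i})` -/
noncomputable def AA (a : ℕ) (ε : ℤ) : ℤ⟦X⟧ := ∏' i : ℕ, (1 - C ε * X ^ (a + 3 * i))

theorem AA_mul (a : ℕ) (ha : 1 ≤ a) : AA a 1 * AA a (-1) = expand 2 (by norm_num) (AA a 1) := by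
  unfold AA
  rw [expand_tprod _ (mult_aux 1 a 3 ha (by norm_num)),
    ← (mult_aux 1 a 3 ha (by norm_num)).tprod_mul (mult_aux (-1) a 3 ha (by norm_num))]
  refine tprod_congr fun i => ?_
  rw [map_sub, map_one, map_mul, map_pow, expand_X]
  simp only [map_one, map_neg]
  ring

theorem jtpA : AA 1 1 * AA 2 1 * eul 3 = eul 1 := by
  have h := jtp 1 2 le_rfl (by norm_num) 1 (by norm_num)
  rw [Q279.QS.pentagonal]
  exact h

theorem jtpB : AA 1 (-1) * AA 2 (-1) * eul 3 = f12 := by
  have h := jtp 1 2 le_rfl (by norm_num) (-1) (by norm_num)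
  have h2 : TS (te 1 2) (fun n : ℤ => (- -1 : ℤ) ^ n.natAbs) = f12 := by
    unfold f12
    rw [← TS_equiv (Equiv.neg ℤ) (te 2 1) (fun _ => (1 : ℤ))]
    refine TS_congr (fun n => ?_) fun n => by simp
    simp only [Equiv.neg_apply]
    have a1 := two_te21 (-n)
    have a2 := two_tri n
    unfold te at *
    push_cast at *
    linarith
  rw [← h2]
  exact h

theorem gf12 : eul 1 * eul 6 * f12 = eul 2 * eul 3 ^ 2 := by
  have h1 := congrArg (expand 2 (by norm_num)) jtpA
  rw [map_mul, map_mul, ← AA_mul 1 le_rfl, ← AA_mul 2 (by norm_num), eulx 2 3 _ (by norm_num),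
    eulx 2 1 _ (by norm_num)] at h1
  norm_num at h1
  rw [← jtpB, ← h1]
  conv_lhs => rw [← jtpA]
  ring

end ZT
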