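import Pool.Agent.Q278.ZB

/-!
# The modular function `z` of level 6, and the change of variables in residues
-/

set_option autoImplicit false

namespace ZT

open PowerSeries Q279.QS

/-- the inverse of `eul k` -/
noncomputable def I (k : ℕ) : ℤ⟦X⟧ := invOfUnit (eul k) 1

theorem hI (k : ℕ) (hk : 1 ≤ k) : eul k * I k = 1 :=
  mul_invOfUnit _ _ (by rw [constCoeff_eul hk]; rfl)

theorem th_X : th X = X := by
  ext n
  rw [coeff_th, coeff_X]
  split_ifs with h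
  · rw [h]; simp
  · simp

theorem th_one : th 1 = 0 := by
  ext n
  rw [coeff_th, coeff_one, map_zero]
  split_ifs with h
  · rw [h]; simp
  · simp

theorem th_neg (F : ℤ⟦X⟧) : th (-F) = - th F := by
  ext n
  rw [coeff_th, map_neg, map_neg, coeff_th]; ring

theorem th_sub (F G : ℤ⟦X⟧) : th (F - G) = th F - th G := by
  rw [sub_eq_add_neg, th_add, th_neg, sub_eq_add_neg]

/-- derivative of an inverse -/
theorem th_inv {F G : ℤ⟦X⟧} (h : F * G = 1) : th G = - (G ^ 2 * th F) := by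
  have h1 := th_mul F G
  rw [h, th_one] at h1
  linear_combination (- G) * h1 - th G * h

theorem th_pow' (F : ℤ⟦X⟧) (n : ℕ) : th (F ^ n) * F = n * F ^ n * th F := by
  rcases n with _ | n
  · rw [pow_zero, th_one]; simp
  · rw [th_pow]; push_cast; ring

/-- `z / X` -/
noncomputable def zt : ℤ⟦X⟧ := eul 1 ^ 4 * eul 6 ^ 8 * I 2 ^ 8 * I 3 ^ 4

noncomputable def zi : ℤ⟦X⟧ := I 1 ^ 4 * I 6 ^ 8 * eul 2 ^ 8 * eul 3 ^ 4

/-- the logarithmic derivative of `z` -/
noncomputable def D2 : ℤ⟦X⟧ := eul 1 ^ 4 * eul 3 ^ 4 * I 2 ^ 2 * I 6 ^ 2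

noncomputable def D3 : ℤ⟦X⟧ := eul 1 ^ 3 * eul 2 ^ 3 * I 3 * I 6

noncomputable def Xr : ℤ⟦X⟧ := eul 1 * eul 3 ^ 5 * I 2 ^ 5 * I 6

theorem h1 : eul 1 * I 1 = 1 := hI 1 le_rfl
theorem h2 : eul 2 * I 2 = 1 := hI 2 (by norm_num)
theorem h3 : eul 3 * I 3 = 1 := hI 3 (by norm_num)
theorem h6 : eul 6 * I 6 = 1 := hI 6 (by norm_num)

theorem zt_zi : zt * zi = 1 := by
  have e : zt * zi = (eul 1 * I 1) ^ 4 * (eul 6 * I 6) ^ 8 * (eul 2 * I 2) ^ 8 * (eul 3 * I 3) ^ 4 := by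
    unfold zt zi; ring
  rw [e, h1, h2, h3, h6]; simp

theorem psi_eq : psi = eul 2 ^ 2 * I 1 := by
  linear_combination (-I 1) * gpsi - psi * h1

theorem psi3_eq' : psi3 = eul 6 ^ 2 * I 3 := by
  linear_combination (-I 3) * gpsi3 - psi3 * h3

theorem f12_eq : f12 = eul 2 * eul 3 ^ 2 * I 1 * I 6 := by
  have e : (eul 1 * I 1) * (eul 6 * I 6) * f12 = eul 2 * eul 3 ^ 2 * I 1 * I 6 := by
    linear_combination (I 1 * I 6) * gf12
  rw [h1, h6] at e
  simpa using e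

theorem P1_eq : P1 = eul 1 ^ 5 * I 2 ^ 2 := by
  have e : (eul 2 * I 2) ^ 2 * P1 = eul 1 ^ 5 * I 2 ^ 2 := by
    linear_combination (- I 2 ^ 2) * gP1
  rw [h2] at e
  simpa using e

theorem PP_eq : expand 2 (by norm_num) P1 * P2 = eul 1 ^ 2 * eul 2 ^ 4 := by
  have a2 := congrArg (expand 2 (by norm_num)) gP1
  rw [map_mul, map_pow, map_pow, eulx 2 1 _ (by norm_num), eulx 2 2 _ (by norm_num)] at a2
  norm_num at a2
  have e : (eul 4 ^ 2 * eul 2) * (expand 2 (by norm_num) P1 * P2 - eul 1 ^ 2 * eul 2 ^ 4) = 0 := by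
    linear_combination (- eul 2 * P2) * a2 + eul 2 ^ 5 * gP2
  exact sub_eq_zero.1 ((mul_eq_zero.1 e).resolve_left
    (mul_ne_zero (pow_ne_zero _ (eul_ne_zero (by norm_num))) (eul_ne_zero (by norm_num))))

theorem th_quot {F G Gi W : ℤ⟦X⟧} (n : ℕ) (h : G * Gi = 1) {Fi : ℤ⟦X⟧} (hF : F * Fi = 1)
    (hW : G * F + n * (G * th F - F * th G) = W) :
    th (F ^ n * Gi ^ n) = F ^ n * Gi ^ n * (W * Fi * Gi - 1) := by
  have e1 := th_pow' F n
  have e2 := th_pow' Gi n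
  have e3 := th_inv h
  have e4 : th (F ^ n * Gi ^ n) * (F * Gi) =
      F ^ n * Gi ^ n * (W * Fi * Gi - 1) * (F * Gi) := by
    have a1 : th (F ^ n * Gi ^ n) * (F * Gi) =
        (n * F ^ n * th F) * (Gi ^ n * Gi) + F ^ n * F * (n * Gi ^ n * th Gi) := by
      rw [th_mul, ← e1, ← e2]; ring
    have a2 : F ^ n * Gi ^ n * (W * Fi * Gi - 1) * (F * Gi) =
        F ^ n * Gi ^ n * (W * Gi * Gi * (F * Fi) - F * Gi) := by ring
    rw [a1, a2, hF, e3, ← hW]
    linear_combination (F ^ n * Gi ^ n * Gi) * (-(n : ℤ⟦X⟧) * th F - F) * h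
  have hne : F * Gi ≠ 0 := by
    intro h0
    have : (F * Gi) * (G * Fi) = 1 := by linear_combination (F * Fi) * h + hF
    rw [h0, zero_mul] at this
    exact zero_ne_one this
  exact mul_right_cancel₀ hne e4

theorem th_zt : th zt = zt * (D2 - 1) := by
  have hp : psi * (I 2 ^ 2 * eul 1) = 1 := by
    have e : psi * (I 2 ^ 2 * eul 1) = (eul 2 * I 2) ^ 2 * (eul 1 * I 1) := by rw [psi_eq]; ring
    rw [e, h1, h2]; simp
  have hp3 : psi3 * (I 6 ^ 2 * eul 3) = 1 := by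
    have e : psi3 * (I 6 ^ 2 * eul 3) = (eul 6 * I 6) ^ 2 * (eul 3 * I 3) := by rw [psi3_eq']; ring
    rw [e, h3, h6]; simp
  have h := th_quot 4 hp hp3 (W := eul 1 ^ 3 * eul 3 ^ 3) (by
    rw [← wronA]; push_cast; ring)
  have e1 : psi3 ^ 4 * (I 2 ^ 2 * eul 1) ^ 4 = zt := by
    rw [psi3_eq']; unfold zt; ring
  have e2 : eul 1 ^ 3 * eul 3 ^ 3 * (I 6 ^ 2 * eul 3) * (I 2 ^ 2 * eul 1) = D2 := by
    unfold D2; ring
  rw [e1, e2] at h
  exact h

/-- `w / X` -/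
noncomputable def wt : ℤ⟦X⟧ := eul 1 ^ 3 * eul 6 ^ 9 * I 2 ^ 3 * I 3 ^ 9

theorem th_wt : th wt = wt * (D3 - 1) := by
  have hp : f12 * (eul 1 * eul 6 * I 2 * I 3 ^ 2) = 1 := by
    have e : f12 * (eul 1 * eul 6 * I 2 * I 3 ^ 2) =
      (eul 2 * I 2) * (eul 3 * I 3) ^ 2 * (eul 1 * I 1) * (eul 6 * I 6) := by rw [f12_eq]; ring
    rw [e, h1, h2, h3, h6]; simp
  have hp3 : psi3 * (I 6 ^ 2 * eul 3) = 1 := by
    have e : psi3 * (I 6 ^ 2 * eul 3) = (eul 6 * I 6) ^ 2 * (eul 3 * I 3) := by rw [psi3_eq']; ring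
    rw [e, h3, h6]; simp
  have h := th_quot 3 hp hp3 (W := eul 1 ^ 2 * eul 2 ^ 4) (by
    rw [← PP_eq, ← wronB]; push_cast; ring)
  have e1 : psi3 ^ 3 * (eul 1 * eul 6 * I 2 * I 3 ^ 2) ^ 3 = wt := by
    rw [psi3_eq']; unfold wt; ring
  have e2 : eul 1 ^ 2 * eul 2 ^ 4 * (I 6 ^ 2 * eul 3) * (eul 1 * eul 6 * I 2 * I 3 ^ 2) = D3 := by
    have e : eul 1 ^ 2 * eul 2 ^ 4 * (I 6 ^ 2 * eul 3) * (eul 1 * eul 6 * I 2 * I 3 ^ 2) =
      eul 1 ^ 3 * eul 2 ^ 3 * I 3 * I 6 * (eul 2 * I 2) * (eul 3 * I 3) * (eul 6 * I 6) := by ring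
    rw [e, h2, h3, h6]; unfold D3; ring
  rw [e1, e2] at h
  exact h

theorem zt_wt : zt = wt * Xr := by
  have e : wt * Xr = zt * (eul 3 * I 3) ^ 5 * (eul 6 * I 6) := by unfold wt Xr zt; ring
  rw [e, h3, h6]; ring

theorem D2_D3 : D2 = D3 * Xr := by
  have e : D3 * Xr = D2 * (eul 2 * I 2) ^ 3 * (eul 3 * I 3) := by unfold D2 D3 Xr; ring
  rw [e, h2, h3]; ring

theorem wt_ne : wt ≠ 0 := by
  intro h
  have := zt_zi
  rw [zt_wt, h, zero_mul, zero_mul] at this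
  exact zero_ne_one this

theorem th_Xr : th Xr = D2 * (Xr - 1) := by
  have e1 := th_zt
  rw [zt_wt, th_mul, th_wt, D2_D3] at e1
  have e2 : wt * (th Xr - D3 * Xr * (Xr - 1)) = 0 := by linear_combination e1
  have e3 := sub_eq_zero.1 ((mul_eq_zero.1 e2).resolve_left wt_ne)
  rw [e3, D2_D3]

/-! ### first coefficients -/

def S2 (F : ℤ⟦X⟧) : Prop := constantCoeff F = 1 ∧ coeff 1 F = 0

theorem S2.mul {F G : ℤ⟦X⟧} (hF : S2 F) (hG : S2 G) : S2 (F * G) := by
  refine ⟨by rw [map_mul, hF.1, hG.1, mul_one], ?_⟩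
  rw [coeff_one_mul, hF.2, hG.2]; ring

theorem S2.pow {F : ℤ⟦X⟧} (hF : S2 F) (n : ℕ) : S2 (F ^ n) := by
  induction n with
  | zero => exact ⟨by simp, by rw [pow_zero, coeff_one]; simp⟩
  | succ n ih => rw [pow_succ]; exact ih.mul hF

theorem S2_eul (k : ℕ) (hk : 2 ≤ k) : S2 (eul k) := by
  refine ⟨constCoeff_eul (by omega), ?_⟩
  have := eulx k 1 (by omega) le_rfl
  rw [mul_one] at this
  rw [← this, coeff_expand, if_neg]
  intro h
  have := Nat.le_of_dvd one_pos h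
  omega

theorem S2_I (k : ℕ) (hk : 2 ≤ k) : S2 (I k) := by
  have h := hI k (by omega)
  have hE := S2_eul k hk
  have c1 := congrArg (constantCoeff (R := ℤ)) h
  rw [map_mul, hE.1, one_mul, map_one] at c1
  refine ⟨c1, ?_⟩
  have c2 := congrArg (coeff (R := ℤ) 1) h
  rw [coeff_one_mul, hE.1, hE.2, coeff_one] at c2
  simpa using c2

theorem coeff_eul_one : coeff 1 (eul 1) = -1 := by
  classical
  rw [Q279.QS.pentagonal, coeff_TS, finsum_eq_single _ (1 : ℤ)]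
  · have : te 1 2 1 = 1 := by
      have := two_tri 1
      unfold te; push_cast; linarith
    rw [if_pos (by rw [this]; rfl)]
    simp
  · intro n hn
    rw [if_neg]
    intro h
    have h' := two_tri n
    unfold te at h
    push_cast at h
    have : (n - 1) * (3 * n + 2) = 0 := by nlinarith
    rcases mul_eq_zero.1 this with h0 | h0
    · exact hn (by omega)
    · omega

theorem Xr_zero : constantCoeff Xr = 1 := by
  unfold Xr
  rw [map_mul, map_mul, map_mul, constCoeff_eul le_rfl, ((S2_eul 3 (by norm_num)).pow 5).1,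
    ((S2_I 2 le_rfl).pow 5).1, (S2_I 6 (by norm_num)).1]
  norm_num

theorem Xr_one : coeff 1 Xr = -1 := by
  have h : Xr = eul 1 * (eul 3 ^ 5 * I 2 ^ 5 * I 6) := by unfold Xr; ring
  have hS := (((S2_eul 3 (by norm_num)).pow 5).mul ((S2_I 2 le_rfl).pow 5)).mul
    (S2_I 6 (by norm_num))
  rw [h, coeff_one_mul, hS.1, hS.2, coeff_eul_one]
  ring

/-- **the modular relation** `1 - z = Xr` -/
theorem modular : Xr = 1 - X * zt := by
  obtain ⟨y, hy⟩ : X ∣ 1 - Xr := by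
    rw [X_dvd_iff, map_sub, map_one, Xr_zero, sub_self]
  have hth : th y = (D2 - 1) * y := by
    have e1 : th (1 - Xr) = D2 * (1 - Xr) := by
      rw [th_sub, th_one, th_Xr]; ring
    rw [hy, th_mul, th_X] at e1
    have e2 : X * (th y - (D2 - 1) * y) = 0 := by linear_combination e1
    exact sub_eq_zero.1 ((mul_eq_zero.1 e2).resolve_left X_ne_zero)
  have hzi : th zi = - ((D2 - 1) * zi) := by
    rw [th_inv zt_zi, th_zt]
    linear_combination (-(D2 - 1) * zi) * zt_zi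
  have ht : th (y * zi) = 0 := by
    rw [th_mul, hth, hzi]; ring
  have hc : y * zi = C (constantCoeff (y * zi)) := by
    ext n
    rcases n with _ | n
    · simp
    · have h := congrArg (coeff (R := ℤ) (n + 1)) ht
      rw [coeff_th, map_zero] at h
      have h' : coeff (n + 1) (y * zi) = 0 := by
        rcases mul_eq_zero.1 h with h | h
        · exfalso; push_cast at h; omega
        · exact h
      rw [h', coeff_C, if_neg (by omega)]
  have hy0 : constantCoeff y = 1 := by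
    have h := congrArg (coeff (R := ℤ) 1) hy
    rw [coeff_succ_X_mul, map_sub, coeff_one, Xr_one] at h
    simp at h
    rw [← h]
  have hz0 : constantCoeff zi = 1 := by
    unfold zi
    have c1 := congrArg (constantCoeff (R := ℤ)) h1
    rw [map_mul, constCoeff_eul le_rfl, one_mul, map_one] at c1
    rw [map_mul, map_mul, map_mul, map_pow, c1, ((S2_I 6 (by norm_num)).pow 8).1,
      ((S2_eul 2 le_rfl).pow 8).1, ((S2_eul 3 (by norm_num)).pow 4).1]
    norm_num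
  rw [map_mul, hy0, hz0, mul_one, map_one] at hc
  have : y = zt := by linear_combination (-y) * zt_zi + zt * hc
  rw [this] at hy
  linear_combination -hy

/-! ### residues -/

theorem coeff_key {D ζi : ℤ⟦X⟧} (hD : th ζi = - ((D - 1) * ζi)) (hne : ζi ≠ 0) (k : ℕ)
    (hk : 1 ≤ k) : coeff k (ζi ^ k * D) = 0 := by
  have e1 := th_pow' ζi k
  have e2 : th (ζi ^ k) = - (k * ((D - 1) * ζi ^ k)) := by
    refine mul_right_cancel₀ hne ?_
    rw [e1, hD]; ring
  have e3 := congrArg (coeff (R := ℤ) k) e2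
  have e4 : (k : ℤ⟦X⟧) = C (k : ℤ) := by simp
  rw [coeff_th, map_neg, e4, coeff_C_mul, show (D - 1) * ζi ^ k = ζi ^ k * D - ζi ^ k by ring,
    map_sub] at e3
  have e5 : (k : ℤ) * coeff k (ζi ^ k * D) = 0 := by linarith
  rcases mul_eq_zero.1 e5 with h | h
  · exfalso
    have : k = 0 := by exact_mod_cast h
    omega
  · exact h

theorem resid {D ζ ζi : ℤ⟦X⟧} (h : ζ * ζi = 1) (hD : th ζi = - ((D - 1) * ζi))
    (h0 : constantCoeff D = 1) (N f : ℕ) :
    coeff f ((1 - X * ζ) ^ N * ζi ^ f * D) = (-1) ^ f * (N.choose f : ℤ) := by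
  have hne : ζi ≠ 0 := by
    intro h'
    rw [h', mul_zero] at h
    exact zero_ne_one h
  have e1 : (1 - X * ζ) ^ N = ∑ j ∈ Finset.range (N + 1),
      C ((-1) ^ j * (N.choose j : ℤ)) * (X ^ j * ζ ^ j) := by
    rw [sub_eq_add_neg, add_comm, add_pow]
    refine Finset.sum_congr rfl fun j _ => ?_
    rw [map_mul, map_pow, map_neg, map_one, map_natCast, one_pow, neg_pow, mul_pow]
    ring
  rw [e1, Finset.sum_mul, Finset.sum_mul, map_sum]
  have term : ∀ j, coeff f (C ((-1) ^ j * (N.choose j : ℤ)) * (X ^ j * ζ ^ j) * ζi ^ f * D) =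
      if j = f then (-1) ^ f * (N.choose f : ℤ) else 0 := by
    intro j
    rw [show C ((-1) ^ j * (N.choose j : ℤ)) * (X ^ j * ζ ^ j) * ζi ^ f * D =
      C ((-1) ^ j * (N.choose j : ℤ)) * (X ^ j * (ζ ^ j * ζi ^ f * D)) by ring, coeff_C_mul,
      coeff_X_pow_mul']
    split_ifs with h2 h3 h3
    · subst h3
      rw [Nat.sub_self, ← mul_pow, h, one_pow, one_mul, coeff_zero_eq_constantCoeff, h0, mul_one]
    · have hk : ζ ^ j * ζi ^ f = ζi ^ (f - j) := by
        obtain ⟨k, rfl⟩ : ∃ k, f = j + k := ⟨f - j, by omega⟩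
        rw [pow_add, ← mul_assoc, ← mul_pow, h, one_pow, one_mul, Nat.add_sub_cancel_left]
      rw [hk, coeff_key hD hne _ (by omega), mul_zero]
    · omega
    · rw [mul_zero]
  rw [Finset.sum_congr rfl fun j _ => term j, Finset.sum_ite_eq' (Finset.range (N + 1)) f]
  split_ifs with h2
  · rfl
  · rw [Nat.choose_eq_zero_of_lt (by rw [Finset.mem_range] at h2; omega)]
    simp

theorem modp (p : ℕ) [Fact p.Prime] (H G : ℤ⟦X⟧) (hG : constantCoeff G = 1) (f : ℕ) (hf : f < p) :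
    (p : ℤ) ∣ coeff f (H * G ^ p) - coeff f H := by
  obtain ⟨g, hg⟩ : X ∣ G - 1 := by rw [X_dvd_iff, map_sub, map_one, hG, sub_self]
  have hG' : G = 1 + X * g := by linear_combination hg
  rw [← map_sub, ← coeff_red_eq_zero, map_sub, map_mul, map_pow, hG', map_add, map_one, map_mul]
  have : CharP (ZMod p)⟦X⟧ p := charP_of_injective_ringHom (C_injective (R := ZMod p)) p
  rw [add_pow_char, one_pow, mul_pow, map_X, mul_add, mul_one, add_sub_cancel_left, ← mul_assoc,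
    mul_comm _ (X ^ p), mul_assoc, coeff_X_pow_mul', if_neg (by omega)]

theorem D2_zero : constantCoeff D2 = 1 := by
  unfold D2
  rw [map_mul, map_mul, map_mul, map_pow, constCoeff_eul le_rfl, ((S2_eul 3 (by norm_num)).pow 4).1,
    ((S2_I 2 le_rfl).pow 2).1, ((S2_I 6 (by norm_num)).pow 2).1]
  norm_num

theorem th_zi : th zi = - ((D2 - 1) * zi) := by
  rw [th_inv zt_zi, th_zt]
  linear_combination (-(D2 - 1) * zi) * zt_zi

theorem choose_coeff (N f : ℕ) : coeff f (Xr ^ N * zi ^ f * D2) = (-1) ^ f * (N.choose f : ℤ) := by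
  rw [modular]
  exact resid zt_zi th_zi D2_zero N f

noncomputable def GG : ℤ⟦X⟧ := eul 3 ^ 2 * I 2 * I 6

theorem GG_zero : constantCoeff GG = 1 :=
  ((((S2_eul 3 (by norm_num)).pow 2).mul (S2_I 2 le_rfl)).mul (S2_I 6 (by norm_num))).1

theorem five (p f : ℕ) (hp : p.Prime) (h : p = 12 * f + 5) :
    (p : ℤ) ∣ (-1) ^ f * ((4 * f + 1).choose f : ℤ) - coeff f (P1 * psi3) := by
  have : Fact p.Prime := ⟨hp⟩
  have e : Xr ^ (4 * f + 1) * zi ^ f * D2 = (P1 * psi3) * GG ^ p := by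
    have e1 : Xr ^ (4 * f + 1) * zi ^ f * D2 = (eul 1 * I 1) ^ (4 * f) * (eul 2 * I 2) ^ (8 * f) *
        (eul 1 ^ 5 * I 2 ^ (12 * f + 7) * eul 3 ^ (24 * f + 9) * I 6 ^ (12 * f + 3)) := by
      unfold Xr zi D2
      ring
    have e2 : (P1 * psi3) * GG ^ p = (eul 6 * I 6) ^ 2 * (eul 3 * I 3) *
        (eul 1 ^ 5 * I 2 ^ (12 * f + 7) * eul 3 ^ (24 * f + 9) * I 6 ^ (12 * f + 3)) := by
      rw [P1_eq, psi3_eq', h]
      unfold GG
      ring
    rw [e1, e2, h1, h2, h3, h6]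
    simp
  have := modp p (P1 * psi3) GG GG_zero f (by omega)
  rw [← e, choose_coeff] at this
  exact this

theorem one (p f : ℕ) (hp : p.Prime) (h : p = 12 * f + 1) :
    (p : ℤ) ∣ (-1) ^ f * ((4 * f).choose f : ℤ) - coeff f (P1 * f12) := by
  have : Fact p.Prime := ⟨hp⟩
  have e : Xr ^ (4 * f) * zi ^ f * D2 = (P1 * f12) * GG ^ p := by
    have e1 : Xr ^ (4 * f) * zi ^ f * D2 = (eul 1 * I 1) ^ (4 * f) * (eul 2 * I 2) ^ (8 * f) *
        (eul 1 ^ 4 * I 2 ^ (12 * f + 2) * eul 3 ^ (24 * f + 4) * I 6 ^ (12 * f + 2)) := by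
      unfold Xr zi D2
      ring
    have e2 : (P1 * f12) * GG ^ p = (eul 1 * I 1) * (eul 2 * I 2) *
        (eul 1 ^ 4 * I 2 ^ (12 * f + 2) * eul 3 ^ (24 * f + 4) * I 6 ^ (12 * f + 2)) := by
      rw [P1_eq, f12_eq, h]
      unfold GG
      ring
    rw [e1, e2, h1, h2]
    simp
  have := modp p (P1 * f12) GG GG_zero f (by omega)
  rw [← e, choose_coeff] at this
  exact this

end ZT
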