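import Pool.Agent.Q278.ZC

/-!
# The theta coefficients and the representations by `x^2 + 9 y^2`
-/

set_option autoImplicit false

namespace ZT

open PowerSeries Q279.QS

theorem uniq_rep (p : ℕ) (hp : p.Prime) (k : ℤ) (hk : k = 1 ∨ k = 2) (u v x y : ℤ)
    (h1 : u ^ 2 + 9 * v ^ 2 = k * p) (h2 : x ^ 2 + 9 * y ^ 2 = k * p) : v ^ 2 = y ^ 2 := by
  have hpp := Nat.prime_iff_prime_int.mp hp
  have hp0 : (0 : ℤ) < p := by exact_mod_cast hp.pos
  have hk0 : 0 < k := by rcases hk with rfl | rfl <;> norm_num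
  have hk4 : k ^ 2 ≤ 4 := by rcases hk with rfl | rfl <;> norm_num
  have hd : (p : ℤ) ∣ (u * y - x * v) * (u * y + x * v) := by
    refine ⟨k * (y ^ 2 - v ^ 2), ?_⟩
    linear_combination y ^ 2 * h1 - v ^ 2 * h2
  have main : ∀ s : ℤ, s ^ 2 = 1 → (p : ℤ) ∣ u * y - s * (x * v) → v ^ 2 = y ^ 2 := by
    rintro s hs ⟨t, ht⟩
    have e1 : (u * x + 9 * s * (v * y)) ^ 2 + 9 * (u * y - s * (x * v)) ^ 2 = (k * p) * (k * p) := by
      have e2 : (u ^ 2 + 9 * v ^ 2) * (x ^ 2 + 9 * y ^ 2) = (k * p) * (k * p) := by rw [h1, h2]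
      rw [← e2]
      linear_combination (81 * (v * y) ^ 2 + 9 * (x * v) ^ 2) * hs
    have ht0 : t = 0 := by
      by_contra hne
      have h3 : 1 ≤ t ^ 2 := by
        have : 0 < t ^ 2 := by positivity
        omega
      rw [ht] at e1
      have h4 : 9 * (p : ℤ) ^ 2 * t ^ 2 ≤ k ^ 2 * p ^ 2 := by nlinarith [sq_nonneg (u * x + 9 * s * (v * y))]
      have hp2 : 0 < (p : ℤ) ^ 2 := by positivity
      nlinarith
    rw [ht0, mul_zero] at ht
    have e3 : u ^ 2 * y ^ 2 = x ^ 2 * v ^ 2 := by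
      have : u * y = s * (x * v) := by linarith
      calc u ^ 2 * y ^ 2 = (u * y) ^ 2 := by ring
        _ = s ^ 2 * (x ^ 2 * v ^ 2) := by rw [this]; ring
        _ = _ := by rw [hs, one_mul]
    have e4 : (k * p) * (v ^ 2 - y ^ 2) = 0 := by
      linear_combination y ^ 2 * h1 - v ^ 2 * h2 - e3
    rcases mul_eq_zero.1 e4 with h | h
    · exfalso
      have : 0 < k * (p : ℤ) := by positivity
      omega
    · linarith
  rcases hpp.dvd_or_dvd hd with h | h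
  · refine main 1 (by norm_num) ?_
    rwa [one_mul]
  · refine main (-1) (by norm_num) ?_
    rwa [show u * y - -1 * (x * v) = u * y + x * v by ring]

theorem rep_eq (p : ℕ) (hp : p.Prime) (k : ℤ) (hk : k = 1 ∨ k = 2) (u v x y : ℤ)
    (h1 : u ^ 2 + 9 * v ^ 2 = k * p) (h2 : x ^ 2 + 9 * y ^ 2 = k * p) (hu : u % 3 = 1)
    (hx : x % 3 = 1) : u = x ∧ (v = y ∨ v = -y) := by
  have h := uniq_rep p hp k hk u v x y h1 h2
  refine ⟨?_, sq_eq_sq_iff_eq_or_eq_neg.1 h⟩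
  have h3 : u ^ 2 = x ^ 2 := by linarith
  rcases sq_eq_sq_iff_eq_or_eq_neg.1 h3 with h4 | h4
  · exact h4
  · omega

theorem odd_aux (f x y : ℤ) (h : x ^ 2 + 9 * y ^ 2 = 24 * f + 10) : x % 2 = 1 ∧ y % 2 = 1 := by
  rcases Int.even_or_odd' x with ⟨a, ha | ha⟩ <;> rcases Int.even_or_odd' y with ⟨b, hb | hb⟩
  · exfalso
    have : 4 * a ^ 2 + 36 * b ^ 2 = 24 * f + 10 := by rw [← h, ha, hb]; ring
    omega
  · exfalso
    have : 4 * a ^ 2 + 36 * b ^ 2 + 36 * b + 9 = 24 * f + 10 := by rw [← h, ha, hb]; ring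
    omega
  · exfalso
    have : 4 * a ^ 2 + 4 * a + 1 + 36 * b ^ 2 = 24 * f + 10 := by rw [← h, ha, hb]; ring
    omega
  · omega

theorem coeff_five (p f : ℕ) (hp : p.Prime) (h : p = 12 * f + 5) (x y : ℤ)
    (hxy : x ^ 2 + 9 * y ^ 2 = 2 * p) (hx : x % 3 = 1) : coeff f (P1 * psi3) = x := by
  classical
  have hpf : (p : ℤ) = 12 * f + 5 := by exact_mod_cast h
  obtain ⟨o1, o2⟩ := odd_aux f x y (by rw [hxy, hpf]; ring)
  obtain ⟨m, hm⟩ : ∃ m, x = 6 * m + 1 := ⟨(x - 1) / 6, by omega⟩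
  obtain ⟨n, hn⟩ : ∃ n, 4 * n - 1 = y ∨ 4 * n - 1 = -y := by
    have : y % 4 = 3 ∨ y % 4 = 1 := by omega
    rcases this with h' | h'
    · exact ⟨(y + 1) / 4, Or.inl (by omega)⟩
    · exact ⟨(-y + 1) / 4, Or.inr (by omega)⟩
  have hn2 : (4 * n - 1) ^ 2 = y ^ 2 := by rcases hn with h' | h' <;> rw [h'] <;> ring
  have key : ∀ i j : ℤ, te 2 1 i + 3 * (2 * j ^ 2 - j) = (f : ℤ) ↔
      (6 * i + 1) ^ 2 + 9 * (4 * j - 1) ^ 2 = 2 * p := by
    intro i j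
    have := two_te21 i
    constructor
    · intro h'
      rw [hpf]
      nlinarith
    · intro h'
      rw [hpf] at h'
      nlinarith
  unfold P1 psi3
  rw [TS_mul FF_te21 FF_e3 te21_nonneg e3_nonneg, coeff_TS, finsum_eq_single _ ((m, n) : ℤ × ℤ)]
  · rw [if_pos]
    · rw [hm]; ring
    · refine (key m n).2 ?_
      rw [hn2, ← hm, hxy]
  · rintro ⟨i, j⟩ hne
    rw [if_neg]
    intro h'
    have h2 := (key i j).1 h'
    obtain ⟨e1, e2⟩ := rep_eq p hp 2 (Or.inr rfl) _ _ x y h2 hxy (by omega) hx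
    apply hne
    have a1 : i = m := by omega
    have a2 : j = n := by rcases e2 with e | e <;> rcases hn with e' | e' <;> omega
    rw [a1, a2]

theorem coeff_one' (p f : ℕ) (hp : p.Prime) (h : p = 12 * f + 1) (x y : ℤ)
    (hxy : x ^ 2 + 9 * y ^ 2 = p) (hx : x % 3 = 1) : coeff f (P1 * f12) = 2 * x := by
  classical
  have hpf : (p : ℤ) = 12 * f + 1 := by exact_mod_cast h
  have hy0 : y ≠ 0 := by
    rintro rfl
    have h1 : x ^ 2 = (p : ℤ) := by linarith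
    have h2 : x.natAbs ^ 2 = p := by
      have := congrArg Int.natAbs h1
      rwa [Int.natAbs_pow, Int.natAbs_natCast] at this
    have h3 := hp
    rw [← h2] at h3
    exact Nat.Prime.not_prime_pow le_rfl h3
  obtain ⟨t, ht⟩ : ∃ t, x = 3 * t + 1 := ⟨(x - 1) / 3, by omega⟩
  have hpar : (t + y) % 2 = 0 := by
    rcases Int.even_or_odd' t with ⟨a, ha | ha⟩ <;> rcases Int.even_or_odd' y with ⟨b, hb | hb⟩
    · omega
    · exfalso
      have : (3 * (2 * a) + 1) ^ 2 + 9 * (2 * b + 1) ^ 2 = 12 * f + 1 := by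
        rw [← ha, ← hb, ← ht, ← hpf]; exact hxy
      have : 36 * a ^ 2 + 12 * a + 1 + 36 * b ^ 2 + 36 * b + 9 = 12 * f + 1 := by linarith
      omega
    · exfalso
      have : (3 * (2 * a + 1) + 1) ^ 2 + 9 * (2 * b) ^ 2 = 12 * f + 1 := by
        rw [← ha, ← hb, ← ht, ← hpf]; exact hxy
      have : 36 * a ^ 2 + 48 * a + 16 + 36 * b ^ 2 = 12 * f + 1 := by linarith
      omega
    · omega
  have key : ∀ i j : ℤ, te 2 1 i + te 2 1 j = (f : ℤ) ↔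
      (3 * (i + j) + 1) ^ 2 + 9 * (i - j) ^ 2 = p := by
    intro i j
    have := two_te21 i
    have := two_te21 j
    constructor
    · intro h'
      rw [hpf]
      nlinarith
    · intro h'
      rw [hpf] at h'
      nlinarith
  set a : ℤ := (t + y) / 2 with ha
  set b : ℤ := (t - y) / 2 with hb
  have ha2 : 2 * a = t + y := by omega
  have hb2 : 2 * b = t - y := by omega
  have hab : ((a, b) : ℤ × ℤ) ≠ (b, a) := by
    intro h'
    rw [Prod.mk.injEq] at h'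
    omega
  unfold P1 f12
  rw [TS_mul FF_te21 FF_te21 te21_nonneg te21_nonneg, coeff_TS,
    finsum_eq_sum_of_support_subset (s := {((a, b) : ℤ × ℤ), (b, a)})]
  · rw [Finset.sum_pair hab, if_pos, if_pos]
    · have : a + b = t := by omega
      simp only
      rw [ht]
      linarith
    · refine (key b a).2 ?_
      have e1 : 3 * (b + a) + 1 = x := by omega
      have e2 : b - a = -y := by omega
      rw [e1, e2, ← hxy]; ring
    · refine (key a b).2 ?_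
      have e1 : 3 * (a + b) + 1 = x := by omega
      have e2 : a - b = y := by omega
      rw [e1, e2, ← hxy]
  · rintro ⟨i, j⟩ hij
    have h' : te 2 1 i + te 2 1 j = (f : ℤ) := by
      by_contra hne
      rw [Function.mem_support, if_neg hne] at hij
      exact hij rfl
    have h2 := (key i j).1 h'
    obtain ⟨e1, e2⟩ := rep_eq p hp 1 (Or.inl rfl) _ _ x y (by rw [one_mul]; exact h2)
      (by rw [one_mul]; exact hxy) (by omega) hx
    rw [Finset.coe_pair, Set.mem_insert_iff, Set.mem_singleton_iff, Prod.mk.injEq, Prod.mk.injEq]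
    rcases e2 with e | e
    · left; omega
    · right; omega

theorem main_five (p : ℕ) (hp : p.Prime) (h : p % 12 = 5) (x y : ℤ)
    (hxy : 2 * (p : ℤ) = x ^ 2 + 9 * y ^ 2) (hx : x % 3 = 1) :
    (-1) ^ (p / 12) * ((p / 3).choose (p / 12) : ℤ) ≡ x [ZMOD p] := by
  have e1 : p = 12 * (p / 12) + 5 := by omega
  have e2 : p / 3 = 4 * (p / 12) + 1 := by omega
  have h1 := five p (p / 12) hp e1
  rw [coeff_five p (p / 12) hp e1 x y hxy.symm hx] at h1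
  rw [e2]
  exact (Int.modEq_iff_dvd.2 h1).symm

theorem main_one (p : ℕ) (hp : p.Prime) (h : p % 12 = 1) (x y : ℤ)
    (hxy : (p : ℤ) = x ^ 2 + 9 * y ^ 2) (hx : x % 3 = 1) :
    (-1) ^ (p / 12) * ((p / 3).choose (p / 12) : ℤ) ≡ 2 * x [ZMOD p] := by
  have e1 : p = 12 * (p / 12) + 1 := by omega
  have e2 : p / 3 = 4 * (p / 12) := by omega
  have h1 := one p (p / 12) hp e1
  rw [coeff_one' p (p / 12) hp e1 x y hxy.symm hx] at h1
  rw [e2]
  exact (Int.modEq_iff_dvd.2 h1).symm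

theorem sign_fix (a : ℤ) (h : a % 3 ≠ 0) : ∃ x : ℤ, x ^ 2 = a ^ 2 ∧ x % 3 = 1 := by
  have : a % 3 = 1 ∨ a % 3 = 2 := by omega
  rcases this with h' | h'
  · exact ⟨a, rfl, h'⟩
  · exact ⟨-a, by ring, by omega⟩

theorem sq_mod3 (a : ℤ) : (a % 3 = 0 ∧ a ^ 2 % 3 = 0) ∨ (a % 3 ≠ 0 ∧ a ^ 2 % 3 = 1) := by
  have : a % 3 = 0 ∨ a % 3 = 1 ∨ a % 3 = 2 := by omega
  rcases this with h | h | h
  · left; refine ⟨h, ?_⟩; rw [pow_two, Int.mul_emod, h]; rfl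
  · right; refine ⟨by omega, ?_⟩; rw [pow_two, Int.mul_emod, h]; rfl
  · right; refine ⟨by omega, ?_⟩; rw [pow_two, Int.mul_emod, h]; rfl

theorem exists_one (p : ℕ) (hp : p.Prime) (h : p % 12 = 1) :
    ∃ x y : ℤ, (p : ℤ) = x ^ 2 + 9 * y ^ 2 ∧ x % 3 = 1 := by
  have : Fact p.Prime := ⟨hp⟩
  obtain ⟨a, b, hab⟩ := Nat.Prime.sq_add_sq (p := p) (by omega)
  have hab' : (a : ℤ) ^ 2 + (b : ℤ) ^ 2 = p := by exact_mod_cast hab
  have h3 : ((p : ℤ)) % 3 = 1 := by omega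
  rcases sq_mod3 a with ⟨ha, ha2⟩ | ⟨ha, ha2⟩ <;> rcases sq_mod3 b with ⟨hb, hb2⟩ | ⟨hb, hb2⟩
  · omega
  · obtain ⟨x, hx1, hx2⟩ := sign_fix b hb
    refine ⟨x, a / 3, ?_, hx2⟩
    obtain ⟨c, hc⟩ : ∃ c : ℤ, (a : ℤ) = 3 * c := ⟨a / 3, by omega⟩
    have : (a : ℤ) / 3 = c := by omega
    rw [this, hx1, ← hab', hc]; ring
  · obtain ⟨x, hx1, hx2⟩ := sign_fix a ha
    refine ⟨x, b / 3, ?_, hx2⟩
    obtain ⟨c, hc⟩ : ∃ c : ℤ, (b : ℤ) = 3 * c := ⟨b / 3, by omega⟩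
    have : (b : ℤ) / 3 = c := by omega
    rw [this, hx1, ← hab', hc]; ring
  · omega

theorem exists_five (p : ℕ) (hp : p.Prime) (h : p % 12 = 5) :
    ∃ x y : ℤ, 2 * (p : ℤ) = x ^ 2 + 9 * y ^ 2 ∧ x % 3 = 1 := by
  have : Fact p.Prime := ⟨hp⟩
  obtain ⟨a, b, hab⟩ := Nat.Prime.sq_add_sq (p := p) (by omega)
  have hab' : (a : ℤ) ^ 2 + (b : ℤ) ^ 2 = p := by exact_mod_cast hab
  have h3 : ((p : ℤ)) % 3 = 2 := by omega
  have hA : (a : ℤ) % 3 ≠ 0 ∧ (b : ℤ) % 3 ≠ 0 := by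
    rcases sq_mod3 a with ⟨ha, ha2⟩ | ⟨ha, ha2⟩ <;> rcases sq_mod3 b with ⟨hb, hb2⟩ | ⟨hb, hb2⟩ <;>
      omega
  obtain ⟨hA, hB⟩ := hA
  have h4 : ((a : ℤ) + b) % 3 = 0 ∧ ((a : ℤ) - b) % 3 ≠ 0 ∨
      ((a : ℤ) - b) % 3 = 0 ∧ ((a : ℤ) + b) % 3 ≠ 0 := by
    have c1 : (a : ℤ) % 3 = 1 ∨ (a : ℤ) % 3 = 2 := by omega
    have c2 : (b : ℤ) % 3 = 1 ∨ (b : ℤ) % 3 = 2 := by omega
    rcases c1 with c1 | c1 <;> rcases c2 with c2 | c2 <;> omega
  rcases h4 with ⟨e1, e2⟩ | ⟨e1, e2⟩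
  · obtain ⟨x, hx1, hx2⟩ := sign_fix _ e2
    obtain ⟨c, hc⟩ : ∃ c : ℤ, (a : ℤ) + b = 3 * c := ⟨((a : ℤ) + b) / 3, by omega⟩
    refine ⟨x, c, ?_, hx2⟩
    rw [hx1, ← hab']
    have : (9 : ℤ) * c ^ 2 = (3 * c) ^ 2 := by ring
    rw [this, ← hc]; ring
  · obtain ⟨x, hx1, hx2⟩ := sign_fix _ e2
    obtain ⟨c, hc⟩ : ∃ c : ℤ, (a : ℤ) - b = 3 * c := ⟨((a : ℤ) - b) / 3, by omega⟩
    refine ⟨x, c, ?_, hx2⟩
    rw [hx1, ← hab']
    have : (9 : ℤ) * c ^ 2 = (3 * c) ^ 2 := by ring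
    rw [this, ← hc]; ring

end ZT
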